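import Pool.Agent.Lib.MP_b9fd58_lc.FnMod

/-!
# Line modules with coefficients (strings, bands): spreading a vector, decomposition
-/

set_option autoImplicit false

namespace StrAlg

section
variable {D : Dat} {nx : Fin D.nV → Bool → Fin 3 → Fin D.nV × Bool}

/-- a line with a period `l` (`0` for strings), a set of positions `Z` and a monodromy `T` on the coefficient space:
the module of all `m : Z → V` with `T (m (p + l)) = m p` -/
structure LB (D : Dat) (k : Type) [Field k] (nx : Fin D.nV → Bool → Fin 3 → Fin D.nV × Bool)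
    (A : Ends (Fin D.nV) (Fin D.nE)) (V : Type) [AddCommGroup V] [Module k V] where
  L : Ln (Fin D.nV) nx
  l : ℕ
  Z : Set ℤ
  T : V ≃ₗ[k] V
  ok : L.Ok A
  per : L.IsPer l
  norel : L.NoRel A
  Zper : ∀ p : ℤ, p + l ∈ Z ↔ p ∈ Z
  Zcl : ∀ e p, p ∈ Z → L.lt e p ≠ 1 → st e p ∈ Z
  Zabs : ∀ p ∈ Z, L.Abs p
  T0 : l = 0 → T = LinearEquiv.refl k V

namespace LB
variable {k : Type} [Field k] {A : Ends (Fin D.nV) (Fin D.nE)} {V : Type} [AddCommGroup V] [Module k V]
variable (B : LB D k nx A V)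

theorem Ln_sd_per {L : Ln (Fin D.nV) nx} {l : ℕ} (h : L.IsPer l) (e : Bool) : Per l (L.sd e) := by
  intro a
  unfold Ln.sd
  rw [h.r a]

theorem st_add (e : Bool) (p l : ℤ) : st e (p + l) = st e p + l := by cases e <;> simp <;> ring

/-- the space of functions -/
def S : Submodule k (ℤ → V) where
  carrier := {m | (∀ p, p ∉ B.Z → m p = 0) ∧ ∀ p, B.T (m (p + B.l)) = m p}
  zero_mem' := ⟨fun _ _ => rfl, fun _ => map_zero _⟩
  add_mem' := fun {m m'} h h' => ⟨fun p hp => by rw [Pi.add_apply, h.1 p hp, h'.1 p hp, add_zero],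
    fun p => by rw [Pi.add_apply, map_add, h.2 p, h'.2 p, Pi.add_apply]⟩
  smul_mem' := fun c m h => ⟨fun p hp => by rw [Pi.smul_apply, h.1 p hp, smul_zero],
    fun p => by rw [Pi.smul_apply, map_smul, h.2 p, Pi.smul_apply]⟩

theorem mem_S {m : ℤ → V} : m ∈ B.S ↔ (∀ p, p ∉ B.Z → m p = 0) ∧ ∀ p, B.T (m (p + B.l)) = m p := Iff.rfl

/-- the op preserves functions supported on a closed set of positions -/
theorem supp_fop {Z : Set ℤ} {L : Ln (Fin D.nV) nx} (hcl : ∀ e p, p ∈ Z → L.lt e p ≠ 1 → st e p ∈ Z)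
    (g : D.Gen) {m : ℤ → V} (h : ∀ p, p ∉ Z → m p = 0) (p : ℤ) (hp : p ∉ Z) : fop k A L g m p = 0 := by
  cases g with
  | inl i => rw [fop_inl, h p hp, ite_self]
  | inr α =>
    rw [fop_inr]
    refine Finset.sum_eq_zero (fun e _ => ?_)
    split_ifs with h1
    · apply h
      intro h2
      apply hp
      have h3 := hcl (!e) (st e p) h2 (by rw [Ln.lt_back, h1.1]; decide)
      rwa [st_not_st] at h3
    · rfl

theorem fop_mem (g : D.Gen) {m : ℤ → V} (h : m ∈ B.S) : fop k A B.L g m ∈ B.S := by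
  refine ⟨supp_fop B.Zcl g h.1, ?_⟩
  intro p
  cases g with
  | inl i =>
    rw [fop_inl, fop_inl, B.per.v p]
    split_ifs
    · exact h.2 p
    · exact map_zero _
  | inr α =>
    rw [fop_inr, fop_inr, map_sum]
    refine Finset.sum_congr rfl (fun e _ => ?_)
    rw [B.per.v p, B.per.lt e p, Ln_sd_per B.per e p, st_add]
    split_ifs
    · exact h.2 _
    · exact map_zero _

/-- iterated equivariance -/
theorem S_zpow {m : ℤ → V} (h : m ∈ B.S) (p j : ℤ) : (B.T ^ j) (m (p + j * B.l)) = m p := by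
  have h1 : ∀ n : ℕ, ∀ p, (B.T ^ n) (m (p + n * B.l)) = m p := by
    intro n
    induction n with
    | zero => intro p; simp
    | succ n ih =>
      intro p
      rw [pow_succ, LinearEquiv.mul_apply]
      have : p + ((n + 1 : ℕ) : ℤ) * B.l = (p + n * B.l) + B.l := by push_cast; ring
      rw [this, h.2, ih]
  obtain ⟨n, rfl | rfl⟩ := j.eq_nat_or_neg
  · rw [zpow_natCast]; exact h1 n p
  · have h2 := h1 n (p + -(n : ℤ) * B.l)
    have e1 : p + -(n : ℤ) * B.l + n * B.l = p := by ring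
    rw [e1] at h2
    rw [← h2, zpow_neg, zpow_natCast]
    show (B.T ^ n)⁻¹ ((B.T ^ n) (m p)) = m p
    rw [← LinearEquiv.mul_apply, inv_mul_cancel]; rfl

/-- spread the vector `v` from the position `a` -/
def spr (a : ℤ) : V →ₗ[k] (ℤ → V) where
  toFun v := fun b => if (B.l : ℤ) ∣ (a - b) then (B.T ^ ((a - b) / B.l)) v else 0
  map_add' v v' := by
    funext b; simp only [Pi.add_apply]; split_ifs
    · rw [map_add]
    · rw [add_zero]
  map_smul' c v := by
    funext b; simp only [Pi.smul_apply, RingHom.id_apply]; split_ifs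
    · rw [map_smul]
    · rw [smul_zero]

theorem spr_apply (a : ℤ) (v : V) (b : ℤ) :
    B.spr a v b = if (B.l : ℤ) ∣ (a - b) then (B.T ^ ((a - b) / B.l)) v else 0 := rfl

theorem spr_self (a : ℤ) (v : V) : B.spr a v a = v := by
  rw [spr_apply, if_pos (by simp)]
  simp

theorem T_zpow_zero_l (h : B.l = 0) (j : ℤ) (v : V) : (B.T ^ j) v = v := by
  rw [B.T0 h]
  have : (LinearEquiv.refl k V : V ≃ₗ[k] V) = 1 := rfl
  rw [this, one_zpow]; rfl

theorem spr_shift (a : ℤ) (v : V) (b : ℤ) : B.T (B.spr a v (b + B.l)) = B.spr a v b := by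
  rcases Nat.eq_zero_or_pos B.l with h0 | h0
  · have hT : ∀ x, B.T x = x := by intro x; rw [B.T0 h0]; rfl
    rw [hT, h0]; simp
  · rw [spr_apply, spr_apply]
    have hl : (B.l : ℤ) ≠ 0 := by exact_mod_cast h0.ne'
    have e1 : a - (b + B.l) = (a - b) + (-1) * B.l := by ring
    rw [e1]
    have e2 : (B.l : ℤ) ∣ (a - b) + (-1) * B.l ↔ (B.l : ℤ) ∣ (a - b) := by
      constructor
      · intro h; simpa using (Int.dvd_add_left (Dvd.intro_left (-1) rfl)).1 h
      · intro h; exact dvd_add h (Dvd.intro_left (-1) rfl)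
    by_cases h : (B.l : ℤ) ∣ (a - b)
    · rw [if_pos (e2.2 h), if_pos h, Int.add_mul_ediv_right _ _ hl]
      have : (a - b) / (B.l : ℤ) = 1 + ((a - b) / (B.l : ℤ) + -1) := by ring
      conv_rhs => rw [this, zpow_add, zpow_one]
      rfl
    · rw [if_neg (fun h' => h (e2.1 h')), if_neg h, map_zero]

theorem Z_mul (p j : ℤ) : p + j * B.l ∈ B.Z ↔ p ∈ B.Z := by
  have : Per B.l (fun p => p ∈ B.Z) := fun p => propext (B.Zper p)
  have := this.mul p j
  simp only [eq_iff_iff] at this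
  exact this

theorem spr_mem {a : ℤ} (ha : a ∈ B.Z) (v : V) : B.spr a v ∈ B.S := by
  refine ⟨?_, fun p => B.spr_shift a v p⟩
  intro p hp
  rw [spr_apply, if_neg]
  rintro ⟨j, hj⟩
  apply hp
  have : p = a + (-j) * B.l := by linarith
  rw [this, Z_mul]; exact ha

theorem spr_add_l (a : ℤ) (v : V) : B.spr (a + B.l) v = B.spr a (B.T v) := by
  funext b
  rcases Nat.eq_zero_or_pos B.l with h0 | h0
  · have hT : ∀ x, B.T x = x := by intro x; rw [B.T0 h0]; rfl
    rw [hT, h0]; simp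
  · rw [spr_apply, spr_apply]
    have hl : (B.l : ℤ) ≠ 0 := by exact_mod_cast h0.ne'
    have e1 : a + B.l - b = (a - b) + 1 * B.l := by ring
    rw [e1]
    have e2 : (B.l : ℤ) ∣ (a - b) + 1 * B.l ↔ (B.l : ℤ) ∣ (a - b) := by
      constructor
      · intro h; exact (Int.dvd_add_left (Dvd.intro_left 1 rfl)).1 h
      · intro h; exact dvd_add h (Dvd.intro_left 1 rfl)
    by_cases h : (B.l : ℤ) ∣ (a - b)
    · rw [if_pos (e2.2 h), if_pos h, Int.add_mul_ediv_right _ _ hl, zpow_add, zpow_one]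
      rfl
    · rw [if_neg (fun h' => h (e2.1 h')), if_neg h]

end LB

end

end StrAlg
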