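import Pool.Agent.Lib.MP_b9fd58_lc.Mods
import Pool.Agent.Lib.MP_b9fd58_lc.LB

/-!
# Sides, strings, blocks, normal forms, the criterion
-/

set_option autoImplicit false

namespace StrAlg

open Module Polynomial

variable {D : Dat} {k : Type} [Field k]

/-! ### Sides -/

/-- Sides of the arrow ends. -/
structure Sides (D : Dat) where
  sS : Fin D.nE → Bool
  sT : Fin D.nE → Bool
  src_inj : ∀ a b, D.src a = D.src b → sS a = sS b → a = b
  tgt_inj : ∀ a b, D.tgt a = D.tgt b → sT a = sT b → a = b
  zero : ∀ a b, D.tgt a = D.src b → sT a = sS b → [a, b] ∈ D.rel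

/-- sides for the opposite data -/
def Sides.op (S : Sides D) : Sides D.op where
  sS := S.sT
  sT := S.sS
  src_inj := S.tgt_inj
  tgt_inj := S.src_inj
  zero a b h1 h2 := List.mem_map.2 ⟨[b, a], S.zero b a h1.symm h2.symm, rfl⟩

/-- the incoming arrow at `(i,s)` -/
def Sides.inA (S : Sides D) (i : Fin D.nV) (s : Bool) : Option (Fin D.nE) :=
  (List.finRange D.nE).find? (fun a => decide (D.tgt a = i ∧ S.sT a = s))

/-- the outgoing arrow at `(i,s)` -/
def Sides.outA (S : Sides D) (i : Fin D.nV) (s : Bool) : Option (Fin D.nE) :=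
  (List.finRange D.nE).find? (fun a => decide (D.src a = i ∧ S.sS a = s))

theorem Sides.inA_some {S : Sides D} {i : Fin D.nV} {s : Bool} {a : Fin D.nE} :
    S.inA i s = some a ↔ D.tgt a = i ∧ S.sT a = s := by
  constructor
  · intro h
    have := List.find?_some h
    simpa using this
  · intro h
    unfold Sides.inA
    obtain ⟨b, hb⟩ : ∃ b, (List.finRange D.nE).find? (fun a => decide (D.tgt a = i ∧ S.sT a = s)) = some b := by
      rw [← Option.isSome_iff_exists, List.find?_isSome]
      exact ⟨a, List.mem_finRange a, by simpa using h⟩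
    have hb' : D.tgt b = i ∧ S.sT b = s := by simpa using List.find?_some hb
    rw [hb, S.tgt_inj b a (hb'.1.trans h.1.symm) (hb'.2.trans h.2.symm)]

theorem Sides.outA_some {S : Sides D} {i : Fin D.nV} {s : Bool} {a : Fin D.nE} :
    S.outA i s = some a ↔ D.src a = i ∧ S.sS a = s := by
  constructor
  · intro h
    have := List.find?_some h
    simpa using this
  · intro h
    unfold Sides.outA
    obtain ⟨b, hb⟩ : ∃ b, (List.finRange D.nE).find? (fun a => decide (D.src a = i ∧ S.sS a = s)) = some b := by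
      rw [← Option.isSome_iff_exists, List.find?_isSome]
      exact ⟨a, List.mem_finRange a, by simpa using h⟩
    have hb' : D.src b = i ∧ S.sS b = s := by simpa using List.find?_some hb
    rw [hb, S.src_inj b a (hb'.1.trans h.1.symm) (hb'.2.trans h.2.symm)]

/-- incoming and outgoing arrows on the sides -/
def Sides.ends (S : Sides D) : Ends (Fin D.nV) (Fin D.nE) where
  inA := S.inA
  outA := S.outA
  inU i s j t a h h' := by
    rw [Sides.inA_some] at h h'
    exact ⟨h.1.symm.trans h'.1, h.2.symm.trans h'.2⟩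
  outU i s j t a h h' := by
    rw [Sides.outA_some] at h h'
    exact ⟨h.1.symm.trans h'.1, h.2.symm.trans h'.2⟩

theorem Sides.ends_for (S : Sides D) : S.ends.For where
  tgt _ _ _ h := (Sides.inA_some.1 h).1
  src _ _ _ h := (Sides.outA_some.1 h).1

/-- the automaton of half edges -/
def Sides.nx (S : Sides D) (i : Fin D.nV) (s : Bool) (x : Fin 3) : Fin D.nV × Bool :=
  if x = 0 then
    match S.inA i s with
    | none => (i, s)
    | some b => (D.src b, S.sS b)
  else if x = 2 then
    match S.outA i s with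
    | none => (i, s)
    | some c => (D.tgt c, S.sT c)
  else (i, s)

/-! ### Strings -/

/-- A string, as a line with base point `0` (which is a position). The positions are the integers that can be reached
from `0`; there are no letters outside. -/
structure Str (S : Sides D) where
  L : Ln (Fin D.nV) S.nx
  ok : L.Ok S.ends
  norel : L.NoRel S.ends
  abs : L.Abs 0
  clean : ∀ p, L.lam p ≠ 1 → L.Reach 0 p ∧ L.Reach 0 (p + 1)

variable {S : Sides D}

/-- the positions -/
def Str.Z (w : Str S) : Set ℤ := {p | w.L.Reach 0 p}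

/-- bi-infinite strings with period `l` -/
def Str.Per (w : Str S) (l : ℕ) : Prop := w.L.IsPer l ∧ ∀ p, w.L.lam p ≠ 1

/-- not bi-infinite periodic -/
def Str.Aper (w : Str S) : Prop := ∀ l : ℕ, 0 < l → ¬ w.Per l

/-- `w` has the minimal period `l > 0` -/
def Str.MinPer (w : Str S) (l : ℕ) : Prop := 0 < l ∧ w.Per l ∧ ∀ d : ℕ, 0 < d → w.Per d → l ≤ d

/-- a finite string -/
def Str.Fin (w : Str S) : Prop := w.Z.Finite

/-! ### Line modules -/

theorem Str.per_zero (w : Str S) : w.L.IsPer 0 :=
  ⟨fun p => by simp, fun p => by simp, fun p => by simp⟩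

/-- the data of a line module: either `l = 0` and `T = 1`, or `w` has the period `l > 0` -/
structure Str.PerOK (w : Str S) (l : ℕ) {V : Type} [AddCommGroup V] [Module k V] (T : V ≃ₗ[k] V) : Prop where
  per : w.L.IsPer l
  big : 0 < l → ∀ p, w.L.lam p ≠ 1
  T0 : l = 0 → T = LinearEquiv.refl k V

theorem Str.Zcl (w : Str S) (e : Bool) (p : ℤ) (hp : p ∈ w.Z) (h : w.L.lt e p ≠ 1) : st e p ∈ w.Z := by
  have h1 : w.L.Reach p (stn e (1 : ℕ) p) := Ln.Reach.of_lt (fun j hj => by
    have : j = 0 := by omega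
    subst this
    simpa using h)
  have h2 : stn e ((1 : ℕ) : ℤ) p = st e p := by simpa using stn_one e p
  rw [h2] at h1
  exact Ln.Reach.trans hp h1

theorem Str.Zabs (w : Str S) (p : ℤ) (hp : p ∈ w.Z) : w.L.Abs p := Ln.Reach.abs hp w.abs

theorem Str.Z_univ (w : Str S) (h : ∀ p, w.L.lam p ≠ 1) (p : ℤ) : p ∈ w.Z := by
  have key : ∀ e q, w.L.lt e q ≠ 1 := by
    intro e q
    unfold Ln.lt
    cases e
    · simp only [Bool.false_eq_true, if_false]; exact Ln.rev_ne_one.2 (h _)
    · exact h q
  have h1 : ∀ e (n : ℕ), stn e n 0 ∈ w.Z := fun e n => Ln.Reach.of_lt (fun j _ => key _ _)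
  rcases p.eq_nat_or_neg with ⟨n, rfl | rfl⟩
  · simpa using h1 true n
  · simpa using h1 false n

theorem Str.Zper (w : Str S) {l : ℕ} {V : Type} [AddCommGroup V] [Module k V] {T : V ≃ₗ[k] V} (h : w.PerOK l T)
    (p : ℤ) : p + l ∈ w.Z ↔ p ∈ w.Z := by
  rcases Nat.eq_zero_or_pos l with h0 | h0
  · subst h0; simp
  · exact ⟨fun _ => w.Z_univ (h.big h0) p, fun _ => w.Z_univ (h.big h0) _⟩

theorem Str.relne (w : Str S) : ∀ r ∈ D.rel, r ≠ [] := by
  rintro r hr rfl
  exact w.norel [] hr true 0 trivial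

/-- the line module data of helper49 -/
def Str.LB (w : Str S) (l : ℕ) {V : Type} [AddCommGroup V] [Module k V] (T : V ≃ₗ[k] V) (h : w.PerOK l T) :
    LB D k S.nx S.ends V where
  L := w.L
  l := l
  Z := w.Z
  T := T
  ok := w.ok
  per := h.per
  norel := w.norel
  Zper := w.Zper h
  Zcl := w.Zcl
  Zabs := w.Zabs
  T0 := h.T0

/-- all functions on the line with values in `V` -/
noncomputable def Str.fnQ (w : Str S) (k : Type) [Field k] (V : Type) [AddCommGroup V] [Module k V] : QMod D k (ℤ → V) :=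
  FnQ k V S.ends S.ends_for w.L w.ok w.norel w.relne

/-- `M(b, V)` (for `l > 0`), `M^Π(w; V)` for `l = 0`: the functions `m` on the positions with `T (m (p + l)) = m p` -/
noncomputable def Str.ME (w : Str S) (l : ℕ) {V : Type} [AddCommGroup V] [Module k V] (T : V ≃ₗ[k] V)
    (h : w.PerOK l T) : Md D k :=
  ⟨(w.LB l T h).S, (w.fnQ k V).sub (w.LB l T h).S (fun g _ hm => (w.LB l T h).fop_mem g hm)⟩

/-- the functions of finite support on the positions -/
def Str.FS (w : Str S) (k : Type) [Field k] (V : Type) [AddCommGroup V] [Module k V] : Submodule k (ℤ → V) where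
  carrier := {f | (∀ p, p ∉ w.Z → f p = 0) ∧ (Function.support f).Finite}
  add_mem' := by
    intro a b ha hb
    exact ⟨fun p hp => by simp [ha.1 p hp, hb.1 p hp], (ha.2.union hb.2).subset (Function.support_add _ _)⟩
  zero_mem' := by simp
  smul_mem' := by
    intro c a ha
    exact ⟨fun p hp => by simp [ha.1 p hp], Set.Finite.subset ha.2 (Function.support_const_smul_subset c _)⟩

/-! ### Blocks -/

/-- A block: a finite string (`l = 0`, `T = 1`) or a band of minimal period `l > 0`, with the coefficient space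
`k^n` and the automorphism `T`. -/
structure Blk (S : Sides D) (k : Type) [Field k] where
  x : Str S
  n : ℕ
  l : ℕ
  T : (Fin n → k) ≃ₗ[k] (Fin n → k)
  ok : x.PerOK l T
  min : ∀ d : ℕ, 0 < d → x.Per d → 0 < l ∧ l ≤ d
  fin : l = 0 → x.Fin

/-- the line module data of the block -/
def Blk.B (X : Blk S k) : LB D k S.nx S.ends (Fin X.n → k) := X.x.LB X.l X.T X.ok

/-- the module of the block -/
noncomputable def Blk.M (X : Blk S k) : Md D k := X.x.ME X.l X.T X.ok

/-- the elements of the block module are functions on the positions -/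
def Blk.fn (X : Blk S k) (a : X.M.C) : ℤ → Fin X.n → k := (show X.B.S from a).1

/-- the element of the block module with value `v` at `p` (zero if `p` is not a position) -/
noncomputable def Blk.iota (X : Blk S k) (p : ℤ) : (Fin X.n → k) →ₗ[k] X.M.C :=
  open Classical in
  if hp : p ∈ X.B.Z then
    (X.B.spr p).codRestrict _ (fun v => X.B.spr_mem hp v)
  else 0

/-- the coefficients of a functional on the block module -/
noncomputable def Blk.cf (Y : Blk S k) (b : Dual k Y.M.C) (p : ℤ) : (Fin Y.n → k) →ₗ[k] k := b ∘ₗ Y.iota p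

/-- `Om = 0` at all sandwiched positions `p, q, r` of `X, w, Y` -/
def CritB (X Y : Blk S k) (a : X.M.C) (b : Dual k Y.M.C) (w : Str S) : Prop :=
  ∀ (o o' : Bool) (p q r : ℤ), p ∈ X.x.Z → q ∈ w.Z → r ∈ Y.x.Z → Mt X.x.L w.L o p q → Mt w.L Y.x.L o' q r →
    LeD X.x.L w.L o p q → LeD w.L Y.x.L o' q r → FinCl X.x.L w.L o p q → FinCl w.L Y.x.L o' q r →
    ∀ κ, Om X.x.L Y.x.L (X.fn a) (Y.cf b) κ (o == o') p r = 0

/-- the pair of a block pair -/
noncomputable def bpr (X Y : Blk S k) (a : X.M.C) (b : Dual k Y.M.C) : Pr D k := ⟨X.M, a, Y.M, b⟩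

/-- A pair in normal form: both modules are direct sums of blocks. -/
structure NF (S : Sides D) (k : Type) [Field k] where
  m : ℕ
  X : Fin m → Blk S k
  a : ∀ i, (X i).M.C
  m' : ℕ
  Y : Fin m' → Blk S k
  b : ∀ j, Dual k (Y j).M.C

/-- the pair of a normal form -/
noncomputable def NF.pr (p : NF S k) : Pr D k :=
  ⟨Md.pi (fun i => (p.X i).M), p.a, Md.pi (fun j => (p.Y j).M),
    ∑ j, (p.b j) ∘ₗ (LinearMap.proj j : (∀ j, (p.Y j).M.C) →ₗ[k] (p.Y j).M.C)⟩

/-- the criterion for a normal form -/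
def NF.Crit (p : NF S k) (w : Str S) : Prop := ∀ i j, CritB (p.X i) (p.Y j) (p.a i) (p.b j) w

/-! ### Openness of a string -/

/-- `w` is `N`-open -/
def Str.Open (w : Str S) (N : Md D k) : Prop := HasWin N.Q S.ends w.L 0

/-- full chains along `w` in `N` (zero outside the positions) -/
def Str.Q (w : Str S) (N : Md D k) : Submodule k (ℤ → N.C) where
  carrier := {g | (∀ q, ChAt N.Q S.ends w.L g q) ∧ ∀ q, q ∉ w.Z → g q = 0}
  add_mem' := by
    rintro a b ⟨ha, ha'⟩ ⟨hb, hb'⟩
    refine ⟨fun q => ⟨fun i => ?_, fun α => ?_⟩, fun q hq => by simp [ha' q hq, hb' q hq]⟩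
    · rw [Pi.add_apply, map_add, (ha q).1 i, (hb q).1 i]; split_ifs <;> simp
    · rw [Pi.add_apply, map_add, (ha q).2 α, (hb q).2 α, ← Finset.sum_add_distrib]
      refine Finset.sum_congr rfl (fun e _ => ?_)
      split_ifs <;> simp
  zero_mem' := by
    refine ⟨fun q => ⟨fun i => ?_, fun α => ?_⟩, fun q hq => rfl⟩
    · simp
    · simp
  smul_mem' := by
    rintro c a ⟨ha, ha'⟩
    refine ⟨fun q => ⟨fun i => ?_, fun α => ?_⟩, fun q hq => by simp [ha' q hq]⟩
    · rw [Pi.smul_apply, map_smul, (ha q).1 i]; split_ifs <;> simp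
    · rw [Pi.smul_apply, map_smul, (ha q).2 α, Finset.smul_sum]
      refine Finset.sum_congr rfl (fun e _ => ?_)
      split_ifs <;> simp

/-- the chains that are sums of a chain vanishing for `p ≪ 0` and a chain vanishing for `p ≫ 0` -/
def Str.K0 (w : Str S) (N : Md D k) (n : ℤ → N.C) : Prop :=
  ∃ a ∈ w.Q N, ∃ c ∈ w.Q N, n = a + c ∧ (∃ m : ℤ, ∀ p < m, a p = 0) ∧ (∃ m : ℤ, ∀ p > m, c p = 0)

/-- the modules on which bands split off: direct summands of dual modules -/
def Md.Nice (N : Md D k) : Prop := ∃ X : Md D.op k, N.Ret X.codual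

end StrAlg
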