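import Pool.Agent.Lib.MP_b9fd58_lc.GHom2

/-!
# Positions of strings; equal words at two positions
-/

set_option autoImplicit false

namespace StrAlg

open Module

/-- reflection is impossible -/
theorem no_reflection {ι : Type*} {nx : ι → Bool → Fin 3 → ι × Bool} {w : Ln ι nx} :
    ∀ (n : ℕ) {q q' : ℤ}, Mt w w false q q' → (∀ i : ℕ, i ≤ n → w.lt true (stn true i q) = w.lt false (stn false i q')) →
      (∀ i : ℕ, (i : ℤ) < q' - q → w.lt true (stn true i q) ≠ 1) → 0 ≤ q' - q → q' - q ≤ 2 * n → False := by
  intro n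
  induction n with
  | zero =>
    intro q q' hm _ _ h1 h2
    have : q = q' := by omega
    subst this
    have := hm.2
    simp at this
  | succ n ih =>
    intro q q' hm h h3 h1 h2
    rcases eq_or_lt_of_le h1 with h0 | h0
    · have : q = q' := by omega
      subst this
      have := hm.2
      simp at this
    · have h4 := h 0 (by omega)
      simp only [Nat.cast_zero, stn_zero] at h4
      have h5 : w.lt true q ≠ 1 := by
        have := h3 0 (by omega)
        simpa using this
      rcases eq_or_lt_of_le (show (1 : ℤ) ≤ q' - q by omega) with h6 | h6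
      · -- adjacent positions
        have : q' = st true q := by rw [st_true]; omega
        subst this
        have h7 := w.lt_back true q
        rw [Bool.not_true] at h7
        rw [h7] at h4
        apply h5
        revert h4; generalize w.lt true q = x; revert x; decide
      · have hl : Lk w w false true q q' := ⟨h4, h5⟩
        have hm' := hm.step hl
        have e0 : (true == false) = false := rfl
        rw [e0] at hm'
        refine ih hm' ?_ ?_ ?_ ?_
        · intro i hi
          have h8 := h (i + 1) (by omega)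
          have e1 : stn true ((i + 1 : ℕ) : ℤ) q = stn true (i : ℤ) (st true q) := by simp; ring
          have e2 : stn false ((i + 1 : ℕ) : ℤ) q' = stn false (i : ℤ) (st false q') := by simp; ring
          rwa [e1, e2] at h8
        · intro i hi
          have h8 := h3 (i + 1) (by simp at hi; push_cast; omega)
          have e1 : stn true ((i + 1 : ℕ) : ℤ) q = stn true (i : ℤ) (st true q) := by simp; ring
          rwa [e1] at h8
        · simp; omega
        · simp at h2 ⊢; omega

theorem no_reflection' {ι : Type*} {nx : ι → Bool → Fin 3 → ι × Bool} {w : Ln ι nx} {q q' : ℤ}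
    (hm : Mt w w false q q') (h : w.wdd true q = w.wdd false q')
    (h3 : ∀ i : ℕ, (i : ℤ) < q' - q → w.lt true (stn true i q) ≠ 1)
    (h1 : 0 ≤ q' - q) : False := by
  refine no_reflection (q' - q).toNat hm ?_ h3 h1 (by omega)
  intro i _
  have := congrFun h i
  rwa [Ln.wdd_apply, Ln.wdd_apply] at this

theorem Ln.lt_true {ι : Type*} {nx : ι → Bool → Fin 3 → ι × Bool} (w : Ln ι nx) (p : ℤ) : w.lt true p = w.lam p := by
  simp [Ln.lt]

theorem Ln.lt_false {ι : Type*} {nx : ι → Bool → Fin 3 → ι × Bool} (w : Ln ι nx) (p : ℤ) :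
    w.lt false p = Fin.rev (w.lam (p - 1)) := by
  simp [Ln.lt]

theorem Ln.lt_ne_one_iff {ι : Type*} {nx : ι → Bool → Fin 3 → ι × Bool} {w : Ln ι nx} {e : Bool} {p : ℤ} :
    w.lt e p ≠ 1 ↔ (if e then w.lam p ≠ 1 else w.lam (p - 1) ≠ 1) := by
  cases e
  · rw [Ln.lt_false, Ln.rev_ne_one]; simp
  · rw [Ln.lt_true]; simp

variable {D : Dat} {k : Type} [Field k] {S : Sides D}

theorem Str.zero_mem (w : Str S) : (0 : ℤ) ∈ w.Z := Ln.Reach.refl

theorem Str.cl (w : Str S) : w.L.Cl (fun p => p ∈ w.Z) := fun e p hp h => w.Zcl e p hp h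

/-- the letters between `0` and a position are different from `END` -/
theorem Str.lam_ne_zero (w : Str S) {p x : ℤ} (hp : p ∈ w.Z) (h : (0 ≤ x ∧ x < p) ∨ (p ≤ x ∧ x < 0)) :
    w.L.lam x ≠ 1 := by
  obtain ⟨e, n, h1, h2, -⟩ := hp
  rcases h with ⟨h3, h4⟩ | ⟨h3, h4⟩
  · cases e with
    | true =>
      have h5 := (h1.lk x.toNat (by simp at h2; omega)).2
      rw [Ln.lt_true] at h5
      have : stn true (x.toNat : ℤ) 0 = x := by simp; omega
      rwa [this] at h5
    | false => simp at h2; omega
  · cases e with
    | true => simp at h2; omega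
    | false =>
      have h5 := (h1.lk (-x - 1).toNat (by simp at h2; omega)).2
      rw [Ln.lt_false, Ln.rev_ne_one] at h5
      have : stn false ((-x - 1).toNat : ℤ) 0 - 1 = x := by simp; omega
      rwa [this] at h5

theorem Str.lam_ne (w : Str S) {p p' x : ℤ} (hp : p ∈ w.Z) (hp' : p' ∈ w.Z) (h1 : p ≤ x) (h2 : x < p') :
    w.L.lam x ≠ 1 := by
  rcases le_or_gt 0 x with h | h
  · exact w.lam_ne_zero hp' (Or.inl ⟨h, h2⟩)
  · exact w.lam_ne_zero hp (Or.inr ⟨h1, h⟩)

/-- the positions form an interval -/
theorem Str.conn (w : Str S) {p p' x : ℤ} (hp : p ∈ w.Z) (hp' : p' ∈ w.Z) (h1 : p ≤ x) (h2 : x ≤ p') : x ∈ w.Z := by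
  rcases lt_or_eq_of_le h2 with h | h
  · exact (w.clean x (w.lam_ne hp hp' h1 h)).1
  · rw [h]; exact hp'

theorem Str.lam_ne_iff (w : Str S) {p : ℤ} : w.L.lam p ≠ 1 ↔ p ∈ w.Z ∧ p + 1 ∈ w.Z :=
  ⟨fun h => w.clean p h, fun h => w.lam_ne h.1 h.2 le_rfl (by omega)⟩

theorem Str.lt_ne_iff (w : Str S) {e : Bool} {p : ℤ} : w.L.lt e p ≠ 1 ↔ p ∈ w.Z ∧ st e p ∈ w.Z := by
  constructor
  · exact Str.mem_of_lt
  · rintro ⟨h1, h2⟩
    rw [Ln.lt_ne_one_iff]
    cases e with
    | true => exact w.lam_ne_iff.2 ⟨h1, h2⟩
    | false =>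
      refine w.lam_ne_iff.2 ⟨h2, ?_⟩
      have : p - 1 + 1 = p := by ring
      rw [this]; exact h1

/-- equal words at two positions make the line bi-infinite periodic -/
theorem Str.per_of_eq {w : Str S} {q q' : ℤ} (hq : q ∈ w.Z) (hq' : q' ∈ w.Z) (hlt : q < q')
    (hm : Mt w.L w.L true q q') (h : ∀ e, w.L.wdd e q = w.L.wdd e q') : w.Per (q' - q).toNat := by
  obtain ⟨d, hd⟩ : ∃ d : ℕ, (d : ℤ) = q' - q := ⟨(q' - q).toNat, by omega⟩
  have hd' : (q' - q).toNat = d := by omega
  rw [hd']
  have hd0 : 0 < d := by omega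
  have ht : ∀ n : ℕ, w.L.lt true (q + n) = w.L.lt true (q' + n) := by
    intro n
    have := congrFun (h true) n
    rwa [Ln.wdd_apply, Ln.wdd_apply, stn_true, stn_true] at this
  have hf : ∀ n : ℕ, w.L.lt false (q - n) = w.L.lt false (q' - n) := by
    intro n
    have := congrFun (h false) n
    rwa [Ln.wdd_apply, Ln.wdd_apply, stn_false, stn_false] at this
  have hmem : ∀ p, q ≤ p → p ≤ q' → p ∈ w.Z := fun p h1 h2 => w.conn hq hq' h1 h2
  have ht1 : ∀ n : ℕ, w.L.lt true (q + n) ≠ 1 := by
    intro n
    induction n using Nat.strong_induction_on with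
    | _ n ih =>
      rcases lt_or_ge n d with h1 | h1
      · rw [Str.lt_ne_iff]
        exact ⟨hmem _ (by omega) (by omega), hmem _ (by rw [st_true]; omega) (by rw [st_true]; omega)⟩
      · have h2 := ih (n - d) (by omega)
        rw [ht (n - d)] at h2
        have : q' + ((n - d : ℕ) : ℤ) = q + n := by omega
        rwa [this] at h2
  have hf1 : ∀ n : ℕ, w.L.lt false (q' - n) ≠ 1 := by
    intro n
    induction n using Nat.strong_induction_on with
    | _ n ih =>
      rcases lt_or_ge n d with h1 | h1
      · rw [Str.lt_ne_iff]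
        exact ⟨hmem _ (by omega) (by omega), hmem _ (by rw [st_false]; omega) (by rw [st_false]; omega)⟩
      · have h2 := ih (n - d) (by omega)
        rw [← hf (n - d)] at h2
        have : q - ((n - d : ℕ) : ℤ) = q' - n := by omega
        rwa [this] at h2
  have hne : ∀ p, w.L.lam p ≠ 1 := by
    intro p
    rcases le_or_gt q p with h1 | h1
    · have h2 := ht1 (p - q).toNat
      have : q + ((p - q).toNat : ℤ) = p := by omega
      rwa [this, Ln.lt_true] at h2
    · have h2 := hf1 (q' - p - 1).toNat
      have : q' - ((q' - p - 1).toNat : ℤ) - 1 = p := by omega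
      rwa [Ln.lt_false, Ln.rev_ne_one, this] at h2
  have hlam : ∀ p, w.L.lam (p + d) = w.L.lam p := by
    intro p
    rcases le_or_gt q p with h1 | h1
    · have h2 := ht (p - q).toNat
      have e1 : q + ((p - q).toNat : ℤ) = p := by omega
      have e2 : q' + ((p - q).toNat : ℤ) = p + d := by omega
      rw [e1, e2, Ln.lt_true, Ln.lt_true] at h2
      exact h2.symm
    · have h2 := hf (q - p - 1).toNat
      have e1 : q - ((q - p - 1).toNat : ℤ) - 1 = p := by omega
      have e2 : q' - ((q - p - 1).toNat : ℤ) - 1 = p + d := by omega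
      rw [Ln.lt_false, Ln.lt_false, e1, e2, Fin.rev_inj] at h2
      exact h2.symm
  have hl : ∀ e p, Lk w.L w.L true e p (p + d) := by
    intro e p
    refine ⟨?_, ?_⟩
    · have : (e == true) = e := by cases e <;> rfl
      rw [this]
      cases e with
      | true => rw [Ln.lt_true, Ln.lt_true, hlam]
      | false =>
        have e2 : p + (d : ℤ) - 1 = (p - 1) + d := by ring
        rw [Ln.lt_false, Ln.lt_false, e2, hlam]
    · rw [Ln.lt_ne_one_iff]
      cases e <;> simp [hne]
  have hmt : ∀ p, Mt w.L w.L true p (p + d) := by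
    have hq0 : Mt w.L w.L true q (q + d) := by
      have : q + (d : ℤ) = q' := by omega
      rw [this]; exact hm
    have hup : ∀ n : ℕ, Mt w.L w.L true (q + n) (q + n + d) := by
      intro n
      induction n with
      | zero => simpa using hq0
      | succ n ih =>
        have h5 := ih.step (hl true _)
        have e1 : st true (q + (n : ℤ)) = q + ((n + 1 : ℕ) : ℤ) := by simp; ring
        have e2 : st (true == true) (q + (n : ℤ) + d) = q + ((n + 1 : ℕ) : ℤ) + d := by simp; ring
        rwa [e1, e2] at h5
    have hdn : ∀ n : ℕ, Mt w.L w.L true (q - n) (q - n + d) := by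
      intro n
      induction n with
      | zero => simpa using hq0
      | succ n ih =>
        have h5 := ih.step (hl false _)
        have e1 : st false (q - (n : ℤ)) = q - ((n + 1 : ℕ) : ℤ) := by simp; ring
        have e2 : st (false == true) (q - (n : ℤ) + d) = q - ((n + 1 : ℕ) : ℤ) + d := by simp; ring
        rwa [e1, e2] at h5
    intro p
    rcases le_or_gt q p with h1 | h1
    · have h2 := hup (p - q).toNat
      have e1 : q + ((p - q).toNat : ℤ) = p := by omega
      rwa [e1] at h2
    · have h2 := hdn (q - p).toNat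
      have e1 : q - ((q - p).toNat : ℤ) = p := by omega
      rwa [e1] at h2
  refine ⟨⟨hlam, fun p => (hmt p).1.symm, fun p => ?_⟩, hne⟩
  have := (hmt p).2
  simp only [beq_iff_eq] at this
  exact this.symm

theorem Str.no_refl (w : Str S) {q q' : ℤ} (hq : q ∈ w.Z) (hq' : q' ∈ w.Z) (hlt : q ≤ q')
    (hm : Mt w.L w.L false q q') (h : w.L.wdd true q = w.L.wdd false q') : False := by
  refine no_reflection' hm h ?_ (by omega)
  intro i hi
  rw [Str.lt_ne_iff]
  simp only [stn_true, st_true]
  exact ⟨w.conn hq hq' (by omega) (by omega), w.conn hq hq' (by omega) (by omega)⟩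

/-- a string that is not bi-infinite periodic has pairwise different positions -/
theorem Str.Aper.asym {w : Str S} (hw : w.Aper) : w.L.Asym (fun p => p ∈ w.Z) := by
  have key : ∀ {o q q'}, q ∈ w.Z → q' ∈ w.Z → q < q' → Mt w.L w.L o q q' →
      (∀ e, w.L.wdd e q = w.L.wdd (e == o) q') → False := by
    intro o q q' hq hq' hlt hm h
    cases o with
    | true =>
      refine hw (q' - q).toNat (by omega) (Str.per_of_eq hq hq' hlt hm (fun e => ?_))
      have := h e
      rwa [beq_true'] at this
    | false => exact w.no_refl hq hq' hlt.le hm (h true)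
  intro o q q' hq hq' hm h
  by_contra hne
  rcases lt_or_gt_of_ne hne with h1 | h1
  · exact key hq hq' h1 hm h
  · refine key hq' hq h1 (Mt.symm hm) (fun e => ?_)
    have := h (e == o)
    rw [beq_beq_self] at this
    exact this.symm

/-- positions with the same words in a bi-infinite periodic string: the difference is a period -/
theorem Str.same_of_eq {w : Str S} {o : Bool} {q q' : ℤ} (hq : q ∈ w.Z) (hq' : q' ∈ w.Z) (hm : Mt w.L w.L o q q')
    (h : ∀ e, w.L.wdd e q = w.L.wdd (e == o) q') : o = true ∧ (q = q' ∨ w.Per (q' - q).natAbs) := by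
  have ho : o = true := by
    cases o with
    | true => rfl
    | false =>
      exfalso
      rcases le_total q q' with h1 | h1
      · exact w.no_refl hq hq' h1 hm (h true)
      · exact w.no_refl hq' hq h1 (Mt.symm hm) (h false).symm
  subst ho
  refine ⟨rfl, ?_⟩
  rcases lt_trichotomy q q' with h1 | h1 | h1
  · right
    have := Str.per_of_eq hq hq' h1 hm (fun e => by have := h e; rwa [beq_true'] at this)
    have e1 : (q' - q).natAbs = (q' - q).toNat := by omega
    rwa [e1]
  · left; exact h1
  · right
    have := Str.per_of_eq hq' hq h1 (Mt.symm hm) (fun e => by have := h e; rw [beq_true'] at this; exact this.symm)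
    have e1 : (q' - q).natAbs = (q - q').toNat := by omega
    rwa [e1]

end StrAlg
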