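import Pool.Agent.Lib.MP_b9fd58_lc.WFa

/-!
# Tools for strings: periodic strings, alignment (job WFb)
-/

set_option autoImplicit false

namespace StrAlg

variable {D : Dat} {S : Sides D}

theorem WFb_lt_ne {L : Ln (Fin D.nV) S.nx} (h : ∀ p, L.lam p ≠ 1) (e : Bool) (p : ℤ) : L.lt e p ≠ 1 := by
  unfold Ln.lt
  cases e
  · simp only [Bool.false_eq_true, if_false]; exact Ln.rev_ne_one.2 (h _)
  · exact h p

/-- the words of a bi-infinite periodic string do not end -/
theorem Str.Per.wd_ne {w : Str S} {l : ℕ} (h : w.Per l) (p : ℤ) (s : Bool) (n : ℕ) : w.L.wd p s n ≠ 1 :=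
  WFb_lt_ne h.2 _ _

/-- there is a minimal period -/
theorem Str.exists_minPer (w : Str S) (h : ¬ w.Aper) : ∃ l, w.MinPer l := by
  classical
  unfold Str.Aper at h
  push Not at h
  obtain ⟨l, hl, hp⟩ := h
  have hex : ∃ l, 0 < l ∧ w.Per l := ⟨l, hl, hp⟩
  refine ⟨Nat.find hex, (Nat.find_spec hex).1, (Nat.find_spec hex).2, ?_⟩
  intro d hd hdp
  exact Nat.find_min' hex ⟨hd, hdp⟩

theorem WFb_beq1 (e r : Bool) : ((e == r) == r) = e := by cases e <;> cases r <;> rfl
theorem WFb_beq2 (e a b : Bool) : ((e == a) == b) = (e == (a == b)) := by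
  cases e <;> cases a <;> cases b <;> rfl
theorem WFb_beq3 (s a b : Bool) : ((s == a) == (a == b)) = (s == b) := by
  cases s <;> cases a <;> cases b <;> rfl

theorem WFb_beq4 {a b o : Bool} (h : (a == b) = o) : b = (a == o) := by
  subst h
  cases a <;> cases b <;> rfl

/-- Two lines of strings with the same vertex and the same words at `p`, `q` are matched everywhere: with
`o := (x.L.r p == y.L.r q)`, position `stn o i q` of `y` corresponds to `p + i` of `x`. -/
theorem Al.mt {x y : Str S} {p q : ℤ} (h : Al x y p q) :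
    Mt x.L y.L (x.L.r p == y.L.r q) p q ∧ (∀ e, x.L.wdd e p = y.L.wdd (e == (x.L.r p == y.L.r q)) q) := by
  refine ⟨⟨h.1, rfl⟩, fun e => ?_⟩
  have h1 := h.2 (e == x.L.r p)
  unfold Ln.wd at h1
  rw [WFb_beq1, WFb_beq2] at h1
  exact h1

theorem WFb_of_mt {x y : Str S} {o : Bool} {p q : ℤ} (h : Mt x.L y.L o p q)
    (h' : ∀ e, x.L.wdd e p = y.L.wdd (e == o) q) : Al x y p q := by
  refine ⟨h.1, fun s => ?_⟩
  have h1 := h' (s == x.L.r p)
  unfold Ln.wd
  rw [h1, ← h.2, WFb_beq3]

theorem WFb_step {x y : Str S} {o e : Bool} {p q : ℤ} (h : Mt x.L y.L o p q)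
    (h' : ∀ e, x.L.wdd e p = y.L.wdd (e == o) q) (hn : x.L.lt e p ≠ 1) :
    Mt x.L y.L o (st e p) (st (e == o) q) ∧
      ∀ e', x.L.wdd e' (st e p) = y.L.wdd (e' == o) (st (e == o) q) := by
  have h0 : x.L.lt e p = y.L.lt (e == o) q := by
    have := congrFun (h' e) 0
    rwa [Ln.wdd_zero, Ln.wdd_zero] at this
  refine ⟨h.step ⟨h0, hn⟩, fun e' => ?_⟩
  by_cases he : e' = e
  · subst he
    rw [← Ln.wdd_sh, ← Ln.wdd_sh, h' e']
  · have : e' = !e := by cases e <;> cases e' <;> simp_all
    subst this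
    rw [beq_not, Ln.wdd_back, Ln.wdd_back, h0, h' (!e), beq_not]

theorem WFb_walk {x y : Str S} {o e : Bool} {p q : ℤ} (h : Mt x.L y.L o p q)
    (h' : ∀ e, x.L.wdd e p = y.L.wdd (e == o) q) {n : ℕ}
    (hn : ∀ j < n, x.L.lt e (stn e j p) ≠ 1) :
    Mt x.L y.L o (stn e n p) (stn (e == o) n q) ∧
      ∀ e', x.L.wdd e' (stn e n p) = y.L.wdd (e' == o) (stn (e == o) n q) := by
  induction n with
  | zero =>
    refine ⟨?_, ?_⟩
    · simpa using h
    · intro e'
      simpa using h' e'
  | succ n ih =>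
    have i1 := ih (fun j hj => hn j (by omega))
    have i2 := WFb_step (e := e) i1.1 i1.2 (hn n (by omega))
    have e1 : st e (stn e (n : ℕ) p) = stn e ((n + 1 : ℕ) : ℤ) p := by
      rw [← stn_one, stn_stn]; push_cast; rfl
    have e2 : st (e == o) (stn (e == o) (n : ℕ) q) = stn (e == o) ((n + 1 : ℕ) : ℤ) q := by
      rw [← stn_one, stn_stn]; push_cast; rfl
    rw [e1, e2] at i2
    exact i2

/-- alignment passes to corresponding positions -/
theorem Al.walk {x y : Str S} {p q : ℤ} (h : Al x y p q) {e : Bool} {n : ℕ}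
    (hn : ∀ j < n, x.L.lt e (stn e j p) ≠ 1) :
    Al x y (stn e n p) (stn (e == (x.L.r p == y.L.r q)) n q) := by
  have h1 := h.mt
  have h2 := WFb_walk h1.1 h1.2 hn
  exact WFb_of_mt h2.1 h2.2

theorem Al.symm {x y : Str S} {p q : ℤ} (h : Al x y p q) : Al y x q p :=
  ⟨h.1.symm, fun s => (h.2 s).symm⟩

theorem Al.trans {x y z : Str S} {p q r : ℤ} (h : Al x y p q) (h' : Al y z q r) : Al x z p r :=
  ⟨h.1.trans h'.1, fun s => (h.2 s).trans (h'.2 s)⟩

theorem WFb_reach {w : Str S} {p q : ℤ} (hp : p ∈ w.Z) (hq : q ∈ w.Z) : w.L.Reach p q :=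
  Ln.Reach.trans (Cn.symm hp) hq

theorem WFb_reach_iff {w : Str S} {p q : ℤ} (h : w.L.Reach p q) :
    ∃ (e : Bool) (n : ℕ), (∀ j < n, w.L.lt e (stn e j p) ≠ 1) ∧ q = stn e n p := by
  obtain ⟨e, n, h1, h2, -⟩ := h
  exact ⟨e, n, fun j hj => (h1.lk j hj).2, h2⟩

theorem Al.fin {x y : Str S} {p q : ℤ} (hp : p ∈ x.Z) (hq : q ∈ y.Z) (h : Al x y p q) (hx : x.Fin) : y.Fin := by
  have hs := h.symm
  have hsm := hs.mt
  set o := (y.L.r q == x.L.r p) with ho
  have hsub : y.Z ⊆ (fun z : ℤ => stn (true == o) (z - p) q) '' x.Z := by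
    intro r hr
    obtain ⟨e, n, h1, rfl⟩ := WFb_reach_iff (WFb_reach hq hr)
    refine ⟨stn (e == o) n p, ?_, ?_⟩
    · refine Ln.Reach.trans hp (Ln.Reach.of_lt (fun j hj => ?_))
      have h2 := congrFun (hsm.2 e) j
      rw [Ln.wdd_apply, Ln.wdd_apply] at h2
      rw [← h2]
      exact h1 j hj
    · cases e <;> cases o <;> simp <;> ring
  exact (hx.image _).subset hsub

theorem Al.per {x y : Str S} {p q : ℤ} (hp : p ∈ x.Z) (hq : q ∈ y.Z) (h : Al x y p q) {l : ℕ} (hx : x.Per l) :
    y.Per l := by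
  obtain ⟨hper, hne⟩ := hx
  have hm := h.mt
  set o := (x.L.r p == y.L.r q) with ho
  -- matched at all positions
  have hall : ∀ (e : Bool) (n : ℕ), Mt x.L y.L o (stn e n p) (stn (e == o) n q) ∧
      ∀ e', x.L.wdd e' (stn e n p) = y.L.wdd (e' == o) (stn (e == o) n q) := fun e n =>
    WFb_walk hm.1 hm.2 (fun j _ => WFb_lt_ne hne _ _)
  have hall' : ∀ b : ℤ, Mt x.L y.L o (stn (true == o) (b - q) p) b ∧
      ∀ e', x.L.wdd e' (stn (true == o) (b - q) p) = y.L.wdd (e' == o) b := by
    intro b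
    rcases (b - q).eq_nat_or_neg with ⟨n, hn | hn⟩
    · have h1 := hall (true == o) n
      rw [hn]
      have e1 : stn ((true == o) == o) (n : ℤ) q = b := by
        have : b = q + n := by omega
        rw [this]
        cases o <;> simp
      rw [e1] at h1
      exact h1
    · have h1 := hall (false == o) n
      rw [hn]
      have e1 : stn ((false == o) == o) (n : ℤ) q = b := by
        have : b = q - n := by omega
        rw [this]
        cases o <;> simp
      have e2 : stn (true == o) (-(n : ℤ)) p = stn (false == o) n p := by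
        cases o <;> simp
        ring
      rw [e1] at h1
      rw [e2]
      exact h1
  have hshift : ∀ b : ℤ, stn (true == o) (b + l - q) p =
      (if o then stn (true == o) (b - q) p + l else stn (true == o) (b - q) p - l) := by
    intro b
    cases o <;> simp <;> ring
  have hback : ∀ {β : Type} (P : ℤ → β), StrAlg.Per l P → ∀ a, P (a - l) = P a := by
    intro β P hP a
    have := hP (a - l)
    rw [← this]
    congr 1
    ring
  have hv : ∀ b, y.L.v b = x.L.v (stn (true == o) (b - q) p) := fun b => (hall' b).1.1.symm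
  have hr : ∀ b, y.L.r b = (x.L.r (stn (true == o) (b - q) p) == o) := by
    intro b
    exact WFb_beq4 (hall' b).1.2
  have hlt : ∀ b e, y.L.lt e b = x.L.lt (e == o) (stn (true == o) (b - q) p) := by
    intro b e
    have := congrFun ((hall' b).2 (e == o)) 0
    rw [Ln.wdd_zero, Ln.wdd_zero, WFb_beq1] at this
    exact this.symm
  have hlam : ∀ b, y.L.lam b = x.L.lt (true == o) (stn (true == o) (b - q) p) := by
    intro b
    rw [← hlt b true]
    rfl
  refine ⟨⟨?_, ?_, ?_⟩, ?_⟩
  · intro b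
    rw [hlam, hlam, hshift]
    cases ho' : o
    · simp only [Bool.false_eq_true, if_false]
      exact hback _ (hper.lt _) _
    · simp only [if_true]
      exact hper.lt _ _
  · intro b
    rw [hv, hv, hshift]
    cases ho' : o
    · simp only [Bool.false_eq_true, if_false]
      exact hback _ hper.v _
    · simp only [if_true]
      exact hper.v _
  · intro b
    rw [hr, hr, hshift]
    cases ho' : o
    · simp only [Bool.false_eq_true, if_false]
      rw [hback _ hper.r _]
    · simp only [if_true]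
      rw [hper.r]
  · intro b
    rw [hlam]
    exact WFb_lt_ne hne _ _

end StrAlg
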