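import Pool.Agent.Lib.MP_b9fd58_lc.WMb
import Pool.Agent.Lib.MP_b9fd58_lc.WFb
import Pool.Agent.Lib.MP_b9fd58_lc.GAsym

/-!
# Classification of finite-dimensional modules: unitriangularity (job CAa)
-/

set_option autoImplicit false

namespace StrAlg

open Module

variable {D : Dat} {k : Type} [Field k] {S : Sides D}

/-- The cuts of different words are ordered (`u < v` with the first difference at `m < n` and no END before `m`).
Proof: `up (m+1) u ≤ lo (m+1) v` by induction on `m` (generalizing `u v i s`); `m = 0`: `QMod.cB_mono`, `QMod.cB_le_cC`,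
`QMod.cC_mono`; then `QMod.up_anti`, `QMod.lo_mono`. -/
theorem QMod.ord {N : Type} [AddCommGroup N] [Module k N] (Q : QMod D k N) (S : Sides D) {m n : ℕ} {u v : Wd}
    (h : ∀ j < m, u j = v j ∧ u j ≠ 1) (h' : u m < v m) (hn : m < n) (i : Fin D.nV) (s : Bool) :
    Q.up S n u i s ≤ Q.lo S n v i s := by
  have key : ∀ x : Fin 3, x = 0 ∨ x = 1 ∨ x = 2 := by decide
  induction m generalizing n u v i s with
  | zero =>
    obtain ⟨n, rfl⟩ : ∃ n', n = n' + 1 := ⟨n - 1, by omega⟩
    unfold QMod.up QMod.lo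
    rcases key (u 0) with h0 | h0 | h0
    · rcases key (v 0) with h1 | h1 | h1
      · rw [h0, h1] at h'; exact absurd h' (by decide)
      · rw [if_pos h0, if_neg (by rw [h1]; decide), if_neg (by rw [h1]; decide)]
        exact Q.cB_mono S i s le_top
      · rw [if_pos h0, if_neg (by rw [h1]; decide), if_pos h1]
        exact (Q.cB_mono S i s le_top).trans ((Q.cB_le_cC S i s).trans (Q.cC_mono S i s bot_le))
    · rcases key (v 0) with h1 | h1 | h1
      · rw [h0, h1] at h'; exact absurd h' (by decide)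
      · rw [h0, h1] at h'; exact absurd h' (by decide)
      · rw [if_neg (by rw [h0]; decide), if_neg (by rw [h0]; decide), if_neg (by rw [h1]; decide),
          if_pos h1]
        exact Q.cC_mono S i s bot_le
    · rcases key (v 0) with h1 | h1 | h1
      · rw [h0, h1] at h'; exact absurd h' (by decide)
      · rw [h0, h1] at h'; exact absurd h' (by decide)
      · rw [h0, h1] at h'; exact absurd h' (by decide)
  | succ m ih =>
    obtain ⟨n, rfl⟩ : ∃ n', n = n' + 1 := ⟨n - 1, by omega⟩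
    obtain ⟨h00, h01⟩ := h 0 (by omega)
    have hs : ∀ j < m, u.sh j = v.sh j ∧ u.sh j ≠ 1 := fun j hj => h (j + 1) (by omega)
    have hs' : u.sh m < v.sh m := h'
    unfold QMod.up QMod.lo
    rcases key (u 0) with h0 | h0 | h0
    · rw [if_pos h0, if_pos (h00 ▸ h0)]
      exact Q.cB_mono S i s (ih hs hs' (by omega) _ _)
    · exact absurd h0 h01
    · have h1 : v 0 = 2 := h00 ▸ h0
      rw [if_neg (by rw [h0]; decide), if_pos h0, if_neg (by rw [h1]; decide), if_pos h1]
      exact Q.cC_mono S i s (ih hs hs' (by omega) _ _)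

/-- the order of the positions -/
def Str.PLe (w : Str S) (p q : ℤ) : Prop := w.L.v p = w.L.v q ∧ ∀ s, WLe (w.L.wd p s) (w.L.wd q s)

theorem Str.PLe.refl (w : Str S) (p : ℤ) : w.PLe p p := ⟨rfl, fun _ => WLe.refl _⟩

theorem Str.PLe.trans {w : Str S} {p q r : ℤ} (h : w.PLe p q) (h' : w.PLe q r) : w.PLe p r :=
  ⟨h.1.trans h'.1, fun s => (h.2 s).trans (h'.2 s)⟩

/-- different positions of a string that is not bi-infinite periodic are not aligned (`Al.mt`, `Str.Aper.asym`) -/
theorem Str.Aper.al {w : Str S} (hw : w.Aper) {p q : ℤ} (hp : p ∈ w.Z) (hq : q ∈ w.Z) (h : Al w w p q) : p = q :=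
  hw.asym _ p q hp hq h.mt.1 h.mt.2

theorem Str.PLe.antisymm {w : Str S} (hw : w.Aper) {p q : ℤ} (hp : p ∈ w.Z) (hq : q ∈ w.Z) (h : w.PLe p q)
    (h' : w.PLe q p) : p = q :=
  hw.al hp hq ⟨h.1, fun s => (h.2 s).antisymm (h'.2 s)⟩

/-- finite nonempty sets of positions have maximal elements -/
theorem Str.exists_max (w : Str S) (hw : w.Aper) (F : Finset ℤ) (hF : ∀ p ∈ F, p ∈ w.Z) (hne : F.Nonempty) :
    ∃ p ∈ F, ∀ q ∈ F, w.PLe p q → q = p := by
  classical
  induction F using Finset.strongInduction with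
  | H F ih =>
    obtain ⟨p, hp⟩ := hne
    by_cases hmax : ∀ q ∈ F, w.PLe p q → q = p
    · exact ⟨p, hp, hmax⟩
    · push Not at hmax
      obtain ⟨q, hq, hpq, hne'⟩ := hmax
      have hss : F.filter (fun x => w.PLe p x ∧ x ≠ p) ⊂ F := by
        refine Finset.ssubset_iff_subset_ne.2 ⟨Finset.filter_subset _ _, fun he => ?_⟩
        have : p ∈ F.filter (fun x => w.PLe p x ∧ x ≠ p) := by rw [he]; exact hp
        exact (Finset.mem_filter.1 this).2.2 rfl
      obtain ⟨m, hm, hmm⟩ := ih _ hss (fun x hx => hF x (Finset.mem_filter.1 hx).1)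
        ⟨q, Finset.mem_filter.2 ⟨hq, hpq, hne'⟩⟩
      obtain ⟨hmF, hpm, hmp⟩ := Finset.mem_filter.1 hm
      refine ⟨m, hmF, fun r hr hmr => hmm r (Finset.mem_filter.2 ⟨hr, hpm.trans hmr, fun he => ?_⟩) hmr⟩
      subst he
      exact hmp (Str.PLe.antisymm hw (hF _ hmF) (hF _ hr) hmr hpm)

end StrAlg
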