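import Pool.Agent.Lib.MP_b9fd58_lc.CAa

/-!
# Classification of finite-dimensional modules: unitriangular chains (job CAb)
-/

set_option autoImplicit false

namespace StrAlg

open Module

variable {D : Dat} {k : Type} [Field k] {S : Sides D}

/-- **Unitriangularity**: chains and dual chains on a finite set of positions of an open string.

Proof. Choose `n` such that for `p, q ∈ F` and every side `s` with `¬ WLe (wd p s) (wd q s)` the first difference is at an
index `< n` (`not_WLe_iff`; there is no END before it by `Str.wd_abs`). Take `g, ξ` from `HasWin` at `0` for the radius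
`R = n + max |p|` (`p ∈ F`). For `p, q ∈ F`: `g q ∈ up n (wd q s)` and `ξ p` kills `lo n (wd p s)` (`up_of_window`,
`lo_of_window`; sides and directions: `wd_sd`). If `ξ p (g q) ≠ 0` then the vertices are equal and `QMod.ord` shows
that `wd q s < wd p s` is impossible. -/
theorem exists_unitri (w : Str S) (N : Md D k) (ho : w.Open N) (F : Finset ℤ) (hF : ∀ p ∈ F, p ∈ w.Z) :
    ∃ (g : ℤ → N.C) (ξ : ℤ → N.C →ₗ[k] k),
      (∀ p ∈ F, ChAt N.Q S.ends w.L g p ∧ DcAt N.Q S.ends w.L ξ p ∧ ξ p (g p) = 1) ∧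
      ∀ p ∈ F, ∀ q ∈ F, ξ p (g q) ≠ 0 → w.PLe p q := by
  classical
  have hb : ∃ n : ℕ, ∀ p ∈ F, ∀ q ∈ F, ∀ s, ¬ WLe (w.L.wd p s) (w.L.wd q s) →
      ∃ m < n, (∀ i < m, w.L.wd p s i = w.L.wd q s i) ∧ w.L.wd q s m < w.L.wd p s m := by
    let f : ℤ × ℤ × Bool → ℕ := fun x =>
      if h : ¬ WLe (w.L.wd x.1 x.2.2) (w.L.wd x.2.1 x.2.2) then (not_WLe_iff.1 h).choose + 1 else 0
    refine ⟨(F ×ˢ F ×ˢ (Finset.univ : Finset Bool)).sup f, ?_⟩
    intro p hp q hq s h
    have hle : f (p, q, s) ≤ (F ×ˢ F ×ˢ (Finset.univ : Finset Bool)).sup f :=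
      Finset.le_sup (Finset.mem_product.2 ⟨hp, Finset.mem_product.2 ⟨hq, Finset.mem_univ s⟩⟩)
    have hf : f (p, q, s) = (not_WLe_iff.1 h).choose + 1 := dif_pos h
    refine ⟨(not_WLe_iff.1 h).choose, ?_, (not_WLe_iff.1 h).choose_spec.1, (not_WLe_iff.1 h).choose_spec.2⟩
    omega
  obtain ⟨n, hn⟩ := hb
  obtain ⟨g, ξ, hgξ⟩ := ho (n + F.sup Int.natAbs)
  have hwin : ∀ p ∈ F, ∀ q, w.L.Reach p q → (q - p).natAbs ≤ n →
      ChAt N.Q S.ends w.L g q ∧ DcAt N.Q S.ends w.L ξ q ∧ ξ q (g q) = 1 := by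
    intro p hp q hpq hle
    have h1 : p.natAbs ≤ F.sup Int.natAbs := Finset.le_sup (f := Int.natAbs) hp
    have h2 : w.L.Reach 0 p := hF p hp
    refine hgξ q (h2.trans hpq) ?_
    omega
  have hself : ∀ p ∈ F, ChAt N.Q S.ends w.L g p ∧ DcAt N.Q S.ends w.L ξ p ∧ ξ p (g p) = 1 :=
    fun p hp => hwin p hp p Ln.Reach.refl (by simp)
  have hdir : ∀ (p : ℤ) (s : Bool), ∃ e, w.L.sd e p = s := by
    intro p s
    unfold Ln.sd
    cases s <;> cases w.L.r p
    · exact ⟨true, rfl⟩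
    · exact ⟨false, rfl⟩
    · exact ⟨false, rfl⟩
    · exact ⟨true, rfl⟩
  refine ⟨g, ξ, hself, ?_⟩
  intro p hp q hq hne
  have hv : w.L.v q = w.L.v p := chain_vx (hself q hq).1 (hself p hp).2.1 hne
  refine ⟨hv.symm, ?_⟩
  intro s
  by_contra hcon
  obtain ⟨m, hmn, h1, h2⟩ := hn p hp q hq s hcon
  have hend : ∀ j < m, w.L.wd q s j = w.L.wd p s j ∧ w.L.wd q s j ≠ 1 := by
    intro j hj
    refine ⟨(h1 j hj).symm, ?_⟩
    intro h3
    have key : ∀ u : Wd, u.Abs → u j = 1 → ∀ i, u (j + i) = 1 := by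
      intro u hu h0 i
      induction i with
      | zero => exact h0
      | succ i ih => exact hu _ ih
    have h4 := key _ (w.wd_abs (hF q hq) s) h3 (m - j)
    have h5 := key _ (w.wd_abs (hF p hp) s) ((h1 j hj).trans h3) (m - j)
    rw [show j + (m - j) = m by omega] at h4 h5
    rw [h4, h5] at h2
    exact lt_irrefl _ h2
  obtain ⟨e, he⟩ := hdir q s
  obtain ⟨e', he'⟩ := hdir p s
  have h6 := up_of_window w.ok q n g (fun q' hr hle => (hwin q hq q' hr hle).1) e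
  have h7 := lo_of_window w.ok p n ξ (fun q' hr hle => (hwin p hp q' hr hle).2.1) e'
  rw [← wd_sd, he] at h6
  rw [← wd_sd, he'] at h7
  refine hne (h7 _ ?_)
  rw [← hv]
  exact N.Q.ord S hend h2 hmn (w.L.v q) s h6

end StrAlg
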