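import Pool.Agent.Lib.MP_b9fd58_lc.WEb

/-!
# The string of an open point (job WEc)
-/

set_option autoImplicit false

namespace StrAlg

open Module

variable {D : Dat} {k : Type} [Field k] {N : Type} [AddCommGroup N] [Module k N] {S : Sides D}

/-- one step of a chain against an IN letter -/
theorem wec_step {Q : QMod D k N} {L : Ln (Fin D.nV) S.nx} (hok : L.Ok S.ends) {e : Bool} {p : ℤ} {a : Fin D.nE}
    {g : ℤ → N} (hl : L.lt e p = 0) (ha : S.ends.inA (L.v p) (L.sd e p) = some a)
    (hg : ChAt Q S.ends L g (st e p)) : Q.op (Sum.inr a) (g (st e p)) = g p := by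
  have h2 : L.lt (!e) (st e p) = 2 := by rw [Ln.lt_back, hl]; rfl
  obtain ⟨a', h3, h4⟩ := hok (!e) (st e p) h2
  rw [st_not_st, Bool.not_not, ha] at h4
  obtain rfl : a = a' := Option.some.inj h4
  rw [hg.2 a, KH.left_eq (K := fun q (_ : ℤ) => g q) (b := 0) h2 h3, st_not_st]

/-- walking back along a directed path -/
theorem wec_fold {Q : QMod D k N} {L : Ln (Fin D.nV) S.nx} (hok : L.Ok S.ends) {e : Bool} {g : ℤ → N} :
    ∀ (l : List (Fin D.nE)) (p : ℤ), bk S.ends L e l p →
      (∀ j : ℕ, j ≤ l.length → ChAt Q S.ends L g (stn e j p)) →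
      l.reverse.foldl (fun m a => Q.op (Sum.inr a) m) (g (stn e l.length p)) = g p := by
  intro l
  induction l with
  | nil => intro p _ _; simp
  | cons a l ih =>
    intro p hb hg
    obtain ⟨h1, h2, h3⟩ := hb
    have e1 : ∀ j : ℕ, stn e ((j + 1 : ℕ) : ℤ) p = stn e j (st e p) := by
      intro j; rw [← stn_one, stn_stn]; push_cast; ring_nf
    have h4 := ih (st e p) h3 (fun j hj => by rw [← e1]; exact hg (j + 1) (by simpa using hj))
    rw [List.reverse_cons, List.foldl_append, List.length_cons, e1, h4]
    simp only [List.foldl_cons, List.foldl_nil]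
    refine wec_step hok h1 h2 ?_
    have h5 := hg 1 (by simp)
    have h6 : stn e ((1 : ℕ) : ℤ) p = st e p := by simpa using stn_one e p
    rwa [h6] at h5

/-- the letters along a directed path -/
theorem wec_lt {L : Ln (Fin D.nV) S.nx} {e : Bool} :
    ∀ (l : List (Fin D.nE)) (p : ℤ), bk S.ends L e l p → ∀ j < l.length, L.lt e (stn e j p) = 0 := by
  intro l
  induction l with
  | nil => intro p _ j hj; simp at hj
  | cons a l ih =>
    intro p hb j hj
    obtain ⟨h1, h2, h3⟩ := hb
    cases j with
    | zero => simpa using h1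
    | succ j =>
      have e1 : stn e ((j + 1 : ℕ) : ℤ) p = stn e j (st e p) := by
        rw [← stn_one, stn_stn]; push_cast; ring_nf
      rw [e1]
      exact ih (st e p) h3 j (by simpa using hj)

/-- a line with windows has no relation: a chain is zero at the end of a relation -/
theorem norel_of_win {Q : QMod D k N} {L : Ln (Fin D.nV) S.nx} (h : HasWin Q S.ends L 0) (hok : L.Ok S.ends)
    (hc : ∀ p, L.lam p ≠ 1 → L.Reach 0 p ∧ L.Reach 0 (p + 1)) : L.NoRel S.ends := by
  intro r hr e p hb
  by_cases hr0 : r = []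
  · subst hr0
    obtain ⟨g, ξ, hg⟩ := h 0
    have h1 := (hg 0 Ln.Reach.refl (by simp)).2.2
    have h2 := Q.rel [] hr (g 0)
    simp only [List.foldl_nil] at h2
    rw [h2, map_zero] at h1
    exact zero_ne_one h1
  · have hlt := wec_lt _ _ hb
    have hlen : 0 < r.reverse.length := by
      rw [List.length_reverse]; exact List.length_pos_iff.2 hr0
    have h0 : L.lt e p = 0 := by simpa using hlt 0 hlen
    have hreach : L.Reach 0 p := by
      cases e with
      | true =>
        refine (hc p ?_).1
        have : L.lam p = 0 := h0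
        rw [this]; decide
      | false =>
        have h1 : Fin.rev (L.lam (p - 1)) = 0 := h0
        have h2 : L.lam (p - 1) ≠ 1 := by
          intro h3
          rw [h3] at h1
          exact absurd h1 (by decide)
        have h3 := (hc (p - 1) h2).2
        rwa [sub_add_cancel] at h3
    have hne : ∀ j < r.reverse.length, L.lt e (stn e j p) ≠ 1 := by
      intro j hj
      rw [hlt j hj]; decide
    have hreach' : ∀ j : ℕ, j ≤ r.reverse.length → L.Reach 0 (stn e j p) := by
      intro j hj
      exact hreach.trans (Ln.Reach.of_lt (fun i hi => hne i (lt_of_lt_of_le hi hj)))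
    obtain ⟨g, ξ, hg⟩ := h (p.natAbs + r.reverse.length)
    have hwin : ∀ j : ℕ, j ≤ r.reverse.length → (stn e j p - 0).natAbs ≤ p.natAbs + r.reverse.length := by
      intro j hj
      cases e
      · simp only [stn_false]; omega
      · simp only [stn_true]; omega
    have h1 := wec_fold (g := g) hok r.reverse p hb (fun j hj => (hg _ (hreach' j hj) (hwin j hj)).1)
    rw [List.reverse_reverse, Q.rel r hr] at h1
    have h2 := (hg p hreach (by omega)).2.2
    rw [← h1, map_zero] at h2
    exact zero_ne_one h2

/-- **every open point is the point of an open string** -/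
theorem QMod.OpenPt.exists_str {Q : QMod D k N} {i : Fin D.nV} {u : Bool → Wd} (hu : ∀ s, (u s).Abs)
    (h : Q.OpenPt S i u) : ∃ w : Str S, w.L.v 0 = i ∧ w.L.r 0 = true ∧ w.L.wd 0 = u ∧ HasWin Q S.ends w.L 0 := by
  obtain ⟨L, h1, h2, h3, hok, habs, hc⟩ := exists_line S i u hu (fun s => h.val hu s)
  have hwd : L.wd 0 = u := by
    funext s
    unfold Ln.wd
    rw [h2, beq_true', h3]
  have hwin : HasWin Q S.ends L 0 := by
    rw [hasWin_iff hok, h1, hwd]
    exact h
  exact ⟨⟨L, hok, norel_of_win hwin hok hc, habs, hc⟩, h1, h2, hwd, hwin⟩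

end StrAlg
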