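import Pool.Agent.Lib.MP_b9fd58_lc.WDef

/-!
# Cuts: monotonicity (job W-A)
-/

set_option autoImplicit false

namespace StrAlg

open Module

variable {D : Dat} {k : Type} [Field k] {N : Type} [AddCommGroup N] [Module k N]

theorem QMod.mem_vs {Q : QMod D k N} {i : Fin D.nV} {n : N} : n ∈ Q.vs i ↔ Q.op (Sum.inl i) n = n := by
  constructor
  · rintro ⟨m, rfl⟩
    exact Q.idem i m
  · intro h
    exact ⟨n, h⟩

/-- images of arrows lie in the space of the target -/
theorem QMod.inr_mem_vs (Q : QMod D k N) (α : Fin D.nE) (n : N) : Q.op (Sum.inr α) n ∈ Q.vs (D.tgt α) :=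
  QMod.mem_vs.2 (Q.tgt α n)

/-- arrows that start at another vertex kill -/
theorem QMod.inr_of_ne (Q : QMod D k N) {α : Fin D.nE} {i : Fin D.nV} {n : N} (hn : n ∈ Q.vs i)
    (h : D.src α ≠ i) : Q.op (Sum.inr α) n = 0 := by
  rw [← Q.src α n, ← QMod.mem_vs.1 hn, Q.orth i (D.src α) n (Ne.symm h), map_zero]

/-- incoming followed by outgoing on the same side is zero (`Sides.zero`, `Q.rel`) -/
theorem QMod.out_in (Q : QMod D k N) {S : Sides D} {i : Fin D.nV} {s : Bool} {β γ : Fin D.nE}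
    (hβ : S.inA i s = some β) (hγ : S.outA i s = some γ) (n : N) :
    Q.op (Sum.inr γ) (Q.op (Sum.inr β) n) = 0 := by
  rw [Sides.inA_some] at hβ
  rw [Sides.outA_some] at hγ
  exact Q.rel _ (S.zero β γ (hβ.1.trans hγ.1.symm) (hβ.2.trans hγ.2.symm)) n

theorem QMod.cB_mono (Q : QMod D k N) (S : Sides D) (i : Fin D.nV) (s : Bool) {L L' : Submodule k N} (h : L ≤ L') :
    Q.cB S i s L ≤ Q.cB S i s L' := by
  unfold QMod.cB
  split
  · exact le_rfl
  · exact Submodule.map_mono h

theorem QMod.cC_mono (Q : QMod D k N) (S : Sides D) (i : Fin D.nV) (s : Bool) {L L' : Submodule k N} (h : L ≤ L') :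
    Q.cC S i s L ≤ Q.cC S i s L' := by
  unfold QMod.cC
  split
  · exact le_rfl
  · exact inf_le_inf_left _ (Submodule.comap_mono h)

theorem QMod.cB_bot (Q : QMod D k N) (S : Sides D) (i : Fin D.nV) (s : Bool) : Q.cB S i s ⊥ = ⊥ := by
  unfold QMod.cB
  split
  · rfl
  · exact Submodule.map_bot _

theorem QMod.cB_vs (Q : QMod D k N) (S : Sides D) (i : Fin D.nV) (s : Bool) :
    Q.cB S i s (Q.vs (S.nh i s 0).1) = Q.cB S i s ⊤ := by
  unfold QMod.cB Sides.nh Sides.nx
  rw [if_pos rfl]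
  cases h : S.inA i s with
  | none => rfl
  | some β =>
    apply le_antisymm
    · exact Submodule.map_mono le_top
    · rintro x ⟨n, -, rfl⟩
      refine ⟨Q.op (Sum.inl (D.src β)) n, ⟨n, rfl⟩, ?_⟩
      exact Q.src β n

theorem QMod.cC_vs (Q : QMod D k N) (S : Sides D) (i : Fin D.nV) (s : Bool) :
    Q.cC S i s (Q.vs (S.nh i s 2).1) = Q.vs i := by
  unfold QMod.cC Sides.nh Sides.nx
  rw [if_neg (by decide), if_pos rfl]
  cases h : S.outA i s with
  | none => rfl
  | some γ =>
    apply le_antisymm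
    · exact inf_le_left
    · intro x hx
      exact ⟨hx, Q.inr_mem_vs γ x⟩

theorem QMod.cB_le_vs (Q : QMod D k N) (S : Sides D) (i : Fin D.nV) (s : Bool) (L : Submodule k N) :
    Q.cB S i s L ≤ Q.vs i := by
  unfold QMod.cB
  cases h : S.inA i s with
  | none => exact bot_le
  | some β =>
    rintro x ⟨n, -, rfl⟩
    have h1 := (Sides.inA_some.1 h).1
    rw [← h1]
    exact Q.inr_mem_vs β n

theorem QMod.cB_le_cC (Q : QMod D k N) (S : Sides D) (i : Fin D.nV) (s : Bool) :
    Q.cB S i s ⊤ ≤ Q.cC S i s ⊥ := by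
  have h0 := Q.cB_le_vs S i s ⊤
  unfold QMod.cC
  cases h : S.outA i s with
  | none => exact h0
  | some γ =>
    refine le_inf h0 ?_
    unfold QMod.cB
    cases h' : S.inA i s with
    | none => exact bot_le
    | some β =>
      rintro x ⟨n, -, rfl⟩
      exact Q.out_in h' h n

theorem QMod.cC_le_vs (Q : QMod D k N) (S : Sides D) (i : Fin D.nV) (s : Bool) (L : Submodule k N) :
    Q.cC S i s L ≤ Q.vs i := by
  unfold QMod.cC
  split
  · exact le_rfl
  · exact inf_le_left

theorem QMod.up_le_vs (Q : QMod D k N) (S : Sides D) (n : ℕ) (u : Wd) (i : Fin D.nV) (s : Bool) :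
    Q.up S n u i s ≤ Q.vs i := by
  cases n with
  | zero => exact le_rfl
  | succ n =>
    unfold QMod.up
    split_ifs
    · exact Q.cB_le_vs S i s _
    · exact Q.cC_le_vs S i s _
    · exact Q.cC_le_vs S i s _

theorem QMod.lo_le_up (Q : QMod D k N) (S : Sides D) (n : ℕ) (u : Wd) (i : Fin D.nV) (s : Bool) :
    Q.lo S n u i s ≤ Q.up S n u i s := by
  induction n generalizing u i s with
  | zero => exact bot_le
  | succ n ih =>
    unfold QMod.lo QMod.up
    split_ifs
    · exact Q.cB_mono S i s (ih _ _ _)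
    · exact Q.cC_mono S i s (ih _ _ _)
    · exact Q.cB_le_cC S i s

theorem QMod.up_anti (Q : QMod D k N) (S : Sides D) {m n : ℕ} (h : m ≤ n) (u : Wd) (i : Fin D.nV) (s : Bool) :
    Q.up S n u i s ≤ Q.up S m u i s := by
  induction m generalizing n u i s with
  | zero => exact Q.up_le_vs S n u i s
  | succ m ih =>
    obtain ⟨n, rfl⟩ : ∃ n', n = n' + 1 := ⟨n - 1, by omega⟩
    have h' : m ≤ n := by omega
    unfold QMod.up
    split_ifs
    · exact Q.cB_mono S i s (ih h' _ _ _)
    · exact Q.cC_mono S i s (ih h' _ _ _)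
    · exact le_rfl

theorem QMod.lo_mono (Q : QMod D k N) (S : Sides D) {m n : ℕ} (h : m ≤ n) (u : Wd) (i : Fin D.nV) (s : Bool) :
    Q.lo S m u i s ≤ Q.lo S n u i s := by
  induction m generalizing n u i s with
  | zero => exact bot_le
  | succ m ih =>
    obtain ⟨n, rfl⟩ : ∃ n', n = n' + 1 := ⟨n - 1, by omega⟩
    have h' : m ≤ n := by omega
    unfold QMod.lo
    split_ifs
    · exact Q.cB_mono S i s (ih h' _ _ _)
    · exact Q.cC_mono S i s (ih h' _ _ _)
    · exact le_rfl

theorem QMod.up_congr (Q : QMod D k N) (S : Sides D) {n : ℕ} {u v : Wd} (h : ∀ j < n, u j = v j) (i : Fin D.nV)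
    (s : Bool) : Q.up S n u i s = Q.up S n v i s := by
  induction n generalizing u v i s with
  | zero => rfl
  | succ n ih =>
    have h0 : u 0 = v 0 := h 0 (by omega)
    have h1 : ∀ j < n, u.sh j = v.sh j := fun j hj => h (j + 1) (by omega)
    unfold QMod.up
    rw [h0, ih h1, ih h1]

theorem QMod.lo_congr (Q : QMod D k N) (S : Sides D) {n : ℕ} {u v : Wd} (h : ∀ j < n, u j = v j) (i : Fin D.nV)
    (s : Bool) : Q.lo S n u i s = Q.lo S n v i s := by
  induction n generalizing u v i s with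
  | zero => rfl
  | succ n ih =>
    have h0 : u 0 = v 0 := h 0 (by omega)
    have h1 : ∀ j < n, u.sh j = v.sh j := fun j hj => h (j + 1) (by omega)
    unfold QMod.lo
    rw [h0, ih h1, ih h1]

theorem QMod.up_top (Q : QMod D k N) (S : Sides D) (n : ℕ) (i : Fin D.nV) (s : Bool) :
    Q.up S n Wd.top i s = Q.vs i := by
  induction n generalizing i s with
  | zero => rfl
  | succ n ih =>
    have h0 : Wd.top.sh = Wd.top := rfl
    have h1 : Wd.top 0 = 2 := rfl
    unfold QMod.up
    rw [h1, if_neg (by decide), if_pos rfl, h0, ih, Q.cC_vs]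

theorem QMod.lo_bot (Q : QMod D k N) (S : Sides D) (n : ℕ) (i : Fin D.nV) (s : Bool) :
    Q.lo S n Wd.bot i s = ⊥ := by
  induction n generalizing i s with
  | zero => rfl
  | succ n ih =>
    have h0 : Wd.bot.sh = Wd.bot := rfl
    have h1 : Wd.bot 0 = 0 := rfl
    unfold QMod.lo
    rw [h1, if_pos rfl, h0, ih, Q.cB_bot]

theorem QMod.U_anti (Q : QMod D k N) (S : Sides D) {m n : ℕ} (h : m ≤ n) (i : Fin D.nV) (u : Bool → Wd) :
    Q.U S n i u ≤ Q.U S m i u :=
  inf_le_inf (Q.up_anti S h _ _ _) (Q.up_anti S h _ _ _)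

theorem QMod.B_mono (Q : QMod D k N) (S : Sides D) {m n : ℕ} (h : m ≤ n) (i : Fin D.nV) (u : Bool → Wd) :
    Q.B S m i u ≤ Q.B S n i u :=
  sup_le_sup (Q.lo_mono S h _ _ _) (Q.lo_mono S h _ _ _)

/-- if the interval of depth `n` collapses then it collapses at all bigger depths -/
theorem QMod.up_le_lo_mono (Q : QMod D k N) (S : Sides D) {m n : ℕ} (h : m ≤ n) (u : Wd) (i : Fin D.nV) (s : Bool)
    (h' : Q.up S m u i s ≤ Q.lo S m u i s) : Q.up S n u i s ≤ Q.lo S n u i s :=
  (Q.up_anti S h u i s).trans (h'.trans (Q.lo_mono S h u i s))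

end StrAlg
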