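import Pool.Agent.Lib.MP_b9fd58_lc.WBa
import Pool.Agent.Lib.MP_b9fd58_lc.WA

/-!
# Compactness of the space of points (job W-K)

`Wd = ℕ → Fin 3` and `Bool → Wd` carry the product topology (`Fin 3` discrete): compact Hausdorff spaces.
-/

set_option autoImplicit false

namespace StrAlg

open Module

variable {D : Dat} {k : Type} [Field k] {N : Type} [AddCommGroup N] [Module k N]

/-- a set of word pairs that only depends on the first `m` letters is open and closed -/
theorem isClopen_of_fin (m : ℕ) (K : Set (Bool → Wd))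
    (h : ∀ u v : Bool → Wd, (∀ s, ∀ j < m, u s j = v s j) → u ∈ K → v ∈ K) : IsClopen K := by
  obtain ⟨r, hr0⟩ : ∃ r : (Bool → Wd) → (Bool → Fin m → Fin 3), r = fun u s j => u s j := ⟨_, rfl⟩
  have hr : Continuous r := by
    rw [hr0]
    refine continuous_pi fun s => continuous_pi fun j => ?_
    exact (continuous_apply (j : ℕ)).comp (continuous_apply s)
  have e : K = r ⁻¹' (r '' K) := by
    ext v
    constructor
    · intro hv
      exact ⟨v, hv, rfl⟩
    · rintro ⟨u, hu, huv⟩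
      refine h u v ?_ hu
      intro s j hj
      rw [hr0] at huv
      exact congrFun (congrFun huv s) ⟨j, hj⟩
  rw [e]
  exact (isClopen_discrete _).preimage hr

theorem isClosed_abs : IsClosed {u : Bool → Wd | ∀ s, (u s).Abs} := by
  have e : {u : Bool → Wd | ∀ s, (u s).Abs} = ⋂ s : Bool, ⋂ n : ℕ, {u : Bool → Wd | u s n = 1 → u s (n + 1) = 1} := by
    ext u
    simp only [Set.mem_iInter, Set.mem_ofPred_eq]
    rfl
  rw [e]
  refine isClosed_iInter fun s => isClosed_iInter fun n => ?_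
  refine (isClopen_of_fin (n + 2) _ ?_).isClosed
  intro u v huv hu
  have h1 := huv s n (by omega)
  have h2 := huv s (n + 1) (by omega)
  show v s n = 1 → v s (n + 1) = 1
  rw [← h1, ← h2]
  exact hu

theorem isClosed_le (v : Bool → Wd) : IsClosed {u : Bool → Wd | ∀ s, WLe (u s) (v s)} := by
  have e : {u : Bool → Wd | ∀ s, WLe (u s) (v s)} =
      ⋂ s : Bool, ⋂ n : ℕ, {u : Bool → Wd | (∀ i < n, u s i = v s i) → u s n ≤ v s n} := by
    ext u
    simp only [Set.mem_iInter, Set.mem_ofPred_eq]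
    rfl
  rw [e]
  refine isClosed_iInter fun s => isClosed_iInter fun n => ?_
  refine (isClopen_of_fin (n + 1) _ ?_).isClosed
  intro u w huv hu
  show (∀ i < n, w s i = v s i) → w s n ≤ v s n
  intro h
  rw [← huv s n (by omega)]
  refine hu ?_
  intro i hi
  rw [huv s i (by omega)]
  exact h i hi

theorem isClosed_ge (v : Bool → Wd) : IsClosed {u : Bool → Wd | ∀ s, WLe (v s) (u s)} := by
  have e : {u : Bool → Wd | ∀ s, WLe (v s) (u s)} =
      ⋂ s : Bool, ⋂ n : ℕ, {u : Bool → Wd | (∀ i < n, v s i = u s i) → v s n ≤ u s n} := by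
    ext u
    simp only [Set.mem_iInter, Set.mem_ofPred_eq]
    rfl
  rw [e]
  refine isClosed_iInter fun s => isClosed_iInter fun n => ?_
  refine (isClopen_of_fin (n + 1) _ ?_).isClosed
  intro u w huv hu
  show (∀ i < n, v s i = w s i) → v s n ≤ w s n
  intro h
  rw [← huv s n (by omega)]
  refine hu ?_
  intro i hi
  rw [huv s i (by omega)]
  exact h i hi

theorem wk_aux_clopen (Q : QMod D k N) (S : Sides D) (i : Fin D.nV) (n : ℕ) :
    IsClopen {u : Bool → Wd | ¬ Q.U S n i u ≤ Q.B S n i u} := by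
  refine isClopen_of_fin n _ ?_
  intro u v huv hu
  have h1 : Q.U S n i u = Q.U S n i v := by
    unfold QMod.U
    rw [Q.up_congr S (huv false) i false, Q.up_congr S (huv true) i true]
  have h2 : Q.B S n i u = Q.B S n i v := by
    unfold QMod.B
    rw [Q.lo_congr S (huv false) i false, Q.lo_congr S (huv true) i true]
  show ¬ Q.U S n i v ≤ Q.B S n i v
  rw [← h1, ← h2]
  exact hu

theorem isClosed_openPt (Q : QMod D k N) (S : Sides D) (i : Fin D.nV) :
    IsClosed {u : Bool → Wd | Q.OpenPt S i u} := by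
  have e : {u : Bool → Wd | Q.OpenPt S i u} = ⋂ n : ℕ, {u : Bool → Wd | ¬ Q.U S n i u ≤ Q.B S n i u} := by
    ext u
    simp only [Set.mem_iInter, Set.mem_ofPred_eq]
    rfl
  rw [e]
  exact isClosed_iInter fun n => (wk_aux_clopen Q S i n).isClosed

theorem wk_aux_inter (K : ℕ → Set (Bool → Wd)) (hK : ∀ n, IsClosed (K n)) (hd : ∀ n, K (n + 1) ⊆ K n)
    (h : ∀ n, (K n).Nonempty) : ∃ u, ∀ n, u ∈ K n := by
  obtain ⟨u, hu⟩ := IsCompact.nonempty_iInter_of_sequence_nonempty_isCompact_isClosed K hd h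
    (hK 0).isCompact hK
  exact ⟨u, fun n => Set.mem_iInter.1 hu n⟩

/-- Compactness: if a closed set contains for every `n` a point whose box of depth `n` is open then it contains an
open point (the sets of points with open box of depth `n` are closed and decreasing). -/
theorem QMod.exists_openPt (Q : QMod D k N) (S : Sides D) (i : Fin D.nV) (K : Set (Bool → Wd)) (hK : IsClosed K)
    (h : ∀ n, ∃ u ∈ K, ¬ Q.U S n i u ≤ Q.B S n i u) : ∃ u ∈ K, Q.OpenPt S i u := by
  have h1 : ∀ n, K ∩ {u : Bool → Wd | ¬ Q.U S (n + 1) i u ≤ Q.B S (n + 1) i u} ⊆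
      K ∩ {u : Bool → Wd | ¬ Q.U S n i u ≤ Q.B S n i u} := by
    rintro n u ⟨hu1, hu2⟩
    refine ⟨hu1, fun h' => hu2 ?_⟩
    exact (Q.U_anti S (Nat.le_succ n) i u).trans (h'.trans (Q.B_mono S (Nat.le_succ n) i u))
  have h2 : ∀ n, (K ∩ {u : Bool → Wd | ¬ Q.U S n i u ≤ Q.B S n i u}).Nonempty := by
    intro n
    obtain ⟨u, hu1, hu2⟩ := h n
    exact ⟨u, hu1, hu2⟩
  obtain ⟨u, hu⟩ := wk_aux_inter (fun n => K ∩ {u : Bool → Wd | ¬ Q.U S n i u ≤ Q.B S n i u})
    (fun n => hK.inter (wk_aux_clopen Q S i n).isClosed) h1 h2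
  exact ⟨u, (hu 0).1, fun n => (hu n).2⟩

/-- Compactness for a decreasing sequence of closed sets of open points -/
theorem exists_mem_all (K : ℕ → Set (Bool → Wd)) (hK : ∀ n, IsClosed (K n)) (hd : ∀ n, K (n + 1) ⊆ K n)
    (h : ∀ n, (K n).Nonempty) : ∃ u, ∀ n, u ∈ K n :=
  wk_aux_inter K hK hd h

/-- a closed set of points, all of them isolated in the set, is finite -/
theorem finite_of_isolated (K : Set (Bool → Wd)) (hK : IsClosed K)
    (h : ∀ u ∈ K, ∃ m, ∀ v ∈ K, (∀ s, ∀ j < m, v s j = u s j) → v = u) : K.Finite := by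
  by_contra hinf
  obtain ⟨x, hx, hacc⟩ := Set.Infinite.exists_accPt_of_subset_isCompact (s := K) hinf hK.isCompact
    (le_refl K)
  obtain ⟨m, hm⟩ := h x hx
  have hopen : IsClopen {v : Bool → Wd | ∀ s, ∀ j < m, v s j = x s j} := by
    refine isClopen_of_fin m _ ?_
    intro u v huv hu s j hj
    rw [← huv s j hj]
    exact hu s j hj
  rw [accPt_iff_nhds] at hacc
  obtain ⟨y, hy, hyx⟩ := hacc {v : Bool → Wd | ∀ s, ∀ j < m, v s j = x s j}
    (hopen.isOpen.mem_nhds (fun s j _ => rfl))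
  exact hyx (hm y hy.2 hy.1)

end StrAlg
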