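import Pool.Agent.Lib.MP_b9fd58_lc.WCc
import Pool.Agent.Lib.MP_b9fd58_lc.WK

/-!
# Isolated open points (job WUb)
-/

set_option autoImplicit false

namespace StrAlg

open Module

variable {D : Dat} {k : Type} [Field k] {S : Sides D}

/-- if the point is isolated in the set of open points then the inclusions hold from some depth on
(`QMod.strips`, `QMod.exists_openPt` for the closed set of absorbing word pairs that agree with `u` before `m` and differ
at `m` on one side) -/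
theorem stab_of_isolated {N : Type} [AddCommGroup N] [Module k N] (Q : QMod D k N) (i : Fin D.nV) (u : Bool → Wd)
    (hu : ∀ s, (u s).Abs) (m₀ : ℕ)
    (h : ∀ u' : Bool → Wd, (∀ s, (u' s).Abs) → Q.OpenPt S i u' → (∀ s, ∀ j < m₀, u' s j = u s j) → u' = u) :
    ∀ m ≥ m₀, Q.U S m i u ≤ Q.U S (m + 1) i u ⊔ Q.B S m i u ∧ Q.U S m i u ⊓ Q.B S (m + 1) i u ≤ Q.B S m i u := by
  intro m hm
  by_contra hcon
  have hcl : IsClopen {w : Bool → Wd | (∀ s, ∀ j < m, w s j = u s j) ∧ ∃ s, w s m ≠ u s m} := by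
    refine isClopen_of_fin (m + 1) _ ?_
    rintro a b hab ⟨h1, s, h2⟩
    refine ⟨fun s j hj => ?_, s, ?_⟩
    · rw [← hab s j (by omega)]
      exact h1 s j hj
    · rw [← hab s m (by omega)]
      exact h2
  obtain ⟨w, ⟨hw1, hw2⟩, hw3⟩ := Q.exists_openPt S i
    ({w : Bool → Wd | ∀ s, (w s).Abs} ∩
      {w : Bool → Wd | (∀ s, ∀ j < m, w s j = u s j) ∧ ∃ s, w s m ≠ u s m})
    (isClosed_abs.inter hcl.isClosed) (fun n => by
      obtain ⟨w, hw1, hw2, hw3⟩ := Q.strips S i u hu m hcon n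
      exact ⟨w, ⟨fun s => (hw1 s).1, fun s => (hw1 s).2, hw2⟩, hw3⟩)
  obtain ⟨h1, s, h2⟩ := hw2
  have h3 := h w hw1 hw3 (fun s j hj => h1 s j (by omega))
  exact h2 (by rw [h3])

/-- an open point between two pairs of words (`QMod.between2`, `QMod.exists_openPt`) -/
theorem exists_openPt_between {N : Type} [AddCommGroup N] [Module k N] (Q : QMod D k N) (i : Fin D.nV)
    (u v : Bool → Wd) (hle : ∀ s, WLe (u s) (v s)) (hu : ∀ s, (u s).Abs) (hv : ∀ s, (v s).Abs)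
    (h : ∀ n, ¬ Q.U S n i v ≤ Q.B S n i u) :
    ∃ w : Bool → Wd, (∀ s, WLe (u s) (w s) ∧ WLe (w s) (v s) ∧ (w s).Abs) ∧ Q.OpenPt S i w := by
  obtain ⟨w, ⟨⟨hw1, hw2⟩, hw3⟩, hw4⟩ := Q.exists_openPt S i
    (({w : Bool → Wd | ∀ s, WLe (u s) (w s)} ∩ {w : Bool → Wd | ∀ s, WLe (w s) (v s)}) ∩
      {w : Bool → Wd | ∀ s, (w s).Abs})
    (((isClosed_ge u).inter (isClosed_le v)).inter isClosed_abs) (fun n => by
      obtain ⟨w, hw1, hw2⟩ := Q.between2 S n i u v hle hu hv (h n)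
      exact ⟨w, ⟨⟨fun s => (hw1 s).1, fun s => (hw1 s).2.1⟩, fun s => (hw1 s).2.2⟩, hw2⟩)
  exact ⟨w, fun s => ⟨hw1 s, hw2 s, hw3 s⟩, hw4⟩

/-- a nonzero module has an open point -/
theorem exists_openPt_of_ne {N : Type} [AddCommGroup N] [Module k N] (Q : QMod D k N) (h : ∃ n : N, n ≠ 0) :
    ∃ (i : Fin D.nV) (w : Bool → Wd), (∀ s, (w s).Abs) ∧ Q.OpenPt S i w := by
  obtain ⟨n, hn⟩ := h
  have h1 : ∃ i : Fin D.nV, Q.op (Sum.inl i) n ≠ 0 := by
    by_contra hcon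
    push Not at hcon
    apply hn
    rw [← Q.one n]
    exact Finset.sum_eq_zero (fun i _ => hcon i)
  obtain ⟨i, hi⟩ := h1
  obtain ⟨w, hw1, hw2⟩ := exists_openPt_between (S := S) Q i (fun _ => Wd.bot) (fun _ => Wd.top)
    (fun _ => WLe_bot _) (fun _ => Wd.bot_abs) (fun _ => Wd.top_abs) (fun m => by
      unfold QMod.U QMod.B
      rw [Q.up_top, Q.up_top, Q.lo_bot, Q.lo_bot]
      intro hle
      have h2 : Q.op (Sum.inl i) n ∈ (⊥ : Submodule k N) ⊔ ⊥ := hle ⟨⟨n, rfl⟩, ⟨n, rfl⟩⟩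
      rw [sup_idem, Submodule.mem_bot] at h2
      exact hi h2)
  exact ⟨i, w, fun s => (hw1 s).2.2, hw2⟩

theorem wub_cB {M N : Md D k} {f : M.C →ₗ[k] N.C} (hf : M.Hom N f) (i : Fin D.nV) (s : Bool)
    {L : Submodule k M.C} {L' : Submodule k N.C} (hL : ∀ x ∈ L, f x ∈ L') (x : M.C) (hx : x ∈ M.Q.cB S i s L) :
    f x ∈ N.Q.cB S i s L' := by
  unfold QMod.cB at hx ⊢
  cases hA : S.inA i s with
  | none =>
    rw [hA] at hx
    simp only at hx ⊢
    rw [Submodule.mem_bot] at hx ⊢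
    rw [hx, map_zero]
  | some β =>
    rw [hA] at hx
    simp only at hx ⊢
    obtain ⟨y, hy, rfl⟩ := hx
    exact ⟨f y, hL y hy, (hf _ _).symm⟩

theorem wub_vs {M N : Md D k} {f : M.C →ₗ[k] N.C} (hf : M.Hom N f) (i : Fin D.nV) (x : M.C) (hx : x ∈ M.Q.vs i) :
    f x ∈ N.Q.vs i := by
  obtain ⟨y, rfl⟩ := hx
  exact ⟨f y, (hf _ _).symm⟩

theorem wub_cC {M N : Md D k} {f : M.C →ₗ[k] N.C} (hf : M.Hom N f) (i : Fin D.nV) (s : Bool)
    {L : Submodule k M.C} {L' : Submodule k N.C} (hL : ∀ x ∈ L, f x ∈ L') (x : M.C) (hx : x ∈ M.Q.cC S i s L) :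
    f x ∈ N.Q.cC S i s L' := by
  unfold QMod.cC at hx ⊢
  cases hA : S.outA i s with
  | none =>
    rw [hA] at hx
    exact wub_vs hf i x hx
  | some γ =>
    rw [hA] at hx
    simp only at hx ⊢
    refine ⟨wub_vs hf i x hx.1, ?_⟩
    have h2 : M.Q.op (Sum.inr γ) x ∈ L := hx.2
    have h3 := hL _ h2
    rw [hf] at h3
    exact h3

/-- homomorphisms respect the cuts -/
theorem wmap_up {M N : Md D k} {f : M.C →ₗ[k] N.C} (hf : M.Hom N f) (n : ℕ) (u : Wd) (i : Fin D.nV) (s : Bool)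
    (x : M.C) (hx : x ∈ M.Q.up S n u i s) : f x ∈ N.Q.up S n u i s := by
  induction n generalizing u i s x with
  | zero => exact wub_vs hf i x hx
  | succ n ih =>
    unfold QMod.up at hx ⊢
    split_ifs at hx ⊢ with h0 h2
    · exact wub_cB hf i s (fun y hy => ih _ _ _ y hy) x hx
    · exact wub_cC hf i s (fun y hy => ih _ _ _ y hy) x hx
    · exact wub_cC hf i s (fun y hy => by
        rw [Submodule.mem_bot] at hy ⊢
        rw [hy, map_zero]) x hx

theorem wmap_lo {M N : Md D k} {f : M.C →ₗ[k] N.C} (hf : M.Hom N f) (n : ℕ) (u : Wd) (i : Fin D.nV) (s : Bool)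
    (x : M.C) (hx : x ∈ M.Q.lo S n u i s) : f x ∈ N.Q.lo S n u i s := by
  induction n generalizing u i s x with
  | zero =>
    unfold QMod.lo at hx ⊢
    rw [Submodule.mem_bot] at hx ⊢
    rw [hx, map_zero]
  | succ n ih =>
    unfold QMod.lo at hx ⊢
    split_ifs at hx ⊢ with h0 h2
    · exact wub_cB hf i s (fun y hy => ih _ _ _ y hy) x hx
    · exact wub_cC hf i s (fun y hy => ih _ _ _ y hy) x hx
    · exact wub_cB hf i s (fun _ _ => Submodule.mem_top) x hx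

theorem OpenPt_ret {M N : Md D k} (h : M.Ret N) {i : Fin D.nV} {u : Bool → Wd} (ho : M.Q.OpenPt S i u) :
    N.Q.OpenPt S i u := by
  obtain ⟨f, r, hf, hr, hrf⟩ := h
  intro n hle
  apply ho n
  intro x hx
  have h1 : f x ∈ N.Q.U S n i u := ⟨wmap_up hf n _ _ _ x hx.1, wmap_up hf n _ _ _ x hx.2⟩
  have h2 := hle h1
  unfold QMod.B at h2 ⊢
  obtain ⟨a, ha, b, hb, hab⟩ := Submodule.mem_sup.1 h2
  have h3 : r (f x) = x := LinearMap.congr_fun hrf x
  rw [← h3, ← hab, map_add]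
  exact Submodule.add_mem_sup (wmap_lo hr n _ _ _ a ha) (wmap_lo hr n _ _ _ b hb)

end StrAlg
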