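import Pool.Agent.Lib.MP_b9fd58_lc.CAb
import Pool.Agent.Lib.MP_b9fd58_lc.WEc
import Pool.Agent.Lib.MP_b9fd58_lc.WUb

/-!
# Classification: the open strings of finite-dimensional modules (job CB)
-/

set_option autoImplicit false

namespace StrAlg

open Module

variable {D : Dat} {k : Type} [Field k] {S : Sides D}

/-- a unitriangular matrix is injective -/
theorem cb_max (w : Str S) (hw : w.Aper) (F : Finset ℤ) (hF : ∀ p ∈ F, p ∈ w.Z) (M : ℤ → ℤ → k)
    (h1 : ∀ p ∈ F, M p p = 1) (h2 : ∀ p ∈ F, ∀ q ∈ F, M p q ≠ 0 → w.PLe p q) (c : ℤ → k)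
    (hc : ∀ p ∈ F, ∑ q ∈ F, c q * M p q = 0) : ∀ p ∈ F, c p = 0 := by
  classical
  by_contra hcon
  push Not at hcon
  obtain ⟨p₀, hp₀, hc₀⟩ := hcon
  obtain ⟨p, hp, hmax⟩ := w.exists_max hw (F.filter (fun q => c q ≠ 0))
    (fun q hq => hF q (Finset.mem_filter.1 hq).1) ⟨p₀, Finset.mem_filter.2 ⟨hp₀, hc₀⟩⟩
  obtain ⟨hpF, hpc⟩ := Finset.mem_filter.1 hp
  have h3 := hc p hpF
  rw [Finset.sum_eq_single p, h1 p hpF, mul_one] at h3
  · exact hpc h3
  · intro q hq hqp
    by_contra hne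
    have hq1 : c q ≠ 0 := fun h0 => hne (by rw [h0, zero_mul])
    have hq2 : M p q ≠ 0 := fun h0 => hne (by rw [h0, mul_zero])
    exact hqp (hmax q (Finset.mem_filter.2 ⟨hq, hq1⟩) (h2 p hpF q hq hq2))
  · intro h0
    exact absurd hpF h0

/-- the values of the chain of `exists_unitri` at the positions of `F` are linearly independent
(apply `ξ p` for a maximal element `p` of the support of a linear relation, `Str.exists_max`) -/
theorem linInd_of_unitri (w : Str S) (hw : w.Aper) (N : Md D k) (F : Finset ℤ) (hF : ∀ p ∈ F, p ∈ w.Z)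
    (g : ℤ → N.C) (ξ : ℤ → N.C →ₗ[k] k) (h1 : ∀ p ∈ F, ξ p (g p) = 1)
    (h2 : ∀ p ∈ F, ∀ q ∈ F, ξ p (g q) ≠ 0 → w.PLe p q) :
    LinearIndependent k (fun p : F => g p) := by
  classical
  rw [Fintype.linearIndependent_iff]
  intro c hc
  obtain ⟨c', hc'⟩ : ∃ c' : ℤ → k, c' = fun p => if hp : p ∈ F then c ⟨p, hp⟩ else 0 := ⟨_, rfl⟩
  have e1 : ∀ p : F, c' p = c p := by
    intro p
    rw [hc']
    show (if hp : (p : ℤ) ∈ F then c ⟨p, hp⟩ else 0) = c p
    rw [dif_pos p.2]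
  have hsum : ∑ q ∈ F, c' q • g q = 0 := by
    rw [← Finset.sum_coe_sort F (fun q => c' q • g q), ← hc]
    exact Finset.sum_congr rfl (fun q _ => by rw [e1])
  have key := cb_max w hw F hF (fun p q => ξ p (g q)) h1 h2 c' (by
    intro p _
    have h3 := congrArg (ξ p) hsum
    rw [map_sum, map_zero] at h3
    rw [← h3]
    refine Finset.sum_congr rfl (fun q _ => ?_)
    rw [map_smul, smul_eq_mul])
  intro i
  rw [← e1]
  exact key i i.2

/-- a string that is open on a finite-dimensional module and not bi-infinite periodic is finite -/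
theorem fin_of_open_fd (w : Str S) (hw : w.Aper) (N : Md D k) (hN : FiniteDimensional k N.C) (ho : w.Open N) :
    w.Fin := by
  by_contra hinf
  have hinf' : w.Z.Infinite := hinf
  obtain ⟨F, hF, hcard⟩ := hinf'.exists_subset_card_eq (finrank k N.C + 1)
  have hF' : ∀ p ∈ F, p ∈ w.Z := fun p hp => hF hp
  obtain ⟨g, ξ, h1, h2⟩ := exists_unitri w N ho F hF'
  have h3 := linInd_of_unitri w hw N F hF' g ξ (fun p hp => (h1 p hp).2.2) h2
  have h4 := h3.fintype_card_le_finrank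
  rw [Fintype.card_coe, hcard] at h4
  omega

/-- openness only depends on the words (`hasWin_iff`, `HasWin.reach`) -/
theorem Open_al {w b : Str S} {p q : ℤ} (hp : p ∈ w.Z) (hq : q ∈ b.Z) (h : Al w b p q) (N : Md D k)
    (ho : w.Open N) : b.Open N := by
  have h1 : HasWin N.Q S.ends w.L p := HasWin.reach ho hp
  rw [hasWin_iff w.ok] at h1
  have h2 : w.L.wd p = b.L.wd q := funext h.2
  rw [h.1, h2, ← hasWin_iff b.ok] at h1
  exact h1.reach (WFa_reach_symm hq)

/-- a nonzero finite-dimensional module has an open canonical string (`exists_openPt_of_ne`, `QMod.OpenPt.exists_str`,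
`fin_of_open_fd`, `CanOK.ex`, `Open_al`; `b.Fin ∨ ¬ b.Aper` by `Al.fin`, `Al.per`) -/
theorem exists_can_open (Can : Set (Str S)) (hC : CanOK Can) (N : Md D k) (hN : FiniteDimensional k N.C)
    (hne : ∃ n : N.C, n ≠ 0) : ∃ b ∈ Can, b.Open N ∧ (b.Fin ∨ ¬ b.Aper) := by
  obtain ⟨i, u, hu, hop⟩ := exists_openPt_of_ne (S := S) N.Q hne
  obtain ⟨w, -, -, -, ho⟩ := QMod.OpenPt.exists_str hu hop
  have hw : w.Fin ∨ ¬ w.Aper := by
    by_cases h : w.Aper
    · exact Or.inl (fin_of_open_fd w h N hN ho)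
    · exact Or.inr h
  obtain ⟨b, hb, p, hp, q, hq, hal⟩ := hC.ex w hw
  refine ⟨b, hb, Open_al hp hq hal N ho, ?_⟩
  rcases hw with h | h
  · exact Or.inl (Al.fin hp hq hal h)
  · right
    intro hbA
    apply h
    intro l hl hper
    exact hbA l hl (Al.per hp hq hal hper)

end StrAlg
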