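import Pool.Agent.Lib.MP_b9fd58_lc.WSb

/-!
# Direct sums and retracts (job CCa)
-/

set_option autoImplicit false

namespace StrAlg

open Module

variable {D : Dat} {k : Type} [Field k]

/-- a retract has a complement: `N' = ker r` (`QMod.sub` or `QMod.restr`) -/
theorem dec_of_ret {M N : Md D k} (h : M.Ret N) : ∃ N' : Md D k, N.Dec M N' := by
  obtain ⟨i, r, hi, hr, hir⟩ := h
  have hS : ∀ g, ∀ m ∈ LinearMap.ker r, N.Q.op g m ∈ LinearMap.ker r := by
    intro g m hm
    have h1 : r m = 0 := hm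
    show r (N.Q.op g m) = 0
    rw [hr g m, h1, map_zero]
  have hir' : ∀ m, r (i m) = m := fun m => LinearMap.congr_fun hir m
  obtain ⟨p, hp⟩ : ∃ p : N.C →ₗ[k] N.C, ∀ n, p n = n - i (r n) :=
    ⟨LinearMap.id - i ∘ₗ r, fun _ => rfl⟩
  have hP : ∀ n : N.C, p n ∈ LinearMap.ker r := by
    intro n
    show r (p n) = 0
    rw [hp, map_sub, hir', sub_self]
  refine ⟨⟨LinearMap.ker r, N.Q.restr (LinearMap.ker r) hS⟩, i, r, (LinearMap.ker r).subtype,
    p.codRestrict (LinearMap.ker r) hP, hi, hr, fun g n => rfl, ?_, hir, ?_, ?_, ?_, ?_⟩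
  · intro g n
    refine Subtype.ext ?_
    show p (N.Q.op g n) = N.Q.op g (p n)
    rw [hp, hp, hr g n, hi g (r n), map_sub]
  · refine LinearMap.ext fun n => Subtype.ext ?_
    have hn : r (n : N.C) = 0 := n.2
    show p (n : N.C) = n
    rw [hp, hn, map_zero, sub_zero]
  · refine LinearMap.ext fun n => ?_
    exact n.2
  · refine LinearMap.ext fun n => Subtype.ext ?_
    show p (i n) = 0
    rw [hp, hir', sub_self]
  · refine LinearMap.ext fun n => ?_
    show i (r n) + p n = n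
    rw [hp]
    abel

/-- `r ∘ i` injective on a finite-dimensional module `M` makes `M` a retract: `r ∘ i` is invertible
(`LinearEquiv.ofInjectiveEndo`), the inverse is a homomorphism -/
theorem ret_of_inj {M N : Md D k} (hM : FiniteDimensional k M.C) (i : M.C →ₗ[k] N.C) (r : N.C →ₗ[k] M.C)
    (hi : M.Hom N i) (hr : N.Hom M r) (h : ∀ m, r (i m) = 0 → m = 0) : M.Ret N := by
  have hinj : Function.Injective (r ∘ₗ i) :=
    (injective_iff_map_eq_zero (r ∘ₗ i)).2 (fun m hm => h m hm)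
  set e : M.C ≃ₗ[k] M.C := LinearEquiv.ofInjectiveEndo (r ∘ₗ i) hinj with he
  have he' : ∀ m, e m = r (i m) := fun m => rfl
  refine ⟨i, e.symm.toLinearMap ∘ₗ r, hi, ?_, ?_⟩
  · intro g n
    show e.symm (r (N.Q.op g n)) = M.Q.op g (e.symm (r n))
    rw [LinearEquiv.symm_apply_eq, he', hi g, hr g, hr g, ← he', LinearEquiv.apply_symm_apply]
  · refine LinearMap.ext fun m => ?_
    show e.symm (r (i m)) = m
    rw [← he', LinearEquiv.symm_apply_apply]

theorem Md.Iso.refl (M : Md D k) : M.Iso M := ⟨LinearEquiv.refl k M.C, fun _ _ => rfl⟩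

theorem Md.Iso.symm {M N : Md D k} (h : M.Iso N) : N.Iso M := by
  obtain ⟨e, he⟩ := h
  refine ⟨e.symm, fun g n => ?_⟩
  show e.symm (N.Q.op g n) = M.Q.op g (e.symm n)
  rw [LinearEquiv.symm_apply_eq]
  have h1 : e (M.Q.op g (e.symm n)) = N.Q.op g (e (e.symm n)) := he g (e.symm n)
  rw [h1, LinearEquiv.apply_symm_apply]

theorem Md.Iso.trans {M N P : Md D k} (h : M.Iso N) (h' : N.Iso P) : M.Iso P := by
  obtain ⟨e, he⟩ := h
  obtain ⟨e', he'⟩ := h'
  refine ⟨e.trans e', fun g n => ?_⟩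
  exact (congrArg e' (he g n)).trans (he' g (e n))

end StrAlg
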