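import Pool.Agent.Lib.MP_b9fd58_lc.CCa

/-!
# Direct sums: dimensions, adding a block (job CCb)
-/

set_option autoImplicit false

namespace StrAlg

open Module

variable {D : Dat} {k : Type} [Field k]

/-- replace the first summand by an isomorphic module -/
theorem Dec_iso {N M M' N' : Md D k} (h : N.Dec M N') (hi : M'.Iso M) : N.Dec M' N' := by
  obtain ⟨i₁, r₁, i₂, r₂, h1, h2, h3, h4, h5, h6, h7, h8, h9⟩ := h
  obtain ⟨e, he⟩ := hi
  have hes : ∀ g m, e.symm (M.Q.op g m) = M'.Q.op g (e.symm m) := by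
    intro g m
    have e1 : e (M'.Q.op g (e.symm m)) = M.Q.op g (e (e.symm m)) := he g (e.symm m)
    rw [e.apply_symm_apply] at e1
    rw [← e1, e.symm_apply_apply]
  refine ⟨i₁ ∘ₗ e.toLinearMap, e.symm.toLinearMap ∘ₗ r₁, i₂, r₂, ?_, ?_, h3, h4, ?_, h6, ?_, ?_, ?_⟩
  · intro g n
    show i₁ (e (M'.Q.op g n)) = N.Q.op g (i₁ (e n))
    have e1 : e (M'.Q.op g n) = M.Q.op g (e n) := he g n
    rw [e1]
    exact h1 g (e n)
  · intro g n
    show e.symm (r₁ (N.Q.op g n)) = M'.Q.op g (e.symm (r₁ n))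
    rw [← hes g (r₁ n)]
    exact congrArg e.symm (h2 g n)
  · refine LinearMap.ext fun n => ?_
    show e.symm (r₁ (i₁ (e n))) = n
    have e1 : r₁ (i₁ (e n)) = e n := LinearMap.congr_fun h5 (e n)
    rw [e1, e.symm_apply_apply]
  · refine LinearMap.ext fun n => ?_
    show e.symm (r₁ (i₂ n)) = 0
    have e1 : r₁ (i₂ n) = 0 := LinearMap.congr_fun h7 n
    rw [e1, map_zero]
  · refine LinearMap.ext fun n => ?_
    show r₂ (i₁ (e n)) = 0
    exact LinearMap.congr_fun h8 (e n)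
  · refine LinearMap.ext fun n => ?_
    show i₁ (e (e.symm (r₁ n))) + i₂ (r₂ n) = n
    rw [e.apply_symm_apply]
    exact LinearMap.congr_fun h9 n

/-- dimensions -/
theorem Dec_fd {N M N' : Md D k} (h : N.Dec M N') (hN : FiniteDimensional k N.C) :
    FiniteDimensional k M.C ∧ FiniteDimensional k N'.C := by
  obtain ⟨i₁, r₁, i₂, r₂, h1, h2, h3, h4, h5, h6, h7, h8, h9⟩ := h
  have s1 : Function.Surjective r₁ := fun m => ⟨i₁ m, LinearMap.congr_fun h5 m⟩
  have s2 : Function.Surjective r₂ := fun m => ⟨i₂ m, LinearMap.congr_fun h6 m⟩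
  exact ⟨Module.Finite.of_surjective r₁ s1, Module.Finite.of_surjective r₂ s2⟩

theorem Dec_finrank {N M N' : Md D k} (h : N.Dec M N') (hN : FiniteDimensional k N.C) (hM : ∃ m : M.C, m ≠ 0) :
    finrank k N'.C < finrank k N.C := by
  obtain ⟨i₁, r₁, i₂, r₂, h1, h2, h3, h4, h5, h6, h7, h8, h9⟩ := h
  obtain ⟨m, hm⟩ := hM
  have hinj : Function.Injective i₂ := by
    intro a b hab
    have e1 : r₂ (i₂ a) = a := LinearMap.congr_fun h6 a
    have e2 : r₂ (i₂ b) = b := LinearMap.congr_fun h6 b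
    rw [← e1, ← e2, hab]
  rw [← LinearMap.finrank_range_of_inj hinj]
  refine Submodule.finrank_lt ?_
  intro htop
  have hmem : i₁ m ∈ LinearMap.range i₂ := by
    rw [htop]
    exact Submodule.mem_top
  obtain ⟨x, hx⟩ := hmem
  have e1 : r₁ (i₁ m) = m := LinearMap.congr_fun h5 m
  have e2 : r₁ (i₂ x) = 0 := LinearMap.congr_fun h7 x
  rw [hx, e1] at e2
  exact hm e2

/-- add one block to a direct sum (`Fin.cons`, `Fin.sum_univ_succ`; the underlying equivalence:
`(m, f) ↦ i₁ m + i₂ (e f)` for `Fin.cons m f`) -/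
theorem iso_cons {N : Md D k} {m : ℕ} (M : Fin (m + 1) → Md D k) {N' : Md D k} (h : N.Dec (M 0) N')
    (hi : (Md.pi (fun i : Fin m => M i.succ)).Iso N') : (Md.pi M).Iso N := by
  obtain ⟨i₁, r₁, i₂, r₂, h1, h2, h3, h4, h5, h6, h7, h8, h9⟩ := h
  obtain ⟨e, he⟩ := hi
  let t : (∀ i, (M i).C) →ₗ[k] (∀ i : Fin m, (M i.succ).C) :=
    LinearMap.pi fun i => LinearMap.proj i.succ
  let F : (∀ i, (M i).C) →ₗ[k] N.C := i₁ ∘ₗ LinearMap.proj 0 + i₂ ∘ₗ (e.toLinearMap ∘ₗ t)
  have hF : ∀ f, F f = i₁ (f 0) + i₂ (e fun i => f i.succ) := fun f => rfl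
  have q1 : ∀ f, r₁ (F f) = f 0 := by
    intro f
    rw [hF, map_add]
    have e1 : r₁ (i₁ (f 0)) = f 0 := LinearMap.congr_fun h5 (f 0)
    have e2 : r₁ (i₂ (e fun i => f i.succ)) = 0 := LinearMap.congr_fun h7 _
    rw [e1, e2, add_zero]
  have q2 : ∀ f, r₂ (F f) = e fun i => f i.succ := by
    intro f
    rw [hF, map_add]
    have e1 : r₂ (i₁ (f 0)) = 0 := LinearMap.congr_fun h8 (f 0)
    have e2 : r₂ (i₂ (e fun i => f i.succ)) = e fun i => f i.succ := LinearMap.congr_fun h6 _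
    rw [e1, e2, zero_add]
  have hinj : Function.Injective F := by
    intro f f' hff
    have e1 : f 0 = f' 0 := by rw [← q1 f, ← q1 f', hff]
    have e2 : (fun i : Fin m => f i.succ) = fun i : Fin m => f' i.succ := by
      apply e.injective
      exact ((q2 f).symm.trans (congrArg r₂ hff)).trans (q2 f')
    funext i
    refine Fin.cases e1 (fun j => ?_) i
    exact congrFun e2 j
  have hsurj : Function.Surjective F := by
    intro n
    refine ⟨Fin.cons (r₁ n) (e.symm (r₂ n)), ?_⟩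
    rw [hF]
    show i₁ (r₁ n) + i₂ (e (e.symm (r₂ n))) = n
    rw [e.apply_symm_apply]
    exact LinearMap.congr_fun h9 n
  refine ⟨LinearEquiv.ofBijective F ⟨hinj, hsurj⟩, ?_⟩
  intro g f
  show i₁ ((M 0).Q.op g (f 0)) + i₂ (e fun i : Fin m => (M i.succ).Q.op g (f i.succ))
    = N.Q.op g (i₁ (f 0) + i₂ (e fun i : Fin m => f i.succ))
  rw [map_add]
  have e1 : i₁ ((M 0).Q.op g (f 0)) = N.Q.op g (i₁ (f 0)) := h1 g (f 0)
  have e2 : (e fun i : Fin m => (M i.succ).Q.op g (f i.succ))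
      = N'.Q.op g (e fun i : Fin m => f i.succ) := he g fun i : Fin m => f i.succ
  have e3 : i₂ (N'.Q.op g (e fun i : Fin m => f i.succ))
      = N.Q.op g (i₂ (e fun i : Fin m => f i.succ)) := h3 g _
  rw [e1, e2, e3]

end StrAlg
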