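import Pool.Agent.Lib.MP_b9fd58_lc.OHa

/-!
# Finite blocks (job OHg)
-/

set_option autoImplicit false

namespace StrAlg

open Module

variable {D : Dat} {k : Type} [Field k] {S : Sides D}

theorem Blk.minPer (X : Blk S k) (hX : 0 < X.l) : X.x.MinPer X.l :=
  ⟨hX, ⟨X.ok.per, X.ok.big hX⟩, fun d hd h => (X.min d hd h).2⟩

/-- value at a position -/
noncomputable def OHg_ev (X : Blk S k) (p : ℤ) : X.M.C →ₗ[k] (Fin X.n → k) :=
  (LinearMap.proj p : (ℤ → Fin X.n → k) →ₗ[k] (Fin X.n → k)) ∘ₗ X.B.S.subtype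

theorem OHg_ev_apply (X : Blk S k) (p : ℤ) (a : X.M.C) : OHg_ev X p a = X.fn a p := rfl

/-- a block is finite-dimensional if its elements are determined by finitely many values -/
theorem OHg_fd (X : Blk S k) (s : Finset ℤ)
    (h : ∀ m m' : X.M.C, (∀ p ∈ s, X.fn m p = X.fn m' p) → m = m') : FiniteDimensional k X.M.C := by
  have hinj : Function.Injective (LinearMap.pi (fun p : s => OHg_ev X (p : ℤ)) :
      X.M.C →ₗ[k] (s → Fin X.n → k)) := by
    intro m m' hm
    refine h m m' (fun p hp => ?_)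
    exact congrFun hm ⟨p, hp⟩
  exact Module.Finite.of_injective _ hinj

/-- blocks are finite-dimensional -/
theorem Blk.fd (X : Blk S k) : FiniteDimensional k X.M.C := by
  rcases Nat.eq_zero_or_pos X.l with h0 | h0
  · have hf : X.x.Z.Finite := X.fin h0
    refine OHg_fd X hf.toFinset (fun m m' h => X.fn_ext (fun p hp => h p ?_))
    exact hf.mem_toFinset.2 hp
  · refine OHg_fd X ((Finset.range X.l).image (fun n : ℕ => (n : ℤ))) (fun m m' h => ?_)
    rw [X.sum_band h0 m, X.sum_band h0 m']
    refine Finset.sum_congr rfl (fun p hp => ?_)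
    rw [h (p : ℤ) (Finset.mem_image_of_mem _ hp)]

/-- a finite string is not bi-infinite periodic -/
theorem Str.Fin.not_per {z : Str S} (hz : z.Fin) {l : ℕ} (hl : 0 < l) : ¬ z.Per l := by
  intro h
  have h1 : z.Z = Set.univ := Set.eq_univ_of_forall (fun p => z.Z_univ h.2 p)
  have h2 : z.Z.Finite := hz
  rw [h1] at h2
  exact Set.infinite_univ h2

theorem Str.perOK_zero (z : Str S) {V : Type} [AddCommGroup V] [Module k V] : z.PerOK 0 (LinearEquiv.refl k V) :=
  ⟨z.per_zero, fun h => absurd h (lt_irrefl 0), fun _ => rfl⟩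

/-- the block of a finite string with the coefficient space `k^n` -/
def Blk.ofFin (z : Str S) (hz : z.Fin) (n : ℕ) : Blk S k where
  x := z
  n := n
  l := 0
  T := LinearEquiv.refl k _
  ok := z.perOK_zero
  min _ hd h := absurd h (hz.not_per hd)
  fin _ := hz

end StrAlg
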