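import Pool.Agent.Lib.MP_b9fd58_lc.CAb
import Pool.Agent.Lib.MP_b9fd58_lc.CCa
import Pool.Agent.Lib.MP_b9fd58_lc.OHg

/-!
# Classification: finite strings split off (job CD)
-/

set_option autoImplicit false

namespace StrAlg

open Module

variable {D : Dat} {k : Type} [Field k] {S : Sides D}

theorem Str.Fin.aper {w : Str S} (hw : w.Fin) : w.Aper := fun _ hl => hw.not_per hl

/-- the chain of `exists_unitri` cut off outside the positions of a finite string is a chain everywhere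
(outside the positions all letters are END, `Str.lt_of_notMem`; a letter different from END leads to a position) -/
theorem chAt_cut (w : Str S) (N : Md D k) (F : Finset ℤ) (hF : ∀ p, p ∈ F ↔ p ∈ w.Z) (g : ℤ → N.C)
    (h : ∀ p ∈ F, ChAt N.Q S.ends w.L g p) (q : ℤ) :
    ChAt N.Q S.ends w.L (fun p => if p ∈ F then g p else 0) q := by
  by_cases hq : q ∈ F
  · refine ⟨fun i => ?_, fun α => ?_⟩
    · show N.Q.op (Sum.inl i) (if q ∈ F then g q else 0) = if w.L.v q = i then (if q ∈ F then g q else 0) else 0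
      rw [if_pos hq]
      exact (h q hq).1 i
    · show N.Q.op (Sum.inr α) (if q ∈ F then g q else 0) = _
      rw [if_pos hq, (h q hq).2 α]
      refine Finset.sum_congr rfl (fun e _ => ?_)
      split_ifs with h1
      · show g (st e q) = if st e q ∈ F then g (st e q) else 0
        rw [if_pos ((hF _).2 (Str.mem_of_lt (e := e) (by rw [h1.1]; decide)).2)]
      · rfl
  · refine ⟨fun i => ?_, fun α => ?_⟩
    · show N.Q.op (Sum.inl i) (if q ∈ F then g q else 0) = if w.L.v q = i then (if q ∈ F then g q else 0) else 0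
      rw [if_neg hq, map_zero, ite_self]
    · show N.Q.op (Sum.inr α) (if q ∈ F then g q else 0) = _
      rw [if_neg hq, map_zero]
      symm
      refine Finset.sum_eq_zero (fun e _ => ?_)
      rw [if_neg]
      rintro ⟨h1, -⟩
      exact hq ((hF _).2 (Str.mem_of_lt (e := e) (by rw [h1]; decide)).1)

theorem dcAt_cut (w : Str S) (N : Md D k) (F : Finset ℤ) (hF : ∀ p, p ∈ F ↔ p ∈ w.Z) (ξ : ℤ → N.C →ₗ[k] k)
    (h : ∀ p ∈ F, DcAt N.Q S.ends w.L ξ p) (q : ℤ) :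
    DcAt N.Q S.ends w.L (fun p => if p ∈ F then ξ p else 0) q := by
  by_cases hq : q ∈ F
  · refine ⟨fun i n => ?_, fun α n => ?_⟩
    · show (if q ∈ F then ξ q else 0) (N.Q.op (Sum.inl i) n) =
        if w.L.v q = i then (if q ∈ F then ξ q else 0) n else 0
      rw [if_pos hq]
      exact (h q hq).1 i n
    · show (if q ∈ F then ξ q else 0) (N.Q.op (Sum.inr α) n) = _
      rw [if_pos hq, (h q hq).2 α]
      refine Finset.sum_congr rfl (fun e _ => ?_)
      split_ifs with h1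
      · show ξ (st e q) n = (if st e q ∈ F then ξ (st e q) else 0) n
        rw [if_pos ((hF _).2 (Str.mem_of_lt (e := e) (by rw [h1.1]; decide)).2)]
      · rfl
  · refine ⟨fun i n => ?_, fun α n => ?_⟩
    · show (if q ∈ F then ξ q else 0) (N.Q.op (Sum.inl i) n) =
        if w.L.v q = i then (if q ∈ F then ξ q else 0) n else 0
      rw [if_neg hq, LinearMap.zero_apply, LinearMap.zero_apply, ite_self]
    · show (if q ∈ F then ξ q else 0) (N.Q.op (Sum.inr α) n) = _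
      rw [if_neg hq, LinearMap.zero_apply]
      symm
      refine Finset.sum_eq_zero (fun e _ => ?_)
      rw [if_neg]
      rintro ⟨h1, -⟩
      exact hq ((hF _).2 (Str.mem_of_lt (e := e) (by rw [h1]; decide)).1)

/-- a unitriangular matrix is injective -/
theorem cd_max (w : Str S) (hw : w.Aper) (F : Finset ℤ) (hF : ∀ p ∈ F, p ∈ w.Z) (M : ℤ → ℤ → k)
    (h1 : ∀ p ∈ F, M p p = 1) (h2 : ∀ p ∈ F, ∀ q ∈ F, M p q ≠ 0 → w.PLe p q) (c : ℤ → k)
    (hc : ∀ p ∈ F, ∑ q ∈ F, c q * M p q = 0) : ∀ p ∈ F, c p = 0 := by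
  classical
  by_contra hcon
  push Not at hcon
  obtain ⟨p₀, hp₀, hc₀⟩ := hcon
  obtain ⟨p, hp, hmax⟩ := w.exists_max hw (F.filter (fun q => c q ≠ 0))
    (fun q hq => hF q (Finset.mem_filter.1 hq).1) ⟨p₀, Finset.mem_filter.2 ⟨hp₀, hc₀⟩⟩
  obtain ⟨hpF, hpc⟩ := Finset.mem_filter.1 hp
  have h3 := hc p hpF
  rw [Finset.sum_eq_single p, h1 p hpF, mul_one] at h3
  · exact hpc h3
  · intro q hq hqp
    by_contra hne
    have hq1 : c q ≠ 0 := fun h0 => hne (by rw [h0, zero_mul])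
    have hq2 : M p q ≠ 0 := fun h0 => hne (by rw [h0, mul_zero])
    exact hqp (hmax q (Finset.mem_filter.2 ⟨hq, hq1⟩) (h2 p hpF q hq hq2))
  · intro h0
    exact absurd hpF h0

/-- the value of `dcHom` at a position -/
theorem cd_val (X : Blk S k) (hX : X.l = 0) (N : Md D k) (ξ : ℤ → N.C →ₗ[k] k) (F : Finset ℤ)
    (hF : ∀ p ∈ F, p ∈ X.x.Z) (v : Fin X.n → k) (n : N.C) (p : ℤ) (hp : p ∈ F) :
    cfE X.ok (dcHom X.ok ξ F v n) p = ξ p n • v := by
  rw [dcHom_apply, map_sum, Finset.sum_apply, Finset.sum_eq_single p]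
  · rw [map_smul, Pi.smul_apply, cfE_ioE X.ok (hF p hp), LB.spr_self]
  · intro b hb hbp
    rw [map_smul, Pi.smul_apply, cfE_ioE X.ok (hF b hb), LB.spr_apply, if_neg, smul_zero]
    intro hd
    have hl : ((X.x.LB X.l X.T X.ok).l : ℤ) = 0 := by
      show ((X.l : ℕ) : ℤ) = 0
      rw [hX]
      rfl
    rw [hl, zero_dvd_iff] at hd
    exact hbp (by omega)
  · intro h0
    exact absurd hp h0

/-- **an open finite string splits off**: with `F` the set of positions, `g, ξ` from `exists_unitri`, cut off, take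
`i := chE X.ok (LinearMap.proj 0) g F`, `r := dcHom X.ok ξ F (fun _ => 1)` (`chE_hom`, `dcHom_hom`),
`X := Blk.ofFin w hw 1` (`X.M = w.ME 0 _ X.ok` definitionally). The value of `r (i m)` at `p` is
`∑ a ∈ F, ξ p (g a) • m a` (`cfE_ioE`, period `0`), so `r (i m) = 0` implies `m = 0` (look at a maximal position `p` with
`m p ≠ 0`, `Str.exists_max`); `ret_of_inj`, `Blk.fd`. -/
theorem ret_of_fin (w : Str S) (hw : w.Fin) (N : Md D k) (ho : w.Open N) :
    (Blk.ofFin w hw 1 : Blk S k).M.Ret N := by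
  classical
  obtain ⟨X, hX⟩ : ∃ X : Blk S k, X = Blk.ofFin w hw 1 := ⟨_, rfl⟩
  obtain ⟨F, hFdef⟩ : ∃ F : Finset ℤ, F = Set.Finite.toFinset (s := w.Z) hw := ⟨_, rfl⟩
  have hF : ∀ p, p ∈ F ↔ p ∈ w.Z := fun p => by rw [hFdef]; exact Set.Finite.mem_toFinset _
  obtain ⟨g, ξ, h1, h2⟩ := exists_unitri w N ho F (fun p hp => (hF p).1 hp)
  obtain ⟨g', hg'⟩ : ∃ g' : ℤ → N.C, g' = fun p => if p ∈ F then g p else 0 := ⟨_, rfl⟩
  obtain ⟨ξ', hξ'⟩ : ∃ ξ' : ℤ → N.C →ₗ[k] k, ξ' = fun p => if p ∈ F then ξ p else 0 := ⟨_, rfl⟩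
  have hgc : ∀ q, ChAt N.Q S.ends w.L g' q := by
    rw [hg']
    exact chAt_cut w N F hF g (fun p hp => (h1 p hp).1)
  have hξc : ∀ q, DcAt N.Q S.ends w.L ξ' q := by
    rw [hξ']
    exact dcAt_cut w N F hF ξ (fun p hp => (h1 p hp).2.1)
  have hg0 : ∀ a, a ∉ F → g' a = 0 := fun a ha => by rw [hg']; exact if_neg ha
  have hξ0 : ∀ a, a ∉ F → ξ' a = 0 := fun a ha => by rw [hξ']; exact if_neg ha
  have hg1 : ∀ a ∈ F, g' a = g a := fun a ha => by rw [hg']; exact if_pos ha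
  have hξ1 : ∀ a ∈ F, ξ' a = ξ a := fun a ha => by rw [hξ']; exact if_pos ha
  refine ret_of_inj (Blk.fd (Blk.ofFin w hw 1))
    (chE (Blk.ofFin w hw 1 : Blk S k).ok (LinearMap.proj (R := k) (φ := fun _ : Fin 1 => k) (0 : Fin 1)) g' F)
    (dcHom (Blk.ofFin w hw 1 : Blk S k).ok ξ' F (fun _ : Fin 1 => (1 : k))) (chE_hom _ hgc hg0 _)
    (dcHom_hom _ hξc hξ0 _) ?_
  intro m hm
  have h3 : ∀ p ∈ F, ξ p (chE (Blk.ofFin w hw 1 : Blk S k).ok
      (LinearMap.proj (R := k) (φ := fun _ : Fin 1 => k) (0 : Fin 1)) g' F m) = 0 := by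
    intro p hp
    have h4 := cd_val (Blk.ofFin w hw 1 : Blk S k) rfl N ξ' F (fun q hq => (hF q).1 hq) (fun _ : Fin 1 => (1 : k))
      (chE (Blk.ofFin w hw 1 : Blk S k).ok (LinearMap.proj (R := k) (φ := fun _ : Fin 1 => k) (0 : Fin 1)) g' F m) p hp
    have h4' : cfE (Blk.ofFin w hw 1 : Blk S k).ok (dcHom (Blk.ofFin w hw 1 : Blk S k).ok ξ' F
        (fun _ : Fin 1 => (1 : k)) (chE (Blk.ofFin w hw 1 : Blk S k).ok
        (LinearMap.proj (R := k) (φ := fun _ : Fin 1 => k) (0 : Fin 1)) g' F m)) p = 0 :=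
      congrFun ((congrArg (cfE (Blk.ofFin w hw 1 : Blk S k).ok) hm).trans (map_zero _)) p
    have h5 : (0 : k) = ξ' p (chE (Blk.ofFin w hw 1 : Blk S k).ok
        (LinearMap.proj (R := k) (φ := fun _ : Fin 1 => k) (0 : Fin 1)) g' F m) * 1 :=
      congrFun (h4'.symm.trans h4) (0 : Fin 1)
    rw [mul_one, hξ1 p hp] at h5
    exact h5.symm
  have h6 := cd_max w hw.aper F (fun p hp => (hF p).1 hp) (fun p q => ξ p (g q))
    (fun p hp => (h1 p hp).2.2) h2 (fun a => cfE (Blk.ofFin w hw 1 : Blk S k).ok m a (0 : Fin 1)) (by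
      intro p hp
      have h7 := h3 p hp
      rw [chE_apply, map_sum] at h7
      rw [← h7]
      refine Finset.sum_congr rfl (fun q hq => ?_)
      rw [map_smul, smul_eq_mul, hg1 q hq]
      rfl)
  apply cfE_inj (Blk.ofFin w hw 1 : Blk S k).ok
  refine Eq.trans ?_ (map_zero (cfE (Blk.ofFin w hw 1 : Blk S k).ok)).symm
  funext p i
  have hi : i = (0 : Fin 1) := Subsingleton.elim (α := Fin 1) i 0
  by_cases hp : p ∈ F
  · rw [hi]
    exact h6 p hp
  · have h8 : cfE (Blk.ofFin w hw 1 : Blk S k).ok m p = 0 :=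
      cfE_zero (Blk.ofFin w hw 1 : Blk S k).ok (fun h9 => hp ((hF p).2 h9))
    rw [h8]
    rfl

theorem ofFin_ne (w : Str S) (hw : w.Fin) : ∃ m : (Blk.ofFin w hw 1 : Blk S k).M.C, m ≠ 0 := by
  refine ⟨ioE (Blk.ofFin w hw 1 : Blk S k).ok 0 (fun _ => 1), fun h => ?_⟩
  have h1 : cfE (Blk.ofFin w hw 1 : Blk S k).ok (ioE (Blk.ofFin w hw 1 : Blk S k).ok 0 (fun _ => 1)) 0 = fun _ => 1 := by
    rw [cfE_ioE (Blk.ofFin w hw 1 : Blk S k).ok w.wzero_mem, LB.spr_self]
  have h0 : cfE (Blk.ofFin w hw 1 : Blk S k).ok (ioE (Blk.ofFin w hw 1 : Blk S k).ok 0 (fun _ => 1)) = 0 :=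
    (congrArg (cfE (Blk.ofFin w hw 1 : Blk S k).ok) h).trans (map_zero _)
  rw [h0] at h1
  have h2 := congrFun h1 (0 : Fin 1)
  exact zero_ne_one h2

end StrAlg
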