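import Pool.Agent.Lib.MP_b9fd58_lc.GHom

/-!
# Universal chains and dual chains of the block modules; kernels of homomorphisms
-/

set_option autoImplicit false

namespace StrAlg

open Module

variable {D : Dat} {k : Type} [Field k] {S : Sides D}

/-! ### dual chains with values in a vector space -/

section dc
variable {nx : Fin D.nV → Bool → Fin 3 → Fin D.nV × Bool}
variable {N : Type} [AddCommGroup N] [Module k N] {W : Type} [AddCommGroup W] [Module k W]

/-- the dual chain identity at the position `q`, with values in `W` -/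
def DcW (Q : QMod D k N) (A : Ends (Fin D.nV) (Fin D.nE)) (w : Ln (Fin D.nV) nx) (ξ : ℤ → N →ₗ[k] W) (q : ℤ) : Prop :=
  (∀ i n, ξ q (Q.op (Sum.inl i) n) = if w.v q = i then ξ q n else 0) ∧
  ∀ α n, ξ q (Q.op (Sum.inr α) n) = ∑ e : Bool,
    if w.lt e q = 0 ∧ A.inA (w.v q) (w.sd e q) = some α then ξ (st e q) n else 0

theorem DcW_iff {Q : QMod D k N} {A : Ends (Fin D.nV) (Fin D.nE)} {w : Ln (Fin D.nV) nx} {ξ : ℤ → N →ₗ[k] k} {q : ℤ} :
    DcW Q A w ξ q ↔ DcAt Q A w ξ q := Iff.rfl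

/-- a homomorphism maps chains to chains -/
theorem ChAt.map {M : Type} [AddCommGroup M] [Module k M] {P : QMod D k M} {Q : QMod D k N}
    {A : Ends (Fin D.nV) (Fin D.nE)} {w : Ln (Fin D.nV) nx} {g : ℤ → M} {q : ℤ} (h : ChAt P A w g q)
    {f : M →ₗ[k] N} (hf : IsHom P Q f) : ChAt Q A w (fun a => f (g a)) q := by
  refine ⟨fun i => ?_, fun α => ?_⟩
  · rw [← hf, h.1 i]
    split_ifs
    · rfl
    · exact map_zero _
  · rw [← hf, h.2 α, map_sum]
    refine Finset.sum_congr rfl (fun e _ => ?_)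
    split_ifs
    · rfl
    · exact map_zero _

/-- dual chains can be composed with homomorphisms -/
theorem DcW.comp {M : Type} [AddCommGroup M] [Module k M] {P : QMod D k M} {Q : QMod D k N}
    {A : Ends (Fin D.nV) (Fin D.nE)} {w : Ln (Fin D.nV) nx} {ξ : ℤ → N →ₗ[k] W} {q : ℤ} (h : DcW Q A w ξ q)
    {f : M →ₗ[k] N} (hf : IsHom P Q f) : DcW P A w (fun a => ξ a ∘ₗ f) q := by
  refine ⟨fun i n => ?_, fun α n => ?_⟩
  · rw [LinearMap.comp_apply, hf, h.1 i]; rfl
  · rw [LinearMap.comp_apply, hf, h.2 α]; rfl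

theorem DcW.post {Q : QMod D k N} {A : Ends (Fin D.nV) (Fin D.nE)} {w : Ln (Fin D.nV) nx} {ξ : ℤ → N →ₗ[k] W} {q : ℤ}
    (h : DcW Q A w ξ q) {W' : Type} [AddCommGroup W'] [Module k W'] (u : W →ₗ[k] W') :
    DcW Q A w (fun a => u ∘ₗ ξ a) q := by
  refine ⟨fun i n => ?_, fun α n => ?_⟩
  · rw [LinearMap.comp_apply, h.1 i]
    split_ifs
    · rfl
    · exact map_zero _
  · rw [LinearMap.comp_apply, h.2 α, map_sum]
    refine Finset.sum_congr rfl (fun e _ => ?_)
    split_ifs
    · rfl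
    · exact map_zero _

/-- the kernel of a chain of linear maps and a dual chain -/
theorem ker_KH {Q : QMod D k N} {A : Ends (Fin D.nV) (Fin D.nE)} {X Y : Ln (Fin D.nV) nx}
    {V : Type} [AddCommGroup V] [Module k V] {ζ : ℤ → V →ₗ[k] N} {ξ : ℤ → N →ₗ[k] W}
    (h : ∀ a v, ChAt Q A X (fun a => ζ a v) a) (h' : ∀ b, DcW Q A Y ξ b) (hX : ∀ a, ζ a ≠ 0 → X.Abs a)
    (hY : ∀ b, ξ b ≠ 0 → Y.Abs b) : KH A X Y (fun a b => ξ b ∘ₗ ζ a) where
  vx a b hne := by
    by_contra hcon
    apply hne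
    refine LinearMap.ext fun v => ?_
    have h1 := (h' b).1 (X.v a) (ζ a v)
    rw [(h a v).1, if_pos rfl, if_neg (fun hh => hcon hh.symm)] at h1
    exact h1
  absX a b hne := hX a (fun h0 => hne (by simp only [h0, LinearMap.comp_zero]))
  absY a b hne := hY b (fun h0 => hne (by simp only [h0, LinearMap.zero_comp]))
  ar α a b := by
    refine LinearMap.ext fun v => ?_
    have h1 := (h' b).2 α (ζ a v)
    rw [(h a v).2 α, map_sum] at h1
    rw [LinearMap.sum_apply, LinearMap.sum_apply]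
    have e1 : ∀ e : Bool, (if X.lt e a = 2 ∧ A.outA (X.v a) (X.sd e a) = some α then ξ b ∘ₗ ζ (st e a) else 0) v =
        ξ b (if X.lt e a = 2 ∧ A.outA (X.v a) (X.sd e a) = some α then ζ (st e a) v else 0) := by
      intro e; split_ifs
      · rfl
      · rw [map_zero]; rfl
    have e2 : ∀ e : Bool, (if Y.lt e b = 0 ∧ A.inA (Y.v b) (Y.sd e b) = some α then ξ (st e b) ∘ₗ ζ a else 0) v =
        if Y.lt e b = 0 ∧ A.inA (Y.v b) (Y.sd e b) = some α then ξ (st e b) (ζ a v) else 0 := by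
      intro e; split_ifs
      · rfl
      · rfl
    simp only [e1, e2]
    exact h1

end dc

/-! ### the modules of equivariant functions -/

section ME
variable {w : Str S} {l : ℕ} {V : Type} [AddCommGroup V] [Module k V] {T : V ≃ₗ[k] V} (h : w.PerOK l T)

/-- the elements of the module are the equivariant functions -/
noncomputable def toME : (w.LB l T h).S ≃ₗ[k] (w.ME l T h).C := LinearEquiv.refl k (w.LB l T h).S

/-- the underlying function -/
noncomputable def cfE : (w.ME l T h).C →ₗ[k] (ℤ → V) := (w.LB l T h).S.subtype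

theorem cfE_toME (m : (w.LB l T h).S) : cfE h (toME h m) = m.1 := rfl

theorem cfE_mem (m : (w.ME l T h).C) : cfE h m ∈ (w.LB l T h).S := (show (w.LB l T h).S from m).2

theorem cfE_op (g : D.Gen) (m : (w.ME l T h).C) :
    cfE h ((w.ME l T h).Q.op g m) = fop k S.ends w.L g (cfE h m) := rfl

theorem cfE_zero {m : (w.ME l T h).C} {p : ℤ} (hp : p ∉ w.Z) : cfE h m p = 0 := (cfE_mem h m).1 p hp

theorem cfE_per (m : (w.ME l T h).C) (p : ℤ) : T (cfE h m (p + l)) = cfE h m p := (cfE_mem h m).2 p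

theorem cfE_inj {m m' : (w.ME l T h).C} (h' : cfE h m = cfE h m') : m = m' := Subtype.ext h'

/-- the universal dual chain -/
noncomputable def xiE (p : ℤ) : (w.ME l T h).C →ₗ[k] V := LinearMap.proj p ∘ₗ cfE h

theorem xiE_apply (p : ℤ) (m : (w.ME l T h).C) : xiE h p m = cfE h m p := rfl

theorem xiE_dc (p : ℤ) : DcW (w.ME l T h).Q S.ends w.L (xiE h) p := by
  refine ⟨fun i n => ?_, fun α n => ?_⟩
  · rw [xiE_apply, cfE_op]; rfl
  · rw [xiE_apply, cfE_op]; rfl

theorem xiE_ne {p : ℤ} (h' : xiE h p ≠ 0) : p ∈ w.Z := by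
  by_contra hcon
  exact h' (LinearMap.ext fun m => cfE_zero h hcon)

/-- the universal chain -/
noncomputable def ioE (p : ℤ) : V →ₗ[k] (w.ME l T h).C :=
  open Classical in
  if hp : p ∈ w.Z then (toME h).toLinearMap ∘ₗ
    (((w.LB l T h).spr p).codRestrict (w.LB l T h).S (fun v => (w.LB l T h).spr_mem hp v)) else 0

theorem cfE_ioE {p : ℤ} (hp : p ∈ w.Z) (v : V) : cfE h (ioE h p v) = (w.LB l T h).spr p v := by
  unfold ioE
  rw [dif_pos hp]; rfl

theorem ioE_zero {p : ℤ} (hp : p ∉ w.Z) : ioE h p = 0 := by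
  unfold ioE
  rw [dif_neg hp]

theorem ioE_pos {p : ℤ} (hp : p ∈ w.Z) : ioE h p = (toME h).toLinearMap ∘ₗ
    (((w.LB l T h).spr p).codRestrict (w.LB l T h).S (fun v => (w.LB l T h).spr_mem hp v)) := by
  unfold ioE
  rw [dif_pos hp]

theorem ioE_ne {p : ℤ} (h' : ioE h p ≠ 0) : p ∈ w.Z := by
  by_contra hcon
  exact h' (ioE_zero h hcon)

theorem Str.mem_of_lt {w : Str S} {e : Bool} {p : ℤ} (h : w.L.lt e p ≠ 1) : p ∈ w.Z ∧ st e p ∈ w.Z := by
  cases e with
  | true =>
    have := w.clean p (by simpa [Ln.lt] using h)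
    exact this
  | false =>
    have h' : w.L.lam (p - 1) ≠ 1 := by
      simp only [Ln.lt, Bool.false_eq_true, if_false] at h
      exact Ln.rev_ne_one.1 h
    have := w.clean (p - 1) h'
    rw [sub_add_cancel] at this
    exact ⟨this.2, this.1⟩

theorem ioE_ch (p : ℤ) (v : V) : ChAt (w.ME l T h).Q S.ends w.L (fun p => ioE h p v) p := by
  by_cases hp : p ∈ w.Z
  · refine ⟨fun i => ?_, fun α => ?_⟩
    · apply cfE_inj
      show cfE h ((w.ME l T h).Q.op (Sum.inl i) (ioE h p v)) = _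
      rw [cfE_op, cfE_ioE h hp]
      have := (w.LB l T h).fop_spr_inl i p v
      refine this.trans ?_
      show (if w.L.v p = i then _ else _) = _
      split_ifs
      · rw [cfE_ioE h hp]
      · rw [map_zero]
    · apply cfE_inj
      show cfE h ((w.ME l T h).Q.op (Sum.inr α) (ioE h p v)) = _
      rw [cfE_op, cfE_ioE h hp, map_sum]
      have := (w.LB l T h).fop_spr_inr α p v
      refine this.trans ?_
      refine Finset.sum_congr rfl (fun e _ => ?_)
      show (if w.L.lt e p = 2 ∧ S.ends.outA (w.L.v p) (w.L.sd e p) = some α then _ else _) = _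
      split_ifs with h'
      · rw [cfE_ioE h (Str.mem_of_lt (e := e) (by rw [h'.1]; decide)).2]
      · rw [map_zero]
  · have h0 : ioE h p v = 0 := by rw [ioE_zero h hp]; rfl
    refine ⟨fun i => ?_, fun α => ?_⟩
    · simp only [h0, map_zero, ite_self]
    · simp only [h0, map_zero]
      symm
      refine Finset.sum_eq_zero (fun e _ => ?_)
      rw [if_neg]
      rintro ⟨h', -⟩
      exact hp (Str.mem_of_lt (e := e) (by rw [h']; decide)).1

theorem ME_decomp (m : (w.ME l T h).C) (A : Finset (ZMod l)) (hA : ∀ x : ZMod l, x ∉ A → cst x ∉ w.Z) :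
    m = ∑ x ∈ A, ioE h (cst x) (cfE h m (cst x)) := by
  apply cfE_inj
  rw [map_sum]
  have h1 := (w.LB l T h).decomp (cfE_mem h m) A (fun x hx => cfE_zero h (hA x hx))
  have key : ∀ x : ZMod l, (w.LB l T h).spr (cst x) (cfE h m (cst x)) =
      cfE h (ioE h (cst x) (cfE h m (cst x))) := by
    intro x
    by_cases hx : cst x ∈ w.Z
    · rw [cfE_ioE h hx]
    · rw [ioE_zero h hx, cfE_zero h hx, map_zero]; simp
  exact h1.trans (Finset.sum_congr rfl (fun x _ => key x))

/-- a finite set of representatives of the positions -/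
noncomputable def repZ (w : Str S) (l : ℕ) (hf : l = 0 → w.Z.Finite) : Finset (ZMod l) :=
  match l, hf with
  | 0, hf => (hf rfl).toFinset
  | _ + 1, _ => Finset.univ

theorem repZ_spec (w : Str S) (l : ℕ) (hf : l = 0 → w.Z.Finite) : ∀ x : ZMod l, x ∉ repZ w l hf → cst x ∉ w.Z := by
  match l, hf with
  | 0, hf =>
    intro x hx h
    apply hx
    exact (Set.Finite.mem_toFinset (hf rfl)).2 h
  | n + 1, hf => intro x hx; exact absurd (Finset.mem_univ x) hx

/-- `ι_{p+l} v = ι_p (T v)` -/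
theorem ioE_add_l (p : ℤ) (v : V) : ioE h (p + l) v = ioE h p (T v) := by
  apply cfE_inj
  by_cases hp : p ∈ w.Z
  · have hp' : p + l ∈ w.Z := (w.Zper h p).2 hp
    rw [cfE_ioE h hp, cfE_ioE h hp']
    exact (w.LB l T h).spr_add_l p v
  · have hp' : p + l ∉ w.Z := fun h' => hp ((w.Zper h p).1 h')
    rw [ioE_zero h hp, ioE_zero h hp']; rfl

end ME

/-! ### homomorphisms to a line module from a dual chain of finite support -/

section H2
variable {N : Md D k} {w : Str S} {l : ℕ} {V : Type} [AddCommGroup V] [Module k V] {T : V ≃ₗ[k] V}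
  (h : w.PerOK l T)

/-- `n ↦ ∑ η_b(n) • ι_b v` -/
noncomputable def dcHom (η : ℤ → N.C →ₗ[k] k) (B : Finset ℤ) (v : V) : N.C →ₗ[k] (w.ME l T h).C :=
  ∑ b ∈ B, (η b).smulRight (ioE h b v)

theorem dcHom_apply (η : ℤ → N.C →ₗ[k] k) (B : Finset ℤ) (v : V) (n : N.C) :
    dcHom h η B v n = ∑ b ∈ B, η b n • ioE h b v := by
  unfold dcHom
  rw [LinearMap.sum_apply]; rfl

theorem dcHom_mono {η : ℤ → N.C →ₗ[k] k} {B B' : Finset ℤ} (hB : B ⊆ B') (hη : ∀ b, b ∉ B → η b = 0) (v : V) :
    dcHom h η B v = dcHom h η B' v := by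
  refine LinearMap.ext fun n => ?_
  rw [dcHom_apply, dcHom_apply]
  refine Finset.sum_subset hB (fun a _ ha => ?_)
  rw [hη a ha, LinearMap.zero_apply, zero_smul]

theorem dcHom_hom {η : ℤ → N.C →ₗ[k] k} (hη : ∀ b, DcAt N.Q S.ends w.L η b) {B : Finset ℤ}
    (hB : ∀ b, b ∉ B → η b = 0) (v : V) : N.Hom (w.ME l T h) (dcHom h η B v) := by
  intro g n
  cases g with
  | inl i =>
    rw [dcHom_apply, dcHom_apply, map_sum]
    refine Finset.sum_congr rfl (fun b _ => ?_)
    rw [map_smul, (ioE_ch h b v).1 i, (hη b).1 i]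
    split_ifs
    · rfl
    · rw [zero_smul, smul_zero]
  | inr α =>
    rw [dcHom_mono h (B' := nbh B) (fun a ha => mem_nbh ha) hB, dcHom_apply, dcHom_apply, map_sum]
    have e1 : ∀ b, η b (N.Q.op (Sum.inr α) n) • ioE h b v =
        ∑ e : Bool, (if w.L.lt e b = 0 ∧ S.ends.inA (w.L.v b) (w.L.sd e b) = some α then
          η (st e b) n • ioE h b v else 0) := by
      intro b
      rw [(hη b).2 α, Finset.sum_smul]
      refine Finset.sum_congr rfl (fun e _ => ?_)
      split_ifs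
      · rfl
      · rw [zero_smul]
    have e2 : ∀ b, (w.ME l T h).Q.op (Sum.inr α) (η b n • ioE h b v) =
        ∑ e : Bool, (if w.L.lt e b = 2 ∧ S.ends.outA (w.L.v b) (w.L.sd e b) = some α then
          η b n • ioE h (st e b) v else 0) := by
      intro b
      rw [map_smul, (ioE_ch h b v).2 α, Finset.smul_sum]
      refine Finset.sum_congr rfl (fun e _ => ?_)
      split_ifs
      · rfl
      · rw [smul_zero]
    simp only [e1, e2]
    refine exch w.ok α (fun a a' => η a' n • ioE h a v) (nbh B) ?_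
    intro e a h'
    have ha : st e a ∈ B := by
      by_contra hcon
      apply h'
      simp only [hB _ hcon, LinearMap.zero_apply, zero_smul]
    exact ⟨mem_nbh_st' e ha, mem_nbh ha⟩

/-- the hom from a line module given by a chain of finite support -/
noncomputable def chE (φ : V →ₗ[k] k) (f : ℤ → N.C) (A : Finset ℤ) : (w.ME l T h).C →ₗ[k] N.C :=
  chHom φ f A ∘ₗ cfE h

theorem chE_apply (φ : V →ₗ[k] k) (f : ℤ → N.C) (A : Finset ℤ) (m : (w.ME l T h).C) :
    chE h φ f A m = ∑ a ∈ A, φ (cfE h m a) • f a := rfl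

theorem chE_hom {f : ℤ → N.C} (hf : ∀ a, ChAt N.Q S.ends w.L f a) {A : Finset ℤ} (hA : ∀ a, a ∉ A → f a = 0)
    (φ : V →ₗ[k] k) : (w.ME l T h).Hom N (chE h φ f A) := by
  intro g m
  show chHom φ f A (cfE h ((w.ME l T h).Q.op g m)) = _
  rw [cfE_op]
  exact chHom_hom w.ok hf hA φ g _

end H2

/-! ### blocks -/

theorem Blk.fn_eq (X : Blk S k) (a : X.M.C) : X.fn a = cfE X.ok a := rfl

theorem Blk.iota_eq (X : Blk S k) (p : ℤ) : X.iota p = ioE X.ok p := by
  by_cases hp : p ∈ X.x.Z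
  · rw [ioE_pos X.ok hp]
    exact dif_pos (c := p ∈ X.B.Z) hp
  · rw [ioE_zero X.ok hp]
    exact dif_neg (c := p ∈ X.B.Z) hp

end StrAlg
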