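import Pool.Agent.Lib.MP_b9fd58_lc.CCa
import Pool.Agent.Lib.MP_b9fd58_lc.GHom2

/-!
# Classification: coefficient spaces of band modules (job CE)
-/

set_option autoImplicit false

namespace StrAlg

open Module

variable {D : Dat} {k : Type} [Field k] {S : Sides D}

section ce
variable {w : Str S} {l : ℕ} {V V' : Type} [AddCommGroup V] [Module k V] [AddCommGroup V'] [Module k V']
  {T : V ≃ₗ[k] V} {T' : V' ≃ₗ[k] V'}

theorem ce_mem (h : w.PerOK l T) (h' : w.PerOK l T') (φ : V →ₗ[k] V') (hφ : ∀ v, φ (T v) = T' (φ v))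
    (m : (w.ME l T h).C) : (φ.compLeft ℤ ∘ₗ cfE h) m ∈ (w.LB l T' h').S := by
  refine ⟨fun p hp => ?_, fun p => ?_⟩
  · show φ (cfE h m p) = 0
    rw [cfE_zero h hp, map_zero]
  · show T' (φ (cfE h m (p + l))) = φ (cfE h m p)
    rw [← hφ, cfE_per]

/-- the map of line modules of an equivariant map of coefficient spaces -/
noncomputable def ceMap (h : w.PerOK l T) (h' : w.PerOK l T') (φ : V →ₗ[k] V') (hφ : ∀ v, φ (T v) = T' (φ v)) :
    (w.ME l T h).C →ₗ[k] (w.ME l T' h').C :=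
  (toME h').toLinearMap ∘ₗ ((φ.compLeft ℤ ∘ₗ cfE h).codRestrict (w.LB l T' h').S (ce_mem h h' φ hφ))

theorem ce_cfE (h : w.PerOK l T) (h' : w.PerOK l T') (φ : V →ₗ[k] V') (hφ : ∀ v, φ (T v) = T' (φ v))
    (m : (w.ME l T h).C) (p : ℤ) : cfE h' (ceMap h h' φ hφ m) p = φ (cfE h m p) := rfl

theorem ce_hom (h : w.PerOK l T) (h' : w.PerOK l T') (φ : V →ₗ[k] V') (hφ : ∀ v, φ (T v) = T' (φ v)) :
    (w.ME l T h).Hom (w.ME l T' h') (ceMap h h' φ hφ) := by
  intro g m
  apply cfE_inj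
  funext p
  rw [ce_cfE, cfE_op, cfE_op]
  cases g with
  | inl i =>
    rw [fop_inl, fop_inl, ce_cfE]
    split_ifs
    · rfl
    · exact map_zero _
  | inr α =>
    rw [fop_inr, fop_inr, map_sum]
    refine Finset.sum_congr rfl (fun e _ => ?_)
    rw [ce_cfE]
    split_ifs
    · rfl
    · exact map_zero _

end ce

/-- isomorphic coefficient spaces give isomorphic line modules (`m ↦ φ ∘ m`; `cfE_inj`, `cfE_op`, `fop`) -/
theorem ME_congr (w : Str S) (l : ℕ) {V V' : Type} [AddCommGroup V] [Module k V] [AddCommGroup V'] [Module k V']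
    (T : V ≃ₗ[k] V) (T' : V' ≃ₗ[k] V') (h : w.PerOK l T) (h' : w.PerOK l T') (φ : V ≃ₗ[k] V')
    (hφ : ∀ v, φ (T v) = T' (φ v)) : (w.ME l T h).Iso (w.ME l T' h') := by
  have hφ' : ∀ v, φ.symm (T' v) = T (φ.symm v) := by
    intro v
    apply φ.injective
    rw [φ.apply_symm_apply, hφ, φ.apply_symm_apply]
  refine ⟨LinearEquiv.ofLinear (ceMap h h' φ.toLinearMap hφ) (ceMap h' h φ.symm.toLinearMap hφ') ?_ ?_,
    ce_hom h h' φ.toLinearMap hφ⟩
  · refine LinearMap.ext fun m => ?_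
    apply cfE_inj
    funext p
    show cfE h' (ceMap h h' φ.toLinearMap hφ (ceMap h' h φ.symm.toLinearMap hφ' m)) p = cfE h' m p
    rw [ce_cfE, ce_cfE]
    exact φ.apply_symm_apply _
  · refine LinearMap.ext fun m => ?_
    apply cfE_inj
    funext p
    show cfE h (ceMap h' h φ.symm.toLinearMap hφ' (ceMap h h' φ.toLinearMap hφ m)) p = cfE h m p
    rw [ce_cfE, ce_cfE]
    exact φ.symm_apply_apply _

/-- `v ↦ ι_0 v` is injective -/
theorem ME_fd_coef (w : Str S) (l : ℕ) {V : Type} [AddCommGroup V] [Module k V] (T : V ≃ₗ[k] V) (h : w.PerOK l T)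
    (hM : FiniteDimensional k (w.ME l T h).C) : FiniteDimensional k V := by
  have hz : (0 : ℤ) ∈ w.Z := Ln.Reach.refl
  have hinj : Function.Injective (ioE h 0) := by
    intro v v' hv
    have h1 : cfE h (ioE h 0 v) 0 = cfE h (ioE h 0 v') 0 := by rw [hv]
    rw [cfE_ioE h hz, cfE_ioE h hz, LB.spr_self, LB.spr_self] at h1
    exact h1
  exact Module.Finite.of_injective (ioE h 0) hinj

/-- a band module with a finite-dimensional coefficient space is a block (choose a basis, transport `T`, `ME_congr`) -/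
theorem exists_blk_of_ME (b : Str S) (l : ℕ) (hl : b.MinPer l) {V : Type} [AddCommGroup V] [Module k V]
    (T : V ≃ₗ[k] V) (h : b.PerOK l T) (hV : FiniteDimensional k V) :
    ∃ X : Blk S k, X.x = b ∧ X.M.Iso (b.ME l T h) := by
  have hl0 : 0 < l := hl.1
  obtain ⟨φ⟩ : Nonempty (V ≃ₗ[k] (Fin (finrank k V) → k)) := ⟨(Module.finBasis k V).equivFun⟩
  have hok : b.PerOK l (φ.symm.trans (T.trans φ)) :=
    { per := h.per
      big := h.big
      T0 := fun h0 => absurd h0 hl0.ne' }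
  refine ⟨{ x := b, n := finrank k V, l := l, T := φ.symm.trans (T.trans φ), ok := hok
            min := fun d hd h' => ⟨hl0, hl.2.2 d hd h'⟩
            fin := fun h0 => absurd h0 hl0.ne' }, rfl, ?_⟩
  refine ME_congr b l (φ.symm.trans (T.trans φ)) T hok h φ.symm ?_
  intro v
  exact φ.symm_apply_apply _

end StrAlg
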