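import Pool.Agent.Lib.MP_b9fd58_lc.OBa

/-!
# Lemma Z (job OBb)
-/

set_option autoImplicit false

namespace StrAlg

open Module

variable {D : Dat} {k : Type} [Field k] {S : Sides D}

/-- unit vectors -/
def OBb_e (k : Type) [Field k] (n : ℕ) (i : Fin n) : Fin n → k := fun j => if i = j then 1 else 0

/-- the value of a functional on an element of a finite block -/
theorem OBb_val (X : Blk S k) (hX : X.l = 0) (φ : X.M.C →ₗ[k] k) (m : X.M.C) :
    φ m = ∑ p ∈ (X.fin hX).toFinset, ∑ i, X.fn m p i * φ (X.iota p (OBb_e k X.n i)) := by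
  have h1 : φ m = φ (∑ p ∈ (X.fin hX).toFinset, X.iota p (X.fn m p)) := congrArg φ (X.sum_fin hX m)
  rw [h1, map_sum]
  refine Finset.sum_congr rfl (fun p _ => ?_)
  exact (φ ∘ₗ X.iota p).pi_apply_eq_sum_univ (X.fn m p)

/-- the scalar sum as a sum with vectors -/
theorem OBb_om (X Y : Blk S k) (a : X.M.C) (b : Dual k Y.M.C) (i : Fin X.n) (j : Fin Y.n) (o : Bool) (p r : ℤ) :
    Om X.x.L Y.x.L (X.fn a) (Y.cf b)
      ((LinearMap.proj i : (Fin X.n → k) →ₗ[k] k).smulRight (OBb_e k Y.n j)) o p r =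
    OmS X.x.L Y.x.L (fun p => X.fn a p i) (fun r => Y.cf b r (OBb_e k Y.n j)) o p r := by
  unfold OmS Om
  refine Finset.sum_congr rfl (fun q _ => ?_)
  rw [LinearMap.smulRight_apply, map_smul]
  exact mul_comm (X.fn a (p + q) i) (Y.cf b (stn o q r) (OBb_e k Y.n j))

theorem OBb_iota_ne (X : Blk S k) {p : ℤ} {v : Fin X.n → k} (h : X.iota p v ≠ 0) : p ∈ X.x.Z := by
  by_contra hcon
  apply h
  rw [X.iota_eq p, ioE_zero X.ok hcon]
  rfl

theorem OBb_ev_ne (Y : Blk S k) {r : ℤ} {m : Y.M.C} (h : Y.ev r m ≠ 0) : r ∈ Y.x.Z := by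
  by_contra hcon
  exact h (cfE_zero Y.ok hcon)

/-- **Lemma Z.** If the pair of finite blocks is open on `N` there are positions `p`, `r` with `Ω ≠ 0`, the words of
`r` are `≤` the words of `p`, and a chain `f` along `X`, a dual chain `ξ` along `Y` with `ξ r (f p) ≠ 0`.

Proof: `b (G (f a)) = ∑_{p, r} ∑_{i, j} b(ι_r e_j) (a_p)_i K_{ij}(p, r)` with the scalar kernels
`K_{ij}(p, r) = (G (f (ι_p e_i)))_r j` (`Blk.sum_fin`, `b (ι_r y) = Y.cf b r y`). So for some `i, j` the inner double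
sum is not zero. `K_{ij}` is a kernel: `chain_KH`, `KH.isKer0`, `IsKer0.isKer_of_fn`. By `pair_one` (for any class; or
`regroup_zero`) there is a class with `K_{ij} ≠ 0` and `OmS ≠ 0`, and `OmS = Om` for
`κ := (proj i).smulRight (Pi.single j 1)`. `LeD` from `IsKer0.le`, `Mt` from `IsKer0.vx`. -/
theorem lemZ (X Y : Blk S k) (hX : X.l = 0) (hY : Y.l = 0) (a : X.M.C) (b : Dual k Y.M.C) (N : Md D k)
    (h : (bpr X Y a b).Opn N) :
    ∃ p ∈ X.x.Z, ∃ r ∈ Y.x.Z, X.x.L.v p = Y.x.L.v r ∧ LeD X.x.L Y.x.L (X.x.L.r p == Y.x.L.r r) p r ∧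
      (∃ κ, Om X.x.L Y.x.L (X.fn a) (Y.cf b) κ (X.x.L.r p == Y.x.L.r r) p r ≠ 0) ∧
      ∃ (f : ℤ → N.C) (ξ : ℤ → N.C →ₗ[k] k), (∀ q, ChAt N.Q S.ends X.x.L f q) ∧
        (∀ q, DcAt N.Q S.ends Y.x.L ξ q) ∧ ξ r (f p) ≠ 0 := by
  classical
  have h' : ∃ (f : X.M.C →ₗ[k] N.C) (G : N.C →ₗ[k] Y.M.C), X.M.Hom N f ∧ N.Hom Y.M G ∧ b (G (f a)) ≠ 0 := h
  obtain ⟨F, G, hF, hG, hne⟩ := h'
  set A := (X.fin hX).toFinset with hA
  set B := (Y.fin hY).toFinset with hB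
  set c : Fin X.n → ℤ → k := fun i p => X.fn a p i with hc
  set γ : Fin Y.n → ℤ → k := fun j r => Y.cf b r (OBb_e k Y.n j) with hγ
  set K : Fin X.n → Fin Y.n → ℤ → ℤ → k := fun i j p r => Y.ev r (G (F (X.iota p (OBb_e k X.n i)))) j with hK
  have e1 : b (G (F a)) = ∑ r ∈ B, ∑ j, Y.ev r (G (F a)) j * γ j r := OBb_val Y hY b (G (F a))
  have e2 : ∀ r j, Y.ev r (G (F a)) j = ∑ p ∈ A, ∑ i, c i p * K i j p r := by
    intro r j
    exact OBb_val X hX ((LinearMap.proj j : (Fin Y.n → k) →ₗ[k] k) ∘ₗ Y.ev r ∘ₗ G ∘ₗ F) a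
  have e3 : b (G (F a)) = ∑ j, ∑ i, ∑ p ∈ A, ∑ r ∈ B, γ j r * c i p * K i j p r := by
    have e4 : b (G (F a)) = ∑ r ∈ B, ∑ j, ∑ p ∈ A, ∑ i, γ j r * c i p * K i j p r := by
      rw [e1]
      refine Finset.sum_congr rfl fun r _ => Finset.sum_congr rfl fun j _ => ?_
      rw [e2 r j, Finset.sum_mul]
      refine Finset.sum_congr rfl fun p _ => ?_
      rw [Finset.sum_mul]
      refine Finset.sum_congr rfl fun i _ => ?_
      ring
    rw [e4, Finset.sum_comm]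
    refine Finset.sum_congr rfl fun j _ => ?_
    rw [Finset.sum_comm]
    rw [Finset.sum_congr rfl (fun p _ => Finset.sum_comm)]
    rw [Finset.sum_comm]
  obtain ⟨i, j, hij⟩ : ∃ i j, ∑ p ∈ A, ∑ r ∈ B, γ j r * c i p * K i j p r ≠ 0 := by
    by_contra hcon
    push Not at hcon
    apply hne
    rw [e3]
    exact Finset.sum_eq_zero fun j _ => Finset.sum_eq_zero fun i _ => hcon i j
  -- the chain and the dual chain
  set f : ℤ → N.C := fun p => F (X.iota p (OBb_e k X.n i)) with hf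
  set ξ : ℤ → N.C →ₗ[k] k := fun r => (LinearMap.proj j : (Fin Y.n → k) →ₗ[k] k) ∘ₗ Y.ev r ∘ₗ G with hξ
  have cf : ∀ q, ChAt N.Q S.ends X.x.L f q := fun q => X.chain hF (OBb_e k X.n i) q
  have cξ : ∀ q, DcAt N.Q S.ends Y.x.L ξ q := fun q => Y.dchain hG _ q
  have fZ : ∀ p, f p ≠ 0 → p ∈ X.x.Z := by
    intro p hp
    refine OBb_iota_ne X (v := OBb_e k X.n i) (fun h0 => hp ?_)
    show F (X.iota p (OBb_e k X.n i)) = 0
    rw [h0, map_zero]
  have ξZ : ∀ r, ξ r ≠ 0 → r ∈ Y.x.Z := by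
    intro r hr
    by_contra hcon
    apply hr
    refine LinearMap.ext fun n => ?_
    show (Y.ev r (G n)) j = 0
    have : Y.ev r (G n) = 0 := by
      by_contra h0
      exact hcon (OBb_ev_ne Y h0)
    rw [this]
    rfl
  have hKij : ∀ p r, K i j p r = ξ r (f p) := fun p r => rfl
  have hKer0 : IsKer0 X.x.L Y.x.L (fun p r => ξ r (f p)) :=
    (chain_KH cf cξ (fun p hp => X.x.Zabs p (fZ p hp)) (fun r hr => Y.x.Zabs r (ξZ r hr))).isKer0 X.x.ok Y.x.ok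
  have hXf : X.x.L.Fn := (X.fin hX).fn
  have hYf : Y.x.L.Fn := (Y.fin hY).fn
  have hKer : IsKer X.x.L Y.x.L (fun p r => ξ r (f p)) := hKer0.isKer_of_fn hYf
  have kZ : ∀ p r, ξ r (f p) ≠ 0 → p ∈ X.x.Z ∧ r ∈ Y.x.Z := by
    intro p r hpr
    refine ⟨fZ p (fun h0 => hpr (by rw [h0, map_zero])), ξZ r (fun h0 => hpr (by rw [h0]; rfl))⟩
  obtain ⟨o, p, r, hm, hK1, hO⟩ : ∃ o p r, Mt X.x.L Y.x.L o p r ∧ ξ r (f p) ≠ 0 ∧
      OmS X.x.L Y.x.L (c i) (γ j) o p r ≠ 0 := by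
    by_contra hcon
    push Not at hcon
    -- a base point
    obtain ⟨p, hp, hp2⟩ := Finset.exists_ne_zero_of_sum_ne_zero hij
    obtain ⟨r, hr, hr2⟩ := Finset.exists_ne_zero_of_sum_ne_zero hp2
    have hk : ξ r (f p) ≠ 0 := fun h0 => hr2 (by rw [hKij, h0, mul_zero])
    have hm : Mt X.x.L Y.x.L (X.x.L.r p == Y.x.L.r r) p r := ⟨hKer0.vx p r hk, rfl⟩
    have h1 := pair_one hKer (c := c i) (γ := γ j) A B
      (fun p' hp' r' => by
        by_contra h0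
        exact hp' ((X.fin hX).mem_toFinset.2 (kZ p' r' h0).1))
      (fun r' hr' p' => by
        by_contra h0
        exact hr' ((Y.fin hY).mem_toFinset.2 (kZ p' r' h0).2))
      hm (hXf.fin_left _ _ _) (fun o' p' r' hm' hk' _ => hcon o' p' r' hm' hk')
    rw [hcon _ p r hm hk, mul_zero] at h1
    exact hij h1
  obtain ⟨hv, ho⟩ := hm
  subst ho
  refine ⟨p, (kZ p r hK1).1, r, (kZ p r hK1).2, hv, hKer0.le _ p r ⟨hv, rfl⟩ hK1, ?_, f, ξ, cf, cξ, hK1⟩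
  refine ⟨(LinearMap.proj i : (Fin X.n → k) →ₗ[k] k).smulRight (OBb_e k Y.n j), ?_⟩
  rw [OBb_om]
  exact hO

end StrAlg
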