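import Pool.Agent.Lib.MP_b9fd58_lc.WLa

/-!
# Lower cuts and one-sided dual chains (job WLb)
-/

set_option autoImplicit false

namespace StrAlg

open Module

variable {D : Dat} {k : Type} [Field k] {N : Type} [AddCommGroup N] [Module k N] {S : Sides D}

/-- functional through an arrow: if `l` kills `vs i ⊓ γ⁻¹ L` (and `l ∘ e_i = l`) then `l = l' ∘ γ` with `l'` killing `L`
and `l' ∘ e_{tgt γ} = l'` -/
theorem ext_through (Q : QMod D k N) {γ : Fin D.nE} (L : Submodule k N) (l : N →ₗ[k] k)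
    (hl : l ∘ₗ Q.op (Sum.inl (D.src γ)) = l)
    (h : ∀ x ∈ Q.vs (D.src γ) ⊓ L.comap (Q.op (Sum.inr γ)), l x = 0) :
    ∃ l' : N →ₗ[k] k, l' ∘ₗ Q.op (Sum.inr γ) = l ∧ l' ∘ₗ Q.op (Sum.inl (D.tgt γ)) = l' ∧
      ∀ x ∈ L ⊓ Q.vs (D.tgt γ), l' x = 0 := by
  set f : N →ₗ[k] (N ⧸ L) := L.mkQ ∘ₗ Q.op (Sum.inr γ) with hf
  have hker : l ∈ (LinearMap.ker f).dualAnnihilator := by
    rw [Submodule.mem_dualAnnihilator]
    intro x hx
    have h1 : Q.op (Sum.inr γ) x ∈ L := by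
      rw [LinearMap.mem_ker, hf, LinearMap.comp_apply, Submodule.mkQ_apply, Submodule.Quotient.mk_eq_zero] at hx
      exact hx
    have h2 : l x = l (Q.op (Sum.inl (D.src γ)) x) := by
      conv_lhs => rw [← hl]
      rfl
    rw [h2]
    apply h
    refine ⟨QMod.mem_vs.2 (Q.idem _ _), ?_⟩
    show Q.op (Sum.inr γ) (Q.op (Sum.inl (D.src γ)) x) ∈ L
    rw [Q.src]
    exact h1
  rw [← LinearMap.range_dualMap_eq_dualAnnihilator_ker] at hker
  obtain ⟨l0, hl0⟩ := hker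
  have hl0' : ∀ x, l0 (L.mkQ (Q.op (Sum.inr γ) x)) = l x := by
    intro x
    have := LinearMap.congr_fun hl0 x
    exact this
  refine ⟨l0 ∘ₗ L.mkQ ∘ₗ Q.op (Sum.inl (D.tgt γ)), ?_, ?_, ?_⟩
  · ext x
    show l0 (L.mkQ (Q.op (Sum.inl (D.tgt γ)) (Q.op (Sum.inr γ) x))) = l x
    rw [Q.tgt]
    exact hl0' x
  · ext x
    show l0 (L.mkQ (Q.op (Sum.inl (D.tgt γ)) (Q.op (Sum.inl (D.tgt γ)) x))) =
      l0 (L.mkQ (Q.op (Sum.inl (D.tgt γ)) x))
    rw [Q.idem]
  · rintro x ⟨hx1, hx2⟩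
    have hx3 : Q.op (Sum.inl (D.tgt γ)) x = x := QMod.mem_vs.1 hx2
    show l0 (L.mkQ (Q.op (Sum.inl (D.tgt γ)) x)) = 0
    rw [hx3]
    have : L.mkQ x = 0 := by
      rw [Submodule.mkQ_apply, Submodule.Quotient.mk_eq_zero]
      exact hx1
    rw [this, map_zero]

theorem wlb_sdc_succ {Q : QMod D k N} {w : Ln (Fin D.nV) S.nx} {e : Bool} {p : ℤ} {n : ℕ}
    {g : ℕ → N →ₗ[k] k} :
    SDc Q w e p (n + 1) g ↔ DSt Q w e p (g 0) (g 1) ∧
      (w.lt e p ≠ 1 → SDc Q w e (st e p) n (fun j => g (j + 1))) := by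
  constructor
  · intro h
    refine ⟨?_, fun hp j hj hi => ?_⟩
    · have := h 0 (by omega) (fun i hi => by omega)
      rwa [Nat.cast_zero, stn_zero] at this
    · have := h (j + 1) (by omega) (fun i hi' => by
        cases i with
        | zero => rwa [Nat.cast_zero, stn_zero]
        | succ i =>
          rw [wla_stn_succ]
          exact hi i (by omega))
      rwa [wla_stn_succ] at this
  · rintro ⟨h1, h2⟩ j hj hi
    cases j with
    | zero =>
      rw [Nat.cast_zero, stn_zero]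
      exact h1
    | succ j =>
      rw [wla_stn_succ]
      refine h2 ?_ j (by omega) (fun i hi' => ?_)
      · have := hi 0 (by omega)
        rwa [Nat.cast_zero, stn_zero] at this
      · have := hi (i + 1) (by omega)
        rwa [wla_stn_succ] at this

/-- dual edge steps for the letter IN -/
theorem wlb_dst_zero {Q : QMod D k N} {w : Ln (Fin D.nV) S.nx} {e : Bool} {p : ℤ} (h : w.lt e p = 0)
    {β : Fin D.nE} (hβ : S.inA (w.v p) (w.sd e p) = some β) {x y : N →ₗ[k] k} :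
    DSt Q w e p x y ↔ x ∘ₗ Q.op (Sum.inl (w.v p)) = x ∧ x ∘ₗ Q.op (Sum.inr β) = y := by
  constructor
  · intro hE
    exact ⟨hE.vx, hE.inn h β hβ⟩
  · rintro ⟨h1, h2⟩
    refine ⟨h1, ?_, ?_, ?_⟩
    · intro h'
      rw [h] at h'
      exact absurd h' (by decide)
    · intro _ β' hβ'
      rw [hβ] at hβ'
      rw [← Option.some_inj.1 hβ']
      exact h2
    · intro h'
      rw [h] at h'
      exact absurd h' (by decide)

/-- dual edge steps for the letter OUT -/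
theorem wlb_dst_two {Q : QMod D k N} {w : Ln (Fin D.nV) S.nx} {e : Bool} {p : ℤ} (h : w.lt e p = 2)
    {γ : Fin D.nE} (hγ : S.outA (w.v p) (w.sd e p) = some γ) {x y : N →ₗ[k] k} :
    DSt Q w e p x y ↔ x ∘ₗ Q.op (Sum.inl (w.v p)) = x ∧ y ∘ₗ Q.op (Sum.inl (w.v (st e p))) = y ∧
      y ∘ₗ Q.op (Sum.inr γ) = x := by
  constructor
  · intro hE
    exact ⟨hE.vx, (hE.out h).1, (hE.out h).2 γ hγ⟩
  · rintro ⟨h1, h2, h3⟩
    refine ⟨h1, ?_, ?_, ?_⟩
    · intro _
      refine ⟨h2, fun γ' hγ' => ?_⟩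
      rw [hγ] at hγ'
      rw [← Option.some_inj.1 hγ']
      exact h3
    · intro h'
      rw [h] at h'
      exact absurd h' (by decide)
    · intro h'
      rw [h] at h'
      exact absurd h' (by decide)

/-- dual edge steps for END -/
theorem wlb_dst_one {Q : QMod D k N} {w : Ln (Fin D.nV) S.nx} {e : Bool} {p : ℤ} (h : w.lt e p = 1)
    {x y : N →ₗ[k] k} :
    DSt Q w e p x y ↔ x ∘ₗ Q.op (Sum.inl (w.v p)) = x ∧
      ∀ β, S.inA (w.v p) (w.sd e p) = some β → x ∘ₗ Q.op (Sum.inr β) = 0 := by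
  constructor
  · intro hE
    exact ⟨hE.vx, hE.fin h⟩
  · rintro ⟨h1, h2⟩
    refine ⟨h1, ?_, ?_, fun _ => h2⟩
    · intro h'
      rw [h] at h'
      exact absurd h' (by decide)
    · intro h'
      rw [h] at h'
      exact absurd h' (by decide)

/-- Lower cuts: killed by the values of one-sided dual chains of length `n`. -/
theorem kills_lo_iff {Q : QMod D k N} {w : Ln (Fin D.nV) S.nx} (hw : w.Ok S.ends) (e : Bool) (p : ℤ) (n : ℕ)
    (l : N →ₗ[k] k) (hl : l ∘ₗ Q.op (Sum.inl (w.v p)) = l) :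
    (∀ x ∈ Q.lo S n (w.wdd e p) (w.v p) (w.sd e p), l x = 0) ↔
      ∃ ξ : ℕ → N →ₗ[k] k, ξ 0 = l ∧ SDc Q w e p n ξ := by
  induction n generalizing p l with
  | zero =>
    constructor
    · intro _
      exact ⟨fun _ => l, rfl, fun j hj => by omega⟩
    · rintro - x hx
      rw [QMod.lo, Submodule.mem_bot] at hx
      rw [hx, map_zero]
  | succ n ih =>
    rcases wla_fin3 (w.lt e p) with h0 | h0 | h0
    · have hp1 : w.lt e p ≠ 1 := by rw [h0]; decide
      obtain ⟨β, hβ, hβ'⟩ := hw.inn h0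
      have hs : D.src β = w.v (st e p) := (Sides.outA_some.1 hβ').1
      have hl' : (l ∘ₗ Q.op (Sum.inr β)) ∘ₗ Q.op (Sum.inl (w.v (st e p))) = l ∘ₗ Q.op (Sum.inr β) := by
        ext x
        show l (Q.op (Sum.inr β) (Q.op (Sum.inl (w.v (st e p))) x)) = l (Q.op (Sum.inr β) x)
        rw [← hs, Q.src]
      have ih' := ih (st e p) (l ∘ₗ Q.op (Sum.inr β)) hl'
      rw [wla_lo_zero h0]
      constructor
      · intro hk
        obtain ⟨ξ, hξ0, hξ⟩ := ih'.1 (fun x hx => hk _ ((wla_mem_cB hβ).2 ⟨x, hx, rfl⟩))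
        refine ⟨fun j => Nat.casesOn j l ξ, rfl, ?_⟩
        rw [wlb_sdc_succ]
        refine ⟨?_, fun _ => hξ⟩
        show DSt Q w e p l (ξ 0)
        rw [wlb_dst_zero h0 hβ]
        exact ⟨hl, hξ0.symm⟩
      · rintro ⟨ξ, rfl, hξ⟩ x hx
        rw [wlb_sdc_succ] at hξ
        obtain ⟨h1, h2⟩ := hξ
        rw [wlb_dst_zero h0 hβ] at h1
        obtain ⟨y, hy, rfl⟩ := (wla_mem_cB hβ).1 hx
        exact ih'.2 ⟨fun j => ξ (j + 1), h1.2.symm, h2 hp1⟩ y hy
    · rw [wla_lo_one h0]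
      constructor
      · intro hk
        refine ⟨fun _ => l, rfl, ?_⟩
        rw [wlb_sdc_succ]
        refine ⟨(wlb_dst_one h0).2 ⟨hl, fun β hβ => ?_⟩, fun hp => absurd h0 hp⟩
        ext x
        exact hk _ ((wla_mem_cB hβ).2 ⟨x, trivial, rfl⟩)
      · rintro ⟨ξ, rfl, hξ⟩ x hx
        rw [wlb_sdc_succ] at hξ
        have h1 := (wlb_dst_one h0).1 hξ.1
        cases hβ : S.inA (w.v p) (w.sd e p) with
        | none =>
          unfold QMod.cB at hx
          rw [hβ] at hx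
          have hx' : x = 0 := by simpa using hx
          rw [hx', map_zero]
        | some β =>
          obtain ⟨y, -, rfl⟩ := (wla_mem_cB hβ).1 hx
          exact LinearMap.congr_fun (h1.2 β hβ) y
    · have hp1 : w.lt e p ≠ 1 := by rw [h0]; decide
      obtain ⟨γ, hγ, hγ'⟩ := hw.out h0
      have hs : D.src γ = w.v p := (Sides.outA_some.1 hγ).1
      have ht : D.tgt γ = w.v (st e p) := (Sides.inA_some.1 hγ').1
      rw [wla_lo_two h0]
      constructor
      · intro hk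
        obtain ⟨l', a1, a2, a3⟩ := ext_through Q (γ := γ)
          (Q.lo S n (w.wdd e (st e p)) (w.v (st e p)) (w.sd e (st e p))) l (by rw [hs]; exact hl) (by
            intro x hx
            rw [hs] at hx
            exact hk x ((wla_mem_cC hγ).2 ⟨QMod.mem_vs.1 hx.1, hx.2⟩))
        rw [ht] at a2 a3
        obtain ⟨ξ, hξ0, hξ⟩ := (ih (st e p) l' a2).1 (fun x hx => a3 x ⟨hx,
          (Q.up_le_vs S n _ _ _) (Q.lo_le_up S n _ _ _ hx)⟩)
        refine ⟨fun j => Nat.casesOn j l ξ, rfl, ?_⟩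
        rw [wlb_sdc_succ]
        refine ⟨?_, fun _ => hξ⟩
        show DSt Q w e p l (ξ 0)
        rw [wlb_dst_two h0 hγ, hξ0]
        exact ⟨hl, a2, a1⟩
      · rintro ⟨ξ, rfl, hξ⟩ x hx
        rw [wlb_sdc_succ] at hξ
        obtain ⟨h1, h2⟩ := hξ
        rw [wlb_dst_two h0 hγ] at h1
        obtain ⟨b1, b2, b3⟩ := h1
        obtain ⟨c1, c2⟩ := (wla_mem_cC hγ).1 hx
        have := (ih (st e p) (ξ 1) b2).2 ⟨fun j => ξ (j + 1), rfl, h2 hp1⟩ _ c2
        rw [← b3]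
        exact this

end StrAlg
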