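import Pool.Agent.Lib.MP_b9fd58_lc.WMa
import Pool.Agent.Lib.MP_b9fd58_lc.WLb

/-!
# Windows and cuts (job WMb)
-/

set_option autoImplicit false

namespace StrAlg

open Module

section aux
variable {ι : Type*} {nx : ι → Bool → Fin 3 → ι × Bool}

theorem wmb_st (e : Bool) (j : ℕ) (p : ℤ) : st e (stn e (j : ℤ) p) = stn e ((j + 1 : ℕ) : ℤ) p := by
  rw [← stn_one, stn_stn]; push_cast; rfl

theorem wmb_st_back (e : Bool) (j : ℕ) (p : ℤ) :
    st (!e) (stn e ((j + 1 : ℕ) : ℤ) p) = stn e (j : ℤ) p := by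
  rw [← wmb_st, st_not_st]

theorem wmb_natAbs (e : Bool) (j : ℕ) (p : ℤ) : (stn e (j : ℤ) p - p).natAbs = j := by
  cases e <;> simp

theorem wmb_reach {w : Ln ι nx} {p q : ℤ} (h : w.Reach p q) :
    ∃ (e : Bool) (n : ℕ), q = stn e (n : ℤ) p ∧ ∀ j < n, w.lt e (stn e (j : ℤ) p) ≠ 1 := by
  obtain ⟨e, n, h1, h2, -⟩ := h
  exact ⟨e, n, h2, fun j hj => (h1.lk j hj).2⟩

/-- glue the two sides of a line -/
noncomputable def wmbGlue {M : Type*} (f : Bool → ℕ → M) (p q : ℤ) : M :=
  if p ≤ q then f true (q - p).toNat else f false (p - q).toNat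

theorem wmbGlue_stn {M : Type*} {f : Bool → ℕ → M} (hf : f true 0 = f false 0) (p : ℤ) (e : Bool)
    (j : ℕ) : wmbGlue f p (stn e (j : ℤ) p) = f e j := by
  unfold wmbGlue
  cases e with
  | true =>
    rw [if_pos (by simp)]
    simp
  | false =>
    rcases Nat.eq_zero_or_pos j with rfl | hj
    · simp [hf]
    · rw [if_neg (by simp; omega)]
      simp

end aux

variable {D : Dat} {k : Type} [Field k] {N : Type} [AddCommGroup N] [Module k N] {S : Sides D}

/-- an element of the upper cuts of depth `n` on both sides extends to a window chain -/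
theorem window_of_up {Q : QMod D k N} {w : Ln (Fin D.nV) S.nx} (hw : w.Ok S.ends) (p : ℤ) (n : ℕ) (m : N)
    (h : ∀ e, m ∈ Q.up S n (w.wdd e p) (w.v p) (w.sd e p)) :
    ∃ g : ℤ → N, g p = m ∧ ∀ q, w.Reach p q → (q - p).natAbs < n → ChAt Q S.ends w g q := by
  have h1 : ∀ e, ∃ g : ℕ → N, g 0 = m ∧ SCh Q w e p n g := fun e => ((mem_up_iff hw e p n m).1 (h e)).2
  choose f hf0 hf using h1
  have hg : ∀ e (j : ℕ), wmbGlue f p (stn e (j : ℤ) p) = f e j :=
    fun e j => wmbGlue_stn ((hf0 true).trans (hf0 false).symm) p e j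
  have hgp : wmbGlue f p p = m := by
    have := hg true 0
    simpa [hf0] using this
  refine ⟨wmbGlue f p, hgp, ?_⟩
  intro q hq hn
  obtain ⟨e, j, rfl, hj⟩ := wmb_reach hq
  rw [wmb_natAbs] at hn
  apply chAt_of_ESt hw
  intro e'
  by_cases he : e' = e
  · subst he
    rw [wmb_st, hg, hg]
    exact hf e' j hn hj
  · cases j with
    | zero =>
      have h2 := hf e' 0 hn (fun i hi => absurd hi (by omega))
      have h3 := hg e' 0
      have h4 := hg e' 1
      have h5 := wmb_st e' 0 p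
      simp only [Nat.cast_zero, stn_zero] at h2 h3 h5
      simp only [Nat.cast_zero, stn_zero]
      rw [h5, h3, h4]
      exact h2
    | succ j =>
      have hne : e' = !e := by cases e <;> cases e' <;> simp_all
      subst hne
      have h2 := hf e j (by omega) (fun i hi => hj i (by omega))
      have h3 := h2.symm hw (hj j (by omega))
      rw [wmb_st] at h3
      rw [wmb_st_back, hg, hg]
      exact h3

/-- a functional that kills the lower cuts of depth `n` on both sides extends to a window dual chain -/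
theorem window_of_lo {Q : QMod D k N} {w : Ln (Fin D.nV) S.nx} (hw : w.Ok S.ends) (p : ℤ) (n : ℕ)
    (l : N →ₗ[k] k) (hl : l ∘ₗ Q.op (Sum.inl (w.v p)) = l)
    (h : ∀ e, ∀ x ∈ Q.lo S n (w.wdd e p) (w.v p) (w.sd e p), l x = 0) :
    ∃ ξ : ℤ → N →ₗ[k] k, ξ p = l ∧ ∀ q, w.Reach p q → (q - p).natAbs < n → DcAt Q S.ends w ξ q := by
  have h1 : ∀ e, ∃ ξ : ℕ → N →ₗ[k] k, ξ 0 = l ∧ SDc Q w e p n ξ :=
    fun e => (kills_lo_iff hw e p n l hl).1 (h e)
  choose f hf0 hf using h1
  have hg : ∀ e (j : ℕ), wmbGlue f p (stn e (j : ℤ) p) = f e j :=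
    fun e j => wmbGlue_stn ((hf0 true).trans (hf0 false).symm) p e j
  have hgp : wmbGlue f p p = l := by
    have := hg true 0
    simpa [hf0] using this
  refine ⟨wmbGlue f p, hgp, ?_⟩
  intro q hq hn
  obtain ⟨e, j, rfl, hj⟩ := wmb_reach hq
  rw [wmb_natAbs] at hn
  apply dcAt_of_DSt hw
  intro e'
  by_cases he : e' = e
  · subst he
    rw [wmb_st, hg, hg]
    exact hf e' j hn hj
  · cases j with
    | zero =>
      have h2 := hf e' 0 hn (fun i hi => absurd hi (by omega))
      have h3 := hg e' 0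
      have h4 := hg e' 1
      have h5 := wmb_st e' 0 p
      simp only [Nat.cast_zero, stn_zero] at h2 h3 h5
      simp only [Nat.cast_zero, stn_zero]
      rw [h5, h3, h4]
      exact h2
    | succ j =>
      have hne : e' = !e := by cases e <;> cases e' <;> simp_all
      subst hne
      have h2 := hf e j (by omega) (fun i hi => hj i (by omega))
      have h3 := h2.symm hw (hj j (by omega))
      rw [wmb_st] at h3
      rw [wmb_st_back, hg, hg]
      exact h3

theorem up_of_window {Q : QMod D k N} {w : Ln (Fin D.nV) S.nx} (hw : w.Ok S.ends) (p : ℤ) (n : ℕ) (g : ℤ → N)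
    (h : ∀ q, w.Reach p q → (q - p).natAbs ≤ n → ChAt Q S.ends w g q) (e : Bool) :
    g p ∈ Q.up S n (w.wdd e p) (w.v p) (w.sd e p) := by
  rw [mem_up_iff hw]
  refine ⟨?_, fun j => g (stn e (j : ℤ) p), by simp, ?_⟩
  · have h1 := (h p Ln.Reach.refl (by simp)).1 (w.v p)
    rwa [if_pos rfl] at h1
  · intro j hj hi
    have h1 : ChAt Q S.ends w g (stn e (j : ℤ) p) :=
      h _ (Ln.Reach.of_lt hi) (by rw [wmb_natAbs]; omega)
    have h2 := ESt_of_chAt (e := e) hw h1 (fun hlt => by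
      rw [wmb_st]
      refine h _ (Ln.Reach.of_lt (fun i hi' => ?_)) (by rw [wmb_natAbs]; omega)
      rcases Nat.lt_succ_iff_lt_or_eq.1 hi' with h3 | h3
      · exact hi i h3
      · subst h3; exact hlt)
    rw [wmb_st] at h2
    exact h2

theorem lo_of_window {Q : QMod D k N} {w : Ln (Fin D.nV) S.nx} (hw : w.Ok S.ends) (p : ℤ) (n : ℕ)
    (ξ : ℤ → N →ₗ[k] k) (h : ∀ q, w.Reach p q → (q - p).natAbs ≤ n → DcAt Q S.ends w ξ q) (e : Bool) :
    ∀ x ∈ Q.lo S n (w.wdd e p) (w.v p) (w.sd e p), ξ p x = 0 := by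
  have hl : ξ p ∘ₗ Q.op (Sum.inl (w.v p)) = ξ p := by
    apply LinearMap.ext
    intro x
    have h1 := (h p Ln.Reach.refl (by simp)).1 (w.v p) x
    rwa [if_pos rfl] at h1
  rw [kills_lo_iff hw e p n (ξ p) hl]
  refine ⟨fun j => ξ (stn e (j : ℤ) p), by simp, ?_⟩
  intro j hj hi
  have h1 : DcAt Q S.ends w ξ (stn e (j : ℤ) p) :=
    h _ (Ln.Reach.of_lt hi) (by rw [wmb_natAbs]; omega)
  have h2 := DSt_of_dcAt (e := e) hw h1 (fun hlt => by
    rw [wmb_st]
    refine h _ (Ln.Reach.of_lt (fun i hi' => ?_)) (by rw [wmb_natAbs]; omega)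
    rcases Nat.lt_succ_iff_lt_or_eq.1 hi' with h3 | h3
    · exact hi i h3
    · subst h3; exact hlt)
  rw [wmb_st] at h2
  exact h2

/-- the cuts on the sides `s` and in the directions `e` -/
theorem wd_sd (w : Ln (Fin D.nV) S.nx) (p : ℤ) (e : Bool) : w.wd p (w.sd e p) = w.wdd e p := by
  unfold Ln.wd Ln.sd
  congr 1
  cases e <;> cases w.r p <;> rfl

theorem mem_U_iff {Q : QMod D k N} {w : Ln (Fin D.nV) S.nx} (p : ℤ) (n : ℕ) (m : N) :
    m ∈ Q.U S n (w.v p) (w.wd p) ↔ ∀ e, m ∈ Q.up S n (w.wdd e p) (w.v p) (w.sd e p) := by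
  unfold QMod.U
  rw [Submodule.mem_inf]
  constructor
  · rintro ⟨h1, h2⟩ e
    rw [← wd_sd]
    cases w.sd e p
    · exact h1
    · exact h2
  · intro h
    have key : ∀ s, m ∈ Q.up S n (w.wd p s) (w.v p) s := by
      intro s
      obtain ⟨e, he⟩ : ∃ e, w.sd e p = s := by
        unfold Ln.sd
        cases s <;> cases w.r p
        · exact ⟨true, rfl⟩
        · exact ⟨false, rfl⟩
        · exact ⟨false, rfl⟩
        · exact ⟨true, rfl⟩
      have h1 := h e
      rwa [← wd_sd, he] at h1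
    exact ⟨key false, key true⟩

theorem B_eq {Q : QMod D k N} {w : Ln (Fin D.nV) S.nx} (p : ℤ) (n : ℕ) :
    Q.B S n (w.v p) (w.wd p) = Q.lo S n (w.wdd false p) (w.v p) (w.sd false p) ⊔
      Q.lo S n (w.wdd true p) (w.v p) (w.sd true p) := by
  unfold QMod.B
  rw [← wd_sd w p false, ← wd_sd w p true]
  have h1 : w.sd true p = w.r p := rfl
  have h2 : w.sd false p = !w.r p := rfl
  rw [h1, h2]
  cases w.r p
  · exact sup_comm _ _
  · rfl

/-- **a line is open on the module iff its point is open**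

Proof. `→`: for `n` take the window of radius `n` (`R := n`), `up_of_window`, `lo_of_window`, `ξ p (g p) = 1`.
`←`: for `R` take `m` in `U (R+1)`, not in `B (R+1)` (both inside `vs`), a functional `l` with `l m = 1` that kills
`B (R+1)` (`Submodule.exists_le_ker_of_notMem` or similar), replace `l` by `l ∘ e_{v p}`; `window_of_up`, `window_of_lo`,
and `pair_step` along `Reach`. -/
theorem hasWin_iff {Q : QMod D k N} {w : Ln (Fin D.nV) S.nx} (hw : w.Ok S.ends) (p : ℤ) :
    HasWin Q S.ends w p ↔ Q.OpenPt S (w.v p) (w.wd p) := by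
  constructor
  · intro h n hle
    obtain ⟨g, ξ, hgξ⟩ := h n
    have h1 : g p ∈ Q.U S n (w.v p) (w.wd p) :=
      (mem_U_iff p n (g p)).2 (fun e => up_of_window hw p n g (fun q hq hn => (hgξ q hq hn).1) e)
    have h2 := hle h1
    rw [B_eq] at h2
    have h3 : ∀ e, ∀ x ∈ Q.lo S n (w.wdd e p) (w.v p) (w.sd e p), ξ p x = 0 :=
      fun e => lo_of_window hw p n ξ (fun q hq hn => (hgξ q hq hn).2.1) e
    obtain ⟨x, hx, y, hy, hxy⟩ := Submodule.mem_sup.1 h2
    have h4 := (hgξ p Ln.Reach.refl (by simp)).2.2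
    rw [← hxy, map_add, h3 false x hx, h3 true y hy, add_zero] at h4
    exact zero_ne_one h4
  · intro h R
    obtain ⟨m, hmU, hmB⟩ := Set.not_subset.1 (h (R + 1))
    obtain ⟨f, hfm, hfB⟩ := Submodule.exists_le_ker_of_notMem hmB
    have hmU' := (mem_U_iff p (R + 1) m).1 hmU
    have hm : Q.op (Sum.inl (w.v p)) m = m := ((mem_up_iff hw true p (R + 1) m).1 (hmU' true)).1
    set l : N →ₗ[k] k := ((f m)⁻¹ • f) ∘ₗ Q.op (Sum.inl (w.v p)) with hl
    have hlm : l m = 1 := by
      rw [hl, LinearMap.comp_apply, hm, LinearMap.smul_apply, smul_eq_mul, inv_mul_cancel₀ hfm]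
    have hll : l ∘ₗ Q.op (Sum.inl (w.v p)) = l := by
      apply LinearMap.ext
      intro x
      rw [hl, LinearMap.comp_apply, LinearMap.comp_apply, LinearMap.comp_apply, Q.idem]
    have hkill : ∀ e, ∀ x ∈ Q.lo S (R + 1) (w.wdd e p) (w.v p) (w.sd e p), l x = 0 := by
      intro e x hx
      have h1 : x ∈ Q.vs (w.v p) := Q.up_le_vs S _ _ _ _ (Q.lo_le_up S _ _ _ _ hx)
      have h2 : Q.op (Sum.inl (w.v p)) x = x := QMod.mem_vs.1 h1
      have h3 : x ∈ Q.B S (R + 1) (w.v p) (w.wd p) := by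
        rw [B_eq]
        cases e
        · exact Submodule.mem_sup_left hx
        · exact Submodule.mem_sup_right hx
      have h4 : f x = 0 := LinearMap.mem_ker.1 (hfB h3)
      rw [hl, LinearMap.comp_apply, h2, LinearMap.smul_apply, h4, smul_zero]
    obtain ⟨g, hgp, hg⟩ := window_of_up hw p (R + 1) m hmU'
    obtain ⟨ξ, hξp, hξ⟩ := window_of_lo hw p (R + 1) l hll hkill
    refine ⟨g, ξ, ?_⟩
    intro q hq hn
    refine ⟨hg q hq (by omega), hξ q hq (by omega), ?_⟩
    obtain ⟨e, j, rfl, hj⟩ := wmb_reach hq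
    rw [wmb_natAbs] at hn
    clear hq
    induction j with
    | zero =>
      simp only [Nat.cast_zero, stn_zero]
      rw [hgp, hξp, hlm]
    | succ j ih =>
      have h1 := ih (fun i hi => hj i (by omega)) (by omega)
      have hr : w.Reach p (stn e (j : ℤ) p) := Ln.Reach.of_lt (fun i hi => hj i (by omega))
      have hr' : w.Reach p (stn e ((j + 1 : ℕ) : ℤ) p) := Ln.Reach.of_lt hj
      have c1 := hg _ hr (by rw [wmb_natAbs]; omega)
      have c2 := hg _ hr' (by rw [wmb_natAbs]; omega)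
      have d1 := hξ _ hr (by rw [wmb_natAbs]; omega)
      have d2 := hξ _ hr' (by rw [wmb_natAbs]; omega)
      have e1 := ESt_of_chAt (e := e) hw c1 (fun _ => by rw [wmb_st]; exact c2)
      have e2 := DSt_of_dcAt (e := e) hw d1 (fun _ => by rw [wmb_st]; exact d2)
      rw [wmb_st] at e1 e2
      rw [pair_step hw (hj j (by omega)) e1 e2]
      exact h1

theorem HasWin.reach {Q : QMod D k N} {w : Ln (Fin D.nV) S.nx} {p q : ℤ} (h : HasWin Q S.ends w p)
    (hr : w.Reach p q) : HasWin Q S.ends w q := by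
  intro R
  obtain ⟨g, ξ, hgξ⟩ := h (R + (q - p).natAbs)
  refine ⟨g, ξ, ?_⟩
  intro q' hq' hn
  exact hgξ q' (hr.trans hq') (by omega)

end StrAlg
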