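import Pool.Agent.Lib.MP_b9fd58_lc.OAa
import Pool.Agent.Lib.MP_b9fd58_lc.OBb
import Pool.Agent.Lib.MP_b9fd58_lc.WMb
import Pool.Agent.Lib.MP_b9fd58_lc.WUb

/-!
# An open bad point (job OC)
-/

set_option autoImplicit false

namespace StrAlg

open Module

variable {D : Dat} {k : Type} [Field k] {S : Sides D}

/-- If the pair of finite blocks is open on `N` then there is an `N`-open bad point.

Proof: `lemZ`; `f p` lies in `U n` of the words of `X` at `p` (`up_of_window`, `mem_U_iff`), `ξ r` kills `B n` of the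
words of `Y` at `r` (`lo_of_window`, `B_eq`), so `¬ U n ≤ B n`; `exists_openPt_between` (`Str.wd_abs`, `LeD_iff_wd`). -/
theorem exists_open_badPt (X Y : Blk S k) (hX : X.l = 0) (hY : Y.l = 0) (a : X.M.C) (b : Dual k Y.M.C) (N : Md D k)
    (h : (bpr X Y a b).Opn N) :
    ∃ (i : Fin D.nV) (u : Bool → Wd), (∀ s, (u s).Abs) ∧ N.Q.OpenPt S i u ∧ BadPt X Y a b i u := by
  obtain ⟨p, hp, r, hr, hv, hle, hOm, f, ξ, hf, hξ, hne⟩ := lemZ X Y hX hY a b N h
  have hle' : ∀ s, WLe (Y.x.L.wd r s) (X.x.L.wd p s) := LeD_iff_wd.1 hle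
  obtain ⟨w, hw, ho⟩ := exists_openPt_between N.Q (X.x.L.v p) (Y.x.L.wd r) (X.x.L.wd p) hle'
    (fun s => Y.x.wd_abs hr s) (fun s => X.x.wd_abs hp s) (by
      intro n hU
      have h1 : f p ∈ N.Q.U S n (X.x.L.v p) (X.x.L.wd p) :=
        (mem_U_iff p n (f p)).2 (fun e => up_of_window X.x.ok p n f (fun q _ _ => hf q) e)
      have h2 := hU h1
      rw [hv, B_eq] at h2
      obtain ⟨x, hx, y, hy, hxy⟩ := Submodule.mem_sup.1 h2
      apply hne
      rw [← hxy, map_add, lo_of_window Y.x.ok r n ξ (fun q _ _ => hξ q) false x hx,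
        lo_of_window Y.x.ok r n ξ (fun q _ _ => hξ q) true y hy, add_zero])
  exact ⟨X.x.L.v p, w, fun s => (hw s).2.2, ho, p, hp, r, hr, rfl, hv.symm,
    fun s => ⟨(hw s).1, (hw s).2.1⟩, hOm⟩

end StrAlg
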