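import Pool.Agent.Lib.MP_b9fd58_lc.WDef

/-!
# Nice modules, retracts (job WSb)
-/

set_option autoImplicit false

namespace StrAlg

open Module

variable {D : Dat} {k : Type} [Field k]

/-- finite-dimensional modules are nice: `N → N**` is an isomorphism -/
theorem wNice_of_fd (N : Md D k) (h : FiniteDimensional k N.C) : N.Nice := by
  have hi : N.Hom N.dual.codual (Dual.eval k N.C) := by
    intro g n
    exact LinearMap.ext fun f => rfl
  have e1 : ∀ n : N.C, (evalEquiv k N.C).symm (Dual.eval k N.C n) = n := fun n =>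
    (evalEquiv k N.C).symm_apply_apply n
  have e2 : ∀ z : Dual k (Dual k N.C), Dual.eval k N.C ((evalEquiv k N.C).symm z) = z := fun z =>
    (evalEquiv k N.C).apply_symm_apply z
  refine ⟨N.dual, Dual.eval k N.C, (evalEquiv k N.C).symm.toLinearMap, hi, ?_, ?_⟩
  · intro g z
    have h1 := hi g ((evalEquiv k N.C).symm z)
    have h2 := congrArg (evalEquiv k N.C).symm h1
    have h3 : N.dual.codual.Q.op g (Dual.eval k N.C ((evalEquiv k N.C).symm z)) =
        N.dual.codual.Q.op g z := congrArg (N.dual.codual.Q.op g) (e2 z)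
    exact (((e1 _).symm.trans h2).trans (congrArg (evalEquiv k N.C).symm h3)).symm
  · exact LinearMap.ext fun n => e1 n

theorem wRet_trans {M N P : Md D k} (h : M.Ret N) (h' : N.Ret P) : M.Ret P := by
  obtain ⟨i, r, hi, hr, hir⟩ := h
  obtain ⟨i', r', hi', hr', hir'⟩ := h'
  refine ⟨i' ∘ₗ i, r ∘ₗ r', fun g n => ?_, fun g n => ?_, ?_⟩
  · exact (congrArg i' (hi g n)).trans (hi' g (i n))
  · exact (congrArg r (hr' g n)).trans (hr g (r' n))
  · refine LinearMap.ext fun n => ?_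
    have h1 : r' (i' (i n)) = i n := LinearMap.congr_fun hir' (i n)
    have h2 : r (i n) = n := LinearMap.congr_fun hir n
    show r (r' (i' (i n))) = n
    rw [h1, h2]

theorem wRet_refl (M : Md D k) : M.Ret M :=
  ⟨LinearMap.id, LinearMap.id, fun _ _ => rfl, fun _ _ => rfl, rfl⟩

theorem wNice_ret {M N : Md D k} (hN : N.Nice) (h : M.Ret N) : M.Nice := by
  obtain ⟨X, hX⟩ := hN
  exact ⟨X, wRet_trans h hX⟩

theorem wDec_ret₁ {N M₁ M₂ : Md D k} (h : N.Dec M₁ M₂) : M₁.Ret N := by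
  obtain ⟨i₁, r₁, i₂, r₂, h1, h2, h3, h4, h5, h6, h7, h8, h9⟩ := h
  exact ⟨i₁, r₁, h1, h2, h5⟩

theorem wDec_ret₂ {N M₁ M₂ : Md D k} (h : N.Dec M₁ M₂) : M₂.Ret N := by
  obtain ⟨i₁, r₁, i₂, r₂, h1, h2, h3, h4, h5, h6, h7, h8, h9⟩ := h
  exact ⟨i₂, r₂, h3, h4, h6⟩

end StrAlg
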