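import Pool.Agent.Lib.MP_b9fd58_lc.WT

/-!
# Chains outside K0 (job WUa)
-/

set_option autoImplicit false

namespace StrAlg

open Module

variable {D : Dat} {k : Type} [Field k] {S : Sides D}

theorem wua_stn_succ (e : Bool) (j : ℕ) (p : ℤ) : stn e ((j + 1 : ℕ) : ℤ) p = st e (stn e (j : ℤ) p) := by
  cases e <;> simp <;> ring

theorem wua_lt_ne (b : Str S) (hb : ∀ p, b.L.lam p ≠ 1) (e : Bool) (q : ℤ) : b.L.lt e q ≠ 1 := by
  unfold Ln.lt
  cases e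
  · simp only [Bool.false_eq_true, if_false]; exact Ln.rev_ne_one.2 (hb _)
  · exact hb q

/-- the one-sided chain of a chain -/
theorem wua_sch (b : Str S) (N : Md D k) (e : Bool) (p : ℤ) (m : ℕ) (a : ℤ → N.C) (ha : a ∈ b.Q N) :
    SCh N.Q b.L e p m (fun j => a (stn e (j : ℤ) p)) := by
  intro j _ _
  have h1 : ESt N.Q b.L e (stn e (j : ℤ) p) (a (stn e (j : ℤ) p)) (a (st e (stn e (j : ℤ) p))) :=
    ESt_of_chAt b.ok (ha.1 _) (fun _ => ha.1 _)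
  show ESt N.Q b.L e (stn e (j : ℤ) p) (a (stn e (j : ℤ) p)) (a (stn e ((j + 1 : ℕ) : ℤ) p))
  rw [wua_stn_succ]
  exact h1

theorem wua_mem_lo (b : Str S) (hb : ∀ p, b.L.lam p ≠ 1) (N : Md D k) (e : Bool) (p : ℤ) (m : ℕ) (a : ℤ → N.C)
    (ha : a ∈ b.Q N) (h0 : a (stn e (m : ℤ) p) = 0) : a p ∈ N.Q.lo S m (b.L.wdd e p) (b.L.v p) (b.L.sd e p) := by
  rw [mem_lo_iff b.ok e p m (fun j _ => wua_lt_ne b hb e _)]
  refine ⟨?_, fun j => a (stn e (j : ℤ) p), ?_, h0, wua_sch b N e p m a ha⟩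
  · have := (ha.1 p).1 (b.L.v p)
    rwa [if_pos rfl] at this
  · show a (stn e ((0 : ℕ) : ℤ) p) = a p
    rw [Nat.cast_zero, stn_zero]

/-- chains of `K0` have their values in `B m` for big `m` (`mem_lo_iff` for the one-sided pieces) -/
theorem K0_mem_B (b : Str S) (hb : ∀ p, b.L.lam p ≠ 1) (N : Md D k) (p : ℤ) (n : ℤ → N.C) (hn : b.K0 N n) :
    ∃ M, ∀ m ≥ M, n p ∈ N.Q.B S m (b.L.v p) (b.L.wd p) := by
  obtain ⟨a, ha, c, hc, rfl, ⟨m₁, h1⟩, ⟨m₂, h2⟩⟩ := hn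
  refine ⟨((p - m₁).toNat + 1) + ((m₂ - p).toNat + 1), fun m hm => ?_⟩
  rw [B_eq]
  have e1 : a p ∈ N.Q.lo S m (b.L.wdd false p) (b.L.v p) (b.L.sd false p) := by
    refine wua_mem_lo b hb N false p m a ha (h1 _ ?_)
    rw [stn_false]; omega
  have e2 : c p ∈ N.Q.lo S m (b.L.wdd true p) (b.L.v p) (b.L.sd true p) := by
    refine wua_mem_lo b hb N true p m c hc (h2 _ ?_)
    rw [stn_true]; omega
  exact Submodule.add_mem_sup e1 e2

/-- the values of a chain are in all upper cuts -/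
theorem wua_mem_U (b : Str S) (N : Md D k) (p : ℤ) (n : ℤ → N.C) (hn : n ∈ b.Q N) (m : ℕ) :
    n p ∈ N.Q.U S m (b.L.v p) (b.L.wd p) := by
  rw [mem_U_iff]
  intro e
  exact up_of_window b.ok p m n (fun q _ _ => hn.1 q) e

/-- descending: an element of `U j` for all `j < M` in `B M` is in `B m₀` -/
theorem wua_desc (N : Md D k) (i : Fin D.nV) (u : Bool → Wd) (m₀ : ℕ)
    (h : ∀ m ≥ m₀, N.Q.U S m i u ⊓ N.Q.B S (m + 1) i u ≤ N.Q.B S m i u) (c : N.C) :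
    ∀ M ≥ m₀, (∀ j < M, c ∈ N.Q.U S j i u) → c ∈ N.Q.B S M i u → c ∈ N.Q.B S m₀ i u := by
  intro M hM
  induction M, hM using Nat.le_induction with
  | base => intro _ h'; exact h'
  | succ M hM ih =>
    intro h1 h2
    refine ih (fun j hj => h1 j (by omega)) ?_
    exact h M hM ⟨h1 M (by omega), h2⟩

theorem wua_near (N : Md D k) (i : Fin D.nV) (u : Bool → Wd) (m₀ : ℕ)
    (h : ∀ m ≥ m₀, N.Q.U S m i u ≤ N.Q.U S (m + 1) i u ⊔ N.Q.B S m i u ∧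
      N.Q.U S m i u ⊓ N.Q.B S (m + 1) i u ≤ N.Q.B S m i u) (y : N.C) (hy : y ∈ N.Q.U S m₀ i u) :
    ∀ m ≥ m₀, ∃ y' ∈ N.Q.U S m i u, y' - y ∈ N.Q.B S m₀ i u := by
  intro m hm
  induction m, hm using Nat.le_induction with
  | base => exact ⟨y, hy, by rw [sub_self]; exact Submodule.zero_mem _⟩
  | succ m hm ih =>
    obtain ⟨y', hy', hy''⟩ := ih
    obtain ⟨z, hz, c, hc, hzc⟩ := Submodule.mem_sup.1 ((h m hm).1 hy')
    refine ⟨z, hz, ?_⟩
    have hcU : c ∈ N.Q.U S m i u := by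
      have : c = y' - z := by rw [← hzc]; abel
      rw [this]
      exact Submodule.sub_mem _ hy' (N.Q.U_anti S (Nat.le_succ m) i u hz)
    have hcB : c ∈ N.Q.B S m₀ i u :=
      wua_desc N i u m₀ (fun j hj => (h j hj).2) c m hm
        (fun j hj => N.Q.U_anti S hj.le i u hcU) hc
    have : z - y = (y' - y) - c := by rw [← hzc]; abel
    rw [this]
    exact Submodule.sub_mem _ hy'' hcB

/-- **Isolated points.** `y ∈ U m₀`, `y ∉ B m₀`; for every `m ≥ m₀` the coset `y + B m₀` meets `U m` (induction on `m`: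
`y' = y'' + c`, `y'' ∈ U (m+1)`, `c ∈ U m ⊓ B m`, and `U j ⊓ B (j+1) ≤ B j` for `j = m-1, …, m₀` gives `c ∈ B m₀`);
`exists_chain_near`; if the chain was in `K0` then its value at `p` would be in all `U m` and in `B M`, so in `B m₀`. -/
theorem exists_chain_not_K0 (b : Str S) (hb : ∀ p, b.L.lam p ≠ 1) (N : Md D k) (hN : N.Nice) (p : ℤ) (m₀ : ℕ)
    (h : ∀ m ≥ m₀, N.Q.U S m (b.L.v p) (b.L.wd p) ≤
        N.Q.U S (m + 1) (b.L.v p) (b.L.wd p) ⊔ N.Q.B S m (b.L.v p) (b.L.wd p) ∧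
      N.Q.U S m (b.L.v p) (b.L.wd p) ⊓ N.Q.B S (m + 1) (b.L.v p) (b.L.wd p) ≤ N.Q.B S m (b.L.v p) (b.L.wd p))
    (ho : N.Q.OpenPt S (b.L.v p) (b.L.wd p)) : ∃ n ∈ b.Q N, ¬ b.K0 N n := by
  obtain ⟨y, hyU, hyB⟩ := SetLike.not_le_iff_exists.1 (ho m₀)
  have h1 : ∀ m, ∃ y' ∈ N.Q.U S m (b.L.v p) (b.L.wd p), y' - y ∈ N.Q.B S m₀ (b.L.v p) (b.L.wd p) := by
    intro m
    rcases le_total m₀ m with hm | hm
    · exact wua_near N _ _ m₀ h y hyU m hm
    · exact ⟨y, N.Q.U_anti S hm _ _ hyU, by rw [sub_self]; exact Submodule.zero_mem _⟩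
  obtain ⟨n, hn, hny⟩ := exists_chain_near b hb N hN p m₀ y h1
  refine ⟨n, hn, fun hK => hyB ?_⟩
  obtain ⟨M, hM⟩ := K0_mem_B b hb N p n hK
  have h2 : n p ∈ N.Q.B S m₀ (b.L.v p) (b.L.wd p) :=
    wua_desc N _ _ m₀ (fun j hj => (h j hj).2) (n p) (max M m₀) (le_max_right _ _)
      (fun j _ => wua_mem_U b N p n hn j) (hM _ (le_max_left _ _))
  have : y = n p - (n p - y) := by abel
  rw [this]
  exact Submodule.sub_mem _ h2 hny

/-- in finite-dimensional modules the cuts become stationary -/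
theorem stab_of_fd (N : Md D k) (hN : FiniteDimensional k N.C) (i : Fin D.nV) (u : Bool → Wd) :
    ∃ m₀, ∀ m ≥ m₀, N.Q.U S m i u ≤ N.Q.U S (m + 1) i u ⊔ N.Q.B S m i u ∧
      N.Q.U S m i u ⊓ N.Q.B S (m + 1) i u ≤ N.Q.B S m i u := by
  have hB : Monotone (fun m => N.Q.B S m i u) := fun m n h => N.Q.B_mono S h i u
  have hU : Antitone (fun m => N.Q.U S m i u) := fun m n h => N.Q.U_anti S h i u
  obtain ⟨m₁, h1⟩ := monotone_stabilizes_iff_noetherian.2 (inferInstance : IsNoetherian k N.C)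
    ⟨fun m => N.Q.B S m i u, hB⟩
  obtain ⟨m₂, h2⟩ := IsArtinian.monotone_stabilizes (R := k) (M := N.C)
    ⟨fun m => OrderDual.toDual (N.Q.U S m i u), hU.dual_right⟩
  refine ⟨m₁ + m₂, fun m hm => ⟨?_, ?_⟩⟩
  · have e1 : N.Q.U S m₂ i u = N.Q.U S m i u := h2 m (by omega)
    have e2 : N.Q.U S m₂ i u = N.Q.U S (m + 1) i u := h2 (m + 1) (by omega)
    rw [← e1, ← e2]
    exact le_sup_left
  · have e1 : N.Q.B S m₁ i u = N.Q.B S m i u := h1 m (by omega)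
    have e2 : N.Q.B S m₁ i u = N.Q.B S (m + 1) i u := h1 (m + 1) (by omega)
    rw [← e1, ← e2]
    exact inf_le_right

end StrAlg
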