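import Pool.Agent.Lib.MP_b9fd58_lc.OF
import Pool.Agent.Lib.MP_b9fd58_lc.OC
import Pool.Agent.Lib.MP_b9fd58_lc.WUa
import Pool.Agent.Lib.MP_b9fd58_lc.WSb

/-!
# One step: split off a band (job OGa)
-/

set_option autoImplicit false

namespace StrAlg

open Module

variable {D : Dat} {k : Type} [Field k] {S : Sides D}

/-- `thmT` as a hypothesis (stream T) -/
def ThmT (S : Sides D) (k : Type) [Field k] : Prop :=
  ∀ (b : Str S) (l : ℕ), b.MinPer l → ∀ N : Md D k, N.Nice →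
    ∃ (W : Type) (_ : AddCommGroup W) (_ : Module k W) (T : W ≃ₗ[k] W) (h : b.PerOK l T) (N' : Md D k),
      N.Dec (b.ME l T h) N' ∧ ∀ n ∈ b.Q N', b.K0 N' n

/-- One step: split off the band of an open bad point.

Proof: `exists_open_badPt`, `exists_per_of_not_outA`: `w` with the point `(i, u)`; `CanOK.ex`, `Al.to`: `c ∈ Can` and
`q ∈ c.Z` with `Al w c 0 q`, so `c.L.v q = i`, `c.L.wd q = u`; `c` is periodic (`Al.per`), `Str.exists_minPer`, `hT`:
`M.Dec (c.ME l T h) M'`. If the pair is open on `c.ME l T h` this is `OutB`. Otherwise it is open on `M'` (`opn_dec`).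
`EPt M' ⊆ EPt M` (`OpenPt_ret`). `(i, u) ∉ EPt M'`: it is isolated (`isolated_of_not_outA` for `M'`), so
`stab_of_isolated`, `exists_chain_not_K0` for `c`, `q` contradict the choice of `M'`. -/
theorem fin_step (hT : ThmT S k) (Can : Set (Str S)) (hC : CanOK Can) (X Y : Blk S k) (hX : X.l = 0) (hY : Y.l = 0)
    (a : X.M.C) (b : Dual k Y.M.C) (N M : Md D k) (hM : SubM M N) (hN : M.Nice) (hA : ¬ OutA X Y a b N)
    (h : (bpr X Y a b).Opn M) :
    OutB Can X Y a b N ∨ ∃ M' : Md D k, SubM M' N ∧ M'.Nice ∧ (bpr X Y a b).Opn M' ∧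
      EPt X Y a b M' ⊂ EPt X Y a b M := by
  obtain ⟨i, u, hu, ho, hb⟩ := exists_open_badPt X Y hX hY a b M h
  have hE : (i, u) ∈ EPt X Y a b M := ⟨hu, ho, hb⟩
  obtain ⟨w, hw, hwi, hwu⟩ := exists_per_of_not_outA X Y hX hY a b N M hM hA i u hE
  obtain ⟨c, hc, p, hp, q0, hq0, hal⟩ := hC.ex w (Or.inr hw)
  have h0 : (0 : ℤ) ∈ w.Z := Ln.Reach.refl
  obtain ⟨q, hq, hal0⟩ := Al.to hp hq0 hal h0
  have hcA : ¬ c.Aper := by
    intro hcA
    apply hw
    intro l hl hwl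
    exact hcA l hl (Al.per hp hq0 hal hwl)
  obtain ⟨l, hl⟩ := c.exists_minPer hcA
  obtain ⟨W, _, _, T, hok, M', hdec, hK0⟩ := hT c l hl M hN
  rcases opn_dec hdec (bpr X Y a b) h with h1 | h2
  · exact Or.inl ⟨c, hc, l, hl, W, _, _, T, hok, h1, SubM.trans (SubM_ret (wDec_ret₁ hdec)) hM⟩
  · right
    have hS : SubM M' N := SubM.trans (SubM_ret (wDec_ret₂ hdec)) hM
    have hN' : M'.Nice := wNice_ret hN (wDec_ret₂ hdec)
    refine ⟨M', hS, hN', h2, ?_, ?_⟩
    · intro x hx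
      exact ⟨hx.1, OpenPt_ret (wDec_ret₂ hdec) hx.2.1, hx.2.2⟩
    · intro hsub
      have hE' : (i, u) ∈ EPt X Y a b M' := hsub hE
      obtain ⟨m₀, hm₀⟩ := isolated_of_not_outA X Y hX hY a b N M' hS hA i u hE'
      have hst := stab_of_isolated M'.Q i u hE'.1 m₀ hm₀
      have hv : c.L.v q = i := hal0.1.symm.trans hwi
      have hwd : c.L.wd q = u := by
        funext s
        rw [← hal0.2 s, hwu]
      obtain ⟨n, hn, hnK⟩ := exists_chain_not_K0 c hl.2.1.2 M' hN' q m₀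
        (by rw [hv, hwd]; exact hst) (by rw [hv, hwd]; exact hE'.2.1)
      exact hnK (hK0 n hn)

end StrAlg
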