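import Pool.Agent.Lib.MP_b9fd58_lc.CE
import Pool.Agent.Lib.MP_b9fd58_lc.CCb
import Pool.Agent.Lib.MP_b9fd58_lc.CB
import Pool.Agent.Lib.MP_b9fd58_lc.CD
import Pool.Agent.Lib.MP_b9fd58_lc.OGa

/-!
# Classification of the finite-dimensional modules (job CFa)
-/

set_option autoImplicit false

namespace StrAlg

open Module

variable {D : Dat} {k : Type} [Field k] {S : Sides D}

/-- **an open band splits off a finite-dimensional module**.

Proof: `Str.exists_minPer`, `hT` (`wNice_of_fd`): `N.Dec (b.ME l T h) N'` and all chains along `b` in `N'` are in `K0`;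
`W` is finite-dimensional (`Dec_fd`, `ME_fd_coef`); `exists_blk_of_ME`, `Dec_iso`. If the block module was zero then
`N.Ret N'` (`i₁ ∘ r₁ = 0`), so `b.Open N'` (`Str.Open_ret`), `stab_of_fd` and `exists_chain_not_K0` at `p = 0` (with
`hasWin_iff`) contradict `K0`. -/
theorem dec_of_band (hT : ThmT S k) (b : Str S) (hb : ¬ b.Aper) (N : Md D k) (hN : FiniteDimensional k N.C)
    (ho : b.Open N) : ∃ (X : Blk S k) (N' : Md D k), X.x = b ∧ N.Dec X.M N' ∧ ∃ m : X.M.C, m ≠ 0 := by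
  obtain ⟨l, hl⟩ := b.exists_minPer hb
  obtain ⟨W, _, _, T, hok, N', hdec, hK0⟩ := hT b l hl N (wNice_of_fd N hN)
  have hfd := Dec_fd hdec hN
  have hW : FiniteDimensional k W := ME_fd_coef b l T hok hfd.1
  obtain ⟨X, hXx, hXi⟩ := exists_blk_of_ME b l hl T hok hW
  refine ⟨X, N', hXx, Dec_iso hdec hXi, ?_⟩
  by_contra hcon
  push Not at hcon
  -- the band module is zero
  obtain ⟨e, he⟩ := hXi
  have hz : ∀ m : (b.ME l T hok).C, m = 0 := by
    intro m
    have h1 : e (e.symm m) = m := e.apply_symm_apply m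
    rw [hcon (e.symm m), map_zero] at h1
    exact h1.symm
  obtain ⟨i₁, r₁, i₂, r₂, h1, h2, h3, h4, h5, h6, h7, h8, h9⟩ := hdec
  have hret : N.Ret N' := by
    refine ⟨r₂, i₂, h4, h3, LinearMap.ext fun n => ?_⟩
    have h10 : i₁ (r₁ n) + i₂ (r₂ n) = n := LinearMap.congr_fun h9 n
    rw [hz (r₁ n), map_zero, zero_add] at h10
    exact h10
  have ho' : b.Open N' := Str.Open_ret hret b ho
  have hpt : N'.Q.OpenPt S (b.L.v 0) (b.L.wd 0) := (hasWin_iff b.ok 0).1 ho'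
  obtain ⟨m₀, hm₀⟩ := stab_of_fd N' hfd.2 (b.L.v 0) (b.L.wd 0)
  obtain ⟨n, hn, hnK⟩ := exists_chain_not_K0 b hl.2.1.2 N' (wNice_of_fd N' hfd.2) 0 m₀ hm₀ hpt
  exact hnK (hK0 n hn)

end StrAlg
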