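import Pool.Agent.Lib.MP_b9fd58_lc.CFa

/-!
# Classification of the finite-dimensional modules (job CFb)
-/

set_option autoImplicit false

namespace StrAlg

open Module

variable {D : Dat} {k : Type} [Field k] {S : Sides D}

/-- the zero module -/
theorem cfb_zero (Can : Set (Str S)) (N : Md D k) (h : ¬ ∃ n : N.C, n ≠ 0) :
    ∃ (m : ℕ) (X : Fin m → Blk S k), (∀ i, (X i).x ∈ Can) ∧ (Md.pi (fun i => (X i).M)).Iso N := by
  have h0 : ∀ n : N.C, n = 0 := fun n => by
    by_contra hn
    exact h ⟨n, hn⟩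
  haveI : Subsingleton N.C := ⟨fun a b => (h0 a).trans (h0 b).symm⟩
  let X : Fin 0 → Blk S k := fun i => i.elim0
  haveI : Subsingleton (Md.pi (fun i => (X i).M)).C :=
    ⟨fun a b => funext fun i : Fin 0 => i.elim0⟩
  refine ⟨0, X, fun i => i.elim0, ?_⟩
  refine ⟨{ toFun := fun _ => 0, map_add' := fun _ _ => (add_zero _).symm,
            map_smul' := fun _ _ => (smul_zero _).symm, invFun := fun _ => 0,
            left_inv := fun _ => Subsingleton.elim _ _,
            right_inv := fun _ => Subsingleton.elim _ _ }, ?_⟩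
  intro g m
  exact Subsingleton.elim _ _

/-- the first summand -/
theorem cfb_split (hT : ThmT S k) (Can : Set (Str S)) (hC : CanOK Can) (N : Md D k)
    (hN : FiniteDimensional k N.C) (hne : ∃ n : N.C, n ≠ 0) :
    ∃ (X : Blk S k) (N' : Md D k), X.x ∈ Can ∧ N.Dec X.M N' ∧ ∃ m : X.M.C, m ≠ 0 := by
  obtain ⟨b, hb, ho, hf | hp⟩ := exists_can_open Can hC N hN hne
  · obtain ⟨N', hN'⟩ := dec_of_ret (ret_of_fin b hf N ho)
    exact ⟨Blk.ofFin b hf 1, N', hb, hN', ofFin_ne b hf⟩
  · obtain ⟨X, N', hx, hd, hm⟩ := dec_of_band hT b hp N hN ho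
    exact ⟨X, N', by rw [hx]; exact hb, hd, hm⟩

/-- **Classification.** Induction on the dimension: `exists_can_open`; `b` finite: `ret_of_fin`, `dec_of_ret`, `ofFin_ne`;
`b` a band: `dec_of_band`; `Dec_finrank`, `Dec_fd`, `iso_cons` for `Fin.cons X X'`. -/
theorem classify_aux (hT : ThmT S k) (Can : Set (Str S)) (hC : CanOK Can) (n : ℕ) :
    ∀ N : Md D k, FiniteDimensional k N.C → finrank k N.C ≤ n →
      ∃ (m : ℕ) (X : Fin m → Blk S k), (∀ i, (X i).x ∈ Can) ∧ (Md.pi (fun i => (X i).M)).Iso N := by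
  induction n with
  | zero =>
    intro N hN hn
    by_cases hne : ∃ x : N.C, x ≠ 0
    · obtain ⟨X, N', -, hd, hm⟩ := cfb_split hT Can hC N hN hne
      have := Dec_finrank hd hN hm
      omega
    · exact cfb_zero Can N hne
  | succ n ih =>
    intro N hN hn
    by_cases hne : ∃ x : N.C, x ≠ 0
    · obtain ⟨X, N', hX, hd, hm⟩ := cfb_split hT Can hC N hN hne
      have h1 := Dec_finrank hd hN hm
      obtain ⟨m, X', hX', hiso⟩ := ih N' (Dec_fd hd hN).2 (by omega)
      refine ⟨m + 1, Fin.cons X X', ?_, ?_⟩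
      · intro i
        refine Fin.cases ?_ (fun j => ?_) i
        · exact hX
        · exact hX' j
      · exact iso_cons (fun i => ((Fin.cons X X' : Fin (m + 1) → Blk S k) i).M) hd hiso
    · exact cfb_zero Can N hne

end StrAlg
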