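import Pool.Agent.Lib.MP_b9fd58_lc.Tail2

/-!
# Kernels of homomorphisms between line modules

From the single identity `KH` (compatibility with the arrows) one gets: the kernel is constant along common letters and
zero unless the words are in the right order.
-/

set_option autoImplicit false

namespace StrAlg

section
variable {ι E : Type*} [DecidableEq E] {nx : ι → Bool → Fin 3 → ι × Bool}

/-- incoming and outgoing arrows on each side of each vertex; every arrow has one end of each kind -/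
structure Ends (ι E : Type*) where
  inA : ι → Bool → Option E
  outA : ι → Bool → Option E
  inU : ∀ i s j t a, inA i s = some a → inA j t = some a → i = j ∧ s = t
  outU : ∀ i s j t a, outA i s = some a → outA j t = some a → i = j ∧ s = t

/-- the letters of the line are given by arrows -/
def Ln.Ok (L : Ln ι nx) (A : Ends ι E) : Prop :=
  ∀ e p, L.lt e p = 2 → ∃ a, A.outA (L.v p) (L.sd e p) = some a ∧ A.inA (L.v (st e p)) (L.sd (!e) (st e p)) = some a

/-- END is absorbing, seen from the position `p` -/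
def Ln.Abs (L : Ln ι nx) (p : ℤ) : Prop := ∀ e (n m : ℕ), n ≤ m → L.lt e (stn e n p) = 1 → L.lt e (stn e m p) = 1

theorem Ln.sd_inj {L : Ln ι nx} {e e' : Bool} {p : ℤ} (h : L.sd e p = L.sd e' p) : e = e' := by
  revert h
  unfold Ln.sd
  cases e <;> cases e' <;> cases L.r p <;> simp

/-- compatibility of a kernel with the arrows -/
structure KH {M : Type*} [AddCommMonoid M] (A : Ends ι E) (X Y : Ln ι nx) (K : ℤ → ℤ → M) : Prop where
  vx : ∀ a b, K a b ≠ 0 → X.v a = Y.v b
  absX : ∀ a b, K a b ≠ 0 → X.Abs a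
  absY : ∀ a b, K a b ≠ 0 → Y.Abs b
  ar : ∀ (α : E) (a b : ℤ),
    (∑ e : Bool, if X.lt e a = 2 ∧ A.outA (X.v a) (X.sd e a) = some α then K (st e a) b else 0) =
    (∑ e : Bool, if Y.lt e b = 0 ∧ A.inA (Y.v b) (Y.sd e b) = some α then K a (st e b) else 0)

theorem sum_bool_single {M : Type*} [AddCommMonoid M] (f : Bool → M) (e : Bool) (h : f (!e) = 0) :
    ∑ e' : Bool, f e' = f e := by
  rw [Fintype.sum_bool]
  cases e
  · rw [Bool.not_false] at h; rw [h, zero_add]
  · rw [Bool.not_true] at h; rw [h, add_zero]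

theorem KH.left_eq {M : Type*} [AddCommMonoid M] {A : Ends ι E} {X : Ln ι nx} {K : ℤ → ℤ → M} {α : E} {a b : ℤ}
    {e : Bool} (h2 : X.lt e a = 2) (hα : A.outA (X.v a) (X.sd e a) = some α) :
    (∑ e : Bool, if X.lt e a = 2 ∧ A.outA (X.v a) (X.sd e a) = some α then K (st e a) b else 0) = K (st e a) b := by
  rw [sum_bool_single _ e, if_pos ⟨h2, hα⟩]
  rw [if_neg]
  rintro ⟨-, h⟩
  have := (A.outU _ _ _ _ _ h hα).2
  have := Ln.sd_inj this
  cases e <;> simp at this

theorem KH.right_eq {M : Type*} [AddCommMonoid M] {A : Ends ι E} {Y : Ln ι nx} {K : ℤ → ℤ → M} {α : E} {a b : ℤ}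
    {e : Bool} (h2 : Y.lt e b = 0) (hα : A.inA (Y.v b) (Y.sd e b) = some α) :
    (∑ e : Bool, if Y.lt e b = 0 ∧ A.inA (Y.v b) (Y.sd e b) = some α then K a (st e b) else 0) = K a (st e b) := by
  rw [sum_bool_single _ e, if_pos ⟨h2, hα⟩]
  rw [if_neg]
  rintro ⟨-, h⟩
  have := (A.inU _ _ _ _ _ h hα).2
  have := Ln.sd_inj this
  cases e <;> simp at this

/-- the step, when the common letter is OUT -/
theorem KH.step_out {M : Type*} [AddCommMonoid M] {A : Ends ι E} {X Y : Ln ι nx} {K : ℤ → ℤ → M} (hX : X.Ok A)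
    (hY : Y.Ok A) (h : KH A X Y K) {o e : Bool} {a b : ℤ} (hm : Mt X Y o a b) (hl : Lk X Y o e a b)
    (h2 : X.lt e a = 2) : K (st e a) (st (e == o) b) = K a b := by
  obtain ⟨α, h3, h4⟩ := hX e a h2
  have h2' : Y.lt (e == o) b = 2 := hl.1 ▸ h2
  obtain ⟨β, h5, h6⟩ := hY (e == o) b h2'
  have hαβ : α = β := by
    rw [hm.1, hm.sd_eq e, h5] at h3
    exact (Option.some_inj.1 h3).symm
  subst hαβ
  have h7 := h.ar α a (st (e == o) b)
  rw [KH.left_eq h2 h3, KH.right_eq (e := !(e == o)) ?_ h6] at h7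
  · rw [h7, st_not_st]
  · rw [Ln.lt_back, h2']; rfl

theorem fin3_cases {x : Fin 3} (h : x ≠ 1) : x = 0 ∨ x = 2 := by revert x; decide

theorem KH.step {M : Type*} [AddCommMonoid M] {A : Ends ι E} {X Y : Ln ι nx} {K : ℤ → ℤ → M} (hX : X.Ok A)
    (hY : Y.Ok A) (h : KH A X Y K) {o e : Bool} {a b : ℤ} (hm : Mt X Y o a b) (hl : Lk X Y o e a b) :
    K (st e a) (st (e == o) b) = K a b := by
  rcases fin3_cases hl.2 with h0 | h2
  · have h3 := h.step_out hX hY (hm.step hl) hl.back (by rw [Ln.lt_back, h0]; rfl)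
    rw [beq_not, st_not_st, st_not_st] at h3
    exact h3.symm
  · exact h.step_out hX hY hm hl h2

theorem KH.walk {M : Type*} [AddCommMonoid M] {A : Ends ι E} {X Y : Ln ι nx} {K : ℤ → ℤ → M} (hX : X.Ok A)
    (hY : Y.Ok A) (h : KH A X Y K) {o e : Bool} {a b : ℤ} {n : ℕ} (hm : Mt X Y o a b) (hn : AgD X Y o e a b n) :
    K (stn e n a) (stn (e == o) n b) = K a b := by
  induction n with
  | zero => simp
  | succ n ih =>
    have h1 := (AgD_succ'.1 hn)
    have h2 := ih h1.1
    have h3 : Mt X Y o (stn e n a) (stn (e == o) n b) := (h1.1.walk).1.2 hm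
    rw [← h2, ← h.step hX hY h3 h1.2]
    congr 1
    · rw [← stn_one, stn_stn]; push_cast; rfl
    · rw [← stn_one, stn_stn]; push_cast; rfl

/-- the kernel vanishes if the next letter of `Y` is bigger -/
theorem KH.zero_of_lt {M : Type*} [AddCommMonoid M] {A : Ends ι E} {X Y : Ln ι nx} {K : ℤ → ℤ → M} (hX : X.Ok A)
    (hY : Y.Ok A) (h : KH A X Y K) {o e : Bool} {a b : ℤ} (hm : Mt X Y o a b)
    (hlt : X.lt e a < Y.lt (e == o) b) : K a b = 0 := by
  have hc : Y.lt (e == o) b = 2 ∨ X.lt e a = 0 := by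
    revert hlt
    generalize X.lt e a = x
    generalize Y.lt (e == o) b = y
    revert x y
    decide
  rcases hc with hc | hc
  · obtain ⟨α, h5, h6⟩ := hY (e == o) b hc
    have h7 := h.ar α a (st (e == o) b)
    rw [KH.right_eq (e := !(e == o)) (by rw [Ln.lt_back, hc]; rfl) h6, st_not_st] at h7
    rw [← h7]
    refine Finset.sum_eq_zero ?_
    intro e1 _
    rw [if_neg]
    rintro ⟨g1, g2⟩
    have g3 := (A.outU _ _ _ _ _ g2 h5).2
    rw [← hm.sd_eq e] at g3
    have g4 := Ln.sd_inj g3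
    subst g4
    rw [g1, hc] at hlt
    exact lt_irrefl _ hlt
  · have hc' : X.lt (!e) (st e a) = 2 := by rw [Ln.lt_back, hc]; rfl
    obtain ⟨α, h5, h6⟩ := hX (!e) (st e a) hc'
    rw [st_not_st, Bool.not_not] at h6
    have h7 := h.ar α (st e a) b
    rw [KH.left_eq (e := !e) hc' h5, st_not_st] at h7
    rw [h7]
    refine Finset.sum_eq_zero ?_
    intro e2 _
    rw [if_neg]
    rintro ⟨g1, g2⟩
    have g3 := (A.inU _ _ _ _ _ g2 h6).2
    rw [hm.sd_eq e] at g3
    have g4 := Ln.sd_inj g3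
    subst g4
    rw [g1, hc] at hlt
    exact lt_irrefl _ hlt

theorem KH.isKer0 {M : Type*} [AddCommMonoid M] {A : Ends ι E} {X Y : Ln ι nx} {K : ℤ → ℤ → M} (hX : X.Ok A)
    (hY : Y.Ok A) (h : KH A X Y K) : IsKer0 X Y K where
  vx := h.vx
  step := fun _ _ _ hm hl => h.step hX hY hm hl
  le := by
    intro o a b hm hne e
    by_contra hcon
    obtain ⟨n, h1, h2⟩ := not_WLe_iff.1 hcon
    have hne1 : ∀ i < n, X.lt e (stn e i a) ≠ 1 := by
      intro i hi hi1
      have h3 := h.absX a b hne e i n hi.le hi1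
      have h4 : Y.lt (e == o) (stn (e == o) i b) = 1 := by
        have := h1 i hi
        rw [Ln.wdd_apply, Ln.wdd_apply] at this
        rw [this, hi1]
      have h5 := h.absY a b hne (e == o) i n hi.le h4
      rw [Ln.wdd_apply, Ln.wdd_apply, h3, h5] at h2
      exact lt_irrefl _ h2
    have hag : AgD X Y o e a b n := by
      intro i hi
      exact ⟨(h1 i hi).symm, by rw [Ln.wdd_apply]; exact hne1 i hi⟩
    have h3 := h.walk hX hY hm hag
    have h4 := h.zero_of_lt hX hY (hag.walk.1.2 hm) (e := e) (by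
      rw [Ln.wdd_apply, Ln.wdd_apply] at h2; exact h2)
    exact hne (h3.symm.trans h4)

end

end StrAlg
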