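import Pool.Agent.Lib.MP_b9fd58_lc.Defs
import Pool.Agent.Lib.MP_b9fd58_lc.KH

/-!
# Chains and dual chains along lines in a module; Theorem A
-/

set_option autoImplicit false

namespace StrAlg

section abs
variable {ι : Type*} {nx : ι → Bool → Fin 3 → ι × Bool}

theorem Ln.Abs.step {L : Ln ι nx} {p : ℤ} {e : Bool} (h : L.Abs p) (hl : L.lt e p ≠ 1) : L.Abs (st e p) := by
  intro e' n m hnm h1
  by_cases he : e' = e
  · subst he
    have h2 := h e' (n + 1) (m + 1) (by omega) (by
      have : stn e' ((n + 1 : ℕ) : ℤ) p = stn e' n (st e' p) := by rw [← stn_one, stn_stn]; push_cast; ring_nf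
      rw [this]; exact h1)
    have : stn e' ((m + 1 : ℕ) : ℤ) p = stn e' m (st e' p) := by rw [← stn_one, stn_stn]; push_cast; ring_nf
    rw [this] at h2; exact h2
  · have : e' = !e := by cases e <;> cases e' <;> simp_all
    subst this
    cases n with
    | zero =>
      simp only [Nat.cast_zero, stn_zero] at h1
      rw [Ln.lt_back] at h1
      exact absurd (by have := congrArg Fin.rev h1; rw [Fin.rev_rev] at this; rw [this]; rfl) hl
    | succ n =>
      obtain ⟨m, rfl⟩ := Nat.exists_eq_succ_of_ne_zero (show m ≠ 0 by omega)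
      have e1 : ∀ j : ℕ, stn (!e) ((j + 1 : ℕ) : ℤ) (st e p) = stn (!e) j p := by
        intro j; cases e <;> simp <;> ring
      rw [e1] at h1
      rw [Nat.succ_eq_add_one, e1]
      exact h (!e) n m (by omega) h1

theorem Cn.abs_left {X Y : Ln ι nx} {o : Bool} {a b a' b' : ℤ} (h : Cn X Y o a b a' b') (ha : X.Abs a) :
    X.Abs a' := by
  obtain ⟨e, n, h1, rfl, -⟩ := h
  induction n with
  | zero => simpa using ha
  | succ n ih =>
    have h2 := AgD_succ'.1 h1
    have h3 := (ih h2.1).step h2.2.2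
    have : st e (stn e n a) = stn e ((n + 1 : ℕ) : ℤ) a := by rw [← stn_one, stn_stn]; push_cast; rfl
    rwa [this] at h3

theorem Cn.abs_right {X Y : Ln ι nx} {o : Bool} {a b a' b' : ℤ} (h : Cn X Y o a b a' b') (hb : Y.Abs b) :
    Y.Abs b' := by
  obtain ⟨e, n, h1, -, rfl⟩ := h
  induction n with
  | zero => simpa using hb
  | succ n ih =>
    have h2 := AgD_succ'.1 h1
    have h3 := (ih h2.1).step (by rw [← h2.2.1]; exact h2.2.2)
    have : st (e == o) (stn (e == o) n b) = stn (e == o) ((n + 1 : ℕ) : ℤ) b := by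
      rw [← stn_one, stn_stn]; push_cast; rfl
    rwa [this] at h3

theorem Cn.of_lk {X Y : Ln ι nx} {o e : Bool} {a b a' b' : ℤ} (h : Cn X Y o a b a' b')
    (hl : Lk X Y o e a' b') : Cn X Y o a b (st e a') (st (e == o) b') :=
  h.trans ⟨e, 1, AgD_succ.2 ⟨hl, AgD.zero⟩, by rw [← stn_one]; rfl, by rw [← stn_one]; rfl⟩

theorem Cn.unique_right {X Y : Ln ι nx} {o : Bool} {a₁ b₁ a b b' : ℤ} (h : Cn X Y o a₁ b₁ a b)
    (h' : Cn X Y o a₁ b₁ a b') : b = b' := by
  obtain ⟨e, n, -, g2, g3⟩ := h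
  obtain ⟨e', n', -, g2', g3'⟩ := h'
  obtain ⟨hn, he⟩ := stn_inj (g2.symm.trans g2')
  subst hn
  rcases he with rfl | rfl
  · simp at g3 g3'; rw [g3, g3']
  · rw [g3, g3']

theorem Cn.unique_left {X Y : Ln ι nx} {o : Bool} {a₁ b₁ a a' b : ℤ} (h : Cn X Y o a₁ b₁ a b)
    (h' : Cn X Y o a₁ b₁ a' b) : a = a' := by
  obtain ⟨e, n, -, g2, g3⟩ := h
  obtain ⟨e', n', -, g2', g3'⟩ := h'
  obtain ⟨hn, he⟩ := stn_inj (g3.symm.trans g3')
  subst hn
  rcases he with rfl | he
  · simp at g2 g2'; rw [g2, g2']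
  · have : e = e' := by revert he; cases e <;> cases e' <;> cases o <;> simp
    subst this
    rw [g2, g2']

/-- the class is contained in a finite interval -/
theorem Cn.mem_Icc_left {X Y : Ln ι nx} {o : Bool} {a₁ b₁ a b : ℤ} (hf : FinCl X Y o a₁ b₁)
    (h : Cn X Y o a₁ b₁ a b) :
    a ∈ Finset.Icc (a₁ - lenD X Y o false a₁ b₁) (a₁ + lenD X Y o true a₁ b₁) := by
  obtain ⟨e, n, h1, rfl, -⟩ := h
  obtain ⟨-, g2⟩ := lenD_spec (hf e)
  have hn : n ≤ lenD X Y o e a₁ b₁ := by
    by_contra hcon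
    exact g2 (h1.mono (by omega))
  rw [Finset.mem_Icc]
  cases e <;> simp <;> omega

theorem Cn.mem_Icc_right {X Y : Ln ι nx} {o : Bool} {a₁ b₁ a b : ℤ} (hf : FinCl X Y o a₁ b₁)
    (h : Cn X Y o a₁ b₁ a b) :
    b ∈ Finset.Icc (b₁ - (lenD X Y o false a₁ b₁ + lenD X Y o true a₁ b₁))
      (b₁ + (lenD X Y o false a₁ b₁ + lenD X Y o true a₁ b₁)) := by
  obtain ⟨e, n, h1, -, rfl⟩ := h
  obtain ⟨-, g2⟩ := lenD_spec (hf e)
  have hn : n ≤ lenD X Y o e a₁ b₁ := by
    by_contra hcon
    exact g2 (h1.mono (by omega))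
  rw [Finset.mem_Icc]
  cases e <;> cases o <;> simp <;> omega

end abs

section
variable {D : Dat} {k : Type} [Field k] {N : Type} [AddCommGroup N] [Module k N]
variable {nx : Fin D.nV → Bool → Fin 3 → Fin D.nV × Bool}

/-- the chain identity at the position `q` -/
def ChAt (Q : QMod D k N) (A : Ends (Fin D.nV) (Fin D.nE)) (w : Ln (Fin D.nV) nx) (g : ℤ → N) (q : ℤ) : Prop :=
  (∀ i, Q.op (Sum.inl i) (g q) = if w.v q = i then g q else 0) ∧
  ∀ α, Q.op (Sum.inr α) (g q) = ∑ e : Bool,
    if w.lt e q = 2 ∧ A.outA (w.v q) (w.sd e q) = some α then g (st e q) else 0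

/-- the dual chain identity at the position `q` -/
def DcAt (Q : QMod D k N) (A : Ends (Fin D.nV) (Fin D.nE)) (w : Ln (Fin D.nV) nx) (ξ : ℤ → N →ₗ[k] k) (q : ℤ) : Prop :=
  (∀ i n, ξ q (Q.op (Sum.inl i) n) = if w.v q = i then ξ q n else 0) ∧
  ∀ α n, ξ q (Q.op (Sum.inr α) n) = ∑ e : Bool,
    if w.lt e q = 0 ∧ A.inA (w.v q) (w.sd e q) = some α then ξ (st e q) n else 0

/-- pulling back a chain along a class -/
noncomputable def pull {M : Type*} [Zero M] (X w : Ln (Fin D.nV) nx) (o₁ : Bool) (a₁ q₁ : ℤ) (g : ℤ → M) (a : ℤ) : M :=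
  open Classical in if h : ∃ q, Cn X w o₁ a₁ q₁ a q then g h.choose else 0

theorem pull_eq {M : Type*} [Zero M] {X w : Ln (Fin D.nV) nx} {o₁ : Bool} {a₁ q₁ : ℤ} {g : ℤ → M} {a q : ℤ}
    (h : Cn X w o₁ a₁ q₁ a q) : pull X w o₁ a₁ q₁ g a = g q := by
  classical
  unfold pull
  have h' : ∃ q, Cn X w o₁ a₁ q₁ a q := ⟨q, h⟩
  rw [dif_pos h', h'.choose_spec.unique_right h]

theorem pull_zero {M : Type*} [Zero M] {X w : Ln (Fin D.nV) nx} {o₁ : Bool} {a₁ q₁ : ℤ} {g : ℤ → M} {a : ℤ}
    (h : ¬ ∃ q, Cn X w o₁ a₁ q₁ a q) : pull X w o₁ a₁ q₁ g a = 0 := by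
  classical
  unfold pull
  rw [dif_neg h]

theorem beq_beq_self (e o : Bool) : ((e == o) == o) = e := by cases e <;> cases o <;> rfl

/-- reindexing of a sum over directions -/
theorem sum_bool_beq {M : Type*} [AddCommMonoid M] (f : Bool → M) (o : Bool) :
    ∑ e : Bool, f (e == o) = ∑ e : Bool, f e := by
  rw [Fintype.sum_bool, Fintype.sum_bool]
  cases o
  · exact add_comm _ _
  · rfl

theorem pull_chain {Q : QMod D k N} {A : Ends (Fin D.nV) (Fin D.nE)} {X w : Ln (Fin D.nV) nx}
    {o₁ : Bool} {a₁ q₁ : ℤ} (hm : Mt X w o₁ a₁ q₁) (hle : LeD X w o₁ a₁ q₁) {g : ℤ → N}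
    (hg : ∀ a q, Cn X w o₁ a₁ q₁ a q → ChAt Q A w g q) (a : ℤ) :
    ChAt Q A X (pull X w o₁ a₁ q₁ g) a := by
  by_cases h : ∃ q, Cn X w o₁ a₁ q₁ a q
  · obtain ⟨q, hq⟩ := h
    have hma : Mt X w o₁ a q := hq.mt.2 hm
    have hla : LeD X w o₁ a q := hq.le.2 hle
    obtain ⟨h1, h2⟩ := hg a q hq
    constructor
    · intro i
      rw [pull_eq hq, h1 i, hma.1]
    · intro α
      rw [pull_eq hq, h2 α, ← sum_bool_beq _ o₁]
      refine Finset.sum_congr rfl ?_
      intro e _
      have hwx : w.lt (e == o₁) q ≤ X.lt e a := by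
        have := (hla e).head_le
        rwa [Ln.wdd_zero, Ln.wdd_zero] at this
      have hsd := hma.sd_eq e
      by_cases hw2 : w.lt (e == o₁) q = 2
      · have hx2 : X.lt e a = 2 := by
          rw [hw2] at hwx
          revert hwx; generalize X.lt e a = x; revert x; decide
        have hl : Lk X w o₁ e a q := ⟨by rw [hx2, hw2], by rw [hx2]; decide⟩
        rw [pull_eq (hq.of_lk hl), hsd, hma.1]
        simp only [hw2, hx2]
      · rw [if_neg (fun hh => hw2 hh.1)]
        symm
        by_cases hx2 : X.lt e a = 2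
        · rw [pull_zero, ite_self]
          rintro ⟨q', hq'⟩
          -- then the step would be matched
          have hm' : Mt X w o₁ (st e a) q' := hq'.mt.2 hm
          have hl' : LeD X w o₁ (st e a) q' := hq'.le.2 hle
          have h3 : X.lt (!e) (st e a) = 0 := by rw [Ln.lt_back, hx2]; rfl
          have h4 : w.lt ((!e) == o₁) q' = 0 := by
            have := (hl' (!e)).head_le
            rw [Ln.wdd_zero, Ln.wdd_zero, h3] at this
            revert this; generalize w.lt ((!e) == o₁) q' = y; revert y; decide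
          have hlk : Lk X w o₁ (!e) (st e a) q' := ⟨by rw [h3, h4], by rw [h3]; decide⟩
          have h5 := hq'.of_lk hlk
          rw [st_not_st] at h5
          have h6 := h5.unique_right hq
          have h7 := hlk.back
          rw [Bool.not_not, st_not_st, h6] at h7
          exact hw2 (by rw [← h7.1, hx2])
        · rw [if_neg (fun hh => hx2 hh.1)]
  · constructor
    · intro i
      rw [pull_zero h, map_zero, ite_self]
    · intro α
      rw [pull_zero h, map_zero]
      symm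
      refine Finset.sum_eq_zero ?_
      intro e _
      by_cases hx2 : X.lt e a = 2
      · rw [pull_zero, ite_self]
        rintro ⟨q', hq'⟩
        have hl' : LeD X w o₁ (st e a) q' := hq'.le.2 hle
        have h3 : X.lt (!e) (st e a) = 0 := by rw [Ln.lt_back, hx2]; rfl
        have h4 : w.lt ((!e) == o₁) q' = 0 := by
          have := (hl' (!e)).head_le
          rw [Ln.wdd_zero, Ln.wdd_zero, h3] at this
          revert this; generalize w.lt ((!e) == o₁) q' = y; revert y; decide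
        have hlk : Lk X w o₁ (!e) (st e a) q' := ⟨by rw [h3, h4], by rw [h3]; decide⟩
        have h5 := hq'.of_lk hlk
        rw [st_not_st] at h5
        exact h ⟨_, h5⟩
      · rw [if_neg (fun hh => hx2 hh.1)]

/-- pushing a dual chain along a class -/
noncomputable def push {M : Type*} [Zero M] (w Y : Ln (Fin D.nV) nx) (o' : Bool) (q₁ b₁ : ℤ) (ξ : ℤ → M) (b : ℤ) : M :=
  open Classical in if h : ∃ q, Cn w Y o' q₁ b₁ q b then ξ h.choose else 0

theorem push_eq {M : Type*} [Zero M] {w Y : Ln (Fin D.nV) nx} {o' : Bool} {q₁ b₁ : ℤ} {ξ : ℤ → M} {q b : ℤ}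
    (h : Cn w Y o' q₁ b₁ q b) : push w Y o' q₁ b₁ ξ b = ξ q := by
  classical
  unfold push
  have h' : ∃ q, Cn w Y o' q₁ b₁ q b := ⟨q, h⟩
  rw [dif_pos h', h'.choose_spec.unique_left h]

theorem push_zero {M : Type*} [Zero M] {w Y : Ln (Fin D.nV) nx} {o' : Bool} {q₁ b₁ : ℤ} {ξ : ℤ → M} {b : ℤ}
    (h : ¬ ∃ q, Cn w Y o' q₁ b₁ q b) : push w Y o' q₁ b₁ ξ b = 0 := by
  classical
  unfold push
  rw [dif_neg h]

theorem push_chain {Q : QMod D k N} {A : Ends (Fin D.nV) (Fin D.nE)} {w Y : Ln (Fin D.nV) nx}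
    {o' : Bool} {q₁ b₁ : ℤ} (hm : Mt w Y o' q₁ b₁) (hle : LeD w Y o' q₁ b₁) {ξ : ℤ → N →ₗ[k] k}
    (hg : ∀ q b, Cn w Y o' q₁ b₁ q b → DcAt Q A w ξ q) (b : ℤ) :
    DcAt Q A Y (push w Y o' q₁ b₁ ξ) b := by
  by_cases h : ∃ q, Cn w Y o' q₁ b₁ q b
  · obtain ⟨q, hq⟩ := h
    have hma : Mt w Y o' q b := hq.mt.2 hm
    have hla : LeD w Y o' q b := hq.le.2 hle
    obtain ⟨h1, h2⟩ := hg q b hq
    constructor
    · intro i n
      rw [push_eq hq, h1 i, hma.1]
    · intro α n
      rw [push_eq hq, h2 α, ← sum_bool_beq (fun e => if Y.lt e b = 0 ∧ A.inA (Y.v b) (Y.sd e b) = some α then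
        (push w Y o' q₁ b₁ ξ (st e b)) n else 0) o']
      refine Finset.sum_congr rfl ?_
      intro e _
      have hwx : Y.lt (e == o') b ≤ w.lt e q := by
        have := (hla e).head_le
        rwa [Ln.wdd_zero, Ln.wdd_zero] at this
      have hsd := hma.sd_eq e
      by_cases hw0 : w.lt e q = 0
      · have hy0 : Y.lt (e == o') b = 0 := by
          rw [hw0] at hwx
          revert hwx; generalize Y.lt (e == o') b = x; revert x; decide
        have hl : Lk w Y o' e q b := ⟨by rw [hw0, hy0], by rw [hw0]; decide⟩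
        rw [push_eq (hq.of_lk hl), hsd, hma.1]
        simp only [hw0, hy0]
      · rw [if_neg (fun hh => hw0 hh.1)]
        symm
        by_cases hy0 : Y.lt (e == o') b = 0
        · rw [push_zero]
          · simp
          rintro ⟨q', hq'⟩
          have hl' : LeD w Y o' q' (st (e == o') b) := hq'.le.2 hle
          have h3 : Y.lt (!(e == o')) (st (e == o') b) = 2 := by rw [Ln.lt_back, hy0]; rfl
          have h4 : w.lt (!e) q' = 2 := by
            have := (hl' (!e)).head_le
            rw [Ln.wdd_zero, Ln.wdd_zero, beq_not, h3] at this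
            revert this; generalize w.lt (!e) q' = y; revert y; decide
          have hlk : Lk w Y o' (!e) q' (st (e == o') b) := ⟨by rw [h4, beq_not, h3], by rw [h4]; decide⟩
          have h5 := hq'.of_lk hlk
          rw [beq_not, st_not_st] at h5
          have h6 := h5.unique_left hq
          have h7 := hlk.back
          rw [Bool.not_not, beq_not, st_not_st, h6] at h7
          exact hw0 (by rw [h7.1, hy0])
        · rw [if_neg (fun hh => hy0 hh.1)]
  · constructor
    · intro i n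
      rw [push_zero h]; simp
    · intro α n
      rw [push_zero h, LinearMap.zero_apply]
      symm
      refine Finset.sum_eq_zero ?_
      intro e' _
      obtain ⟨e, he⟩ : ∃ e, (e == o') = e' := ⟨e' == o', beq_beq_self _ _⟩
      subst he
      by_cases hy0 : Y.lt (e == o') b = 0
      · rw [push_zero]
        · simp
        rintro ⟨q', hq'⟩
        have hl' : LeD w Y o' q' (st (e == o') b) := hq'.le.2 hle
        have h3 : Y.lt (!(e == o')) (st (e == o') b) = 2 := by rw [Ln.lt_back, hy0]; rfl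
        have h4 : w.lt (!e) q' = 2 := by
          have := (hl' (!e)).head_le
          rw [Ln.wdd_zero, Ln.wdd_zero, beq_not, h3] at this
          revert this; generalize w.lt (!e) q' = y; revert y; decide
        have hlk : Lk w Y o' (!e) q' (st (e == o') b) := ⟨by rw [h4, beq_not, h3], by rw [h4]; decide⟩
        have h5 := hq'.of_lk hlk
        rw [beq_not, st_not_st] at h5
        exact h ⟨_, h5⟩
      · rw [if_neg (fun hh => hy0 hh.1)]

end

end StrAlg
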