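import Mathlib

/-!
# Decidability of the theory of modules over a string algebra: basic definitions

* `Dat`            a finite quiver with a finite list of zero relations (paths);
* `Dat.IsString`   the conditions making `kQ/I` a (finite dimensional) string algebra;
* `Alg D k`        the algebra `kQ/I`;
* `Tm`, `Fm`       the first-order language of right modules (a unary symbol for every element of the algebra);
* `Fm.code`        the Goedel code of a formula (Polish notation over a countable alphabet);
* `QMod`           the same modules seen as vector spaces with operators.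
-/

namespace StrAlg

/-- A finite quiver (vertices `Fin nV`, arrows `Fin nE`) with a finite list of paths (the zero relations).
A path is a list of arrows `[a₁, …, aₙ]`, `a₁` first. -/
structure Dat where
  nV : ℕ
  nE : ℕ
  src : Fin nE → Fin nV
  tgt : Fin nE → Fin nV
  rel : List (List (Fin nE))

/-- `l` is a path: consecutive arrows are composable. -/
def Dat.IsPath (D : Dat) (l : List (Fin D.nE)) : Prop :=
  l.IsChain (fun a b => D.tgt a = D.src b)

/-- `D` presents a string algebra. -/
structure Dat.IsString (D : Dat) : Prop where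
  /-- the relations are paths of length at least two -/
  rel_path : ∀ r ∈ D.rel, 2 ≤ r.length ∧ D.IsPath r
  /-- the ideal contains all sufficiently long paths, so it is admissible -/
  adm : ∃ m : ℕ, ∀ l : List (Fin D.nE), D.IsPath l → m ≤ l.length → ∃ r ∈ D.rel, r <:+: l
  /-- at most two incoming arrows -/
  in_le : ∀ i : Fin D.nV, (Finset.univ.filter (fun a => D.tgt a = i)).card ≤ 2
  /-- at most two outgoing arrows -/
  out_le : ∀ i : Fin D.nV, (Finset.univ.filter (fun a => D.src a = i)).card ≤ 2
  /-- for each arrow `b` at most one arrow `a` with `ab ∉ I` -/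
  pre_unique : ∀ b a a' : Fin D.nE, D.tgt a = D.src b → D.tgt a' = D.src b →
    [a, b] ∉ D.rel → [a', b] ∉ D.rel → a = a'
  /-- for each arrow `b` at most one arrow `c` with `bc ∉ I` -/
  post_unique : ∀ b c c' : Fin D.nE, D.tgt b = D.src c → D.tgt b = D.src c' →
    [b, c] ∉ D.rel → [b, c'] ∉ D.rel → c = c'

/-- Generators of the algebra: the idempotents `e_i` and the arrows. -/
abbrev Dat.Gen (D : Dat) : Type := Fin D.nV ⊕ Fin D.nE

section algebra
variable (D : Dat) (k : Type) [Field k]

/-- the idempotent of the vertex `i` in the free algebra -/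
def Dat.fe (i : Fin D.nV) : FreeAlgebra k D.Gen := FreeAlgebra.ι k (Sum.inl i)
/-- the arrow `a` in the free algebra -/
def Dat.fx (a : Fin D.nE) : FreeAlgebra k D.Gen := FreeAlgebra.ι k (Sum.inr a)

/-- The defining relations of the path algebra modulo the zero relations. -/
inductive Dat.Rel : FreeAlgebra k D.Gen → FreeAlgebra k D.Gen → Prop
  | idem (i : Fin D.nV) : Dat.Rel (D.fe k i * D.fe k i) (D.fe k i)
  | orth (i j : Fin D.nV) (h : i ≠ j) : Dat.Rel (D.fe k i * D.fe k j) 0
  | one : Dat.Rel (∑ i, D.fe k i) 1
  | src (a : Fin D.nE) : Dat.Rel (D.fe k (D.src a) * D.fx k a) (D.fx k a)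
  | tgt (a : Fin D.nE) : Dat.Rel (D.fx k a * D.fe k (D.tgt a)) (D.fx k a)
  | rel (r : List (Fin D.nE)) (h : r ∈ D.rel) : Dat.Rel ((r.map (D.fx k)).prod) 0

/-- The algebra `A = kQ/I`. -/
abbrev Alg : Type := RingQuot (D.Rel k)

/-- Codes of elements of the algebra: finite formal sums of scalar multiples of products of generators. -/
abbrev ElCode : Type := List (k × List D.Gen)

/-- The element of the free algebra denoted by a code. -/
def ElCode.freeEval (c : ElCode D k) : FreeAlgebra k D.Gen :=
  (c.map (fun t => t.1 • (t.2.map (FreeAlgebra.ι k)).prod)).sum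

/-- The element of the algebra denoted by a code. -/
def ElCode.eval (c : ElCode D k) : Alg D k :=
  RingQuot.mkAlgHom k (D.Rel k) (ElCode.freeEval D k c)

/-- Terms of the language of right `A`-modules; the variables are de Bruijn indices. -/
inductive Tm
  | var (n : ℕ)
  | zero
  | add (s t : Tm)
  | act (c : ElCode D k) (t : Tm)

/-- Formulas of the language of right `A`-modules; `all φ` binds the variable `0` of `φ`. -/
inductive Fm
  | eq (s t : Tm D k)
  | fls
  | imp (φ ψ : Fm)
  | all (φ : Fm)

variable {D k}

/-- all variables of the term are `< n` -/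
def Tm.Below : Tm D k → ℕ → Prop
  | .var m, n => m < n
  | .zero, _ => True
  | .add s t, n => s.Below n ∧ t.Below n
  | .act _ t, n => t.Below n

/-- all free variables of the formula are `< n` -/
def Fm.Below : Fm D k → ℕ → Prop
  | .eq s t, n => s.Below n ∧ t.Below n
  | .fls, _ => True
  | .imp φ ψ, n => φ.Below n ∧ ψ.Below n
  | .all φ, n => φ.Below (n + 1)

/-- sentences -/
def Fm.IsSentence (φ : Fm D k) : Prop := φ.Below 0

/-- value of a term in a right module -/
def Tm.val (M : Type) [AddCommGroup M] [Module (Alg D k)ᵐᵒᵖ M] (v : ℕ → M) : Tm D k → M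
  | .var n => v n
  | .zero => 0
  | .add s t => s.val M v + t.val M v
  | .act c t => MulOpposite.op (ElCode.eval D k c) • t.val M v

/-- satisfaction in a right module -/
def Fm.Sat (M : Type) [AddCommGroup M] [Module (Alg D k)ᵐᵒᵖ M] : (ℕ → M) → Fm D k → Prop
  | v, .eq s t => s.val M v = t.val M v
  | _, .fls => False
  | v, .imp φ ψ => φ.Sat M v → ψ.Sat M v
  | v, .all φ => ∀ x : M, φ.Sat M (fun n => Nat.casesOn n x v)

/-- The alphabet of the Goedel codes. -/
abbrev Sym (D : Dat) (k : Type) : Type := ℕ ⊕ List (k × List D.Gen)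

/-- Goedel code of a term (Polish notation). -/
def Tm.code : Tm D k → List (Sym D k)
  | .var n => [Sum.inl (n + 6)]
  | .zero => [Sum.inl 0]
  | .add s t => Sum.inl 1 :: (s.code ++ t.code)
  | .act c t => Sum.inr c :: t.code

/-- Goedel code of a formula (Polish notation). -/
def Fm.code : Fm D k → List (Sym D k)
  | .eq s t => Sum.inl 2 :: (s.code ++ t.code)
  | .fls => [Sum.inl 3]
  | .imp φ ψ => Sum.inl 4 :: (φ.code ++ ψ.code)
  | .all φ => Sum.inl 5 :: φ.code

end algebra

/-! ### Modules as vector spaces with operators -/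

/-- A right `A`-module seen as a `k`-vector space with operators. `op g m` is `m · g`. -/
structure QMod (D : Dat) (k : Type) [Field k] (N : Type) [AddCommGroup N] [Module k N] where
  op : D.Gen → N →ₗ[k] N
  idem : ∀ i n, op (Sum.inl i) (op (Sum.inl i) n) = op (Sum.inl i) n
  orth : ∀ i j n, i ≠ j → op (Sum.inl j) (op (Sum.inl i) n) = 0
  one : ∀ n, ∑ i, op (Sum.inl i) n = n
  src : ∀ a n, op (Sum.inr a) (op (Sum.inl (D.src a)) n) = op (Sum.inr a) n
  tgt : ∀ a n, op (Sum.inl (D.tgt a)) (op (Sum.inr a) n) = op (Sum.inr a) n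
  rel : ∀ r ∈ D.rel, ∀ n, r.foldl (fun m a => op (Sum.inr a) m) n = 0

section qmod
variable {D : Dat} {k : Type} [Field k] {N : Type} [AddCommGroup N] [Module k N]

/-- action of a word in the generators, from left to right -/
def QMod.word (Q : QMod D k N) (w : List D.Gen) (n : N) : N := w.foldl (fun m g => Q.op g m) n

/-- action of a coded element -/
def QMod.act (Q : QMod D k N) (c : ElCode D k) (n : N) : N :=
  (c.map (fun t => t.1 • Q.word t.2 n)).sum

/-- A finite system of linear equations `∑ v_{n_j} · c_j = 0` in unknowns `v 0, v 1, …`;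
it defines the pp-formula `∃ v 1, v 2, …` with free variable `v 0`. -/
abbrev PP (D : Dat) (k : Type) : Type := List (List (ElCode D k × ℕ))

/-- the system holds -/
def QMod.Sys (Q : QMod D k N) (S : PP D k) (v : ℕ → N) : Prop :=
  ∀ e ∈ S, (e.map (fun t => Q.act t.1 (v t.2))).sum = 0

/-- the set defined by the pp-formula: a subspace -/
def QMod.pp (Q : QMod D k N) (S : PP D k) : Set N := {x | ∃ v : ℕ → N, v 0 = x ∧ Q.Sys S v}

/-- the sub(k-)space defined by a pp-formula -/
def QMod.ppS (Q : QMod D k N) (S : PP D k) : Submodule k N := Submodule.span k (Q.pp S)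

/-- The rank (dimension in `ℕ∞`) of the pp-pair `(φ, ψ)` on `N`, that is of `φ(N)/(φ(N) ∩ ψ(N))`. -/
noncomputable def QMod.rank (Q : QMod D k N) (φ ψ : PP D k) : ℕ∞ :=
  Cardinal.toENat (Module.rank k (Q.ppS φ ⧸ ((Q.ppS ψ).comap (Q.ppS φ).subtype)))

end qmod

/-- homomorphisms of modules, as a predicate on linear maps -/
def IsHom {D : Dat} {k : Type} [Field k] {M N : Type} [AddCommGroup M] [Module k M] [AddCommGroup N] [Module k N]
    (P : QMod D k M) (Q : QMod D k N) (f : M →ₗ[k] N) : Prop :=
  ∀ g m, f (P.op g m) = Q.op g (f m)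

end StrAlg
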