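import Pool.Agent.Lib.MP_b9fd58_lc.CFb
import Pool.Agent.Lib.MP_b9fd58_lc.T.TE

/-!
# Classification of the finite-dimensional modules
-/

set_option autoImplicit false

namespace StrAlg

open Module

variable {D : Dat} {k : Type} [Field k] {S : Sides D}

theorem classify (hD : D.IsString) (Can : Set (Str S)) (hC : CanOK Can) (N : Md D k) (hN : FiniteDimensional k N.C) :
    ∃ (m : ℕ) (X : Fin m → Blk S k), (∀ i, (X i).x ∈ Can) ∧ (Md.pi (fun i => (X i).M)).Iso N :=
  classify_aux (fun b l hl N hN => thmT hD b l hl N hN) Can hC (finrank k N.C) N hN le_rfl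

end StrAlg
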