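import Pool.Agent.Lib.MP_b9fd58_lc.PG

/-!
# Pigeonhole
-/

set_option autoImplicit false

namespace StrAlg

variable {D : Dat} {k : Type} [Field k] {S : Sides D}

theorem pigeon (_hD : D.IsString) (q : NF S k) (P : List (NF S k)) (w : Str S) (h1 : ¬ q.Crit w)
    (h2 : ∀ p ∈ P, p.Crit w) : CertS q P := pigeon_aux q P w h1 h2

end StrAlg
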