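import Pool.Agent.Lib.MP_b9fd58_lc.Base

/-!
# Interface definitions (k arbitrary; open/closed)
-/

set_option autoImplicit false

namespace StrAlg

open Module Polynomial

variable {D : Dat} {k : Type} [Field k] {S : Sides D}

/-- `φ(N)` for the pair `p` -/
def Pr.up (p : Pr D k) (N : Md D k) : Set N.C := {x | ∃ f : p.A.C →ₗ[k] N.C, p.A.Hom N f ∧ f p.a = x}
/-- `ψ(N)` for the pair `p` -/
def Pr.dn (p : Pr D k) (N : Md D k) : Set N.C := {x | ∀ G : N.C →ₗ[k] p.B.C, N.Hom p.B G → p.b (G x) = 0}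

/-- pairs that define the same subspaces in all modules -/
def Pr.Eqv (p q : Pr D k) : Prop := ∀ N : Md D k, p.up N = q.up N ∧ p.dn N = q.dn N

/-- both modules of the pair are finite-dimensional -/
def Pr.FD (p : Pr D k) : Prop := FiniteDimensional k p.A.C ∧ FiniteDimensional k p.B.C

/-- the two positions have the same vertex and the same words -/
def Al (x y : Str S) (p q : ℤ) : Prop := x.L.v p = y.L.v q ∧ ∀ s, x.L.wd p s = y.L.wd q s

/-- A set of canonical finite strings and bands: every finite string and every bi-infinite periodic string is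
aligned with one of the set, and different bands of the set are never aligned. -/
structure CanOK (Can : Set (Str S)) : Prop where
  ex : ∀ w : Str S, (w.Fin ∨ ¬ w.Aper) → ∃ b ∈ Can, ∃ p ∈ w.Z, ∃ q ∈ b.Z, Al w b p q
  uniq : ∀ x ∈ Can, ∀ y ∈ Can, ¬ x.Aper → ∀ p ∈ x.Z, ∀ q ∈ y.Z, Al x y p q → x = y

/-- all strings of the normal form are in `Can` -/
def NF.InCan (Can : Set (Str S)) (p : NF S k) : Prop := (∀ i, (p.X i).x ∈ Can) ∧ ∀ j, (p.Y j).x ∈ Can

/-- the condition for the graph map of the match of `x` at `p` with `y` at `q` -/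
def Ord (x y : Str S) (o : Bool) (p q : ℤ) : Prop :=
  p ∈ x.Z ∧ q ∈ y.Z ∧ Mt x.L y.L o p q ∧ LeD x.L y.L o p q ∧ FinCl x.L y.L o p q

/-- `OmV y = Σ b(ι_{r+εj} y) a_{p+j} ∈ V_X` -/
noncomputable def OmV (X Y : Blk S k) (a : X.M.C) (b : Dual k Y.M.C) (o : Bool) (p r : ℤ) (y : Fin Y.n → k) :
    Fin X.n → k :=
  fun i => Om X.x.L Y.x.L (X.fn a) (Y.cf b) ((LinearMap.proj i : (Fin X.n → k) →ₗ[k] k).smulRight y) o p r

/-- `OmL φ = Σ φ(a_{p+j}) b(ι_{r+εj} ·) ∈ V_Y^*` -/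
noncomputable def OmL (X Y : Blk S k) (a : X.M.C) (b : Dual k Y.M.C) (o : Bool) (p r : ℤ) (φ : Dual k (Fin X.n → k))
    (y : Fin Y.n → k) : k :=
  Om X.x.L Y.x.L (X.fn a) (Y.cf b) (φ.smulRight y) o p r

/-- Type-2 condition for the band `c` at the polynomial `π`: the `π`-primary parts of the vectors `OmV` vanish. -/
def NF.PRgood (p : NF S k) (c : Str S) (π : k[X]) : Prop :=
  p.Crit c ∧ ∀ i j, (p.X i).x = c → ∀ (o : Bool) (q r : ℤ), Ord (p.X i).x (p.Y j).x o q r → ∀ y, ∃ g : k[X],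
    IsCoprime g π ∧
    aeval (p.X i).T.toLinearMap g (OmV (p.X i) (p.Y j) (p.a i) (p.b j) o q r y) = 0

/-- Type-2 condition fails at `π` for the band of the block `X i`. -/
def NF.PRbad (q : NF S k) (i : Fin q.m) (π : k[X]) : Prop :=
  0 < (q.X i).l ∧ ∃ (j : Fin q.m') (o : Bool) (p r : ℤ), Ord (q.X i).x (q.Y j).x o p r ∧
    ∃ (y : Fin (q.Y j).n → k) (h : k[X]),
    aeval (q.X i).T.toLinearMap h (OmV (q.X i) (q.Y j) (q.a i) (q.b j) o p r y) ≠ 0 ∧
    aeval (q.X i).T.toLinearMap (π * h) (OmV (q.X i) (q.Y j) (q.a i) (q.b j) o p r y) = 0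

/-- Type-3 condition for the band `c` at the polynomial `π`. -/
def NF.ADgood (p : NF S k) (c : Str S) (π : k[X]) : Prop :=
  p.Crit c ∧ ∀ i j, (p.Y j).x = c → ∀ (o : Bool) (q r : ℤ), Ord (p.X i).x (p.Y j).x o q r → ∀ φ, ∃ g : k[X],
    IsCoprime g π ∧
    ∀ y, OmL (p.X i) (p.Y j) (p.a i) (p.b j) o q r φ (aeval (p.Y j).T.toLinearMap g y) = 0

/-- Type-3 condition fails at `π` for the band of the block `Y j`. -/
def NF.ADbad (q : NF S k) (j : Fin q.m') (π : k[X]) : Prop :=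
  0 < (q.Y j).l ∧ ∃ (i : Fin q.m) (o : Bool) (p r : ℤ), Ord (q.X i).x (q.Y j).x o p r ∧
    ∃ (φ : Dual k (Fin (q.X i).n → k)) (h : k[X]),
    (∃ y, OmL (q.X i) (q.Y j) (q.a i) (q.b j) o p r φ (aeval (q.Y j).T.toLinearMap h y) ≠ 0) ∧
    (∀ y, OmL (q.X i) (q.Y j) (q.a i) (q.b j) o p r φ (aeval (q.Y j).T.toLinearMap (π * h) y) = 0)

/-- an ultimately periodic word, or a finite one -/
def Wd.UP (u : Wd) : Prop := ∃ N P : ℕ, 0 < P ∧ ∀ n ≥ N, u (n + P) = u n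

/-- `q` can be open while all pairs of `P` are closed -/
def Rlz (q : NF S k) (P : List (NF S k)) : Prop := ∃ N : Md D k, q.pr.Opn N ∧ ∀ p ∈ P, ¬ p.pr.Opn N

/-- bands of `p` aligned with `c` are equal to `c` -/
def NF.Sep (p : NF S k) (c : Str S) : Prop :=
  (∀ i, (∃ r ∈ (p.X i).x.Z, ∃ r' ∈ c.Z, Al (p.X i).x c r r') → (p.X i).x = c) ∧
  (∀ j, (∃ r ∈ (p.Y j).x.Z, ∃ r' ∈ c.Z, Al (p.Y j).x c r r') → (p.Y j).x = c)

/-- certificate: a finite-dimensional module -/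
def CertF (q : NF S k) (P : List (NF S k)) : Prop :=
  ∃ N : Md D k, FiniteDimensional k N.C ∧ q.pr.Opn N ∧ ∀ p ∈ P, ¬ p.pr.Opn N
/-- certificate: an ultimately periodic string -/
def CertS (q : NF S k) (P : List (NF S k)) : Prop :=
  ∃ w : Str S, (∀ s, (w.L.wd 0 s).UP) ∧ ¬ q.Crit w ∧ ∀ p ∈ P, p.Crit w
/-- certificate: a band with the coefficient module `R[1/π]/R` -/
def CertP (q : NF S k) (P : List (NF S k)) : Prop :=
  ∃ (i : Fin q.m) (π : k[X]), 0 < π.natDegree ∧ π.coeff 0 ≠ 0 ∧ q.PRbad i π ∧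
    ∀ p ∈ P, p.PRgood (q.X i).x π ∧ p.Sep (q.X i).x
/-- certificate: a band with the coefficient module `R` localised at the elements prime to `π` -/
def CertA (q : NF S k) (P : List (NF S k)) : Prop :=
  ∃ (j : Fin q.m') (π : k[X]), 0 < π.natDegree ∧ π.coeff 0 ≠ 0 ∧ q.ADbad j π ∧
    ∀ p ∈ P, p.ADgood (q.Y j).x π ∧ p.Sep (q.Y j).x

end StrAlg
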