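import Pool.Agent.Lib.MP_b9fd58_lc.GPer
import Pool.Agent.Lib.MP_b9fd58_lc.IfDefs

/-!
# Periodic strings: closedness and openness
-/

set_option autoImplicit false

namespace StrAlg

open Module

variable {D : Dat} {k : Type} [Field k] {S : Sides D}

theorem minpoly_ne {V : Type} [AddCommGroup V] [Module k V] [Module.Finite k V] (E : Module.End k V) :
    ∃ μ : Polynomial k, μ ≠ 0 ∧ Polynomial.aeval E μ = 0 :=
  ⟨minpoly k E, minpoly.ne_zero (Algebra.IsIntegral.isIntegral E), minpoly.aeval k E⟩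

/-- kernels of homomorphisms between line modules -/
theorem kerE_isKer0 {x y : Str S} {lX lY : ℕ} {VX VY : Type} [AddCommGroup VX] [Module k VX] [AddCommGroup VY]
    [Module k VY] {TX : VX ≃ₗ[k] VX} {TY : VY ≃ₗ[k] VY} (hx : x.PerOK lX TX) (hy : y.PerOK lY TY)
    {f : (x.ME lX TX hx).C →ₗ[k] (y.ME lY TY hy).C} (hf : (x.ME lX TX hx).Hom (y.ME lY TY hy) f) :
    IsKer0 x.L y.L (fun p q => xiE hy q ∘ₗ (f ∘ₗ ioE hx p)) := by
  refine (ker_KH (fun a v => ioE_map_ch hx hf a v) (xiE_dc hy) ?_ ?_).isKer0 x.ok y.ok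
  · intro p hp
    refine x.Zabs p (ioE_ne hx ?_)
    rintro h0
    apply hp; rw [h0, LinearMap.comp_zero]
  · intro q hq
    exact y.Zabs q (xiE_ne hy hq)

theorem kerE_add_left {x y : Str S} {lX lY : ℕ} {VX VY : Type} [AddCommGroup VX] [Module k VX] [AddCommGroup VY]
    [Module k VY] {TX : VX ≃ₗ[k] VX} {TY : VY ≃ₗ[k] VY} (hx : x.PerOK lX TX) (hy : y.PerOK lY TY)
    (f : (x.ME lX TX hx).C →ₗ[k] (y.ME lY TY hy).C) (p q : ℤ) (v : VX) :
    (xiE hy q ∘ₗ (f ∘ₗ ioE hx (p + lX))) v = (xiE hy q ∘ₗ (f ∘ₗ ioE hx p)) (TX v) := by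
  show xiE hy q (f (ioE hx (p + lX) v)) = xiE hy q (f (ioE hx p (TX v)))
  rw [ioE_add_l]

theorem kerE_add_right {x y : Str S} {lX lY : ℕ} {VX VY : Type} [AddCommGroup VX] [Module k VX] [AddCommGroup VY]
    [Module k VY] {TX : VX ≃ₗ[k] VX} {TY : VY ≃ₗ[k] VY} (hx : x.PerOK lX TX) (hy : y.PerOK lY TY)
    (f : (x.ME lX TX hx).C →ₗ[k] (y.ME lY TY hy).C) (p q : ℤ) (v : VX) :
    TY ((xiE hy (q + lY) ∘ₗ (f ∘ₗ ioE hx p)) v) = (xiE hy q ∘ₗ (f ∘ₗ ioE hx p)) v :=
  cfE_per hy _ q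

/-- kernels from a f.d. line module to the module with coefficients in the Laurent series -/
theorem kerE_inf_left {x w : Str S} {lX l : ℕ} {VX : Type} [AddCommGroup VX] [Module k VX] [Module.Finite k VX]
    {TX : VX ≃ₗ[k] VX} (hx : x.PerOK lX TX) (hw : w.PerOK l (TL k)) (finX : lX = 0 → x.Z.Finite)
    {f : (x.ME lX TX hx).C →ₗ[k] (w.ME l (TL k) hw).C} (hf : (x.ME lX TX hx).Hom (w.ME l (TL k) hw) f) :
    IsKer x.L w.L (fun p q => xiE hw q ∘ₗ (f ∘ₗ ioE hx p)) := by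
  have hK := kerE_isKer0 hx hw hf
  rcases Nat.eq_zero_or_pos lX with h0 | h0
  · exact hK.isKer_of_fn' (Str.fn_of_fin (finX h0))
  · refine hK.isKer ?_
    intro o e p q hm hinf
    obtain ⟨S', hS⟩ := inf_rel_left hK (kerE_add_left hx hw f) (kerE_add_right hx hw f) hm hinf
    obtain ⟨μ, hμ, hμ0⟩ := minpoly_ne (k := k) S'.toLinearMap
    obtain ⟨a, ha, hav⟩ := TL_poly k h0 hμ
    refine LinearMap.ext fun v => ?_
    have h1 := poly_inter (K := xiE hw q ∘ₗ (f ∘ₗ ioE hx p)) (E := S'.toLinearMap)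
      (F := (TL k ^ (lX : ℤ)).toLinearMap) hS μ v
    rw [hμ0, hav, LinearMap.zero_apply, map_zero] at h1
    rcases mul_eq_zero.1 h1 with h2 | h2
    · exact absurd h2 ha
    · exact h2

/-- kernels from the module with coefficients in the Laurent series to a f.d. line module -/
theorem kerE_inf_right {w y : Str S} {l lY : ℕ} {VY : Type} [AddCommGroup VY] [Module k VY] [Module.Finite k VY]
    {TY : VY ≃ₗ[k] VY} (hw : w.PerOK l (TL k)) (hy : y.PerOK lY TY) (finY : lY = 0 → y.Z.Finite)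
    {G : (w.ME l (TL k) hw).C →ₗ[k] (y.ME lY TY hy).C} (hG : (w.ME l (TL k) hw).Hom (y.ME lY TY hy) G) :
    IsKer w.L y.L (fun q r => xiE hy r ∘ₗ (G ∘ₗ ioE hw q)) := by
  have hK := kerE_isKer0 hw hy hG
  rcases Nat.eq_zero_or_pos lY with h0 | h0
  · exact hK.isKer_of_fn (Str.fn_of_fin (finY h0))
  · refine hK.isKer ?_
    intro o e q r hm hinf
    obtain ⟨S', hS⟩ := inf_rel_right hK (kerE_add_left hw hy G) (kerE_add_right hw hy G) hm hinf
    obtain ⟨μ, hμ, hμ0⟩ := minpoly_ne (k := k) S'.toLinearMap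
    obtain ⟨a, ha, hav⟩ := TL_poly k h0 hμ
    refine LinearMap.ext fun v => ?_
    have h1 := poly_inter (K := xiE hy r ∘ₗ (G ∘ₗ ioE hw q)) (F := S'.toLinearMap)
      (E := (TL k ^ (lY : ℤ)).toLinearMap) (fun v => (hS v).symm) μ (a⁻¹ * v)
    rw [hμ0, hav, mul_inv_cancel_left₀ ha, LinearMap.zero_apply] at h1
    exact h1.symm

/-- **closedness on the band module with coefficients in the Laurent series** -/
theorem closed_ME_core {x w y : Str S} {lX l lY : ℕ} {VX VY : Type} (hl : 0 < l)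
    [AddCommGroup VX] [Module k VX] [Module.Finite k VX] [AddCommGroup VY] [Module k VY] [Module.Finite k VY]
    {TX : VX ≃ₗ[k] VX} {TY : VY ≃ₗ[k] VY} (hx : x.PerOK lX TX) (hw : w.PerOK l (TL k)) (hy : y.PerOK lY TY)
    (finX : lX = 0 → x.Z.Finite) (finY : lY = 0 → y.Z.Finite)
    (a : (x.ME lX TX hx).C) (b : (y.ME lY TY hy).C →ₗ[k] k)
    (hc : Crit x.L w.L y.L (fun p => p ∈ x.Z) (fun q => q ∈ w.Z) (fun r => r ∈ y.Z) (cfE hx a)
      (fun r => b ∘ₗ ioE hy r))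
    (f : (x.ME lX TX hx).C →ₗ[k] (w.ME l (TL k) hw).C) (G : (w.ME l (TL k) hw).C →ₗ[k] (y.ME lY TY hy).C)
    (hf : (x.ME lX TX hx).Hom (w.ME l (TL k) hw) f) (hG : (w.ME l (TL k) hw).Hom (y.ME lY TY hy) G) :
    b (G (f a)) = 0 := by
  classical
  have hA := repZ_spec x lX finX
  have hB := repZ_spec w l (fun h => absurd h hl.ne')
  have hC := repZ_spec y lY finY
  have hreg := reg_zero x.L w.L y.L lX l lY hx.per hw.per hy.per (cfE hx a) (fun r => b ∘ₗ ioE hy r)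
    (fun p q => xiE hw q ∘ₗ (f ∘ₗ ioE hx p)) (fun q r => xiE hy r ∘ₗ (G ∘ₗ ioE hw q))
    (kerE_inf_left hx hw finX hf) (kerE_inf_right hw hy finY hG) ?_ ?_ ?_
    (PX := fun p => p ∈ x.Z) (Pw := fun q => q ∈ w.Z) (PY := fun r => r ∈ y.Z) ?_ ?_ hc.critL
    (repZ x lX finX) (repZ w l (fun h => absurd h hl.ne')) (repZ y lY finY) ?_ ?_ ?_
  · rw [← hreg]
    conv_lhs => rw [ME_decomp hx a _ hA, map_sum, map_sum, map_sum]
    refine Finset.sum_congr rfl (fun p _ => ?_)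
    conv_lhs => rw [ME_decomp hw (f (ioE hx (cst p) (cfE hx a (cst p)))) _ hB, map_sum, map_sum]
    refine Finset.sum_congr rfl (fun q _ => ?_)
    conv_lhs => rw [ME_decomp hy (G (ioE hw (cst q) _)) _ hC, map_sum]
    rfl
  · intro q r p
    show b (ioE hy r (xiE hy r (G (ioE hw q (xiE hw q (f (ioE hx (p + lX) (cfE hx a (p + lX))))))))) =
      b (ioE hy r (xiE hy r (G (ioE hw q (xiE hw q (f (ioE hx p (cfE hx a p))))))))
    rw [ioE_add_l, cfE_per hx a p]
  · intro p r q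
    show b (ioE hy r (xiE hy r (G (ioE hw (q + l) (cfE hw (f (ioE hx p (cfE hx a p))) (q + l)))))) =
      b (ioE hy r (xiE hy r (G (ioE hw q (cfE hw (f (ioE hx p (cfE hx a p))) q)))))
    rw [ioE_add_l, cfE_per hw _ q]
  · intro p q r
    show b (ioE hy (r + lY) (cfE hy (G (ioE hw q (xiE hw q (f (ioE hx p (cfE hx a p)))))) (r + lY))) =
      b (ioE hy r (cfE hy (G (ioE hw q (xiE hw q (f (ioE hx p (cfE hx a p)))))) r))
    rw [ioE_add_l, cfE_per hy _ r]
  · intro p q hne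
    constructor
    · refine ioE_ne hx ?_
      intro h0
      apply hne
      rw [h0, LinearMap.comp_zero, LinearMap.comp_zero]
    · refine xiE_ne hw ?_
      intro h0
      apply hne
      rw [h0, LinearMap.zero_comp]
  · intro q r hne
    refine xiE_ne hy ?_
    intro h0
    apply hne
    rw [h0, LinearMap.zero_comp]
  · intro p hp q r
    have h0 : ioE hx (cst p) = 0 := ioE_zero hx (hA p hp)
    simp only [h0, LinearMap.comp_zero, LinearMap.zero_apply, map_zero]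
  · intro q hq p r
    have h0 : ioE hw (cst q) = 0 := ioE_zero hw (hB q hq)
    simp only [h0, LinearMap.comp_zero, LinearMap.zero_apply, map_zero]
  · intro r hr p q
    have h0 : ioE hy (cst r) = 0 := ioE_zero hy (hC r hr)
    simp only [h0, LinearMap.comp_zero, LinearMap.zero_apply]

/-! ### openness -/

/-- the chain and the dual chain of the band module with coefficients in the Laurent series -/
theorem delta_ME {w : Str S} {l : ℕ} (hl : 0 < l) (hw : w.PerOK l (TL k)) {q q' : ℤ} (hq : q ∈ w.Z) :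
    (cofLS k 0 ∘ₗ xiE hw q') (ioE hw q 1) = if q = q' then 1 else 0 := by
  show cofLS k 0 (cfE hw (ioE hw q 1) q') = _
  rw [cfE_ioE hw hq, LB.spr_apply]
  show cofLS k 0 (if ((l : ℤ) ∣ q - q') then ((TL k) ^ ((q - q') / (l : ℤ))) 1 else 0) = _
  have hl' : (l : ℤ) ≠ 0 := by exact_mod_cast hl.ne'
  split_ifs with h1 h2 h2
  · subst h2
    rw [cof_TL, if_pos]
    simp
  · rw [cof_TL, if_neg]
    intro h3
    apply h2
    have := Int.mul_ediv_cancel' h1
    rw [h3, mul_zero] at this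
    linarith
  · exfalso
    apply h1
    rw [h2, sub_self]
    exact dvd_zero _
  · exact map_zero _

theorem opn_ME (w : Str S) {l : ℕ} (hl : 0 < l) (hw : w.PerOK l (TL k)) (p : NF S k) (hp : ¬ p.Crit w) :
    p.pr.Opn (w.ME l (TL k) hw) :=
  NF.opn_of_delta w _ p hp (z := fun q => ioE hw q 1) (ξ := fun q => cofLS k 0 ∘ₗ xiE hw q)
    (fun q => ioE_ch hw q 1) (fun q => DcW_iff.1 ((xiE_dc hw q).post (cofLS k 0)))
    (fun _ _ hq _ => delta_ME hl hw hq)

theorem opn_Mloc (w : Str S) (p : NF S k) (hp : ¬ p.Crit w) : p.pr.Opn (w.Mloc k) :=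
  NF.opn_of_delta w _ p hp (z := zL w) (ξ := xiL w) (zL_ch w) (xiL_dc w)
    (fun q q' hq hq' => by rw [xiL_zL w hq])

/-! ### assembly -/

theorem CritB.crit {X Y : Blk S k} {a : X.M.C} {b : Dual k Y.M.C} {w : Str S} (h : CritB X Y a b w) :
    Crit X.x.L w.L Y.x.L (fun p => p ∈ X.x.Z) (fun q => q ∈ w.Z) (fun r => r ∈ Y.x.Z) (cfE X.ok a)
      (fun r => (show (Y.x.ME Y.l Y.T Y.ok).C →ₗ[k] k from b) ∘ₗ ioE Y.ok r) := by
  have e : (fun r => (show (Y.x.ME Y.l Y.T Y.ok).C →ₗ[k] k from b) ∘ₗ ioE Y.ok r) = Y.cf b := by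
    funext r
    rw [← Blk.iota_eq]; rfl
  rw [e]
  exact h

theorem closed_nf_Mloc (w : Str S) (hw : w.Aper) (p : NF S k) (hp : p.Crit w) : ¬ p.pr.Opn (w.Mloc k) := by
  rw [NF.opn_iff]
  rintro ⟨i, j, f, G, hf, hG, hne⟩
  exact hne (closed_Mloc_core w hw (p.X i).ok (p.Y j).ok (p.X i).fin (p.Y j).fin (fun hl => (p.Y j).prim hl)
    (p.a i) (p.b j) (hp i j).crit f G hf hG)

theorem closed_nf_ME (w : Str S) {l : ℕ} (hl : 0 < l) (hw : w.PerOK l (TL k)) (p : NF S k) (hp : p.Crit w) :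
    ¬ p.pr.Opn (w.ME l (TL k) hw) := by
  rw [NF.opn_iff]
  rintro ⟨i, j, f, G, hf, hG, hne⟩
  exact hne (closed_ME_core hl (p.X i).ok hw (p.Y j).ok (p.X i).fin (p.Y j).fin
    (p.a i) (p.b j) (hp i j).crit f G hf hG)

/-- **the certificate by strings is sound** -/
theorem soundS (q : NF S k) (P : List (NF S k)) (w : Str S) (h1 : ¬ q.Crit w) (h2 : ∀ p ∈ P, p.Crit w) : Rlz q P := by
  by_cases hw : w.Aper
  · exact ⟨w.Mloc k, opn_Mloc w q h1, fun p hp => closed_nf_Mloc w hw p (h2 p hp)⟩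
  · unfold Str.Aper at hw
    push Not at hw
    obtain ⟨l, hl, hper⟩ := hw
    have hok : w.PerOK l (TL k) := ⟨hper.1, fun _ => hper.2, fun h0 => absurd h0 hl.ne'⟩
    exact ⟨w.ME l (TL k) hok, opn_ME w hl hok q h1, fun p hp => closed_nf_ME w hl hok p (h2 p hp)⟩


end StrAlg
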