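import Pool.Agent.Lib.MP_b9fd58_lc.KReB
import Pool.Agent.Lib.MP_b9fd58_lc.IfDefs

/-!
# Realisation of pp-pairs by finite-dimensional modules
-/

set_option autoImplicit false

namespace StrAlg

open Module

variable {D : Dat} {k : Type} [Field k]

section KReCaux
variable {N : Type} [AddCommGroup N] [Module k N]

/-- the action of a word as a linear map -/
def KReC_wordL (Q : QMod D k N) : List D.Gen → (N →ₗ[k] N)
  | [] => LinearMap.id
  | g :: w => KReC_wordL Q w ∘ₗ Q.op g

theorem KReC_wordL_apply (Q : QMod D k N) (w : List D.Gen) (n : N) :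
    KReC_wordL Q w n = Q.word w n := by
  induction w generalizing n with
  | nil => rfl
  | cons g w ih => exact ih _

/-- the action of a code as a linear map -/
def KReC_actL (Q : QMod D k N) (c : ElCode D k) : N →ₗ[k] N :=
  (c.map (fun t => t.1 • KReC_wordL Q t.2)).sum

theorem KReC_actL_apply (Q : QMod D k N) (c : ElCode D k) (n : N) :
    KReC_actL Q c n = Q.act c n := by
  unfold KReC_actL QMod.act
  induction c with
  | nil => rfl
  | cons t c ih =>
    rw [List.map_cons, List.sum_cons, List.map_cons, List.sum_cons, LinearMap.add_apply, ih,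
      LinearMap.smul_apply, KReC_wordL_apply]

/-- the code of the opposite algebra -/
def KReC_rev (c : ElCode D k) : ElCode D.op k := c.map (fun t => (t.1, t.2.reverse))

theorem KReC_act_rev (Q : QMod D k N) (c : ElCode D k) (μ : Dual k N) (n : N) :
    (Q.dual.act (KReC_rev c) μ) n = μ (KReC_actL Q c n) := by
  rw [KReC_actL_apply]
  unfold QMod.act KReC_rev
  induction c with
  | nil => exact (map_zero μ).symm
  | cons t c ih =>
    rw [List.map_cons, List.map_cons, List.sum_cons, List.map_cons, List.sum_cons, map_add,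
      LinearMap.add_apply, ih, map_smul, LinearMap.smul_apply]
    congr 2
    exact foldl_dual (fun g => Q.op g) t.2 μ n

/-- the coefficient of the variable `j` in the equation `e` -/
def KReC_H (Q : QMod D k N) (e : List (ElCode D k × ℕ)) (j : ℕ) : N →ₗ[k] N :=
  ((e.filter (fun t => t.2 = j)).map (fun t => KReC_actL Q t.1)).sum

theorem KReC_H_cons (Q : QMod D k N) (t : ElCode D k × ℕ) (e : List (ElCode D k × ℕ)) (j : ℕ) :
    KReC_H Q (t :: e) j = (if t.2 = j then KReC_actL Q t.1 else 0) + KReC_H Q e j := by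
  unfold KReC_H
  by_cases h : t.2 = j
  · rw [List.filter_cons_of_pos (by simpa using h), if_pos h, List.map_cons, List.sum_cons]
  · rw [List.filter_cons_of_neg (by simpa using h), if_neg h, zero_add]

theorem KReC_eq_sum (Q : QMod D k N) (e : List (ElCode D k × ℕ)) (J : ℕ)
    (hJ : ∀ t ∈ e, t.2 < J) (v : ℕ → N) :
    (e.map (fun t => Q.act t.1 (v t.2))).sum = ∑ j ∈ Finset.range J, KReC_H Q e j (v j) := by
  induction e with
  | nil => simp [KReC_H]
  | cons t e ih =>
    have ht : t.2 ∈ Finset.range J := Finset.mem_range.2 (hJ t List.mem_cons_self)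
    rw [List.map_cons, List.sum_cons, ih (fun s hs => hJ s (List.mem_cons_of_mem _ hs))]
    simp only [KReC_H_cons, LinearMap.add_apply, Finset.sum_add_distrib]
    congr 1
    rw [Finset.sum_eq_single t.2]
    · rw [if_pos rfl, KReC_actL_apply]
    · intro j _ hj
      rw [if_neg (Ne.symm hj)]
      rfl
    · intro h
      exact absurd ht h

theorem KReC_dual_sum (Q : QMod D k N) (e : List (ElCode D k × ℕ)) (j : ℕ) (μ : Dual k N) (n : N) :
    (((e.filter (fun t => t.2 = j)).map (fun t => Q.dual.act (KReC_rev t.1) μ)).sum) n =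
      μ (KReC_H Q e j n) := by
  unfold KReC_H
  generalize e.filter (fun t => t.2 = j) = l
  induction l with
  | nil => exact (map_zero μ).symm
  | cons t l ih =>
    rw [List.map_cons, List.sum_cons, List.map_cons, List.sum_cons, LinearMap.add_apply,
      LinearMap.add_apply, map_add, ih, KReC_act_rev]

/-- the equation of the dual formula for the variable `j` -/
def KReC_eqn (ψ : PP D k) (j : ℕ) : List (ElCode D.op k × ℕ) :=
  (if j = 0 then [([((-1 : k), [])], 0)] else []) ++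
    (List.finRange ψ.length).flatMap (fun e : Fin ψ.length =>
      ((ψ.get e).filter (fun t => t.2 = j)).map (fun t => (KReC_rev t.1, (e : ℕ) + 1)))

theorem KReC_flat (Q : QMod D k N) (ψ : PP D k) (j : ℕ) (v : ℕ → Dual k N)
    (l : List (Fin ψ.length)) (n : N) :
    (((l.flatMap (fun e : Fin ψ.length =>
      ((ψ.get e).filter (fun t => t.2 = j)).map (fun t => (KReC_rev t.1, (e : ℕ) + 1)))).map
        (fun t => Q.dual.act t.1 (v t.2))).sum) n =
      (l.map (fun e : Fin ψ.length => v ((e : ℕ) + 1) (KReC_H Q (ψ.get e) j n))).sum := by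
  induction l with
  | nil => rfl
  | cons e l ih =>
    rw [List.flatMap_cons, List.map_append, List.sum_append, LinearMap.add_apply, ih,
      List.map_cons, List.sum_cons, ← KReC_dual_sum, List.map_map]
    rfl

theorem KReC_eqn_sum (Q : QMod D k N) (ψ : PP D k) (j : ℕ) (v : ℕ → Dual k N) (n : N) :
    (((KReC_eqn ψ j).map (fun t => Q.dual.act t.1 (v t.2))).sum) n =
      (if j = 0 then - v 0 n else 0) +
        ∑ e : Fin ψ.length, v ((e : ℕ) + 1) (KReC_H Q (ψ.get e) j n) := by
  unfold KReC_eqn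
  rw [List.map_append, List.sum_append, LinearMap.add_apply, KReC_flat]
  congr 1
  · by_cases h : j = 0
    · rw [if_pos h, if_pos h]
      simp [QMod.act, QMod.word]
    · rw [if_neg h, if_neg h]
      rfl

end KReCaux

theorem KReC_bound (ψ : PP D k) : ∃ J : ℕ, ∀ e ∈ ψ, ∀ t ∈ e, t.2 < J + 1 := by
  have h1 : ∀ l : List (ElCode D k × ℕ), ∃ J : ℕ, ∀ t ∈ l, t.2 < J + 1 := by
    intro l
    induction l with
    | nil => exact ⟨0, fun t ht => absurd ht List.not_mem_nil⟩
    | cons s l ih =>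
      obtain ⟨J, hJ⟩ := ih
      refine ⟨max J s.2, fun t ht => ?_⟩
      rcases List.mem_cons.1 ht with rfl | ht
      · omega
      · have := hJ t ht
        omega
  induction ψ with
  | nil => exact ⟨0, fun e he => absurd he List.not_mem_nil⟩
  | cons e ψ ih =>
    obtain ⟨J, hJ⟩ := ih
    obtain ⟨J', hJ'⟩ := h1 e
    refine ⟨max J J', fun f hf t ht => ?_⟩
    rcases List.mem_cons.1 hf with rfl | hf
    · have := hJ' t ht
      omega
    · have := hJ f hf t ht
      omega

section KReCmain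
variable {N : Type} [AddCommGroup N] [Module k N]

/-- the bound part of the system -/
def KReC_T (Q : QMod D k N) (ψ : PP D k) (J : ℕ) : (Fin J → N) →ₗ[k] (Fin ψ.length → N) :=
  LinearMap.pi (fun e => ∑ j : Fin J, KReC_H Q (ψ.get e) ((j : ℕ) + 1) ∘ₗ LinearMap.proj j)

theorem KReC_T_apply (Q : QMod D k N) (ψ : PP D k) (J : ℕ) (w : Fin J → N) (e : Fin ψ.length) :
    KReC_T Q ψ J w e = ∑ j : Fin J, KReC_H Q (ψ.get e) ((j : ℕ) + 1) (w j) := by
  unfold KReC_T
  rw [LinearMap.pi_apply, LinearMap.sum_apply]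
  rfl

/-- the free part of the system -/
def KReC_h (Q : QMod D k N) (ψ : PP D k) : N →ₗ[k] (Fin ψ.length → N) :=
  LinearMap.pi (fun e => KReC_H Q (ψ.get e) 0)

theorem KReC_sys_iff (Q : QMod D k N) (ψ : PP D k) (J : ℕ)
    (hJ : ∀ e ∈ ψ, ∀ t ∈ e, t.2 < J + 1) (v : ℕ → N) :
    Q.Sys ψ v ↔ KReC_h Q ψ (v 0) + KReC_T Q ψ J (fun j => v ((j : ℕ) + 1)) = 0 := by
  have key : ∀ e : Fin ψ.length, ((ψ.get e).map (fun t => Q.act t.1 (v t.2))).sum =
      (KReC_h Q ψ (v 0) + KReC_T Q ψ J (fun j => v ((j : ℕ) + 1))) e := by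
    intro e
    rw [KReC_eq_sum Q (ψ.get e) (J + 1) (hJ _ (List.get_mem _ _)) v, Finset.sum_range_succ',
      Pi.add_apply, KReC_T_apply, add_comm, Finset.sum_range]
    rfl
  constructor
  · intro h
    funext e
    rw [← key e]
    exact h _ (List.get_mem _ _)
  · intro h e he
    obtain ⟨i, hi, rfl⟩ := List.getElem_of_mem he
    have := key ⟨i, hi⟩
    rw [h] at this
    exact this

theorem KReC_pp_iff (Q : QMod D k N) (ψ : PP D k) (J : ℕ)
    (hJ : ∀ e ∈ ψ, ∀ t ∈ e, t.2 < J + 1) (x : N) :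
    x ∈ Q.pp ψ ↔ KReC_h Q ψ x ∈ LinearMap.range (KReC_T Q ψ J) := by
  constructor
  · rintro ⟨v, rfl, hv⟩
    rw [KReC_sys_iff Q ψ J hJ] at hv
    refine ⟨- (fun j : Fin J => v ((j : ℕ) + 1)), ?_⟩
    rw [map_neg]
    exact (eq_neg_of_add_eq_zero_left hv).symm
  · rintro ⟨w, hw⟩
    refine ⟨fun n => Nat.casesOn n x (fun j => if h : j < J then - w ⟨j, h⟩ else 0), rfl, ?_⟩
    rw [KReC_sys_iff Q ψ J hJ]
    have : (fun j : Fin J => (if h : (j : ℕ) < J then - w ⟨j, h⟩ else 0)) = - w := by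
      funext j
      rw [dif_pos j.2]
      rfl
    change KReC_h Q ψ x + KReC_T Q ψ J (fun j : Fin J =>
      (if h : (j : ℕ) < J then - w ⟨j, h⟩ else 0)) = 0
    rw [this, map_neg, hw, add_neg_cancel]

theorem KReC_dual_iff (Q : QMod D k N) (ψ : PP D k) (J : ℕ) (v : ℕ → Dual k N) :
    Q.dual.Sys ((List.range (J + 1)).map (KReC_eqn ψ)) v ↔
      (∀ n, v 0 n = ∑ e : Fin ψ.length, v ((e : ℕ) + 1) (KReC_H Q (ψ.get e) 0 n)) ∧
      ∀ (j : Fin J) (n), ∑ e : Fin ψ.length, v ((e : ℕ) + 1) (KReC_H Q (ψ.get e) ((j : ℕ) + 1) n) = 0 := by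
  constructor
  · intro h
    constructor
    · intro n
      have h0 := h (KReC_eqn ψ 0) (List.mem_map.2 ⟨0, List.mem_range.2 (Nat.succ_pos J), rfl⟩)
      have h1 := KReC_eqn_sum Q ψ 0 v n
      rw [h0, if_pos rfl] at h1
      have h2 : (0 : k) = - v 0 n + ∑ e : Fin ψ.length, v ((e : ℕ) + 1) (KReC_H Q (ψ.get e) 0 n) := h1
      exact (neg_add_eq_zero.1 h2.symm)
    · intro j n
      have h0 := h (KReC_eqn ψ ((j : ℕ) + 1)) (List.mem_map.2 ⟨(j : ℕ) + 1, List.mem_range.2
        (Nat.succ_lt_succ j.2), rfl⟩)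
      have h1 := KReC_eqn_sum Q ψ ((j : ℕ) + 1) v n
      rw [h0, if_neg (Nat.succ_ne_zero _), zero_add] at h1
      exact h1.symm
  · rintro ⟨h0, h1⟩ E hE
    obtain ⟨j, hj, rfl⟩ := List.mem_map.1 hE
    refine LinearMap.ext fun n => ?_
    refine (KReC_eqn_sum Q ψ j v n).trans ?_
    rcases Nat.eq_zero_or_pos j with rfl | hpos
    · rw [if_pos rfl, ← h0 n]
      exact neg_add_cancel _
    · rw [if_neg hpos.ne', zero_add]
      have hj' := List.mem_range.1 hj
      have := h1 ⟨j - 1, by omega⟩ n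
      have e1 : j - 1 + 1 = j := by omega
      simp only [e1] at this
      exact this

end KReCmain

/-- the dual pp-formula -/
theorem exists_dual_pp (ψ : PP D k) : ∃ ψ' : PP D.op k, ∀ (N : Md D k) (x : N.C),
    x ∈ N.Q.pp ψ ↔ ∀ lam : Dual k N.C, lam ∈ N.Q.dual.pp ψ' → lam x = 0 := by
  classical
  obtain ⟨J, hJ⟩ := KReC_bound ψ
  refine ⟨(List.range (J + 1)).map (KReC_eqn ψ), fun N x => ?_⟩
  rw [KReC_pp_iff N.Q ψ J hJ]
  constructor
  · rintro ⟨w, hw⟩ lam ⟨v, rfl, hv⟩
    obtain ⟨h0, h1⟩ := (KReC_dual_iff N.Q ψ J v).1 hv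
    rw [h0 x]
    have h2 : ∀ e : Fin ψ.length, KReC_H N.Q (ψ.get e) 0 x =
        ∑ j : Fin J, KReC_H N.Q (ψ.get e) ((j : ℕ) + 1) (w j) := by
      intro e
      rw [← KReC_T_apply, hw]
      rfl
    simp only [h2, map_sum]
    rw [Finset.sum_comm]
    exact Finset.sum_eq_zero fun j _ => h1 j (w j)
  · intro h
    by_contra hx
    obtain ⟨μ, hμ, hμ0⟩ := Submodule.exists_dual_map_eq_bot_of_notMem hx inferInstance
    have hker : ∀ w, μ (KReC_T N.Q ψ J w) = 0 := by
      intro w
      have : μ (KReC_T N.Q ψ J w) ∈ (LinearMap.range (KReC_T N.Q ψ J)).map μ :=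
        Submodule.mem_map_of_mem ⟨w, rfl⟩
      rw [hμ0] at this
      exact (Submodule.mem_bot k).1 this
    have hsum : ∀ y : Fin ψ.length → N.C, μ y = ∑ e, μ (Pi.single e (y e)) := by
      intro y
      rw [← map_sum, Finset.univ_sum_single]
    refine hμ ?_
    refine h (μ ∘ₗ KReC_h N.Q ψ) ⟨fun n => Nat.casesOn n (μ ∘ₗ KReC_h N.Q ψ)
      (fun e => if h : e < ψ.length then μ ∘ₗ (LinearMap.single k (fun _ => N.C) ⟨e, h⟩) else 0), rfl, ?_⟩
    rw [KReC_dual_iff]
    constructor
    · intro n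
      refine (hsum (KReC_h N.Q ψ n)).trans ?_
      refine Finset.sum_congr rfl fun e _ => ?_
      change _ = (if h : (e : ℕ) < ψ.length then
        μ ∘ₗ (LinearMap.single k (fun _ => N.C) ⟨(e : ℕ), h⟩) else 0) _
      rw [dif_pos e.2]
      rfl
    · intro j n
      rw [← hker (Pi.single j n), hsum]
      refine Finset.sum_congr rfl fun e _ => ?_
      change (if h : (e : ℕ) < ψ.length then
        μ ∘ₗ (LinearMap.single k (fun _ => N.C) ⟨(e : ℕ), h⟩) else 0) _ = _
      rw [dif_pos e.2, KReC_T_apply, Finset.sum_eq_single j]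
      · rw [Pi.single_eq_same]
        rfl
      · intro i _ hi
        rw [Pi.single_eq_of_ne hi, map_zero]
      · intro h
        exact absurd (Finset.mem_univ j) h

/-- homs from `N` to the dual of `A` are homs from `A` to the dual of `N` -/
theorem hom_codual_iff (A : Md D.op k) (a : A.C) (N : Md D k) (x : N.C) :
    (∀ G : N.C →ₗ[k] A.codual.C, N.Hom A.codual G → (Dual.eval k A.C a) (G x) = 0) ↔
      ∀ f : A.C →ₗ[k] Dual k N.C, IsHom A.Q N.Q.dual f → f a x = 0 := by
  constructor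
  · intro h f hf
    refine h (LinearMap.flip f) ?_
    intro g m
    refine LinearMap.ext fun b => ?_
    exact (congrArg (fun u : Dual k N.C => u m) (hf g b)).symm
  · intro h G hG
    refine h (LinearMap.flip G) ?_
    intro g b
    refine LinearMap.ext fun m => ?_
    exact (congrArg (fun u : Dual k A.C => u b) (hG g m)).symm

/-- every pp-formula is given by a finite-dimensional module and a functional -/
theorem exists_cofree (hD : D.Adm) (ψ : PP D k) : ∃ (B : Md D k) (b : Dual k B.C), FiniteDimensional k B.C ∧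
    ∀ N : Md D k, N.Q.pp ψ = {x | ∀ G : N.C →ₗ[k] B.C, N.Hom B G → b (G x) = 0} := by
  obtain ⟨ψ', hψ'⟩ := exists_dual_pp ψ
  obtain ⟨A, a, hfd, hA⟩ := exists_free hD.op ψ'
  refine ⟨A.codual, Dual.eval k A.C a, ?_, fun N => ?_⟩
  · exact (inferInstance : FiniteDimensional k (Dual k A.C))
  · ext x
    refine (hψ' N x).trans (Iff.trans ?_ (hom_codual_iff A a N x).symm)
    have h2 : N.Q.dual.pp ψ' = {y | ∃ f : A.C →ₗ[k] Dual k N.C, IsHom A.Q N.Q.dual f ∧ f a = y} :=
      hA N.dual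
    rw [h2]
    constructor
    · intro h f hf
      exact h _ ⟨f, hf, rfl⟩
    · rintro h _ ⟨f, hf, rfl⟩
      exact h f hf

theorem realise_proof (hD : D.IsString) (φ ψ : PP D k) :
    ∃ p : Pr D k, p.FD ∧ ∀ N : Md D k, N.Q.pp φ = p.up N ∧ N.Q.pp ψ = p.dn N := by
  obtain ⟨A, a, hA, h1⟩ := exists_free hD.toAdm φ
  obtain ⟨B, b, hB, h2⟩ := exists_cofree hD.toAdm ψ
  exact ⟨⟨A, a, B, b⟩, ⟨hA, hB⟩, fun N => ⟨h1 N, h2 N⟩⟩

end StrAlg
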