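import Pool.Agent.Lib.MP_b9fd58_lc.Base

/-!
# Existence of sides (job W-1)
-/

set_option autoImplicit false

namespace StrAlg

variable {D : Dat}

theorem WSides_aux1 {α : Type} [DecidableEq α] (s : Finset α) (hs : s.card ≤ 2) {x a b : α} (hx : x ∈ s)
    (ha : a ∈ s) (hb : b ∈ s) (h : decide (a = x) = decide (b = x)) : a = b := by
  by_contra hne
  have h1 : a ≠ x := by
    rintro rfl
    have h2 : decide (b = a) = true := by rw [← h]; simp
    exact hne (of_decide_eq_true h2).symm
  have h2 : b ≠ x := by
    rintro rfl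
    have h2 : decide (a = b) = true := by rw [h]; simp
    exact hne (of_decide_eq_true h2)
  have h3 : ({a, b, x} : Finset α) ⊆ s := by
    intro y hy
    simp only [Finset.mem_insert, Finset.mem_singleton] at hy
    rcases hy with rfl | rfl | rfl <;> assumption
  have h4 : ({a, b, x} : Finset α).card = 3 := by
    rw [Finset.card_insert_of_notMem, Finset.card_insert_of_notMem, Finset.card_singleton]
    · simpa using h2
    · simp [hne, h1]
  have h5 := Finset.card_le_card h3
  omega

theorem WSides_aux2 {α : Type} [DecidableEq α] (s : Finset α) (hs : s.card ≤ 2) :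
    ∃ c : α → Bool, ∀ a b, a ∈ s → b ∈ s → c a = c b → a = b := by
  by_cases h : s.Nonempty
  · obtain ⟨x, hx⟩ := h
    exact ⟨fun a => decide (a = x), fun a b ha hb hab => WSides_aux1 s hs hx ha hb hab⟩
  · refine ⟨fun _ => true, fun a b ha _ _ => ?_⟩
    exact absurd ⟨a, ha⟩ h

/-- Sides at one vertex.

Proof. If there are `a₀` into `i` and `b₀` out of `i` with `[a₀, b₀] ∉ D.rel`: `cT a := decide (a = a₀)`,
`cS b := decide (b ≠ b₀)`; two different incoming arrows `≠ a₀` would give three arrows in the filter of `in_le`; the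
condition on relations from `pre_unique`, `post_unique`. Otherwise all `[a, b]` (`a` into `i`, `b` out of `i`) are
relations and any functions injective on the (at most two) incoming, resp. outgoing, arrows work. -/
theorem sides_at (hD : D.IsString) (i : Fin D.nV) : ∃ cS cT : Fin D.nE → Bool,
    (∀ a b, D.src a = i → D.src b = i → cS a = cS b → a = b) ∧
    (∀ a b, D.tgt a = i → D.tgt b = i → cT a = cT b → a = b) ∧
    (∀ a b, D.tgt a = i → D.src b = i → cT a = cS b → [a, b] ∈ D.rel) := by
  by_cases h : ∃ a₀ b₀, D.tgt a₀ = i ∧ D.src b₀ = i ∧ [a₀, b₀] ∉ D.rel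
  · obtain ⟨a₀, b₀, ha₀, hb₀, hr⟩ := h
    refine ⟨fun b => !(decide (b = b₀)), fun a => decide (a = a₀), ?_, ?_, ?_⟩
    · intro a b ha hb hab
      refine WSides_aux1 _ (hD.out_le i) (x := b₀) (by simpa using hb₀) (by simpa using ha) (by simpa using hb) ?_
      simpa using hab
    · intro a b ha hb hab
      exact WSides_aux1 _ (hD.in_le i) (x := a₀) (by simpa using ha₀) (by simpa using ha) (by simpa using hb) hab
    · intro a b ha hb hab
      by_contra hn
      by_cases h1 : a = a₀
      · subst h1
        have h2 : b ≠ b₀ := by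
          rintro rfl
          simp at hab
        exact h2 (hD.post_unique a b b₀ (ha.trans hb.symm) (ha.trans hb₀.symm) hn hr)
      · have h2 : b = b₀ := by
          by_contra h3
          simp [h1, h3] at hab
        subst h2
        exact h1 (hD.pre_unique b a a₀ (ha.trans hb.symm) (ha₀.trans hb.symm) hn hr)
  · push Not at h
    obtain ⟨cS, hS⟩ := WSides_aux2 _ (hD.out_le i)
    obtain ⟨cT, hT⟩ := WSides_aux2 _ (hD.in_le i)
    refine ⟨cS, cT, fun a b ha hb => hS a b (by simpa using ha) (by simpa using hb),
      fun a b ha hb => hT a b (by simpa using ha) (by simpa using hb), fun a b ha hb _ => h a b ha hb⟩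

theorem exists_sides (hD : D.IsString) : Nonempty (Sides D) := by
  choose cS cT h1 h2 h3 using sides_at hD
  refine ⟨⟨fun b => cS (D.src b) b, fun a => cT (D.tgt a) a, ?_, ?_, ?_⟩⟩
  · intro a b hab h
    refine h1 (D.src b) a b hab rfl ?_
    rw [← h, hab]
  · intro a b hab h
    refine h2 (D.tgt b) a b hab rfl ?_
    rw [← h, hab]
  · intro a b hab h
    refine h3 (D.src b) a b hab rfl ?_
    rw [← h, hab]

end StrAlg
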