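import Pool.Agent.Lib.MP_b9fd58_lc.FinO
import Pool.Agent.Lib.MP_b9fd58_lc.FinP
import Pool.Agent.Lib.MP_b9fd58_lc.FinC
import Pool.Agent.Lib.MP_b9fd58_lc.GPer2
import Pool.Agent.Lib.MP_b9fd58_lc.R.Hi
import Pool.Agent.Lib.MP_b9fd58_lc.WSides
import Pool.Agent.Lib.MP_b9fd58_lc.KReC

/-!
# The main theorem on open and closed pairs
-/

set_option autoImplicit false

namespace StrAlg

open Module Polynomial

variable {D : Dat} {k : Type} [Field k] {S : Sides D}

/-- every pp-pair is given by finite-dimensional modules -/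
theorem realise (hD : D.IsString) (φ ψ : PP D k) :
    ∃ p : Pr D k, p.FD ∧ ∀ N : Md D k, N.Q.pp φ = p.up N ∧ N.Q.pp ψ = p.dn N := realise_proof hD φ ψ

theorem main_cert (hD : D.IsString) (Can : Set (Str S)) (hC : CanOK Can) (q : NF S k) (hq : q.InCan Can)
    (P : List (NF S k)) (hP : ∀ p ∈ P, p.InCan Can) (h : Rlz q P) :
    CertF q P ∨ CertS q P ∨ CertP q P ∨ CertA q P := by
  rcases thmO hD Can hC q hq P hP h with ⟨w, _, h1, h2⟩ | ⟨b, hb, l, hl, V, i1, i2, T, h0, h1, h2⟩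
  · exact Or.inr (Or.inl (pigeon hD q P w h1 h2))
  · rcases thmR Can hC q hq P hP b hb l hl V T h0 h1 h2 with h | h | h | h
    · exact Or.inl h
    · exact Or.inr (Or.inl (pigeon hD q P b h.1 h.2))
    · exact Or.inr (Or.inr (Or.inl h))
    · exact Or.inr (Or.inr (Or.inr h))

theorem main_sound (q : NF S k) (P : List (NF S k))
    (h : CertF q P ∨ CertS q P ∨ CertP q P ∨ CertA q P) : Rlz q P := by
  rcases h with ⟨N, _, h1, h2⟩ | ⟨w, _, h1, h2⟩ | h | h
  · exact ⟨N, h1, h2⟩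
  · exact soundS q P w h1 h2
  · exact soundP q P h
  · exact soundA q P h

end StrAlg
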