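import Pool.Agent.Lib.MP_b9fd58_lc.KPPa

/-!
# Stream K: the pp-formulas given by finite-dimensional modules with a basis
-/

set_option autoImplicit false

namespace StrAlg

open Module

variable {D : Dat} {k : Type} [Field k]

/-- homs from a module with a basis -/
theorem upPP_spec (A : Md D k) {d : ℕ} {C : D.Gen → ℕ → ℕ → k} (e : Basis (Fin d) k A.C)
    (hC : ∀ g, ∀ m : Fin d, A.Q.op g (e m) = ∑ m' : Fin d, C g m m' • e m') (a : ℕ → k) (N : Md D k) :
    N.Q.pp (upPP d C a) = {x | ∃ f : A.C →ₗ[k] N.C, A.Hom N f ∧ f (∑ m : Fin d, a m • e m) = x} := by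
  rw [pp_up]
  ext x
  constructor
  · rintro ⟨z, h1, rfl⟩
    refine ⟨e.constr k (fun m : Fin d => z m), ?_, ?_⟩
    · intro g n
      have h2 : (e.constr k (fun m : Fin d => z m)) ∘ₗ A.Q.op g =
          N.Q.op g ∘ₗ (e.constr k (fun m : Fin d => z m)) := by
        refine e.ext (fun m => ?_)
        rw [LinearMap.comp_apply, LinearMap.comp_apply, hC, map_sum, e.constr_basis, h1 g m m.2, Finset.sum_range]
        refine Finset.sum_congr rfl (fun m' _ => ?_)
        rw [map_smul, e.constr_basis]
      exact LinearMap.congr_fun h2 n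
    · rw [map_sum, Finset.sum_range]
      refine Finset.sum_congr rfl (fun m _ => ?_)
      rw [map_smul, e.constr_basis]
  · rintro ⟨f, hf, rfl⟩
    obtain ⟨z, hz⟩ : ∃ z : ℕ → N.C, ∀ m (h : m < d), z m = f (e ⟨m, h⟩) :=
      ⟨fun m => if h : m < d then f (e ⟨m, h⟩) else 0, fun m h => dif_pos h⟩
    refine ⟨z, ?_, ?_⟩
    · intro g m hm
      rw [hz m hm, ← hf, hC g ⟨m, hm⟩, map_sum, Finset.sum_range]
      refine Finset.sum_congr rfl (fun m' _ => ?_)
      rw [map_smul, hz m' m'.2]
    · rw [map_sum, Finset.sum_range]
      refine Finset.sum_congr rfl (fun m _ => ?_)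
      rw [map_smul, hz m m.2]

/-- homs to a module with a basis -/
theorem dnPP_spec (B : Md D k) {d : ℕ} {C : D.Gen → ℕ → ℕ → k} (e : Basis (Fin d) k B.C)
    (hC : ∀ g, ∀ m : Fin d, B.Q.op g (e m) = ∑ m' : Fin d, C g m m' • e m') (b : ℕ → k) (β : Dual k B.C)
    (hβ : ∀ m : Fin d, β (e m) = b m) (N : Md D k) :
    N.Q.pp (dnPP d C b) = {x | ∀ G : N.C →ₗ[k] B.C, N.Hom B G → β (G x) = 0} := by
  classical
  rw [pp_dn]
  ext x
  constructor
  · rintro ⟨y, hy⟩ G hG
    -- the coordinates of `G`
    have hop : ∀ (g : D.Gen) (m' : Fin d) (n : N.C), e.repr (G (N.Q.op g n)) m' =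
        ∑ m : Fin d, C g m m' * e.repr (G n) m := by
      intro g m' n
      rw [hG g n]
      conv_lhs => rw [← e.sum_repr (G n)]
      rw [map_sum, map_sum, Finsupp.finsetSum_apply]
      refine Finset.sum_congr rfl (fun m _ => ?_)
      rw [map_smul, hC, map_smul, map_sum, Finsupp.smul_apply, Finsupp.finsetSum_apply,
        Finset.sum_eq_single m']
      · rw [map_smul, Finsupp.smul_apply, e.repr_self, Finsupp.single_eq_same, smul_eq_mul, smul_eq_mul,
          mul_one, mul_comm]
      · intro j _ hj
        rw [map_smul, Finsupp.smul_apply, e.repr_self, Finsupp.single_eq_of_ne (Ne.symm hj), smul_zero]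
      · intro h
        exact absurd (Finset.mem_univ _) h
    have h1 : β (G x) = ∑ m : Fin d, e.repr (G (b m • x)) m := by
      conv_lhs => rw [← e.sum_repr (G x)]
      rw [map_sum]
      refine Finset.sum_congr rfl (fun m _ => ?_)
      rw [map_smul, hβ, map_smul, map_smul, Finsupp.smul_apply, smul_eq_mul, smul_eq_mul, mul_comm]
    rw [h1]
    have h2 : ∀ m : Fin d, e.repr (G (b m • x)) m = ∑ g : D.Gen,
        (∑ m' : Fin d, C g m' m * e.repr (G (y g m)) m' - ∑ m' : Fin d, C g m m' * e.repr (G (y g m')) m) := by
      intro m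
      rw [← hy m m.2, map_sum, map_sum, Finsupp.finsetSum_apply]
      refine Finset.sum_congr rfl (fun g _ => ?_)
      rw [map_sub, map_sub, Finsupp.sub_apply, hop, Finset.sum_range, map_sum, map_sum, Finsupp.finsetSum_apply]
      congr 1
      refine Finset.sum_congr rfl (fun m' _ => ?_)
      rw [map_smul, map_smul, Finsupp.smul_apply, smul_eq_mul]
    rw [Finset.sum_congr rfl (fun m _ => h2 m), Finset.sum_comm]
    refine Finset.sum_eq_zero (fun g _ => ?_)
    rw [Finset.sum_sub_distrib, sub_eq_zero]
    rw [Finset.sum_comm]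
  · intro hx
    -- the subspace of the values
    set L : (D.Gen → Fin d → N.C) →ₗ[k] (Fin d → N.C) :=
      { toFun := fun y m => ∑ g : D.Gen, (N.Q.op g (y g m) - ∑ m' : Fin d, C g m m' • y g m')
        map_add' := by
          intro y z
          funext m
          simp only [Pi.add_apply, map_add, smul_add, Finset.sum_add_distrib]
          rw [← Finset.sum_add_distrib]
          refine Finset.sum_congr rfl (fun g _ => ?_)
          abel
        map_smul' := by
          intro c y
          funext m
          simp only [Pi.smul_apply, map_smul, RingHom.id_apply, Finset.smul_sum, smul_sub]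
          refine Finset.sum_congr rfl (fun g _ => ?_)
          congr 1
          refine Finset.sum_congr rfl (fun m' _ => ?_)
          rw [smul_comm] } with hL
    have hmem : (fun m : Fin d => b m • x) ∈ LinearMap.range L := by
      by_contra hnot
      obtain ⟨φ, hφ1, hφ2⟩ := Submodule.exists_dual_map_eq_bot_of_notMem hnot inferInstance
      have hφ3 : ∀ y, φ (L y) = 0 := by
        intro y
        have h3 : φ (L y) ∈ (LinearMap.range L).map φ := Submodule.mem_map_of_mem (LinearMap.mem_range_self L y)
        rw [hφ2] at h3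
        exact (Submodule.mem_bot k).1 h3
      -- the homomorphism
      set G : N.C →ₗ[k] B.C := ∑ m : Fin d, (φ ∘ₗ LinearMap.single k (fun _ : Fin d => N.C) m).smulRight (e m)
        with hGdef
      have hGval : ∀ n, G n = ∑ m : Fin d, φ (Pi.single m n) • e m := by
        intro n
        rw [hGdef, LinearMap.sum_apply]
        rfl
      have hφsum : ∀ w : Fin d → N.C, φ w = ∑ m : Fin d, φ (Pi.single m (w m)) := by
        intro w
        rw [← map_sum]
        congr 1
        exact (Finset.univ_sum_single w).symm
      have hG : N.Hom B G := by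
        intro g n
        rw [hGval, hGval, map_sum]
        have h4 : ∀ m' : Fin d, φ (Pi.single m' (N.Q.op g n)) = ∑ m : Fin d, φ (Pi.single m n) * C g m m' := by
          intro m'
          have h5 := hφ3 (Pi.single g (Pi.single m' n))
          have h6 : L (Pi.single g (Pi.single m' n)) =
              Pi.single m' (N.Q.op g n) - fun m : Fin d => C g m m' • n := by
            funext m
            show ∑ g' : D.Gen, (N.Q.op g' ((Pi.single g (Pi.single m' n) : D.Gen → Fin d → N.C) g' m) -
              ∑ m'' : Fin d, C g' m m'' • (Pi.single g (Pi.single m' n) : D.Gen → Fin d → N.C) g' m'') = _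
            rw [Finset.sum_eq_single g]
            · rw [Pi.single_eq_same, Pi.sub_apply]
              congr 1
              · by_cases hm : m = m'
                · subst hm; rw [Pi.single_eq_same, Pi.single_eq_same]
                · rw [Pi.single_eq_of_ne hm, Pi.single_eq_of_ne hm, map_zero]
              · rw [Finset.sum_eq_single m']
                · rw [Pi.single_eq_same]
                · intro j _ hj
                  rw [Pi.single_eq_of_ne hj, smul_zero]
                · intro h; exact absurd (Finset.mem_univ _) h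
            · intro g' _ hg'
              rw [Pi.single_eq_of_ne hg']
              simp
            · intro h; exact absurd (Finset.mem_univ _) h
          rw [h6, map_sub, sub_eq_zero] at h5
          rw [h5, hφsum]
          refine Finset.sum_congr rfl (fun m _ => ?_)
          rw [Pi.single_smul, map_smul, smul_eq_mul, mul_comm]
        have h7 : ∀ m : Fin d, B.Q.op g (φ (Pi.single m n) • e m) =
            ∑ m' : Fin d, (φ (Pi.single m n) * C g m m') • e m' := by
          intro m
          rw [map_smul, hC, Finset.smul_sum]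
          refine Finset.sum_congr rfl (fun m' _ => ?_)
          rw [smul_smul]
        rw [Finset.sum_congr rfl (fun m _ => h7 m), Finset.sum_comm]
        refine Finset.sum_congr rfl (fun m' _ => ?_)
        rw [h4, Finset.sum_smul]
      apply hφ1
      rw [hφsum, ← hx G hG, hGval, map_sum]
      refine Finset.sum_congr rfl (fun m _ => ?_)
      rw [map_smul, hβ, Pi.single_smul, map_smul, smul_eq_mul, smul_eq_mul, mul_comm]
    obtain ⟨y, hy⟩ := hmem
    obtain ⟨y', hy'⟩ : ∃ y' : D.Gen → ℕ → N.C, ∀ g m (h : m < d), y' g m = y g ⟨m, h⟩ :=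
      ⟨fun g m => if h : m < d then y g ⟨m, h⟩ else 0, fun g m h => dif_pos h⟩
    refine ⟨y', fun m hm => ?_⟩
    have h1 := congrFun hy ⟨m, hm⟩
    have h2 : L y ⟨m, hm⟩ = ∑ g : D.Gen, (N.Q.op g (y g ⟨m, hm⟩) - ∑ m' : Fin d, C g m m' • y g m') := rfl
    rw [h2] at h1
    rw [← h1]
    refine Finset.sum_congr rfl (fun g _ => ?_)
    rw [hy' g m hm, Finset.sum_range]
    congr 1
    refine Finset.sum_congr rfl (fun m' _ => ?_)
    rw [hy' g m' m'.2]

end StrAlg
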