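import Pool.Agent.Lib.MP_b9fd58_lc.S2X
import Pool.Agent.Lib.MP_b9fd58_lc.KUpDn
import Pool.Agent.Lib.MP_b9fd58_lc.If

/-!
# Stage 2, S2Z: pairs of finite-dimensional modules are given by pp-systems; the main theorem on ranks
-/

set_option autoImplicit false

namespace StrAlg

open Module Polynomial

variable {D : Dat} {k : Type} [Field k]

/-- structure constants for a basis -/
theorem exists_consts (A : Md D k) {d : ℕ} (e : Basis (Fin d) k A.C) :
    ∃ C : D.Gen → ℕ → ℕ → k, ∀ g, ∀ m : Fin d, A.Q.op g (e m) = ∑ m' : Fin d, C g m m' • e m' := by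
  classical
  refine ⟨fun g m m' => if h : m < d ∧ m' < d then e.repr (A.Q.op g (e ⟨m, h.1⟩)) ⟨m', h.2⟩ else 0, fun g m => ?_⟩
  conv_lhs => rw [← e.sum_repr (A.Q.op g (e m))]
  refine Finset.sum_congr rfl fun m' _ => ?_
  beta_reduce
  rw [dif_pos ⟨m.2, m'.2⟩]

/-- a pair of finite-dimensional modules is given by pp-systems -/
theorem Pr.isPP_of_fd (p : Pr D k) (hp : p.FD) : p.IsPP := by
  classical
  haveI := hp.1
  haveI := hp.2
  obtain ⟨C, hC⟩ := exists_consts p.A (Module.finBasis k p.A.C)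
  obtain ⟨C', hC'⟩ := exists_consts p.B (Module.finBasis k p.B.C)
  refine ⟨upPP (finrank k p.A.C) C (fun m => if h : m < finrank k p.A.C then
      (Module.finBasis k p.A.C).repr p.a ⟨m, h⟩ else 0), dnPP (finrank k p.B.C) C' (fun m =>
      if h : m < finrank k p.B.C then p.b (Module.finBasis k p.B.C ⟨m, h⟩) else 0), fun N => ⟨?_, ?_⟩⟩
  · rw [upPP_spec p.A (Module.finBasis k p.A.C) hC]
    have h1 : (∑ m : Fin (finrank k p.A.C), (if h : (m : ℕ) < finrank k p.A.C then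
        (Module.finBasis k p.A.C).repr p.a ⟨m, h⟩ else 0) • (Module.finBasis k p.A.C) m) = p.a := by
      conv_rhs => rw [← (Module.finBasis k p.A.C).sum_repr p.a]
      refine Finset.sum_congr rfl fun m _ => ?_
      rw [dif_pos m.2]
    rw [h1]
    rfl
  · exact dnPP_spec p.B (Module.finBasis k p.B.C) hC' _ p.b (fun m => by rw [dif_pos m.2]) N

/-- **Main theorem on ranks.** -/
theorem main2_all {S : Sides D} (hD : D.IsString) (Can : Set (Str S)) (hC : CanOK Can) (N : Md D k)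
    (P0 P1 : List (NF S k)) (h0 : ∀ p ∈ P0, p.InCan Can ∧ p.pr.rk N ≠ ⊤) (h1 : ∀ q ∈ P1, q.InCan Can ∧ q.pr.rk N = ⊤)
    (n : ℕ) :
    ∃ cs : List (Md D k), (∀ M ∈ cs, CompOK Can M) ∧ (∀ p ∈ P0, (cs.map p.pr.rk).sum = p.pr.rk N) ∧
      ∀ q ∈ P1, (n : ℕ∞) ≤ (cs.map q.pr.rk).sum ∨ CertF q P0 ∨ CertS q P0 ∨ CertP q P0 ∨ CertA q P0 :=
  main2 hD Can hC (fun q P hq hP h => main_cert hD Can hC q hq P hP h) P0 P1 (fun p hp => (h0 p hp).1)
    (fun q hq => (h1 q hq).1) (fun p _ => Pr.isPP_of_fd _ (wNF_fd p)) (fun p _ => Pr.isPP_of_fd _ (wNF_fd p)) N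
    (fun p hp => (h0 p hp).2) (fun q hq => (h1 q hq).2) n

end StrAlg
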