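import Pool.Agent.Lib.MP_b9fd58_lc.K2Fin
import Pool.Agent.Lib.MP_b9fd58_lc.S2Z

/-!
# The final theorem for all computable fields
-/

set_option autoImplicit false

namespace StrAlg

open Module

/-- **Final theorem.** The theory of modules over a string algebra over a computable field is decidable. -/
theorem decidable_all (D : Dat) (hD : D.IsString) (k : Type) [Field k] [Primcodable k]
    (hadd : Computable₂ (fun a b : k => a + b)) (hmul : Computable₂ (fun a b : k => a * b)) :
    ∃ f : List (Sym D k) → Bool, Computable f ∧
      ∀ φ : Fm D k, φ.IsSentence →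
        (f φ.code = true ↔
          ∀ (M : Type) [AddCommGroup M] [Module (Alg D k)ᵐᵒᵖ M], φ.Sat M (fun _ => 0)) :=
  decidable_all_of D hD k hadd hmul (fun _ Can hC N P0 P1 h0 h1 n => main2_all hD Can hC N P0 P1 h0 h1 n)

end StrAlg
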