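import Pool.Agent.Lib.MP_b9fd58_lc.GAsym

/-!
# Theorem A for normal forms
-/

set_option autoImplicit false

namespace StrAlg

open Module

variable {D : Dat} {k : Type} [Field k] {S : Sides D}

/-! ### openness of a normal form -/

theorem Md.pi_op_single {ι : Type} [Fintype ι] [DecidableEq ι] (M : ι → Md D k) (g : D.Gen) (i : ι) (m : (M i).C) :
    (Md.pi M).Q.op g (Pi.single i m : ∀ i, (M i).C) = (Pi.single i ((M i).Q.op g m) : ∀ i, (M i).C) := by
  funext j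
  show (M j).Q.op g ((Pi.single i m : ∀ i, (M i).C) j) = _
  by_cases hj : j = i
  · subst hj
    rw [Pi.single_eq_same, Pi.single_eq_same]
  · rw [Pi.single_eq_of_ne hj, Pi.single_eq_of_ne hj, map_zero]

theorem Md.pi_op_apply {ι : Type} [Fintype ι] (M : ι → Md D k) (g : D.Gen) (m : ∀ i, (M i).C) (i : ι) :
    ((Md.pi M).Q.op g m : ∀ i, (M i).C) i = (M i).Q.op g (m i) := rfl

section clean
variable {ι ι' : Type} [Fintype ι] [Fintype ι'] {X : ι → Type}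
  [∀ i, AddCommGroup (X i)] [∀ i, Module k (X i)]
  {Y : ι' → Type} [∀ i, AddCommGroup (Y i)] [∀ i, Module k (Y i)] {N : Type} [AddCommGroup N] [Module k N]

theorem pi_fwd [DecidableEq ι] (a : ∀ i, X i) (b : ∀ j, Y j →ₗ[k] k) (f : (∀ i, X i) →ₗ[k] N) (G : N →ₗ[k] (∀ j, Y j))
    (h : (∑ j, (b j) ∘ₗ (LinearMap.proj j : (∀ j, Y j) →ₗ[k] Y j)) (G (f a)) ≠ 0) :
    ∃ i j, b j (G (f (Pi.single i (a i))) j) ≠ 0 := by
  rw [LinearMap.sum_apply] at h
  obtain ⟨j, -, hj⟩ := Finset.exists_ne_zero_of_sum_ne_zero h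
  set L : (∀ i, X i) →ₗ[k] k := (b j) ∘ₗ (LinearMap.proj j : (∀ j, Y j) →ₗ[k] Y j) ∘ₗ G ∘ₗ f with hL
  have h3 : L a ≠ 0 := hj
  have h2 : a = ∑ i, (Pi.single i (a i) : ∀ i, X i) := by rw [Finset.univ_sum_single]
  rw [h2, map_sum] at h3
  obtain ⟨i, -, hi⟩ := Finset.exists_ne_zero_of_sum_ne_zero h3
  exact ⟨i, j, hi⟩

theorem pi_bwd [DecidableEq ι'] (b : ∀ j, Y j →ₗ[k] k) (j : ι') (y : Y j) :
    (∑ j, (b j) ∘ₗ (LinearMap.proj j : (∀ j, Y j) →ₗ[k] Y j)) (Pi.single j y) = b j y := by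
  rw [LinearMap.sum_apply, Finset.sum_eq_single_of_mem j (Finset.mem_univ j)]
  · rw [LinearMap.comp_apply, LinearMap.proj_apply, Pi.single_eq_same]
  · intro j' _ hj'
    rw [LinearMap.comp_apply, LinearMap.proj_apply, Pi.single_eq_of_ne hj', map_zero]

end clean

theorem NF.opn_iff (p : NF S k) (N : Md D k) :
    p.pr.Opn N ↔ ∃ i j, (bpr (p.X i) (p.Y j) (p.a i) (p.b j)).Opn N := by
  classical
  constructor
  · rintro ⟨f, G, hf, hG, hne⟩
    obtain ⟨i, j, hij⟩ := pi_fwd (k := k) (X := fun i => (p.X i).M.C) (Y := fun j => (p.Y j).M.C) p.a p.b f G hne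
    refine ⟨i, j, LinearMap.comp (show (∀ i, (p.X i).M.C) →ₗ[k] N.C from f)
      (LinearMap.single k (fun i => (p.X i).M.C) i),
      (LinearMap.proj j : (∀ j, (p.Y j).M.C) →ₗ[k] (p.Y j).M.C) ∘ₗ
        (show N.C →ₗ[k] (∀ j, (p.Y j).M.C) from G), ?_, ?_, hij⟩
    · intro g m
      have h5 := Md.pi_op_single (fun i => (p.X i).M) g i m
      exact (congrArg f h5.symm).trans (hf g (Pi.single i m : ∀ i, (p.X i).M.C))
    · intro g n
      exact congrFun (hG g n) j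
  · rintro ⟨i, j, f, G, hf, hG, hne⟩
    refine ⟨LinearMap.comp (show (p.X i).M.C →ₗ[k] N.C from f)
      (LinearMap.proj i : (∀ i, (p.X i).M.C) →ₗ[k] (p.X i).M.C),
      LinearMap.comp (LinearMap.single k (fun j => (p.Y j).M.C) j) (show N.C →ₗ[k] (p.Y j).M.C from G), ?_, ?_, ?_⟩
    · intro g m
      exact hf g (m i)
    · intro g n
      have h5 := Md.pi_op_single (fun j => (p.Y j).M) g j (G n)
      refine Eq.trans ?_ h5.symm
      exact congrArg (fun y => (Pi.single j y : ∀ j, (p.Y j).M.C)) (hG g n)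
    · have h1 := pi_bwd (k := k) (Y := fun j => (p.Y j).M.C) p.b j (G (f (p.a i)))
      intro h0
      exact hne (h1.symm.trans h0)

/-! ### rank one coefficients -/

theorem Om_sum {X Y : Ln (Fin D.nV) S.nx} {VX VY : Type} [AddCommGroup VX] [Module k VX] [AddCommGroup VY] [Module k VY]
    {c : ℤ → VX} {c' : ℤ → VY →ₗ[k] k} {ι : Type*} (s : Finset ι) (κ : ι → VX →ₗ[k] VY) (o : Bool) (a b : ℤ) :
    Om X Y c c' (∑ i ∈ s, κ i) o a b = ∑ i ∈ s, Om X Y c c' (κ i) o a b := by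
  unfold Om
  rw [Finset.sum_comm]
  refine Finset.sum_congr rfl (fun i _ => ?_)
  rw [LinearMap.sum_apply, map_sum]

theorem Om_rank_one {X Y : Ln (Fin D.nV) S.nx} {VX VY : Type} [AddCommGroup VX] [Module k VX] [AddCommGroup VY]
    [Module k VY] {c : ℤ → VX} {c' : ℤ → VY →ₗ[k] k} (φ : VX →ₗ[k] k) (v : VY) (o : Bool) (a b : ℤ) :
    Om X Y c c' (φ.smulRight v) o a b = OmS X Y (fun a => φ (c a)) (fun b => c' b v) o a b := by
  unfold OmS Om
  refine Finset.sum_congr rfl (fun i _ => ?_)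
  rw [LinearMap.smulRight_apply, map_smul, LinearMap.smul_apply, LinearMap.id_apply, LinearMap.id_apply, smul_eq_mul,
    smul_eq_mul, mul_comm]

theorem exists_rank_one {X Y : Ln (Fin D.nV) S.nx} {n : ℕ} {VY : Type} [AddCommGroup VY] [Module k VY]
    {c : ℤ → Fin n → k} {c' : ℤ → VY →ₗ[k] k} {κ : (Fin n → k) →ₗ[k] VY} {o : Bool} {a b : ℤ}
    (h : Om X Y c c' κ o a b ≠ 0) : ∃ (φ : (Fin n → k) →ₗ[k] k) (v : VY), Om X Y c c' (φ.smulRight v) o a b ≠ 0 := by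
  classical
  have h1 : κ = ∑ s : Fin n, (LinearMap.proj s : (Fin n → k) →ₗ[k] k).smulRight (κ (Pi.single s 1)) := by
    refine LinearMap.ext fun x => ?_
    rw [LinearMap.sum_apply]
    simp only [LinearMap.smulRight_apply, LinearMap.proj_apply]
    conv_lhs => rw [← Finset.univ_sum_single x]
    rw [map_sum]
    refine Finset.sum_congr rfl (fun s _ => ?_)
    rw [← map_smul]
    congr 1
    rw [← Pi.single_smul', smul_eq_mul, mul_one]
  rw [h1, Om_sum] at h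
  obtain ⟨s, -, hs⟩ := Finset.exists_ne_zero_of_sum_ne_zero h
  exact ⟨_, _, hs⟩

/-- the value of the composition of the homs given by a chain and a dual chain of finite support -/
theorem val_chE_dcHom {X Y : Blk S k} (a : X.M.C) (b : Dual k Y.M.C) {N : Md D k} (f : ℤ → N.C)
    (η : ℤ → N.C →ₗ[k] k) (A B : Finset ℤ) (φ : (Fin X.n → k) →ₗ[k] k) (v : Fin Y.n → k) :
    b (dcHom Y.ok η B v (chE X.ok φ f A a)) =
      ∑ p ∈ A, ∑ r ∈ B, (Y.cf b r v) * φ (X.fn a p) * η r (f p) := by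
  have h1 : ∀ b' : (Y.x.ME Y.l Y.T Y.ok).C →ₗ[k] k, b' (dcHom Y.ok η B v (chE X.ok φ f A a)) =
      ∑ r ∈ B, η r (∑ p ∈ A, φ (cfE X.ok a p) • f p) * b' (ioE Y.ok r v) := by
    intro b'
    rw [dcHom_apply, map_sum]
    refine Finset.sum_congr rfl (fun r _ => ?_)
    rw [map_smul, smul_eq_mul]; rfl
  refine (h1 b).trans ?_
  rw [Finset.sum_comm]
  refine Finset.sum_congr rfl (fun r _ => ?_)
  rw [map_sum, Finset.sum_mul]
  refine Finset.sum_congr rfl (fun p _ => ?_)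
  have h2 : Y.cf b r v = b (ioE Y.ok r v) := by
    rw [← Blk.iota_eq]; rfl
  rw [map_smul, smul_eq_mul, h2, Blk.fn_eq]
  exact (mul_comm _ _).trans (mul_assoc _ _ _).symm

theorem HasWin.move {N : Md D k} {w : Str S} (h : w.Open N) {q : ℤ} (hq : q ∈ w.Z) :
    HasWin N.Q S.ends w.L q := by
  intro R
  obtain ⟨g, ξ, hg⟩ := h (R + q.natAbs)
  refine ⟨g, ξ, fun q' h1 h2 => hg q' (Ln.Reach.trans hq h1) (by omega)⟩

/-- **Theorem A** for normal forms -/
theorem thmA_nf (w : Str S) (hw : w.Aper) (N : Md D k) (hN : w.Open N) (p : NF S k)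
    (hp : ¬ p.pr.Opn N) : p.Crit w := by
  intro i j o o' a q b ha hq hb m1 m2 l1 l2 f1 f2 κ
  by_contra hne
  apply hp
  rw [NF.opn_iff]
  refine ⟨i, j, ?_⟩
  obtain ⟨φ, v, h1⟩ := exists_rank_one hne
  rw [Om_rank_one] at h1
  obtain ⟨f, η, A, B, hf, hη, hA, hB, hsum⟩ := thmA (p.X i).x.ok w.ok (p.Y j).x.ok hw.asym w.cl hq
    (HasWin.move hN hq) ((p.X i).x.Zabs a ha) (w.Zabs q hq) ((p.Y j).x.Zabs b hb) m1 l1 f1 m2 l2 f2
    (fun a => φ ((p.X i).fn (p.a i) a)) (fun r => (p.Y j).cf (p.b j) r v) h1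
  refine ⟨chE (p.X i).ok φ f A, dcHom (p.Y j).ok η B v, chE_hom (p.X i).ok hf hA φ,
    dcHom_hom (p.Y j).ok hη hB v, ?_⟩
  show (p.b j) (dcHom (p.Y j).ok η B v (chE (p.X i).ok φ f A (p.a i))) ≠ 0
  rw [val_chE_dcHom]
  exact hsum

end StrAlg
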