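import Pool.Agent.Lib.MP_b9fd58_lc.OJb
import Pool.Agent.Lib.MP_b9fd58_lc.GThA
import Pool.Agent.Lib.MP_b9fd58_lc.T.TE
import Pool.Agent.Lib.MP_b9fd58_lc.T.DA

/-!
# Theorem O, from Theorem A, Theorem T and duality
-/

set_option autoImplicit false

namespace StrAlg

open Module

variable {D : Dat} {k : Type} [Field k] {S : Sides D}

theorem thmT_all (hD : D.IsString) : ThmT S k := fun b l hl N hN => thmT hD b l hl N hN

/-- Theorem O for a single pair -/
theorem thmOcore (hD : D.IsString) (Can : Set (Str S)) (hC : CanOK Can) (q : NF S k) (hq : q.InCan Can)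
    (N : Md D k) (h : q.pr.Opn N) :
    (∃ w : Str S, w.Aper ∧ ¬ q.Crit w ∧ w.Open N.dual.codual) ∨
    (∃ b ∈ Can, ∃ (l : ℕ) (_ : b.MinPer l) (V : Type) (_ : AddCommGroup V) (_ : Module k V) (T : V ≃ₗ[k] V)
      (h : b.PerOK l T), (b.ME l T h).Ret N.dual.codual ∧ q.pr.Opn (b.ME l T h)) :=
  thmOcore_aux (fun p hp N => opn_dual p hp N) (fun p hp N => opn_codual p hp N) (thmT_all hD)
    (thmT_all (op_isString hD)) Can hC q hq N h

theorem thmO (hD : D.IsString) (Can : Set (Str S)) (hC : CanOK Can) (q : NF S k) (hq : q.InCan Can)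
    (P : List (NF S k)) (_hP : ∀ p ∈ P, p.InCan Can) (h : Rlz q P) :
    (∃ w : Str S, w.Aper ∧ ¬ q.Crit w ∧ ∀ p ∈ P, p.Crit w) ∨
    (∃ b ∈ Can, ∃ (l : ℕ) (_ : b.MinPer l) (V : Type) (_ : AddCommGroup V) (_ : Module k V) (T : V ≃ₗ[k] V)
      (h : b.PerOK l T), q.pr.Opn (b.ME l T h) ∧ ∀ p ∈ P, ¬ p.pr.Opn (b.ME l T h)) :=
  thmO_aux (fun p hp N => opn_dual p hp N) (fun p hp N => opn_codual p hp N) (thmT_all hD)
    (thmT_all (op_isString hD)) (fun w hw N hN p hp => thmA_nf w hw N hN p hp) Can hC q hq P h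

end StrAlg
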