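import Pool.Agent.Lib.MP_b9fd58_lc.Win

/-!
# Modules of functions on lines
-/

set_option autoImplicit false

namespace StrAlg

section
variable {D : Dat} {nx : Fin D.nV → Bool → Fin 3 → Fin D.nV × Bool}

/-- the ends belong to the quiver -/
structure Ends.For (A : Ends (Fin D.nV) (Fin D.nE)) : Prop where
  tgt : ∀ i s α, A.inA i s = some α → D.tgt α = i
  src : ∀ i s α, A.outA i s = some α → D.src α = i

/-- reading a list of arrows backwards from `p` in direction `e` -/
def bk (A : Ends (Fin D.nV) (Fin D.nE)) (L : Ln (Fin D.nV) nx) (e : Bool) : List (Fin D.nE) → ℤ → Prop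
  | [], _ => True
  | a :: l, p => L.lt e p = 0 ∧ A.inA (L.v p) (L.sd e p) = some a ∧ bk A L e l (st e p)

/-- no relation is a directed path of the line -/
def Ln.NoRel (L : Ln (Fin D.nV) nx) (A : Ends (Fin D.nV) (Fin D.nE)) : Prop :=
  ∀ r ∈ D.rel, ∀ e p, ¬ bk A L e r.reverse p

variable {k : Type} [Field k] {V : Type} [AddCommGroup V] [Module k V]

/-- the generators act on all functions on the line -/
def fop (k : Type) [Field k] {V : Type} [AddCommGroup V] [Module k V] (A : Ends (Fin D.nV) (Fin D.nE))
    (L : Ln (Fin D.nV) nx) : D.Gen → (ℤ → V) →ₗ[k] (ℤ → V)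
  | Sum.inl i =>
    { toFun := fun m p => if L.v p = i then m p else 0
      map_add' := fun m m' => by funext p; simp only [Pi.add_apply]; split_ifs <;> simp
      map_smul' := fun c m => by funext p; simp only [Pi.smul_apply, RingHom.id_apply]; split_ifs <;> simp }
  | Sum.inr α =>
    { toFun := fun m p => ∑ e : Bool,
        if L.lt e p = 0 ∧ A.inA (L.v p) (L.sd e p) = some α then m (st e p) else 0
      map_add' := fun m m' => by
        funext p
        simp only [Pi.add_apply]
        rw [← Finset.sum_add_distrib]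
        refine Finset.sum_congr rfl (fun e _ => ?_)
        split_ifs <;> simp
      map_smul' := fun c m => by
        funext p
        simp only [Pi.smul_apply, RingHom.id_apply]
        rw [Finset.smul_sum]
        refine Finset.sum_congr rfl (fun e _ => ?_)
        split_ifs <;> simp }

theorem fop_inl (A : Ends (Fin D.nV) (Fin D.nE)) (L : Ln (Fin D.nV) nx) (i : Fin D.nV) (m : ℤ → V) (p : ℤ) :
    fop k A L (Sum.inl i) m p = if L.v p = i then m p else 0 := rfl

theorem fop_inr (A : Ends (Fin D.nV) (Fin D.nE)) (L : Ln (Fin D.nV) nx) (α : Fin D.nE) (m : ℤ → V) (p : ℤ) :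
    fop k A L (Sum.inr α) m p = ∑ e : Bool,
      if L.lt e p = 0 ∧ A.inA (L.v p) (L.sd e p) = some α then m (st e p) else 0 := rfl

/-- the other end of an arrow -/
theorem Ln.Ok.other {A : Ends (Fin D.nV) (Fin D.nE)} {L : Ln (Fin D.nV) nx} (hL : L.Ok A) {e : Bool} {p : ℤ}
    {α : Fin D.nE} (h0 : L.lt e p = 0) (hα : A.inA (L.v p) (L.sd e p) = some α) :
    L.lt (!e) (st e p) = 2 ∧ A.outA (L.v (st e p)) (L.sd (!e) (st e p)) = some α := by
  have h1 : L.lt (!e) (st e p) = 2 := by rw [Ln.lt_back, h0]; rfl
  obtain ⟨β, h2, h3⟩ := hL _ _ h1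
  rw [st_not_st, Bool.not_not, hα] at h3
  exact ⟨h1, by rw [h2, Option.some_inj.1 h3]⟩

theorem Ln.Ok.other' {A : Ends (Fin D.nV) (Fin D.nE)} {L : Ln (Fin D.nV) nx} (hL : L.Ok A) {e : Bool} {p : ℤ}
    {α : Fin D.nE} (h0 : L.lt e p = 2) (hα : A.outA (L.v p) (L.sd e p) = some α) :
    L.lt (!e) (st e p) = 0 ∧ A.inA (L.v (st e p)) (L.sd (!e) (st e p)) = some α := by
  have h1 : L.lt (!e) (st e p) = 0 := by rw [Ln.lt_back, h0]; rfl
  obtain ⟨β, h2, h3⟩ := hL _ _ h0
  rw [hα] at h2
  exact ⟨h1, by rw [h3, Option.some_inj.1 h2]⟩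

theorem fop_path (A : Ends (Fin D.nV) (Fin D.nE)) (L : Ln (Fin D.nV) nx) (m : ℤ → V) :
    ∀ (l : List (Fin D.nE)) (a : Fin D.nE) (p : ℤ),
      (((a :: l).reverse.foldl (fun m a => fop k A L (Sum.inr a) m) m) p) ≠ 0 → ∃ e, bk A L e (a :: l) p := by
  intro l
  induction l with
  | nil =>
    intro a p h
    by_contra hcon
    push Not at hcon
    apply h
    show fop k A L (Sum.inr a) m p = 0
    rw [fop_inr]
    refine Finset.sum_eq_zero (fun e _ => ?_)
    rw [if_neg]
    rintro ⟨h1, h2⟩
    exact hcon e ⟨h1, h2, trivial⟩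
  | cons b l ih =>
    intro a p h
    have h1 : ((a :: b :: l).reverse.foldl (fun m a => fop k A L (Sum.inr a) m) m) =
        fop k A L (Sum.inr a) ((b :: l).reverse.foldl (fun m a => fop k A L (Sum.inr a) m) m) := by
      rw [List.reverse_cons, List.foldl_append]; rfl
    rw [h1, fop_inr] at h
    obtain ⟨e, -, he⟩ := Finset.exists_ne_zero_of_sum_ne_zero h
    split_ifs at he with h2
    · obtain ⟨e', he'⟩ := ih b (st e p) he
      refine ⟨e, h2.1, h2.2, ?_⟩
      have : e' = e := by
        by_contra hne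
        have : e' = !e := by cases e <;> cases e' <;> simp_all
        subst this
        have h3 := he'.1
        rw [Ln.lt_back, h2.1] at h3
        exact absurd h3 (by decide)
      subst this
      exact he'
    · exact absurd rfl he

/-- **the module of all functions on a line** -/
def FnQ (k : Type) [Field k] (V : Type) [AddCommGroup V] [Module k V] (A : Ends (Fin D.nV) (Fin D.nE)) (hA : A.For)
    (L : Ln (Fin D.nV) nx) (hL : L.Ok A) (hr : L.NoRel A) (hr0 : ∀ r ∈ D.rel, r ≠ []) :
    QMod D k (ℤ → V) where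
  op := fop k A L
  idem i m := by funext p; simp only [fop_inl]; split_ifs <;> rfl
  orth i j m h := by
    funext p
    simp only [fop_inl, Pi.zero_apply]
    split_ifs with h1 h2
    · exact absurd (h2.symm.trans h1) h
    · rfl
    · rfl
  one m := by
    funext p
    rw [Finset.sum_apply]
    simp only [fop_inl]
    rw [Finset.sum_ite_eq Finset.univ (L.v p)]
    simp
  src a m := by
    funext p
    simp only [fop_inr]
    refine Finset.sum_congr rfl (fun e _ => ?_)
    split_ifs with h1
    · rw [fop_inl, if_pos]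
      exact (hA.src _ _ _ (hL.other h1.1 h1.2).2).symm
    · rfl
  tgt a m := by
    funext p
    rw [fop_inl]
    split_ifs with h1
    · rfl
    · rw [fop_inr]
      symm
      refine Finset.sum_eq_zero (fun e _ => ?_)
      rw [if_neg]
      rintro ⟨-, h3⟩
      exact h1 (hA.tgt _ _ _ h3).symm
  rel r hr' m := by
    funext p
    by_contra hne
    have hrne := hr0 r hr'
    have h1 : r.reverse ≠ [] := by simpa using hrne
    obtain ⟨a, l, hal⟩ := List.exists_cons_of_ne_nil h1
    have h2 : r = (a :: l).reverse := by rw [← hal, List.reverse_reverse]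
    rw [h2] at hne
    obtain ⟨e, he⟩ := fop_path A L m l a p hne
    rw [← hal] at he
    exact hr r hr' e p he

/-- restriction of a module structure to a stable subspace -/
def QMod.sub {N : Type} [AddCommGroup N] [Module k N] (Q : QMod D k N) (S : Submodule k N)
    (hS : ∀ g, ∀ m ∈ S, Q.op g m ∈ S) : QMod D k S where
  op g := (Q.op g).restrict (hS g)
  idem i n := Subtype.ext (Q.idem i n)
  orth i j n h := Subtype.ext (Q.orth i j n h)
  one n := Subtype.ext (by
    rw [← Submodule.subtype_apply, map_sum]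
    exact Q.one n)
  src a n := Subtype.ext (Q.src a n)
  tgt a n := Subtype.ext (Q.tgt a n)
  rel r hr n := Subtype.ext (by
    have key : ∀ (l : List (Fin D.nE)) (n : S),
        ((l.foldl (fun m a => ((Q.op (Sum.inr a)).restrict (hS (Sum.inr a))) m) n : S) : N) =
        l.foldl (fun m a => Q.op (Sum.inr a) m) (n : N) := by
      intro l
      induction l with
      | nil => intro n; rfl
      | cons a l ih => intro n; rw [List.foldl_cons, List.foldl_cons, ih]; rfl
    rw [key]
    exact Q.rel r hr n)

theorem QMod.sub_op {N : Type} [AddCommGroup N] [Module k N] (Q : QMod D k N) (S : Submodule k N)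
    (hS : ∀ g, ∀ m ∈ S, Q.op g m ∈ S) (g : D.Gen) (m : S) : (((Q.sub S hS).op g m : S) : N) = Q.op g m := rfl

end

end StrAlg
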