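import Pool.Agent.Lib.MP_b9fd58_lc.Base

/-!
# Homomorphisms from and to line modules, chains and dual chains
-/

set_option autoImplicit false

namespace StrAlg

open Module

variable {D : Dat} {k : Type} [Field k] {S : Sides D}

/-- the exchange of incoming and outgoing arrows -/
theorem exch {A : Ends (Fin D.nV) (Fin D.nE)} {nx : Fin D.nV → Bool → Fin 3 → Fin D.nV × Bool} {L : Ln (Fin D.nV) nx}
    (hL : L.Ok A) {M : Type} [AddCommMonoid M] (α : Fin D.nE) (h : ℤ → ℤ → M) (T : Finset ℤ)
    (hT : ∀ e a, h a (st e a) ≠ 0 → a ∈ T ∧ st e a ∈ T) :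
    ∑ a ∈ T, ∑ e : Bool, (if L.lt e a = 0 ∧ A.inA (L.v a) (L.sd e a) = some α then h a (st e a) else 0) =
    ∑ a ∈ T, ∑ e : Bool, (if L.lt e a = 2 ∧ A.outA (L.v a) (L.sd e a) = some α then h (st e a) a else 0) := by
  classical
  rw [← Finset.sum_product', ← Finset.sum_product']
  refine Finset.sum_bij_ne_zero (fun x _ _ => (st x.2 x.1, !x.2)) ?_ ?_ ?_ ?_
  · rintro ⟨a, e⟩ h1 h2
    split_ifs at h2 with h3
    · simp only [Finset.mem_product, Finset.mem_univ, and_true]
      exact (hT e a h2).2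
    · exact absurd rfl h2
  · rintro ⟨a, e⟩ h1 h2 ⟨a', e'⟩ h1' h2' heq
    simp only [Prod.mk.injEq] at heq
    have he : e = e' := by simpa using heq.2
    subst he
    have := congrArg (st (!e)) heq.1
    rw [st_not_st, st_not_st] at this
    rw [this]
  · rintro ⟨a, e⟩ h1 h2
    split_ifs at h2 with h3
    · have h4 := hL.other' h3.1 h3.2
      have h5 : h (st e a) (st (!e) (st e a)) ≠ 0 := by rw [st_not_st]; exact h2
      refine ⟨(st e a, !e), ?_, ?_, ?_⟩
      · simp only [Finset.mem_product, Finset.mem_univ, and_true]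
        exact (hT (!e) (st e a) h5).1
      · rw [if_pos h4]; exact h5
      · simp only [st_not_st, Bool.not_not]
    · exact absurd rfl h2
  · rintro ⟨a, e⟩ h1 h2
    split_ifs at h2 with h3
    · have h4 := hL.other h3.1 h3.2
      simp only
      rw [if_pos h3, if_pos h4, st_not_st]
    · exact absurd rfl h2

/-- a finite set containing the neighbours -/
def nbh (T : Finset ℤ) : Finset ℤ := T ∪ (T.image (st true) ∪ T.image (st false))

theorem mem_nbh {T : Finset ℤ} {a : ℤ} (h : a ∈ T) : a ∈ nbh T := Finset.mem_union_left _ h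

theorem mem_nbh_st {T : Finset ℤ} {a : ℤ} (e : Bool) (h : a ∈ T) : st e a ∈ nbh T := by
  apply Finset.mem_union_right
  cases e
  · exact Finset.mem_union_right _ (Finset.mem_image_of_mem _ h)
  · exact Finset.mem_union_left _ (Finset.mem_image_of_mem _ h)

theorem mem_nbh_st' {T : Finset ℤ} {a : ℤ} (e : Bool) (h : st e a ∈ T) : a ∈ nbh T := by
  have := mem_nbh_st (!e) h
  rwa [st_not_st] at this

/-! ### homomorphisms from a chain of finite support -/

section H1
variable {V : Type} [AddCommGroup V] [Module k V] {N : Type} [AddCommGroup N] [Module k N]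

/-- `m ↦ ∑ φ (m a) • f a` -/
def chHom (φ : V →ₗ[k] k) (f : ℤ → N) (T : Finset ℤ) : (ℤ → V) →ₗ[k] N where
  toFun m := ∑ a ∈ T, φ (m a) • f a
  map_add' m m' := by
    rw [← Finset.sum_add_distrib]
    refine Finset.sum_congr rfl (fun a _ => ?_)
    rw [Pi.add_apply, map_add, add_smul]
  map_smul' c m := by
    rw [RingHom.id_apply, Finset.smul_sum]
    refine Finset.sum_congr rfl (fun a _ => ?_)
    rw [Pi.smul_apply, map_smul, smul_assoc]

theorem chHom_apply (φ : V →ₗ[k] k) (f : ℤ → N) (T : Finset ℤ) (m : ℤ → V) :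
    chHom φ f T m = ∑ a ∈ T, φ (m a) • f a := rfl

theorem chHom_mono {φ : V →ₗ[k] k} {f : ℤ → N} {T T' : Finset ℤ} (h : T ⊆ T') (hf : ∀ a, a ∉ T → f a = 0) :
    chHom φ f T = chHom φ f T' := by
  refine LinearMap.ext fun m => ?_
  rw [chHom_apply, chHom_apply]
  refine Finset.sum_subset h (fun a _ ha => ?_)
  rw [hf a ha, smul_zero]

theorem chHom_hom {A : Ends (Fin D.nV) (Fin D.nE)} {nx : Fin D.nV → Bool → Fin 3 → Fin D.nV × Bool}
    {L : Ln (Fin D.nV) nx} (hL : L.Ok A) {Q : QMod D k N} {f : ℤ → N} (hf : ∀ a, ChAt Q A L f a) {T : Finset ℤ}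
    (hT : ∀ a, a ∉ T → f a = 0) (φ : V →ₗ[k] k) (g : D.Gen) (m : ℤ → V) :
    chHom φ f T (fop k A L g m) = Q.op g (chHom φ f T m) := by
  cases g with
  | inl i =>
    rw [chHom_apply, chHom_apply, map_sum]
    refine Finset.sum_congr rfl (fun a _ => ?_)
    rw [map_smul, (hf a).1 i, fop_inl]
    split_ifs
    · rfl
    · rw [map_zero, zero_smul, smul_zero]
  | inr α =>
    rw [chHom_mono (T' := nbh T) (fun a ha => mem_nbh ha) hT, chHom_apply, chHom_apply, map_sum]
    have e1 : ∀ a, φ ((fop k A L (Sum.inr α) m) a) • f a =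
        ∑ e : Bool, (if L.lt e a = 0 ∧ A.inA (L.v a) (L.sd e a) = some α then φ (m (st e a)) • f a else 0) := by
      intro a
      rw [fop_inr, map_sum, Finset.sum_smul]
      refine Finset.sum_congr rfl (fun e _ => ?_)
      split_ifs
      · rfl
      · rw [map_zero, zero_smul]
    have e2 : ∀ a, Q.op (Sum.inr α) (φ (m a) • f a) =
        ∑ e : Bool, (if L.lt e a = 2 ∧ A.outA (L.v a) (L.sd e a) = some α then φ (m a) • f (st e a) else 0) := by
      intro a
      rw [map_smul, (hf a).2 α, Finset.smul_sum]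
      refine Finset.sum_congr rfl (fun e _ => ?_)
      split_ifs
      · rfl
      · rw [smul_zero]
    simp only [e1, e2]
    refine exch hL α (fun a a' => φ (m a') • f a) (nbh T) ?_
    intro e a h
    have ha : a ∈ T := by
      by_contra hcon
      apply h
      simp only [hT a hcon, smul_zero]
    exact ⟨mem_nbh ha, mem_nbh_st e ha⟩

end H1

/-! ### the vectors `spr a v` -/

section spr
variable {V : Type} [AddCommGroup V] [Module k V] {nx : Fin D.nV → Bool → Fin 3 → Fin D.nV × Bool}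
variable {A : Ends (Fin D.nV) (Fin D.nE)} (B : LB D k nx A V)

theorem LB.spr_of_not_dvd {p q : ℤ} (v : V) (h : ¬ (B.l : ℤ) ∣ p - q) : B.spr p v q = 0 := by
  rw [LB.spr_apply, if_neg h]

theorem LB.fop_spr_inl (i : Fin D.nV) (p : ℤ) (v : V) :
    fop k A B.L (Sum.inl i) (B.spr p v) = if B.L.v p = i then B.spr p v else 0 := by
  funext q
  rw [fop_inl]
  by_cases h : (B.l : ℤ) ∣ p - q
  · obtain ⟨j, hj⟩ := h
    have hq : q = p + (-j) * B.l := by linarith
    have : B.L.v q = B.L.v p := by rw [hq]; exact B.per.v.mul _ _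
    rw [this]
    split_ifs <;> rfl
  · have h0 : B.spr p v q = 0 := B.spr_of_not_dvd v h
    rw [h0, ite_self]
    split_ifs
    · exact h0.symm
    · rfl

theorem LB.fop_spr_inr (α : Fin D.nE) (p : ℤ) (v : V) :
    fop k A B.L (Sum.inr α) (B.spr p v) = ∑ e : Bool,
      if B.L.lt e p = 2 ∧ A.outA (B.L.v p) (B.L.sd e p) = some α then B.spr (st e p) v else 0 := by
  funext q
  rw [fop_inr, Finset.sum_apply]
  -- reindex the left side by `e ↦ !e`
  have hre : ∀ f : Bool → V, ∑ e : Bool, f e = ∑ e : Bool, f (!e) := by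
    intro f; rw [Fintype.sum_bool, Fintype.sum_bool]; exact add_comm _ _
  rw [hre]
  refine Finset.sum_congr rfl (fun e _ => ?_)
  have hval : B.spr p v (st (!e) q) = B.spr (st e p) v q := by
    rw [LB.spr_apply, LB.spr_apply]
    have : p - st (!e) q = st e p - q := by cases e <;> simp <;> ring
    rw [this]
  have key : ∀ {e : Bool} {p q : ℤ}, (B.l : ℤ) ∣ st e p - q →
      ((B.L.lt (!e) q = 0 ∧ A.inA (B.L.v q) (B.L.sd (!e) q) = some α) ↔
      (B.L.lt e p = 2 ∧ A.outA (B.L.v p) (B.L.sd e p) = some α)) := by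
    intro e p q h
    obtain ⟨j, hj⟩ := h
    have hq : q = st e p + (-j) * B.l := by linarith
    have e1 : B.L.lt (!e) q = B.L.lt (!e) (st e p) := by rw [hq]; exact (B.per.lt _).mul _ _
    have e2 : B.L.v q = B.L.v (st e p) := by rw [hq]; exact B.per.v.mul _ _
    have e3 : B.L.sd (!e) q = B.L.sd (!e) (st e p) := by rw [hq]; exact (LB.Ln_sd_per B.per _).mul _ _
    rw [e1, e2, e3]
    constructor
    · rintro ⟨h1, h2⟩
      have := B.ok.other h1 h2
      rwa [st_not_st, Bool.not_not] at this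
    · rintro ⟨h1, h2⟩
      exact B.ok.other' h1 h2
  by_cases h : (B.l : ℤ) ∣ st e p - q
  · by_cases h1 : B.L.lt e p = 2 ∧ A.outA (B.L.v p) (B.L.sd e p) = some α
    · rw [if_pos h1, if_pos ((key h).2 h1), hval]
    · rw [if_neg h1, if_neg (fun h' => h1 ((key h).1 h'))]; rfl
  · have h0 : B.spr (st e p) v q = 0 := B.spr_of_not_dvd v h
    have h00 : B.spr p v (st (!e) q) = 0 := hval.trans h0
    rw [h00, ite_self]
    split_ifs
    · exact h0.symm
    · rfl

theorem cst_dvd {l : ℕ} (x : ZMod l) (q : ℤ) : (l : ℤ) ∣ cst x - q ↔ (q : ZMod l) = x := by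
  rw [← ZMod.intCast_eq_intCast_iff_dvd_sub, cst_coe]

/-- decomposition of an equivariant function -/
theorem LB.decomp {m : ℤ → V} (h : m ∈ B.S) (A : Finset (ZMod B.l)) (hA : ∀ x, x ∉ A → m (cst x) = 0) :
    m = ∑ x ∈ A, B.spr (cst x) (m (cst x)) := by
  classical
  funext q
  rw [Finset.sum_apply]
  have hval : ∀ x : ZMod B.l, (q : ZMod B.l) = x → B.spr (cst x) (m (cst x)) q = m q := by
    intro x hx
    have hd := (cst_dvd x q).2 hx
    rw [LB.spr_apply, if_pos hd]
    obtain ⟨j, hj⟩ := hd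
    rcases Nat.eq_zero_or_pos B.l with h0 | h0
    · have hq : cst x = q := by
        have h00 : (B.l : ℤ) = 0 := by exact_mod_cast h0
        have : (B.l : ℤ) * j = 0 := by rw [h00, zero_mul]
        linarith
      rw [B.T_zpow_zero_l h0, hq]
    · have hl0 : (B.l : ℤ) ≠ 0 := by exact_mod_cast h0.ne'
      rw [hj, Int.mul_ediv_cancel_left _ hl0]
      have hq : cst x = q + j * B.l := by linarith
      rw [hq]
      exact B.S_zpow h q j
  by_cases hx : (q : ZMod B.l) ∈ A
  · rw [Finset.sum_eq_single_of_mem _ hx]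
    · exact (hval _ rfl).symm
    · intro x _ hne
      apply B.spr_of_not_dvd
      rw [cst_dvd]
      exact fun h' => hne h'.symm
  · rw [Finset.sum_eq_zero]
    · rw [← hval _ rfl, hA _ hx, map_zero]; rfl
    · intro x hx'
      apply B.spr_of_not_dvd
      rw [cst_dvd]
      rintro rfl
      exact hx hx'

end spr

end StrAlg
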