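import Pool.Agent.Lib.MP_b9fd58_lc.GThA

/-!
# The localised string module `M^loc(w)`
-/

set_option autoImplicit false

namespace StrAlg

open Module

theorem sum_bool_e {M : Type*} [AddCommMonoid M] (f : Bool → M) (e : Bool) : ∑ e' : Bool, f e' = f e + f (!e) := by
  rw [Fintype.sum_bool]
  cases e
  · exact add_comm _ _
  · rfl

theorem Bey_iff {e : Bool} {q p : ℤ} : Bey e q p ↔ ∃ n : ℕ, p = stn e n q := by
  cases e
  · rw [Bey_false]
    constructor
    · intro h; exact ⟨(q - p).toNat, by simp; omega⟩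
    · rintro ⟨n, rfl⟩; simp
  · rw [Bey_true]
    constructor
    · intro h; exact ⟨(p - q).toNat, by simp; omega⟩
    · rintro ⟨n, rfl⟩; simp

theorem st_stn (e : Bool) (n p : ℤ) : st e (stn e n p) = stn e (n + 1) p := by
  rw [← stn_one, stn_stn]

theorem stn_st (e : Bool) (n p : ℤ) : stn e n (st e p) = stn e (n + 1) p := by
  rw [← stn_one, stn_stn, add_comm]

theorem stn_not_stn (e : Bool) (m n p : ℤ) : stn (!e) m (stn e n p) = stn e (n - m) p := by
  cases e <;> simp <;> ring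

theorem stn_not_st (e : Bool) (m p : ℤ) : stn (!e) m (st e p) = st e (stn (!e) m p) := by
  cases e <;> simp <;> ring

section shf
variable {D : Dat} {nx : Fin D.nV → Bool → Fin 3 → Fin D.nV × Bool}
variable {k : Type} [Field k] {V : Type} [AddCommGroup V] [Module k V]

theorem Ln.UpT.sd {L : Ln (Fin D.nV) nx} {e : Bool} {p₁ : ℤ} {l : ℕ} (h : L.UpT e p₁ l) (e' : Bool) (n : ℕ) :
    L.sd e' (stn e ((n + l : ℕ) : ℤ) p₁) = L.sd e' (stn e n p₁) := by
  unfold Ln.sd
  rw [h.r n]

theorem Ln.UpT.lt_not {L : Ln (Fin D.nV) nx} {e : Bool} {p₁ : ℤ} {l : ℕ} (h : L.UpT e p₁ l) (n : ℕ) :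
    L.lt (!e) (stn e ((n + 1 + l : ℕ) : ℤ) p₁) = L.lt (!e) (stn e ((n + 1 : ℕ) : ℤ) p₁) := by
  have e1 : stn e ((n + 1 + l : ℕ) : ℤ) p₁ = st e (stn e ((n + l : ℕ) : ℤ) p₁) := by
    rw [st_stn]; congr 1; push_cast; ring
  have e2 : stn e ((n + 1 : ℕ) : ℤ) p₁ = st e (stn e (n : ℤ) p₁) := by
    rw [st_stn]; congr 1
  rw [e1, e2, Ln.lt_back, Ln.lt_back, h.lt]

/-- the shift of a tail of type UP is a homomorphism -/
theorem shf_fop {A : Ends (Fin D.nV) (Fin D.nE)} {L : Ln (Fin D.nV) nx} {e : Bool} {p₁ : ℤ} {l : ℕ}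
    (h : L.UpT e p₁ l) (g : D.Gen) (m : ℤ → V) :
    shf k e p₁ l (fop k A L g m) = fop k A L g (shf k e p₁ l m) := by
  funext q
  by_cases hq : Bey e (stn e l p₁) q
  · obtain ⟨n, rfl⟩ := Bey_iff.1 hq
    have hq' : stn e (n : ℤ) (stn e (l : ℤ) p₁) = stn e ((n + l : ℕ) : ℤ) p₁ := by
      rw [stn_stn]; congr 1; push_cast; ring
    rw [hq'] at hq ⊢
    have hb : stn (!e) (l : ℤ) (stn e ((n + l : ℕ) : ℤ) p₁) = stn e (n : ℤ) p₁ := by
      rw [stn_not_stn]; congr 1; push_cast; ring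
    rw [shf_apply, if_pos hq, hb]
    cases g with
    | inl i =>
      rw [fop_inl, fop_inl, h.v, shf_apply, if_pos hq, hb]
    | inr α =>
      rw [fop_inr, fop_inr, sum_bool_e _ e, sum_bool_e _ e]
      congr 1
      · have hB : Bey e (stn e l p₁) (st e (stn e ((n + l : ℕ) : ℤ) p₁)) := by
          rw [st_stn, Bey_iff]
          exact ⟨n + 1, by rw [stn_stn]; congr 1; push_cast; ring⟩
        rw [h.lt, h.v, h.sd, shf_apply, if_pos hB, stn_not_st, hb]
      · cases n with
        | zero =>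
          have h0 : stn e ((0 + l : ℕ) : ℤ) p₁ = stn e (l : ℤ) p₁ := by congr 1; simp
          have hB : ¬ Bey e (stn e l p₁) (st (!e) (stn e ((0 + l : ℕ) : ℤ) p₁)) := by
            rw [h0]
            cases e <;> simp
          rw [shf_apply, if_neg hB, ite_self, if_neg]
          rintro ⟨h1, -⟩
          have hup := h.up
          simp only [Nat.cast_zero, stn_zero] at h1
          rw [h1] at hup
          exact absurd hup (by simp)
        | succ n =>
          have hB : Bey e (stn e l p₁) (st (!e) (stn e ((n + 1 + l : ℕ) : ℤ) p₁)) := by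
            rw [Bey_iff]
            refine ⟨n, ?_⟩
            cases e <;> simp <;> ring
          have : stn (!e) (l : ℤ) (st (!e) (stn e ((n + 1 + l : ℕ) : ℤ) p₁)) =
              st (!e) (stn e ((n + 1 : ℕ) : ℤ) p₁) := by
            cases e <;> simp <;> ring
          rw [h.lt_not, h.v, h.sd, shf_apply, if_pos hB, this]
  · rw [shf_apply, if_neg hq]
    cases g with
    | inl i =>
      rw [fop_inl, shf_apply, if_neg hq, ite_self]
    | inr α =>
      rw [fop_inr, sum_bool_e _ e]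
      have h2 : ¬ Bey e (stn e l p₁) (st (!e) q) := by
        intro h'
        apply hq
        cases e <;> simp at h' ⊢ <;> omega
      rw [shf_apply, shf_apply, if_neg h2, ite_self, add_zero]
      by_cases h3 : Bey e (stn e l p₁) (st e q)
      · rw [if_neg]
        rintro ⟨h4, -⟩
        have h5 : st e q = stn e (l : ℤ) p₁ := by
          cases e <;> simp at h3 hq ⊢ <;> omega
        have h6 := L.lt_back e q
        rw [h5, h4] at h6
        have hup := h.up
        rw [h6] at hup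
        revert hup
        generalize L.lt (!e) p₁ = x
        revert x; decide
      · rw [if_neg h3, ite_self]

end shf

variable {D : Dat} {k : Type} [Field k] {S : Sides D}

section op
variable {nx : Fin D.nV → Bool → Fin 3 → Fin D.nV × Bool} {V : Type} [AddCommGroup V] [Module k V]

theorem sg_fop {A : Ends (Fin D.nV) (Fin D.nE)} (L : Ln (Fin D.nV) nx) (e : Bool) (g : D.Gen) (m : ℤ → V) :
    sg k e (L.tailD e) (fop k A L g m) = fop k A L g (sg k e (L.tailD e) m) := by
  cases hd : L.tailD e with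
  | none =>
    show (0 : (ℤ → V) →ₗ[k] (ℤ → V)) _ = fop k A L g ((0 : (ℤ → V) →ₗ[k] (ℤ → V)) m)
    simp
  | some x => exact shf_fop (Ln.tailD_some hd) g m

theorem pv_fop {A : Ends (Fin D.nV) (Fin D.nE)} (L : Ln (Fin D.nV) nx) (e : Bool) (χ : Polynomial k) (g : D.Gen)
    (m : ℤ → V) : pv k e (L.tailD e) χ (fop k A L g m) = fop k A L g (pv k e (L.tailD e) χ m) := by
  have h1 : ∀ i : ℕ, ((sg k e (L.tailD e)) ^ i) (fop k A L g m) = fop k A L g (((sg k e (L.tailD e)) ^ i) m) := by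
    intro i
    induction i with
    | zero => rfl
    | succ i ih => rw [pow_succ', Module.End.mul_apply, ih, sg_fop]; rfl
  rw [pv_eq_sum, pv_eq_sum, map_sum]
  refine Finset.sum_congr rfl (fun i _ => ?_)
  rw [h1, map_smul]

theorem Fz.fop {A : Ends (Fin D.nV) (Fin D.nE)} (L : Ln (Fin D.nV) nx) {e : Bool} (g : D.Gen) {m : ℤ → V}
    (h : Fz e m) : Fz e (fop k A L g m) := by
  obtain ⟨B, hB⟩ := h
  refine ⟨stn e 1 B, fun p hp => ?_⟩
  cases g with
  | inl i =>
    rw [fop_inl, hB, ite_self]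
    cases e <;> simp at hp ⊢ <;> omega
  | inr α =>
    rw [fop_inr]
    refine Finset.sum_eq_zero (fun e' _ => ?_)
    rw [hB, ite_self]
    cases e <;> cases e' <;> simp at hp ⊢ <;> omega

theorem Rz.fop {A : Ends (Fin D.nV) (Fin D.nE)} (L : Ln (Fin D.nV) nx) {e : Bool} (g : D.Gen) {m : ℤ → V}
    (h : Rz k e (L.tailD e) m) : Rz k e (L.tailD e) (fop k A L g m) := by
  obtain ⟨χ, h1, h2⟩ := h
  exact ⟨χ, h1, by rw [pv_fop]; exact h2.fop L g⟩

end op

/-- positions beyond the start of an UP tail are positions -/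
theorem Str.mem_of_UpT {w : Str S} {e : Bool} {p₁ : ℤ} {l : ℕ} (h : w.L.UpT e p₁ l) {q : ℤ} (hq : Bey e p₁ q) :
    q ∈ w.Z := by
  obtain ⟨n, rfl⟩ := Bey_iff.1 hq
  exact (Str.mem_of_lt (h.ne n)).1

/-- zero outside the positions -/
def Str.Sup (w : Str S) {V : Type} [Zero V] (m : ℤ → V) : Prop := ∀ p, p ∉ w.Z → m p = 0

theorem Str.sg_not_mem {w : Str S} {V : Type} [AddCommGroup V] [Module k V] (e : Bool) (m : ℤ → V) {p : ℤ}
    (hp : p ∉ w.Z) : sg k e (w.L.tailD e) m p = 0 := by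
  cases hd : w.L.tailD e with
  | none => rfl
  | some x =>
    show shf k e x.1 x.2 m p = 0
    rw [shf_apply, if_neg]
    intro h
    apply hp
    refine Str.mem_of_UpT (Ln.tailD_some hd) ?_
    rw [Bey_iff] at h ⊢
    obtain ⟨n, rfl⟩ := h
    exact ⟨x.2 + n, by rw [stn_stn]; push_cast; rfl⟩

/-- outside the positions `χ(σ)` does nothing -/
theorem Str.pv_not_mem {w : Str S} {V : Type} [AddCommGroup V] [Module k V] (e : Bool) {χ : Polynomial k}
    (hχ : χ.coeff 0 = 1) (m : ℤ → V) {p : ℤ} (hp : p ∉ w.Z) : pv k e (w.L.tailD e) χ m p = m p := by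
  rw [pv_eq_sum, Finset.sum_range_succ', hχ]
  simp only [pow_zero, Module.End.one_apply, one_smul, Pi.add_apply, Finset.sum_apply, Pi.smul_apply]
  rw [Finset.sum_eq_zero, zero_add]
  intro i _
  rw [pow_succ', Module.End.mul_apply, w.sg_not_mem e _ hp, smul_zero]

/-- **the localised module** as a space of functions -/
def Str.locS (w : Str S) (k : Type) [Field k] : Submodule k (ℤ → k) where
  carrier := {m | (∀ p, p ∉ w.Z → m p = 0) ∧ ∀ e, Rz k e (w.L.tailD e) m}
  add_mem' := fun {m m'} h h' => ⟨fun p hp => by rw [Pi.add_apply, h.1 p hp, h'.1 p hp, add_zero],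
    fun e => (h.2 e).add (h'.2 e)⟩
  zero_mem' := ⟨fun _ _ => rfl, fun e => Rz.of_Fz (Fz.zero e)⟩
  smul_mem' := fun c m h => ⟨fun p hp => by rw [Pi.smul_apply, h.1 p hp, smul_zero], fun e => (h.2 e).smul c⟩

theorem Str.locS_fop (w : Str S) (g : D.Gen) {m : ℤ → k} (h : m ∈ w.locS k) :
    fop k S.ends w.L g m ∈ w.locS k :=
  ⟨LB.supp_fop (Z := w.Z) w.Zcl g h.1, fun e => (h.2 e).fop w.L g⟩

/-- **the localised module** `M^loc(w)` -/
noncomputable def Str.Mloc (w : Str S) (k : Type) [Field k] : Md D k :=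
  ⟨w.locS k, (w.fnQ k k).sub (w.locS k) (fun g _ hm => w.locS_fop g hm)⟩

/-- the operator `χ₁(σ_R) χ₂(σ_L)` -/
noncomputable def Str.sOp (w : Str S) (k : Type) [Field k] (χ₁ χ₂ : Polynomial k) : (ℤ → k) →ₗ[k] (ℤ → k) :=
  pv k true (w.L.tailD true) χ₁ ∘ₗ pv k false (w.L.tailD false) χ₂

theorem Str.pv_loc (w : Str S) (e : Bool) {χ : Polynomial k} (hχ : χ.coeff 0 = 1) {m : ℤ → k} :
    pv k e (w.L.tailD e) χ m ∈ w.locS k ↔ m ∈ w.locS k := by
  constructor
  · rintro ⟨h1, h2⟩
    refine ⟨fun p hp => ?_, fun e' => ?_⟩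
    · rw [← w.pv_not_mem e hχ m hp]; exact h1 p hp
    · by_cases he : e' = e
      · subst he; exact Rz.of_pv_same χ hχ (h2 e')
      · have : e' = !e := by cases e <;> cases e' <;> simp_all
        subst this
        exact (Rz.pv_other χ hχ).1 (h2 (!e))
  · rintro ⟨h1, h2⟩
    refine ⟨fun p hp => ?_, fun e' => ?_⟩
    · rw [w.pv_not_mem e hχ m hp]; exact h1 p hp
    · by_cases he : e' = e
      · subst he; exact Rz.pv_same χ (h2 e')
      · have : e' = !e := by cases e <;> cases e' <;> simp_all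
        subst this
        exact (Rz.pv_other χ hχ).2 (h2 (!e))

end StrAlg
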