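import Pool.Agent.Lib.MP_b9fd58_lc.GOpn

/-!
# The localised string module: chains, dual chains, the operators `χ(σ)`
-/

set_option autoImplicit false

namespace StrAlg

open Module

variable {D : Dat} {k : Type} [Field k] {S : Sides D}

theorem Str.perOK0 (w : Str S) (k : Type) [Field k] (V : Type) [AddCommGroup V] [Module k V] :
    w.PerOK 0 (LinearEquiv.refl k V) :=
  ⟨w.per_zero, fun h => absurd h (lt_irrefl 0), fun _ => rfl⟩

/-- the line module data of `M^Π(w)` -/
noncomputable def Str.B0 (w : Str S) (k : Type) [Field k] : StrAlg.LB D k S.nx S.ends k :=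
  w.LB 0 (LinearEquiv.refl k k) (w.perOK0 k k)

theorem Str.B0_spr (w : Str S) (q : ℤ) (c : k) (p : ℤ) : (w.B0 k).spr q c p = if p = q then c else 0 := by
  rw [LB.spr_apply]
  have h1 : (((w.B0 k).l : ℤ) ∣ q - p) ↔ p = q := by
    show ((0 : ℕ) : ℤ) ∣ q - p ↔ _
    rw [Nat.cast_zero, zero_dvd_iff]
    constructor <;> intro h <;> linarith
  by_cases h : p = q
  · rw [if_pos (h1.2 h), if_pos h, (w.B0 k).T_zpow_zero_l rfl]
  · rw [if_neg (fun h' => h (h1.1 h')), if_neg h]

section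
variable (w : Str S)

/-- the elements of the localised module -/
noncomputable def toML : (w.locS k) ≃ₗ[k] (w.Mloc k).C := LinearEquiv.refl k (w.locS k)

/-- the underlying function -/
noncomputable def cfL : (w.Mloc k).C →ₗ[k] (ℤ → k) := (w.locS k).subtype

theorem cfL_toML (m : w.locS k) : cfL w (toML w m) = m.1 := rfl

theorem cfL_mem (m : (w.Mloc k).C) : cfL w m ∈ w.locS k := (show w.locS k from m).2

theorem cfL_op (g : D.Gen) (m : (w.Mloc k).C) :
    cfL w ((w.Mloc k).Q.op g m) = fop k S.ends w.L g (cfL w m) := rfl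

theorem cfL_zero {m : (w.Mloc k).C} {p : ℤ} (hp : p ∉ w.Z) : cfL w m p = 0 := (cfL_mem w m).1 p hp

theorem cfL_inj {m m' : (w.Mloc k).C} (h' : cfL w m = cfL w m') : m = m' := Subtype.ext h'

/-- the dual chain of the localised module -/
noncomputable def xiL (p : ℤ) : (w.Mloc k).C →ₗ[k] k := LinearMap.proj p ∘ₗ cfL w

theorem xiL_apply (p : ℤ) (m : (w.Mloc k).C) : xiL w p m = cfL w m p := rfl

theorem xiL_dc (p : ℤ) : DcW (w.Mloc k).Q S.ends w.L (xiL w) p := by
  refine ⟨fun i n => ?_, fun α n => ?_⟩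
  · rw [xiL_apply, cfL_op]; rfl
  · rw [xiL_apply, cfL_op]; rfl

theorem xiL_ne {p : ℤ} (h' : xiL (k := k) w p ≠ 0) : p ∈ w.Z := by
  by_contra hcon
  exact h' (LinearMap.ext fun m => cfL_zero w hcon)

theorem spr_mem_locS {q : ℤ} (hq : q ∈ w.Z) (c : k) : (w.B0 k).spr q c ∈ w.locS k := by
  refine ⟨fun p hp => ?_, fun e => Rz.of_Fz ⟨stn e 1 q, fun p hp => ?_⟩⟩
  · rw [Str.B0_spr, if_neg]
    rintro rfl; exact hp hq
  · rw [Str.B0_spr, if_neg]
    rintro rfl
    cases e <;> simp at hp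

/-- the chain of the localised module -/
noncomputable def zL (q : ℤ) : (w.Mloc k).C :=
  open Classical in if hq : q ∈ w.Z then toML w ⟨(w.B0 k).spr q 1, spr_mem_locS w hq 1⟩ else 0

theorem cfL_zL {q : ℤ} (hq : q ∈ w.Z) : cfL w (zL w q) = (w.B0 k).spr q 1 := by
  unfold zL
  rw [dif_pos hq]; rfl

theorem zL_zero {q : ℤ} (hq : q ∉ w.Z) : zL (k := k) w q = 0 := by
  unfold zL
  rw [dif_neg hq]

theorem zL_ch (p : ℤ) : ChAt (w.Mloc k).Q S.ends w.L (zL w) p := by
  by_cases hp : p ∈ w.Z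
  · refine ⟨fun i => ?_, fun α => ?_⟩
    · apply cfL_inj
      rw [cfL_op, cfL_zL w hp]
      refine ((w.B0 k).fop_spr_inl i p 1).trans ?_
      show (if w.L.v p = i then _ else _) = _
      split_ifs
      · rw [cfL_zL w hp]
      · rw [map_zero]
    · apply cfL_inj
      rw [cfL_op, cfL_zL w hp, map_sum]
      refine ((w.B0 k).fop_spr_inr α p 1).trans ?_
      refine Finset.sum_congr rfl (fun e _ => ?_)
      show (if w.L.lt e p = 2 ∧ S.ends.outA (w.L.v p) (w.L.sd e p) = some α then _ else _) = _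
      split_ifs with h'
      · rw [cfL_zL w (Str.mem_of_lt (e := e) (by rw [h'.1]; decide)).2]
      · rw [map_zero]
  · have h0 : zL (k := k) w p = 0 := zL_zero w hp
    refine ⟨fun i => ?_, fun α => ?_⟩
    · simp only [h0, map_zero, ite_self]
    · simp only [h0, map_zero]
      symm
      refine Finset.sum_eq_zero (fun e _ => ?_)
      rw [if_neg]
      rintro ⟨h', -⟩
      exact hp (Str.mem_of_lt (e := e) (by rw [h']; decide)).1

theorem xiL_zL {q q' : ℤ} (hq : q ∈ w.Z) : xiL (k := k) w q' (zL w q) = if q = q' then 1 else 0 := by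
  rw [xiL_apply, cfL_zL w hq, Str.B0_spr]
  simp only [eq_comm]

/-- elements of finite support -/
theorem ML_decomp (m : (w.Mloc k).C) (B : Finset ℤ) (hB : ∀ q, q ∉ B → cfL w m q = 0) :
    m = ∑ y ∈ B, cfL w m y • zL w y := by
  classical
  apply cfL_inj
  rw [map_sum]
  funext p
  rw [Finset.sum_apply]
  have h1 : ∀ y, cfL w (cfL w m y • zL w y) p = if y = p then cfL w m p else 0 := by
    intro y
    rw [map_smul, Pi.smul_apply, smul_eq_mul]
    by_cases hy : y ∈ w.Z
    · rw [cfL_zL w hy, Str.B0_spr]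
      by_cases h : p = y
      · subst h; simp
      · rw [if_neg h, if_neg (fun h' => h h'.symm), mul_zero]
    · rw [cfL_zero w hy, zero_mul]
      split_ifs with h
      · rw [← h, cfL_zero w hy]
      · rfl
  simp only [h1]
  rw [Finset.sum_ite_eq']
  split_ifs with h
  · rfl
  · exact hB p h

/-- the operator `χ(σ)` on the localised module -/
noncomputable def pvL (e : Bool) {χ : Polynomial k} (hχ : χ.coeff 0 = 1) : (w.Mloc k).C →ₗ[k] (w.Mloc k).C :=
  (toML w).toLinearMap ∘ₗ ((pv k e (w.L.tailD e) χ).restrict (p := w.locS k) (q := w.locS k)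
    (fun _ hm => (w.pv_loc e hχ).2 hm)) ∘ₗ (toML w).symm.toLinearMap

theorem cfL_pvL (e : Bool) {χ : Polynomial k} (hχ : χ.coeff 0 = 1) (m : (w.Mloc k).C) :
    cfL w (pvL w e hχ m) = pv k e (w.L.tailD e) χ (cfL w m) := rfl

theorem pvL_hom (e : Bool) {χ : Polynomial k} (hχ : χ.coeff 0 = 1) : (w.Mloc k).Hom (w.Mloc k) (pvL w e hχ) := by
  intro g m
  apply cfL_inj
  rw [cfL_pvL, cfL_op, cfL_op, cfL_pvL, pv_fop]

theorem pvL_bij (e : Bool) {χ : Polynomial k} (hχ : χ.coeff 0 = 1) : Function.Bijective (pvL w e hχ) := by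
  have hb := pv_bijective (k := k) (V := k) (e := e) (w.L.tailD_pos e) χ hχ
  constructor
  · intro m m' h
    apply cfL_inj
    apply hb.1
    rw [← cfL_pvL w e hχ, ← cfL_pvL w e hχ, h]
  · intro m
    obtain ⟨m', hm'⟩ := hb.2 (cfL w m)
    have h1 : m' ∈ w.locS k := (w.pv_loc e hχ).1 (hm' ▸ cfL_mem w m)
    refine ⟨toML w ⟨m', h1⟩, ?_⟩
    apply cfL_inj
    rw [cfL_pvL, cfL_toML]
    exact hm'

/-- the inverse of a bijective homomorphism -/
theorem exists_inv_hom {M N : Md D k} {f : M.C →ₗ[k] N.C} (hf : M.Hom N f) (hb : Function.Bijective f) :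
    ∃ g : N.C →ₗ[k] M.C, N.Hom M g ∧ (∀ n, f (g n) = n) ∧ ∀ m, g (f m) = m := by
  obtain ⟨e, he⟩ : ∃ e : M.C ≃ₗ[k] N.C, ∀ m, e m = f m := ⟨LinearEquiv.ofBijective f hb, fun m => rfl⟩
  have h1 : ∀ n, f (e.symm n) = n := fun n => by rw [← he]; exact e.apply_symm_apply n
  refine ⟨e.symm.toLinearMap, ?_, h1, fun m => ?_⟩
  · intro g n
    apply hb.1
    rw [hf]
    show f (e.symm (N.Q.op g n)) = N.Q.op g (f (e.symm n))
    rw [h1, h1]
  · show e.symm (f m) = m
    rw [← he]; exact e.symm_apply_apply m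

end

end StrAlg
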