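import Pool.Agent.Lib.MP_b9fd58_lc.GLoc

/-!
# Openness through a chain and a dual chain that are dual to each other
-/

set_option autoImplicit false

namespace StrAlg

open Module

variable {D : Dat} {k : Type} [Field k] {S : Sides D}

section
variable {N : Type} [AddCommGroup N] [Module k N]
variable {nx : Fin D.nV → Bool → Fin 3 → Fin D.nV × Bool}

/-- a kernel with finite support has no infinite classes -/
theorem IsKer0.isKer_of_supp {ι E : Type*} {nx : ι → Bool → Fin 3 → ι × Bool} [Zero E] {X Y : Ln ι nx}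
    {K : ℤ → ℤ → E} (hK : IsKer0 X Y K) (A : Finset ℤ) (hA : ∀ a b, K a b ≠ 0 → a ∈ A) : IsKer X Y K := by
  classical
  refine hK.isKer ?_
  intro o e a b hm hinf
  by_contra hne
  have h1 : ∀ n : ℕ, stn e n a ∈ A := by
    intro n
    have h2 := hK.walk hm (hinf n)
    rw [← h2] at hne
    exact hA _ _ hne
  have hinj : Function.Injective (fun n : ℕ => stn e (n : ℤ) a) := by
    intro n n' h
    cases e <;> simpa using h
  have h2 : Set.Finite (Set.range (fun n : ℕ => stn e (n : ℤ) a)) :=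
    A.finite_toSet.subset (by rintro _ ⟨n, rfl⟩; exact h1 n)
  exact Set.infinite_range_of_injective hinj h2

theorem IsKer0.isKer_of_supp' {ι E : Type*} {nx : ι → Bool → Fin 3 → ι × Bool} [Zero E] {X Y : Ln ι nx}
    {K : ℤ → ℤ → E} (hK : IsKer0 X Y K) (B : Finset ℤ) (hB : ∀ a b, K a b ≠ 0 → b ∈ B) : IsKer X Y K := by
  classical
  refine hK.isKer ?_
  intro o e a b hm hinf
  by_contra hne
  have h1 : ∀ n : ℕ, stn (e == o) n b ∈ B := by
    intro n
    have h2 := hK.walk hm (hinf n)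
    rw [← h2] at hne
    exact hB _ _ hne
  have hinj : Function.Injective (fun n : ℕ => stn (e == o) (n : ℤ) b) := by
    intro n n' h
    cases h0 : (e == o) <;> rw [h0] at h <;> simpa using h
  have h2 : Set.Finite (Set.range (fun n : ℕ => stn (e == o) (n : ℤ) b)) :=
    B.finite_toSet.subset (by rintro _ ⟨n, rfl⟩; exact h1 n)
  exact Set.infinite_range_of_injective hinj h2

/-- openness from a chain and a dual chain along `w` that are dual to each other -/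
theorem open_of_delta {Q : QMod D k N} {A : Ends (Fin D.nV) (Fin D.nE)} {w X Y : Ln (Fin D.nV) nx} (hX : X.Ok A)
    (hY : Y.Ok A) {z : ℤ → N} {ξ : ℤ → N →ₗ[k] k} (hz : ∀ q, ChAt Q A w z q) (hξ : ∀ q, DcAt Q A w ξ q)
    {P : ℤ → Prop} (hcl : w.Cl P) (hδ : ∀ q q', P q → P q' → ξ q' (z q) = if q = q' then 1 else 0)
    {o₀ o' : Bool} {a₀ q₀ b₀ : ℤ} (hP : P q₀)
    (aX : X.Abs a₀) (aY : Y.Abs b₀)
    (m1 : Mt X w o₀ a₀ q₀) (l1 : LeD X w o₀ a₀ q₀) (f1 : FinCl X w o₀ a₀ q₀)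
    (m2 : Mt w Y o' q₀ b₀) (l2 : LeD w Y o' q₀ b₀) (f2 : FinCl w Y o' q₀ b₀)
    (c γ : ℤ → k) (hom : OmS X Y c γ (o₀ == o') a₀ b₀ ≠ 0) :
    ∃ (f : ℤ → N) (η : ℤ → N →ₗ[k] k) (S T : Finset ℤ), (∀ a, ChAt Q A X f a) ∧ (∀ b, DcAt Q A Y η b) ∧
      (∀ a, a ∉ S → f a = 0) ∧ (∀ b, b ∉ T → η b = 0) ∧
      ∑ a ∈ S, ∑ b ∈ T, γ b * c a * η b (f a) ≠ 0 := by
  classical
  set f : ℤ → N := pull X w o₀ a₀ q₀ z with hf
  set η : ℤ → N →ₗ[k] k := push w Y o' q₀ b₀ ξ with hη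
  set IX := Finset.Icc (a₀ - lenD X w o₀ false a₀ q₀) (a₀ + lenD X w o₀ true a₀ q₀) with hIX
  set JY := Finset.Icc (b₀ - (lenD w Y o' false q₀ b₀ + lenD w Y o' true q₀ b₀))
      (b₀ + (lenD w Y o' false q₀ b₀ + lenD w Y o' true q₀ b₀)) with hJY
  have hfc : ∀ a, ChAt Q A X f a := pull_chain m1 l1 (fun a q _ => hz q)
  have hηc : ∀ b, DcAt Q A Y η b := push_chain m2 l2 (fun q b _ => hξ q)
  have hf0 : ∀ a, f a ≠ 0 → ∃ q, Cn X w o₀ a₀ q₀ a q := by
    intro a ha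
    by_contra hcon
    exact ha (pull_zero hcon)
  have hη0 : ∀ b, η b ≠ 0 → ∃ q, Cn w Y o' q₀ b₀ q b := by
    intro b hb
    by_contra hcon
    exact hb (push_zero hcon)
  have hne1 : ∀ a b, η b (f a) ≠ 0 → f a ≠ 0 ∧ η b ≠ 0 := by
    intro a b h
    exact ⟨fun h0 => h (by rw [h0, map_zero]), fun h0 => h (by rw [h0, LinearMap.zero_apply])⟩
  have hKH : KH A X Y (fun a b => η b (f a)) := by
    refine chain_KH hfc hηc ?_ ?_
    · intro a ha
      obtain ⟨q, hq⟩ := hf0 a ha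
      exact hq.abs_left aX
    · intro b hb
      obtain ⟨q, hq⟩ := hη0 b hb
      exact hq.abs_right aY
  have hK : IsKer X Y (fun a b => η b (f a)) := by
    refine (hKH.isKer0 hX hY).isKer_of_supp IX ?_
    intro a b h
    obtain ⟨q, hq⟩ := hf0 a (hne1 _ _ h).1
    exact hq.mem_Icc_left f1
  have f3 : FinCl X Y (o₀ == o') a₀ b₀ := by
    intro e
    obtain ⟨n, hn⟩ := f2 (e == o₀)
    exact ⟨n, fun h' => hn (AgD.sandwich l1 l2 h').2⟩
  refine ⟨f, η, IX, JY, hfc, hηc, ?_, ?_, ?_⟩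
  · intro a ha
    by_contra hne
    obtain ⟨q, hq⟩ := hf0 a hne
    exact ha (hq.mem_Icc_left f1)
  · intro b hb
    by_contra hne
    obtain ⟨q, hq⟩ := hη0 b hne
    exact hb (hq.mem_Icc_right f2)
  · rw [pair_one (K := fun a b => η b (f a)) hK IX JY ?_ ?_ (o₀ := (o₀ == o')) (m1.trans m2) f3 ?_]
    · have h1 : η b₀ (f a₀) = 1 := by
        rw [hη, hf, pull_eq Cn.refl, push_eq Cn.refl, hδ q₀ q₀ hP hP, if_pos rfl]
      rw [h1, one_mul]
      exact hom
    · intro a ha b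
      by_contra hne
      obtain ⟨q, hq⟩ := hf0 a (hne1 _ _ hne).1
      exact ha (hq.mem_Icc_left f1)
    · intro b hb a
      by_contra hne
      obtain ⟨q, hq⟩ := hη0 b (hne1 _ _ hne).2
      exact hb (hq.mem_Icc_right f2)
    · intro o a b hm hne hnc
      exfalso
      obtain ⟨q, hq⟩ := hf0 a (hne1 _ _ hne).1
      obtain ⟨q', hq'⟩ := hη0 b (hne1 _ _ hne).2
      have hval : η b (f a) = ξ q' (z q) := by rw [hη, hf, pull_eq hq, push_eq hq']
      have hqq : q = q' := by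
        by_contra hcon
        apply hne
        show η b (f a) = 0
        rw [hval, hδ q q' (hcl.cn hP hq) (hcl.cn' hP hq'), if_neg hcon]
      subst hqq
      apply hnc
      have h4 : Mt X Y (o₀ == o') a b := (hq.mt.2 m1).trans (hq'.mt.2 m2)
      exact ⟨hm.unique h4, hq.comp hq'⟩

end

/-- openness of a normal form from dual chains along `w` -/
theorem NF.opn_of_delta (w : Str S) (N : Md D k) (p : NF S k) (hp : ¬ p.Crit w) {z : ℤ → N.C} {ξ : ℤ → N.C →ₗ[k] k}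
    (hz : ∀ q, ChAt N.Q S.ends w.L z q) (hξ : ∀ q, DcAt N.Q S.ends w.L ξ q)
    (hδ : ∀ q q', q ∈ w.Z → q' ∈ w.Z → ξ q' (z q) = if q = q' then 1 else 0) : p.pr.Opn N := by
  by_contra hcl
  apply hp
  intro i j o o' a q b ha hq hb m1 m2 l1 l2 f1 f2 κ
  by_contra hne
  apply hcl
  rw [NF.opn_iff]
  refine ⟨i, j, ?_⟩
  obtain ⟨φ, v, h1⟩ := exists_rank_one hne
  rw [Om_rank_one] at h1
  obtain ⟨f, η, A, B, hf, hη, hA, hB, hsum⟩ := open_of_delta (p.X i).x.ok (p.Y j).x.ok hz hξ w.cl hδ hq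
    ((p.X i).x.Zabs a ha) ((p.Y j).x.Zabs b hb) m1 l1 f1 m2 l2 f2
    (fun a => φ ((p.X i).fn (p.a i) a)) (fun r => (p.Y j).cf (p.b j) r v) h1
  refine ⟨chE (p.X i).ok φ f A, dcHom (p.Y j).ok η B v, chE_hom (p.X i).ok hf hA φ,
    dcHom_hom (p.Y j).ok hη hB v, ?_⟩
  show (p.b j) (dcHom (p.Y j).ok η B v (chE (p.X i).ok φ f A (p.a i))) ≠ 0
  rw [val_chE_dcHom]
  exact hsum

end StrAlg
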