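import Pool.Agent.Lib.MP_b9fd58_lc.GSnd2

/-!
# Periodic strings: the band module with coefficients in the Laurent series
-/

set_option autoImplicit false

namespace StrAlg

open Module

section laurent

/-- Laurent series with the algebra module structure -/
def LSV (k : Type) [Field k] : Type := HahnSeries ℤ k
noncomputable instance (k : Type) [Field k] : Field (LSV k) := inferInstanceAs (Field (HahnSeries ℤ k))
noncomputable instance (k : Type) [Field k] : Algebra k (LSV k) :=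
  (show k →+* LSV k from (HahnSeries.C : k →+* HahnSeries ℤ k)).toAlgebra
variable (k : Type) [Field k]
noncomputable def lsx (n : ℤ) : LSV k := HahnSeries.single n (1 : k)
theorem lsx_mul (i j : ℤ) : lsx k i * lsx k j = lsx k (i + j) := by
  show HahnSeries.single i (1 : k) * HahnSeries.single j (1 : k) = HahnSeries.single (i + j) (1 : k)
  rw [HahnSeries.single_mul_single, one_mul]
theorem lsx_zero : lsx k 0 = 1 := rfl
def toH (v : LSV k) : HahnSeries ℤ k := v
theorem toH_mul (v w : LSV k) : toH k (v * w) = toH k v * toH k w := rfl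
theorem toH_add (v w : LSV k) : toH k (v + w) = toH k v + toH k w := rfl
theorem toH_alg (c : k) : toH k (algebraMap k (LSV k) c) = HahnSeries.single (0:ℤ) c := by
  rfl
theorem toH_smul (c : k) (v : LSV k) : toH k (c • v) = HahnSeries.single (0:ℤ) c * toH k v := by
  rw [Algebra.smul_def, toH_mul, toH_alg]
noncomputable def cofLS (n : ℤ) : LSV k →ₗ[k] k where
  toFun v := (toH k v).coeff n
  map_add' _ _ := rfl
  map_smul' c v := by
    rw [toH_smul]
    exact HahnSeries.coeff_single_zero_mul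
theorem cof_lsx (n i : ℤ) : cofLS k n (lsx k i) = if i = n then 1 else 0 := by
  show (HahnSeries.single i (1 : k)).coeff n = _
  rw [HahnSeries.coeff_single]
  by_cases h : n = i
  · rw [if_pos h, if_pos h.symm]
  · rw [if_neg h, if_neg (fun h' => h h'.symm)]

/-- multiplication by the variable -/
noncomputable def TL : LSV k ≃ₗ[k] LSV k :=
  LinearEquiv.ofLinearMap (LinearMap.mulLeft k (lsx k 1)) (LinearMap.mulLeft k (lsx k (-1)))
    (by
      refine LinearMap.ext fun v => ?_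
      rw [LinearMap.comp_apply, LinearMap.mulLeft_apply, LinearMap.mulLeft_apply, ← mul_assoc, lsx_mul]
      exact one_mul v)
    (by
      refine LinearMap.ext fun v => ?_
      rw [LinearMap.comp_apply, LinearMap.mulLeft_apply, LinearMap.mulLeft_apply, ← mul_assoc, lsx_mul]
      exact one_mul v)

theorem TL_apply (v : LSV k) : TL k v = lsx k 1 * v := rfl

theorem TL_zpow (j : ℤ) (v : LSV k) : (TL k ^ j) v = lsx k j * v := by
  have h1 : ∀ (n : ℕ) (v : LSV k), (TL k ^ n) v = lsx k n * v := by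
    intro n
    induction n with
    | zero => intro v; exact (one_mul v).symm
    | succ n ih =>
      intro v
      rw [pow_succ, LinearEquiv.mul_apply, ih, TL_apply, ← mul_assoc, lsx_mul]
      push_cast; rfl
  obtain ⟨n, rfl | rfl⟩ := j.eq_nat_or_neg
  · rw [zpow_natCast, h1]
  · have h2 : (TL k ^ n) (lsx k (-(n : ℤ)) * v) = v := by
      rw [h1, ← mul_assoc, lsx_mul, add_neg_cancel, lsx_zero, one_mul]
    have h3 : (TL k ^ (-(n : ℤ))) ((TL k ^ n) (lsx k (-(n : ℤ)) * v)) = lsx k (-(n : ℤ)) * v := by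
      rw [zpow_neg, zpow_natCast, ← LinearEquiv.mul_apply, inv_mul_cancel]; rfl
    rw [h2] at h3
    exact h3

theorem cof_TL (j : ℤ) : cofLS k 0 ((TL k ^ j) 1) = if j = 0 then 1 else 0 := by
  rw [TL_zpow, mul_one, cof_lsx]

/-- a nonzero polynomial in a power of the variable is nonzero -/
theorem aeval_lsx_ne {n : ℕ} (hn : 0 < n) {μ : Polynomial k} (hμ : μ ≠ 0) :
    Polynomial.aeval (lsx k n) μ ≠ 0 := by
  intro h
  apply hμ
  ext i
  have hpow : ∀ j : ℕ, (lsx k n) ^ j = lsx k ((j * n : ℕ) : ℤ) := by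
    intro j
    induction j with
    | zero => rw [pow_zero, Nat.zero_mul]; rfl
    | succ j ih =>
      rw [pow_succ, ih, lsx_mul]
      congr 1; push_cast; ring
  have h1 := congrArg (cofLS k ((i * n : ℕ) : ℤ)) h
  rw [Polynomial.aeval_eq_sum_range, map_sum, map_zero] at h1
  have h3 : ∀ j ∈ Finset.range (μ.natDegree + 1), cofLS k ((i * n : ℕ) : ℤ) (μ.coeff j • (lsx k n) ^ j) =
      if j = i then μ.coeff i else 0 := by
    intro j _
    rw [map_smul, hpow, cof_lsx, smul_eq_mul]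
    by_cases hj : j = i
    · subst hj; rw [if_pos rfl, if_pos rfl, mul_one]
    · rw [if_neg, if_neg hj, mul_zero]
      intro h'
      apply hj
      have h4 : j * n = i * n := by exact_mod_cast h'
      exact Nat.eq_of_mul_eq_mul_right hn h4
  rw [Finset.sum_congr rfl h3, Finset.sum_ite_eq'] at h1
  rw [Polynomial.coeff_zero]
  split_ifs at h1 with h4
  · exact h1
  · rw [Finset.mem_range, not_lt] at h4
    exact Polynomial.coeff_eq_zero_of_natDegree_lt (by omega)

theorem aeval_mulLeft (a : LSV k) (μ : Polynomial k) (v : LSV k) :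
    Polynomial.aeval (LinearMap.mulLeft k a) μ v = Polynomial.aeval a μ * v := by
  have h : ∀ n : ℕ, (LinearMap.mulLeft k a) ^ n = LinearMap.mulLeft k (a ^ n) := by
    intro n
    induction n with
    | zero => refine LinearMap.ext fun w => ?_; exact (one_mul w).symm
    | succ n ih =>
      refine LinearMap.ext fun w => ?_
      rw [pow_succ, Module.End.mul_apply, ih, LinearMap.mulLeft_apply, LinearMap.mulLeft_apply,
        LinearMap.mulLeft_apply, pow_succ, mul_assoc]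
  rw [Polynomial.aeval_eq_sum_range, Polynomial.aeval_eq_sum_range, LinearMap.sum_apply, Finset.sum_mul]
  refine Finset.sum_congr rfl (fun i _ => ?_)
  rw [LinearMap.smul_apply, h, LinearMap.mulLeft_apply, smul_mul_assoc]

/-- a nonzero polynomial in a positive power of the shift is bijective -/
theorem TL_poly {n : ℕ} (hn : 0 < n) {μ : Polynomial k} (hμ : μ ≠ 0) :
    ∃ a : LSV k, a ≠ 0 ∧ ∀ v, Polynomial.aeval ((TL k ^ (n : ℤ)).toLinearMap) μ v = a * v := by
  refine ⟨_, aeval_lsx_ne k hn hμ, fun v => ?_⟩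
  have : (TL k ^ (n : ℤ)).toLinearMap = LinearMap.mulLeft k (lsx k n) := by
    refine LinearMap.ext fun w => ?_
    exact TL_zpow k n w
  rw [this, aeval_mulLeft]

end laurent

section inf
variable {ι : Type*} {nx : ι → Bool → Fin 3 → ι × Bool} {k VX VY : Type} [Field k]
  [AddCommGroup VX] [Module k VX] [AddCommGroup VY] [Module k VY]

theorem zpow_left {W : Type} {l : ℕ} {T : VX ≃ₗ[k] VX} {K : ℤ → VX → W} (h : ∀ p v, K (p + l) v = K p (T v))
    (j p : ℤ) (v : VX) : K (p + j * l) v = K p ((T ^ j) v) := by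
  have h1 : ∀ n : ℕ, ∀ p v, K (p + n * l) v = K p ((T ^ n) v) := by
    intro n
    induction n with
    | zero => intro p v; rw [Nat.cast_zero, zero_mul, add_zero, pow_zero]; rfl
    | succ n ih =>
      intro p v
      have e1 : p + ((n + 1 : ℕ) : ℤ) * l = (p + n * l) + l := by push_cast; ring
      rw [e1, h, ih, pow_succ, LinearEquiv.mul_apply]
  obtain ⟨n, rfl | rfl⟩ := j.eq_nat_or_neg
  · rw [zpow_natCast]; exact h1 n p v
  · have h2 := h1 n (p + -(n : ℤ) * l) ((T ^ (-(n : ℤ))) v)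
    have e1 : p + -(n : ℤ) * l + n * l = p := by ring
    rw [e1] at h2
    rw [h2, zpow_neg, zpow_natCast, ← LinearEquiv.mul_apply, mul_inv_cancel]; rfl

theorem zpow_right {l : ℕ} {T : VY ≃ₗ[k] VY} {K : ℤ → VY} (h : ∀ q, T (K (q + l)) = K q) (j q : ℤ) :
    (T ^ j) (K (q + j * l)) = K q := by
  have h1 : ∀ n : ℕ, ∀ p, (T ^ n) (K (p + n * l)) = K p := by
    intro n
    induction n with
    | zero => intro p; rw [Nat.cast_zero, zero_mul, add_zero, pow_zero]; rfl
    | succ n ih =>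
      intro p
      rw [pow_succ, LinearEquiv.mul_apply]
      have : p + ((n + 1 : ℕ) : ℤ) * l = (p + n * l) + l := by push_cast; ring
      rw [this, h, ih]
  obtain ⟨n, rfl | rfl⟩ := j.eq_nat_or_neg
  · rw [zpow_natCast]; exact h1 n q
  · have h2 := h1 n (q + -(n : ℤ) * l)
    have e1 : q + -(n : ℤ) * l + n * l = q := by ring
    rw [e1] at h2
    rw [← h2, zpow_neg, zpow_natCast, ← LinearEquiv.mul_apply, inv_mul_cancel]; rfl

/-- the relation satisfied by a kernel value on an infinite match -/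
theorem inf_rel {X Y : Ln ι nx} {K : ℤ → ℤ → VX →ₗ[k] VY} (hK : IsKer0 X Y K) {lX lY : ℕ} {TX : VX ≃ₗ[k] VX}
    {TY : VY ≃ₗ[k] VY} (h1 : ∀ p q v, K (p + lX) q v = K p q (TX v))
    (h2 : ∀ p q v, TY (K p (q + lY) v) = K p q v) {o e : Bool} {p q : ℤ} (hm : Mt X Y o p q)
    (hinf : Inf X Y o e p q) : ∃ (σ τ : ℤ), (σ = 1 ∨ σ = -1) ∧ (τ = 1 ∨ τ = -1) ∧
      ∀ v, (TY ^ (τ * lX)) (K p q v) = K p q ((TX ^ (σ * lY)) v) := by
  obtain ⟨σ, hσ, hσ'⟩ : ∃ σ : ℤ, (σ = 1 ∨ σ = -1) ∧ ∀ n p, stn e n p = p + σ * n := by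
    cases e
    · exact ⟨-1, Or.inr rfl, fun n p => by simp [sub_eq_add_neg]⟩
    · exact ⟨1, Or.inl rfl, fun n p => by simp⟩
  obtain ⟨τ, hτ, hτ'⟩ : ∃ τ : ℤ, (τ = 1 ∨ τ = -1) ∧ ∀ n p, stn (e == o) n p = p + τ * n := by
    cases (e == o)
    · exact ⟨-1, Or.inr rfl, fun n p => by simp [sub_eq_add_neg]⟩
    · exact ⟨1, Or.inl rfl, fun n p => by simp⟩
  refine ⟨σ, τ, hσ, hτ, fun v => ?_⟩
  have h3 := hK.walk hm (hinf (lX * lY))
  rw [hσ', hτ'] at h3
  have e1 : p + σ * ((lX * lY : ℕ) : ℤ) = p + (σ * lY) * lX := by push_cast; ring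
  have e2 : q + τ * ((lX * lY : ℕ) : ℤ) = q + (τ * lX) * lY := by push_cast; ring
  rw [e1, e2] at h3
  have h4 := zpow_left (K := fun p v => K p (q + (τ * lX) * lY) v) (fun p v => h1 p _ v) (σ * lY) p v
  rw [h3] at h4
  rw [h4]
  exact zpow_right (K := fun q => K p q ((TX ^ (σ * (lY : ℤ))) v)) (fun q => h2 p q _) (τ * lX) q

/-- `T^N K = K S` -/
theorem inf_rel_left {X Y : Ln ι nx} {K : ℤ → ℤ → VX →ₗ[k] VY} (hK : IsKer0 X Y K) {lX lY : ℕ} {TX : VX ≃ₗ[k] VX}
    {TY : VY ≃ₗ[k] VY} (h1 : ∀ p q v, K (p + lX) q v = K p q (TX v))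
    (h2 : ∀ p q v, TY (K p (q + lY) v) = K p q v) {o e : Bool} {p q : ℤ} (hm : Mt X Y o p q)
    (hinf : Inf X Y o e p q) : ∃ S : VX ≃ₗ[k] VX, ∀ v, (TY ^ (lX : ℤ)) (K p q v) = K p q (S v) := by
  obtain ⟨σ, τ, -, hτ, h⟩ := inf_rel hK h1 h2 hm hinf
  rcases hτ with rfl | rfl
  · exact ⟨TX ^ (σ * (lY : ℤ)), fun v => by rw [← h, one_mul]⟩
  · refine ⟨(TX ^ (σ * (lY : ℤ)))⁻¹, fun v => ?_⟩
    have h3 := h ((TX ^ (σ * (lY : ℤ)))⁻¹ v)
    rw [← LinearEquiv.mul_apply, mul_inv_cancel] at h3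
    have h4 : K p q v = (TY ^ (-1 * (lX : ℤ))) (K p q ((TX ^ (σ * (lY : ℤ)))⁻¹ v)) := h3.symm
    rw [h4, ← LinearEquiv.mul_apply, ← zpow_add]
    simp

/-- `K T^N = S K` -/
theorem inf_rel_right {X Y : Ln ι nx} {K : ℤ → ℤ → VX →ₗ[k] VY} (hK : IsKer0 X Y K) {lX lY : ℕ} {TX : VX ≃ₗ[k] VX}
    {TY : VY ≃ₗ[k] VY} (h1 : ∀ p q v, K (p + lX) q v = K p q (TX v))
    (h2 : ∀ p q v, TY (K p (q + lY) v) = K p q v) {o e : Bool} {p q : ℤ} (hm : Mt X Y o p q)
    (hinf : Inf X Y o e p q) : ∃ S : VY ≃ₗ[k] VY, ∀ v, K p q ((TX ^ (lY : ℤ)) v) = S (K p q v) := by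
  obtain ⟨σ, τ, hσ, -, h⟩ := inf_rel hK h1 h2 hm hinf
  rcases hσ with rfl | rfl
  · exact ⟨TY ^ (τ * (lX : ℤ)), fun v => by rw [h, one_mul]⟩
  · refine ⟨(TY ^ (τ * (lX : ℤ)))⁻¹, fun v => ?_⟩
    have h3 := h ((TX ^ (lY : ℤ)) v)
    rw [← LinearEquiv.mul_apply (TX ^ (-1 * (lY : ℤ))), ← zpow_add] at h3
    have e1 : (-1 * (lY : ℤ) + lY) = 0 := by ring
    rw [e1, zpow_zero] at h3
    have h4 : K p q v = (TY ^ (τ * (lX : ℤ))) (K p q ((TX ^ (lY : ℤ)) v)) := h3.symm
    rw [h4, ← LinearEquiv.mul_apply, inv_mul_cancel]; rfl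

/-- intertwiners and polynomials -/
theorem poly_inter {K : VX →ₗ[k] VY} {E : Module.End k VX} {F : Module.End k VY} (h : ∀ v, F (K v) = K (E v))
    (μ : Polynomial k) (v : VX) : Polynomial.aeval F μ (K v) = K (Polynomial.aeval E μ v) := by
  have h1 : ∀ (n : ℕ) (v : VX), (F ^ n) (K v) = K ((E ^ n) v) := by
    intro n
    induction n with
    | zero => intro v; rfl
    | succ n ih =>
      intro v
      rw [pow_succ', pow_succ', Module.End.mul_apply, Module.End.mul_apply, ih, h]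
  rw [Polynomial.aeval_eq_sum_range, Polynomial.aeval_eq_sum_range, LinearMap.sum_apply, LinearMap.sum_apply, map_sum]
  refine Finset.sum_congr rfl (fun i _ => ?_)
  rw [LinearMap.smul_apply, LinearMap.smul_apply, h1, map_smul]

end inf

end StrAlg
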