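import Pool.Agent.Lib.MP_b9fd58_lc.GLoc2

/-!
# The criterion implies closedness on the localised string module
-/

set_option autoImplicit false

namespace StrAlg

open Module

variable {D : Dat} {k : Type} [Field k] {S : Sides D}

/-! ### generalities -/

theorem Per.gcd {β : Type*} {l l' : ℕ} {P : ℤ → β} (h : Per l P) (h' : Per l' P) : Per (Nat.gcd l l') P := by
  intro a
  rw [Nat.gcd_eq_gcd_ab]
  have e1 : a + ((l : ℤ) * Nat.gcdA l l' + (l' : ℤ) * Nat.gcdB l l') =
      (a + Nat.gcdA l l' * l) + Nat.gcdB l l' * l' := by ring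
  rw [e1, h'.mul, h.mul]

theorem Ln.IsPer.gcd {ι : Type*} {nx : ι → Bool → Fin 3 → ι × Bool} {L : Ln ι nx} {l l' : ℕ} (h : L.IsPer l)
    (h' : L.IsPer l') : L.IsPer (Nat.gcd l l') := ⟨h.lam.gcd h'.lam, h.v.gcd h'.v, h.r.gcd h'.r⟩

theorem Blk.prim (Y : Blk S k) (hl : 0 < Y.l) (l' : ℕ) (h : Y.x.L.IsPer l') : Y.l ∣ l' := by
  rcases Nat.eq_zero_or_pos l' with h0 | h0
  · rw [h0]; exact dvd_zero _
  · have h1 : Y.x.Per (Nat.gcd Y.l l') := ⟨Y.ok.per.gcd h, Y.ok.big hl⟩
    have h2 := (Y.min _ (Nat.gcd_pos_of_pos_left _ hl) h1).2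
    have h3 := Nat.le_of_dvd hl (Nat.gcd_dvd_left Y.l l')
    have h4 : Nat.gcd Y.l l' = Y.l := le_antisymm h3 h2
    rw [← h4]
    exact Nat.gcd_dvd_right _ _

theorem Str.fn_of_fin {w : Str S} (h : w.Z.Finite) : w.L.Fn := by
  obtain ⟨M, hM⟩ := h.bddAbove
  obtain ⟨m, hm⟩ := h.bddBelow
  refine ⟨m, M + 1, fun p hp => ?_, fun p hp => ?_⟩
  · by_contra hne
    have := hM (w.clean p hne).1
    omega
  · by_contra hne
    have := hm (w.clean p hne).1
    omega

theorem ker_KHv {N W : Type} [AddCommGroup N] [Module k N] [AddCommGroup W] [Module k W]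
    {nx : Fin D.nV → Bool → Fin 3 → Fin D.nV × Bool} {Q : QMod D k N} {A : Ends (Fin D.nV) (Fin D.nE)}
    {X Y : Ln (Fin D.nV) nx} {z : ℤ → N} {ξ : ℤ → N →ₗ[k] W}
    (h : ∀ a, ChAt Q A X z a) (h' : ∀ b, DcW Q A Y ξ b) (hX : ∀ a, z a ≠ 0 → X.Abs a)
    (hY : ∀ b, ξ b ≠ 0 → Y.Abs b) : KH A X Y (fun a b => ξ b (z a)) where
  vx a b hne := by
    by_contra hcon
    apply hne
    have h1 := (h' b).1 (X.v a) (z a)
    rw [(h a).1, if_pos rfl, if_neg (fun hh => hcon hh.symm)] at h1
    exact h1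
  absX a b hne := hX a (fun h0 => hne (by simp only [h0, map_zero]))
  absY a b hne := hY b (fun h0 => hne (by simp only [h0, LinearMap.zero_apply]))
  ar α a b := by
    have h1 := (h' b).2 α (z a)
    rw [(h a).2 α, map_sum] at h1
    rw [← h1]
    refine Finset.sum_congr rfl (fun e _ => ?_)
    split_ifs
    · rfl
    · exact (map_zero _).symm

theorem IsKer.span {ι : Type*} {nx : ι → Bool → Fin 3 → ι × Bool} {V : Type} [AddCommGroup V] [Module k V]
    {X Y : Ln ι nx} {K : ℤ → ℤ → V} (h : IsKer X Y K) :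
    IsKer X Y (fun a b => LinearMap.toSpanSingleton k V (K a b)) := by
  have h0 : ∀ x : V, LinearMap.toSpanSingleton k V x ≠ 0 → x ≠ 0 := by
    rintro x hx rfl
    exact hx (by simp)
  exact ⟨fun a q hne => h.vx a q (h0 _ hne), fun o a q hm hne => h.le o a q hm (h0 _ hne),
    fun o a q hm hl => by simp only [h.step o a q hm hl], fun o e a q hm hne => h.fin o e a q hm (h0 _ hne)⟩

theorem cst_zero (y : ZMod 0) : cst y = y := Int.cast_id

theorem exists_uniform {V : Type} [AddCommGroup V] [Module k V] {ι : Type*} (e : Bool) (d : Option (ℤ × ℕ))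
    (s : Finset ι) (m : ι → ℤ → V) (h : ∀ i ∈ s, Rz k e d (m i)) :
    ∃ χ : Polynomial k, χ.coeff 0 = 1 ∧ ∀ i ∈ s, Fz e (pv k e d χ (m i)) := by
  classical
  induction s using Finset.induction_on with
  | empty => exact ⟨1, by simp, fun i hi => absurd hi (Finset.notMem_empty i)⟩
  | insert a s ha ih =>
    obtain ⟨χ, h1, h2⟩ := ih (fun i hi => h i (Finset.mem_insert_of_mem hi))
    obtain ⟨ψ, h3, h4⟩ := h a (Finset.mem_insert_self _ _)
    refine ⟨χ * ψ, coeff_mul_zero' h1 h3, fun i hi => ?_⟩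
    rcases Finset.mem_insert.1 hi with rfl | hi
    · rw [pv_mul]; exact pv_Fz_same h4 _
    · rw [pv_mul']; exact pv_Fz_same (h2 i hi) _

theorem Fz.box {V : Type} [Zero V] {m : ℤ → V} (h1 : ∃ B, ∀ p, Bey true B p → m p = 0)
    (h2 : ∃ B, ∀ p, Bey false B p → m p = 0) : ∃ B : Finset ℤ, ∀ q, q ∉ B → m q = 0 := by
  obtain ⟨b, hb⟩ := h1
  obtain ⟨c, hc⟩ := h2
  refine ⟨Finset.Icc c b, fun q hq => ?_⟩
  rw [Finset.mem_Icc, not_and_or] at hq
  rcases hq with hq | hq
  · exact hc q (by simp; omega)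
  · exact hb q (by simp; omega)

theorem exists_box {V : Type} [Zero V] {ι : Type*} (s : Finset ι) (m : ι → ℤ → V)
    (h : ∀ i ∈ s, ∃ B : Finset ℤ, ∀ q, q ∉ B → m i q = 0) : ∃ B : Finset ℤ, ∀ i ∈ s, ∀ q, q ∉ B → m i q = 0 := by
  classical
  induction s using Finset.induction_on with
  | empty => exact ⟨∅, fun i hi => absurd hi (Finset.notMem_empty i)⟩
  | insert a s ha ih =>
    obtain ⟨B, hB⟩ := ih (fun i hi => h i (Finset.mem_insert_of_mem hi))
    obtain ⟨C, hC⟩ := h a (Finset.mem_insert_self _ _)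
    refine ⟨B ∪ C, fun i hi q hq => ?_⟩
    rw [Finset.mem_union, not_or] at hq
    rcases Finset.mem_insert.1 hi with rfl | hi
    · exact hC q hq.2
    · exact hB i hi q hq.1

theorem Kills.mul {V : Type} [AddCommGroup V] [Module k V] {T : V ≃ₗ[k] V} {n : ℕ} {χ : Polynomial k}
    (h : Kills T n χ) (ψ : Polynomial k) : Kills T n (ψ * χ) :=
  ⟨by rw [map_mul, h.1, mul_zero], by rw [map_mul, h.2, mul_zero]⟩

/-! ### the kernel of `Γ ∘ χ(σ)` -/

theorem sg_pow_zL (w : Str S) (e : Bool) (q : ℤ) (i : ℕ) :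
    ((sg k e (w.L.tailD e)) ^ (i + 1)) (cfL (k := k) w (zL w q)) =
      cfL (k := k) w (match w.L.tailD e with
        | none => 0
        | some x => if Bey e x.1 q then zL w (stn e (((i + 1 : ℕ) : ℤ) * x.2) q) else 0) := by
  cases hd : w.L.tailD e with
  | none =>
    simp only [map_zero]
    show ((0 : (ℤ → k) →ₗ[k] (ℤ → k)) ^ (i + 1)) _ = 0
    rw [pow_succ', Module.End.mul_apply]; rfl
  | some x =>
    have hup := Ln.tailD_some hd
    show ((shf k e x.1 x.2) ^ (i + 1)) (cfL w (zL w q)) =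
      cfL w (if Bey e x.1 q then zL w (stn e (((i + 1 : ℕ) : ℤ) * x.2) q) else 0)
    by_cases hq : q ∈ w.Z
    · rw [cfL_zL w hq]
      funext p
      rw [shf_pow_apply, Str.B0_spr]
      have hpos : (0 : ℤ) ≤ ((i + 1 : ℕ) : ℤ) * x.2 := by positivity
      generalize (((i + 1 : ℕ) : ℤ) * x.2) = P at hpos ⊢
      by_cases hB : Bey e x.1 q
      · have hq' : stn e P q ∈ w.Z := by
          apply Str.mem_of_UpT hup
          cases e <;> simp at hB ⊢ <;> omega
        rw [if_pos hB, cfL_zL w hq', Str.B0_spr]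
        by_cases hp : p = stn e P q
        · subst hp
          rw [if_pos rfl, if_pos, if_pos]
          · cases e <;> simp
          · cases e <;> simp at hB ⊢ <;> omega
        · rw [if_neg hp]
          have : ¬ stn (!e) P p = q := by
            rintro rfl
            apply hp
            cases e <;> simp
          rw [if_neg this, ite_self]
      · rw [if_neg hB, map_zero]
        by_cases hp : stn (!e) P p = q
        · subst hp
          rw [if_neg]
          · rfl
          · intro h'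
            apply hB
            cases e <;> simp at h' ⊢ <;> omega
        · rw [if_neg hp, ite_self]; rfl
    · rw [zL_zero w hq, map_zero, map_zero, if_neg, map_zero]
      intro h'
      exact hq (Str.mem_of_UpT hup h')

theorem pvL_zL (w : Str S) (e : Bool) {χ : Polynomial k} (hχ : χ.coeff 0 = 1) (q : ℤ) :
    pvL w e hχ (zL w q) = χ.coeff 0 • zL w q + ∑ i ∈ Finset.range χ.natDegree, χ.coeff (i + 1) •
      (match w.L.tailD e with
        | none => 0
        | some x => if Bey e x.1 q then zL w (stn e (((i + 1 : ℕ) : ℤ) * x.2) q) else 0) := by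
  apply cfL_inj
  rw [cfL_pvL, pv_eq_sum, Finset.sum_range_succ', add_comm, map_add, map_smul, map_sum]
  congr 1
  refine Finset.sum_congr rfl (fun i _ => ?_)
  rw [sg_pow_zL, map_smul]

theorem kop_ker (w : Str S) {W V : Type} [AddCommGroup W] [Module k W] [AddCommGroup V] [Module k V] (e : Bool)
    {χ : Polynomial k} (hχ : χ.coeff 0 = 1) (Γ : (w.Mloc k).C →ₗ[k] W) (ξ : ℤ → W →ₗ[k] V) :
    kop e (w.L.tailD e) χ (fun q b => ξ b (Γ (zL w q))) = fun q b => ξ b ((Γ ∘ₗ pvL w e hχ) (zL w q)) := by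
  funext q b
  show _ = ξ b (Γ (pvL w e hχ (zL w q)))
  rw [pvL_zL, map_add, map_add, map_smul, map_smul, map_sum, map_sum]
  unfold kop
  congr 1
  refine Finset.sum_congr rfl (fun i _ => ?_)
  rw [map_smul, map_smul]
  congr 1
  cases w.L.tailD e with
  | none => simp
  | some x =>
    simp only
    split_ifs
    · rfl
    · rw [map_zero, map_zero]

end StrAlg
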