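import Pool.Agent.Lib.MP_b9fd58_lc.GSnd

/-!
# The criterion implies closedness on the localised string module: the theorem
-/

set_option autoImplicit false

namespace StrAlg

open Module

variable {D : Dat} {k : Type} [Field k] {S : Sides D}

/-- the universal chain of linear maps of a line module, moved by a homomorphism -/
theorem ioE_map_ch {x : Str S} {l : ℕ} {V : Type} [AddCommGroup V] [Module k V] {T : V ≃ₗ[k] V} (hx : x.PerOK l T)
    {N : Md D k} {f : (x.ME l T hx).C →ₗ[k] N.C} (hf : (x.ME l T hx).Hom N f) (a : ℤ) (v : V) :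
    ChAt N.Q S.ends x.L (fun a => (f ∘ₗ ioE hx a) v) a :=
  (ioE_ch hx a v).map hf

/-- a property of the values at the positions that only has to be checked for representatives -/
theorem ioE_all {x : Str S} {l : ℕ} {V : Type} [AddCommGroup V] [Module k V] {T : V ≃ₗ[k] V} (hx : x.PerOK l T)
    {W : Type} [AddCommGroup W] [Module k W] (f : (x.ME l T hx).C →ₗ[k] W) (P : W → Prop)
    (A : Finset (ZMod l)) (hA : ∀ y : ZMod l, y ∉ A → cst y ∉ x.Z) (h0 : P 0)
    (h : ∀ y ∈ A, ∀ v, P (f (ioE hx (cst y) v))) (a : ℤ) (v : V) : P (f (ioE hx a v)) := by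
  have hper : Per l (fun a => ∀ v, P (f (ioE hx a v))) := by
    intro a
    refine propext ⟨fun h' v => ?_, fun h' v => ?_⟩
    · have := h' (T.symm v)
      rw [ioE_add_l, LinearEquiv.apply_symm_apply] at this
      exact this
    · rw [ioE_add_l]; exact h' _
  have h1 := hper.cst a
  simp only [eq_iff_iff] at h1
  refine h1.1 ?_ v
  intro v
  by_cases hy : (a : ZMod l) ∈ A
  · exact h _ hy v
  · rw [ioE_zero hx (hA _ hy), LinearMap.zero_apply, map_zero]; exact h0

theorem Fz_pair {V : Type} [AddCommGroup V] [Module k V] {d₁ d₂ : Option (ℤ × ℕ)} {χ₁ χ₂ : Polynomial k}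
    (c1 : χ₁.coeff 0 = 1) (c2 : χ₂.coeff 0 = 1) {m : ℤ → V} (g1 : Fz true (pv k true d₁ χ₁ m))
    (g2 : Fz false (pv k false d₂ χ₂ m)) :
    Fz true (pv k true d₁ χ₁ (pv k false d₂ χ₂ m)) ∧ Fz false (pv k true d₁ χ₁ (pv k false d₂ χ₂ m)) := by
  constructor
  · have g3 : Fz true (pv k false d₂ χ₂ m - m) := pv_sub_Fz_other (k := k) (e := false) _ c2
    have g4 := pv_Fz_same (k := k) (d := d₁) g3 χ₁
    have g5 := g1.add g4
    rwa [← map_add, add_sub_cancel] at g5
  · have g3 : Fz false (pv k true d₁ χ₁ (pv k false d₂ χ₂ m) - pv k false d₂ χ₂ m) :=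
      pv_sub_Fz_other (k := k) (e := true) (d := d₁) (m := pv k false d₂ χ₂ m) χ₁ c1
    have g5 := g2.add g3
    rwa [add_sub_cancel] at g5

/-- polynomials that make finitely many elements finitely supported and are divisible by given polynomials -/
theorem exists_fin (w : Str S) {ι : Type} (s : Finset ι) (m : ι → (w.Mloc k).C) (κt κf : Polynomial k)
    (dt : κt.coeff 0 = 1) (df : κf.coeff 0 = 1) :
    ∃ (χt χf : Polynomial k) (c1 : (χt * κt).coeff 0 = 1) (c2 : (χf * κf).coeff 0 = 1) (B : Finset ℤ),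
      ∀ i ∈ s, ∀ q, q ∉ B → cfL w (pvL w true c1 (pvL w false c2 (m i))) q = 0 := by
  obtain ⟨χt, ct, ht⟩ := exists_uniform true (w.L.tailD true) s
    (fun i => cfL w (m i)) (fun i _ => (cfL_mem w _).2 true)
  obtain ⟨χf, cf, hfz⟩ := exists_uniform false (w.L.tailD false) s
    (fun i => cfL w (m i)) (fun i _ => (cfL_mem w _).2 false)
  have c1 : (χt * κt).coeff 0 = 1 := coeff_mul_zero' ct dt
  have c2 : (χf * κf).coeff 0 = 1 := coeff_mul_zero' cf df
  obtain ⟨B, hB⟩ := exists_box s (fun i => cfL w (pvL w true c1 (pvL w false c2 (m i)))) (by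
    intro i hi
    have h1 := ht i hi
    have h2 := hfz i hi
    have g1 : Fz true (pv k true (w.L.tailD true) (χt * κt) (cfL w (m i))) := by
      rw [pv_mul']; exact pv_Fz_same h1 _
    have g2 : Fz false (pv k false (w.L.tailD false) (χf * κf) (cfL w (m i))) := by
      rw [pv_mul']; exact pv_Fz_same h2 _
    have g3 := Fz_pair c1 c2 g1 g2
    show ∃ B : Finset ℤ, ∀ q, q ∉ B → cfL w (pvL w true c1 (pvL w false c2 (m i))) q = 0
    rw [cfL_pvL, cfL_pvL]
    exact Fz.box g3.1 g3.2)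
  exact ⟨χt, χf, c1, c2, B, hB⟩

/-- the value of the composition of two homomorphisms whose kernels have no infinite classes -/
theorem closed_core2 (w : Str S) {x y : Str S} {lX lY : ℕ} {VX VY : Type}
    [AddCommGroup VX] [Module k VX] [AddCommGroup VY] [Module k VY]
    {TX : VX ≃ₗ[k] VX} {TY : VY ≃ₗ[k] VY} (hx : x.PerOK lX TX) (hy : y.PerOK lY TY)
    (A : Finset (ZMod lX)) (hA : ∀ p : ZMod lX, p ∉ A → cst p ∉ x.Z)
    (C : Finset (ZMod lY)) (hC : ∀ p : ZMod lY, p ∉ C → cst p ∉ y.Z)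
    (a : (x.ME lX TX hx).C) (b : (y.ME lY TY hy).C →ₗ[k] k)
    (hc : Crit x.L w.L y.L (fun p => p ∈ x.Z) (fun q => q ∈ w.Z) (fun r => r ∈ y.Z) (cfE hx a)
      (fun r => b ∘ₗ ioE hy r))
    (f : (x.ME lX TX hx).C →ₗ[k] (w.Mloc k).C) (G : (w.Mloc k).C →ₗ[k] (y.ME lY TY hy).C)
    (hf : (x.ME lX TX hx).Hom (w.Mloc k) f)
    (B : Finset ℤ) (hB : ∀ (p : ℤ) (v : VX) (q : ℤ), q ∉ B → cfL w (f (ioE hx p v)) q = 0)
    (hK : IsKer w.L y.L (fun q r => xiE hy r (G (zL w q)))) : b (G (f a)) = 0 := by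
  classical
  have hF0 : IsKer0 x.L w.L (fun p q => xiL w q ∘ₗ (f ∘ₗ ioE hx p)) := by
    refine (ker_KH (fun a v => ioE_map_ch hx hf a v) (xiL_dc w) ?_ ?_).isKer0 x.ok w.ok
    · intro p hp
      refine x.Zabs p (ioE_ne hx ?_)
      rintro h0
      apply hp; rw [h0, LinearMap.comp_zero]
    · intro q hq
      exact w.Zabs q (xiL_ne w hq)
  have hFker : IsKer x.L w.L (fun p q => xiL w q ∘ₗ (f ∘ₗ ioE hx p)) := by
    refine hF0.isKer_of_supp' B ?_
    intro p q hne
    by_contra hcon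
    apply hne
    refine LinearMap.ext fun v => ?_
    exact hB p v q hcon
  have hreg := reg_zero x.L w.L y.L lX 0 lY hx.per w.per_zero hy.per (cfE hx a) (fun r => b ∘ₗ ioE hy r)
    (fun p q => xiL w q ∘ₗ (f ∘ₗ ioE hx p))
    (fun q r => LinearMap.toSpanSingleton k VY (xiE hy r (G (zL w q)))) hFker hK.span ?_ ?_ ?_
    (PX := fun p => p ∈ x.Z) (Pw := fun q => q ∈ w.Z) (PY := fun r => r ∈ y.Z) ?_ ?_ hc.critL A
    (show Finset (ZMod 0) from B) C ?_ ?_ ?_
  · rw [← hreg]
    have e1 : f a = ∑ p ∈ A, f (ioE hx (cst p) (cfE hx a (cst p))) := by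
      conv_lhs => rw [ME_decomp hx a A hA, map_sum]
    have e2 : ∀ m : (w.Mloc k).C, (∀ q, q ∉ B → cfL w m q = 0) →
        b (G m) = ∑ q ∈ B, ∑ r ∈ C, cfL w m q * b (ioE hy (cst r) (xiE hy (cst r) (G (zL w q)))) := by
      intro m hm
      conv_lhs => rw [ML_decomp w m B hm, map_sum, map_sum]
      refine Finset.sum_congr rfl (fun q _ => ?_)
      rw [map_smul, map_smul, smul_eq_mul, ← Finset.mul_sum]
      congr 1
      conv_lhs => rw [ME_decomp hy (G (zL w q)) C hC, map_sum]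
      rfl
    rw [e1, map_sum, map_sum]
    refine Finset.sum_congr rfl (fun p _ => ?_)
    rw [e2 _ (hB _ _)]
    refine Finset.sum_congr rfl (fun q _ => ?_)
    refine Finset.sum_congr rfl (fun r _ => ?_)
    have hq : cst (show ZMod 0 from q) = q := cst_zero q
    show _ = b (ioE hy (cst r) ((LinearMap.toSpanSingleton k VY (xiE hy (cst r) (G (zL w (cst (show ZMod 0 from q))))))
      (cfL w (f (ioE hx (cst p) (cfE hx a (cst p)))) (cst (show ZMod 0 from q)))))
    rw [hq, LinearMap.toSpanSingleton_apply, map_smul, map_smul, smul_eq_mul]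
  · intro q r p
    show b (ioE hy r (LinearMap.toSpanSingleton k VY (xiE hy r (G (zL w q)))
      (cfL w (f (ioE hx (p + lX) (cfE hx a (p + lX)))) q))) =
      b (ioE hy r (LinearMap.toSpanSingleton k VY (xiE hy r (G (zL w q)))
      (cfL w (f (ioE hx p (cfE hx a p))) q)))
    rw [ioE_add_l, cfE_per hx a p]
  · intro p r q
    simp
  · intro p q r
    show b (ioE hy (r + lY) (LinearMap.toSpanSingleton k VY (xiE hy (r + lY) (G (zL w q))) _)) =
      b (ioE hy r (LinearMap.toSpanSingleton k VY (xiE hy r (G (zL w q))) _))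
    rw [ioE_add_l, LinearMap.toSpanSingleton_apply, LinearMap.toSpanSingleton_apply, map_smul]
    have : TY (xiE hy (r + lY) (G (zL w q))) = xiE hy r (G (zL w q)) := cfE_per hy _ r
    rw [this]
  · intro p q hne
    constructor
    · refine ioE_ne hx ?_
      intro h0
      apply hne
      rw [h0, LinearMap.comp_zero, LinearMap.comp_zero]
    · refine xiL_ne (k := k) w ?_
      intro h0
      apply hne
      rw [h0, LinearMap.zero_comp]
  · intro q r hne
    refine xiE_ne hy ?_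
    intro h0
    apply hne
    rw [h0]; simp
  · intro p hp q r
    have h0 : ioE hx (cst p) = 0 := ioE_zero hx (hA p hp)
    simp only [h0, LinearMap.comp_zero, LinearMap.zero_apply, map_zero]
  · intro q hq p r
    have hq' : cst (show ZMod 0 from q) = q := cst_zero q
    show b (ioE hy (cst r) (LinearMap.toSpanSingleton k VY (xiE hy (cst r) (G (zL w (cst (show ZMod 0 from q)))))
      (cfL w (f (ioE hx (cst p) (cfE hx a (cst p)))) (cst (show ZMod 0 from q))))) = 0
    rw [hq', hB _ _ _ hq, map_zero, map_zero, map_zero]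
  · intro r hr p q
    have h0 : ioE hy (cst r) = 0 := ioE_zero hy (hC r hr)
    simp only [h0, LinearMap.comp_zero, LinearMap.zero_apply]

/-- kernels of homs from the localised module -/
theorem kerL_isKer0 (w : Str S) {y : Str S} {lY : ℕ} {VY : Type} [AddCommGroup VY] [Module k VY]
    {TY : VY ≃ₗ[k] VY} (hy : y.PerOK lY TY) {Δ : (w.Mloc k).C →ₗ[k] (y.ME lY TY hy).C}
    (hΔ : (w.Mloc k).Hom (y.ME lY TY hy) Δ) : IsKer0 w.L y.L (fun q r => xiE hy r (Δ (zL w q))) := by
  refine (ker_KHv (fun q => (zL_ch w q).map hΔ) (xiE_dc hy) ?_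
    (fun r hr => y.Zabs r (xiE_ne hy hr))).isKer0 w.ok y.ok
  intro q hq
  refine w.Zabs q ?_
  by_contra hcon
  apply hq
  simp only [zL_zero w hcon, map_zero]

/-- **closedness on the localised string module** -/
theorem closed_Mloc_core (w : Str S) (hw : w.Aper) {x y : Str S} {lX lY : ℕ} {VX VY : Type}
    [AddCommGroup VX] [Module k VX] [Module.Finite k VX] [AddCommGroup VY] [Module k VY] [Module.Finite k VY]
    {TX : VX ≃ₗ[k] VX} {TY : VY ≃ₗ[k] VY} (hx : x.PerOK lX TX) (hy : y.PerOK lY TY)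
    (finX : lX = 0 → x.Z.Finite) (finY : lY = 0 → y.Z.Finite)
    (hprim : 0 < lY → ∀ l', y.L.IsPer l' → lY ∣ l')
    (a : (x.ME lX TX hx).C) (b : (y.ME lY TY hy).C →ₗ[k] k)
    (hc : Crit x.L w.L y.L (fun p => p ∈ x.Z) (fun q => q ∈ w.Z) (fun r => r ∈ y.Z) (cfE hx a)
      (fun r => b ∘ₗ ioE hy r))
    (f : (x.ME lX TX hx).C →ₗ[k] (w.Mloc k).C) (G : (w.Mloc k).C →ₗ[k] (y.ME lY TY hy).C)
    (hf : (x.ME lX TX hx).Hom (w.Mloc k) f) (hG : (w.Mloc k).Hom (y.ME lY TY hy) G) : b (G (f a)) = 0 := by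
  classical
  have hA := repZ_spec x lX finX
  have hC := repZ_spec y lY finY
  have bas := Module.finBasis k VX
  obtain ⟨κt, dt, kt⟩ := exists_kills TY ((w.L.tailD true).elim 0 (fun x => x.2 / lY))
  obtain ⟨κf, df, kf⟩ := exists_kills TY ((w.L.tailD false).elim 0 (fun x => x.2 / lY))
  obtain ⟨χt, χf, c1, c2, B, hB⟩ := exists_fin w
    ((repZ x lX finX) ×ˢ (Finset.univ : Finset (Fin (Module.finrank k VX))))
    (fun i => f (ioE hx (cst i.1) (bas i.2))) κt κf dt df
  -- the operator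
  obtain ⟨si, hsi, hsi1, hsi2⟩ := exists_inv_hom (f := pvL w true c1 ∘ₗ pvL w false c2)
    (fun g m => by rw [LinearMap.comp_apply, LinearMap.comp_apply, pvL_hom, pvL_hom])
    ((pvL_bij w true c1).comp (pvL_bij w false c2))
  obtain ⟨Γ, hΓd⟩ : ∃ Γ : (w.Mloc k).C →ₗ[k] (y.ME lY TY hy).C, Γ = G ∘ₗ si ∘ₗ si := ⟨_, rfl⟩
  have hΓhom : (w.Mloc k).Hom (y.ME lY TY hy) Γ := by
    intro g m
    rw [hΓd, LinearMap.comp_apply, LinearMap.comp_apply, hsi, hsi, hG]; rfl
  obtain ⟨Γ1, hΓ1d⟩ : ∃ Γ1 : (w.Mloc k).C →ₗ[k] (y.ME lY TY hy).C, Γ1 = Γ ∘ₗ pvL w true c1 := ⟨_, rfl⟩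
  have hΓ1hom : (w.Mloc k).Hom (y.ME lY TY hy) Γ1 := by
    intro g m
    rw [hΓ1d, LinearMap.comp_apply, pvL_hom, hΓhom]; rfl
  obtain ⟨G', hG'd⟩ : ∃ G' : (w.Mloc k).C →ₗ[k] (y.ME lY TY hy).C, G' = Γ1 ∘ₗ pvL w false c2 := ⟨_, rfl⟩
  have hG'hom : (w.Mloc k).Hom (y.ME lY TY hy) G' := by
    intro g m
    rw [hG'd, LinearMap.comp_apply, pvL_hom, hΓ1hom]; rfl
  obtain ⟨f', hf'd⟩ : ∃ f' : (x.ME lX TX hx).C →ₗ[k] (w.Mloc k).C, f' = (pvL w true c1 ∘ₗ pvL w false c2) ∘ₗ f :=
    ⟨_, rfl⟩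
  have hf'hom : (x.ME lX TX hx).Hom (w.Mloc k) f' := by
    intro g m
    rw [hf'd, LinearMap.comp_apply, hf, LinearMap.comp_apply, LinearMap.comp_apply, pvL_hom, pvL_hom]; rfl
  have hval : G (f a) = G' (f' a) := by
    rw [hG'd, hΓ1d, hΓd, hf'd]
    have h1 := hsi2 (f a)
    have h2 := hsi2 ((pvL w true c1 ∘ₗ pvL w false c2) (f a))
    rw [LinearMap.comp_apply, LinearMap.comp_apply, LinearMap.comp_apply, LinearMap.comp_apply, LinearMap.comp_apply]
    rw [LinearMap.comp_apply, LinearMap.comp_apply] at h2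
    rw [LinearMap.comp_apply] at h1
    rw [LinearMap.comp_apply, h2, h1]
  rw [hval]
  refine closed_core2 w hx hy (repZ x lX finX) hA (repZ y lY finY) hC a b hc f' G' hf'hom B ?_ ?_
  · intro p v
    refine ioE_all hx f' (fun m => ∀ q, q ∉ B → cfL w m q = 0) _ hA (fun q _ => by rw [map_zero]; rfl) ?_ p v
    intro y hyA v q hq
    have e1 : v = ∑ i, bas.repr v i • bas i := (bas.sum_repr v).symm
    rw [e1, map_sum, map_sum, map_sum, Finset.sum_apply]
    refine Finset.sum_eq_zero (fun i _ => ?_)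
    have h3 := hB (y, i) (Finset.mem_product.2 ⟨hyA, Finset.mem_univ i⟩) q hq
    rw [map_smul, map_smul, map_smul, Pi.smul_apply]
    have h4 : cfL w (f' (ioE hx (cst y) (bas i))) q = 0 := by
      rw [hf'd]; exact h3
    rw [h4, smul_zero]
  · rcases Nat.eq_zero_or_pos lY with h0 | h0
    · exact (kerL_isKer0 w hy hG'hom).isKer_of_fn (Str.fn_of_fin (finY h0))
    · have e1 : kop true (w.L.tailD true) (χt * κt) (fun q r => xiE hy r (Γ (zL w q))) =
          fun q r => xiE hy r (Γ1 (zL w q)) := by rw [hΓ1d]; exact kop_ker w true c1 Γ (xiE hy)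
      have e2 : kop false (w.L.tailD false) (χf * κf) (fun q r => xiE hy r (Γ1 (zL w q))) =
          fun q r => xiE hy r (G' (zL w q)) := by rw [hG'd]; exact kop_ker w false c2 Γ1 (xiE hy)
      have hkill : ∀ (e : Bool) (κ χ : Polynomial k),
          Kills TY ((w.L.tailD e).elim 0 (fun x => x.2 / lY)) κ →
          ∀ x ∈ w.L.tailD e, ∀ n, x.2 = lY * n → Kills TY n (χ * κ) := by
        intro e κ χ hk x hx n hn
        have hx' : w.L.tailD e = some x := hx
        rw [hx'] at hk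
        have : x.2 / lY = n := by rw [hn, Nat.mul_div_cancel_left _ h0]
        simp only [Option.elim_some, this] at hk
        exact hk.mul χ
      have zG : ∀ (Δ : (w.Mloc k).C →ₗ[k] (y.ME lY TY hy).C) (q r : ℤ), xiE hy r (Δ (zL w q)) ≠ 0 → q ∈ w.Z := by
        intro Δ q r hne
        by_contra hcon
        apply hne
        rw [zL_zero w hcon, map_zero, map_zero]
      have h3 := isKer_kop (kerL_isKer0 w hy hΓhom) h0 hy.per (hprim h0) TY hw.asym w.cl (zG Γ)
        (fun q r => cfE_per hy _ r) c1 c2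
        (hkill true κt χt kt) (hkill false κf χf kf)
        (by rw [e1]; exact kerL_isKer0 w hy hΓ1hom)
        (by rw [e1]; exact zG Γ1)
        (by rw [e1]; exact fun q r => cfE_per hy _ r)
        (by rw [e1, e2]; exact kerL_isKer0 w hy hG'hom)
      rw [e1, e2] at h3
      exact h3

end StrAlg
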