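import Pool.Agent.Lib.MP_b9fd58_lc.PE

/-!
# The words of the blocks; the criterion only depends on the types (job PF)
-/

set_option autoImplicit false

namespace StrAlg

open Module

variable {D : Dat} {k : Type} [Field k] {S : Sides D}

/-- the words of a block -/
def Blk.words (X : Blk S k) : Set Wd := {u | ∃ p ∈ X.x.Z, ∃ s, u = X.x.L.wd p s}

theorem pf_wd_per {x : Str S} {l : ℕ} (h : x.L.IsPer l) (p : ℤ) (s : Bool) :
    x.L.wd (p + l) s = x.L.wd p s := by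
  funext n
  show x.L.lt (s == x.L.r (p + l)) (stn (s == x.L.r (p + l)) n (p + l)) =
    x.L.lt (s == x.L.r p) (stn (s == x.L.r p) n p)
  rw [h.r p]
  have h1 : stn (s == x.L.r p) n (p + l) = stn (s == x.L.r p) n p + l := by
    cases (s == x.L.r p) <;> simp <;> ring
  rw [h1]
  exact h.lt _ _

theorem Blk.words_finite (X : Blk S k) : X.words.Finite := by
  rcases Nat.eq_zero_or_pos X.l with h0 | h0
  · have hZ : X.x.Z.Finite := X.fin h0
    have h1 : X.words ⊆ (fun q : ℤ × Bool => X.x.L.wd q.1 q.2) '' (X.x.Z ×ˢ Set.univ) := by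
      rintro u ⟨p, hp, s, rfl⟩
      exact ⟨(p, s), ⟨hp, Set.mem_univ s⟩, rfl⟩
    exact ((hZ.prod Set.finite_univ).image _).subset h1
  · have hper := X.ok.per
    have h1 : ∀ (m : ℕ) (p : ℤ) (s : Bool), X.x.L.wd (p + m * X.l) s = X.x.L.wd p s := by
      intro m
      induction m with
      | zero => intro p s; simp
      | succ m ih =>
        intro p s
        have : p + ((m + 1 : ℕ) : ℤ) * X.l = (p + m * X.l) + X.l := by push_cast; ring
        rw [this, pf_wd_per hper, ih]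
    have h2 : X.words ⊆ (fun q : ℤ × Bool => X.x.L.wd q.1 q.2) '' (Set.Ico 0 (X.l : ℤ) ×ˢ Set.univ) := by
      rintro u ⟨p, hp, s, rfl⟩
      refine ⟨(p % X.l, s), ⟨⟨Int.emod_nonneg _ (by omega), Int.emod_lt_of_pos _ (by omega)⟩,
        Set.mem_univ s⟩, ?_⟩
      show X.x.L.wd (p % X.l) s = X.x.L.wd p s
      rcases Int.eq_nat_or_neg (p / X.l) with ⟨m, hm | hm⟩
      · have h3 := h1 m (p % X.l) s
        have h4 : p % X.l + m * X.l = p := by
          rw [← hm]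
          have := Int.emod_add_mul_ediv p X.l
          linarith
        rw [h4] at h3
        exact h3.symm
      · have h3 := h1 m p s
        have h4 : p + m * X.l = p % X.l := by
          have h5 : (m : ℤ) = - (p / X.l) := by omega
          rw [h5]
          have := Int.emod_add_mul_ediv p X.l
          linarith
        rw [h4] at h3
        exact h3
    exact (((Set.finite_Ico _ _).prod Set.finite_univ).image _).subset h2

theorem Blk.words_sh (X : Blk S k) : ∀ a ∈ X.words, a.sh ∈ X.words := by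
  rintro _ ⟨p, hp, s, rfl⟩
  by_cases h0 : X.x.L.lt (s == X.x.L.r p) p = 1
  · have h1 : (X.x.L.wd p s).sh = X.x.L.wd p s := by
      have h2 := (X.x.wd_abs hp s).eq_fin (by
        show X.x.L.wdd (s == X.x.L.r p) p 0 = 1
        rw [Ln.wdd_zero]; exact h0)
      rw [h2]
      rfl
    rw [h1]
    exact ⟨p, hp, s, rfl⟩
  · have h1 := X.x.Zcl (s == X.x.L.r p) p hp h0
    refine ⟨_, h1, ((s == X.x.L.r p) == X.x.L.r (st (s == X.x.L.r p) p)), ?_⟩
    show (X.x.L.wdd (s == X.x.L.r p) p).sh = X.x.L.wdd _ _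
    rw [Ln.wdd_sh, WFb_beq1]

theorem Blk.words_up (X : Blk S k) : ∀ a ∈ X.words, a.UP := by
  rintro _ ⟨p, hp, s, rfl⟩
  rcases Nat.eq_zero_or_pos X.l with h0 | h0
  · have hZ : X.x.Fin := X.fin h0
    obtain ⟨w, hw1, hw2⟩ := X.x.exists_shift p hp
    have hwf : w.Fin := by
      have h1 : w.Z ⊆ (fun q : ℤ => q - p) '' X.x.Z := by
        intro q hq
        exact ⟨q + p, (hw2 q).1 hq, by simp⟩
      exact Set.Finite.subset (Set.Finite.image _ hZ) h1
    obtain ⟨n, hn⟩ := w.fin_iff.1 hwf (s == X.x.L.r p)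
    have h3 : X.x.L.wd p s n = 1 := by
      show X.x.L.lt (s == X.x.L.r p) (stn (s == X.x.L.r p) n p) = 1
      rw [hw1, Ln.shift_lt] at hn
      have h4 : stn (s == X.x.L.r p) (n : ℤ) 0 + p = stn (s == X.x.L.r p) n p := by
        cases (s == X.x.L.r p) <;> simp <;> ring
      rwa [h4] at hn
    exact Wd.up_of_one (X.x.wd_abs hp s) h3
  · refine ⟨0, X.l, h0, fun n _ => ?_⟩
    have hper := X.ok.per
    show X.x.L.lt (s == X.x.L.r p) (stn (s == X.x.L.r p) ((n + X.l : ℕ) : ℤ) p) =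
      X.x.L.lt (s == X.x.L.r p) (stn (s == X.x.L.r p) (n : ℤ) p)
    have hl := hper.lt (s == X.x.L.r p)
    cases h5 : (s == X.x.L.r p) with
    | true =>
      rw [h5] at hl
      have h6 : stn true ((n + X.l : ℕ) : ℤ) p = stn true (n : ℤ) p + X.l := by
        simp; ring
      rw [h6]
      exact hl _
    | false =>
      rw [h5] at hl
      have h6 : stn false (n : ℤ) p = stn false ((n + X.l : ℕ) : ℤ) p + X.l := by
        simp; ring
      rw [h6]
      exact (hl _).symm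

/-- the words of a normal form -/
def NF.words (q : NF S k) : Set Wd := (⋃ i, (q.X i).words) ∪ ⋃ j, (q.Y j).words

theorem NF.words_finite (q : NF S k) : q.words.Finite :=
  (Set.finite_iUnion fun i => (q.X i).words_finite).union
    (Set.finite_iUnion fun j => (q.Y j).words_finite)

theorem NF.words_sh (q : NF S k) : ∀ a ∈ q.words, a.sh ∈ q.words := by
  rintro a (ha | ha)
  · obtain ⟨i, hi⟩ := Set.mem_iUnion.1 ha
    exact Or.inl (Set.mem_iUnion.2 ⟨i, (q.X i).words_sh a hi⟩)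
  · obtain ⟨j, hj⟩ := Set.mem_iUnion.1 ha
    exact Or.inr (Set.mem_iUnion.2 ⟨j, (q.Y j).words_sh a hj⟩)

theorem NF.words_up (q : NF S k) : ∀ a ∈ q.words, a.UP := by
  rintro a (ha | ha)
  · obtain ⟨i, hi⟩ := Set.mem_iUnion.1 ha
    exact (q.X i).words_up a hi
  · obtain ⟨j, hj⟩ := Set.mem_iUnion.1 ha
    exact (q.Y j).words_up a hj

/-- the criterion at one position, in terms of the vertex and the words -/
def CritPt (X Y : Blk S k) (a : X.M.C) (b : Dual k Y.M.C) (i : Fin D.nV) (u : Bool → Wd) : Prop :=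
  ∀ p ∈ X.x.Z, ∀ r ∈ Y.x.Z, X.x.L.v p = i → Y.x.L.v r = i →
    (∀ s, WLe (Y.x.L.wd r s) (u s) ∧ WLe (u s) (X.x.L.wd p s)) →
    (∀ s, ¬ (u s = X.x.L.wd p s ∧ ∀ n, u s n ≠ 1)) → (∀ s, ¬ (u s = Y.x.L.wd r s ∧ ∀ n, u s n ≠ 1)) →
    ∀ κ, Om X.x.L Y.x.L (X.fn a) (Y.cf b) κ (X.x.L.r p == Y.x.L.r r) p r = 0

theorem pf_forall {L L' : Ln (Fin D.nV) S.nx} {p q : ℤ} (P : Wd → Wd → Prop) :
    (∀ e, P (L.wdd e p) (L'.wdd (e == (L.r p == L'.r q)) q)) ↔ ∀ s, P (L.wd p s) (L'.wd q s) := by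
  constructor
  · intro h s
    have h1 := h (s == L.r p)
    have h2 : ((s == L.r p) == (L.r p == L'.r q)) = (s == L'.r q) := WFb_beq3 s _ _
    rw [h2] at h1
    exact h1
  · intro h e
    have h1 := h (e == L.r p)
    unfold Ln.wd at h1
    rw [WFb_beq1, WFb_beq2] at h1
    exact h1

theorem pf_led {L L' : Ln (Fin D.nV) S.nx} {p q : ℤ} :
    LeD L L' (L.r p == L'.r q) p q ↔ ∀ s, WLe (L'.wd q s) (L.wd p s) :=
  pf_forall (fun u v => WLe v u)

theorem pf_fincl {L L' : Ln (Fin D.nV) S.nx} {p q : ℤ} :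
    FinCl L L' (L.r p == L'.r q) p q ↔ ∀ s, ¬ (L.wd p s = L'.wd q s ∧ ∀ n, L.wd p s n ≠ 1) := by
  have h1 : FinCl L L' (L.r p == L'.r q) p q ↔
      ∀ e, ¬ ((L.wdd e p) = (L'.wdd (e == (L.r p == L'.r q)) q) ∧ ∀ n, (L.wdd e p) n ≠ 1) := by
    refine forall_congr' fun e => ?_
    rw [← forall_Agr_iff, not_forall]
    rfl
  rw [h1]
  exact pf_forall (fun u v => ¬ (u = v ∧ ∀ n, u n ≠ 1))

/-- the criterion is a condition at the positions of `w` (orientations: `o = (X.x.L.r p == w.L.r q)`,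
`o' = (w.L.r q == Y.x.L.r r)`; `LeD` in terms of `wd` as in `Al.mt`; `FinCl` by `forall_Agr_iff`) -/
theorem critB_iff (X Y : Blk S k) (a : X.M.C) (b : Dual k Y.M.C) (w : Str S) :
    CritB X Y a b w ↔ ∀ q ∈ w.Z, CritPt X Y a b (w.L.v q) (w.L.wd q) := by
  constructor
  · intro h q hq p hp r hr hv hv' hle h1 h2 κ
    have h3 := h (X.x.L.r p == w.L.r q) (w.L.r q == Y.x.L.r r) p q r hp hq hr ⟨hv, rfl⟩
      ⟨hv'.symm, rfl⟩ (pf_led.2 fun s => (hle s).2) (pf_led.2 fun s => (hle s).1)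
      (pf_fincl.2 fun s hs => h1 s ⟨hs.1.symm, fun n => by rw [← hs.1]; exact hs.2 n⟩)
      (pf_fincl.2 fun s hs => h2 s hs) κ
    have h4 : ((X.x.L.r p == w.L.r q) == (w.L.r q == Y.x.L.r r)) = (X.x.L.r p == Y.x.L.r r) :=
      WFb_beq3 _ _ _
    rwa [h4] at h3
  · intro h o o' p q r hp hq hr hm hm' hl hl' hf hf' κ
    obtain ⟨hv, rfl⟩ := hm
    obtain ⟨hv', rfl⟩ := hm'
    have h3 := h q hq p hp r hr hv hv'.symm
      (fun s => ⟨pf_led.1 hl' s, pf_led.1 hl s⟩)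
      (fun s hs => pf_fincl.1 hf s ⟨hs.1.symm, fun n => by rw [← hs.1]; exact hs.2 n⟩)
      (fun s hs => pf_fincl.1 hf' s hs) κ
    have h4 : ((X.x.L.r p == w.L.r q) == (w.L.r q == Y.x.L.r r)) = (X.x.L.r p == Y.x.L.r r) :=
      WFb_beq3 _ _ _
    rw [h4]
    exact h3

theorem pf_critPt_aux {X Y : Blk S k} {a : X.M.C} {b : Dual k Y.M.C} {A : Set Wd} (hX : X.words ⊆ A)
    (hY : Y.words ⊆ A) {i : Fin D.nV} {u u' : Bool → Wd} (h : ∀ s, SameTy A (u s) (u' s))
    (hc : CritPt X Y a b i u) : CritPt X Y a b i u' := by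
  intro p hp r hr hv hv' hle h1 h2 κ
  have hXw : ∀ s, X.x.L.wd p s ∈ A := fun s => hX ⟨p, hp, s, rfl⟩
  have hYw : ∀ s, Y.x.L.wd r s ∈ A := fun s => hY ⟨r, hr, s, rfl⟩
  refine hc p hp r hr hv hv' (fun s => ⟨?_, ?_⟩) (fun s hs => ?_) (fun s hs => ?_) κ
  · exact (h s _ (hYw s)).2.2 (hle s).1
  · exact (h s _ (hXw s)).1.2 (hle s).2
  · have h3 : u' s = X.x.L.wd p s := (h s).eq (hXw s) hs.1
    exact h1 s ⟨h3, fun n => by rw [h3, ← hs.1]; exact hs.2 n⟩
  · have h3 : u' s = Y.x.L.wd r s := (h s).eq (hYw s) hs.1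
    exact h2 s ⟨h3, fun n => by rw [h3, ← hs.1]; exact hs.2 n⟩

/-- the criterion at a position only depends on the types -/
theorem critPt_ty {X Y : Blk S k} {a : X.M.C} {b : Dual k Y.M.C} {A : Set Wd} (hX : X.words ⊆ A) (hY : Y.words ⊆ A)
    {i : Fin D.nV} {u u' : Bool → Wd} (h : ∀ s, SameTy A (u s) (u' s)) :
    CritPt X Y a b i u ↔ CritPt X Y a b i u' :=
  ⟨pf_critPt_aux hX hY h, pf_critPt_aux hX hY fun s => (h s).symm⟩

end StrAlg
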