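import Pool.Agent.Lib.MP_b9fd58_lc.S2H
import Pool.Agent.Lib.MP_b9fd58_lc.PF

/-!
# Stage 2, pigeonhole with ranks: two strings that agree in a window
-/

set_option autoImplicit false

namespace StrAlg

open Module

variable {D : Dat} {k : Type} [Field k] {S : Sides D}

/-- `w'` agrees with `w` in the window `[-R, R]` -/
structure WinEq (w w' : Str S) (R : ℕ) : Prop where
  v : ∀ q : ℤ, q.natAbs ≤ R → w'.L.v q = w.L.v q
  r : ∀ q : ℤ, q.natAbs ≤ R → w'.L.r q = w.L.r q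
  Z : ∀ q : ℤ, q.natAbs ≤ R → (q ∈ w'.Z ↔ q ∈ w.Z)
  lam : ∀ q : ℤ, -(R : ℤ) ≤ q → q < R → w'.L.lam q = w.L.lam q

theorem WinEq.lt {w w' : Str S} {R : ℕ} (h : WinEq w w' R) (e : Bool) {q : ℤ} (hq : q.natAbs < R) :
    w'.L.lt e q = w.L.lt e q := by
  cases e
  · rw [Ln.lt_false, Ln.lt_false, h.lam (q - 1) (by omega) (by omega)]
  · rw [Ln.lt_true, Ln.lt_true, h.lam q (by omega) (by omega)]

theorem WinEq.agd_in {w w' : Str S} {R : ℕ} (h : WinEq w w' R) {X : Ln (Fin D.nV) S.nx} {o : Bool} {c q : ℤ}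
    (hin : ∀ c' q', Cn X w.L o c q c' q' → q'.natAbs < R) (e : Bool) (n : ℕ) :
    AgD X w'.L o e c q n ↔ AgD X w.L o e c q n := by
  induction n with
  | zero => exact ⟨fun _ => AgD.zero, fun _ => AgD.zero⟩
  | succ n ih =>
    rw [AgD_succ', AgD_succ', ih]
    refine and_congr_right fun hag => ?_
    have h1 := hin _ _ ⟨e, n, hag, rfl, rfl⟩
    unfold Lk
    rw [h.lt (e == o) h1]

theorem WinEq.agd_out {w w' : Str S} {R : ℕ} (h : WinEq w w' R) {Y : Ln (Fin D.nV) S.nx} {o : Bool} {q r : ℤ}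
    (hin : ∀ q' r', Cn w.L Y o q r q' r' → q'.natAbs < R) (e : Bool) (n : ℕ) :
    AgD w'.L Y o e q r n ↔ AgD w.L Y o e q r n := by
  induction n with
  | zero => exact ⟨fun _ => AgD.zero, fun _ => AgD.zero⟩
  | succ n ih =>
    rw [AgD_succ', AgD_succ', ih]
    refine and_congr_right fun hag => ?_
    have h1 := hin _ _ ⟨e, n, hag, rfl, rfl⟩
    unfold Lk
    rw [h.lt e h1]

theorem WinEq.cn_in {w w' : Str S} {R : ℕ} (h : WinEq w w' R) {X : Ln (Fin D.nV) S.nx} {o : Bool} {c q : ℤ}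
    (hin : ∀ c' q', Cn X w.L o c q c' q' → q'.natAbs < R) (c' q' : ℤ) :
    Cn X w'.L o c q c' q' ↔ Cn X w.L o c q c' q' := by
  unfold Cn
  simp only [h.agd_in hin]

theorem WinEq.cn_out {w w' : Str S} {R : ℕ} (h : WinEq w w' R) {Y : Ln (Fin D.nV) S.nx} {o : Bool} {q r : ℤ}
    (hin : ∀ q' r', Cn w.L Y o q r q' r' → q'.natAbs < R) (q' r' : ℤ) :
    Cn w'.L Y o q r q' r' ↔ Cn w.L Y o q r q' r' := by
  unfold Cn
  simp only [h.agd_out hin]

theorem WinEq.push_in {w w' : Str S} {R : ℕ} (h : WinEq w w' R) {X : Ln (Fin D.nV) S.nx} {o : Bool} {c q : ℤ}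
    (hin : ∀ c' q', Cn X w.L o c q c' q' → q'.natAbs < R) (f : ℤ → k) :
    push X w'.L o c q f = push X w.L o c q f := by
  funext b
  by_cases hb : ∃ c', Cn X w.L o c q c' b
  · obtain ⟨c', hc'⟩ := hb
    rw [push_eq hc', push_eq ((h.cn_in hin c' b).2 hc')]
  · rw [push_zero hb, push_zero (fun ⟨c', hc'⟩ => hb ⟨c', (h.cn_in hin c' b).1 hc'⟩)]

theorem WinEq.pull_out {w w' : Str S} {R : ℕ} (h : WinEq w w' R) {Y : Ln (Fin D.nV) S.nx} {o : Bool} {q r : ℤ}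
    (hin : ∀ q' r', Cn w.L Y o q r q' r' → q'.natAbs < R) (f : ℤ → k) :
    pull w'.L Y o q r f = pull w.L Y o q r f := by
  funext b
  by_cases hb : ∃ r', Cn w.L Y o q r b r'
  · obtain ⟨r', hr'⟩ := hb
    rw [pull_eq hr', pull_eq ((h.cn_out hin b r').2 hr')]
  · rw [pull_zero hb, pull_zero (fun ⟨r', hr'⟩ => hb ⟨r', (h.cn_out hin b r').1 hr'⟩)]

/-- functions pushed from different positions of a class are equal -/
theorem push_cn {X w : Ln (Fin D.nV) S.nx} {o : Bool} {c q c₁ q₁ : ℤ} (h : Cn X w o c q c₁ q₁) (f : ℤ → k) :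
    push X w o c₁ q₁ f = push X w o c q f := by
  funext b
  by_cases hb : ∃ c', Cn X w o c q c' b
  · obtain ⟨c', hc'⟩ := hb
    rw [push_eq hc', push_eq (h.symm.trans hc')]
  · rw [push_zero hb, push_zero (fun ⟨c', hc'⟩ => hb ⟨c', h.trans hc'⟩)]

theorem pull_cn {w Y : Ln (Fin D.nV) S.nx} {o : Bool} {q r q₁ r₁ : ℤ} (h : Cn w Y o q r q₁ r₁) (f : ℤ → k) :
    pull w Y o q₁ r₁ f = pull w Y o q r f := by
  funext b
  by_cases hb : ∃ r', Cn w Y o q r b r'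
  · obtain ⟨r', hr'⟩ := hb
    rw [pull_eq hr', pull_eq (h.symm.trans hr')]
  · rw [pull_zero hb, pull_zero (fun ⟨r', hr'⟩ => hb ⟨r', h.trans hr'⟩)]

/-- the order condition for the maps from a block only depends on the type -/
theorem ord_in_ty (X : Blk S k) {A : Set Wd} (hX : X.words ⊆ A) {w w' : Str S} {q q' : ℤ}
    (hv : w'.L.v q' = w.L.v q) (hr : w'.L.r q' = w.L.r q) (hq : q ∈ w.Z) (hq' : q' ∈ w'.Z)
    (hty : ∀ s, SameTy A (w'.L.wd q' s) (w.L.wd q s)) {o : Bool} {c : ℤ} :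
    Ord X.x w' o c q' ↔ Ord X.x w o c q := by
  unfold Ord
  refine ⟨?_, ?_⟩
  · rintro ⟨hc, -, hm, hl, hf⟩
    have hA : ∀ s, X.x.L.wd c s ∈ A := fun s => hX ⟨c, hc, s, rfl⟩
    obtain ⟨hm1, rfl⟩ := hm
    refine ⟨hc, hq, ⟨hm1.trans hv, by rw [hr]⟩, ?_, ?_⟩
    · rw [hr, pf_led]
      intro s
      exact ((hty s _ (hA s)).1).1 (pf_led.1 hl s)
    · rw [hr, pf_fincl]
      rintro s ⟨h1, h2⟩
      refine pf_fincl.1 hf s ⟨?_, h2⟩
      exact ((hty s).symm.eq (hA s) h1.symm).symm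
  · rintro ⟨hc, -, hm, hl, hf⟩
    have hA : ∀ s, X.x.L.wd c s ∈ A := fun s => hX ⟨c, hc, s, rfl⟩
    obtain ⟨hm1, rfl⟩ := hm
    refine ⟨hc, hq', ⟨hm1.trans hv.symm, by rw [hr]⟩, ?_, ?_⟩
    · rw [← hr, pf_led]
      intro s
      exact ((hty s _ (hA s)).1).2 (pf_led.1 hl s)
    · rw [← hr, pf_fincl]
      rintro s ⟨h1, h2⟩
      refine pf_fincl.1 hf s ⟨?_, h2⟩
      exact ((hty s).eq (hA s) h1.symm).symm

/-- the order condition for the maps to a block only depends on the type -/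
theorem ord_out_ty (Y : Blk S k) {A : Set Wd} (hY : Y.words ⊆ A) {w w' : Str S} {q q' : ℤ}
    (hv : w'.L.v q' = w.L.v q) (hr : w'.L.r q' = w.L.r q) (hq : q ∈ w.Z) (hq' : q' ∈ w'.Z)
    (hty : ∀ s, SameTy A (w'.L.wd q' s) (w.L.wd q s)) {o : Bool} {r : ℤ} :
    Ord w' Y.x o q' r ↔ Ord w Y.x o q r := by
  unfold Ord
  refine ⟨?_, ?_⟩
  · rintro ⟨-, hc, hm, hl, hf⟩
    have hA : ∀ s, Y.x.L.wd r s ∈ A := fun s => hY ⟨r, hc, s, rfl⟩
    obtain ⟨hm1, rfl⟩ := hm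
    refine ⟨hq, hc, ⟨hv.symm.trans hm1, by rw [hr]⟩, ?_, ?_⟩
    · rw [hr, pf_led]
      intro s
      exact ((hty s _ (hA s)).2).1 (pf_led.1 hl s)
    · rw [hr, pf_fincl]
      rintro s ⟨h1, h2⟩
      have h3 : w'.L.wd q' s = Y.x.L.wd r s := (hty s).symm.eq (hA s) h1
      refine pf_fincl.1 hf s ⟨h3, fun n => ?_⟩
      rw [h3, ← h1]; exact h2 n
  · rintro ⟨-, hc, hm, hl, hf⟩
    have hA : ∀ s, Y.x.L.wd r s ∈ A := fun s => hY ⟨r, hc, s, rfl⟩
    obtain ⟨hm1, rfl⟩ := hm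
    refine ⟨hq', hc, ⟨hv.trans hm1, by rw [hr]⟩, ?_, ?_⟩
    · rw [← hr, pf_led]
      intro s
      exact ((hty s _ (hA s)).2).2 (pf_led.1 hl s)
    · rw [← hr, pf_fincl]
      rintro s ⟨h1, h2⟩
      have h3 : w.L.wd q s = Y.x.L.wd r s := (hty s).eq (hA s) h1
      refine pf_fincl.1 hf s ⟨h3, fun n => ?_⟩
      rw [h3, ← h1]; exact h2 n

/-- relevance is a condition on the vertex and the words -/
theorem NF.rel_iff (p : NF S k) (w : Str S) (q : ℤ) :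
    p.Rel w q ↔ q ∈ w.Z ∧ ∃ i j, ¬ CritPt (p.X i) (p.Y j) (p.a i) (p.b j) (w.L.v q) (w.L.wd q) := by
  constructor
  · rintro ⟨i, j, o, o', c, r, h1, h2, κ, hκ⟩
    refine ⟨h1.2.1, i, j, fun h => hκ ?_⟩
    obtain ⟨hc, hq, ⟨hv, rfl⟩, hl, hf⟩ := h1
    obtain ⟨-, hr, ⟨hv', rfl⟩, hl', hf'⟩ := h2
    have h3 := h c hc r hr hv hv'.symm (fun s => ⟨pf_led.1 hl' s, pf_led.1 hl s⟩)
      (fun s hs => pf_fincl.1 hf s ⟨hs.1.symm, fun n => by rw [← hs.1]; exact hs.2 n⟩)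
      (fun s hs => pf_fincl.1 hf' s hs) κ
    have h4 : (((p.X i).x.L.r c == w.L.r q) == (w.L.r q == (p.Y j).x.L.r r)) = ((p.X i).x.L.r c == (p.Y j).x.L.r r) :=
      WFb_beq3 _ _ _
    rw [h4]
    exact h3
  · rintro ⟨hq, i, j, h⟩
    by_contra hcon
    apply h
    intro c hc r hr hv hv' hle h1 h2 κ
    by_contra hκ
    apply hcon
    refine ⟨i, j, ((p.X i).x.L.r c == w.L.r q), (w.L.r q == (p.Y j).x.L.r r), c, r,
      ⟨hc, hq, ⟨hv, rfl⟩, pf_led.2 fun s => (hle s).2,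
        pf_fincl.2 fun s hs => h1 s ⟨hs.1.symm, fun n => by rw [← hs.1]; exact hs.2 n⟩⟩,
      ⟨hq, hr, ⟨hv'.symm, rfl⟩, pf_led.2 fun s => (hle s).1, pf_fincl.2 fun s hs => h2 s hs⟩, κ, ?_⟩
    have h4 : (((p.X i).x.L.r c == w.L.r q) == (w.L.r q == (p.Y j).x.L.r r)) = ((p.X i).x.L.r c == (p.Y j).x.L.r r) :=
      WFb_beq3 _ _ _
    rw [h4]
    exact hκ

theorem NF.X_words {p : NF S k} (i : Fin p.m) : (p.X i).words ⊆ p.words := fun _ ha => Or.inl (Set.mem_iUnion.2 ⟨i, ha⟩)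
theorem NF.Y_words {p : NF S k} (j : Fin p.m') : (p.Y j).words ⊆ p.words := fun _ ha => Or.inr (Set.mem_iUnion.2 ⟨j, ha⟩)

/-- relevance only depends on the vertex and the types -/
theorem NF.rel_ty (p : NF S k) {A : Set Wd} (hA : p.words ⊆ A) {w w' : Str S} {q q' : ℤ}
    (hv : w'.L.v q' = w.L.v q) (hq : q ∈ w.Z) (hq' : q' ∈ w'.Z)
    (hty : ∀ s, SameTy A (w'.L.wd q' s) (w.L.wd q s)) : p.Rel w' q' ↔ p.Rel w q := by
  rw [NF.rel_iff, NF.rel_iff]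
  simp only [hq, hq', true_and, hv]
  refine exists_congr fun i => exists_congr fun j => not_congr ?_
  exact critPt_ty ((NF.X_words i).trans hA) ((NF.Y_words j).trans hA) hty

/-- in a periodic string relevance is periodic -/
theorem NF.rel_per (p : NF S k) {w : Str S} {l : ℕ} (h : w.Per l) (q : ℤ) : p.Rel w (q + l) ↔ p.Rel w q := by
  rw [NF.rel_iff, NF.rel_iff]
  have h1 : w.L.v (q + l) = w.L.v q := h.1.v q
  have h2 : w.L.wd (q + l) = w.L.wd q := funext fun s => pf_wd_per h.1 q s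
  have h3 : q + l ∈ w.Z := w.Z_univ h.2 _
  have h4 : q ∈ w.Z := w.Z_univ h.2 _
  rw [h1, h2]
  simp only [h3, h4]

theorem NF.rel_infinite (p : NF S k) {w : Str S} (hw : ¬ w.Aper) {q : ℤ} (hq : p.Rel w q) :
    ¬ {q | p.Rel w q}.Finite := by
  obtain ⟨l, hl, hp, -⟩ := w.exists_minPer hw
  intro hfin
  have h1 : ∀ n : ℕ, p.Rel w (q + n * l) := by
    intro n
    induction n with
    | zero => simpa using hq
    | succ n ih =>
      have := (p.rel_per hp (q + n * l)).2 ih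
      have e : q + ((n + 1 : ℕ) : ℤ) * l = q + n * l + l := by push_cast; ring
      rw [e]
      exact this
  have h2 : Set.Infinite (Set.range fun n : ℕ => q + (n : ℤ) * l) := by
    apply Set.infinite_range_of_injective
    intro a b hab
    have hl' : (l : ℤ) ≠ 0 := by exact_mod_cast hl.ne'
    have : (a : ℤ) * l = b * l := by simpa using hab
    exact_mod_cast mul_right_cancel₀ hl' this
  exact h2 (hfin.subset (by rintro _ ⟨n, rfl⟩; exact h1 n))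

end StrAlg
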