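import Pool.Agent.Lib.MP_b9fd58_lc.H2A

/-!
# Stage 2: pigeonhole with ranks
-/

set_option autoImplicit false

namespace StrAlg

open Module

variable {D : Dat} {k : Type} [Field k] {S : Sides D}

/-- `w'` agrees with `w` in the window `[-R, R]`, and the types relative to `A` in the window are the same -/
structure WinTy (w w' : Str S) (R : ℕ) (A : Set Wd) : Prop extends WinEq w w' R where
  ty : ∀ q ∈ w.Z, q.natAbs ≤ R → ∀ s, SameTy A (w'.L.wd q s) (w.L.wd q s)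

theorem WinTy.ord_in {w w' : Str S} {R : ℕ} {A : Set Wd} (h : WinTy w w' R A) {X : Blk S k} (hX : X.words ⊆ A)
    {o : Bool} {c q : ℤ} (hq : q.natAbs ≤ R) : Ord X.x w' o c q ↔ Ord X.x w o c q := by
  by_cases hz : q ∈ w.Z
  · exact ord_in_ty X hX (h.v q hq) (h.r q hq) hz ((h.Z q hq).2 hz) (h.ty q hz hq)
  · exact ⟨fun h' => absurd ((h.Z q hq).1 h'.2.1) hz, fun h' => absurd h'.2.1 hz⟩

theorem WinTy.ord_out {w w' : Str S} {R : ℕ} {A : Set Wd} (h : WinTy w w' R A) {Y : Blk S k} (hY : Y.words ⊆ A)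
    {o : Bool} {q r : ℤ} (hq : q.natAbs ≤ R) : Ord w' Y.x o q r ↔ Ord w Y.x o q r := by
  by_cases hz : q ∈ w.Z
  · exact ord_out_ty Y hY (h.v q hq) (h.r q hq) hz ((h.Z q hq).2 hz) (h.ty q hz hq)
  · exact ⟨fun h' => absurd ((h.Z q hq).1 h'.1) hz, fun h' => absurd h'.1 hz⟩

/-- graph maps with nonzero value go through a relevant position -/
theorem NF.GIn_rel {p : NF S k} {w : Str S} {s t : ℤ → k} (hs : p.GIn w s) (ht : p.GOut w t)
    (h : ∑ᶠ q, t q * s q ≠ 0) :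
    (∃ (i : Fin p.m) (o : Bool) (c q : ℤ) (φ : Dual k (Fin (p.X i).n → k)), p.Rel w q ∧ Ord (p.X i).x w o c q ∧
      s = push (p.X i).x.L w.L o c q (fun c' => φ ((p.X i).fn (p.a i) c'))) ∧
    (∃ (j : Fin p.m') (o : Bool) (q r : ℤ) (y : Fin (p.Y j).n → k), p.Rel w q ∧ Ord w (p.Y j).x o q r ∧
      t = pull w.L (p.Y j).x.L o q r (fun r' => (p.Y j).cf (p.b j) r' y)) := by
  obtain ⟨i, o, c, q, φ, h1, rfl⟩ := hs
  obtain ⟨j, o', q₁, r, y, h2, rfl⟩ := ht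
  obtain ⟨c', q', r', g1, g2, g3, g4, g5⟩ := val_ne_zero (p.a i) (p.b j) w h1 h2 φ y h
  have hrel : p.Rel w q' := ⟨i, j, o, o', c', r', g3, g4, _, g5⟩
  exact ⟨⟨i, o, c', q', φ, hrel, g3, (push_cn g1 _).symm⟩, ⟨j, o', q', r', y, hrel, g4, (pull_cn g2 _).symm⟩⟩

/-- the determinant of a matrix with a zero column (row) is zero -/
theorem h2_det_col {n : ℕ} {M : Matrix (Fin n) (Fin n) k} (h : M.det ≠ 0) (j : Fin n) : ∃ i, M i j ≠ 0 := by
  by_contra hcon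
  push Not at hcon
  exact h (Matrix.det_eq_zero_of_column_eq_zero j hcon)

theorem h2_det_row {n : ℕ} {M : Matrix (Fin n) (Fin n) k} (h : M.det ≠ 0) (i : Fin n) : ∃ j, M i j ≠ 0 := by
  by_contra hcon
  push Not at hcon
  exact h (Matrix.det_eq_zero_of_row_eq_zero i hcon)

/-- the positions of the classes through the relevant positions -/
def NF.RelCl (p : NF S k) (w : Str S) : Set ℤ :=
  ⋃ q ∈ {q | p.Rel w q}, ({q} ∪ {q' | s2hIn p w q q'} ∪ {q' | s2hOut p w q q'})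

theorem NF.RelCl_finite {p : NF S k} {w : Str S} (h : {q | p.Rel w q}.Finite) : (p.RelCl w).Finite := by
  unfold NF.RelCl
  refine Set.Finite.biUnion h (fun q _ => ?_)
  exact ((Set.finite_singleton q).union (s2hIn_finite p w q)).union (s2hOut_finite p w q)

/-- the rank does not change if the relevant positions are the same and all the classes through them lie in the window -/
theorem WinTy.rk {w w' : Str S} {R : ℕ} {A : Set Wd} (h : WinTy w w' R A) (p : NF S k) (hA : p.words ⊆ A)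
    (hR : ∀ q ∈ p.RelCl w, q.natAbs < R) (hrel : ∀ q, p.Rel w' q ↔ p.Rel w q) (m : ℕ) :
    p.RkW w' m ↔ p.RkW w m := by
  have hq : ∀ {q}, p.Rel w q → q.natAbs < R := fun {q} hq =>
    hR q (Set.mem_biUnion (s := {q | p.Rel w q}) hq (Or.inl (Or.inl rfl)))
  have hin : ∀ {q q'}, p.Rel w q → s2hIn p w q q' → q'.natAbs < R := fun {q q'} hq hq' =>
    hR q' (Set.mem_biUnion (s := {q | p.Rel w q}) hq (Or.inl (Or.inr hq')))
  have hout : ∀ {q q'}, p.Rel w q → s2hOut p w q q' → q'.natAbs < R := fun {q q'} hq hq' =>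
    hR q' (Set.mem_biUnion (s := {q | p.Rel w q}) hq (Or.inr hq'))
  have hpush : ∀ {i : Fin p.m} {o : Bool} {c q : ℤ}, p.Rel w q → Ord (p.X i).x w o c q → ∀ f : ℤ → k,
      push (p.X i).x.L w'.L o c q f = push (p.X i).x.L w.L o c q f := fun {i o c q} h1 h2 f =>
    h.toWinEq.push_in (fun c' q' hc => hin h1 ⟨i, o, c, c', h2, hc⟩) f
  have hpull : ∀ {j : Fin p.m'} {o : Bool} {q r : ℤ}, p.Rel w q → Ord w (p.Y j).x o q r → ∀ f : ℤ → k,
      pull w'.L (p.Y j).x.L o q r f = pull w.L (p.Y j).x.L o q r f := fun {j o q r} h1 h2 f =>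
    h.toWinEq.pull_out (fun q' r' hc => hout h1 ⟨j, o, r, r', h2, hc⟩) f
  constructor
  · rintro ⟨s, t, hs, ht, hd⟩
    refine ⟨s, t, fun j => ?_, fun i => ?_, hd⟩
    · obtain ⟨i, hi⟩ := h2_det_col hd j
      obtain ⟨⟨i', o, c, q, φ, g1, g2, g3⟩, -⟩ := NF.GIn_rel (hs j) (ht i) hi
      have g1' := (hrel q).1 g1
      have g2' := (h.ord_in ((NF.X_words i').trans hA) (hq g1').le).1 g2
      exact ⟨i', o, c, q, φ, g2', by rw [g3, hpush g1' g2']⟩
    · obtain ⟨j, hj⟩ := h2_det_row hd i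
      obtain ⟨-, ⟨j', o, q, r, y, g1, g2, g3⟩⟩ := NF.GIn_rel (hs j) (ht i) hj
      have g1' := (hrel q).1 g1
      have g2' := (h.ord_out ((NF.Y_words j').trans hA) (hq g1').le).1 g2
      exact ⟨j', o, q, r, y, g2', by rw [g3, hpull g1' g2']⟩
  · rintro ⟨s, t, hs, ht, hd⟩
    refine ⟨s, t, fun j => ?_, fun i => ?_, hd⟩
    · obtain ⟨i, hi⟩ := h2_det_col hd j
      obtain ⟨⟨i', o, c, q, φ, g1, g2, g3⟩, -⟩ := NF.GIn_rel (hs j) (ht i) hi
      have g2' := (h.ord_in ((NF.X_words i').trans hA) (hq g1).le).2 g2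
      exact ⟨i', o, c, q, φ, g2', by rw [g3, hpush g1 g2]⟩
    · obtain ⟨j, hj⟩ := h2_det_row hd i
      obtain ⟨-, ⟨j', o, q, r, y, g1, g2, g3⟩⟩ := NF.GIn_rel (hs j) (ht i) hj
      have g2' := (h.ord_out ((NF.Y_words j').trans hA) (hq g1).le).2 g2
      exact ⟨j', o, q, r, y, g2', by rw [g3, hpull g1 g2]⟩

/-- lower bounds for the rank are seen in a finite window -/
theorem NF.RkW.transfer {p : NF S k} {w : Str S} {n : ℕ} (h : p.RkW w n) :
    ∃ F : Set ℤ, F.Finite ∧ ∀ (w' : Str S) (R : ℕ) (A : Set Wd), p.words ⊆ A → WinTy w w' R A →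
      (∀ q ∈ F, q.natAbs < R) → p.RkW w' n := by
  obtain ⟨s, t, hs, ht, hd⟩ := h
  choose i o c q φ hs1 hs2 using hs
  choose j o' q' r y ht1 ht2 using ht
  refine ⟨(⋃ a : Fin n, {x | ∃ c', Cn (p.X (i a)).x.L w.L (o a) (c a) (q a) c' x}) ∪
    (⋃ a : Fin n, {x | ∃ r', Cn w.L (p.Y (j a)).x.L (o' a) (q' a) (r a) x r'}), ?_, ?_⟩
  · refine Set.Finite.union (Set.finite_iUnion fun a => ?_) (Set.finite_iUnion fun a => ?_)
    · refine Set.Finite.subset (Finset.finite_toSet (Finset.Icc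
        (q a - (lenD (p.X (i a)).x.L w.L (o a) false (c a) (q a) + lenD (p.X (i a)).x.L w.L (o a) true (c a) (q a)))
        (q a + (lenD (p.X (i a)).x.L w.L (o a) false (c a) (q a) + lenD (p.X (i a)).x.L w.L (o a) true (c a) (q a)))))
        (fun x hx => ?_)
      obtain ⟨c', hc'⟩ := hx
      exact Finset.mem_coe.2 (Cn.mem_Icc_right (hs1 a).2.2.2.2 hc')
    · refine Set.Finite.subset (Finset.finite_toSet (Finset.Icc
        (q' a - lenD w.L (p.Y (j a)).x.L (o' a) false (q' a) (r a))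
        (q' a + lenD w.L (p.Y (j a)).x.L (o' a) true (q' a) (r a)))) (fun x hx => ?_)
      obtain ⟨c', hc'⟩ := hx
      exact Finset.mem_coe.2 (Cn.mem_Icc_left (ht1 a).2.2.2.2 hc')
  · intro w' R A hA hw hR
    refine ⟨s, t, fun a => ?_, fun a => ?_, hd⟩
    · have h1 : ∀ c' x, Cn (p.X (i a)).x.L w.L (o a) (c a) (q a) c' x → x.natAbs < R := fun c' x hx =>
        hR x (Or.inl (Set.mem_iUnion.2 ⟨a, c', hx⟩))
      have h2 := (hw.ord_in ((NF.X_words (i a)).trans hA) (h1 _ _ Cn.refl).le).2 (hs1 a)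
      exact ⟨i a, o a, c a, q a, φ a, h2, by rw [hs2 a, hw.toWinEq.push_in h1]⟩
    · have h1 : ∀ x r', Cn w.L (p.Y (j a)).x.L (o' a) (q' a) (r a) x r' → x.natAbs < R := fun x r' hx =>
        hR x (Or.inr (Set.mem_iUnion.2 ⟨a, r', hx⟩))
      have h2 := (hw.ord_out ((NF.Y_words (j a)).trans hA) (h1 _ _ Cn.refl).le).2 (ht1 a)
      exact ⟨j a, o' a, q' a, r a, y a, h2, by rw [ht2 a, hw.toWinEq.pull_out h1]⟩

theorem h2_bound {F : Set ℤ} (hF : F.Finite) : ∃ R : ℕ, ∀ q ∈ F, q.natAbs < R := by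
  obtain ⟨R, hR⟩ := (hF.image Int.natAbs).bddAbove
  exact ⟨R + 1, fun q hq => Nat.lt_succ_of_le (hR ⟨q, hq, rfl⟩)⟩

/-- **Pigeonhole with ranks**, relevant positions are the same -/
theorem pigeon_rk_aux (w : Str S) (P0 P1 : List (NF S k)) (h0 : ∀ p ∈ P0, ∃ n, ¬ p.RkW w n) (n : ℕ) :
    ∃ w' : Str S, (∀ s, (w'.L.wd 0 s).UP) ∧ (∀ p ∈ P0, ∀ q, p.Rel w' q ↔ p.Rel w q) ∧
      (∀ p ∈ P0, ∀ m, p.RkW w' m ↔ p.RkW w m) ∧ ∀ p ∈ P1, p.RkW w n → p.RkW w' n := by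
  classical
  obtain ⟨A, hA⟩ : ∃ A : Set Wd, A = ⋃ p ∈ {p | p ∈ P0 ++ P1}, NF.words p := ⟨_, rfl⟩
  have hAfin : A.Finite := by
    rw [hA]
    exact Set.Finite.biUnion (List.finite_toSet (P0 ++ P1)) fun p _ => p.words_finite
  have hAsh : ∀ a ∈ A, a.sh ∈ A := by
    rw [hA]
    intro a ha
    obtain ⟨p, hp, hap⟩ := Set.mem_iUnion₂.1 ha
    exact Set.mem_iUnion₂.2 ⟨p, hp, p.words_sh a hap⟩
  have hAup : ∀ a ∈ A, a.UP := by
    rw [hA]
    intro a ha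
    obtain ⟨p, hp, hap⟩ := Set.mem_iUnion₂.1 ha
    exact p.words_up a hap
  have hAw : ∀ p ∈ P0 ++ P1, NF.words p ⊆ A := by
    intro p hp a ha
    rw [hA]
    exact Set.mem_iUnion₂.2 ⟨p, hp, ha⟩
  -- the window
  have hrf : ∀ p ∈ P0, {q | p.Rel w q}.Finite := fun p hp => by
    obtain ⟨m, hm⟩ := h0 p hp
    exact p.rel_finite w hm
  have h1 : ∀ p : NF S k, ∃ F : Set ℤ, F.Finite ∧ (p.RkW w n → ∀ (w' : Str S) (R : ℕ) (A : Set Wd), p.words ⊆ A →
      WinTy w w' R A → (∀ q ∈ F, q.natAbs < R) → p.RkW w' n) := by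
    intro p
    by_cases hp : p.RkW w n
    · obtain ⟨F, hF1, hF2⟩ := hp.transfer
      exact ⟨F, hF1, fun _ => hF2⟩
    · exact ⟨∅, Set.finite_empty, fun h => absurd h hp⟩
  choose F hF1 hF2 using h1
  have hBfin : ((⋃ p ∈ {p | p ∈ P0}, NF.RelCl p w) ∪ (⋃ p ∈ {p | p ∈ P1}, F p)).Finite := by
    refine Set.Finite.union ?_ ?_
    · exact Set.Finite.biUnion (List.finite_toSet P0) fun p hp => NF.RelCl_finite (hrf p hp)
    · exact Set.Finite.biUnion (List.finite_toSet P1) fun p _ => hF1 p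
  obtain ⟨R, hR⟩ := h2_bound hBfin
  obtain ⟨w', hup, g1, g2, g3, g4⟩ := pigeon_strong w A hAfin hAsh hAup R
  have hW : WinTy w w' R A :=
    { v := fun q hq => (g1 q hq).1
      r := fun q hq => (g1 q hq).2.1
      Z := fun q hq => (g1 q hq).2.2
      lam := g2
      ty := fun q hz hq => g3 q ((g1 q hq).2.2.2 hz) hq }
  have hrel : ∀ p ∈ P0, ∀ q, p.Rel w' q ↔ p.Rel w q := by
    intro p hp q
    have hpA : p.words ⊆ A := hAw p (List.mem_append_left _ hp)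
    by_cases hq : q.natAbs ≤ R
    · by_cases hz : q ∈ w.Z
      · have hz' : q ∈ w'.Z := (hW.Z q hq).2 hz
        exact p.rel_ty hpA (hW.v q hq) hz hz' (hW.ty q hz hq)
      · rw [NF.rel_iff, NF.rel_iff]
        exact ⟨fun h => absurd ((hW.Z q hq).1 h.1) hz, fun h => absurd h.1 hz⟩
    · push Not at hq
      have hno : ∀ q' : ℤ, R < q'.natAbs → ¬ p.Rel w q' := by
        intro q' hq' hrel
        have := hR q' (Or.inl (Set.mem_iUnion₂.2 ⟨p, hp, Set.mem_biUnion (s := {q | p.Rel w q}) hrel (Or.inl (Or.inl rfl))⟩))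
        omega
      refine ⟨fun h => ?_, fun h => absurd h (hno q hq)⟩
      exfalso
      have hz' : q ∈ w'.Z := ((p.rel_iff w' q).1 h).1
      obtain ⟨q', hz, hq', hv, hty⟩ := g4 q hz' hq
      exact hno q' hq' ((p.rel_ty hpA hv hz hz' hty).1 h)
  refine ⟨w', hup, hrel, fun p hp m => ?_, fun p hp hrk => ?_⟩
  · exact hW.rk p (hAw p (List.mem_append_left _ hp))
      (fun q hq => hR q (Or.inl (Set.mem_iUnion₂.2 ⟨p, hp, hq⟩))) (hrel p hp) m
  · exact hF2 p hrk w' R A (hAw p (List.mem_append_right _ hp)) hW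
      (fun q hq => hR q (Or.inr (Set.mem_iUnion₂.2 ⟨p, hp, hq⟩)))

/-- **Pigeonhole with ranks** -/
theorem pigeon_rk (w : Str S) (P0 P1 : List (NF S k)) (h0 : ∀ p ∈ P0, ∃ n, ¬ p.RkW w n)
    (h1 : ∃ p ∈ P0, p.RkW w 1) (n : ℕ) :
    ∃ w' : Str S, w'.Aper ∧ (∀ s, (w'.L.wd 0 s).UP) ∧ (∀ p ∈ P0, ∀ m, p.RkW w' m ↔ p.RkW w m) ∧
      ∀ p ∈ P1, p.RkW w n → p.RkW w' n := by
  obtain ⟨w', g1, g2, g3, g4⟩ := pigeon_rk_aux w P0 P1 h0 n
  refine ⟨w', ?_, g1, g3, g4⟩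
  obtain ⟨p, hp, hp1⟩ := h1
  by_contra hcon
  obtain ⟨q, hq⟩ := (p.rkW_one w).1 hp1
  refine p.rel_infinite hcon ((g2 p hp q).2 hq) ?_
  obtain ⟨m, hm⟩ := h0 p hp
  refine Set.Finite.subset (p.rel_finite w hm) (fun x hx => (g2 p hp x).1 hx)

end StrAlg
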