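import Pool.Agent.Lib.MP_b9fd58_lc.S2Def
import Pool.Agent.Lib.MP_b9fd58_lc.GSnd2

/-!
# Stage 2: interface definitions (exact ranks)
-/

set_option autoImplicit false

namespace StrAlg

open Module Polynomial

variable {D : Dat} {k : Type} [Field k] {S : Sides D}

/-! ### Graph maps and the rank on a string -/

/-- The values on `a` of the graph maps from the source of the pair into `w`. -/
def NF.GIn (p : NF S k) (w : Str S) (s : ℤ → k) : Prop :=
  ∃ (i : Fin p.m) (o : Bool) (c q : ℤ) (φ : Dual k (Fin (p.X i).n → k)), Ord (p.X i).x w o c q ∧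
    s = push (p.X i).x.L w.L o c q (fun c' => φ ((p.X i).fn (p.a i) c'))

/-- The functionals `b ∘ ρ` for the graph maps `ρ` from `w` to the target of the pair. -/
def NF.GOut (p : NF S k) (w : Str S) (t : ℤ → k) : Prop :=
  ∃ (j : Fin p.m') (o : Bool) (q r : ℤ) (y : Fin (p.Y j).n → k), Ord w (p.Y j).x o q r ∧
    t = pull w.L (p.Y j).x.L o q r (fun r' => (p.Y j).cf (p.b j) r' y)

/-- the rank of the pair on the string `w` is at least `n` -/
def NF.RkW (p : NF S k) (w : Str S) (n : ℕ) : Prop :=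
  ∃ s t : Fin n → ℤ → k, (∀ j, p.GIn w (s j)) ∧ (∀ i, p.GOut w (t i)) ∧
    (Matrix.of fun i j => ∑ᶠ q, t i q * s j q).det ≠ 0

/-! ### Modules `R[1/π]/R` -/

/-- `(V, T)` is isomorphic to `R[1/π]/R` for `R = k[T, 1/T]` -/
structure IsPR (π : k[X]) {V : Type} [AddCommGroup V] [Module k V] (T : V →ₗ[k] V) : Prop where
  tors : ∀ v, ∃ n : ℕ, aeval T (π ^ n) v = 0
  div : ∀ v, ∃ u, aeval T π u = v
  soc : finrank k (LinearMap.ker (aeval T π)) = π.natDegree

/-- the list of the components of the certificates -/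
inductive CompOK (Can : Set (Str S)) : Md D k → Prop
  | F (N : Md D k) (h : FiniteDimensional k N.C) : CompOK Can N
  | S (w : Str S) (h1 : w.Aper) (h2 : ∀ s, (w.L.wd 0 s).UP) : CompOK Can (w.Mloc k)
  | P (b : Str S) (hb : b ∈ Can) (l : ℕ) (hl : b.MinPer l) (π : k[X]) (hπ : Irreducible π) (V : Type)
      (i1 : AddCommGroup V) (i2 : Module k V) (T : V ≃ₗ[k] V) (h : b.PerOK l T) (hT : IsPR π T.toLinearMap) :
      CompOK Can (b.ME l T h)
  | A (b : Str S) (hb : b ∈ Can) (l : ℕ) (hl : b.MinPer l) (π : k[X]) (hπ : Irreducible π) (V : Type)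
      (i1 : AddCommGroup V) (i2 : Module k V) (T : V ≃ₗ[k] V) (hT : IsPR π T.toLinearMap)
      (h : b.PerOK l T.dualMap) : CompOK Can (b.ME l T.dualMap h)

/-- the blocks of the band `c` in the source: the joint vectors `OmV` -/
noncomputable def NF.OmVs (p : NF S k) (c : Str S) (j : Fin p.m') (o : Bool) (q r : ℤ) (y : Fin (p.Y j).n → k) :
    (i : Fin p.m) → (Fin (p.X i).n → k) :=
  open Classical in
  fun i => if (p.X i).x = c then OmV (p.X i) (p.Y j) (p.a i) (p.b j) o q r y else 0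

/-- the action of the polynomial `g` on `⊕ V_i` -/
noncomputable def NF.actX (p : NF S k) (g : k[X]) :
    ((i : Fin p.m) → (Fin (p.X i).n → k)) →ₗ[k] ((i : Fin p.m) → (Fin (p.X i).n → k)) :=
  LinearMap.pi fun i => aeval (p.X i).T.toLinearMap g ∘ₗ LinearMap.proj i

/-- the span over the polynomials of the vectors `OmV` of the band `c` -/
noncomputable def NF.USpan (p : NF S k) (c : Str S) : Submodule k ((i : Fin p.m) → (Fin (p.X i).n → k)) :=
  Submodule.span k {u | ∃ (g : k[X]) (j : Fin p.m') (o : Bool) (q r : ℤ) (y : Fin (p.Y j).n → k),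
    Ord c (p.Y j).x o q r ∧ u = p.actX g (p.OmVs c j o q r y)}

/-- the `π`-primary part -/
noncomputable def NF.UPrim (p : NF S k) (c : Str S) (π : k[X]) : Submodule k ((i : Fin p.m) → (Fin (p.X i).n → k)) :=
  p.USpan c ⊓ ⨆ n : ℕ, LinearMap.ker (p.actX (π ^ n))

/-- the joint functionals `OmL` -/
noncomputable def NF.OmLs (p : NF S k) (c : Str S) (i : Fin p.m) (o : Bool) (q r : ℤ)
    (φ : Dual k (Fin (p.X i).n → k)) : (j : Fin p.m') → (Fin (p.Y j).n → k) → k :=
  open Classical in
  fun j y => if (p.Y j).x = c then OmL (p.X i) (p.Y j) (p.a i) (p.b j) o q r φ y else 0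

/-- the action of the polynomial `g` on functions on the `V_j` -/
noncomputable def NF.actY (p : NF S k) (g : k[X]) :
    ((j : Fin p.m') → (Fin (p.Y j).n → k) → k) →ₗ[k] ((j : Fin p.m') → (Fin (p.Y j).n → k) → k) where
  toFun f := fun j y => f j (aeval (p.Y j).T.toLinearMap g y)
  map_add' _ _ := rfl
  map_smul' _ _ := rfl

/-- the span over the polynomials of the functionals `OmL` of the band `c` -/
noncomputable def NF.LSpan (p : NF S k) (c : Str S) : Submodule k ((j : Fin p.m') → (Fin (p.Y j).n → k) → k) :=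
  Submodule.span k {u | ∃ (g : k[X]) (i : Fin p.m) (o : Bool) (q r : ℤ) (φ : Dual k (Fin (p.X i).n → k)),
    Ord (p.X i).x c o q r ∧ u = p.actY g (p.OmLs c i o q r φ)}

/-- the `π`-primary part -/
noncomputable def NF.LPrim (p : NF S k) (c : Str S) (π : k[X]) : Submodule k ((j : Fin p.m') → (Fin (p.Y j).n → k) → k) :=
  p.LSpan c ⊓ ⨆ n : ℕ, LinearMap.ker (p.actY (π ^ n))

end StrAlg
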