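import Pool.Agent.Lib.MP_b9fd58_lc.Defs

/-!
# Definitions for the interface of the logic stream (stream L)

`decidable_of_real`: if (a) every pp-pair has, up to equality of ranks on ALL modules, a representative in a set `Good`,
and (b) there is an r.e. predicate `P` on finite lists of rank conditions which is sound (implies that some module realises
the conditions) and complete for lists of good pairs, then the theory of modules is decidable.

For an infinite field only the conditions `rank = 0` and `rank ≥ 1` are needed; for a finite field all conditions
`rank = n` and `rank ≥ n` are needed.
-/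

namespace StrAlg

/-- A rank condition: a pp-pair, a number `n`, and `true` for `rank = n`, `false` for `rank ≥ n`. -/
abbrev Cond (D : Dat) (k : Type) : Type := (PP D k × PP D k) × ℕ × Bool

/-- the condition holds in the module -/
def Cond.Holds {D : Dat} {k : Type} [Field k] {N : Type} [AddCommGroup N] [Module k N]
    (t : Cond D k) (Q : QMod D k N) : Prop :=
  if t.2.2 then Q.rank t.1.1 t.1.2 = (t.2.1 : ℕ∞) else (t.2.1 : ℕ∞) ≤ Q.rank t.1.1 t.1.2

/-- some module satisfies all the conditions of the list -/
def Realizable (D : Dat) (k : Type) [Field k] (L : List (Cond D k)) : Prop :=
  ∃ (N : Type) (_ : AddCommGroup N) (_ : Module k N) (Q : QMod D k N), ∀ t ∈ L, t.Holds Q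

end StrAlg
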