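import Pool.Agent.Lib.MP_b9fd58_lc.IfDefs
import Pool.Agent.Lib.MP_b9fd58_lc.IfLDefs

/-!
# Interface of the computability stream K (definitions)
-/

set_option autoImplicit false

namespace StrAlg

open Module Polynomial

/-- Computable codes of pairs in normal form. -/
structure KData (D : Dat) (S : Sides D) (k : Type) [Field k] [Primcodable k] where
  NC : Type
  [pc : Primcodable NC]
  Val : NC → Prop
  dec : NC → NF S k
  pr : NC → PP D k × PP D k
  pr_comp : Computable pr
  pr_spec : ∀ c, Val c → ∀ N : Md D k, N.Q.pp (pr c).1 = (dec c).pr.up N ∧ N.Q.pp (pr c).2 = (dec c).pr.dn N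
  re : REPred (fun t : NC × List NC => Val t.1 ∧ (∀ c ∈ t.2, Val c) ∧
    (CertF (dec t.1) (t.2.map dec) ∨ CertS (dec t.1) (t.2.map dec) ∨ CertP (dec t.1) (t.2.map dec) ∨
      CertA (dec t.1) (t.2.map dec)))
  can : ∃ Can : Set (Str S), CanOK Can ∧
    ∀ nf : NF S k, nf.InCan Can → ∃ c, Val c ∧ (dec c).InCan Can ∧ nf.pr.Eqv (dec c).pr

attribute [instance] KData.pc

end StrAlg
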