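import Pool.Agent.Lib.MP_b9fd58_lc.LBridgeA
set_option autoImplicit false

/-!
# Modules over the algebra and `QMod`s: from modules to `QMod`s, and the bridge
-/

namespace StrAlg

variable {D : Dat} {k : Type} [Field k]

section ofMod
variable {M : Type} [AddCommGroup M] [Module (Alg D k)ᵐᵒᵖ M]

/-- the vector space underlying a module -/
noncomputable def baseMod (D : Dat) (k : Type) [Field k] (M : Type) [AddCommGroup M]
    [Module (Alg D k)ᵐᵒᵖ M] : Module k M :=
  Module.compHom M (algebraMap k (Alg D k)ᵐᵒᵖ)

/-- the generator in the algebra -/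
noncomputable def genA (D : Dat) (k : Type) [Field k] (g : D.Gen) : Alg D k :=
  RingQuot.mkAlgHom k (D.Rel k) (FreeAlgebra.ι k g)

theorem LBridge_smul (c : k) (m : M) :
    (letI := baseMod D k M; c • m) = MulOpposite.op (algebraMap k (Alg D k) c) • m := rfl

theorem LBridge_comm (c : k) (x : Alg D k) (m : M) :
    MulOpposite.op x • (letI := baseMod D k M; c • m) = (letI := baseMod D k M; c • (MulOpposite.op x • m)) := by
  rw [LBridge_smul, LBridge_smul, smul_smul, smul_smul, ← MulOpposite.op_mul, ← MulOpposite.op_mul,
    Algebra.commutes]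

theorem LBridge_rel {x y : FreeAlgebra k D.Gen} (h : D.Rel k x y) :
    RingQuot.mkAlgHom k (D.Rel k) x = RingQuot.mkAlgHom k (D.Rel k) y :=
  RingQuot.mkAlgHom_rel k h

theorem LBridge_word (w : List D.Gen) : ∀ m : M,
    w.foldl (fun m g => MulOpposite.op (genA D k g) • m) m =
      MulOpposite.op ((w.map (genA D k)).prod) • m := by
  induction w with
  | nil => intro m; simp
  | cons g w ih =>
    intro m
    rw [List.foldl_cons, ih, List.map_cons, List.prod_cons, MulOpposite.op_mul, mul_smul]

/-- the `QMod` given by a module -/
noncomputable def ofModule (D : Dat) (k : Type) [Field k] (M : Type) [AddCommGroup M]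
    [Module (Alg D k)ᵐᵒᵖ M] : letI := baseMod D k M; QMod D k M :=
  letI := baseMod D k M
  { op := fun g =>
      { toFun := fun m => MulOpposite.op (genA D k g) • m
        map_add' := fun x y => smul_add _ x y
        map_smul' := fun c x => LBridge_comm c (genA D k g) x }
    idem := by
      intro i n
      show MulOpposite.op (genA D k (Sum.inl i)) • (MulOpposite.op (genA D k (Sum.inl i)) • n) =
        MulOpposite.op (genA D k (Sum.inl i)) • n
      rw [smul_smul, ← MulOpposite.op_mul]
      congr 2
      have h := LBridge_rel (Dat.Rel.idem (D := D) (k := k) i)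
      rw [map_mul] at h
      exact h
    orth := by
      intro i j n hij
      show MulOpposite.op (genA D k (Sum.inl j)) • (MulOpposite.op (genA D k (Sum.inl i)) • n) = 0
      rw [smul_smul, ← MulOpposite.op_mul]
      have h := LBridge_rel (Dat.Rel.orth (D := D) (k := k) i j hij)
      rw [map_mul, map_zero] at h
      have h' : genA D k (Sum.inl i) * genA D k (Sum.inl j) = 0 := h
      rw [h', MulOpposite.op_zero, zero_smul]
    one := by
      intro n
      show ∑ i, MulOpposite.op (genA D k (Sum.inl i)) • n = n
      rw [← Finset.sum_smul]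
      have h := LBridge_rel (Dat.Rel.one (D := D) (k := k))
      rw [map_sum, map_one] at h
      have h' : ∑ i, genA D k (Sum.inl i) = 1 := h
      have h2 : ∑ i, MulOpposite.op (genA D k (Sum.inl i)) = MulOpposite.op (∑ i, genA D k (Sum.inl i)) := by
        rw [Finset.op_sum]
      rw [h2, h', MulOpposite.op_one, one_smul]
    src := by
      intro a n
      show MulOpposite.op (genA D k (Sum.inr a)) • (MulOpposite.op (genA D k (Sum.inl (D.src a))) • n) =
        MulOpposite.op (genA D k (Sum.inr a)) • n
      rw [smul_smul, ← MulOpposite.op_mul]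
      congr 2
      have h := LBridge_rel (Dat.Rel.src (D := D) (k := k) a)
      rw [map_mul] at h
      exact h
    tgt := by
      intro a n
      show MulOpposite.op (genA D k (Sum.inl (D.tgt a))) • (MulOpposite.op (genA D k (Sum.inr a)) • n) =
        MulOpposite.op (genA D k (Sum.inr a)) • n
      rw [smul_smul, ← MulOpposite.op_mul]
      congr 2
      have h := LBridge_rel (Dat.Rel.tgt (D := D) (k := k) a)
      rw [map_mul] at h
      exact h
    rel := by
      intro r hr n
      show r.foldl (fun m a => MulOpposite.op (genA D k (Sum.inr a)) • m) n = 0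
      have h1 := LBridge_word (k := k) (r.map (Sum.inr : Fin D.nE → D.Gen)) n
      rw [List.foldl_map] at h1
      rw [h1]
      have h := LBridge_rel (Dat.Rel.rel (D := D) (k := k) r hr)
      rw [map_list_prod, map_zero, List.map_map] at h
      have h' : ((r.map (Sum.inr : Fin D.nE → D.Gen)).map (genA D k)).prod = 0 := by
        rw [List.map_map]
        exact h
      rw [h', MulOpposite.op_zero, zero_smul] }

theorem LBridge_act (c : ElCode D k) (m : M) :
    (letI := baseMod D k M; (ofModule D k M).act c m) = MulOpposite.op (ElCode.eval D k c) • m := by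
  letI := baseMod D k M
  show (c.map (fun t => t.1 • (ofModule D k M).word t.2 m)).sum = _
  unfold ElCode.eval ElCode.freeEval
  induction c with
  | nil => simp
  | cons t c ih =>
    rw [List.map_cons, List.sum_cons, ih, List.map_cons, List.sum_cons, map_add, MulOpposite.op_add, add_smul]
    congr 1
    have h1 : (ofModule D k M).word t.2 m = MulOpposite.op ((t.2.map (genA D k)).prod) • m :=
      LBridge_word (k := k) t.2 m
    have h2 : RingQuot.mkAlgHom k (D.Rel k) (t.1 • (t.2.map (FreeAlgebra.ι k)).prod) =
        t.1 • (t.2.map (genA D k)).prod := by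
      rw [map_smul, map_list_prod, List.map_map]
      rfl
    rw [h1, h2, Algebra.smul_def, MulOpposite.op_mul, mul_smul]
    exact (LBridge_comm t.1 _ m).symm

theorem ofModule_val (v : ℕ → M) (t : Tm D k) :
    (letI := baseMod D k M; t.valQ (ofModule D k M) v) = t.val M v := by
  letI := baseMod D k M
  induction t with
  | var n => rfl
  | zero => rfl
  | add s t ihs iht =>
    show s.valQ (ofModule D k M) v + t.valQ (ofModule D k M) v = s.val M v + t.val M v
    rw [ihs, iht]
  | act c t ih =>
    show (ofModule D k M).act c (t.valQ (ofModule D k M) v) = MulOpposite.op (ElCode.eval D k c) • t.val M v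
    rw [ih]
    exact LBridge_act c _

theorem ofModule_sat (φ : Fm D k) : ∀ v : ℕ → M,
    (letI := baseMod D k M; φ.SatQ (ofModule D k M) v) ↔ φ.Sat M v := by
  letI := baseMod D k M
  induction φ with
  | eq s t =>
    intro v
    show s.valQ (ofModule D k M) v = t.valQ (ofModule D k M) v ↔ s.val M v = t.val M v
    rw [show s.valQ (ofModule D k M) v = s.val M v from ofModule_val v s,
      show t.valQ (ofModule D k M) v = t.val M v from ofModule_val v t]
  | fls => intro v; exact Iff.rfl
  | imp φ ψ ihφ ihψ =>
    intro v
    show (φ.SatQ (ofModule D k M) v → ψ.SatQ (ofModule D k M) v) ↔ (φ.Sat M v → ψ.Sat M v)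
    rw [ihφ v, ihψ v]
  | all φ ih =>
    intro v
    exact forall_congr' fun x => ih (consV x v)

end ofMod

/-- **Bridge**: validity in modules is validity in `QMod`s. The hypothesis `hv` is the fact that the
truth of a sentence does not depend on the valuation. -/
theorem validQ_iff_valid (φ : Fm D k)
    (hv : ∀ (N : Type) [AddCommGroup N] [Module k N] (Q : QMod D k N) (v v' : ℕ → N),
      φ.SatQ Q v → φ.SatQ Q v') :
    ValidQ D k φ ↔
      ∀ (M : Type) [AddCommGroup M] [Module (Alg D k)ᵐᵒᵖ M], φ.Sat M (fun _ => 0) := by
  constructor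
  · intro h M _ _
    letI := baseMod D k M
    exact (ofModule_sat φ (fun _ => (0 : M))).1 (h M (ofModule D k M) (fun _ => 0))
  · intro h N _ _ Q v
    have h1 : (letI := Q.toModule; φ.Sat N (fun _ => 0)) := by
      letI := Q.toModule
      exact h N
    exact hv N Q _ v ((Q.sat_toModule φ (fun _ => 0)).1 h1)

end StrAlg
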