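import Pool.Agent.Lib.MP_b9fd58_lc.LNFB
set_option autoImplicit false

/-!
# Baur-Monk normal forms (existence)
-/

namespace StrAlg

section nf
variable {D : Dat} {k : Type} [Field k]

theorem SamePP.symm {n : ℕ} {Φ : List (PP D k)} {N N' : Type} [AddCommGroup N] [Module k N]
    [AddCommGroup N'] [Module k N'] {Q : QMod D k N} {Q' : QMod D k N'} {x : ℕ → N} {x' : ℕ → N'}
    (h : SamePP n Φ Q Q' x x') : SamePP n Φ Q' Q x' x := fun S hS => (h S hS).symm

theorem SameRk.symm {Λ : List ((PP D k × PP D k) × ℕ)} {N N' : Type} [AddCommGroup N]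
    [Module k N] [AddCommGroup N'] [Module k N'] {Q : QMod D k N} {Q' : QMod D k N'}
    (h : SameRk Λ Q Q') : SameRk Λ Q' Q := fun t ht => (h t ht).symm

/-- **Normal forms.** -/
theorem normal_form (φ : Fm D k) : ∀ n : ℕ, φ.Below n →
    ∃ (Φ : List (PP D k)) (Λ : List ((PP D k × PP D k) × ℕ)), (∀ t ∈ Λ, Finite k ∨ t.2 = 1) ∧
      ∀ (N N' : Type) [AddCommGroup N] [Module k N] [AddCommGroup N'] [Module k N']
        (Q : QMod D k N) (Q' : QMod D k N') (x : ℕ → N) (x' : ℕ → N'),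
        SamePP n Φ Q Q' x x' → SameRk Λ Q Q' → (φ.SatQ Q x ↔ φ.SatQ Q' x') := by
  induction φ with
  | eq s t =>
    intro n hn
    obtain ⟨S, hS⟩ := exists_pp_eq s t
    refine ⟨[S], [], by simp, ?_⟩
    intro N N' _ _ _ _ Q Q' x x' h1 _
    rw [hS n hn.1 hn.2 N Q x, hS n hn.1 hn.2 N' Q' x']
    exact h1 S (by simp)
  | fls =>
    intro n hn
    refine ⟨[], [], by simp, ?_⟩
    intro N N' _ _ _ _ Q Q' x x' _ _
    exact Iff.rfl
  | imp φ ψ ih1 ih2 =>
    intro n hn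
    obtain ⟨Φ1, Λ1, h1, h2⟩ := ih1 n hn.1
    obtain ⟨Φ2, Λ2, h3, h4⟩ := ih2 n hn.2
    refine ⟨Φ1 ++ Φ2, Λ1 ++ Λ2, ?_, ?_⟩
    · intro t ht
      rcases List.mem_append.1 ht with h | h
      · exact h1 t h
      · exact h3 t h
    · intro N N' _ _ _ _ Q Q' x x' h5 h6
      have e1 := h2 N N' Q Q' x x' (fun S hS => h5 S (List.mem_append_left _ hS))
        (fun t ht => h6 t (List.mem_append_left _ ht))
      have e2 := h4 N N' Q Q' x x' (fun S hS => h5 S (List.mem_append_right _ hS))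
        (fun t ht => h6 t (List.mem_append_right _ ht))
      show (φ.SatQ Q x → ψ.SatQ Q x) ↔ (φ.SatQ Q' x' → ψ.SatQ Q' x')
      rw [e1, e2]
  | all φ ih =>
    intro n hn
    obtain ⟨Φ, Λ, h1, h2⟩ := ih (n + 1) hn
    obtain ⟨Ψ, Λ', h3, h4⟩ := pattern_step n Φ
    refine ⟨Ψ, Λ ++ Λ', ?_, ?_⟩
    · intro t ht
      rcases List.mem_append.1 ht with h | h
      · exact h1 t h
      · exact h3 t h
    · have key : ∀ (N N' : Type) [AddCommGroup N] [Module k N] [AddCommGroup N'] [Module k N']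
          (Q : QMod D k N) (Q' : QMod D k N') (x : ℕ → N) (x' : ℕ → N'),
          SamePP n Ψ Q Q' x x' → SameRk (Λ ++ Λ') Q Q' →
            (Fm.all φ).SatQ Q' x' → (Fm.all φ).SatQ Q x := by
        intro N N' _ _ _ _ Q Q' x x' h5 h6 h7 y
        obtain ⟨y', hy'⟩ := h4 N N' Q Q' x x' h5
          (fun t ht => h6 t (List.mem_append_right _ ht)) y
        exact (h2 N N' Q Q' _ _ hy' (fun t ht => h6 t (List.mem_append_left _ ht))).2 (h7 y')
      intro N N' _ _ _ _ Q Q' x x' h5 h6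
      exact ⟨key N' N Q' Q x' x h5.symm h6.symm, key N N' Q Q' x x' h5 h6⟩

end nf

end StrAlg
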