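import Pool.Agent.Lib.MP_b9fd58_lc.LSumA
set_option autoImplicit false

/-!
# The consequence relation and the tableau rules are r.e.
-/

namespace StrAlg

open ReCalc

variable {D : Dat} {k : Type} [Field k] [Primcodable k]

theorem LSum_relInst : Computable fun p : ElCode D k × List D.Gen × List D.Gen × ℕ =>
    relInst p.1 p.2.1 p.2.2.1 p.2.2.2 := by
  unfold relInst
  refine mapC (f := fun p : ElCode D k × List D.Gen × List D.Gen × ℕ => p.1)
    (h := fun p t => (t.1, (p.2.1 ++ t.2 ++ p.2.2.1, p.2.2.2))) Computable.fst ?_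
  have h1 : Computable fun q : (ElCode D k × List D.Gen × List D.Gen × ℕ) × (k × List D.Gen) =>
      q.1.2.1 := Computable.fst.comp (Computable.snd.comp Computable.fst)
  have h2 : Computable fun q : (ElCode D k × List D.Gen × List D.Gen × ℕ) × (k × List D.Gen) =>
      q.1.2.2.1 := Computable.fst.comp (Computable.snd.comp (Computable.snd.comp Computable.fst))
  have h3 : Computable fun q : (ElCode D k × List D.Gen × List D.Gen × ℕ) × (k × List D.Gen) =>
      q.1.2.2.2 := Computable.snd.comp (Computable.snd.comp (Computable.snd.comp Computable.fst))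
  have h4 : Computable fun q : (ElCode D k × List D.Gen × List D.Gen × ℕ) × (k × List D.Gen) =>
      q.2.1 := Computable.fst.comp Computable.snd
  have h5 : Computable fun q : (ElCode D k × List D.Gen × List D.Gen × ℕ) × (k × List D.Gen) =>
      q.2.2 := Computable.snd.comp Computable.snd
  exact Computable.pair h4 (Computable.pair (Computable.list_append.comp
    (Computable.list_append.comp h1 h5) h2) h3)

theorem re_isGen (hmul : Computable₂ (fun a b : k => a * b)) :
    REPred fun p : Node D k × FS D k => IsGen (fun i => i ∈ p.1) p.2 := by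
  have hA : REPred fun p : Node D k × FS D k =>
      ∃ q : Tm D k × Tm D k × List ℕ × List D.Gen,
        ((true, Fm.eq q.1 q.2.1, q.2.2.1) : Item D k) ∈ p.1 ∧
          p.2 = FS.shift q.2.2.2 (eqFS q.2.2.1 q.1 q.2.1) := by
    refine re_ex (q := fun (p : Node D k × FS D k)
      (q : Tm D k × Tm D k × List ℕ × List D.Gen) =>
        ((true, Fm.eq q.1 q.2.1, q.2.2.1) : Item D k) ∈ p.1 ∧
          p.2 = FS.shift q.2.2.2 (eqFS q.2.2.1 q.1 q.2.1)) ?_
    have h1 : Computable fun t : (Node D k × FS D k) × Tm D k × Tm D k × List ℕ × List D.Gen =>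
        t.2.1 := Computable.fst.comp Computable.snd
    have h2 : Computable fun t : (Node D k × FS D k) × Tm D k × Tm D k × List ℕ × List D.Gen =>
        t.2.2.1 := Computable.fst.comp (Computable.snd.comp Computable.snd)
    have h3 : Computable fun t : (Node D k × FS D k) × Tm D k × Tm D k × List ℕ × List D.Gen =>
        t.2.2.2.1 := Computable.fst.comp (Computable.snd.comp (Computable.snd.comp Computable.snd))
    have h4 : Computable fun t : (Node D k × FS D k) × Tm D k × Tm D k × List ℕ × List D.Gen =>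
        t.2.2.2.2 := Computable.snd.comp (Computable.snd.comp (Computable.snd.comp Computable.snd))
    refine re_and (re_mem ?_ (Computable.fst.comp Computable.fst))
      (re_eq (Computable.snd.comp Computable.fst) ?_)
    · exact Computable.pair (Computable.const true)
        (Computable.pair (primrec_eqF.to_comp.comp h1 h2) h3)
    · exact (computable_shift (D := D) (k := k)).comp (Computable.pair h4
        ((computable_eqFS (D := D) hmul).comp (Computable.pair h3 (Computable.pair h1 h2))))
  have hB : REPred fun p : Node D k × FS D k => ∃ r ∈ relL D k,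
      ∃ q : List D.Gen × List D.Gen × ℕ, p.2 = relInst r q.1 q.2.1 q.2.2 := by
    refine re_exists_mem (f := fun _ : Node D k × FS D k => relL D k)
      (q := fun p r => ∃ q : List D.Gen × List D.Gen × ℕ, p.2 = relInst r q.1 q.2.1 q.2.2)
      (Computable.const _) ?_
    refine re_ex (q := fun (p : (Node D k × FS D k) × ElCode D k)
      (q : List D.Gen × List D.Gen × ℕ) => p.1.2 = relInst p.2 q.1 q.2.1 q.2.2) ?_
    refine re_eq (Computable.snd.comp (Computable.fst.comp Computable.fst)) ?_
    have h1 : Computable fun t : ((Node D k × FS D k) × ElCode D k) ×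
        List D.Gen × List D.Gen × ℕ => (t.1.2, t.2) :=
      Computable.pair (Computable.snd.comp Computable.fst) Computable.snd
    exact Computable.comp (f := fun p : ElCode D k × List D.Gen × List D.Gen × ℕ =>
        relInst p.1 p.2.1 p.2.2.1 p.2.2.2)
      (g := fun t : ((Node D k × FS D k) × ElCode D k) ×
        List D.Gen × List D.Gen × ℕ => (t.1.2, t.2)) LSum_relInst h1
  refine (re_or hA hB).of_eq ?_
  rintro ⟨Γ, g⟩
  unfold IsGen
  constructor
  · rintro (⟨⟨s, t, ρ, w⟩, h1, h2⟩ | ⟨r, hr, ⟨w, w', p⟩, h⟩)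
    · exact Or.inl ⟨s, t, ρ, w, h1, h2⟩
    · exact Or.inr ⟨r, hr, w, w', p, h⟩
  · rintro (⟨s, t, ρ, w, h1, h2⟩ | ⟨r, hr, w, w', p, h⟩)
    · exact Or.inl ⟨⟨s, t, ρ, w⟩, h1, h2⟩
    · exact Or.inr ⟨r, hr, ⟨w, w', p⟩, h⟩

omit [Primcodable k] in
theorem LSum_val_append (L L' : FS D k) : FS.val (L ++ L') = FS.val L + FS.val L' := by
  unfold FS.val
  rw [List.map_append, List.sum_append]

omit [Primcodable k] in
theorem LSum_val_scale (a : k) (L : FS D k) : FS.val (FS.scale a L) = a • FS.val L := by
  unfold FS.val FS.scale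
  induction L with
  | nil => simp
  | cons t L ih =>
    simp only [List.map_cons, List.sum_cons] at ih ⊢
    rw [ih, smul_add, Finsupp.smul_single, smul_eq_mul]

omit [Primcodable k] in
theorem LSum_val_flatMap (C : List (k × FS D k)) :
    FS.val (C.flatMap fun c => FS.scale c.1 c.2) = (C.map fun c => c.1 • FS.val c.2).sum := by
  induction C with
  | nil => simp [FS.val]
  | cons c C ih =>
    rw [List.flatMap_cons, LSum_val_append, ih, LSum_val_scale, List.map_cons, List.sum_cons]

omit [Primcodable k] in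
theorem LSum_span (H : Item D k → Prop) (x : PX D →₀ k) (hx : x ∈ consSpace H) :
    ∃ C : List (k × FS D k), (∀ c ∈ C, IsGen H c.2) ∧
      x = (C.map fun c => c.1 • FS.val c.2).sum := by
  unfold consSpace at hx
  induction hx using Submodule.span_induction with
  | mem x h =>
    obtain ⟨g, hg, rfl⟩ := h
    refine ⟨[(1, g)], ?_, ?_⟩
    · intro c hc
      rw [List.mem_singleton.1 hc]
      exact hg
    · simp
  | zero => exact ⟨[], by simp, by simp⟩
  | add x y _ _ ihx ihy =>
    obtain ⟨C, h1, h2⟩ := ihx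
    obtain ⟨C', h1', h2'⟩ := ihy
    refine ⟨C ++ C', ?_, ?_⟩
    · intro c hc
      rcases List.mem_append.1 hc with h | h
      · exact h1 c h
      · exact h1' c h
    · rw [List.map_append, List.sum_append, ← h2, ← h2']
  | smul a x _ ih =>
    obtain ⟨C, h1, h2⟩ := ih
    refine ⟨C.map fun c => (a * c.1, c.2), ?_, ?_⟩
    · intro c hc
      obtain ⟨d, hd, rfl⟩ := List.mem_map.1 hc
      exact h1 d hd
    · rw [h2]
      clear h1 h2
      induction C with
      | nil => simp
      | cons c C ih =>
        simp only [List.map_cons, List.sum_cons] at ih ⊢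
        rw [smul_add, ih, smul_smul]

omit [Primcodable k] in
/-- consequences as formal combinations of generators -/
theorem cons_iff (H : Item D k → Prop) (e : FS D k) :
    Cons H e ↔ ∃ C : List (k × FS D k), (∀ c ∈ C, IsGen H c.2) ∧
      FS.val (FS.scale (-1) e ++ C.flatMap fun c => FS.scale c.1 c.2) = 0 := by
  constructor
  · intro h
    obtain ⟨C, h1, h2⟩ := LSum_span H _ h
    refine ⟨C, h1, ?_⟩
    rw [LSum_val_append, LSum_val_scale, LSum_val_flatMap, ← h2]
    simp
  · rintro ⟨C, h1, h2⟩
    rw [LSum_val_append, LSum_val_scale, LSum_val_flatMap] at h2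
    have h3 : FS.val e = (C.map fun c => c.1 • FS.val c.2).sum := by
      have h4 : (-1 : k) • FS.val e = - FS.val e := by simp
      rw [h4] at h2
      exact (neg_add_eq_zero.1 h2)
    unfold Cons
    rw [h3]
    apply list_sum_mem
    intro x hx
    obtain ⟨c, hc, rfl⟩ := List.mem_map.1 hx
    apply Submodule.smul_mem
    exact Submodule.subset_span ⟨c.2, h1 c hc, rfl⟩

theorem re_cons (hadd : Computable₂ (fun a b : k => a + b))
    (hmul : Computable₂ (fun a b : k => a * b)) :
    REPred fun p : Node D k × FS D k => Cons (fun i => i ∈ p.1) p.2 := by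
  have h : REPred fun p : Node D k × FS D k => ∃ C : List (k × FS D k),
      (∀ c ∈ C, IsGen (fun i => i ∈ p.1) c.2) ∧
      FS.val (FS.scale (-1) p.2 ++ C.flatMap fun c => FS.scale c.1 c.2) = 0 := by
    refine re_ex (q := fun (p : Node D k × FS D k) (C : List (k × FS D k)) =>
      (∀ c ∈ C, IsGen (fun i => i ∈ p.1) c.2) ∧
      FS.val (FS.scale (-1) p.2 ++ C.flatMap fun c => FS.scale c.1 c.2) = 0) ?_
    refine re_and ?_ ?_
    · refine re_forall_mem (f := fun t : (Node D k × FS D k) × List (k × FS D k) => t.2)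
        (q := fun t c => IsGen (fun i => i ∈ t.1.1) c.2) Computable.snd ?_
      exact re_comp (p := fun p : Node D k × FS D k => IsGen (fun i => i ∈ p.1) p.2)
        (re_isGen hmul)
        (f := fun t : ((Node D k × FS D k) × List (k × FS D k)) × (k × FS D k) =>
          (t.1.1.1, t.2.2))
        (Computable.pair (Computable.fst.comp (Computable.fst.comp Computable.fst))
          (Computable.snd.comp Computable.snd))
    · refine re_comp (p := fun L : FS D k => FS.val L = 0) (re_val_zero hadd)
        (f := fun t : (Node D k × FS D k) × List (k × FS D k) =>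
          FS.scale (-1) t.1.2 ++ t.2.flatMap fun c => FS.scale c.1 c.2) ?_
      refine Computable.list_append.comp ?_ ?_
      · exact (computable_scale (D := D) hmul).comp
          (Computable.pair (Computable.const (-1)) (Computable.snd.comp Computable.fst))
      · refine flatMapC (f := fun t : (Node D k × FS D k) × List (k × FS D k) => t.2)
          (h := fun _ c => FS.scale c.1 c.2) Computable.snd ?_
        exact (computable_scale (D := D) hmul).comp Computable.snd
  refine h.of_eq ?_
  rintro ⟨Γ, e⟩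
  exact (cons_iff _ _).symm

theorem LSum_re_notMem {α : Type*} [Primcodable α] {f : α → ℕ} {g : α → List ℕ}
    (hf : Computable f) (hg : Computable g) : REPred fun a => f a ∉ g a := by
  have h : REPred fun a => ∀ b ∈ g a, f a ≠ b :=
    re_forall_mem hg (re_ne (hf.comp Computable.fst) Computable.snd)
  refine h.of_eq ?_
  intro a
  constructor
  · intro h1 h2
    exact h1 _ h2 rfl
  · rintro h1 b hb rfl
    exact h1 hb

theorem re_fresh : REPred fun p : ℕ × Node D k => Fresh p.1 p.2 := by
  unfold Fresh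
  refine re_and (re_ne Computable.fst (Computable.const 0)) ?_
  refine re_forall_mem (f := fun p : ℕ × Node D k => p.2)
    (q := fun p i => p.1 ∉ i.2.2) Computable.snd ?_
  exact LSum_re_notMem (Computable.fst.comp Computable.fst)
    (Computable.snd.comp (Computable.snd.comp Computable.snd))

omit [Primcodable k] in
/-- the rules as a disjunction -/
theorem tabRule_iff (ps : List (Node D k)) (Γ : Node D k) : TabRule ps Γ ↔
    (ps = [] ∧ ∃ ρ, (true, Fm.fls, ρ) ∈ Γ) ∨
    (ps = [] ∧ ∃ q : List ℕ × Tm D k × Tm D k, (false, Fm.eq q.2.1 q.2.2, q.1) ∈ Γ ∧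
      Cons (fun i => i ∈ Γ) (eqFS q.1 q.2.1 q.2.2)) ∨
    (∃ q : List ℕ × Fm D k × Fm D k, (true, Fm.imp q.2.1 q.2.2, q.1) ∈ Γ ∧
      ps = [(false, q.2.1, q.1) :: Γ, (true, q.2.2, q.1) :: Γ]) ∨
    (∃ q : List ℕ × Fm D k × Fm D k, (false, Fm.imp q.2.1 q.2.2, q.1) ∈ Γ ∧
      ps = [(true, q.2.1, q.1) :: (false, q.2.2, q.1) :: Γ]) ∨
    (∃ q : List ℕ × Fm D k × ℕ, (true, Fm.all q.2.1, q.1) ∈ Γ ∧
      ps = [(true, q.2.1, q.2.2 :: q.1) :: Γ]) ∨
    (∃ q : List ℕ × Fm D k × ℕ, (false, Fm.all q.2.1, q.1) ∈ Γ ∧ Fresh q.2.2 Γ ∧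
      ps = [(false, q.2.1, q.2.2 :: q.1) :: Γ]) ∨
    (∃ q : List ℕ × Tm D k × ℕ, q.2.1.Below q.1.length ∧ Fresh q.2.2 Γ ∧ q.2.2 ∉ q.1 ∧
      ps = [(true, Fm.eq (Tm.var q.1.length) q.2.1, q.1 ++ [q.2.2]) :: Γ]) := by
  constructor
  · intro h
    cases h with
    | fls _ ρ h => exact Or.inl ⟨rfl, ρ, h⟩
    | eq _ ρ s t h hc => exact Or.inr (Or.inl ⟨rfl, (ρ, s, t), h, hc⟩)
    | impT _ ρ φ ψ h => exact Or.inr (Or.inr (Or.inl ⟨(ρ, φ, ψ), h, rfl⟩))
    | impF _ ρ φ ψ h => exact Or.inr (Or.inr (Or.inr (Or.inl ⟨(ρ, φ, ψ), h, rfl⟩)))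
    | allT _ ρ φ p h =>
      exact Or.inr (Or.inr (Or.inr (Or.inr (Or.inl ⟨(ρ, φ, p), h, rfl⟩))))
    | allF _ ρ φ p h hp =>
      exact Or.inr (Or.inr (Or.inr (Or.inr (Or.inr (Or.inl ⟨(ρ, φ, p), h, hp, rfl⟩)))))
    | name _ ρ t p ht hp hp' =>
      exact Or.inr (Or.inr (Or.inr (Or.inr (Or.inr (Or.inr ⟨(ρ, t, p), ht, hp, hp', rfl⟩)))))
  · rintro (⟨rfl, ρ, h⟩ | ⟨rfl, ⟨ρ, s, t⟩, h, hc⟩ | ⟨⟨ρ, φ, ψ⟩, h, rfl⟩ | ⟨⟨ρ, φ, ψ⟩, h, rfl⟩ |
      ⟨⟨ρ, φ, p⟩, h, rfl⟩ | ⟨⟨ρ, φ, p⟩, h, hp, rfl⟩ | ⟨⟨ρ, t, p⟩, ht, hp, hp', rfl⟩)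
    · exact TabRule.fls Γ ρ h
    · exact TabRule.eq Γ ρ s t h hc
    · exact TabRule.impT Γ ρ φ ψ h
    · exact TabRule.impF Γ ρ φ ψ h
    · exact TabRule.allT Γ ρ φ p h
    · exact TabRule.allF Γ ρ φ p h hp
    · exact TabRule.name Γ ρ t p ht hp hp'

section proj
variable {A B C E : Type*} [Primcodable A] [Primcodable B] [Primcodable C] [Primcodable E]

theorem LSum_p1 : Computable fun t : (A × B) × C × E => t.1.1 :=
  Computable.fst.comp Computable.fst

theorem LSum_p2 : Computable fun t : (A × B) × C × E => t.1.2 :=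
  Computable.snd.comp Computable.fst

theorem LSum_q1 : Computable fun t : (A × B) × C × E => t.2.1 :=
  Computable.fst.comp Computable.snd

theorem LSum_q2 {F : Type*} [Primcodable F] : Computable fun t : (A × B) × C × E × F => t.2.2.1 :=
  Computable.fst.comp (Computable.snd.comp Computable.snd)

theorem LSum_q3 {F : Type*} [Primcodable F] : Computable fun t : (A × B) × C × E × F => t.2.2.2 :=
  Computable.snd.comp (Computable.snd.comp Computable.snd)

end proj

theorem LSum_single {α σ : Type*} [Primcodable α] [Primcodable σ] {f : α → σ}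
    (hf : Computable f) : Computable fun a => [f a] :=
  Computable.list_cons.comp hf (Computable.const [])

theorem re_tabRule (hadd : Computable₂ (fun a b : k => a + b))
    (hmul : Computable₂ (fun a b : k => a * b)) :
    REPred fun p : List (Node D k) × Node D k => TabRule p.1 p.2 := by
  have h1 : REPred fun p : List (Node D k) × Node D k =>
      p.1 = [] ∧ ∃ ρ, ((true, Fm.fls, ρ) : Item D k) ∈ p.2 := by
    refine re_and (re_eq Computable.fst (Computable.const [])) ?_
    refine re_ex (q := fun (p : List (Node D k) × Node D k) (ρ : List ℕ) =>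
      ((true, Fm.fls, ρ) : Item D k) ∈ p.2) ?_
    exact re_mem (Computable.pair (Computable.const true)
      (Computable.pair (Computable.const Fm.fls) Computable.snd))
      (Computable.snd.comp Computable.fst)
  have h2 : REPred fun p : List (Node D k) × Node D k =>
      p.1 = [] ∧ ∃ q : List ℕ × Tm D k × Tm D k,
        ((false, Fm.eq q.2.1 q.2.2, q.1) : Item D k) ∈ p.2 ∧
        Cons (fun i => i ∈ p.2) (eqFS q.1 q.2.1 q.2.2) := by
    refine re_and (re_eq Computable.fst (Computable.const [])) ?_
    refine re_ex (q := fun (p : List (Node D k) × Node D k) (q : List ℕ × Tm D k × Tm D k) =>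
      ((false, Fm.eq q.2.1 q.2.2, q.1) : Item D k) ∈ p.2 ∧
        Cons (fun i => i ∈ p.2) (eqFS q.1 q.2.1 q.2.2)) ?_
    refine re_and (re_mem ?_ LSum_p2) ?_
    · exact Computable.pair (Computable.const false)
        (Computable.pair (primrec_eqF.to_comp.comp LSum_q2 LSum_q3) LSum_q1)
    · exact re_comp (p := fun p : Node D k × FS D k => Cons (fun i => i ∈ p.1) p.2)
        (re_cons hadd hmul)
        (f := fun t : (List (Node D k) × Node D k) × List ℕ × Tm D k × Tm D k =>
          (t.1.2, eqFS t.2.1 t.2.2.1 t.2.2.2))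
        (Computable.pair LSum_p2 ((computable_eqFS (D := D) hmul).comp Computable.snd))
  have h3 : REPred fun p : List (Node D k) × Node D k =>
      ∃ q : List ℕ × Fm D k × Fm D k, ((true, Fm.imp q.2.1 q.2.2, q.1) : Item D k) ∈ p.2 ∧
      p.1 = [(false, q.2.1, q.1) :: p.2, (true, q.2.2, q.1) :: p.2] := by
    refine re_ex (q := fun (p : List (Node D k) × Node D k) (q : List ℕ × Fm D k × Fm D k) =>
      ((true, Fm.imp q.2.1 q.2.2, q.1) : Item D k) ∈ p.2 ∧
      p.1 = [(false, q.2.1, q.1) :: p.2, (true, q.2.2, q.1) :: p.2]) ?_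
    refine re_and (re_mem ?_ LSum_p2) (re_eq LSum_p1 ?_)
    · exact Computable.pair (Computable.const true)
        (Computable.pair (primrec_imp.to_comp.comp LSum_q2 LSum_q3) LSum_q1)
    · exact Computable.list_cons.comp
        (Computable.list_cons.comp
          (Computable.pair (Computable.const false) (Computable.pair LSum_q2 LSum_q1)) LSum_p2)
        (LSum_single (Computable.list_cons.comp
          (Computable.pair (Computable.const true) (Computable.pair LSum_q3 LSum_q1)) LSum_p2))
  have h4 : REPred fun p : List (Node D k) × Node D k =>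
      ∃ q : List ℕ × Fm D k × Fm D k, ((false, Fm.imp q.2.1 q.2.2, q.1) : Item D k) ∈ p.2 ∧
      p.1 = [(true, q.2.1, q.1) :: (false, q.2.2, q.1) :: p.2] := by
    refine re_ex (q := fun (p : List (Node D k) × Node D k) (q : List ℕ × Fm D k × Fm D k) =>
      ((false, Fm.imp q.2.1 q.2.2, q.1) : Item D k) ∈ p.2 ∧
      p.1 = [(true, q.2.1, q.1) :: (false, q.2.2, q.1) :: p.2]) ?_
    refine re_and (re_mem ?_ LSum_p2) (re_eq LSum_p1 ?_)
    · exact Computable.pair (Computable.const false)
        (Computable.pair (primrec_imp.to_comp.comp LSum_q2 LSum_q3) LSum_q1)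
    · exact LSum_single (Computable.list_cons.comp
        (Computable.pair (Computable.const true) (Computable.pair LSum_q2 LSum_q1))
        (Computable.list_cons.comp
          (Computable.pair (Computable.const false) (Computable.pair LSum_q3 LSum_q1)) LSum_p2))
  have h5 : REPred fun p : List (Node D k) × Node D k =>
      ∃ q : List ℕ × Fm D k × ℕ, ((true, Fm.all q.2.1, q.1) : Item D k) ∈ p.2 ∧
      p.1 = [(true, q.2.1, q.2.2 :: q.1) :: p.2] := by
    refine re_ex (q := fun (p : List (Node D k) × Node D k) (q : List ℕ × Fm D k × ℕ) =>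
      ((true, Fm.all q.2.1, q.1) : Item D k) ∈ p.2 ∧
      p.1 = [(true, q.2.1, q.2.2 :: q.1) :: p.2]) ?_
    refine re_and (re_mem ?_ LSum_p2) (re_eq LSum_p1 ?_)
    · exact Computable.pair (Computable.const true)
        (Computable.pair (primrec_all.to_comp.comp LSum_q2) LSum_q1)
    · exact LSum_single (Computable.list_cons.comp
        (Computable.pair (Computable.const true)
          (Computable.pair LSum_q2 (Computable.list_cons.comp LSum_q3 LSum_q1))) LSum_p2)
  have h6 : REPred fun p : List (Node D k) × Node D k =>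
      ∃ q : List ℕ × Fm D k × ℕ, ((false, Fm.all q.2.1, q.1) : Item D k) ∈ p.2 ∧
      Fresh q.2.2 p.2 ∧ p.1 = [(false, q.2.1, q.2.2 :: q.1) :: p.2] := by
    refine re_ex (q := fun (p : List (Node D k) × Node D k) (q : List ℕ × Fm D k × ℕ) =>
      ((false, Fm.all q.2.1, q.1) : Item D k) ∈ p.2 ∧
      Fresh q.2.2 p.2 ∧ p.1 = [(false, q.2.1, q.2.2 :: q.1) :: p.2]) ?_
    refine re_and (re_mem ?_ LSum_p2) (re_and ?_ (re_eq LSum_p1 ?_))
    · exact Computable.pair (Computable.const false)
        (Computable.pair (primrec_all.to_comp.comp LSum_q2) LSum_q1)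
    · exact re_comp (p := fun p : ℕ × Node D k => Fresh p.1 p.2) re_fresh
        (f := fun t : (List (Node D k) × Node D k) × List ℕ × Fm D k × ℕ => (t.2.2.2, t.1.2))
        (Computable.pair LSum_q3 LSum_p2)
    · exact LSum_single (Computable.list_cons.comp
        (Computable.pair (Computable.const false)
          (Computable.pair LSum_q2 (Computable.list_cons.comp LSum_q3 LSum_q1))) LSum_p2)
  have h7 : REPred fun p : List (Node D k) × Node D k =>
      ∃ q : List ℕ × Tm D k × ℕ, q.2.1.Below q.1.length ∧ Fresh q.2.2 p.2 ∧ q.2.2 ∉ q.1 ∧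
      p.1 = [(true, Fm.eq (Tm.var q.1.length) q.2.1, q.1 ++ [q.2.2]) :: p.2] := by
    refine re_ex (q := fun (p : List (Node D k) × Node D k) (q : List ℕ × Tm D k × ℕ) =>
      q.2.1.Below q.1.length ∧ Fresh q.2.2 p.2 ∧ q.2.2 ∉ q.1 ∧
      p.1 = [(true, Fm.eq (Tm.var q.1.length) q.2.1, q.1 ++ [q.2.2]) :: p.2]) ?_
    refine re_and ?_ (re_and ?_ (re_and (LSum_re_notMem LSum_q3 LSum_q1) (re_eq LSum_p1 ?_)))
    · exact re_comp (p := fun p : Tm D k × ℕ => p.1.Below p.2) re_tmBelow
        (f := fun t : (List (Node D k) × Node D k) × List ℕ × Tm D k × ℕ =>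
          (t.2.2.1, t.2.1.length))
        (Computable.pair LSum_q2 (Computable.list_length.comp LSum_q1))
    · exact re_comp (p := fun p : ℕ × Node D k => Fresh p.1 p.2) re_fresh
        (f := fun t : (List (Node D k) × Node D k) × List ℕ × Tm D k × ℕ => (t.2.2.2, t.1.2))
        (Computable.pair LSum_q3 LSum_p2)
    · exact LSum_single (Computable.list_cons.comp
        (Computable.pair (Computable.const true)
          (Computable.pair (primrec_eqF.to_comp.comp
            (primrec_var.to_comp.comp (Computable.list_length.comp LSum_q1)) LSum_q2)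
            (Computable.list_append.comp LSum_q1 (LSum_single LSum_q3)))) LSum_p2)
  refine (re_or h1 (re_or h2 (re_or h3 (re_or h4 (re_or h5 (re_or h6 h7)))))).of_eq ?_
  rintro ⟨ps, Γ⟩
  exact (tabRule_iff ps Γ).symm

theorem re_closed (hadd : Computable₂ (fun a b : k => a + b))
    (hmul : Computable₂ (fun a b : k => a * b)) : REPred fun Γ : Node D k => Closed Γ :=
  re_der' TabRule (re_tabRule hadd hmul)

end StrAlg
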