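import Pool.Agent.Lib.MP_b9fd58_lc.LModelA
set_option autoImplicit false

/-!
# The module presented by a set of equations
-/

namespace StrAlg

section model
variable {D : Dat} {k : Type} [Field k]

theorem LModel_gen_mono {H H' : Item D k → Prop} (h : ∀ i, H i → H' i) {g : FS D k}
    (hg : IsGen H g) : IsGen H' g := by
  rcases hg with ⟨s, t, ρ, w, h1, rfl⟩ | h1
  · exact Or.inl ⟨s, t, ρ, w, h _ h1, rfl⟩
  · exact Or.inr h1

theorem consSpace_mono {H H' : Item D k → Prop} (h : ∀ i, H i → H' i) :
    consSpace H ≤ consSpace H' := by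
  unfold consSpace
  apply Submodule.span_mono
  rintro x ⟨g, hg, rfl⟩
  exact ⟨g, LModel_gen_mono h hg, rfl⟩

/-- a consequence of the union of an increasing sequence is a consequence of one of its members -/
theorem cons_union (Γ : ℕ → Item D k → Prop) (hΓ : ∀ n i, Γ n i → Γ (n + 1) i) (e : FS D k)
    (he : Cons (fun i => ∃ n, Γ n i) e) : ∃ n, Cons (Γ n) e := by
  have hmono : Monotone fun n => consSpace (Γ n) :=
    monotone_nat_of_le_succ fun n => consSpace_mono (hΓ n)
  have h1 : consSpace (fun i => ∃ n, Γ n i) ≤ ⨆ n, consSpace (Γ n) := by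
    conv_lhs => unfold consSpace
    rw [Submodule.span_le]
    rintro x ⟨g, hg, rfl⟩
    rcases hg with ⟨s, t, ρ, w, ⟨n, hn⟩, rfl⟩ | h1
    · exact Submodule.mem_iSup_of_mem n
        (Submodule.subset_span ⟨_, Or.inl ⟨s, t, ρ, w, hn, rfl⟩, rfl⟩)
    · exact Submodule.mem_iSup_of_mem 0 (Submodule.subset_span ⟨g, Or.inr h1, rfl⟩)
  have h2 : FS.val e ∈ ⨆ n, consSpace (Γ n) := h1 he
  obtain ⟨n, hn⟩ := (Submodule.mem_iSup_of_directed _ hmono.directed_le).1 h2
  exact ⟨n, hn⟩

/-- appending a generator to the words -/
noncomputable def shiftL (g : D.Gen) : (PX D →₀ k) →ₗ[k] (PX D →₀ k) :=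
  Finsupp.lmapDomain k k (fun x : PX D => (x.1 ++ [g], x.2))

theorem LModel_shiftL_single (g : D.Gen) (x : PX D) (a : k) :
    shiftL g (Finsupp.single x a) = Finsupp.single (x.1 ++ [g], x.2) a := by
  unfold shiftL
  rw [Finsupp.lmapDomain_apply, Finsupp.mapDomain_single]

theorem shiftL_val (g : D.Gen) (L : FS D k) : shiftL g (FS.val L) = FS.val (FS.shift [g] L) := by
  unfold FS.val FS.shift
  induction L with
  | nil => simp
  | cons t L ih =>
    simp only [List.map_cons, List.sum_cons, map_add, LModel_shiftL_single] at ih ⊢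
    rw [ih]

theorem consSpace_shift (H : Item D k → Prop) (g : D.Gen) :
    consSpace H ≤ (consSpace H).comap (shiftL g) := by
  conv_lhs => unfold consSpace
  rw [Submodule.span_le]
  rintro x ⟨y, hy, rfl⟩
  show shiftL g (FS.val y) ∈ consSpace H
  rw [shiftL_val]
  apply Submodule.subset_span
  refine ⟨_, ?_, rfl⟩
  rcases hy with ⟨s, t, ρ, w, h, rfl⟩ | ⟨r, hr, w, w', p, rfl⟩
  · refine Or.inl ⟨s, t, ρ, w ++ [g], h, ?_⟩
    unfold FS.shift
    rw [List.map_map]
    apply List.map_congr_left
    intro x _
    simp
  · refine Or.inr ⟨r, hr, w, w' ++ [g], p, ?_⟩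
    unfold FS.shift relInst
    rw [List.map_map]
    apply List.map_congr_left
    intro x _
    simp

/-- the module presented by the true equations of `H` -/
abbrev HN (H : Item D k → Prop) : Type := (PX D →₀ k) ⧸ consSpace H

/-- the parameters of `HN H` -/
noncomputable def HN.par (H : Item D k → Prop) (p : ℕ) : HN H :=
  (consSpace H).mkQ (Finsupp.single ([], p) 1)

/-- the operators of `HN H` -/
noncomputable def HN.op (H : Item D k → Prop) (g : D.Gen) : HN H →ₗ[k] HN H :=
  (consSpace H).mapQ (consSpace H) (shiftL g) (consSpace_shift H g)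

theorem LModel_op_mk (H : Item D k → Prop) (g : D.Gen) (x : PX D) (a : k) :
    HN.op H g ((consSpace H).mkQ (Finsupp.single x a)) =
      (consSpace H).mkQ (Finsupp.single (x.1 ++ [g], x.2) a) := by
  unfold HN.op
  rw [Submodule.mkQ_apply, Submodule.mapQ_apply, LModel_shiftL_single]
  rfl

/-- words acting on `HN H`, as linear maps -/
noncomputable def LModel_wl (H : Item D k → Prop) (w : List D.Gen) : HN H →ₗ[k] HN H :=
  w.foldl (fun f g => (HN.op H g).comp f) LinearMap.id

theorem LModel_wl_aux (H : Item D k → Prop) (w : List D.Gen) (n : HN H) : ∀ f : HN H →ₗ[k] HN H,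
    (w.foldl (fun f g => (HN.op H g).comp f) f) n = w.foldl (fun m g => HN.op H g m) (f n) := by
  induction w with
  | nil => intro f; rfl
  | cons g w ih =>
    intro f
    rw [List.foldl_cons, List.foldl_cons, ih]
    rfl

theorem LModel_wl_apply (H : Item D k → Prop) (w : List D.Gen) (n : HN H) :
    LModel_wl H w n = w.foldl (fun m g => HN.op H g m) n := by
  unfold LModel_wl
  rw [LModel_wl_aux]
  rfl

theorem LModel_foldl_mk (H : Item D k → Prop) (w : List D.Gen) : ∀ (x : PX D) (a : k),
    w.foldl (fun m g => HN.op H g m) ((consSpace H).mkQ (Finsupp.single x a)) =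
      (consSpace H).mkQ (Finsupp.single (x.1 ++ w, x.2) a) := by
  induction w with
  | nil => intro x a; simp
  | cons g w ih =>
    intro x a
    rw [List.foldl_cons, LModel_op_mk, ih]
    simp

/-- the action of a coded element as a linear map -/
noncomputable def LModel_al (H : Item D k → Prop) (c : ElCode D k) : HN H →ₗ[k] HN H :=
  (c.map fun t => t.1 • LModel_wl H t.2).sum

theorem LModel_al_apply (H : Item D k → Prop) (c : ElCode D k) (n : HN H) :
    LModel_al H c n = (c.map fun t => t.1 • (t.2.foldl (fun m g => HN.op H g m) n)).sum := by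
  unfold LModel_al
  induction c with
  | nil => simp
  | cons t c ih =>
    simp only [List.map_cons, List.sum_cons, LinearMap.add_apply, LinearMap.smul_apply, LModel_wl_apply]
    rw [ih]

theorem LModel_al_mk (H : Item D k → Prop) (c : ElCode D k) (x : PX D) (a : k) :
    LModel_al H c ((consSpace H).mkQ (Finsupp.single x a)) =
      a • (consSpace H).mkQ (FS.val (relInst c x.1 [] x.2)) := by
  rw [LModel_al_apply]
  unfold relInst FS.val
  induction c with
  | nil => simp
  | cons t c ih =>
    simp only [List.map_cons, List.sum_cons] at ih ⊢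
    rw [ih, map_add, smul_add, LModel_foldl_mk]
    congr 1
    rw [← map_smul, ← map_smul, Finsupp.smul_single,
      Finsupp.smul_single, List.append_nil, smul_eq_mul, smul_eq_mul, mul_comm]

theorem LModel_rel_zero (H : Item D k → Prop) (r : ElCode D k) (hr : r ∈ relL D k) (n : HN H) :
    (r.map fun t => t.1 • (t.2.foldl (fun m g => HN.op H g m) n)).sum = 0 := by
  rw [← LModel_al_apply]
  obtain ⟨f, rfl⟩ := (consSpace H).mkQ_surjective n
  induction f using Finsupp.induction_linear with
  | zero => simp
  | add f g hf hg => rw [map_add, map_add, hf, hg, add_zero]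
  | single x a =>
    rw [LModel_al_mk]
    have : (consSpace H).mkQ (FS.val (relInst r x.1 [] x.2)) = 0 := by
      rw [Submodule.mkQ_apply, Submodule.Quotient.mk_eq_zero]
      exact Submodule.subset_span ⟨_, Or.inr ⟨r, hr, x.1, [], x.2, rfl⟩, rfl⟩
    rw [this, smul_zero]

/-- the module presented by the true equations of `H` -/
noncomputable def HN.Q (H : Item D k → Prop) : QMod D k (HN H) where
  op := HN.op H
  idem := by
    intro i n
    have h := LModel_rel_zero H [(1, [Sum.inl i, Sum.inl i]), (-1, [Sum.inl i])] (by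
      unfold relL
      simp) n
    simp only [List.map_cons, List.map_nil, List.sum_cons, List.sum_nil, List.foldl_cons, List.foldl_nil,
      one_smul, neg_smul, add_zero] at h
    exact eq_of_sub_eq_zero (by rw [sub_eq_add_neg]; exact h)
  orth := by
    intro i j n hij
    have h := LModel_rel_zero H [(1, [Sum.inl i, Sum.inl j])] (by
      unfold relL
      simp [hij]) n
    simpa only [List.map_cons, List.map_nil, List.sum_cons, List.sum_nil, List.foldl_cons, List.foldl_nil,
      one_smul, add_zero] using h
  one := by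
    intro n
    have h := LModel_rel_zero H (((List.finRange D.nV).map fun i => ((1 : k), [(Sum.inl i : D.Gen)])) ++ [(-1, [])]) (by
      unfold relL
      simp) n
    simp only [List.map_append, List.map_map, List.sum_append, List.map_cons, List.map_nil,
      List.sum_cons, List.sum_nil, add_zero, List.foldl_nil, neg_smul, one_smul] at h
    have h2 : ((fun t : k × List D.Gen => t.1 • (t.2.foldl (fun m g => HN.op H g m) n)) ∘
        fun i : Fin D.nV => ((1 : k), [(Sum.inl i : D.Gen)])) = fun i => HN.op H (Sum.inl i) n := by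
      funext i
      simp
    rw [h2, ← Fin.sum_univ_def] at h
    exact eq_of_sub_eq_zero (by rw [sub_eq_add_neg]; exact h)
  src := by
    intro a n
    have h := LModel_rel_zero H [(1, [Sum.inl (D.src a), Sum.inr a]), (-1, [Sum.inr a])] (by
      unfold relL
      simp) n
    simp only [List.map_cons, List.map_nil, List.sum_cons, List.sum_nil, List.foldl_cons, List.foldl_nil,
      one_smul, neg_smul, add_zero] at h
    exact eq_of_sub_eq_zero (by rw [sub_eq_add_neg]; exact h)
  tgt := by
    intro a n
    have h := LModel_rel_zero H [(1, [Sum.inr a, Sum.inl (D.tgt a)]), (-1, [Sum.inr a])] (by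
      unfold relL
      simp) n
    simp only [List.map_cons, List.map_nil, List.sum_cons, List.sum_nil, List.foldl_cons, List.foldl_nil,
      one_smul, neg_smul, add_zero] at h
    exact eq_of_sub_eq_zero (by rw [sub_eq_add_neg]; exact h)
  rel := by
    intro r hr n
    have h := LModel_rel_zero H [(1, r.map Sum.inr)] (by
      unfold relL
      simp only [List.mem_append, List.mem_map]
      exact Or.inr ⟨r, hr, rfl⟩) n
    simpa only [List.map_cons, List.map_nil, List.sum_cons, List.sum_nil, List.foldl_map,
      one_smul, add_zero] using h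

theorem HN.evQ_eq (H : Item D k → Prop) (L : FS D k) :
    FS.evQ (HN.Q H) (HN.par H) L = (consSpace H).mkQ (FS.val L) := by
  unfold FS.evQ FS.val
  induction L with
  | nil => simp
  | cons t L ih =>
    simp only [List.map_cons, List.sum_cons] at ih ⊢
    rw [ih, map_add]
    congr 1
    have h1 : (HN.Q H).word t.2.1 (HN.par H t.2.2) =
        (consSpace H).mkQ (Finsupp.single ([] ++ t.2.1, t.2.2) 1) := by
      unfold QMod.word HN.par
      exact LModel_foldl_mk H t.2.1 ([], t.2.2) 1
    rw [h1, ← map_smul, Finsupp.smul_single, smul_eq_mul, mul_one, List.nil_append]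

/-- an equation holds in `HN H` iff it is a consequence of `H` -/
theorem HN.sat_iff (H : Item D k → Prop) (ρ : List ℕ) (s t : Tm D k) :
    (Fm.eq s t).SatQ (HN.Q H) (fun n => HN.par H (envp ρ n)) ↔ Cons H (eqFS ρ s t) := by
  rw [satQ_eq_iff, HN.evQ_eq]
  exact Submodule.Quotient.mk_eq_zero _

theorem HN.true_eq (H : Item D k → Prop) (ρ : List ℕ) (s t : Tm D k) (h : H (true, .eq s t, ρ)) :
    (Fm.eq s t).SatQ (HN.Q H) (fun n => HN.par H (envp ρ n)) := by
  rw [HN.sat_iff]
  apply Submodule.subset_span
  refine ⟨_, Or.inl ⟨s, t, ρ, [], h, ?_⟩, rfl⟩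
  unfold FS.shift
  simp

omit [Field k] in
/-- the term of a formal sum, with the variables `i, i + 1, …` -/
def LModel_tm : FS D k → ℕ → Tm D k
  | [], _ => .zero
  | t :: L, i => .add (.act [(t.1, t.2.1)] (.var i)) (LModel_tm L (i + 1))

omit [Field k] in
theorem LModel_tm_below (L : FS D k) : ∀ i n, i + L.length ≤ n → (LModel_tm L i).Below n := by
  induction L with
  | nil => intro i n _; exact trivial
  | cons t L ih =>
    intro i n h
    rw [List.length_cons] at h
    exact ⟨by show i < n; omega, ih (i + 1) n (by omega)⟩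

theorem LModel_tm_val {N : Type} [AddCommGroup N] [Module k N] (Q : QMod D k N) (π : ℕ → N)
    (L : FS D k) : ∀ (i : ℕ) (v : ℕ → N), (∀ j < L.length, v (i + j) = π (envp (L.map fun t => t.2.2) j)) →
      (LModel_tm L i).valQ Q v = FS.evQ Q π L := by
  induction L with
  | nil => intro i v _; simp [LModel_tm, Tm.valQ, FS.evQ]
  | cons t L ih =>
    intro i v h
    have h0 := h 0 (by simp)
    have h1 : ∀ j < L.length, v (i + 1 + j) = π (envp (L.map fun t => t.2.2) j) := by
      intro j hj
      have := h (j + 1) (by rw [List.length_cons]; omega)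
      rw [show i + 1 + j = i + (j + 1) by ring, this]
      simp [envp]
    have h2 := ih (i + 1) v h1
    simp only [LModel_tm, Tm.valQ]
    rw [h2]
    rw [add_zero] at h0
    rw [h0]
    simp [FS.evQ, QMod.act, envp]

theorem LModel_exists_val (f : PX D →₀ k) : ∃ L : FS D k, FS.val L = f := by
  induction f using Finsupp.induction_linear with
  | zero => exact ⟨[], by simp [FS.val]⟩
  | add f g hf hg =>
    obtain ⟨L, hL⟩ := hf
    obtain ⟨L', hL'⟩ := hg
    refine ⟨L ++ L', ?_⟩
    rw [← hL, ← hL']
    simp [FS.val]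
  | single x a => exact ⟨[(a, x)], by simp [FS.val]⟩

/-- every element of `HN H` is the value of a term -/
theorem HN.exists_tm (H : Item D k → Prop) (x : HN H) : ∃ (t : Tm D k) (ρ : List ℕ),
    t.Below ρ.length ∧ t.valQ (HN.Q H) (fun n => HN.par H (envp ρ n)) = x := by
  obtain ⟨f, rfl⟩ := (consSpace H).mkQ_surjective x
  obtain ⟨L, rfl⟩ := LModel_exists_val f
  refine ⟨LModel_tm L 0, L.map fun t => t.2.2, ?_, ?_⟩
  · apply LModel_tm_below
    simp
  · rw [LModel_tm_val (HN.Q H) (HN.par H) L 0 _ (fun j _ => by rw [zero_add]), HN.evQ_eq]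

end model

end StrAlg
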