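import Pool.Agent.Lib.MP_b9fd58_lc.LTabB
import Pool.Agent.Lib.MP_b9fd58_lc.LModel
set_option autoImplicit false

/-!
# Completeness of the tableaux
-/

namespace StrAlg

section complete
variable {D : Dat} {k : Type} [Field k]

/-- The Hintikka sets. -/
structure Hintikka (H : Item D k → Prop) : Prop where
  fls : ∀ ρ, ¬ H (true, Fm.fls, ρ)
  eqF : ∀ s t ρ, H (false, Fm.eq s t, ρ) → ¬ Cons H (eqFS ρ s t)
  impT : ∀ φ ψ ρ, H (true, Fm.imp φ ψ, ρ) → H (false, φ, ρ) ∨ H (true, ψ, ρ)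
  impF : ∀ φ ψ ρ, H (false, Fm.imp φ ψ, ρ) → H (true, φ, ρ) ∧ H (false, ψ, ρ)
  allT : ∀ φ ρ p, H (true, Fm.all φ, ρ) → H (true, φ, p :: ρ)
  allF : ∀ φ ρ, H (false, Fm.all φ, ρ) → ∃ p, H (false, φ, p :: ρ)
  name : ∀ (t : Tm D k) (ρ : List ℕ), t.Below ρ.length →
    ∃ p, H (true, Fm.eq (.var ρ.length) t, ρ ++ [p])

/-- terms of bounded height -/
def LTab_T (D : Dat) (k : Type) : ℕ → Set (Tm D k)
  | 0 => ∅
  | n + 1 => (Set.range Tm.var ∪ {Tm.zero}) ∪ (Set.image2 Tm.add (LTab_T D k n) (LTab_T D k n) ∪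
      Set.image2 Tm.act Set.univ (LTab_T D k n))

theorem LTab_T_countable [Countable k] (n : ℕ) : (LTab_T D k n).Countable := by
  induction n with
  | zero => exact Set.countable_empty
  | succ n ih =>
    exact ((Set.countable_range _).union (Set.countable_singleton _)).union
      ((ih.image2 ih _).union ((Set.countable_univ (α := ElCode D k)).image2 ih _))

theorem LTab_T_mono (n m : ℕ) (h : n ≤ m) : LTab_T D k n ⊆ LTab_T D k m := by
  induction m generalizing n with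
  | zero =>
    rw [Nat.le_zero.1 h]
  | succ m ih =>
    cases n with
    | zero => exact Set.empty_subset _
    | succ n =>
      have h' := ih n (Nat.succ_le_succ_iff.1 h)
      exact Set.union_subset_union_right _ (Set.union_subset_union (Set.image2_subset h' h')
        (Set.image2_subset_left h'))

theorem LTab_T_exists (t : Tm D k) : ∃ n, t ∈ LTab_T D k n := by
  induction t with
  | var n => exact ⟨1, Or.inl (Or.inl ⟨n, rfl⟩)⟩
  | zero => exact ⟨1, Or.inl (Or.inr rfl)⟩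
  | add s t hs ht =>
    obtain ⟨n, hn⟩ := hs
    obtain ⟨m, hm⟩ := ht
    exact ⟨max n m + 1, Or.inr (Or.inl ⟨s, LTab_T_mono _ _ (le_max_left _ _) hn, t,
      LTab_T_mono _ _ (le_max_right _ _) hm, rfl⟩)⟩
  | act c t ht =>
    obtain ⟨n, hn⟩ := ht
    exact ⟨n + 1, Or.inr (Or.inr ⟨c, Set.mem_univ _, t, hn, rfl⟩)⟩

theorem LTab_countable_tm [Countable k] : Countable (Tm D k) := by
  rw [← Set.countable_univ_iff]
  refine (Set.countable_iUnion (fun n => LTab_T_countable (D := D) (k := k) n)).mono ?_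
  intro t _
  exact Set.mem_iUnion.2 (LTab_T_exists t)

/-- formulas of bounded height -/
def LTab_F (D : Dat) (k : Type) : ℕ → Set (Fm D k)
  | 0 => ∅
  | n + 1 => (Set.image2 Fm.eq Set.univ Set.univ ∪ {Fm.fls}) ∪
      (Set.image2 Fm.imp (LTab_F D k n) (LTab_F D k n) ∪ Fm.all '' (LTab_F D k n))

theorem LTab_F_countable [Countable k] (n : ℕ) : (LTab_F D k n).Countable := by
  have hT : Countable (Tm D k) := LTab_countable_tm
  induction n with
  | zero => exact Set.countable_empty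
  | succ n ih =>
    exact (((Set.countable_univ (α := Tm D k)).image2 (Set.countable_univ (α := Tm D k)) _).union
      (Set.countable_singleton _)).union ((ih.image2 ih _).union (ih.image _))

theorem LTab_F_mono (n m : ℕ) (h : n ≤ m) : LTab_F D k n ⊆ LTab_F D k m := by
  induction m generalizing n with
  | zero =>
    rw [Nat.le_zero.1 h]
  | succ m ih =>
    cases n with
    | zero => exact Set.empty_subset _
    | succ n =>
      have h' := ih n (Nat.succ_le_succ_iff.1 h)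
      exact Set.union_subset_union_right _ (Set.union_subset_union (Set.image2_subset h' h')
        (Set.image_mono h'))

theorem LTab_F_exists (φ : Fm D k) : ∃ n, φ ∈ LTab_F D k n := by
  induction φ with
  | eq s t => exact ⟨1, Or.inl (Or.inl ⟨s, Set.mem_univ _, t, Set.mem_univ _, rfl⟩)⟩
  | fls => exact ⟨1, Or.inl (Or.inr rfl)⟩
  | imp s t hs ht =>
    obtain ⟨n, hn⟩ := hs
    obtain ⟨m, hm⟩ := ht
    exact ⟨max n m + 1, Or.inr (Or.inl ⟨s, LTab_F_mono _ _ (le_max_left _ _) hn, t,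
      LTab_F_mono _ _ (le_max_right _ _) hm, rfl⟩)⟩
  | all t ht =>
    obtain ⟨n, hn⟩ := ht
    exact ⟨n + 1, Or.inr (Or.inr ⟨t, hn, rfl⟩)⟩

theorem LTab_countable_fm [Countable k] : Countable (Fm D k) := by
  rw [← Set.countable_univ_iff]
  refine (Set.countable_iUnion (fun n => LTab_F_countable (D := D) (k := k) n)).mono ?_
  intro t _
  exact Set.mem_iUnion.2 (LTab_F_exists t)

/-- an increasing sequence of nodes which are not closed, in which every task is done at arbitrarily late stages -/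
theorem LTab_seq [Countable k] (Γ : Node D k) (h : ¬ Closed Γ) :
    ∃ G : ℕ → Node D k, G 0 = Γ ∧ (∀ n i, i ∈ G n → i ∈ G (n + 1)) ∧ (∀ n, ¬ Closed (G n)) ∧
      ∀ (T : Task D k) (m : ℕ), ∃ n, m ≤ n ∧ Done T (G n) := by
  have hT : Countable (Tm D k) := LTab_countable_tm
  have hF : Countable (Fm D k) := LTab_countable_fm
  have hne : Nonempty (Task D k) := ⟨Sum.inr (Tm.zero, [])⟩
  obtain ⟨f, hf⟩ := exists_surjective_nat (Task D k)
  choose step hs1 hs2 hs3 using fun (T : Task D k) (Γ : {Γ : Node D k // ¬ Closed Γ}) =>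
    exists_step T Γ.1 Γ.2
  let G : ℕ → {Γ : Node D k // ¬ Closed Γ} := fun n => Nat.rec ⟨Γ, h⟩
    (fun n Γ => ⟨step (f (Nat.unpair n).1) Γ, hs2 _ _⟩) n
  refine ⟨fun n => (G n).1, rfl, ?_, fun n => (G n).2, ?_⟩
  · intro n i hi
    exact hs1 _ (G n) i hi
  · intro T m
    obtain ⟨a, rfl⟩ := hf T
    refine ⟨Nat.pair a m + 1, (Nat.right_le_pair a m).trans (Nat.le_succ _), ?_⟩
    have h3 := hs3 (f (Nat.unpair (Nat.pair a m)).1) (G (Nat.pair a m))
    rw [Nat.unpair_pair] at h3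
    show Done _ (step (f (Nat.unpair (Nat.pair a m)).1) (G (Nat.pair a m)))
    rw [Nat.unpair_pair]
    exact h3

/-- countability of the tasks gives a Hintikka set -/
theorem exists_hintikka [Countable k] (Γ : Node D k) (h : ¬ Closed Γ) :
    ∃ H : Item D k → Prop, Hintikka H ∧ ∀ i ∈ Γ, H i := by
  obtain ⟨G, hG0, hG1, hG2, hG3⟩ := LTab_seq Γ h
  have hmono : ∀ n m i, n ≤ m → i ∈ G n → i ∈ G m := by
    intro n m i hnm hi
    induction hnm with
    | refl => exact hi
    | step _ ih => exact hG1 _ _ ih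
  refine ⟨fun i => ∃ n, i ∈ G n, ?_, fun i hi => ⟨0, by rw [hG0]; exact hi⟩⟩
  constructor
  · rintro ρ ⟨n, hn⟩
    exact hG2 n (ReCalc.Der.mk _ _ (TabRule.fls _ ρ hn) (by simp))
  · rintro s t ρ ⟨n, hn⟩ hc
    obtain ⟨m, hm⟩ := cons_union (fun n i => i ∈ G n) hG1 _ hc
    refine hG2 (max n m) (ReCalc.Der.mk _ _ (TabRule.eq _ ρ s t (hmono _ _ _ (le_max_left _ _) hn) ?_)
      (by simp))
    exact consSpace_mono (fun i hi => hmono _ _ _ (le_max_right _ _) hi) hm
  · rintro φ ψ ρ ⟨n, hn⟩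
    obtain ⟨m, hm, hd⟩ := hG3 (Sum.inl ((true, Fm.imp φ ψ, ρ), 0)) n
    cases hd with
    | impT _ _ _ _ _ hd =>
      rcases hd (hmono _ _ _ hm hn) with h1 | h1
      · exact Or.inl ⟨m, h1⟩
      · exact Or.inr ⟨m, h1⟩
    | triv _ _ _ _ _ hd =>
      rcases hd with ⟨s, t, hd⟩ | hd <;> cases hd
  · rintro φ ψ ρ ⟨n, hn⟩
    obtain ⟨m, hm, hd⟩ := hG3 (Sum.inl ((false, Fm.imp φ ψ, ρ), 0)) n
    cases hd with
    | impF _ _ _ _ _ hd =>
      obtain ⟨h1, h2⟩ := hd (hmono _ _ _ hm hn)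
      exact ⟨⟨m, h1⟩, ⟨m, h2⟩⟩
    | triv _ _ _ _ _ hd =>
      rcases hd with ⟨s, t, hd⟩ | hd <;> cases hd
  · rintro φ ρ p ⟨n, hn⟩
    obtain ⟨m, hm, hd⟩ := hG3 (Sum.inl ((true, Fm.all φ, ρ), p)) n
    cases hd with
    | allT _ _ _ _ hd => exact ⟨m, hd (hmono _ _ _ hm hn)⟩
    | triv _ _ _ _ _ hd =>
      rcases hd with ⟨s, t, hd⟩ | hd <;> cases hd
  · rintro φ ρ ⟨n, hn⟩
    obtain ⟨m, hm, hd⟩ := hG3 (Sum.inl ((false, Fm.all φ, ρ), 0)) n
    cases hd with
    | allF _ _ _ _ hd =>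
      obtain ⟨p, hp⟩ := hd (hmono _ _ _ hm hn)
      exact ⟨p, m, hp⟩
    | triv _ _ _ _ _ hd =>
      rcases hd with ⟨s, t, hd⟩ | hd <;> cases hd
  · intro t ρ ht
    obtain ⟨m, hm, hd⟩ := hG3 (Sum.inr (t, ρ)) 0
    cases hd with
    | name _ _ _ hd =>
      obtain ⟨p, hp⟩ := hd ht
      exact ⟨p, m, hp⟩

/-- every element of the model of a Hintikka set is a parameter -/
theorem Hintikka.exists_par {H : Item D k → Prop} (hH : Hintikka H) (x : HN H) :
    ∃ p, HN.par H p = x := by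
  obtain ⟨t, ρ, ht, hx⟩ := HN.exists_tm H x
  obtain ⟨p, hp⟩ := hH.name t ρ ht
  refine ⟨p, ?_⟩
  have h1 := HN.true_eq H (ρ ++ [p]) (.var ρ.length) t hp
  have h2 : HN.par H (envp (ρ ++ [p]) ρ.length) =
      t.valQ (HN.Q H) (fun n => HN.par H (envp (ρ ++ [p]) n)) := h1
  have h3 : envp (ρ ++ [p]) ρ.length = p := by
    unfold envp
    simp
  rw [h3] at h2
  rw [h2, ← hx]
  apply Tm.valQ_congr (HN.Q H) t ρ.length ht
  intro i hi
  have h4 : envp (ρ ++ [p]) i = envp ρ i := by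
    unfold envp
    rw [List.getD_append _ _ _ _ hi]
  show HN.par H (envp (ρ ++ [p]) i) = HN.par H (envp ρ i)
  rw [h4]

/-- truth lemma -/
theorem Hintikka.truth {H : Item D k → Prop} (hH : Hintikka H) (φ : Fm D k) :
    ∀ ρ : List ℕ, (H (true, φ, ρ) → φ.SatQ (HN.Q H) (fun n => HN.par H (envp ρ n))) ∧
      (H (false, φ, ρ) → ¬ φ.SatQ (HN.Q H) (fun n => HN.par H (envp ρ n))) := by
  induction φ with
  | eq s t =>
    intro ρ
    refine ⟨fun h => HN.true_eq H ρ s t h, fun h h1 => hH.eqF s t ρ h ((HN.sat_iff H ρ s t).1 h1)⟩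
  | fls =>
    intro ρ
    exact ⟨fun h => absurd h (hH.fls ρ), fun _ h1 => h1⟩
  | imp φ ψ ih1 ih2 =>
    intro ρ
    constructor
    · intro h h1
      rcases hH.impT φ ψ ρ h with h2 | h2
      · exact absurd h1 ((ih1 ρ).2 h2)
      · exact (ih2 ρ).1 h2
    · intro h h1
      obtain ⟨h2, h3⟩ := hH.impF φ ψ ρ h
      exact (ih2 ρ).2 h3 (h1 ((ih1 ρ).1 h2))
  | all φ ih =>
    intro ρ
    constructor
    · intro h x
      obtain ⟨p, rfl⟩ := hH.exists_par x
      have h2 := (ih (p :: ρ)).1 (hH.allT φ ρ p h)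
      rw [envp_cons] at h2
      exact h2
    · intro h h1
      obtain ⟨p, hp⟩ := hH.allF φ ρ h
      have h2 := (ih (p :: ρ)).2 hp
      rw [envp_cons] at h2
      exact h2 (h1 _)

/-- **Completeness.** -/
theorem closed_complete [Countable k] (φ : Fm D k) (h : ValidQ D k φ) :
    Closed [(false, φ, ([] : List ℕ))] := by
  by_contra hc
  obtain ⟨H, hH, h1⟩ := exists_hintikka _ hc
  exact (hH.truth φ []).2 (h1 _ (by simp)) (h _ _ _)

/-- for sentences, validity is closedness -/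
theorem validQ_iff_closed [Countable k] (φ : Fm D k) (hφ : φ.IsSentence) :
    ValidQ D k φ ↔ Closed [(false, φ, ([] : List ℕ))] := by
  constructor
  · exact closed_complete φ
  · intro h N _ _ Q v
    by_contra hv
    apply closed_sound _ h N Q (fun _ => 0)
    intro i hi
    have e : i = (false, φ, ([] : List ℕ)) := by simpa using hi
    subst e
    show ¬ _
    intro h1
    exact hv ((Fm.satQ_congr Q φ 0 hφ _ _ (fun i hi => absurd hi (by omega))).1 h1)

end complete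

end StrAlg
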