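import Pool.Agent.Lib.MP_b9fd58_lc.LCond
import Pool.Agent.Lib.MP_b9fd58_lc.LNF
import Pool.Agent.Lib.MP_b9fd58_lc.LTab
import Pool.Agent.Lib.MP_b9fd58_lc.LSum
import Pool.Agent.Lib.MP_b9fd58_lc.LBridge
set_option autoImplicit false

/-!
# Assembly of stream L
-/

namespace StrAlg

open ReCalc

theorem sat_indep {D : Dat} {k : Type} [Field k] (φ : Fm D k) (hφ : φ.IsSentence)
    (N : Type) [AddCommGroup N] [Module k N] (Q : QMod D k N) (v v' : ℕ → N)
    (h : φ.SatQ Q v) : φ.SatQ Q v' :=
  (Fm.satQ_congr Q φ 0 hφ _ _ (fun i hi => absurd hi (by omega))).1 h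

/-- the valid sentences are r.e. -/
theorem re_valid (D : Dat) (k : Type) [Field k] [Primcodable k]
    (hadd : Computable₂ (fun a b : k => a + b)) (hmul : Computable₂ (fun a b : k => a * b)) :
    REPred fun φ : Fm D k => φ.IsSentence ∧ ValidQ D k φ := by
  have h1 : REPred fun φ : Fm D k => φ.IsSentence ∧ Closed [(false, φ, ([] : List ℕ))] := by
    refine re_and re_isSentence (re_comp (p := fun Γ : Node D k => Closed Γ)
      (re_closed hadd hmul) (f := fun φ : Fm D k => [(false, φ, ([] : List ℕ))]) ?_)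
    exact Computable.list_cons.comp (Computable.pair (Computable.const _)
      (Computable.pair Computable.id (Computable.const _))) (Computable.const _)
  refine h1.of_eq ?_
  intro φ
  constructor
  · rintro ⟨h, h2⟩
    exact ⟨h, (validQ_iff_closed φ h).2 h2⟩
  · rintro ⟨h, h2⟩
    exact ⟨h, (validQ_iff_closed φ h).1 h2⟩

/-- a sentence which fails somewhere fails because of a good list of conditions -/
theorem exists_conditions (D : Dat) (k : Type) [Field k] [DecidableEq k] (ks : List k)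
    (hks : Finite k → ∀ a : k, a ∈ ks)
    (Good : PP D k × PP D k → Prop)
    (hGood : ∀ p : PP D k × PP D k, ∃ p', Good p' ∧
      ∀ (N : Type) [AddCommGroup N] [Module k N] (Q : QMod D k N), Q.rank p.1 p.2 = Q.rank p'.1 p'.2)
    (φ : Fm D k) (hφ : φ.IsSentence) (hn : ¬ ValidQ D k φ) :
    ∃ L : List (Cond D k), (∀ t ∈ L, Good t.1 ∧ (Finite k ∨ t.2 = (0, true) ∨ t.2 = (1, false))) ∧
      Realizable D k L ∧ ValidQ D k (condImp ks L (Fm.neg φ)) := by
  obtain ⟨Φ, Λ, hΛ, hnf⟩ := normal_form φ 0 hφ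
  obtain ⟨N, i1, i2, Q, v, hv⟩ : ∃ (N : Type) (_ : AddCommGroup N) (_ : Module k N)
      (Q : QMod D k N) (v : ℕ → N), ¬ φ.SatQ Q v := by
    by_contra hc
    push Not at hc
    exact hn (fun N _ _ Q v => hc N _ _ Q v)
  choose g hg1 hg2 using hGood
  -- the condition attached to an element of `Λ`
  let cf : (PP D k × PP D k) × ℕ → Cond D k := fun t =>
    (g t.1, if Q.rank t.1.1 t.1.2 < (t.2 : ℕ∞) then ((Q.rank t.1.1 t.1.2).toNat, true) else (t.2, false))
  have hcf : ∀ t : (PP D k × PP D k) × ℕ, (cf t).Holds Q := by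
    intro t
    show (if (cf t).2.2 then Q.rank (g t.1).1 (g t.1).2 = ((cf t).2.1 : ℕ∞)
      else ((cf t).2.1 : ℕ∞) ≤ Q.rank (g t.1).1 (g t.1).2)
    rw [← hg2 t.1 N Q]
    by_cases h : Q.rank t.1.1 t.1.2 < (t.2 : ℕ∞)
    · have e : (cf t).2 = ((Q.rank t.1.1 t.1.2).toNat, true) := by simp [cf, h]
      rw [e, if_pos rfl]
      exact (ENat.coe_toNat (ne_top_of_lt h)).symm
    · have e : (cf t).2 = (t.2, false) := by simp [cf, h]
      rw [e, if_neg (by simp)]
      exact not_lt.1 h
  have hsame : ∀ (t : (PP D k × PP D k) × ℕ) (N' : Type) [AddCommGroup N'] [Module k N']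
      (Q' : QMod D k N'), (cf t).Holds Q' →
        min (t.2 : ℕ∞) (Q.rank t.1.1 t.1.2) = min (t.2 : ℕ∞) (Q'.rank t.1.1 t.1.2) := by
    intro t N' _ _ Q' h'
    have h'' : (if (cf t).2.2 then Q'.rank (g t.1).1 (g t.1).2 = ((cf t).2.1 : ℕ∞)
      else ((cf t).2.1 : ℕ∞) ≤ Q'.rank (g t.1).1 (g t.1).2) := h'
    rw [← hg2 t.1 N' Q'] at h''
    by_cases h : Q.rank t.1.1 t.1.2 < (t.2 : ℕ∞)
    · have e : (cf t).2 = ((Q.rank t.1.1 t.1.2).toNat, true) := by simp [cf, h]
      rw [e, if_pos rfl] at h''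
      rw [h'', ENat.coe_toNat (ne_top_of_lt h)]
    · have e : (cf t).2 = (t.2, false) := by simp [cf, h]
      rw [e, if_neg (by simp)] at h''
      rw [min_eq_left (not_lt.1 h), min_eq_left h'']
  refine ⟨Λ.map cf, ?_, ⟨N, i1, i2, Q, ?_⟩, ?_⟩
  · intro t ht
    obtain ⟨u, hu, rfl⟩ := List.mem_map.1 ht
    refine ⟨hg1 u.1, ?_⟩
    rcases hΛ u hu with h | h
    · exact Or.inl h
    · right
      by_cases h2 : Q.rank u.1.1 u.1.2 < (u.2 : ℕ∞)
      · left
        have e : (cf u).2 = ((Q.rank u.1.1 u.1.2).toNat, true) := by simp [cf, h2]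
        rw [e]
        rw [h] at h2
        have h3 : Q.rank u.1.1 u.1.2 = 0 := by
          rw [Nat.cast_one] at h2
          exact ENat.lt_one_iff_eq_zero.1 h2
        rw [h3]
        rfl
      · right
        have e : (cf u).2 = (u.2, false) := by simp [cf, h2]
        rw [e, h]
  · intro t ht
    obtain ⟨u, _, rfl⟩ := List.mem_map.1 ht
    exact hcf u
  · intro N' _ _ Q' v'
    have hL : ∀ t ∈ Λ.map cf, (∀ a : k, a ∈ ks) ∨ t.2 = (0, true) ∨ t.2 = (1, false) := by
      intro t ht
      obtain ⟨u, hu, rfl⟩ := List.mem_map.1 ht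
      rcases hΛ u hu with h | h
      · exact Or.inl (hks h)
      · right
        by_cases h2 : Q.rank u.1.1 u.1.2 < (u.2 : ℕ∞)
        · left
          have e : (cf u).2 = ((Q.rank u.1.1 u.1.2).toNat, true) := by simp [cf, h2]
          rw [e]
          rw [h] at h2
          have h3 : Q.rank u.1.1 u.1.2 = 0 := by
            rw [Nat.cast_one] at h2
            exact ENat.lt_one_iff_eq_zero.1 h2
          rw [h3]
          rfl
        · right
          have e : (cf u).2 = (u.2, false) := by simp [cf, h2]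
          rw [e, h]
    rw [satQ_condImp ks _ hL]
    intro hall
    show ¬ φ.SatQ Q' v'
    intro hφ'
    apply hv
    refine (hnf N N' Q Q' v v' ?_ ?_).2 hφ'
    · intro S _
      constructor
      · intro _
        exact (ppSat_congr Q' 0 S (x := 0) (y := v') (fun i hi => absurd hi (by omega))).1
          (ppSat_zero Q' 0 S)
      · intro _
        exact (ppSat_congr Q 0 S (x := 0) (y := v) (fun i hi => absurd hi (by omega))).1
          (ppSat_zero Q 0 S)
    · intro t ht
      exact hsame t N' Q' (hall _ (List.mem_map_of_mem ht))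

/-- **Main theorem of stream L.** -/
theorem decidable_of_real_proof (D : Dat) (k : Type) [Field k] [Primcodable k]
    (hadd : Computable₂ (fun a b : k => a + b)) (hmul : Computable₂ (fun a b : k => a * b))
    (Good : PP D k × PP D k → Prop)
    (hGood : ∀ p : PP D k × PP D k, ∃ p', Good p' ∧
      ∀ (N : Type) [AddCommGroup N] [Module k N] (Q : QMod D k N), Q.rank p.1 p.2 = Q.rank p'.1 p'.2)
    (P : List (Cond D k) → Prop) (hP : REPred P)
    (hsound : ∀ L, P L → Realizable D k L)
    (hcompl : ∀ L : List (Cond D k), (∀ t ∈ L, Good t.1 ∧ (Finite k ∨ t.2 = (0, true) ∨ t.2 = (1, false))) →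
      Realizable D k L → P L) :
    ∃ f : List (Sym D k) → Bool, Computable f ∧
      ∀ φ : Fm D k, φ.IsSentence →
        (f φ.code = true ↔
          ∀ (M : Type) [AddCommGroup M] [Module (Alg D k)ᵐᵒᵖ M], φ.Sat M (fun _ => 0)) := by
  classical
  -- a list of all elements of `k`, if `k` is finite
  obtain ⟨ks, hks⟩ : ∃ ks : List k, Finite k → ∀ a : k, a ∈ ks := by
    by_cases h : Finite k
    · haveI := Fintype.ofFinite k
      exact ⟨Finset.univ.toList, fun _ a => by simp⟩
    · exact ⟨[], fun h' => absurd h' h⟩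
  -- non-validity is r.e.
  have hN : REPred fun φ : Fm D k => φ.IsSentence ∧ ¬ ValidQ D k φ := by
    have h1 : REPred fun φ : Fm D k => φ.IsSentence ∧ ∃ L : List (Cond D k),
        (P L ∧ ∀ t ∈ L, Finite k ∨ t.2 = (0, true) ∨ t.2 = (1, false)) ∧
          ((condImp ks L (Fm.neg φ)).IsSentence ∧ ValidQ D k (condImp ks L (Fm.neg φ))) := by
      refine re_and re_isSentence (re_ex (q := fun (φ : Fm D k) (L : List (Cond D k)) =>
        (P L ∧ ∀ t ∈ L, Finite k ∨ t.2 = (0, true) ∨ t.2 = (1, false)) ∧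
          ((condImp ks L (Fm.neg φ)).IsSentence ∧ ValidQ D k (condImp ks L (Fm.neg φ)))) ?_)
      refine re_and (re_and (re_comp hP Computable.snd) ?_) ?_
      · refine re_forall_mem (q := fun _ (t : Cond D k) =>
          Finite k ∨ t.2 = (0, true) ∨ t.2 = (1, false)) Computable.snd ?_
        exact re_or (re_const _) (re_or
          (re_eq (Computable.snd.comp Computable.snd) (Computable.const _))
          (re_eq (Computable.snd.comp Computable.snd) (Computable.const _)))
      · exact re_comp (p := fun φ : Fm D k => φ.IsSentence ∧ ValidQ D k φ)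
          (re_valid D k hadd hmul)
          ((computable_condImp ks).comp Computable.snd (computable_neg.comp Computable.fst))
    refine h1.of_eq ?_
    intro φ
    constructor
    · rintro ⟨hs, L, ⟨hPL, hL⟩, _, hv⟩
      refine ⟨hs, ?_⟩
      intro hval
      obtain ⟨N, i1, i2, Q, hQ⟩ := hsound L hPL
      have h2 := hv N Q (fun _ => 0)
      rw [satQ_condImp ks L (fun t ht => by
        rcases hL t ht with h | h
        · exact Or.inl (hks h)
        · exact Or.inr h) (Fm.neg φ) Q] at h2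
      exact (h2 hQ) (hval N Q _)
    · rintro ⟨hs, hn⟩
      obtain ⟨L, hL, hR, hv⟩ := exists_conditions D k ks hks Good hGood φ hs hn
      refine ⟨hs, L, ⟨hcompl L hL hR, fun t ht => (hL t ht).2⟩, ?_, hv⟩
      exact condImp_sentence ks L _ ⟨hs, trivial⟩
  obtain ⟨f, hf, h⟩ := exists_decider (ValidQ D k) (re_valid D k hadd hmul) hN
  refine ⟨f, hf, ?_⟩
  intro φ hφ
  rw [h φ hφ]
  exact validQ_iff_valid φ (fun N _ _ Q v v' hv => sat_indep φ hφ N Q v v' hv)

end StrAlg
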