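import Pool.Agent.Lib.MP_b9fd58_lc.IfLDefs
import Pool.Agent.Lib.MP_b9fd58_lc.LAsm

/-!
# Interface of the logic stream (stream L)

`decidable_of_real`: if (a) every pp-pair has, up to equality of ranks on ALL modules, a representative in a set `Good`,
and (b) there is an r.e. predicate `P` on finite lists of rank conditions which is sound (implies that some module realises
the conditions) and complete for lists of good pairs, then the theory of modules is decidable.
-/

namespace StrAlg

/-- **Main theorem of stream L.** -/
theorem decidable_of_real (D : Dat) (k : Type) [Field k] [Primcodable k]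
    (hadd : Computable₂ (fun a b : k => a + b)) (hmul : Computable₂ (fun a b : k => a * b))
    (Good : PP D k × PP D k → Prop)
    (hGood : ∀ p : PP D k × PP D k, ∃ p', Good p' ∧
      ∀ (N : Type) [AddCommGroup N] [Module k N] (Q : QMod D k N), Q.rank p.1 p.2 = Q.rank p'.1 p'.2)
    (P : List (Cond D k) → Prop) (hP : REPred P)
    (hsound : ∀ L, P L → Realizable D k L)
    (hcompl : ∀ L : List (Cond D k), (∀ t ∈ L, Good t.1 ∧ (Finite k ∨ t.2 = (0, true) ∨ t.2 = (1, false))) →
      Realizable D k L → P L) :
    ∃ f : List (Sym D k) → Bool, Computable f ∧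
      ∀ φ : Fm D k, φ.IsSentence →
        (f φ.code = true ↔
          ∀ (M : Type) [AddCommGroup M] [Module (Alg D k)ᵐᵒᵖ M], φ.Sat M (fun _ => 0)) := by
  exact decidable_of_real_proof D k hadd hmul Good hGood P hP hsound hcompl

end StrAlg
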