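import Pool.Agent.Lib.MP_b9fd58_lc.KFm

/-!
# Stream K: membership in pp-subspaces of coded modules and functionals killing them
-/

set_option autoImplicit false

namespace StrAlg

open Module

variable {D : Dat} {k : Type} [Field k]

theorem KMem_le_foldr (L : List ℕ) {a : ℕ} (h : a ∈ L) : a ≤ L.foldr max 1 := by
  induction L with
  | nil => exact absurd h List.not_mem_nil
  | cons b L ih =>
    rw [List.foldr_cons]
    rcases List.mem_cons.1 h with rfl | h
    · exact le_max_left _ _
    · exact (ih h).trans (le_max_right _ _)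

theorem KMem_one_le_foldr (L : List ℕ) : 1 ≤ L.foldr max 1 := by
  induction L with
  | nil => exact le_refl _
  | cons b L ih => exact ih.trans (le_max_right _ _)

theorem KMem_ppB_pos (φ : PP D k) : 0 < ppB φ := KMem_one_le_foldr _

theorem lt_ppB {φ : PP D k} {e : List (ElCode D k × ℕ)} (he : e ∈ φ) {t : ElCode D k × ℕ} (ht : t ∈ e) :
    t.2 < ppB φ :=
  KMem_le_foldr _ (List.mem_flatMap.2 ⟨e, he, List.mem_map.2 ⟨t, ht, rfl⟩⟩)

section act
variable {N : Type} [AddCommGroup N] [Module k N]

/-- the action of a word as a linear map -/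
def KMem_wordL (Q : QMod D k N) (w : List D.Gen) : N →ₗ[k] N where
  toFun := Q.word w
  map_add' := by
    induction w with
    | nil => intro m n; rfl
    | cons g w ih =>
      intro m n
      show Q.word w (Q.op g (m + n)) = _
      rw [map_add, ih]
      rfl
  map_smul' := by
    induction w with
    | nil => intro a n; rfl
    | cons g w ih =>
      intro a n
      show Q.word w (Q.op g (a • n)) = _
      rw [map_smul, ih]
      rfl

/-- the action of a coded element as a linear map -/
def KMem_actL (Q : QMod D k N) (c : ElCode D k) : N →ₗ[k] N :=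
  (c.map fun t => t.1 • KMem_wordL Q t.2).sum

theorem KMem_actL_apply (Q : QMod D k N) (c : ElCode D k) (n : N) : KMem_actL Q c n = Q.act c n := by
  unfold KMem_actL
  induction c with
  | nil => rfl
  | cons t c ih =>
    rw [List.map_cons, List.sum_cons, LinearMap.add_apply, ih]
    rfl

end act

theorem KMem_sum_apply {α : Type} {n : ℕ} (e : List α) (f : α → Fin n → k) (m : Fin n) :
    (e.map f).sum m = (e.map fun t => f t m).sum := by
  induction e with
  | nil => rfl
  | cons t e ih =>
    rw [List.map_cons, List.sum_cons, Pi.add_apply, ih, List.map_cons, List.sum_cons]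

theorem memC_iff {N : ℕ × List k} (h : fmOk D N) (φ : PP D k) (x : List k) :
    memC N φ x ↔ vecOf N.1 x ∈ (fmQ N h).pp φ := by
  constructor
  · rintro ⟨val, h0, hval⟩
    refine ⟨fun j => vecOf N.1 (row N.1 val j), ?_, fun e he => ?_⟩
    · show vecOf N.1 (row N.1 val 0) = vecOf N.1 x
      rw [vecOf_row]
      funext j
      rw [Nat.zero_mul, Nat.zero_add]
      exact h0 j j.2
    · funext m
      rw [KMem_sum_apply]
      refine Eq.trans ?_ (hval e he m m.2)
      congr 1
      refine List.map_congr_left fun t _ => ?_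
      rw [← vecOf_fmA N h t.1]
      rfl
  · rintro ⟨v, hv, hS⟩
    obtain ⟨val, hval⟩ := exists_rows (ppB φ) N.1 v
    refine ⟨val, fun m hm => ?_, fun e he m hm => ?_⟩
    · have h1 := hval 0 (KMem_ppB_pos φ) ⟨m, hm⟩
      rw [Nat.zero_mul, Nat.zero_add, hv] at h1
      exact h1
    · have h1 := congrFun (hS e he) ⟨m, hm⟩
      rw [KMem_sum_apply] at h1
      refine Eq.trans ?_ h1
      congr 1
      refine List.map_congr_left fun t ht => ?_
      have h2 : vecOf N.1 (row N.1 val t.2) = v t.2 := by
        rw [vecOf_row]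
        funext j
        exact hval t.2 (lt_ppB he ht) j
      rw [← h2, ← vecOf_fmA N h t.1]
      rfl

/-- linear algebra: a functional `lam` on `V` that kills `{v 0 : T v = 0}`, `T : (Fin m → V) → W`, is `mu (T (-))` on
vectors concentrated in `0`, for a `mu` with `mu (T (-)) = 0` on vectors vanishing in `0` -/
theorem factor_functional {V W : Type} [AddCommGroup V] [Module k V] [AddCommGroup W] [Module k W] (m : ℕ)
    (T : (Fin (m + 1) → V) →ₗ[k] W) (lam : V →ₗ[k] k) (h : ∀ v, T v = 0 → lam (v 0) = 0) :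
    ∃ mu : W →ₗ[k] k, ∀ v, mu (T v) = lam (v 0) := by
  have h1 : (lam ∘ₗ LinearMap.proj (0 : Fin (m + 1)) : (Fin (m + 1) → V) →ₗ[k] k) ∈
      (LinearMap.ker T).dualAnnihilator := by
    rw [Submodule.mem_dualAnnihilator]
    intro v hv
    exact h v hv
  rw [← LinearMap.range_dualMap_eq_dualAnnihilator_ker] at h1
  obtain ⟨mu, hmu⟩ := h1
  exact ⟨mu, fun v => LinearMap.congr_fun hmu v⟩

/-- the functional on vectors of the `i`-th row of `mu` -/
def KMem_nu (n : ℕ) (mu : List k) (i : ℕ) : (Fin n → k) →ₗ[k] k :=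
  ∑ m' : Fin n, ent mu (i * n + m') • LinearMap.proj m'

theorem KMem_nu_apply (n : ℕ) (mu : List k) (i : ℕ) (w : Fin n → k) :
    KMem_nu n mu i w = ∑ m' : Fin n, ent mu (i * n + m') * w m' := by
  unfold KMem_nu
  rw [LinearMap.sum_apply]
  rfl

theorem KMem_lin {n : ℕ} (f : (Fin n → k) →ₗ[k] k) (w : Fin n → k) :
    f w = ∑ m : Fin n, w m * f (Pi.single m 1) := by
  conv_lhs => rw [← Finset.univ_sum_single w]
  rw [map_sum]
  refine Finset.sum_congr rfl fun m _ => ?_
  have h : (Pi.single m (w m) : Fin n → k) = w m • Pi.single m 1 := by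
    rw [← Pi.single_smul, smul_eq_mul, mul_one]
  rw [h, map_smul, smul_eq_mul]

theorem KMem_expand {n : ℕ} (Q : QMod D k (Fin n → k)) (ν : (Fin n → k) →ₗ[k] k) (B : ℕ)
    (e : List (ElCode D k × ℕ)) (he : ∀ t ∈ e, t.2 < B) (v : ℕ → Fin n → k) :
    ν ((e.map fun t => Q.act t.1 (v t.2)).sum) = ∑ j ∈ Finset.range B, ∑ m : Fin n,
      v j m * (e.map fun t => if t.2 = j then ν (Q.act t.1 (Pi.single m 1)) else 0).sum := by
  induction e with
  | nil => simp
  | cons t e ih =>
    have h1 : ν (Q.act t.1 (v t.2)) = ∑ j ∈ Finset.range B, ∑ m : Fin n,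
        v j m * (if t.2 = j then ν (Q.act t.1 (Pi.single m 1)) else 0) := by
      rw [Finset.sum_eq_single t.2]
      · have h2 := KMem_lin (ν ∘ₗ KMem_actL Q t.1) (v t.2)
        simp only [LinearMap.comp_apply, KMem_actL_apply] at h2
        rw [h2]
        refine Finset.sum_congr rfl fun m _ => ?_
        rw [if_pos rfl]
      · intro j _ hj
        refine Finset.sum_eq_zero fun m _ => ?_
        rw [if_neg (Ne.symm hj), mul_zero]
      · intro h
        exact absurd (Finset.mem_range.2 (he t List.mem_cons_self)) h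
    rw [List.map_cons, List.sum_cons, map_add, ih fun s hs => he s (List.mem_cons_of_mem _ hs), h1,
      ← Finset.sum_add_distrib]
    refine Finset.sum_congr rfl fun j _ => ?_
    rw [← Finset.sum_add_distrib]
    refine Finset.sum_congr rfl fun m _ => ?_
    rw [List.map_cons, List.sum_cons, mul_add]

theorem KMem_getD (φ : PP D k) {i : ℕ} (hi : i < φ.length) : φ.getD i [] ∈ φ := by
  rw [List.getD_eq_getElem _ _ hi]
  exact List.getElem_mem hi

/-- the sum in `annC` -/
theorem KMem_annC_sum {N : ℕ × List k} (h : fmOk D N) (mu : List k) (e : List (ElCode D k × ℕ)) (i j : ℕ)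
    (m : Fin N.1) :
    (e.map fun t => if t.2 = j then
      ∑ m' ∈ Finset.range N.1, ent mu (i * N.1 + m') * ent (fmA N t.1 (unitV N.1 m)) m' else 0).sum =
    (e.map fun t => if t.2 = j then KMem_nu N.1 mu i ((fmQ N h).act t.1 (Pi.single m 1)) else 0).sum := by
  congr 1
  refine List.map_congr_left fun t _ => ?_
  by_cases hj : t.2 = j
  · rw [if_pos hj, if_pos hj, KMem_nu_apply, Finset.sum_range, ← vecOf_unitV, ← vecOf_fmA N h t.1]
    rfl
  · rw [if_neg hj, if_neg hj]

theorem annC_iff {N : ℕ × List k} (h : fmOk D N) (φ : PP D k) (lam : List k) :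
    annC N φ lam ↔ ∀ x ∈ (fmQ N h).pp φ, dotProduct (vecOf N.1 lam) x = 0 := by
  constructor
  · rintro ⟨mu, hmu⟩ x ⟨v, rfl, hS⟩
    have h1 : ∑ i ∈ Finset.range φ.length, KMem_nu N.1 mu i
        (((φ.getD i []).map fun t => (fmQ N h).act t.1 (v t.2)).sum) = 0 := by
      refine Finset.sum_eq_zero fun i hi => ?_
      rw [hS _ (KMem_getD φ (Finset.mem_range.1 hi)), map_zero]
    have h2 : ∑ i ∈ Finset.range φ.length, KMem_nu N.1 mu i
        (((φ.getD i []).map fun t => (fmQ N h).act t.1 (v t.2)).sum) =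
        ∑ j ∈ Finset.range (ppB φ), ∑ m : Fin N.1, v j m * (if j = 0 then ent lam m else 0) := by
      rw [Finset.sum_congr rfl fun i hi => KMem_expand (fmQ N h) (KMem_nu N.1 mu i) (ppB φ) _
        (fun t ht => lt_ppB (KMem_getD φ (Finset.mem_range.1 hi)) ht) v]
      rw [Finset.sum_comm]
      refine Finset.sum_congr rfl fun j hj => ?_
      rw [Finset.sum_comm]
      refine Finset.sum_congr rfl fun m _ => ?_
      rw [← Finset.mul_sum]
      congr 1
      rw [← hmu j (Finset.mem_range.1 hj) m m.2]
      refine Finset.sum_congr rfl fun i _ => ?_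
      exact (KMem_annC_sum h mu _ i j m).symm
    rw [h1, Finset.sum_eq_single 0] at h2
    · refine Eq.trans ?_ h2.symm
      unfold dotProduct
      refine Finset.sum_congr rfl fun m _ => ?_
      rw [if_pos rfl, mul_comm]
      rfl
    · intro j _ hj
      refine Finset.sum_eq_zero fun m _ => ?_
      rw [if_neg hj, mul_zero]
    · intro h0
      exact absurd (Finset.mem_range.2 (KMem_ppB_pos φ)) h0
  · intro hlam
    obtain ⟨b, hb⟩ : ∃ b, ppB φ = b + 1 := ⟨ppB φ - 1, by have := KMem_ppB_pos φ; omega⟩
    set Q := fmQ N h with hQ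
    -- extension of finite families by zero
    let ext : (Fin (b + 1) → Fin N.1 → k) → ℕ → Fin N.1 → k :=
      fun v j => if hj : j < b + 1 then v ⟨j, hj⟩ else 0
    let T : (Fin (b + 1) → Fin N.1 → k) →ₗ[k] (Fin φ.length → Fin N.1 → k) :=
      LinearMap.pi fun i => ((φ.getD i []).map fun t =>
        KMem_actL Q t.1 ∘ₗ (if hj : t.2 < b + 1 then LinearMap.proj (⟨t.2, hj⟩ : Fin (b + 1)) else 0)).sum
    have hT : ∀ v i, T v i = ((φ.getD i []).map fun t => Q.act t.1 (ext v t.2)).sum := by
      intro v i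
      show ((φ.getD i []).map fun t =>
        KMem_actL Q t.1 ∘ₗ (if hj : t.2 < b + 1 then LinearMap.proj (⟨t.2, hj⟩ : Fin (b + 1)) else 0)).sum v = _
      generalize φ.getD (i : ℕ) [] = e
      induction e with
      | nil => rfl
      | cons t e ih =>
        rw [List.map_cons, List.sum_cons, LinearMap.add_apply, ih, List.map_cons, List.sum_cons]
        congr 1
        rw [LinearMap.comp_apply, KMem_actL_apply]
        congr 1
        by_cases hj : t.2 < b + 1
        · simp only [ext, dif_pos hj, LinearMap.proj_apply]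
        · simp only [ext, dif_neg hj, LinearMap.zero_apply]
    let lamL : (Fin N.1 → k) →ₗ[k] k := KMem_nu N.1 lam 0
    have hlamL : ∀ x, lamL x = dotProduct (vecOf N.1 lam) x := by
      intro x
      show KMem_nu N.1 lam 0 x = _
      rw [KMem_nu_apply]
      unfold dotProduct
      refine Finset.sum_congr rfl fun m _ => ?_
      rw [Nat.zero_mul, Nat.zero_add]
      rfl
    obtain ⟨mu', hmu'⟩ := factor_functional b T lamL fun v hv => by
      rw [hlamL]
      refine hlam _ ⟨ext v, ?_, fun e he => ?_⟩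
      · show (if hj : 0 < b + 1 then v ⟨0, hj⟩ else 0) = v 0
        rw [dif_pos (Nat.succ_pos b)]
        rfl
      · obtain ⟨i, hi, rfl⟩ := List.getElem_of_mem he
        have h1 := congrFun hv ⟨i, hi⟩
        rw [hT] at h1
        have h2 : φ.getD i [] = φ[i] := List.getD_eq_getElem _ _ hi
        rw [← h2]
        exact h1
    obtain ⟨mu, hmu⟩ := exists_rows φ.length N.1 (fun i m' =>
      if hi : i < φ.length then mu' (Pi.single ⟨i, hi⟩ (Pi.single m' 1)) else 0)
    refine ⟨mu, fun j hj m hm => ?_⟩
    -- `mu'` in terms of `mu`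
    have h3 : ∀ w : Fin φ.length → Fin N.1 → k, mu' w = ∑ i : Fin φ.length, KMem_nu N.1 mu i (w i) := by
      intro w
      conv_lhs => rw [← Finset.univ_sum_single w]
      rw [map_sum]
      refine Finset.sum_congr rfl fun i _ => ?_
      have h4 := KMem_lin (mu' ∘ₗ LinearMap.single k (fun _ : Fin φ.length => Fin N.1 → k) i) (w i)
      rw [LinearMap.comp_apply] at h4
      refine h4.trans ?_
      rw [KMem_nu_apply]
      refine Finset.sum_congr rfl fun m' _ => ?_
      rw [hmu i i.2 m', dif_pos i.2, mul_comm]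
      rfl
    rw [hb] at hj
    have h5 := hmu' (Pi.single ⟨j, hj⟩ (Pi.single ⟨m, hm⟩ 1))
    rw [h3] at h5
    have h6 : lamL ((Pi.single (⟨j, hj⟩ : Fin (b + 1)) (Pi.single (⟨m, hm⟩ : Fin N.1) (1 : k)) :
        Fin (b + 1) → Fin N.1 → k) 0) = if j = 0 then ent lam m else 0 := by
      by_cases hj0 : j = 0
      · subst hj0
        rw [if_pos rfl]
        have h7 : (Pi.single (⟨0, hj⟩ : Fin (b + 1)) (Pi.single (⟨m, hm⟩ : Fin N.1) (1 : k)) :
            Fin (b + 1) → Fin N.1 → k) 0 = Pi.single (⟨m, hm⟩ : Fin N.1) (1 : k) :=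
          Pi.single_eq_same (M := fun _ : Fin (b + 1) => Fin N.1 → k) 0 _
        rw [h7, hlamL, dotProduct_single, mul_one]
        rfl
      · rw [if_neg hj0, Pi.single_eq_of_ne, map_zero]
        intro h8
        exact hj0 (congrArg Fin.val h8).symm
    rw [← h6, ← h5, Finset.sum_range]
    refine Finset.sum_congr rfl fun i _ => ?_
    refine (KMem_annC_sum h mu _ i j ⟨m, hm⟩).trans ?_
    rw [hT]
    have h9 : ∀ e : List (ElCode D k × ℕ),
        KMem_nu N.1 mu i ((e.map fun t => Q.act t.1
          (ext (Pi.single ⟨j, hj⟩ (Pi.single ⟨m, hm⟩ 1)) t.2)).sum) =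
        (e.map fun t => if t.2 = j then KMem_nu N.1 mu i (Q.act t.1 (Pi.single ⟨m, hm⟩ 1)) else 0).sum := by
      intro e
      induction e with
      | nil => exact map_zero _
      | cons t e ih =>
        rw [List.map_cons, List.sum_cons, map_add, ih, List.map_cons, List.sum_cons]
        congr 1
        by_cases htj : t.2 = j
        · rw [if_pos htj]
          congr 2
          show (if hj' : t.2 < b + 1 then
            (Pi.single (⟨j, hj⟩ : Fin (b + 1)) (Pi.single ⟨m, hm⟩ 1) : Fin (b + 1) → Fin N.1 → k) ⟨t.2, hj'⟩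
            else 0) = _
          subst htj
          rw [dif_pos hj]
          exact Pi.single_eq_same (M := fun _ : Fin (b + 1) => Fin N.1 → k) _ _
        · rw [if_neg htj]
          have h10 : ext (Pi.single ⟨j, hj⟩ (Pi.single ⟨m, hm⟩ 1)) t.2 = 0 := by
            show (if hj' : t.2 < b + 1 then
              (Pi.single (⟨j, hj⟩ : Fin (b + 1)) (Pi.single ⟨m, hm⟩ 1) : Fin (b + 1) → Fin N.1 → k) ⟨t.2, hj'⟩
              else 0) = _
            split_ifs with hj'
            · rw [Pi.single_eq_of_ne]
              intro h8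
              exact htj (congrArg Fin.val h8)
            · rfl
          rw [h10, ← KMem_actL_apply, map_zero, map_zero]
    exact (h9 _).symm

end StrAlg
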