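import Pool.Agent.Lib.MP_b9fd58_lc.IfDefs

/-!
# Stream K: rank zero, direct sums
-/

set_option autoImplicit false

namespace StrAlg

open Module

section aux
variable {D : Dat} {k : Type} [Field k] {N : Type} [AddCommGroup N] [Module k N]

theorem KRank_word_add (Q : QMod D k N) (w : List D.Gen) (m n : N) :
    Q.word w (m + n) = Q.word w m + Q.word w n := by
  induction w generalizing m n with
  | nil => rfl
  | cons g w ih =>
    show Q.word w (Q.op g (m + n)) = _
    rw [map_add, ih]
    rfl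

theorem KRank_word_smul (Q : QMod D k N) (w : List D.Gen) (a : k) (n : N) :
    Q.word w (a • n) = a • Q.word w n := by
  induction w generalizing n with
  | nil => rfl
  | cons g w ih =>
    show Q.word w (Q.op g (a • n)) = _
    rw [map_smul, ih]
    rfl

theorem KRank_act_cons (Q : QMod D k N) (t : k × List D.Gen) (c : ElCode D k) (n : N) :
    Q.act (t :: c) n = t.1 • Q.word t.2 n + Q.act c n := rfl

theorem KRank_act_add (Q : QMod D k N) (c : ElCode D k) (m n : N) :
    Q.act c (m + n) = Q.act c m + Q.act c n := by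
  induction c with
  | nil => exact (add_zero _).symm
  | cons t c ih =>
    rw [KRank_act_cons, KRank_act_cons, KRank_act_cons, ih, KRank_word_add, smul_add]
    abel

theorem KRank_act_smul (Q : QMod D k N) (c : ElCode D k) (a : k) (n : N) :
    Q.act c (a • n) = a • Q.act c n := by
  induction c with
  | nil => exact (smul_zero _).symm
  | cons t c ih =>
    rw [KRank_act_cons, KRank_act_cons, ih, KRank_word_smul, smul_add, smul_comm]

theorem KRank_sys_add (Q : QMod D k N) (S : PP D k) {v w : ℕ → N} (hv : Q.Sys S v) (hw : Q.Sys S w) :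
    Q.Sys S (fun i => v i + w i) := by
  intro e he
  have key : ∀ e : List (ElCode D k × ℕ), (e.map (fun t => Q.act t.1 (v t.2 + w t.2))).sum =
      (e.map (fun t => Q.act t.1 (v t.2))).sum + (e.map (fun t => Q.act t.1 (w t.2))).sum := by
    intro e
    induction e with
    | nil => exact (add_zero _).symm
    | cons t e ih =>
      rw [List.map_cons, List.map_cons, List.map_cons, List.sum_cons, List.sum_cons, List.sum_cons, ih,
        KRank_act_add]
      abel
  rw [key, hv e he, hw e he, add_zero]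

theorem KRank_sys_smul (Q : QMod D k N) (S : PP D k) (a : k) {v : ℕ → N} (hv : Q.Sys S v) :
    Q.Sys S (fun i => a • v i) := by
  intro e he
  have key : ∀ e : List (ElCode D k × ℕ), (e.map (fun t => Q.act t.1 (a • v t.2))).sum =
      a • (e.map (fun t => Q.act t.1 (v t.2))).sum := by
    intro e
    induction e with
    | nil => exact (smul_zero _).symm
    | cons t e ih =>
      rw [List.map_cons, List.map_cons, List.sum_cons, List.sum_cons, ih, KRank_act_smul, smul_add]
  rw [key, hv e he, smul_zero]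

theorem KRank_sys_zero (Q : QMod D k N) (S : PP D k) : Q.Sys S (fun _ => 0) := by
  intro e he
  have key : ∀ e : List (ElCode D k × ℕ), (e.map (fun t => Q.act t.1 (0 : N))).sum = 0 := by
    intro e
    induction e with
    | nil => rfl
    | cons t e ih =>
      have h := KRank_act_smul Q t.1 0 (0 : N)
      rw [zero_smul, zero_smul] at h
      rw [List.map_cons, List.sum_cons, ih, h, add_zero]
  exact key e

/-- the set defined by a pp-formula is a subspace -/
theorem KRank_mem_ppS (Q : QMod D k N) (S : PP D k) (x : N) : x ∈ Q.ppS S ↔ x ∈ Q.pp S := by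
  have h1 : Q.ppS S ≤
      { carrier := Q.pp S
        add_mem' := by
          rintro a b ⟨v, hv, hS⟩ ⟨w, hw, hT⟩
          exact ⟨fun i => v i + w i, congrArg₂ (· + ·) hv hw, KRank_sys_add Q S hS hT⟩
        zero_mem' := ⟨fun _ => 0, rfl, KRank_sys_zero Q S⟩
        smul_mem' := by
          rintro a b ⟨v, hv, hS⟩
          exact ⟨fun i => a • v i, congrArg (a • ·) hv, KRank_sys_smul Q S a hS⟩ } :=
    Submodule.span_le.2 fun x hx => hx
  exact ⟨fun h => h1 h, fun h => Submodule.subset_span h⟩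

theorem KRank_rank_iff (Q : QMod D k N) (φ ψ : PP D k) : Q.rank φ ψ = 0 ↔ Q.pp φ ⊆ Q.pp ψ := by
  unfold QMod.rank
  rw [Cardinal.toENat_eq_zero, rank_zero_iff, Submodule.Quotient.subsingleton_iff,
    Submodule.comap_subtype_eq_top]
  constructor
  · intro h x hx
    exact (KRank_mem_ppS Q ψ x).1 (h ((KRank_mem_ppS Q φ x).2 hx))
  · intro h x hx
    exact (KRank_mem_ppS Q ψ x).2 (h ((KRank_mem_ppS Q φ x).1 hx))

variable {M : Type} [AddCommGroup M] [Module k M]

theorem KRank_word_prod (P : QMod D k M) (Q : QMod D k N) (w : List D.Gen) (n : M × N) :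
    (P.prod Q).word w n = (P.word w n.1, Q.word w n.2) := by
  induction w generalizing n with
  | nil => rfl
  | cons g w ih =>
    show (P.prod Q).word w ((P.prod Q).op g n) = _
    rw [ih]
    rfl

theorem KRank_act_prod (P : QMod D k M) (Q : QMod D k N) (c : ElCode D k) (n : M × N) :
    (P.prod Q).act c n = (P.act c n.1, Q.act c n.2) := by
  induction c with
  | nil => rfl
  | cons t c ih =>
    rw [KRank_act_cons, KRank_act_cons, KRank_act_cons, ih, KRank_word_prod]
    rfl

theorem KRank_sys_prod (P : QMod D k M) (Q : QMod D k N) (S : PP D k) (v : ℕ → M × N) :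
    (P.prod Q).Sys S v ↔ P.Sys S (fun i => (v i).1) ∧ Q.Sys S (fun i => (v i).2) := by
  have key : ∀ e : List (ElCode D k × ℕ), (e.map (fun t => (P.prod Q).act t.1 (v t.2))).sum =
      ((e.map (fun t => P.act t.1 (v t.2).1)).sum, (e.map (fun t => Q.act t.1 (v t.2).2)).sum) := by
    intro e
    induction e with
    | nil => rfl
    | cons t e ih =>
      rw [List.map_cons, List.sum_cons, ih, KRank_act_prod]
      rfl
  unfold QMod.Sys
  constructor
  · intro h
    refine ⟨fun e he => ?_, fun e he => ?_⟩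
    · have h1 := h e he
      rw [key] at h1
      exact congrArg Prod.fst h1
    · have h1 := h e he
      rw [key] at h1
      exact congrArg Prod.snd h1
  · rintro ⟨h1, h2⟩ e he
    rw [key, h1 e he, h2 e he]
    rfl

theorem KRank_pp_prod (P : QMod D k M) (Q : QMod D k N) (S : PP D k) (x : M × N) :
    x ∈ (P.prod Q).pp S ↔ x.1 ∈ P.pp S ∧ x.2 ∈ Q.pp S := by
  constructor
  · rintro ⟨v, hv, hS⟩
    rw [KRank_sys_prod] at hS
    exact ⟨⟨fun i => (v i).1, by rw [← hv], hS.1⟩, ⟨fun i => (v i).2, by rw [← hv], hS.2⟩⟩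
  · rintro ⟨⟨v, hv, hS⟩, ⟨w, hw, hT⟩⟩
    refine ⟨fun i => (v i, w i), ?_, (KRank_sys_prod P Q S _).2 ⟨hS, hT⟩⟩
    show (v 0, w 0) = x
    rw [hv, hw]

end aux

/-- the zero module -/
def KRank_zero (D : Dat) (k : Type) [Field k] : Md D k where
  C := PUnit
  Q :=
    { op := fun _ => 0
      idem := fun _ _ => Subsingleton.elim _ _
      orth := fun _ _ _ _ => Subsingleton.elim _ _
      one := fun _ => Subsingleton.elim _ _
      src := fun _ _ => Subsingleton.elim _ _
      tgt := fun _ _ => Subsingleton.elim _ _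
      rel := fun _ _ _ => Subsingleton.elim _ _ }

/-- rank zero = closed -/
theorem rank_zero_iff_opn {D : Dat} {k : Type} [Field k] (φ ψ : PP D k) (p : Pr D k) (N : Md D k)
    (h1 : N.Q.pp φ = p.up N) (h2 : N.Q.pp ψ = p.dn N) : N.Q.rank φ ψ = 0 ↔ ¬ p.Opn N := by
  rw [KRank_rank_iff, h1, h2]
  constructor
  · rintro h ⟨f, G, hf, hG, hb⟩
    exact hb (h ⟨f, hf, rfl⟩ G hG)
  · rintro h x ⟨f, hf, rfl⟩ G hG
    by_contra hb
    exact h ⟨f, G, hf, hG, hb⟩

/-- finite direct sums realise finitely many open conditions -/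
theorem exists_sum {D : Dat} {k : Type} [Field k] (os cs : List (PP D k × PP D k))
    (h : ∀ q ∈ os, ∃ N : Md D k, N.Q.rank q.1 q.2 ≠ 0 ∧ ∀ p ∈ cs, N.Q.rank p.1 p.2 = 0) :
    ∃ N : Md D k, (∀ q ∈ os, N.Q.rank q.1 q.2 ≠ 0) ∧ ∀ p ∈ cs, N.Q.rank p.1 p.2 = 0 := by
  induction os with
  | nil =>
    refine ⟨KRank_zero D k, fun q hq => absurd hq List.not_mem_nil, fun p _ => ?_⟩
    rw [KRank_rank_iff]
    intro x _
    have hx : x = 0 := Subsingleton.elim (α := PUnit) _ _
    rw [hx]
    exact ⟨fun _ => 0, rfl, KRank_sys_zero _ _⟩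
  | cons q os ih =>
    obtain ⟨N₂, h3, h4⟩ := ih fun r hr => h r (List.mem_cons_of_mem _ hr)
    obtain ⟨N₁, h1, h2⟩ := h q List.mem_cons_self
    refine ⟨N₁.prod N₂, fun r hr => ?_, fun p hp => ?_⟩
    · rcases List.mem_cons.1 hr with rfl | hr
      · intro h0
        apply h1
        rw [KRank_rank_iff] at h0 ⊢
        intro x hx
        have hx2 : ((x, 0) : N₁.C × N₂.C) ∈ (N₁.Q.prod N₂.Q).pp r.1 :=
          (KRank_pp_prod _ _ _ _).2 ⟨hx, ⟨fun _ => 0, rfl, KRank_sys_zero _ _⟩⟩
        exact ((KRank_pp_prod _ _ _ _).1 (h0 hx2)).1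
      · intro h0
        apply h3 r hr
        rw [KRank_rank_iff] at h0 ⊢
        intro x hx
        have hx2 : ((0, x) : N₁.C × N₂.C) ∈ (N₁.Q.prod N₂.Q).pp r.1 :=
          (KRank_pp_prod _ _ _ _).2 ⟨⟨fun _ => 0, rfl, KRank_sys_zero _ _⟩, hx⟩
        exact ((KRank_pp_prod _ _ _ _).1 (h0 hx2)).2
    · have h5 := h2 p hp
      have h6 := h4 p hp
      rw [KRank_rank_iff] at h5 h6 ⊢
      intro x hx
      have h7 := (KRank_pp_prod N₁.Q N₂.Q p.1 x).1 hx
      exact (KRank_pp_prod N₁.Q N₂.Q p.2 x).2 ⟨h5 h7.1, h6 h7.2⟩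

end StrAlg
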