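import Pool.Agent.Lib.MP_b9fd58_lc.K2Defs
import Pool.Agent.Lib.MP_b9fd58_lc.KMem
import Pool.Agent.Lib.MP_b9fd58_lc.KRank

/-!
# Stream K2: ranks on coded finite-dimensional modules
-/

set_option autoImplicit false

namespace StrAlg

open Module

variable {D : Dat} {k : Type} [Field k]

/-- `n ≤ rank` through vectors and functionals -/
theorem K2Fa_rank {V : Type} [AddCommGroup V] [Module k V] (Q : QMod D k V) (φ ψ : PP D k) (n : ℕ) :
    (∃ (x : ℕ → V) (lam : ℕ → (V →ₗ[k] k)), (∀ i < n, x i ∈ Q.pp φ) ∧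
      (∀ i < n, ∀ y ∈ Q.pp ψ, lam i y = 0) ∧
      ∀ i < n, ∀ j < n, lam i (x j) = if i = j then 1 else 0) ↔ (n : ℕ∞) ≤ Q.rank φ ψ := by
  unfold QMod.rank
  rw [Cardinal.natCast_le_toENat]
  set P := Q.ppS φ with hP
  set K := (Q.ppS ψ).comap P.subtype with hK
  constructor
  · rintro ⟨x, lam, hx, hlam, hd⟩
    have hxP : ∀ i : Fin n, x i ∈ P := fun i => (KRank_mem_ppS Q φ (x i)).2 (hx i i.2)
    let f : Fin n → (P ⧸ K) := fun i => K.mkQ ⟨x i, hxP i⟩
    have hf : LinearIndependent k f := by
      rw [Fintype.linearIndependent_iff]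
      intro g hg i
      have h2 : K.mkQ (∑ j, g j • (⟨x j, hxP j⟩ : P)) = 0 := by
        rw [map_sum]
        simp only [map_smul]
        exact hg
      rw [Submodule.mkQ_apply, Submodule.Quotient.mk_eq_zero, hK, Submodule.mem_comap, map_sum] at h2
      have h3 := hlam i i.2 _ ((KRank_mem_ppS Q ψ _).1 h2)
      rw [map_sum] at h3
      have h4 : ∑ j : Fin n, lam i (P.subtype (g j • (⟨x j, hxP j⟩ : P))) = g i := by
        rw [Finset.sum_eq_single i]
        · show lam i (g i • x i) = g i
          rw [map_smul, hd i i.2 i i.2, if_pos rfl, smul_eq_mul, mul_one]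
        · intro j _ hji
          show lam i (g j • x j) = 0
          rw [map_smul, hd i i.2 j j.2, if_neg (fun h => hji (Fin.ext h.symm)), smul_zero]
        · intro h
          exact absurd (Finset.mem_univ i) h
      rw [← h4]
      exact h3
    have := hf.cardinal_le_rank
    rwa [Cardinal.mk_fin] at this
  · intro h
    rw [le_rank_iff_exists_linearIndependent_finset] at h
    obtain ⟨s, hs, hind⟩ := h
    have e : Fin n ≃ s := (Fintype.equivFinOfCardEq (by rw [Fintype.card_coe]; exact hs)).symm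
    have hf : LinearIndependent k (fun i : Fin n => (e i : P ⧸ K)) := hind.comp e e.injective
    choose u hu using fun i : Fin n => K.mkQ_surjective (e i : P ⧸ K)
    have hw : LinearIndependent k (fun i : Fin n => (Q.ppS ψ).mkQ (u i : V)) := by
      rw [Fintype.linearIndependent_iff] at hf ⊢
      intro g hg i
      refine hf g ?_ i
      have h1 : ∑ j : Fin n, g j • (e j : P ⧸ K) = K.mkQ (∑ j : Fin n, g j • u j) := by
        rw [map_sum]
        refine Finset.sum_congr rfl fun j _ => ?_
        rw [map_smul, hu j]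
      rw [h1, Submodule.mkQ_apply, Submodule.Quotient.mk_eq_zero, hK, Submodule.mem_comap, map_sum]
      have h2 : (Q.ppS ψ).mkQ (∑ j : Fin n, g j • (u j : V)) = 0 := by
        rw [map_sum]
        simp only [map_smul]
        exact hg
      rw [Submodule.mkQ_apply, Submodule.Quotient.mk_eq_zero] at h2
      exact h2
    rw [linearIndependent_iff_injective_fintypeLinearCombination] at hw
    obtain ⟨g, hg⟩ := LinearMap.exists_leftInverse_of_injective _ (LinearMap.ker_eq_bot.2 hw)
    refine ⟨fun i => if h : i < n then (u ⟨i, h⟩ : V) else 0,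
      fun i => if h : i < n then (LinearMap.proj (⟨i, h⟩ : Fin n) ∘ₗ g) ∘ₗ (Q.ppS ψ).mkQ else 0,
      ?_, ?_, ?_⟩
    · intro i hi
      simp only [hi, dif_pos]
      exact (KRank_mem_ppS Q φ _).1 (u ⟨i, hi⟩).2
    · intro i hi y hy
      simp only [hi, dif_pos]
      have h1 : (Q.ppS ψ).mkQ y = 0 := by
        rw [Submodule.mkQ_apply, Submodule.Quotient.mk_eq_zero]
        exact (KRank_mem_ppS Q ψ y).2 hy
      rw [LinearMap.comp_apply, h1, map_zero]
    · intro i hi j hj
      simp only [hi, hj, dif_pos]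
      have h1 : (Q.ppS ψ).mkQ (u ⟨j, hj⟩ : V) =
          Fintype.linearCombination k (fun i : Fin n => (Q.ppS ψ).mkQ (u i : V))
            (Pi.single ⟨j, hj⟩ 1) := by
        rw [Fintype.linearCombination_apply_single, one_smul]
      have h2 := LinearMap.congr_fun hg (Pi.single (⟨j, hj⟩ : Fin n) (1 : k))
      rw [LinearMap.comp_apply, LinearMap.id_apply] at h2
      rw [LinearMap.comp_apply, LinearMap.comp_apply, h1, h2, LinearMap.proj_apply, Pi.single_apply]
      by_cases hij : i = j
      · subst hij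
        rw [if_pos rfl, if_pos rfl]
      · rw [if_neg hij, if_neg (fun h3 => hij (congrArg Fin.val h3))]

/-- `n ≤ dim φ/(φ ∩ ψ)` iff there are `x_1, …, x_n ∈ φ(N)` and functionals `λ_1, …, λ_n` that kill `ψ(N)` with `λ_i(x_j) = δ_ij`.
(`memC_iff`, `annC_iff`; `(fmQ N h).ppS φ` is the subspace with the elements `(fmQ N h).pp φ`.) -/
theorem fGe_iff {N : ℕ × List k} (h : fmOk D N) (φ ψ : PP D k) (n : ℕ) :
    fGe N φ ψ n ↔ (n : ℕ∞) ≤ (fmQ N h).rank φ ψ := by
  rw [← K2Fa_rank]
  constructor
  · rintro ⟨X, L, hX, hL, hd⟩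
    refine ⟨fun i => vecOf N.1 (row N.1 X i), fun i => KMem_nu N.1 L i, ?_, ?_, ?_⟩
    · intro i hi
      exact (memC_iff h φ _).1 (hX i hi)
    · intro i hi y hy
      have h1 := (annC_iff h ψ _).1 (hL i hi) y hy
      rw [KMem_nu_apply]
      rw [vecOf_row] at h1
      exact h1
    · intro i hi j hj
      rw [← hd i hi j hj, Finset.sum_range, KMem_nu_apply]
      refine Finset.sum_congr rfl fun m _ => ?_
      show _ * vecOf N.1 (row N.1 X j) m = _
      rw [vecOf_row]
  · rintro ⟨x, lam, hx, hlam, hd⟩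
    obtain ⟨X, hX⟩ := exists_rows n N.1 x
    obtain ⟨L, hL⟩ := exists_rows n N.1 (fun i m => lam i (Pi.single m 1))
    have hXi : ∀ i < n, vecOf N.1 (row N.1 X i) = x i := by
      intro i hi
      rw [vecOf_row]
      funext j
      exact hX i hi j
    have hLi : ∀ i < n, ∀ y : Fin N.1 → k, dotProduct (vecOf N.1 (row N.1 L i)) y = lam i y := by
      intro i hi y
      rw [vecOf_row, KMem_lin (lam i) y]
      unfold dotProduct
      refine Finset.sum_congr rfl fun m _ => ?_
      show ent L (i * N.1 + m) * y m = _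
      rw [hL i hi m, mul_comm]
    refine ⟨X, L, ?_, ?_, ?_⟩
    · intro i hi
      rw [memC_iff h, hXi i hi]
      exact hx i hi
    · intro i hi
      rw [annC_iff h]
      intro y hy
      rw [hLi i hi y]
      exact hlam i hi y hy
    · intro i hi j hj
      rw [← hd i hi j hj, ← hLi i hi (x j), ← hXi j hj, Finset.sum_range, vecOf_row, vecOf_row]
      rfl

end StrAlg
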