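import Pool.Agent.Lib.MP_b9fd58_lc.K2Defs
import Pool.Agent.Lib.MP_b9fd58_lc.KMem

/-!
# Stream K2: ranks on coded finite-dimensional modules
-/

set_option autoImplicit false

namespace StrAlg

open Module

variable {D : Dat} {k : Type} [Field k]

/-- the linear combination of the equation `e` -/
def K2Fb_eqL {N : Type} [AddCommGroup N] [Module k N] (Q : QMod D k N) (e : List (ElCode D k × ℕ)) :
    (ℕ → N) →ₗ[k] N :=
  (e.map fun t => KMem_actL Q t.1 ∘ₗ LinearMap.proj t.2).sum

theorem K2Fb_eqL_apply {N : Type} [AddCommGroup N] [Module k N] (Q : QMod D k N)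
    (e : List (ElCode D k × ℕ)) (v : ℕ → N) :
    K2Fb_eqL Q e v = (e.map (fun t => Q.act t.1 (v t.2))).sum := by
  unfold K2Fb_eqL
  induction e with
  | nil => rfl
  | cons t e ih =>
    rw [List.map_cons, List.sum_cons, LinearMap.add_apply, ih, List.map_cons, List.sum_cons,
      LinearMap.comp_apply, KMem_actL_apply]
    rfl

theorem K2Fb_sys {N : Type} [AddCommGroup N] [Module k N] (Q : QMod D k N) (S : PP D k) (v : ℕ → N) :
    Q.Sys S v ↔ ∀ e ∈ S, K2Fb_eqL Q e v = 0 := by
  unfold QMod.Sys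
  refine forall_congr' fun e => forall_congr' fun _ => ?_
  rw [K2Fb_eqL_apply]

theorem K2Fb_sub {N : Type} [AddCommGroup N] [Module k N] (Q : QMod D k N) (φ : PP D k) :
    ∃ U : Submodule k N, (U : Set N) = Q.pp φ := by
  refine ⟨{ carrier := Q.pp φ, add_mem' := ?_, zero_mem' := ?_, smul_mem' := ?_ }, rfl⟩
  · rintro _ _ ⟨v, rfl, hv⟩ ⟨w, rfl, hw⟩
    rw [K2Fb_sys] at hv hw
    refine ⟨v + w, rfl, ?_⟩
    rw [K2Fb_sys]
    intro e he
    rw [map_add, hv e he, hw e he, add_zero]
  · refine ⟨0, rfl, ?_⟩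
    rw [K2Fb_sys]
    intro e _
    exact map_zero _
  · rintro c _ ⟨v, rfl, hv⟩
    rw [K2Fb_sys] at hv
    refine ⟨c • v, rfl, ?_⟩
    rw [K2Fb_sys]
    intro e he
    rw [map_smul, hv e he, smul_zero]

theorem K2Fb_mem {N : Type} [AddCommGroup N] [Module k N] (Q : QMod D k N) (φ : PP D k) (x : N) :
    x ∈ Q.ppS φ ↔ x ∈ Q.pp φ := by
  obtain ⟨U, hU⟩ := K2Fb_sub Q φ
  unfold QMod.ppS
  rw [← hU, Submodule.span_eq]
  rfl

theorem K2Fb_rank_le {V : Type} [AddCommGroup V] [Module k V] [FiniteDimensional k V] (U W : Submodule k V)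
    (n : ℕ) : Cardinal.toENat (Module.rank k (U ⧸ (W.comap U.subtype))) ≤ (n : ℕ∞) ↔
      finrank k (U ⧸ (W.comap U.subtype)) ≤ n := by
  rw [← Module.finrank_eq_rank, Cardinal.toENat_nat, Nat.cast_le]

theorem K2Fb_lin {m n : ℕ} (f : (Fin m → k) →ₗ[k] (Fin n → k)) (x : Fin m → k) (i : Fin n) :
    f x i = ∑ j, x j * f (Pi.single j 1) i := by
  have h3 : x = ∑ j : Fin m, x j • (Pi.single j (1 : k) : Fin m → k) := by
    funext j
    rw [Finset.sum_apply]
    simp [Pi.single_apply]
  conv_lhs => rw [h3]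
  rw [map_sum, Finset.sum_apply]
  refine Finset.sum_congr rfl fun j _ => ?_
  rw [map_smul, Pi.smul_apply, smul_eq_mul]

/-- the linear algebra of the certificate -/
theorem K2Fb_alg {d : ℕ} (U W : Submodule k (Fin d → k)) (n : ℕ) :
    finrank k (U ⧸ (W.comap U.subtype)) ≤ n ↔
      ∃ (P : (Fin d → k) →ₗ[k] (Fin d → k)) (F : (Fin d → k) →ₗ[k] (Fin n → k))
        (E : (Fin n → k) →ₗ[k] (Fin d → k)), (∀ x, P x ∈ W) ∧ ∀ x ∈ U, x = P x + E (F x) := by
  constructor
  · intro hn
    obtain ⟨g, hg⟩ := LinearMap.exists_leftInverse_of_injective U.subtype (Submodule.ker_subtype U)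
    let W' := W.comap U.subtype
    obtain ⟨s, hs⟩ := LinearMap.exists_rightInverse_of_surjective W'.mkQ (Submodule.range_mkQ W')
    obtain ⟨j, r, hr⟩ : ∃ (j : (U ⧸ W') →ₗ[k] (Fin n → k)) (r : (Fin n → k) →ₗ[k] (U ⧸ W')),
        r ∘ₗ j = LinearMap.id := by
      let b := Module.finBasis k (U ⧸ W')
      refine ⟨Function.ExtendByZero.linearMap k (Fin.castLE hn) ∘ₗ b.equivFun.toLinearMap,
        b.equivFun.symm.toLinearMap ∘ₗ LinearMap.funLeft k k (Fin.castLE hn), ?_⟩
      refine LinearMap.ext fun x => ?_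
      have h1 : LinearMap.funLeft k k (Fin.castLE hn)
          (Function.ExtendByZero.linearMap k (Fin.castLE hn) (b.equivFun x)) = b.equivFun x := by
        funext i
        exact (Fin.castLE_injective hn).extend_apply _ _ _
      simp only [LinearMap.comp_apply, LinearEquiv.coe_coe, LinearMap.id_apply]
      rw [h1, LinearEquiv.symm_apply_apply]
    refine ⟨U.subtype ∘ₗ (LinearMap.id - s ∘ₗ W'.mkQ) ∘ₗ g, j ∘ₗ W'.mkQ ∘ₗ g, U.subtype ∘ₗ s ∘ₗ r,
      fun x => ?_, fun x hx => ?_⟩
    · have h1 : (LinearMap.id - s ∘ₗ W'.mkQ : U →ₗ[k] U) (g x) ∈ W' := by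
        refine (Submodule.Quotient.mk_eq_zero W').1 ?_
        change W'.mkQ _ = 0
        rw [LinearMap.sub_apply, map_sub, LinearMap.id_apply, LinearMap.comp_apply]
        have := LinearMap.congr_fun hs (W'.mkQ (g x))
        rw [LinearMap.comp_apply, LinearMap.id_apply] at this
        rw [this, sub_self]
      exact h1
    · have h2 : g x = ⟨x, hx⟩ := LinearMap.congr_fun hg ⟨x, hx⟩
      have h3 : r (j (W'.mkQ (g x))) = W'.mkQ (g x) := LinearMap.congr_fun hr _
      simp only [LinearMap.comp_apply, LinearMap.sub_apply, LinearMap.id_apply]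
      rw [h3, ← map_add, sub_add_cancel, h2]
      rfl
  · rintro ⟨P, F, E, hP, hU⟩
    let f : U →ₗ[k] (Fin n → k) := F ∘ₗ U.subtype
    have hk : LinearMap.ker f ≤ W.comap U.subtype := by
      intro x hx
      have hx2 : F (x : Fin d → k) = 0 := hx
      have h1 := hU x x.2
      rw [hx2, map_zero, add_zero] at h1
      rw [Submodule.mem_comap, Submodule.subtype_apply, h1]
      exact hP _
    have h1 := Submodule.finrank_mono hk
    have h2 := Submodule.finrank_quotient_add_finrank (W.comap U.subtype)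
    have h3 := LinearMap.finrank_range_add_finrank_ker f
    have h4 : finrank k (LinearMap.range f) ≤ n := by
      have := Submodule.finrank_le (LinearMap.range f)
      rwa [finrank_fin_fun] at this
    omega

theorem K2Fb_dot {d n : ℕ} (P F E : List k) (i : Fin d) (x : Fin d → k) :
    dotProduct (vecOf d ((List.range d).map fun m => (if m = (i : ℕ) then 1 else 0) - ent P (m * d + i) -
      ∑ l ∈ Finset.range n, ent F (m * n + l) * ent E (l * d + i))) x =
      x i - ∑ m : Fin d, x m * ent P (m * d + i) -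
        ∑ l : Fin n, (∑ m : Fin d, x m * ent F (m * n + l)) * ent E (l * d + i) := by
  rw [vecOf_map_range]
  unfold dotProduct
  simp only [sub_mul, Finset.sum_sub_distrib]
  congr 1
  · congr 1
    · rw [Finset.sum_eq_single i]
      · simp
      · intro b _ hb
        have : (b : ℕ) ≠ (i : ℕ) := fun h2 => hb (Fin.ext h2)
        simp [this]
      · intro hb
        exact absurd (Finset.mem_univ i) hb
    · refine Finset.sum_congr rfl fun m _ => ?_
      rw [mul_comm]
  · simp only [Finset.sum_mul]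
    rw [Finset.sum_comm, Finset.sum_range]
    refine Finset.sum_congr rfl fun l _ => Finset.sum_congr rfl fun m _ => ?_
    ring

/-- `dim φ/(φ ∩ ψ) ≤ n` iff there are a linear map `P` with values in `ψ(N)` and a linear map of rank at most `n` (`F E`) with
`x = x P + x F E` for all `x ∈ φ(N)`. -/
theorem fLe_iff {N : ℕ × List k} (h : fmOk D N) (φ ψ : PP D k) (n : ℕ) :
    fLe N φ ψ n ↔ (fmQ N h).rank φ ψ ≤ (n : ℕ∞) := by
  unfold QMod.rank
  rw [K2Fb_rank_le, K2Fb_alg]
  constructor
  · rintro ⟨P, F, E, hP, hU⟩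
    refine ⟨Matrix.vecMulLinear (Matrix.of fun (m i : Fin N.1) => ent P (m * N.1 + i)),
      Matrix.vecMulLinear (Matrix.of fun (m : Fin N.1) (l : Fin n) => ent F (m * n + l)),
      Matrix.vecMulLinear (Matrix.of fun (l : Fin n) (i : Fin N.1) => ent E (l * N.1 + i)), ?_, ?_⟩
    · intro x
      have hx : Matrix.vecMulLinear (Matrix.of fun (m i : Fin N.1) => ent P (m * N.1 + i)) x
          = ∑ m : Fin N.1, x m • vecOf N.1 (row N.1 P m) := by
        funext i
        rw [Matrix.vecMulLinear_apply, Finset.sum_apply]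
        unfold Matrix.vecMul dotProduct
        refine Finset.sum_congr rfl fun m _ => ?_
        rw [Pi.smul_apply, smul_eq_mul, vecOf_row]
        rfl
      rw [hx]
      refine Submodule.sum_mem _ fun m _ => Submodule.smul_mem _ _ ?_
      exact (K2Fb_mem _ _ _).2 ((memC_iff h ψ _).1 (hP m m.2))
    · intro x hx
      funext i
      have h1 := (annC_iff h φ _).1 (hU i i.2) x ((K2Fb_mem _ _ _).1 hx)
      rw [K2Fb_dot] at h1
      rw [Pi.add_apply]
      simp only [Matrix.vecMulLinear_apply]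
      unfold Matrix.vecMul dotProduct
      simp only [Matrix.of_apply]
      linear_combination h1
  · rintro ⟨P, F, E, hP, hU⟩
    obtain ⟨Pl, hPl⟩ := exists_rows N.1 N.1
      (fun p => if hp : p < N.1 then P (Pi.single ⟨p, hp⟩ 1) else 0)
    obtain ⟨Fl, hFl⟩ := exists_rows N.1 n
      (fun p => if hp : p < N.1 then F (Pi.single ⟨p, hp⟩ 1) else 0)
    obtain ⟨El, hEl⟩ := exists_rows n N.1
      (fun p => if hp : p < n then E (Pi.single ⟨p, hp⟩ 1) else 0)
    have hP2 : ∀ (m i : Fin N.1), ent Pl (m * N.1 + i) = P (Pi.single m 1) i := by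
      intro m i
      rw [hPl m m.2 i, dif_pos m.2]
    have hF2 : ∀ (m : Fin N.1) (l : Fin n), ent Fl (m * n + l) = F (Pi.single m 1) l := by
      intro m l
      rw [hFl m m.2 l, dif_pos m.2]
    have hE2 : ∀ (l : Fin n) (i : Fin N.1), ent El (l * N.1 + i) = E (Pi.single l 1) i := by
      intro l i
      rw [hEl l l.2 i, dif_pos l.2]
    refine ⟨Pl, Fl, El, ?_, ?_⟩
    · intro m hm
      rw [memC_iff h, vecOf_row]
      have : (fun j : Fin N.1 => ent Pl (m * N.1 + j)) = P (Pi.single ⟨m, hm⟩ 1) := by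
        funext j
        exact hP2 ⟨m, hm⟩ j
      rw [this]
      exact (K2Fb_mem _ _ _).1 (hP _)
    · intro i hi
      rw [annC_iff h]
      intro x hx
      have h1 := K2Fb_dot (d := N.1) (n := n) Pl Fl El ⟨i, hi⟩ x
      refine Eq.trans h1 ?_
      have h2 := congrFun (hU x ((K2Fb_mem _ _ _).2 hx)) ⟨i, hi⟩
      rw [Pi.add_apply, K2Fb_lin P x, K2Fb_lin E] at h2
      have h3 : ∑ m : Fin N.1, x m * ent Pl (m * N.1 + ((⟨i, hi⟩ : Fin N.1) : ℕ)) =
          ∑ j, x j * P (Pi.single j 1) ⟨i, hi⟩ :=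
        Finset.sum_congr rfl fun m _ => by rw [hP2]
      have h4 : ∑ l : Fin n, (∑ m : Fin N.1, x m * ent Fl (m * n + l)) *
            ent El (l * N.1 + ((⟨i, hi⟩ : Fin N.1) : ℕ)) =
          ∑ j, F x j * E (Pi.single j 1) ⟨i, hi⟩ :=
        Finset.sum_congr rfl fun l _ => by
          rw [hE2, K2Fb_lin F x l]
          congr 1
          exact Finset.sum_congr rfl fun m _ => by rw [hF2]
      rw [h3, h4, h2]
      ring

end StrAlg
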