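import Mathlib

/-!
# Stream K2: minors (pure linear algebra)
-/

set_option autoImplicit false

namespace StrAlg

open Module

/-- a multilinear map that does not vanish on the span does not vanish on the generators -/
theorem K2La_multilinear {k E : Type*} [Field k] [AddCommGroup E] [Module k E] {n : ℕ}
    (D : MultilinearMap k (fun _ : Fin n => E) k) (G : Set E) (x : Fin n → E)
    (hx : ∀ j, x j ∈ Submodule.span k G) (h : D x ≠ 0) :
    ∃ x' : Fin n → E, (∀ j, x' j ∈ G) ∧ D x' ≠ 0 := by
  classical
  have key : ∀ s : Finset (Fin n), ∃ x' : Fin n → E, (∀ j ∈ s, x' j ∈ G) ∧ (∀ j ∉ s, x' j = x j) ∧ D x' ≠ 0 := by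
    intro s
    induction s using Finset.induction_on with
    | empty => exact ⟨x, by simp, fun _ _ => rfl, h⟩
    | insert a s ha ih =>
      obtain ⟨x', h1, h2, h3⟩ := ih
      let L : E →ₗ[k] k := D.toLinearMap x' a
      have hL : ∀ e, L e = D (Function.update x' a e) := fun e => rfl
      have hLx : L (x a) ≠ 0 := by
        rw [hL, ← h2 a ha, Function.update_eq_self]
        exact h3
      obtain ⟨g, hg, hg0⟩ : ∃ g ∈ G, L g ≠ 0 := by
        by_contra hcon
        push Not at hcon
        have h4 : Submodule.span k G ≤ LinearMap.ker L := Submodule.span_le.2 fun g hg => hcon g hg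
        exact hLx (h4 (hx a))
      refine ⟨Function.update x' a g, ?_, ?_, by rw [← hL]; exact hg0⟩
      · intro j hj
        rcases Finset.mem_insert.1 hj with rfl | hj
        · rw [Function.update_self]; exact hg
        · by_cases hja : j = a
          · subst hja; rw [Function.update_self]; exact hg
          · rw [Function.update_of_ne hja]; exact h1 j hj
      · intro j hj
        have hja : j ≠ a := fun h0 => hj (h0 ▸ Finset.mem_insert_self a s)
        rw [Function.update_of_ne hja]
        exact h2 j fun h0 => hj (Finset.mem_insert_of_mem h0)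
  obtain ⟨x', h1, -, h3⟩ := key Finset.univ
  exact ⟨x', fun j => h1 j (Finset.mem_univ j), h3⟩

/-- coordinates on the range of a matrix -/
theorem K2La_range {k : Type*} [Field k] {R C : ℕ} (M : Matrix (Fin R) (Fin C) k) :
    Nonempty (LinearMap.range (Matrix.toLin' M) ≃ₗ[k] (Fin M.rank → k)) := by
  have h1 : finrank k (LinearMap.range (Matrix.toLin' M)) = finrank k (Fin M.rank → k) := by
    rw [Module.finrank_fin_fun, Matrix.rank_eq_finrank_range_toLin M (Pi.basisFun k (Fin R)) (Pi.basisFun k (Fin C)),
      Matrix.toLin_eq_toLin']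
  exact ⟨LinearEquiv.ofFinrankEq _ _ h1⟩

/-- If `det (β (x j) (y i)) ≠ 0` with all `x j` in the span of `G` and all `y i` in the span of `H` then there are `x' j ∈ G`,
`y' i ∈ H` with nonzero determinant.

Proof: the determinant is linear in the column `j`, i.e. in `x j` (`Matrix.det_updateCol_add`, `..._smul`, or a
`LinearMap` composed with `Matrix.detRowAlternating`/`Matrix.det_transpose`): if it were zero for all `x j ∈ G` it would be zero on the span.
Replace the `x j` one after the other (induction over `Finset (Fin n)`), then the `y i`. -/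
theorem det_span {k E F : Type*} [Field k] [AddCommGroup E] [Module k E] [AddCommGroup F] [Module k F]
    (β : E →ₗ[k] F →ₗ[k] k) (G : Set E) (H : Set F) {n : ℕ} (x : Fin n → E) (y : Fin n → F)
    (hx : ∀ j, x j ∈ Submodule.span k G) (hy : ∀ i, y i ∈ Submodule.span k H)
    (h : (Matrix.of fun i j => β (x j) (y i)).det ≠ 0) :
    ∃ (x' : Fin n → E) (y' : Fin n → F), (∀ j, x' j ∈ G) ∧ (∀ i, y' i ∈ H) ∧
      (Matrix.of fun i j => β (x' j) (y' i)).det ≠ 0 := by
  classical
  let f : E →ₗ[k] (Fin n → k) := LinearMap.pi fun i => β.flip (y i)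
  let D : E [⋀^Fin n]→ₗ[k] k := (Matrix.detRowAlternating (n := Fin n) (R := k)).compLinearMap f
  have hD : ∀ x : Fin n → E, D x = (Matrix.of fun i j => β (x j) (y i)).det := by
    intro x
    have h1 : D x = Matrix.det (fun j i => β (x j) (y i)) := rfl
    rw [h1, ← Matrix.det_transpose]
    rfl
  obtain ⟨x', hx', hD'⟩ := K2La_multilinear D.toMultilinearMap G x hx (by
    intro h0
    exact h ((hD x).symm.trans h0))
  let f2 : F →ₗ[k] (Fin n → k) := LinearMap.pi fun j => β (x' j)
  let D2 : F [⋀^Fin n]→ₗ[k] k := (Matrix.detRowAlternating (n := Fin n) (R := k)).compLinearMap f2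
  have hD2 : ∀ y : Fin n → F, D2 y = (Matrix.of fun i j => β (x' j) (y i)).det := fun y => rfl
  obtain ⟨y', hy', hD2'⟩ := K2La_multilinear D2.toMultilinearMap H y hy (by
    intro h0
    exact hD' ((hD x').trans ((hD2 y).symm.trans h0)))
  exact ⟨x', y', hx', hy', fun h0 => hD2' ((hD2 y').trans h0)⟩

/-- A product of an `R × n` and an `n × C` matrix has rank at most `n`, and conversely a matrix of rank at most `n` is such a product. -/
theorem rank_le_iff_mul {k : Type*} [Field k] {R C : ℕ} (M : Matrix (Fin R) (Fin C) k) (n : ℕ) :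
    M.rank ≤ n ↔ ∃ (A : Matrix (Fin R) (Fin n) k) (B : Matrix (Fin n) (Fin C) k), M = A * B := by
  classical
  constructor
  · intro hle
    obtain ⟨e⟩ := K2La_range M
    let π : (Fin n → k) →ₗ[k] LinearMap.range (Matrix.toLin' M) :=
      e.symm.toLinearMap ∘ₗ LinearMap.funLeft k k (Fin.castLE hle)
    have hπ : Function.Surjective π :=
      e.symm.surjective.comp (LinearMap.funLeft_surjective_of_injective k k _ (Fin.castLE_injective hle))
    obtain ⟨ι, hι⟩ := π.exists_rightInverse_of_surjective (LinearMap.range_eq_top.2 hπ)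
    refine ⟨LinearMap.toMatrix' ((LinearMap.range (Matrix.toLin' M)).subtype ∘ₗ π),
      LinearMap.toMatrix' (ι ∘ₗ (Matrix.toLin' M).rangeRestrict), ?_⟩
    rw [← LinearMap.toMatrix'_comp]
    have h1 : ((LinearMap.range (Matrix.toLin' M)).subtype ∘ₗ π) ∘ₗ (ι ∘ₗ (Matrix.toLin' M).rangeRestrict) =
        Matrix.toLin' M := by
      ext1 v
      have h2 : ∀ w, π (ι w) = w := fun w => LinearMap.congr_fun hι w
      apply LinearMap.ext
      intro w
      simp only [LinearMap.comp_apply, h2]
      rfl
    rw [h1, LinearMap.toMatrix'_toLin']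
  · rintro ⟨A, B, rfl⟩
    refine (Matrix.rank_mul_le_left A B).trans ?_
    have h1 := Matrix.rank_le_card_width A
    rwa [Fintype.card_fin] at h1

/-- `n ≤ rank M` iff `A M B = 1` for some `A`, `B` -/
theorem le_rank_iff_mul {k : Type*} [Field k] {R C : ℕ} (M : Matrix (Fin R) (Fin C) k) (n : ℕ) :
    n ≤ M.rank ↔ ∃ (A : Matrix (Fin n) (Fin R) k) (B : Matrix (Fin C) (Fin n) k), A * M * B = 1 := by
  classical
  constructor
  · intro hle
    obtain ⟨e⟩ := K2La_range M
    let f : LinearMap.range (Matrix.toLin' M) →ₗ[k] (Fin n → k) :=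
      LinearMap.funLeft k k (Fin.castLE hle) ∘ₗ e.toLinearMap
    have hf : Function.Surjective f :=
      (LinearMap.funLeft_surjective_of_injective k k _ (Fin.castLE_injective hle)).comp e.surjective
    obtain ⟨A, hA⟩ := LinearMap.exists_extend f
    have hq : Function.Surjective (f ∘ₗ (Matrix.toLin' M).rangeRestrict) :=
      hf.comp (Matrix.toLin' M).surjective_rangeRestrict
    obtain ⟨s, hs⟩ := (f ∘ₗ (Matrix.toLin' M).rangeRestrict).exists_rightInverse_of_surjective
      (LinearMap.range_eq_top.2 hq)
    refine ⟨LinearMap.toMatrix' A, LinearMap.toMatrix' s, ?_⟩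
    have h1 : A ∘ₗ Matrix.toLin' M ∘ₗ s = LinearMap.id := by
      rw [← hs, ← hA]
      rfl
    have h2 := congrArg LinearMap.toMatrix' h1
    rw [LinearMap.toMatrix'_comp, LinearMap.toMatrix'_comp, LinearMap.toMatrix'_toLin', LinearMap.toMatrix'_id] at h2
    rw [Matrix.mul_assoc]
    exact h2
  · rintro ⟨A, B, hAB⟩
    have h1 : (1 : Matrix (Fin n) (Fin n) k).rank = n := by rw [Matrix.rank_one, Fintype.card_fin]
    rw [← h1, ← hAB]
    exact (Matrix.rank_mul_le_left _ _).trans (Matrix.rank_mul_le_right _ _)

/-- `n ≤ rank M` iff some `n × n` minor is nonzero (use `le_rank_iff_mul` and `det_span` with `G`, `H` the unit vectors) -/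
theorem le_rank_iff_minor {k : Type*} [Field k] {R C : ℕ} (M : Matrix (Fin R) (Fin C) k) (n : ℕ) :
    n ≤ M.rank ↔ ∃ (f : Fin n → Fin R) (g : Fin n → Fin C), (M.submatrix f g).det ≠ 0 := by
  classical
  constructor
  · intro hle
    obtain ⟨A, B, hAB⟩ := (le_rank_iff_mul M n).1 hle
    let β : (Fin C → k) →ₗ[k] (Fin R → k) →ₗ[k] k := (Matrix.toLinearMap₂' k M).flip
    have hβ : ∀ x y, β x y = ∑ r, ∑ c, y r * M r c * x c := by
      intro x y
      change Matrix.toLinearMap₂' k M y x = _
      rw [Matrix.toLinearMap₂'_apply]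
      refine Finset.sum_congr rfl fun r _ => Finset.sum_congr rfl fun c _ => ?_
      simp only [smul_eq_mul]
      ring
    have hspan : ∀ (m : ℕ) (v : Fin m → k), v ∈ Submodule.span k (Set.range fun i : Fin m => (Pi.single i 1 : Fin m → k)) := by
      intro m v
      have h1 : v = ∑ i, v i • (Pi.single i 1 : Fin m → k) := by
        funext j
        simp [Finset.sum_apply, Pi.single_apply]
      rw [h1]
      exact Submodule.sum_mem _ fun i _ => Submodule.smul_mem _ _ (Submodule.subset_span ⟨i, rfl⟩)
    have hmat : (Matrix.of fun i j => β (fun c => B c j) (A i)) = A * M * B := by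
      ext i j
      rw [Matrix.of_apply, hβ, Matrix.mul_apply]
      rw [Finset.sum_comm]
      refine Finset.sum_congr rfl fun c _ => ?_
      rw [Matrix.mul_apply, Finset.sum_mul]
    obtain ⟨x', y', hx', hy', hdet⟩ := det_span β (Set.range fun i : Fin C => (Pi.single i 1 : Fin C → k))
      (Set.range fun i : Fin R => (Pi.single i 1 : Fin R → k)) (fun j c => B c j) (fun i => A i)
      (fun j => hspan _ _) (fun i => hspan _ _) (by rw [hmat, hAB, Matrix.det_one]; exact one_ne_zero)
    choose g hg using hx'
    choose f hf using hy'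
    refine ⟨f, g, ?_⟩
    have h2 : M.submatrix f g = Matrix.of fun i j => β (x' j) (y' i) := by
      ext i j
      rw [Matrix.submatrix_apply, Matrix.of_apply, hβ, ← hg, ← hf]
      rw [Finset.sum_eq_single (f i), Finset.sum_eq_single (g j)]
      · simp
      · intro c _ hc
        simp [hc]
      · intro h0; exact absurd (Finset.mem_univ _) h0
      · intro r _ hr
        refine Finset.sum_eq_zero fun c _ => ?_
        simp [Pi.single_apply, hr]
      · intro h0; exact absurd (Finset.mem_univ _) h0
    rw [h2]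
    exact hdet
  · rintro ⟨f, g, hdet⟩
    rw [le_rank_iff_mul]
    refine ⟨(M.submatrix f g)⁻¹ * (1 : Matrix (Fin R) (Fin R) k).submatrix f id,
      (1 : Matrix (Fin C) (Fin C) k).submatrix id g, ?_⟩
    have h1 : (1 : Matrix (Fin R) (Fin R) k).submatrix f id * M * (1 : Matrix (Fin C) (Fin C) k).submatrix id g =
        M.submatrix f g := by
      ext i j
      simp [Matrix.mul_apply, Matrix.one_apply, Matrix.submatrix_apply]
    rw [Matrix.mul_assoc, Matrix.mul_assoc, ← Matrix.mul_assoc _ M, h1]
    exact Matrix.nonsing_inv_mul _ (isUnit_iff_ne_zero.2 hdet)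

end StrAlg
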