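import Pool.Agent.Lib.MP_b9fd58_lc.KDefs

/-!
# Stream K: vectors, matrices and polynomials as lists (semantics)
-/

set_option autoImplicit false

namespace StrAlg

open Module Polynomial Matrix

variable {k : Type} [Field k]

theorem ent_nil (i : ℕ) : ent ([] : List k) i = 0 := by
  simp [ent]

theorem ent_map_range (n : ℕ) (f : ℕ → k) (i : ℕ) : ent ((List.range n).map f) i = if i < n then f i else 0 := by
  unfold ent
  by_cases h : i < n
  · rw [if_pos h, List.getD_eq_getElem?_getD, List.getElem?_map, List.getElem?_range h]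
    rfl
  · rw [if_neg h, List.getD_eq_default]
    simpa using h

theorem vecOf_map_range (n : ℕ) (f : ℕ → k) : vecOf n ((List.range n).map f) = fun i : Fin n => f i := by
  funext i
  unfold vecOf
  rw [ent_map_range, if_pos i.2]

theorem map_range_eq_iff {n : ℕ} {f g : ℕ → k} : (List.range n).map f = (List.range n).map g ↔ ∀ i < n, f i = g i := by
  rw [List.map_inj_left]
  simp only [List.mem_range]

/-- lists of the form `map f (range n)` are determined by their vectors -/
theorem map_range_eq_iff_vecOf {n : ℕ} {f g : ℕ → k} : (List.range n).map f = (List.range n).map g ↔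
    vecOf n ((List.range n).map f) = vecOf n ((List.range n).map g) := by
  rw [map_range_eq_iff, vecOf_map_range, vecOf_map_range, funext_iff]
  exact ⟨fun h i => h i i.2, fun h i hi => h ⟨i, hi⟩⟩

theorem vecOf_zeroV (n : ℕ) : vecOf n (zeroV n : List k) = 0 := by
  unfold zeroV
  rw [vecOf_map_range]
  rfl

theorem vecOf_unitV (n : ℕ) (m : Fin n) : vecOf n (unitV n m : List k) = Pi.single m 1 := by
  unfold unitV
  rw [vecOf_map_range]
  funext i
  by_cases h : i = m
  · subst h
    simp
  · have h2 : (i : ℕ) ≠ (m : ℕ) := fun h3 => h (Fin.ext h3)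
    simp [h, h2]

theorem vecOf_mv (n : ℕ) (T v : List k) : vecOf n (mv n T v) = matOf n T *ᵥ vecOf n v := by
  unfold mv
  rw [vecOf_map_range]
  funext i
  rw [Finset.sum_range]
  rfl

theorem vecOf_vm (n : ℕ) (T v : List k) : vecOf n (vm n T v) = vecOf n v ᵥ* matOf n T := by
  unfold vm
  rw [vecOf_map_range]
  funext i
  rw [Finset.sum_range]
  rfl

theorem vecOf_mv_iter (n : ℕ) (T v : List k) (m : ℕ) :
    vecOf n ((mv n T)^[m] v) = (matOf n T) ^ m *ᵥ vecOf n v := by
  induction m with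
  | zero => simp
  | succ m ih => rw [Function.iterate_succ_apply', vecOf_mv, ih, mulVec_mulVec, ← pow_succ']

theorem vecOf_vm_iter (n : ℕ) (T v : List k) (m : ℕ) :
    vecOf n ((vm n T)^[m] v) = vecOf n v ᵥ* (matOf n T) ^ m := by
  induction m with
  | zero => simp
  | succ m ih => rw [Function.iterate_succ_apply', vecOf_vm, ih, vecMul_vecMul, ← pow_succ]

theorem vecOf_row (n : ℕ) (L : List k) (p : ℕ) : vecOf n (row n L p) = fun j : Fin n => ent L (p * n + j) := by
  unfold row
  rw [vecOf_map_range]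

theorem vecOf_polV (n : ℕ) (T h v : List k) :
    vecOf n (polV n T h v) = aeval (toLin' (matOf n T)) (polOf h) (vecOf n v) := by
  unfold polV
  rw [vecOf_map_range, polOf, map_sum, LinearMap.sum_apply]
  funext i
  rw [Finset.sum_apply]
  refine Finset.sum_congr rfl fun m _ => ?_
  rw [aeval_monomial, Module.End.mul_apply, Module.algebraMap_end_apply, Pi.smul_apply,
    smul_eq_mul, ← Matrix.toLin'_pow, Matrix.toLin'_apply, ← vecOf_mv_iter]
  rfl

theorem KVec_vecMul_sum {n : ℕ} {ι : Type*} (s : Finset ι) (v : Fin n → k)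
    (A : ι → Matrix (Fin n) (Fin n) k) : v ᵥ* (∑ i ∈ s, A i) = ∑ i ∈ s, v ᵥ* A i := by
  classical
  induction s using Finset.induction_on with
  | empty => simp
  | insert a s ha ih => rw [Finset.sum_insert ha, Finset.sum_insert ha, vecMul_add, ih]

theorem vecOf_polL (n : ℕ) (T h v : List k) :
    vecOf n (polL n T h v) = vecOf n v ᵥ* (aeval (matOf n T) (polOf h)) := by
  unfold polL
  rw [vecOf_map_range, polOf, map_sum, KVec_vecMul_sum]
  funext i
  rw [Finset.sum_apply]
  refine Finset.sum_congr rfl fun m _ => ?_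
  rw [aeval_monomial, ← Algebra.smul_def, vecMul_smul, Pi.smul_apply, smul_eq_mul,
    ← vecOf_vm_iter]
  rfl

theorem polV_eq_zero_iff (n : ℕ) (T h v : List k) :
    polV n T h v = zeroV n ↔ aeval (toLin' (matOf n T)) (polOf h) (vecOf n v) = 0 := by
  have h2 := vecOf_polV n T h v
  have h3 := vecOf_zeroV (k := k) n
  unfold polV at h2 ⊢
  unfold zeroV at h3 ⊢
  rw [map_range_eq_iff_vecOf, h2, h3]

theorem polL_eq_zero_iff (n : ℕ) (T h v : List k) :
    polL n T h v = zeroV n ↔ vecOf n v ᵥ* (aeval (matOf n T) (polOf h)) = 0 := by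
  have h2 := vecOf_polL n T h v
  have h3 := vecOf_zeroV (k := k) n
  unfold polL at h2 ⊢
  unfold zeroV at h3 ⊢
  rw [map_range_eq_iff_vecOf, h2, h3]

theorem polV_eq_iff (n : ℕ) (T h v : List k) (f : ℕ → k) :
    polV n T h v = (List.range n).map f ↔
      aeval (toLin' (matOf n T)) (polOf h) (vecOf n v) = vecOf n ((List.range n).map f) := by
  have h2 := vecOf_polV n T h v
  unfold polV at h2 ⊢
  rw [map_range_eq_iff_vecOf, h2]

theorem polL_eq_iff (n : ℕ) (T h v : List k) (f : ℕ → k) :
    polL n T h v = (List.range n).map f ↔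
      vecOf n v ᵥ* (aeval (matOf n T) (polOf h)) = vecOf n ((List.range n).map f) := by
  have h2 := vecOf_polL n T h v
  unfold polL at h2 ⊢
  rw [map_range_eq_iff_vecOf, h2]

theorem KVec_ent_of_le (h : List k) (i : ℕ) (hi : h.length ≤ i) : ent h i = 0 := by
  unfold ent
  rw [List.getD_eq_default _ _ hi]

theorem coeff_polOf (h : List k) (i : ℕ) : (polOf h).coeff i = ent h i := by
  unfold polOf
  rw [finset_sum_coeff]
  simp only [coeff_monomial]
  rw [Finset.sum_ite_eq' (Finset.range h.length) i (fun m => ent h m)]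
  by_cases hi : i ∈ Finset.range h.length
  · rw [if_pos hi]
  · rw [if_neg hi, KVec_ent_of_le]
    simpa using hi

theorem exists_polOf (h : k[X]) : ∃ l : List k, polOf l = h := by
  refine ⟨(List.range (h.natDegree + 1)).map h.coeff, ?_⟩
  ext i
  rw [coeff_polOf, ent_map_range]
  by_cases hi : i < h.natDegree + 1
  · rw [if_pos hi]
  · rw [if_neg hi, coeff_eq_zero_of_natDegree_lt (by omega)]

theorem polOkC_iff (π : List k) : polOkC π ↔ 0 < (polOf π).natDegree ∧ (polOf π).coeff 0 ≠ 0 := by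
  unfold polOkC
  rw [coeff_polOf]
  refine and_congr_left fun h0 => ?_
  constructor
  · rintro ⟨i, hi, hi0, hne⟩
    rw [← coeff_polOf] at hne
    exact lt_of_lt_of_le hi0 (le_natDegree_of_ne_zero hne)
  · intro h
    have hne : polOf π ≠ 0 := by
      intro h2
      rw [h2] at h
      simp at h
    have h3 : ent π (polOf π).natDegree ≠ 0 := by
      rw [← coeff_polOf]
      exact fun h4 => hne (leadingCoeff_eq_zero.1 h4)
    refine ⟨_, ?_, h, h3⟩
    by_contra hc
    exact h3 (KVec_ent_of_le _ _ (by omega))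

/-- every vector is given by a list -/
theorem exists_vecOf (n : ℕ) (v : Fin n → k) : ∃ L : List k, vecOf n L = v := by
  refine ⟨(List.range n).map (fun i => if h : i < n then v ⟨i, h⟩ else 0), ?_⟩
  rw [vecOf_map_range]
  funext i
  rw [dif_pos i.2]

/-- every finite family of vectors is given by a list of rows -/
theorem exists_rows (P n : ℕ) (f : ℕ → Fin n → k) : ∃ L : List k, ∀ p < P, ∀ j : Fin n, ent L (p * n + j) = f p j := by
  refine ⟨(List.range (P * n)).map (fun t => if h : 0 < n then f (t / n) ⟨t % n, Nat.mod_lt _ h⟩ else 0), ?_⟩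
  intro p hp j
  have hn : 0 < n := lt_of_le_of_lt (Nat.zero_le _) j.2
  have h1 : p * n + (j : ℕ) < P * n := by
    have := Nat.mul_le_mul_right n (Nat.succ_le_of_lt hp)
    have hj := j.2
    rw [Nat.succ_mul] at this
    omega
  rw [ent_map_range, if_pos h1, dif_pos hn]
  have h2 : (p * n + (j : ℕ)) / n = p := by
    rw [Nat.mul_comm, Nat.mul_add_div hn, Nat.div_eq_of_lt j.2, Nat.add_zero]
  have h3 : (p * n + (j : ℕ)) % n = j := by
    rw [Nat.mul_comm, Nat.mul_add_mod, Nat.mod_eq_of_lt j.2]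
  have h4 : (⟨(p * n + (j : ℕ)) % n, Nat.mod_lt _ hn⟩ : Fin n) = j := Fin.ext h3
  rw [h4, h2]

theorem exists_matOf (n : ℕ) (A : Matrix (Fin n) (Fin n) k) : ∃ L : List k, matOf n L = A := by
  obtain ⟨L, hL⟩ := exists_rows n n (fun p => if h : p < n then A ⟨p, h⟩ else 0)
  refine ⟨L, ?_⟩
  ext i j
  unfold matOf
  rw [hL i i.2 j, dif_pos i.2]

/-- every finite sequence is given by a list -/
theorem exists_ent (d : ℕ) (f : ℕ → k) : ∃ L : List k, ∀ i, ent L i = if i < d then f i else 0 := by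
  exact ⟨(List.range d).map f, fun i => ent_map_range d f i⟩

/-! ### The coprimality conditions -/

/-- `v` is killed by a polynomial prime to `π` iff `v = h(T) π(T) v` for some `h` -/
theorem coprime_iff_vec {n : ℕ} (T : (Fin n → k) →ₗ[k] (Fin n → k)) (π : k[X]) (v : Fin n → k) :
    (∃ g : k[X], IsCoprime g π ∧ aeval T g v = 0) ↔ ∃ h : k[X], aeval T h (aeval T π v) = v := by
  constructor
  · rintro ⟨g, ⟨a, b, hab⟩, hg⟩
    refine ⟨b, ?_⟩
    have h1 : aeval T (a * g + b * π) v = v := by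
      rw [hab, map_one, Module.End.one_apply]
    rw [map_add, map_mul, map_mul, LinearMap.add_apply, Module.End.mul_apply,
      Module.End.mul_apply, hg, map_zero, zero_add] at h1
    exact h1
  · rintro ⟨h, hh⟩
    refine ⟨1 - h * π, ⟨1, h, by ring⟩, ?_⟩
    rw [map_sub, map_mul, map_one, LinearMap.sub_apply, Module.End.mul_apply,
      Module.End.one_apply, hh, sub_self]

/-- the vectors killed by polynomials prime to `π` form a subspace -/
theorem coprime_sum {n m : ℕ} (T : (Fin n → k) →ₗ[k] (Fin n → k)) (π : k[X]) (v : Fin m → Fin n → k)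
    (hv : ∀ j, ∃ g : k[X], IsCoprime g π ∧ aeval T g (v j) = 0) (c : Fin m → k) :
    ∃ g : k[X], IsCoprime g π ∧ aeval T g (∑ j, c j • v j) = 0 := by
  choose g hg1 hg2 using hv
  refine ⟨∏ j, g j, IsCoprime.prod_left fun j _ => hg1 j, ?_⟩
  rw [map_sum]
  refine Finset.sum_eq_zero fun j _ => ?_
  obtain ⟨w, hw⟩ := Finset.dvd_prod_of_mem g (Finset.mem_univ j)
  rw [hw, map_smul, mul_comm, map_mul, Module.End.mul_apply, hg2 j, map_zero, smul_zero]

/-- the same for rows -/
theorem coprime_iff_row {n : ℕ} (A : Matrix (Fin n) (Fin n) k) (π : k[X]) (v : Fin n → k) :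
    (∃ g : k[X], IsCoprime g π ∧ v ᵥ* (aeval A g) = 0) ↔
      ∃ h : k[X], (v ᵥ* (aeval A π)) ᵥ* (aeval A h) = v := by
  constructor
  · rintro ⟨g, ⟨a, b, hab⟩, hg⟩
    refine ⟨b, ?_⟩
    have h1 : v ᵥ* (aeval A (g * a + π * b)) = v := by
      rw [mul_comm g a, mul_comm π b, hab, map_one, vecMul_one]
    rw [map_add, map_mul, map_mul, vecMul_add, ← vecMul_vecMul, ← vecMul_vecMul, hg,
      zero_vecMul, zero_add] at h1
    exact h1
  · rintro ⟨h, hh⟩
    refine ⟨1 - π * h, ⟨1, h, by ring⟩, ?_⟩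
    rw [map_sub, map_mul, map_one, vecMul_sub, vecMul_one, ← vecMul_vecMul, hh, sub_self]

theorem coprime_sum_row {n m : ℕ} (A : Matrix (Fin n) (Fin n) k) (π : k[X]) (v : Fin m → Fin n → k)
    (hv : ∀ j, ∃ g : k[X], IsCoprime g π ∧ v j ᵥ* (aeval A g) = 0) (c : Fin m → k) :
    ∃ g : k[X], IsCoprime g π ∧ (∑ j, c j • v j) ᵥ* (aeval A g) = 0 := by
  choose g hg1 hg2 using hv
  refine ⟨∏ j, g j, IsCoprime.prod_left fun j _ => hg1 j, ?_⟩
  have h1 : ∀ j, v j ᵥ* (aeval A (∏ j, g j)) = 0 := by
    intro j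
    obtain ⟨w, hw⟩ := Finset.dvd_prod_of_mem g (Finset.mem_univ j)
    rw [hw, map_mul, ← vecMul_vecMul, hg2 j, zero_vecMul]
  have h2 := map_sum (Matrix.vecMulLinear (aeval A (∏ j, g j))) (fun j => c j • v j) Finset.univ
  simp only [Matrix.vecMulLinear_apply] at h2
  rw [h2]
  refine Finset.sum_eq_zero fun j _ => ?_
  rw [smul_vecMul, h1, smul_zero]

end StrAlg
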