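import Pool.Agent.Lib.MP_b9fd58_lc.K2Defs
import Pool.Agent.Lib.MP_b9fd58_lc.K2La
import Pool.Agent.Lib.MP_b9fd58_lc.KVec

/-!
# Stream K2: ranks of matrices given by lists of rows
-/

set_option autoImplicit false

namespace StrAlg

open Module

variable {k : Type} [Field k]

/-- the matrix of a list of rows -/
def lmat (M : List (List k)) : Matrix (Fin M.length) (Fin (wid M)) k := Matrix.of fun i j => ent (M.getD i []) j

omit [Field k] in
theorem K2Lb_le_wid {M : List (List k)} {r : List k} (h : r ∈ M) : r.length ≤ wid M := by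
  unfold wid
  induction M with
  | nil => exact absurd h List.not_mem_nil
  | cons b L ih =>
    rw [List.map_cons, List.foldr_cons]
    rcases List.mem_cons.1 h with rfl | h
    · exact le_max_left _ _
    · exact (ih h).trans (le_max_right _ _)

omit [Field k] in
theorem K2Lb_getD_mem {M : List (List k)} {i : ℕ} (h : i < M.length) : M.getD i [] ∈ M := by
  rw [List.getD_eq_getElem _ _ h]
  exact List.getElem_mem h

/-- all rows have at most `wid M` entries: `ent (M.getD i []) c = 0` for `wid M ≤ c` -/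
theorem ent_wid (M : List (List k)) (i c : ℕ) (hc : wid M ≤ c) : ent (M.getD i []) c = 0 := by
  by_cases hi : i < M.length
  · exact KVec_ent_of_le _ _ ((K2Lb_le_wid (K2Lb_getD_mem hi)).trans hc)
  · rw [List.getD_eq_default _ _ (not_lt.1 hi)]
    exact ent_nil c

/-- extension by zero -/
noncomputable def K2Lb_ext (w : ℕ) : (Fin w → k) →ₗ[k] (ℕ → k) :=
  Function.ExtendByZero.linearMap k (fun i : Fin w => (i : ℕ))

theorem K2Lb_ext_inj (w : ℕ) : Function.Injective (K2Lb_ext (k := k) w) := by
  intro f g h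
  funext i
  have h1 := congrFun h (i : ℕ)
  have h2 : ∀ f : Fin w → k, K2Lb_ext w f (i : ℕ) = f i := fun f =>
    (Fin.val_injective).extend_apply f _ i
  rw [h2, h2] at h1
  exact h1

/-- `rowSp M` is the image of the row space of `lmat M` under the injective extension by zero `(Fin (wid M) → k) → (ℕ → k)` -/
theorem finrank_rowSp (M : List (List k)) : finrank k (rowSp M) = (lmat M).rank := by
  rw [Matrix.rank_eq_finrank_span_row]
  have h1 : rowSp M = (Submodule.span k (Set.range (lmat M).row)).map (K2Lb_ext (wid M)) := by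
    rw [Submodule.map_span]
    unfold rowSp
    congr 1
    have h2 : ∀ i : Fin M.length, K2Lb_ext (wid M) ((lmat M).row i) = ent (M.getD i []) := by
      intro i
      funext c
      by_cases hc : c < wid M
      · exact (Fin.val_injective).extend_apply ((lmat M).row i) _ ⟨c, hc⟩
      · rw [ent_wid M i c (not_lt.1 hc)]
        refine Function.extend_apply' _ _ _ ?_
        rintro ⟨a, ha⟩
        exact hc (ha ▸ a.2)
    ext v
    constructor
    · rintro ⟨r, hr, rfl⟩
      obtain ⟨i, hi, rfl⟩ := List.getElem_of_mem hr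
      refine ⟨_, ⟨⟨i, hi⟩, rfl⟩, ?_⟩
      rw [h2]
      congr 1
      exact List.getD_eq_getElem _ _ hi
    · rintro ⟨_, ⟨i, rfl⟩, rfl⟩
      exact ⟨_, K2Lb_getD_mem i.2, h2 i⟩
  rw [h1]
  exact (Submodule.equivMapOfInjective (K2Lb_ext (wid M)) (K2Lb_ext_inj _) _).finrank_eq.symm

theorem rkGe_iff (M : List (List k)) (n : ℕ) : rkGe M n ↔ n ≤ finrank k (rowSp M) := by
  rw [finrank_rowSp, le_rank_iff_mul]
  constructor
  · rintro ⟨A, C, h⟩
    refine ⟨Matrix.of fun i r => ent A (i * M.length + r), Matrix.of fun c j => ent C (c * n + j), ?_⟩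
    ext i j
    have h1 := h i i.2 j j.2
    rw [Matrix.mul_apply, Matrix.one_apply]
    simp only [Matrix.mul_apply, Matrix.of_apply, lmat, Finset.sum_mul]
    rw [Finset.sum_comm]
    simp only [Finset.sum_range] at h1
    rw [h1]
    simp only [Fin.ext_iff]
  · rintro ⟨A, B, h⟩
    obtain ⟨Al, hA⟩ := exists_rows n M.length (fun p => if hp : p < n then A ⟨p, hp⟩ else 0)
    obtain ⟨Bl, hB⟩ := exists_rows (wid M) n (fun p => if hp : p < wid M then B ⟨p, hp⟩ else 0)
    refine ⟨Al, Bl, fun i hi j hj => ?_⟩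
    have h1 := congrFun (congrFun h ⟨i, hi⟩) ⟨j, hj⟩
    rw [Matrix.mul_apply, Matrix.one_apply] at h1
    simp only [Matrix.mul_apply, Finset.sum_mul] at h1
    rw [Finset.sum_comm] at h1
    simp only [Fin.ext_iff] at h1
    rw [← h1]
    simp only [Finset.sum_range]
    refine Finset.sum_congr rfl fun r _ => Finset.sum_congr rfl fun c _ => ?_
    have h2 := hA i hi r
    have h3 := hB c c.2 ⟨j, hj⟩
    rw [dif_pos hi] at h2
    rw [dif_pos c.2] at h3
    rw [h2]
    have h4 : ent Bl (c * n + j) = B c ⟨j, hj⟩ := h3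
    rw [h4]
    rfl

theorem rkLe_iff (M : List (List k)) (n : ℕ) : rkLe M n ↔ finrank k (rowSp M) ≤ n := by
  rw [finrank_rowSp, rank_le_iff_mul]
  constructor
  · rintro ⟨A, C, h⟩
    refine ⟨Matrix.of fun r i => ent A (r * n + i), Matrix.of fun i c => ent C (i * wid M + c), ?_⟩
    ext r c
    have h1 := h r r.2 c c.2
    rw [Matrix.mul_apply]
    simp only [Matrix.of_apply]
    rw [Finset.sum_range] at h1
    exact h1
  · rintro ⟨A, B, h⟩
    obtain ⟨Al, hA⟩ := exists_rows M.length n (fun p => if hp : p < M.length then A ⟨p, hp⟩ else 0)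
    obtain ⟨Bl, hB⟩ := exists_rows n (wid M) (fun p => if hp : p < n then B ⟨p, hp⟩ else 0)
    refine ⟨Al, Bl, fun r hr c hc => ?_⟩
    have h1 := congrFun (congrFun h ⟨r, hr⟩) ⟨c, hc⟩
    rw [Matrix.mul_apply] at h1
    have h0 : lmat M ⟨r, hr⟩ ⟨c, hc⟩ = ent (M.getD r []) c := rfl
    rw [← h0, h1, Finset.sum_range]
    refine Finset.sum_congr rfl fun i _ => ?_
    have h2 := hA r hr i
    have h3 := hB i i.2 ⟨c, hc⟩
    rw [dif_pos hr] at h2
    rw [dif_pos i.2] at h3
    rw [h2]
    have h4 : ent Bl (i * wid M + c) = B i ⟨c, hc⟩ := h3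
    rw [h4]

theorem K2Lb_wid_pairM (T S : List (List k)) (L : ℕ) (hT : T ≠ []) : wid (pairM T S L) = S.length := by
  unfold wid pairM
  rw [List.map_map]
  have h1 : ∀ T : List (List k), T ≠ [] → (T.map (List.length ∘ fun t => S.map fun s =>
      ∑ z ∈ Finset.range L, ent t z * ent s z)).foldr max 0 = S.length := by
    intro T
    induction T with
    | nil => intro h; exact absurd rfl h
    | cons t T ih =>
      intro _
      rw [List.map_cons, List.foldr_cons, Function.comp_apply, List.length_map]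
      by_cases hT : T = []
      · subst hT
        simp
      · rw [ih hT, max_self]
  exact h1 T hT

/-- the rank of a matrix of scalar products by minors -/
theorem rkGe_pairM (T S : List (List k)) (L n : ℕ) : rkGe (pairM T S L) n ↔
    ∃ t s : Fin n → List k, (∀ i, t i ∈ T) ∧ (∀ j, s j ∈ S) ∧
      (Matrix.of fun i j => ∑ z ∈ Finset.range L, ent (t i) z * ent (s j) z).det ≠ 0 := by
  rw [rkGe_iff, finrank_rowSp, le_rank_iff_minor]
  have hlen : (pairM T S L).length = T.length := List.length_map _
  have hent : ∀ (i j : ℕ) (hi : i < T.length) (hj : j < S.length),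
      ent ((pairM T S L).getD i []) j = ∑ z ∈ Finset.range L, ent (T[i]) z * ent (S[j]) z := by
    intro i j hi hj
    have h1 : (pairM T S L).getD i [] = S.map fun s => ∑ z ∈ Finset.range L, ent (T[i]) z * ent s z := by
      rw [List.getD_eq_getElem _ _ (by rw [hlen]; exact hi)]
      unfold pairM
      rw [List.getElem_map]
    rw [h1]
    unfold ent
    rw [List.getD_eq_getElem _ _ (by rw [List.length_map]; exact hj), List.getElem_map]
  constructor
  · rintro ⟨f, g, h⟩
    rcases Nat.eq_zero_or_pos n with hn | hn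
    · subst hn
      exact ⟨Fin.elim0, Fin.elim0, fun i => i.elim0, fun i => i.elim0, by simp⟩
    · have hT : T ≠ [] := by
        rintro rfl
        exact absurd (lt_of_lt_of_eq (f ⟨0, hn⟩).2 hlen) (Nat.not_lt_zero _)
      have hw := K2Lb_wid_pairM T S L hT
      have hf : ∀ i, (f i : ℕ) < T.length := fun i => lt_of_lt_of_eq (f i).2 hlen
      have hg : ∀ j, (g j : ℕ) < S.length := fun j => lt_of_lt_of_eq (g j).2 hw
      refine ⟨fun i => T[(f i : ℕ)]'(hf i), fun j => S[(g j : ℕ)]'(hg j), fun i => List.getElem_mem _,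
        fun j => List.getElem_mem _, ?_⟩
      have h2 : ((lmat (pairM T S L)).submatrix f g) = (Matrix.of fun i j => ∑ z ∈ Finset.range L,
          ent (T[(f i : ℕ)]'(hf i)) z * ent (S[(g j : ℕ)]'(hg j)) z) := by
        ext i j
        exact hent _ _ (hf i) (hg j)
      rw [← h2]
      exact h
  · rintro ⟨t, s, ht, hs, h⟩
    rcases Nat.eq_zero_or_pos n with hn | hn
    · subst hn
      exact ⟨Fin.elim0, Fin.elim0, by simp⟩
    · have hT : T ≠ [] := List.ne_nil_of_mem (ht ⟨0, hn⟩)
      have hw := K2Lb_wid_pairM T S L hT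
      choose f hf hf2 using fun i => List.getElem_of_mem (ht i)
      choose g hg hg2 using fun j => List.getElem_of_mem (hs j)
      refine ⟨fun i => ⟨f i, by rw [hlen]; exact hf i⟩, fun j => ⟨g j, by rw [hw]; exact hg j⟩, ?_⟩
      have h2 : ((lmat (pairM T S L)).submatrix (fun i => ⟨f i, by rw [hlen]; exact hf i⟩)
          (fun j => ⟨g j, by rw [hw]; exact hg j⟩)) = (Matrix.of fun i j => ∑ z ∈ Finset.range L,
          ent (t i) z * ent (s j) z) := by
        ext i j
        refine (hent _ _ (hf i) (hg j)).trans ?_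
        rw [hf2, hg2]
        rfl
      rw [h2]
      exact h

end StrAlg
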