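import Pool.Agent.Lib.MP_b9fd58_lc.KPR

/-!
# Stream K: the type-3 conditions on codes
-/

set_option autoImplicit false

namespace StrAlg

open Module Polynomial

variable {D : Dat} {k : Type} [Field k] {S : Sides D}

/-- polynomials in `toLin' A` -/
theorem KAD_aeval {n : ℕ} (A : Matrix (Fin n) (Fin n) k) (g : k[X]) (y : Fin n → k) :
    aeval (Matrix.toLin' A) g y = (aeval A g).mulVec y := by
  have h := Polynomial.aeval_algHom_apply (Matrix.toLinAlgEquiv' : Matrix (Fin n) (Fin n) k ≃ₐ[k] _).toAlgHom A g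
  have h2 : aeval (Matrix.toLin' A) g = Matrix.toLin' (aeval A g) := h
  rw [h2, Matrix.toLin'_apply]

/-- a row that kills all vectors of the image -/
theorem KAD_dot {n : ℕ} (A : Matrix (Fin n) (Fin n) k) (v : Fin n → k) :
    (∀ y, dotProduct v (A.mulVec y) = 0) ↔ Matrix.vecMul v A = 0 := by
  constructor
  · intro h
    refine dotProduct_eq_zero _ fun y => ?_
    rw [← Matrix.dotProduct_mulVec]
    exact h y
  · intro h y
    rw [Matrix.dotProduct_mulVec, h, zero_dotProduct]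

/-- `omL` is the combination of the rows -/
theorem KAD_omL (K : ℕ) (X Y : EC D k) (o : Bool) (a b : ℤ) (φ : List k) :
    vecOf (bcN Y.1) (omL K X Y o a b φ) =
      ∑ j : Fin (bcN X.1), ent φ j • vecOf (bcN Y.1) (omRow K X Y o a b (j : ℕ)) := by
  unfold omL omRow
  rw [vecOf_map_range]
  funext i
  rw [Finset.sum_apply, Finset.sum_range]
  refine Finset.sum_congr rfl fun j' _ => ?_
  rw [vecOf_map_range]
  rfl

theorem KAD_dual {b : BC D k} (h : bcOk S b) (ψ : Dual k (Fin (bcBlk S b h).n → k)) :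
    ∃ L : List k, (show Dual k (Fin (bcBlk S b h).n → k) from dualOf (bcN b) L) = ψ :=
  exists_dualOf (bcN b) ψ

/-- the type-3 condition for one pair of blocks -/
theorem KAD_pair {X Y : EC D k} (hX : bcOk S X.1) (hY : bcOk S Y.1) (band : Y.1.1 = true) {B : ℕ}
    (bX : scBig (bcS X.1) B) (bY : scBig (bcS Y.1) B) (π : List k) :
    (∀ (o : Bool) (q r : ℤ), Ord (bcBlk S X.1 hX).x (bcBlk S Y.1 hY).x o q r → ∀ φ, ∃ g : k[X],
      IsCoprime g (polOf π) ∧ ∀ y, OmL (bcBlk S X.1 hX) (bcBlk S Y.1 hY) (ecElt S X hX) (ecFnl S Y hY) o q r φ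
        (aeval (bcBlk S Y.1 hY).T.toLinearMap g y) = 0) ↔
    ∀ a < bcP X.1, ∀ b < bcP Y.1, ∀ o : Bool,
      ordC (20 * B) (bcS X.1) (bcS Y.1) o (a : ℤ) (b : ℤ) → ∀ j < bcN X.1, ∃ h : List k,
        polL (bcN Y.1) (bcM Y.1) h (polL (bcN Y.1) (bcM Y.1) π (omRow (20 * B) X Y o (a : ℤ) (b : ℤ) j)) =
          omRow (20 * B) X Y o (a : ℤ) (b : ℤ) j := by
  have hT := KPR_T hY band
  -- the condition for one row
  have row : ∀ (o : Bool) (a b j : ℕ), (∃ h : List k,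
        polL (bcN Y.1) (bcM Y.1) h (polL (bcN Y.1) (bcM Y.1) π (omRow (20 * B) X Y o (a : ℤ) (b : ℤ) j)) =
          omRow (20 * B) X Y o (a : ℤ) (b : ℤ) j) ↔ ∃ g : k[X], IsCoprime g (polOf π) ∧
        Matrix.vecMul (vecOf (bcN Y.1) (omRow (20 * B) X Y o (a : ℤ) (b : ℤ) j))
          (aeval (matOf (bcN Y.1) (bcM Y.1)) g) = 0 := by
    intro o a b j
    rw [coprime_iff_row]
    have key : ∀ h : List k,
        polL (bcN Y.1) (bcM Y.1) h (polL (bcN Y.1) (bcM Y.1) π (omRow (20 * B) X Y o (a : ℤ) (b : ℤ) j)) =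
          omRow (20 * B) X Y o (a : ℤ) (b : ℤ) j ↔
        Matrix.vecMul (Matrix.vecMul (vecOf (bcN Y.1) (omRow (20 * B) X Y o (a : ℤ) (b : ℤ) j))
          (aeval (matOf (bcN Y.1) (bcM Y.1)) (polOf π))) (aeval (matOf (bcN Y.1) (bcM Y.1)) (polOf h)) =
          vecOf (bcN Y.1) (omRow (20 * B) X Y o (a : ℤ) (b : ℤ) j) := by
      intro h
      have := polL_eq_iff (bcN Y.1) (bcM Y.1) h
        (polL (bcN Y.1) (bcM Y.1) π (omRow (20 * B) X Y o (a : ℤ) (b : ℤ) j))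
        (fun j' => omC (20 * B) X Y o (a : ℤ) (b : ℤ) j j')
      rw [vecOf_polL] at this
      exact this
    constructor
    · rintro ⟨h, hh⟩
      exact ⟨polOf h, (key h).1 hh⟩
    · rintro ⟨h, hh⟩
      obtain ⟨l, rfl⟩ := exists_polOf h
      exact ⟨l, (key l).2 hh⟩
  constructor
  · intro H a ha b hb o hord j hj
    rw [row]
    obtain ⟨g, hg, hg'⟩ := H o a b ((KPR_ord hX hY bX bY ha hb o).2 hord)
      (show Dual k (Fin (bcBlk S X.1 hX).n → k) from LinearMap.proj (⟨j, hj⟩ : Fin (bcN X.1)))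
    refine ⟨g, hg, (KAD_dot _ _).1 fun y => ?_⟩
    have h1 := hg' y
    rw [OmL_row hX hY hord ⟨j, hj⟩, hT] at h1
    rw [← KAD_aeval]
    exact h1
  · intro H o q r hord φ
    obtain ⟨a, ha, b, hb, m, m', rfl, rfl, hord'⟩ := KPR_dom hX hY hord
    have hordC := (KPR_ord hX hY bX bY ha hb o).1 hord'
    obtain ⟨L, hL⟩ := KAD_dual hX
      (φ ∘ₗ (((bcBlk S X.1 hX).T ^ (-m) : (Fin (bcBlk S X.1 hX).n → k) ≃ₗ[k] (Fin (bcBlk S X.1 hX).n → k)) :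
        (Fin (bcBlk S X.1 hX).n → k) →ₗ[k] (Fin (bcBlk S X.1 hX).n → k)))
    obtain ⟨g, hg, hg'⟩ := coprime_sum_row (matOf (bcN Y.1) (bcM Y.1)) (polOf π)
      (fun j : Fin (bcN X.1) => vecOf (bcN Y.1) (omRow (20 * B) X Y o (a : ℤ) (b : ℤ) (j : ℕ)))
      (fun j => (row o a b j).1 (H a ha b hb o hordC j j.2)) (fun j => ent L j)
    refine ⟨g, hg, fun y => ?_⟩
    rw [OmL_mul_fst, OmL_mul_snd, ← KPR_comm, ← hL, OmL_eq hX hY hordC, KAD_omL, hT]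
    refine (congrArg _ (KAD_aeval (matOf (bcN Y.1) (bcM Y.1)) g _)).trans ?_
    exact (KAD_dot _ _).2 hg' _

theorem adGood_iff {p : NC D k} (hp : ncOk S p) {c : BC D k} (hc : bcOk S c) (band : c.1 = true) {B : ℕ}
    (bp : ncBig p B) (bc : scBig (bcS c) B) (π : List k) :
    (ncDec S p).ADgood (bcBlk S c hc).x (polOf π) ↔ adGoodC B p c π := by
  refine and_congr (Crit_iff_ncCritC hp hc.1 bp bc) ?_
  refine (ncDec_forall_X hp (fun X a => ∀ j, ((ncDec S p).Y j).x = (bcBlk S c hc).x → ∀ (o : Bool) (q r : ℤ),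
    Ord X.x ((ncDec S p).Y j).x o q r → ∀ φ, ∃ g : k[X], IsCoprime g (polOf π) ∧
      ∀ y, OmL X ((ncDec S p).Y j) a ((ncDec S p).b j) o q r φ
        (aeval ((ncDec S p).Y j).T.toLinearMap g y) = 0)).trans ?_
  have key : ∀ t, ∀ ht : t ∈ p.1, ((∀ j, ((ncDec S p).Y j).x = (bcBlk S c hc).x →
      ∀ (o : Bool) (q r : ℤ), Ord (bcBlk S t.1 (hp.1 t ht)).x ((ncDec S p).Y j).x o q r → ∀ φ, ∃ g : k[X],
        IsCoprime g (polOf π) ∧ ∀ y, OmL (bcBlk S t.1 (hp.1 t ht)) ((ncDec S p).Y j) (ecElt S t (hp.1 t ht))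
          ((ncDec S p).b j) o q r φ (aeval ((ncDec S p).Y j).T.toLinearMap g y) = 0)
      ↔ (∀ Y ∈ p.2, sameC B Y.1 c → ∀ a < bcP t.1, ∀ b < bcP Y.1, ∀ o : Bool,
        ordC (20 * B) (bcS t.1) (bcS Y.1) o (a : ℤ) (b : ℤ) → ∀ j < bcN t.1, ∃ h : List k,
          polL (bcN Y.1) (bcM Y.1) h (polL (bcN Y.1) (bcM Y.1) π (omRow (20 * B) t Y o (a : ℤ) (b : ℤ) j)) =
            omRow (20 * B) t Y o (a : ℤ) (b : ℤ) j)) := by
    intro t ht
    have e1 := ncDec_forall_Y hp (fun Y b => Y.x = (bcBlk S c hc).x →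
      ∀ (o : Bool) (q r : ℤ), Ord (bcBlk S t.1 (hp.1 t ht)).x Y.x o q r → ∀ φ, ∃ g : k[X],
        IsCoprime g (polOf π) ∧ ∀ y, OmL (bcBlk S t.1 (hp.1 t ht)) Y (ecElt S t (hp.1 t ht)) b o q r φ
          (aeval Y.T.toLinearMap g y) = 0)
    refine e1.trans ?_
    constructor
    · intro H Y hY hs
      exact (KAD_pair (hp.1 t ht) (hp.2 Y hY) hs.1 (bp.2.1 t ht) (bp.2.2 Y hY) π).1
        (H Y hY ((sameC_iff (hp.2 Y hY) hc (bp.2.2 Y hY) bc band).2 hs))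
    · intro H Y hY hs
      have hs' := (sameC_iff (hp.2 Y hY) hc (bp.2.2 Y hY) bc band).1 hs
      exact (KAD_pair (hp.1 t ht) (hp.2 Y hY) hs'.1 (bp.2.1 t ht) (bp.2.2 Y hY) π).2 (H Y hY hs')
  constructor
  · intro H X hX
    exact (key X hX).1 (H X hX)
  · intro H X hX
    exact (key X hX).2 (H X hX)

/-- failure of the type-3 condition for one pair of blocks -/
theorem KAD_bad {X Y : EC D k} (hX : bcOk S X.1) (hY : bcOk S Y.1) (band : Y.1.1 = true) {B : ℕ}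
    (bX : scBig (bcS X.1) B) (bY : scBig (bcS Y.1) B) (π : List k) :
    (∃ (o : Bool) (p r : ℤ), Ord (bcBlk S X.1 hX).x (bcBlk S Y.1 hY).x o p r ∧
      ∃ (φ : Dual k (Fin (bcBlk S X.1 hX).n → k)) (h : k[X]),
      (∃ y, OmL (bcBlk S X.1 hX) (bcBlk S Y.1 hY) (ecElt S X hX) (ecFnl S Y hY) o p r φ
        (aeval (bcBlk S Y.1 hY).T.toLinearMap h y) ≠ 0) ∧
      (∀ y, OmL (bcBlk S X.1 hX) (bcBlk S Y.1 hY) (ecElt S X hX) (ecFnl S Y hY) o p r φ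
        (aeval (bcBlk S Y.1 hY).T.toLinearMap (polOf π * h) y) = 0)) ↔
    ∃ a < bcP X.1, ∃ b < bcP Y.1, ∃ o : Bool,
      ordC (20 * B) (bcS X.1) (bcS Y.1) o (a : ℤ) (b : ℤ) ∧ ∃ φ h : List k,
      polL (bcN Y.1) (bcM Y.1) h (omL (20 * B) X Y o (a : ℤ) (b : ℤ) φ) ≠ zeroV (bcN Y.1) ∧
      polL (bcN Y.1) (bcM Y.1) π (polL (bcN Y.1) (bcM Y.1) h (omL (20 * B) X Y o (a : ℤ) (b : ℤ) φ)) =
        zeroV (bcN Y.1) := by
  have hT := KPR_T hY band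
  -- the vector condition at positions of the fundamental domain
  have key : ∀ (a b : ℕ) (o : Bool) (φ l : List k),
      ordC (20 * B) (bcS X.1) (bcS Y.1) o (a : ℤ) (b : ℤ) →
      ((∃ y, OmL (bcBlk S X.1 hX) (bcBlk S Y.1 hY) (ecElt S X hX) (ecFnl S Y hY) o a b (dualOf (bcN X.1) φ)
        (aeval (bcBlk S Y.1 hY).T.toLinearMap (polOf l) y) ≠ 0) ↔
        polL (bcN Y.1) (bcM Y.1) l (omL (20 * B) X Y o (a : ℤ) (b : ℤ) φ) ≠ zeroV (bcN Y.1)) ∧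
      ((∀ y, OmL (bcBlk S X.1 hX) (bcBlk S Y.1 hY) (ecElt S X hX) (ecFnl S Y hY) o a b (dualOf (bcN X.1) φ)
        (aeval (bcBlk S Y.1 hY).T.toLinearMap (polOf π * polOf l) y) = 0) ↔
        polL (bcN Y.1) (bcM Y.1) π (polL (bcN Y.1) (bcM Y.1) l (omL (20 * B) X Y o (a : ℤ) (b : ℤ) φ)) =
          zeroV (bcN Y.1)) := by
    intro a b o φ l hord
    have e : ∀ (g : k[X]) (y : Fin (bcBlk S Y.1 hY).n → k),
        OmL (bcBlk S X.1 hX) (bcBlk S Y.1 hY) (ecElt S X hX) (ecFnl S Y hY) o a b (dualOf (bcN X.1) φ)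
          (aeval (bcBlk S Y.1 hY).T.toLinearMap g y) =
        dotProduct (vecOf (bcN Y.1) (omL (20 * B) X Y o (a : ℤ) (b : ℤ) φ))
          ((aeval (matOf (bcN Y.1) (bcM Y.1)) g).mulVec y) := by
      intro g y
      rw [OmL_eq hX hY hord, hT]
      exact congrArg _ (KAD_aeval (matOf (bcN Y.1) (bcM Y.1)) g y)
    constructor
    · rw [ne_eq, polL_eq_zero_iff, ← KAD_dot, not_forall]
      refine exists_congr fun y => ?_
      rw [e]
    · rw [polL_eq_zero_iff, vecOf_polL, Matrix.vecMul_vecMul, ← map_mul, mul_comm (polOf l), ← KAD_dot]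
      refine forall_congr' fun y => ?_
      rw [e]
  constructor
  · rintro ⟨o, p, r, hord, φ, h, ⟨y, h1⟩, h2⟩
    obtain ⟨a, ha, b, hb, m, m', rfl, rfl, hord'⟩ := KPR_dom hX hY hord
    have hordC := (KPR_ord hX hY bX bY ha hb o).1 hord'
    obtain ⟨L, hL⟩ := KAD_dual hX
      (φ ∘ₗ (((bcBlk S X.1 hX).T ^ (-m) : (Fin (bcBlk S X.1 hX).n → k) ≃ₗ[k] (Fin (bcBlk S X.1 hX).n → k)) :
        (Fin (bcBlk S X.1 hX).n → k) →ₗ[k] (Fin (bcBlk S X.1 hX).n → k)))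
    obtain ⟨l, rfl⟩ := exists_polOf h
    rw [OmL_mul_fst, OmL_mul_snd, ← KPR_comm, ← hL] at h1
    refine ⟨a, ha, b, hb, o, hordC, L, l, ?_, ?_⟩
    · exact (key a b o L l hordC).1.1 ⟨_, h1⟩
    · refine (key a b o L l hordC).2.1 fun z => ?_
      have h3 := h2 (((bcBlk S Y.1 hY).T ^ m' :
        (Fin (bcBlk S Y.1 hY).n → k) ≃ₗ[k] (Fin (bcBlk S Y.1 hY).n → k)).symm z)
      rw [OmL_mul_fst, OmL_mul_snd, ← KPR_comm, ← hL, LinearEquiv.apply_symm_apply] at h3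
      exact h3
  · rintro ⟨a, ha, b, hb, o, hordC, φ, h, h1, h2⟩
    have hord := (KPR_ord hX hY bX bY ha hb o).2 hordC
    exact ⟨o, a, b, hord, dualOf (bcN X.1) φ, polOf h, (key a b o φ h hordC).1.2 h1,
      (key a b o φ h hordC).2.2 h2⟩

theorem adBad_iff {q : NC D k} (hq : ncOk S q) {B : ℕ} (bq : ncBig q B) (π : List k) (Φ : Blk S k → Prop) :
    (∃ j : Fin (ncDec S q).m', (ncDec S q).ADbad j (polOf π) ∧ Φ ((ncDec S q).Y j)) ↔
      ∃ Y, ∃ hY : Y ∈ q.2, adBadC B q Y π ∧ Φ (bcBlk S Y.1 (hq.2 Y hY)) := by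
  refine (ncDec_exists_Y hq (fun Y b => (0 < Y.l ∧ ∃ (i : Fin (ncDec S q).m) (o : Bool) (p r : ℤ),
    Ord ((ncDec S q).X i).x Y.x o p r ∧ ∃ (φ : Dual k (Fin ((ncDec S q).X i).n → k)) (h : k[X]),
      (∃ y, OmL ((ncDec S q).X i) Y ((ncDec S q).a i) b o p r φ (aeval Y.T.toLinearMap h y) ≠ 0) ∧
      (∀ y, OmL ((ncDec S q).X i) Y ((ncDec S q).a i) b o p r φ (aeval Y.T.toLinearMap (polOf π * h) y) = 0)) ∧
    Φ Y)).trans ?_
  refine exists_congr fun t => exists_congr fun ht => and_congr_left fun _ => ?_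
  refine (and_congr_left fun _ => KPR_l (hq.2 t ht)).trans ?_
  refine and_congr_right fun hb => ?_
  have e1 := ncDec_exists_X hq (fun X a => ∃ (o : Bool) (p r : ℤ),
    Ord X.x (bcBlk S t.1 (hq.2 t ht)).x o p r ∧ ∃ (φ : Dual k (Fin X.n → k)) (h : k[X]),
      (∃ y, OmL X (bcBlk S t.1 (hq.2 t ht)) a (ecFnl S t (hq.2 t ht)) o p r φ
        (aeval (bcBlk S t.1 (hq.2 t ht)).T.toLinearMap h y) ≠ 0) ∧
      (∀ y, OmL X (bcBlk S t.1 (hq.2 t ht)) a (ecFnl S t (hq.2 t ht)) o p r φ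
        (aeval (bcBlk S t.1 (hq.2 t ht)).T.toLinearMap (polOf π * h) y) = 0))
  refine e1.trans ?_
  constructor
  · rintro ⟨X, hX, h⟩
    exact ⟨X, hX, (KAD_bad (hq.1 X hX) (hq.2 t ht) hb (bq.2.1 X hX) (bq.2.2 t ht) π).1 h⟩
  · rintro ⟨X, hX, h⟩
    exact ⟨X, hX, (KAD_bad (hq.1 X hX) (hq.2 t ht) hb (bq.2.1 X hX) (bq.2.2 t ht) π).2 h⟩

end StrAlg
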