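import Pool.Agent.Lib.MP_b9fd58_lc.KCrit

/-!
# Stream K: equality of coded bands, separation
-/

set_option autoImplicit false

namespace StrAlg

open Module

variable {D : Dat} {k : Type} [Field k] {S : Sides D}

/-- the record at a position of a string without END -/
theorem KSame_rec {c : SC D} (h : scOk S c) (hall : ∀ p, scIn c p) (q : ℤ) :
    scF c q = some ((scLn S c h).lam q, (scLn S c h).v q, (scLn S c h).r q) := by
  obtain ⟨x, hx⟩ := Option.isSome_iff_exists.1 (hall q)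
  obtain ⟨y, hy⟩ := Option.isSome_iff_exists.1 (hall (q + 1))
  show scF c q = some (scLam c q, scDv c h.1 q, scR c q)
  simp [scLam, scDv, scR, hx, hy]

theorem KSame_dvd {b : BC D k} (h : scOk S (bcS b)) (hb : b.1 = true) {B : ℕ}
    (hB : scBig (bcS b) B) : bcP b ∣ B := by
  have h0 := bcP_pos h
  obtain ⟨-, h1, -⟩ := hB
  unfold bcS at h1
  rw [if_pos hb] at h1
  rcases h1.2 with h2 | h2
  · have h3 : b.2.1 = [] := h2
    unfold bcP at h0
    rw [h3] at h0
    exact absurd h0 (lt_irrefl _)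
  · exact h2

theorem KSame_mod {b : BC D k} (h : scOk S (bcS b)) (hb : b.1 = true) {B : ℕ}
    (hB : scBig (bcS b) B) (p : ℤ) : scF (bcS b) p = scF (bcS b) (p % (B : ℤ)) := by
  obtain ⟨d, hd⟩ := KSame_dvd h hb hB
  have hper : Per (bcP b) (scF (bcS b)) := fun q => scF_band hb q
  have h3 : p = p % (B : ℤ) + (p / (B : ℤ) * (d : ℤ)) * (bcP b : ℤ) := by
    have h4 := Int.emod_add_mul_ediv p (B : ℤ)
    have h5 : (B : ℤ) = (bcP b : ℤ) * (d : ℤ) := by
      rw [hd]
      push_cast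
      ring
    have h6 : (p / (B : ℤ) * (d : ℤ)) * (bcP b : ℤ) = (B : ℤ) * (p / (B : ℤ)) := by
      conv_rhs => rw [h5]
      conv_lhs => rw [h5]
      ring
    rw [h6]
    exact h4.symm
  conv_lhs => rw [h3, hper.mul]

/-- the string of a block code equals the string of a band code iff both are bands with the same records -/
theorem sameC_iff {b b' : BC D k} (h : bcOk S b) (h' : bcOk S b') {B : ℕ} (hB : scBig (bcS b) B)
    (hB' : scBig (bcS b') B) (band : b'.1 = true) : (bcBlk S b h).x = (bcBlk S b' h').x ↔ sameC B b b' := by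
  constructor
  · intro heq
    have heq' : scStr S (bcS b) h.1 = scStr S (bcS b') h'.1 := heq
    have hall' : ∀ p, scIn (bcS b') p := scIn_band band h'.1
    have hall : ∀ p, scIn (bcS b) p := by
      intro p
      rw [← scStr_Z h.1, heq', scStr_Z h'.1]
      exact hall' p
    have hb : b.1 = true := by
      rcases (Bool.eq_false_or_eq_true b.1 : b.1 = true ∨ b.1 = false) with hb | hb
      · exact hb
      · exfalso
        have h1 := (scIn_fin hb (-1)).1 (hall (-1))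
        omega
    refine ⟨hb, band, fun p _ => ?_⟩
    have hL : scLn S (bcS b) h.1 = scLn S (bcS b') h'.1 := congrArg Str.L heq'
    rw [KSame_rec h.1 hall, KSame_rec h'.1 hall', hL]
  · rintro ⟨hb, -, hF⟩
    refine Matches.eq (Matches.self h.1) (Matches.self h'.1) (fun p => ?_) (scIn_band hb h.1)
    have hB0 : 0 < B := hB.1
    rw [KSame_mod h.1 hb hB, KSame_mod h'.1 band hB']
    have h1 : 0 ≤ p % (B : ℤ) := Int.emod_nonneg _ (by omega)
    have h2 : p % (B : ℤ) < (B : ℤ) := Int.emod_lt_of_pos _ (by omega)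
    obtain ⟨m, hm⟩ := Int.eq_ofNat_of_zero_le h1
    rw [hm] at h2 ⊢
    exact hF m (by omega)

theorem KSame_stn (e : Bool) (n p m : ℤ) : stn e n (p + m) = stn e n p + m := by
  cases e <;> simp <;> ring

/-- the words of a periodic line are periodic -/
theorem KSame_wd {L : Ln (Fin D.nV) S.nx} {l : ℕ} (h : L.IsPer l) (p m : ℤ) :
    L.wd (p + m * (l : ℤ)) = L.wd p := by
  funext s n
  have hr := h.r.mul p m
  show L.lt (s == L.r (p + m * (l : ℤ))) (stn (s == L.r (p + m * (l : ℤ))) n (p + m * (l : ℤ))) =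
    L.lt (s == L.r p) (stn (s == L.r p) n p)
  rw [hr, KSame_stn, (h.lt _).mul]

theorem KSame_al {x y : Str S} {l l' : ℕ} (hx : x.L.IsPer l) (hy : y.L.IsPer l') (p q m m' : ℤ)
    (h : Al x y (p + m * (l : ℤ)) (q + m' * (l' : ℤ))) : Al x y p q := by
  obtain ⟨h1, h2⟩ := h
  refine ⟨?_, fun s => ?_⟩
  · rw [hx.v.mul, hy.v.mul] at h1
    exact h1
  · have h3 := h2 s
    rw [KSame_wd hx, KSame_wd hy] at h3
    exact h3

/-- alignment somewhere is alignment in the fundamental domains -/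
theorem al_iff {b b' : BC D k} (h : bcOk S b) (h' : bcOk S b') {B : ℕ} (hB : scBig (bcS b) B)
    (hB' : scBig (bcS b') B) :
    (∃ r ∈ (bcBlk S b h).x.Z, ∃ r' ∈ (bcBlk S b' h').x.Z, Al (bcBlk S b h).x (bcBlk S b' h').x r r') ↔
      ∃ r < bcP b, ∃ r' < bcP b', alC (20 * B) (bcS b) (bcS b') (r : ℤ) (r' : ℤ) := by
  have hP := bcP_le hB
  have hP' := bcP_le hB'
  constructor
  · rintro ⟨r, hr, r', hr', hA⟩
    obtain ⟨r₀, hr₀, m, rfl⟩ := exists_dom h.1 ((scStr_Z h.1 r).1 hr)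
    obtain ⟨r₁, hr₁, m', rfl⟩ := exists_dom h'.1 ((scStr_Z h'.1 r').1 hr')
    have hA' : Al (bcBlk S b h).x (bcBlk S b' h').x (r₀ : ℤ) (r₁ : ℤ) :=
      KSame_al (bcPerOK h).per (bcPerOK h').per _ _ _ _ hA
    refine ⟨r₀, hr₀, r₁, hr₁, ?_⟩
    refine (alS_iff_alC h.1 h'.1 hB hB' (by omega) (by omega)).1 ?_
    exact (alS_iff h.1 h'.1 _ _).1
      ⟨(scStr_Z h.1 _).2 (scIn_dom hr₀), (scStr_Z h'.1 _).2 (scIn_dom hr₁), hA'⟩
  · rintro ⟨r, hr, r', hr', hA⟩
    have h1 := (alS_iff_alC h.1 h'.1 hB hB' (p := (r : ℤ)) (q := (r' : ℤ)) (by omega)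
      (by omega)).2 hA
    obtain ⟨h2, h3, h4⟩ := (alS_iff h.1 h'.1 _ _).2 h1
    exact ⟨_, h2, _, h3, h4⟩

theorem sepC_iff {p : NC D k} (hp : ncOk S p) {c : BC D k} (hc : bcOk S c) {B : ℕ} (bp : ncBig p B)
    (bc : scBig (bcS c) B) (band : c.1 = true) : (ncDec S p).Sep (bcBlk S c hc).x ↔ sepC B p c := by
  have e1 := ncDec_forall_X hp (fun X _ =>
    (∃ r ∈ X.x.Z, ∃ r' ∈ (bcBlk S c hc).x.Z, Al X.x (bcBlk S c hc).x r r') →
      X.x = (bcBlk S c hc).x)
  have e2 := ncDec_forall_Y hp (fun X _ =>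
    (∃ r ∈ X.x.Z, ∃ r' ∈ (bcBlk S c hc).x.Z, Al X.x (bcBlk S c hc).x r r') →
      X.x = (bcBlk S c hc).x)
  unfold NF.Sep sepC
  refine and_congr (e1.trans ?_) (e2.trans ?_)
  · refine forall_congr' fun t => forall_congr' fun ht => ?_
    exact imp_congr (al_iff (hp.1 t ht) hc (bp.2.1 t ht) bc)
      (sameC_iff (hp.1 t ht) hc (bp.2.1 t ht) bc band)
  · refine forall_congr' fun t => forall_congr' fun ht => ?_
    exact imp_congr (al_iff (hp.2 t ht) hc (bp.2.2 t ht) bc)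
      (sameC_iff (hp.2 t ht) hc (bp.2.2 t ht) bc band)

end StrAlg
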