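import Mathlib

/-!
# Stage 2, job S2A: the rank of a bilinear form
-/

set_option autoImplicit false

namespace StrAlg

open Module

/-- independent functionals have dual vectors -/
theorem s2a_dual {k F : Type} [Field k] [AddCommGroup F] [Module k F] {n : ℕ} (f : Fin n → (F →ₗ[k] k))
    (hf : LinearIndependent k f) : ∃ y : Fin n → F, ∀ i j, f j (y i) = if i = j then 1 else 0 := by
  have hs : Function.Surjective (LinearMap.pi f : F →ₗ[k] (Fin n → k)) := by
    rw [← LinearMap.range_eq_top]
    by_contra hne
    obtain ⟨g, hg0, hg⟩ := Submodule.exists_le_ker_of_lt_top _ (lt_top_iff_ne_top.2 hne)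
    apply hg0
    have h1 : ∑ j, g (Pi.single j 1) • f j = 0 := by
      ext y
      have h2 : g (LinearMap.pi f y) = 0 := hg (LinearMap.mem_range_self _ y)
      have h3 : (LinearMap.pi f y : Fin n → k) = ∑ j, (f j y) • (Pi.single j 1 : Fin n → k) := by
        funext i
        rw [Finset.sum_apply, Finset.sum_eq_single i]
        · simp
        · intro j _ hj
          simp [Pi.single_eq_of_ne hj.symm]
        · intro h; exact absurd (Finset.mem_univ _) h
      rw [h3, map_sum] at h2
      rw [LinearMap.sum_apply, LinearMap.zero_apply, ← h2]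
      refine Finset.sum_congr rfl (fun j _ => ?_)
      rw [map_smul, LinearMap.smul_apply, smul_eq_mul, smul_eq_mul, mul_comm]
    have h4 := Fintype.linearIndependent_iff.1 hf _ h1
    refine LinearMap.pi_ext' (fun j => ?_)
    ext
    simpa using h4 j
  choose y hy using hs
  refine ⟨fun i => y (Pi.single i 1), fun i j => ?_⟩
  have := congrFun (hy (Pi.single i 1)) j
  rw [LinearMap.pi_apply] at this
  rw [this]
  by_cases h : i = j
  · subst h; simp
  · rw [if_neg h, Pi.single_eq_of_ne (Ne.symm h)]

/-- The rank of a bilinear form is at least `n` iff there are dual systems of `n` vectors.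

Proof: `Cardinal.toENat` of a rank is `≥ n` iff there are `n` linearly independent vectors in `range β` (`le_rank_iff_exists_linearIndependent_finset`
or `Module.le_rank_iff`; for infinite rank as well), say `β (x j)`. The vectors `β (x j)` in `Dual k F` are independent iff the map
`F → (Fin n → k)`, `y ↦ (β (x j) y)_j` is surjective (its range is not contained in a hyperplane). Conversely dual systems give
independence. -/
theorem bil_rank {k E F : Type} [Field k] [AddCommGroup E] [Module k E] [AddCommGroup F] [Module k F]
    (β : E →ₗ[k] F →ₗ[k] k) (n : ℕ) :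
    (n : ℕ∞) ≤ Cardinal.toENat (Module.rank k (LinearMap.range β)) ↔
      ∃ (x : Fin n → E) (y : Fin n → F), ∀ i j, β (x j) (y i) = if i = j then 1 else 0 := by
  rw [Cardinal.natCast_le_toENat]
  have hrk : (n : Cardinal) ≤ Module.rank k (LinearMap.range β) ↔ (n : Cardinal) ≤ LinearMap.rank β := Iff.rfl
  rw [hrk, LinearMap.le_rank_iff_exists_linearIndependent_finset]
  constructor
  · rintro ⟨s, hs, hli⟩
    let e : Fin n ≃ s := (Finset.equivFinOfCardEq hs).symm
    have hli2 : LinearIndependent k (fun i : Fin n => β ((e i : s) : E)) :=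
      hli.comp e e.injective
    obtain ⟨y, hy⟩ := s2a_dual _ hli2
    exact ⟨fun i => (e i : s), y, hy⟩
  · rintro ⟨x, y, h⟩
    have hinj : Function.Injective x := by
      intro i j hij
      by_contra hne
      have h1 := h i i
      have h2 := h i j
      rw [if_neg hne, ← hij, h1, if_pos rfl] at h2
      exact one_ne_zero h2
    refine ⟨Finset.univ.map ⟨x, hinj⟩, by simp, ?_⟩
    have hli : LinearIndependent k (fun j : Fin n => β (x j)) := by
      rw [Fintype.linearIndependent_iff]
      intro c hc i
      have h1 := LinearMap.congr_fun hc (y i)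
      simp only [LinearMap.sum_apply, LinearMap.smul_apply, h,
        LinearMap.zero_apply, smul_eq_mul, mul_ite, mul_one, mul_zero,
        Finset.sum_ite_eq, Finset.mem_univ, if_true] at h1
      exact h1
    have h2 : ∀ z : ((Finset.univ.map ⟨x, hinj⟩ : Finset E) : Set E), ∃ i : Fin n, x i = (z : E) := by
      intro z
      have := z.2
      simpa using this
    choose g hg using h2
    have hginj : Function.Injective g := by
      intro a b hab
      apply Subtype.ext
      rw [← hg a, ← hg b, hab]
    have h3 := hli.comp g hginj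
    have h4 : (fun z : ((Finset.univ.map ⟨x, hinj⟩ : Finset E) : Set E) => β (z : E)) =
        (fun j : Fin n => β (x j)) ∘ g := by
      funext z
      simp [hg]
    rw [h4]
    exact h3

/-- A nonsingular matrix of values is enough (multiply by the inverse matrix). -/
theorem bil_rank_of_det {k E F : Type} [Field k] [AddCommGroup E] [Module k E] [AddCommGroup F] [Module k F]
    (β : E →ₗ[k] F →ₗ[k] k) (n : ℕ) (x : Fin n → E) (y : Fin n → F)
    (h : (Matrix.of fun i j => β (x j) (y i)).det ≠ 0) :
    ∃ (x : Fin n → E) (y : Fin n → F), ∀ i j, β (x j) (y i) = if i = j then 1 else 0 := by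
  set M : Matrix (Fin n) (Fin n) k := Matrix.of fun i j => β (x j) (y i) with hM
  refine ⟨fun j => ∑ l, M⁻¹ l j • x l, y, fun i j => ?_⟩
  have h1 : (M * M⁻¹) i j = (1 : Matrix (Fin n) (Fin n) k) i j := by
    rw [Matrix.mul_nonsing_inv M (isUnit_iff_ne_zero.2 h)]
  rw [Matrix.mul_apply, Matrix.one_apply] at h1
  rw [← h1, map_sum, LinearMap.sum_apply]
  refine Finset.sum_congr rfl (fun l _ => ?_)
  rw [map_smul, LinearMap.smul_apply, smul_eq_mul, mul_comm]
  rfl

/-- the rank of the transposed form -/
theorem bil_rank_flip {k E F : Type} [Field k] [AddCommGroup E] [Module k E] [AddCommGroup F] [Module k F]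
    (β : E →ₗ[k] F →ₗ[k] k) :
    Cardinal.toENat (Module.rank k (LinearMap.range β)) = Cardinal.toENat (Module.rank k (LinearMap.range β.flip)) := by
  refine ENat.eq_of_forall_natCast_le_iff (fun n => ?_)
  rw [bil_rank, bil_rank]
  constructor
  · rintro ⟨x, y, h⟩
    refine ⟨y, x, fun i j => ?_⟩
    rw [LinearMap.flip_apply, h]
    simp only [eq_comm]
  · rintro ⟨x, y, h⟩
    refine ⟨y, x, fun i j => ?_⟩
    have := h j i
    rw [LinearMap.flip_apply] at this
    rw [this]
    simp only [eq_comm]

/-- A quotient of a subspace by the annihilator (with respect to the form `β`) of another subspace, as the range of a form. -/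
theorem rank_quot_eq {k N M : Type} [Field k] [AddCommGroup N] [Module k N] [AddCommGroup M] [Module k M]
    (β : N →ₗ[k] M →ₗ[k] k) (U V : Submodule k N) (W : Submodule k M) (hV : ∀ x, x ∈ V ↔ ∀ f ∈ W, β x f = 0) :
    Module.rank k (U ⧸ (V.comap U.subtype)) = Module.rank k (LinearMap.range (β.domRestrict₁₂ U W)) := by
  have hk : V.comap U.subtype = LinearMap.ker (β.domRestrict₁₂ U W) := by
    ext u
    rw [Submodule.mem_comap, LinearMap.mem_ker, Submodule.subtype_apply, hV]
    constructor
    · intro h
      ext w
      exact h w w.2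
    · intro h f hf
      exact LinearMap.congr_fun h ⟨f, hf⟩
  rw [hk]
  exact (LinearMap.quotKerEquivRange _).rank_eq

end StrAlg
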