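import Pool.Agent.Lib.MP_b9fd58_lc.S2Def
import Pool.Agent.Lib.MP_b9fd58_lc.S2A

/-!
# Stage 2, job S2B: the rank of a pair through homomorphisms
-/

set_option autoImplicit false

namespace StrAlg

open Module

variable {D : Dat} {k : Type} [Field k]

/-- The functionals `b ∘ G`. -/
def Pr.cS (p : Pr D k) (N : Md D k) : Submodule k (N.C →ₗ[k] k) where
  carrier := {l | ∃ G : N.C →ₗ[k] p.B.C, N.Hom p.B G ∧ p.b ∘ₗ G = l}
  zero_mem' := ⟨0, IsHom.zero', LinearMap.comp_zero _⟩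
  add_mem' := by
    rintro _ _ ⟨F, hF, rfl⟩ ⟨G, hG, rfl⟩
    exact ⟨F + G, hF.add' hG, LinearMap.comp_add _ _ _⟩
  smul_mem' := by
    rintro c _ ⟨F, hF, rfl⟩
    exact ⟨c • F, hF.smul' c, LinearMap.comp_smul _ _ _⟩

theorem Pr.mem_dnS_iff (p : Pr D k) (N : Md D k) (x : N.C) : x ∈ p.dnS N ↔ ∀ l ∈ p.cS N, l x = 0 := by
  constructor
  · rintro h _ ⟨G, hG, rfl⟩
    exact h G hG
  · intro h G hG
    exact h (p.b ∘ₗ G) ⟨G, hG, rfl⟩

/-- the rank is the rank of the form on `up × {b ∘ G}` (`rank_quot_eq` for `β = Dual.eval`) -/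
theorem Pr.rk_eq (p : Pr D k) (N : Md D k) :
    p.rk N = Cardinal.toENat (Module.rank k (LinearMap.range
      ((Dual.eval k N.C : N.C →ₗ[k] (N.C →ₗ[k] k) →ₗ[k] k).domRestrict₁₂ (p.upS N) (p.cS N)))) := by
  unfold Pr.rk
  congr 1
  exact rank_quot_eq (Dual.eval k N.C : N.C →ₗ[k] (N.C →ₗ[k] k) →ₗ[k] k) (p.upS N) (p.dnS N) (p.cS N)
    (fun x => p.mem_dnS_iff N x)

theorem s2b_ge (p : Pr D k) (N : Md D k) (n : ℕ) : (n : ℕ∞) ≤ p.rk N ↔
    ∃ (x : Fin n → p.upS N) (y : Fin n → p.cS N), ∀ i j,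
      (y i : N.C →ₗ[k] k) (x j : N.C) = if i = j then 1 else 0 := by
  have h := bil_rank (k := k) (E := p.upS N) (F := p.cS N)
    ((Dual.eval k N.C : N.C →ₗ[k] (N.C →ₗ[k] k) →ₗ[k] k).domRestrict₁₂ (p.upS N) (p.cS N)) n
  have e : p.rk N = Cardinal.toENat (Module.rank k (LinearMap.range
      ((Dual.eval k N.C : N.C →ₗ[k] (N.C →ₗ[k] k) →ₗ[k] k).domRestrict₁₂ (p.upS N) (p.cS N)))) := p.rk_eq N
  refine Iff.trans ?_ h
  rw [e]

/-- The rank is at least `n` iff there are dual systems of homomorphisms. -/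
theorem Pr.rk_ge_iff (p : Pr D k) (N : Md D k) (n : ℕ) : (n : ℕ∞) ≤ p.rk N ↔
    ∃ (f : Fin n → p.A.C →ₗ[k] N.C) (G : Fin n → N.C →ₗ[k] p.B.C), (∀ j, p.A.Hom N (f j)) ∧
      (∀ i, N.Hom p.B (G i)) ∧ ∀ i j, p.b (G i (f j p.a)) = if i = j then 1 else 0 := by
  rw [s2b_ge]
  constructor
  · rintro ⟨x, y, hxy⟩
    have hx : ∀ j, ∃ f : p.A.C →ₗ[k] N.C, p.A.Hom N f ∧ f p.a = (x j : N.C) := fun j => (x j).2
    have hy : ∀ i, ∃ G : N.C →ₗ[k] p.B.C, N.Hom p.B G ∧ p.b ∘ₗ G = (y i : N.C →ₗ[k] k) := fun i => (y i).2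
    choose f hf1 hf2 using hx
    choose G hG1 hG2 using hy
    refine ⟨f, G, hf1, hG1, fun i j => ?_⟩
    have h1 : (y i : N.C →ₗ[k] k) (x j : N.C) = if i = j then 1 else 0 := hxy i j
    rw [← h1, ← hf2 j, ← hG2 i]
    rfl
  · rintro ⟨f, G, hf, hG, h⟩
    refine ⟨fun j => ⟨f j p.a, f j, hf j, rfl⟩, fun i => ⟨p.b ∘ₗ G i, G i, hG i, rfl⟩, fun i j => ?_⟩
    exact h i j

/-- A nonsingular matrix of values bounds the rank from below. -/
theorem Pr.le_rk_of_det (p : Pr D k) {N : Md D k} {n : ℕ} (f : Fin n → p.A.C →ₗ[k] N.C)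
    (G : Fin n → N.C →ₗ[k] p.B.C) (hf : ∀ j, p.A.Hom N (f j)) (hG : ∀ i, N.Hom p.B (G i))
    (h : (p.mat f G).det ≠ 0) : (n : ℕ∞) ≤ p.rk N := by
  rw [s2b_ge]
  exact bil_rank_of_det (k := k) (E := p.upS N) (F := p.cS N) ((Dual.eval k N.C : N.C →ₗ[k] (N.C →ₗ[k] k) →ₗ[k] k).domRestrict₁₂ (p.upS N) (p.cS N)) n
    (fun j => ⟨f j p.a, f j, hf j, rfl⟩) (fun i => ⟨p.b ∘ₗ G i, G i, hG i, rfl⟩) h

theorem Pr.rk_pos (p : Pr D k) (N : Md D k) : p.rk N ≠ 0 ↔ p.Opn N := by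
  have h1 : p.rk N ≠ 0 ↔ ((1 : ℕ) : ℕ∞) ≤ p.rk N := by
    rw [Nat.cast_one, Order.one_le_iff_ne_zero]
  rw [h1, p.rk_ge_iff]
  constructor
  · rintro ⟨f, G, hf, hG, h⟩
    refine ⟨f 0, G 0, hf 0, hG 0, ?_⟩
    rw [h 0 0, if_pos rfl]
    exact one_ne_zero
  · rintro ⟨f, G, hf, hG, h⟩
    refine ⟨fun _ => f, fun _ => (p.b (G (f p.a)))⁻¹ • G, fun _ => hf, fun _ => hG.smul' _, fun i j => ?_⟩
    rw [LinearMap.smul_apply, map_smul, smul_eq_mul, inv_mul_cancel₀ h, if_pos (Subsingleton.elim i j)]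

/-- `ppS` is the span of `pp`, and `up`, `dn` are subspaces. -/
theorem Pr.rk_pp {p : Pr D k} {φ ψ : PP D k} {N : Md D k} (h1 : N.Q.pp φ = p.up N) (h2 : N.Q.pp ψ = p.dn N) :
    N.Q.rank φ ψ = p.rk N := by
  have e1 : N.Q.ppS φ = p.upS N := by
    unfold QMod.ppS
    rw [h1]
    exact Submodule.span_eq (p.upS N)
  have e2 : N.Q.ppS ψ = p.dnS N := by
    unfold QMod.ppS
    rw [h2]
    exact Submodule.span_eq (p.dnS N)
  unfold QMod.rank Pr.rk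
  rw [e1, e2]

/-- Retracts have smaller ranks. -/
theorem Pr.rk_ret (p : Pr D k) {M N : Md D k} (h : M.Ret N) : p.rk M ≤ p.rk N := by
  obtain ⟨i, r, hi, hr, hri⟩ := h
  refine ENat.forall_natCast_le_iff_le.1 fun n hn => ?_
  rw [p.rk_ge_iff] at hn ⊢
  obtain ⟨f, G, hf, hG, h⟩ := hn
  refine ⟨fun j => i ∘ₗ f j, fun j => G j ∘ₗ r, fun j => (hf j).comp' hi, fun j => hr.comp' (hG j), fun a b => ?_⟩
  have h1 : r (i (f b p.a)) = f b p.a := by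
    have h2 := congrArg (fun l : M.C →ₗ[k] M.C => l (f b p.a)) hri
    exact h2
  rw [LinearMap.comp_apply, LinearMap.comp_apply, h1]
  exact h a b

/-- Isomorphic modules have the same ranks. -/
theorem Pr.rk_iso (p : Pr D k) {M N : Md D k} (h : M.Iso N) : p.rk M = p.rk N := by
  obtain ⟨e, he⟩ := h
  have he' : N.Hom M e.symm.toLinearMap := by
    intro g n
    have h1 := he g (e.symm n)
    have h2 : e (M.Q.op g (e.symm n)) = N.Q.op g (e (e.symm n)) := h1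
    rw [e.apply_symm_apply] at h2
    change e.symm (N.Q.op g n) = M.Q.op g (e.symm n)
    rw [← h2, e.symm_apply_apply]
  refine le_antisymm (p.rk_ret ⟨e.toLinearMap, e.symm.toLinearMap, he, he', ?_⟩)
    (p.rk_ret ⟨e.symm.toLinearMap, e.toLinearMap, he', he, ?_⟩)
  · ext x
    simp
  · ext x
    simp

end StrAlg
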