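import Pool.Agent.Lib.MP_b9fd58_lc.UDa
import Pool.Agent.Lib.MP_b9fd58_lc.S2B

/-!
# Rank formulas: the source side, ranks (job UDb)
-/

set_option autoImplicit false

namespace StrAlg

open Module Polynomial

variable {D : Dat} {k : Type} [Field k] {S : Sides D}

theorem udb_comm {V W : Type} [AddCommGroup V] [Module k V] [AddCommGroup W] [Module k W] (A : V →ₗ[k] V)
    (B : W →ₗ[k] W) (φ : V →ₗ[k] W) (h : ∀ v, φ (A v) = B (φ v)) (g : k[X]) (v : V) :
    φ (aeval A g v) = aeval B g (φ v) := by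
  have hp : ∀ (n : ℕ) (v : V), φ ((A ^ n) v) = (B ^ n) (φ v) := by
    intro n
    induction n with
    | zero => intro v; rfl
    | succ n ih =>
      intro v
      rw [pow_succ', pow_succ', Module.End.mul_apply, Module.End.mul_apply, h, ih]
  induction g using Polynomial.induction_on' with
  | add p q hp hq => rw [map_add, map_add, LinearMap.add_apply, LinearMap.add_apply, map_add, hp, hq]
  | monomial n a =>
    rw [aeval_monomial, aeval_monomial, Module.End.mul_apply, Module.End.mul_apply,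
      Module.algebraMap_end_apply, Module.algebraMap_end_apply, map_smul, hp]

/-- a homomorphism to one component of the target -/
theorem udb_tgt (p : NF S k) {N : Md D k} (j : Fin p.m') (Γ : N.C →ₗ[k] (p.Y j).M.C) (hΓ : N.Hom (p.Y j).M Γ) :
    ∃ G : N.C →ₗ[k] p.pr.B.C, N.Hom p.pr.B G ∧ ∀ n, p.pr.b (G n) = p.b j (Γ n) := by
  classical
  refine ⟨LinearMap.comp (LinearMap.single k (fun j => (p.Y j).M.C) j) (show N.C →ₗ[k] (p.Y j).M.C from Γ), ?_, ?_⟩
  · intro g n
    have h5 := Md.pi_op_single (fun j => (p.Y j).M) g j (Γ n)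
    refine Eq.trans ?_ h5.symm
    exact congrArg (fun y => (Pi.single j y : ∀ j, (p.Y j).M.C)) (hΓ g n)
  · intro n
    exact pi_bwd (k := k) (Y := fun j => (p.Y j).M.C) p.b j (Γ n)

/-- a homomorphism from the source with given components -/
theorem udb_src (p : NF S k) {N : Md D k} (fa : ∀ i, (p.X i).M.C →ₗ[k] N.C) (hfa : ∀ i, (p.X i).M.Hom N (fa i)) :
    ∃ f : p.pr.A.C →ₗ[k] N.C, p.pr.A.Hom N f ∧
      ∀ i, f ∘ₗ LinearMap.single k (fun i => (p.X i).M.C) i = fa i := by
  classical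
  let f0 : (∀ i, (p.X i).M.C) →ₗ[k] N.C :=
    ∑ i, (fa i) ∘ₗ (LinearMap.proj i : (∀ i, (p.X i).M.C) →ₗ[k] (p.X i).M.C)
  have h0 : ∀ m : (∀ i, (p.X i).M.C), f0 m = ∑ i, fa i (m i) := by
    intro m
    show (∑ i, (fa i) ∘ₗ (LinearMap.proj i : (∀ i, (p.X i).M.C) →ₗ[k] (p.X i).M.C)) m = _
    rw [LinearMap.sum_apply]
    rfl
  refine ⟨f0, ?_, ?_⟩
  · intro g m
    have e1 : f0 (p.pr.A.Q.op g m) = ∑ i, fa i ((p.X i).M.Q.op g ((m : ∀ i, (p.X i).M.C) i)) := h0 _
    have e2 : f0 m = ∑ i, fa i ((m : ∀ i, (p.X i).M.C) i) := h0 _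
    have e3 : ∑ i, fa i ((p.X i).M.Q.op g ((m : ∀ i, (p.X i).M.C) i)) =
        N.Q.op g (∑ i, fa i ((m : ∀ i, (p.X i).M.C) i)) := by
      rw [map_sum]
      exact Finset.sum_congr rfl (fun i _ => hfa i g _)
    exact e1.trans (e3.trans (congrArg (N.Q.op g) e2.symm))
  · intro i
    refine LinearMap.ext fun x => ?_
    have e1 : f0 (Pi.single i x : ∀ i, (p.X i).M.C) = fa i x := by
      rw [h0, Finset.sum_eq_single_of_mem i (Finset.mem_univ i)]
      · rw [Pi.single_eq_same]
      · intro j _ hj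
        rw [Pi.single_eq_of_ne hj, map_zero]
    exact e1

theorem udb_actX_X (p : NF S k) (i : Fin p.m) (v : Fin (p.X i).n → k) :
    p.actX Polynomial.X (Pi.single i v) = Pi.single i ((p.X i).T v) := by
  funext j
  show aeval (p.X j).T.toLinearMap Polynomial.X ((Pi.single i v : (i : Fin p.m) → (Fin (p.X i).n → k)) j) = _
  rw [aeval_X]
  by_cases hj : j = i
  · subst hj
    rw [Pi.single_eq_same, Pi.single_eq_same]
    rfl
  · rw [Pi.single_eq_of_ne hj, Pi.single_eq_of_ne hj, map_zero]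

/-- the components outside the band are zero -/
theorem udb_USpan_zero (p : NF S k) (c : Str S) {i : Fin p.m} (hi : (p.X i).x ≠ c) :
    ∀ u ∈ p.USpan c, u i = 0 := by
  intro u hu
  unfold NF.USpan at hu
  induction hu using Submodule.span_induction with
  | mem x hx =>
    obtain ⟨g, j, o, q, r, y, -, rfl⟩ := hx
    show aeval (p.X i).T.toLinearMap g (p.OmVs c j o q r y i) = 0
    unfold NF.OmVs
    rw [if_neg hi, map_zero]
  | zero => rfl
  | add x y _ _ hx hy => rw [Pi.add_apply, hx, hy, add_zero]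
  | smul a x _ hx => rw [Pi.smul_apply, hx, smul_zero]

section
variable {c : Str S} {l : ℕ} {V : Type} [AddCommGroup V] [Module k V] {T : V ≃ₗ[k] V} (h : c.PerOK l T) (p : NF S k)

/-- Proof: `Pr.rk_ge_iff` gives `f`, `G` with `b (G i (f j a)) = δ`; `Φ j := PsX (f j)`; if `∑ r j • Φ j` vanishes on `USpan` then `val_zero_left` for
`∑ r j • f j` (`PsX_sum`) gives `r = 0`. -/
theorem NF.rk_left_le (hl : c.MinPer l) (hs : p.Sep c) (hc : p.Crit c)
    (h0 : ∀ (j : Fin p.m') (g : V →ₗ[k] (Fin (p.Y j).n → k)), (∀ v, g (T v) = (p.Y j).T (g v)) → g = 0) {n : ℕ}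
    (hn : (n : ℕ∞) ≤ p.pr.rk (c.ME l T h)) :
    ∃ Φ : Fin n → ((i : Fin p.m) → (Fin (p.X i).n → k)) →ₗ[k] V, (∀ i e, Φ i (p.actX Polynomial.X e) = T (Φ i e)) ∧
      ∀ r : Fin n → k, (∀ u ∈ p.USpan c, ∑ i, r i • Φ i u = 0) → r = 0 := by
  obtain ⟨f, G, hf, hG, hδ⟩ := (p.pr.rk_ge_iff (c.ME l T h) n).1 hn
  refine ⟨fun j => p.PsX h (f j), fun i e => p.PsX_comm h hl (hf i) e, fun r hr => ?_⟩
  have hF : p.pr.A.Hom (c.ME l T h) (∑ j, r j • f j) :=
    IsHom.sum' _ _ (fun j _ => (hf j).smul' (r j))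
  have hU : ∀ u ∈ p.USpan c, p.PsX h (∑ j, r j • f j) u = 0 := by
    intro u hu
    rw [p.PsX_sum h, LinearMap.sum_apply]
    have := hr u hu
    simpa using this
  funext i
  have h1 := p.val_zero_left h hl hs hc h0 hF hU (hG i)
  have h2 : p.pr.b (G i ((∑ j, r j • f j) p.pr.a)) = ∑ j, r j * p.pr.b (G i (f j p.pr.a)) := by
    rw [LinearMap.sum_apply, map_sum, map_sum]
    refine Finset.sum_congr rfl (fun j _ => ?_)
    rw [LinearMap.smul_apply, map_smul, map_smul, smul_eq_mul]
  rw [h2] at h1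
  simp only [hδ] at h1
  rw [Finset.sum_eq_single_of_mem i (Finset.mem_univ i)] at h1
  · rw [if_pos rfl, mul_one] at h1
    exact h1
  · intro j _ hj
    rw [if_neg (Ne.symm hj), mul_zero]

/-- Proof: homomorphisms `f i` with the band part `Φ i` on the components with `(p.X i).x = c` (`exists_psX`); on `USpan` the other
components vanish. By `val_left` the functionals `G ↦ b (G (f i a))` on the space of all homomorphisms `G` are independent (`∑ r i f i` has
zero values, so its band part kills all `aeval` multiples of the vectors), dual vectors by `s2a_dual`; `Pr.rk_ge_iff`. -/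
theorem NF.rk_left_ge (hl : c.MinPer l) (hs : p.Sep c) (hc : p.Crit c) {n : ℕ}
    (Φ : Fin n → ((i : Fin p.m) → (Fin (p.X i).n → k)) →ₗ[k] V) (hΦ : ∀ i e, Φ i (p.actX Polynomial.X e) = T (Φ i e))
    (hi : ∀ r : Fin n → k, (∀ u ∈ p.USpan c, ∑ i, r i • Φ i u = 0) → r = 0) :
    (n : ℕ∞) ≤ p.pr.rk (c.ME l T h) := by
  classical
  -- the homomorphisms
  have hex : ∀ i : Fin n, ∃ f : p.pr.A.C →ₗ[k] (c.ME l T h).C, p.pr.A.Hom (c.ME l T h) f ∧
      ∀ u ∈ p.USpan c, p.PsX h f u = Φ i u := by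
    intro i
    have hcomp : ∀ a : Fin p.m, ∃ fa : (p.X a).M.C →ₗ[k] (c.ME l T h).C, (p.X a).M.Hom (c.ME l T h) fa ∧
        ((p.X a).x = c → psX h (p.X a) fa = Φ i ∘ₗ LinearMap.single k (fun i => Fin (p.X i).n → k) a) := by
      intro a
      by_cases ha : (p.X a).x = c
      · obtain ⟨fa, h1, h2⟩ := exists_psX hl h (p.X a) ha
          (Φ i ∘ₗ LinearMap.single k (fun i => Fin (p.X i).n → k) a) (fun v => by
            have h3 := hΦ i (Pi.single a v)
            rw [udb_actX_X] at h3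
            exact h3)
        exact ⟨fa, h1, fun _ => h2⟩
      · exact ⟨0, IsHom.zero', fun h' => absurd h' ha⟩
    choose fa hfa1 hfa2 using hcomp
    obtain ⟨f, hf1, hf2⟩ := udb_src p fa hfa1
    refine ⟨f, hf1, fun u hu => ?_⟩
    unfold NF.PsX
    rw [LinearMap.sum_apply]
    have hu2 : u = ∑ a, (Pi.single a (u a) : (i : Fin p.m) → (Fin (p.X i).n → k)) := by
      rw [Finset.univ_sum_single]
    conv_rhs => rw [hu2, map_sum]
    refine Finset.sum_congr rfl (fun a _ => ?_)
    rw [LinearMap.comp_apply, LinearMap.proj_apply]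
    have e1 : p.fX h f a = fa a := hf2 a
    rw [e1]
    by_cases ha : (p.X a).x = c
    · rw [hfa2 a ha]
      rfl
    · rw [udb_USpan_zero p c ha u hu, map_zero, Pi.single_zero, map_zero]
  choose f hf1 hf2 using hex
  -- the space of homomorphisms to the target
  let F : Submodule k ((c.ME l T h).C →ₗ[k] p.pr.B.C) :=
    { carrier := {G | (c.ME l T h).Hom p.pr.B G}
      zero_mem' := IsHom.zero'
      add_mem' := fun hG hG' => IsHom.add' hG hG'
      smul_mem' := fun a _ hG => IsHom.smul' hG a }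
  let L : Fin n → (F →ₗ[k] k) := fun i =>
    { toFun := fun G => p.pr.b ((G : (c.ME l T h).C →ₗ[k] p.pr.B.C) (f i p.pr.a))
      map_add' := fun G G' => by
        rw [Submodule.coe_add, LinearMap.add_apply, map_add]
      map_smul' := fun a G => by
        rw [Submodule.coe_smul, LinearMap.smul_apply, map_smul, smul_eq_mul, RingHom.id_apply, smul_eq_mul] }
  have hL : LinearIndependent k L := by
    rw [Fintype.linearIndependent_iff]
    intro r hr
    have hF : p.pr.A.Hom (c.ME l T h) (∑ j, r j • f j) :=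
      IsHom.sum' _ _ (fun j _ => IsHom.smul' (hf1 j) (r j))
    have hval : ∀ G : (c.ME l T h).C →ₗ[k] p.pr.B.C, (c.ME l T h).Hom p.pr.B G →
        p.pr.b (G ((∑ j, r j • f j) p.pr.a)) = 0 := by
      intro G hG
      have h3 := LinearMap.congr_fun hr (⟨G, hG⟩ : F)
      rw [LinearMap.sum_apply] at h3
      rw [LinearMap.sum_apply, map_sum, map_sum]
      refine Eq.trans (Finset.sum_congr rfl (fun j _ => ?_)) h3
      rw [LinearMap.smul_apply, map_smul, map_smul]
      rfl
    have hgen : ∀ (j : Fin p.m') (o : Bool) (q r' : ℤ) (y : Fin (p.Y j).n → k), Ord c (p.Y j).x o q r' →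
        p.PsX h (∑ j, r j • f j) (p.OmVs c j o q r' y) = 0 := by
      intro j o q r' y ho
      rw [← Module.forall_dual_apply_eq_zero_iff k]
      intro lam
      rw [← p.val_left h hl hs hc hF j ho lam y]
      obtain ⟨G, hG1, hG2⟩ := udb_tgt p j (gm h (p.Y j).ok o q r' lam y) (gm_hom ho lam y)
      exact (hG2 _).symm.trans (hval G hG1)
    have hU : ∀ u ∈ p.USpan c, p.PsX h (∑ j, r j • f j) u = 0 := by
      intro u hu
      unfold NF.USpan at hu
      induction hu using Submodule.span_induction with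
      | mem x hx =>
        obtain ⟨g, j, o, q, r', y, ho, rfl⟩ := hx
        rw [← p.actX_aeval, udb_comm (p.actX Polynomial.X) T.toLinearMap _ (fun v => p.PsX_comm h hl hF v),
          hgen j o q r' y ho, map_zero]
      | zero => rw [map_zero]
      | add x y _ _ hx hy => rw [map_add, hx, hy, add_zero]
      | smul a x _ hx => rw [map_smul, hx, smul_zero]
    have hr0 := hi r (fun u hu => by
      have h4 := hU u hu
      rw [p.PsX_sum h, LinearMap.sum_apply] at h4
      rw [← h4]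
      refine Finset.sum_congr rfl (fun j _ => ?_)
      rw [LinearMap.smul_apply, hf2 j u hu])
    intro i
    rw [hr0]
    rfl
  obtain ⟨y, hy⟩ := s2a_dual L hL
  exact (p.pr.rk_ge_iff (c.ME l T h) n).2 ⟨f, fun i => (y i : (c.ME l T h).C →ₗ[k] p.pr.B.C), hf1,
    fun i => (y i).2, fun i j => hy i j⟩

end

end StrAlg
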