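import Pool.Agent.Lib.MP_b9fd58_lc.UCb
import Pool.Agent.Lib.MP_b9fd58_lc.If2Defs
import Pool.Agent.Lib.MP_b9fd58_lc.S2B

/-!
# Rank formulas: infinite rank (job UE)
-/

set_option autoImplicit false

namespace StrAlg

open Module Polynomial

variable {D : Dat} {k : Type} [Field k] {S : Sides D}

/-- the value on two graph maps -/
theorem ue_val {c : Str S} {l : ℕ} {V : Type} [AddCommGroup V] [Module k V] {T : V ≃ₗ[k] V} {X Y : Blk S k} (a : X.M.C)
    (b : Dual k Y.M.C) (hl : c.MinPer l) (h : c.PerOK l T) {o : Bool} {p q : ℤ} {o' : Bool} {q' r : ℤ}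
    {φ : (Fin X.n → k) →ₗ[k] k} {y : Fin Y.n → k} {s : k[X]} {N : ℤ}
    (hs : Enc s N (cof X Y a b c l o p q o' q' r φ y)) (v : V) (lam : V →ₗ[k] k) :
    b (gm h Y.ok o' q' r lam y (gm X.ok h o p q φ v a)) = lam ((T ^ N).symm (aeval T.toLinearMap s v)) := by
  rw [val_gm_gm X Y a b h (c.Z_univ hl.2.1.2)]
  have hfin := cof_finite X Y a b c hl.1 o p q o' q' r φ y
  rw [cof_sum X Y a b c hl.1 h o p q o' q' r φ y v hfin.toFinset
    (fun t ht => hfin.mem_toFinset.mpr ht),
    hs.aeval T v hfin.toFinset (fun t ht => hfin.mem_toFinset.mpr ht), LinearEquiv.symm_apply_apply]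

/-- independent vectors have dual functionals -/
theorem ue_dual {V : Type} [AddCommGroup V] [Module k V] {n : ℕ} (u : Fin n → V) (hu : LinearIndependent k u) :
    ∃ lam : Fin n → (V →ₗ[k] k), ∀ i j, lam i (u j) = if i = j then 1 else 0 := by
  have h : ∀ i, ∃ g : V →ₗ[k] k, ∀ j, g (u j) = if i = j then 1 else 0 := by
    intro i
    obtain ⟨g, hg⟩ := LinearMap.exists_extend ((Finsupp.lapply i : (Fin n →₀ k) →ₗ[k] k) ∘ₗ hu.repr)
    refine ⟨g, fun j => ?_⟩
    have h1 : g (u j) = (g ∘ₗ (Submodule.span k (Set.range u)).subtype) ⟨u j, Submodule.subset_span ⟨j, rfl⟩⟩ := rfl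
    have h2 := hu.repr_eq_single j ⟨u j, Submodule.subset_span ⟨j, rfl⟩⟩ rfl
    rw [h1, hg, LinearMap.comp_apply, h2, Finsupp.lapply_apply, Finsupp.single_apply]
    by_cases hij : j = i
    · rw [if_pos hij, if_pos hij.symm]
    · rw [if_neg hij, if_neg (Ne.symm hij)]
  choose lam hlam using h
  exact ⟨lam, hlam⟩

/-- The rank of a pair that violates the criterion at `c` is infinite if no nonzero polynomial has finite rank on `V`.

Proof: `om_zero_iff`: there are `i`, `j` and a nonzero `s ∈ (rdat c l (p.X i) (p.Y j) ..).Om`; so there are graph maps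
`f v = gm (p.X i).ok h o c' q φ v`, `G lam = gm h (p.Y j).ok o' q' r lam y` with the value `lam (T ^ (-N) (aeval T s v))` (see the proof of
`val_ff`). Choose `v_1, …, v_n` with independent `aeval T s (v_i)` and dual functionals `lam_i` of the vectors
`T ^ (-N) (aeval T s v_i)`. `Pr.rk_ge_iff` for the maps composed with `proj i`, `single j`. -/
theorem NF.rk_top {c : Str S} {l : ℕ} {V : Type} [AddCommGroup V] [Module k V] {T : V ≃ₗ[k] V} (hl : c.MinPer l)
    (h : c.PerOK l T) (p : NF S k) (hc : ¬ p.Crit c)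
    (hV : ∀ s : k[X], s ≠ 0 → ¬ FiniteDimensional k (LinearMap.range (aeval T.toLinearMap s))) :
    p.pr.rk (c.ME l T h) = ⊤ := by
  classical
  obtain ⟨i, j, hij⟩ : ∃ i j, ¬ CritB (p.X i) (p.Y j) (p.a i) (p.b j) c := by
    by_contra hcon
    push Not at hcon
    exact hc hcon
  have h1 : ¬ ∀ s ∈ (rdat c l (p.X i) (p.Y j) (p.a i) (p.b j)).Om, s = 0 :=
    fun hh => hij ((om_zero_iff hl _ _ _ _).1 hh)
  push Not at h1
  obtain ⟨s, ⟨o, p', q, o', q', r, φ, y, N, ho, ho', hs⟩, hs0⟩ := h1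
  refine ENat.eq_top_iff_forall_ge.2 fun n => ?_
  have h2 := hV s hs0
  have h3 : (n : Cardinal) ≤ Module.rank k (LinearMap.range (aeval T.toLinearMap s)) := by
    have h30 : Cardinal.aleph0 ≤ Module.rank k (LinearMap.range (aeval T.toLinearMap s)) := by
      rw [← not_lt, Module.rank_lt_aleph0_iff]
      exact h2
    exact Cardinal.natCast_lt_aleph0.le.trans h30
  obtain ⟨w, hw⟩ := exists_linearIndependent_of_le_rank h3
  have h4 : ∀ t, ∃ v, aeval T.toLinearMap s v = (w t : V) := fun t => (w t).2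
  choose v hv using h4
  have hu : LinearIndependent k (fun t => (T ^ N).symm (aeval T.toLinearMap s (v t))) := by
    have h5 : LinearIndependent k (fun t => (w t : V)) :=
      hw.map' (Submodule.subtype _) (Submodule.ker_subtype _)
    have h6 := h5.map' (T ^ N).symm.toLinearMap (LinearEquiv.ker _)
    have h7 : (fun t => (T ^ N).symm (aeval T.toLinearMap s (v t))) =
        (T ^ N).symm.toLinearMap ∘ fun t => (w t : V) := by
      funext t
      rw [hv]
      rfl
    rw [h7]
    exact h6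
  obtain ⟨lam, hlam⟩ := ue_dual _ hu
  rw [Pr.rk_ge_iff]
  refine ⟨fun t => gm (p.X i).ok h o p' q φ (v t) ∘ₗ (LinearMap.proj i : (∀ i, (p.X i).M.C) →ₗ[k] (p.X i).M.C),
    fun t => LinearMap.single k (fun j => (p.Y j).M.C) j ∘ₗ gm h (p.Y j).ok o' q' r (lam t) y, ?_, ?_, ?_⟩
  · intro t g m
    exact gm_hom (h₁ := (p.X i).ok) (h₂ := h) ho φ (v t) g (m i)
  · intro t g m
    have h8 := gm_hom (h₁ := h) (h₂ := (p.Y j).ok) ho' (lam t) y g m
    have h9 := Md.pi_op_single (fun j => (p.Y j).M) g j (gm h (p.Y j).ok o' q' r (lam t) y m)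
    show (Pi.single j (gm h (p.Y j).ok o' q' r (lam t) y ((c.ME l T h).Q.op g m)) : ∀ j, (p.Y j).M.C) = _
    rw [h8]
    exact h9.symm
  · intro t t'
    have h8 := pi_bwd (k := k) (Y := fun j => (p.Y j).M.C) p.b j
      (gm h (p.Y j).ok o' q' r (lam t) y (gm (p.X i).ok h o p' q φ (v t') (p.a i)))
    have h9 := ue_val (p.a i) (p.b j) hl h hs (v t') (lam t)
    refine h8.trans (h9.trans ?_)
    exact hlam t t'

end StrAlg
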