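import Pool.Agent.Lib.MP_b9fd58_lc.UFb
import Pool.Agent.Lib.MP_b9fd58_lc.S2B

/-!
# Rank formulas: the target side, ranks (job UFc)
-/

set_option autoImplicit false

namespace StrAlg

open Module Polynomial

variable {D : Dat} {k : Type} [Field k] {S : Sides D}

/-- an invariant subspace that contains the functionals `OmD` contains `LD` -/
theorem ufc_LD_le (p : NF S k) (c : Str S)
    (W : Submodule k (Dual k ((j : Fin p.m') → (Fin (p.Y j).n → k))))
    (hinv : ∀ u ∈ W, p.endY.dualMap u ∈ W)
    (hgen : ∀ (i : Fin p.m) (o : Bool) (q r : ℤ) (φ : Dual k (Fin (p.X i).n → k)),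
      Ord (p.X i).x c o q r → p.OmD c i o q r φ ∈ W) : p.LD c ≤ W := by
  unfold NF.LD
  rw [Submodule.span_le]
  rintro u ⟨g, i, o, q, r, φ, ho, rfl⟩
  have hW : ∀ (g : k[X]) (u : Dual k ((j : Fin p.m') → (Fin (p.Y j).n → k))), u ∈ W →
      aeval p.endY.dualMap g u ∈ W := by
    intro g
    refine Polynomial.induction_on' g ?_ ?_
    · intro g₁ g₂ h₁ h₂ u hu
      rw [map_add, LinearMap.add_apply]
      exact W.add_mem (h₁ u hu) (h₂ u hu)
    · intro n a u hu
      rw [aeval_monomial, Module.End.mul_apply, Module.algebraMap_end_apply]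
      refine W.smul_mem a ?_
      induction n generalizing u with
      | zero => rw [pow_zero]; exact hu
      | succ n ih =>
        rw [pow_succ, Module.End.mul_apply]
        exact ih _ (hinv u hu)
  exact hW g _ (hgen i o q r φ ho)

/-- the functionals in `LD` see only the components of the band `c` -/
theorem ufc_LD_zero (p : NF S k) (c : Str S) (u : Dual k ((j : Fin p.m') → (Fin (p.Y j).n → k)))
    (hu : u ∈ p.LD c) (y : (j : Fin p.m') → (Fin (p.Y j).n → k))
    (hy : ∀ j, (p.Y j).x = c → y j = 0) : u y = 0 := by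
  let W : Submodule k (Dual k ((j : Fin p.m') → (Fin (p.Y j).n → k))) :=
    { carrier := {u | ∀ y : (j : Fin p.m') → (Fin (p.Y j).n → k), (∀ j, (p.Y j).x = c → y j = 0) → u y = 0}
      zero_mem' := fun y _ => rfl
      add_mem' := fun {u v} hu hv y hy => by
        rw [LinearMap.add_apply, hu y hy, hv y hy, add_zero]
      smul_mem' := fun a u hu y hy => by
        rw [LinearMap.smul_apply, hu y hy, smul_zero] }
  have hW : p.LD c ≤ W := by
    refine ufc_LD_le p c W ?_ ?_
    · intro u hu y hy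
      show u (p.endY y) = 0
      refine hu _ fun j hj => ?_
      show (p.Y j).T (y j) = 0
      rw [hy j hj, map_zero]
    · intro i o q r φ _ y hy
      show ∑ j, p.OmLs c i o q r φ j (y j) = 0
      refine Finset.sum_eq_zero fun j _ => ?_
      unfold NF.OmLs
      split_ifs with hj
      · rw [hy j hj]
        exact hl2_OmL_zero _ _ _ _ _ _ _ _
      · rfl
  exact hW hu y hy

section
variable {c : Str S} {l : ℕ} {V : Type} [AddCommGroup V] [Module k V] {T : V ≃ₗ[k] V} (h : c.PerOK l T) (p : NF S k)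

/-- Proof: `Pr.rk_ge_iff` gives `f`, `G` with `b (G i (f j a)) = δ`; `Γ i := PsY (G i)`; if `∑ r i * u (Γ i v) = 0` for all `u ∈ LD`, `v` then
`val_zero_right` for `∑ r i • G i` (`PsY_sum`) gives `r = 0`. -/
theorem NF.rk_right_le (hl : c.MinPer l) (hs : p.Sep c) (hc : p.Crit c)
    (h0 : ∀ (i : Fin p.m) (g : (Fin (p.X i).n → k) →ₗ[k] V), (∀ v, g ((p.X i).T v) = T (g v)) → g = 0) {n : ℕ}
    (hn : (n : ℕ∞) ≤ p.pr.rk (c.ME l T h)) :
    ∃ Γ : Fin n → V →ₗ[k] ((j : Fin p.m') → (Fin (p.Y j).n → k)), (∀ i v, Γ i (T v) = p.endY (Γ i v)) ∧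
      ∀ r : Fin n → k, (∀ u ∈ p.LD c, ∀ v, ∑ i, r i * u (Γ i v) = 0) → r = 0 := by
  rw [Pr.rk_ge_iff] at hn
  obtain ⟨f, G, hf, hG, hfG⟩ := hn
  refine ⟨fun i => p.PsY h (G i), fun i v => p.PsY_comm h hl (hG i) v, fun r hr => ?_⟩
  funext j0
  have hGs : (c.ME l T h).Hom p.pr.B (∑ i, r i • G i) :=
    IsHom.sum' Finset.univ (fun i => r i • G i) fun i _ => IsHom.smul' (hG i) (r i)
  have h1 := p.val_zero_right h hl hs hc h0 (hf j0) hGs (fun u hu v => by
    rw [p.PsY_sum h Finset.univ r G, LinearMap.sum_apply, map_sum]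
    rw [← hr u hu v]
    refine Finset.sum_congr rfl fun i _ => ?_
    rw [LinearMap.smul_apply, map_smul, smul_eq_mul])
  rw [LinearMap.sum_apply, map_sum] at h1
  have h2 : ∑ i, p.pr.b ((r i • G i) (f j0 p.pr.a)) = r j0 := by
    rw [Finset.sum_eq_single j0]
    · rw [LinearMap.smul_apply, map_smul, hfG, if_pos rfl, smul_eq_mul, mul_one]
    · intro i _ hi
      rw [LinearMap.smul_apply, map_smul, hfG, if_neg hi, smul_zero]
    · intro hne
      exact absurd (Finset.mem_univ _) hne
  rw [← h2]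
  exact h1

/-- Proof: homomorphisms `G i` with the band part `Γ i` on the components with `(p.Y j).x = c` (`exists_psY`); the functionals `OmD`
do not see the other components. By `val_right` the functionals `f ↦ b (G i (f a))` on the space of all homomorphisms `f` are independent;
dual vectors by `s2a_dual`; `Pr.rk_ge_iff` (the graph map `X_i → M(c, V)` is composed with `proj i`). -/
theorem NF.rk_right_ge (hl : c.MinPer l) (hs : p.Sep c) (hc : p.Crit c) {n : ℕ}
    (Γ : Fin n → V →ₗ[k] ((j : Fin p.m') → (Fin (p.Y j).n → k))) (hΓ : ∀ i v, Γ i (T v) = p.endY (Γ i v))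
    (hi : ∀ r : Fin n → k, (∀ u ∈ p.LD c, ∀ v, ∑ i, r i * u (Γ i v) = 0) → r = 0) :
    (n : ℕ∞) ≤ p.pr.rk (c.ME l T h) := by
  classical
  -- the homomorphisms with the given band parts
  have hex : ∀ (i : Fin n) (j : Fin p.m'), ∃ g : (c.ME l T h).C →ₗ[k] (p.Y j).M.C,
      (c.ME l T h).Hom (p.Y j).M g ∧ ((p.Y j).x = c → psY h (p.Y j) g = LinearMap.proj j ∘ₗ Γ i) := by
    intro i j
    by_cases hj : (p.Y j).x = c
    · obtain ⟨g, hg, hg'⟩ := exists_psY hl h (p.Y j) hj (LinearMap.proj j ∘ₗ Γ i) (fun v => by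
        show Γ i (T v) j = (p.Y j).T (Γ i v j)
        rw [hΓ]
        rfl)
      exact ⟨g, hg, fun _ => hg'⟩
    · exact ⟨0, IsHom.zero', fun hj' => absurd hj' hj⟩
  choose g hg hgc using hex
  let G : Fin n → (c.ME l T h).C →ₗ[k] p.pr.B.C := fun i => LinearMap.pi (g i)
  have hG : ∀ i, (c.ME l T h).Hom p.pr.B (G i) := by
    intro i x m
    funext j
    exact hg i j x m
  have hPs : ∀ u ∈ p.LD c, ∀ i v, u (p.PsY h (G i) v) = u (Γ i v) := by
    intro u hu i v
    rw [← sub_eq_zero, ← map_sub]
    refine ufc_LD_zero p c u hu _ fun j hj => ?_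
    show psY h (p.Y j) ((LinearMap.proj j : (∀ j, (p.Y j).M.C) →ₗ[k] (p.Y j).M.C) ∘ₗ G i) v - Γ i v j = 0
    have h1 : (LinearMap.proj j : (∀ j, (p.Y j).M.C) →ₗ[k] (p.Y j).M.C) ∘ₗ G i = g i j := by
      refine LinearMap.ext fun m => ?_
      rfl
    rw [h1, hgc i j hj]
    exact sub_self _
  -- the space of all homomorphisms
  let F : Submodule k (p.pr.A.C →ₗ[k] (c.ME l T h).C) :=
    { carrier := {f | p.pr.A.Hom (c.ME l T h) f}
      zero_mem' := IsHom.zero'
      add_mem' := fun {f f'} hf hf' => IsHom.add' hf hf'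
      smul_mem' := fun a f hf => IsHom.smul' hf a }
  let ev : Fin n → (F →ₗ[k] k) := fun i =>
    { toFun := fun f => p.pr.b (G i (f.1 p.pr.a))
      map_add' := fun f f' => by
        show p.pr.b (G i ((f.1 + f'.1) p.pr.a)) = _
        rw [LinearMap.add_apply, map_add, map_add]
      map_smul' := fun a f => by
        show p.pr.b (G i ((a • f.1) p.pr.a)) = _
        rw [LinearMap.smul_apply, map_smul, map_smul]
        rfl }
  have hli : LinearIndependent k ev := by
    rw [Fintype.linearIndependent_iff]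
    intro r hr
    have hr0 : r = 0 := by
      apply hi
      have hGs : (c.ME l T h).Hom p.pr.B (∑ i, r i • G i) :=
        IsHom.sum' Finset.univ (fun i => r i • G i) fun i _ => IsHom.smul' (hG i) (r i)
      let W : Submodule k (Dual k ((j : Fin p.m') → (Fin (p.Y j).n → k))) :=
        { carrier := {u | ∀ v, u (p.PsY h (∑ i, r i • G i) v) = 0}
          zero_mem' := fun v => rfl
          add_mem' := fun {u u'} hu hu' v => by
            rw [LinearMap.add_apply, hu v, hu' v, add_zero]
          smul_mem' := fun a u hu v => by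
            rw [LinearMap.smul_apply, hu v, smul_zero] }
      have hW : p.LD c ≤ W := by
        refine ufc_LD_le p c W ?_ ?_
        · intro u hu v
          show u (p.endY (p.PsY h (∑ i, r i • G i) v)) = 0
          rw [← p.PsY_comm h hl hGs v]
          exact hu (T v)
        · intro i o q s φ ho v
          rw [← p.val_right h hl hs hc hGs i ho φ v]
          have hfm : p.pr.A.Hom (c.ME l T h) (gm (p.X i).ok h o q s φ v ∘ₗ
              (LinearMap.proj i : (∀ i, (p.X i).M.C) →ₗ[k] (p.X i).M.C)) := by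
            intro x m
            exact gm_hom ho φ v x (m i)
          have h2 := LinearMap.congr_fun hr ⟨_, hfm⟩
          rw [LinearMap.sum_apply, LinearMap.zero_apply] at h2
          rw [LinearMap.sum_apply, map_sum, ← h2]
          refine Finset.sum_congr rfl fun i' _ => ?_
          rw [LinearMap.smul_apply, map_smul]
          rfl
      intro u hu v
      have h3 : u (p.PsY h (∑ i, r i • G i) v) = 0 := hW hu v
      rw [p.PsY_sum h Finset.univ r G, LinearMap.sum_apply, map_sum] at h3
      rw [← h3]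
      refine Finset.sum_congr rfl fun i _ => ?_
      rw [LinearMap.smul_apply, map_smul, smul_eq_mul, hPs u hu i v]
    intro i
    rw [hr0]
    rfl
  obtain ⟨y, hy⟩ := s2a_dual ev hli
  rw [Pr.rk_ge_iff]
  refine ⟨fun j => (y j).1, G, fun j => (y j).2, hG, fun i j => ?_⟩
  have h4 : ev i (y j) = if j = i then 1 else 0 := hy j i
  have h5 : ev i (y j) = p.pr.b (G i ((y j).1 p.pr.a)) := rfl
  rw [← h5, h4]
  simp only [eq_comm]

end

end StrAlg
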