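import Pool.Agent.Lib.MP_b9fd58_lc.UBb
import Pool.Agent.Lib.MP_b9fd58_lc.UDb
import Pool.Agent.Lib.MP_b9fd58_lc.UE
import Pool.Agent.Lib.MP_b9fd58_lc.UFc

/-!
# Rank formulas
-/

set_option autoImplicit false

namespace StrAlg

open Module Polynomial SAlg

variable {D : Dat} {k : Type} [Field k] {S : Sides D}

theorem ug_eq {x : ℕ∞} {m : ℕ} (h : ∀ n : ℕ, (n : ℕ∞) ≤ x ↔ n ≤ m) : x = m := by
  refine le_antisymm ?_ ((h m).2 le_rfl)
  by_contra hcon
  push Not at hcon
  have h1 : ((m + 1 : ℕ) : ℕ∞) ≤ x := by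
    push_cast
    exact Order.add_one_le_of_lt hcon
  have h2 := (h (m + 1)).1 h1
  omega

/-- a commuting linear map as a homomorphism of the modules `EM` -/
theorem ug_em {V W : Type} [AddCommGroup V] [Module k V] [AddCommGroup W] [Module k W] {T : V →ₗ[k] V} {B : W →ₗ[k] W}
    (g : V →ₗ[k] W) (hg : ∀ v, g (T v) = B (g v)) (h : ∀ G : EM T →ₗ[k[X]] EM B, G = 0) : g = 0 := by
  obtain ⟨G, hG⟩ := exists_emk (T₁ := T) (T₂ := B) g hg
  ext v
  have h1 := hG v
  rw [h G, LinearMap.zero_apply] at h1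
  exact ((EM.of B).injective (by rw [LinearMap.zero_apply, map_zero]; exact h1.symm))

theorem NF.UPrim_eq (p : NF S k) (c : Str S) (π : k[X]) : p.UPrim c π = prim π (p.actX Polynomial.X) (p.USpan c) := by
  unfold NF.UPrim prim
  simp only [NF.actX_aeval]

section
variable {c : Str S} {l : ℕ} {π : k[X]} {V : Type} [AddCommGroup V] [Module k V] {T : V ≃ₗ[k] V}

/-- **Rank formula** for the coefficient module `R[1/π]/R`. -/
theorem rkP (hl : c.MinPer l) (hπ : Irreducible π) (hT : IsPR π T.toLinearMap) (h : c.PerOK l T) (p : NF S k)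
    (hs : p.Sep c) (hc : p.Crit c) : p.pr.rk (c.ME l T h) = finrank k (p.UPrim c π) := by
  have h0 : ∀ (j : Fin p.m') (g : V →ₗ[k] (Fin (p.Y j).n → k)), (∀ v, g (T v) = (p.Y j).T (g v)) → g = 0 := by
    intro j g hg
    refine ug_em (B := (p.Y j).T.toLinearMap) g hg fun G => ?_
    exact hT.hom_zero hπ _ (LinearMap.charpoly_monic _).ne_zero (kill_charpoly (p.Y j).T.toLinearMap) G
  apply ug_eq
  intro n
  rw [NF.UPrim_eq]
  constructor
  · intro hn
    obtain ⟨Φ, h1, h2⟩ := p.rk_left_le h hl hs hc h0 hn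
    exact prim_le hT hπ _ (p.USpan_actX c) Φ h1 h2
  · intro hn
    obtain ⟨Φ, h1, h2⟩ := prim_ge hT hπ _ (p.USpan_actX c)
    have h3 := p.rk_left_ge h hl hs hc Φ h1 h2
    exact (Nat.cast_le.2 hn).trans h3

theorem rkP_top (hl : c.MinPer l) (hπ : Irreducible π) (hT : IsPR π T.toLinearMap) (h : c.PerOK l T) (p : NF S k)
    (hc : ¬ p.Crit c) : p.pr.rk (c.ME l T h) = ⊤ := by
  refine p.rk_top hl h hc fun s hs hfd => hT.infinite hπ ?_
  have h1 : LinearMap.range (aeval T.toLinearMap s) = ⊤ := by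
    rw [LinearMap.range_eq_top]
    intro v
    obtain ⟨u, hu⟩ := hT.div' hπ s hs (EM.of _ v)
    exact ⟨(EM.of _).symm u, hu⟩
  rw [h1] at hfd
  exact Module.Finite.equiv (LinearEquiv.ofTop (⊤ : Submodule k V) rfl)

/-- **Rank formula** for the dual of `R[1/π]/R`. -/
theorem rkA (hl : c.MinPer l) (hπ : Irreducible π) (hT : IsPR π T.toLinearMap) (h : c.PerOK l T.dualMap) (p : NF S k)
    (hs : p.Sep c) (hc : p.Crit c) : p.pr.rk (c.ME l T.dualMap h) = finrank k (p.LPrim c π) := by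
  have h0 : ∀ (i : Fin p.m) (g : (Fin (p.X i).n → k) →ₗ[k] Dual k V),
      (∀ v, g ((p.X i).T v) = T.dualMap (g v)) → g = 0 := by
    intro i g hg
    exact hT.to_dual_zero hπ (B := (p.X i).T.toLinearMap) _ (LinearMap.charpoly_monic _).ne_zero
      (kill_charpoly (p.X i).T.toLinearMap) g hg
  apply ug_eq
  intro n
  rw [NF.finrank_LPrim]
  constructor
  · intro hn
    obtain ⟨Γ, h1, h2⟩ := p.rk_right_le h hl hs hc h0 hn
    exact primL_le hT hπ _ (p.LD_inv c) Γ h1 h2
  · intro hn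
    obtain ⟨Γ, h1, h2⟩ := primL_ge hT hπ _ (p.LD_inv c)
    have h3 := p.rk_right_ge h hl hs hc Γ h1 h2
    exact (Nat.cast_le.2 hn).trans h3

theorem rkA_top (hl : c.MinPer l) (hπ : Irreducible π) (hT : IsPR π T.toLinearMap) (h : c.PerOK l T.dualMap) (p : NF S k)
    (hc : ¬ p.Crit c) : p.pr.rk (c.ME l T.dualMap h) = ⊤ := by
  refine p.rk_top hl h hc fun s hs hfd => hT.infinite hπ ?_
  -- `aeval T.dualMap s` is injective
  have h1 : Function.Injective (aeval T.dualMap.toLinearMap s : Dual k V →ₗ[k] Dual k V) := by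
    rw [injective_iff_map_eq_zero]
    intro ξ hξ
    ext v
    obtain ⟨u, hu⟩ := hT.div' hπ s hs (EM.of _ v)
    have h2 := uba_aeval_dualMap T.toLinearMap s ξ ((EM.of _).symm u)
    have h3 : (aeval T.toLinearMap s) ((EM.of _).symm u) = v := hu
    rw [h3] at h2
    rw [← h2]
    show (aeval T.dualMap.toLinearMap s ξ : Dual k V) _ = 0
    rw [hξ]
    rfl
  have h2 : FiniteDimensional k (Dual k V) :=
    Module.Finite.equiv (LinearEquiv.ofInjective _ h1).symm
  exact (Module.finite_dual_iff k).1 h2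

end

end StrAlg
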