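import Pool.Agent.Lib.MP_b9fd58_lc.K2LD
import Pool.Agent.Lib.MP_b9fd58_lc.K2Lb
import Pool.Agent.Lib.MP_b9fd58_lc.KAD
import Pool.Agent.Lib.MP_b9fd58_lc.KSame
import Pool.Agent.Lib.MP_b9fd58_lc.UG

/-!
# Stream K2: the rows of the type A
-/

set_option autoImplicit false

namespace StrAlg

open Module Polynomial

variable {D : Dat} {k : Type} [Field k] {S : Sides D}

theorem K2RowA_nmx (L : List (EC D k)) : ∀ Y ∈ L, bcN Y.1 ≤ nmx L := by
  unfold nmx
  induction L with
  | nil => exact fun Y hY => absurd hY List.not_mem_nil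
  | cons X L ih =>
    intro Y hY
    rw [List.map_cons, List.foldr_cons]
    rcases List.mem_cons.1 hY with h | h
    · rw [h]
      exact le_max_left _ _
    · exact (ih Y h).trans (le_max_right _ _)

theorem K2RowA_endY (P : NF S k) (f : k[X]) (y : (j : Fin P.m') → (Fin (P.Y j).n → k)) (i : Fin P.m') :
    (aeval P.endY f y) i = aeval (P.Y i).T.toLinearMap f (y i) := by
  induction f using Polynomial.induction_on' with
  | add p q hp hq =>
    rw [map_add, map_add, LinearMap.add_apply, LinearMap.add_apply, Pi.add_apply, hp, hq]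
  | monomial m a =>
    rw [aeval_monomial, aeval_monomial, Module.End.mul_apply, Module.End.mul_apply,
      Module.algebraMap_end_apply, Module.algebraMap_end_apply, Pi.smul_apply]
    congr 1
    induction m generalizing y with
    | zero => rfl
    | succ m ih =>
      rw [pow_succ, pow_succ, Module.End.mul_apply, Module.End.mul_apply, ih]
      rfl

open Classical in
/-- the values of a polynomial multiple of a generator -/
theorem K2RowA_val {p : NC D k} (hp : ncOk S p) (c : BC D k) (B : ℕ) (g : GX D k) (f : k[X])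
    (i : Fin (K2LD_nf S p hp).m') (j : Fin (bcN (p.2.get i).1)) :
    (aeval (K2LD_nf S p hp).endY.dualMap f (K2LD_x S p hp c B g))
        (Pi.single i (show Fin ((K2LD_nf S p hp).Y i).n → k from Pi.single j 1)) =
      if sameC B (p.2.get i).1 c then
        (Matrix.vecMul (vecOf (bcN (p.2.get i).1) (vA B (p.2.get i) g))
          (aeval (matOf (bcN (p.2.get i).1) (bcM (p.2.get i).1)) f)) j
      else 0 := by
  rw [uba_aeval_dualMap]
  have e : K2LD_x S p hp c B g (aeval (K2LD_nf S p hp).endY f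
        (Pi.single i (show Fin ((K2LD_nf S p hp).Y i).n → k from Pi.single j 1))) =
      (if sameC B (p.2.get i).1 c then dualOf (bcN (p.2.get i).1) (vA B (p.2.get i) g) else 0 :
        Dual k (Fin (bcN (p.2.get i).1) → k))
        (aeval ((K2LD_nf S p hp).Y i).T.toLinearMap f
          (show Fin ((K2LD_nf S p hp).Y i).n → k from Pi.single j 1)) := by
    unfold K2LD_x
    rw [LinearMap.sum_apply, Finset.sum_eq_single i]
    · rw [LinearMap.comp_apply, LinearMap.proj_apply, K2RowA_endY, Pi.single_eq_same]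
      rfl
    · intro i' _ hi'
      rw [LinearMap.comp_apply, LinearMap.proj_apply, K2RowA_endY, Pi.single_eq_of_ne hi', map_zero, map_zero]
    · intro h
      exact absurd (Finset.mem_univ _) h
  rw [e]
  by_cases h : sameC B (p.2.get i).1 c
  · rw [if_pos h, if_pos h]
    have hT : ((K2LD_nf S p hp).Y i).T.toLinearMap =
        Matrix.toLin' (matOf (bcN (p.2.get i).1) (bcM (p.2.get i).1)) :=
      KPR_T (hp.2 _ (List.get_mem p.2 i)) h.1
    rw [hT]
    refine (congrArg (dualOf (bcN (p.2.get i).1) (vA B (p.2.get i) g))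
      (KAD_aeval (matOf (bcN (p.2.get i).1) (bcM (p.2.get i).1)) f (Pi.single j 1))).trans ?_
    rw [K2LD_dual_apply, Matrix.dotProduct_mulVec, dotProduct_single, mul_one]
  · rw [if_neg h, if_neg h]
    rfl

/-- a functional on the direct sum is determined by its values on the unit vectors -/
theorem K2RowA_ext {p : NC D k} (hp : ncOk S p)
    {u v : Dual k ((i : Fin (K2LD_nf S p hp).m') → (Fin ((K2LD_nf S p hp).Y i).n → k))}
    (h : ∀ (i : Fin (K2LD_nf S p hp).m') (j : Fin (bcN (p.2.get i).1)),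
      u (Pi.single i (show Fin ((K2LD_nf S p hp).Y i).n → k from Pi.single j 1)) =
        v (Pi.single i (show Fin ((K2LD_nf S p hp).Y i).n → k from Pi.single j 1))) : u = v := by
  refine LinearMap.pi_ext' fun i => ?_
  refine LinearMap.pi_ext' fun j => ?_
  ext
  exact h i j

/-- the row of a functional -/
noncomputable def K2RowA_phi {p : NC D k} (hp : ncOk S p) :
    Dual k ((i : Fin (K2LD_nf S p hp).m') → (Fin ((K2LD_nf S p hp).Y i).n → k)) →ₗ[k] (ℕ → k) :=
  LinearMap.pi fun col =>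
    if h : ∃ h1 : col / nmx p.2 < p.2.length, col % nmx p.2 < bcN (p.2.get ⟨col / nmx p.2, h1⟩).1 then
      LinearMap.applyₗ (Pi.single (⟨col / nmx p.2, h.1⟩ : Fin (K2LD_nf S p hp).m')
        (show Fin ((K2LD_nf S p hp).Y ⟨col / nmx p.2, h.1⟩).n → k from
          Pi.single (⟨col % nmx p.2, h.2⟩ : Fin (bcN (p.2.get ⟨col / nmx p.2, h.1⟩).1)) 1))
    else 0

theorem K2RowA_phi_apply {p : NC D k} (hp : ncOk S p)
    (u : Dual k ((i : Fin (K2LD_nf S p hp).m') → (Fin ((K2LD_nf S p hp).Y i).n → k)))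
    (i : Fin (K2LD_nf S p hp).m') (j : Fin (bcN (p.2.get i).1)) (col : ℕ) (h1 : col / nmx p.2 = (i : ℕ))
    (h2 : col % nmx p.2 = (j : ℕ)) : K2RowA_phi hp u col =
      u (Pi.single i (show Fin ((K2LD_nf S p hp).Y i).n → k from Pi.single j 1)) := by
  obtain ⟨i, hi⟩ := i
  obtain ⟨j, hj⟩ := j
  have h1' : col / nmx p.2 = i := h1
  have h2' : col % nmx p.2 = j := h2
  subst h1'
  subst h2'
  unfold K2RowA_phi
  rw [LinearMap.pi_apply, dif_pos ⟨hi, hj⟩]
  rfl

theorem K2RowA_phi_inj {p : NC D k} (hp : ncOk S p) : Function.Injective (K2RowA_phi hp) := by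
  intro u v huv
  refine K2RowA_ext hp fun i j => ?_
  have hj : (j : ℕ) < nmx p.2 := lt_of_lt_of_le j.2 (K2RowA_nmx p.2 _ (List.get_mem p.2 i))
  have h0 : 0 < nmx p.2 := lt_of_le_of_lt (Nat.zero_le _) hj
  have h1 : (nmx p.2 * (i : ℕ) + (j : ℕ)) / nmx p.2 = i := by
    rw [Nat.mul_add_div h0, Nat.div_eq_of_lt hj, Nat.add_zero]
  have h2 : (nmx p.2 * (i : ℕ) + (j : ℕ)) % nmx p.2 = j := by
    rw [Nat.mul_add_mod, Nat.mod_eq_of_lt hj]
  have h3 := congrFun huv (nmx p.2 * (i : ℕ) + (j : ℕ))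
  rw [K2RowA_phi_apply hp u i j _ h1 h2, K2RowA_phi_apply hp v i j _ h1 h2] at h3
  exact h3

theorem K2RowA_row {p : NC D k} (hp : ncOk S p) (c : BC D k) (B : ℕ) (π h : List k) (N m : ℕ) (g : GX D k) :
    ent (rowA B p c π h N m g) =
      K2RowA_phi hp (aeval (K2LD_nf S p hp).endY.dualMap (1 - polOf π ^ (N + 1) * polOf h)
        (((K2LD_nf S p hp).endY.dualMap ^ m) (K2LD_x S p hp c B g))) := by
  classical
  funext col
  have e1 : aeval (K2LD_nf S p hp).endY.dualMap (1 - polOf π ^ (N + 1) * polOf h)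
        (((K2LD_nf S p hp).endY.dualMap ^ m) (K2LD_x S p hp c B g)) =
      aeval (K2LD_nf S p hp).endY.dualMap ((1 - polOf π ^ (N + 1) * polOf h) * X ^ m) (K2LD_x S p hp c B g) := by
    rw [map_mul, map_pow, aeval_X, Module.End.mul_apply]
  rw [e1]
  unfold K2RowA_phi rowA
  rw [LinearMap.pi_apply, ent_map_range]
  by_cases h1 : col / nmx p.2 < p.2.length
  · by_cases h2 : col % nmx p.2 < bcN (p.2.get ⟨col / nmx p.2, h1⟩).1
    · rw [dif_pos ⟨h1, h2⟩]
      have h0 : 0 < nmx p.2 := lt_of_le_of_lt (Nat.zero_le _)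
        (lt_of_lt_of_le h2 (K2RowA_nmx p.2 _ (List.get_mem p.2 _)))
      have h3 : col < p.2.length * nmx p.2 := (Nat.div_lt_iff_lt_mul h0).1 h1
      rw [if_pos h3, List.getElem?_eq_getElem h1]
      have e2 := K2RowA_val hp c B g ((1 - polOf π ^ (N + 1) * polOf h) * X ^ m)
        (⟨col / nmx p.2, h1⟩ : Fin (K2LD_nf S p hp).m') ⟨col % nmx p.2, h2⟩
      refine Eq.trans ?_ e2.symm
      show (if sameC B (p.2.get ⟨col / nmx p.2, h1⟩).1 c then _ else _) = _
      by_cases hs : sameC B (p.2.get ⟨col / nmx p.2, h1⟩).1 c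
      · refine (if_pos hs).trans (Eq.trans ?_ (if_pos hs).symm)
        have e3 := congrFun (vecOf_eL (bcN (p.2.get ⟨col / nmx p.2, h1⟩).1) (bcM (p.2.get ⟨col / nmx p.2, h1⟩).1) π h N
          ((vm (bcN (p.2.get ⟨col / nmx p.2, h1⟩).1) (bcM (p.2.get ⟨col / nmx p.2, h1⟩).1))^[m]
            (vA B (p.2.get ⟨col / nmx p.2, h1⟩) g))) ⟨col % nmx p.2, h2⟩
        rw [vecOf_vm_iter, Matrix.vecMul_vecMul] at e3
        rw [mul_comm (1 - polOf π ^ (N + 1) * polOf h) (X ^ m), map_mul, map_pow, aeval_X]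
        exact e3
      · exact (if_neg hs).trans (if_neg hs).symm
    · rw [dif_neg fun h => h2 h.2]
      split_ifs with h3
      · rw [List.getElem?_eq_getElem h1]
        show (if sameC B (p.2.get ⟨col / nmx p.2, h1⟩).1 c then _ else _) = _
        split_ifs with hs
        · unfold eL
          rw [ent_map_range]
          exact if_neg h2
        · rfl
      · rfl
  · rw [dif_neg fun h => h1 h.1]
    split_ifs with h3
    · rw [List.getElem?_eq_none (not_lt.1 h1)]
      rfl
    · rfl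

theorem K2RowA_dim {p : NC D k} (hp : ncOk S p) :
    finrank k (Dual k ((i : Fin (K2LD_nf S p hp).m') → (Fin ((K2LD_nf S p hp).Y i).n → k))) ≤
      p.2.length * nmx p.2 := by
  rw [Subspace.dual_finrank_eq, Module.finrank_pi_fintype]
  simp only [Module.finrank_fin_fun]
  have h : ∀ i ∈ (Finset.univ : Finset (Fin p.2.length)), bcN (p.2.get i).1 ≤ nmx p.2 :=
    fun i _ => K2RowA_nmx p.2 _ (List.get_mem p.2 i)
  have h2 := Finset.sum_le_card_nsmul _ _ _ h
  rw [Finset.card_univ, Fintype.card_fin, smul_eq_mul] at h2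
  exact h2

theorem K2RowA_zero {p : NC D k} (hp : ncOk S p) {c : BC D k} {B : ℕ} (π h : List k) (N : ℕ) :
    primAC B p c π h N ↔ ∀ g : {g // g ∈ gA B p c},
      aeval (K2LD_nf S p hp).endY.dualMap (polOf π ^ (N + 1) * (1 - polOf π ^ (N + 1) * polOf h)) (K2LD_x S p hp c B g.1) = 0 := by
  classical
  constructor
  · intro H g
    refine K2RowA_ext hp fun i j => ?_
    rw [K2RowA_val]
    split_ifs with hs
    · rw [(piL_eq_zero_iff _ _ _ _ _ _).1 (H _ (List.get_mem p.2 i) hs g.1 g.2)]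
      rfl
    · rfl
  · intro H Y hY hs g hg
    obtain ⟨i, rfl⟩ := List.get_of_mem hY
    rw [piL_eq_zero_iff]
    funext j
    have h1 := K2RowA_val hp c B g (polOf π ^ (N + 1) * (1 - polOf π ^ (N + 1) * polOf h)) i j
    rw [if_pos hs, H ⟨g, hg⟩] at h1
    exact h1.symm

/-- `NF.finrank_LPrim`, `prim_span` (for `E` the dual space and `A = endY.dualMap`) and the injective linear map
`u ↦ (col ↦ u (Pi.single (col / nmx) (Pi.single (col % nmx) 1)) or 0)`. -/
theorem rowsA_rank {p : NC D k} (hp : ncOk S p) {c : BC D k} (hc : bcOk S c) (band : c.1 = true) {B : ℕ}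
    (bp : ncBig p B) (bc : scBig (bcS c) B) (π h : List k) (N : ℕ) (hpr : primAC B p c π h N) :
    finrank k ((ncDec S p).LPrim (bcBlk S c hc).x (polOf π)) = finrank k (rowSp (rowsA B p c π h N)) := by
  classical
  rw [NF.finrank_LPrim, K2LD_dec hp]
  have h1 := prim_span (A := (K2LD_nf S p hp).endY.dualMap)
    (fun g : {g // g ∈ gA B p c} => K2LD_x S p hp c B g.1) (polOf π) (polOf h) N (p.2.length * nmx p.2)
    (K2RowA_dim hp) ((K2LD_nf S p hp).LD (bcBlk S c hc).x) (K2LD_span hp hc band bp bc)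
    ((K2RowA_zero hp π h N).1 hpr)
  have h2 : finrank k (prim (polOf π) (K2LD_nf S p hp).endY.dualMap ((K2LD_nf S p hp).LD (bcBlk S c hc).x)) =
      finrank k (rowSp (rowsA B p c π h N)) := by
    have h3 : rowSp (rowsA B p c π h N) =
        (prim (polOf π) (K2LD_nf S p hp).endY.dualMap ((K2LD_nf S p hp).LD (bcBlk S c hc).x)).map (K2RowA_phi hp) := by
      rw [h1, Submodule.map_span]
      unfold rowSp
      congr 1
      ext v
      constructor
      · rintro ⟨r, hr, rfl⟩
        unfold rowsA at hr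
        simp only [List.mem_flatMap, List.mem_range, List.mem_map] at hr
        obtain ⟨m, hm, g, hg, rfl⟩ := hr
        exact ⟨_, ⟨m, hm, ⟨g, hg⟩, rfl⟩, (K2RowA_row hp c B π h N m g).symm⟩
      · rintro ⟨u, ⟨m, hm, g, rfl⟩, rfl⟩
        refine ⟨rowA B p c π h N m g.1, ?_, (K2RowA_row hp c B π h N m g.1).symm⟩
        unfold rowsA
        simp only [List.mem_flatMap, List.mem_range, List.mem_map]
        exact ⟨m, hm, g.1, g.2, rfl⟩
    rw [h3]
    exact (Submodule.equivMapOfInjective _ (K2RowA_phi_inj hp) _).finrank_eq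
  exact h2

theorem exists_primAC {p : NC D k} (hp : ncOk S p) {c : BC D k} (hc : bcOk S c) (band : c.1 = true) {B : ℕ}
    (bp : ncBig p B) (bc : scBig (bcS c) B) (π : List k) (hπ : polOf π ≠ 0) :
    ∃ (h : List k) (N : ℕ), primAC B p c π h N := by
  obtain ⟨h', N, hN⟩ := prim_split (K2LD_nf S p hp).endY.dualMap (polOf π) hπ
  obtain ⟨h, rfl⟩ := exists_polOf h'
  refine ⟨h, N, (K2RowA_zero hp π h N).2 fun g => ?_⟩
  rw [hN]
  rfl

end StrAlg
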