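import Pool.Agent.Lib.MP_b9fd58_lc.KSame
import Pool.Agent.Lib.MP_b9fd58_lc.KVec

/-!
# Stream K: the type-2 conditions on codes
-/

set_option autoImplicit false

namespace StrAlg

open Module Polynomial

variable {D : Dat} {k : Type} [Field k] {S : Sides D}

/-- polynomials in `T` commute with powers of `T` -/
theorem KPR_comm {V : Type*} [AddCommGroup V] [Module k V] (T : V ≃ₗ[k] V) (n : ℤ) (g : k[X]) (v : V) :
    aeval T.toLinearMap g ((T ^ n : V ≃ₗ[k] V) v) = (T ^ n : V ≃ₗ[k] V) (aeval T.toLinearMap g v) := by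
  have h1 : Commute T (T ^ n) := (Commute.refl T).zpow_right n
  have h2 : Commute (T : V →ₗ[k] V) ((T ^ n : V ≃ₗ[k] V) : V →ₗ[k] V) := by
    refine LinearMap.ext fun w => ?_
    exact congrArg (fun f : V ≃ₗ[k] V => f w) h1.eq
  have h3 : Commute (aeval (T : V →ₗ[k] V) g) ((T ^ n : V ≃ₗ[k] V) : V →ₗ[k] V) := by
    induction g using Polynomial.induction_on' with
    | add p q hp hq =>
      rw [map_add]
      exact hp.add_left hq
    | monomial m a =>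
      rw [aeval_monomial]
      exact (Algebra.commute_algebraMap_left a _).mul_left (h2.pow_left m)
  exact LinearMap.congr_fun h3.eq v

theorem KPR_T {b : BC D k} (h : bcOk S b) (hb : b.1 = true) :
    (bcBlk S b h).T.toLinearMap = Matrix.toLin' (matOf (bcN b) (bcM b)) := by
  refine LinearMap.ext fun v => ?_
  exact bcT_apply h hb v

/-- `omV` is the combination of the columns -/
theorem KPR_omV (K : ℕ) (X Y : EC D k) (o : Bool) (a b : ℤ) (y : List k) :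
    vecOf (bcN X.1) (omV K X Y o a b y) =
      ∑ j' : Fin (bcN Y.1), ent y j' • vecOf (bcN X.1) (omCol K X Y o a b (j' : ℕ)) := by
  unfold omV omCol
  rw [vecOf_map_range]
  funext i
  rw [Finset.sum_apply, Finset.sum_range]
  refine Finset.sum_congr rfl fun j' _ => ?_
  rw [vecOf_map_range]
  rfl

/-- bounded comparison in the fundamental domains is `Ord` -/
theorem KPR_ord {b b' : BC D k} (h : bcOk S b) (h' : bcOk S b') {B : ℕ} (hB : scBig (bcS b) B)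
    (hB' : scBig (bcS b') B) {a r : ℕ} (ha : a < bcP b) (hr : r < bcP b') (o : Bool) :
    Ord (bcBlk S b h).x (bcBlk S b' h').x o (a : ℤ) (r : ℤ) ↔ ordC (20 * B) (bcS b) (bcS b') o (a : ℤ) (r : ℤ) := by
  have h1 := bcP_le hB
  have h2 := bcP_le hB'
  exact (ordS_iff h.1 h'.1 o _ _).trans (ordS_iff_ordC h.1 h'.1 hB hB' o (by omega) (by omega))

/-- every matched pair of positions is a translate of one in the fundamental domains -/
theorem KPR_dom {b b' : BC D k} (h : bcOk S b) (h' : bcOk S b') {o : Bool} {p r : ℤ}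
    (H : Ord (bcBlk S b h).x (bcBlk S b' h').x o p r) :
    ∃ a < bcP b, ∃ r' < bcP b', ∃ m m' : ℤ, p = (a : ℤ) + m * ((bcBlk S b h).l : ℤ) ∧
      r = (r' : ℤ) + m' * ((bcBlk S b' h').l : ℤ) ∧
      Ord (bcBlk S b h).x (bcBlk S b' h').x o (a : ℤ) (r' : ℤ) := by
  obtain ⟨a, ha, m, hm⟩ := exists_dom h.1 ((scStr_Z h.1 p).1 H.1)
  obtain ⟨r', hr', m', hm'⟩ := exists_dom h'.1 ((scStr_Z h'.1 r).1 H.2.1)
  have em : p = (a : ℤ) + m * ((bcBlk S b h).l : ℤ) := hm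
  have em' : r = (r' : ℤ) + m' * ((bcBlk S b' h').l : ℤ) := hm'
  refine ⟨a, ha, r', hr', m, m', em, em', ?_⟩
  rw [em, em'] at H
  exact (Ord_mul_fst _ _ _ _ _ _).1 ((Ord_mul_snd _ _ _ _ _ _).1 H)

/-- the type-2 condition for one pair of blocks -/
theorem KPR_pair {X Y : EC D k} (hX : bcOk S X.1) (hY : bcOk S Y.1) (band : X.1.1 = true) {B : ℕ}
    (bX : scBig (bcS X.1) B) (bY : scBig (bcS Y.1) B) (π : List k) :
    (∀ (o : Bool) (q r : ℤ), Ord (bcBlk S X.1 hX).x (bcBlk S Y.1 hY).x o q r → ∀ y, ∃ g : k[X],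
      IsCoprime g (polOf π) ∧ aeval (bcBlk S X.1 hX).T.toLinearMap g
        (OmV (bcBlk S X.1 hX) (bcBlk S Y.1 hY) (ecElt S X hX) (ecFnl S Y hY) o q r y) = 0) ↔
    ∀ a < bcP X.1, ∀ b < bcP Y.1, ∀ o : Bool,
      ordC (20 * B) (bcS X.1) (bcS Y.1) o (a : ℤ) (b : ℤ) → ∀ j' < bcN Y.1, ∃ h : List k,
        polV (bcN X.1) (bcM X.1) h (polV (bcN X.1) (bcM X.1) π (omCol (20 * B) X Y o (a : ℤ) (b : ℤ) j')) =
          omCol (20 * B) X Y o (a : ℤ) (b : ℤ) j' := by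
  have hT := KPR_T hX band
  -- the condition for one column
  have col : ∀ (o : Bool) (a b j' : ℕ), (∃ h : List k,
        polV (bcN X.1) (bcM X.1) h (polV (bcN X.1) (bcM X.1) π (omCol (20 * B) X Y o (a : ℤ) (b : ℤ) j')) =
          omCol (20 * B) X Y o (a : ℤ) (b : ℤ) j') ↔ ∃ g : k[X], IsCoprime g (polOf π) ∧
        aeval (Matrix.toLin' (matOf (bcN X.1) (bcM X.1))) g
          (vecOf (bcN X.1) (omCol (20 * B) X Y o (a : ℤ) (b : ℤ) j')) = 0 := by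
    intro o a b j'
    rw [coprime_iff_vec]
    have key : ∀ h : List k,
        polV (bcN X.1) (bcM X.1) h (polV (bcN X.1) (bcM X.1) π (omCol (20 * B) X Y o (a : ℤ) (b : ℤ) j')) =
          omCol (20 * B) X Y o (a : ℤ) (b : ℤ) j' ↔
        aeval (Matrix.toLin' (matOf (bcN X.1) (bcM X.1))) (polOf h)
          (aeval (Matrix.toLin' (matOf (bcN X.1) (bcM X.1))) (polOf π)
            (vecOf (bcN X.1) (omCol (20 * B) X Y o (a : ℤ) (b : ℤ) j'))) =
          vecOf (bcN X.1) (omCol (20 * B) X Y o (a : ℤ) (b : ℤ) j') := by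
      intro h
      have := polV_eq_iff (bcN X.1) (bcM X.1) h
        (polV (bcN X.1) (bcM X.1) π (omCol (20 * B) X Y o (a : ℤ) (b : ℤ) j'))
        (fun j => omC (20 * B) X Y o (a : ℤ) (b : ℤ) j j')
      rw [vecOf_polV] at this
      exact this
    constructor
    · rintro ⟨h, hh⟩
      exact ⟨polOf h, (key h).1 hh⟩
    · rintro ⟨h, hh⟩
      obtain ⟨l, rfl⟩ := exists_polOf h
      exact ⟨l, (key l).2 hh⟩
  constructor
  · intro H a ha b hb o hord j' hj'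
    rw [col]
    obtain ⟨g, hg, hg'⟩ := H o a b ((KPR_ord hX hY bX bY ha hb o).2 hord)
      (show Fin (bcBlk S Y.1 hY).n → k from Pi.single (⟨j', hj'⟩ : Fin (bcN Y.1)) 1)
    refine ⟨g, hg, ?_⟩
    rw [OmV_col hX hY hord ⟨j', hj'⟩, hT] at hg'
    exact hg'
  · intro H o q r hord y
    obtain ⟨a, ha, b, hb, m, m', rfl, rfl, hord'⟩ := KPR_dom hX hY hord
    have hordC := (KPR_ord hX hY bX bY ha hb o).1 hord'
    obtain ⟨L, hL⟩ := exists_vecOf (bcN Y.1)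
      (((bcBlk S Y.1 hY).T ^ m' : (Fin (bcBlk S Y.1 hY).n → k) ≃ₗ[k] (Fin (bcBlk S Y.1 hY).n → k)) y)
    obtain ⟨g, hg, hg'⟩ := coprime_sum (Matrix.toLin' (matOf (bcN X.1) (bcM X.1))) (polOf π)
      (fun j' : Fin (bcN Y.1) => vecOf (bcN X.1) (omCol (20 * B) X Y o (a : ℤ) (b : ℤ) (j' : ℕ)))
      (fun j' => (col o a b j').1 (H a ha b hb o hordC j' j'.2)) (fun j' => ent L j')
    refine ⟨g, hg, ?_⟩
    rw [OmV_mul_fst, OmV_mul_snd, KPR_comm, ← hL, OmV_eq hX hY hordC, KPR_omV, hT]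
    exact (congrArg _ hg').trans (map_zero _)

theorem prGood_iff {p : NC D k} (hp : ncOk S p) {c : BC D k} (hc : bcOk S c) (band : c.1 = true) {B : ℕ}
    (bp : ncBig p B) (bc : scBig (bcS c) B) (π : List k) :
    (ncDec S p).PRgood (bcBlk S c hc).x (polOf π) ↔ prGoodC B p c π := by
  refine and_congr (Crit_iff_ncCritC hp hc.1 bp bc) ?_
  refine (ncDec_forall_X hp (fun X a => ∀ j, X.x = (bcBlk S c hc).x → ∀ (o : Bool) (q r : ℤ),
    Ord X.x ((ncDec S p).Y j).x o q r → ∀ y, ∃ g : k[X], IsCoprime g (polOf π) ∧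
      aeval X.T.toLinearMap g (OmV X ((ncDec S p).Y j) a ((ncDec S p).b j) o q r y) = 0)).trans ?_
  have key : ∀ t, ∀ ht : t ∈ p.1, ((∀ j, (bcBlk S t.1 (hp.1 t ht)).x = (bcBlk S c hc).x →
      ∀ (o : Bool) (q r : ℤ), Ord (bcBlk S t.1 (hp.1 t ht)).x ((ncDec S p).Y j).x o q r → ∀ y, ∃ g : k[X],
        IsCoprime g (polOf π) ∧ aeval (bcBlk S t.1 (hp.1 t ht)).T.toLinearMap g
          (OmV (bcBlk S t.1 (hp.1 t ht)) ((ncDec S p).Y j) (ecElt S t (hp.1 t ht)) ((ncDec S p).b j) o q r y) = 0)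
      ↔ (sameC B t.1 c → ∀ Y ∈ p.2, ∀ a < bcP t.1, ∀ b < bcP Y.1, ∀ o : Bool,
        ordC (20 * B) (bcS t.1) (bcS Y.1) o (a : ℤ) (b : ℤ) → ∀ j' < bcN Y.1, ∃ h : List k,
          polV (bcN t.1) (bcM t.1) h (polV (bcN t.1) (bcM t.1) π (omCol (20 * B) t Y o (a : ℤ) (b : ℤ) j')) =
            omCol (20 * B) t Y o (a : ℤ) (b : ℤ) j')) := by
    intro t ht
    have e1 := ncDec_forall_Y hp (fun Y b => (bcBlk S t.1 (hp.1 t ht)).x = (bcBlk S c hc).x →
      ∀ (o : Bool) (q r : ℤ), Ord (bcBlk S t.1 (hp.1 t ht)).x Y.x o q r → ∀ y, ∃ g : k[X],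
        IsCoprime g (polOf π) ∧ aeval (bcBlk S t.1 (hp.1 t ht)).T.toLinearMap g
          (OmV (bcBlk S t.1 (hp.1 t ht)) Y (ecElt S t (hp.1 t ht)) b o q r y) = 0)
    refine e1.trans ?_
    have e2 := sameC_iff (hp.1 t ht) hc (bp.2.1 t ht) bc band
    constructor
    · intro H hs Y hY
      exact (KPR_pair (hp.1 t ht) (hp.2 Y hY) hs.1 (bp.2.1 t ht) (bp.2.2 Y hY) π).1 (H Y hY (e2.2 hs))
    · intro H Y hY hs
      have hs' := e2.1 hs
      exact (KPR_pair (hp.1 t ht) (hp.2 Y hY) hs'.1 (bp.2.1 t ht) (bp.2.2 Y hY) π).2 (H hs' Y hY)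
  constructor
  · intro H X hX
    exact (key X hX).1 (H X hX)
  · intro H X hX
    exact (key X hX).2 (H X hX)

/-- failure of the type-2 condition for one pair of blocks -/
theorem KPR_bad {X Y : EC D k} (hX : bcOk S X.1) (hY : bcOk S Y.1) (band : X.1.1 = true) {B : ℕ}
    (bX : scBig (bcS X.1) B) (bY : scBig (bcS Y.1) B) (π : List k) :
    (∃ (o : Bool) (p r : ℤ), Ord (bcBlk S X.1 hX).x (bcBlk S Y.1 hY).x o p r ∧
      ∃ (y : Fin (bcBlk S Y.1 hY).n → k) (h : k[X]),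
      aeval (bcBlk S X.1 hX).T.toLinearMap h
        (OmV (bcBlk S X.1 hX) (bcBlk S Y.1 hY) (ecElt S X hX) (ecFnl S Y hY) o p r y) ≠ 0 ∧
      aeval (bcBlk S X.1 hX).T.toLinearMap (polOf π * h)
        (OmV (bcBlk S X.1 hX) (bcBlk S Y.1 hY) (ecElt S X hX) (ecFnl S Y hY) o p r y) = 0) ↔
    ∃ a < bcP X.1, ∃ b < bcP Y.1, ∃ o : Bool,
      ordC (20 * B) (bcS X.1) (bcS Y.1) o (a : ℤ) (b : ℤ) ∧ ∃ y h : List k,
      polV (bcN X.1) (bcM X.1) h (omV (20 * B) X Y o (a : ℤ) (b : ℤ) y) ≠ zeroV (bcN X.1) ∧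
      polV (bcN X.1) (bcM X.1) π (polV (bcN X.1) (bcM X.1) h (omV (20 * B) X Y o (a : ℤ) (b : ℤ) y)) =
        zeroV (bcN X.1) := by
  have hT := KPR_T hX band
  constructor
  · rintro ⟨o, p, r, hord, y, h, h1, h2⟩
    obtain ⟨a, ha, b, hb, m, m', rfl, rfl, hord'⟩ := KPR_dom hX hY hord
    have hordC := (KPR_ord hX hY bX bY ha hb o).1 hord'
    obtain ⟨L, hL⟩ := exists_vecOf (bcN Y.1)
      (((bcBlk S Y.1 hY).T ^ m' : (Fin (bcBlk S Y.1 hY).n → k) ≃ₗ[k] (Fin (bcBlk S Y.1 hY).n → k)) y)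
    obtain ⟨l, rfl⟩ := exists_polOf h
    rw [OmV_mul_fst, OmV_mul_snd, KPR_comm, ← hL, OmV_eq hX hY hordC] at h1 h2
    refine ⟨a, ha, b, hb, o, hordC, L, l, ?_, ?_⟩
    · intro h3
      rw [polV_eq_zero_iff, ← hT] at h3
      apply h1
      exact (congrArg _ h3).trans (map_zero _)
    · rw [polV_eq_zero_iff, vecOf_polV, ← hT, ← Module.End.mul_apply, ← map_mul]
      exact (LinearEquiv.map_eq_zero_iff _).1 h2
  · rintro ⟨a, ha, b, hb, o, hordC, y, h, h1, h2⟩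
    have hord := (KPR_ord hX hY bX bY ha hb o).2 hordC
    refine ⟨o, a, b, hord, vecOf (bcN Y.1) y, polOf h, ?_, ?_⟩
    · rw [OmV_eq hX hY hordC, hT]
      intro h3
      exact h1 ((polV_eq_zero_iff _ _ _ _).2 h3)
    · rw [map_mul, Module.End.mul_apply, OmV_eq hX hY hordC, hT]
      rw [polV_eq_zero_iff, vecOf_polV] at h2
      exact h2

theorem KPR_l {b : BC D k} (h : bcOk S b) : 0 < (bcBlk S b h).l ↔ b.1 = true := by
  have e : (bcBlk S b h).l = bcL b := rfl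
  rw [e]
  unfold bcL
  by_cases hb : b.1 = true
  · rw [if_pos hb]
    exact ⟨fun _ => hb, fun _ => bcP_pos h.1⟩
  · rw [if_neg hb]
    exact ⟨fun h => absurd h (lt_irrefl 0), fun h => absurd h hb⟩

theorem prBad_iff {q : NC D k} (hq : ncOk S q) {B : ℕ} (bq : ncBig q B) (π : List k) (Φ : Blk S k → Prop) :
    (∃ i : Fin (ncDec S q).m, (ncDec S q).PRbad i (polOf π) ∧ Φ ((ncDec S q).X i)) ↔
      ∃ X, ∃ hX : X ∈ q.1, prBadC B q X π ∧ Φ (bcBlk S X.1 (hq.1 X hX)) := by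
  refine (ncDec_exists_X hq (fun X a => (0 < X.l ∧ ∃ (j : Fin (ncDec S q).m') (o : Bool) (p r : ℤ),
    Ord X.x ((ncDec S q).Y j).x o p r ∧ ∃ (y : Fin ((ncDec S q).Y j).n → k) (h : k[X]),
      aeval X.T.toLinearMap h (OmV X ((ncDec S q).Y j) a ((ncDec S q).b j) o p r y) ≠ 0 ∧
      aeval X.T.toLinearMap (polOf π * h) (OmV X ((ncDec S q).Y j) a ((ncDec S q).b j) o p r y) = 0) ∧
    Φ X)).trans ?_
  refine exists_congr fun t => exists_congr fun ht => and_congr_left fun _ => ?_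
  refine (and_congr_left fun _ => KPR_l (hq.1 t ht)).trans ?_
  refine and_congr_right fun hb => ?_
  have e1 := ncDec_exists_Y hq (fun Y b => ∃ (o : Bool) (p r : ℤ),
    Ord (bcBlk S t.1 (hq.1 t ht)).x Y.x o p r ∧ ∃ (y : Fin Y.n → k) (h : k[X]),
      aeval (bcBlk S t.1 (hq.1 t ht)).T.toLinearMap h
        (OmV (bcBlk S t.1 (hq.1 t ht)) Y (ecElt S t (hq.1 t ht)) b o p r y) ≠ 0 ∧
      aeval (bcBlk S t.1 (hq.1 t ht)).T.toLinearMap (polOf π * h)
        (OmV (bcBlk S t.1 (hq.1 t ht)) Y (ecElt S t (hq.1 t ht)) b o p r y) = 0)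
  refine e1.trans ?_
  constructor
  · rintro ⟨Y, hY, h⟩
    exact ⟨Y, hY, (KPR_bad (hq.1 t ht) (hq.2 Y hY) hb (bq.2.1 t ht) (bq.2.2 Y hY) π).1 h⟩
  · rintro ⟨Y, hY, h⟩
    exact ⟨Y, hY, (KPR_bad (hq.1 t ht) (hq.2 Y hY) hb (bq.2.1 t ht) (bq.2.2 Y hY) π).2 h⟩

end StrAlg
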