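import Pool.Agent.Lib.MP_b9fd58_lc.K2USp
import Pool.Agent.Lib.MP_b9fd58_lc.K2Lb
import Pool.Agent.Lib.MP_b9fd58_lc.KPR
import Pool.Agent.Lib.MP_b9fd58_lc.KSame
import Pool.Agent.Lib.MP_b9fd58_lc.UG

/-!
# Stream K2: the rows of the type P
-/

set_option autoImplicit false

namespace StrAlg

open Module Polynomial

variable {D : Dat} {k : Type} [Field k] {S : Sides D}

theorem K2RowP_m {p : NC D k} (hp : ncOk S p) : (ncDec S p).m = p.1.length := by
  unfold ncDec
  rw [dif_pos hp]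

theorem K2RowP_get {p : NC D k} (hp : ncOk S p) (i : Fin (ncDec S p).m) :
    ∃ X, p.1[(i : ℕ)]? = some X ∧ ∃ hX : bcOk S X.1, (ncDec S p).X i = bcBlk S X.1 hX := by
  revert i
  unfold ncDec
  rw [dif_pos hp]
  intro i
  exact ⟨p.1.get i, List.getElem?_eq_getElem i.2, hp.1 _ (List.get_mem p.1 i), rfl⟩

theorem K2RowP_nmx {L : List (EC D k)} {t : EC D k} (h : t ∈ L) : bcN t.1 ≤ nmx L := by
  unfold nmx
  induction L with
  | nil => cases h
  | cons a L ih =>
    rw [List.map_cons, List.foldr_cons]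
    rcases List.mem_cons.1 h with h | h
    · subst h; exact le_max_left _ _
    · exact (ih h).trans (le_max_right _ _)

theorem K2RowP_n {p : NC D k} (hp : ncOk S p) (i : Fin (ncDec S p).m) : ((ncDec S p).X i).n ≤ nmx p.1 := by
  obtain ⟨X, hX, hX', e⟩ := K2RowP_get hp i
  rw [e]
  exact K2RowP_nmx (List.mem_of_getElem? hX)

/-- the components of a polynomial in `T` on lists -/
theorem K2RowP_blk {Y : Blk S k} {b : BC D k} {hb : bcOk S b} (e : Y = bcBlk S b hb) (band : b.1 = true)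
    (v : Fin Y.n → k) (L : List k) (hv : ∀ (j : ℕ) (hj : j < Y.n), v ⟨j, hj⟩ = ent L j) (f : k[X]) (j : ℕ)
    (hj : j < Y.n) : ∃ h' : j < bcN b, (aeval Y.T.toLinearMap f v) ⟨j, hj⟩ =
      (aeval (Matrix.toLin' (matOf (bcN b) (bcM b))) f (vecOf (bcN b) L)) ⟨j, h'⟩ := by
  subst e
  refine ⟨hj, ?_⟩
  have h1 : v = vecOf (bcN b) L := by
    funext j
    exact hv j.1 j.2
  rw [KPR_T hb band, h1]
  rfl

/-- the coordinates of the direct sum, in one row -/
noncomputable def K2RowP_J (P : NF S k) (nm : ℕ) : ((i : Fin P.m) → (Fin (P.X i).n → k)) →ₗ[k] (ℕ → k) where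
  toFun u := fun col => if hi : col / nm < P.m then
    (if hj : col % nm < (P.X ⟨col / nm, hi⟩).n then u ⟨col / nm, hi⟩ ⟨col % nm, hj⟩ else 0) else 0
  map_add' u v := by
    funext col
    simp only [Pi.add_apply]
    split_ifs <;> simp
  map_smul' a u := by
    funext col
    simp only [Pi.smul_apply, RingHom.id_apply]
    split_ifs <;> simp

theorem K2RowP_J_apply (P : NF S k) (nm : ℕ) (u : (i : Fin P.m) → (Fin (P.X i).n → k)) (col : ℕ) :
    K2RowP_J P nm u col = if hi : col / nm < P.m then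
      (if hj : col % nm < (P.X ⟨col / nm, hi⟩).n then u ⟨col / nm, hi⟩ ⟨col % nm, hj⟩ else 0) else 0 := rfl

theorem K2RowP_J_at (P : NF S k) (nm : ℕ) (hn : ∀ i, (P.X i).n ≤ nm) (u : (i : Fin P.m) → (Fin (P.X i).n → k))
    (i : Fin P.m) (j : Fin (P.X i).n) : K2RowP_J P nm u ((i : ℕ) * nm + (j : ℕ)) = u i j := by
  have hj : (j : ℕ) < nm := lt_of_lt_of_le j.2 (hn i)
  have hnm : 0 < nm := by omega
  have h1 : ((i : ℕ) * nm + (j : ℕ)) / nm = i := by
    rw [Nat.mul_comm, Nat.mul_add_div hnm, Nat.div_eq_of_lt hj, Nat.add_zero]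
  have h2 : ((i : ℕ) * nm + (j : ℕ)) % nm = j := by
    rw [Nat.mul_comm, Nat.mul_add_mod, Nat.mod_eq_of_lt hj]
  rw [K2RowP_J_apply]
  have key : ∀ (i' j' : ℕ), i' = i → j' = j → (if hi : i' < P.m then
      (if hj : j' < (P.X ⟨i', hi⟩).n then u ⟨i', hi⟩ ⟨j', hj⟩ else 0) else 0) = u i j := by
    rintro i' j' rfl rfl
    rw [dif_pos i.2, dif_pos j.2]
  exact key _ _ h1 h2

theorem K2RowP_J_inj (P : NF S k) (nm : ℕ) (hn : ∀ i, (P.X i).n ≤ nm) : Function.Injective (K2RowP_J P nm) := by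
  intro u v h
  funext i j
  rw [← K2RowP_J_at P nm hn u i j, ← K2RowP_J_at P nm hn v i j, h]

theorem K2RowP_finrank {p : NC D k} (hp : ncOk S p) :
    finrank k ((i : Fin (ncDec S p).m) → (Fin ((ncDec S p).X i).n → k)) ≤ p.1.length * nmx p.1 := by
  rw [Module.finrank_pi_fintype]
  have h1 : ∀ i ∈ (Finset.univ : Finset (Fin (ncDec S p).m)),
      finrank k (Fin ((ncDec S p).X i).n → k) ≤ nmx p.1 := by
    intro i _
    rw [Module.finrank_fin_fun]
    exact K2RowP_n hp i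
  refine (Finset.sum_le_card_nsmul _ _ _ h1).trans ?_
  rw [Finset.card_univ, Fintype.card_fin, smul_eq_mul, K2RowP_m hp]

/-- the components of `actX` -/
theorem K2RowP_act (P : NF S k) (f : k[X]) (m : ℕ) (u : (i : Fin P.m) → (Fin (P.X i).n → k)) (i : Fin P.m) :
    (aeval (P.actX Polynomial.X) f ((P.actX Polynomial.X ^ m) u)) i =
      aeval (P.X i).T.toLinearMap (f * Polynomial.X ^ m) (u i) := by
  have h1 : (P.actX Polynomial.X ^ m) u = aeval (P.actX Polynomial.X) (Polynomial.X ^ m : k[X]) u := by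
    rw [map_pow, aeval_X]
  rw [h1, ← Module.End.mul_apply, ← map_mul, NF.actX_aeval]
  rfl

/-- the row of a vector -/
theorem K2RowP_row {p : NC D k} (hp : ncOk S p) {c : BC D k} {B : ℕ} (π h : List k) (N m : ℕ)
    (x : {g // g ∈ gP B p c} → ((i : Fin (ncDec S p).m) → (Fin ((ncDec S p).X i).n → k)))
    (hx : ∀ (g : {g // g ∈ gP B p c}) (i : Fin (ncDec S p).m) (X : EC D k) (hX : p.1[(i : ℕ)]? = some X)
        (j : ℕ) (hj : j < ((ncDec S p).X i).n), j < bcN X.1 ∧
        ((¬ sameC B X.1 c → x g i ⟨j, hj⟩ = 0) ∧ (sameC B X.1 c → x g i ⟨j, hj⟩ = ent (vP B X g.1) j)))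
    (g : {g // g ∈ gP B p c}) :
    ent (rowP B p c π h N m g.1) = K2RowP_J (ncDec S p) (nmx p.1)
      (aeval ((ncDec S p).actX Polynomial.X) (1 - polOf π ^ (N + 1) * polOf h) (((ncDec S p).actX Polynomial.X ^ m) (x g))) := by
  classical
  funext col
  rw [K2RowP_J_apply]
  unfold rowP
  rw [ent_map_range]
  have hm := K2RowP_m hp
  by_cases hi : col / nmx p.1 < (ncDec S p).m
  · rw [dif_pos hi]
    obtain ⟨X, hX, hX', e⟩ := K2RowP_get hp ⟨col / nmx p.1, hi⟩
    simp only at hX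
    by_cases hj : col % nmx p.1 < ((ncDec S p).X ⟨col / nmx p.1, hi⟩).n
    · rw [dif_pos hj, K2RowP_act]
      have hnm : 0 < nmx p.1 := by
        have := K2RowP_n hp ⟨col / nmx p.1, hi⟩
        omega
      have hcol : col < p.1.length * nmx p.1 := by
        rw [hm] at hi
        exact (Nat.div_lt_iff_lt_mul hnm).1 hi
      rw [if_pos hcol, hX]
      have hxg := hx g ⟨col / nmx p.1, hi⟩ X hX
      simp only
      by_cases hs : sameC B X.1 c
      · rw [if_pos hs]
        obtain ⟨h', he⟩ := K2RowP_blk e hs.1 (x g ⟨col / nmx p.1, hi⟩) (vP B X g.1)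
          (fun j hj => (hxg j hj).2.2 hs) ((1 - polOf π ^ (N + 1) * polOf h) * Polynomial.X ^ m) _ hj
        rw [he]
        have h2 := vecOf_eV (bcN X.1) (bcM X.1) π h N ((mv (bcN X.1) (bcM X.1))^[m] (vP B X g.1))
        have h3 : (aeval (Matrix.toLin' (matOf (bcN X.1) (bcM X.1))))
            ((1 - polOf π ^ (N + 1) * polOf h) * Polynomial.X ^ m) (vecOf (bcN X.1) (vP B X g.1)) =
            vecOf (bcN X.1) (eV (bcN X.1) (bcM X.1) π h N ((mv (bcN X.1) (bcM X.1))^[m] (vP B X g.1))) := by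
          rw [h2, map_mul, map_pow, aeval_X, Module.End.mul_apply, vecOf_mv_iter, ← Matrix.toLin'_pow,
            Matrix.toLin'_apply]
        rw [h3]
        rfl
      · rw [if_neg hs]
        have h0 : x g ⟨col / nmx p.1, hi⟩ = 0 := by
          funext j
          exact (hxg j.1 j.2).2.1 hs
        rw [h0, map_zero]
        rfl
    · rw [dif_neg hj]
      split_ifs with hcol
      · rw [hX]
        simp only
        split_ifs with hs
        · rw [e] at hj
          have hj' : ¬ col % nmx p.1 < bcN X.1 := hj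
          unfold eV
          rw [ent_map_range, if_neg hj']
        · rfl
      · rfl
  · rw [dif_neg hi]
    split_ifs with hcol
    · exfalso
      apply hi
      rw [hm]
      have hnm : 0 < nmx p.1 := by
        rcases Nat.eq_zero_or_pos (nmx p.1) with h0 | h0
        · rw [h0, Nat.mul_zero] at hcol
          omega
        · exact h0
      exact (Nat.div_lt_iff_lt_mul hnm).2 hcol
    · rfl

/-- `prim_span` for the vectors of `USpan_eq`, `d = p.1.length * nmx p.1`; the injective linear map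
`u ↦ (col ↦ u (col / nmx) (col % nmx) or 0)` maps the spanning vectors to the rows. -/
theorem rowsP_rank {p : NC D k} (hp : ncOk S p) {c : BC D k} (hc : bcOk S c) (band : c.1 = true) {B : ℕ}
    (bp : ncBig p B) (bc : scBig (bcS c) B) (π h : List k) (N : ℕ) (hpr : primPC B p c π h N) :
    finrank k ((ncDec S p).UPrim (bcBlk S c hc).x (polOf π)) = finrank k (rowSp (rowsP B p c π h N)) := by
  obtain ⟨x, hU, hx⟩ := USpan_eq hp hc band bp bc
  -- the generators are killed
  have hkill : ∀ g, aeval ((ncDec S p).actX Polynomial.X) (polOf π ^ (N + 1) * (1 - polOf π ^ (N + 1) * polOf h)) (x g) = 0 := by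
    intro g
    funext i
    have h1 := K2RowP_act (ncDec S p) (polOf π ^ (N + 1) * (1 - polOf π ^ (N + 1) * polOf h)) 0 (x g) i
    rw [pow_zero, pow_zero, mul_one, Module.End.one_apply] at h1
    rw [h1]
    obtain ⟨X, hX, hX', e⟩ := K2RowP_get hp i
    have hxg := hx g i X hX
    by_cases hs : sameC B X.1 c
    · funext j
      obtain ⟨h', he⟩ := K2RowP_blk e hs.1 (x g i) (vP B X g.1)
        (fun j hj => (hxg j hj).2.2 hs) (polOf π ^ (N + 1) * (1 - polOf π ^ (N + 1) * polOf h)) j.1 j.2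
      have h2 := (piV_eq_zero_iff (bcN X.1) (bcM X.1) π h N (vP B X g.1)).1
        (hpr X (List.mem_of_getElem? hX) hs g.1 g.2)
      rw [h2] at he
      exact he
    · have h0 : x g i = 0 := by
        funext j
        exact (hxg j.1 j.2).2.1 hs
      rw [h0, map_zero]
      rfl
  have hprim := prim_span x (polOf π) (polOf h) N (p.1.length * nmx p.1) (K2RowP_finrank hp) _ hU hkill
  rw [NF.UPrim_eq, hprim]
  rw [(Submodule.equivMapOfInjective (K2RowP_J (ncDec S p) (nmx p.1))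
    (K2RowP_J_inj (ncDec S p) (nmx p.1) (K2RowP_n hp)) _).finrank_eq, Submodule.map_span]
  have hset : (K2RowP_J (ncDec S p) (nmx p.1)) '' {u | ∃ m < p.1.length * nmx p.1, ∃ i : {g // g ∈ gP B p c},
      u = aeval ((ncDec S p).actX Polynomial.X) (1 - polOf π ^ (N + 1) * polOf h)
        (((ncDec S p).actX Polynomial.X ^ m) (x i))} = {v | ∃ r ∈ rowsP B p c π h N, v = ent r} := by
    ext v
    constructor
    · rintro ⟨u, ⟨m, hm, g, rfl⟩, rfl⟩
      refine ⟨rowP B p c π h N m g.1, ?_, (K2RowP_row hp π h N m x hx g).symm⟩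
      unfold rowsP
      exact List.mem_flatMap.2 ⟨m, List.mem_range.2 hm, List.mem_map.2 ⟨g.1, g.2, rfl⟩⟩
    · rintro ⟨r, hr, rfl⟩
      unfold rowsP at hr
      obtain ⟨m, hm, hr⟩ := List.mem_flatMap.1 hr
      obtain ⟨g, hg, rfl⟩ := List.mem_map.1 hr
      exact ⟨_, ⟨m, List.mem_range.1 hm, ⟨g, hg⟩, rfl⟩, (K2RowP_row hp π h N m x hx ⟨g, hg⟩).symm⟩
  rw [hset]
  rfl

/-- `prim_split` for `actX X` on the direct sum -/
theorem exists_primPC {p : NC D k} (hp : ncOk S p) {c : BC D k} (hc : bcOk S c) (band : c.1 = true) {B : ℕ}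
    (bp : ncBig p B) (bc : scBig (bcS c) B) (π : List k) (hπ : polOf π ≠ 0) :
    ∃ (h : List k) (N : ℕ), primPC B p c π h N := by
  obtain ⟨x, -, hx⟩ := USpan_eq hp hc band bp bc
  obtain ⟨h', N, hN⟩ := prim_split ((ncDec S p).actX Polynomial.X) (polOf π) hπ
  obtain ⟨h, rfl⟩ := exists_polOf h'
  refine ⟨h, N, ?_⟩
  intro X hX hs g hg
  rw [piV_eq_zero_iff]
  obtain ⟨i₀, hi₀⟩ := List.mem_iff_getElem?.1 hX
  have hlt : i₀ < (ncDec S p).m := by
    rw [K2RowP_m hp]
    exact (List.getElem?_eq_some_iff.1 hi₀).1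
  obtain ⟨X', hX', hX'', e⟩ := K2RowP_get hp ⟨i₀, hlt⟩
  have hXX : X = X' := by
    simp only at hX'
    rw [hi₀] at hX'
    exact Option.some_inj.1 hX'
  subst hXX
  have hxg := hx ⟨g, hg⟩ ⟨i₀, hlt⟩ X hX'
  have hn : ((ncDec S p).X ⟨i₀, hlt⟩).n = bcN X.1 := by rw [e]; rfl
  funext j
  obtain ⟨h2, he⟩ := K2RowP_blk e hs.1 (x ⟨g, hg⟩ ⟨i₀, hlt⟩) (vP B X g)
    (fun j hj => (hxg j hj).2.2 hs) (polOf π ^ (N + 1) * (1 - polOf π ^ (N + 1) * polOf h)) j.1 (by rw [hn]; exact j.2)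
  have h1 := K2RowP_act (ncDec S p) (polOf π ^ (N + 1) * (1 - polOf π ^ (N + 1) * polOf h)) 0 (x ⟨g, hg⟩) ⟨i₀, hlt⟩
  rw [pow_zero, pow_zero, mul_one, Module.End.one_apply, hN] at h1
  rw [← h1] at he
  exact he.symm

end StrAlg
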