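import Pool.Agent.Lib.MP_b9fd58_lc.KStr

/-!
# Stream K: strings with ultimately periodic words are coded
-/

set_option autoImplicit false

namespace StrAlg

variable {D : Dat} {S : Sides D}

/-- the states of a deterministic machine with ultimately periodic input are ultimately periodic -/
theorem exists_period {σ ι : Type} [Finite σ] (f : σ → ι → σ) (s : ℕ → σ) (x : ℕ → ι)
    (hs : ∀ n, s (n + 1) = f (s n) (x n)) {N P : ℕ} (hP : 0 < P) (hx : ∀ n, N ≤ n → x (n + P) = x n) :
    ∃ N' P' : ℕ, 0 < P' ∧ ∀ n, N' ≤ n → s (n + P') = s n ∧ x (n + P') = x n := by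
  obtain ⟨i, j, hij, hs2⟩ : ∃ i j : ℕ, i < j ∧ s (N + i * P) = s (N + j * P) := by
    obtain ⟨a, b, hne, he⟩ := Finite.exists_ne_map_eq_of_infinite (fun i : ℕ => s (N + i * P))
    rcases lt_or_gt_of_ne hne with h | h
    · exact ⟨a, b, h, he⟩
    · exact ⟨b, a, h, he.symm⟩
  have hxk : ∀ k n, N ≤ n → x (n + k * P) = x n := by
    intro k
    induction k with
    | zero => intro n _; simp
    | succ k ih =>
      intro n hn
      have e : n + (k + 1) * P = (n + k * P) + P := by ring
      rw [e, hx _ (by omega), ih n hn]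
  have hx2 : ∀ n, N ≤ n → x (n + (j - i) * P) = x n := hxk (j - i)
  have hji : i * P + (j - i) * P = j * P := by
    rw [← Nat.add_mul]
    congr 1
    omega
  refine ⟨N + i * P, (j - i) * P, Nat.mul_pos (by omega) hP, ?_⟩
  have hs3 : ∀ k, s (N + i * P + k + (j - i) * P) = s (N + i * P + k) := by
    intro k
    induction k with
    | zero =>
      have e : N + i * P + 0 + (j - i) * P = N + j * P := by
        rw [← hji]
        ring
      rw [e, ← hs2]
      rfl
    | succ k ih =>
      have e : N + i * P + (k + 1) + (j - i) * P = (N + i * P + k + (j - i) * P) + 1 := by ring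
      have e2 : N + i * P + (k + 1) = (N + i * P + k) + 1 := by ring
      have hle : N ≤ N + i * P + k := by
        have := Nat.zero_le (i * P)
        omega
      rw [e, e2, hs, hs, ih, hx2 _ hle]
  intro n hn
  obtain ⟨k, rfl⟩ := Nat.exists_eq_add_of_le hn
  have hle : N ≤ N + i * P + k := by
    have := Nat.zero_le (i * P)
    omega
  exact ⟨hs3 k, hx2 _ hle⟩

theorem KUP_none {α : Type} {f : ℕ → Option α} (hf : ∀ n, (f (n + 1)).isSome = true → (f n).isSome = true)
    (h0 : f 0 = none) (n : ℕ) : f n = none := by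
  induction n with
  | zero => exact h0
  | succ n ih =>
    cases h : f (n + 1) with
    | none => rfl
    | some a =>
      exfalso
      have := hf n (by rw [h]; rfl)
      rw [ih] at this
      exact absurd this (by simp)

theorem KUP_list {α : Type} (m : ℕ) : ∀ f : ℕ → Option α,
    (∀ n, (f (n + 1)).isSome = true → (f n).isSome = true) → f m = none →
    ∃ l : List α, ∀ n, l[n]? = f n := by
  induction m with
  | zero =>
    intro f hf hm
    exact ⟨[], fun n => by rw [KUP_none hf hm n]; simp⟩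
  | succ m ih =>
    intro f hf hm
    cases h0 : f 0 with
    | none => exact ⟨[], fun n => by rw [KUP_none hf h0 n]; simp⟩
    | some a =>
      obtain ⟨l, hl⟩ := ih (fun n => f (n + 1)) (fun n => hf (n + 1)) hm
      refine ⟨a :: l, fun n => ?_⟩
      cases n with
      | zero => rw [h0]; rfl
      | succ n =>
        rw [List.getElem?_cons_succ]
        exact hl n

/-- a finite sequence is coded -/
theorem exists_up1_fin {α : Type} (f : ℕ → Option α) (hf : ∀ n, (f (n + 1)).isSome = true → (f n).isSome = true)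
    {m : ℕ} (hm : f m = none) : ∃ c : List α × List α, ∀ n, up1 c n = f n := by
  obtain ⟨l, hl⟩ := KUP_list m f hf hm
  refine ⟨(l, []), fun n => ?_⟩
  unfold up1
  by_cases h : n < l.length
  · rw [if_pos h]
    exact hl n
  · have h1 : l[n]? = none := List.getElem?_eq_none (by omega)
    rw [if_neg h, ← hl n, h1]
    simp

/-- an ultimately periodic sequence is coded -/
theorem exists_up1_inf {α : Type} (f : ℕ → α) {N P : ℕ} (hP : 0 < P) (hf : ∀ n, N ≤ n → f (n + P) = f n) :
    ∃ c : List α × List α, ∀ n, up1 c n = some (f n) := by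
  have hxk : ∀ k n, N ≤ n → f (n + k * P) = f n := by
    intro k
    induction k with
    | zero => intro n _; simp
    | succ k ih =>
      intro n hn
      have e : n + (k + 1) * P = (n + k * P) + P := by ring
      rw [e, hf _ (by omega), ih n hn]
  refine ⟨((List.range N).map f, (List.range P).map (fun i => f (N + i))), fun n => ?_⟩
  unfold up1
  simp only [List.length_map, List.length_range]
  by_cases h : n < N
  · rw [if_pos h, List.getElem?_map, List.getElem?_range h]
    rfl
  · rw [if_neg h, List.getElem?_map, List.getElem?_range (Nat.mod_lt _ hP)]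
    have h2 := hxk ((n - N) / P) (N + (n - N) % P) (by omega)
    have h3 : N + (n - N) % P + (n - N) / P * P = n := by
      have := Nat.mod_add_div (n - N) P
      rw [Nat.mul_comm] at this
      omega
    rw [h3] at h2
    rw [h2]
    rfl

theorem KUP_reach_lt {w : Str S} {e : Bool} {n : ℕ} (hn : 0 < n) (h : stn e n 0 ∈ w.Z) :
    ∀ j < n, w.L.lt e (stn e j 0) ≠ 1 := by
  obtain ⟨e', n', h1, h2, -⟩ := h
  have h3 : e' = e ∧ n' = n := by
    cases e <;> cases e' <;> simp at h2 ⊢ <;> omega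
  obtain ⟨rfl, rfl⟩ := h3
  intro j hj
  exact (h1.lk j hj).2

theorem KUP_reach_pred (w : Str S) (e : Bool) (n : ℕ) (h : stn e ((n + 1 : ℕ) : ℤ) 0 ∈ w.Z) :
    stn e (n : ℤ) 0 ∈ w.Z := by
  have h1 := KUP_reach_lt (Nat.succ_pos n) h
  exact Ln.Reach.of_lt (fun j hj => h1 j (by omega))

theorem KUP_pred (w : Str S) (n : ℕ) (h : ((n + 1 : ℕ) : ℤ) ∈ w.Z) : (n : ℤ) ∈ w.Z := by
  have := KUP_reach_pred w true n (by rw [stn_true, zero_add]; exact h)
  rw [stn_true, zero_add] at this
  exact this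

theorem KUP_pred' (w : Str S) (n : ℕ) (h : -(((n + 1 : ℕ) : ℤ)) ∈ w.Z) : -(n : ℤ) ∈ w.Z := by
  have := KUP_reach_pred w false n (by rw [stn_false, zero_sub]; exact h)
  rw [stn_false, zero_sub] at this
  exact this

/-- the right half of a string: records at `0, 1, 2, …` -/
theorem exists_right (w : Str S) (h : ∀ s, (w.L.wd 0 s).UP) : ∃ c : U1 D, ∀ n : ℕ,
    (((n : ℤ) ∉ w.Z ∧ up1 c n = none) ∨
      ((n : ℤ) ∈ w.Z ∧ up1 c n = some (w.L.lam (n : ℤ), w.L.v (n : ℤ), w.L.r (n : ℤ)))) := by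
  classical
  let F : ℕ → Option (Rc D) := fun n =>
    if (n : ℤ) ∈ w.Z then some (w.L.lam (n : ℤ), w.L.v (n : ℤ), w.L.r (n : ℤ)) else none
  suffices hc : ∃ c : U1 D, ∀ n, up1 c n = F n by
    obtain ⟨c, hc⟩ := hc
    refine ⟨c, fun n => ?_⟩
    by_cases hn : (n : ℤ) ∈ w.Z
    · right
      exact ⟨hn, by rw [hc n]; exact if_pos hn⟩
    · left
      exact ⟨hn, by rw [hc n]; exact if_neg hn⟩
  by_cases hall : ∀ n : ℕ, (n : ℤ) ∈ w.Z
  · have hne : ∀ n : ℕ, w.L.lam (n : ℤ) ≠ 1 := fun n => KStr_lam_ne w (hall n) (by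
      have := hall (n + 1)
      push_cast at this
      exact this)
    obtain ⟨N, P, hP, hU⟩ := h (w.L.r 0)
    have hU2 : ∀ n, N ≤ n → w.L.lam ((n + P : ℕ) : ℤ) = w.L.lam (n : ℤ) := by
      intro n hn
      have h1 := hU n hn
      unfold Ln.wd at h1
      rw [beq_self_eq_true, Ln.wdd_apply, Ln.wdd_apply, stn_true, stn_true, zero_add, zero_add] at h1
      exact h1
    obtain ⟨N', P', hP', hper⟩ := exists_period
      (fun (t : Fin D.nV × Bool) (y : Fin 3) => ((S.nx t.1 t.2 y).1, !(S.nx t.1 t.2 y).2))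
      (fun n => (w.L.v (n : ℤ), w.L.r (n : ℤ))) (fun n => w.L.lam (n : ℤ)) (by
        intro n
        have h1 := w.L.fwd (n : ℤ) (hne n)
        simp only
        rw [h1]
        push_cast
        simp) hP hU2
    obtain ⟨c, hc⟩ := exists_up1_inf
      (fun n : ℕ => ((w.L.lam (n : ℤ), w.L.v (n : ℤ), w.L.r (n : ℤ)) : Rc D)) hP' (N := N') (by
        intro n hn
        obtain ⟨h1, h2⟩ := hper n hn
        rw [Prod.mk.injEq] at h1
        rw [h1.1, h1.2, h2])
    exact ⟨c, fun n => by rw [hc n]; exact (if_pos (hall n)).symm⟩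
  · push Not at hall
    obtain ⟨m, hm⟩ := hall
    refine exists_up1_fin F (fun n hn => ?_) (m := m) (if_neg hm)
    have h1 : ((n + 1 : ℕ) : ℤ) ∈ w.Z := by
      by_contra hc
      rw [show F (n + 1) = none from if_neg hc] at hn
      exact absurd hn (by simp)
    have h2 : (n : ℤ) ∈ w.Z := KUP_pred w n h1
    rw [show F n = _ from if_pos h2]
    rfl

/-- the left half of a string: records at `-1, -2, …` -/
theorem exists_left (w : Str S) (h : ∀ s, (w.L.wd 0 s).UP) : ∃ c : U1 D, ∀ n : ℕ,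
    ((-((n : ℤ) + 1) ∉ w.Z ∧ up1 c n = none) ∨
      (-((n : ℤ) + 1) ∈ w.Z ∧ up1 c n = some (w.L.lam (-((n : ℤ) + 1)), w.L.v (-((n : ℤ) + 1)), w.L.r (-((n : ℤ) + 1))))) := by
  classical
  let F : ℕ → Option (Rc D) := fun n =>
    if -((n : ℤ) + 1) ∈ w.Z then
      some (w.L.lam (-((n : ℤ) + 1)), w.L.v (-((n : ℤ) + 1)), w.L.r (-((n : ℤ) + 1))) else none
  suffices hc : ∃ c : U1 D, ∀ n, up1 c n = F n by
    obtain ⟨c, hc⟩ := hc
    refine ⟨c, fun n => ?_⟩
    by_cases hn : -((n : ℤ) + 1) ∈ w.Z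
    · right
      exact ⟨hn, by rw [hc n]; exact if_pos hn⟩
    · left
      exact ⟨hn, by rw [hc n]; exact if_neg hn⟩
  by_cases hall : ∀ n : ℕ, -((n : ℤ) + 1) ∈ w.Z
  · have hall' : ∀ n : ℕ, -(n : ℤ) ∈ w.Z := by
      intro n
      cases n with
      | zero =>
        rw [Nat.cast_zero, neg_zero]
        exact Ln.Reach.refl
      | succ n =>
        have := hall n
        push_cast
        exact this
    have hne : ∀ n : ℕ, w.L.lam (-((n : ℤ) + 1)) ≠ 1 := fun n => KStr_lam_ne w (hall n) (by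
      have e : -((n : ℤ) + 1) + 1 = -(n : ℤ) := by ring
      rw [e]
      exact hall' n)
    obtain ⟨N, P, hP, hU⟩ := h (!w.L.r 0)
    have hU1 : ∀ n, N ≤ n → w.L.lam (-(((n + P : ℕ) : ℤ) + 1)) = w.L.lam (-((n : ℤ) + 1)) := by
      intro n hn
      have h1 := hU n hn
      unfold Ln.wd at h1
      have h2 : ((!w.L.r 0) == w.L.r 0) = false := by cases w.L.r 0 <;> rfl
      rw [h2, Ln.wdd_apply, Ln.wdd_apply, stn_false, stn_false] at h1
      have h3 : Fin.rev (w.L.lam (0 - ((n + P : ℕ) : ℤ) - 1)) = Fin.rev (w.L.lam (0 - (n : ℤ) - 1)) := h1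
      rw [Ln.rev_inj'] at h3
      have e1 : -(((n + P : ℕ) : ℤ) + 1) = 0 - ((n + P : ℕ) : ℤ) - 1 := by ring
      have e2 : -((n : ℤ) + 1) = 0 - (n : ℤ) - 1 := by ring
      rw [e1, e2, h3]
    have hU2 : ∀ n, N ≤ n → w.L.lam (-((((n + P) + 1 : ℕ) : ℤ) + 1)) =
        w.L.lam (-(((n + 1 : ℕ) : ℤ) + 1)) := by
      intro n hn
      have h1 := hU1 (n + 1) (by omega)
      rw [← h1]
      congr 2
      push_cast
      ring
    obtain ⟨N', P', hP', hper⟩ := exists_period
      (fun (t : Fin D.nV × Bool) (y : Fin 3) => S.nx t.1 (!t.2) (Fin.rev y))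
      (fun n => (w.L.v (-((n : ℤ) + 1)), w.L.r (-((n : ℤ) + 1))))
      (fun n => w.L.lam (-(((n + 1 : ℕ) : ℤ) + 1))) (by
        intro n
        have h1 := w.L.bwd (-(((n + 1 : ℕ) : ℤ) + 1)) (hne (n + 1))
        have e : -(((n + 1 : ℕ) : ℤ) + 1) + 1 = -((n : ℤ) + 1) := by push_cast; ring
        rw [e] at h1
        simp only
        exact h1.symm) hP hU2
    obtain ⟨c, hc⟩ := exists_up1_inf
      (fun n : ℕ => ((w.L.lam (-((n : ℤ) + 1)), w.L.v (-((n : ℤ) + 1)), w.L.r (-((n : ℤ) + 1))) : Rc D))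
      hP' (N := N' + 1) (by
        intro n hn
        obtain ⟨h1, -⟩ := hper n (by omega)
        obtain ⟨-, h2⟩ := hper (n - 1) (by omega)
        have e1 : n - 1 + P' + 1 = n + P' := by omega
        have e2 : n - 1 + 1 = n := by omega
        rw [e1, e2] at h2
        rw [Prod.mk.injEq] at h1
        rw [h1.1, h1.2, h2])
    exact ⟨c, fun n => by rw [hc n]; exact (if_pos (hall n)).symm⟩
  · push Not at hall
    obtain ⟨m, hm⟩ := hall
    refine exists_up1_fin F (fun n hn => ?_) (m := m) (if_neg hm)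
    have h1 : -(((n + 1 : ℕ) : ℤ) + 1) ∈ w.Z := by
      by_contra hc
      rw [show F (n + 1) = none from if_neg hc] at hn
      exact absurd hn (by simp)
    have h2 : -((n : ℤ) + 1) ∈ w.Z := by
      have := KUP_pred' w (n + 1) (by push_cast at h1 ⊢; exact h1)
      push_cast at this
      exact this
    rw [show F n = _ from if_pos h2]
    rfl

/-- a string whose two words at `0` are ultimately periodic is coded -/
theorem exists_code (w : Str S) (h : ∀ s, (w.L.wd 0 s).UP) : ∃ c : SC D, Matches w c := by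
  obtain ⟨cr, hr⟩ := exists_right w h
  obtain ⟨cl, hl⟩ := exists_left w h
  have key : ∀ p : ℤ, (p ∉ w.Z ∧ scF (D := D) (cr, cl) p = none) ∨
      (p ∈ w.Z ∧ scF (D := D) (cr, cl) p = some (w.L.lam p, w.L.v p, w.L.r p)) := by
    intro p
    unfold scF
    by_cases hp : 0 ≤ p
    · rw [if_pos hp]
      have h1 := hr p.toNat
      rw [Int.toNat_of_nonneg hp] at h1
      exact h1
    · rw [if_neg hp]
      have h1 := hl ((-p).toNat - 1)
      have e : -((((-p).toNat - 1 : ℕ) : ℤ) + 1) = p := by omega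
      rw [e] at h1
      exact h1
  refine ⟨(cr, cl), ⟨fun p => ?_, fun p a ha => ?_, fun p => ?_⟩⟩
  · unfold scIn
    rcases key p with ⟨h1, h2⟩ | ⟨h1, h2⟩
    · rw [h2]
      simp [h1]
    · rw [h2]
      simp [h1]
  · rcases key p with ⟨h1, h2⟩ | ⟨h1, h2⟩
    · rw [h2] at ha
      exact absurd ha (by simp)
    · rw [h2] at ha
      have h3 := Option.some.inj ha
      rw [← h3]
      exact ⟨rfl, rfl⟩
  · unfold scLam
    rcases key p with ⟨h1, h2⟩ | ⟨h1, h2⟩
    · rw [h2]
      by_contra hc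
      exact h1 (w.clean p hc).1
    · rcases key (p + 1) with ⟨h3, h4⟩ | ⟨h3, h4⟩
      · rw [h2, h4]
        by_contra hc
        exact h3 (w.clean p hc).2
      · rw [h2, h4]

end StrAlg
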