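import Pool.Agent.Lib.MP_b9fd58_lc.KCrit
import Pool.Agent.Lib.MP_b9fd58_lc.KUP

/-!
# Stream K: certificates of type S on codes
-/

set_option autoImplicit false

namespace StrAlg

open Module

variable {D : Dat} {k : Type} [Field k] {S : Sides D}

theorem scStr_UP {c : SC D} (h : scOk S c) (s : Bool) : ((scStr S c h).L.wd 0 s).UP := by
  obtain ⟨B, hB⟩ := exists_scBig c
  refine ⟨(0 : ℤ).natAbs + B + 2, B, hB.1, fun n hn => ?_⟩
  exact scWdd_per hB (s == (scLn S c h).r 0) (p := 0) (N := (0 : ℤ).natAbs + B + 2) le_rfl n hn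

theorem certS_iff {q : NC D k} (hq : ncOk S q) {P : List (NC D k)} (hP : ∀ p ∈ P, ncOk S p) :
    CertS (ncDec S q) (P.map (ncDec S)) ↔ certSC S q P := by
  constructor
  · rintro ⟨w, hUP, hcq, hcP⟩
    obtain ⟨c, hc⟩ := exists_code w hUP
    have hw := hc.scOk
    obtain ⟨B, bw, bq, bP⟩ := exists_big c q P
    refine ⟨c, B, hw, bw, bq, bP, ?_, ?_⟩
    · intro hcr
      exact hcq ((Crit_congr hc (Matches.self hw) (ncDec S q)).2 ((Crit_iff_ncCritC hq hw bq bw).2 hcr))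
    · intro p hp
      exact (Crit_iff_ncCritC (hP p hp) hw (bP p hp) bw).1
        ((Crit_congr hc (Matches.self hw) (ncDec S p)).1 (hcP _ (List.mem_map_of_mem hp)))
  · rintro ⟨w, B, hw, bw, bq, bP, hcq, hcP⟩
    refine ⟨scStr S w hw, scStr_UP hw, fun hcr => hcq ((Crit_iff_ncCritC hq hw bq bw).1 hcr), ?_⟩
    intro p' hp'
    obtain ⟨p, hp, rfl⟩ := List.mem_map.1 hp'
    exact (Crit_iff_ncCritC (hP p hp) hw (bP p hp) bw).2 (hcP p hp)

end StrAlg
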