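import Pool.Agent.Lib.MP_b9fd58_lc.KOm

/-!
# Stream K: the criterion for coded normal forms and coded strings is a bounded condition
-/

set_option autoImplicit false

namespace StrAlg

open Module

variable {D : Dat} {k : Type} [Field k] {S : Sides D}

/-- positions of the fundamental domain are small -/
theorem bcP_le {b : BC D k} {B : ℕ} (h : scBig (bcS b) B) : bcP b ≤ B := by
  obtain ⟨hB, h1, -⟩ := h
  unfold bcS at h1
  unfold bcP
  by_cases hb : b.1 = true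
  · rw [if_pos hb] at h1
    rcases h1.2 with h2 | h2
    · have h3 : b.2.1 = [] := h2
      rw [h3]
      exact Nat.zero_le _
    · exact Nat.le_of_dvd hB h2
  · rw [if_neg hb] at h1
    exact h1.1

/-- the criterion in terms of `Ord` -/
theorem KCrit_critB_iff (X Y : Blk S k) (a : X.M.C) (b : Dual k Y.M.C) (w : Str S) :
    CritB X Y a b w ↔ ∀ (o o' : Bool) (p q r : ℤ), Ord X.x w o p q → Ord w Y.x o' q r →
      ∀ κ, Om X.x.L Y.x.L (X.fn a) (Y.cf b) κ (o == o') p r = 0 := by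
  constructor
  · intro h o o' p q r h1 h2 κ
    exact h o o' p q r h1.1 h1.2.1 h2.2.1 h1.2.2.1 h2.2.2.1 h1.2.2.2.1 h2.2.2.2.1 h1.2.2.2.2 h2.2.2.2.2 κ
  · intro h o o' p q r hp hq hr m1 m2 l1 l2 f1 f2 κ
    exact h o o' p q r ⟨hp, hq, m1, l1, f1⟩ ⟨hq, hr, m2, l2, f2⟩ κ

theorem CritB_iff_critC {X Y : EC D k} (hX : bcOk S X.1) (hY : bcOk S Y.1) {w : SC D} (hw : scOk S w) {B : ℕ}
    (bX : scBig (bcS X.1) B) (bY : scBig (bcS Y.1) B) (bw : scBig w B) :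
    CritB (bcBlk S X.1 hX) (bcBlk S Y.1 hY) (ecElt S X hX) (ecFnl S Y hY) (scStr S w hw) ↔ critC B X Y w := by
  have hPX := bcP_le bX
  have hPY := bcP_le bY
  -- the composed relation at positions of the fundamental domain
  have key : ∀ (o o' : Bool) (p r : ℕ) (q : ℤ), p < bcP X.1 → r < bcP Y.1 →
      Ord (bcBlk S X.1 hX).x (scStr S w hw) o (p : ℤ) q → Ord (scStr S w hw) (bcBlk S Y.1 hY).x o' q (r : ℤ) →
      ordC (20 * B) (bcS X.1) (bcS Y.1) (o == o') (p : ℤ) (r : ℤ) := by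
    intro o o' p r q hp hr h1 h2
    have h3 : Ord (bcBlk S X.1 hX).x (bcBlk S Y.1 hY).x (o == o') (p : ℤ) (r : ℤ) := h1.trans h2
    have h4 : ordS (bcS X.1) (bcS Y.1) (o == o') (p : ℤ) (r : ℤ) := (ordS_iff hX.1 hY.1 _ _ _).1 h3
    exact (ordS_iff_ordC hX.1 hY.1 bX bY _ (by omega) (by omega)).1 h4
  rw [KCrit_critB_iff]
  constructor
  · intro h q hq p hp r hr o o' h1 h2 j hj j' hj'
    have h1' : Ord (bcBlk S X.1 hX).x (scStr S w hw) o (p : ℤ) ((q : ℤ) - ((10 * B : ℕ) : ℤ)) :=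
      (ordS_iff hX.1 hw _ _ _).2 ((ordS_iff_ordC hX.1 hw bX bw _ (by omega) (by omega)).2 h1)
    have h2' : Ord (scStr S w hw) (bcBlk S Y.1 hY).x o' ((q : ℤ) - ((10 * B : ℕ) : ℤ)) (r : ℤ) :=
      (ordS_iff hw hY.1 _ _ _).2 ((ordS_iff_ordC hw hY.1 bw bY _ (by omega) (by omega)).2 h2)
    exact (Om_all_iff hX hY (key o o' p r _ hp hr h1' h2')).1 (h o o' _ _ _ h1' h2') j hj j' hj'
  · intro h o o' p q r h1 h2 κ
    obtain ⟨p₀, hp₀, m, hm⟩ := exists_dom hX.1 ((scStr_Z hX.1 p).1 h1.1)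
    obtain ⟨r₀, hr₀, n, hn⟩ := exists_dom hY.1 ((scStr_Z hY.1 r).1 h2.2.1)
    have em : p = (p₀ : ℤ) + m * ((bcBlk S X.1 hX).l : ℤ) := hm
    have en : r = (r₀ : ℤ) + n * ((bcBlk S Y.1 hY).l : ℤ) := hn
    rw [em] at h1
    rw [en] at h2
    have h1' : Ord (bcBlk S X.1 hX).x (scStr S w hw) o (p₀ : ℤ) q := (Ord_mul_fst _ _ _ _ _ _).1 h1
    have h2' : Ord (scStr S w hw) (bcBlk S Y.1 hY).x o' q (r₀ : ℤ) := (Ord_mul_snd _ _ _ _ _ _).1 h2
    rw [em, en, Om_mul_fst, Om_mul_snd]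
    obtain ⟨q', hq', k1, k2⟩ := exists_small_pos bw q
    have h1s : ordS (bcS X.1) w o (p₀ : ℤ) q' :=
      (k1 (bcS X.1) o (p₀ : ℤ) bX (by omega)).2 ((ordS_iff hX.1 hw _ _ _).1 h1')
    have h2s : ordS w (bcS Y.1) o' q' (r₀ : ℤ) :=
      (k2 (bcS Y.1) o' (r₀ : ℤ) bY (by omega)).2 ((ordS_iff hw hY.1 _ _ _).1 h2')
    have h1c := (ordS_iff_ordC hX.1 hw bX bw _ (by omega) hq').1 h1s
    have h2c := (ordS_iff_ordC hw hY.1 bw bY _ hq' (by omega)).1 h2s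
    have eq' : q' = (((q' + ((10 * B : ℕ) : ℤ)).toNat : ℕ) : ℤ) - ((10 * B : ℕ) : ℤ) := by omega
    rw [eq'] at h1c h2c
    have h3 := h _ (by omega) p₀ hp₀ r₀ hr₀ o o' h1c h2c
    exact (Om_all_iff hX hY (key o o' p₀ r₀ q hp₀ hr₀ h1' h2')).2 h3 _

theorem Crit_iff_ncCritC {c : NC D k} (hc : ncOk S c) {w : SC D} (hw : scOk S w) {B : ℕ} (bc : ncBig c B)
    (bw : scBig w B) : (ncDec S c).Crit (scStr S w hw) ↔ ncCritC B c w := by
  have e1 : (ncDec S c).Crit (scStr S w hw) ↔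
      ∀ t, ∀ ht : t ∈ c.1, ∀ j, CritB (bcBlk S t.1 (hc.1 t ht)) ((ncDec S c).Y j) (ecElt S t (hc.1 t ht))
        ((ncDec S c).b j) (scStr S w hw) :=
    ncDec_forall_X hc (fun X a => ∀ j, CritB X ((ncDec S c).Y j) a ((ncDec S c).b j) (scStr S w hw))
  have e2 : ∀ t, ∀ ht : t ∈ c.1,
      ((∀ j, CritB (bcBlk S t.1 (hc.1 t ht)) ((ncDec S c).Y j) (ecElt S t (hc.1 t ht))
        ((ncDec S c).b j) (scStr S w hw)) ↔ ∀ u ∈ c.2, critC B t u w) := by
    intro t ht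
    have e3 := ncDec_forall_Y hc (fun Y b => CritB (bcBlk S t.1 (hc.1 t ht)) Y (ecElt S t (hc.1 t ht)) b
      (scStr S w hw))
    refine e3.trans ?_
    constructor
    · intro h u hu
      exact (CritB_iff_critC (hc.1 t ht) (hc.2 u hu) hw (bc.2.1 t ht) (bc.2.2 u hu) bw).1 (h u hu)
    · intro h u hu
      exact (CritB_iff_critC (hc.1 t ht) (hc.2 u hu) hw (bc.2.1 t ht) (bc.2.2 u hu) bw).2 (h u hu)
  rw [e1]
  constructor
  · intro h t ht
    exact (e2 t ht).1 (h t ht)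
  · intro h t ht
    exact (e2 t ht).2 (h t ht)

/-- data at positions of two strings matched by the same code -/
theorem KCrit_data {w w' : Str S} {c : SC D} (h : Matches w c) (h' : Matches w' c) {q : ℤ} (hq : q ∈ w.Z) :
    q ∈ w'.Z ∧ w.L.v q = w'.L.v q ∧ w.L.r q = w'.L.r q := by
  have h1 : scIn c q := (h.z q).1 hq
  obtain ⟨a, ha⟩ := Option.isSome_iff_exists.1 h1
  obtain ⟨e1, e2⟩ := h.f q a ha
  obtain ⟨e1', e2'⟩ := h'.f q a ha
  exact ⟨(h'.z q).2 h1, e1.trans e1'.symm, e2.trans e2'.symm⟩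

theorem KCrit_wdd {w w' : Str S} {c : SC D} (h : Matches w c) (h' : Matches w' c) (e : Bool) (q : ℤ) :
    w.L.wdd e q = w'.L.wdd e q := by
  funext n
  unfold Ln.wdd Ln.lt
  rw [h.l, h.l, h'.l, h'.l]

theorem KCrit_ord_snd {w w' : Str S} {c : SC D} (h : Matches w c) (h' : Matches w' c) (x : Str S) (o : Bool)
    (p q : ℤ) (H : Ord x w o p q) : Ord x w' o p q := by
  obtain ⟨hp, hq, hm, hl, hf⟩ := H
  obtain ⟨hq', ev, er⟩ := KCrit_data h h' hq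
  refine ⟨hp, hq', ⟨hm.1.trans ev, ?_⟩, fun e => ?_, fun e => ?_⟩
  · rw [← er]; exact hm.2
  · rw [← KCrit_wdd h h']; exact hl e
  · obtain ⟨n, hn⟩ := hf e
    refine ⟨n, ?_⟩
    unfold AgD at hn ⊢
    rw [← KCrit_wdd h h']
    exact hn

theorem KCrit_ord_fst {w w' : Str S} {c : SC D} (h : Matches w c) (h' : Matches w' c) (y : Str S) (o : Bool)
    (q r : ℤ) (H : Ord w y o q r) : Ord w' y o q r := by
  obtain ⟨hq, hr, hm, hl, hf⟩ := H
  obtain ⟨hq', ev, er⟩ := KCrit_data h h' hq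
  refine ⟨hq', hr, ⟨ev.symm.trans hm.1, ?_⟩, fun e => ?_, fun e => ?_⟩
  · rw [← er]; exact hm.2
  · rw [← KCrit_wdd h h']; exact hl e
  · obtain ⟨n, hn⟩ := hf e
    refine ⟨n, ?_⟩
    unfold AgD at hn ⊢
    rw [← KCrit_wdd h h']
    exact hn

theorem KCrit_congr_aux {w w' : Str S} {c : SC D} (h : Matches w c) (h' : Matches w' c) (p : NF S k)
    (H : p.Crit w) : p.Crit w' := by
  intro i j
  rw [KCrit_critB_iff]
  intro o o' a q r h1 h2 κ
  exact (KCrit_critB_iff _ _ _ _ _).1 (H i j) o o' a q r (KCrit_ord_snd h' h _ _ _ _ h1)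
    (KCrit_ord_fst h' h _ _ _ _ h2) κ

/-- the criterion only depends on the data on the positions -/
theorem Crit_congr {w w' : Str S} {c : SC D} (h : Matches w c) (h' : Matches w' c) (p : NF S k) :
    p.Crit w ↔ p.Crit w' :=
  ⟨KCrit_congr_aux h h' p, KCrit_congr_aux h' h p⟩

end StrAlg
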