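import Pool.Agent.Lib.MP_b9fd58_lc.K2Defs
import Pool.Agent.Lib.MP_b9fd58_lc.KCrit
import Pool.Agent.Lib.MP_b9fd58_lc.KCertS
import Pool.Agent.Lib.MP_b9fd58_lc.H2B

/-!
# Stream K2: ranks on strings
-/

set_option autoImplicit false

namespace StrAlg

open Module

variable {D : Dat} {k : Type} [Field k] {S : Sides D}

/-- positions outside of `[-8 B, 8 B]` can be moved into the zones -/
theorem K2SB_small {w : SC D} {B : ℕ} (bw : scBig w B) (q : ℤ) (hq8 : 8 * B ≤ q.natAbs) :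
    ∃ q' : ℤ, q'.natAbs ≤ 10 * B ∧ 8 * B ≤ q'.natAbs ∧
      (∀ (x : SC D) (o : Bool) (p : ℤ), scBig x B → p.natAbs ≤ B → (ordS x w o p q' ↔ ordS x w o p q)) ∧
      (∀ (y : SC D) (o : Bool) (r : ℤ), scBig y B → r.natAbs ≤ B → (ordS w y o q' r ↔ ordS w y o q r)) := by
  have hB : 0 < B := bw.1
  induction hm : q.natAbs using Nat.strong_induction_on generalizing q with
  | _ m ih =>
    rcases le_or_gt q.natAbs (10 * B) with h1 | h1
    · exact ⟨q, h1, hq8, fun _ _ _ _ _ => Iff.rfl, fun _ _ _ _ _ => Iff.rfl⟩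
    · rcases le_or_gt 0 q with h2 | h2
      · obtain ⟨q', h3, h38, h4, h5⟩ := ih (q - B).natAbs (by omega) (q - B) (by omega) rfl
        have e : q - B + B = q := by ring
        refine ⟨q', h3, h38, fun x o p bx hp => ?_, fun y o r bY hr => ?_⟩
        · rw [h4 x o p bx hp]
          have h6 := ordS_shift_snd bx bw o (p := p) (q := q - B) hp (by omega)
          rw [e] at h6
          exact h6.symm
        · rw [h5 y o r bY hr]
          have h6 := ordS_shift_fst bw bY o (q := q - B) (r := r) hr (by omega)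
          rw [e] at h6
          exact h6.symm
      · obtain ⟨q', h3, h38, h4, h5⟩ := ih (q + B).natAbs (by omega) (q + B) (by omega) rfl
        have e : q + B - B = q := by ring
        refine ⟨q', h3, h38, fun x o p bx hp => ?_, fun y o r bY hr => ?_⟩
        · rw [h4 x o p bx hp]
          have h6 := ordS_shift_snd' bx bw o (p := p) (q := q + B) hp (by omega)
          rw [e] at h6
          exact h6.symm
        · rw [h5 y o r bY hr]
          have h6 := ordS_shift_fst' bw bY o (q := q + B) (r := r) hr (by omega)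
          rw [e] at h6
          exact h6.symm

/-- the position `q` is not relevant for a pair of blocks -/
def K2SB_no (w : Str S) (q : ℤ) (X Y : Blk S k) (a : X.M.C) (b : Dual k Y.M.C) : Prop :=
  ∀ (o o' : Bool) (c r : ℤ), Ord X.x w o c q → Ord w Y.x o' q r →
    ∀ κ, Om X.x.L Y.x.L (X.fn a) (Y.cf b) κ (o == o') c r = 0

theorem K2SB_no_iff (p : NF S k) (w : Str S) (q : ℤ) :
    ¬ p.Rel w q ↔ ∀ i j, K2SB_no w q (p.X i) (p.Y j) (p.a i) (p.b j) := by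
  constructor
  · intro h i j o o' c r h1 h2 κ
    by_contra hne
    exact h ⟨i, j, o, o', c, r, h1, h2, κ, hne⟩
  · rintro h ⟨i, j, o, o', c, r, h1, h2, κ, hne⟩
    exact hne (h i j o o' c r h1 h2 κ)

theorem K2SB_pair {X Y : EC D k} (hX : bcOk S X.1) (hY : bcOk S Y.1) {w : SC D} (hw : scOk S w) {B : ℕ}
    (bX : scBig (bcS X.1) B) (bY : scBig (bcS Y.1) B) (bw : scBig w B) :
    (∀ q : ℤ, 8 * B ≤ q.natAbs → K2SB_no (scStr S w hw) q (bcBlk S X.1 hX) (bcBlk S Y.1 hY)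
      (ecElt S X hX) (ecFnl S Y hY)) ↔
    ∀ q < 20 * B + 1, (q ≤ 2 * B ∨ 18 * B ≤ q) → ∀ c < bcP X.1, ∀ r < bcP Y.1, ∀ o o' : Bool,
      ordC (20 * B) (bcS X.1) w o (c : ℤ) (zp B q) → ordC (20 * B) w (bcS Y.1) o' (zp B q) (r : ℤ) →
      ∀ j < bcN X.1, ∀ j' < bcN Y.1, omC (20 * B) X Y (o == o') (c : ℤ) (r : ℤ) j j' = 0 := by
  have hPX := bcP_le bX
  have hPY := bcP_le bY
  -- the composed relation at positions of the fundamental domain
  have key : ∀ (o o' : Bool) (p r : ℕ) (q : ℤ), p < bcP X.1 → r < bcP Y.1 →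
      Ord (bcBlk S X.1 hX).x (scStr S w hw) o (p : ℤ) q → Ord (scStr S w hw) (bcBlk S Y.1 hY).x o' q (r : ℤ) →
      ordC (20 * B) (bcS X.1) (bcS Y.1) (o == o') (p : ℤ) (r : ℤ) := by
    intro o o' p r q hp hr h1 h2
    have h3 : Ord (bcBlk S X.1 hX).x (bcBlk S Y.1 hY).x (o == o') (p : ℤ) (r : ℤ) := h1.trans h2
    have h4 : ordS (bcS X.1) (bcS Y.1) (o == o') (p : ℤ) (r : ℤ) := (ordS_iff hX.1 hY.1 _ _ _).1 h3
    exact (ordS_iff_ordC hX.1 hY.1 bX bY _ (by omega) (by omega)).1 h4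
  constructor
  · intro h q hq hq2 p hp r hr o o' h1 h2 j hj j' hj'
    have ez : zp B q = (q : ℤ) - ((10 * B : ℕ) : ℤ) := rfl
    have h1' : Ord (bcBlk S X.1 hX).x (scStr S w hw) o (p : ℤ) (zp B q) :=
      (ordS_iff hX.1 hw _ _ _).2 ((ordS_iff_ordC hX.1 hw bX bw _ (by omega) (by omega)).2 h1)
    have h2' : Ord (scStr S w hw) (bcBlk S Y.1 hY).x o' (zp B q) (r : ℤ) :=
      (ordS_iff hw hY.1 _ _ _).2 ((ordS_iff_ordC hw hY.1 bw bY _ (by omega) (by omega)).2 h2)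
    exact (Om_all_iff hX hY (key o o' p r _ hp hr h1' h2')).1
      (h (zp B q) (by omega) o o' _ _ h1' h2') j hj j' hj'
  · intro h q hq8 o o' p r h1 h2 κ
    obtain ⟨p₀, hp₀, m, hm⟩ := exists_dom hX.1 ((scStr_Z hX.1 p).1 h1.1)
    obtain ⟨r₀, hr₀, n, hn⟩ := exists_dom hY.1 ((scStr_Z hY.1 r).1 h2.2.1)
    have em : p = (p₀ : ℤ) + m * ((bcBlk S X.1 hX).l : ℤ) := hm
    have en : r = (r₀ : ℤ) + n * ((bcBlk S Y.1 hY).l : ℤ) := hn
    rw [em] at h1
    rw [en] at h2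
    have h1' : Ord (bcBlk S X.1 hX).x (scStr S w hw) o (p₀ : ℤ) q := (Ord_mul_fst _ _ _ _ _ _).1 h1
    have h2' : Ord (scStr S w hw) (bcBlk S Y.1 hY).x o' q (r₀ : ℤ) := (Ord_mul_snd _ _ _ _ _ _).1 h2
    rw [em, en, Om_mul_fst, Om_mul_snd]
    obtain ⟨q', hq', hq8', k1, k2⟩ := K2SB_small bw q hq8
    have h1s : ordS (bcS X.1) w o (p₀ : ℤ) q' :=
      (k1 (bcS X.1) o (p₀ : ℤ) bX (by omega)).2 ((ordS_iff hX.1 hw _ _ _).1 h1')
    have h2s : ordS w (bcS Y.1) o' q' (r₀ : ℤ) :=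
      (k2 (bcS Y.1) o' (r₀ : ℤ) bY (by omega)).2 ((ordS_iff hw hY.1 _ _ _).1 h2')
    have h1c := (ordS_iff_ordC hX.1 hw bX bw _ (by omega) hq').1 h1s
    have h2c := (ordS_iff_ordC hw hY.1 bw bY _ hq' (by omega)).1 h2s
    have eq' : q' = zp B ((q' + ((10 * B : ℕ) : ℤ)).toNat) := by
      unfold zp
      omega
    rw [eq'] at h1c h2c
    have h3 := h _ (by omega) (by omega) p₀ hp₀ r₀ hr₀ o o' h1c h2c
    exact (Om_all_iff hX hY (key o o' p₀ r₀ q hp₀ hr₀ h1' h2')).2 h3 _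

/-- `(ncDec S p).Rel` (S2G.lean) in the zones, bounded: reduce `c`, `r` modulo the periods (as in KCrit.lean), outside of `[-10 B, 10 B]` use
`ordS_shift_snd`, `ordS_shift_fst` and the primed versions. -/
theorem noRelC_iff {p : NC D k} (hp : ncOk S p) {w : SC D} (hw : scOk S w) {B : ℕ} (bp : ncBig p B) (bw : scBig w B) :
    noRelC B p w ↔ ∀ q : ℤ, 8 * B ≤ q.natAbs → ¬ (ncDec S p).Rel (scStr S w hw) q := by
  have e0 : (∀ q : ℤ, 8 * B ≤ q.natAbs → ¬ (ncDec S p).Rel (scStr S w hw) q) ↔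
      ∀ i j, ∀ q : ℤ, 8 * B ≤ q.natAbs →
        K2SB_no (scStr S w hw) q ((ncDec S p).X i) ((ncDec S p).Y j) ((ncDec S p).a i) ((ncDec S p).b j) := by
    constructor
    · intro h i j q hq
      exact (K2SB_no_iff _ _ _).1 (h q hq) i j
    · intro h q hq
      exact (K2SB_no_iff _ _ _).2 fun i j => h i j q hq
  have e1 : (∀ i j, ∀ q : ℤ, 8 * B ≤ q.natAbs →
        K2SB_no (scStr S w hw) q ((ncDec S p).X i) ((ncDec S p).Y j) ((ncDec S p).a i) ((ncDec S p).b j)) ↔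
      ∀ t, ∀ ht : t ∈ p.1, ∀ j, ∀ q : ℤ, 8 * B ≤ q.natAbs →
        K2SB_no (scStr S w hw) q (bcBlk S t.1 (hp.1 t ht)) ((ncDec S p).Y j) (ecElt S t (hp.1 t ht))
          ((ncDec S p).b j) :=
    ncDec_forall_X hp (fun X a => ∀ j, ∀ q : ℤ, 8 * B ≤ q.natAbs →
      K2SB_no (scStr S w hw) q X ((ncDec S p).Y j) a ((ncDec S p).b j))
  have e2 : ∀ t, ∀ ht : t ∈ p.1,
      ((∀ j, ∀ q : ℤ, 8 * B ≤ q.natAbs →
        K2SB_no (scStr S w hw) q (bcBlk S t.1 (hp.1 t ht)) ((ncDec S p).Y j) (ecElt S t (hp.1 t ht))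
          ((ncDec S p).b j)) ↔ ∀ u ∈ p.2, ∀ q < 20 * B + 1, (q ≤ 2 * B ∨ 18 * B ≤ q) →
            ∀ c < bcP t.1, ∀ r < bcP u.1, ∀ o o' : Bool,
            ordC (20 * B) (bcS t.1) w o (c : ℤ) (zp B q) → ordC (20 * B) w (bcS u.1) o' (zp B q) (r : ℤ) →
            ∀ j < bcN t.1, ∀ j' < bcN u.1, omC (20 * B) t u (o == o') (c : ℤ) (r : ℤ) j j' = 0) := by
    intro t ht
    have e3 := ncDec_forall_Y hp (fun Y b => ∀ q : ℤ, 8 * B ≤ q.natAbs →
      K2SB_no (scStr S w hw) q (bcBlk S t.1 (hp.1 t ht)) Y (ecElt S t (hp.1 t ht)) b)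
    refine e3.trans ?_
    constructor
    · intro h u hu
      exact (K2SB_pair (hp.1 t ht) (hp.2 u hu) hw (bp.2.1 t ht) (bp.2.2 u hu) bw).1 (h u hu)
    · intro h u hu
      exact (K2SB_pair (hp.1 t ht) (hp.2 u hu) hw (bp.2.1 t ht) (bp.2.2 u hu) bw).2 (h u hu)
  rw [e0, e1]
  constructor
  · intro h t ht
    exact (e2 t ht).2 (fun u hu => h t ht u hu)
  · intro h t ht
    exact (e2 t ht).1 (h t ht)

/-- every code is `scBig`/`ncBig` for a multiple of some number; so there are arbitrarily large `B` -/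
theorem exists_bigR (p : NC D k) (w : SC D) (R : ℕ) : ∃ B, R ≤ B ∧ ncBig p B ∧ scBig w B := by
  obtain ⟨B, h1, h2, -⟩ := exists_big w p []
  have hB : 0 < B := h1.1
  refine ⟨B * (R + 1), ?_, ncBig_mul h2 (Nat.succ_pos R), scBig_mul h1 (Nat.succ_pos R)⟩
  nlinarith

end StrAlg
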