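import Pool.Agent.Lib.MP_b9fd58_lc.K2SA
import Pool.Agent.Lib.MP_b9fd58_lc.K2SB
import Pool.Agent.Lib.MP_b9fd58_lc.K2Lb
import Pool.Agent.Lib.MP_b9fd58_lc.KCertS
import Pool.Agent.Lib.MP_b9fd58_lc.H2B

/-!
# Stream K2: ranks on strings
-/

set_option autoImplicit false

namespace StrAlg

open Module

variable {D : Dat} {k : Type} [Field k] {S : Sides D}

theorem K2S_GInZ {p : NF S k} {w : Str S} {R : ℕ} {s : ℤ → k} (h : p.GInZ w R s) : p.GIn w s := by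
  obtain ⟨i, o, c, q, φ, -, h1, h2⟩ := h
  exact ⟨i, o, c, q, φ, h1, h2⟩

theorem K2S_GOutZ {p : NF S k} {w : Str S} {R : ℕ} {t : ℤ → k} (h : p.GOutZ w R t) : p.GOut w t := by
  obtain ⟨j, o, q, r, y, -, h1, h2⟩ := h
  exact ⟨j, o, q, r, y, h1, h2⟩

/-- a nonzero minor lives on the relevant positions -/
theorem K2S_aux {p : NF S k} {w : Str S} {R : ℕ} (hR : ∀ q, p.Rel w q → q.natAbs ≤ R) {n : ℕ}
    (h : p.RkW w n) : ∃ s t : Fin n → ℤ → k, (∀ j, p.GInZ w R (s j)) ∧ (∀ i, p.GOutZ w R (t i)) ∧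
      (Matrix.of fun i j => ∑ᶠ q, t i q * s j q).det ≠ 0 := by
  obtain ⟨s, t, hs, ht, hd⟩ := h
  refine ⟨s, t, fun j => ?_, fun i => ?_, hd⟩
  · obtain ⟨i, hi⟩ := h2_det_col hd j
    obtain ⟨⟨i', o, c, q, φ, g1, g2, g3⟩, -⟩ := NF.GIn_rel (hs j) (ht i) hi
    exact ⟨i', o, c, q, φ, hR q g1, g2, g3⟩
  · obtain ⟨j, hj⟩ := h2_det_row hd i
    obtain ⟨-, ⟨j', o, q, r, y, g1, g2, g3⟩⟩ := NF.GIn_rel (hs j) (ht i) hj
    exact ⟨j', o, q, r, y, hR q g1, g2, g3⟩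

theorem geS_sound {p : NC D k} (hp : ncOk S p) {w : SC D} (hw : scOk S w) {B : ℕ} (bp : ncBig p B) (bw : scBig w B) {n : ℕ}
    (h : geS B p w n) : (ncDec S p).RkW (scStr S w hw) n := by
  obtain ⟨s, t, hs, ht, hd⟩ := (matS_iff hp hw bp bw n).1 h
  exact ⟨s, t, fun j => K2S_GInZ (hs j), fun i => K2S_GOutZ (ht i), hd⟩

theorem geS_compl {p : NC D k} (hp : ncOk S p) {w : SC D} (hw : scOk S w) {n : ℕ}
    (h : (ncDec S p).RkW (scStr S w hw) n) : ∃ B, ncBig p B ∧ scBig w B ∧ geS B p w n := by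
  obtain ⟨s, t, hs, ht, hd⟩ := h
  choose i o c q φ hs1 hs2 using hs
  choose j o' q' r y ht1 ht2 using ht
  obtain ⟨R, hR⟩ := h2_bound (F := Set.range q ∪ Set.range q') ((Set.finite_range q).union (Set.finite_range q'))
  obtain ⟨B, hB, bp, bw⟩ := exists_bigR p w R
  refine ⟨B, bp, bw, (matS_iff hp hw bp bw n).2 ⟨s, t, fun a => ?_, fun a => ?_, hd⟩⟩
  · refine ⟨i a, o a, c a, q a, φ a, ?_, hs1 a, hs2 a⟩
    have := hR (q a) (Or.inl ⟨a, rfl⟩)
    omega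
  · refine ⟨j a, o' a, q' a, r a, y a, ?_, ht1 a, ht2 a⟩
    have := hR (q' a) (Or.inr ⟨a, rfl⟩)
    omega

/-- `h2_det_col`, `h2_det_row`, `NF.GIn_rel` of H2B.lean: the graph maps of a nonzero minor pass through relevant positions, so they are
based in `[-8 B, 8 B]` -/
theorem eqS_sound {p : NC D k} (hp : ncOk S p) {w : SC D} (hw : scOk S w) {B : ℕ} (bp : ncBig p B) (bw : scBig w B) {n : ℕ}
    (h : eqS B p w n) : (ncDec S p).RkW (scStr S w hw) n ∧ ¬ (ncDec S p).RkW (scStr S w hw) (n + 1) := by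
  obtain ⟨h0, h1, h2⟩ := h
  refine ⟨geS_sound hp hw bp bw h1, fun h3 => ?_⟩
  have hrel := (noRelC_iff hp hw bp bw).1 h0
  have hR : ∀ q, (ncDec S p).Rel (scStr S w hw) q → q.natAbs ≤ 10 * B := by
    intro q hq
    by_contra hlt
    exact hrel q (by omega) hq
  have h4 := (matS_iff hp hw bp bw (n + 1)).2 (K2S_aux hR h3)
  have h5 := (rkGe_iff _ _).1 h4
  have h6 := (rkLe_iff _ _).1 h2
  omega

/-- `NF.rel_finite` of S2H.lean: finitely many relevant positions, so for `B` large `noRelC`; the rank of the matrix is exactly `n`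
(`rkGe_iff`, `rkLe_iff`) -/
theorem eqS_compl {p : NC D k} (hp : ncOk S p) {w : SC D} (hw : scOk S w) {n : ℕ}
    (h : (ncDec S p).RkW (scStr S w hw) n) (h' : ¬ (ncDec S p).RkW (scStr S w hw) (n + 1)) :
    ∃ B, ncBig p B ∧ scBig w B ∧ eqS B p w n := by
  obtain ⟨R, hR⟩ := h2_bound (NF.rel_finite (ncDec S p) (scStr S w hw) h')
  obtain ⟨B, hB, bp, bw⟩ := exists_bigR p w R
  have hrel : ∀ q, (ncDec S p).Rel (scStr S w hw) q → q.natAbs ≤ 10 * B := by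
    intro q hq
    have := hR q hq
    omega
  refine ⟨B, bp, bw, (noRelC_iff hp hw bp bw).2 ?_, (matS_iff hp hw bp bw n).2 (K2S_aux hrel h), ?_⟩
  · intro q hq hq'
    have := hR q hq'
    omega
  · rw [rkLe_iff]
    by_contra hlt
    have h1 : rkGe (matS B p w) (n + 1) := (rkGe_iff _ _).2 (by omega)
    exact h' (geS_sound hp hw bp bw h1)

end StrAlg
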