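import Pool.Agent.Lib.MP_b9fd58_lc.K2Defs
import Pool.Agent.Lib.MP_b9fd58_lc.KUP
import Pool.Agent.Lib.MP_b9fd58_lc.KCrit
import Pool.Agent.Lib.MP_b9fd58_lc.KSame
import Pool.Agent.Lib.MP_b9fd58_lc.If2Defs

/-!
# Stream K2: strings and codes
-/

set_option autoImplicit false

namespace StrAlg

open Module

variable {D : Dat} {k : Type} [Field k] {S : Sides D}

theorem K2Str_Cn_snd {w w' : Str S} {c : SC D} (h : Matches w c) (h' : Matches w' c) (X : Ln (Fin D.nV) S.nx)
    (o : Bool) (a b : ℤ) : Cn X w.L o a b = Cn X w'.L o a b := by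
  funext a' b'
  unfold Cn AgD
  simp only [KCrit_wdd h h']

theorem K2Str_Cn_fst {w w' : Str S} {c : SC D} (h : Matches w c) (h' : Matches w' c) (Y : Ln (Fin D.nV) S.nx)
    (o : Bool) (a b : ℤ) : Cn w.L Y o a b = Cn w'.L Y o a b := by
  funext a' b'
  unfold Cn AgD
  simp only [KCrit_wdd h h']

theorem K2Str_push {w w' : Str S} {c : SC D} (h : Matches w c) (h' : Matches w' c) (X : Ln (Fin D.nV) S.nx)
    (o : Bool) (a b : ℤ) (ξ : ℤ → k) : push X w.L o a b ξ = push X w'.L o a b ξ := by
  funext z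
  have e := K2Str_Cn_snd h h' X o a b
  by_cases hz : ∃ q, Cn X w.L o a b q z
  · obtain ⟨q, hq⟩ := hz
    have hq' : Cn X w'.L o a b q z := by rw [← e]; exact hq
    rw [push_eq hq, push_eq hq']
  · have hz' : ¬ ∃ q, Cn X w'.L o a b q z := by rw [← e]; exact hz
    unfold push
    rw [dif_neg hz, dif_neg hz']

theorem K2Str_pull {w w' : Str S} {c : SC D} (h : Matches w c) (h' : Matches w' c) (Y : Ln (Fin D.nV) S.nx)
    (o : Bool) (a b : ℤ) (ξ : ℤ → k) : pull w.L Y o a b ξ = pull w'.L Y o a b ξ := by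
  funext z
  have e := K2Str_Cn_fst h h' Y o a b
  by_cases hz : ∃ q, Cn w.L Y o a b z q
  · obtain ⟨q, hq⟩ := hz
    have hq' : Cn w'.L Y o a b z q := by rw [← e]; exact hq
    rw [pull_eq hq, pull_eq hq']
  · have hz' : ¬ ∃ q, Cn w'.L Y o a b z q := by rw [← e]; exact hz
    unfold pull
    rw [dif_neg hz, dif_neg hz']

theorem K2Str_rkw {w w' : Str S} {c : SC D} (h : Matches w c) (h' : Matches w' c) (p : NF S k) (n : ℕ)
    (H : p.RkW w n) : p.RkW w' n := by
  obtain ⟨s, t, hs, ht, hd⟩ := H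
  refine ⟨s, t, fun j => ?_, fun i => ?_, hd⟩
  · obtain ⟨i, o, a, q, φ, h1, h2⟩ := hs j
    refine ⟨i, o, a, q, φ, KCrit_ord_snd h h' _ _ _ _ h1, ?_⟩
    rw [← K2Str_push h h']
    exact h2
  · obtain ⟨j, o, q, r, y, h1, h2⟩ := ht i
    refine ⟨j, o, q, r, y, KCrit_ord_fst h h' _ _ _ _ h1, ?_⟩
    rw [← K2Str_pull h h']
    exact h2

/-- `lam` of a matched string is `scLam c` everywhere, so the words agree everywhere (also outside of `Z`); `v`, `r` agree on the
positions; `GIn`, `GOut` only use the words and `Ord`. Compare `Crit_congr`. -/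
theorem RkW_congr {w w' : Str S} {c : SC D} (h : Matches w c) (h' : Matches w' c) (p : NF S k) (n : ℕ) :
    p.RkW w n ↔ p.RkW w' n :=
  ⟨K2Str_rkw h h' p n, K2Str_rkw h' h p n⟩

/-- the record of a matched string without END -/
theorem K2Str_rec {w : Str S} {c : SC D} (h : Matches w c) (hall : ∀ p, scIn c p) (q : ℤ) :
    scF c q = some (w.L.lam q, w.L.v q, w.L.r q) := by
  obtain ⟨x, hx⟩ := Option.isSome_iff_exists.1 (hall q)
  obtain ⟨y, hy⟩ := Option.isSome_iff_exists.1 (hall (q + 1))
  obtain ⟨h1, h2⟩ := h.f q x hx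
  have h3 : scLam c q = x.1 := by
    simp [scLam, hx, hy]
  rw [h.l, h3, h1, h2, hx]

theorem K2Str_in_mul {c : SC D} {B : ℕ} (h0 : scIn c 0) (hB : 0 < B) (hper : Per B (scF c)) (p : ℤ) : scIn c p := by
  have h1 : ∀ m : ℤ, scIn c (m * (B : ℤ)) := by
    intro m
    have h2 := hper.mul 0 m
    rw [zero_add] at h2
    unfold scIn
    rw [h2]
    exact h0
  have hB' : (1 : ℤ) ≤ (B : ℤ) := by exact_mod_cast hB
  rcases le_or_gt 0 p with hp | hp
  · exact scIn_between h0 (h1 p) (Or.inl ⟨hp, by nlinarith⟩)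
  · exact scIn_between h0 (h1 p) (Or.inr ⟨by nlinarith, hp.le⟩)

/-- `→`: if `scF c p = scF c (p + B)` for all `|p| ≤ 10 B` (`B` from `exists_scBig`-type lemma of KCertS/KOkD: every code has some `B` with
`scBig c B`) then this holds for all `p` (tails), the string is bi-infinite with period `B`, so not `Aper`.
`←`: if `w` has the period `l > 0` (`Per`, all letters `≠ 1`, so `Z = ℤ`) then `scF c p = scF c (p + l m)` for all `m`; for `m` large this is in
the right tail, where `B` is a period. -/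
theorem aperC_iff {w : Str S} {c : SC D} (h : Matches w c) : w.Aper ↔ aperC c := by
  constructor
  · intro hA
    by_contra hcon
    obtain ⟨B, hB⟩ := exists_scBig c
    have hB0 : 0 < B := hB.1
    have h1 : ∀ q < 20 * B + 1, scF c (zp B q) = scF c (zp B q + (B : ℤ)) := by
      intro q hq
      by_contra hne
      exact hcon ⟨B, hB, q, hq, hne⟩
    have hper : Per B (scF c) := by
      intro p
      rcases le_or_gt ((B : ℕ) : ℤ) p with hp | hp
      · exact scF_per_right hB hp
      · rcases le_or_gt p (-(2 * (B : ℤ)) - 1) with hp2 | hp2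
        · have h2 := scF_per_left hB (p := p + B) (by omega)
          rw [add_sub_cancel_right] at h2
          exact h2.symm
        · have h2 := h1 (p + 10 * B).toNat (by omega)
          have h3 : zp B (p + 10 * B).toNat = p := by
            unfold zp
            push_cast
            omega
          rw [h3] at h2
          exact h2.symm
    have h0 : scIn c 0 := (h.z 0).1 Ln.Reach.refl
    have hall : ∀ p, scIn c p := K2Str_in_mul h0 hB0 hper
    have hrec := K2Str_rec h hall
    refine hA B hB0 ⟨⟨fun p => ?_, fun p => ?_, fun p => ?_⟩, fun p => ?_⟩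
    · have h2 := hper p
      rw [hrec, hrec, Option.some_inj, Prod.mk.injEq, Prod.mk.injEq] at h2
      exact h2.1
    · have h2 := hper p
      rw [hrec, hrec, Option.some_inj, Prod.mk.injEq, Prod.mk.injEq] at h2
      exact h2.2.1
    · have h2 := hper p
      rw [hrec, hrec, Option.some_inj, Prod.mk.injEq, Prod.mk.injEq] at h2
      exact h2.2.2
    · rw [h.l]
      exact (scLam_ne_one h.scOk p).2 ⟨hall p, hall (p + 1)⟩
  · rintro ⟨B, hB, q, -, hne⟩ l hl ⟨hper, hlam⟩
    apply hne
    have hall : ∀ p, scIn c p := by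
      intro p
      have h1 := hlam p
      rw [h.l] at h1
      exact ((scLam_ne_one h.scOk p).1 h1).1
    have hrec := K2Str_rec h hall
    have hperF : Per l (scF c) := by
      intro p
      rw [hrec, hrec, hper.lam p, hper.v p, hper.r p]
    have hl' : (1 : ℤ) ≤ (l : ℤ) := by exact_mod_cast hl
    have key : ∀ p : ℤ, scF c p = scF c (p + (B : ℤ)) := by
      intro p
      obtain ⟨m, hm⟩ : ∃ m : ℕ, (m : ℤ) = (p.natAbs : ℤ) + B := ⟨p.natAbs + B, by push_cast; rfl⟩
      have h1 := hperF.mul p (m : ℤ)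
      have h2 := hperF.mul (p + (B : ℤ)) (m : ℤ)
      rw [← h1, ← h2]
      have h3 : (B : ℤ) ≤ p + (m : ℤ) * (l : ℤ) := by
        have h4 : (m : ℤ) ≤ (m : ℤ) * (l : ℤ) := by nlinarith [Int.natCast_nonneg m]
        omega
      have h5 := scF_per_right hB h3
      rw [← h5]
      congr 1
      ring
    exact key _

/-- the string of a code of a band has the minimal period `bcP c` -/
theorem band_minPer {c : BC D k} (hc : bcOk S c) (band : c.1 = true) : (bcBlk S c hc).x.MinPer (bcP c) := by
  have h0 := bcP_pos hc.1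
  have hL : bcL c = bcP c := by simp [bcL, band]
  have h1 := bcPerOK hc
  rw [hL] at h1
  refine ⟨h0, ⟨h1.per, h1.big h0⟩, fun d hd hp => ?_⟩
  have h2 := (bcMin hc d hd hp).2
  rw [hL] at h2
  exact h2

end StrAlg
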