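import Pool.Agent.Lib.MP_b9fd58_lc.KBas

/-!
# Stream K: canonical strings
-/

set_option autoImplicit false

namespace StrAlg

open Module

variable {D : Dat} {k : Type} [Field k] {S : Sides D}

/-- bands: strings without END -/
def Str.NoEnd (w : Str S) : Prop := ∀ p, w.L.lam p ≠ 1

theorem noEnd_of_not_aper {w : Str S} (h : ¬ w.Aper) : w.NoEnd := by
  unfold Str.Aper at h
  push Not at h
  obtain ⟨l, _, hl⟩ := h
  exact hl.2

/-! ### Correspondence of aligned strings -/

theorem KCan_beq : ∀ a b c : Bool, (a == b) = c → b = (a == c) := by decide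

/-- matched positions with the same words -/
def KCan_Al (x y : Str S) (o : Bool) (p q : ℤ) : Prop :=
  Mt x.L y.L o p q ∧ ∀ e, x.L.wdd e p = y.L.wdd (e == o) q

theorem KCan_of_al {x y : Str S} {p q : ℤ} (h : Al x y p q) :
    KCan_Al x y (x.L.r p == y.L.r q) p q := by
  refine ⟨⟨h.1, rfl⟩, fun e => ?_⟩
  have h1 := h.2 (e == x.L.r p)
  unfold Ln.wd at h1
  have e1 : ((e == x.L.r p) == x.L.r p) = e := by
    cases e <;> cases x.L.r p <;> rfl
  have e2 : ((e == x.L.r p) == y.L.r q) = (e == (x.L.r p == y.L.r q)) := by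
    cases e <;> cases x.L.r p <;> cases y.L.r q <;> rfl
  rw [e1, e2] at h1
  exact h1

theorem KCan_to_al {x y : Str S} {o : Bool} {p q : ℤ} (h : KCan_Al x y o p q) : Al x y p q := by
  obtain ⟨⟨h1, h2⟩, h3⟩ := h
  refine ⟨h1, fun s => ?_⟩
  unfold Ln.wd
  rw [h3, ← h2]
  congr 1
  cases s <;> cases x.L.r p <;> cases y.L.r q <;> rfl

theorem KCan_step {x y : Str S} {o e : Bool} {p q : ℤ} (h : KCan_Al x y o p q) (he : x.L.lt e p ≠ 1) :
    KCan_Al x y o (st e p) (st (e == o) q) := by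
  obtain ⟨h1, h2⟩ := h
  have h3 : x.L.lt e p = y.L.lt (e == o) q := by
    have := congrFun (h2 e) 0
    rwa [Ln.wdd_zero, Ln.wdd_zero] at this
  refine ⟨h1.step ⟨h3, he⟩, fun e' => ?_⟩
  by_cases hee : e' = e
  · subst hee
    rw [← Ln.wdd_sh, ← Ln.wdd_sh, h2]
  · have hee' : e' = !e := by cases e <;> cases e' <;> simp_all
    subst hee'
    rw [beq_not, Ln.wdd_back, Ln.wdd_back, h3, h2, beq_not]

theorem KCan_lt_ne {x : Str S} (hx : x.NoEnd) (e : Bool) (p : ℤ) : x.L.lt e p ≠ 1 := by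
  unfold Ln.lt
  cases e with
  | true => exact hx p
  | false => exact Ln.rev_ne_one.2 (hx (p - 1))

theorem KCan_stn_succ (e : Bool) (n : ℕ) (p : ℤ) : stn e ((n + 1 : ℕ) : ℤ) p = st e (stn e n p) := by
  cases e <;> simp <;> ring

theorem KCan_walk {x y : Str S} (hx : x.NoEnd) {o : Bool} {p q : ℤ} (h : KCan_Al x y o p q) (e : Bool) (n : ℕ) :
    KCan_Al x y o (stn e n p) (stn (e == o) n q) := by
  induction n with
  | zero => simpa using h
  | succ n ih =>
    rw [KCan_stn_succ, KCan_stn_succ]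
    exact KCan_step ih (KCan_lt_ne hx e _)

/-- the correspondence of all positions -/
theorem KCan_all {x y : Str S} (hx : x.NoEnd) {o : Bool} {p q : ℤ} (h : KCan_Al x y o p q) (i : ℤ) :
    KCan_Al x y o (p + i) (stn o i q) := by
  rcases i.eq_nat_or_neg with ⟨n, rfl | rfl⟩
  · have := KCan_walk hx h true n
    have e1 : (true == o) = o := by cases o <;> rfl
    rw [e1, stn_true] at this
    exact this
  · have := KCan_walk hx h false n
    have e1 : (false == o) = !o := by cases o <;> rfl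
    rw [e1, stn_false] at this
    have e2 : stn (!o) n q = stn o (-(n : ℤ)) q := by cases o <;> simp [sub_eq_add_neg]
    rw [e2] at this
    exact this

/-- alignment is transferred along strings without END -/
theorem al_transfer {x y : Str S} (hx : x.NoEnd) (hy : y.NoEnd) {p q : ℤ} (h : Al x y p q) (p' : ℤ) :
    ∃ q', Al x y p' q' := by
  have h1 := KCan_all hx (KCan_of_al h) (p' - p)
  rw [show p + (p' - p) = p' by ring] at h1
  exact ⟨_, KCan_to_al h1⟩

theorem al_symm {x y : Str S} {p q : ℤ} (h : Al x y p q) : Al y x q p :=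
  ⟨h.1.symm, fun s => (h.2 s).symm⟩

theorem al_trans {x y z : Str S} {p q r : ℤ} (h : Al x y p q) (h' : Al y z q r) : Al x z p r :=
  ⟨h.1.trans h'.1, fun s => (h.2 s).trans (h'.2 s)⟩

/-- a string aligned with a string without END has no END -/
theorem noEnd_of_al {x y : Str S} {p q : ℤ} (hp : p ∈ x.Z) (hq : q ∈ y.Z) (hx : x.NoEnd) (h : Al x y p q) :
    y.NoEnd := by
  have h1 := KCan_of_al (al_symm h)
  have h2 : ∀ (e : Bool) (n : ℕ), y.L.lt e (stn e n q) ≠ 1 := by
    intro e n
    have h3 := congrFun (h1.2 e) n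
    rw [Ln.wdd_apply, Ln.wdd_apply] at h3
    rw [h3]
    exact KCan_lt_ne hx _ _
  intro a
  rcases le_or_gt q a with ha | ha
  · have h4 := h2 true (a - q).toNat
    rw [stn_true, show q + ((a - q).toNat : ℤ) = a by omega] at h4
    exact h4
  · have h4 := h2 false (q - a - 1).toNat
    rw [stn_false, show q - ((q - a - 1).toNat : ℤ) = a + 1 by omega] at h4
    unfold Ln.lt at h4
    simp only [Bool.false_eq_true, if_false] at h4
    rw [show a + 1 - 1 = a by ring] at h4
    exact Ln.rev_ne_one.1 h4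

/-- the alignment relation on strings without END -/
def alSetoid (S : Sides D) : Setoid {w : Str S // w.NoEnd} where
  r x y := ∃ p q, Al x.1 y.1 p q
  iseqv :=
    { refl := fun x => ⟨0, 0, rfl, fun _ => rfl⟩
      symm := fun ⟨p, q, h⟩ => ⟨q, p, al_symm h⟩
      trans := by
        rintro x y z ⟨p, q, h⟩ ⟨q', r, h'⟩
        obtain ⟨p', hp'⟩ := al_transfer y.2 x.2 (al_symm h) q'
        exact ⟨p', r, al_trans (al_symm hp') h'⟩ }

/-- the representative -/
noncomputable def alRep (S : Sides D) (w : {w : Str S // w.NoEnd}) : {w : Str S // w.NoEnd} :=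
  (Quotient.mk (alSetoid S) w).out

/-- canonical strings: coded finite strings with the positions `0, …, m`; representatives of the bands -/
def CanS (S : Sides D) : Set (Str S) :=
  {w | (∃ (P : List (Rc D)) (h : scOk S ((P, []), ([], []))), w = scStr S _ h) ∨
    (¬ w.Aper ∧ ∃ h : w.NoEnd, (alRep S ⟨w, h⟩).1 = w)}

/-- periodicity is invariant under alignment -/
theorem aper_of_al {x y : Str S} {p q : ℤ} (hx : x.NoEnd) (hy : y.NoEnd) (h : Al x y p q) (ha : ¬ x.Aper) :
    ¬ y.Aper := by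
  unfold Str.Aper at ha
  push Not at ha
  obtain ⟨l, hl, hper⟩ := ha
  intro hyA
  refine hyA l hl ⟨?_, hy⟩
  have hall := fun i => KCan_all hx (KCan_of_al h) i
  set o := (x.L.r p == y.L.r q) with ho
  -- index of a position of `y`
  have key : ∀ a : ℤ, ∃ i j : ℤ, a = stn o i q ∧ a + l = stn o j q ∧ (j = i + l ∨ j = i + (-1 : ℤ) * l) := by
    intro a
    cases hoo : o with
    | true => exact ⟨a - q, a - q + l, by rw [stn_true]; ring, by rw [stn_true]; ring, Or.inl rfl⟩
    | false => exact ⟨q - a, q - a + (-1 : ℤ) * l, by rw [stn_false]; ring, by rw [stn_false]; ring, Or.inr rfl⟩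
  have hpl : ∀ {β : Type} {f : ℤ → β}, Per l f → ∀ i j : ℤ, (j = i + l ∨ j = i + (-1 : ℤ) * l) →
      f (p + j) = f (p + i) := by
    intro β f hf i j hij
    rcases hij with rfl | rfl
    · rw [show p + (i + (l : ℤ)) = (p + i) + l by ring]
      exact hf _
    · rw [show p + (i + (-1 : ℤ) * (l : ℤ)) = (p + i) + (-1 : ℤ) * l by ring]
      exact hf.mul _ _
  refine ⟨fun a => ?_, fun a => ?_, fun a => ?_⟩
  · obtain ⟨i, j, h1, h2, h3⟩ := key a
    rw [h2]
    conv_rhs => rw [h1]
    have e1 : ∀ i : ℤ, y.L.lam (stn o i q) = x.L.lt o (p + i) := by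
      intro i
      have h4 := congrFun ((hall i).2 o) 0
      rw [Ln.wdd_zero, Ln.wdd_zero] at h4
      rw [h4]
      have e2 : (o == o) = true := by cases o <;> rfl
      rw [e2]
      rfl
    rw [e1, e1]
    exact hpl (hper.1.lt o) i j h3
  · obtain ⟨i, j, h1, h2, h3⟩ := key a
    rw [h2]
    conv_rhs => rw [h1]
    rw [← (hall j).1.1, ← (hall i).1.1]
    exact hpl hper.1.v i j h3
  · obtain ⟨i, j, h1, h2, h3⟩ := key a
    rw [h2]
    conv_rhs => rw [h1]
    have e1 : ∀ i : ℤ, y.L.r (stn o i q) = (x.L.r (p + i) == o) := by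
      intro i
      exact KCan_beq _ _ _ (hall i).1.2
    rw [e1, e1]
    exact congrArg (fun b => (b == o)) (hpl hper.1.r i j h3)

/-! ### Shifting a string -/

/-- the shifted line -/
def KCan_shL {ι : Type*} {nx : ι → Bool → Fin 3 → ι × Bool} (L : Ln ι nx) (a : ℤ) : Ln ι nx where
  lam p := L.lam (p + a)
  v p := L.v (p + a)
  r p := L.r (p + a)
  fwd p h := by
    have := L.fwd (p + a) h
    rw [show p + 1 + a = p + a + 1 by ring]
    exact this
  bwd p h := by
    have := L.bwd (p + a) h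
    rw [show p + 1 + a = p + a + 1 by ring]
    exact this

theorem KCan_shL_lt {ι : Type*} {nx : ι → Bool → Fin 3 → ι × Bool} (L : Ln ι nx) (a : ℤ) (e : Bool) (p : ℤ) :
    (KCan_shL L a).lt e p = L.lt e (p + a) := by
  cases e with
  | true => rfl
  | false =>
    show Fin.rev (L.lam (p - 1 + a)) = Fin.rev (L.lam (p + a - 1))
    rw [show p - 1 + a = p + a - 1 by ring]

theorem KCan_shL_sd {ι : Type*} {nx : ι → Bool → Fin 3 → ι × Bool} (L : Ln ι nx) (a : ℤ) (e : Bool) (p : ℤ) :
    (KCan_shL L a).sd e p = L.sd e (p + a) := rfl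

theorem KCan_st_add (e : Bool) (p a : ℤ) : st e p + a = st e (p + a) := by
  cases e <;> simp <;> ring

theorem KCan_shL_bk (A : Ends (Fin D.nV) (Fin D.nE)) {nx : Fin D.nV → Bool → Fin 3 → Fin D.nV × Bool}
    (L : Ln (Fin D.nV) nx) (a : ℤ) (e : Bool) (l : List (Fin D.nE)) :
    ∀ p, bk A (KCan_shL L a) e l p → bk A L e l (p + a) := by
  induction l with
  | nil => intro p _; trivial
  | cons b l ih =>
    rintro p ⟨h1, h2, h3⟩
    refine ⟨by rw [← KCan_shL_lt]; exact h1, h2, ?_⟩
    rw [← KCan_st_add]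
    exact ih _ h3

theorem KCan_stn_add (e : Bool) (n p a : ℤ) : stn e n p + a = stn e n (p + a) := by
  cases e <;> simp <;> ring

theorem KCan_shL_reach {ι : Type*} {nx : ι → Bool → Fin 3 → ι × Bool} (L : Ln ι nx) (a p : ℤ) :
    (KCan_shL L a).Reach 0 p ↔ L.Reach a (p + a) := by
  constructor
  · rintro ⟨e, n, h1, h2, -⟩
    rw [h2, KCan_stn_add, zero_add]
    apply Ln.Reach.of_lt
    intro j hj
    have h3 := (h1.lk j hj).2
    rw [KCan_shL_lt, KCan_stn_add, zero_add] at h3
    exact h3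
  · rintro ⟨e, n, h1, h2, -⟩
    have h4 : p = stn e n 0 := by
      have : stn e n 0 + a = p + a := by rw [h2, KCan_stn_add, zero_add]
      omega
    rw [h4]
    apply Ln.Reach.of_lt
    intro j hj
    have h3 := (h1.lk j hj).2
    rw [KCan_shL_lt, KCan_stn_add, zero_add]
    exact h3

/-- the shifted string -/
def KCan_sh (w : Str S) (a : ℤ) (ha : a ∈ w.Z) : Str S where
  L := KCan_shL w.L a
  ok := by
    intro e p h
    rw [KCan_shL_lt] at h
    obtain ⟨b, h1, h2⟩ := w.ok e (p + a) h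
    refine ⟨b, h1, ?_⟩
    show S.ends.inA (w.L.v (st e p + a)) (w.L.sd (!e) (st e p + a)) = some b
    rw [KCan_st_add]
    exact h2
  norel := by
    intro r hr e p h
    exact w.norel r hr e (p + a) (KCan_shL_bk S.ends w.L a e _ p h)
  abs := by
    intro e n m hnm h
    rw [KCan_shL_lt, KCan_stn_add, zero_add] at h ⊢
    exact w.Zabs a ha e n m hnm h
  clean := by
    intro p hp
    have h1 := w.clean (p + a) hp
    rw [KCan_shL_reach, KCan_shL_reach]
    have h2 : w.L.Reach a 0 := Cn.symm ha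
    refine ⟨h2.trans h1.1, ?_⟩
    rw [show p + 1 + a = p + a + 1 by ring]
    exact h2.trans h1.2

theorem KCan_sh_Z (w : Str S) (a : ℤ) (ha : a ∈ w.Z) (p : ℤ) : p ∈ (KCan_sh w a ha).Z ↔ p + a ∈ w.Z := by
  show (KCan_shL w.L a).Reach 0 p ↔ w.L.Reach 0 (p + a)
  rw [KCan_shL_reach]
  have h2 : w.L.Reach a 0 := Cn.symm ha
  exact ⟨fun h => Ln.Reach.trans ha h, fun h => h2.trans h⟩

theorem KCan_sh_al (w : Str S) (a : ℤ) (ha : a ∈ w.Z) (p : ℤ) : Al w (KCan_sh w a ha) (p + a) p := by
  refine ⟨rfl, fun s => ?_⟩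
  unfold Ln.wd
  funext n
  show w.L.lt (s == w.L.r (p + a)) (stn (s == w.L.r (p + a)) n (p + a)) =
    (KCan_shL w.L a).lt (s == w.L.r (p + a)) (stn (s == w.L.r (p + a)) n p)
  rw [KCan_shL_lt, KCan_stn_add]

/-- the record of a string at a position -/
def KCan_rec (w : Str S) (p : ℤ) : Rc D := (w.L.lam p, w.L.v p, w.L.r p)

/-- positions between `0` and a position are positions -/
theorem KCan_between (w : Str S) {p j : ℤ} (hp : p ∈ w.Z) (h0 : 0 ≤ j) (hj : j ≤ p) : j ∈ w.Z := by
  obtain ⟨e, n, h1, h2, -⟩ := hp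
  cases n with
  | zero =>
    simp at h2
    rw [show j = 0 by omega]
    exact Ln.Reach.refl
  | succ n =>
    cases e with
    | true =>
      rw [stn_true] at h2
      have h3 : j = stn true (j.toNat : ℤ) 0 := by rw [stn_true]; omega
      rw [h3]
      apply Ln.Reach.of_lt
      intro i hi
      exact (h1.lk i (by push_cast at h2; omega)).2
    | false =>
      rw [stn_false] at h2
      push_cast at h2
      omega

/-- a finite string whose first position is `0` -/
theorem KCan_fin_code {w : Str S} (hw : w.Fin) (h0 : ∀ p ∈ w.Z, 0 ≤ p) :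
    ∃ P : List (Rc D), Matches w ((P, []), ([], [])) := by
  have hz : (0 : ℤ) ∈ w.Z := Ln.Reach.refl
  have hne : hw.toFinset.Nonempty := ⟨0, by simpa using hz⟩
  set m := hw.toFinset.max' hne with hm
  have hmZ : m ∈ w.Z := by
    have := Finset.max'_mem hw.toFinset hne
    rw [← hm] at this
    simpa using this
  have hm0 : 0 ≤ m := h0 m hmZ
  have hZ : ∀ p, p ∈ w.Z ↔ 0 ≤ p ∧ p ≤ m := by
    intro p
    constructor
    · intro hp
      refine ⟨h0 p hp, ?_⟩
      exact Finset.le_max' hw.toFinset p (by simpa using hp)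
    · rintro ⟨h1, h2⟩
      exact KCan_between w hmZ h1 h2
  refine ⟨(List.range (m.toNat + 1)).map (fun i : ℕ => KCan_rec w (i : ℤ)), ?_⟩
  set P := (List.range (m.toNat + 1)).map (fun i : ℕ => KCan_rec w (i : ℤ)) with hP
  have hF : ∀ p : ℤ, scF (((P, []), ([], [])) : SC D) p = if 0 ≤ p ∧ p ≤ m then some (KCan_rec w p) else none := by
    intro p
    have h1 := KBlk_scF_fin (b := ((false, P, 0, [], []) : BC D ℚ)) rfl p
    have h2 : bcS ((false, P, 0, [], []) : BC D ℚ) = ((P, []), ([], [])) := by simp [bcS]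
    rw [h2] at h1
    rw [h1]
    by_cases hp : 0 ≤ p
    · rw [if_pos hp]
      show P[p.toNat]? = _
      by_cases hpm : p ≤ m
      · rw [if_pos ⟨hp, hpm⟩, hP, List.getElem?_map, List.getElem?_range (by omega)]
        show some (KCan_rec w ((p.toNat : ℕ) : ℤ)) = _
        rw [Int.toNat_of_nonneg hp]
      · rw [if_neg (fun h => hpm h.2)]
        apply List.getElem?_eq_none
        rw [hP, List.length_map, List.length_range]
        omega
    · rw [if_neg hp, if_neg (fun h => hp h.1)]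
  have hIn : ∀ p : ℤ, scIn (((P, []), ([], [])) : SC D) p ↔ 0 ≤ p ∧ p ≤ m := by
    intro p
    unfold scIn
    rw [hF]
    by_cases h : 0 ≤ p ∧ p ≤ m
    · simp [h]
    · simp [h]
  refine ⟨fun p => ?_, fun p a hpa => ?_, fun p => ?_⟩
  · rw [hZ, hIn]
  · rw [hF] at hpa
    by_cases h : 0 ≤ p ∧ p ≤ m
    · rw [if_pos h] at hpa
      have := Option.some.inj hpa
      rw [← this]
      exact ⟨rfl, rfl⟩
    · rw [if_neg h] at hpa
      exact absurd hpa (by simp)
  · unfold scLam
    rw [hF, hF]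
    by_cases h1 : 0 ≤ p ∧ p ≤ m
    · by_cases h2 : 0 ≤ p + 1 ∧ p + 1 ≤ m
      · rw [if_pos h1, if_pos h2]
        rfl
      · rw [if_pos h1, if_neg h2]
        show w.L.lam p = 1
        by_contra hne
        have := (w.clean p hne).2
        exact h2 ((hZ (p + 1)).1 this)
    · rw [if_neg h1]
      show w.L.lam p = 1
      by_contra hne
      have := (w.clean p hne).1
      exact h1 ((hZ p).1 this)

/-- every finite string is aligned with a coded one -/
theorem exists_fin_code {w : Str S} (hw : w.Fin) : ∃ (P : List (Rc D)) (h : scOk S ((P, []), ([], []))),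
    ∃ p ∈ w.Z, ∃ q ∈ (scStr S _ h).Z, Al w (scStr S _ h) p q := by
  have hz : (0 : ℤ) ∈ w.Z := Ln.Reach.refl
  have hne : hw.toFinset.Nonempty := ⟨0, by simpa using hz⟩
  set a := hw.toFinset.min' hne with ha
  have haZ : a ∈ w.Z := by
    have := Finset.min'_mem hw.toFinset hne
    rw [← ha] at this
    simpa using this
  set w' := KCan_sh w a haZ with hw'
  have hZ' : ∀ p, p ∈ w'.Z ↔ p + a ∈ w.Z := KCan_sh_Z w a haZ
  have hfin : w'.Fin := by
    refine Set.Finite.subset (hw.image (fun x => x - a)) ?_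
    intro p hp
    exact ⟨p + a, (hZ' p).1 hp, by ring⟩
  have h0 : ∀ p ∈ w'.Z, 0 ≤ p := by
    intro p hp
    have h1 : p + a ∈ w.Z := (hZ' p).1 hp
    have h2 : a ≤ p + a := Finset.min'_le hw.toFinset (p + a) (by simpa using h1)
    omega
  obtain ⟨P, hM⟩ := KCan_fin_code hfin h0
  refine ⟨P, hM.scOk, 0 + a, (hZ' 0).1 Ln.Reach.refl, 0, Ln.Reach.refl, ?_⟩
  refine al_trans (KCan_sh_al w a haZ 0) ?_
  -- the string and its code
  obtain ⟨b, hb⟩ := KStr_in ((hM.z 0).1 Ln.Reach.refl)
  obtain ⟨h1, h2⟩ := hM.f 0 b hb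
  obtain ⟨h3, h4⟩ := (Matches.self hM.scOk).f 0 b hb
  refine ⟨h1.trans h3.symm, fun s => ?_⟩
  unfold Ln.wd
  have h5 : (KCan_sh w a haZ).L.r 0 = (scStr S _ hM.scOk).L.r 0 := h2.trans h4.symm
  rw [h5]
  funext n
  show (KCan_sh w a haZ).L.lt _ _ = (scStr S _ hM.scOk).L.lt _ _
  rw [← hw', hM.KStr_lt, (Matches.self hM.scOk).KStr_lt]

theorem KCan_not_fin_code {P : List (Rc D)} (h : scOk S ((P, []), ([], []))) : ¬ (scStr S _ h).NoEnd := by
  intro hN
  have h1 : (-1 : ℤ) ∈ (scStr S _ h).Z := Str.Z_univ _ hN _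
  rw [scStr_Z] at h1
  unfold scIn scF at h1
  rw [if_neg (by omega)] at h1
  simp [up1] at h1

theorem KCan_mem_CanS {x : Str S} (hx : x ∈ CanS S) (hN : x.NoEnd) : (alRep S ⟨x, hN⟩).1 = x := by
  rcases hx with ⟨P, h, rfl⟩ | ⟨_, hN', h⟩
  · exact absurd hN (KCan_not_fin_code h)
  · exact h

theorem canS_ok (S : Sides D) : CanOK (CanS S) := by
  constructor
  · rintro w (hw | hw)
    · obtain ⟨P, h, p, hp, q, hq, hal⟩ := exists_fin_code hw
      exact ⟨scStr S _ h, Or.inl ⟨P, h, rfl⟩, p, hp, q, hq, hal⟩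
    · have hN := noEnd_of_not_aper hw
      have h1 : (alSetoid S).r (alRep S ⟨w, hN⟩) ⟨w, hN⟩ := Quotient.exact (Quotient.out_eq _)
      obtain ⟨q, p, hal⟩ := h1
      have hbA := aper_of_al hN (alRep S ⟨w, hN⟩).2 (al_symm hal) hw
      refine ⟨(alRep S ⟨w, hN⟩).1, Or.inr ⟨hbA, (alRep S ⟨w, hN⟩).2, ?_⟩, p, Str.Z_univ _ hN p, q,
        Str.Z_univ _ (alRep S ⟨w, hN⟩).2 q, al_symm hal⟩
      show (alRep S (alRep S ⟨w, hN⟩)).1 = (alRep S ⟨w, hN⟩).1
      have h2 : Quotient.mk (alSetoid S) (alRep S ⟨w, hN⟩) = Quotient.mk (alSetoid S) ⟨w, hN⟩ :=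
        Quotient.out_eq _
      unfold alRep at h2 ⊢
      rw [h2]
  · intro x hx y hy hxA p hp q hq hal
    have hxN := noEnd_of_not_aper hxA
    have hyN := noEnd_of_al hp hq hxN hal
    have h1 := KCan_mem_CanS hx hxN
    have h2 := KCan_mem_CanS hy hyN
    have h3 : Quotient.mk (alSetoid S) ⟨x, hxN⟩ = Quotient.mk (alSetoid S) ⟨y, hyN⟩ :=
      Quotient.sound ⟨p, q, hal⟩
    rw [← h1, ← h2]
    unfold alRep
    rw [h3]

/-- every band is given by a code with the minimal period -/
theorem exists_band_code {w : Str S} {l : ℕ} (hl : w.MinPer l) (n : ℕ) (T T' : List k)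
    (h1 : matOf n T * matOf n T' = 1) (h2 : matOf n T' * matOf n T = 1) :
    ∃ (P : List (Rc D)) (h : bcOk S (true, P, n, T, T')), P.length = l ∧ (bcBlk S (true, P, n, T, T') h).x = w := by
  obtain ⟨hl0, hper, hmin⟩ := hl
  set P := (List.range l).map (fun i : ℕ => KCan_rec w (i : ℤ)) with hP
  have hPl : P.length = l := by rw [hP, List.length_map, List.length_range]
  set b : BC D k := (true, P, n, T, T') with hb
  have hbP : bcP b = l := hPl
  have hF : ∀ p : ℤ, scF (bcS b) p = some (KCan_rec w p) := by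
    refine bcS_band_of (b := b) rfl (by rw [hbP]; exact hl0) ?_ ?_
    · intro p
      rw [hbP]
      show (w.L.lam (p + l), w.L.v (p + l), w.L.r (p + l)) = (w.L.lam p, w.L.v p, w.L.r p)
      rw [hper.1.lam p, hper.1.v p, hper.1.r p]
    · intro p hp
      show P[p]? = _
      rw [hP, List.getElem?_map, List.getElem?_range (by omega)]
      rfl
  have hIn : ∀ p, scIn (bcS b) p := by
    intro p
    unfold scIn
    rw [hF]
    rfl
  have hM : Matches w (bcS b) := by
    refine ⟨fun p => ⟨fun _ => hIn p, fun _ => w.Z_univ hper.2 p⟩, fun p a hpa => ?_, fun p => ?_⟩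
    · rw [hF] at hpa
      have := Option.some.inj hpa
      rw [← this]
      exact ⟨rfl, rfl⟩
    · unfold scLam
      rw [hF, hF]
      rfl
  have hOk : bcOk S b := by
    refine ⟨hM.scOk, fun _ => ⟨?_, h1, h2⟩⟩
    intro d hd hd0
    by_contra hcon
    push Not at hcon
    have hdl : d < l := by rw [hbP] at hd; exact hd
    have hrec : ∀ p : ℤ, KCan_rec w (p + d) = KCan_rec w p := by
      intro p
      have g1 : 0 ≤ p % (l : ℤ) := Int.emod_nonneg _ (by omega)
      have g2 : p % (l : ℤ) < (l : ℤ) := Int.emod_lt_of_pos _ (by omega)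
      have g3 := hcon (p % (l : ℤ)).toNat (by rw [hbP]; omega)
      rw [hF, hF, Int.toNat_of_nonneg g1] at g3
      have g4 := Option.some.inj g3
      have g5 : p = p % (l : ℤ) + (p / (l : ℤ)) * (l : ℤ) := by
        have := Int.emod_add_mul_ediv p (l : ℤ)
        linarith
      have hmul : ∀ x m : ℤ, KCan_rec w (x + m * l) = KCan_rec w x := by
        intro x m
        show (w.L.lam (x + m * l), w.L.v (x + m * l), w.L.r (x + m * l)) = (w.L.lam x, w.L.v x, w.L.r x)
        rw [hper.1.lam.mul, hper.1.v.mul, hper.1.r.mul]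
      rw [g5, show p % (l : ℤ) + (p / (l : ℤ)) * (l : ℤ) + d = (p % (l : ℤ) + d) + (p / (l : ℤ)) * (l : ℤ) by ring,
        hmul, hmul, g4]
    have hdp : w.Per d := by
      refine ⟨⟨fun p => ?_, fun p => ?_, fun p => ?_⟩, hper.2⟩
      · exact congrArg (fun x => x.1) (hrec p)
      · exact congrArg (fun x => x.2.1) (hrec p)
      · exact congrArg (fun x => x.2.2) (hrec p)
    have := hmin d hd0 hdp
    omega
  refine ⟨P, hOk, hPl, ?_⟩
  exact Matches.eq (Matches.self hOk.1) hM (fun _ => rfl) hIn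

/-- every matrix is the matrix of a list -/
theorem KCan_matList (n : ℕ) (M : Matrix (Fin n) (Fin n) k) : ∃ T : List k, matOf n T = M := by
  refine ⟨(List.range (n * n)).map (fun m => if h : m / n < n ∧ m % n < n then M ⟨m / n, h.1⟩ ⟨m % n, h.2⟩ else 0), ?_⟩
  ext i j
  unfold matOf ent
  have hn : 0 < n := i.pos
  have hij : (i : ℕ) * n + j < n * n := by
    have h1 : (i : ℕ) + 1 ≤ n := i.isLt
    have h2 : ((i : ℕ) + 1) * n ≤ n * n := Nat.mul_le_mul_right n h1
    have h3 : (j : ℕ) < n := j.isLt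
    nlinarith
  have e1 : ((i : ℕ) * n + j) / n = i := by
    rw [mul_comm, Nat.mul_add_div hn, Nat.div_eq_of_lt j.isLt, add_zero]
  have e2 : ((i : ℕ) * n + j) % n = j := by
    rw [mul_comm, Nat.mul_add_mod, Nat.mod_eq_of_lt j.isLt]
  rw [List.getD_eq_getElem?_getD, List.getElem?_map, List.getElem?_range hij]
  simp only [Option.map_some, Option.getD_some]
  rw [dif_pos ⟨by rw [e1]; exact i.isLt, by rw [e2]; exact j.isLt⟩]
  congr 1
  · exact Fin.ext e1
  · exact Fin.ext e2

theorem KCan_blk_ext {X Y : Blk S k} (hx : X.x = Y.x) (hn : X.n = Y.n) (hl : X.l = Y.l)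
    (hT : ∀ (v : Fin Y.n → k) (i : Fin X.n), X.T (fun j => v (Fin.cast hn j)) i = Y.T v (Fin.cast hn i)) : X = Y := by
  obtain ⟨x, n, l, T, ok, min, fin⟩ := X
  obtain ⟨x', n', l', T', ok', min', fin'⟩ := Y
  simp only at hx hn hl hT
  subst hx hn hl
  have : T = T' := by
    ext v i
    exact hT v i
  subst this
  rfl

/-- every block over a canonical string is the block of a code -/
theorem exists_blk_code (X : Blk S k) (hX : X.x ∈ CanS S) : ∃ (b : BC D k) (h : bcOk S b), bcBlk S b h = X := by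
  rcases Nat.eq_zero_or_pos X.l with h0 | h0
  · rcases hX with ⟨P, h, hx⟩ | ⟨hA, -⟩
    · have hS : bcS ((false, P, X.n, [], []) : BC D k) = ((P, []), ([], [])) := by simp [bcS]
      have hOk : bcOk S ((false, P, X.n, [], []) : BC D k) := by
        refine ⟨by rw [hS]; exact h, fun h' => absurd h' (by simp)⟩
      refine ⟨(false, P, X.n, [], []), hOk, ?_⟩
      refine KCan_blk_ext (X := bcBlk S (false, P, X.n, [], []) hOk) (Y := X) ?_ rfl ?_ ?_
      · rw [hx]
        rfl
      · rw [h0]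
        rfl
      · intro v i
        rw [X.ok.T0 h0]
        show (bcT ((false, P, X.n, [], []) : BC D k)) _ i = _
        rw [bcT_fin rfl]
        rfl
    · exfalso
      unfold Str.Aper at hA
      push Not at hA
      obtain ⟨l, hl, hper⟩ := hA
      have := (X.min l hl hper).1
      omega
  · have hper : X.x.Per X.l := ⟨X.ok.per, X.ok.big h0⟩
    have hmin : X.x.MinPer X.l := ⟨h0, hper, fun d hd hdp => (X.min d hd hdp).2⟩
    obtain ⟨T, hT⟩ := KCan_matList X.n (LinearMap.toMatrix' (X.T : (Fin X.n → k) →ₗ[k] (Fin X.n → k)))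
    obtain ⟨T', hT'⟩ := KCan_matList X.n (LinearMap.toMatrix' (X.T.symm : (Fin X.n → k) →ₗ[k] (Fin X.n → k)))
    obtain ⟨P, h, hPl, hx⟩ := exists_band_code hmin X.n T T'
      (by rw [hT, hT', ← LinearMap.toMatrix'_comp]; simp)
      (by rw [hT, hT', ← LinearMap.toMatrix'_comp]; simp)
    refine ⟨_, h, ?_⟩
    refine KCan_blk_ext (X := bcBlk S (true, P, X.n, T, T') h) (Y := X) hx rfl ?_ ?_
    · show bcL ((true, P, X.n, T, T') : BC D k) = X.l
      simp [bcL, bcP, hPl]
    · intro v i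
      show (bcT ((true, P, X.n, T, T') : BC D k)) v i = X.T v i
      rw [bcT_apply h rfl]
      show (matOf X.n T).mulVec v i = X.T v i
      rw [hT, LinearMap.toMatrix'_mulVec]
      rfl

end StrAlg
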