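import Pool.Agent.Lib.MP_b9fd58_lc.KBas

/-!
# Stream K: the structure constants of a block module
-/

set_option autoImplicit false

namespace StrAlg

open Module

variable {D : Dat} {k : Type} [Field k] {S : Sides D}

theorem KCon_ext {X : Blk S k} {x y : X.M.C} (h : ∀ q, X.fn x q = X.fn y q) : x = y :=
  Subtype.ext (funext h)

theorem KCon_fn_op (X : Blk S k) (g : D.Gen) (x : X.M.C) (q : ℤ) :
    X.fn (X.M.Q.op g x) q = fop k S.ends X.x.L g (X.fn x) q := rfl

theorem KCon_fn_iota (X : Blk S k) {p : ℤ} (hp : p ∈ X.x.Z) (v : Fin X.n → k) (q : ℤ) :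
    X.fn (X.iota p v) q = X.B.spr p v q := by
  have hp' : p ∈ X.B.Z := hp
  unfold Blk.iota
  rw [dif_pos hp']
  rfl

theorem KCon_mem {b : BC D k} (h : bcOk S b) {p : ℤ} (hp : scIn (bcS b) p) : p ∈ (bcBlk S b h).x.Z :=
  (scStr_Z h.1 p).2 hp

theorem KCon_v {b : BC D k} (h : bcOk S b) {p : ℤ} (hp : scIn (bcS b) p) :
    scV (bcS b) p = some ((bcBlk S b h).x.L.v p) := scLn_v h.1 hp

theorem KCon_fn_add (X : Blk S k) (x y : X.M.C) (q : ℤ) : X.fn (x + y) q = X.fn x q + X.fn y q := rfl

theorem KCon_arrow (X : Blk S k) (α : Fin D.nE) {p : ℤ} (hZ : p ∈ X.x.Z) (v : Fin X.n → k) :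
    X.M.Q.op (Sum.inr α) (X.iota p v) =
      ∑ e : Bool, if X.x.L.lt e p = 2 ∧ S.outA (X.x.L.v p) (X.x.L.sd e p) = some α then
          X.iota (st e p) v else 0 := by
  classical
  have hper := X.ok.per
  apply KCon_ext
  intro q
  rw [KCon_fn_op, fop_inr]
  rw [← blkEv_apply, map_sum]
  -- reindex
  rw [← Equiv.sum_comp Equiv.boolNot (fun e : Bool => blkEv X q
    (if X.x.L.lt e p = 2 ∧ S.outA (X.x.L.v p) (X.x.L.sd e p) = some α then X.iota (st e p) v else 0))]
  refine Finset.sum_congr rfl (fun e _ => ?_)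
  rw [KCon_fn_iota X hZ]
  show _ = blkEv X q (if X.x.L.lt (!e) p = 2 ∧ S.outA (X.x.L.v p) (X.x.L.sd (!e) p) = some α then
          X.iota (st (!e) p) v else 0)
  have hst : st (!e) p - q = p - st e q := by cases e <;> simp <;> ring
  by_cases hd : (X.B.l : ℤ) ∣ (p - st e q)
  · -- congruent
    have hd' := hd
    rw [← hst] at hd'
    obtain ⟨j, hj⟩ := hd'
    have hq : q = st (!e) p + (-j) * (X.l : ℤ) := by
      have : (X.B.l : ℤ) = (X.l : ℤ) := rfl
      rw [this] at hj
      linarith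
    have e1 : X.x.L.lt e q = X.x.L.lt e (st (!e) p) := by rw [hq]; exact (hper.lt e).mul _ _
    have e2 : X.x.L.v q = X.x.L.v (st (!e) p) := by rw [hq]; exact hper.v.mul _ _
    have e3 : X.x.L.sd e q = X.x.L.sd e (st (!e) p) := by
      rw [hq]; exact (LB.Ln_sd_per hper e).mul _ _
    have hiff : (X.x.L.lt e q = 0 ∧ S.ends.inA (X.x.L.v q) (X.x.L.sd e q) = some α) ↔
        (X.x.L.lt (!e) p = 2 ∧ S.outA (X.x.L.v p) (X.x.L.sd (!e) p) = some α) := by
      rw [e1, e2, e3]
      constructor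
      · rintro ⟨g1, g2⟩
        have g3 := X.x.ok.other g1 g2
        have g4 : st e (st (!e) p) = p := by cases e <;> simp
        rw [g4] at g3
        exact g3
      · rintro ⟨g1, g2⟩
        have g3 := X.x.ok.other' g1 g2
        rw [Bool.not_not] at g3
        exact g3
    by_cases hc : X.x.L.lt (!e) p = 2 ∧ S.outA (X.x.L.v p) (X.x.L.sd (!e) p) = some α
    · have hZ' : st (!e) p ∈ X.x.Z := X.x.Zcl (!e) p hZ (by rw [hc.1]; decide)
      rw [if_pos (hiff.2 hc), if_pos hc, blkEv_apply, KCon_fn_iota X hZ', LB.spr_apply, LB.spr_apply, hst]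
    · rw [if_neg (fun hh => hc (hiff.1 hh)), if_neg hc, map_zero]
  · -- not congruent
    have l1 : X.B.spr p v (st e q) = 0 := by rw [LB.spr_apply, if_neg hd]
    rw [l1, ite_self]
    by_cases hc : X.x.L.lt (!e) p = 2 ∧ S.outA (X.x.L.v p) (X.x.L.sd (!e) p) = some α
    · have hZ' : st (!e) p ∈ X.x.Z := X.x.Zcl (!e) p hZ (by rw [hc.1]; decide)
      rw [if_pos hc, blkEv_apply, KCon_fn_iota X hZ', LB.spr_apply, hst, if_neg hd]
    · rw [if_neg hc, map_zero]

theorem KCon_vertex (X : Blk S k) (i : Fin D.nV) {p : ℤ} (hZ : p ∈ X.x.Z) (v : Fin X.n → k) :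
    X.M.Q.op (Sum.inl i) (X.iota p v) = if X.x.L.v p = i then X.iota p v else 0 := by
  classical
  have hper := X.ok.per
  apply KCon_ext
  intro q
  rw [KCon_fn_op, fop_inl, KCon_fn_iota X hZ]
  have hr : X.fn (if X.x.L.v p = i then X.iota p v else 0) q =
      if X.x.L.v p = i then X.B.spr p v q else 0 := by
    by_cases hc : X.x.L.v p = i
    · rw [if_pos hc, if_pos hc, KCon_fn_iota X hZ]
    · rw [if_neg hc, if_neg hc]
      rfl
  rw [hr]
  by_cases hd : (X.B.l : ℤ) ∣ (p - q)
  · obtain ⟨j, hj⟩ := hd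
    have hq : q = p + (-j) * (X.l : ℤ) := by
      have : (X.B.l : ℤ) = (X.l : ℤ) := rfl
      rw [this] at hj
      linarith
    have e2 : X.x.L.v q = X.x.L.v p := by rw [hq]; exact hper.v.mul _ _
    rw [e2]
  · have l1 : X.B.spr p v q = 0 := by rw [LB.spr_apply, if_neg hd]
    rw [l1, ite_self, ite_self]

/-- an arrow moves the vector at `p` to the neighbours reached by OUT letters through this arrow -/
theorem op_iota_arrow {b : BC D k} (h : bcOk S b) (α : Fin D.nE) {p : ℤ} (hp : scIn (bcS b) p)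
    (v : Fin (bcBlk S b h).n → k) :
    (bcBlk S b h).M.Q.op (Sum.inr α) ((bcBlk S b h).iota p v) =
      ∑ e : Bool, if scLt (bcS b) e p = 2 ∧
        (scV (bcS b) p).bind (fun v => S.outA v (scSd (bcS b) e p)) = some α then
          (bcBlk S b h).iota (st e p) v else 0 := by
  refine (KCon_arrow (bcBlk S b h) α (KCon_mem h hp) v).trans ?_
  refine Finset.sum_congr rfl (fun e _ => ?_)
  rw [KCon_v h hp]
  rfl

theorem op_iota_vertex {b : BC D k} (h : bcOk S b) (i : Fin D.nV) {p : ℤ} (hp : scIn (bcS b) p)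
    (v : Fin (bcBlk S b h).n → k) :
    (bcBlk S b h).M.Q.op (Sum.inl i) ((bcBlk S b h).iota p v) =
      if scV (bcS b) p = some i then (bcBlk S b h).iota p v else 0 := by
  refine (KCon_vertex (bcBlk S b h) i (KCon_mem h hp) v).trans ?_
  rw [KCon_v h hp]
  by_cases hc : (bcBlk S b h).x.L.v p = i
  · rw [if_pos hc, if_pos (by rw [hc])]
  · rw [if_neg hc, if_neg (fun hh => hc (Option.some_inj.1 hh))]

/-! ### coordinates -/

theorem KCon_fn_comb {b : BC D k} (h : bcOk S b) (c : ℕ → k) {q : ℕ} (hq : q < bcP b) (i : Fin (bcBlk S b h).n) :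
    (bcBlk S b h).fn (∑ m' ∈ Finset.range (bcD b), c m' • bcE S b h m') (q : ℤ) i = c (q * bcN b + (i : ℕ)) := by
  have hi : (i : ℕ) < bcN b := i.2
  have hn : 0 < bcN b := by omega
  rw [← blkEv_apply, map_sum, Finset.sum_apply, Finset.sum_eq_single (q * bcN b + (i : ℕ))]
  · rw [map_smul, blkEv_apply]
    unfold bcE
    have h1 : (q * bcN b + (i : ℕ)) / bcN b = q := by
      rw [mul_comm, Nat.mul_add_div hn, Nat.div_eq_of_lt hi, add_zero]
    have h2 : (q * bcN b + (i : ℕ)) % bcN b = i := by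
      rw [mul_comm, Nat.mul_add_mod, Nat.mod_eq_of_lt hi]
    rw [h1, h2, fn_iota_dom h hq hq, if_pos rfl]
    show c (q * bcN b + (i : ℕ)) * (if (i : ℕ) = (i : ℕ) then (1 : k) else 0) = _
    rw [if_pos rfl, mul_one]
  · intro m hm hne
    have hm' : m < bcP b * bcN b := Finset.mem_range.1 hm
    have hmP : m / bcN b < bcP b := by
      rw [Nat.div_lt_iff_lt_mul hn]
      exact hm'
    rw [map_smul, blkEv_apply]
    unfold bcE
    rw [fn_iota_dom h hmP hq]
    by_cases hqm : q = m / bcN b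
    · rw [if_pos hqm]
      show c m * (if (i : ℕ) = m % bcN b then (1 : k) else 0) = 0
      rw [if_neg, mul_zero]
      intro him
      apply hne
      rw [hqm, him]
      exact (Nat.div_add_mod' m (bcN b)).symm
    · rw [if_neg hqm]
      show c m * (0 : k) = 0
      rw [mul_zero]
  · intro hh
    exfalso
    apply hh
    rw [Finset.mem_range]
    show q * bcN b + (i : ℕ) < bcP b * bcN b
    calc q * bcN b + (i : ℕ) < q * bcN b + bcN b := by omega
      _ = (q + 1) * bcN b := by ring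
      _ ≤ bcP b * bcN b := Nat.mul_le_mul_right _ hq

theorem KCon_eq_comb {b : BC D k} (h : bcOk S b) (c : ℕ → k) (x : (bcBlk S b h).M.C)
    (hx : ∀ q < bcP b, ∀ i : Fin (bcBlk S b h).n, (bcBlk S b h).fn x (q : ℤ) i = c (q * bcN b + (i : ℕ))) :
    x = ∑ m' ∈ Finset.range (bcD b), c m' • bcE S b h m' := by
  apply blk_ext h
  intro q hq
  funext i
  rw [hx q hq i, KCon_fn_comb h c hq i]

theorem KCon_l {b : BC D k} (h : bcOk S b) (hb : b.1 = true) : ((bcBlk S b h).B.l : ℤ) = bcP b := by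
  show ((bcL b : ℕ) : ℤ) = bcP b
  unfold bcL
  rw [if_pos hb]

theorem KCon_divmod {n q i : ℕ} (hi : i < n) : (q * n + i) / n = q ∧ (q * n + i) % n = i := by
  have hn : 0 < n := by omega
  refine ⟨?_, ?_⟩
  · rw [mul_comm, Nat.mul_add_div hn, Nat.div_eq_of_lt hi, add_zero]
  · rw [mul_comm, Nat.mul_add_mod, Nat.mod_eq_of_lt hi]

theorem KCon_mulVec {b : BC D k} (L : List k) (j : ℕ) (hj : j < bcN b) (i : Fin (bcN b)) :
    ((matOf (bcN b) L).mulVec (fun i : Fin (bcN b) => if (i : ℕ) = j then (1 : k) else 0)) i =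
      ent L (i * bcN b + j) := by
  show ∑ x : Fin (bcN b), ent L (i * bcN b + (x : ℕ)) * (if (x : ℕ) = j then (1 : k) else 0) = _
  rw [Finset.sum_eq_single (⟨j, hj⟩ : Fin (bcN b))]
  · rw [if_pos rfl, mul_one]
  · intro x _ hx
    rw [if_neg, mul_zero]
    intro hh
    exact hx (Fin.ext hh)
  · intro hh
    exact absurd (Finset.mem_univ _) hh

/-- `iota_s(e_j)` in the basis, for `-1 ≤ s ≤ bcP b`, `s` a position -/
theorem iota_eq_bcCof {b : BC D k} (h : bcOk S b) {s : ℤ} (hs : scIn (bcS b) s) (h1 : -1 ≤ s) (h2 : s ≤ (bcP b : ℤ))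
    (j : ℕ) (hj : j < bcN b) :
    (bcBlk S b h).iota s (show Fin (bcBlk S b h).n → k from fun i => if (i : ℕ) = j then 1 else 0) =
      ∑ m' ∈ Finset.range (bcD b), bcCof b s j m' • bcE S b h m' := by
  classical
  have hP : 0 < bcP b := bcP_pos h.1
  apply KCon_eq_comb
  intro q hq i
  have hi : (i : ℕ) < bcN b := i.2
  obtain ⟨d1, d2⟩ := KCon_divmod (q := q) hi
  have hZ := KCon_mem h hs
  by_cases hs1 : s = -1
  · -- left neighbour of the domain
    have hb : b.1 = true := by
      by_contra hb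
      have hb' : b.1 = false := by simpa using hb
      have := ((scIn_fin hb' s).1 hs).1
      omega
    have hl := KCon_l h hb
    have hcof : bcCof b s j (q * bcN b + (i : ℕ)) =
        if q + 1 = bcP b then ent (bcM' b) ((i : ℕ) * bcN b + j) else 0 := by
      unfold bcCof
      rw [if_pos hs1, d1, d2]
    rw [hcof]
    set v : Fin (bcBlk S b h).n → k := (show Fin (bcBlk S b h).n → k from fun i => if (i : ℕ) = j then 1 else 0) with hv
    have hZ1 : ((bcP b - 1 : ℕ) : ℤ) ∈ (bcBlk S b h).x.Z := KCon_mem h (scIn_dom (by omega))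
    have h3 : (bcBlk S b h).B.spr s v = (bcBlk S b h).B.spr ((bcP b - 1 : ℕ) : ℤ) ((bcT b).symm v) := by
      have h4 : (((bcP b - 1 : ℕ)) : ℤ) = s + (bcBlk S b h).B.l := by
        rw [hl, hs1]
        omega
      rw [h4, LB.spr_add_l]
      congr 1
      exact ((bcT b).apply_symm_apply v).symm
    rw [KCon_fn_iota _ hZ, h3, ← KCon_fn_iota _ hZ1, fn_iota_dom h (by omega) hq]
    by_cases hqP : q + 1 = bcP b
    · rw [if_pos (by omega), if_pos hqP]
      have h5 := congrFun (bcT_symm_apply h hb v) i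
      exact h5.trans (KCon_mulVec (b := b) (bcM' b) j hj i)
    · rw [if_neg (by omega), if_neg hqP]
      rfl
  · by_cases hs2 : s = (bcP b : ℤ)
    · -- right neighbour
      have hb : b.1 = true := by
        by_contra hb
        have hb' : b.1 = false := by simpa using hb
        have := ((scIn_fin hb' s).1 hs).2
        omega
      have hl := KCon_l h hb
      have hcof : bcCof b s j (q * bcN b + (i : ℕ)) =
          if q = 0 then ent (bcM b) ((i : ℕ) * bcN b + j) else 0 := by
        unfold bcCof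
        rw [if_neg hs1, if_pos hs2, d1, d2]
      rw [hcof]
      set v : Fin (bcBlk S b h).n → k := (show Fin (bcBlk S b h).n → k from fun i => if (i : ℕ) = j then 1 else 0) with hv
      have hZ1 : ((0 : ℕ) : ℤ) ∈ (bcBlk S b h).x.Z := KCon_mem h (scIn_dom hP)
      have h3 : (bcBlk S b h).B.spr s v = (bcBlk S b h).B.spr ((0 : ℕ) : ℤ) (bcT b v) := by
        have h4 : s = ((0 : ℕ) : ℤ) + (bcBlk S b h).B.l := by
          rw [hl, hs2]
          simp
        rw [h4, LB.spr_add_l]
        rfl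
      rw [KCon_fn_iota _ hZ, h3, ← KCon_fn_iota _ hZ1, fn_iota_dom h hP hq]
      by_cases hqP : q = 0
      · rw [if_pos hqP, if_pos hqP]
        have h5 := congrFun (bcT_apply h hb v) i
        exact h5.trans (KCon_mulVec (b := b) (bcM b) j hj i)
      · rw [if_neg hqP, if_neg hqP]
        rfl
    · -- in the domain
      have hs0 : 0 ≤ s := by omega
      obtain ⟨s', rfl⟩ := Int.eq_ofNat_of_zero_le hs0
      have hs' : s' < bcP b := by omega
      have hcof : bcCof b (s' : ℤ) j (q * bcN b + (i : ℕ)) =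
          if q * bcN b + (i : ℕ) = s' * bcN b + j then 1 else 0 := by
        unfold bcCof
        rw [if_neg hs1, if_neg hs2]
        rfl
      rw [hcof, fn_iota_dom h hs' hq]
      by_cases hqs : q = s'
      · rw [if_pos hqs]
        subst hqs
        show (if (i : ℕ) = j then (1 : k) else 0) = _
        by_cases hij : (i : ℕ) = j
        · rw [if_pos hij, if_pos (by rw [hij])]
        · rw [if_neg hij, if_neg (by omega)]
      · rw [if_neg hqs, if_neg]
        · rfl
        · intro hh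
          apply hqs
          have h5 := (KCon_divmod (q := s') hj).1
          rw [← hh, d1] at h5
          exact h5

/-- the structure constants -/
theorem op_bcE {b : BC D k} (h : bcOk S b) (g : D.Gen) {m : ℕ} (hm : m < bcD b) :
    (bcBlk S b h).M.Q.op g (bcE S b h m) = ∑ m' ∈ Finset.range (bcD b), bcC S b g m m' • bcE S b h m' := by
  classical
  have hm' : m < bcP b * bcN b := hm
  have hn : 0 < bcN b := by
    rcases Nat.eq_zero_or_pos (bcN b) with h0 | h0
    · rw [h0, mul_zero] at hm'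
      omega
    · exact h0
  have hmP : m / bcN b < bcP b := by
    rw [Nat.div_lt_iff_lt_mul hn]
    exact hm'
  have hmn : m % bcN b < bcN b := Nat.mod_lt _ hn
  have hp : scIn (bcS b) ((m / bcN b : ℕ) : ℤ) := scIn_dom hmP
  cases g with
  | inl i =>
    have h1 : (bcBlk S b h).M.Q.op (Sum.inl i) (bcE S b h m) =
        if scV (bcS b) ((m / bcN b : ℕ) : ℤ) = some i then bcE S b h m else 0 :=
      op_iota_vertex h i hp _
    rw [h1, Finset.sum_eq_single m]
    · show _ = (if m = m ∧ scV (bcS b) ((m / bcN b : ℕ) : ℤ) = some i then (1 : k) else 0) • bcE S b h m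
      by_cases hc : scV (bcS b) ((m / bcN b : ℕ) : ℤ) = some i
      · rw [if_pos hc, if_pos ⟨rfl, hc⟩, one_smul]
      · rw [if_neg hc, if_neg (fun hh => hc hh.2), zero_smul]
    · intro m' _ hne
      show (if m = m' ∧ scV (bcS b) ((m / bcN b : ℕ) : ℤ) = some i then (1 : k) else 0) • bcE S b h m' = 0
      rw [if_neg (fun hh => hne hh.1.symm), zero_smul]
    · intro hh
      exact absurd (Finset.mem_range.2 hm) hh
  | inr α =>
    have h1 : (bcBlk S b h).M.Q.op (Sum.inr α) (bcE S b h m) =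
        ∑ e : Bool, if scLt (bcS b) e ((m / bcN b : ℕ) : ℤ) = 2 ∧
        (scV (bcS b) ((m / bcN b : ℕ) : ℤ)).bind (fun v => S.outA v (scSd (bcS b) e ((m / bcN b : ℕ) : ℤ))) = some α then
          (bcBlk S b h).iota (st e ((m / bcN b : ℕ) : ℤ))
          (show Fin (bcBlk S b h).n → k from fun j => if (j : ℕ) = m % bcN b then 1 else 0) else 0 :=
      op_iota_arrow h α hp _
    rw [h1]
    have h2 : ∀ m', bcC S b (Sum.inr α) m m' • bcE S b h m' = ∑ e : Bool,
        (if scLt (bcS b) e ((m / bcN b : ℕ) : ℤ) = 2 ∧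
        (scV (bcS b) ((m / bcN b : ℕ) : ℤ)).bind (fun v => S.outA v (scSd (bcS b) e ((m / bcN b : ℕ) : ℤ))) = some α then
          bcCof b (st e ((m / bcN b : ℕ) : ℤ)) (m % bcN b) m' else 0) • bcE S b h m' := by
      intro m'
      rw [← Finset.sum_smul]
      rfl
    rw [Finset.sum_congr rfl (fun m' _ => h2 m'), Finset.sum_comm]
    refine Finset.sum_congr rfl (fun e _ => ?_)
    by_cases hc : scLt (bcS b) e ((m / bcN b : ℕ) : ℤ) = 2 ∧
        (scV (bcS b) ((m / bcN b : ℕ) : ℤ)).bind (fun v => S.outA v (scSd (bcS b) e ((m / bcN b : ℕ) : ℤ))) = some α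
    · rw [if_pos hc]
      have h3 : scIn (bcS b) (st e ((m / bcN b : ℕ) : ℤ)) :=
        ((scLt_ne_one h.1 e _).1 (by rw [hc.1]; decide)).2
      have h4 : (0 : ℤ) ≤ ((m / bcN b : ℕ) : ℤ) := Int.natCast_nonneg _
      have h5 : ((m / bcN b : ℕ) : ℤ) + 1 ≤ (bcP b : ℤ) := by exact_mod_cast hmP
      have h6 : -1 ≤ st e ((m / bcN b : ℕ) : ℤ) := by
        cases e
        · show -1 ≤ ((m / bcN b : ℕ) : ℤ) - 1
          linarith
        · show -1 ≤ ((m / bcN b : ℕ) : ℤ) + 1
          linarith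
      have h7 : st e ((m / bcN b : ℕ) : ℤ) ≤ (bcP b : ℤ) := by
        cases e
        · show ((m / bcN b : ℕ) : ℤ) - 1 ≤ _
          linarith
        · exact h5
      rw [iota_eq_bcCof h h3 h6 h7 (m % bcN b) hmn]
      refine Finset.sum_congr rfl (fun m' _ => ?_)
      rw [if_pos hc]
    · rw [if_neg hc]
      symm
      refine Finset.sum_eq_zero (fun m' _ => ?_)
      rw [if_neg hc, zero_smul]

end StrAlg
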