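import Pool.Agent.Lib.MP_b9fd58_lc.KUpDn
import Pool.Agent.Lib.MP_b9fd58_lc.KCon

/-!
# Stream K: the pp-pair of a code
-/

set_option autoImplicit false

namespace StrAlg

open Module

variable {D : Dat} {k : Type} [Field k] {S : Sides D}

theorem KPr_single {ι : Type} [Fintype ι] [DecidableEq ι] (M : ι → Md D k) (i : ι) (g : D.Gen)
    (m : (M i).C) : (Pi.single i ((M i).Q.op g m) : ∀ i, (M i).C) = (Md.pi M).Q.op g (Pi.single i m) := by
  funext j
  show _ = (M j).Q.op g ((Pi.single i m : ∀ i, (M i).C) j)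
  by_cases hj : j = i
  · subst hj
    rw [Pi.single_eq_same, Pi.single_eq_same]
  · rw [Pi.single_eq_of_ne hj, Pi.single_eq_of_ne hj, map_zero]

theorem KPr_up_gen {ι : Type} [Fintype ι] [DecidableEq ι] (M : ι → Md D k) (a : ∀ i, (M i).C)
    (N : Md D k) (x : N.C) :
    (∃ f : (∀ i, (M i).C) →ₗ[k] N.C, (∀ g m, f ((Md.pi M).Q.op g m) = N.Q.op g (f m)) ∧ f a = x) ↔
      ∃ y : ι → N.C, (∀ i, ∃ f : (M i).C →ₗ[k] N.C, (M i).Hom N f ∧ f (a i) = y i) ∧ x = ∑ i, y i := by
  constructor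
  · rintro ⟨f, hf, rfl⟩
    refine ⟨fun i => f (Pi.single i (a i)), fun i =>
      ⟨f ∘ₗ (LinearMap.single k (fun i => (M i).C) i), fun g m => ?_, rfl⟩, ?_⟩
    · exact (congrArg f (KPr_single M i g m)).trans (hf g (Pi.single i m))
    · have h1 : (∑ i, Pi.single i (a i) : ∀ i, (M i).C) = a := Finset.univ_sum_single a
      rw [← map_sum, h1]
  · rintro ⟨y, hy, rfl⟩
    choose f hf hfy using hy
    have hF : ∀ v : (∀ i, (M i).C),
        (∑ i, (f i) ∘ₗ (LinearMap.proj i : (∀ i, (M i).C) →ₗ[k] (M i).C)) v = ∑ i, f i (v i) :=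
      fun v => LinearMap.sum_apply _ _ _
    refine ⟨∑ i, (f i) ∘ₗ (LinearMap.proj i : (∀ i, (M i).C) →ₗ[k] (M i).C), fun g m => ?_, ?_⟩
    · refine (hF _).trans (Eq.trans ?_ (congrArg (N.Q.op g) (hF m)).symm)
      rw [map_sum]
      exact Finset.sum_congr rfl fun i _ => hf i g (m i)
    · exact (hF a).trans (Finset.sum_congr rfl fun i _ => hfy i)

theorem KPr_dn_gen {ι : Type} [Fintype ι] [DecidableEq ι] (M : ι → Md D k) (b : ∀ i, Dual k (M i).C)
    (N : Md D k) (x : N.C) :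
    (∀ G : N.C →ₗ[k] (∀ i, (M i).C), (∀ g m, G (N.Q.op g m) = (Md.pi M).Q.op g (G m)) →
      (∑ j, (b j) ∘ₗ (LinearMap.proj j : (∀ i, (M i).C) →ₗ[k] (M j).C)) (G x) = 0) ↔
      ∀ j, ∀ G : N.C →ₗ[k] (M j).C, N.Hom (M j) G → b j (G x) = 0 := by
  constructor
  · intro h j G hG
    have h1 := h ((LinearMap.single k (fun j => (M j).C) j) ∘ₗ G) (fun g m =>
      (congrArg (fun z => (Pi.single j z : ∀ i, (M i).C)) (hG g m)).trans (KPr_single M j g (G m)))
    rw [LinearMap.sum_apply, Finset.sum_eq_single j] at h1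
    · rw [LinearMap.comp_apply, LinearMap.comp_apply, LinearMap.proj_apply, LinearMap.coe_single,
        Pi.single_eq_same] at h1
      exact h1
    · intro j' _ hj'
      rw [LinearMap.comp_apply, LinearMap.comp_apply, LinearMap.proj_apply, LinearMap.coe_single,
        Pi.single_eq_of_ne hj', map_zero]
    · intro hh
      exact absurd (Finset.mem_univ _) hh
  · intro h G hG
    rw [LinearMap.sum_apply]
    refine Finset.sum_eq_zero fun j _ => ?_
    exact h j ((LinearMap.proj j : (∀ j, (M j).C) →ₗ[k] (M j).C) ∘ₗ G)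
      (fun g m => congrFun (hG g m) j)

theorem KPr_foldr_add {α N : Type} [AddCommGroup N] [Module k N] (Q : QMod D k N) (φ : α → PP D k)
    (L : List α) : Q.pp (L.foldr (fun t acc => ppAdd (φ t) acc) ppZero) =
      {x | ∃ y : Fin L.length → N, (∀ i, y i ∈ Q.pp (φ (L.get i))) ∧ x = ∑ i, y i} := by
  induction L with
  | nil =>
    rw [List.foldr_nil, pp_zero]
    ext x
    constructor
    · intro hx
      exact ⟨fun _ => 0, fun i => i.elim0, hx⟩
    · rintro ⟨y, _, rfl⟩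
      rfl
  | cons t L ih =>
    rw [List.foldr_cons, pp_add, ih]
    ext x
    constructor
    · rintro ⟨y0, hy0, z, ⟨y, hy, rfl⟩, rfl⟩
      refine ⟨Fin.cons (α := fun _ => N) y0 y, fun i => ?_, ?_⟩
      · refine Fin.cases ?_ (fun j => ?_) i
        · exact hy0
        · exact hy j
      · exact (Fin.sum_cons y0 y).symm
    · rintro ⟨y, hy, rfl⟩
      exact ⟨y ⟨0, Nat.succ_pos _⟩, hy ⟨0, Nat.succ_pos _⟩, ∑ i : Fin L.length, y i.succ,
        ⟨fun i => y i.succ, fun i => hy i.succ, rfl⟩, Fin.sum_univ_succ y⟩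

theorem KPr_foldr_cap {α N : Type} [AddCommGroup N] [Module k N] (Q : QMod D k N) (φ : α → PP D k)
    (L : List α) : Q.pp (L.foldr (fun t acc => ppCap (φ t) acc) []) =
      {x | ∀ i : Fin L.length, x ∈ Q.pp (φ (L.get i))} := by
  induction L with
  | nil =>
    rw [List.foldr_nil, pp_nil]
    ext x
    exact ⟨fun _ i => i.elim0, fun _ => Set.mem_univ x⟩
  | cons t L ih =>
    rw [List.foldr_cons, pp_cap, ih]
    ext x
    constructor
    · rintro ⟨h1, h2⟩ i
      refine Fin.cases ?_ (fun j => ?_) i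
      · exact h1
      · exact h2 j
    · intro h
      exact ⟨h ⟨0, Nat.succ_pos _⟩, fun i => h i.succ⟩

theorem up_nf (p : NF S k) (N : Md D k) : p.pr.up N = {x | ∃ y : Fin p.m → N.C,
    (∀ i, ∃ f : (p.X i).M.C →ₗ[k] N.C, (p.X i).M.Hom N f ∧ f (p.a i) = y i) ∧ x = ∑ i, y i} := by
  classical
  exact Set.ext fun x => KPr_up_gen (fun i => (p.X i).M) p.a N x

theorem dn_nf (p : NF S k) (N : Md D k) : p.pr.dn N = {x | ∀ j, ∀ G : N.C →ₗ[k] (p.Y j).M.C,
    N.Hom (p.Y j).M G → p.b j (G x) = 0} := by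
  classical
  exact Set.ext fun x => KPr_dn_gen (fun j => (p.Y j).M) p.b N x

/-- the upper formula of one block -/
theorem pp_block_up {t : EC D k} (h : bcOk S t.1) (N : Md D k) :
    N.Q.pp (upPP (bcD t.1) (bcC S t.1) (ent t.2)) =
      {x | ∃ f : (bcBlk S t.1 h).M.C →ₗ[k] N.C, (bcBlk S t.1 h).M.Hom N f ∧ f (ecElt S t h) = x} := by
  obtain ⟨e, he⟩ := exists_bcBasis h
  have h1 := upPP_spec (bcBlk S t.1 h).M e (C := bcC S t.1) (fun g m => by
    rw [he, op_bcE h g m.2, Finset.sum_range]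
    exact Finset.sum_congr rfl fun m' _ => by rw [he]) (ent t.2) N
  rw [h1, ecElt_eq h, Finset.sum_range]
  have h2 : ∑ m : Fin (bcD t.1), ent t.2 m • e m = ∑ m : Fin (bcD t.1), ent t.2 m • bcE S t.1 h m :=
    Finset.sum_congr rfl fun m _ => by rw [he]
  rw [h2]

/-- the lower formula of one block -/
theorem pp_block_dn {t : EC D k} (h : bcOk S t.1) (N : Md D k) :
    N.Q.pp (dnPP (bcD t.1) (bcC S t.1) (ent t.2)) =
      {x | ∀ G : N.C →ₗ[k] (bcBlk S t.1 h).M.C, N.Hom (bcBlk S t.1 h).M G → ecFnl S t h (G x) = 0} := by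
  obtain ⟨e, he⟩ := exists_bcBasis h
  exact dnPP_spec (bcBlk S t.1 h).M e (C := bcC S t.1) (fun g m => by
    rw [he, op_bcE h g m.2, Finset.sum_range]
    exact Finset.sum_congr rfl fun m' _ => by rw [he]) (ent t.2) (ecFnl S t h)
    (fun m => by rw [he, ecFnl_bcE h m.2]) N

theorem ncPr_spec {c : NC D k} (hc : ncOk S c) (N : Md D k) :
    N.Q.pp (ncPr S c).1 = (ncDec S c).pr.up N ∧ N.Q.pp (ncPr S c).2 = (ncDec S c).pr.dn N := by
  classical
  rw [up_nf, dn_nf]
  unfold ncDec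
  rw [dif_pos hc]
  constructor
  · refine (KPr_foldr_add N.Q (fun t : EC D k => upPP (bcD t.1) (bcC S t.1) (ent t.2)) c.1).trans ?_
    ext x
    constructor
    · rintro ⟨y, hy, hx⟩
      refine ⟨y, fun i => ?_, hx⟩
      have h1 := hy i
      rw [pp_block_up (hc.1 _ (List.get_mem c.1 i)) N] at h1
      exact h1
    · rintro ⟨y, hy, hx⟩
      refine ⟨y, fun i => ?_, hx⟩
      rw [pp_block_up (hc.1 _ (List.get_mem c.1 i)) N]
      exact hy i
  · refine (KPr_foldr_cap N.Q (fun t : EC D k => dnPP (bcD t.1) (bcC S t.1) (ent t.2)) c.2).trans ?_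
    ext x
    constructor
    · intro hx j
      have h1 := hx j
      rw [pp_block_dn (hc.2 _ (List.get_mem c.2 j)) N] at h1
      exact h1
    · intro hx j
      rw [pp_block_dn (hc.2 _ (List.get_mem c.2 j)) N]
      exact hx j

end StrAlg
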