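import Mathlib

/-!
# Stage 2, job YEa: a nonsingular matrix of values with entries from spanning sets
-/

set_option autoImplicit false

namespace StrAlg

theorem yea_multi {k F ι : Type} [Field k] [AddCommGroup F] [Module k F] [Fintype ι] [DecidableEq ι]
    (f : MultilinearMap k (fun _ : ι => F) k) (B : Set F) (h : ∀ y : ι → F, (∀ i, y i ∈ B) → f y = 0)
    (y : ι → F) (hy : ∀ i, y i ∈ Submodule.span k B) : f y = 0 := by
  have key : ∀ s : Finset ι, ∀ y : ι → F, (∀ i ∈ s, y i ∈ Submodule.span k B) → (∀ i, i ∉ s → y i ∈ B) → f y = 0 := by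
    intro s
    induction s using Finset.induction_on with
    | empty => intro y _ h2; exact h y (fun i => h2 i (Finset.notMem_empty i))
    | insert a s ha ih =>
      intro y h1 h2
      have h3 : ∀ v ∈ Submodule.span k B, f (Function.update y a v) = 0 := by
        intro v hv
        induction hv using Submodule.span_induction with
        | mem v hv =>
          apply ih
          · intro i hi
            have hne : i ≠ a := fun h' => ha (h' ▸ hi)
            rw [Function.update_of_ne hne]
            exact h1 i (Finset.mem_insert_of_mem hi)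
          · intro i hi
            by_cases hia : i = a
            · subst hia; rw [Function.update_self]; exact hv
            · rw [Function.update_of_ne hia]
              exact h2 i (fun h' => (Finset.mem_insert.1 h').elim hia hi)
        | zero => exact f.map_update_zero y a
        | add v v' _ _ hv hv' => rw [f.map_update_add, hv, hv', add_zero]
        | smul c v _ hv => rw [f.map_update_smul, hv, smul_zero]
      have h4 := h3 (y a) (h1 a (Finset.mem_insert_self a s))
      rwa [Function.update_eq_self] at h4
  exact key Finset.univ y (fun i _ => hy i) (fun i hi => absurd (Finset.mem_univ i) hi)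

theorem yea_rows {k E F : Type} [Field k] [AddCommGroup E] [Module k E] [AddCommGroup F] [Module k F]
    (β : E →ₗ[k] F →ₗ[k] k) (B : Set F) (n : ℕ) (x : Fin n → E) (y : Fin n → F)
    (hy : ∀ i, y i ∈ Submodule.span k B) (h : (Matrix.of fun i j => β (x j) (y i)).det ≠ 0) :
    ∃ y' : Fin n → F, (∀ i, y' i ∈ B) ∧ (Matrix.of fun i j => β (x j) (y' i)).det ≠ 0 := by
  by_contra hcon
  push Not at hcon
  apply h
  exact yea_multi ((Matrix.detRowAlternating (R := k) (n := Fin n)).toMultilinearMap.compLinearMap
    (fun _ => (LinearMap.pi (fun j => β (x j)) : F →ₗ[k] (Fin n → k)))) B (fun y hy => hcon y hy) y hy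

/-- Multilinearity of the determinant: the vectors of a nonsingular matrix of values can be replaced by elements of spanning sets. -/
theorem exists_det_ne {k E F : Type} [Field k] [AddCommGroup E] [Module k E] [AddCommGroup F] [Module k F]
    (β : E →ₗ[k] F →ₗ[k] k) (A : Set E) (B : Set F) (n : ℕ) (x : Fin n → E) (y : Fin n → F)
    (hx : ∀ j, x j ∈ Submodule.span k A) (hy : ∀ i, y i ∈ Submodule.span k B)
    (h : (Matrix.of fun i j => β (x j) (y i)).det ≠ 0) :
    ∃ (x' : Fin n → E) (y' : Fin n → F), (∀ j, x' j ∈ A) ∧ (∀ i, y' i ∈ B) ∧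
      (Matrix.of fun i j => β (x' j) (y' i)).det ≠ 0 := by
  obtain ⟨y', hy', h1⟩ := yea_rows β B n x y hy h
  have h2 : (Matrix.of fun i j => β.flip (y' j) (x i)).det ≠ 0 := by
    rw [← Matrix.det_transpose]
    exact h1
  obtain ⟨x', hx', h3⟩ := yea_rows β.flip A n y' x hx h2
  refine ⟨x', y', hx', hy', ?_⟩
  rw [← Matrix.det_transpose]
  exact h3

end StrAlg
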