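import Pool.Agent.Lib.MP_b9fd58_lc.YA
import Pool.Agent.Lib.MP_b9fd58_lc.S2B
import Pool.Agent.Lib.MP_b9fd58_lc.GThA

/-!
# Stage 2: windows bound the rank from below
-/

set_option autoImplicit false

namespace StrAlg

open Module

variable {D : Dat} {k : Type} [Field k] {S : Sides D}


/-- extension of a hom from one block -/
theorem NF.ext_in (p : NF S k) {N : Md D k} (i : Fin p.m) (f : (p.X i).M.C →ₗ[k] N.C) (hf : (p.X i).M.Hom N f) :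
    ∃ f' : p.pr.A.C →ₗ[k] N.C, p.pr.A.Hom N f' ∧ f' p.pr.a = f (p.a i) := by
  classical
  refine ⟨LinearMap.comp (show (p.X i).M.C →ₗ[k] N.C from f)
      (LinearMap.proj i : (∀ i, (p.X i).M.C) →ₗ[k] (p.X i).M.C), ?_, rfl⟩
  intro g m
  exact hf g (m i)

/-- extension of a hom to one block -/
theorem NF.ext_out (p : NF S k) {N : Md D k} (j : Fin p.m') (G : N.C →ₗ[k] (p.Y j).M.C) (hG : N.Hom (p.Y j).M G) :
    ∃ G' : N.C →ₗ[k] p.pr.B.C, N.Hom p.pr.B G' ∧ ∀ n, p.pr.b (G' n) = p.b j (G n) := by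
  classical
  refine ⟨LinearMap.comp (LinearMap.single k (fun j => (p.Y j).M.C) j) (show N.C →ₗ[k] (p.Y j).M.C from G), ?_, ?_⟩
  · intro g n
    have h5 := Md.pi_op_single (fun j => (p.Y j).M) g j (G n)
    refine Eq.trans ?_ h5.symm
    exact congrArg (fun y => (Pi.single j y : ∀ j, (p.Y j).M.C)) (hG g n)
  · intro n
    exact pi_bwd (k := k) (Y := fun j => (p.Y j).M.C) p.b j (G n)

/-- **dual systems of windows bound the rank of an open pair from below** -/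
theorem NF.rank_windows (p : NF S k) (w : Str S) (hw : w.Aper) (hp : ¬ p.Crit w) :
    ∃ R : ℕ, ∀ (N : Md D k) (n : ℕ) (g : Fin n → ℤ → N.C) (ξ : Fin n → ℤ → N.C →ₗ[k] k),
      (∀ j q, q ∈ w.Z → q.natAbs ≤ R → ChAt N.Q S.ends w.L (g j) q) →
      (∀ i q, q ∈ w.Z → q.natAbs ≤ R → DcAt N.Q S.ends w.L (ξ i) q) →
      (∀ i j q, q ∈ w.Z → q.natAbs ≤ R → ξ i q (g j q) = if i = j then 1 else 0) → (n : ℕ∞) ≤ p.pr.rk N := by
  unfold NF.Crit CritB at hp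
  push Not at hp
  obtain ⟨i₀, j₀, o, o', a, q, b, ha, hq, hb, m1, m2, l1, l2, f1, f2, κ, hne⟩ := hp
  obtain ⟨φ, v, h1⟩ := exists_rank_one hne
  rw [Om_rank_one] at h1
  obtain ⟨o₁, a₁, q₁, b₁, A, B, R, C, hC, hR⟩ := thmA_unif (p.X i₀).x.ok w.ok (p.Y j₀).x.ok hw.asym w.cl hq
    ((p.X i₀).x.Zabs a ha) (w.Zabs q hq) ((p.Y j₀).x.Zabs b hb) m1 l1 f1 m2 l2 f2
    (fun a => φ ((p.X i₀).fn (p.a i₀) a)) (fun r => (p.Y j₀).cf (p.b j₀) r v) h1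
  refine ⟨R + q.natAbs, ?_⟩
  intro N n g ξ hg hξ hgξ
  have hwin : ∀ i j, ∀ q', w.L.Reach q q' → (q' - q).natAbs ≤ R →
      ChAt N.Q S.ends w.L (g j) q' ∧ DcAt N.Q S.ends w.L (ξ i) q' ∧ ξ i q' (g j q') = if i = j then 1 else 0 := by
    intro i j q' h2 h3
    have h4 : q' ∈ w.Z := Ln.Reach.trans hq h2
    have h5 : q'.natAbs ≤ R + q.natAbs := by omega
    exact ⟨hg j q' h4 h5, hξ i q' h4 h5, hgξ i j q' h4 h5⟩
  have hall := fun i j => hR N.C N.Q (g j) (ξ i) _ (hwin i j)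
  have hf : ∀ j, (p.X i₀).M.Hom N (chE (p.X i₀).ok φ (pull (p.X i₀).x.L w.L o₁ a₁ q₁ (g j)) A) := fun j =>
    chE_hom (p.X i₀).ok (hall j j).1 (hall j j).2.2.1 φ
  have hG : ∀ i, N.Hom (p.Y j₀).M (dcHom (p.Y j₀).ok (push w.L (p.Y j₀).x.L o' q₁ b₁ (ξ i)) B v) := fun i =>
    dcHom_hom (p.Y j₀).ok (hall i i).2.1 (hall i i).2.2.2.1 v
  choose f' hf' hfa using fun j => p.ext_in i₀ _ (hf j)
  choose G' hG' hGb using fun i => p.ext_out j₀ _ (hG i)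
  rw [Pr.rk_ge_iff]
  refine ⟨f', fun i => C⁻¹ • G' i, hf', fun i => (hG' i).smul' _, fun i j => ?_⟩
  rw [LinearMap.smul_apply, map_smul, hGb, hfa]
  have h6 := val_chE_dcHom (p.a i₀) (p.b j₀) (N := N) (pull (p.X i₀).x.L w.L o₁ a₁ q₁ (g j))
    (push w.L (p.Y j₀).x.L o' q₁ b₁ (ξ i)) A B φ v
  rw [smul_eq_mul]
  refine (congrArg (fun x => C⁻¹ * x) (h6.trans (hall i j).2.2.2.2)).trans ?_
  split_ifs
  · rw [one_mul, inv_mul_cancel₀ hC]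
  · rw [zero_mul, mul_zero]

end StrAlg
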