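import Pool.Agent.Lib.MP_b9fd58_lc.If2Defs
import Pool.Agent.Lib.MP_b9fd58_lc.S2B
import Pool.Agent.Lib.MP_b9fd58_lc.YB

/-!
# Stage 2, job YEd: graph maps give a lower bound of the rank on the localised string module
-/

set_option autoImplicit false

namespace StrAlg

open Module

variable {D : Dat} {k : Type} [Field k] {S : Sides D}

/-- the coefficients of the chain pulled back from the chain of the localised module -/
theorem yed_coef (w : Str S) {X : Ln (Fin D.nV) S.nx} {o : Bool} {c q : ℤ} (hq : q ∈ w.Z) (a q' : ℤ) :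
    cfL w (pull X w.L o c q (zL (k := k) w) a) q' = (open Classical in if Cn X w.L o c q a q' then 1 else 0) := by
  classical
  by_cases h : ∃ q'', Cn X w.L o c q a q''
  · obtain ⟨q'', h1⟩ := h
    have hq'' : q'' ∈ w.Z := w.cl.cn hq h1
    rw [pull_eq h1, cfL_zL w hq'', Str.B0_spr]
    by_cases h2 : q' = q''
    · subst h2
      rw [if_pos rfl, if_pos h1]
    · rw [if_neg h2, if_neg (fun h3 => h2 (h3.unique_right h1))]
  · rw [pull_zero h, map_zero, if_neg (fun h1 => h ⟨_, h1⟩)]; rfl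

/-- The graph map of a function in `GIn`. -/
theorem NF.GIn.hom {p : NF S k} {w : Str S} {s : ℤ → k} (h : p.GIn w s) :
    ∃ f : p.pr.A.C →ₗ[k] (w.Mloc k).C, p.pr.A.Hom (w.Mloc k) f ∧ cfL w (f p.pr.a) = s := by
  classical
  obtain ⟨i, o, c, q, φ, ⟨hc, hq, m, l, fc⟩, rfl⟩ := h
  obtain ⟨A, hAd⟩ : ∃ A : Finset ℤ, A = Finset.Icc (c - lenD (p.X i).x.L w.L o false c q)
    (c + lenD (p.X i).x.L w.L o true c q) := ⟨_, rfl⟩
  have hA : ∀ a q', Cn (p.X i).x.L w.L o c q a q' → a ∈ A := fun a q' h => hAd ▸ h.mem_Icc_left fc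
  have hch : ∀ a, ChAt (w.Mloc k).Q S.ends (p.X i).x.L (pull (p.X i).x.L w.L o c q (zL (k := k) w)) a :=
    pull_chain m l (fun a q _ => zL_ch w q)
  have hz : ∀ a, a ∉ A → pull (p.X i).x.L w.L o c q (zL (k := k) w) a = 0 := by
    intro a ha
    exact pull_zero (fun ⟨q', h⟩ => ha (hA a q' h))
  obtain ⟨f', hf', hfa⟩ := p.ext_in i (chE (p.X i).ok φ (pull (p.X i).x.L w.L o c q (zL (k := k) w)) A)
    (chE_hom (p.X i).ok hch hz φ)
  refine ⟨f', hf', ?_⟩
  rw [hfa]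
  funext q'
  have e1 : ∀ a' : ((p.X i).x.ME (p.X i).l (p.X i).T (p.X i).ok).C,
      cfL w (chE (p.X i).ok φ (pull (p.X i).x.L w.L o c q (zL (k := k) w)) A a') q' =
      ∑ a ∈ A, φ (cfE (p.X i).ok a' a) * (if Cn (p.X i).x.L w.L o c q a q' then 1 else 0) := by
    intro a'
    rw [chE_apply, map_sum, Finset.sum_apply]
    refine Finset.sum_congr rfl (fun a _ => ?_)
    rw [map_smul, Pi.smul_apply, yed_coef w hq, smul_eq_mul]
  refine (e1 (p.a i)).trans ?_
  by_cases h : ∃ c', Cn (p.X i).x.L w.L o c q c' q'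
  · obtain ⟨c', hc'⟩ := h
    rw [push_eq hc', Finset.sum_eq_single c']
    · rw [if_pos hc', mul_one]; rfl
    · intro a _ hne
      rw [if_neg (fun h' => hne (h'.unique_left hc')), mul_zero]
    · intro hn
      exact absurd (hA _ _ hc') hn
  · rw [push_zero h, Finset.sum_eq_zero]
    intro a _
    rw [if_neg (fun h' => h ⟨a, h'⟩), mul_zero]

/-- The graph map of a function in `GOut`. -/
theorem NF.GOut.hom {p : NF S k} {w : Str S} {t : ℤ → k} (h : p.GOut w t) :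
    ∃ G : (w.Mloc k).C →ₗ[k] p.pr.B.C, (w.Mloc k).Hom p.pr.B G ∧
      ∀ m, p.pr.b (G m) = ∑ᶠ q, t q * cfL w m q := by
  classical
  obtain ⟨j, o, q, r, y, ⟨hq, hr, m, l, fc⟩, rfl⟩ := h
  have hη : ∀ b, DcAt (w.Mloc k).Q S.ends (p.Y j).x.L (push w.L (p.Y j).x.L o q r (xiL (k := k) w)) b :=
    push_chain m l (fun q b _ => DcW_iff.1 (xiL_dc w q))
  obtain ⟨A, hAd⟩ : ∃ A : Finset ℤ, A = Finset.Icc (q - lenD w.L (p.Y j).x.L o false q r)
    (q + lenD w.L (p.Y j).x.L o true q r) := ⟨_, rfl⟩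
  have hA : ∀ q' r', Cn w.L (p.Y j).x.L o q r q' r' → q' ∈ A := fun q' r' h => hAd ▸ h.mem_Icc_left fc
  obtain ⟨B, hBd⟩ : ∃ B : Finset ℤ, B = Finset.Icc
    (r - (lenD w.L (p.Y j).x.L o false q r + lenD w.L (p.Y j).x.L o true q r))
    (r + (lenD w.L (p.Y j).x.L o false q r + lenD w.L (p.Y j).x.L o true q r)) := ⟨_, rfl⟩
  have hB : ∀ q' r', Cn w.L (p.Y j).x.L o q r q' r' → r' ∈ B := fun q' r' h => hBd ▸ h.mem_Icc_right fc
  have hz : ∀ b, b ∉ B → push w.L (p.Y j).x.L o q r (xiL (k := k) w) b = 0 := by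
    intro b hb
    exact push_zero (fun ⟨q', h⟩ => hb (hB q' b h))
  obtain ⟨G', hG', hGb⟩ := p.ext_out j (dcHom (p.Y j).ok (push w.L (p.Y j).x.L o q r (xiL (k := k) w)) B y)
    (dcHom_hom (p.Y j).ok hη hz y)
  refine ⟨G', hG', fun mm => ?_⟩
  rw [hGb]
  -- the functional on the block
  have hb0 : ∀ b' : ((p.Y j).x.ME (p.Y j).l (p.Y j).T (p.Y j).ok).C →ₗ[k] k,
      b' (dcHom (p.Y j).ok (push w.L (p.Y j).x.L o q r (xiL (k := k) w)) B y mm) =
        ∑ r' ∈ B, push w.L (p.Y j).x.L o q r (xiL (k := k) w) r' mm * b' (ioE (p.Y j).ok r' y) := by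
    intro b'
    rw [dcHom_apply, map_sum]
    refine Finset.sum_congr rfl (fun r' _ => ?_)
    rw [map_smul, smul_eq_mul]
  have hcf : ∀ r', (show ((p.Y j).x.ME (p.Y j).l (p.Y j).T (p.Y j).ok).C →ₗ[k] k from p.b j)
      (ioE (p.Y j).ok r' y) = (p.Y j).cf (p.b j) r' y := by
    intro r'
    rw [← Blk.iota_eq]; rfl
  have e1 : p.b j (dcHom (p.Y j).ok (push w.L (p.Y j).x.L o q r (xiL (k := k) w)) B y mm) =
      ∑ r' ∈ B, push w.L (p.Y j).x.L o q r (xiL (k := k) w) r' mm * (p.Y j).cf (p.b j) r' y := by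
    refine (hb0 (p.b j)).trans (Finset.sum_congr rfl (fun r' _ => ?_))
    rw [← hcf]
  refine e1.trans ?_
  have e2 : ∀ r', push w.L (p.Y j).x.L o q r (xiL (k := k) w) r' mm * (p.Y j).cf (p.b j) r' y =
      ∑ q' ∈ A, if Cn w.L (p.Y j).x.L o q r q' r' then cfL w mm q' * (p.Y j).cf (p.b j) r' y else 0 := by
    intro r'
    by_cases h : ∃ q', Cn w.L (p.Y j).x.L o q r q' r'
    · obtain ⟨q', hq'⟩ := h
      rw [push_eq hq', Finset.sum_eq_single q']
      · rw [if_pos hq']; rfl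
      · intro q'' _ hne
        rw [if_neg (fun h' => hne (h'.unique_left hq'))]
      · intro hn
        exact absurd (hA _ _ hq') hn
    · rw [push_zero h, LinearMap.zero_apply, zero_mul, Finset.sum_eq_zero]
      intro q' _
      rw [if_neg (fun h' => h ⟨q', h'⟩)]
  have e3 : ∀ q', pull w.L (p.Y j).x.L o q r (fun r' => (p.Y j).cf (p.b j) r' y) q' * cfL w mm q' =
      ∑ r' ∈ B, if Cn w.L (p.Y j).x.L o q r q' r' then cfL w mm q' * (p.Y j).cf (p.b j) r' y else 0 := by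
    intro q'
    by_cases h : ∃ r', Cn w.L (p.Y j).x.L o q r q' r'
    · obtain ⟨r', hr'⟩ := h
      rw [pull_eq hr', Finset.sum_eq_single r']
      · rw [if_pos hr', mul_comm]
      · intro r'' _ hne
        rw [if_neg (fun h' => hne (h'.unique_right hr'))]
      · intro hn
        exact absurd (hB _ _ hr') hn
    · rw [pull_zero h, zero_mul, Finset.sum_eq_zero]
      intro r' _
      rw [if_neg (fun h' => h ⟨r', h'⟩)]
  rw [Finset.sum_congr rfl (fun r' _ => e2 r'), Finset.sum_comm,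
    finsum_eq_sum_of_support_subset (s := A)]
  · exact Finset.sum_congr rfl (fun q' _ => (e3 q').symm)
  · intro q' hq'
    rw [Function.mem_support] at hq'
    by_contra hcon
    apply hq'
    rw [pull_zero (fun ⟨r', h⟩ => hcon (hA _ _ h)), zero_mul]

/-- **Lower bound.** -/
theorem NF.RkW.le_rk {p : NF S k} {w : Str S} {n : ℕ} (h : p.RkW w n) : (n : ℕ∞) ≤ p.pr.rk (w.Mloc k) := by
  obtain ⟨s, t, hs, ht, hdet⟩ := h
  choose f hf hfs using fun j => (hs j).hom
  choose G hG hGt using fun i => (ht i).hom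
  refine Pr.le_rk_of_det p.pr f G hf hG ?_
  have : p.pr.mat f G = Matrix.of fun i j => ∑ᶠ q, t i q * s j q := by
    ext i j
    show p.pr.b (G i (f j p.pr.a)) = ∑ᶠ q, t i q * s j q
    rw [hGt, hfs]
  rw [this]
  exact hdet

end StrAlg
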