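import Pool.Agent.Lib.MP_b9fd58_lc.Win

/-!
# Stage 2, job YEc: decomposition of the values of a kernel into the values of graph maps
-/

set_option autoImplicit false

namespace StrAlg

open Module

variable {D : Dat} {k : Type} [Field k] {nx : Fin D.nV → Bool → Fin 3 → Fin D.nV × Bool}

section yec
variable {ι : Type*} {nx' : ι → Bool → Fin 3 → ι × Bool}

theorem yec_st_add (e : Bool) (r c : ℤ) : st e (r + c) = st e r + c := by
  cases e <;> simp <;> ring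

/-- translates of the class of `(q₀, r₀)` by the period of `Y` -/
def yecCl (w Y : Ln ι nx') (l : ℕ) (o : Bool) (q₀ r₀ q r : ℤ) : Prop := ∃ j : ℤ, Cn w Y o q₀ r₀ q (r + j * l)

theorem yec_mt {w Y : Ln ι nx'} {l : ℕ} (hY : Y.IsPer l) {o : Bool} {q r j : ℤ} :
    Mt w Y o q (r + j * l) ↔ Mt w Y o q r := by
  unfold Mt
  rw [hY.v.mul, hY.r.mul]

theorem yec_lk {w Y : Ln ι nx'} {l : ℕ} (hY : Y.IsPer l) {o e : Bool} {q r j : ℤ} :
    Lk w Y o e q (r + j * l) ↔ Lk w Y o e q r := by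
  unfold Lk
  rw [(hY.lt (e == o)).mul]

theorem yec_cl_step {w Y : Ln ι nx'} {l : ℕ} (hY : Y.IsPer l) {o : Bool} {q₀ r₀ : ℤ} (hm₀ : Mt w Y o q₀ r₀)
    {o' e : Bool} {q r : ℤ} (hm : Mt w Y o' q r) (hl : Lk w Y o' e q r) (h : yecCl w Y l o q₀ r₀ q r) :
    yecCl w Y l o q₀ r₀ (st e q) (st (e == o') r) := by
  obtain ⟨j, hj⟩ := h
  have h1 : Mt w Y o q r := (yec_mt hY).1 (hj.mt.2 hm₀)
  have h2 : o = o' := h1.2.symm.trans hm.2
  subst h2
  refine ⟨j, ?_⟩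
  rw [← yec_st_add]
  exact hj.of_lk ((yec_lk hY).2 hl)

theorem yec_cl_step_iff {w Y : Ln ι nx'} {l : ℕ} (hY : Y.IsPer l) {o : Bool} {q₀ r₀ : ℤ} (hm₀ : Mt w Y o q₀ r₀)
    {o' e : Bool} {q r : ℤ} (hm : Mt w Y o' q r) (hl : Lk w Y o' e q r) :
    yecCl w Y l o q₀ r₀ (st e q) (st (e == o') r) ↔ yecCl w Y l o q₀ r₀ q r := by
  refine ⟨fun h => ?_, fun h => yec_cl_step hY hm₀ hm hl h⟩
  have := yec_cl_step hY hm₀ (hm.step hl) hl.back h
  rwa [beq_not, st_not_st, st_not_st] at this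

theorem yec_cl_per {w Y : Ln ι nx'} {l : ℕ} {o : Bool} {q₀ r₀ q r : ℤ} :
    yecCl w Y l o q₀ r₀ q (r + l) ↔ yecCl w Y l o q₀ r₀ q r := by
  constructor
  · rintro ⟨j, hj⟩
    refine ⟨j + 1, ?_⟩
    rwa [show r + (j + 1) * (l : ℤ) = r + l + j * l by ring]
  · rintro ⟨j, hj⟩
    refine ⟨j - 1, ?_⟩
    rwa [show r + (l : ℤ) + (j - 1) * l = r + j * l by ring]

open Classical in
/-- the kernel with the class of `(q₀, r₀)` removed -/
noncomputable def yecK {V : Type*} [Zero V] (w Y : Ln ι nx') (l : ℕ) (o : Bool) (q₀ r₀ : ℤ) (K : ℤ → ℤ → V) (q r : ℤ) : V :=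
  if yecCl w Y l o q₀ r₀ q r then 0 else K q r

theorem yecK_ne {V : Type*} [Zero V] {w Y : Ln ι nx'} {l : ℕ} {o : Bool} {q₀ r₀ : ℤ} {K : ℤ → ℤ → V} {q r : ℤ}
    (h : yecK w Y l o q₀ r₀ K q r ≠ 0) : K q r ≠ 0 := by
  unfold yecK at h
  split_ifs at h
  · exact absurd rfl h
  · exact h

theorem yecK_isKer {V : Type*} [Zero V] {w Y : Ln ι nx'} {l : ℕ} (hY : Y.IsPer l) {o : Bool} {q₀ r₀ : ℤ}
    (hm₀ : Mt w Y o q₀ r₀) {K : ℤ → ℤ → V} (hK : IsKer w Y K) : IsKer w Y (yecK w Y l o q₀ r₀ K) where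
  vx a q h := hK.vx a q (yecK_ne h)
  le o' a q hm h := hK.le o' a q hm (yecK_ne h)
  step o' a q hm hl := by
    unfold yecK
    rw [hK.step o' a q hm hl]
    by_cases hc : yecCl w Y l o q₀ r₀ a q
    · rw [if_pos hc, if_pos ((yec_cl_step_iff hY hm₀ hm hl).2 hc)]
    · rw [if_neg hc, if_neg (fun h => hc ((yec_cl_step_iff hY hm₀ hm hl).1 h))]
  fin o' e a q hm h := hK.fin o' e a q hm (yecK_ne h)

end yec

theorem yec_diff {w Y : Ln (Fin D.nV) nx} {lY : ℕ} {V : Type} [AddCommGroup V] [Module k V]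
    (T : V ≃ₗ[k] V) (K : ℤ → ℤ → V) (hK : IsKer w Y K) (hT : ∀ q r, T (K q (r + lY)) = K q r)
    (γ : ℤ → V →ₗ[k] k) (hγ : ∀ r v, γ (r + lY) v = γ r (T v)) (C : Finset (ZMod lY))
    (hC : ∀ z, z ∉ C → ∀ q, K q (cst z) = 0) {o : Bool} {q₀ r₀ : ℤ} (hm₀ : Mt w Y o q₀ r₀) (q : ℤ) :
    ∑ z ∈ C, γ (cst z) (K q (cst z)) = pull w Y o q₀ r₀ (fun r' => γ r' (K q₀ r₀)) q +
      ∑ z ∈ C, γ (cst z) (yecK w Y lY o q₀ r₀ K q (cst z)) := by
  classical
  have hper : Per lY (fun r => γ r (K q r)) := by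
    intro r
    show γ (r + lY) (K q (r + lY)) = γ r (K q r)
    rw [hγ, hT]
  have hsub : ∑ z ∈ C, γ (cst z) (K q (cst z)) - ∑ z ∈ C, γ (cst z) (yecK w Y lY o q₀ r₀ K q (cst z)) =
      ∑ z ∈ C, if yecCl w Y lY o q₀ r₀ q (cst z) then γ (cst z) (K q (cst z)) else 0 := by
    rw [← Finset.sum_sub_distrib]
    refine Finset.sum_congr rfl ?_
    intro z _
    unfold yecK
    split_ifs
    · rw [map_zero, sub_zero]
    · rw [sub_self]
  rw [← sub_eq_iff_eq_add, hsub]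
  by_cases h : ∃ r', Cn w Y o q₀ r₀ q r'
  · obtain ⟨r', hr'⟩ := h
    rw [pull_eq hr']
    show _ = γ r' (K q₀ r₀)
    rw [← hr'.ker hK hm₀]
    obtain ⟨j, hj⟩ := cst_int (l := lY) r'
    have h1 : yecCl w Y lY o q₀ r₀ q (cst ((r' : ℤ) : ZMod lY)) := by
      refine ⟨-j, ?_⟩
      rwa [hj, show r' + j * (lY : ℤ) + -j * lY = r' by ring]
    have h2 : ∀ z : ZMod lY, yecCl w Y lY o q₀ r₀ q (cst z) → z = ((r' : ℤ) : ZMod lY) := by
      rintro z ⟨i, hi⟩
      have h3 := hr'.unique_right hi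
      rw [h3]
      push_cast
      rw [cst_coe]
      simp
    have h4 : γ (cst ((r' : ℤ) : ZMod lY)) (K q (cst ((r' : ℤ) : ZMod lY))) = γ r' (K q r') := hper.cst r'
    by_cases hz : ((r' : ℤ) : ZMod lY) ∈ C
    · rw [Finset.sum_eq_single_of_mem _ hz, if_pos h1, h4]
      intro z _ hne
      rw [if_neg]
      exact fun hh => hne (h2 z hh)
    · rw [hC _ hz, map_zero] at h4
      rw [← h4]
      refine Finset.sum_eq_zero ?_
      intro z hzC
      rw [if_neg]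
      intro hh
      exact hz (h2 z hh ▸ hzC)
  · rw [pull_zero h]
    refine Finset.sum_eq_zero ?_
    intro z _
    rw [if_neg]
    rintro ⟨i, hi⟩
    exact h ⟨_, hi⟩

/-- The mirrored statement: a kernel `K` from `w` to a periodic line `Y` with finite classes, on a finite set `E` of positions of `w`.

Proof: as for `dec_in` in YEb.lean (read its docstring), by strong induction on the number of pairs `(q, z) ∈ E ×ˢ C` with `K q (cst z) ≠ 0`; `Cl q r := ∃ j : ℤ, Cn w Y o q₀ r₀ q (r + j * lY)`, `r₀ := cst z₀`, `y := K q₀ r₀`,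
`Cn.unique_right`, and `r ↦ γ r (K q r)` has the period `lY` (`γ (r + lY) v = γ r (T v)`, `T (K q (r + lY)) = K q r`). -/
theorem dec_out {w Y : Ln (Fin D.nV) nx} {lY : ℕ} (hY : Y.IsPer lY) {V : Type} [AddCommGroup V] [Module k V]
    (T : V ≃ₗ[k] V) (K : ℤ → ℤ → V) (hK : IsKer w Y K) (hT : ∀ q r, T (K q (r + lY)) = K q r)
    (γ : ℤ → V →ₗ[k] k) (hγ : ∀ r v, γ (r + lY) v = γ r (T v)) (C : Finset (ZMod lY))
    (hC : ∀ z, z ∉ C → ∀ q, K q (cst z) = 0) (E : Finset ℤ) :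
    ∃ (n : ℕ) (o : Fin n → Bool) (q₀ r₀ : Fin n → ℤ) (y : Fin n → V),
      (∀ i, Mt w Y (o i) (q₀ i) (r₀ i) ∧ LeD w Y (o i) (q₀ i) (r₀ i) ∧ FinCl w Y (o i) (q₀ i) (r₀ i) ∧
        K (q₀ i) (r₀ i) ≠ 0) ∧
      ∀ q ∈ E, ∑ z ∈ C, γ (cst z) (K q (cst z)) = ∑ i, pull w Y (o i) (q₀ i) (r₀ i) (fun r' => γ r' (y i)) q := by
  classical
  obtain ⟨m, hm⟩ : ∃ m, ((E ×ˢ C).filter (fun x => K x.1 (cst x.2) ≠ 0)).card = m := ⟨_, rfl⟩
  induction m using Nat.strong_induction_on generalizing K with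
  | _ m ih =>
    by_cases hne : ((E ×ˢ C).filter (fun x => K x.1 (cst x.2) ≠ 0)).Nonempty
    · obtain ⟨⟨q₀, z₀⟩, hx⟩ := hne
      rw [Finset.mem_filter, Finset.mem_product] at hx
      obtain ⟨⟨hq₀, hz₀⟩, hK₀⟩ := hx
      simp only at hq₀ hz₀ hK₀
      set r₀ : ℤ := cst z₀ with hr₀
      set o : Bool := (w.r q₀ == Y.r r₀) with ho
      have hm₀ : Mt w Y o q₀ r₀ := ⟨hK.vx _ _ hK₀, rfl⟩
      have hle₀ : LeD w Y o q₀ r₀ := hK.le _ _ _ hm₀ hK₀
      have hfin₀ : FinCl w Y o q₀ r₀ := fun e => hK.fin _ e _ _ hm₀ hK₀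
      have hlt : ((E ×ˢ C).filter (fun x => yecK w Y lY o q₀ r₀ K x.1 (cst x.2) ≠ 0)).card < m := by
        rw [← hm]
        apply Finset.card_lt_card
        rw [Finset.ssubset_iff_of_subset]
        · refine ⟨(q₀, z₀), ?_, ?_⟩
          · rw [Finset.mem_filter, Finset.mem_product]
            exact ⟨⟨hq₀, hz₀⟩, hK₀⟩
          · rw [Finset.mem_filter]
            rintro ⟨-, h⟩
            apply h
            unfold yecK
            rw [if_pos]
            refine ⟨0, ?_⟩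
            show Cn w Y o q₀ r₀ q₀ (r₀ + 0 * lY)
            rw [zero_mul, add_zero]
            exact Cn.refl
        · intro x hx
          rw [Finset.mem_filter] at hx ⊢
          exact ⟨hx.1, yecK_ne hx.2⟩
      obtain ⟨n, o', q₀', r₀', y', h1, h2⟩ := ih _ hlt (yecK w Y lY o q₀ r₀ K) (yecK_isKer hY hm₀ hK)
        (by
          intro q r
          unfold yecK
          by_cases hc : yecCl w Y lY o q₀ r₀ q r
          · rw [if_pos hc, if_pos (yec_cl_per.2 hc), map_zero]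
          · rw [if_neg hc, if_neg (fun h => hc (yec_cl_per.1 h)), hT])
        (by
          intro z hz q
          unfold yecK
          rw [hC z hz q, ite_self])
        rfl
      refine ⟨n + 1, Fin.cons o o', Fin.cons q₀ q₀', Fin.cons r₀ r₀', Fin.cons (K q₀ r₀) y', ?_, ?_⟩
      · intro i
        refine Fin.cases ?_ ?_ i
        · simp only [Fin.cons_zero]
          exact ⟨hm₀, hle₀, hfin₀, hK₀⟩
        · intro i
          simp only [Fin.cons_succ]
          exact ⟨(h1 i).1, (h1 i).2.1, (h1 i).2.2.1, yecK_ne (h1 i).2.2.2⟩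
      · intro q hq
        rw [yec_diff T K hK hT γ hγ C hC hm₀ q, h2 q hq, Fin.sum_univ_succ]
        simp only [Fin.cons_zero, Fin.cons_succ]
    · refine ⟨0, Fin.elim0, Fin.elim0, Fin.elim0, Fin.elim0, fun i => i.elim0, ?_⟩
      intro q hq
      rw [Finset.univ_eq_empty, Finset.sum_empty]
      refine Finset.sum_eq_zero ?_
      intro z hz
      by_contra hcon
      apply hne
      refine ⟨(q, z), ?_⟩
      rw [Finset.mem_filter, Finset.mem_product]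
      refine ⟨⟨hq, hz⟩, ?_⟩
      intro h0
      apply hcon
      show γ (cst z) (K q (cst z)) = 0
      have h0' : K q (cst z) = 0 := h0
      rw [h0', map_zero]

end StrAlg
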