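import Pool.Agent.Lib.MP_b9fd58_lc.YEb
import Pool.Agent.Lib.MP_b9fd58_lc.YEc
import Pool.Agent.Lib.MP_b9fd58_lc.If2Defs
import Pool.Agent.Lib.MP_b9fd58_lc.GThA

/-!
# Stage 2, job YEf: values of homomorphisms as sums of values of graph maps
-/

set_option autoImplicit false

namespace StrAlg

open Module

variable {D : Dat} {k : Type} [Field k] {S : Sides D}

/-- the general form of `in_sum` -/
theorem yef_in (w : Str S) {x : Str S} {lX : ℕ} {V : Type} [AddCommGroup V] [Module k V] {T : V ≃ₗ[k] V}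
    (hx : x.PerOK lX T) (fin : lX = 0 → x.Z.Finite) (a : (x.ME lX T hx).C)
    (f : (x.ME lX T hx).C →ₗ[k] (w.Mloc k).C) (hf : (x.ME lX T hx).Hom (w.Mloc k) f) (B : Finset ℤ)
    (hB : ∀ (p : ℤ) v, ∀ q, q ∉ B → cfL w (f (ioE hx p v)) q = 0) :
    ∃ (n : ℕ) (o : Fin n → Bool) (c₀ q₀ : Fin n → ℤ) (φ : Fin n → V →ₗ[k] k),
      (∀ i, Ord x w (o i) (c₀ i) (q₀ i) ∧
        ∀ q, q ∉ B → push x.L w.L (o i) (c₀ i) (q₀ i) (fun c' => φ i (cfE hx a c')) q = 0) ∧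
      cfL w (f a) = ∑ i, push x.L w.L (o i) (c₀ i) (q₀ i) (fun c' => φ i (cfE hx a c')) := by
  classical
  have hF0 : IsKer0 x.L w.L (fun p q => xiL w q ∘ₗ (f ∘ₗ ioE hx p)) := by
    refine (ker_KH (fun a v => ioE_map_ch hx hf a v) (xiL_dc w) ?_ ?_).isKer0 x.ok w.ok
    · intro p hp
      refine x.Zabs p (ioE_ne hx ?_)
      rintro h0
      apply hp; rw [h0, LinearMap.comp_zero]
    · intro q hq
      exact w.Zabs q (xiL_ne w hq)
  have hE : ∀ q, q ∉ B → ∀ p, xiL w q ∘ₗ (f ∘ₗ ioE hx p) = 0 := by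
    intro q hq p
    refine LinearMap.ext fun v => ?_
    exact hB p v q hq
  have hF : IsKer x.L w.L (fun p q => xiL w q ∘ₗ (f ∘ₗ ioE hx p)) := by
    refine hF0.isKer_of_supp' B ?_
    intro p q hne
    by_contra hcon
    exact hne (hE q hcon p)
  have hA := repZ_spec x lX fin
  obtain ⟨n, o, c₀, q₀, φ, h1, h2⟩ := dec_in hx.per T (fun p q => xiL w q ∘ₗ (f ∘ₗ ioE hx p)) hF
    (by
      intro p q v
      show xiL w q (f (ioE hx (p + lX) v)) = xiL w q (f (ioE hx p (T v)))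
      rw [ioE_add_l])
    (cfE hx a) (cfE_per hx a) (repZ x lX fin)
    (by
      intro y hy q
      rw [ioE_zero hx (hA y hy), LinearMap.comp_zero, LinearMap.comp_zero])
    B hE
  refine ⟨n, o, c₀, q₀, φ, fun i => ⟨?_, ?_⟩, ?_⟩
  · obtain ⟨g1, g2, g3, g4⟩ := h1 i
    refine ⟨?_, ?_, g1, g2, g3⟩
    · refine ioE_ne hx ?_
      intro h0
      apply g4
      show xiL w (q₀ i) ∘ₗ (f ∘ₗ ioE hx (c₀ i)) = 0
      rw [h0, LinearMap.comp_zero, LinearMap.comp_zero]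
    · refine xiL_ne (k := k) w ?_
      intro h0
      apply g4
      show xiL w (q₀ i) ∘ₗ (f ∘ₗ ioE hx (c₀ i)) = 0
      rw [h0, LinearMap.zero_comp]
  · intro q hq
    obtain ⟨g1, g2, g3, g4⟩ := h1 i
    apply push_zero
    rintro ⟨c', hc'⟩
    apply g4
    obtain ⟨e, m, h3, h4, h5⟩ := hc'
    have h6 := hF.walk g1 h3
    rw [← h4, ← h5] at h6
    exact h6.symm.trans (hE q hq c')
  · funext q
    rw [Finset.sum_apply, ← h2 q]
    conv_lhs => rw [ME_decomp hx a (repZ x lX fin) hA, map_sum, map_sum, Finset.sum_apply]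
    rfl

/-- the general form of `out_sum` -/
theorem yef_out (w : Str S) {y : Str S} {lY : ℕ} {V : Type} [AddCommGroup V] [Module k V] {T : V ≃ₗ[k] V}
    (hy : y.PerOK lY T) (fin : lY = 0 → y.Z.Finite) (b : (y.ME lY T hy).C →ₗ[k] k)
    (G : (w.Mloc k).C →ₗ[k] (y.ME lY T hy).C)
    (hK : IsKer w.L y.L (fun q r => xiE hy r (G (zL w q)))) (E : Finset ℤ) :
    ∃ (n : ℕ) (o : Fin n → Bool) (q₀ r₀ : Fin n → ℤ) (v : Fin n → V),
      (∀ i, Ord w y (o i) (q₀ i) (r₀ i)) ∧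
      ∀ q ∈ E, b (G (zL w q)) = ∑ i, pull w.L y.L (o i) (q₀ i) (r₀ i) (fun r' => b (ioE hy r' (v i))) q := by
  classical
  have hC := repZ_spec y lY fin
  obtain ⟨n, o, q₀, r₀, v, h1, h2⟩ := dec_out hy.per T (fun q r => xiE hy r (G (zL w q))) hK
    (fun q r => cfE_per hy _ r) (fun r => b ∘ₗ ioE hy r)
    (by
      intro r v
      show b (ioE hy (r + lY) v) = b (ioE hy r (T v))
      rw [ioE_add_l])
    (repZ y lY fin)
    (by
      intro z hz q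
      exact cfE_zero hy (hC z hz)) E
  refine ⟨n, o, q₀, r₀, v, fun i => ?_, ?_⟩
  · obtain ⟨g1, g2, g3, g4⟩ := h1 i
    refine ⟨?_, ?_, g1, g2, g3⟩
    · by_contra hcon
      apply g4
      show xiE hy (r₀ i) (G (zL w (q₀ i))) = 0
      rw [zL_zero w hcon, map_zero, map_zero]
    · refine xiE_ne hy ?_
      intro h0
      apply g4
      show xiE hy (r₀ i) (G (zL w (q₀ i))) = 0
      rw [h0, LinearMap.zero_apply]
  · intro q hq
    have h3 := h2 q hq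
    refine Eq.trans ?_ h3
    conv_lhs => rw [ME_decomp hy (G (zL w q)) (repZ y lY fin) hC, map_sum]
    rfl

/-- The value at `a` of a homomorphism from a block with finite classes is a finite sum of functions in `GIn`.

Proof: `dec_in` for `F x q := xiL w q ∘ₗ f ∘ₗ ioE X.ok x` (a kernel with finite classes: `ker_KH` + `IsKer0.isKer_of_supp'`, see `closed_core2` in GSnd2.lean; support in `B` by `ioE_all`, see the end of the proof of
`closed_Mloc_core`), `T := X.T` (`ioE_add_l`), `c := X.fn a` (`cfE_per`), `A := repZ X.x X.l X.fin` (`repZ_spec`, `ioE_zero`). `cfL w (f a) q = ∑ x ∈ A, F (cst x) q (X.fn a (cst x))` by `ME_decomp`. Each push function is in `p.GIn w`: `F (c₀ i) (q₀ i) ≠ 0` gives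
`c₀ i ∈ X.x.Z` (`ioE_ne`), `q₀ i ∈ w.Z` (`xiL_ne`), so `Ord` holds. -/
theorem in_sum (p : NF S k) (i : Fin p.m) (w : Str S) (f : (p.X i).M.C →ₗ[k] (w.Mloc k).C)
    (hf : (p.X i).M.Hom (w.Mloc k) f) (B : Finset ℤ) (hB : ∀ (x : ℤ) v, ∀ q, q ∉ B → cfL w (f (ioE (p.X i).ok x v)) q = 0) :
    ∃ (n : ℕ) (s : Fin n → ℤ → k), (∀ j, p.GIn w (s j) ∧ ∀ q, q ∉ B → s j q = 0) ∧
      cfL w (f (p.a i)) = ∑ j, s j := by
  obtain ⟨n, o, c₀, q₀, φ, h1, h2⟩ := yef_in w (p.X i).ok (p.X i).fin (p.a i) f hf B hB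
  exact ⟨n, fun j => push (p.X i).x.L w.L (o j) (c₀ j) (q₀ j) (fun c' => φ j (cfE (p.X i).ok (p.a i) c')),
    fun j => ⟨⟨i, o j, c₀ j, q₀ j, φ j, (h1 j).1, rfl⟩, (h1 j).2⟩, h2⟩

/-- The functional `b ∘ G` on the elements `z_q`, `q ∈ E`, is a finite sum of functions in `GOut`.

Proof: `dec_out` for `K q r := xiE Y.ok r (G (zL w q))`, `γ r := b ∘ₗ ioE Y.ok r = Y.cf b r` (`Blk.iota_eq`, `ioE_add_l`), `C := repZ ..`; `b (G (zL w q)) = ∑ z ∈ C, γ (cst z) (K q (cst z))` by `ME_decomp`. `K (q₀ i) (r₀ i) ≠ 0` gives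
`r₀ i ∈ Y.x.Z` (`xiE_ne`), `q₀ i ∈ w.Z` (`zL_zero`). -/
theorem out_sum (p : NF S k) (j : Fin p.m') (w : Str S) (G : (w.Mloc k).C →ₗ[k] (p.Y j).M.C)
    (hK : IsKer w.L (p.Y j).x.L (fun q r => xiE (p.Y j).ok r (G (zL w q)))) (E : Finset ℤ) :
    ∃ (n : ℕ) (t : Fin n → ℤ → k), (∀ i, p.GOut w (t i)) ∧ ∀ q ∈ E, p.b j (G (zL w q)) = ∑ i, t i q := by
  obtain ⟨n, o, q₀, r₀, v, h1, h2⟩ := yef_out w (p.Y j).ok (p.Y j).fin (p.b j) G hK E
  refine ⟨n, fun i => pull w.L (p.Y j).x.L (o i) (q₀ i) (r₀ i) (fun r' => (p.Y j).cf (p.b j) r' (v i)),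
    fun i => ⟨j, o i, q₀ i, r₀ i, v i, h1 i, rfl⟩, ?_⟩
  intro q hq
  refine (h2 q hq).trans ?_
  refine Finset.sum_congr rfl (fun i _ => ?_)
  have h3 : (fun r' => (p.b j) (ioE (p.Y j).ok r' (v i))) = fun r' => (p.Y j).cf (p.b j) r' (v i) := by
    funext r'
    unfold Blk.cf
    rw [Blk.iota_eq]
    rfl
  exact congrArg (fun g => pull w.L (p.Y j).x.L (o i) (q₀ i) (r₀ i) g q) h3

end StrAlg
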