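import Pool.Agent.Lib.MP_b9fd58_lc.YS
import Pool.Agent.Lib.MP_b9fd58_lc.YEa
import Pool.Agent.Lib.MP_b9fd58_lc.YEf
import Pool.Agent.Lib.MP_b9fd58_lc.YEd

/-!
# Stage 2, job YEe: the rank on the localised string module
-/

set_option autoImplicit false

namespace StrAlg

open Module

variable {D : Dat} {k : Type} [Field k] {S : Sides D}

private theorem yee_sum {ι : Type} [Fintype ι] [DecidableEq ι] {X : ι → Type} [∀ i, AddCommGroup (X i)]
    [∀ i, Module k (X i)] {N : Type} [AddCommGroup N] [Module k N] (a : ∀ i, X i) (f : (∀ i, X i) →ₗ[k] N) :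
    f a = ∑ i, f (Pi.single i (a i)) := by
  conv_lhs => rw [← Finset.univ_sum_single a]
  rw [map_sum]

private theorem yee_sum_out {ι : Type} [Fintype ι] {Y : ι → Type} [∀ i, AddCommGroup (Y i)]
    [∀ i, Module k (Y i)] (b : ∀ j, Y j →ₗ[k] k) (y : ∀ j, Y j) :
    (∑ j, (b j) ∘ₗ (LinearMap.proj j : (∀ j, Y j) →ₗ[k] Y j)) y = ∑ j, b j (y j) := by
  rw [LinearMap.sum_apply]
  rfl

private theorem yee_split_in (p : NF S k) {N : Md D k} (f : p.pr.A.C →ₗ[k] N.C) (hf : p.pr.A.Hom N f) :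
    ∃ g : ∀ i, (p.X i).M.C →ₗ[k] N.C, (∀ i, (p.X i).M.Hom N (g i)) ∧ f p.pr.a = ∑ i, g i (p.a i) := by
  classical
  refine ⟨fun i => LinearMap.comp (show (∀ i, (p.X i).M.C) →ₗ[k] N.C from f)
      (LinearMap.single k (fun i => (p.X i).M.C) i), ?_, ?_⟩
  · intro i g m
    have h5 := Md.pi_op_single (fun i => (p.X i).M) g i m
    exact (congrArg f h5.symm).trans (hf g (Pi.single i m : ∀ i, (p.X i).M.C))
  · exact yee_sum (k := k) (X := fun i => (p.X i).M.C) p.a f

private theorem yee_split_out (p : NF S k) {N : Md D k} (G : N.C →ₗ[k] p.pr.B.C) (hG : N.Hom p.pr.B G) :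
    ∃ g : ∀ j, N.C →ₗ[k] (p.Y j).M.C, (∀ j, N.Hom (p.Y j).M (g j)) ∧
      ∀ n, p.pr.b (G n) = ∑ j, p.b j (g j n) := by
  classical
  refine ⟨fun j => (LinearMap.proj j : (∀ j, (p.Y j).M.C) →ₗ[k] (p.Y j).M.C) ∘ₗ
        (show N.C →ₗ[k] (∀ j, (p.Y j).M.C) from G), ?_, ?_⟩
  · intro j g n
    exact congrFun (hG g n) j
  · intro n
    exact yee_sum_out (k := k) (Y := fun j => (p.Y j).M.C) p.b (G n)

private theorem yee_comp {L M N : Md D k} {f : L.C →ₗ[k] M.C} {g : M.C →ₗ[k] N.C} (hf : L.Hom M f)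
    (hg : M.Hom N g) : L.Hom N (g ∘ₗ f) := by
  intro a m
  rw [LinearMap.comp_apply, LinearMap.comp_apply, hf, hg]

private noncomputable def yee_beta (k : Type) [Field k] (B : Finset ℤ) : (ℤ → k) →ₗ[k] (ℤ → k) →ₗ[k] k :=
  LinearMap.mk₂ k (fun s t => ∑ q ∈ B, t q * s q)
    (by
      intro s s' t
      rw [← Finset.sum_add_distrib]
      exact Finset.sum_congr rfl fun q _ => by rw [Pi.add_apply, mul_add])
    (by
      intro c s t
      rw [smul_eq_mul, Finset.mul_sum]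
      exact Finset.sum_congr rfl fun q _ => by rw [Pi.smul_apply, smul_eq_mul]; ring)
    (by
      intro s t t'
      rw [← Finset.sum_add_distrib]
      exact Finset.sum_congr rfl fun q _ => by rw [Pi.add_apply, add_mul])
    (by
      intro c s t
      rw [smul_eq_mul, Finset.mul_sum]
      exact Finset.sum_congr rfl fun q _ => by rw [Pi.smul_apply, smul_eq_mul]; ring)

private theorem yee_beta_apply (B : Finset ℤ) (s t : ℤ → k) :
    yee_beta k B s t = ∑ q ∈ B, t q * s q := rfl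

/-- **The rank of a pair on the localised string module.**

Proof. `←` is `NF.RkW.le_rk`. `→`: `Pr.rk_ge_iff` (S2B) gives `f j`, `G i` with `b (G i (f j a)) = δ_ij`. Let `f j i' := f j ∘ (inclusion of the block i')` and `G i j' := (projection to the block j') ∘ G i` (homs, see the proof of `NF.opn_iff` in GThA.lean:
`Md.pi_op_single`), so `f j a = ∑ i', f j i' (p.a i')` and `p.pr.b y = ∑ j', p.b j' (y j')`. Apply `exists_s` (YS.lean) to the finite family of elements `f j i' (ioE (cst x) (e_s))` (`j`, `i'`, `x ∈ repZ (p.X i').x ..`, `s` an index of the standard basis of `k^n`)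
and to the blocks `p.Y j'`: `σ, τ, B`. Then `σ ∘ f j i'` has all `cfL w (σ (f j i' (ioE x v)))` supported in `B` (`ioE_all`), and `G i j' ∘ τ = (G i j' ∘ τ ∘ τ) ∘ σ` has a kernel with finite classes.
`δ_ij = ∑_{j'} p.b j' (G i j' (τ (∑_{i'} σ (f j i' (p.a i')))))`, `m_j := ∑_{i'} σ (f j i' (p.a i')) = ∑ q ∈ B, cfL w m_j q • zL w q` (`ML_decomp`), so `δ_ij = ∑ q ∈ B, t'_i q * s'_j q` with `s'_j := cfL w m_j`, `t'_i q := ∑_{j'} p.b j' (G i j' (τ (zL w q)))`.
By `in_sum` `s'_j` is in the span of `A₀ := {s | p.GIn w s ∧ ∀ q ∉ B, s q = 0}`; by `out_sum` with `E := B` there is `t''_i` in the span of `B₀ := {t | p.GOut w t}` with `t''_i = t'_i` on `B`. `exists_det_ne` for the form `β s t := ∑ q ∈ B, t q * s q` gives `s_j ∈ A₀`, `t_i ∈ B₀` with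
`det (∑ q ∈ B, t_i q * s_j q) ≠ 0`, and `∑ q ∈ B, t_i q * s_j q = ∑ᶠ q, t_i q * s_j q` since `s_j` is `0` outside `B`. -/
theorem NF.rk_Mloc (p : NF S k) (w : Str S) (hw : w.Aper) (n : ℕ) : (n : ℕ∞) ≤ p.pr.rk (w.Mloc k) ↔ p.RkW w n := by
  classical
  refine ⟨fun h => ?_, fun h => h.le_rk⟩
  obtain ⟨f, G, hf, hG, hδ⟩ := (p.pr.rk_ge_iff (w.Mloc k) n).1 h
  choose fI hfI hfa using fun j => yee_split_in p (f j) (hf j)
  choose GJ hGJ hGb using fun i => yee_split_out p (G i) (hG i)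
  -- the operator
  obtain ⟨σ, τ, B, hσ, hτ, -, hτσ, hBs, hKer, -⟩ := exists_s w hw
    (ι := Σ i : Fin p.m, Fin n × ZMod (p.X i).l × Fin (p.X i).n)
    ((Finset.univ : Finset (Fin p.m)).sigma fun i => (Finset.univ : Finset (Fin n)) ×ˢ
      ((repZ (p.X i).x (p.X i).l (p.X i).fin) ×ˢ (Finset.univ : Finset (Fin (p.X i).n))))
    (fun z => fI z.2.1 z.1 (ioE (p.X z.1).ok (cst z.2.2.1) (Pi.single z.2.2.2 1))) p.Y
  have hB : ∀ (j : Fin n) (i : Fin p.m) (x : ℤ) (v : Fin (p.X i).n → k), ∀ q, q ∉ B →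
      cfL w ((σ ∘ₗ fI j i) (ioE (p.X i).ok x v)) q = 0 := by
    intro j i x v
    refine ioE_all (p.X i).ok (σ ∘ₗ fI j i) (fun m => ∀ q, q ∉ B → cfL w m q = 0)
      (repZ (p.X i).x (p.X i).l (p.X i).fin) (repZ_spec _ _ _) (fun q _ => by rw [map_zero]; rfl) ?_ x v
    intro y hy v q hq
    have e1 : v = ∑ s, v s • (Pi.single s 1 : Fin (p.X i).n → k) := by
      have h1 := (Finset.univ_sum_single v).symm
      refine h1.trans (Finset.sum_congr rfl fun s _ => ?_)
      rw [← Pi.single_smul', smul_eq_mul, mul_one]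
    rw [e1, map_sum, map_sum, map_sum, Finset.sum_apply]
    refine Finset.sum_eq_zero fun s _ => ?_
    rw [map_smul, map_smul, map_smul, Pi.smul_apply]
    have h3 : cfL w (σ (fI j i (ioE (p.X i).ok (cst y) (Pi.single s 1)))) q = 0 :=
      hBs ⟨i, (j, (y, s))⟩ (by
        rw [Finset.mem_sigma]
        refine ⟨Finset.mem_univ _, ?_⟩
        rw [Finset.mem_product, Finset.mem_product]
        exact ⟨Finset.mem_univ _, hy, Finset.mem_univ _⟩) q hq
    exact (congrArg (fun z => v s • z) h3).trans (smul_zero _)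
  -- the source side
  choose nn ss hss hsum using fun (j : Fin n) (i : Fin p.m) =>
    in_sum p i w (σ ∘ₗ fI j i) (yee_comp (hfI j i) hσ) B (hB j i)
  -- the target side
  have hKer' : ∀ (i : Fin n) (j : Fin p.m'), IsKer w.L (p.Y j).x.L
      (fun q r => xiE (p.Y j).ok r ((GJ i j ∘ₗ τ) (zL w q))) := by
    intro i j
    have h1 := hKer j (GJ i j ∘ₗ (τ ∘ₗ τ)) (yee_comp (yee_comp hτ hτ) (hGJ i j))
    have h2 : (fun q r => xiE (p.Y j).ok r ((GJ i j ∘ₗ (τ ∘ₗ τ)) (σ (zL w q)))) =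
        fun q r => xiE (p.Y j).ok r ((GJ i j ∘ₗ τ) (zL w q)) := by
      funext q r
      rw [LinearMap.comp_apply, LinearMap.comp_apply, LinearMap.comp_apply, hτσ]
    rw [h2] at h1
    exact h1
  choose nt tt htt htsum using fun (i : Fin n) (j : Fin p.m') =>
    out_sum p j w (GJ i j ∘ₗ τ) (hKer' i j) B
  obtain ⟨x, hx⟩ : ∃ x : Fin n → ℤ → k, x = fun j => ∑ i : Fin p.m, ∑ l, ss j i l := ⟨_, rfl⟩
  obtain ⟨y, hy⟩ : ∃ y : Fin n → ℤ → k, y = fun i => ∑ j : Fin p.m', ∑ l, tt i j l := ⟨_, rfl⟩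
  have hxm : ∀ j, x j = cfL w (σ (f j p.pr.a)) := by
    intro j
    rw [hx, hfa j, map_sum, map_sum]
    exact Finset.sum_congr rfl fun i _ => (hsum j i).symm
  have hx0 : ∀ j q, q ∉ B → x j q = 0 := by
    intro j q hq
    rw [hx]
    show (∑ i : Fin p.m, ∑ l, ss j i l) q = 0
    rw [Finset.sum_apply]
    refine Finset.sum_eq_zero fun i _ => ?_
    rw [Finset.sum_apply]
    exact Finset.sum_eq_zero fun l _ => (hss j i l).2 q hq
  have hyB : ∀ i, ∀ q ∈ B, y i q = ∑ j, p.b j (GJ i j (τ (zL w q))) := by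
    intro i q hq
    rw [hy]
    show (∑ j : Fin p.m', ∑ l, tt i j l) q = _
    rw [Finset.sum_apply]
    refine Finset.sum_congr rfl fun j _ => ?_
    rw [Finset.sum_apply]
    exact (htsum i j q hq).symm
  have hval : ∀ i j, yee_beta k B (x j) (y i) = if i = j then 1 else 0 := by
    intro i j
    rw [← hδ i j, hGb i]
    have e1 : f j p.pr.a = τ (∑ q ∈ B, x j q • zL w q) := by
      have e2 : σ (f j p.pr.a) = ∑ q ∈ B, cfL w (σ (f j p.pr.a)) q • zL w q :=
        ML_decomp w _ B (fun q hq => by rw [← hxm j]; exact hx0 j q hq)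
      rw [hxm j, ← e2, hτσ]
    rw [e1, map_sum, yee_beta_apply]
    have e3 : ∀ l : Fin p.m', p.b l (GJ i l (∑ q ∈ B, τ (x j q • zL w q))) =
        ∑ q ∈ B, p.b l (GJ i l (τ (zL w q))) * x j q := by
      intro l
      rw [map_sum, map_sum]
      refine Finset.sum_congr rfl fun q _ => ?_
      rw [map_smul, map_smul, map_smul, smul_eq_mul, mul_comm]
    rw [Finset.sum_congr rfl fun l _ => e3 l, Finset.sum_comm]
    refine Finset.sum_congr rfl fun q hq => ?_
    rw [hyB i q hq, Finset.sum_mul]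
  have hdet : (Matrix.of fun i j => yee_beta k B (x j) (y i)).det ≠ 0 := by
    have e1 : (Matrix.of fun i j => yee_beta k B (x j) (y i)) = (1 : Matrix (Fin n) (Fin n) k) := by
      ext i j
      rw [Matrix.of_apply, hval, Matrix.one_apply]
    rw [e1, Matrix.det_one]
    exact one_ne_zero
  obtain ⟨x', y', hx', hy', hd⟩ := exists_det_ne (yee_beta k B)
    {s | p.GIn w s ∧ ∀ q, q ∉ B → s q = 0} {t | p.GOut w t} n x y
    (fun j => by
      rw [hx]
      exact Submodule.sum_mem _ fun i _ => Submodule.sum_mem _ fun l _ =>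
        Submodule.subset_span ⟨(hss j i l).1, (hss j i l).2⟩)
    (fun i => by
      rw [hy]
      exact Submodule.sum_mem _ fun j _ => Submodule.sum_mem _ fun l _ =>
        Submodule.subset_span (htt i j l)) hdet
  refine ⟨x', y', fun j => (hx' j).1, hy', ?_⟩
  have e1 : (Matrix.of fun i j => ∑ᶠ q, y' i q * x' j q) =
      Matrix.of fun i j => yee_beta k B (x' j) (y' i) := by
    ext i j
    rw [Matrix.of_apply, Matrix.of_apply, yee_beta_apply]
    refine finsum_eq_sum_of_support_subset _ ?_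
    intro q hq
    by_contra hcon
    apply hq
    show y' i q * x' j q = 0
    rw [(hx' j).2 q hcon, mul_zero]
  rw [e1]
  exact hd

end StrAlg
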