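import Pool.Agent.Lib.MP_b9fd58_lc.S2G
import Pool.Agent.Lib.MP_b9fd58_lc.S2B
import Pool.Agent.Lib.MP_b9fd58_lc.YEe

/-!
# Stage 2, S2S: ranks on the localised string module
-/

set_option autoImplicit false

namespace StrAlg

open Module

variable {D : Dat} {k : Type} [Field k] {S : Sides D}

/-- **Ranks on `M^loc(w)`.** -/
theorem rk_Mloc (w : Str S) (hw : w.Aper) (p : NF S k) (n : ℕ) : (n : ℕ∞) ≤ p.pr.rk (w.Mloc k) ↔ p.RkW w n :=
  p.rk_Mloc w hw n

end StrAlg
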