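import Pool.Agent.Lib.MP_b9fd58_lc.K2Snd
import Pool.Agent.Lib.MP_b9fd58_lc.K2Fa
import Pool.Agent.Lib.MP_b9fd58_lc.K2Fb
import Pool.Agent.Lib.MP_b9fd58_lc.K2S
import Pool.Agent.Lib.MP_b9fd58_lc.K2Str
import Pool.Agent.Lib.MP_b9fd58_lc.K2RowP
import Pool.Agent.Lib.MP_b9fd58_lc.K2RowA
import Pool.Agent.Lib.MP_b9fd58_lc.KCan
import Pool.Agent.Lib.MP_b9fd58_lc.KPr
import Pool.Agent.Lib.MP_b9fd58_lc.S2S

/-!
# Stream K2: soundness and completeness of the codes of components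
-/

set_option autoImplicit false

namespace StrAlg

open Module Polynomial

variable {D : Dat} {k : Type} [Field k] {S : Sides D}

theorem K2CcC_not_aper {b : Str S} {l : ℕ} (hl : b.MinPer l) : ¬ b.Aper := fun h => h l hl.1 hl.2.1

theorem K2CcC_sep {Can : Set (Str S)} (hC : CanOK Can) {b : Str S} (hb : b ∈ Can) {l : ℕ} (hl : b.MinPer l)
    {p : NF S k} (hp : p.InCan Can) : p.Sep b := by
  refine ⟨fun i hi => ?_, fun j hj => ?_⟩
  · obtain ⟨r, hr, r', hr', hal⟩ := hi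
    exact (hC.uniq b hb _ (hp.1 i) (K2CcC_not_aper hl) r' hr' r hr (al_symm hal)).symm
  · obtain ⟨r, hr, r', hr', hal⟩ := hj
    exact (hC.uniq b hb _ (hp.2 j) (K2CcC_not_aper hl) r' hr' r hr (al_symm hal)).symm

/-- both statements for one pair from the rank formula -/
theorem K2CcC_P {p : NC D k} (hp : ncOk S p) {c : BC D k} (hc : bcOk S c) (band : c.1 = true) (π : List k)
    (hπ : polOf π ≠ 0) {x : ℕ∞} (hsep : (ncDec S p).Sep (bcBlk S c hc).x)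
    (h1 : (ncDec S p).Crit (bcBlk S c hc).x → x = finrank k ((ncDec S p).UPrim (bcBlk S c hc).x (polOf π)))
    (h2 : ¬ (ncDec S p).Crit (bcBlk S c hc).x → x = ⊤) (n : ℕ) :
    ((n : ℕ∞) ≤ x → ∃ B : ℕ, ncBig p B ∧ scBig (bcS c) B ∧ geP B p c π n) ∧
      (x = (n : ℕ∞) → ∃ B : ℕ, ncBig p B ∧ scBig (bcS c) B ∧ eqP B p c π n) := by
  obtain ⟨B, bc, bp, -⟩ := exists_big (bcS c) p []
  have e1 : (ncDec S p).Crit (bcBlk S c hc).x ↔ ncCritC B p (bcS c) := Crit_iff_ncCritC hp hc.1 bp bc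
  have e2 : sepC B p c := (sepC_iff hp hc bp bc band).1 hsep
  obtain ⟨h, N, hpr⟩ := exists_primPC hp hc band bp bc π hπ
  have e3 := rowsP_rank hp hc band bp bc π h N hpr
  constructor
  · intro hn
    refine ⟨B, bp, bc, e2, ?_⟩
    by_cases hcr : (ncDec S p).Crit (bcBlk S c hc).x
    · refine Or.inr ⟨h, N, hpr, (rkGe_iff _ _).2 ?_⟩
      rw [h1 hcr, e3] at hn
      exact_mod_cast hn
    · exact Or.inl fun hh => hcr (e1.2 hh)
  · intro hn
    have hcr : (ncDec S p).Crit (bcBlk S c hc).x := by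
      by_contra hcr
      rw [h2 hcr] at hn
      exact ENat.top_ne_natCast n hn
    rw [h1 hcr, e3] at hn
    have hn' : finrank k (rowSp (rowsP B p c π h N)) = n := by exact_mod_cast hn
    exact ⟨B, bp, bc, e2, e1.1 hcr, h, N, hpr, (rkGe_iff _ _).2 hn'.ge, (rkLe_iff _ _).2 hn'.le⟩

theorem K2CcC_A {p : NC D k} (hp : ncOk S p) {c : BC D k} (hc : bcOk S c) (band : c.1 = true) (π : List k)
    (hπ : polOf π ≠ 0) {x : ℕ∞} (hsep : (ncDec S p).Sep (bcBlk S c hc).x)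
    (h1 : (ncDec S p).Crit (bcBlk S c hc).x → x = finrank k ((ncDec S p).LPrim (bcBlk S c hc).x (polOf π)))
    (h2 : ¬ (ncDec S p).Crit (bcBlk S c hc).x → x = ⊤) (n : ℕ) :
    ((n : ℕ∞) ≤ x → ∃ B : ℕ, ncBig p B ∧ scBig (bcS c) B ∧ geA B p c π n) ∧
      (x = (n : ℕ∞) → ∃ B : ℕ, ncBig p B ∧ scBig (bcS c) B ∧ eqA B p c π n) := by
  obtain ⟨B, bc, bp, -⟩ := exists_big (bcS c) p []
  have e1 : (ncDec S p).Crit (bcBlk S c hc).x ↔ ncCritC B p (bcS c) := Crit_iff_ncCritC hp hc.1 bp bc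
  have e2 : sepC B p c := (sepC_iff hp hc bp bc band).1 hsep
  obtain ⟨h, N, hpr⟩ := exists_primAC hp hc band bp bc π hπ
  have e3 := rowsA_rank hp hc band bp bc π h N hpr
  constructor
  · intro hn
    refine ⟨B, bp, bc, e2, ?_⟩
    by_cases hcr : (ncDec S p).Crit (bcBlk S c hc).x
    · refine Or.inr ⟨h, N, hpr, (rkGe_iff _ _).2 ?_⟩
      rw [h1 hcr, e3] at hn
      exact_mod_cast hn
    · exact Or.inl fun hh => hcr (e1.2 hh)
  · intro hn
    have hcr : (ncDec S p).Crit (bcBlk S c hc).x := by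
      by_contra hcr
      rw [h2 hcr] at hn
      exact ENat.top_ne_natCast n hn
    rw [h1 hcr, e3] at hn
    have hn' : finrank k (rowSp (rowsA B p c π h N)) = n := by exact_mod_cast hn
    exact ⟨B, bp, bc, e2, e1.1 hcr, h, N, hpr, (rkGe_iff _ _).2 hn'.ge, (rkLe_iff _ _).2 hn'.le⟩

/-- the code of a band and a polynomial -/
theorem K2CcC_code {b : Str S} {l : ℕ} (hl : b.MinPer l) (π : k[X]) (hπ : Irreducible π) (h0 : π.coeff 0 ≠ 0) :
    ∃ (P : List (Rc D)) (hc : bcOk S ((true, P, 0, [], []) : BC D k)) (πl : List k),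
      (bcBlk S (true, P, 0, [], []) hc).x = b ∧ polOf πl = π ∧ polOkC πl := by
  obtain ⟨P, hc, -, hx⟩ := exists_band_code (k := k) hl 0 [] [] (Subsingleton.elim _ _) (Subsingleton.elim _ _)
  obtain ⟨πl, hπl⟩ := exists_polOf π
  refine ⟨P, hc, πl, hx, hπl, (polOkC_iff πl).2 ?_⟩
  rw [hπl]
  exact ⟨hπ.natDegree_pos, h0⟩

/-- Cases of `CompOK`:
`F`: `exists_fm`, `Pr.rk_iso`, `Pr.rk_pp` with `ncPr_spec`, `fGe_iff`, `fLe_iff`; code `(0, N, (([],[]),([],[])), (false, [], 0, [], []), [])`.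
`S w`: `exists_code w h2` gives `c` with `Matches w c`, `hw : scOk S c := Matches.scOk`, `aperC_iff`, `rk_Mloc w h1`, `RkW_congr h (Matches.self hw)`,
`geS_compl`, `eqS_compl` (`rk = n` iff `RkW n ∧ ¬ RkW (n + 1)`).
`P b`: `exists_band_code hl 0 [] []` gives a code `c` of a block with the string `b`; `exists_polOf`, `IsPR.coeff_ne`; `p.Sep b` from `CanOK.uniq`
(`al_symm`, `b` is not `Aper`), so `sepC` (`sepC_iff`), `B` from `exists_big`; if `p.Crit b`: `rkP`, `exists_primPC`, `rowsP_rank`, `rkGe_iff`, `rkLe_iff`; if not: `rkP_top`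
(then `rk = n` is impossible).
`A b`: the same with `rkA`, `rkA_top`, `exists_primAC`, `rowsA_rank`. -/
theorem cc_compl (Can : Set (Str S)) (hC : CanOK Can) (M : Md D k) (hM : CompOK Can M) :
    ∃ d : CC D k, ccOk S d ∧ ∀ p : NC D k, ncOk S p → (ncDec S p).InCan Can → ∀ n : ℕ,
      ((n : ℕ∞) ≤ (ncDec S p).pr.rk M → ccGe S d p n) ∧ ((ncDec S p).pr.rk M = (n : ℕ∞) → ccEq S d p n) := by
  cases hM with
  | F N h =>
    obtain ⟨c, hc, hiso⟩ := exists_fm M h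
    refine ⟨(0, c, (([], []), ([], [])), (false, [], 0, [], []), []), Or.inl ⟨rfl, hc⟩, fun p hp _ n => ?_⟩
    have h1 : (fmQ c hc).rank (ncPr S p).1 (ncPr S p).2 = (ncDec S p).pr.rk M := by
      rw [← (ncDec S p).pr.rk_iso hiso]
      exact Pr.rk_pp (N := (⟨Fin c.1 → k, fmQ c hc⟩ : Md D k)) (ncPr_spec hp _).1 (ncPr_spec hp _).2
    rw [← h1]
    refine ⟨fun hn => Or.inl ⟨rfl, (fGe_iff hc _ _ n).2 hn⟩, fun hn => Or.inl ⟨rfl, ?_, ?_⟩⟩
    · exact (fGe_iff hc _ _ n).2 hn.ge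
    · exact (fLe_iff hc _ _ n).2 hn.le
  | S w h1 h2 =>
    obtain ⟨c, hc⟩ := exists_code w h2
    have hw := hc.scOk
    refine ⟨(1, (0, []), c, (false, [], 0, [], []), []), Or.inr (Or.inl ⟨rfl, hw, (aperC_iff hc).1 h1⟩),
      fun p hp _ n => ?_⟩
    have h3 : ∀ n : ℕ, (n : ℕ∞) ≤ (ncDec S p).pr.rk (w.Mloc k) ↔ (ncDec S p).RkW (scStr S c hw) n := fun n =>
      (rk_Mloc w h1 (ncDec S p) n).trans (RkW_congr hc (Matches.self hw) (ncDec S p) n)
    refine ⟨fun hn => Or.inr (Or.inl ⟨rfl, geS_compl hp hw ((h3 n).1 hn)⟩),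
      fun hn => Or.inr (Or.inl ⟨rfl, eqS_compl hp hw ((h3 n).1 hn.ge) fun h4 => ?_⟩)⟩
    have h5 := (h3 (n + 1)).2 h4
    rw [hn] at h5
    have h6 : n + 1 ≤ n := by exact_mod_cast h5
    omega
  | P b hb l hl π hπ V i1 i2 T h hT =>
    obtain ⟨P, hc, πl, hx, rfl, hpo⟩ := K2CcC_code hl π hπ (hT.coeff_ne hπ T)
    refine ⟨(2, (0, []), (([], []), ([], [])), (true, P, 0, [], []), πl),
      Or.inr (Or.inr ⟨Or.inl rfl, hc, rfl, hpo⟩), fun p hp hcan n => ?_⟩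
    have hsep := K2CcC_sep hC hb hl hcan
    have h1 := K2CcC_P hp hc rfl πl hπ.ne_zero (x := (ncDec S p).pr.rk (b.ME l T h)) (by rw [hx]; exact hsep)
      (fun hcr => by rw [hx] at hcr ⊢; exact rkP hl hπ hT h _ hsep hcr)
      (fun hcr => by rw [hx] at hcr; exact rkP_top hl hπ hT h _ hcr) n
    exact ⟨fun hn => Or.inr (Or.inr (Or.inl ⟨rfl, h1.1 hn⟩)), fun hn => Or.inr (Or.inr (Or.inl ⟨rfl, h1.2 hn⟩))⟩
  | A b hb l hl π hπ V i1 i2 T hT h =>
    obtain ⟨P, hc, πl, hx, rfl, hpo⟩ := K2CcC_code hl π hπ (hT.coeff_ne hπ T)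
    refine ⟨(3, (0, []), (([], []), ([], [])), (true, P, 0, [], []), πl),
      Or.inr (Or.inr ⟨Or.inr rfl, hc, rfl, hpo⟩), fun p hp hcan n => ?_⟩
    have hsep := K2CcC_sep hC hb hl hcan
    have h1 := K2CcC_A hp hc rfl πl hπ.ne_zero (x := (ncDec S p).pr.rk (b.ME l T.dualMap h))
      (by rw [hx]; exact hsep)
      (fun hcr => by rw [hx] at hcr ⊢; exact rkA hl hπ hT h _ hsep hcr)
      (fun hcr => by rw [hx] at hcr; exact rkA_top hl hπ hT h _ hcr) n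
    exact ⟨fun hn => Or.inr (Or.inr (Or.inr ⟨rfl, h1.1 hn⟩)), fun hn => Or.inr (Or.inr (Or.inr ⟨rfl, h1.2 hn⟩))⟩

end StrAlg
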