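import Pool.Agent.Lib.MP_b9fd58_lc.K2Snd
import Pool.Agent.Lib.MP_b9fd58_lc.K2Fa
import Pool.Agent.Lib.MP_b9fd58_lc.K2Fb
import Pool.Agent.Lib.MP_b9fd58_lc.K2S
import Pool.Agent.Lib.MP_b9fd58_lc.K2Str
import Pool.Agent.Lib.MP_b9fd58_lc.K2RowP
import Pool.Agent.Lib.MP_b9fd58_lc.K2RowA
import Pool.Agent.Lib.MP_b9fd58_lc.KCan
import Pool.Agent.Lib.MP_b9fd58_lc.KPr
import Pool.Agent.Lib.MP_b9fd58_lc.S2S

/-!
# Stream K2: soundness and completeness of the codes of components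
-/

set_option autoImplicit false

namespace StrAlg

open Module Polynomial

variable {D : Dat} {k : Type} [Field k] {S : Sides D}

/-- a unit has degree zero -/
theorem K2CcS_pol {π : List k} (h : polOkC π) : ¬ IsUnit (polOf π) ∧ (polOf π).coeff 0 ≠ 0 := by
  obtain ⟨h1, h2⟩ := (polOkC_iff π).1 h
  exact ⟨fun h => by rw [Polynomial.natDegree_eq_zero_of_isUnit h] at h1; exact lt_irrefl _ h1, h2⟩

theorem K2CcS_no {a b : ℕ} {X : Type} {x : X} {P : Prop} (h : (a, x).1 = b) (hn : a ≠ b) : P := absurd h hn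

/-- ranks on coded finite-dimensional modules -/
theorem K2CcS_fin {N : ℕ × List k} (h : fmOk D N) {p : NC D k} (hp : ncOk S p) (n : ℕ) :
    (fGe N (ncPr S p).1 (ncPr S p).2 n ↔ (n : ℕ∞) ≤ (ncDec S p).pr.rk (⟨Fin N.1 → k, fmQ N h⟩ : Md D k)) ∧
      (fLe N (ncPr S p).1 (ncPr S p).2 n ↔ (ncDec S p).pr.rk (⟨Fin N.1 → k, fmQ N h⟩ : Md D k) ≤ (n : ℕ∞)) := by
  have h1 := ncPr_spec hp (⟨Fin N.1 → k, fmQ N h⟩ : Md D k)
  have h2 := Pr.rk_pp h1.1 h1.2
  rw [fGe_iff h, fLe_iff h, ← h2]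
  exact ⟨Iff.rfl, Iff.rfl⟩

/-- Cases of `ccOk` (in `ccGe`, `ccEq` only the disjunct with the same number `d.1` is possible):
`0`: `M = ⟨Fin N.1 → k, fmQ N h⟩`, `fGe_iff`, `fLe_iff`, `Pr.rk_pp` with `ncPr_spec hp M`.
`1`: `M = (scStr S w hw).Mloc k`, `aperC_iff (Matches.self hw)`, `rk_Mloc`, `geS_sound`, `eqS_sound`.
`2`: `M` from `exists_P` for the string `(bcBlk S c hc).x`, `band_minPer`, the polynomial `polOf π` (`polOkC_iff`: not a unit, `coeff 0 ≠ 0`);
`sepC_iff`, `Crit_iff_ncCritC` (for the string `scStr S (bcS c) hc.1`, which is `(bcBlk S c hc).x`), `rowsP_rank`, `rkGe_iff`, `rkLe_iff`; in the second case of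
`geP` distinguish `Crit` or not.
`3`: the same with `exists_A`, `rowsA_rank`. -/
theorem cc_sound (d : CC D k) (hd : ccOk S d) : ∃ M : Md D k, ∀ p : NC D k, ncOk S p → ∀ n : ℕ,
    (ccGe S d p n → (n : ℕ∞) ≤ (ncDec S p).pr.rk M) ∧ (ccEq S d p n → (ncDec S p).pr.rk M = (n : ℕ∞)) := by
  obtain ⟨t, N, w, c, π⟩ := d
  rcases hd with ⟨h0, hN⟩ | ⟨h0, hw, ha⟩ | ⟨h0, hc, band, hπ⟩
  · -- finite-dimensional modules
    change t = 0 at h0
    subst h0
    refine ⟨(⟨Fin N.1 → k, fmQ N hN⟩ : Md D k), fun p hp n => ?_⟩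
    obtain ⟨h1, h2⟩ := K2CcS_fin (S := S) hN hp n
    constructor
    · rintro (⟨-, h⟩ | ⟨h, -⟩ | ⟨h, -⟩ | ⟨h, -⟩)
      · exact h1.1 h
      · exact K2CcS_no h (by decide)
      · exact K2CcS_no h (by decide)
      · exact K2CcS_no h (by decide)
    · rintro (⟨-, h, h'⟩ | ⟨h, -⟩ | ⟨h, -⟩ | ⟨h, -⟩)
      · exact le_antisymm (h2.1 h') (h1.1 h)
      · exact K2CcS_no h (by decide)
      · exact K2CcS_no h (by decide)
      · exact K2CcS_no h (by decide)
  · -- strings
    change t = 1 at h0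
    subst h0
    have hA : (scStr S w hw).Aper := (aperC_iff (Matches.self hw)).2 ha
    refine ⟨(scStr S w hw).Mloc k, fun p hp n => ⟨?_, ?_⟩⟩
    · rintro (⟨h, -⟩ | ⟨-, B, h1, h2, h3⟩ | ⟨h, -⟩ | ⟨h, -⟩)
      · exact K2CcS_no h (by decide)
      · exact (rk_Mloc _ hA _ _).2 (geS_sound hp hw h1 h2 h3)
      · exact K2CcS_no h (by decide)
      · exact K2CcS_no h (by decide)
    · rintro (⟨h, -⟩ | ⟨-, B, h1, h2, h3⟩ | ⟨h, -⟩ | ⟨h, -⟩)
      · exact K2CcS_no h (by decide)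
      · obtain ⟨h4, h5⟩ := eqS_sound hp hw h1 h2 h3
        refine le_antisymm ?_ ((rk_Mloc _ hA _ _).2 h4)
        by_contra h6
        apply h5
        rw [← rk_Mloc _ hA]
        rw [not_le] at h6
        have h7 := Order.add_one_le_of_lt h6
        push_cast
        exact h7
      · exact K2CcS_no h (by decide)
      · exact K2CcS_no h (by decide)
  · change t = 2 ∨ t = 3 at h0
    change bcOk S c at hc
    change c.1 = true at band
    change polOkC π at hπ
    obtain ⟨hu, hπ0⟩ := K2CcS_pol hπ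
    rcases h0 with rfl | rfl
    · -- the type P
      obtain ⟨M, hM⟩ := exists_P (bcBlk S c hc).x (band_minPer hc band) (polOf π) hπ0
      refine ⟨M, fun p hp n => ?_⟩
      obtain ⟨h1, h2⟩ := hM (ncDec S p)
      constructor
      · rintro (⟨h, -⟩ | ⟨h, -⟩ | ⟨-, B, bp, bc, h3⟩ | ⟨h, -⟩)
        · exact K2CcS_no h (by decide)
        · exact K2CcS_no h (by decide)
        · have hcr : (ncDec S p).Crit (bcBlk S c hc).x ↔ ncCritC B p (bcS c) := Crit_iff_ncCritC hp hc.1 bp bc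
          obtain ⟨hsep, h4⟩ := h3
          have hsep' := (sepC_iff hp hc bp bc band).2 hsep
          by_cases hC : (ncDec S p).Crit (bcBlk S c hc).x
          · rcases h4 with h4 | ⟨h, N', h5, h6⟩
            · exact absurd (hcr.1 hC) h4
            · rw [h1 hsep' hC, rowsP_rank hp hc band bp bc π h N' h5]
              exact_mod_cast (rkGe_iff _ _).1 h6
          · rw [h2 hu hC]
            exact le_top
        · exact K2CcS_no h (by decide)
      · rintro (⟨h, -⟩ | ⟨h, -⟩ | ⟨-, B, bp, bc, h3⟩ | ⟨h, -⟩)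
        · exact K2CcS_no h (by decide)
        · exact K2CcS_no h (by decide)
        · have hcr : (ncDec S p).Crit (bcBlk S c hc).x ↔ ncCritC B p (bcS c) := Crit_iff_ncCritC hp hc.1 bp bc
          obtain ⟨hsep, h4, h, N', h5, h6, h7⟩ := h3
          have hsep' := (sepC_iff hp hc bp bc band).2 hsep
          rw [h1 hsep' (hcr.2 h4), rowsP_rank hp hc band bp bc π h N' h5]
          exact_mod_cast le_antisymm ((rkLe_iff _ _).1 h7) ((rkGe_iff _ _).1 h6)
        · exact K2CcS_no h (by decide)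
    · -- the type A
      obtain ⟨M, hM⟩ := exists_A (bcBlk S c hc).x (band_minPer hc band) (polOf π) hπ0
      refine ⟨M, fun p hp n => ?_⟩
      obtain ⟨h1, h2⟩ := hM (ncDec S p)
      constructor
      · rintro (⟨h, -⟩ | ⟨h, -⟩ | ⟨h, -⟩ | ⟨-, B, bp, bc, h3⟩)
        · exact K2CcS_no h (by decide)
        · exact K2CcS_no h (by decide)
        · exact K2CcS_no h (by decide)
        · have hcr : (ncDec S p).Crit (bcBlk S c hc).x ↔ ncCritC B p (bcS c) := Crit_iff_ncCritC hp hc.1 bp bc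
          obtain ⟨hsep, h4⟩ := h3
          have hsep' := (sepC_iff hp hc bp bc band).2 hsep
          by_cases hC : (ncDec S p).Crit (bcBlk S c hc).x
          · rcases h4 with h4 | ⟨h, N', h5, h6⟩
            · exact absurd (hcr.1 hC) h4
            · rw [h1 hsep' hC, rowsA_rank hp hc band bp bc π h N' h5]
              exact_mod_cast (rkGe_iff _ _).1 h6
          · rw [h2 hu hC]
            exact le_top
      · rintro (⟨h, -⟩ | ⟨h, -⟩ | ⟨h, -⟩ | ⟨-, B, bp, bc, h3⟩)
        · exact K2CcS_no h (by decide)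
        · exact K2CcS_no h (by decide)
        · exact K2CcS_no h (by decide)
        · have hcr : (ncDec S p).Crit (bcBlk S c hc).x ↔ ncCritC B p (bcS c) := Crit_iff_ncCritC hp hc.1 bp bc
          obtain ⟨hsep, h4, h, N', h5, h6, h7⟩ := h3
          have hsep' := (sepC_iff hp hc bp bc band).2 hsep
          rw [h1 hsep' (hcr.2 h4), rowsA_rank hp hc band bp bc π h N' h5]
          exact_mod_cast le_antisymm ((rkLe_iff _ _).1 h7) ((rkGe_iff _ _).1 h6)

end StrAlg
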