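import Pool.Agent.Lib.MP_b9fd58_lc.KCmpB

/-!
# Stream K: decidability of the bounded criterion, the certificates of types S, P, A are r.e. (on codes)
-/

set_option autoImplicit false

namespace StrAlg

open ReCalc

variable {D : Dat} {k : Type} [Field k] [Primcodable k] {S : Sides D}
variable {α : Type*} [Primcodable α]

theorem KCmpC_aux1 (hadd : Computable₂ (fun a b : k => a + b)) (hmul : Computable₂ (fun a b : k => a * b))
    {B : α → ℕ} {X Y : α → EC D k} {p r : α → ℕ} (o : Bool) (hB : Computable B) (hX : Computable X)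
    (hY : Computable Y) (hp : Computable p) (hr : Computable r) :
    DP fun a => ∀ j < bcN (X a).1, ∀ j' < bcN (Y a).1,
      omC (20 * B a) (X a) (Y a) o (p a : ℤ) (r a : ℤ) j j' = 0 := by
  refine DP.forall_lt (f := fun a => bcN (X a).1)
    (q := fun a j => ∀ j' < bcN (Y a).1, omC (20 * B a) (X a) (Y a) o (p a : ℤ) (r a : ℤ) j j' = 0)
    (bcNC (Computable.fst.comp hX)) ?_
  refine DP.forall_lt (f := fun t : α × ℕ => bcN (Y t.1).1)
    (q := fun t j' => omC (20 * B t.1) (X t.1) (Y t.1) o (p t.1 : ℤ) (r t.1 : ℤ) t.2 j' = 0)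
    (bcNC (Computable.fst.comp (hY.comp Computable.fst))) ?_
  have g1 : Computable fun q : (α × ℕ) × ℕ => q.1.1 := Computable.fst.comp Computable.fst
  have g2 : Computable fun q : (α × ℕ) × ℕ => q.1.2 := Computable.snd.comp Computable.fst
  exact DP.eq (omCC hadd hmul (mulN (Computable.const 20) (hB.comp g1)) (hX.comp g1) (hY.comp g1)
    (Computable.const o) (castZ (hp.comp g1)) (castZ (hr.comp g1)) g2 Computable.snd) (Computable.const 0)

theorem KCmpC_pos {B q : α → ℕ} (hB : Computable B) (hq : Computable q) :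
    Computable fun a => ((q a : ℤ) - ((10 * B a : ℕ) : ℤ)) :=
  subZ (castZ hq) (castZ (mulN (Computable.const 10) hB))

theorem critCD (hadd : Computable₂ (fun a b : k => a + b)) (hmul : Computable₂ (fun a b : k => a * b))
    {B : α → ℕ} {X Y : α → EC D k} {w : α → SC D} (hB : Computable B) (hX : Computable X)
    (hY : Computable Y) (hw : Computable w) : DP fun a => critC (B a) (X a) (Y a) (w a) := by
  unfold critC
  refine DP.forall_lt (f := fun a => 20 * B a + 1) (q := fun a q => ∀ p < bcP (X a).1, ∀ r < bcP (Y a).1,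
    ∀ o o' : Bool,
    ordC (20 * B a) (bcS (X a).1) (w a) o (p : ℤ) ((q : ℤ) - ((10 * B a : ℕ) : ℤ)) →
    ordC (20 * B a) (w a) (bcS (Y a).1) o' ((q : ℤ) - ((10 * B a : ℕ) : ℤ)) (r : ℤ) →
    ∀ j < bcN (X a).1, ∀ j' < bcN (Y a).1, omC (20 * B a) (X a) (Y a) (o == o') (p : ℤ) (r : ℤ) j j' = 0)
    (Computable.succ.comp (mulN (Computable.const 20) hB)) ?_
  refine DP.forall_lt (f := fun t : α × ℕ => bcP (X t.1).1) (q := fun t p => ∀ r < bcP (Y t.1).1,
    ∀ o o' : Bool,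
    ordC (20 * B t.1) (bcS (X t.1).1) (w t.1) o (p : ℤ) ((t.2 : ℤ) - ((10 * B t.1 : ℕ) : ℤ)) →
    ordC (20 * B t.1) (w t.1) (bcS (Y t.1).1) o' ((t.2 : ℤ) - ((10 * B t.1 : ℕ) : ℤ)) (r : ℤ) →
    ∀ j < bcN (X t.1).1, ∀ j' < bcN (Y t.1).1, omC (20 * B t.1) (X t.1) (Y t.1) (o == o') (p : ℤ) (r : ℤ) j j' = 0)
    (bcPC (Computable.fst.comp (hX.comp Computable.fst))) ?_
  refine DP.forall_lt (f := fun t : (α × ℕ) × ℕ => bcP (Y t.1.1).1) (q := fun t r =>
    ∀ o o' : Bool,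
    ordC (20 * B t.1.1) (bcS (X t.1.1).1) (w t.1.1) o (t.2 : ℤ) ((t.1.2 : ℤ) - ((10 * B t.1.1 : ℕ) : ℤ)) →
    ordC (20 * B t.1.1) (w t.1.1) (bcS (Y t.1.1).1) o' ((t.1.2 : ℤ) - ((10 * B t.1.1 : ℕ) : ℤ)) (r : ℤ) →
    ∀ j < bcN (X t.1.1).1, ∀ j' < bcN (Y t.1.1).1,
      omC (20 * B t.1.1) (X t.1.1) (Y t.1.1) (o == o') (t.2 : ℤ) (r : ℤ) j j' = 0)
    (bcPC (Computable.fst.comp (hY.comp (Computable.fst.comp Computable.fst)))) ?_
  refine DP.forall_fin (q := fun (t : ((α × ℕ) × ℕ) × ℕ) (o : Bool) => ∀ o' : Bool,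
    ordC (20 * B t.1.1.1) (bcS (X t.1.1.1).1) (w t.1.1.1) o (t.1.2 : ℤ) ((t.1.1.2 : ℤ) - ((10 * B t.1.1.1 : ℕ) : ℤ)) →
    ordC (20 * B t.1.1.1) (w t.1.1.1) (bcS (Y t.1.1.1).1) o' ((t.1.1.2 : ℤ) - ((10 * B t.1.1.1 : ℕ) : ℤ)) (t.2 : ℤ) →
    ∀ j < bcN (X t.1.1.1).1, ∀ j' < bcN (Y t.1.1.1).1,
      omC (20 * B t.1.1.1) (X t.1.1.1) (Y t.1.1.1) (o == o') (t.1.2 : ℤ) (t.2 : ℤ) j j' = 0) ?_
  intro o
  refine DP.forall_fin (q := fun (t : ((α × ℕ) × ℕ) × ℕ) (o' : Bool) =>
    ordC (20 * B t.1.1.1) (bcS (X t.1.1.1).1) (w t.1.1.1) o (t.1.2 : ℤ) ((t.1.1.2 : ℤ) - ((10 * B t.1.1.1 : ℕ) : ℤ)) →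
    ordC (20 * B t.1.1.1) (w t.1.1.1) (bcS (Y t.1.1.1).1) o' ((t.1.1.2 : ℤ) - ((10 * B t.1.1.1 : ℕ) : ℤ)) (t.2 : ℤ) →
    ∀ j < bcN (X t.1.1.1).1, ∀ j' < bcN (Y t.1.1.1).1,
      omC (20 * B t.1.1.1) (X t.1.1.1) (Y t.1.1.1) (o == o') (t.1.2 : ℤ) (t.2 : ℤ) j j' = 0) ?_
  intro o'
  have ga : Computable fun t : ((α × ℕ) × ℕ) × ℕ => t.1.1.1 :=
    Computable.fst.comp (Computable.fst.comp Computable.fst)
  have gq : Computable fun t : ((α × ℕ) × ℕ) × ℕ => t.1.1.2 :=
    Computable.snd.comp (Computable.fst.comp Computable.fst)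
  have gp : Computable fun t : ((α × ℕ) × ℕ) × ℕ => t.1.2 := Computable.snd.comp Computable.fst
  have gr : Computable fun t : ((α × ℕ) × ℕ) × ℕ => t.2 := Computable.snd
  have hK : Computable fun t : ((α × ℕ) × ℕ) × ℕ => 20 * B t.1.1.1 := mulN (Computable.const 20) (hB.comp ga)
  have hpos := KCmpC_pos (hB.comp ga) gq
  refine DP.imp (ordCD hK (bcSC (Computable.fst.comp (hX.comp ga))) (hw.comp ga) (Computable.const o) (castZ gp) hpos)
    (DP.imp (ordCD hK (hw.comp ga) (bcSC (Computable.fst.comp (hY.comp ga))) (Computable.const o') hpos (castZ gr)) ?_)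
  exact KCmpC_aux1 hadd hmul (o == o') (hB.comp ga) (hX.comp ga) (hY.comp ga) gp gr

theorem ncCritCD (hadd : Computable₂ (fun a b : k => a + b)) (hmul : Computable₂ (fun a b : k => a * b))
    {B : α → ℕ} {c : α → NC D k} {w : α → SC D} (hB : Computable B) (hc : Computable c) (hw : Computable w) :
    DP fun a => ncCritC (B a) (c a) (w a) := by
  unfold ncCritC
  refine DP.forall_mem (f := fun a => (c a).1) (q := fun a X => ∀ Y ∈ (c a).2, critC (B a) X Y (w a))
    (Computable.fst.comp hc) ?_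
  refine DP.forall_mem (f := fun t : α × EC D k => (c t.1).2) (q := fun t Y => critC (B t.1) t.2 Y (w t.1))
    (Computable.snd.comp (hc.comp Computable.fst)) ?_
  have ga : Computable fun t : (α × EC D k) × EC D k => t.1.1 := Computable.fst.comp Computable.fst
  exact critCD hadd hmul (hB.comp ga) (Computable.snd.comp Computable.fst) Computable.snd (hw.comp ga)

theorem sameCD {B : α → ℕ} {b b' : α → BC D k} (hB : Computable B) (hb : Computable b) (hb' : Computable b') :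
    DP fun a => sameC (B a) (b a) (b' a) := by
  unfold sameC
  refine DP.and (DP.of_bool (Computable.fst.comp hb)) (DP.and (DP.of_bool (Computable.fst.comp hb')) ?_)
  refine DP.forall_lt (f := B) (q := fun a p => scF (bcS (b a)) (p : ℤ) = scF (bcS (b' a)) (p : ℤ)) hB ?_
  exact DP.eq (scFC (bcSC (hb.comp Computable.fst)) (castZ Computable.snd))
    (scFC (bcSC (hb'.comp Computable.fst)) (castZ Computable.snd))

theorem KCmpC_aux2 {B : α → ℕ} {x b : α → BC D k} (hB : Computable B) (hx : Computable x) (hb : Computable b) :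
    DP fun a => (∃ r < bcP (x a), ∃ r' < bcP (b a), alC (20 * B a) (bcS (x a)) (bcS (b a)) (r : ℤ) (r' : ℤ)) →
      sameC (B a) (x a) (b a) := by
  refine DP.imp ?_ (sameCD hB hx hb)
  refine DP.exists_lt (f := fun a => bcP (x a)) (q := fun a r => ∃ r' < bcP (b a),
    alC (20 * B a) (bcS (x a)) (bcS (b a)) (r : ℤ) (r' : ℤ)) (bcPC hx) ?_
  refine DP.exists_lt (f := fun t : α × ℕ => bcP (b t.1)) (q := fun t r' =>
    alC (20 * B t.1) (bcS (x t.1)) (bcS (b t.1)) (t.2 : ℤ) (r' : ℤ)) (bcPC (hb.comp Computable.fst)) ?_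
  have g1 : Computable fun q : (α × ℕ) × ℕ => q.1.1 := Computable.fst.comp Computable.fst
  have g2 : Computable fun q : (α × ℕ) × ℕ => q.1.2 := Computable.snd.comp Computable.fst
  exact alCD (mulN (Computable.const 20) (hB.comp g1)) (bcSC (hx.comp g1)) (bcSC (hb.comp g1)) (castZ g2)
    (castZ Computable.snd)

theorem sepCD {B : α → ℕ} {p : α → NC D k} {b : α → BC D k} (hB : Computable B) (hp : Computable p)
    (hb : Computable b) : DP fun a => sepC (B a) (p a) (b a) := by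
  unfold sepC
  refine DP.and ?_ ?_
  · refine DP.forall_mem (f := fun a => (p a).1) (q := fun a (X : EC D k) =>
      (∃ r < bcP X.1, ∃ r' < bcP (b a), alC (20 * B a) (bcS X.1) (bcS (b a)) (r : ℤ) (r' : ℤ)) →
        sameC (B a) X.1 (b a)) (Computable.fst.comp hp) ?_
    exact KCmpC_aux2 (hB.comp Computable.fst) (Computable.fst.comp Computable.snd) (hb.comp Computable.fst)
  · refine DP.forall_mem (f := fun a => (p a).2) (q := fun a (X : EC D k) =>
      (∃ r < bcP X.1, ∃ r' < bcP (b a), alC (20 * B a) (bcS X.1) (bcS (b a)) (r : ℤ) (r' : ℤ)) →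
        sameC (B a) X.1 (b a)) (Computable.snd.comp hp) ?_
    exact KCmpC_aux2 (hB.comp Computable.fst) (Computable.fst.comp Computable.snd) (hb.comp Computable.fst)

theorem KCmpC_pg (hadd : Computable₂ (fun a b : k => a + b)) (hmul : Computable₂ (fun a b : k => a * b))
    {B : α → ℕ} {X Y : α → EC D k} {π : α → List k} (hB : Computable B) (hX : Computable X)
    (hY : Computable Y) (hπ : Computable π) :
    REPred fun s => ∀ a < bcP (X s).1, ∀ b < bcP (Y s).1, ∀ o : Bool,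
      ordC (20 * B s) (bcS (X s).1) (bcS (Y s).1) o (a : ℤ) (b : ℤ) → ∀ j' < bcN (Y s).1, ∃ h : List k,
      polV (bcN (X s).1) (bcM (X s).1) h (polV (bcN (X s).1) (bcM (X s).1) (π s)
        (omCol (20 * B s) (X s) (Y s) o (a : ℤ) (b : ℤ) j')) =
        omCol (20 * B s) (X s) (Y s) o (a : ℤ) (b : ℤ) j' := by
  refine re_forall_lt (f := fun s => bcP (X s).1) (q := fun s a => ∀ b < bcP (Y s).1, ∀ o : Bool,
      ordC (20 * B s) (bcS (X s).1) (bcS (Y s).1) o (a : ℤ) (b : ℤ) → ∀ j' < bcN (Y s).1, ∃ h : List k,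
      polV (bcN (X s).1) (bcM (X s).1) h (polV (bcN (X s).1) (bcM (X s).1) (π s)
        (omCol (20 * B s) (X s) (Y s) o (a : ℤ) (b : ℤ) j')) =
        omCol (20 * B s) (X s) (Y s) o (a : ℤ) (b : ℤ) j') (bcPC (Computable.fst.comp hX)) ?_
  refine re_forall_lt (f := fun s : α × ℕ => bcP (Y s.1).1) (q := fun s b => ∀ o : Bool,
      ordC (20 * B s.1) (bcS (X s.1).1) (bcS (Y s.1).1) o (s.2 : ℤ) (b : ℤ) → ∀ j' < bcN (Y s.1).1, ∃ h : List k,
      polV (bcN (X s.1).1) (bcM (X s.1).1) h (polV (bcN (X s.1).1) (bcM (X s.1).1) (π s.1)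
        (omCol (20 * B s.1) (X s.1) (Y s.1) o (s.2 : ℤ) (b : ℤ) j')) =
        omCol (20 * B s.1) (X s.1) (Y s.1) o (s.2 : ℤ) (b : ℤ) j')
        (bcPC (Computable.fst.comp (hY.comp Computable.fst))) ?_
  refine re_forall_fin (q := fun (s : (α × ℕ) × ℕ) (o : Bool) =>
      ordC (20 * B s.1.1) (bcS (X s.1.1).1) (bcS (Y s.1.1).1) o (s.1.2 : ℤ) (s.2 : ℤ) →
      ∀ j' < bcN (Y s.1.1).1, ∃ h : List k,
      polV (bcN (X s.1.1).1) (bcM (X s.1.1).1) h (polV (bcN (X s.1.1).1) (bcM (X s.1.1).1) (π s.1.1)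
        (omCol (20 * B s.1.1) (X s.1.1) (Y s.1.1) o (s.1.2 : ℤ) (s.2 : ℤ) j')) =
        omCol (20 * B s.1.1) (X s.1.1) (Y s.1.1) o (s.1.2 : ℤ) (s.2 : ℤ) j') ?_
  intro o
  have ga : Computable fun t : (α × ℕ) × ℕ => t.1.1 := Computable.fst.comp Computable.fst
  have gp : Computable fun t : (α × ℕ) × ℕ => t.1.2 := Computable.snd.comp Computable.fst
  have gr : Computable fun t : (α × ℕ) × ℕ => t.2 := Computable.snd
  refine re_imp (ordCD (mulN (Computable.const 20) (hB.comp ga)) (bcSC (Computable.fst.comp (hX.comp ga)))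
    (bcSC (Computable.fst.comp (hY.comp ga))) (Computable.const o) (castZ gp) (castZ gr)) ?_
  refine re_forall_lt (f := fun s : (α × ℕ) × ℕ => bcN (Y s.1.1).1) (q := fun s j' => ∃ h : List k,
      polV (bcN (X s.1.1).1) (bcM (X s.1.1).1) h (polV (bcN (X s.1.1).1) (bcM (X s.1.1).1) (π s.1.1)
        (omCol (20 * B s.1.1) (X s.1.1) (Y s.1.1) o (s.1.2 : ℤ) (s.2 : ℤ) j')) =
        omCol (20 * B s.1.1) (X s.1.1) (Y s.1.1) o (s.1.2 : ℤ) (s.2 : ℤ) j')
        (bcNC (Computable.fst.comp (hY.comp ga))) ?_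
  refine re_ex (q := fun (s : ((α × ℕ) × ℕ) × ℕ) (h : List k) =>
      polV (bcN (X s.1.1.1).1) (bcM (X s.1.1.1).1) h (polV (bcN (X s.1.1.1).1) (bcM (X s.1.1.1).1) (π s.1.1.1)
        (omCol (20 * B s.1.1.1) (X s.1.1.1) (Y s.1.1.1) o (s.1.1.2 : ℤ) (s.1.2 : ℤ) s.2)) =
        omCol (20 * B s.1.1.1) (X s.1.1.1) (Y s.1.1.1) o (s.1.1.2 : ℤ) (s.1.2 : ℤ) s.2) ?_
  have ka : Computable fun t : (((α × ℕ) × ℕ) × ℕ) × List k => t.1.1.1.1 :=
    ga.comp (Computable.fst.comp Computable.fst)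
  have kp : Computable fun t : (((α × ℕ) × ℕ) × ℕ) × List k => t.1.1.1.2 :=
    gp.comp (Computable.fst.comp Computable.fst)
  have kr : Computable fun t : (((α × ℕ) × ℕ) × ℕ) × List k => t.1.1.2 :=
    gr.comp (Computable.fst.comp Computable.fst)
  have kj : Computable fun t : (((α × ℕ) × ℕ) × ℕ) × List k => t.1.2 := Computable.snd.comp Computable.fst
  have hcol := omColC hadd hmul (mulN (Computable.const 20) (hB.comp ka)) (hX.comp ka) (hY.comp ka)
    (Computable.const o) (castZ kp) (castZ kr) kj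
  have hN := bcNC (Computable.fst.comp (hX.comp ka))
  have hM := bcMC (Computable.fst.comp (hX.comp ka))
  exact re_eq (polVC hadd hmul hN hM Computable.snd (polVC hadd hmul hN hM (hπ.comp ka) hcol)) hcol

theorem prGoodCR (hadd : Computable₂ (fun a b : k => a + b)) (hmul : Computable₂ (fun a b : k => a * b))
    {B : α → ℕ} {p : α → NC D k} {c : α → BC D k} {π : α → List k} (hB : Computable B) (hp : Computable p)
    (hc : Computable c) (hπ : Computable π) : REPred fun a => prGoodC (B a) (p a) (c a) (π a) := by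
  unfold prGoodC
  refine re_and (ncCritCD hadd hmul hB hp (bcSC hc)).re ?_
  refine re_forall_mem (f := fun s => (p s).1) (q := fun s (X : EC D k) =>
    sameC (B s) X.1 (c s) → ∀ Y ∈ (p s).2, ∀ a < bcP X.1, ∀ b < bcP Y.1, ∀ o : Bool,
    ordC (20 * B s) (bcS X.1) (bcS Y.1) o (a : ℤ) (b : ℤ) → ∀ j' < bcN Y.1, ∃ h : List k,
      polV (bcN X.1) (bcM X.1) h (polV (bcN X.1) (bcM X.1) (π s) (omCol (20 * B s) X Y o (a : ℤ) (b : ℤ) j')) =
        omCol (20 * B s) X Y o (a : ℤ) (b : ℤ) j') (Computable.fst.comp hp) ?_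
  refine re_imp (sameCD (hB.comp Computable.fst) (Computable.fst.comp Computable.snd) (hc.comp Computable.fst)) ?_
  refine re_forall_mem (f := fun s : α × EC D k => (p s.1).2) (q := fun s (Y : EC D k) =>
    ∀ a < bcP s.2.1, ∀ b < bcP Y.1, ∀ o : Bool,
    ordC (20 * B s.1) (bcS s.2.1) (bcS Y.1) o (a : ℤ) (b : ℤ) → ∀ j' < bcN Y.1, ∃ h : List k,
      polV (bcN s.2.1) (bcM s.2.1) h (polV (bcN s.2.1) (bcM s.2.1) (π s.1)
        (omCol (20 * B s.1) s.2 Y o (a : ℤ) (b : ℤ) j')) =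
        omCol (20 * B s.1) s.2 Y o (a : ℤ) (b : ℤ) j') (Computable.snd.comp (hp.comp Computable.fst)) ?_
  have g1 : Computable fun s : (α × EC D k) × EC D k => s.1.1 := Computable.fst.comp Computable.fst
  exact KCmpC_pg hadd hmul (hB.comp g1) (Computable.snd.comp Computable.fst) Computable.snd (hπ.comp g1)

theorem KCmpC_pb (hadd : Computable₂ (fun a b : k => a + b)) (hmul : Computable₂ (fun a b : k => a * b))
    {B : α → ℕ} {X Y : α → EC D k} {π : α → List k} (hB : Computable B) (hX : Computable X)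
    (hY : Computable Y) (hπ : Computable π) :
    REPred fun s => ∃ a < bcP (X s).1, ∃ b < bcP (Y s).1, ∃ o : Bool,
      ordC (20 * B s) (bcS (X s).1) (bcS (Y s).1) o (a : ℤ) (b : ℤ) ∧ ∃ y h : List k,
      polV (bcN (X s).1) (bcM (X s).1) h (omV (20 * B s) (X s) (Y s) o (a : ℤ) (b : ℤ) y) ≠ zeroV (bcN (X s).1) ∧
      polV (bcN (X s).1) (bcM (X s).1) (π s) (polV (bcN (X s).1) (bcM (X s).1) h
        (omV (20 * B s) (X s) (Y s) o (a : ℤ) (b : ℤ) y)) = zeroV (bcN (X s).1) := by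
  refine re_exists_lt (f := fun s => bcP (X s).1) (q := fun s a => ∃ b < bcP (Y s).1, ∃ o : Bool,
      ordC (20 * B s) (bcS (X s).1) (bcS (Y s).1) o (a : ℤ) (b : ℤ) ∧ ∃ y h : List k,
      polV (bcN (X s).1) (bcM (X s).1) h (omV (20 * B s) (X s) (Y s) o (a : ℤ) (b : ℤ) y) ≠ zeroV (bcN (X s).1) ∧
      polV (bcN (X s).1) (bcM (X s).1) (π s) (polV (bcN (X s).1) (bcM (X s).1) h
        (omV (20 * B s) (X s) (Y s) o (a : ℤ) (b : ℤ) y)) = zeroV (bcN (X s).1))
      (bcPC (Computable.fst.comp hX)) ?_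
  refine re_exists_lt (f := fun s : α × ℕ => bcP (Y s.1).1) (q := fun s b => ∃ o : Bool,
      ordC (20 * B s.1) (bcS (X s.1).1) (bcS (Y s.1).1) o (s.2 : ℤ) (b : ℤ) ∧ ∃ y h : List k,
      polV (bcN (X s.1).1) (bcM (X s.1).1) h (omV (20 * B s.1) (X s.1) (Y s.1) o (s.2 : ℤ) (b : ℤ) y) ≠
        zeroV (bcN (X s.1).1) ∧
      polV (bcN (X s.1).1) (bcM (X s.1).1) (π s.1) (polV (bcN (X s.1).1) (bcM (X s.1).1) h
        (omV (20 * B s.1) (X s.1) (Y s.1) o (s.2 : ℤ) (b : ℤ) y)) = zeroV (bcN (X s.1).1))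
      (bcPC (Computable.fst.comp (hY.comp Computable.fst))) ?_
  refine re_exists_fin (q := fun (s : (α × ℕ) × ℕ) (o : Bool) =>
      ordC (20 * B s.1.1) (bcS (X s.1.1).1) (bcS (Y s.1.1).1) o (s.1.2 : ℤ) (s.2 : ℤ) ∧ ∃ y h : List k,
      polV (bcN (X s.1.1).1) (bcM (X s.1.1).1) h (omV (20 * B s.1.1) (X s.1.1) (Y s.1.1) o (s.1.2 : ℤ) (s.2 : ℤ) y) ≠
        zeroV (bcN (X s.1.1).1) ∧
      polV (bcN (X s.1.1).1) (bcM (X s.1.1).1) (π s.1.1) (polV (bcN (X s.1.1).1) (bcM (X s.1.1).1) h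
        (omV (20 * B s.1.1) (X s.1.1) (Y s.1.1) o (s.1.2 : ℤ) (s.2 : ℤ) y)) = zeroV (bcN (X s.1.1).1)) ?_
  intro o
  have ga : Computable fun t : (α × ℕ) × ℕ => t.1.1 := Computable.fst.comp Computable.fst
  have gp : Computable fun t : (α × ℕ) × ℕ => t.1.2 := Computable.snd.comp Computable.fst
  have gr : Computable fun t : (α × ℕ) × ℕ => t.2 := Computable.snd
  refine re_and (ordCD (mulN (Computable.const 20) (hB.comp ga)) (bcSC (Computable.fst.comp (hX.comp ga)))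
    (bcSC (Computable.fst.comp (hY.comp ga))) (Computable.const o) (castZ gp) (castZ gr)).re ?_
  refine re_ex (q := fun (s : (α × ℕ) × ℕ) (y : List k) => ∃ h : List k,
      polV (bcN (X s.1.1).1) (bcM (X s.1.1).1) h (omV (20 * B s.1.1) (X s.1.1) (Y s.1.1) o (s.1.2 : ℤ) (s.2 : ℤ) y) ≠
        zeroV (bcN (X s.1.1).1) ∧
      polV (bcN (X s.1.1).1) (bcM (X s.1.1).1) (π s.1.1) (polV (bcN (X s.1.1).1) (bcM (X s.1.1).1) h
        (omV (20 * B s.1.1) (X s.1.1) (Y s.1.1) o (s.1.2 : ℤ) (s.2 : ℤ) y)) = zeroV (bcN (X s.1.1).1)) ?_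
  refine re_ex (q := fun (s : ((α × ℕ) × ℕ) × List k) (h : List k) =>
      polV (bcN (X s.1.1.1).1) (bcM (X s.1.1.1).1) h
        (omV (20 * B s.1.1.1) (X s.1.1.1) (Y s.1.1.1) o (s.1.1.2 : ℤ) (s.1.2 : ℤ) s.2) ≠
        zeroV (bcN (X s.1.1.1).1) ∧
      polV (bcN (X s.1.1.1).1) (bcM (X s.1.1.1).1) (π s.1.1.1) (polV (bcN (X s.1.1.1).1) (bcM (X s.1.1.1).1) h
        (omV (20 * B s.1.1.1) (X s.1.1.1) (Y s.1.1.1) o (s.1.1.2 : ℤ) (s.1.2 : ℤ) s.2)) =
        zeroV (bcN (X s.1.1.1).1)) ?_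
  have ka : Computable fun t : (((α × ℕ) × ℕ) × List k) × List k => t.1.1.1.1 :=
    ga.comp (Computable.fst.comp Computable.fst)
  have kp : Computable fun t : (((α × ℕ) × ℕ) × List k) × List k => t.1.1.1.2 :=
    gp.comp (Computable.fst.comp Computable.fst)
  have kr : Computable fun t : (((α × ℕ) × ℕ) × List k) × List k => t.1.1.2 :=
    gr.comp (Computable.fst.comp Computable.fst)
  have ky : Computable fun t : (((α × ℕ) × ℕ) × List k) × List k => t.1.2 := Computable.snd.comp Computable.fst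
  have hom := omVC hadd hmul (mulN (Computable.const 20) (hB.comp ka)) (hX.comp ka) (hY.comp ka)
    (Computable.const o) (castZ kp) (castZ kr) ky
  have hN := bcNC (Computable.fst.comp (hX.comp ka))
  have hM := bcMC (Computable.fst.comp (hX.comp ka))
  have hh := polVC hadd hmul hN hM Computable.snd hom
  exact re_and (re_ne hh (zeroVC hN)) (re_eq (polVC hadd hmul hN hM (hπ.comp ka) hh) (zeroVC hN))

theorem prBadCR (hadd : Computable₂ (fun a b : k => a + b)) (hmul : Computable₂ (fun a b : k => a * b))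
    {B : α → ℕ} {q : α → NC D k} {X : α → EC D k} {π : α → List k} (hB : Computable B) (hq : Computable q)
    (hX : Computable X) (hπ : Computable π) : REPred fun a => prBadC (B a) (q a) (X a) (π a) := by
  unfold prBadC
  refine re_and (DP.of_bool (Computable.fst.comp (Computable.fst.comp hX))).re ?_
  refine re_exists_mem (f := fun s => (q s).2) (q := fun s (Y : EC D k) => ∃ a < bcP (X s).1, ∃ b < bcP Y.1, ∃ o : Bool,
    ordC (20 * B s) (bcS (X s).1) (bcS Y.1) o (a : ℤ) (b : ℤ) ∧ ∃ y h : List k,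
      polV (bcN (X s).1) (bcM (X s).1) h (omV (20 * B s) (X s) Y o (a : ℤ) (b : ℤ) y) ≠ zeroV (bcN (X s).1) ∧
      polV (bcN (X s).1) (bcM (X s).1) (π s) (polV (bcN (X s).1) (bcM (X s).1) h
        (omV (20 * B s) (X s) Y o (a : ℤ) (b : ℤ) y)) = zeroV (bcN (X s).1)) (Computable.snd.comp hq) ?_
  exact KCmpC_pb hadd hmul (hB.comp Computable.fst) (hX.comp Computable.fst) Computable.snd (hπ.comp Computable.fst)

theorem KCmpC_ag (hadd : Computable₂ (fun a b : k => a + b)) (hmul : Computable₂ (fun a b : k => a * b))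
    {B : α → ℕ} {X Y : α → EC D k} {π : α → List k} (hB : Computable B) (hX : Computable X)
    (hY : Computable Y) (hπ : Computable π) :
    REPred fun s => ∀ a < bcP (X s).1, ∀ b < bcP (Y s).1, ∀ o : Bool,
      ordC (20 * B s) (bcS (X s).1) (bcS (Y s).1) o (a : ℤ) (b : ℤ) → ∀ j' < bcN (X s).1, ∃ h : List k,
      polL (bcN (Y s).1) (bcM (Y s).1) h (polL (bcN (Y s).1) (bcM (Y s).1) (π s)
        (omRow (20 * B s) (X s) (Y s) o (a : ℤ) (b : ℤ) j')) =
        omRow (20 * B s) (X s) (Y s) o (a : ℤ) (b : ℤ) j' := by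
  refine re_forall_lt (f := fun s => bcP (X s).1) (q := fun s a => ∀ b < bcP (Y s).1, ∀ o : Bool,
      ordC (20 * B s) (bcS (X s).1) (bcS (Y s).1) o (a : ℤ) (b : ℤ) → ∀ j' < bcN (X s).1, ∃ h : List k,
      polL (bcN (Y s).1) (bcM (Y s).1) h (polL (bcN (Y s).1) (bcM (Y s).1) (π s)
        (omRow (20 * B s) (X s) (Y s) o (a : ℤ) (b : ℤ) j')) =
        omRow (20 * B s) (X s) (Y s) o (a : ℤ) (b : ℤ) j') (bcPC (Computable.fst.comp hX)) ?_
  refine re_forall_lt (f := fun s : α × ℕ => bcP (Y s.1).1) (q := fun s b => ∀ o : Bool,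
      ordC (20 * B s.1) (bcS (X s.1).1) (bcS (Y s.1).1) o (s.2 : ℤ) (b : ℤ) → ∀ j' < bcN (X s.1).1, ∃ h : List k,
      polL (bcN (Y s.1).1) (bcM (Y s.1).1) h (polL (bcN (Y s.1).1) (bcM (Y s.1).1) (π s.1)
        (omRow (20 * B s.1) (X s.1) (Y s.1) o (s.2 : ℤ) (b : ℤ) j')) =
        omRow (20 * B s.1) (X s.1) (Y s.1) o (s.2 : ℤ) (b : ℤ) j')
        (bcPC (Computable.fst.comp (hY.comp Computable.fst))) ?_
  refine re_forall_fin (q := fun (s : (α × ℕ) × ℕ) (o : Bool) =>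
      ordC (20 * B s.1.1) (bcS (X s.1.1).1) (bcS (Y s.1.1).1) o (s.1.2 : ℤ) (s.2 : ℤ) →
      ∀ j' < bcN (X s.1.1).1, ∃ h : List k,
      polL (bcN (Y s.1.1).1) (bcM (Y s.1.1).1) h (polL (bcN (Y s.1.1).1) (bcM (Y s.1.1).1) (π s.1.1)
        (omRow (20 * B s.1.1) (X s.1.1) (Y s.1.1) o (s.1.2 : ℤ) (s.2 : ℤ) j')) =
        omRow (20 * B s.1.1) (X s.1.1) (Y s.1.1) o (s.1.2 : ℤ) (s.2 : ℤ) j') ?_
  intro o
  have ga : Computable fun t : (α × ℕ) × ℕ => t.1.1 := Computable.fst.comp Computable.fst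
  have gp : Computable fun t : (α × ℕ) × ℕ => t.1.2 := Computable.snd.comp Computable.fst
  have gr : Computable fun t : (α × ℕ) × ℕ => t.2 := Computable.snd
  refine re_imp (ordCD (mulN (Computable.const 20) (hB.comp ga)) (bcSC (Computable.fst.comp (hX.comp ga)))
    (bcSC (Computable.fst.comp (hY.comp ga))) (Computable.const o) (castZ gp) (castZ gr)) ?_
  refine re_forall_lt (f := fun s : (α × ℕ) × ℕ => bcN (X s.1.1).1) (q := fun s j' => ∃ h : List k,
      polL (bcN (Y s.1.1).1) (bcM (Y s.1.1).1) h (polL (bcN (Y s.1.1).1) (bcM (Y s.1.1).1) (π s.1.1)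
        (omRow (20 * B s.1.1) (X s.1.1) (Y s.1.1) o (s.1.2 : ℤ) (s.2 : ℤ) j')) =
        omRow (20 * B s.1.1) (X s.1.1) (Y s.1.1) o (s.1.2 : ℤ) (s.2 : ℤ) j')
        (bcNC (Computable.fst.comp (hX.comp ga))) ?_
  refine re_ex (q := fun (s : ((α × ℕ) × ℕ) × ℕ) (h : List k) =>
      polL (bcN (Y s.1.1.1).1) (bcM (Y s.1.1.1).1) h (polL (bcN (Y s.1.1.1).1) (bcM (Y s.1.1.1).1) (π s.1.1.1)
        (omRow (20 * B s.1.1.1) (X s.1.1.1) (Y s.1.1.1) o (s.1.1.2 : ℤ) (s.1.2 : ℤ) s.2)) =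
        omRow (20 * B s.1.1.1) (X s.1.1.1) (Y s.1.1.1) o (s.1.1.2 : ℤ) (s.1.2 : ℤ) s.2) ?_
  have ka : Computable fun t : (((α × ℕ) × ℕ) × ℕ) × List k => t.1.1.1.1 :=
    ga.comp (Computable.fst.comp Computable.fst)
  have kp : Computable fun t : (((α × ℕ) × ℕ) × ℕ) × List k => t.1.1.1.2 :=
    gp.comp (Computable.fst.comp Computable.fst)
  have kr : Computable fun t : (((α × ℕ) × ℕ) × ℕ) × List k => t.1.1.2 :=
    gr.comp (Computable.fst.comp Computable.fst)
  have kj : Computable fun t : (((α × ℕ) × ℕ) × ℕ) × List k => t.1.2 := Computable.snd.comp Computable.fst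
  have hcol := omRowC hadd hmul (mulN (Computable.const 20) (hB.comp ka)) (hX.comp ka) (hY.comp ka)
    (Computable.const o) (castZ kp) (castZ kr) kj
  have hN := bcNC (Computable.fst.comp (hY.comp ka))
  have hM := bcMC (Computable.fst.comp (hY.comp ka))
  exact re_eq (polLC hadd hmul hN hM Computable.snd (polLC hadd hmul hN hM (hπ.comp ka) hcol)) hcol

theorem adGoodCR (hadd : Computable₂ (fun a b : k => a + b)) (hmul : Computable₂ (fun a b : k => a * b))
    {B : α → ℕ} {p : α → NC D k} {c : α → BC D k} {π : α → List k} (hB : Computable B) (hp : Computable p)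
    (hc : Computable c) (hπ : Computable π) : REPred fun a => adGoodC (B a) (p a) (c a) (π a) := by
  unfold adGoodC
  refine re_and (ncCritCD hadd hmul hB hp (bcSC hc)).re ?_
  refine re_forall_mem (f := fun s => (p s).1) (q := fun s (X : EC D k) =>
    ∀ Y ∈ (p s).2, sameC (B s) Y.1 (c s) → ∀ a < bcP X.1, ∀ b < bcP Y.1, ∀ o : Bool,
    ordC (20 * B s) (bcS X.1) (bcS Y.1) o (a : ℤ) (b : ℤ) → ∀ j < bcN X.1, ∃ h : List k,
      polL (bcN Y.1) (bcM Y.1) h (polL (bcN Y.1) (bcM Y.1) (π s) (omRow (20 * B s) X Y o (a : ℤ) (b : ℤ) j)) =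
        omRow (20 * B s) X Y o (a : ℤ) (b : ℤ) j) (Computable.fst.comp hp) ?_
  refine re_forall_mem (f := fun s : α × EC D k => (p s.1).2) (q := fun s (Y : EC D k) =>
    sameC (B s.1) Y.1 (c s.1) → ∀ a < bcP s.2.1, ∀ b < bcP Y.1, ∀ o : Bool,
    ordC (20 * B s.1) (bcS s.2.1) (bcS Y.1) o (a : ℤ) (b : ℤ) → ∀ j < bcN s.2.1, ∃ h : List k,
      polL (bcN Y.1) (bcM Y.1) h (polL (bcN Y.1) (bcM Y.1) (π s.1)
        (omRow (20 * B s.1) s.2 Y o (a : ℤ) (b : ℤ) j)) =
        omRow (20 * B s.1) s.2 Y o (a : ℤ) (b : ℤ) j) (Computable.snd.comp (hp.comp Computable.fst)) ?_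
  have g1 : Computable fun s : (α × EC D k) × EC D k => s.1.1 := Computable.fst.comp Computable.fst
  refine re_imp (sameCD (hB.comp g1) (Computable.fst.comp Computable.snd) (hc.comp g1)) ?_
  exact KCmpC_ag hadd hmul (hB.comp g1) (Computable.snd.comp Computable.fst) Computable.snd (hπ.comp g1)

theorem KCmpC_ab (hadd : Computable₂ (fun a b : k => a + b)) (hmul : Computable₂ (fun a b : k => a * b))
    {B : α → ℕ} {X Y : α → EC D k} {π : α → List k} (hB : Computable B) (hX : Computable X)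
    (hY : Computable Y) (hπ : Computable π) :
    REPred fun s => ∃ a < bcP (X s).1, ∃ b < bcP (Y s).1, ∃ o : Bool,
      ordC (20 * B s) (bcS (X s).1) (bcS (Y s).1) o (a : ℤ) (b : ℤ) ∧ ∃ y h : List k,
      polL (bcN (Y s).1) (bcM (Y s).1) h (omL (20 * B s) (X s) (Y s) o (a : ℤ) (b : ℤ) y) ≠ zeroV (bcN (Y s).1) ∧
      polL (bcN (Y s).1) (bcM (Y s).1) (π s) (polL (bcN (Y s).1) (bcM (Y s).1) h
        (omL (20 * B s) (X s) (Y s) o (a : ℤ) (b : ℤ) y)) = zeroV (bcN (Y s).1) := by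
  refine re_exists_lt (f := fun s => bcP (X s).1) (q := fun s a => ∃ b < bcP (Y s).1, ∃ o : Bool,
      ordC (20 * B s) (bcS (X s).1) (bcS (Y s).1) o (a : ℤ) (b : ℤ) ∧ ∃ y h : List k,
      polL (bcN (Y s).1) (bcM (Y s).1) h (omL (20 * B s) (X s) (Y s) o (a : ℤ) (b : ℤ) y) ≠ zeroV (bcN (Y s).1) ∧
      polL (bcN (Y s).1) (bcM (Y s).1) (π s) (polL (bcN (Y s).1) (bcM (Y s).1) h
        (omL (20 * B s) (X s) (Y s) o (a : ℤ) (b : ℤ) y)) = zeroV (bcN (Y s).1))
      (bcPC (Computable.fst.comp hX)) ?_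
  refine re_exists_lt (f := fun s : α × ℕ => bcP (Y s.1).1) (q := fun s b => ∃ o : Bool,
      ordC (20 * B s.1) (bcS (X s.1).1) (bcS (Y s.1).1) o (s.2 : ℤ) (b : ℤ) ∧ ∃ y h : List k,
      polL (bcN (Y s.1).1) (bcM (Y s.1).1) h (omL (20 * B s.1) (X s.1) (Y s.1) o (s.2 : ℤ) (b : ℤ) y) ≠
        zeroV (bcN (Y s.1).1) ∧
      polL (bcN (Y s.1).1) (bcM (Y s.1).1) (π s.1) (polL (bcN (Y s.1).1) (bcM (Y s.1).1) h
        (omL (20 * B s.1) (X s.1) (Y s.1) o (s.2 : ℤ) (b : ℤ) y)) = zeroV (bcN (Y s.1).1))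
      (bcPC (Computable.fst.comp (hY.comp Computable.fst))) ?_
  refine re_exists_fin (q := fun (s : (α × ℕ) × ℕ) (o : Bool) =>
      ordC (20 * B s.1.1) (bcS (X s.1.1).1) (bcS (Y s.1.1).1) o (s.1.2 : ℤ) (s.2 : ℤ) ∧ ∃ y h : List k,
      polL (bcN (Y s.1.1).1) (bcM (Y s.1.1).1) h (omL (20 * B s.1.1) (X s.1.1) (Y s.1.1) o (s.1.2 : ℤ) (s.2 : ℤ) y) ≠
        zeroV (bcN (Y s.1.1).1) ∧
      polL (bcN (Y s.1.1).1) (bcM (Y s.1.1).1) (π s.1.1) (polL (bcN (Y s.1.1).1) (bcM (Y s.1.1).1) h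
        (omL (20 * B s.1.1) (X s.1.1) (Y s.1.1) o (s.1.2 : ℤ) (s.2 : ℤ) y)) = zeroV (bcN (Y s.1.1).1)) ?_
  intro o
  have ga : Computable fun t : (α × ℕ) × ℕ => t.1.1 := Computable.fst.comp Computable.fst
  have gp : Computable fun t : (α × ℕ) × ℕ => t.1.2 := Computable.snd.comp Computable.fst
  have gr : Computable fun t : (α × ℕ) × ℕ => t.2 := Computable.snd
  refine re_and (ordCD (mulN (Computable.const 20) (hB.comp ga)) (bcSC (Computable.fst.comp (hX.comp ga)))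
    (bcSC (Computable.fst.comp (hY.comp ga))) (Computable.const o) (castZ gp) (castZ gr)).re ?_
  refine re_ex (q := fun (s : (α × ℕ) × ℕ) (y : List k) => ∃ h : List k,
      polL (bcN (Y s.1.1).1) (bcM (Y s.1.1).1) h (omL (20 * B s.1.1) (X s.1.1) (Y s.1.1) o (s.1.2 : ℤ) (s.2 : ℤ) y) ≠
        zeroV (bcN (Y s.1.1).1) ∧
      polL (bcN (Y s.1.1).1) (bcM (Y s.1.1).1) (π s.1.1) (polL (bcN (Y s.1.1).1) (bcM (Y s.1.1).1) h
        (omL (20 * B s.1.1) (X s.1.1) (Y s.1.1) o (s.1.2 : ℤ) (s.2 : ℤ) y)) = zeroV (bcN (Y s.1.1).1)) ?_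
  refine re_ex (q := fun (s : ((α × ℕ) × ℕ) × List k) (h : List k) =>
      polL (bcN (Y s.1.1.1).1) (bcM (Y s.1.1.1).1) h
        (omL (20 * B s.1.1.1) (X s.1.1.1) (Y s.1.1.1) o (s.1.1.2 : ℤ) (s.1.2 : ℤ) s.2) ≠
        zeroV (bcN (Y s.1.1.1).1) ∧
      polL (bcN (Y s.1.1.1).1) (bcM (Y s.1.1.1).1) (π s.1.1.1) (polL (bcN (Y s.1.1.1).1) (bcM (Y s.1.1.1).1) h
        (omL (20 * B s.1.1.1) (X s.1.1.1) (Y s.1.1.1) o (s.1.1.2 : ℤ) (s.1.2 : ℤ) s.2)) =
        zeroV (bcN (Y s.1.1.1).1)) ?_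
  have ka : Computable fun t : (((α × ℕ) × ℕ) × List k) × List k => t.1.1.1.1 :=
    ga.comp (Computable.fst.comp Computable.fst)
  have kp : Computable fun t : (((α × ℕ) × ℕ) × List k) × List k => t.1.1.1.2 :=
    gp.comp (Computable.fst.comp Computable.fst)
  have kr : Computable fun t : (((α × ℕ) × ℕ) × List k) × List k => t.1.1.2 :=
    gr.comp (Computable.fst.comp Computable.fst)
  have ky : Computable fun t : (((α × ℕ) × ℕ) × List k) × List k => t.1.2 := Computable.snd.comp Computable.fst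
  have hom := omLC hadd hmul (mulN (Computable.const 20) (hB.comp ka)) (hX.comp ka) (hY.comp ka)
    (Computable.const o) (castZ kp) (castZ kr) ky
  have hN := bcNC (Computable.fst.comp (hY.comp ka))
  have hM := bcMC (Computable.fst.comp (hY.comp ka))
  have hh := polLC hadd hmul hN hM Computable.snd hom
  exact re_and (re_ne hh (zeroVC hN)) (re_eq (polLC hadd hmul hN hM (hπ.comp ka) hh) (zeroVC hN))

theorem adBadCR (hadd : Computable₂ (fun a b : k => a + b)) (hmul : Computable₂ (fun a b : k => a * b))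
    {B : α → ℕ} {q : α → NC D k} {Y : α → EC D k} {π : α → List k} (hB : Computable B) (hq : Computable q)
    (hY : Computable Y) (hπ : Computable π) : REPred fun a => adBadC (B a) (q a) (Y a) (π a) := by
  unfold adBadC
  refine re_and (DP.of_bool (Computable.fst.comp (Computable.fst.comp hY))).re ?_
  refine re_exists_mem (f := fun s => (q s).1) (q := fun s (X : EC D k) => ∃ a < bcP X.1, ∃ b < bcP (Y s).1, ∃ o : Bool,
    ordC (20 * B s) (bcS X.1) (bcS (Y s).1) o (a : ℤ) (b : ℤ) ∧ ∃ φ h : List k,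
      polL (bcN (Y s).1) (bcM (Y s).1) h (omL (20 * B s) X (Y s) o (a : ℤ) (b : ℤ) φ) ≠ zeroV (bcN (Y s).1) ∧
      polL (bcN (Y s).1) (bcM (Y s).1) (π s) (polL (bcN (Y s).1) (bcM (Y s).1) h
        (omL (20 * B s) X (Y s) o (a : ℤ) (b : ℤ) φ)) = zeroV (bcN (Y s).1)) (Computable.fst.comp hq) ?_
  exact KCmpC_ab hadd hmul (hB.comp Computable.fst) Computable.snd (hY.comp Computable.fst) (hπ.comp Computable.fst)

/-- the body of the `P` certificate, all data computable functions of a parameter -/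
theorem KCmpC_bodyP (hadd : Computable₂ (fun a b : k => a + b)) (hmul : Computable₂ (fun a b : k => a * b))
    {B : α → ℕ} {q : α → NC D k} {P : α → List (NC D k)} {X : α → EC D k} {π : α → List k} (hB : Computable B)
    (hq : Computable q) (hP : Computable P) (hX : Computable X) (hπ : Computable π) :
    REPred fun a => ncBig (q a) (B a) ∧ (∀ p ∈ P a, ncBig p (B a)) ∧ polOkC (π a) ∧
      prBadC (B a) (q a) (X a) (π a) ∧ ∀ p ∈ P a, prGoodC (B a) p (X a).1 (π a) ∧ sepC (B a) p (X a).1 := by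
  refine re_and (ncBigD hq hB).re (re_and ?_ (re_and (polOkCD hπ).re (re_and
    (prBadCR hadd hmul hB hq hX hπ) ?_)))
  · refine re_forall_mem (f := P) (q := fun a p => ncBig p (B a)) hP ?_
    exact (ncBigD Computable.snd (hB.comp Computable.fst)).re
  · refine re_forall_mem (f := P)
      (q := fun a p => prGoodC (B a) p (X a).1 (π a) ∧ sepC (B a) p (X a).1) hP ?_
    have hc : Computable fun s : α × NC D k => (X s.1).1 := Computable.fst.comp (hX.comp Computable.fst)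
    exact re_and (prGoodCR hadd hmul (hB.comp Computable.fst) Computable.snd hc (hπ.comp Computable.fst))
      (sepCD (hB.comp Computable.fst) Computable.snd hc).re

/-- the body of the `A` certificate, all data computable functions of a parameter -/
theorem KCmpC_bodyA (hadd : Computable₂ (fun a b : k => a + b)) (hmul : Computable₂ (fun a b : k => a * b))
    {B : α → ℕ} {q : α → NC D k} {P : α → List (NC D k)} {Y : α → EC D k} {π : α → List k} (hB : Computable B)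
    (hq : Computable q) (hP : Computable P) (hY : Computable Y) (hπ : Computable π) :
    REPred fun a => ncBig (q a) (B a) ∧ (∀ p ∈ P a, ncBig p (B a)) ∧ polOkC (π a) ∧
      adBadC (B a) (q a) (Y a) (π a) ∧ ∀ p ∈ P a, adGoodC (B a) p (Y a).1 (π a) ∧ sepC (B a) p (Y a).1 := by
  refine re_and (ncBigD hq hB).re (re_and ?_ (re_and (polOkCD hπ).re (re_and
    (adBadCR hadd hmul hB hq hY hπ) ?_)))
  · refine re_forall_mem (f := P) (q := fun a p => ncBig p (B a)) hP ?_
    exact (ncBigD Computable.snd (hB.comp Computable.fst)).re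
  · refine re_forall_mem (f := P)
      (q := fun a p => adGoodC (B a) p (Y a).1 (π a) ∧ sepC (B a) p (Y a).1) hP ?_
    have hc : Computable fun s : α × NC D k => (Y s.1).1 := Computable.fst.comp (hY.comp Computable.fst)
    exact re_and (adGoodCR hadd hmul (hB.comp Computable.fst) Computable.snd hc (hπ.comp Computable.fst))
      (sepCD (hB.comp Computable.fst) Computable.snd hc).re

/-- three nested existential quantifiers: a number, a list and a member of a list -/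
theorem KCmpC_ex3 {β : Type} [Primcodable β] {β' : Type} [Primcodable β'] {f : α → List β'}
    {q : α → ℕ → β → β' → Prop} (hf : Computable f)
    (hq : REPred fun t : ((α × ℕ) × β) × β' => q t.1.1.1 t.1.1.2 t.1.2 t.2) :
    REPred fun a => ∃ (B : ℕ) (π : β), ∃ X ∈ f a, q a B π X := by
  refine re_ex (q := fun (a : α) (B : ℕ) => ∃ (π : β), ∃ X ∈ f a, q a B π X) ?_
  refine re_ex (q := fun (t : α × ℕ) (π : β) => ∃ X ∈ f t.1, q t.1 t.2 π X) ?_
  exact re_exists_mem (f := fun t : (α × ℕ) × β => f t.1.1)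
    (q := fun (t : (α × ℕ) × β) (X : β') => q t.1.1 t.1.2 t.2 X)
    (hf.comp (Computable.fst.comp Computable.fst)) hq

/-- the `P` certificate over an abstract parameter -/
theorem KCmpC_certP (hadd : Computable₂ (fun a b : k => a + b)) (hmul : Computable₂ (fun a b : k => a * b))
    {q : α → NC D k} {P : α → List (NC D k)} (hq : Computable q) (hP : Computable P) :
    REPred fun a => certPC (q a) (P a) := by
  unfold certPC
  refine KCmpC_ex3 (f := fun a => (q a).1) (q := fun a (B : ℕ) (π : List k) (X : EC D k) => ncBig (q a) B ∧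
    (∀ p ∈ P a, ncBig p B) ∧ polOkC π ∧ prBadC B (q a) X π ∧ ∀ p ∈ P a, prGoodC B p X.1 π ∧ sepC B p X.1)
    (Computable.fst.comp hq) ?_
  exact KCmpC_bodyP hadd hmul (Computable.snd.comp (Computable.fst.comp Computable.fst))
    (hq.comp (Computable.fst.comp (Computable.fst.comp Computable.fst)))
    (hP.comp (Computable.fst.comp (Computable.fst.comp Computable.fst))) Computable.snd
    (Computable.snd.comp Computable.fst)

/-- the `A` certificate over an abstract parameter -/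
theorem KCmpC_certA (hadd : Computable₂ (fun a b : k => a + b)) (hmul : Computable₂ (fun a b : k => a * b))
    {q : α → NC D k} {P : α → List (NC D k)} (hq : Computable q) (hP : Computable P) :
    REPred fun a => certAC (q a) (P a) := by
  unfold certAC
  refine KCmpC_ex3 (f := fun a => (q a).2) (q := fun a (B : ℕ) (π : List k) (Y : EC D k) => ncBig (q a) B ∧
    (∀ p ∈ P a, ncBig p B) ∧ polOkC π ∧ adBadC B (q a) Y π ∧ ∀ p ∈ P a, adGoodC B p Y.1 π ∧ sepC B p Y.1)
    (Computable.snd.comp hq) ?_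
  exact KCmpC_bodyA hadd hmul (Computable.snd.comp (Computable.fst.comp Computable.fst))
    (hq.comp (Computable.fst.comp (Computable.fst.comp Computable.fst)))
    (hP.comp (Computable.fst.comp (Computable.fst.comp Computable.fst))) Computable.snd
    (Computable.snd.comp Computable.fst)

theorem certPCR (hadd : Computable₂ (fun a b : k => a + b)) (hmul : Computable₂ (fun a b : k => a * b)) :
    REPred fun t : NC D k × List (NC D k) => certPC t.1 t.2 :=
  KCmpC_certP hadd hmul Computable.fst Computable.snd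

theorem certACR (hadd : Computable₂ (fun a b : k => a + b)) (hmul : Computable₂ (fun a b : k => a * b)) :
    REPred fun t : NC D k × List (NC D k) => certAC t.1 t.2 :=
  KCmpC_certA hadd hmul Computable.fst Computable.snd

end StrAlg
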