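import Pool.Agent.Lib.MP_b9fd58_lc.KCmpD

/-!
# Stream K: certificates of type F are r.e. (on codes)
-/

set_option autoImplicit false
set_option synthInstance.maxSize 2000

namespace StrAlg

open ReCalc

variable {D : Dat} {k : Type} [Field k] [Primcodable k] {S : Sides D}
variable {α : Type*} [Primcodable α]

theorem fmCC {N : α → ℕ × List k} {g : α → D.Gen} {m m' : α → ℕ} (hN : Computable N) (hg : Computable g)
    (hm : Computable m) (hm' : Computable m') : Computable fun a => fmC (N a) (g a) (m a) (m' a) := by
  unfold fmC
  exact entC (Computable.snd.comp hN) (addN (mulN (addN (mulN (Computable.encode.comp hg) (Computable.fst.comp hN)) hm)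
    (Computable.fst.comp hN)) hm')

theorem fmGC (hadd : Computable₂ (fun a b : k => a + b)) (hmul : Computable₂ (fun a b : k => a * b))
    {N : α → ℕ × List k} {g : α → D.Gen} {v : α → List k} (hN : Computable N) (hg : Computable g)
    (hv : Computable v) : Computable fun a => fmG (N a) (g a) (v a) := by
  unfold fmG
  refine listC (f := fun a m' => ∑ m ∈ Finset.range (N a).1, ent (v a) m * fmC (N a) (g a) m m')
    (Computable.fst.comp hN) ?_
  refine sumRangeC hadd (g := fun (t : α × ℕ) m => ent (v t.1) m * fmC (N t.1) (g t.1) m t.2)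
    ((Computable.fst.comp hN).comp Computable.fst) ?_
  have h1 : Computable fun p : (α × ℕ) × ℕ => p.1.1 := Computable.fst.comp Computable.fst
  have h2 : Computable fun p : (α × ℕ) × ℕ => p.1.2 := Computable.snd.comp Computable.fst
  exact mulK hmul (entC (hv.comp h1) Computable.snd) (fmCC (hN.comp h1) (hg.comp h1) Computable.snd h2)

theorem fmWC (hadd : Computable₂ (fun a b : k => a + b)) (hmul : Computable₂ (fun a b : k => a * b))
    {N : α → ℕ × List k} {w : α → List D.Gen} {v : α → List k} (hN : Computable N) (hw : Computable w)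
    (hv : Computable v) : Computable fun a => fmW (N a) (w a) (v a) := by
  unfold fmW
  refine foldlC (h := fun a (s : List k) (g : D.Gen) => fmG (N a) g s) hw hv ?_
  exact fmGC hadd hmul (hN.comp Computable.fst) (Computable.snd.comp Computable.snd)
    (Computable.fst.comp Computable.snd)

theorem fmAC (hadd : Computable₂ (fun a b : k => a + b)) (hmul : Computable₂ (fun a b : k => a * b))
    {N : α → ℕ × List k} {c : α → ElCode D k} {v : α → List k} (hN : Computable N) (hc : Computable c)
    (hv : Computable v) : Computable fun a => fmA (N a) (c a) (v a) := by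
  unfold fmA
  refine listC (f := fun a i => ((c a).map fun t => t.1 * ent (fmW (N a) t.2 (v a)) i).sum)
    (Computable.fst.comp hN) ?_
  refine sumListC hadd (f := fun p : α × ℕ => c p.1) (g := fun (p : α × ℕ) (t : k × List D.Gen) =>
    t.1 * ent (fmW (N p.1) t.2 (v p.1)) p.2) (hc.comp Computable.fst) ?_
  have h1 : Computable fun p : (α × ℕ) × (k × List D.Gen) => p.1.1 := Computable.fst.comp Computable.fst
  have h2 : Computable fun p : (α × ℕ) × (k × List D.Gen) => p.1.2 := Computable.snd.comp Computable.fst
  exact mulK hmul (Computable.fst.comp Computable.snd)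
    (entC (fmWC hadd hmul (hN.comp h1) (Computable.snd.comp Computable.snd) (hv.comp h1)) h2)

theorem KCmpE_sum (hadd : Computable₂ (fun a b : k => a + b)) {ι : Type*} (s : Finset ι) {f : ι → α → k}
    (hf : ∀ i, Computable (f i)) : Computable fun a => ∑ i ∈ s, f i a := by
  classical
  induction s using Finset.induction_on with
  | empty => simpa using (Computable.const (0 : k))
  | insert i s hi ih =>
    simp only [Finset.sum_insert hi]
    exact addK hadd (hf i) ih

theorem KCmpE_eq (hadd : Computable₂ (fun a b : k => a + b)) (hmul : Computable₂ (fun a b : k => a * b))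
    {N : α → ℕ × List k} {m : α → ℕ} (hN : Computable N) (hm : Computable m) {w w' : α → List D.Gen}
    (hw : Computable w) (hw' : Computable w') :
    DP fun a => fmW (N a) (w a) (unitV (N a).1 (m a)) = fmW (N a) (w' a) (unitV (N a).1 (m a)) :=
  DP.eq (fmWC hadd hmul hN hw (unitVC (Computable.fst.comp hN) hm))
    (fmWC hadd hmul hN hw' (unitVC (Computable.fst.comp hN) hm))

theorem KCmpE_eq0 (hadd : Computable₂ (fun a b : k => a + b)) (hmul : Computable₂ (fun a b : k => a * b))
    {N : α → ℕ × List k} {m : α → ℕ} (hN : Computable N) (hm : Computable m) {w : α → List D.Gen}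
    (hw : Computable w) :
    DP fun a => fmW (N a) (w a) (unitV (N a).1 (m a)) = zeroV (N a).1 :=
  DP.eq (fmWC hadd hmul hN hw (unitVC (Computable.fst.comp hN) hm)) (zeroVC (Computable.fst.comp hN))

theorem fmOkD (hadd : Computable₂ (fun a b : k => a + b)) (hmul : Computable₂ (fun a b : k => a * b)) :
    DP fun N : ℕ × List k => fmOk D N := by
  unfold fmOk
  refine DP.forall_lt (f := fun N : ℕ × List k => N.1) Computable.fst ?_
  have hN : Computable fun p : (ℕ × List k) × ℕ => p.1 := Computable.fst
  have hm : Computable fun p : (ℕ × List k) × ℕ => p.2 := Computable.snd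
  refine DP.and ?_ (DP.and ?_ (DP.and ?_ (DP.and ?_ (DP.and ?_ ?_))))
  · exact DP.forall_fin fun i => KCmpE_eq hadd hmul hN hm (Computable.const _) (Computable.const _)
  · exact DP.forall_fin fun i => DP.forall_fin fun j => DP.imp (DP.const _)
      (KCmpE_eq0 hadd hmul hN hm (Computable.const _))
  · refine DP.forall_lt (f := fun p : (ℕ × List k) × ℕ => p.1.1)
      (q := fun p m' => (∑ i : Fin D.nV, fmC (D := D) p.1 (Sum.inl i) p.2 m') = if p.2 = m' then 1 else 0)
      (Computable.fst.comp Computable.fst) ?_
    refine DP.eq ?_ ?_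
    · refine KCmpE_sum hadd _ fun i => ?_
      exact fmCC (hN.comp Computable.fst) (Computable.const _) (hm.comp Computable.fst) Computable.snd
    · exact DP.ite (DP.eq (hm.comp Computable.fst) Computable.snd) (Computable.const 1) (Computable.const 0)
  · exact DP.forall_fin fun i => KCmpE_eq hadd hmul hN hm (Computable.const _) (Computable.const _)
  · exact DP.forall_fin fun i => KCmpE_eq hadd hmul hN hm (Computable.const _) (Computable.const _)
  · refine DP.forall_mem (f := fun _ : (ℕ × List k) × ℕ => D.rel) (Computable.const _)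
      (q := fun p r => fmW (D := D) p.1 (r.map Sum.inr) (unitV p.1.1 p.2) = zeroV p.1.1) ?_
    exact KCmpE_eq0 hadd hmul (hN.comp Computable.fst) (hm.comp Computable.fst)
      (mapC (f := fun p : ((ℕ × List k) × ℕ) × List (Fin D.nE) => p.2) (h := fun _ a => (Sum.inr a : D.Gen))
        Computable.snd (Computable.sumInr.comp Computable.snd))

theorem ppBC {φ : α → PP D k} (hφ : Computable φ) : Computable fun a => ppB (φ a) := by
  unfold ppB
  refine foldrC (h := fun _ (b s : ℕ) => max b s) ?_ (Computable.const 1) ?_
  · refine flatMapC (h := fun _ (e : List (ElCode D k × ℕ)) => e.map fun t => t.2 + 1) hφ ?_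
    refine mapC (f := fun p : α × List (ElCode D k × ℕ) => p.2) (h := fun _ (t : ElCode D k × ℕ) => t.2 + 1)
      Computable.snd ?_
    exact Computable.succ.comp (Computable.snd.comp Computable.snd)
  · exact (Primrec.nat_max.to_comp).comp (Computable.fst.comp Computable.snd) (Computable.snd.comp Computable.snd)

theorem KCmpE_mem (hadd : Computable₂ (fun a b : k => a + b)) (hmul : Computable₂ (fun a b : k => a * b))
    {N : α → ℕ × List k} {φ : α → PP D k} {x val : α → List k} (hN : Computable N) (hφ : Computable φ)
    (hx : Computable x) (hv : Computable val) :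
    DP fun a => (∀ m < (N a).1, ent (val a) m = ent (x a) m) ∧
      ∀ e ∈ φ a, ∀ m < (N a).1, (e.map fun t => ent (fmA (N a) t.1 (row (N a).1 (val a) t.2)) m).sum = 0 := by
  refine DP.and ?_ ?_
  · refine DP.forall_lt (f := fun a => (N a).1) (q := fun a m => ent (val a) m = ent (x a) m)
      (Computable.fst.comp hN) ?_
    exact DP.eq (entC (hv.comp Computable.fst) Computable.snd) (entC (hx.comp Computable.fst) Computable.snd)
  · refine DP.forall_mem (f := φ) hφ (q := fun a (e : List (ElCode D k × ℕ)) => ∀ m < (N a).1,
      (e.map fun t => ent (fmA (N a) t.1 (row (N a).1 (val a) t.2)) m).sum = 0) ?_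
    refine DP.forall_lt (f := fun p : α × List (ElCode D k × ℕ) => (N p.1).1) (q := fun p m =>
      (p.2.map fun t => ent (fmA (N p.1) t.1 (row (N p.1).1 (val p.1) t.2)) m).sum = 0)
      ((Computable.fst.comp hN).comp Computable.fst) ?_
    refine DP.eq ?_ (Computable.const 0)
    refine sumListC hadd (f := fun s : (α × List (ElCode D k × ℕ)) × ℕ => s.1.2)
      (g := fun (s : (α × List (ElCode D k × ℕ)) × ℕ) (t : ElCode D k × ℕ) =>
        ent (fmA (N s.1.1) t.1 (row (N s.1.1).1 (val s.1.1) t.2)) s.2) (Computable.snd.comp Computable.fst) ?_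
    have h1 : Computable fun u : ((α × List (ElCode D k × ℕ)) × ℕ) × (ElCode D k × ℕ) => u.1.1.1 :=
      Computable.fst.comp (Computable.fst.comp Computable.fst)
    have h2 : Computable fun u : ((α × List (ElCode D k × ℕ)) × ℕ) × (ElCode D k × ℕ) => u.1.2 :=
      Computable.snd.comp Computable.fst
    exact entC (fmAC hadd hmul (hN.comp h1) (Computable.fst.comp Computable.snd)
      (rowC ((Computable.fst.comp hN).comp h1) (hv.comp h1) (Computable.snd.comp Computable.snd))) h2

theorem memCR (hadd : Computable₂ (fun a b : k => a + b)) (hmul : Computable₂ (fun a b : k => a * b))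
    {N : α → ℕ × List k} {φ : α → PP D k} {x : α → List k} (hN : Computable N) (hφ : Computable φ)
    (hx : Computable x) : REPred fun a => memC (N a) (φ a) (x a) := by
  unfold memC
  refine re_ex (q := fun a (val : List k) => (∀ m < (N a).1, ent val m = ent (x a) m) ∧
    ∀ e ∈ φ a, ∀ m < (N a).1, (e.map fun t => ent (fmA (N a) t.1 (row (N a).1 val t.2)) m).sum = 0) ?_
  exact (KCmpE_mem hadd hmul (hN.comp Computable.fst) (hφ.comp Computable.fst) (hx.comp Computable.fst)
    Computable.snd).re

/-- one summand of the equations for functionals -/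
theorem KCmpE_ann1 (hadd : Computable₂ (fun a b : k => a + b)) (hmul : Computable₂ (fun a b : k => a * b))
    {N : α → ℕ × List k} {mu : α → List k} {i j m : α → ℕ} {t : α → ElCode D k × ℕ} (hN : Computable N)
    (hmu : Computable mu) (hi : Computable i) (hj : Computable j) (hm : Computable m) (ht : Computable t) :
    Computable fun a => if (t a).2 = j a then
      ∑ m' ∈ Finset.range (N a).1, ent (mu a) (i a * (N a).1 + m') * ent (fmA (N a) (t a).1 (unitV (N a).1 (m a))) m'
      else 0 := by
  have hN1 : Computable fun a => (N a).1 := Computable.fst.comp hN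
  refine DP.ite (DP.eq (Computable.snd.comp ht) hj) ?_ (Computable.const 0)
  refine sumRangeC hadd (g := fun a m' => ent (mu a) (i a * (N a).1 + m') *
    ent (fmA (N a) (t a).1 (unitV (N a).1 (m a))) m') hN1 ?_
  refine mulK hmul (entC (hmu.comp Computable.fst) (addN (mulN (hi.comp Computable.fst) (hN1.comp Computable.fst))
    Computable.snd)) (entC ?_ Computable.snd)
  exact fmAC hadd hmul (hN.comp Computable.fst) ((Computable.fst.comp ht).comp Computable.fst)
    (unitVC (hN1.comp Computable.fst) (hm.comp Computable.fst))

theorem KCmpE_ann2 (hadd : Computable₂ (fun a b : k => a + b)) (hmul : Computable₂ (fun a b : k => a * b))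
    {N : α → ℕ × List k} {φ : α → PP D k} {mu : α → List k} {j m : α → ℕ} (hN : Computable N) (hφ : Computable φ)
    (hmu : Computable mu) (hj : Computable j) (hm : Computable m) :
    Computable fun a => ∑ i ∈ Finset.range (φ a).length, (((φ a).getD i []).map fun t => if t.2 = j a then
      ∑ m' ∈ Finset.range (N a).1, ent (mu a) (i * (N a).1 + m') * ent (fmA (N a) t.1 (unitV (N a).1 (m a))) m'
      else 0).sum := by
  refine sumRangeC hadd (f := fun a => (φ a).length) (g := fun a i =>
    (((φ a).getD i []).map fun t => if t.2 = j a then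
      ∑ m' ∈ Finset.range (N a).1, ent (mu a) (i * (N a).1 + m') * ent (fmA (N a) t.1 (unitV (N a).1 (m a))) m'
      else 0).sum) (Computable.list_length.comp hφ) ?_
  refine sumListC hadd (f := fun p : α × ℕ => (φ p.1).getD p.2 [])
    (g := fun (p : α × ℕ) (t : ElCode D k × ℕ) => if t.2 = j p.1 then
      ∑ m' ∈ Finset.range (N p.1).1, ent (mu p.1) (p.2 * (N p.1).1 + m') *
        ent (fmA (N p.1) t.1 (unitV (N p.1).1 (m p.1))) m' else 0)
    (getDC (hφ.comp Computable.fst) Computable.snd (Computable.const [])) ?_
  have h1 : Computable fun p : (α × ℕ) × (ElCode D k × ℕ) => p.1.1 := Computable.fst.comp Computable.fst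
  have h2 : Computable fun p : (α × ℕ) × (ElCode D k × ℕ) => p.1.2 := Computable.snd.comp Computable.fst
  exact KCmpE_ann1 hadd hmul (hN.comp h1) (hmu.comp h1) h2 (hj.comp h1) (hm.comp h1) Computable.snd

theorem annCR (hadd : Computable₂ (fun a b : k => a + b)) (hmul : Computable₂ (fun a b : k => a * b))
    {N : α → ℕ × List k} {φ : α → PP D k} {x : α → List k} (hN : Computable N) (hφ : Computable φ)
    (hx : Computable x) : REPred fun a => annC (N a) (φ a) (x a) := by
  unfold annC
  refine re_ex (q := fun a (mu : List k) => ∀ j < ppB (φ a), ∀ m < (N a).1,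
    (∑ i ∈ Finset.range (φ a).length, (((φ a).getD i []).map fun t => if t.2 = j then
      ∑ m' ∈ Finset.range (N a).1, ent mu (i * (N a).1 + m') * ent (fmA (N a) t.1 (unitV (N a).1 m)) m' else 0).sum) =
    if j = 0 then ent (x a) m else 0) ?_
  refine DP.re ?_
  refine DP.forall_lt (f := fun p : α × List k => ppB (φ p.1)) (q := fun (p : α × List k) j => ∀ m < (N p.1).1,
    (∑ i ∈ Finset.range (φ p.1).length, (((φ p.1).getD i []).map fun t => if t.2 = j then
      ∑ m' ∈ Finset.range (N p.1).1, ent p.2 (i * (N p.1).1 + m') *
        ent (fmA (N p.1) t.1 (unitV (N p.1).1 m)) m' else 0).sum) =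
    if j = 0 then ent (x p.1) m else 0) ((ppBC hφ).comp Computable.fst) ?_
  refine DP.forall_lt (f := fun p : (α × List k) × ℕ => (N p.1.1).1) (q := fun (p : (α × List k) × ℕ) m =>
    (∑ i ∈ Finset.range (φ p.1.1).length, (((φ p.1.1).getD i []).map fun t => if t.2 = p.2 then
      ∑ m' ∈ Finset.range (N p.1.1).1, ent p.1.2 (i * (N p.1.1).1 + m') *
        ent (fmA (N p.1.1) t.1 (unitV (N p.1.1).1 m)) m' else 0).sum) =
    if p.2 = 0 then ent (x p.1.1) m else 0)
    ((Computable.fst.comp hN).comp (Computable.fst.comp Computable.fst)) ?_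
  have h1 : Computable fun s : ((α × List k) × ℕ) × ℕ => s.1.1.1 :=
    Computable.fst.comp (Computable.fst.comp Computable.fst)
  have h2 : Computable fun s : ((α × List k) × ℕ) × ℕ => s.1.1.2 :=
    Computable.snd.comp (Computable.fst.comp Computable.fst)
  have h3 : Computable fun s : ((α × List k) × ℕ) × ℕ => s.1.2 := Computable.snd.comp Computable.fst
  refine DP.eq (KCmpE_ann2 hadd hmul (hN.comp h1) (hφ.comp h1) h2 h3 Computable.snd) ?_
  exact DP.ite (DP.eq h3 (Computable.const 0)) (entC (hx.comp h1) Computable.snd) (Computable.const 0)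

theorem closedCR (hadd : Computable₂ (fun a b : k => a + b)) (hmul : Computable₂ (fun a b : k => a * b))
    {N : α → ℕ × List k} {φ ψ : α → PP D k} (hN : Computable N) (hφ : Computable φ) (hψ : Computable ψ) :
    REPred fun a => closedC (N a) (φ a) (ψ a) := by
  unfold closedC
  refine re_ex (q := fun a (P : List k) => (∀ m < (N a).1, memC (N a) (ψ a) (row (N a).1 P m)) ∧
    ∀ i < (N a).1, annC (N a) (φ a) ((List.range (N a).1).map fun m => (if m = i then 1 else 0) -
      ent P (m * (N a).1 + i))) ?_
  refine re_and ?_ ?_
  · refine re_forall_lt (f := fun p : α × List k => (N p.1).1)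
      (q := fun (p : α × List k) m => memC (N p.1) (ψ p.1) (row (N p.1).1 p.2 m))
      ((Computable.fst.comp hN).comp Computable.fst) ?_
    have h1 : Computable fun p : (α × List k) × ℕ => p.1.1 := Computable.fst.comp Computable.fst
    have h2 : Computable fun p : (α × List k) × ℕ => p.1.2 := Computable.snd.comp Computable.fst
    exact memCR hadd hmul (hN.comp h1) (hψ.comp h1) (rowC ((Computable.fst.comp hN).comp h1) h2 Computable.snd)
  · refine re_forall_lt (f := fun p : α × List k => (N p.1).1)
      (q := fun (p : α × List k) i => annC (N p.1) (φ p.1) ((List.range (N p.1).1).map fun m =>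
        (if m = i then 1 else 0) - ent p.2 (m * (N p.1).1 + i)))
      ((Computable.fst.comp hN).comp Computable.fst) ?_
    have h1 : Computable fun p : (α × List k) × ℕ => p.1.1 := Computable.fst.comp Computable.fst
    have h2 : Computable fun p : (α × List k) × ℕ => p.1.2 := Computable.snd.comp Computable.fst
    refine annCR hadd hmul (hN.comp h1) (hφ.comp h1) ?_
    refine listC (f := fun (p : (α × List k) × ℕ) m => (if m = p.2 then (1 : k) else 0) -
      ent p.1.2 (m * (N p.1.1).1 + p.2)) ((Computable.fst.comp hN).comp h1) ?_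
    have g1 : Computable fun q : ((α × List k) × ℕ) × ℕ => q.1 := Computable.fst
    refine subK hadd (DP.ite (DP.eq Computable.snd (Computable.snd.comp g1)) (Computable.const 1)
      (Computable.const 0)) ?_
    exact entC (h2.comp g1) (addN (mulN Computable.snd ((Computable.fst.comp hN).comp (h1.comp g1)))
      (Computable.snd.comp g1))

theorem openCR (hadd : Computable₂ (fun a b : k => a + b)) (hmul : Computable₂ (fun a b : k => a * b))
    {N : α → ℕ × List k} {φ ψ : α → PP D k} (hN : Computable N) (hφ : Computable φ) (hψ : Computable ψ) :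
    REPred fun a => openC (N a) (φ a) (ψ a) := by
  unfold openC
  refine re_ex (q := fun a (x : List k) => ∃ lam : List k, memC (N a) (φ a) x ∧ annC (N a) (ψ a) lam ∧
    (∑ m ∈ Finset.range (N a).1, ent lam m * ent x m) ≠ 0) ?_
  refine re_ex (q := fun (p : α × List k) (lam : List k) => memC (N p.1) (φ p.1) p.2 ∧ annC (N p.1) (ψ p.1) lam ∧
    (∑ m ∈ Finset.range (N p.1).1, ent lam m * ent p.2 m) ≠ 0) ?_
  have h1 : Computable fun p : (α × List k) × List k => p.1.1 := Computable.fst.comp Computable.fst
  have h2 : Computable fun p : (α × List k) × List k => p.1.2 := Computable.snd.comp Computable.fst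
  refine re_and (memCR hadd hmul (hN.comp h1) (hφ.comp h1) h2)
    (re_and (annCR hadd hmul (hN.comp h1) (hψ.comp h1) Computable.snd) ?_)
  refine re_ne ?_ (Computable.const 0)
  refine sumRangeC hadd (f := fun p : (α × List k) × List k => (N p.1.1).1)
    (g := fun (p : (α × List k) × List k) m => ent p.2 m * ent p.1.2 m) ((Computable.fst.comp hN).comp h1) ?_
  exact mulK hmul (entC (Computable.snd.comp Computable.fst) Computable.snd) (entC (h2.comp Computable.fst) Computable.snd)

theorem KCmpE_certF (hadd : Computable₂ (fun a b : k => a + b)) (hmul : Computable₂ (fun a b : k => a * b))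
    {q : α → NC D k} {P : α → List (NC D k)} (hq : Computable q) (hP : Computable P) :
    REPred fun a => certFC S (q a) (P a) := by
  unfold certFC
  have hpr : Computable (ncPr S : NC D k → PP D k × PP D k) := ncPrC hadd
  refine re_ex (q := fun a (N : ℕ × List k) => fmOk D N ∧ openC N (ncPr S (q a)).1 (ncPr S (q a)).2 ∧
    ∀ p ∈ P a, closedC N (ncPr S p).1 (ncPr S p).2) ?_
  have h1 : Computable fun t : α × (ℕ × List k) => ncPr S (q t.1) := hpr.comp (hq.comp Computable.fst)
  refine re_and ((fmOkD hadd hmul).comp Computable.snd).re (re_and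
    (openCR hadd hmul Computable.snd (Computable.fst.comp h1) (Computable.snd.comp h1)) ?_)
  refine re_forall_mem (f := fun t : α × (ℕ × List k) => P t.1)
    (q := fun (t : α × (ℕ × List k)) p => closedC t.2 (ncPr S p).1 (ncPr S p).2) (hP.comp Computable.fst) ?_
  have h2 : Computable fun t : (α × (ℕ × List k)) × NC D k => ncPr S t.2 := hpr.comp Computable.snd
  exact closedCR hadd hmul (Computable.snd.comp Computable.fst) (Computable.fst.comp h2) (Computable.snd.comp h2)

theorem certFCR (hadd : Computable₂ (fun a b : k => a + b)) (hmul : Computable₂ (fun a b : k => a * b)) :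
    REPred fun t : NC D k × List (NC D k) => certFC S t.1 t.2 :=
  KCmpE_certF hadd hmul Computable.fst Computable.snd

end StrAlg
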