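import Pool.Agent.Lib.MP_b9fd58_lc.K2Defs
import Pool.Agent.Lib.MP_b9fd58_lc.KCmpC
import Pool.Agent.Lib.MP_b9fd58_lc.KCmpE

/-!
# Stream K2: computability of the rank certificates
-/

set_option autoImplicit false
set_option synthInstance.maxSize 2000

namespace StrAlg

open ReCalc

variable {α : Type} [Primcodable α] {D : Dat} {k : Type} [Field k] [Primcodable k]

theorem widC {M : α → List (List k)} (hM : Computable M) : Computable fun a => wid (M a) := by
  unfold wid
  refine foldrC (f := fun a => (M a).map List.length) (g := fun _ => 0) (h := fun _ (b s : ℕ) => max b s)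
    (mapC (h := fun _ (l : List k) => l.length) hM (Computable.list_length.comp Computable.snd))
    (Computable.const 0) ?_
  exact Primrec.nat_max.to_comp.comp (Computable.fst.comp Computable.snd) (Computable.snd.comp Computable.snd)

theorem K2CmpA_sum (hadd : Computable₂ (fun a b : k => a + b)) (hmul : Computable₂ (fun a b : k => a * b))
    {β : Type} [Primcodable β] {M : β → List (List k)} {A C : β → List k} {i j n : β → ℕ}
    (hM : Computable M) (hA : Computable A) (hC : Computable C) (hi : Computable i) (hj : Computable j)
    (hn : Computable n) :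
    Computable fun b => ∑ r ∈ Finset.range (M b).length, ∑ c ∈ Finset.range (wid (M b)),
      ent (A b) (i b * (M b).length + r) * ent ((M b).getD r []) c * ent (C b) (c * n b + j b) := by
  refine sumRangeC hadd (g := fun b r => ∑ c ∈ Finset.range (wid (M b)),
      ent (A b) (i b * (M b).length + r) * ent ((M b).getD r []) c * ent (C b) (c * n b + j b))
    (Computable.list_length.comp hM) ?_
  refine sumRangeC hadd (g := fun (q : β × ℕ) c =>
      ent (A q.1) (i q.1 * (M q.1).length + q.2) * ent ((M q.1).getD q.2 []) c * ent (C q.1) (c * n q.1 + j q.1))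
    ((widC hM).comp Computable.fst) ?_
  have g1 : Computable fun q : (β × ℕ) × ℕ => q.1.1 := Computable.fst.comp Computable.fst
  have g2 : Computable fun q : (β × ℕ) × ℕ => q.1.2 := Computable.snd.comp Computable.fst
  exact mulK hmul (mulK hmul
    (entC (hA.comp g1) (addN (mulN (hi.comp g1) ((Computable.list_length.comp hM).comp g1)) g2))
    (entC (getDC (hM.comp g1) g2 (Computable.const [])) Computable.snd))
    (entC (hC.comp g1) (addN (mulN Computable.snd (hn.comp g1)) (hj.comp g1)))

theorem K2CmpA_dpGe (hadd : Computable₂ (fun a b : k => a + b)) (hmul : Computable₂ (fun a b : k => a * b))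
    {β : Type} [Primcodable β] {M : β → List (List k)} {A C : β → List k} {n : β → ℕ}
    (hM : Computable M) (hA : Computable A) (hC : Computable C) (hn : Computable n) :
    DP fun b => ∀ i < n b, ∀ j < n b, (∑ r ∈ Finset.range (M b).length, ∑ c ∈ Finset.range (wid (M b)),
      ent (A b) (i * (M b).length + r) * ent ((M b).getD r []) c * ent (C b) (c * n b + j)) =
        if i = j then 1 else 0 := by
  refine DP.forall_lt (f := n) (q := fun b i => ∀ j < n b, (∑ r ∈ Finset.range (M b).length,
    ∑ c ∈ Finset.range (wid (M b)), ent (A b) (i * (M b).length + r) * ent ((M b).getD r []) c *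
      ent (C b) (c * n b + j)) = if i = j then 1 else 0) hn ?_
  refine DP.forall_lt (f := fun q : β × ℕ => n q.1) (q := fun (q : β × ℕ) j => (∑ r ∈ Finset.range (M q.1).length,
    ∑ c ∈ Finset.range (wid (M q.1)), ent (A q.1) (q.2 * (M q.1).length + r) * ent ((M q.1).getD r []) c *
      ent (C q.1) (c * n q.1 + j)) = if q.2 = j then 1 else 0) (hn.comp Computable.fst) ?_
  have g1 : Computable fun q : (β × ℕ) × ℕ => q.1.1 := Computable.fst.comp Computable.fst
  have g2 : Computable fun q : (β × ℕ) × ℕ => q.1.2 := Computable.snd.comp Computable.fst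
  refine DP.eq (K2CmpA_sum hadd hmul (hM.comp g1) (hA.comp g1) (hC.comp g1) g2 Computable.snd (hn.comp g1)) ?_
  exact DP.ite (p := fun q : (β × ℕ) × ℕ => q.1.2 = q.2) (DP.eq g2 Computable.snd) (Computable.const 1)
    (Computable.const 0)

theorem K2CmpA_dpLe (hadd : Computable₂ (fun a b : k => a + b)) (hmul : Computable₂ (fun a b : k => a * b))
    {β : Type} [Primcodable β] {M : β → List (List k)} {A C : β → List k} {n : β → ℕ}
    (hM : Computable M) (hA : Computable A) (hC : Computable C) (hn : Computable n) :
    DP fun b => ∀ r < (M b).length, ∀ c < wid (M b), ent ((M b).getD r []) c =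
      ∑ i ∈ Finset.range (n b), ent (A b) (r * n b + i) * ent (C b) (i * wid (M b) + c) := by
  refine DP.forall_lt (f := fun b => (M b).length) (q := fun b r => ∀ c < wid (M b), ent ((M b).getD r []) c =
      ∑ i ∈ Finset.range (n b), ent (A b) (r * n b + i) * ent (C b) (i * wid (M b) + c))
    (Computable.list_length.comp hM) ?_
  refine DP.forall_lt (f := fun q : β × ℕ => wid (M q.1)) (q := fun (q : β × ℕ) c => ent ((M q.1).getD q.2 []) c =
      ∑ i ∈ Finset.range (n q.1), ent (A q.1) (q.2 * n q.1 + i) * ent (C q.1) (i * wid (M q.1) + c))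
    ((widC hM).comp Computable.fst) ?_
  have g1 : Computable fun q : (β × ℕ) × ℕ => q.1.1 := Computable.fst.comp Computable.fst
  have g2 : Computable fun q : (β × ℕ) × ℕ => q.1.2 := Computable.snd.comp Computable.fst
  refine DP.eq (entC (getDC (hM.comp g1) g2 (Computable.const [])) Computable.snd) ?_
  refine sumRangeC hadd (g := fun (q : (β × ℕ) × ℕ) i =>
    ent (A q.1.1) (q.1.2 * n q.1.1 + i) * ent (C q.1.1) (i * wid (M q.1.1) + q.2)) (hn.comp g1) ?_
  have k1 : Computable fun q : ((β × ℕ) × ℕ) × ℕ => q.1.1.1 := g1.comp Computable.fst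
  have k2 : Computable fun q : ((β × ℕ) × ℕ) × ℕ => q.1.1.2 := g2.comp Computable.fst
  have k3 : Computable fun q : ((β × ℕ) × ℕ) × ℕ => q.1.2 := Computable.snd.comp Computable.fst
  exact mulK hmul (entC (hA.comp k1) (addN (mulN k2 (hn.comp k1)) Computable.snd))
    (entC (hC.comp k1) (addN (mulN Computable.snd ((widC hM).comp k1)) k3))

theorem rkGeR (hadd : Computable₂ (fun a b : k => a + b)) (hmul : Computable₂ (fun a b : k => a * b))
    {M : α → List (List k)} {n : α → ℕ} (hM : Computable M) (hn : Computable n) : REPred fun a => rkGe (M a) (n a) := by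
  unfold rkGe
  refine re_ex (q := fun a (A : List k) => ∃ C : List k, ∀ i < n a, ∀ j < n a,
    (∑ r ∈ Finset.range (M a).length, ∑ c ∈ Finset.range (wid (M a)),
      ent A (i * (M a).length + r) * ent ((M a).getD r []) c * ent C (c * n a + j)) = if i = j then 1 else 0) ?_
  refine re_ex (q := fun (q : α × List k) (C : List k) => ∀ i < n q.1, ∀ j < n q.1,
    (∑ r ∈ Finset.range (M q.1).length, ∑ c ∈ Finset.range (wid (M q.1)),
      ent q.2 (i * (M q.1).length + r) * ent ((M q.1).getD r []) c * ent C (c * n q.1 + j)) =
        if i = j then 1 else 0) ?_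
  have g1 : Computable fun q : (α × List k) × List k => q.1.1 := Computable.fst.comp Computable.fst
  have g2 : Computable fun q : (α × List k) × List k => q.1.2 := Computable.snd.comp Computable.fst
  exact (K2CmpA_dpGe hadd hmul (hM.comp g1) g2 Computable.snd (hn.comp g1)).re

theorem rkLeR (hadd : Computable₂ (fun a b : k => a + b)) (hmul : Computable₂ (fun a b : k => a * b))
    {M : α → List (List k)} {n : α → ℕ} (hM : Computable M) (hn : Computable n) : REPred fun a => rkLe (M a) (n a) := by
  unfold rkLe
  refine re_ex (q := fun a (A : List k) => ∃ C : List k, ∀ r < (M a).length, ∀ c < wid (M a),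
    ent ((M a).getD r []) c = ∑ i ∈ Finset.range (n a), ent A (r * n a + i) * ent C (i * wid (M a) + c)) ?_
  refine re_ex (q := fun (q : α × List k) (C : List k) => ∀ r < (M q.1).length, ∀ c < wid (M q.1),
    ent ((M q.1).getD r []) c = ∑ i ∈ Finset.range (n q.1), ent q.2 (r * n q.1 + i) *
      ent C (i * wid (M q.1) + c)) ?_
  have g1 : Computable fun q : (α × List k) × List k => q.1.1 := Computable.fst.comp Computable.fst
  have g2 : Computable fun q : (α × List k) × List k => q.1.2 := Computable.snd.comp Computable.fst
  exact (K2CmpA_dpLe hadd hmul (hM.comp g1) g2 Computable.snd (hn.comp g1)).re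

theorem pairMC (hadd : Computable₂ (fun a b : k => a + b)) (hmul : Computable₂ (fun a b : k => a * b))
    {T S : α → List (List k)} {L : α → ℕ} (hT : Computable T) (hS : Computable S) (hL : Computable L) :
    Computable fun a => pairM (T a) (S a) (L a) := by
  unfold pairM
  refine mapC (h := fun a (t : List k) => (S a).map fun s => ∑ z ∈ Finset.range (L a), ent t z * ent s z) hT ?_
  refine mapC (f := fun q : α × List k => S q.1)
    (h := fun (q : α × List k) (s : List k) => ∑ z ∈ Finset.range (L q.1), ent q.2 z * ent s z)
    (hS.comp Computable.fst) ?_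
  refine sumRangeC hadd (f := fun q : (α × List k) × List k => L q.1.1)
    (g := fun (q : (α × List k) × List k) z => ent q.1.2 z * ent q.2 z)
    (hL.comp (Computable.fst.comp Computable.fst)) ?_
  exact mulK hmul (entC (Computable.snd.comp (Computable.fst.comp Computable.fst)) Computable.snd)
    (entC (Computable.snd.comp Computable.fst) Computable.snd)

end StrAlg
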