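import Pool.Agent.Lib.MP_b9fd58_lc.K2CmpA

/-!
# Stream K2: computability of the matrix of type S
-/

set_option autoImplicit false
set_option synthInstance.maxSize 2000

namespace StrAlg

open ReCalc

variable {α : Type} [Primcodable α] {D : Dat} {k : Type} [Field k] [Primcodable k]

theorem natAbsC {f : α → ℤ} (hf : Computable f) : Computable fun a => (f a).natAbs := by
  have h : Computable fun a => (f a).toNat + (-(f a)).toNat := addN (toNatZ hf) (toNatZ (negZ hf))
  exact h.of_eq fun a => by omega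

theorem zpC {B q : α → ℕ} (hB : Computable B) (hq : Computable q) : Computable fun a => zp (B a) (q a) := by
  exact subZ (castZ hq) (castZ (mulN (Computable.const 10) hB))

theorem wpC {B q : α → ℕ} (hB : Computable B) (hq : Computable q) : Computable fun a => wp (B a) (q a) := by
  exact subZ (castZ hq) (castZ (mulN (Computable.const 30) hB))

theorem pushvC (hadd : Computable₂ (fun a b : k => a + b)) (hmul : Computable₂ (fun a b : k => a * b))
    {X : α → EC D k} {w : α → SC D} {o : α → Bool} {c q z : α → ℤ} {j : α → ℕ} (hX : Computable X) (hw : Computable w)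
    (ho : Computable o) (hc : Computable c) (hq : Computable q) (hj : Computable j) (hz : Computable z) :
    Computable fun a => pushv (X a) (w a) (o a) (c a) (q a) (j a) (z a) := by
  unfold pushv
  have f1 : Computable (Prod.fst : α × ℕ → α) := Computable.fst
  have hXb : Computable fun a => (X a).1 := Computable.fst.comp hX
  have hn : Computable fun a => (z a - q a).natAbs := natAbsC (subZ hz hq)
  have hd : Computable fun a => (decide (q a ≤ z a) == o a) := beqC (DP.decide (DP.leZ hq hz)) ho
  refine DP.ite (p := fun a => ∀ m < (z a - q a).natAbs,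
    agC (bcS (X a).1) (w a) (o a) (decide (q a ≤ z a) == o a) (c a) (q a) m) ?_ ?_ (Computable.const 0)
  · refine DP.forall_lt (f := fun a => (z a - q a).natAbs)
      (q := fun a m => agC (bcS (X a).1) (w a) (o a) (decide (q a ≤ z a) == o a) (c a) (q a) m) hn ?_
    exact agCD ((bcSC hXb).comp f1) (hw.comp f1) (ho.comp f1) (hd.comp f1) (hc.comp f1) (hq.comp f1) Computable.snd
  · exact entC (avC hadd hmul hX (stnC hd (castZ hn) hc)) hj

theorem pullvC (hadd : Computable₂ (fun a b : k => a + b)) (hmul : Computable₂ (fun a b : k => a * b))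
    {Y : α → EC D k} {w : α → SC D} {o : α → Bool} {q r z : α → ℤ} {j : α → ℕ} (hw : Computable w) (hY : Computable Y)
    (ho : Computable o) (hq : Computable q) (hr : Computable r) (hj : Computable j) (hz : Computable z) :
    Computable fun a => pullv (w a) (Y a) (o a) (q a) (r a) (j a) (z a) := by
  unfold pullv
  have f1 : Computable (Prod.fst : α × ℕ → α) := Computable.fst
  have hYb : Computable fun a => (Y a).1 := Computable.fst.comp hY
  have hn : Computable fun a => (z a - q a).natAbs := natAbsC (subZ hz hq)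
  have hd0 : Computable fun a => decide (q a ≤ z a) := DP.decide (DP.leZ hq hz)
  have hd : Computable fun a => (decide (q a ≤ z a) == o a) := beqC hd0 ho
  refine DP.ite (p := fun a => ∀ m < (z a - q a).natAbs,
    agC (w a) (bcS (Y a).1) (o a) (decide (q a ≤ z a)) (q a) (r a) m) ?_ ?_ (Computable.const 0)
  · refine DP.forall_lt (f := fun a => (z a - q a).natAbs)
      (q := fun a m => agC (w a) (bcS (Y a).1) (o a) (decide (q a ≤ z a)) (q a) (r a) m) hn ?_
    exact agCD (hw.comp f1) ((bcSC hYb).comp f1) (ho.comp f1) (hd0.comp f1) (hq.comp f1) (hr.comp f1) Computable.snd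
  · exact entC (bvC hadd hmul hY (stnC hd (castZ hn) hr)) hj

/-- `[true, false].flatMap f = f true ++ f false` is the easiest way for `o`; `DP.ite` for the condition -/
theorem inVecsC (hadd : Computable₂ (fun a b : k => a + b)) (hmul : Computable₂ (fun a b : k => a * b))
    {B : α → ℕ} {p : α → NC D k} {w : α → SC D} (hB : Computable B) (hp : Computable p) (hw : Computable w) :
    Computable fun a => inVecs (B a) (p a) (w a) := by
  classical
  unfold inVecs
  refine flatMapC (f := fun a => (p a).1) (Computable.fst.comp hp) ?_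
  refine flatMapC (f := fun t : α × EC D k => List.range (bcP t.2.1))
    (h := fun (t : α × EC D k) (c : ℕ) => [true, false].flatMap fun (o : Bool) =>
      (List.range (20 * B t.1 + 1)).flatMap fun (q : ℕ) =>
        if ordC (20 * B t.1) (bcS t.2.1) (w t.1) o (c : ℤ) (zp (B t.1) q) then
          (List.range (bcN t.2.1)).map fun (j : ℕ) =>
            (List.range (60 * B t.1 + 1)).map fun (z : ℕ) => pushv t.2 (w t.1) o (c : ℤ) (zp (B t.1) q) j (wp (B t.1) z)
        else [])
    (rangeC (bcPC (Computable.fst.comp Computable.snd))) ?_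
  refine flatMapC (f := fun _ : (α × EC D k) × ℕ => [true, false])
    (h := fun (t : (α × EC D k) × ℕ) (o : Bool) =>
      (List.range (20 * B t.1.1 + 1)).flatMap fun (q : ℕ) =>
        if ordC (20 * B t.1.1) (bcS t.1.2.1) (w t.1.1) o (t.2 : ℤ) (zp (B t.1.1) q) then
          (List.range (bcN t.1.2.1)).map fun (j : ℕ) =>
            (List.range (60 * B t.1.1 + 1)).map fun (z : ℕ) =>
              pushv t.1.2 (w t.1.1) o (t.2 : ℤ) (zp (B t.1.1) q) j (wp (B t.1.1) z)
        else [])
    (Computable.const [true, false]) ?_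
  have hB1 : Computable fun t : ((α × EC D k) × ℕ) × Bool => B t.1.1.1 :=
    hB.comp (Computable.fst.comp (Computable.fst.comp Computable.fst))
  refine flatMapC (f := fun t : ((α × EC D k) × ℕ) × Bool => List.range (20 * B t.1.1.1 + 1))
    (h := fun (t : ((α × EC D k) × ℕ) × Bool) (q : ℕ) =>
        if ordC (20 * B t.1.1.1) (bcS t.1.1.2.1) (w t.1.1.1) t.2 (t.1.2 : ℤ) (zp (B t.1.1.1) q) then
          (List.range (bcN t.1.1.2.1)).map fun (j : ℕ) =>
            (List.range (60 * B t.1.1.1 + 1)).map fun (z : ℕ) =>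
              pushv t.1.1.2 (w t.1.1.1) t.2 (t.1.2 : ℤ) (zp (B t.1.1.1) q) j (wp (B t.1.1.1) z)
        else [])
    (rangeC (Computable.succ.comp (mulN (Computable.const 20) hB1))) ?_
  have e1 : Computable fun t : (((α × EC D k) × ℕ) × Bool) × ℕ => t.1.1.1.1 :=
    Computable.fst.comp (Computable.fst.comp (Computable.fst.comp Computable.fst))
  have e2 : Computable fun t : (((α × EC D k) × ℕ) × Bool) × ℕ => t.1.1.1.2 :=
    Computable.snd.comp (Computable.fst.comp (Computable.fst.comp Computable.fst))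
  have e3 : Computable fun t : (((α × EC D k) × ℕ) × Bool) × ℕ => t.1.1.2 :=
    Computable.snd.comp (Computable.fst.comp Computable.fst)
  have e4 : Computable fun t : (((α × EC D k) × ℕ) × Bool) × ℕ => t.1.2 := Computable.snd.comp Computable.fst
  have e5 : Computable fun t : (((α × EC D k) × ℕ) × Bool) × ℕ => t.2 := Computable.snd
  have hB2 : Computable fun t : (((α × EC D k) × ℕ) × Bool) × ℕ => B t.1.1.1.1 := hB.comp e1
  have hw2 : Computable fun t : (((α × EC D k) × ℕ) × Bool) × ℕ => w t.1.1.1.1 := hw.comp e1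
  refine DP.ite (p := fun t : (((α × EC D k) × ℕ) × Bool) × ℕ =>
    ordC (20 * B t.1.1.1.1) (bcS t.1.1.1.2.1) (w t.1.1.1.1) t.1.2 (t.1.1.2 : ℤ) (zp (B t.1.1.1.1) t.2)) ?_ ?_
    (Computable.const [])
  · exact ordCD (mulN (Computable.const 20) hB2) (bcSC (Computable.fst.comp e2)) hw2 e4 (castZ e3) (zpC hB2 e5)
  · refine mapC (f := fun t : (((α × EC D k) × ℕ) × Bool) × ℕ => List.range (bcN t.1.1.1.2.1))
      (h := fun (t : (((α × EC D k) × ℕ) × Bool) × ℕ) (j : ℕ) =>
        (List.range (60 * B t.1.1.1.1 + 1)).map fun (z : ℕ) =>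
          pushv t.1.1.1.2 (w t.1.1.1.1) t.1.2 (t.1.1.2 : ℤ) (zp (B t.1.1.1.1) t.2) j (wp (B t.1.1.1.1) z))
      (rangeC (bcNC (Computable.fst.comp e2))) ?_
    have c1 : Computable fun t : ((((α × EC D k) × ℕ) × Bool) × ℕ) × ℕ => t.1 := Computable.fst
    refine mapC (f := fun t : ((((α × EC D k) × ℕ) × Bool) × ℕ) × ℕ => List.range (60 * B t.1.1.1.1.1 + 1))
      (h := fun (t : ((((α × EC D k) × ℕ) × Bool) × ℕ) × ℕ) (z : ℕ) =>
          pushv t.1.1.1.1.2 (w t.1.1.1.1.1) t.1.1.2 (t.1.1.1.2 : ℤ) (zp (B t.1.1.1.1.1) t.1.2) t.2 (wp (B t.1.1.1.1.1) z))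
      (rangeC (Computable.succ.comp (mulN (Computable.const 60) (hB2.comp c1)))) ?_
    have d1 : Computable fun t : (((((α × EC D k) × ℕ) × Bool) × ℕ) × ℕ) × ℕ => t.1.1 := Computable.fst.comp Computable.fst
    have hB3 : Computable fun t : (((((α × EC D k) × ℕ) × Bool) × ℕ) × ℕ) × ℕ => B t.1.1.1.1.1.1 := hB2.comp d1
    exact pushvC hadd hmul (e2.comp d1) (hw2.comp d1) (e4.comp d1) (castZ (e3.comp d1)) (zpC hB3 (e5.comp d1))
      (Computable.snd.comp Computable.fst) (wpC hB3 Computable.snd)

theorem outVecsC (hadd : Computable₂ (fun a b : k => a + b)) (hmul : Computable₂ (fun a b : k => a * b))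
    {B : α → ℕ} {p : α → NC D k} {w : α → SC D} (hB : Computable B) (hp : Computable p) (hw : Computable w) :
    Computable fun a => outVecs (B a) (p a) (w a) := by
  classical
  unfold outVecs
  refine flatMapC (f := fun a => (p a).2) (Computable.snd.comp hp) ?_
  refine flatMapC (f := fun t : α × EC D k => List.range (bcP t.2.1))
    (h := fun (t : α × EC D k) (r : ℕ) => [true, false].flatMap fun (o : Bool) =>
      (List.range (20 * B t.1 + 1)).flatMap fun (q : ℕ) =>
        if ordC (20 * B t.1) (w t.1) (bcS t.2.1) o (zp (B t.1) q) (r : ℤ) then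
          (List.range (bcN t.2.1)).map fun (j : ℕ) =>
            (List.range (60 * B t.1 + 1)).map fun (z : ℕ) => pullv (w t.1) t.2 o (zp (B t.1) q) (r : ℤ) j (wp (B t.1) z)
        else [])
    (rangeC (bcPC (Computable.fst.comp Computable.snd))) ?_
  refine flatMapC (f := fun _ : (α × EC D k) × ℕ => [true, false])
    (h := fun (t : (α × EC D k) × ℕ) (o : Bool) =>
      (List.range (20 * B t.1.1 + 1)).flatMap fun (q : ℕ) =>
        if ordC (20 * B t.1.1) (w t.1.1) (bcS t.1.2.1) o (zp (B t.1.1) q) (t.2 : ℤ) then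
          (List.range (bcN t.1.2.1)).map fun (j : ℕ) =>
            (List.range (60 * B t.1.1 + 1)).map fun (z : ℕ) =>
              pullv (w t.1.1) t.1.2 o (zp (B t.1.1) q) (t.2 : ℤ) j (wp (B t.1.1) z)
        else [])
    (Computable.const [true, false]) ?_
  have hB1 : Computable fun t : ((α × EC D k) × ℕ) × Bool => B t.1.1.1 :=
    hB.comp (Computable.fst.comp (Computable.fst.comp Computable.fst))
  refine flatMapC (f := fun t : ((α × EC D k) × ℕ) × Bool => List.range (20 * B t.1.1.1 + 1))
    (h := fun (t : ((α × EC D k) × ℕ) × Bool) (q : ℕ) =>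
        if ordC (20 * B t.1.1.1) (w t.1.1.1) (bcS t.1.1.2.1) t.2 (zp (B t.1.1.1) q) (t.1.2 : ℤ) then
          (List.range (bcN t.1.1.2.1)).map fun (j : ℕ) =>
            (List.range (60 * B t.1.1.1 + 1)).map fun (z : ℕ) =>
              pullv (w t.1.1.1) t.1.1.2 t.2 (zp (B t.1.1.1) q) (t.1.2 : ℤ) j (wp (B t.1.1.1) z)
        else [])
    (rangeC (Computable.succ.comp (mulN (Computable.const 20) hB1))) ?_
  have e1 : Computable fun t : (((α × EC D k) × ℕ) × Bool) × ℕ => t.1.1.1.1 :=
    Computable.fst.comp (Computable.fst.comp (Computable.fst.comp Computable.fst))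
  have e2 : Computable fun t : (((α × EC D k) × ℕ) × Bool) × ℕ => t.1.1.1.2 :=
    Computable.snd.comp (Computable.fst.comp (Computable.fst.comp Computable.fst))
  have e3 : Computable fun t : (((α × EC D k) × ℕ) × Bool) × ℕ => t.1.1.2 :=
    Computable.snd.comp (Computable.fst.comp Computable.fst)
  have e4 : Computable fun t : (((α × EC D k) × ℕ) × Bool) × ℕ => t.1.2 := Computable.snd.comp Computable.fst
  have e5 : Computable fun t : (((α × EC D k) × ℕ) × Bool) × ℕ => t.2 := Computable.snd
  have hB2 : Computable fun t : (((α × EC D k) × ℕ) × Bool) × ℕ => B t.1.1.1.1 := hB.comp e1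
  have hw2 : Computable fun t : (((α × EC D k) × ℕ) × Bool) × ℕ => w t.1.1.1.1 := hw.comp e1
  refine DP.ite (p := fun t : (((α × EC D k) × ℕ) × Bool) × ℕ =>
    ordC (20 * B t.1.1.1.1) (w t.1.1.1.1) (bcS t.1.1.1.2.1) t.1.2 (zp (B t.1.1.1.1) t.2) (t.1.1.2 : ℤ)) ?_ ?_
    (Computable.const [])
  · exact ordCD (mulN (Computable.const 20) hB2) hw2 (bcSC (Computable.fst.comp e2)) e4 (zpC hB2 e5) (castZ e3)
  · refine mapC (f := fun t : (((α × EC D k) × ℕ) × Bool) × ℕ => List.range (bcN t.1.1.1.2.1))
      (h := fun (t : (((α × EC D k) × ℕ) × Bool) × ℕ) (j : ℕ) =>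
        (List.range (60 * B t.1.1.1.1 + 1)).map fun (z : ℕ) =>
          pullv (w t.1.1.1.1) t.1.1.1.2 t.1.2 (zp (B t.1.1.1.1) t.2) (t.1.1.2 : ℤ) j (wp (B t.1.1.1.1) z))
      (rangeC (bcNC (Computable.fst.comp e2))) ?_
    have c1 : Computable fun t : ((((α × EC D k) × ℕ) × Bool) × ℕ) × ℕ => t.1 := Computable.fst
    refine mapC (f := fun t : ((((α × EC D k) × ℕ) × Bool) × ℕ) × ℕ => List.range (60 * B t.1.1.1.1.1 + 1))
      (h := fun (t : ((((α × EC D k) × ℕ) × Bool) × ℕ) × ℕ) (z : ℕ) =>
          pullv (w t.1.1.1.1.1) t.1.1.1.1.2 t.1.1.2 (zp (B t.1.1.1.1.1) t.1.2) (t.1.1.1.2 : ℤ) t.2 (wp (B t.1.1.1.1.1) z))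
      (rangeC (Computable.succ.comp (mulN (Computable.const 60) (hB2.comp c1)))) ?_
    have d1 : Computable fun t : (((((α × EC D k) × ℕ) × Bool) × ℕ) × ℕ) × ℕ => t.1.1 := Computable.fst.comp Computable.fst
    have hB3 : Computable fun t : (((((α × EC D k) × ℕ) × Bool) × ℕ) × ℕ) × ℕ => B t.1.1.1.1.1.1 := hB2.comp d1
    exact pullvC hadd hmul (hw2.comp d1) (e2.comp d1) (e4.comp d1) (zpC hB3 (e5.comp d1)) (castZ (e3.comp d1))
      (Computable.snd.comp Computable.fst) (wpC hB3 Computable.snd)

theorem matSC (hadd : Computable₂ (fun a b : k => a + b)) (hmul : Computable₂ (fun a b : k => a * b))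
    {B : α → ℕ} {p : α → NC D k} {w : α → SC D} (hB : Computable B) (hp : Computable p) (hw : Computable w) :
    Computable fun a => matS (B a) (p a) (w a) := by
  unfold matS
  exact pairMC hadd hmul (outVecsC hadd hmul hB hp hw) (inVecsC hadd hmul hB hp hw)
    (Computable.succ.comp (mulN (Computable.const 60) hB))

end StrAlg
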