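import Pool.Agent.Lib.MP_b9fd58_lc.K2CmpA

/-!
# Stream K2: computability of the certificates of type P
-/

set_option autoImplicit false
set_option synthInstance.maxSize 2000

namespace StrAlg

open ReCalc

variable {α : Type} [Primcodable α] {D : Dat} {k : Type} [Field k] [Primcodable k]

theorem nmxC {L : α → List (EC D k)} (hL : Computable L) : Computable fun a => nmx (L a) := by
  unfold nmx
  refine foldrC (f := fun a => (L a).map fun t => bcN t.1) (g := fun _ => 0) (h := fun _ (b s : ℕ) => max b s) ?_
    (Computable.const 0) ?_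
  · exact mapC (h := fun _ (t : EC D k) => bcN t.1) hL (bcNC (Computable.fst.comp Computable.snd))
  · exact (Primrec.nat_max.to_comp).comp (Computable.fst.comp Computable.snd) (Computable.snd.comp Computable.snd)

theorem piVC (hadd : Computable₂ (fun a b : k => a + b)) (hmul : Computable₂ (fun a b : k => a * b))
    {n N : α → ℕ} {T π v : α → List k} (hn : Computable n) (hT : Computable T) (hπ : Computable π) (hN : Computable N)
    (hv : Computable v) : Computable fun a => piV (n a) (T a) (π a) (N a) (v a) := by
  unfold piV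
  exact iterC (h := fun a (s : List k) => polV (n a) (T a) (π a) s) (Computable.succ.comp hN) hv
    (polVC hadd hmul (hn.comp Computable.fst) (hT.comp Computable.fst) (hπ.comp Computable.fst) Computable.snd)

theorem eVC (hadd : Computable₂ (fun a b : k => a + b)) (hmul : Computable₂ (fun a b : k => a * b))
    {n N : α → ℕ} {T π h v : α → List k} (hn : Computable n) (hT : Computable T) (hπ : Computable π) (hh : Computable h)
    (hN : Computable N) (hv : Computable v) : Computable fun a => eV (n a) (T a) (π a) (h a) (N a) (v a) := by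
  unfold eV
  have h1 : Computable fun a => piV (n a) (T a) (π a) (N a) (polV (n a) (T a) (h a) (v a)) :=
    piVC hadd hmul hn hT hπ hN (polVC hadd hmul hn hT hh hv)
  exact listC (f := fun a i => ent (v a) i - ent (piV (n a) (T a) (π a) (N a) (polV (n a) (T a) (h a) (v a))) i) hn
    (subK hadd (entC (hv.comp Computable.fst) Computable.snd) (entC (h1.comp Computable.fst) Computable.snd))

open Classical in
theorem K2CmpC_in {B : α → ℕ} {c : α → BC D k} {Y : α → EC D k} {x y : α → ℕ} {o : α → Bool} (hB : Computable B)
    (hc : Computable c) (hY : Computable Y) (hx : Computable x) (hy : Computable y) (ho : Computable o) :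
    Computable fun a => if ordC (20 * B a) (bcS (c a)) (bcS (Y a).1) (o a) (x a : ℤ) (y a : ℤ) then
        (List.range (bcN (Y a).1)).map fun (j : ℕ) => ((Y a, x a, y a, o a, j) : GX D k)
      else [] := by
  refine DP.ite (p := fun a => ordC (20 * B a) (bcS (c a)) (bcS (Y a).1) (o a) (x a : ℤ) (y a : ℤ))
    (ordCD (mulN (Computable.const 20) hB) (bcSC hc) (bcSC (Computable.fst.comp hY)) ho (castZ hx) (castZ hy)) ?_
    (Computable.const [])
  refine mapC (h := fun a (j : ℕ) => ((Y a, x a, y a, o a, j) : GX D k)) (rangeC (bcNC (Computable.fst.comp hY))) ?_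
  exact Computable.pair (hY.comp Computable.fst) (Computable.pair (hx.comp Computable.fst)
    (Computable.pair (hy.comp Computable.fst) (Computable.pair (ho.comp Computable.fst) Computable.snd)))

theorem gPC {B : α → ℕ} {p : α → NC D k} {c : α → BC D k} (hB : Computable B) (hp : Computable p) (hc : Computable c) :
    Computable fun a => gP (B a) (p a) (c a) := by
  classical
  unfold gP
  refine flatMapC (f := fun a => (p a).2) (h := fun a (Y : EC D k) => (List.range (bcP (c a))).flatMap fun (x : ℕ) =>
    (List.range (bcP Y.1)).flatMap fun (y : ℕ) => [true, false].flatMap fun (o : Bool) =>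
      if ordC (20 * B a) (bcS (c a)) (bcS Y.1) o (x : ℤ) (y : ℤ) then
        (List.range (bcN Y.1)).map fun (j : ℕ) => ((Y, x, y, o, j) : GX D k)
      else []) (Computable.snd.comp hp) ?_
  refine flatMapC (f := fun t : α × EC D k => List.range (bcP (c t.1))) (h := fun (t : α × EC D k) (x : ℕ) =>
    (List.range (bcP t.2.1)).flatMap fun (y : ℕ) => [true, false].flatMap fun (o : Bool) =>
      if ordC (20 * B t.1) (bcS (c t.1)) (bcS t.2.1) o (x : ℤ) (y : ℤ) then
        (List.range (bcN t.2.1)).map fun (j : ℕ) => ((t.2, x, y, o, j) : GX D k)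
      else []) (rangeC (bcPC (hc.comp Computable.fst))) ?_
  refine flatMapC (f := fun t : (α × EC D k) × ℕ => List.range (bcP t.1.2.1))
    (h := fun (t : (α × EC D k) × ℕ) (y : ℕ) => [true, false].flatMap fun (o : Bool) =>
      if ordC (20 * B t.1.1) (bcS (c t.1.1)) (bcS t.1.2.1) o (t.2 : ℤ) (y : ℤ) then
        (List.range (bcN t.1.2.1)).map fun (j : ℕ) => ((t.1.2, t.2, y, o, j) : GX D k)
      else []) (rangeC (bcPC (Computable.fst.comp (Computable.snd.comp Computable.fst)))) ?_
  refine flatMapC (f := fun _ : ((α × EC D k) × ℕ) × ℕ => [true, false])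
    (h := fun (t : ((α × EC D k) × ℕ) × ℕ) (o : Bool) =>
      if ordC (20 * B t.1.1.1) (bcS (c t.1.1.1)) (bcS t.1.1.2.1) o (t.1.2 : ℤ) (t.2 : ℤ) then
        (List.range (bcN t.1.1.2.1)).map fun (j : ℕ) => ((t.1.1.2, t.1.2, t.2, o, j) : GX D k)
      else []) (Computable.const _) ?_
  have g0 : Computable fun t : (((α × EC D k) × ℕ) × ℕ) × Bool => t.1.1.1 :=
    Computable.fst.comp (Computable.fst.comp Computable.fst)
  have ga : Computable fun t : (((α × EC D k) × ℕ) × ℕ) × Bool => t.1.1.1.1 := Computable.fst.comp g0
  have gY : Computable fun t : (((α × EC D k) × ℕ) × ℕ) × Bool => t.1.1.1.2 := Computable.snd.comp g0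
  have gx : Computable fun t : (((α × EC D k) × ℕ) × ℕ) × Bool => t.1.1.2 :=
    Computable.snd.comp (Computable.fst.comp Computable.fst)
  have gy : Computable fun t : (((α × EC D k) × ℕ) × ℕ) × Bool => t.1.2 := Computable.snd.comp Computable.fst
  exact K2CmpC_in (hB.comp ga) (hc.comp ga) gY gx gy Computable.snd

theorem vPC (hadd : Computable₂ (fun a b : k => a + b)) (hmul : Computable₂ (fun a b : k => a * b))
    {B : α → ℕ} {X : α → EC D k} {g : α → GX D k} (hB : Computable B) (hX : Computable X) (hg : Computable g) :
    Computable fun a => vP (B a) (X a) (g a) := by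
  unfold vP
  have h1 : Computable fun a => (g a).2 := Computable.snd.comp hg
  have h2 : Computable fun a => (g a).2.2 := Computable.snd.comp h1
  have h3 : Computable fun a => (g a).2.2.2 := Computable.snd.comp h2
  exact omColC hadd hmul (mulN (Computable.const 20) hB) hX (Computable.fst.comp hg) (Computable.fst.comp h3)
    (castZ (Computable.fst.comp h1)) (castZ (Computable.fst.comp h2)) (Computable.snd.comp h3)

theorem primPCD (hadd : Computable₂ (fun a b : k => a + b)) (hmul : Computable₂ (fun a b : k => a * b))
    {B N : α → ℕ} {p : α → NC D k} {c : α → BC D k} {π h : α → List k} (hB : Computable B) (hp : Computable p)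
    (hc : Computable c) (hπ : Computable π) (hh : Computable h) (hN : Computable N) :
    DP fun a => primPC (B a) (p a) (c a) (π a) (h a) (N a) := by
  unfold primPC
  refine DP.forall_mem (f := fun a => (p a).1) (q := fun a (X : EC D k) => sameC (B a) X.1 (c a) →
    ∀ g ∈ gP (B a) (p a) (c a), piV (bcN X.1) (bcM X.1) (π a) (N a)
      (eV (bcN X.1) (bcM X.1) (π a) (h a) (N a) (vP (B a) X g)) = zeroV (bcN X.1)) (Computable.fst.comp hp) ?_
  have gX : Computable fun t : α × EC D k => t.2.1 := Computable.fst.comp Computable.snd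
  refine DP.imp (sameCD (hB.comp Computable.fst) gX (hc.comp Computable.fst)) ?_
  refine DP.forall_mem (f := fun t : α × EC D k => gP (B t.1) (p t.1) (c t.1)) (q := fun t (g : GX D k) =>
    piV (bcN t.2.1) (bcM t.2.1) (π t.1) (N t.1)
      (eV (bcN t.2.1) (bcM t.2.1) (π t.1) (h t.1) (N t.1) (vP (B t.1) t.2 g)) = zeroV (bcN t.2.1))
    (gPC (hB.comp Computable.fst) (hp.comp Computable.fst) (hc.comp Computable.fst)) ?_
  have ga : Computable fun t : (α × EC D k) × GX D k => t.1.1 := Computable.fst.comp Computable.fst
  have gb : Computable fun t : (α × EC D k) × GX D k => t.1.2 := Computable.snd.comp Computable.fst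
  have gb1 : Computable fun t : (α × EC D k) × GX D k => t.1.2.1 := Computable.fst.comp gb
  exact DP.eq (piVC hadd hmul (bcNC gb1) (bcMC gb1) (hπ.comp ga) (hN.comp ga)
    (eVC hadd hmul (bcNC gb1) (bcMC gb1) (hπ.comp ga) (hh.comp ga) (hN.comp ga)
      (vPC hadd hmul (hB.comp ga) gb Computable.snd))) (zeroVC (bcNC gb1))

end StrAlg
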