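import Pool.Agent.Lib.MP_b9fd58_lc.K2CmpA

/-!
# Stream K2: computability of the certificates of type A
-/

set_option autoImplicit false
set_option synthInstance.maxSize 2000

namespace StrAlg

open ReCalc

variable {α : Type} [Primcodable α] {D : Dat} {k : Type} [Field k] [Primcodable k]

theorem nmxC' {L : α → List (EC D k)} (hL : Computable L) : Computable fun a => nmx (L a) := by
  unfold nmx
  refine foldrC (f := fun a => (L a).map fun t => bcN t.1) (g := fun _ => 0) (h := fun _ b s => max b s) ?_
    (Computable.const 0) ?_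
  · exact mapC (h := fun _ (t : EC D k) => bcN t.1) hL (bcNC (Computable.fst.comp Computable.snd))
  · exact Primrec.nat_max.to_comp.comp (Computable.fst.comp Computable.snd) (Computable.snd.comp Computable.snd)

theorem piLC (hadd : Computable₂ (fun a b : k => a + b)) (hmul : Computable₂ (fun a b : k => a * b))
    {n N : α → ℕ} {T π v : α → List k} (hn : Computable n) (hT : Computable T) (hπ : Computable π) (hN : Computable N)
    (hv : Computable v) : Computable fun a => piL (n a) (T a) (π a) (N a) (v a) := by
  unfold piL
  exact iterC (f := fun a => N a + 1) (g := v) (h := fun a s => polL (n a) (T a) (π a) s) (Computable.succ.comp hN) hv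
    (polLC hadd hmul (hn.comp Computable.fst) (hT.comp Computable.fst) (hπ.comp Computable.fst) Computable.snd)

theorem eLC (hadd : Computable₂ (fun a b : k => a + b)) (hmul : Computable₂ (fun a b : k => a * b))
    {n N : α → ℕ} {T π h v : α → List k} (hn : Computable n) (hT : Computable T) (hπ : Computable π) (hh : Computable h)
    (hN : Computable N) (hv : Computable v) : Computable fun a => eL (n a) (T a) (π a) (h a) (N a) (v a) := by
  unfold eL
  refine listC (f := fun a i => ent (v a) i - ent (piL (n a) (T a) (π a) (N a) (polL (n a) (T a) (h a) (v a))) i) hn ?_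
  have h1 : Computable fun a => piL (n a) (T a) (π a) (N a) (polL (n a) (T a) (h a) (v a)) :=
    piLC hadd hmul hn hT hπ hN (polLC hadd hmul hn hT hh hv)
  exact subK hadd (entC (hv.comp Computable.fst) Computable.snd) (entC (h1.comp Computable.fst) Computable.snd)

open Classical in
theorem K2CmpD_in {B : α → ℕ} {X : α → EC D k} {c : α → BC D k} {a b : α → ℕ} {o : α → Bool} (hB : Computable B)
    (hX : Computable X) (hc : Computable c) (ha : Computable a) (hb : Computable b) (ho : Computable o) :
    Computable fun t => if ordC (20 * B t) (bcS (X t).1) (bcS (c t)) (o t) (a t : ℤ) (b t : ℤ) then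
        (List.range (bcN (X t).1)).map fun (j : ℕ) => ((X t, a t, b t, o t, j) : GX D k)
      else [] := by
  have hX1 : Computable fun t => (X t).1 := Computable.fst.comp hX
  refine DP.ite (p := fun t => ordC (20 * B t) (bcS (X t).1) (bcS (c t)) (o t) (a t : ℤ) (b t : ℤ))
    (ordCD (mulN (Computable.const 20) hB) (bcSC hX1) (bcSC hc) ho (castZ ha) (castZ hb)) ?_ (Computable.const [])
  exact mapC (f := fun t => List.range (bcN (X t).1)) (h := fun t (j : ℕ) => ((X t, a t, b t, o t, j) : GX D k))
    (rangeC (bcNC hX1))
    (Computable.pair (hX.comp Computable.fst) (Computable.pair (ha.comp Computable.fst)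
      (Computable.pair (hb.comp Computable.fst) (Computable.pair (ho.comp Computable.fst) Computable.snd))))

theorem gAC {B : α → ℕ} {p : α → NC D k} {c : α → BC D k} (hB : Computable B) (hp : Computable p) (hc : Computable c) :
    Computable fun a => gA (B a) (p a) (c a) := by
  classical
  unfold gA
  refine flatMapC (f := fun a => (p a).1) (h := fun t (X : EC D k) => (List.range (bcP X.1)).flatMap fun (a : ℕ) =>
    (List.range (bcP (c t))).flatMap fun (b : ℕ) => [true, false].flatMap fun (o : Bool) =>
      if ordC (20 * B t) (bcS X.1) (bcS (c t)) o (a : ℤ) (b : ℤ) then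
        (List.range (bcN X.1)).map fun (j : ℕ) => ((X, a, b, o, j) : GX D k)
      else []) (Computable.fst.comp hp) ?_
  refine flatMapC (f := fun t : α × EC D k => List.range (bcP t.2.1)) (h := fun t (a : ℕ) =>
    (List.range (bcP (c t.1))).flatMap fun (b : ℕ) => [true, false].flatMap fun (o : Bool) =>
      if ordC (20 * B t.1) (bcS t.2.1) (bcS (c t.1)) o (a : ℤ) (b : ℤ) then
        (List.range (bcN t.2.1)).map fun (j : ℕ) => ((t.2, a, b, o, j) : GX D k)
      else []) (rangeC (bcPC (Computable.fst.comp Computable.snd))) ?_
  refine flatMapC (f := fun t : (α × EC D k) × ℕ => List.range (bcP (c t.1.1))) (h := fun t (b : ℕ) =>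
    [true, false].flatMap fun (o : Bool) =>
      if ordC (20 * B t.1.1) (bcS t.1.2.1) (bcS (c t.1.1)) o (t.2 : ℤ) (b : ℤ) then
        (List.range (bcN t.1.2.1)).map fun (j : ℕ) => ((t.1.2, t.2, b, o, j) : GX D k)
      else []) (rangeC (bcPC (hc.comp (Computable.fst.comp Computable.fst)))) ?_
  refine flatMapC (f := fun _ : ((α × EC D k) × ℕ) × ℕ => [true, false]) (h := fun t (o : Bool) =>
      if ordC (20 * B t.1.1.1) (bcS t.1.1.2.1) (bcS (c t.1.1.1)) o (t.1.2 : ℤ) (t.2 : ℤ) then
        (List.range (bcN t.1.1.2.1)).map fun (j : ℕ) => ((t.1.1.2, t.1.2, t.2, o, j) : GX D k)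
      else []) (Computable.const _) ?_
  have h0 : Computable fun t : (((α × EC D k) × ℕ) × ℕ) × Bool => t.1.1.1.1 :=
    Computable.fst.comp (Computable.fst.comp (Computable.fst.comp Computable.fst))
  exact K2CmpD_in (hB.comp h0)
    (Computable.snd.comp (Computable.fst.comp (Computable.fst.comp Computable.fst))) (hc.comp h0)
    (Computable.snd.comp (Computable.fst.comp Computable.fst)) (Computable.snd.comp Computable.fst) Computable.snd

theorem vAC (hadd : Computable₂ (fun a b : k => a + b)) (hmul : Computable₂ (fun a b : k => a * b))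
    {B : α → ℕ} {Y : α → EC D k} {g : α → GX D k} (hB : Computable B) (hY : Computable Y) (hg : Computable g) :
    Computable fun a => vA (B a) (Y a) (g a) := by
  unfold vA
  have h2 : Computable fun a => (g a).2 := Computable.snd.comp hg
  have h3 : Computable fun a => (g a).2.2 := Computable.snd.comp h2
  have h4 : Computable fun a => (g a).2.2.2 := Computable.snd.comp h3
  exact omRowC hadd hmul (mulN (Computable.const 20) hB) (Computable.fst.comp hg) hY (Computable.fst.comp h4)
    (castZ (Computable.fst.comp h2)) (castZ (Computable.fst.comp h3)) (Computable.snd.comp h4)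

theorem primACD (hadd : Computable₂ (fun a b : k => a + b)) (hmul : Computable₂ (fun a b : k => a * b))
    {B N : α → ℕ} {p : α → NC D k} {c : α → BC D k} {π h : α → List k} (hB : Computable B) (hp : Computable p)
    (hc : Computable c) (hπ : Computable π) (hh : Computable h) (hN : Computable N) :
    DP fun a => primAC (B a) (p a) (c a) (π a) (h a) (N a) := by
  unfold primAC
  refine DP.forall_mem (f := fun a => (p a).2) (q := fun t (Y : EC D k) => sameC (B t) Y.1 (c t) →
    ∀ g ∈ gA (B t) (p t) (c t), piL (bcN Y.1) (bcM Y.1) (π t) (N t)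
      (eL (bcN Y.1) (bcM Y.1) (π t) (h t) (N t) (vA (B t) Y g)) = zeroV (bcN Y.1)) (Computable.snd.comp hp) ?_
  refine DP.imp (sameCD (hB.comp Computable.fst) (Computable.fst.comp Computable.snd) (hc.comp Computable.fst)) ?_
  refine DP.forall_mem (f := fun t : α × EC D k => gA (B t.1) (p t.1) (c t.1)) (q := fun t g =>
    piL (bcN t.2.1) (bcM t.2.1) (π t.1) (N t.1)
      (eL (bcN t.2.1) (bcM t.2.1) (π t.1) (h t.1) (N t.1) (vA (B t.1) t.2 g)) = zeroV (bcN t.2.1))
    (gAC (hB.comp Computable.fst) (hp.comp Computable.fst) (hc.comp Computable.fst)) ?_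
  have h1 : Computable fun t : (α × EC D k) × GX D k => t.1.1 := Computable.fst.comp Computable.fst
  have hY : Computable fun t : (α × EC D k) × GX D k => t.1.2 := Computable.snd.comp Computable.fst
  have hY1 : Computable fun t : (α × EC D k) × GX D k => t.1.2.1 := Computable.fst.comp hY
  exact DP.eq (piLC hadd hmul (bcNC hY1) (bcMC hY1) (hπ.comp h1) (hN.comp h1)
    (eLC hadd hmul (bcNC hY1) (bcMC hY1) (hπ.comp h1) (hh.comp h1) (hN.comp h1)
      (vAC hadd hmul (hB.comp h1) hY Computable.snd))) (zeroVC (bcNC hY1))

end StrAlg
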