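import Pool.Agent.Lib.MP_b9fd58_lc.K2Defs
import Pool.Agent.Lib.MP_b9fd58_lc.KCmpC
import Pool.Agent.Lib.MP_b9fd58_lc.KCmpE

/-!
# Stream K2: computability of the rank certificates
-/

set_option autoImplicit false
set_option synthInstance.maxSize 2000

namespace StrAlg

open ReCalc

variable {α : Type} [Primcodable α] {D : Dat} {k : Type} [Field k] [Primcodable k]

/-- `memC`, `annC` as in the computability proof of `closedC`, `openC` (KCmpE.lean) -/
theorem fGeR (hadd : Computable₂ (fun a b : k => a + b)) (hmul : Computable₂ (fun a b : k => a * b))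
    {N : α → ℕ × List k} {φ ψ : α → PP D k} {n : α → ℕ} (hN : Computable N) (hφ : Computable φ) (hψ : Computable ψ)
    (hn : Computable n) : REPred fun a => fGe (N a) (φ a) (ψ a) (n a) := by
  unfold fGe
  refine re_ex (q := fun a (X : List k) => ∃ L : List k, (∀ i < n a, memC (N a) (φ a) (row (N a).1 X i)) ∧
    (∀ i < n a, annC (N a) (ψ a) (row (N a).1 L i)) ∧
    ∀ i < n a, ∀ j < n a,
      (∑ m ∈ Finset.range (N a).1, ent L (i * (N a).1 + m) * ent X (j * (N a).1 + m)) = if i = j then 1 else 0) ?_
  refine re_ex (q := fun (p : α × List k) (L : List k) =>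
    (∀ i < n p.1, memC (N p.1) (φ p.1) (row (N p.1).1 p.2 i)) ∧
    (∀ i < n p.1, annC (N p.1) (ψ p.1) (row (N p.1).1 L i)) ∧
    ∀ i < n p.1, ∀ j < n p.1,
      (∑ m ∈ Finset.range (N p.1).1, ent L (i * (N p.1).1 + m) * ent p.2 (j * (N p.1).1 + m)) =
        if i = j then 1 else 0) ?_
  have ha : Computable fun p : (α × List k) × List k => p.1.1 := Computable.fst.comp Computable.fst
  have hX : Computable fun p : (α × List k) × List k => p.1.2 := Computable.snd.comp Computable.fst
  have hL : Computable fun p : (α × List k) × List k => p.2 := Computable.snd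
  have hN1 : Computable fun a => (N a).1 := Computable.fst.comp hN
  refine re_and ?_ (re_and ?_ (DP.re ?_))
  · refine re_forall_lt (f := fun p : (α × List k) × List k => n p.1.1)
      (q := fun p i => memC (N p.1.1) (φ p.1.1) (row (N p.1.1).1 p.1.2 i)) (hn.comp ha) ?_
    exact memCR hadd hmul (hN.comp (ha.comp Computable.fst)) (hφ.comp (ha.comp Computable.fst))
      (rowC (hN1.comp (ha.comp Computable.fst)) (hX.comp Computable.fst) Computable.snd)
  · refine re_forall_lt (f := fun p : (α × List k) × List k => n p.1.1)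
      (q := fun p i => annC (N p.1.1) (ψ p.1.1) (row (N p.1.1).1 p.2 i)) (hn.comp ha) ?_
    exact annCR hadd hmul (hN.comp (ha.comp Computable.fst)) (hψ.comp (ha.comp Computable.fst))
      (rowC (hN1.comp (ha.comp Computable.fst)) (hL.comp Computable.fst) Computable.snd)
  · refine DP.forall_lt (f := fun p : (α × List k) × List k => n p.1.1)
      (q := fun p i => ∀ j < n p.1.1,
        (∑ m ∈ Finset.range (N p.1.1).1, ent p.2 (i * (N p.1.1).1 + m) * ent p.1.2 (j * (N p.1.1).1 + m)) =
        if i = j then 1 else 0) (hn.comp ha) ?_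
    refine DP.forall_lt (f := fun p : ((α × List k) × List k) × ℕ => n p.1.1.1)
      (q := fun p j =>
        (∑ m ∈ Finset.range (N p.1.1.1).1, ent p.1.2 (p.2 * (N p.1.1.1).1 + m) *
          ent p.1.1.2 (j * (N p.1.1.1).1 + m)) =
        if p.2 = j then 1 else 0) (hn.comp (ha.comp Computable.fst)) ?_
    refine DP.eq ?_ (DP.ite (DP.eq (Computable.snd.comp Computable.fst) Computable.snd) (Computable.const 1)
      (Computable.const 0))
    have g1 : Computable fun p : (((α × List k) × List k) × ℕ) × ℕ => p.1.1 := Computable.fst.comp Computable.fst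
    refine sumRangeC hadd (f := fun p : (((α × List k) × List k) × ℕ) × ℕ => (N p.1.1.1.1).1)
      (g := fun p m => ent p.1.1.2 (p.1.2 * (N p.1.1.1.1).1 + m) * ent p.1.1.1.2 (p.2 * (N p.1.1.1.1).1 + m))
      (hN1.comp (ha.comp g1)) ?_
    have g2 : Computable fun p : ((((α × List k) × List k) × ℕ) × ℕ) × ℕ => p.1.1.1 := g1.comp Computable.fst
    have g3 : Computable fun p : ((((α × List k) × List k) × ℕ) × ℕ) × ℕ => p.1.1.2 :=
      Computable.snd.comp (Computable.fst.comp Computable.fst)
    have g4 : Computable fun p : ((((α × List k) × List k) × ℕ) × ℕ) × ℕ => p.1.2 :=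
      Computable.snd.comp Computable.fst
    exact mulK hmul
      (entC (hL.comp g2) (addN (mulN g3 (hN1.comp (ha.comp g2))) Computable.snd))
      (entC (hX.comp g2) (addN (mulN g4 (hN1.comp (ha.comp g2))) Computable.snd))

theorem fLeR (hadd : Computable₂ (fun a b : k => a + b)) (hmul : Computable₂ (fun a b : k => a * b))
    {N : α → ℕ × List k} {φ ψ : α → PP D k} {n : α → ℕ} (hN : Computable N) (hφ : Computable φ) (hψ : Computable ψ)
    (hn : Computable n) : REPred fun a => fLe (N a) (φ a) (ψ a) (n a) := by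
  unfold fLe
  refine re_ex (q := fun a (P : List k) => ∃ F E : List k, (∀ m < (N a).1, memC (N a) (ψ a) (row (N a).1 P m)) ∧
    ∀ i < (N a).1, annC (N a) (φ a) ((List.range (N a).1).map fun m =>
      (if m = i then 1 else 0) - ent P (m * (N a).1 + i) -
      ∑ l ∈ Finset.range (n a), ent F (m * (n a) + l) * ent E (l * (N a).1 + i))) ?_
  refine re_ex (q := fun (p : α × List k) (F : List k) => ∃ E : List k,
    (∀ m < (N p.1).1, memC (N p.1) (ψ p.1) (row (N p.1).1 p.2 m)) ∧
    ∀ i < (N p.1).1, annC (N p.1) (φ p.1) ((List.range (N p.1).1).map fun m =>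
      (if m = i then 1 else 0) - ent p.2 (m * (N p.1).1 + i) -
      ∑ l ∈ Finset.range (n p.1), ent F (m * (n p.1) + l) * ent E (l * (N p.1).1 + i))) ?_
  refine re_ex (q := fun (p : (α × List k) × List k) (E : List k) =>
    (∀ m < (N p.1.1).1, memC (N p.1.1) (ψ p.1.1) (row (N p.1.1).1 p.1.2 m)) ∧
    ∀ i < (N p.1.1).1, annC (N p.1.1) (φ p.1.1) ((List.range (N p.1.1).1).map fun m =>
      (if m = i then 1 else 0) - ent p.1.2 (m * (N p.1.1).1 + i) -
      ∑ l ∈ Finset.range (n p.1.1), ent p.2 (m * (n p.1.1) + l) * ent E (l * (N p.1.1).1 + i))) ?_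
  have hN1 : Computable fun a => (N a).1 := Computable.fst.comp hN
  have ha : Computable fun p : ((α × List k) × List k) × List k => p.1.1.1 :=
    Computable.fst.comp (Computable.fst.comp Computable.fst)
  have hP : Computable fun p : ((α × List k) × List k) × List k => p.1.1.2 :=
    Computable.snd.comp (Computable.fst.comp Computable.fst)
  have hF : Computable fun p : ((α × List k) × List k) × List k => p.1.2 := Computable.snd.comp Computable.fst
  have hE : Computable fun p : ((α × List k) × List k) × List k => p.2 := Computable.snd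
  refine re_and ?_ ?_
  · refine re_forall_lt (f := fun p : ((α × List k) × List k) × List k => (N p.1.1.1).1)
      (q := fun p m => memC (N p.1.1.1) (ψ p.1.1.1) (row (N p.1.1.1).1 p.1.1.2 m)) (hN1.comp ha) ?_
    exact memCR hadd hmul (hN.comp (ha.comp Computable.fst)) (hψ.comp (ha.comp Computable.fst))
      (rowC (hN1.comp (ha.comp Computable.fst)) (hP.comp Computable.fst) Computable.snd)
  · refine re_forall_lt (f := fun p : ((α × List k) × List k) × List k => (N p.1.1.1).1)
      (q := fun p i => annC (N p.1.1.1) (φ p.1.1.1) ((List.range (N p.1.1.1).1).map fun m =>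
        (if m = i then 1 else 0) - ent p.1.1.2 (m * (N p.1.1.1).1 + i) -
        ∑ l ∈ Finset.range (n p.1.1.1), ent p.1.2 (m * (n p.1.1.1) + l) * ent p.2 (l * (N p.1.1.1).1 + i)))
      (hN1.comp ha) ?_
    refine annCR hadd hmul (hN.comp (ha.comp Computable.fst)) (hφ.comp (ha.comp Computable.fst)) ?_
    refine listC (n := fun p : (((α × List k) × List k) × List k) × ℕ => (N p.1.1.1.1).1)
      (f := fun p m => (if m = p.2 then 1 else 0) - ent p.1.1.1.2 (m * (N p.1.1.1.1).1 + p.2) -
        ∑ l ∈ Finset.range (n p.1.1.1.1), ent p.1.1.2 (m * (n p.1.1.1.1) + l) *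
          ent p.1.2 (l * (N p.1.1.1.1).1 + p.2)) (hN1.comp (ha.comp Computable.fst)) ?_
    have g1 : Computable fun p : ((((α × List k) × List k) × List k) × ℕ) × ℕ => p.1.1 :=
      Computable.fst.comp Computable.fst
    have gi : Computable fun p : ((((α × List k) × List k) × List k) × ℕ) × ℕ => p.1.2 :=
      Computable.snd.comp Computable.fst
    have gm : Computable fun p : ((((α × List k) × List k) × List k) × ℕ) × ℕ => p.2 := Computable.snd
    refine subK hadd (subK hadd (DP.ite (DP.eq gm gi) (Computable.const 1) (Computable.const 0)) ?_) ?_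
    · exact entC (hP.comp g1) (addN (mulN gm (hN1.comp (ha.comp g1))) gi)
    · refine sumRangeC hadd (f := fun p : ((((α × List k) × List k) × List k) × ℕ) × ℕ => n p.1.1.1.1.1)
        (g := fun p l => ent p.1.1.1.2 (p.2 * (n p.1.1.1.1.1) + l) * ent p.1.1.2 (l * (N p.1.1.1.1.1).1 + p.1.2))
        (hn.comp (ha.comp g1)) ?_
      have h1 : Computable fun p : (((((α × List k) × List k) × List k) × ℕ) × ℕ) × ℕ => p.1 := Computable.fst
      exact mulK hmul
        (entC (hF.comp (g1.comp h1)) (addN (mulN (gm.comp h1) (hn.comp (ha.comp (g1.comp h1)))) Computable.snd))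
        (entC (hE.comp (g1.comp h1)) (addN (mulN Computable.snd (hN1.comp (ha.comp (g1.comp h1)))) (gi.comp h1)))

end StrAlg
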