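import Pool.Agent.Lib.MP_b9fd58_lc.K2CmpB

/-!
# Stream K2: computability of the matrix of type S
-/

set_option autoImplicit false
set_option synthInstance.maxSize 2000

namespace StrAlg

open ReCalc

variable {α : Type} [Primcodable α] {D : Dat} {k : Type} [Field k] [Primcodable k]

/-- `noRelC` for one pair of blocks -/
def K2CmpG_nr (B : ℕ) (X Y : EC D k) (w : SC D) : Prop :=
  ∀ q < 20 * B + 1, (q ≤ 2 * B ∨ 18 * B ≤ q) → ∀ c < bcP X.1, ∀ r < bcP Y.1, ∀ o o' : Bool,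
    ordC (20 * B) (bcS X.1) w o (c : ℤ) (zp B q) → ordC (20 * B) w (bcS Y.1) o' (zp B q) (r : ℤ) →
    ∀ j < bcN X.1, ∀ j' < bcN Y.1, omC (20 * B) X Y (o == o') (c : ℤ) (r : ℤ) j j' = 0

theorem K2CmpG_nrD (hadd : Computable₂ (fun a b : k => a + b)) (hmul : Computable₂ (fun a b : k => a * b))
    {B : α → ℕ} {X Y : α → EC D k} {w : α → SC D} (hB : Computable B) (hX : Computable X)
    (hY : Computable Y) (hw : Computable w) : DP fun a => K2CmpG_nr (B a) (X a) (Y a) (w a) := by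
  unfold K2CmpG_nr
  refine DP.forall_lt (f := fun a => 20 * B a + 1) (q := fun a q => (q ≤ 2 * B a ∨ 18 * B a ≤ q) →
    ∀ c < bcP (X a).1, ∀ r < bcP (Y a).1, ∀ o o' : Bool,
    ordC (20 * B a) (bcS (X a).1) (w a) o (c : ℤ) (zp (B a) q) →
    ordC (20 * B a) (w a) (bcS (Y a).1) o' (zp (B a) q) (r : ℤ) →
    ∀ j < bcN (X a).1, ∀ j' < bcN (Y a).1, omC (20 * B a) (X a) (Y a) (o == o') (c : ℤ) (r : ℤ) j j' = 0)
    (Computable.succ.comp (mulN (Computable.const 20) hB)) ?_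
  refine DP.imp (DP.or (DP.le Computable.snd (mulN (Computable.const 2) (hB.comp Computable.fst)))
    (DP.le (mulN (Computable.const 18) (hB.comp Computable.fst)) Computable.snd)) ?_
  refine DP.forall_lt (f := fun t : α × ℕ => bcP (X t.1).1) (q := fun t c => ∀ r < bcP (Y t.1).1,
    ∀ o o' : Bool,
    ordC (20 * B t.1) (bcS (X t.1).1) (w t.1) o (c : ℤ) (zp (B t.1) t.2) →
    ordC (20 * B t.1) (w t.1) (bcS (Y t.1).1) o' (zp (B t.1) t.2) (r : ℤ) →
    ∀ j < bcN (X t.1).1, ∀ j' < bcN (Y t.1).1, omC (20 * B t.1) (X t.1) (Y t.1) (o == o') (c : ℤ) (r : ℤ) j j' = 0)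
    (bcPC (Computable.fst.comp (hX.comp Computable.fst))) ?_
  refine DP.forall_lt (f := fun t : (α × ℕ) × ℕ => bcP (Y t.1.1).1) (q := fun t r =>
    ∀ o o' : Bool,
    ordC (20 * B t.1.1) (bcS (X t.1.1).1) (w t.1.1) o (t.2 : ℤ) (zp (B t.1.1) t.1.2) →
    ordC (20 * B t.1.1) (w t.1.1) (bcS (Y t.1.1).1) o' (zp (B t.1.1) t.1.2) (r : ℤ) →
    ∀ j < bcN (X t.1.1).1, ∀ j' < bcN (Y t.1.1).1,
      omC (20 * B t.1.1) (X t.1.1) (Y t.1.1) (o == o') (t.2 : ℤ) (r : ℤ) j j' = 0)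
    (bcPC (Computable.fst.comp (hY.comp (Computable.fst.comp Computable.fst)))) ?_
  refine DP.forall_fin (q := fun (t : ((α × ℕ) × ℕ) × ℕ) (o : Bool) => ∀ o' : Bool,
    ordC (20 * B t.1.1.1) (bcS (X t.1.1.1).1) (w t.1.1.1) o (t.1.2 : ℤ) (zp (B t.1.1.1) t.1.1.2) →
    ordC (20 * B t.1.1.1) (w t.1.1.1) (bcS (Y t.1.1.1).1) o' (zp (B t.1.1.1) t.1.1.2) (t.2 : ℤ) →
    ∀ j < bcN (X t.1.1.1).1, ∀ j' < bcN (Y t.1.1.1).1,
      omC (20 * B t.1.1.1) (X t.1.1.1) (Y t.1.1.1) (o == o') (t.1.2 : ℤ) (t.2 : ℤ) j j' = 0) ?_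
  intro o
  refine DP.forall_fin (q := fun (t : ((α × ℕ) × ℕ) × ℕ) (o' : Bool) =>
    ordC (20 * B t.1.1.1) (bcS (X t.1.1.1).1) (w t.1.1.1) o (t.1.2 : ℤ) (zp (B t.1.1.1) t.1.1.2) →
    ordC (20 * B t.1.1.1) (w t.1.1.1) (bcS (Y t.1.1.1).1) o' (zp (B t.1.1.1) t.1.1.2) (t.2 : ℤ) →
    ∀ j < bcN (X t.1.1.1).1, ∀ j' < bcN (Y t.1.1.1).1,
      omC (20 * B t.1.1.1) (X t.1.1.1) (Y t.1.1.1) (o == o') (t.1.2 : ℤ) (t.2 : ℤ) j j' = 0) ?_
  intro o'
  have ga : Computable fun t : ((α × ℕ) × ℕ) × ℕ => t.1.1.1 :=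
    Computable.fst.comp (Computable.fst.comp Computable.fst)
  have gq : Computable fun t : ((α × ℕ) × ℕ) × ℕ => t.1.1.2 :=
    Computable.snd.comp (Computable.fst.comp Computable.fst)
  have gp : Computable fun t : ((α × ℕ) × ℕ) × ℕ => t.1.2 := Computable.snd.comp Computable.fst
  have gr : Computable fun t : ((α × ℕ) × ℕ) × ℕ => t.2 := Computable.snd
  have hK : Computable fun t : ((α × ℕ) × ℕ) × ℕ => 20 * B t.1.1.1 := mulN (Computable.const 20) (hB.comp ga)
  have hpos : Computable fun t : ((α × ℕ) × ℕ) × ℕ => zp (B t.1.1.1) t.1.1.2 := KCmpC_pos (hB.comp ga) gq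
  refine DP.imp (ordCD hK (bcSC (Computable.fst.comp (hX.comp ga))) (hw.comp ga) (Computable.const o) (castZ gp) hpos)
    (DP.imp (ordCD hK (hw.comp ga) (bcSC (Computable.fst.comp (hY.comp ga))) (Computable.const o') hpos (castZ gr)) ?_)
  exact KCmpC_aux1 hadd hmul (o == o') (hB.comp ga) (hX.comp ga) (hY.comp ga) gp gr

/-- like `critCD` in KCmpC.lean -/
theorem noRelCD (hadd : Computable₂ (fun a b : k => a + b)) (hmul : Computable₂ (fun a b : k => a * b))
    {B : α → ℕ} {p : α → NC D k} {w : α → SC D} (hB : Computable B) (hp : Computable p) (hw : Computable w) :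
    DP fun a => noRelC (B a) (p a) (w a) := by
  have ga : Computable fun t : (α × EC D k) × EC D k => t.1.1 := Computable.fst.comp Computable.fst
  exact DP.forall_mem (f := fun a => (p a).1) (q := fun a X => ∀ Y ∈ (p a).2, K2CmpG_nr (B a) X Y (w a))
    (Computable.fst.comp hp)
    (DP.forall_mem (f := fun t : α × EC D k => (p t.1).2) (q := fun t Y => K2CmpG_nr (B t.1) t.2 Y (w t.1))
      (Computable.snd.comp (hp.comp Computable.fst))
      (K2CmpG_nrD hadd hmul (hB.comp ga) (Computable.snd.comp Computable.fst) Computable.snd (hw.comp ga)))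

theorem aperCR {w : α → SC D} (hw : Computable w) : REPred fun a => aperC (w a) := by
  unfold aperC
  refine re_ex (q := fun a (B : ℕ) => scBig (w a) B ∧ ∃ q < 20 * B + 1, scF (w a) (zp B q) ≠
    scF (w a) (zp B q + (B : ℤ))) ?_
  refine re_and (scBigD (hw.comp Computable.fst) Computable.snd).re ?_
  refine re_exists_lt (f := fun t : α × ℕ => 20 * t.2 + 1) (q := fun t q => scF (w t.1) (zp t.2 q) ≠
    scF (w t.1) (zp t.2 q + (t.2 : ℤ))) (Computable.succ.comp (mulN (Computable.const 20) Computable.snd)) ?_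
  have ga : Computable fun t : (α × ℕ) × ℕ => t.1.1 := Computable.fst.comp Computable.fst
  have gb : Computable fun t : (α × ℕ) × ℕ => t.1.2 := Computable.snd.comp Computable.fst
  have hz : Computable fun t : (α × ℕ) × ℕ => zp t.1.2 t.2 := KCmpC_pos gb Computable.snd
  exact (DP.ne (scFC (hw.comp ga) hz) (scFC (hw.comp ga) (addZ hz (castZ gb)))).re

theorem geSR (hadd : Computable₂ (fun a b : k => a + b)) (hmul : Computable₂ (fun a b : k => a * b))
    {B : α → ℕ} {p : α → NC D k} {w : α → SC D} {n : α → ℕ} (hB : Computable B) (hp : Computable p) (hw : Computable w)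
    (hn : Computable n) : REPred fun a => geS (B a) (p a) (w a) (n a) :=
  rkGeR hadd hmul (matSC hadd hmul hB hp hw) hn

theorem eqSR (hadd : Computable₂ (fun a b : k => a + b)) (hmul : Computable₂ (fun a b : k => a * b))
    {B : α → ℕ} {p : α → NC D k} {w : α → SC D} {n : α → ℕ} (hB : Computable B) (hp : Computable p) (hw : Computable w)
    (hn : Computable n) : REPred fun a => eqS (B a) (p a) (w a) (n a) := by
  have hM := matSC hadd hmul hB hp hw
  exact re_and (noRelCD hadd hmul hB hp hw).re (re_and (rkGeR hadd hmul hM hn) (rkLeR hadd hmul hM hn))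

end StrAlg
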