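import Pool.Agent.Lib.MP_b9fd58_lc.K2CmpC

/-!
# Stream K2: computability of the certificates of type P
-/

set_option autoImplicit false
set_option synthInstance.maxSize 2000

namespace StrAlg

open ReCalc

variable {α : Type} [Primcodable α] {D : Dat} {k : Type} [Field k] [Primcodable k]

open Classical in
/-- an entry of the row -/
theorem K2CmpH_cell (hadd : Computable₂ (fun a b : k => a + b)) (hmul : Computable₂ (fun a b : k => a * b))
    {B N m j : α → ℕ} {X : α → EC D k} {c : α → BC D k} {π h : α → List k} {g : α → GX D k} (hB : Computable B)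
    (hX : Computable X) (hc : Computable c) (hπ : Computable π) (hh : Computable h) (hN : Computable N)
    (hm : Computable m) (hg : Computable g) (hj : Computable j) :
    Computable fun a => if sameC (B a) (X a).1 (c a) then
      ent (eV (bcN (X a).1) (bcM (X a).1) (π a) (h a) (N a)
        ((mv (bcN (X a).1) (bcM (X a).1))^[m a] (vP (B a) (X a) (g a)))) (j a) else 0 := by
  have hX1 : Computable fun a => (X a).1 := Computable.fst.comp hX
  refine DP.ite (p := fun a => sameC (B a) (X a).1 (c a)) (sameCD hB hX1 hc) ?_ (Computable.const 0)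
  refine entC (eVC hadd hmul (bcNC hX1) (bcMC hX1) hπ hh hN ?_) hj
  refine iterC (f := m) (g := fun a => vP (B a) (X a) (g a)) (h := fun a s => mv (bcN (X a).1) (bcM (X a).1) s) hm
    (vPC hadd hmul hB hX hg) ?_
  exact mvC hadd hmul (bcNC (hX1.comp Computable.fst)) (bcMC (hX1.comp Computable.fst)) Computable.snd

open Classical in
/-- an entry of the row, with the choice of the block -/
theorem K2CmpH_cell2 (hadd : Computable₂ (fun a b : k => a + b)) (hmul : Computable₂ (fun a b : k => a * b))
    {B N m j : α → ℕ} {X : α → Option (EC D k)} {c : α → BC D k} {π h : α → List k} {g : α → GX D k}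
    (hB : Computable B) (hX : Computable X) (hc : Computable c) (hπ : Computable π) (hh : Computable h)
    (hN : Computable N) (hm : Computable m) (hg : Computable g) (hj : Computable j) :
    Computable fun a => (Option.casesOn (X a) (0 : k) (fun x => if sameC (B a) x.1 (c a) then
      ent (eV (bcN x.1) (bcM x.1) (π a) (h a) (N a)
        ((mv (bcN x.1) (bcM x.1))^[m a] (vP (B a) x (g a)))) (j a) else 0) : k) := by
  refine Computable.option_casesOn (o := X) (f := fun _ => (0 : k))
    (g := fun a x => if sameC (B a) x.1 (c a) then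
      ent (eV (bcN x.1) (bcM x.1) (π a) (h a) (N a)
        ((mv (bcN x.1) (bcM x.1))^[m a] (vP (B a) x (g a)))) (j a) else 0) hX (Computable.const _) ?_
  exact K2CmpH_cell (α := α × EC D k) hadd hmul (hB.comp Computable.fst) Computable.snd (hc.comp Computable.fst)
    (hπ.comp Computable.fst) (hh.comp Computable.fst) (hN.comp Computable.fst) (hm.comp Computable.fst)
    (hg.comp Computable.fst) (hj.comp Computable.fst)

theorem K2CmpH_row (hadd : Computable₂ (fun a b : k => a + b)) (hmul : Computable₂ (fun a b : k => a * b))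
    {B N m : α → ℕ} {p : α → NC D k} {c : α → BC D k} {π h : α → List k} {g : α → GX D k} (hB : Computable B)
    (hp : Computable p) (hc : Computable c) (hπ : Computable π) (hh : Computable h) (hN : Computable N)
    (hm : Computable m) (hg : Computable g) :
    Computable fun a => rowP (B a) (p a) (c a) (π a) (h a) (N a) (m a) (g a) := by
  classical
  have hp1 : Computable fun a => (p a).1 := Computable.fst.comp hp
  have hx : Computable fun a => nmx (p a).1 := nmxC hp1
  unfold rowP
  refine listC (n := fun a => (p a).1.length * nmx (p a).1) (mulN (Computable.list_length.comp hp1) hx) ?_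
  have hq : Computable fun t : α × ℕ => (p t.1).1[t.2 / nmx (p t.1).1]? :=
    getElemC (hp1.comp Computable.fst) (divN Computable.snd (hx.comp Computable.fst))
  refine (K2CmpH_cell2 (α := α × ℕ) hadd hmul (hB.comp Computable.fst) hq (hc.comp Computable.fst)
    (hπ.comp Computable.fst) (hh.comp Computable.fst) (hN.comp Computable.fst) (hm.comp Computable.fst)
    (hg.comp Computable.fst) (modN Computable.snd (hx.comp Computable.fst))).of_eq ?_
  rintro ⟨a, col⟩
  simp only
  cases (p a).1[col / nmx (p a).1]? with
  | none => rfl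
  | some x => rfl

theorem rowsPC (hadd : Computable₂ (fun a b : k => a + b)) (hmul : Computable₂ (fun a b : k => a * b))
    {B N : α → ℕ} {p : α → NC D k} {c : α → BC D k} {π h : α → List k} (hB : Computable B) (hp : Computable p)
    (hc : Computable c) (hπ : Computable π) (hh : Computable h) (hN : Computable N) :
    Computable fun a => rowsP (B a) (p a) (c a) (π a) (h a) (N a) := by
  unfold rowsP
  have hp1 : Computable fun a => (p a).1 := Computable.fst.comp hp
  refine flatMapC (f := fun a => List.range ((p a).1.length * nmx (p a).1)) (h := fun a (m : ℕ) =>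
    (gP (B a) (p a) (c a)).map fun g => rowP (B a) (p a) (c a) (π a) (h a) (N a) m g)
    (rangeC (mulN (Computable.list_length.comp hp1) (nmxC hp1))) ?_
  refine mapC (f := fun t : α × ℕ => gP (B t.1) (p t.1) (c t.1)) (h := fun t (g : GX D k) =>
    rowP (B t.1) (p t.1) (c t.1) (π t.1) (h t.1) (N t.1) t.2 g)
    (gPC (hB.comp Computable.fst) (hp.comp Computable.fst) (hc.comp Computable.fst)) ?_
  have ga : Computable fun t : (α × ℕ) × GX D k => t.1.1 := Computable.fst.comp Computable.fst
  exact K2CmpH_row hadd hmul (hB.comp ga) (hp.comp ga) (hc.comp ga) (hπ.comp ga) (hh.comp ga) (hN.comp ga)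
    (Computable.snd.comp Computable.fst) Computable.snd

theorem gePR (hadd : Computable₂ (fun a b : k => a + b)) (hmul : Computable₂ (fun a b : k => a * b))
    {B n : α → ℕ} {p : α → NC D k} {c : α → BC D k} {π : α → List k} (hB : Computable B) (hp : Computable p)
    (hc : Computable c) (hπ : Computable π) (hn : Computable n) : REPred fun a => geP (B a) (p a) (c a) (π a) (n a) := by
  unfold geP
  refine re_and (sepCD hB hp hc).1 (re_or (ncCritCD hadd hmul hB hp (bcSC hc)).not.1 ?_)
  refine re_ex (q := fun a (h : List k) => ∃ N : ℕ, primPC (B a) (p a) (c a) (π a) h N ∧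
    rkGe (rowsP (B a) (p a) (c a) (π a) h N) (n a)) ?_
  refine re_ex (q := fun (t : α × List k) (N : ℕ) => primPC (B t.1) (p t.1) (c t.1) (π t.1) t.2 N ∧
    rkGe (rowsP (B t.1) (p t.1) (c t.1) (π t.1) t.2 N) (n t.1)) ?_
  have ga : Computable fun t : (α × List k) × ℕ => t.1.1 := Computable.fst.comp Computable.fst
  have gh : Computable fun t : (α × List k) × ℕ => t.1.2 := Computable.snd.comp Computable.fst
  exact re_and (primPCD hadd hmul (hB.comp ga) (hp.comp ga) (hc.comp ga) (hπ.comp ga) gh Computable.snd).1
    (rkGeR hadd hmul (rowsPC hadd hmul (hB.comp ga) (hp.comp ga) (hc.comp ga) (hπ.comp ga) gh Computable.snd)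
      (hn.comp ga))

theorem eqPR (hadd : Computable₂ (fun a b : k => a + b)) (hmul : Computable₂ (fun a b : k => a * b))
    {B n : α → ℕ} {p : α → NC D k} {c : α → BC D k} {π : α → List k} (hB : Computable B) (hp : Computable p)
    (hc : Computable c) (hπ : Computable π) (hn : Computable n) : REPred fun a => eqP (B a) (p a) (c a) (π a) (n a) := by
  unfold eqP
  refine re_and (sepCD hB hp hc).1 (re_and (ncCritCD hadd hmul hB hp (bcSC hc)).1 ?_)
  refine re_ex (q := fun a (h : List k) => ∃ N : ℕ, primPC (B a) (p a) (c a) (π a) h N ∧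
    rkGe (rowsP (B a) (p a) (c a) (π a) h N) (n a) ∧ rkLe (rowsP (B a) (p a) (c a) (π a) h N) (n a)) ?_
  refine re_ex (q := fun (t : α × List k) (N : ℕ) => primPC (B t.1) (p t.1) (c t.1) (π t.1) t.2 N ∧
    rkGe (rowsP (B t.1) (p t.1) (c t.1) (π t.1) t.2 N) (n t.1) ∧
    rkLe (rowsP (B t.1) (p t.1) (c t.1) (π t.1) t.2 N) (n t.1)) ?_
  have ga : Computable fun t : (α × List k) × ℕ => t.1.1 := Computable.fst.comp Computable.fst
  have gh : Computable fun t : (α × List k) × ℕ => t.1.2 := Computable.snd.comp Computable.fst
  have hr : Computable fun t : (α × List k) × ℕ => rowsP (B t.1.1) (p t.1.1) (c t.1.1) (π t.1.1) t.1.2 t.2 :=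
    rowsPC hadd hmul (hB.comp ga) (hp.comp ga) (hc.comp ga) (hπ.comp ga) gh Computable.snd
  exact re_and (primPCD hadd hmul (hB.comp ga) (hp.comp ga) (hc.comp ga) (hπ.comp ga) gh Computable.snd).1
    (re_and (rkGeR hadd hmul hr (hn.comp ga)) (rkLeR hadd hmul hr (hn.comp ga)))

end StrAlg
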