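import Pool.Agent.Lib.MP_b9fd58_lc.K2CmpD

/-!
# Stream K2: computability of the certificates of type A
-/

set_option autoImplicit false
set_option synthInstance.maxSize 2000

namespace StrAlg

open ReCalc

variable {α : Type} [Primcodable α] {D : Dat} {k : Type} [Field k] [Primcodable k]

theorem K2CmpI_vmIter (hadd : Computable₂ (fun a b : k => a + b)) (hmul : Computable₂ (fun a b : k => a * b))
    {n m : α → ℕ} {T v : α → List k} (hn : Computable n) (hT : Computable T) (hm : Computable m)
    (hv : Computable v) : Computable fun a => (vm (n a) (T a))^[m a] (v a) :=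
  iterC (f := m) (g := v) (h := fun a w => vm (n a) (T a) w) hm hv
    (vmC hadd hmul (hn.comp Computable.fst) (hT.comp Computable.fst) Computable.snd)

theorem K2CmpI_entry (hadd : Computable₂ (fun a b : k => a + b)) (hmul : Computable₂ (fun a b : k => a * b))
    {B N m i : α → ℕ} {Y : α → EC D k} {π h : α → List k} {g : α → GX D k} (hB : Computable B) (hY : Computable Y)
    (hπ : Computable π) (hh : Computable h) (hN : Computable N) (hm : Computable m) (hg : Computable g)
    (hi : Computable i) :
    Computable fun a => ent (eL (bcN (Y a).1) (bcM (Y a).1) (π a) (h a) (N a)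
      ((vm (bcN (Y a).1) (bcM (Y a).1))^[m a] (vA (B a) (Y a) (g a)))) (i a) := by
  have hn : Computable fun a => bcN (Y a).1 := bcNC (Computable.fst.comp hY)
  have hT : Computable fun a => bcM (Y a).1 := bcMC (Computable.fst.comp hY)
  exact entC (eLC hadd hmul hn hT hπ hh hN
    (K2CmpI_vmIter hadd hmul hn hT hm (vAC hadd hmul hB hY hg))) hi

open Classical in
theorem K2CmpI_ite (hadd : Computable₂ (fun a b : k => a + b)) (hmul : Computable₂ (fun a b : k => a * b))
    {B N m i : α → ℕ} {Y : α → EC D k} {c : α → BC D k} {π h : α → List k} {g : α → GX D k} (hB : Computable B)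
    (hY : Computable Y) (hc : Computable c)
    (hπ : Computable π) (hh : Computable h) (hN : Computable N) (hm : Computable m) (hg : Computable g)
    (hi : Computable i) :
    Computable fun a => if sameC (B a) (Y a).1 (c a) then ent (eL (bcN (Y a).1) (bcM (Y a).1) (π a) (h a) (N a)
      ((vm (bcN (Y a).1) (bcM (Y a).1))^[m a] (vA (B a) (Y a) (g a)))) (i a) else (0 : k) :=
  DP.ite (sameCD hB (Computable.fst.comp hY) hc)
    (K2CmpI_entry hadd hmul hB hY hπ hh hN hm hg hi) (Computable.const 0)

open Classical in
theorem K2CmpI_match (hadd : Computable₂ (fun a b : k => a + b)) (hmul : Computable₂ (fun a b : k => a * b))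
    {B N m i : α → ℕ} {Y : α → Option (EC D k)} {c : α → BC D k} {π h : α → List k} {g : α → GX D k} (hB : Computable B)
    (hY : Computable Y) (hc : Computable c)
    (hπ : Computable π) (hh : Computable h) (hN : Computable N) (hm : Computable m) (hg : Computable g)
    (hi : Computable i) :
    Computable fun a => (match Y a with
    | some Y => if sameC (B a) Y.1 (c a) then
        ent (eL (bcN Y.1) (bcM Y.1) (π a) (h a) (N a) ((vm (bcN Y.1) (bcM Y.1))^[m a] (vA (B a) Y (g a)))) (i a) else 0
    | none => 0 : k) := by
  have h2 : Computable fun a => (Option.casesOn (Y a) (0 : k) (fun Y => if sameC (B a) Y.1 (c a) then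
        ent (eL (bcN Y.1) (bcM Y.1) (π a) (h a) (N a) ((vm (bcN Y.1) (bcM Y.1))^[m a] (vA (B a) Y (g a)))) (i a)
          else 0) : k) := by
    refine Computable.option_casesOn (o := Y) (f := fun _ => (0 : k))
      (g := fun a Y => if sameC (B a) Y.1 (c a) then
        ent (eL (bcN Y.1) (bcM Y.1) (π a) (h a) (N a) ((vm (bcN Y.1) (bcM Y.1))^[m a] (vA (B a) Y (g a)))) (i a)
          else 0) hY (Computable.const _) ?_
    exact (K2CmpI_ite hadd hmul (α := α × EC D k) (B := fun t => B t.1) (N := fun t => N t.1) (m := fun t => m t.1)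
      (i := fun t => i t.1) (Y := fun t => t.2) (c := fun t => c t.1) (π := fun t => π t.1) (h := fun t => h t.1)
      (g := fun t => g t.1) (hB.comp Computable.fst) Computable.snd (hc.comp Computable.fst)
      (hπ.comp Computable.fst) (hh.comp Computable.fst) (hN.comp Computable.fst) (hm.comp Computable.fst)
      (hg.comp Computable.fst) (hi.comp Computable.fst)).to₂
  refine h2.of_eq ?_
  intro a
  cases Y a with
  | none => rfl
  | some y => rfl

theorem K2CmpI_len {p : α → NC D k} (hp : Computable p) :
    Computable fun a => (p a).2.length * nmx (p a).2 :=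
  mulN (Computable.list_length.comp (Computable.snd.comp hp)) (nmxC' (Computable.snd.comp hp))

theorem K2CmpI_rowA (hadd : Computable₂ (fun a b : k => a + b)) (hmul : Computable₂ (fun a b : k => a * b))
    {B N m : α → ℕ} {p : α → NC D k} {c : α → BC D k} {π h : α → List k} {g : α → GX D k}
    (hB : Computable B) (hp : Computable p)
    (hc : Computable c) (hπ : Computable π) (hh : Computable h) (hN : Computable N) (hm : Computable m)
    (hg : Computable g) :
    Computable fun a => rowA (B a) (p a) (c a) (π a) (h a) (N a) (m a) (g a) := by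
  classical
  unfold rowA
  refine mapC (f := fun a => List.range ((p a).2.length * nmx (p a).2)) (h := fun a col =>
    match (p a).2[col / nmx (p a).2]? with
    | some Y => if sameC (B a) Y.1 (c a) then
        ent (eL (bcN Y.1) (bcM Y.1) (π a) (h a) (N a) ((vm (bcN Y.1) (bcM Y.1))^[m a] (vA (B a) Y (g a))))
          (col % nmx (p a).2) else 0
    | none => 0) (rangeC (K2CmpI_len hp)) ?_
  have hx : Computable fun t : α × ℕ => nmx (p t.1).2 := nmxC' (Computable.snd.comp (hp.comp Computable.fst))
  exact K2CmpI_match hadd hmul (α := α × ℕ) (B := fun t => B t.1) (N := fun t => N t.1) (m := fun t => m t.1)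
      (i := fun t => t.2 % nmx (p t.1).2) (Y := fun t => (p t.1).2[t.2 / nmx (p t.1).2]?) (c := fun t => c t.1)
      (π := fun t => π t.1) (h := fun t => h t.1)
      (g := fun t => g t.1) (hB.comp Computable.fst)
      (getElemC (Computable.snd.comp (hp.comp Computable.fst)) (divN Computable.snd hx)) (hc.comp Computable.fst)
      (hπ.comp Computable.fst) (hh.comp Computable.fst) (hN.comp Computable.fst) (hm.comp Computable.fst)
      (hg.comp Computable.fst) (modN Computable.snd hx)

theorem rowsAC (hadd : Computable₂ (fun a b : k => a + b)) (hmul : Computable₂ (fun a b : k => a * b))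
    {B N : α → ℕ} {p : α → NC D k} {c : α → BC D k} {π h : α → List k} (hB : Computable B) (hp : Computable p)
    (hc : Computable c) (hπ : Computable π) (hh : Computable h) (hN : Computable N) :
    Computable fun a => rowsA (B a) (p a) (c a) (π a) (h a) (N a) := by
  unfold rowsA
  refine flatMapC (f := fun a => List.range ((p a).2.length * nmx (p a).2))
    (h := fun a m => (gA (B a) (p a) (c a)).map fun g => rowA (B a) (p a) (c a) (π a) (h a) (N a) m g)
    (rangeC (K2CmpI_len hp)) ?_
  refine mapC (f := fun t : α × ℕ => gA (B t.1) (p t.1) (c t.1))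
    (h := fun t g => rowA (B t.1) (p t.1) (c t.1) (π t.1) (h t.1) (N t.1) t.2 g)
    (gAC (hB.comp Computable.fst) (hp.comp Computable.fst) (hc.comp Computable.fst)) ?_
  have ga : Computable fun q : (α × ℕ) × GX D k => q.1.1 := Computable.fst.comp Computable.fst
  exact K2CmpI_rowA hadd hmul (hB.comp ga) (hp.comp ga) (hc.comp ga) (hπ.comp ga) (hh.comp ga) (hN.comp ga)
    (Computable.snd.comp Computable.fst) Computable.snd

theorem geAR (hadd : Computable₂ (fun a b : k => a + b)) (hmul : Computable₂ (fun a b : k => a * b))
    {B n : α → ℕ} {p : α → NC D k} {c : α → BC D k} {π : α → List k} (hB : Computable B) (hp : Computable p)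
    (hc : Computable c) (hπ : Computable π) (hn : Computable n) : REPred fun a => geA (B a) (p a) (c a) (π a) (n a) := by
  unfold geA
  refine re_and (sepCD hB hp hc).re (re_or (ncCritCD hadd hmul hB hp (bcSC hc)).not.re ?_)
  refine re_ex (q := fun a (h : List k) => ∃ N : ℕ, primAC (B a) (p a) (c a) (π a) h N ∧
    rkGe (rowsA (B a) (p a) (c a) (π a) h N) (n a)) ?_
  refine re_ex (q := fun (t : α × List k) (N : ℕ) => primAC (B t.1) (p t.1) (c t.1) (π t.1) t.2 N ∧
    rkGe (rowsA (B t.1) (p t.1) (c t.1) (π t.1) t.2 N) (n t.1)) ?_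
  have ga : Computable fun q : (α × List k) × ℕ => q.1.1 := Computable.fst.comp Computable.fst
  have gh : Computable fun q : (α × List k) × ℕ => q.1.2 := Computable.snd.comp Computable.fst
  exact re_and (primACD hadd hmul (hB.comp ga) (hp.comp ga) (hc.comp ga) (hπ.comp ga) gh Computable.snd).re
    (rkGeR hadd hmul (rowsAC hadd hmul (hB.comp ga) (hp.comp ga) (hc.comp ga) (hπ.comp ga) gh Computable.snd)
      (hn.comp ga))

theorem eqAR (hadd : Computable₂ (fun a b : k => a + b)) (hmul : Computable₂ (fun a b : k => a * b))
    {B n : α → ℕ} {p : α → NC D k} {c : α → BC D k} {π : α → List k} (hB : Computable B) (hp : Computable p)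
    (hc : Computable c) (hπ : Computable π) (hn : Computable n) : REPred fun a => eqA (B a) (p a) (c a) (π a) (n a) := by
  unfold eqA
  refine re_and (sepCD hB hp hc).re (re_and (ncCritCD hadd hmul hB hp (bcSC hc)).re ?_)
  refine re_ex (q := fun a (h : List k) => ∃ N : ℕ, primAC (B a) (p a) (c a) (π a) h N ∧
    rkGe (rowsA (B a) (p a) (c a) (π a) h N) (n a) ∧ rkLe (rowsA (B a) (p a) (c a) (π a) h N) (n a)) ?_
  refine re_ex (q := fun (t : α × List k) (N : ℕ) => primAC (B t.1) (p t.1) (c t.1) (π t.1) t.2 N ∧
    rkGe (rowsA (B t.1) (p t.1) (c t.1) (π t.1) t.2 N) (n t.1) ∧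
    rkLe (rowsA (B t.1) (p t.1) (c t.1) (π t.1) t.2 N) (n t.1)) ?_
  have ga : Computable fun q : (α × List k) × ℕ => q.1.1 := Computable.fst.comp Computable.fst
  have gh : Computable fun q : (α × List k) × ℕ => q.1.2 := Computable.snd.comp Computable.fst
  have hR := rowsAC hadd hmul (hB.comp ga) (hp.comp ga) (hc.comp ga) (hπ.comp ga) gh Computable.snd
  exact re_and (primACD hadd hmul (hB.comp ga) (hp.comp ga) (hc.comp ga) (hπ.comp ga) gh Computable.snd).re
    (re_and (rkGeR hadd hmul hR (hn.comp ga)) (rkLeR hadd hmul hR (hn.comp ga)))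

end StrAlg
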