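import Pool.Agent.Lib.MP_b9fd58_lc.KCmpB

/-!
# Stream K: computability of the pp-pair of a code
-/

set_option autoImplicit false

namespace StrAlg

open ReCalc

variable {D : Dat} {k : Type} [Field k] [Primcodable k] {S : Sides D}
variable {α : Type*} [Primcodable α]

/-- renaming by a fixed computable function -/
theorem ppRenC {f : ℕ → ℕ} (hf : Computable f) {φ : α → PP D k} (hφ : Computable φ) :
    Computable fun a => ppRen f (φ a) := by
  unfold ppRen
  refine mapC (h := fun _ (e : List (ElCode D k × ℕ)) => e.map fun t => (t.1, f t.2)) hφ ?_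
  refine mapC (f := fun q : α × List (ElCode D k × ℕ) => q.2) (h := fun _ (t : ElCode D k × ℕ) => (t.1, f t.2))
    Computable.snd ?_
  exact Computable.pair (Computable.fst.comp Computable.snd) (hf.comp (Computable.snd.comp Computable.snd))

theorem ppCapC {φ ψ : α → PP D k} (hφ : Computable φ) (hψ : Computable ψ) : Computable fun a => ppCap (φ a) (ψ a) := by
  unfold ppCap
  refine Computable.list_append.comp (ppRenC (mulN (Computable.const 2) Computable.id) hφ) (ppRenC ?_ hψ)
  exact DP.ite (p := fun v : ℕ => v = 0) (DP.eq Computable.id (Computable.const 0)) (Computable.const 0)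
    (Computable.succ.comp (mulN (Computable.const 2) Computable.id))

theorem ppAddC {φ ψ : α → PP D k} (hφ : Computable φ) (hψ : Computable ψ) : Computable fun a => ppAdd (φ a) (ψ a) := by
  unfold ppAdd
  refine Computable.list_cons.comp (Computable.const _) (Computable.list_append.comp (ppRenC ?_ hφ) (ppRenC ?_ hψ))
  · exact Computable.succ.comp (mulN (Computable.const 2) Computable.id)
  · exact Computable.succ.comp (Computable.succ.comp (mulN (Computable.const 2) Computable.id))

theorem yvC {g : α → D.Gen} {m : α → ℕ} (hg : Computable g) (hm : Computable m) : Computable fun a => yv (g a) (m a) := by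
  unfold yv
  exact Computable.succ.comp (pairN (Computable.encode.comp hg) hm)

/-- the term `c z_v` -/
theorem KCmpD_term {c : α → k} {v : α → ℕ} (hc : Computable c) (hv : Computable v) :
    Computable fun a => (([(c a, ([] : List D.Gen))], v a) : ElCode D k × ℕ) :=
  Computable.pair (Computable.list_cons.comp (Computable.pair hc (Computable.const [])) (Computable.const [])) hv

/-- the term `z_v g` -/
theorem KCmpD_termG {g : α → D.Gen} {v : α → ℕ} (hg : Computable g) (hv : Computable v) :
    Computable fun a => (([((1 : k), [g a])], v a) : ElCode D k × ℕ) :=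
  Computable.pair (Computable.list_cons.comp
    (Computable.pair (Computable.const 1) (Computable.list_cons.comp hg (Computable.const []))) (Computable.const [])) hv

theorem upPPC (hadd : Computable₂ (fun a b : k => a + b)) {d : α → ℕ} {C : α → D.Gen → ℕ → ℕ → k} {f : α → ℕ → k}
    (hd : Computable d) (hC : Computable fun t : α × D.Gen × ℕ × ℕ => C t.1 t.2.1 t.2.2.1 t.2.2.2)
    (hf : Computable fun t : α × ℕ => f t.1 t.2) : Computable fun a => upPP (d a) (C a) (f a) := by
  unfold upPP
  refine Computable.list_cons.comp (Computable.list_cons.comp (Computable.const _) ?_) ?_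
  · refine mapC (h := fun a (m : ℕ) => (([(-(f a m), ([] : List D.Gen))], m + 1) : ElCode D k × ℕ)) (rangeC hd) ?_
    exact KCmpD_term (negK hadd hf) (Computable.succ.comp Computable.snd)
  · refine flatMapC (h := fun a (g : D.Gen) => (List.range (d a)).map fun m =>
      ((([((1 : k), [g])], m + 1) : ElCode D k × ℕ) ::
        (List.range (d a)).map fun m' => (([(-(C a g m m'), ([] : List D.Gen))], m' + 1) : ElCode D k × ℕ)))
      (Computable.const (gens D)) ?_
    refine mapC (f := fun p : α × D.Gen => List.range (d p.1)) (h := fun (p : α × D.Gen) (m : ℕ) =>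
      ((([((1 : k), [p.2])], m + 1) : ElCode D k × ℕ) ::
        (List.range (d p.1)).map fun m' => (([(-(C p.1 p.2 m m'), ([] : List D.Gen))], m' + 1) : ElCode D k × ℕ)))
      (rangeC (hd.comp Computable.fst)) ?_
    refine Computable.list_cons.comp (KCmpD_termG (Computable.snd.comp Computable.fst)
      (Computable.succ.comp Computable.snd)) ?_
    refine mapC (f := fun p : (α × D.Gen) × ℕ => List.range (d p.1.1)) (h := fun (p : (α × D.Gen) × ℕ) (m' : ℕ) =>
      (([(-(C p.1.1 p.1.2 p.2 m'), ([] : List D.Gen))], m' + 1) : ElCode D k × ℕ))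
      (rangeC (hd.comp (Computable.fst.comp Computable.fst))) ?_
    refine KCmpD_term (negK hadd ?_) (Computable.succ.comp Computable.snd)
    exact hC.comp (Computable.pair (Computable.fst.comp (Computable.fst.comp Computable.fst))
      (Computable.pair (Computable.snd.comp (Computable.fst.comp Computable.fst))
        (Computable.pair (Computable.snd.comp Computable.fst) Computable.snd)))

theorem dnPPC (hadd : Computable₂ (fun a b : k => a + b)) {d : α → ℕ} {C : α → D.Gen → ℕ → ℕ → k} {f : α → ℕ → k}
    (hd : Computable d) (hC : Computable fun t : α × D.Gen × ℕ × ℕ => C t.1 t.2.1 t.2.2.1 t.2.2.2)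
    (hf : Computable fun t : α × ℕ => f t.1 t.2) : Computable fun a => dnPP (d a) (C a) (f a) := by
  unfold dnPP
  refine mapC (h := fun a (m : ℕ) => (([(-(f a m), ([] : List D.Gen))], 0) : ElCode D k × ℕ) ::
    (gens D).flatMap fun g =>
      ((([((1 : k), [g])], yv g m) : ElCode D k × ℕ) ::
        (List.range (d a)).map fun m' => (([(-(C a g m m'), ([] : List D.Gen))], yv g m') : ElCode D k × ℕ)))
    (rangeC hd) ?_
  refine Computable.list_cons.comp (KCmpD_term (negK hadd hf) (Computable.const 0)) ?_
  refine flatMapC (h := fun (p : α × ℕ) (g : D.Gen) =>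
      ((([((1 : k), [g])], yv g p.2) : ElCode D k × ℕ) ::
        (List.range (d p.1)).map fun m' => (([(-(C p.1 g p.2 m'), ([] : List D.Gen))], yv g m') : ElCode D k × ℕ)))
    (Computable.const (gens D)) ?_
  refine Computable.list_cons.comp (KCmpD_termG Computable.snd
    (yvC Computable.snd (Computable.snd.comp Computable.fst))) ?_
  refine mapC (f := fun q : (α × ℕ) × D.Gen => List.range (d q.1.1)) (h := fun (q : (α × ℕ) × D.Gen) (m' : ℕ) =>
      (([(-(C q.1.1 q.2 q.1.2 m'), ([] : List D.Gen))], yv q.2 m') : ElCode D k × ℕ))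
      (rangeC (hd.comp (Computable.fst.comp Computable.fst))) ?_
  refine KCmpD_term (negK hadd ?_) (yvC (Computable.snd.comp Computable.fst) Computable.snd)
  exact hC.comp (Computable.pair (Computable.fst.comp (Computable.fst.comp Computable.fst))
      (Computable.pair (Computable.snd.comp Computable.fst)
        (Computable.pair (Computable.snd.comp (Computable.fst.comp Computable.fst)) Computable.snd)))

theorem bcCofC {b : α → BC D k} {s : α → ℤ} {j m : α → ℕ} (hb : Computable b) (hs : Computable s) (hj : Computable j)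
    (hm : Computable m) : Computable fun a => bcCof (b a) (s a) (j a) (m a) := by
  unfold bcCof
  have hP : Computable fun a => bcP (b a) := bcPC hb
  have hN : Computable fun a => bcN (b a) := bcNC hb
  have hi : Computable fun a => (m a % bcN (b a)) * bcN (b a) + j a := addN (mulN (modN hm hN) hN) hj
  refine DP.ite (p := fun a => s a = -1) (DP.eq hs (Computable.const (-1))) ?_ ?_
  · exact DP.ite (p := fun a => m a / bcN (b a) + 1 = bcP (b a))
      (DP.eq (Computable.succ.comp (divN hm hN)) hP) (entC (bcM'C hb) hi) (Computable.const 0)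
  · refine DP.ite (p := fun a => s a = (bcP (b a) : ℤ)) (DP.eq hs (castZ hP)) ?_ ?_
    · exact DP.ite (p := fun a => m a / bcN (b a) = 0)
        (DP.eq (divN hm hN) (Computable.const 0)) (entC (bcMC hb) hi) (Computable.const 0)
    · exact DP.ite (p := fun a => m a = (s a).toNat * bcN (b a) + j a)
        (DP.eq hm (addN (mulN (toNatZ hs) hN) hj)) (Computable.const 1) (Computable.const 0)

theorem bcCC (hadd : Computable₂ (fun a b : k => a + b)) :
    Computable fun t : BC D k × D.Gen × ℕ × ℕ => bcC S t.1 t.2.1 t.2.2.1 t.2.2.2 := by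
  have h : Computable fun q : (BC D k × ℕ × ℕ) × D.Gen => bcC S q.1.1 q.2 q.1.2.1 q.1.2.2 := by
    refine computable_prod_fin _ ?_
    have hb : Computable fun q : BC D k × ℕ × ℕ => q.1 := Computable.fst
    have hm : Computable fun q : BC D k × ℕ × ℕ => q.2.1 := Computable.fst.comp Computable.snd
    have hm' : Computable fun q : BC D k × ℕ × ℕ => q.2.2 := Computable.snd.comp Computable.snd
    have hz : Computable fun q : BC D k × ℕ × ℕ => ((q.2.1 / bcN q.1 : ℕ) : ℤ) := castZ (divN hm (bcNC hb))
    have hv : Computable fun q : BC D k × ℕ × ℕ => scV (bcS q.1) ((q.2.1 / bcN q.1 : ℕ) : ℤ) := scVC (bcSC hb) hz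
    rintro (i | a)
    · show Computable fun q : BC D k × ℕ × ℕ =>
        if q.2.1 = q.2.2 ∧ scV (bcS q.1) ((q.2.1 / bcN q.1 : ℕ) : ℤ) = some i then (1 : k) else 0
      exact DP.ite (p := fun q : BC D k × ℕ × ℕ =>
          q.2.1 = q.2.2 ∧ scV (bcS q.1) ((q.2.1 / bcN q.1 : ℕ) : ℤ) = some i)
        (DP.and (DP.eq hm hm') (DP.eq hv (Computable.const _))) (Computable.const 1) (Computable.const 0)
    · have he : ∀ e : Bool, Computable fun q : BC D k × ℕ × ℕ =>
          if scLt (bcS q.1) e ((q.2.1 / bcN q.1 : ℕ) : ℤ) = 2 ∧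
            (scV (bcS q.1) ((q.2.1 / bcN q.1 : ℕ) : ℤ)).bind
              (fun v => S.outA v (scSd (bcS q.1) e ((q.2.1 / bcN q.1 : ℕ) : ℤ))) = some a then
          bcCof q.1 (st e ((q.2.1 / bcN q.1 : ℕ) : ℤ)) (q.2.1 % bcN q.1) q.2.2 else 0 := by
        intro e
        refine DP.ite (p := fun q : BC D k × ℕ × ℕ => scLt (bcS q.1) e ((q.2.1 / bcN q.1 : ℕ) : ℤ) = 2 ∧
            (scV (bcS q.1) ((q.2.1 / bcN q.1 : ℕ) : ℤ)).bind
              (fun v => S.outA v (scSd (bcS q.1) e ((q.2.1 / bcN q.1 : ℕ) : ℤ))) = some a) ?_ ?_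
          (Computable.const 0)
        · refine DP.and (DP.eq (scLtC (bcSC hb) (Computable.const e) hz) (Computable.const 2)) ?_
          refine DP.eq ?_ (Computable.const _)
          refine Computable.option_bind hv ?_
          refine (computable_fin fun q : Fin D.nV × Bool => S.outA q.1 q.2).comp (Computable.pair Computable.snd ?_)
          exact (scSdC (bcSC hb) (Computable.const e) hz).comp Computable.fst
        · exact bcCofC hb (stC (Computable.const e) hz) (modN hm (bcNC hb)) hm'
      have h2 := addK hadd (he true) (he false)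
      refine h2.of_eq fun q => ?_
      show _ = ∑ e : Bool, if scLt (bcS q.1) e ((q.2.1 / bcN q.1 : ℕ) : ℤ) = 2 ∧
            (scV (bcS q.1) ((q.2.1 / bcN q.1 : ℕ) : ℤ)).bind
              (fun v => S.outA v (scSd (bcS q.1) e ((q.2.1 / bcN q.1 : ℕ) : ℤ))) = some a then
          bcCof q.1 (st e ((q.2.1 / bcN q.1 : ℕ) : ℤ)) (q.2.1 % bcN q.1) q.2.2 else 0
      rw [Fintype.sum_bool]
  exact h.comp (Computable.pair (Computable.pair Computable.fst (Computable.snd.comp Computable.snd))
    (Computable.fst.comp Computable.snd))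

theorem KCmpD_D : Computable fun t : EC D k => bcD t.1 :=
  mulN (bcPC Computable.fst) (bcNC Computable.fst)

theorem KCmpD_pr : Computable fun q : EC D k × D.Gen × ℕ × ℕ => ((q.1.1, q.2) : BC D k × D.Gen × ℕ × ℕ) :=
  Computable.pair (Computable.fst.comp Computable.fst) Computable.snd

theorem KCmpD_CC (hadd : Computable₂ (fun a b : k => a + b)) :
    Computable fun q : EC D k × D.Gen × ℕ × ℕ => bcC S q.1.1 q.2.1 q.2.2.1 q.2.2.2 :=
  Computable.comp (f := fun t : BC D k × D.Gen × ℕ × ℕ => bcC S t.1 t.2.1 t.2.2.1 t.2.2.2)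
    (g := fun q : EC D k × D.Gen × ℕ × ℕ => ((q.1.1, q.2) : BC D k × D.Gen × ℕ × ℕ)) (bcCC hadd) KCmpD_pr

theorem KCmpD_E : Computable fun q : EC D k × ℕ => ent q.1.2 q.2 :=
  entC (Computable.snd.comp Computable.fst) Computable.snd

theorem KCmpD_up (hadd : Computable₂ (fun a b : k => a + b)) :
    Computable fun t : EC D k => upPP (bcD t.1) (bcC S t.1) (ent t.2) :=
  upPPC (d := fun t : EC D k => bcD t.1) (C := fun t => bcC S t.1) (f := fun t => ent t.2) hadd KCmpD_D
    (KCmpD_CC hadd) KCmpD_E

theorem KCmpD_dn (hadd : Computable₂ (fun a b : k => a + b)) :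
    Computable fun t : EC D k => dnPP (bcD t.1) (bcC S t.1) (ent t.2) :=
  dnPPC (d := fun t : EC D k => bcD t.1) (C := fun t => bcC S t.1) (f := fun t => ent t.2) hadd KCmpD_D
    (KCmpD_CC hadd) KCmpD_E

theorem KCmpD_foldUp (hadd : Computable₂ (fun a b : k => a + b)) :
    Computable fun c : List (EC D k) =>
      c.foldr (fun t acc => ppAdd (upPP (bcD t.1) (bcC S t.1) (ent t.2)) acc) (ppZero : PP D k) := by
  refine foldrC (f := fun c : List (EC D k) => c) (g := fun _ => (ppZero : PP D k))
      (h := fun _ (t : EC D k) acc => ppAdd (upPP (bcD t.1) (bcC S t.1) (ent t.2)) acc) Computable.id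
      (Computable.const _) ?_
  exact ppAddC ((KCmpD_up hadd).comp (Computable.fst.comp Computable.snd)) (Computable.snd.comp Computable.snd)

theorem KCmpD_foldDn (hadd : Computable₂ (fun a b : k => a + b)) :
    Computable fun c : List (EC D k) =>
      c.foldr (fun t acc => ppCap (dnPP (bcD t.1) (bcC S t.1) (ent t.2)) acc) ([] : PP D k) := by
  refine foldrC (f := fun c : List (EC D k) => c) (g := fun _ => ([] : PP D k))
      (h := fun _ (t : EC D k) acc => ppCap (dnPP (bcD t.1) (bcC S t.1) (ent t.2)) acc) Computable.id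
      (Computable.const _) ?_
  exact ppCapC ((KCmpD_dn hadd).comp (Computable.fst.comp Computable.snd)) (Computable.snd.comp Computable.snd)

theorem ncPrC (hadd : Computable₂ (fun a b : k => a + b)) : Computable (ncPr S : NC D k → PP D k × PP D k) :=
  Computable.pair ((KCmpD_foldUp hadd).comp Computable.fst) ((KCmpD_foldDn hadd).comp Computable.snd)

end StrAlg
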