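import Pool.Agent.Lib.MP_b9fd58_lc.KDefs

/-!
# Stream K: periodicity of coded strings, shape of the set of positions, large numbers
-/

set_option autoImplicit false

namespace StrAlg

variable {D : Dat} {k : Type} [Field k]

theorem up1_per {c : U1 D} {B : ℕ} (h : u1Big c B) {n : ℕ} (hn : B ≤ n) : up1 c (n + B) = up1 c n := by
  obtain ⟨h1, h2⟩ := h
  unfold up1
  rw [if_neg (by omega), if_neg (by omega)]
  rcases h2 with h2 | h2
  · rw [h2]; simp
  · have e : n + B - c.1.length = (n - c.1.length) + B := by omega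
    obtain ⟨d, hd⟩ := h2
    rw [e, hd, Nat.add_mul_mod_self_left]

/-- the indices of a one-sided code form an initial segment -/
theorem up1_isSome_mono {c : U1 D} {m n : ℕ} (h : m ≤ n) (hn : (up1 c n).isSome = true) : (up1 c m).isSome = true := by
  unfold up1 at hn ⊢
  by_cases hm : m < c.1.length
  · rw [if_pos hm]
    simp [hm]
  · rw [if_neg hm]
    rw [if_neg (by omega)] at hn
    have hpos : 0 < c.2.length := by
      rcases Nat.eq_zero_or_pos c.2.length with h0 | h0
      · have : c.2 = [] := List.length_eq_zero_iff.1 h0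
        rw [this] at hn
        simp at hn
      · exact h0
    have := Nat.mod_lt (m - c.1.length) hpos
    simp [this]

theorem scF_per_right {c : SC D} {B : ℕ} (h : scBig c B) {p : ℤ} (hp : (B : ℤ) ≤ p) : scF c (p + B) = scF c p := by
  unfold scF
  rw [if_pos (by omega), if_pos (by omega)]
  have e : (p + B).toNat = p.toNat + B := by omega
  rw [e]
  exact up1_per h.2.1 (by omega)

theorem scF_per_left {c : SC D} {B : ℕ} (h : scBig c B) {p : ℤ} (hp : p ≤ -(B : ℤ) - 1) :
    scF c (p - B) = scF c p := by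
  unfold scF
  rw [if_neg (by omega), if_neg (by omega)]
  have e : (-(p - B)).toNat - 1 = ((-p).toNat - 1) + B := by omega
  rw [e]
  exact up1_per h.2.2 (by omega)

/-- the positions form an interval around `0` -/
theorem scIn_between {c : SC D} (h0 : scIn c 0) {p q : ℤ} (hq : scIn c q) (h : (0 ≤ p ∧ p ≤ q) ∨ (q ≤ p ∧ p ≤ 0)) :
    scIn c p := by
  rcases h with ⟨h1, h2⟩ | ⟨h1, h2⟩
  · unfold scIn scF at hq ⊢
    rw [if_pos (by omega)] at hq
    rw [if_pos h1]
    exact up1_isSome_mono (by omega) hq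
  · rcases eq_or_lt_of_le h2 with h3 | h3
    · rw [h3]; exact h0
    · unfold scIn scF at hq ⊢
      rw [if_neg (by omega)] at hq
      rw [if_neg (by omega)]
      exact up1_isSome_mono (by omega) hq

theorem scIn_of_between {c : SC D} (h0 : scIn c 0) {p q r : ℤ} (hp : scIn c p) (hr : scIn c r) (h1 : p ≤ q)
    (h2 : q ≤ r) : scIn c q := by
  rcases le_total 0 q with h3 | h3
  · exact scIn_between h0 hr (Or.inl ⟨h3, h2⟩)
  · exact scIn_between h0 hp (Or.inr ⟨h1, h3⟩)

theorem scIn_shift_right {c : SC D} {B : ℕ} (h : scBig c B) {p : ℤ} (hp : (B : ℤ) ≤ p) :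
    scIn c (p + B) ↔ scIn c p := by
  unfold scIn
  rw [scF_per_right h hp]

theorem scIn_shift_left {c : SC D} {B : ℕ} (h : scBig c B) {p : ℤ} (hp : p ≤ -(B : ℤ) - 1) :
    scIn c (p - B) ↔ scIn c p := by
  unfold scIn
  rw [scF_per_left h hp]

theorem scLam_per_right {c : SC D} {B : ℕ} (h : scBig c B) {p : ℤ} (hp : (B : ℤ) ≤ p) :
    scLam c (p + B) = scLam c p := by
  unfold scLam
  have e : p + (B : ℤ) + 1 = (p + 1) + B := by ring
  rw [e, scF_per_right h hp, scF_per_right h (by omega)]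

theorem scLam_per_left {c : SC D} {B : ℕ} (h : scBig c B) {p : ℤ} (hp : p ≤ -(B : ℤ) - 2) :
    scLam c (p - B) = scLam c p := by
  unfold scLam
  have e : p - (B : ℤ) + 1 = (p + 1) - B := by ring
  rw [e, scF_per_left h (by omega), scF_per_left h (by omega)]

/-- the words are ultimately periodic -/
theorem scWdd_per {c : SC D} {B : ℕ} (h : scBig c B) (e : Bool) {p : ℤ} {N : ℕ} (hN : p.natAbs + B + 2 ≤ N) :
    WPer (scWdd c e p) N B := by
  intro n hn
  unfold scWdd scLt
  cases e with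
  | true =>
    simp only [stn_true, if_true]
    have e1 : p + ((n + B : ℕ) : ℤ) = (p + n) + B := by push_cast; ring
    rw [e1, scLam_per_right h (by omega)]
  | false =>
    simp only [stn_false, Bool.false_eq_true, if_false]
    have e1 : p - ((n + B : ℕ) : ℤ) - 1 = (p - n - 1) - B := by push_cast; ring
    rw [e1, scLam_per_left h (by omega)]

/-! ### Common large numbers -/

theorem scBig_mul {c : SC D} {B m : ℕ} (h : scBig c B) (hm : 0 < m) : scBig c (B * m) := by
  obtain ⟨h0, h1, h2⟩ := h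
  have hle : B ≤ B * m := Nat.le_mul_of_pos_right B hm
  have aux : ∀ c : U1 D, u1Big c B → u1Big c (B * m) := fun c hc =>
    ⟨hc.1.trans hle, hc.2.imp id fun hd => hd.mul_right m⟩
  exact ⟨Nat.mul_pos h0 hm, aux _ h1, aux _ h2⟩

theorem exists_scBig (c : SC D) : ∃ B, scBig c B := by
  have aux : ∀ l : List (Rc D), ∃ L, 0 < L ∧ (l = [] ∨ l.length ∣ L) := by
    intro l
    rcases Nat.eq_zero_or_pos l.length with h0 | h0
    · exact ⟨1, one_pos, Or.inl (List.length_eq_zero_iff.1 h0)⟩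
    · exact ⟨l.length, h0, Or.inr dvd_rfl⟩
  obtain ⟨L1, p1, d1⟩ := aux c.1.2
  obtain ⟨L2, p2, d2⟩ := aux c.2.2
  have hL : 0 < L1 * L2 := Nat.mul_pos p1 p2
  have hle : c.1.1.length + c.2.1.length + 1 ≤ (c.1.1.length + c.2.1.length + 1) * (L1 * L2) :=
    Nat.le_mul_of_pos_right _ hL
  refine ⟨(c.1.1.length + c.2.1.length + 1) * (L1 * L2), by omega, ⟨by omega, ?_⟩, ⟨by omega, ?_⟩⟩
  · exact d1.imp id fun hd => Dvd.dvd.mul_left (hd.mul_right L2) _
  · exact d2.imp id fun hd => Dvd.dvd.mul_left (Dvd.dvd.mul_left hd L1) _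

theorem KPer_exists_list (l : List (SC D)) : ∃ B, 0 < B ∧ ∀ s ∈ l, scBig s B := by
  induction l with
  | nil => exact ⟨1, one_pos, fun s hs => by simp at hs⟩
  | cons a l ih =>
    obtain ⟨B, h0, h⟩ := ih
    obtain ⟨B', h'⟩ := exists_scBig a
    refine ⟨B * B', Nat.mul_pos h0 h'.1, fun s hs => ?_⟩
    rcases List.mem_cons.1 hs with rfl | hs
    · rw [mul_comm]; exact scBig_mul h' h0
    · exact scBig_mul (h s hs) h'.1

theorem exists_ncBig (c : NC D k) : ∃ B, ncBig c B := by
  obtain ⟨B, h0, h⟩ := KPer_exists_list ((c.1 ++ c.2).map fun t => bcS t.1)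
  refine ⟨B, h0, fun t ht => h _ ?_, fun t ht => h _ ?_⟩
  · exact List.mem_map.2 ⟨t, List.mem_append_left _ ht, rfl⟩
  · exact List.mem_map.2 ⟨t, List.mem_append_right _ ht, rfl⟩

theorem ncBig_mul {c : NC D k} {B m : ℕ} (h : ncBig c B) (hm : 0 < m) : ncBig c (B * m) :=
  ⟨Nat.mul_pos h.1 hm, fun t ht => scBig_mul (h.2.1 t ht) hm, fun t ht => scBig_mul (h.2.2 t ht) hm⟩

/-- a common large number for a string and finitely many normal forms -/
theorem exists_big (w : SC D) (q : NC D k) (P : List (NC D k)) :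
    ∃ B, scBig w B ∧ ncBig q B ∧ ∀ p ∈ P, ncBig p B := by
  obtain ⟨B, h0, h⟩ := KPer_exists_list (w :: (q :: P).flatMap fun c => (c.1 ++ c.2).map fun t => bcS t.1)
  have aux : ∀ c ∈ q :: P, ncBig c B := by
    intro c hc
    refine ⟨h0, fun t ht => h _ ?_, fun t ht => h _ ?_⟩
    · exact List.mem_cons_of_mem _ (List.mem_flatMap.2 ⟨c, hc, List.mem_map.2 ⟨t, List.mem_append_left _ ht, rfl⟩⟩)
    · exact List.mem_cons_of_mem _ (List.mem_flatMap.2 ⟨c, hc, List.mem_map.2 ⟨t, List.mem_append_right _ ht, rfl⟩⟩)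
  exact ⟨B, h w List.mem_cons_self, aux q List.mem_cons_self, fun p hp => aux p (List.mem_cons_of_mem _ hp)⟩

theorem exists_big' (q : NC D k) (P : List (NC D k)) : ∃ B, ncBig q B ∧ ∀ p ∈ P, ncBig p B := by
  obtain ⟨B, -, h1, h2⟩ := exists_big (([], []), ([], [])) q P
  exact ⟨B, h1, h2⟩

end StrAlg
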