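import Pool.Agent.Lib.MP_b9fd58_lc.KCmpB
import Pool.Agent.Lib.MP_b9fd58_lc.KPer

/-!
# Stream K: validity of codes is decidable; certificates of type S are r.e. (on codes)
-/

set_option autoImplicit false

namespace StrAlg

open ReCalc

variable {D : Dat} {k : Type} [Field k] {S : Sides D}

theorem KOkD_lt_r {c : SC D} {B : ℕ} (h : scBig c B) (e : Bool) {p : ℤ} (hp : (B : ℤ) + 1 ≤ p) :
    scLt c e (p + B) = scLt c e p := by
  cases e
  · have h1 := scLam_per_right h (p := p - 1) (by omega)
    have e1 : p + (B : ℤ) - 1 = p - 1 + B := by ring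
    simp only [scLt, Bool.false_eq_true, if_false]
    rw [e1, h1]
  · simp only [scLt, if_true]
    exact scLam_per_right h (by omega)

theorem KOkD_lt_l {c : SC D} {B : ℕ} (h : scBig c B) (e : Bool) {p : ℤ} (hp : p ≤ -((B : ℤ) + 2)) :
    scLt c e (p - B) = scLt c e p := by
  cases e
  · have h1 := scLam_per_left h (p := p - 1) (by omega)
    have e1 : p - (B : ℤ) - 1 = p - 1 - B := by ring
    simp only [scLt, Bool.false_eq_true, if_false]
    rw [e1, h1]
  · simp only [scLt, if_true]
    exact scLam_per_left h (by omega)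

/-- `scBk` only depends on the records within distance `l.length + 1`: shift far to the right -/
theorem scBk_shift_right {c : SC D} {B : ℕ} (h : scBig c B) (e : Bool) (l : List (Fin D.nE)) {p : ℤ}
    (hp : (B : ℤ) + l.length + 2 ≤ p) : scBk S c e l (p + B) ↔ scBk S c e l p := by
  induction l generalizing p with
  | nil => exact Iff.rfl
  | cons a l ih =>
    have hlen : ((a :: l).length : ℤ) = (l.length : ℤ) + 1 := by simp
    rw [hlen] at hp
    have h0 : (0 : ℤ) ≤ (l.length : ℤ) := Int.natCast_nonneg _
    have h1 := KOkD_lt_r h e (p := p) (by omega)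
    have hF := scF_per_right h (p := p) (by omega)
    have h2 : scV c (p + B) = scV c p := by unfold scV; rw [hF]
    have h3 : scSd c e (p + B) = scSd c e p := by unfold scSd scR; rw [hF]
    have h4 : st e (p + B) = st e p + B := by
      cases e
      · simp only [st, Bool.false_eq_true, if_false]; ring
      · simp only [st, if_true]; ring
    have h5 := ih (p := st e p) (by
      cases e
      · simp only [st, Bool.false_eq_true, if_false]; omega
      · simp only [st, if_true]; omega)
    unfold scBk
    rw [h1, h2, h3, h4, h5]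

theorem scBk_shift_left {c : SC D} {B : ℕ} (h : scBig c B) (e : Bool) (l : List (Fin D.nE)) {p : ℤ}
    (hp : p ≤ -((B : ℤ) + l.length + 3)) : scBk S c e l (p - B) ↔ scBk S c e l p := by
  induction l generalizing p with
  | nil => exact Iff.rfl
  | cons a l ih =>
    have hlen : ((a :: l).length : ℤ) = (l.length : ℤ) + 1 := by simp
    rw [hlen] at hp
    have h0 : (0 : ℤ) ≤ (l.length : ℤ) := Int.natCast_nonneg _
    have h1 := KOkD_lt_l h e (p := p) (by omega)
    have hF := scF_per_left h (p := p) (by omega)
    have h2 : scV c (p - B) = scV c p := by unfold scV; rw [hF]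
    have h3 : scSd c e (p - B) = scSd c e p := by unfold scSd scR; rw [hF]
    have h4 : st e (p - B) = st e p - B := by
      cases e
      · simp only [st, Bool.false_eq_true, if_false]; ring
      · simp only [st, if_true]; ring
    have h5 := ih (p := st e p) (by
      cases e
      · simp only [st, Bool.false_eq_true, if_false]; omega
      · simp only [st, if_true]; omega)
    unfold scBk
    rw [h1, h2, h3, h4, h5]

/-- the length of the longest relation -/
def relMax (D : Dat) : ℕ := (D.rel.map List.length).foldr max 0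

theorem KOkD_foldr {L : List ℕ} {n : ℕ} (h : n ∈ L) : n ≤ L.foldr max 0 := by
  induction L with
  | nil => exact absurd h List.not_mem_nil
  | cons m L ih =>
    rw [List.foldr_cons]
    rcases List.mem_cons.1 h with rfl | h
    · exact le_max_left _ _
    · exact (ih h).trans (le_max_right _ _)

theorem KOkD_relMax {r : List (Fin D.nE)} (h : r ∈ D.rel) : r.length ≤ relMax D :=
  KOkD_foldr (List.mem_map.2 ⟨r, h, rfl⟩)

theorem KOkD_loc_r {c : SC D} {B : ℕ} (h : scBig c B) (hB : relMax D ≤ B) {p : ℤ}
    (hp : 9 * (B : ℤ) ≤ p) : scLoc S c (p + B) ↔ scLoc S c p := by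
  have hB0 : 0 < B := h.1
  have hF := scF_per_right h (p := p) (by omega)
  have hF' := scF_per_right h (p := p + 1) (by omega)
  have e1 : p + (B : ℤ) + 1 = p + 1 + B := by ring
  unfold scLoc
  rw [e1, hF, hF']
  refine and_congr_right fun _ => forall_congr' fun r => forall_congr' fun hr =>
    forall_congr' fun e => not_congr ?_
  apply scBk_shift_right h
  have := KOkD_relMax hr
  rw [List.length_reverse]
  omega

theorem KOkD_loc_l {c : SC D} {B : ℕ} (h : scBig c B) (hB : relMax D ≤ B) {p : ℤ}
    (hp : p ≤ -(9 * (B : ℤ))) : scLoc S c (p - B) ↔ scLoc S c p := by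
  have hB0 : 0 < B := h.1
  have hF := scF_per_left h (p := p) (by omega)
  have hF' := scF_per_left h (p := p + 1) (by omega)
  have e1 : p - (B : ℤ) + 1 = p + 1 - B := by ring
  unfold scLoc
  rw [e1, hF, hF']
  refine and_congr_right fun _ => forall_congr' fun r => forall_congr' fun hr =>
    forall_congr' fun e => not_congr ?_
  apply scBk_shift_left h
  have := KOkD_relMax hr
  rw [List.length_reverse]
  omega

/-- validity is a bounded condition -/
theorem scOk_iff_bounded {c : SC D} {B : ℕ} (h : scBig c B) (hB : relMax D ≤ B) :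
    scOk S c ↔ scIn c 0 ∧ ∀ p < 20 * B + 1, scLoc S c ((p : ℤ) - ((10 * B : ℕ) : ℤ)) := by
  have hB0 : 0 < B := h.1
  constructor
  · rintro ⟨h1, h2⟩
    exact ⟨h1, fun p _ => h2 _⟩
  · rintro ⟨h1, h2⟩
    refine ⟨h1, fun q => ?_⟩
    induction hm : q.natAbs using Nat.strong_induction_on generalizing q with
    | _ m ih =>
      rcases le_or_gt q.natAbs (10 * B) with h3 | h3
      · have h4 := h2 (q + ((10 * B : ℕ) : ℤ)).toNat (by omega)
        have e1 : (((q + ((10 * B : ℕ) : ℤ)).toNat : ℕ) : ℤ) - ((10 * B : ℕ) : ℤ) = q := by omega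
        rw [e1] at h4
        exact h4
      · rcases le_or_gt 0 q with h4 | h4
        · have h5 := ih (q - B).natAbs (by omega) (q - B) rfl
          have h6 := (KOkD_loc_r (S := S) h hB (p := q - B) (by omega)).2 h5
          rw [sub_add_cancel] at h6
          exact h6
        · have h5 := ih (q + B).natAbs (by omega) (q + B) rfl
          have h6 := (KOkD_loc_l (S := S) h hB (p := q + B) (by omega)).2 h5
          rw [add_sub_cancel_right] at h6
          exact h6

/-- the bounded condition -/
def KOkD_bd (S : Sides D) (t : SC D × ℕ) : Prop :=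
  scIn t.1 0 ∧ ∀ p < 20 * t.2 + 1, scLoc S t.1 ((p : ℤ) - ((10 * t.2 : ℕ) : ℤ))

theorem KOkD_bdD : DP (KOkD_bd S) := by
  apply DP.and
  · exact scInD Computable.fst (Computable.const 0)
  · apply DP.forall_lt (f := fun t : SC D × ℕ => 20 * t.2 + 1)
      (q := fun t p => scLoc S t.1 ((p : ℤ) - ((10 * t.2 : ℕ) : ℤ)))
    · exact addN (mulN (Computable.const 20) Computable.snd) (Computable.const 1)
    · exact scLocD (Computable.fst.comp Computable.fst)
        (subZ (castZ Computable.snd)
          (castZ (mulN (Computable.const 10) (Computable.snd.comp Computable.fst))))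

theorem KOkD_bigD : DP fun t : SC D × ℕ => scBig t.1 t.2 ∧ relMax D ≤ t.2 :=
  DP.and (scBigD Computable.fst Computable.snd) (DP.le (Computable.const _) Computable.snd)

theorem KOkD_ex (c : SC D) : ∃ B, scBig c B ∧ relMax D ≤ B := by
  obtain ⟨B, hB⟩ := exists_scBig c
  refine ⟨B * (relMax D + 1), scBig_mul hB (by omega), ?_⟩
  have := hB.1
  nlinarith

theorem scOkD : DP fun c : SC D => scOk S c := by
  constructor
  · have h1 : REPred fun c : SC D => ∃ B : ℕ, (scBig c B ∧ relMax D ≤ B) ∧ KOkD_bd S (c, B) :=
      re_ex (q := fun c B => (scBig c B ∧ relMax D ≤ B) ∧ KOkD_bd S (c, B))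
        (re_and KOkD_bigD.re KOkD_bdD.re)
    refine h1.of_eq fun c => ?_
    constructor
    · rintro ⟨B, ⟨h2, h3⟩, h4⟩
      exact (scOk_iff_bounded h2 h3).2 h4
    · intro h4
      obtain ⟨B, h2, h3⟩ := KOkD_ex c
      exact ⟨B, ⟨h2, h3⟩, (scOk_iff_bounded h2 h3).1 h4⟩
  · have h1 : REPred fun c : SC D => ∃ B : ℕ, (scBig c B ∧ relMax D ≤ B) ∧ ¬ KOkD_bd S (c, B) :=
      re_ex (q := fun c B => (scBig c B ∧ relMax D ≤ B) ∧ ¬ KOkD_bd S (c, B))
        (re_and KOkD_bigD.re KOkD_bdD.not.re)
    refine h1.of_eq fun c => ?_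
    constructor
    · rintro ⟨B, ⟨h2, h3⟩, h4⟩ h5
      exact h4 ((scOk_iff_bounded h2 h3).1 h5)
    · intro h4
      obtain ⟨B, h2, h3⟩ := KOkD_ex c
      exact ⟨B, ⟨h2, h3⟩, fun h5 => h4 ((scOk_iff_bounded h2 h3).2 h5)⟩

variable [Primcodable k]

omit [Primcodable k] in
theorem KOkD_mat (n : ℕ) (A B : List k) : (∀ i < n, ∀ j < n,
    ∑ l ∈ Finset.range n, ent A (i * n + l) * ent B (l * n + j) = if i = j then 1 else 0) ↔
    matOf n A * matOf n B = 1 := by
  have key : ∀ i j : Fin n, (matOf n A * matOf n B) i j =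
      ∑ l ∈ Finset.range n, ent A (i * n + l) * ent B (l * n + j) := by
    intro i j
    rw [Matrix.mul_apply, Finset.sum_range]
    rfl
  constructor
  · intro h
    ext i j
    rw [key, h i i.2 j j.2, Matrix.one_apply]
    by_cases hij : i = j
    · rw [if_pos hij, if_pos (by rw [hij])]
    · rw [if_neg hij, if_neg (fun h => hij (Fin.ext h))]
  · intro h i hi j hj
    have h1 := key ⟨i, hi⟩ ⟨j, hj⟩
    rw [h, Matrix.one_apply] at h1
    rw [← h1]
    by_cases hij : i = j
    · rw [if_pos hij, if_pos (Fin.ext hij)]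
    · rw [if_neg hij, if_neg (fun h => hij (congrArg Fin.val h))]

/-- `matOf n A * matOf n B = 1` entrywise -/
theorem matOneD (hadd : Computable₂ (fun a b : k => a + b)) (hmul : Computable₂ (fun a b : k => a * b)) :
    DP fun t : ℕ × List k × List k => matOf t.1 t.2.1 * matOf t.1 t.2.2 = 1 := by
  refine DP.congr (p := fun t : ℕ × List k × List k => ∀ i < t.1, ∀ j < t.1,
    ∑ l ∈ Finset.range t.1, ent t.2.1 (i * t.1 + l) * ent t.2.2 (l * t.1 + j) =
      if i = j then 1 else 0) ?_ (fun t => KOkD_mat t.1 t.2.1 t.2.2)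
  apply DP.forall_lt (f := fun t : ℕ × List k × List k => t.1)
    (q := fun t i => ∀ j < t.1, ∑ l ∈ Finset.range t.1,
      ent t.2.1 (i * t.1 + l) * ent t.2.2 (l * t.1 + j) = if i = j then 1 else 0) Computable.fst
  apply DP.forall_lt (f := fun t : (ℕ × List k × List k) × ℕ => t.1.1)
    (q := fun t j => ∑ l ∈ Finset.range t.1.1,
      ent t.1.2.1 (t.2 * t.1.1 + l) * ent t.1.2.2 (l * t.1.1 + j) = if t.2 = j then 1 else 0)
    (Computable.fst.comp Computable.fst)
  apply DP.eq
  · apply sumRangeC hadd (f := fun t : ((ℕ × List k × List k) × ℕ) × ℕ => t.1.1.1)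
      (g := fun t l => ent t.1.1.2.1 (t.1.2 * t.1.1.1 + l) * ent t.1.1.2.2 (l * t.1.1.1 + t.2))
    · exact Computable.fst.comp (Computable.fst.comp Computable.fst)
    · have c1 : Computable fun t : (((ℕ × List k × List k) × ℕ) × ℕ) × ℕ => t.1.1.1 :=
        Computable.fst.comp (Computable.fst.comp Computable.fst)
      have c2 : Computable fun t : (((ℕ × List k × List k) × ℕ) × ℕ) × ℕ => t.1.1.1.1 :=
        Computable.fst.comp c1
      have c3 : Computable fun t : (((ℕ × List k × List k) × ℕ) × ℕ) × ℕ => t.1.1.1.2.1 :=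
        Computable.fst.comp (Computable.snd.comp c1)
      have c4 : Computable fun t : (((ℕ × List k × List k) × ℕ) × ℕ) × ℕ => t.1.1.1.2.2 :=
        Computable.snd.comp (Computable.snd.comp c1)
      have c5 : Computable fun t : (((ℕ × List k × List k) × ℕ) × ℕ) × ℕ => t.1.1.2 :=
        Computable.snd.comp (Computable.fst.comp Computable.fst)
      have c6 : Computable fun t : (((ℕ × List k × List k) × ℕ) × ℕ) × ℕ => t.1.2 :=
        Computable.snd.comp Computable.fst
      exact mulK hmul (entC c3 (addN (mulN c5 c2) Computable.snd))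
        (entC c4 (addN (mulN Computable.snd c2) c6))
  · exact DP.ite (DP.eq (Computable.snd.comp Computable.fst) Computable.snd) (Computable.const 1)
      (Computable.const 0)

theorem bcOkD (hadd : Computable₂ (fun a b : k => a + b)) (hmul : Computable₂ (fun a b : k => a * b)) :
    DP fun b : BC D k => bcOk S b := by
  have hS : Computable fun b : BC D k => bcS b := bcSC Computable.id
  have hP : Computable fun b : BC D k => bcP b := bcPC Computable.id
  have hN : Computable fun b : BC D k => bcN b := bcNC Computable.id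
  have hM : Computable fun b : BC D k => bcM b := bcMC Computable.id
  have hM' : Computable fun b : BC D k => bcM' b := bcM'C Computable.id
  unfold bcOk
  apply DP.and (scOkD.comp hS)
  apply DP.imp
  · exact DP.of_bool Computable.fst
  apply DP.and
  · apply DP.forall_lt (q := fun (b : BC D k) d => 0 < d → ∃ p < bcP b,
      scF (bcS b) ((p : ℤ) + (d : ℤ)) ≠ scF (bcS b) p) hP
    apply DP.imp
    · exact DP.lt (Computable.const 0) Computable.snd
    apply DP.exists_lt (f := fun t : BC D k × ℕ => bcP t.1) (q := fun t p =>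
      scF (bcS t.1) ((p : ℤ) + (t.2 : ℤ)) ≠ scF (bcS t.1) p) (hP.comp Computable.fst)
    have c1 : Computable fun t : (BC D k × ℕ) × ℕ => bcS t.1.1 :=
      hS.comp (Computable.fst.comp Computable.fst)
    exact DP.ne (scFC c1 (addZ (castZ Computable.snd)
      (castZ (Computable.snd.comp Computable.fst)))) (scFC c1 (castZ Computable.snd))
  · apply DP.and
    · exact (matOneD hadd hmul).comp (f := fun b : BC D k => (bcN b, bcM b, bcM' b))
        (hN.pair (hM.pair hM'))
    · exact (matOneD hadd hmul).comp (f := fun b : BC D k => (bcN b, bcM' b, bcM b))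
        (hN.pair (hM'.pair hM))

theorem ncOkD (hadd : Computable₂ (fun a b : k => a + b)) (hmul : Computable₂ (fun a b : k => a * b)) :
    DP fun c : NC D k => ncOk S c := by
  unfold ncOk
  apply DP.and
  · exact DP.forall_mem (q := fun _ (t : EC D k) => bcOk S t.1) Computable.fst
      ((bcOkD hadd hmul).comp (f := fun p : NC D k × EC D k => p.2.1)
        (Computable.fst.comp Computable.snd))
  · exact DP.forall_mem (q := fun _ (t : EC D k) => bcOk S t.1) Computable.snd
      ((bcOkD hadd hmul).comp (f := fun p : NC D k × EC D k => p.2.1)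
        (Computable.fst.comp Computable.snd))

end StrAlg
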