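import Pool.Agent.Lib.MP_b9fd58_lc.K2CmpE
import Pool.Agent.Lib.MP_b9fd58_lc.K2CmpG
import Pool.Agent.Lib.MP_b9fd58_lc.K2CmpH
import Pool.Agent.Lib.MP_b9fd58_lc.K2CmpI
import Pool.Agent.Lib.MP_b9fd58_lc.KOkD
import Pool.Agent.Lib.MP_b9fd58_lc.KCmpD

/-!
# Stream K2: computability of the predicates for components
-/

set_option autoImplicit false
set_option synthInstance.maxSize 2000

namespace StrAlg

open ReCalc

variable {D : Dat} {k : Type} [Field k] [Primcodable k] {S : Sides D}

section
variable {α : Type} [Primcodable α]

theorem K2CmpF_geS (hadd : Computable₂ (fun a b : k => a + b)) (hmul : Computable₂ (fun a b : k => a * b))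
    {w : α → SC D} {p : α → NC D k} {n : α → ℕ} (hw : Computable w) (hp : Computable p) (hn : Computable n) :
    REPred fun a => ∃ B : ℕ, ncBig (p a) B ∧ scBig (w a) B ∧ geS B (p a) (w a) (n a) := by
  refine re_ex (q := fun a (B : ℕ) => ncBig (p a) B ∧ scBig (w a) B ∧ geS B (p a) (w a) (n a)) ?_
  refine re_and (ncBigD (hp.comp Computable.fst) Computable.snd).re
    (re_and (scBigD (hw.comp Computable.fst) Computable.snd).re ?_)
  exact geSR hadd hmul Computable.snd (hp.comp Computable.fst) (hw.comp Computable.fst)
    (hn.comp Computable.fst)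

theorem K2CmpF_eqS (hadd : Computable₂ (fun a b : k => a + b)) (hmul : Computable₂ (fun a b : k => a * b))
    {w : α → SC D} {p : α → NC D k} {n : α → ℕ} (hw : Computable w) (hp : Computable p) (hn : Computable n) :
    REPred fun a => ∃ B : ℕ, ncBig (p a) B ∧ scBig (w a) B ∧ eqS B (p a) (w a) (n a) := by
  refine re_ex (q := fun a (B : ℕ) => ncBig (p a) B ∧ scBig (w a) B ∧ eqS B (p a) (w a) (n a)) ?_
  refine re_and (ncBigD (hp.comp Computable.fst) Computable.snd).re
    (re_and (scBigD (hw.comp Computable.fst) Computable.snd).re ?_)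
  exact eqSR hadd hmul Computable.snd (hp.comp Computable.fst) (hw.comp Computable.fst)
    (hn.comp Computable.fst)

theorem K2CmpF_geP (hadd : Computable₂ (fun a b : k => a + b)) (hmul : Computable₂ (fun a b : k => a * b))
    {b : α → BC D k} {π : α → List k} {p : α → NC D k} {n : α → ℕ} (hb : Computable b) (hπ : Computable π)
    (hp : Computable p) (hn : Computable n) :
    REPred fun a => ∃ B : ℕ, ncBig (p a) B ∧ scBig (bcS (b a)) B ∧ geP B (p a) (b a) (π a) (n a) := by
  refine re_ex (q := fun a (B : ℕ) => ncBig (p a) B ∧ scBig (bcS (b a)) B ∧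
    geP B (p a) (b a) (π a) (n a)) ?_
  refine re_and (ncBigD (hp.comp Computable.fst) Computable.snd).re
    (re_and (scBigD (bcSC (hb.comp Computable.fst)) Computable.snd).re ?_)
  exact gePR hadd hmul Computable.snd (hp.comp Computable.fst) (hb.comp Computable.fst)
    (hπ.comp Computable.fst) (hn.comp Computable.fst)

theorem K2CmpF_eqP (hadd : Computable₂ (fun a b : k => a + b)) (hmul : Computable₂ (fun a b : k => a * b))
    {b : α → BC D k} {π : α → List k} {p : α → NC D k} {n : α → ℕ} (hb : Computable b) (hπ : Computable π)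
    (hp : Computable p) (hn : Computable n) :
    REPred fun a => ∃ B : ℕ, ncBig (p a) B ∧ scBig (bcS (b a)) B ∧ eqP B (p a) (b a) (π a) (n a) := by
  refine re_ex (q := fun a (B : ℕ) => ncBig (p a) B ∧ scBig (bcS (b a)) B ∧
    eqP B (p a) (b a) (π a) (n a)) ?_
  refine re_and (ncBigD (hp.comp Computable.fst) Computable.snd).re
    (re_and (scBigD (bcSC (hb.comp Computable.fst)) Computable.snd).re ?_)
  exact eqPR hadd hmul Computable.snd (hp.comp Computable.fst) (hb.comp Computable.fst)
    (hπ.comp Computable.fst) (hn.comp Computable.fst)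

theorem K2CmpF_geA (hadd : Computable₂ (fun a b : k => a + b)) (hmul : Computable₂ (fun a b : k => a * b))
    {b : α → BC D k} {π : α → List k} {p : α → NC D k} {n : α → ℕ} (hb : Computable b) (hπ : Computable π)
    (hp : Computable p) (hn : Computable n) :
    REPred fun a => ∃ B : ℕ, ncBig (p a) B ∧ scBig (bcS (b a)) B ∧ geA B (p a) (b a) (π a) (n a) := by
  refine re_ex (q := fun a (B : ℕ) => ncBig (p a) B ∧ scBig (bcS (b a)) B ∧
    geA B (p a) (b a) (π a) (n a)) ?_
  refine re_and (ncBigD (hp.comp Computable.fst) Computable.snd).re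
    (re_and (scBigD (bcSC (hb.comp Computable.fst)) Computable.snd).re ?_)
  exact geAR hadd hmul Computable.snd (hp.comp Computable.fst) (hb.comp Computable.fst)
    (hπ.comp Computable.fst) (hn.comp Computable.fst)

theorem K2CmpF_eqA (hadd : Computable₂ (fun a b : k => a + b)) (hmul : Computable₂ (fun a b : k => a * b))
    {b : α → BC D k} {π : α → List k} {p : α → NC D k} {n : α → ℕ} (hb : Computable b) (hπ : Computable π)
    (hp : Computable p) (hn : Computable n) :
    REPred fun a => ∃ B : ℕ, ncBig (p a) B ∧ scBig (bcS (b a)) B ∧ eqA B (p a) (b a) (π a) (n a) := by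
  refine re_ex (q := fun a (B : ℕ) => ncBig (p a) B ∧ scBig (bcS (b a)) B ∧
    eqA B (p a) (b a) (π a) (n a)) ?_
  refine re_and (ncBigD (hp.comp Computable.fst) Computable.snd).re
    (re_and (scBigD (bcSC (hb.comp Computable.fst)) Computable.snd).re ?_)
  exact eqAR hadd hmul Computable.snd (hp.comp Computable.fst) (hb.comp Computable.fst)
    (hπ.comp Computable.fst) (hn.comp Computable.fst)

end

theorem ccOkR (hadd : Computable₂ (fun a b : k => a + b)) (hmul : Computable₂ (fun a b : k => a * b)) :
    REPred fun d : CC D k => ccOk S d := by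
  have hN : Computable fun d : CC D k => d.2.1 := Computable.fst.comp Computable.snd
  have hw : Computable fun d : CC D k => d.2.2.1 :=
    Computable.fst.comp (Computable.snd.comp Computable.snd)
  have hb : Computable fun d : CC D k => d.2.2.2.1 :=
    Computable.fst.comp (Computable.snd.comp (Computable.snd.comp Computable.snd))
  have hπ : Computable fun d : CC D k => d.2.2.2.2 :=
    Computable.snd.comp (Computable.snd.comp (Computable.snd.comp Computable.snd))
  unfold ccOk
  refine re_or (re_and (re_eq Computable.fst (Computable.const 0)) ((fmOkD hadd hmul).comp hN).re)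
    (re_or (re_and (re_eq Computable.fst (Computable.const 1)) (re_and (scOkD.comp hw).re (aperCR hw))) ?_)
  exact re_and (re_or (re_eq Computable.fst (Computable.const 2)) (re_eq Computable.fst (Computable.const 3)))
    (re_and ((bcOkD hadd hmul).comp hb).re
      (re_and (re_eq (Computable.fst.comp hb) (Computable.const true)) (polOkCD hπ).re))

theorem ccGeR (hadd : Computable₂ (fun a b : k => a + b)) (hmul : Computable₂ (fun a b : k => a * b)) :
    REPred fun t : CC D k × NC D k × ℕ => ccGe S t.1 t.2.1 t.2.2 := by
  have h1 : Computable fun t : CC D k × NC D k × ℕ => t.1.1 := Computable.fst.comp Computable.fst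
  have hN : Computable fun t : CC D k × NC D k × ℕ => t.1.2.1 :=
    Computable.fst.comp (Computable.snd.comp Computable.fst)
  have hw : Computable fun t : CC D k × NC D k × ℕ => t.1.2.2.1 :=
    Computable.fst.comp (Computable.snd.comp (Computable.snd.comp Computable.fst))
  have hb : Computable fun t : CC D k × NC D k × ℕ => t.1.2.2.2.1 :=
    Computable.fst.comp (Computable.snd.comp (Computable.snd.comp (Computable.snd.comp Computable.fst)))
  have hπ : Computable fun t : CC D k × NC D k × ℕ => t.1.2.2.2.2 :=
    Computable.snd.comp (Computable.snd.comp (Computable.snd.comp (Computable.snd.comp Computable.fst)))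
  have hp : Computable fun t : CC D k × NC D k × ℕ => t.2.1 := Computable.fst.comp Computable.snd
  have hn : Computable fun t : CC D k × NC D k × ℕ => t.2.2 := Computable.snd.comp Computable.snd
  have hpr : Computable fun t : CC D k × NC D k × ℕ => ncPr S t.2.1 := (ncPrC hadd).comp hp
  have hφ : Computable fun t : CC D k × NC D k × ℕ => (ncPr S t.2.1).1 := Computable.fst.comp hpr
  have hψ : Computable fun t : CC D k × NC D k × ℕ => (ncPr S t.2.1).2 := Computable.snd.comp hpr
  unfold ccGe
  exact re_or (re_and (re_eq h1 (Computable.const 0)) (fGeR hadd hmul hN hφ hψ hn))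
    (re_or (re_and (re_eq h1 (Computable.const 1)) (K2CmpF_geS hadd hmul hw hp hn))
      (re_or (re_and (re_eq h1 (Computable.const 2)) (K2CmpF_geP hadd hmul hb hπ hp hn))
        (re_and (re_eq h1 (Computable.const 3)) (K2CmpF_geA hadd hmul hb hπ hp hn))))

theorem ccEqR (hadd : Computable₂ (fun a b : k => a + b)) (hmul : Computable₂ (fun a b : k => a * b)) :
    REPred fun t : CC D k × NC D k × ℕ => ccEq S t.1 t.2.1 t.2.2 := by
  have h1 : Computable fun t : CC D k × NC D k × ℕ => t.1.1 := Computable.fst.comp Computable.fst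
  have hN : Computable fun t : CC D k × NC D k × ℕ => t.1.2.1 :=
    Computable.fst.comp (Computable.snd.comp Computable.fst)
  have hw : Computable fun t : CC D k × NC D k × ℕ => t.1.2.2.1 :=
    Computable.fst.comp (Computable.snd.comp (Computable.snd.comp Computable.fst))
  have hb : Computable fun t : CC D k × NC D k × ℕ => t.1.2.2.2.1 :=
    Computable.fst.comp (Computable.snd.comp (Computable.snd.comp (Computable.snd.comp Computable.fst)))
  have hπ : Computable fun t : CC D k × NC D k × ℕ => t.1.2.2.2.2 :=
    Computable.snd.comp (Computable.snd.comp (Computable.snd.comp (Computable.snd.comp Computable.fst)))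
  have hp : Computable fun t : CC D k × NC D k × ℕ => t.2.1 := Computable.fst.comp Computable.snd
  have hn : Computable fun t : CC D k × NC D k × ℕ => t.2.2 := Computable.snd.comp Computable.snd
  have hpr : Computable fun t : CC D k × NC D k × ℕ => ncPr S t.2.1 := (ncPrC hadd).comp hp
  have hφ : Computable fun t : CC D k × NC D k × ℕ => (ncPr S t.2.1).1 := Computable.fst.comp hpr
  have hψ : Computable fun t : CC D k × NC D k × ℕ => (ncPr S t.2.1).2 := Computable.snd.comp hpr
  unfold ccEq
  exact re_or (re_and (re_eq h1 (Computable.const 0))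
      (re_and (fGeR hadd hmul hN hφ hψ hn) (fLeR hadd hmul hN hφ hψ hn)))
    (re_or (re_and (re_eq h1 (Computable.const 1)) (K2CmpF_eqS hadd hmul hw hp hn))
      (re_or (re_and (re_eq h1 (Computable.const 2)) (K2CmpF_eqP hadd hmul hb hπ hp hn))
        (re_and (re_eq h1 (Computable.const 3)) (K2CmpF_eqA hadd hmul hb hπ hp hn))))

end StrAlg
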