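import Pool.Agent.Lib.MP_b9fd58_lc.KDefs

/-!
# Stream K2: ranks on codes (definitions)
-/

set_option autoImplicit false

namespace StrAlg

open Module Polynomial

variable {D : Dat} {k : Type} [Field k]

/-! ### Ranks of matrices given by lists of rows -/

/-- the span of the rows of a list (a row is a function on `ℕ`, zero outside the list) -/
def rowSp (M : List (List k)) : Submodule k (ℕ → k) := Submodule.span k {v | ∃ r ∈ M, v = ent r}

/-- a bound for the lengths of the rows -/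
def wid (M : List (List k)) : ℕ := (M.map List.length).foldr max 0

/-- certificate for `n ≤ rank` -/
def rkGe (M : List (List k)) (n : ℕ) : Prop :=
  ∃ A C : List k, ∀ i < n, ∀ j < n,
    (∑ r ∈ Finset.range M.length, ∑ c ∈ Finset.range (wid M),
      ent A (i * M.length + r) * ent (M.getD r []) c * ent C (c * n + j)) = if i = j then 1 else 0

/-- certificate for `rank ≤ n` -/
def rkLe (M : List (List k)) (n : ℕ) : Prop :=
  ∃ A C : List k, ∀ r < M.length, ∀ c < wid M,
    ent (M.getD r []) c = ∑ i ∈ Finset.range n, ent A (r * n + i) * ent C (i * wid M + c)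

/-- the matrix of the scalar products of the vectors of `T` with those of `S` (`L` coordinates) -/
def pairM (T S : List (List k)) (L : ℕ) : List (List k) :=
  T.map fun t => S.map fun s => ∑ z ∈ Finset.range L, ent t z * ent s z

/-! ### Type F: coded finite-dimensional modules -/

/-- certificate for `n ≤ dim φ/(φ ∩ ψ)` -/
def fGe (N : ℕ × List k) (φ ψ : PP D k) (n : ℕ) : Prop :=
  ∃ X L : List k, (∀ i < n, memC N φ (row N.1 X i)) ∧ (∀ i < n, annC N ψ (row N.1 L i)) ∧
    ∀ i < n, ∀ j < n,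
      (∑ m ∈ Finset.range N.1, ent L (i * N.1 + m) * ent X (j * N.1 + m)) = if i = j then 1 else 0

/-- certificate for `dim φ/(φ ∩ ψ) ≤ n`: `x = x P + x F E` for all `x ∈ φ(N)`, the rows of `P` are in `ψ(N)` -/
def fLe (N : ℕ × List k) (φ ψ : PP D k) (n : ℕ) : Prop :=
  ∃ P F E : List k, (∀ m < N.1, memC N ψ (row N.1 P m)) ∧
    ∀ i < N.1, annC N φ ((List.range N.1).map fun m => (if m = i then 1 else 0) - ent P (m * N.1 + i) -
      ∑ l ∈ Finset.range n, ent F (m * n + l) * ent E (l * N.1 + i))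

/-! ### Type S: strings -/

/-- the value at `z` of the graph map from `X` into `w` through the match of `c` with `q`, `j`-th component -/
def pushv (X : EC D k) (w : SC D) (o : Bool) (c q : ℤ) (j : ℕ) (z : ℤ) : k :=
  if (∀ m < (z - q).natAbs, agC (bcS X.1) w o (decide (q ≤ z) == o) c q m) then
    ent (av X (stn (decide (q ≤ z) == o) (((z - q).natAbs : ℕ) : ℤ) c)) j else 0

/-- the value at `z` of the functional of `Y` after the graph map from `w` to `Y` through the match of `q` with `r` -/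
def pullv (w : SC D) (Y : EC D k) (o : Bool) (q r : ℤ) (j : ℕ) (z : ℤ) : k :=
  if (∀ m < (z - q).natAbs, agC w (bcS Y.1) o (decide (q ≤ z)) q r m) then
    ent (bv Y (stn (decide (q ≤ z) == o) (((z - q).natAbs : ℕ) : ℤ) r)) j else 0

/-- the position with the index `q` in the zone `[-10 B, 10 B]` -/
def zp (B q : ℕ) : ℤ := (q : ℤ) - ((10 * B : ℕ) : ℤ)
/-- the position with the index `z` in the window `[-30 B, 30 B]` -/
def wp (B z : ℕ) : ℤ := (z : ℤ) - ((30 * B : ℕ) : ℤ)

open Classical in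
/-- the graph maps into `w` based in the zone -/
noncomputable def inVecs (B : ℕ) (p : NC D k) (w : SC D) : List (List k) :=
  p.1.flatMap fun X => (List.range (bcP X.1)).flatMap fun (c : ℕ) => [true, false].flatMap fun (o : Bool) =>
    (List.range (20 * B + 1)).flatMap fun (q : ℕ) =>
      if ordC (20 * B) (bcS X.1) w o (c : ℤ) (zp B q) then
        (List.range (bcN X.1)).map fun (j : ℕ) =>
          (List.range (60 * B + 1)).map fun (z : ℕ) => pushv X w o (c : ℤ) (zp B q) j (wp B z)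
      else []

open Classical in
/-- the functionals of the graph maps from `w` based in the zone -/
noncomputable def outVecs (B : ℕ) (p : NC D k) (w : SC D) : List (List k) :=
  p.2.flatMap fun Y => (List.range (bcP Y.1)).flatMap fun (r : ℕ) => [true, false].flatMap fun (o : Bool) =>
    (List.range (20 * B + 1)).flatMap fun (q : ℕ) =>
      if ordC (20 * B) w (bcS Y.1) o (zp B q) (r : ℤ) then
        (List.range (bcN Y.1)).map fun (j : ℕ) =>
          (List.range (60 * B + 1)).map fun (z : ℕ) => pullv w Y o (zp B q) (r : ℤ) j (wp B z)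
      else []

/-- the matrix of the values -/
noncomputable def matS (B : ℕ) (p : NC D k) (w : SC D) : List (List k) :=
  pairM (outVecs B p w) (inVecs B p w) (60 * B + 1)

/-- no relevant positions in `[8 B, 10 B]` and `[-10 B, -8 B]` -/
def noRelC (B : ℕ) (p : NC D k) (w : SC D) : Prop :=
  ∀ X ∈ p.1, ∀ Y ∈ p.2, ∀ q < 20 * B + 1, (q ≤ 2 * B ∨ 18 * B ≤ q) → ∀ c < bcP X.1, ∀ r < bcP Y.1, ∀ o o' : Bool,
    ordC (20 * B) (bcS X.1) w o (c : ℤ) (zp B q) → ordC (20 * B) w (bcS Y.1) o' (zp B q) (r : ℤ) →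
    ∀ j < bcN X.1, ∀ j' < bcN Y.1, omC (20 * B) X Y (o == o') (c : ℤ) (r : ℤ) j j' = 0

/-- not a bi-infinite periodic string -/
def aperC (w : SC D) : Prop :=
  ∃ B : ℕ, scBig w B ∧ ∃ q < 20 * B + 1, scF w (zp B q) ≠ scF w (zp B q + (B : ℤ))

def geS (B : ℕ) (p : NC D k) (w : SC D) (n : ℕ) : Prop := rkGe (matS B p w) n
def eqS (B : ℕ) (p : NC D k) (w : SC D) (n : ℕ) : Prop :=
  noRelC B p w ∧ rkGe (matS B p w) n ∧ rkLe (matS B p w) n

/-! ### Types P and A: bands -/

/-- maximum of the dimensions -/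
def nmx (L : List (EC D k)) : ℕ := (L.map fun t => bcN t.1).foldr max 0
/-- `π(T)^(N+1) v` -/
def piV (n : ℕ) (T π : List k) (N : ℕ) (v : List k) : List k := (polV n T π)^[N + 1] v
/-- `(1 - π^(N+1) h)(T) v` -/
def eV (n : ℕ) (T π h : List k) (N : ℕ) (v : List k) : List k :=
  (List.range n).map fun i => ent v i - ent (piV n T π N (polV n T h v)) i
/-- `v π(T)^(N+1)` for a row -/
def piL (n : ℕ) (T π : List k) (N : ℕ) (v : List k) : List k := (polL n T π)^[N + 1] v
/-- `v (1 - π^(N+1) h)(T)` for a row -/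
def eL (n : ℕ) (T π h : List k) (N : ℕ) (v : List k) : List k :=
  (List.range n).map fun i => ent v i - ent (piL n T π N (polL n T h v)) i

section
variable (D k)
/-- index of a generator: block of the other side, positions, orientation, component -/
abbrev GX : Type := EC D k × ℕ × ℕ × Bool × ℕ
end

open Classical in
/-- the generators of `U` -/
noncomputable def gP (B : ℕ) (p : NC D k) (c : BC D k) : List (GX D k) :=
  p.2.flatMap fun Y => (List.range (bcP c)).flatMap fun (a : ℕ) => (List.range (bcP Y.1)).flatMap fun (b : ℕ) =>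
    [true, false].flatMap fun (o : Bool) =>
      if ordC (20 * B) (bcS c) (bcS Y.1) o (a : ℤ) (b : ℤ) then
        (List.range (bcN Y.1)).map fun (j : ℕ) => ((Y, a, b, o, j) : GX D k)
      else []

/-- the component in `V_X` -/
def vP (B : ℕ) (X : EC D k) (g : GX D k) : List k :=
  omCol (20 * B) X g.1 g.2.2.2.1 (g.2.1 : ℤ) (g.2.2.1 : ℤ) g.2.2.2.2

/-- `π^(N+1) (1 - π^(N+1) h)` kills the generators -/
def primPC (B : ℕ) (p : NC D k) (c : BC D k) (π h : List k) (N : ℕ) : Prop :=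
  ∀ X ∈ p.1, sameC B X.1 c → ∀ g ∈ gP B p c,
    piV (bcN X.1) (bcM X.1) π N (eV (bcN X.1) (bcM X.1) π h N (vP B X g)) = zeroV (bcN X.1)

open Classical in
/-- the joint vector `(1 - π^(N+1) h) T^m g` -/
noncomputable def rowP (B : ℕ) (p : NC D k) (c : BC D k) (π h : List k) (N m : ℕ) (g : GX D k) : List k :=
  (List.range (p.1.length * nmx p.1)).map fun col =>
    match p.1[col / nmx p.1]? with
    | some X => if sameC B X.1 c then
        ent (eV (bcN X.1) (bcM X.1) π h N ((mv (bcN X.1) (bcM X.1))^[m] (vP B X g))) (col % nmx p.1) else 0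
    | none => 0

/-- the vectors that span the primary part -/
noncomputable def rowsP (B : ℕ) (p : NC D k) (c : BC D k) (π h : List k) (N : ℕ) : List (List k) :=
  (List.range (p.1.length * nmx p.1)).flatMap fun m => (gP B p c).map fun g => rowP B p c π h N m g

def geP (B : ℕ) (p : NC D k) (c : BC D k) (π : List k) (n : ℕ) : Prop :=
  sepC B p c ∧ (¬ ncCritC B p (bcS c) ∨
    ∃ (h : List k) (N : ℕ), primPC B p c π h N ∧ rkGe (rowsP B p c π h N) n)

def eqP (B : ℕ) (p : NC D k) (c : BC D k) (π : List k) (n : ℕ) : Prop :=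
  sepC B p c ∧ ncCritC B p (bcS c) ∧
    ∃ (h : List k) (N : ℕ), primPC B p c π h N ∧ rkGe (rowsP B p c π h N) n ∧ rkLe (rowsP B p c π h N) n

open Classical in
/-- the generators of `L` -/
noncomputable def gA (B : ℕ) (p : NC D k) (c : BC D k) : List (GX D k) :=
  p.1.flatMap fun X => (List.range (bcP X.1)).flatMap fun (a : ℕ) => (List.range (bcP c)).flatMap fun (b : ℕ) =>
    [true, false].flatMap fun (o : Bool) =>
      if ordC (20 * B) (bcS X.1) (bcS c) o (a : ℤ) (b : ℤ) then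
        (List.range (bcN X.1)).map fun (j : ℕ) => ((X, a, b, o, j) : GX D k)
      else []

/-- the component in `V_Y^*` -/
def vA (B : ℕ) (Y : EC D k) (g : GX D k) : List k :=
  omRow (20 * B) g.1 Y g.2.2.2.1 (g.2.1 : ℤ) (g.2.2.1 : ℤ) g.2.2.2.2

def primAC (B : ℕ) (p : NC D k) (c : BC D k) (π h : List k) (N : ℕ) : Prop :=
  ∀ Y ∈ p.2, sameC B Y.1 c → ∀ g ∈ gA B p c,
    piL (bcN Y.1) (bcM Y.1) π N (eL (bcN Y.1) (bcM Y.1) π h N (vA B Y g)) = zeroV (bcN Y.1)

open Classical in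
noncomputable def rowA (B : ℕ) (p : NC D k) (c : BC D k) (π h : List k) (N m : ℕ) (g : GX D k) : List k :=
  (List.range (p.2.length * nmx p.2)).map fun col =>
    match p.2[col / nmx p.2]? with
    | some Y => if sameC B Y.1 c then
        ent (eL (bcN Y.1) (bcM Y.1) π h N ((vm (bcN Y.1) (bcM Y.1))^[m] (vA B Y g))) (col % nmx p.2) else 0
    | none => 0

noncomputable def rowsA (B : ℕ) (p : NC D k) (c : BC D k) (π h : List k) (N : ℕ) : List (List k) :=
  (List.range (p.2.length * nmx p.2)).flatMap fun m => (gA B p c).map fun g => rowA B p c π h N m g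

def geA (B : ℕ) (p : NC D k) (c : BC D k) (π : List k) (n : ℕ) : Prop :=
  sepC B p c ∧ (¬ ncCritC B p (bcS c) ∨
    ∃ (h : List k) (N : ℕ), primAC B p c π h N ∧ rkGe (rowsA B p c π h N) n)

def eqA (B : ℕ) (p : NC D k) (c : BC D k) (π : List k) (n : ℕ) : Prop :=
  sepC B p c ∧ ncCritC B p (bcS c) ∧
    ∃ (h : List k) (N : ℕ), primAC B p c π h N ∧ rkGe (rowsA B p c π h N) n ∧ rkLe (rowsA B p c π h N) n

/-! ### Codes of components -/

section
variable (D k)
/-- code of a component: type, finite-dimensional module, string, band, polynomial -/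
abbrev CC : Type := ℕ × (ℕ × List k) × SC D × BC D k × List k
end

/-- valid codes -/
def ccOk (S : Sides D) (d : CC D k) : Prop :=
  (d.1 = 0 ∧ fmOk D d.2.1) ∨ (d.1 = 1 ∧ scOk S d.2.2.1 ∧ aperC d.2.2.1) ∨
    ((d.1 = 2 ∨ d.1 = 3) ∧ bcOk S d.2.2.2.1 ∧ d.2.2.2.1.1 = true ∧ polOkC d.2.2.2.2)

/-- `n ≤ rank` -/
def ccGe (S : Sides D) (d : CC D k) (p : NC D k) (n : ℕ) : Prop :=
  (d.1 = 0 ∧ fGe d.2.1 (ncPr S p).1 (ncPr S p).2 n) ∨
  (d.1 = 1 ∧ ∃ B : ℕ, ncBig p B ∧ scBig d.2.2.1 B ∧ geS B p d.2.2.1 n) ∨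
  (d.1 = 2 ∧ ∃ B : ℕ, ncBig p B ∧ scBig (bcS d.2.2.2.1) B ∧ geP B p d.2.2.2.1 d.2.2.2.2 n) ∨
  (d.1 = 3 ∧ ∃ B : ℕ, ncBig p B ∧ scBig (bcS d.2.2.2.1) B ∧ geA B p d.2.2.2.1 d.2.2.2.2 n)

/-- `rank = n` -/
def ccEq (S : Sides D) (d : CC D k) (p : NC D k) (n : ℕ) : Prop :=
  (d.1 = 0 ∧ fGe d.2.1 (ncPr S p).1 (ncPr S p).2 n ∧ fLe d.2.1 (ncPr S p).1 (ncPr S p).2 n) ∨
  (d.1 = 1 ∧ ∃ B : ℕ, ncBig p B ∧ scBig d.2.2.1 B ∧ eqS B p d.2.2.1 n) ∨
  (d.1 = 2 ∧ ∃ B : ℕ, ncBig p B ∧ scBig (bcS d.2.2.2.1) B ∧ eqP B p d.2.2.2.1 d.2.2.2.2 n) ∨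
  (d.1 = 3 ∧ ∃ B : ℕ, ncBig p B ∧ scBig (bcS d.2.2.2.1) B ∧ eqA B p d.2.2.2.1 d.2.2.2.2 n)

end StrAlg
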