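import Pool.Agent.Lib.MP_b9fd58_lc.IfKDefs
import Pool.Agent.Lib.MP_b9fd58_lc.If

/-!
# Stream K: every pp-pair is equivalent to one with a canonical code
-/

set_option autoImplicit false

namespace StrAlg

open Module

variable {D : Dat} {k : Type} [Field k] {S : Sides D}

private theorem KGood_symm {A B : Md D k} (e : A.C ≃ₗ[k] B.C) (h : A.Hom B e.toLinearMap) :
    B.Hom A e.symm.toLinearMap := by
  intro g n
  apply e.injective
  have h1 := h g (e.symm n)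
  have h2 : e (A.Q.op g (e.symm n)) = B.Q.op g (e (e.symm n)) := h1
  show e (e.symm (B.Q.op g n)) = e (A.Q.op g (e.symm n))
  rw [h2, e.apply_symm_apply, e.apply_symm_apply]

private theorem KGood_comp {A B C : Md D k} {f : A.C →ₗ[k] B.C} {g : B.C →ₗ[k] C.C}
    (hf : A.Hom B f) (hg : B.Hom C g) : A.Hom C (g ∘ₗ f) := by
  intro x n
  show g (f (A.Q.op x n)) = C.Q.op x (g (f n))
  rw [hf x n, hg x (f n)]

/-- replace the modules of a pair by isomorphic ones -/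
theorem Pr.eqv_of_iso (p : Pr D k) {A B : Md D k} (eA : A.C ≃ₗ[k] p.A.C) (hA : A.Hom p.A eA.toLinearMap)
    (eB : B.C ≃ₗ[k] p.B.C) (hB : B.Hom p.B eB.toLinearMap) :
    p.Eqv ⟨A, eA.symm p.a, B, p.b ∘ₗ eB.toLinearMap⟩ := by
  intro N
  constructor
  · ext x
    constructor
    · rintro ⟨f, hf, hx⟩
      refine ⟨f ∘ₗ eA.toLinearMap, KGood_comp hA hf, ?_⟩
      show f (eA (eA.symm p.a)) = x
      rw [eA.apply_symm_apply, hx]
    · rintro ⟨f, hf, hx⟩
      exact ⟨f ∘ₗ eA.symm.toLinearMap, KGood_comp (KGood_symm eA hA) hf, hx⟩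
  · ext x
    constructor
    · intro hx G hG
      exact hx (eB.toLinearMap ∘ₗ G) (KGood_comp hG hB)
    · intro hx G hG
      have h1 := hx (eB.symm.toLinearMap ∘ₗ G) (KGood_comp hG (KGood_symm eB hB))
      have h2 : p.b (eB (eB.symm (G x))) = 0 := h1
      rwa [eB.apply_symm_apply] at h2

/-- a functional on a finite direct sum is the sum of its components -/
theorem dual_pi_eq {ι : Type} [Fintype ι] (M : ι → Md D k) (b : Dual k (Md.pi M).C) :
    ∃ β : ∀ j, Dual k (M j).C, b = ∑ j, (β j) ∘ₗ (LinearMap.proj j : (∀ j, (M j).C) →ₗ[k] (M j).C) := by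
  classical
  let b' : (∀ j, (M j).C) →ₗ[k] k := b
  have key : ∀ x : (∀ j, (M j).C), b' x = (∑ j, (b' ∘ₗ LinearMap.single k (fun j => (M j).C) j) ∘ₗ
      (LinearMap.proj j : (∀ j, (M j).C) →ₗ[k] (M j).C)) x := by
    intro x
    have h1 : ∑ j, Pi.single j (x j) = x := Finset.univ_sum_single x
    have h2 : b' x = ∑ j, b' (Pi.single j (x j)) := by
      rw [← map_sum, h1]
    rw [h2, LinearMap.sum_apply]
    rfl
  exact ⟨fun j => b' ∘ₗ LinearMap.single k (fun j => (M j).C) j, LinearMap.ext key⟩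

theorem exists_nf (hD : D.IsString) (Can : Set (Str S)) (hC : CanOK Can) (p : Pr D k) (hp : p.FD) :
    ∃ nf : NF S k, nf.InCan Can ∧ p.Eqv nf.pr := by
  obtain ⟨m, X, hX, eA, hA⟩ := classify hD Can hC p.A hp.1
  obtain ⟨m', Y, hY, eB, hB⟩ := classify hD Can hC p.B hp.2
  obtain ⟨β, hβ⟩ := dual_pi_eq (fun j => (Y j).M) (p.b ∘ₗ eB.toLinearMap)
  refine ⟨⟨m, X, eA.symm p.a, m', Y, β⟩, ⟨hX, hY⟩, ?_⟩
  have h := p.eqv_of_iso eA hA eB hB
  rw [hβ] at h
  exact h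

theorem rank_congr {N : Type} [AddCommGroup N] [Module k N] (Q : QMod D k N) {φ ψ φ' ψ' : PP D k}
    (h1 : Q.pp φ = Q.pp φ') (h2 : Q.pp ψ = Q.pp ψ') : Q.rank φ ψ = Q.rank φ' ψ' := by
  have e1 : Q.ppS φ = Q.ppS φ' := by
    unfold QMod.ppS
    rw [h1]
  have e2 : Q.ppS ψ = Q.ppS ψ' := by
    unfold QMod.ppS
    rw [h2]
  unfold QMod.rank
  rw [e1, e2]

theorem KData.good {D : Dat} (hD : D.IsString) {S : Sides D} {k : Type} [Field k] [Primcodable k] (K : KData D S k)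
    (Can : Set (Str S)) (hC : CanOK Can)
    (hCan : ∀ nf : NF S k, nf.InCan Can → ∃ c, K.Val c ∧ (K.dec c).InCan Can ∧ nf.pr.Eqv (K.dec c).pr)
    (φ ψ : PP D k) :
    ∃ c, K.Val c ∧ (K.dec c).InCan Can ∧
      ∀ (N : Type) [AddCommGroup N] [Module k N] (Q : QMod D k N), Q.rank φ ψ = Q.rank (K.pr c).1 (K.pr c).2 := by
  obtain ⟨p, hp, hpN⟩ := realise (k := k) hD φ ψ
  obtain ⟨nf, hnf, he⟩ := exists_nf hD Can hC p hp
  obtain ⟨c, hc, hcC, hce⟩ := hCan nf hnf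
  refine ⟨c, hc, hcC, fun N _ _ Q => ?_⟩
  let M : Md D k := ⟨N, Q⟩
  have h1 := hpN M
  have h2 := he M
  have h3 := hce M
  have h4 := K.pr_spec c hc M
  exact rank_congr Q (h1.1.trans (h2.1.trans (h3.1.trans h4.1.symm)))
    (h1.2.trans (h2.2.trans (h3.2.trans h4.2.symm)))

end StrAlg
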