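import Pool.Agent.Lib.MP_b9fd58_lc.LTabA
set_option autoImplicit false

/-!
# Baur-Monk normal forms (existence)
-/

namespace StrAlg

section pp
variable {D : Dat} {k : Type} [Field k] {N : Type} [AddCommGroup N] [Module k N]

/-- the system `S` defines a pp-formula in the free variables `v 0, …, v (n-1)` -/
def ppSat (Q : QMod D k N) (n : ℕ) (S : PP D k) (x : ℕ → N) : Prop :=
  ∃ v : ℕ → N, (∀ i < n, v i = x i) ∧ Q.Sys S v

/-- `Q.act c` is linear -/
def QMod.actL (Q : QMod D k N) (c : ElCode D k) : N →ₗ[k] N :=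
  (c.map (fun t => t.1 • Q.wordL t.2)).sum

theorem QMod.actL_apply (Q : QMod D k N) (c : ElCode D k) (n : N) : Q.actL c n = Q.act c n := by
  unfold QMod.actL QMod.act
  induction c with
  | nil => simp
  | cons t c ih =>
    rw [List.map_cons, List.sum_cons, List.map_cons, List.sum_cons, LinearMap.add_apply, ih,
      LinearMap.smul_apply, QMod.wordL_apply]

/-- an equation as a linear map -/
def LNFA_eqL (Q : QMod D k N) (e : List (ElCode D k × ℕ)) : (ℕ → N) →ₗ[k] N :=
  (e.map fun t => (Q.actL t.1).comp (LinearMap.proj t.2)).sum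

theorem LNFA_eqL_apply (Q : QMod D k N) (e : List (ElCode D k × ℕ)) (v : ℕ → N) :
    LNFA_eqL Q e v = (e.map (fun t => Q.act t.1 (v t.2))).sum := by
  unfold LNFA_eqL
  induction e with
  | nil => simp
  | cons t c ih =>
    rw [List.map_cons, List.sum_cons, List.map_cons, List.sum_cons, LinearMap.add_apply, ih,
      LinearMap.comp_apply, LinearMap.proj_apply, QMod.actL_apply]

theorem LNFA_sys_iff (Q : QMod D k N) (S : PP D k) (v : ℕ → N) :
    Q.Sys S v ↔ ∀ e ∈ S, LNFA_eqL Q e v = 0 := by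
  unfold QMod.Sys
  simp only [LNFA_eqL_apply]

theorem sys_zero (Q : QMod D k N) (S : PP D k) : Q.Sys S 0 := by
  rw [LNFA_sys_iff]
  intro e _
  exact map_zero _

theorem sys_add (Q : QMod D k N) (S : PP D k) {v w : ℕ → N} (hv : Q.Sys S v) (hw : Q.Sys S w) :
    Q.Sys S (v + w) := by
  rw [LNFA_sys_iff] at hv hw ⊢
  intro e he
  rw [map_add, hv e he, hw e he, add_zero]

theorem sys_smul (Q : QMod D k N) (S : PP D k) (a : k) {v : ℕ → N} (hv : Q.Sys S v) :
    Q.Sys S (a • v) := by
  rw [LNFA_sys_iff] at hv ⊢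
  intro e he
  rw [map_smul, hv e he, smul_zero]

theorem ppSat_congr (Q : QMod D k N) (n : ℕ) (S : PP D k) {x y : ℕ → N}
    (h : ∀ i < n, x i = y i) : ppSat Q n S x ↔ ppSat Q n S y := by
  constructor
  · rintro ⟨v, hv, hS⟩
    exact ⟨v, fun i hi => (hv i hi).trans (h i hi), hS⟩
  · rintro ⟨v, hv, hS⟩
    exact ⟨v, fun i hi => (hv i hi).trans (h i hi).symm, hS⟩

theorem ppSat_zero (Q : QMod D k N) (n : ℕ) (S : PP D k) : ppSat Q n S 0 :=
  ⟨0, fun _ _ => rfl, sys_zero Q S⟩

theorem ppSat_add (Q : QMod D k N) (n : ℕ) (S : PP D k) {x y : ℕ → N} (hx : ppSat Q n S x)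
    (hy : ppSat Q n S y) : ppSat Q n S (x + y) := by
  obtain ⟨v, hv, hS⟩ := hx
  obtain ⟨w, hw, hS'⟩ := hy
  exact ⟨v + w, fun i hi => by rw [Pi.add_apply, Pi.add_apply, hv i hi, hw i hi],
    sys_add Q S hS hS'⟩

theorem ppSat_smul (Q : QMod D k N) (n : ℕ) (S : PP D k) (a : k) {x : ℕ → N}
    (hx : ppSat Q n S x) : ppSat Q n S (a • x) := by
  obtain ⟨v, hv, hS⟩ := hx
  exact ⟨a • v, fun i hi => by rw [Pi.smul_apply, Pi.smul_apply, hv i hi], sys_smul Q S a hS⟩

/-- the set defined by a pp-formula in one variable is a subspace -/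
theorem mem_ppS (Q : QMod D k N) (S : PP D k) (x : N) :
    x ∈ Q.ppS S ↔ ppSat Q 1 S (fun _ => x) := by
  have h1 : Q.ppS S ≤
      { carrier := {x | ppSat Q 1 S (fun _ => x)}
        add_mem' := fun {a b} ha hb => ppSat_add Q 1 S ha hb
        zero_mem' := ppSat_zero Q 1 S
        smul_mem' := fun c x hx => ppSat_smul Q 1 S c hx } := by
    unfold QMod.ppS
    rw [Submodule.span_le]
    rintro x ⟨v, hv, hS⟩
    refine ⟨v, fun i hi => ?_, hS⟩
    have : i = 0 := by omega
    rw [this]
    exact hv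
  refine ⟨fun h => h1 h, fun h => ?_⟩
  obtain ⟨v, hv, hS⟩ := h
  exact Submodule.subset_span ⟨v, hv 0 Nat.one_pos, hS⟩

/-- the value of a formal linear combination of variables -/
def LNFA_ev (Q : QMod D k N) (L : List (ElCode D k × ℕ)) (v : ℕ → N) : N :=
  (L.map (fun t => Q.act t.1 (v t.2))).sum

theorem LNFA_ev_append (Q : QMod D k N) (L L' : List (ElCode D k × ℕ)) (v : ℕ → N) :
    LNFA_ev Q (L ++ L') v = LNFA_ev Q L v + LNFA_ev Q L' v := by
  unfold LNFA_ev
  rw [List.map_append, List.sum_append]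

/-- product of codes: first `a`, then `c` -/
def LNFA_mul (a c : ElCode D k) : ElCode D k :=
  c.flatMap fun b => a.map fun t => (b.1 * t.1, t.2 ++ b.2)

theorem LNFA_act_append (Q : QMod D k N) (c c' : ElCode D k) (n : N) :
    Q.act (c ++ c') n = Q.act c n + Q.act c' n := by
  unfold QMod.act
  rw [List.map_append, List.sum_append]

theorem LNFA_act_mul1 (Q : QMod D k N) (a : ElCode D k) (b : k × List D.Gen) (n : N) :
    Q.act (a.map fun t => (b.1 * t.1, t.2 ++ b.2)) n = b.1 • Q.word b.2 (Q.act a n) := by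
  unfold QMod.act
  rw [← QMod.wordL_apply]
  induction a with
  | nil => simp
  | cons t a ih =>
    rw [List.map_cons, List.map_cons, List.sum_cons, ih, List.map_cons, List.sum_cons, map_add,
      smul_add, map_smul, QMod.wordL_apply, QMod.word_append, mul_smul, QMod.wordL_apply]

theorem LNFA_act_mul (Q : QMod D k N) (a c : ElCode D k) (n : N) :
    Q.act (LNFA_mul a c) n = Q.act c (Q.act a n) := by
  induction c with
  | nil => simp [LNFA_mul, QMod.act]
  | cons b c ih =>
    have h1 : LNFA_mul a (b :: c) = (a.map fun t => (b.1 * t.1, t.2 ++ b.2)) ++ LNFA_mul a c := by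
      simp [LNFA_mul]
    rw [h1, LNFA_act_append, ih, LNFA_act_mul1]
    conv_rhs => unfold QMod.act
    rw [List.map_cons, List.sum_cons]
    rfl

/-- scalar multiple of a code -/
def LNFA_neg (a : ElCode D k) : ElCode D k := a.map fun t => (-t.1, t.2)

theorem LNFA_act_neg (Q : QMod D k N) (a : ElCode D k) (n : N) :
    Q.act (LNFA_neg a) n = - Q.act a n := by
  unfold QMod.act LNFA_neg
  induction a with
  | nil => simp
  | cons t a ih =>
    rw [List.map_cons, List.map_cons, List.sum_cons, ih, List.map_cons, List.sum_cons, neg_smul,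
      neg_add]

/-- the formal linear combination of a term -/
def LNFA_lin : Tm D k → List (ElCode D k × ℕ)
  | .var n => [([(1, [])], n)]
  | .zero => []
  | .add s t => LNFA_lin s ++ LNFA_lin t
  | .act c t => (LNFA_lin t).map fun u => (LNFA_mul u.1 c, u.2)

theorem LNFA_act_one (Q : QMod D k N) (n : N) : Q.act [(1, [])] n = n := by
  simp [QMod.act, QMod.word]

theorem LNFA_act_zero (Q : QMod D k N) (c : ElCode D k) : Q.act c 0 = 0 := by
  rw [← QMod.actL_apply, map_zero]

theorem LNFA_act_add (Q : QMod D k N) (c : ElCode D k) (m n : N) :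
    Q.act c (m + n) = Q.act c m + Q.act c n := by
  rw [← QMod.actL_apply, ← QMod.actL_apply, ← QMod.actL_apply, map_add]

theorem LNFA_ev_act (Q : QMod D k N) (c : ElCode D k) (L : List (ElCode D k × ℕ)) (v : ℕ → N) :
    LNFA_ev Q (L.map fun u => (LNFA_mul u.1 c, u.2)) v = Q.act c (LNFA_ev Q L v) := by
  unfold LNFA_ev
  induction L with
  | nil => simp [LNFA_act_zero]
  | cons t L ih =>
    rw [List.map_cons, List.map_cons, List.sum_cons, ih, List.map_cons, List.sum_cons,
      LNFA_act_add, LNFA_act_mul]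

theorem LNFA_ev_neg (Q : QMod D k N) (L : List (ElCode D k × ℕ)) (v : ℕ → N) :
    LNFA_ev Q (L.map fun u => (LNFA_neg u.1, u.2)) v = - LNFA_ev Q L v := by
  unfold LNFA_ev
  induction L with
  | nil => simp
  | cons t L ih =>
    rw [List.map_cons, List.map_cons, List.sum_cons, ih, List.map_cons, List.sum_cons,
      LNFA_act_neg, neg_add]

theorem LNFA_lin_ev (Q : QMod D k N) (t : Tm D k) (v : ℕ → N) :
    LNFA_ev Q (LNFA_lin t) v = t.valQ Q v := by
  induction t with
  | var n => simp [LNFA_lin, LNFA_ev, LNFA_act_one, Tm.valQ]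
  | zero => simp [LNFA_lin, LNFA_ev, Tm.valQ]
  | add s t hs ht => rw [LNFA_lin, LNFA_ev_append, hs, ht, Tm.valQ]
  | act c t ht => rw [LNFA_lin, LNFA_ev_act, ht, Tm.valQ]

/-- renaming of the unknowns -/
def LNFA_ren (r : ℕ → ℕ) (S : PP D k) : PP D k := S.map fun e => e.map fun t => (t.1, r t.2)

theorem LNFA_sys_ren (Q : QMod D k N) (r : ℕ → ℕ) (S : PP D k) (v : ℕ → N) :
    Q.Sys (LNFA_ren r S) v ↔ Q.Sys S (v ∘ r) := by
  unfold QMod.Sys LNFA_ren
  simp only [List.mem_map, forall_exists_index, and_imp, forall_apply_eq_imp_iff₂, List.map_map]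
  rfl

theorem LNFA_sys_append (Q : QMod D k N) (S S' : PP D k) (v : ℕ → N) :
    Q.Sys (S ++ S') v ↔ Q.Sys S v ∧ Q.Sys S' v := by
  unfold QMod.Sys
  simp only [List.mem_append]
  constructor
  · exact fun h => ⟨fun e he => h e (Or.inl he), fun e he => h e (Or.inr he)⟩
  · rintro ⟨h1, h2⟩ e (he | he)
    · exact h1 e he
    · exact h2 e he

/-- every equation is a pp-formula -/
theorem exists_pp_eq (s t : Tm D k) : ∃ S : PP D k, ∀ (n : ℕ), s.Below n → t.Below n →
    ∀ (N : Type) [AddCommGroup N] [Module k N] (Q : QMod D k N) (x : ℕ → N),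
      ((Fm.eq s t).SatQ Q x ↔ ppSat Q n S x) := by
  refine ⟨[LNFA_lin s ++ (LNFA_lin t).map fun u => (LNFA_neg u.1, u.2)], ?_⟩
  intro n hs ht N _ _ Q x
  have key : ∀ v : ℕ → N, Q.Sys [LNFA_lin s ++ (LNFA_lin t).map fun u => (LNFA_neg u.1, u.2)] v ↔
      s.valQ Q v = t.valQ Q v := by
    intro v
    have h1 : Q.Sys [LNFA_lin s ++ (LNFA_lin t).map fun u => (LNFA_neg u.1, u.2)] v ↔
        LNFA_ev Q (LNFA_lin s ++ (LNFA_lin t).map fun u => (LNFA_neg u.1, u.2)) v = 0 := by
      unfold QMod.Sys LNFA_ev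
      simp only [List.mem_singleton, forall_eq]
    rw [h1, LNFA_ev_append, LNFA_ev_neg, LNFA_lin_ev, LNFA_lin_ev, ← sub_eq_add_neg, sub_eq_zero]
  unfold ppSat
  simp only [key]
  constructor
  · intro h
    exact ⟨x, fun _ _ => rfl, h⟩
  · rintro ⟨v, hv, h⟩
    show s.valQ Q x = t.valQ Q x
    rw [← Tm.valQ_congr Q s n hs v x hv, ← Tm.valQ_congr Q t n ht v x hv]
    exact h

theorem LNFA_and (n : ℕ) (S₁ S₂ : PP D k) : ∃ S : PP D k,
    ∀ (N : Type) [AddCommGroup N] [Module k N] (Q : QMod D k N) (x : ℕ → N),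
      ppSat Q n S x ↔ ppSat Q n S₁ x ∧ ppSat Q n S₂ x := by
  refine ⟨LNFA_ren (fun i => if i < n then i else n + 2 * (i - n)) S₁ ++
    LNFA_ren (fun i => if i < n then i else n + 2 * (i - n) + 1) S₂, ?_⟩
  intro N _ _ Q x
  unfold ppSat
  simp only [LNFA_sys_append, LNFA_sys_ren]
  constructor
  · rintro ⟨v, hv, h1, h2⟩
    refine ⟨⟨_, fun i hi => ?_, h1⟩, ⟨_, fun i hi => ?_, h2⟩⟩
    · simp only [Function.comp_apply, if_pos hi]
      exact hv i hi
    · simp only [Function.comp_apply, if_pos hi]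
      exact hv i hi
  · rintro ⟨⟨v, hv, h1⟩, ⟨w, hw, h2⟩⟩
    refine ⟨fun i => if i < n then x i else if (i - n) % 2 = 0 then v (n + (i - n) / 2) else
      w (n + (i - n) / 2), fun i hi => if_pos hi, ?_, ?_⟩
    · convert h1 using 1
      funext i
      simp only [Function.comp_apply]
      by_cases hi : i < n
      · rw [if_pos hi, if_pos hi, hv i hi]
      · rw [if_neg hi, if_neg (by omega), if_pos (by omega)]
        congr 1
        omega
    · convert h2 using 1
      funext i
      simp only [Function.comp_apply]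
      by_cases hi : i < n
      · rw [if_pos hi, if_pos hi, hw i hi]
      · rw [if_neg hi, if_neg (by omega), if_neg (by omega)]
        congr 1
        omega

/-- conjunctions of pp-formulas -/
theorem exists_pp_conj (n : ℕ) (l : List (PP D k)) : ∃ S : PP D k,
    ∀ (N : Type) [AddCommGroup N] [Module k N] (Q : QMod D k N) (x : ℕ → N),
      ppSat Q n S x ↔ ∀ S' ∈ l, ppSat Q n S' x := by
  induction l with
  | nil =>
    refine ⟨[], fun N _ _ Q x => ?_⟩
    refine ⟨fun _ S' h => absurd h List.not_mem_nil, fun _ => ⟨x, fun _ _ => rfl, fun e he => ?_⟩⟩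
    exact absurd he List.not_mem_nil
  | cons S₁ l ih =>
    obtain ⟨S₂, h2⟩ := ih
    obtain ⟨S, hS⟩ := LNFA_and n S₁ S₂
    refine ⟨S, fun N _ _ Q x => ?_⟩
    rw [hS, h2, List.forall_mem_cons]

/-- existential quantification over the variable `0` -/
theorem exists_pp_ex (n : ℕ) (S : PP D k) : ∃ S' : PP D k,
    ∀ (N : Type) [AddCommGroup N] [Module k N] (Q : QMod D k N) (x : ℕ → N),
      ppSat Q n S' x ↔ ∃ y, ppSat Q (n + 1) S (consV y x) := by
  refine ⟨LNFA_ren (fun i => if i = 0 then n else if i ≤ n then i - 1 else i) S, ?_⟩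
  intro N _ _ Q x
  unfold ppSat
  simp only [LNFA_sys_ren]
  constructor
  · rintro ⟨v, hv, h⟩
    refine ⟨v n, _, fun i hi => ?_, h⟩
    cases i with
    | zero => simp [consV]
    | succ i =>
      have hi' : i < n := by omega
      simp only [Function.comp_apply, Nat.succ_ne_zero, if_false, if_pos (show i + 1 ≤ n by omega),
        Nat.add_sub_cancel]
      exact hv i hi'
  · rintro ⟨y, v, hv, h⟩
    refine ⟨fun i => if i < n then v (i + 1) else if i = n then v 0 else v i, fun i hi => ?_, ?_⟩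
    · simp only [if_pos hi]
      exact hv (i + 1) (by omega)
    · convert h using 1
      funext i
      simp only [Function.comp_apply]
      by_cases h0 : i = 0
      · rw [if_pos h0, if_neg (lt_irrefl n), if_pos rfl, h0]
      · by_cases h1 : i ≤ n
        · rw [if_neg h0, if_pos h1, if_pos (by omega)]
          congr 1
          omega
        · rw [if_neg h0, if_neg h1, if_neg (by omega), if_neg (by omega)]

/-- setting the variables `1, …, n` to zero -/
theorem exists_pp_zero (n : ℕ) (S : PP D k) : ∃ S' : PP D k,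
    ∀ (N : Type) [AddCommGroup N] [Module k N] (Q : QMod D k N) (y : N),
      y ∈ Q.ppS S' ↔ ppSat Q (n + 1) S (consV y 0) := by
  refine ⟨S ++ (List.range n).map (fun i => [([(1, [])], i + 1)]), ?_⟩
  intro N _ _ Q y
  rw [mem_ppS]
  unfold ppSat
  simp only [LNFA_sys_append]
  have key : ∀ v : ℕ → N, Q.Sys ((List.range n).map (fun i => [([((1 : k), [])], i + 1)])) v ↔
      ∀ i < n, v (i + 1) = 0 := by
    intro v
    unfold QMod.Sys
    simp only [List.mem_map, List.mem_range, forall_exists_index, and_imp,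
      forall_apply_eq_imp_iff₂, List.map_cons, List.map_nil, List.sum_cons, List.sum_nil,
      add_zero, LNFA_act_one]
  simp only [key]
  constructor
  · rintro ⟨v, hv, h1, h2⟩
    refine ⟨v, fun i hi => ?_, h1⟩
    cases i with
    | zero => exact hv 0 Nat.one_pos
    | succ i => exact h2 i (by omega)
  · rintro ⟨v, hv, h1⟩
    refine ⟨v, fun i hi => ?_, h1, fun i hi => hv (i + 1) (by omega)⟩
    have : i = 0 := by omega
    rw [this]
    exact hv 0 (Nat.succ_pos n)

end pp

end StrAlg
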