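import Pool.Agent.Lib.MP_b9fd58_lc.KMem
import Pool.Agent.Lib.MP_b9fd58_lc.KPr
import Pool.Agent.Lib.MP_b9fd58_lc.LNFA

/-!
# Stream K: certificates of type F on codes
-/

set_option autoImplicit false

namespace StrAlg

open Module

variable {D : Dat} {k : Type} [Field k] {S : Sides D}

/-- pp-definable sets are subspaces -/
theorem pp_submodule {N : Type} [AddCommGroup N] [Module k N] (Q : QMod D k N) (φ : PP D k) :
    ∃ U : Submodule k N, (U : Set N) = Q.pp φ := by
  refine ⟨{ carrier := Q.pp φ, add_mem' := ?_, zero_mem' := ?_, smul_mem' := ?_ }, rfl⟩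
  · rintro _ _ ⟨v, rfl, hv⟩ ⟨w, rfl, hw⟩
    exact ⟨v + w, rfl, sys_add Q φ hv hw⟩
  · exact ⟨0, rfl, sys_zero Q φ⟩
  · rintro c _ ⟨v, rfl, hv⟩
    exact ⟨c • v, rfl, sys_smul Q φ c hv⟩

theorem closedC_iff {N : ℕ × List k} (h : fmOk D N) (φ ψ : PP D k) :
    closedC N φ ψ ↔ (fmQ N h).pp φ ⊆ (fmQ N h).pp ψ := by
  obtain ⟨U, hU⟩ := pp_submodule (fmQ N h) φ
  obtain ⟨W, hW⟩ := pp_submodule (fmQ N h) ψ
  have hlam : ∀ (P : List k) (i : Fin N.1) (x : Fin N.1 → k),
      dotProduct (vecOf N.1 ((List.range N.1).map fun m =>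
        (if m = (i : ℕ) then (1 : k) else 0) - ent P (m * N.1 + i))) x =
      x i - ∑ m : Fin N.1, ent P (m * N.1 + i) * x m := by
    intro P i x
    rw [vecOf_map_range]
    unfold dotProduct
    simp only [sub_mul, Finset.sum_sub_distrib]
    congr 1
    rw [Finset.sum_eq_single i]
    · simp
    · intro b _ hb
      have : (b : ℕ) ≠ (i : ℕ) := fun h2 => hb (Fin.ext h2)
      simp [this]
    · intro hb
      exact absurd (Finset.mem_univ i) hb
  constructor
  · rintro ⟨P, hP1, hP2⟩ x hx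
    rw [← hW]
    have hx2 : x = ∑ m : Fin N.1, x m • vecOf N.1 (row N.1 P m) := by
      funext i
      rw [Finset.sum_apply]
      have h1 := (annC_iff h φ _).1 (hP2 i i.2) x hx
      rw [hlam] at h1
      rw [sub_eq_zero] at h1
      rw [h1]
      refine Finset.sum_congr rfl fun m _ => ?_
      rw [Pi.smul_apply, smul_eq_mul, vecOf_row, mul_comm]
    rw [hx2]
    refine W.sum_mem fun m _ => W.smul_mem _ ?_
    show vecOf N.1 (row N.1 P m) ∈ (W : Set (Fin N.1 → k))
    rw [hW]
    exact (memC_iff h ψ _).1 (hP1 m m.2)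
  · intro hsub
    obtain ⟨g, hg⟩ := LinearMap.exists_leftInverse_of_injective U.subtype (Submodule.ker_subtype U)
    obtain ⟨P, hP⟩ := exists_rows N.1 N.1
      (fun p => if hp : p < N.1 then ((g (Pi.single ⟨p, hp⟩ 1) : U) : Fin N.1 → k) else 0)
    refine ⟨P, ?_, ?_⟩
    · intro m hm
      rw [memC_iff h, vecOf_row]
      apply hsub
      rw [← hU]
      have : (fun j : Fin N.1 => ent P (m * N.1 + j)) =
          ((g (Pi.single ⟨m, hm⟩ 1) : U) : Fin N.1 → k) := by
        funext j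
        rw [hP m hm j, dif_pos hm]
      rw [this]
      exact (g (Pi.single ⟨m, hm⟩ 1)).2
    · intro i hi
      rw [annC_iff h]
      intro x hx
      have h1 := hlam P ⟨i, hi⟩ x
      rw [h1, sub_eq_zero]
      have hxU : x ∈ U := by
        show x ∈ (U : Set (Fin N.1 → k))
        rw [hU]; exact hx
      have h2 : ((g x : U) : Fin N.1 → k) = x := by
        have := LinearMap.congr_fun hg ⟨x, hxU⟩
        exact congrArg Subtype.val this
      have h3 : x = ∑ m : Fin N.1, x m • (Pi.single m (1 : k) : Fin N.1 → k) := by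
        funext j
        rw [Finset.sum_apply]
        simp [Pi.single_apply]
      have h4 : ((g x : U) : Fin N.1 → k) =
          ∑ m : Fin N.1, x m • ((g (Pi.single m 1) : U) : Fin N.1 → k) := by
        conv_lhs => rw [h3]
        rw [map_sum]
        simp only [map_smul]
        rw [AddSubmonoidClass.coe_finsetSum]
        rfl
      have h5 := congrFun (h2.symm.trans h4) ⟨i, hi⟩
      rw [h5, Finset.sum_apply]
      refine Finset.sum_congr rfl fun m _ => ?_
      rw [Pi.smul_apply, smul_eq_mul, mul_comm, hP m m.2 ⟨i, hi⟩, dif_pos m.2]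

theorem openC_iff {N : ℕ × List k} (h : fmOk D N) (φ ψ : PP D k) :
    openC N φ ψ ↔ ¬ (fmQ N h).pp φ ⊆ (fmQ N h).pp ψ := by
  obtain ⟨W, hW⟩ := pp_submodule (fmQ N h) ψ
  have hdot : ∀ lam x : List k, (∑ m ∈ Finset.range N.1, ent lam m * ent x m) =
      dotProduct (vecOf N.1 lam) (vecOf N.1 x) := by
    intro lam x
    rw [Finset.sum_range]
    rfl
  constructor
  · rintro ⟨x, lam, hx, hlam, hne⟩ hsub
    apply hne
    rw [hdot]
    exact (annC_iff h ψ lam).1 hlam _ (hsub ((memC_iff h φ x).1 hx))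
  · intro hnot
    obtain ⟨x, hx, hxn⟩ := Set.not_subset.1 hnot
    have hxW : x ∉ W := by
      intro h1
      apply hxn
      rw [← hW]; exact h1
    obtain ⟨f, hf, hfW⟩ := Submodule.exists_dual_map_eq_bot_of_notMem hxW inferInstance
    obtain ⟨x', hx'⟩ := exists_vecOf N.1 x
    obtain ⟨lam, hlam⟩ := exists_vecOf N.1 (fun i => f (Pi.single i 1))
    have hf2 : ∀ y : Fin N.1 → k, dotProduct (vecOf N.1 lam) y = f y := by
      intro y
      have h3 : y = ∑ m : Fin N.1, y m • (Pi.single m (1 : k) : Fin N.1 → k) := by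
        funext j
        rw [Finset.sum_apply]
        simp [Pi.single_apply]
      conv_rhs => rw [h3]
      rw [map_sum, hlam]
      unfold dotProduct
      refine Finset.sum_congr rfl fun m _ => ?_
      rw [map_smul, smul_eq_mul, mul_comm]
    refine ⟨x', lam, ?_, ?_, ?_⟩
    · rw [memC_iff h, hx']; exact hx
    · rw [annC_iff h]
      intro y hy
      rw [hf2]
      have hyW : y ∈ W := by
        show y ∈ (W : Set (Fin N.1 → k))
        rw [hW]; exact hy
      have : f y ∈ W.map f := Submodule.mem_map_of_mem hyW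
      rw [hfW] at this
      exact (Submodule.mem_bot k).1 this
    · rw [hdot, hf2, hx']; exact hf

theorem opn_iff_up_dn (p : Pr D k) (N : Md D k) : p.Opn N ↔ ¬ p.up N ⊆ p.dn N := by
  constructor
  · rintro ⟨f, G, hf, hG, hne⟩ hsub
    exact hne (hsub ⟨f, hf, rfl⟩ G hG)
  · intro hnot
    obtain ⟨x, ⟨f, hf, rfl⟩, hx2⟩ := Set.not_subset.1 hnot
    have h1 : ¬ ∀ G : N.C →ₗ[k] p.B.C, N.Hom p.B G → p.b (G (f p.a)) = 0 := hx2
    push Not at h1
    obtain ⟨G, hG, hne⟩ := h1
    exact ⟨f, G, hf, hG, hne⟩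

theorem opnK_iso (p : Pr D k) {M N : Md D k} (h : M.Iso N) : p.Opn M ↔ p.Opn N := by
  obtain ⟨e, he⟩ := h
  have he' : N.Hom M e.symm.toLinearMap := by
    intro g m
    apply e.injective
    have h1 := he g (e.symm m)
    have h2 : e.toLinearMap (M.Q.op g (e.symm m)) = e (M.Q.op g (e.symm m)) := rfl
    rw [h2] at h1
    show e (e.symm (N.Q.op g m)) = e (M.Q.op g (e.symm m))
    rw [h1, e.apply_symm_apply]
    show N.Q.op g m = N.Q.op g (e (e.symm m))
    rw [e.apply_symm_apply]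
  constructor
  · rintro ⟨f, G, hf, hG, hne⟩
    refine ⟨e.toLinearMap ∘ₗ f, G ∘ₗ e.symm.toLinearMap, ?_, ?_, ?_⟩
    · intro g m
      rw [LinearMap.comp_apply, hf g m, he g (f m)]; rfl
    · intro g m
      rw [LinearMap.comp_apply, he' g m]; exact hG g (e.symm m)
    · show p.b (G (e.symm (e (f p.a)))) ≠ 0
      rw [e.symm_apply_apply]; exact hne
  · rintro ⟨f, G, hf, hG, hne⟩
    refine ⟨e.symm.toLinearMap ∘ₗ f, G ∘ₗ e.toLinearMap, ?_, ?_, ?_⟩
    · intro g m
      rw [LinearMap.comp_apply, hf g m, he' g (f m)]; rfl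
    · intro g m
      rw [LinearMap.comp_apply, he g m]; exact hG g (e m)
    · show p.b (G (e (e.symm (f p.a)))) ≠ 0
      rw [e.apply_symm_apply]; exact hne

theorem certF_iff {q : NC D k} (hq : ncOk S q) {P : List (NC D k)} (hP : ∀ p ∈ P, ncOk S p) :
    CertF (ncDec S q) (P.map (ncDec S)) ↔ certFC S q P := by
  have key : ∀ (N : ℕ × List k) (h : fmOk D N) (c : NC D k), ncOk S c →
      ((ncDec S c).pr.Opn (⟨Fin N.1 → k, fmQ N h⟩ : Md D k) ↔
        ¬ (fmQ N h).pp (ncPr S c).1 ⊆ (fmQ N h).pp (ncPr S c).2) := by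
    intro N h c hc
    have h1 := ncPr_spec hc (⟨Fin N.1 → k, fmQ N h⟩ : Md D k)
    rw [opn_iff_up_dn, ← h1.1, ← h1.2]
  constructor
  · rintro ⟨M, hM, hq1, hP1⟩
    obtain ⟨N, h, hiso⟩ := exists_fm M hM
    refine ⟨N, h, ?_, ?_⟩
    · rw [openC_iff h, ← key N h q hq, opnK_iso _ hiso]
      exact hq1
    · intro p hp
      rw [closedC_iff h]
      by_contra hcon
      rw [← key N h p (hP p hp), opnK_iso _ hiso] at hcon
      exact hP1 _ (List.mem_map.2 ⟨p, hp, rfl⟩) hcon
  · rintro ⟨N, h, hq1, hP1⟩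
    refine ⟨(⟨Fin N.1 → k, fmQ N h⟩ : Md D k), ?_, ?_, ?_⟩
    · show FiniteDimensional k (Fin N.1 → k)
      infer_instance
    · rw [key N h q hq, ← openC_iff h]
      exact hq1
    · intro p hp
      obtain ⟨c, hc, rfl⟩ := List.mem_map.1 hp
      rw [key N h c (hP c hc), not_not, ← closedC_iff h]
      exact hP1 c hc

end StrAlg
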