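import Pool.Agent.Lib.MP_b9fd58_lc.KPR
import Pool.Agent.Lib.MP_b9fd58_lc.KAD

/-!
# Stream K: certificates of types P and A on codes
-/

set_option autoImplicit false

namespace StrAlg

open Module Polynomial

variable {D : Dat} {k : Type} [Field k] {S : Sides D}

theorem certP_iff {q : NC D k} (hq : ncOk S q) {P : List (NC D k)} (hP : ∀ p ∈ P, ncOk S p) :
    CertP (ncDec S q) (P.map (ncDec S)) ↔ certPC q P := by

  constructor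
  · rintro ⟨i, π, h1, h2, h3, h4⟩
    obtain ⟨l, rfl⟩ := exists_polOf π
    obtain ⟨B, bq, bP⟩ := exists_big' q P
    obtain ⟨X, hX, h5, h6⟩ := (prBad_iff hq bq l
      (fun b => ∀ p ∈ P, (ncDec S p).PRgood b.x (polOf l) ∧ (ncDec S p).Sep b.x)).1
      ⟨i, h3, fun p hp => h4 _ (List.mem_map_of_mem hp)⟩
    refine ⟨B, l, X, hX, bq, bP, (polOkC_iff l).2 ⟨h1, h2⟩, h5, fun p hp => ?_⟩
    obtain ⟨h7, h8⟩ := h6 p hp
    exact ⟨(prGood_iff (hP p hp) (hq.1 X hX) h5.1 (bP p hp) (bq.2.1 X hX) l).1 h7,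
      (sepC_iff (hP p hp) (hq.1 X hX) (bP p hp) (bq.2.1 X hX) h5.1).1 h8⟩
  · rintro ⟨B, l, X, hX, bq, bP, h1, h5, h6⟩
    obtain ⟨i, h3, h4⟩ := (prBad_iff hq bq l
      (fun b => ∀ p ∈ P, (ncDec S p).PRgood b.x (polOf l) ∧ (ncDec S p).Sep b.x)).2
      ⟨X, hX, h5, fun p hp =>
        ⟨(prGood_iff (hP p hp) (hq.1 X hX) h5.1 (bP p hp) (bq.2.1 X hX) l).2 (h6 p hp).1,
          (sepC_iff (hP p hp) (hq.1 X hX) (bP p hp) (bq.2.1 X hX) h5.1).2 (h6 p hp).2⟩⟩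
    refine ⟨i, polOf l, ((polOkC_iff l).1 h1).1, ((polOkC_iff l).1 h1).2, h3, fun p' hp' => ?_⟩
    obtain ⟨p, hp, rfl⟩ := List.mem_map.1 hp'
    exact h4 p hp

theorem certA_iff {q : NC D k} (hq : ncOk S q) {P : List (NC D k)} (hP : ∀ p ∈ P, ncOk S p) :
    CertA (ncDec S q) (P.map (ncDec S)) ↔ certAC q P := by

  constructor
  · rintro ⟨i, π, h1, h2, h3, h4⟩
    obtain ⟨l, rfl⟩ := exists_polOf π
    obtain ⟨B, bq, bP⟩ := exists_big' q P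
    obtain ⟨X, hX, h5, h6⟩ := (adBad_iff hq bq l
      (fun b => ∀ p ∈ P, (ncDec S p).ADgood b.x (polOf l) ∧ (ncDec S p).Sep b.x)).1
      ⟨i, h3, fun p hp => h4 _ (List.mem_map_of_mem hp)⟩
    refine ⟨B, l, X, hX, bq, bP, (polOkC_iff l).2 ⟨h1, h2⟩, h5, fun p hp => ?_⟩
    obtain ⟨h7, h8⟩ := h6 p hp
    exact ⟨(adGood_iff (hP p hp) (hq.2 X hX) h5.1 (bP p hp) (bq.2.2 X hX) l).1 h7,
      (sepC_iff (hP p hp) (hq.2 X hX) (bP p hp) (bq.2.2 X hX) h5.1).1 h8⟩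
  · rintro ⟨B, l, X, hX, bq, bP, h1, h5, h6⟩
    obtain ⟨i, h3, h4⟩ := (adBad_iff hq bq l
      (fun b => ∀ p ∈ P, (ncDec S p).ADgood b.x (polOf l) ∧ (ncDec S p).Sep b.x)).2
      ⟨X, hX, h5, fun p hp =>
        ⟨(adGood_iff (hP p hp) (hq.2 X hX) h5.1 (bP p hp) (bq.2.2 X hX) l).2 (h6 p hp).1,
          (sepC_iff (hP p hp) (hq.2 X hX) (bP p hp) (bq.2.2 X hX) h5.1).2 (h6 p hp).2⟩⟩
    refine ⟨i, polOf l, ((polOkC_iff l).1 h1).1, ((polOkC_iff l).1 h1).2, h3, fun p' hp' => ?_⟩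
    obtain ⟨p, hp, rfl⟩ := List.mem_map.1 hp'
    exact h4 p hp

end StrAlg
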