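import Pool.Agent.Lib.MP_b9fd58_lc.KRep
import Pool.Agent.Lib.MP_b9fd58_lc.KCertF
import Pool.Agent.Lib.MP_b9fd58_lc.KCertS
import Pool.Agent.Lib.MP_b9fd58_lc.KCertPA
import Pool.Agent.Lib.MP_b9fd58_lc.KCmpC
import Pool.Agent.Lib.MP_b9fd58_lc.KCmpE
import Pool.Agent.Lib.MP_b9fd58_lc.KOkD
import Pool.Agent.Lib.MP_b9fd58_lc.IfKDefs

/-!
# Stream K: assembly
-/

set_option autoImplicit false
set_option synthInstance.maxSize 2000

namespace StrAlg

open ReCalc Module

variable {D : Dat} {k : Type} [Field k] [Primcodable k] {S : Sides D}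

theorem certSCR (hadd : Computable₂ (fun a b : k => a + b)) (hmul : Computable₂ (fun a b : k => a * b)) :
    REPred fun t : NC D k × List (NC D k) => certSC S t.1 t.2 := by
  have hw : Computable fun u : ((NC D k × List (NC D k)) × SC D) × ℕ => u.1.2 :=
    Computable.snd.comp Computable.fst
  have hB : Computable fun u : ((NC D k × List (NC D k)) × SC D) × ℕ => u.2 := Computable.snd
  have hq : Computable fun u : ((NC D k × List (NC D k)) × SC D) × ℕ => u.1.1.1 :=
    Computable.fst.comp (Computable.fst.comp Computable.fst)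
  have hP : Computable fun u : ((NC D k × List (NC D k)) × SC D) × ℕ => u.1.1.2 :=
    Computable.snd.comp (Computable.fst.comp Computable.fst)
  unfold certSC
  refine re_ex ?_
  refine re_ex ?_
  refine re_and (scOkD.comp hw).re ?_
  refine re_and (scBigD hw hB).re ?_
  refine re_and (ncBigD hq hB).re ?_
  refine re_and ?_ ?_
  · refine re_forall_mem hP ?_
    exact (ncBigD Computable.snd (hB.comp Computable.fst)).re
  refine re_and (ncCritCD hadd hmul hB hq hw).not.re ?_
  refine re_forall_mem hP ?_
  exact (ncCritCD hadd hmul (hB.comp Computable.fst) Computable.snd (hw.comp Computable.fst)).re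

/-- the codes -/
noncomputable def kData (D : Dat) (S : Sides D) (k : Type) [Field k] [Primcodable k]
    (hadd : Computable₂ (fun a b : k => a + b)) (hmul : Computable₂ (fun a b : k => a * b)) : KData D S k where
  NC := NC D k
  Val := ncOk S
  dec := ncDec S
  pr := ncPr S
  pr_comp := ncPrC hadd
  pr_spec _ hc N := ncPr_spec hc N
  re := by
    have h1 : REPred fun t : NC D k × List (NC D k) => ncOk S t.1 ∧ (∀ c ∈ t.2, ncOk S c) ∧
        (certFC S t.1 t.2 ∨ certSC S t.1 t.2 ∨ certPC t.1 t.2 ∨ certAC t.1 t.2) := by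
      refine re_and ((ncOkD hadd hmul).comp Computable.fst).re (re_and ?_ ?_)
      · exact re_forall_mem Computable.snd ((ncOkD hadd hmul).comp Computable.snd).re
      · exact re_or (certFCR hadd hmul) (re_or (certSCR hadd hmul) (re_or (certPCR hadd hmul) (certACR hadd hmul)))
    refine h1.of_eq ?_
    rintro ⟨q, P⟩
    constructor
    · rintro ⟨hq, hP, h⟩
      refine ⟨hq, hP, ?_⟩
      rcases h with h | h | h | h
      · exact Or.inl ((certF_iff hq hP).2 h)
      · exact Or.inr (Or.inl ((certS_iff hq hP).2 h))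
      · exact Or.inr (Or.inr (Or.inl ((certP_iff hq hP).2 h)))
      · exact Or.inr (Or.inr (Or.inr ((certA_iff hq hP).2 h)))
    · rintro ⟨hq, hP, h⟩
      refine ⟨hq, hP, ?_⟩
      rcases h with h | h | h | h
      · exact Or.inl ((certF_iff hq hP).1 h)
      · exact Or.inr (Or.inl ((certS_iff hq hP).1 h))
      · exact Or.inr (Or.inr (Or.inl ((certP_iff hq hP).1 h)))
      · exact Or.inr (Or.inr (Or.inr ((certA_iff hq hP).1 h)))
  can := ⟨CanS S, canS_ok S, fun nf h => exists_nf_code nf h⟩

theorem exists_KData_proof (D : Dat) (S : Sides D) (k : Type) [Field k] [Primcodable k]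
    (hadd : Computable₂ (fun a b : k => a + b)) (hmul : Computable₂ (fun a b : k => a * b)) :
    Nonempty (KData D S k) := ⟨kData D S k hadd hmul⟩

end StrAlg
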