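import Pool.Agent.Lib.MP_b9fd58_lc.K2CcS
import Pool.Agent.Lib.MP_b9fd58_lc.K2CcC
import Pool.Agent.Lib.MP_b9fd58_lc.K2CmpF
import Pool.Agent.Lib.MP_b9fd58_lc.KMain
import Pool.Agent.Lib.MP_b9fd58_lc.KGood
import Pool.Agent.Lib.MP_b9fd58_lc.IfL

/-!
# Stream K2: the certificates for lists of rank conditions
-/

set_option autoImplicit false
set_option synthInstance.maxSize 2000

namespace StrAlg

open ReCalc Module

/-- the statement of the main theorem of stage 2 -/
def Main2 {D : Dat} (S : Sides D) (k : Type) [Field k] (Can : Set (Str S)) : Prop :=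
  ∀ (N : Md D k) (P0 P1 : List (NF S k)), (∀ p ∈ P0, p.InCan Can ∧ p.pr.rk N ≠ ⊤) →
    (∀ q ∈ P1, q.InCan Can ∧ q.pr.rk N = ⊤) → ∀ n : ℕ,
    ∃ cs : List (Md D k), (∀ M ∈ cs, CompOK Can M) ∧ (∀ p ∈ P0, (cs.map p.pr.rk).sum = p.pr.rk N) ∧
      ∀ q ∈ P1, (n : ℕ∞) ≤ (cs.map q.pr.rk).sum ∨ CertF q P0 ∨ CertS q P0 ∨ CertP q P0 ∨ CertA q P0

section
variable {D : Dat} {k : Type} [Field k] (S : Sides D)

/-- the certificates of stage 1 -/
def k2Cert (t : NC D k × List (NC D k)) : Prop :=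
  ncOk S t.1 ∧ (∀ c ∈ t.2, ncOk S c) ∧
    (CertF (ncDec S t.1) (t.2.map (ncDec S)) ∨ CertS (ncDec S t.1) (t.2.map (ncDec S)) ∨
      CertP (ncDec S t.1) (t.2.map (ncDec S)) ∨ CertA (ncDec S t.1) (t.2.map (ncDec S)))

/-- the condition of a marked code: `true` for `rank = n`, `false` for `rank ≥ n` -/
def k2Cond (t : NC D k × ℕ × Bool) : Cond D k := (ncPr S t.1, t.2)

/-- the codes with exact rank -/
def k2Closed (L : List (NC D k × ℕ × Bool)) : List (NC D k) := (L.filter fun t => t.2.2).map Prod.fst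

/-- the certificate for one condition -/
def k2One (Lc : List (NC D k × ℕ × Bool)) (cs : List (CC D k)) (t : NC D k × ℕ × Bool) : Prop :=
  (t.2.2 = true ∧ ∃ zs : List (CC D k × ℕ), zs.map Prod.fst = cs ∧ (∀ z ∈ zs, ccEq S z.1 t.1 z.2) ∧
    (zs.map Prod.snd).sum = t.2.1) ∨
  (t.2.2 = false ∧ ((∃ zs : List (CC D k × ℕ), zs.map Prod.fst = cs ∧ (∀ z ∈ zs, ccGe S z.1 t.1 z.2) ∧
    t.2.1 ≤ (zs.map Prod.snd).sum) ∨ k2Cert S (t.1, k2Closed Lc)))

/-- the certified predicate on a list of conditions -/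
def k2P (L : List (Cond D k)) : Prop :=
  ∃ (Lc : List (NC D k × ℕ × Bool)) (cs : List (CC D k)), L = Lc.map (k2Cond S) ∧
    (∀ t ∈ Lc, ncOk S t.1) ∧ (∀ d ∈ cs, ccOk S d) ∧ ∀ t ∈ Lc, k2One S Lc cs t

end

section
variable {D : Dat} {k : Type} [Field k] [Primcodable k] {S : Sides D}

theorem k2Cert_re (hadd : Computable₂ (fun a b : k => a + b)) (hmul : Computable₂ (fun a b : k => a * b)) :
    REPred (k2Cert S : NC D k × List (NC D k) → Prop) := (kData D S k hadd hmul).re

theorem k2Cond_comp (hadd : Computable₂ (fun a b : k => a + b)) :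
    Computable (k2Cond S : NC D k × ℕ × Bool → Cond D k) :=
  Computable.pair ((ncPrC hadd).comp Computable.fst) Computable.snd

theorem k2Closed_comp : Computable (k2Closed : List (NC D k × ℕ × Bool) → List (NC D k)) := by
  unfold k2Closed
  exact mapC (filterC Computable.id (Computable.snd.comp (Computable.snd.comp Computable.snd)))
    (Computable.fst.comp Computable.snd)

theorem k2_sumC {α : Type} [Primcodable α] {f : α → List (CC D k × ℕ)} (hf : Computable f) :
    Computable fun a => ((f a).map Prod.snd).sum :=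
  sumC Primrec.nat_add.to_comp (mapC hf (Computable.snd.comp Computable.snd))

theorem k2_exEq_re (hadd : Computable₂ (fun a b : k => a + b)) (hmul : Computable₂ (fun a b : k => a * b))
    {α : Type} [Primcodable α] {cs : α → List (CC D k)} {t : α → NC D k} {n : α → ℕ} (hcs : Computable cs)
    (ht : Computable t) (hn : Computable n) :
    REPred fun a => ∃ zs : List (CC D k × ℕ), zs.map Prod.fst = cs a ∧ (∀ z ∈ zs, ccEq S z.1 (t a) z.2) ∧
      (zs.map Prod.snd).sum = n a := by
  refine re_ex (q := fun a (zs : List (CC D k × ℕ)) => zs.map Prod.fst = cs a ∧ (∀ z ∈ zs, ccEq S z.1 (t a) z.2) ∧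
      (zs.map Prod.snd).sum = n a) ?_
  refine re_and (re_eq (mapC Computable.snd (Computable.fst.comp Computable.snd)) (hcs.comp Computable.fst))
    (re_and ?_ (re_eq (k2_sumC Computable.snd) (hn.comp Computable.fst)))
  refine re_forall_mem (f := fun v : α × List (CC D k × ℕ) => v.2) (q := fun v z => ccEq S z.1 (t v.1) z.2)
    Computable.snd ?_
  exact re_comp (ccEqR hadd hmul) (Computable.pair (Computable.fst.comp Computable.snd)
    (Computable.pair (ht.comp (Computable.fst.comp Computable.fst)) (Computable.snd.comp Computable.snd)))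

theorem k2_exGe_re (hadd : Computable₂ (fun a b : k => a + b)) (hmul : Computable₂ (fun a b : k => a * b))
    {α : Type} [Primcodable α] {cs : α → List (CC D k)} {t : α → NC D k} {n : α → ℕ} (hcs : Computable cs)
    (ht : Computable t) (hn : Computable n) :
    REPred fun a => ∃ zs : List (CC D k × ℕ), zs.map Prod.fst = cs a ∧ (∀ z ∈ zs, ccGe S z.1 (t a) z.2) ∧
      n a ≤ (zs.map Prod.snd).sum := by
  refine re_ex (q := fun a (zs : List (CC D k × ℕ)) => zs.map Prod.fst = cs a ∧ (∀ z ∈ zs, ccGe S z.1 (t a) z.2) ∧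
      n a ≤ (zs.map Prod.snd).sum) ?_
  refine re_and (re_eq (mapC Computable.snd (Computable.fst.comp Computable.snd)) (hcs.comp Computable.fst))
    (re_and ?_ (re_le (hn.comp Computable.fst) (k2_sumC Computable.snd)))
  refine re_forall_mem (f := fun v : α × List (CC D k × ℕ) => v.2) (q := fun v z => ccGe S z.1 (t v.1) z.2)
    Computable.snd ?_
  exact re_comp (ccGeR hadd hmul) (Computable.pair (Computable.fst.comp Computable.snd)
    (Computable.pair (ht.comp (Computable.fst.comp Computable.fst)) (Computable.snd.comp Computable.snd)))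

theorem k2One_re (hadd : Computable₂ (fun a b : k => a + b)) (hmul : Computable₂ (fun a b : k => a * b))
    {α : Type} [Primcodable α] {Lc : α → List (NC D k × ℕ × Bool)} {cs : α → List (CC D k)} {t : α → NC D k × ℕ × Bool}
    (hLc : Computable Lc) (hcs : Computable cs) (ht : Computable t) :
    REPred fun a => k2One S (Lc a) (cs a) (t a) := by
  unfold k2One
  have h1 : Computable fun a => (t a).1 := Computable.fst.comp ht
  have h2 : Computable fun a => (t a).2.1 := Computable.fst.comp (Computable.snd.comp ht)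
  have h3 : Computable fun a => (t a).2.2 := Computable.snd.comp (Computable.snd.comp ht)
  exact re_or (re_and (re_eq h3 (Computable.const true)) (k2_exEq_re hadd hmul hcs h1 h2))
    (re_and (re_eq h3 (Computable.const false)) (re_or (k2_exGe_re hadd hmul hcs h1 h2)
      (re_comp (k2Cert_re hadd hmul) (Computable.pair h1 (k2Closed_comp.comp hLc)))))

theorem k2P_re (hadd : Computable₂ (fun a b : k => a + b)) (hmul : Computable₂ (fun a b : k => a * b)) :
    REPred (k2P S : List (Cond D k) → Prop) := by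
  unfold k2P
  refine re_ex (q := fun (L : List (Cond D k)) (Lc : List (NC D k × ℕ × Bool)) => ∃ cs : List (CC D k),
    L = Lc.map (k2Cond S) ∧ (∀ t ∈ Lc, ncOk S t.1) ∧ (∀ d ∈ cs, ccOk S d) ∧ ∀ t ∈ Lc, k2One S Lc cs t) ?_
  refine re_ex (q := fun (v : List (Cond D k) × List (NC D k × ℕ × Bool)) (cs : List (CC D k)) =>
    v.1 = v.2.map (k2Cond S) ∧ (∀ t ∈ v.2, ncOk S t.1) ∧ (∀ d ∈ cs, ccOk S d) ∧ ∀ t ∈ v.2, k2One S v.2 cs t) ?_
  have gL : Computable fun v : (List (Cond D k) × List (NC D k × ℕ × Bool)) × List (CC D k) => v.1.1 :=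
    Computable.fst.comp Computable.fst
  have gLc : Computable fun v : (List (Cond D k) × List (NC D k × ℕ × Bool)) × List (CC D k) => v.1.2 :=
    Computable.snd.comp Computable.fst
  have gcs : Computable fun v : (List (Cond D k) × List (NC D k × ℕ × Bool)) × List (CC D k) => v.2 :=
    Computable.snd
  refine re_and ?_ (re_and ?_ (re_and ?_ ?_))
  · exact re_eq gL (mapC gLc ((k2Cond_comp hadd).comp Computable.snd))
  · exact re_forall_mem gLc ((ncOkD hadd hmul).comp (Computable.fst.comp Computable.snd)).re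
  · exact re_forall_mem gcs (re_comp (ccOkR hadd hmul) Computable.snd)
  · exact re_forall_mem (f := fun v : (List (Cond D k) × List (NC D k × ℕ × Bool)) × List (CC D k) => v.1.2)
      (q := fun v t => k2One S v.1.2 v.2 t) gLc
      (k2One_re hadd hmul (gLc.comp Computable.fst) (gcs.comp Computable.fst) Computable.snd)

end

section
variable {D : Dat} {k : Type} [Field k] {S : Sides D}

theorem k2_sum_le {α : Type} (zs : List (α × ℕ)) (f : α → ℕ∞) (h : ∀ z ∈ zs, (z.2 : ℕ∞) ≤ f z.1) :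
    (((zs.map Prod.snd).sum : ℕ) : ℕ∞) ≤ ((zs.map Prod.fst).map f).sum := by
  induction zs with
  | nil => simp
  | cons z zs ih =>
    simp only [List.map_cons, List.sum_cons, Nat.cast_add]
    exact add_le_add (h z List.mem_cons_self) (ih fun y hy => h y (List.mem_cons_of_mem _ hy))

theorem k2_sum_eq {α : Type} (zs : List (α × ℕ)) (f : α → ℕ∞) (h : ∀ z ∈ zs, f z.1 = (z.2 : ℕ∞)) :
    ((zs.map Prod.fst).map f).sum = (((zs.map Prod.snd).sum : ℕ) : ℕ∞) := by
  induction zs with
  | nil => simp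
  | cons z zs ih =>
    simp only [List.map_cons, List.sum_cons, Nat.cast_add]
    rw [h z List.mem_cons_self, ih fun y hy => h y (List.mem_cons_of_mem _ hy)]

theorem k2_sum_zero {α : Type} (L : List α) (f : α → ℕ∞) (h : ∀ z ∈ L, f z = 0) : (L.map f).sum = 0 := by
  induction L with
  | nil => simp
  | cons z L ih =>
    simp only [List.map_cons, List.sum_cons]
    rw [h z List.mem_cons_self, ih fun y hy => h y (List.mem_cons_of_mem _ hy), add_zero]

/-- the additional modules with closed pairs -/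
theorem k2_extra (cl : List (NF S k)) (L : List (NF S k × ℕ))
    (h : ∀ t ∈ L, Rlz t.1 cl) :
    ∃ Ms : List (Md D k), (∀ p ∈ cl, (Ms.map p.pr.rk).sum = 0) ∧
      ∀ t ∈ L, (t.2 : ℕ∞) ≤ (Ms.map t.1.pr.rk).sum := by
  induction L with
  | nil => exact ⟨[], by simp, by simp⟩
  | cons t L ih =>
    obtain ⟨Ms, h1, h2⟩ := ih fun u hu => h u (List.mem_cons_of_mem _ hu)
    obtain ⟨N, hN1, hN2⟩ := h t List.mem_cons_self
    refine ⟨List.replicate t.2 N ++ Ms, ?_, ?_⟩
    · intro p hp
      have h3 : p.pr.rk N = 0 := by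
        by_contra hne
        exact hN2 p hp ((p.pr.rk_pos N).1 hne)
      simp [h1 p hp, h3]
    · intro u hu
      rcases List.mem_cons.1 hu with rfl | hu
      · have h3 : (1 : ℕ∞) ≤ u.1.pr.rk N := Order.one_le_iff_ne_zero.2 ((u.1.pr.rk_pos N).2 hN1)
        simp only [List.map_append, List.map_replicate, List.sum_append, List.sum_replicate, nsmul_eq_mul]
        calc (u.2 : ℕ∞) = (u.2 : ℕ∞) * 1 := (mul_one _).symm
          _ ≤ (u.2 : ℕ∞) * u.1.pr.rk N := by gcongr
          _ ≤ _ := le_self_add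
      · simp only [List.map_append, List.sum_append]
        exact (h2 u hu).trans le_add_self

theorem k2_holds {t : NC D k × ℕ × Bool} (ht : ncOk S t.1) (N : Md D k) :
    (k2Cond S t).Holds N.Q ↔
      if t.2.2 then (ncDec S t.1).pr.rk N = (t.2.1 : ℕ∞) else (t.2.1 : ℕ∞) ≤ (ncDec S t.1).pr.rk N := by
  unfold Cond.Holds k2Cond
  rw [Pr.rk_pp (ncPr_spec ht N).1 (ncPr_spec ht N).2]

theorem k2P_sound (L : List (Cond D k)) (h : k2P S L) : Realizable D k L := by
  classical
  obtain ⟨Lc, cs, rfl, hv, hcs, h1⟩ := h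
  -- modules of the codes
  obtain ⟨F, hF⟩ : ∃ F : CC D k → Md D k, ∀ d, ccOk S d → ∀ p : NC D k, ncOk S p → ∀ n : ℕ,
      (ccGe S d p n → (n : ℕ∞) ≤ (ncDec S p).pr.rk (F d)) ∧
        (ccEq S d p n → (ncDec S p).pr.rk (F d) = (n : ℕ∞)) := by
    refine ⟨fun d => if hd : ccOk S d then (cc_sound d hd).choose else s2cZero D k, ?_⟩
    intro d hd
    simp only [dif_pos hd]
    exact (cc_sound d hd).choose_spec
  -- the certified conditions
  let cl : List (NF S k) := (k2Closed Lc).map (ncDec S)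
  let Lx : List (NF S k × ℕ) := (Lc.filter fun t => decide (k2Cert S (t.1, k2Closed Lc))).map
    fun t => (ncDec S t.1, t.2.1)
  obtain ⟨Ms, hM1, hM2⟩ := k2_extra cl Lx (by
    intro u hu
    obtain ⟨t, ht, rfl⟩ := List.mem_map.1 hu
    have h2 := (List.mem_filter.1 ht).2
    exact main_sound _ _ (of_decide_eq_true h2).2.2)
  obtain ⟨N, hN⟩ := Pr.rk_list (cs.map F ++ Ms)
  refine ⟨N.C, N.g, N.m, N.Q, ?_⟩
  intro t ht
  obtain ⟨t, htL, rfl⟩ := List.mem_map.1 ht
  have hok := hv t htL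
  rw [k2_holds hok N]
  rw [hN, List.map_append, List.sum_append, List.map_map]
  rcases h1 t htL with ⟨ht2, zs, hz1, hz2, hz3⟩ | ⟨ht2, ⟨zs, hz1, hz2, hz3⟩ | hc⟩
  · rw [if_pos ht2]
    have h3 : (Ms.map (ncDec S t.1).pr.rk).sum = 0 := by
      refine hM1 _ (List.mem_map_of_mem (List.mem_map.2 ⟨t, ?_, rfl⟩))
      exact List.mem_filter.2 ⟨htL, ht2⟩
    rw [h3, add_zero, ← hz1, ← hz3]
    refine k2_sum_eq zs (fun d => (ncDec S t.1).pr.rk (F d)) ?_
    intro z hz
    have hzc : z.1 ∈ cs := by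
      rw [← hz1]
      exact List.mem_map_of_mem hz
    exact (hF z.1 (hcs _ hzc) t.1 hok z.2).2 (hz2 z hz)
  · rw [ht2]
    simp only [Bool.false_eq_true, if_false]
    have h4 : (((zs.map Prod.snd).sum : ℕ) : ℕ∞) ≤
        ((zs.map Prod.fst).map fun d => (ncDec S t.1).pr.rk (F d)).sum := by
      refine k2_sum_le zs (fun d => (ncDec S t.1).pr.rk (F d)) ?_
      intro z hz
      have hzc : z.1 ∈ cs := by
        rw [← hz1]
        exact List.mem_map_of_mem hz
      exact (hF z.1 (hcs _ hzc) t.1 hok z.2).1 (hz2 z hz)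
    rw [hz1] at h4
    exact ((Nat.cast_le.2 hz3).trans h4).trans le_self_add
  · rw [ht2]
    simp only [Bool.false_eq_true, if_false]
    refine (hM2 (ncDec S t.1, t.2.1) (List.mem_map.2 ⟨t, List.mem_filter.2 ⟨htL, ?_⟩, rfl⟩)).trans le_add_self
    exact decide_eq_true hc

/-! ### Completeness -/

theorem k2_mono {q : NF S k} {P P' : List (NF S k)} (hP : ∀ p ∈ P', p ∈ P)
    (h : CertF q P ∨ CertS q P ∨ CertP q P ∨ CertA q P) : CertF q P' ∨ CertS q P' ∨ CertP q P' ∨ CertA q P' := by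
  rcases h with ⟨N, h1, h2, h3⟩ | ⟨w, h1, h2, h3⟩ | ⟨i, π, h1, h2, h3, h4⟩ | ⟨j, π, h1, h2, h3, h4⟩
  · exact Or.inl ⟨N, h1, h2, fun p hp => h3 p (hP p hp)⟩
  · exact Or.inr (Or.inl ⟨w, h1, h2, fun p hp => h3 p (hP p hp)⟩)
  · exact Or.inr (Or.inr (Or.inl ⟨i, π, h1, h2, h3, fun p hp => h4 p (hP p hp)⟩))
  · exact Or.inr (Or.inr (Or.inr ⟨j, π, h1, h2, h3, fun p hp => h4 p (hP p hp)⟩))

theorem k2_trunc {α : Type*} (L : List α) (f : α → ℕ∞) (n : ℕ) : ∀ m : ℕ, m ≤ n → (m : ℕ∞) ≤ (L.map f).sum →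
    m ≤ (L.map fun x => (min (f x) (n : ℕ∞)).toNat).sum := by
  induction L with
  | nil =>
    intro m _ h
    simpa using h
  | cons x L ih =>
    intro m hm h
    simp only [List.map_cons, List.sum_cons] at h ⊢
    rcases le_total (n : ℕ∞) (f x) with h1 | h1
    · rw [min_eq_right h1, ENat.toNat_coe]
      omega
    · rw [min_eq_left h1]
      obtain ⟨a, ha⟩ := ENat.ne_top_iff_exists.1 (ne_top_of_le_ne_top (ENat.coe_ne_top n) h1)
      rw [← ha, ENat.toNat_coe]
      rw [← ha] at h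
      have h2 := ih (m - a) (by omega) (by
        rcases le_total m a with h3 | h3
        · rw [Nat.sub_eq_zero_of_le h3]
          simp
        · have h4 : (m : ℕ∞) = (a : ℕ∞) + ((m - a : ℕ) : ℕ∞) := by
            rw [← Nat.cast_add]
            congr 1
            omega
          rw [h4] at h
          exact (ENat.add_le_add_iff_left (ENat.coe_ne_top a)).1 h)
      omega

theorem k2_mem_le {α : Type*} (L : List α) (f : α → ℕ∞) {x : α} (hx : x ∈ L) : f x ≤ (L.map f).sum := by
  induction L with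
  | nil => simp at hx
  | cons y L ih =>
    simp only [List.map_cons, List.sum_cons]
    rcases List.mem_cons.1 hx with rfl | hx
    · exact le_self_add
    · exact (ih hx).trans le_add_self

theorem k2_toNat_sum {α : Type*} (L : List α) (f : α → ℕ∞) (h : ∀ x ∈ L, f x ≠ ⊤) :
    (((L.map fun x => (f x).toNat).sum : ℕ) : ℕ∞) = (L.map f).sum := by
  induction L with
  | nil => simp
  | cons y L ih =>
    simp only [List.map_cons, List.sum_cons, Nat.cast_add]
    rw [ih fun x hx => h x (List.mem_cons_of_mem _ hx), ENat.coe_toNat (h y List.mem_cons_self)]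

theorem k2P_compl (Can : Set (Str S)) (hC : CanOK Can) (hmain : Main2 S k Can) (L : List (Cond D k))
    (hL : ∀ t ∈ L, ∃ c, ncOk S c ∧ (ncDec S c).InCan Can ∧ t.1 = ncPr S c)
    (hr : Realizable D k L) : k2P S L := by
  classical
  obtain ⟨Lc, rfl, hLc⟩ : ∃ Lc : List (NC D k × ℕ × Bool), L = Lc.map (k2Cond S) ∧
      ∀ t ∈ Lc, ncOk S t.1 ∧ (ncDec S t.1).InCan Can := by
    clear hr
    induction L with
    | nil => exact ⟨[], rfl, by simp⟩
    | cons t L ih =>
      obtain ⟨Lc, h1, h2⟩ := ih (fun t ht => hL t (List.mem_cons_of_mem _ ht))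
      obtain ⟨c, hv, hcan, hp⟩ := hL t List.mem_cons_self
      obtain ⟨t1, t2⟩ := t
      simp only at hp
      subst hp
      refine ⟨(c, t2) :: Lc, ?_, ?_⟩
      · rw [List.map_cons, h1]; rfl
      · intro t ht
        rcases List.mem_cons.1 ht with rfl | ht
        · exact ⟨hv, hcan⟩
        · exact h2 t ht
  obtain ⟨N, i1, i2, Q, hQ⟩ := hr
  obtain ⟨M, hM⟩ : ∃ M : Md D k, ∀ t ∈ Lc,
      (if t.2.2 then (ncDec S t.1).pr.rk M = (t.2.1 : ℕ∞) else (t.2.1 : ℕ∞) ≤ (ncDec S t.1).pr.rk M) := by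
    refine ⟨⟨N, Q⟩, fun t ht => ?_⟩
    exact (k2_holds (hLc t ht).1 (⟨N, Q⟩ : Md D k)).1 (hQ _ (List.mem_map_of_mem ht))
  -- the lists
  let P0 : List (NF S k) := (Lc.filter fun t => decide ((ncDec S t.1).pr.rk M ≠ ⊤)).map fun t => ncDec S t.1
  let P1 : List (NF S k) := (Lc.filter fun t => decide ((ncDec S t.1).pr.rk M = ⊤)).map fun t => ncDec S t.1
  let n : ℕ := (Lc.map fun t => t.2.1).foldr max 0
  have hn : ∀ t ∈ Lc, t.2.1 ≤ n := by
    have : ∀ (l : List ℕ) (a : ℕ), a ∈ l → a ≤ l.foldr max 0 := by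
      intro l
      induction l with
      | nil => intro a ha; simp at ha
      | cons b l ih =>
        intro a ha
        rw [List.foldr_cons]
        rcases List.mem_cons.1 ha with rfl | ha
        · exact le_max_left _ _
        · exact (ih a ha).trans (le_max_right _ _)
    intro t ht
    exact this _ _ (List.mem_map_of_mem ht)
  have hP0 : ∀ p ∈ P0, p.InCan Can ∧ p.pr.rk M ≠ ⊤ := by
    intro p hp
    obtain ⟨t, ht, rfl⟩ := List.mem_map.1 hp
    obtain ⟨h1, h2⟩ := List.mem_filter.1 ht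
    exact ⟨(hLc t h1).2, of_decide_eq_true h2⟩
  have hP1 : ∀ p ∈ P1, p.InCan Can ∧ p.pr.rk M = ⊤ := by
    intro p hp
    obtain ⟨t, ht, rfl⟩ := List.mem_map.1 hp
    obtain ⟨h1, h2⟩ := List.mem_filter.1 ht
    exact ⟨(hLc t h1).2, of_decide_eq_true h2⟩
  obtain ⟨cs, hcs, hc0, hc1⟩ := hmain M P0 P1 hP0 hP1 n
  -- codes of the components
  obtain ⟨G, hG⟩ : ∃ G : Md D k → CC D k, ∀ M', CompOK Can M' → ccOk S (G M') ∧
      ∀ p : NC D k, ncOk S p → (ncDec S p).InCan Can → ∀ n : ℕ,
        ((n : ℕ∞) ≤ (ncDec S p).pr.rk M' → ccGe S (G M') p n) ∧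
          ((ncDec S p).pr.rk M' = (n : ℕ∞) → ccEq S (G M') p n) := by
    refine ⟨fun M' => if h : CompOK Can M' then (cc_compl Can hC M' h).choose else
      (0, (0, []), (([], []), ([], [])), (false, [], 0, [], []), []), ?_⟩
    intro M' h
    simp only [dif_pos h]
    exact (cc_compl Can hC M' h).choose_spec
  refine ⟨Lc, cs.map G, rfl, fun t ht => (hLc t ht).1, ?_, ?_⟩
  · intro d hd
    obtain ⟨M', hM', rfl⟩ := List.mem_map.1 hd
    exact (hG M' (hcs M' hM')).1
  intro t ht
  have hok := (hLc t ht).1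
  have hcan := (hLc t ht).2
  -- finite ranks
  have hfin : (ncDec S t.1).pr.rk M ≠ ⊤ → (∀ M' ∈ cs, (ncDec S t.1).pr.rk M' ≠ ⊤) ∧
      (((cs.map fun M' => ((ncDec S t.1).pr.rk M').toNat).sum : ℕ) : ℕ∞) = (ncDec S t.1).pr.rk M := by
    intro h
    have h1 := hc0 (ncDec S t.1) (List.mem_map.2 ⟨t, List.mem_filter.2 ⟨ht, decide_eq_true h⟩, rfl⟩)
    have h2 : ∀ M' ∈ cs, (ncDec S t.1).pr.rk M' ≠ ⊤ := by
      intro M' hM'
      refine ne_top_of_le_ne_top h ?_
      rw [← h1]
      exact k2_mem_le cs (fun M' => (ncDec S t.1).pr.rk M') hM'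
    exact ⟨h2, by rw [k2_toNat_sum cs (fun M' => (ncDec S t.1).pr.rk M') h2]; exact h1⟩
  have hMt := hM t ht
  by_cases hb : t.2.2 = true
  · left
    rw [if_pos hb] at hMt
    obtain ⟨h1, h2⟩ := hfin (by rw [hMt]; exact ENat.coe_ne_top _)
    refine ⟨hb, cs.map fun M' => (G M', ((ncDec S t.1).pr.rk M').toNat), ?_, ?_, ?_⟩
    · rw [List.map_map]; rfl
    · intro z hz
      obtain ⟨M', hM', rfl⟩ := List.mem_map.1 hz
      exact ((hG M' (hcs M' hM')).2 t.1 hok hcan _).2 (ENat.coe_toNat (h1 M' hM')).symm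
    · rw [List.map_map]
      rw [hMt] at h2
      exact_mod_cast h2
  · right
    rw [if_neg hb] at hMt
    refine ⟨by simpa using hb, ?_⟩
    by_cases hf : (ncDec S t.1).pr.rk M = ⊤
    · rcases hc1 (ncDec S t.1) (List.mem_map.2 ⟨t, List.mem_filter.2 ⟨ht, decide_eq_true hf⟩, rfl⟩) with h1 | h1
      · left
        refine ⟨cs.map fun M' => (G M', (min ((ncDec S t.1).pr.rk M') (n : ℕ∞)).toNat), ?_, ?_, ?_⟩
        · rw [List.map_map]; rfl
        · intro z hz
          obtain ⟨M', hM', rfl⟩ := List.mem_map.1 hz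
          refine ((hG M' (hcs M' hM')).2 t.1 hok hcan _).1 ?_
          rw [ENat.coe_toNat (ne_top_of_le_ne_top (ENat.coe_ne_top n) (min_le_right _ _))]
          exact min_le_left _ _
        · rw [List.map_map]
          exact (hn t ht).trans (k2_trunc cs (fun M' => (ncDec S t.1).pr.rk M') n n le_rfl h1)
      · right
        refine ⟨hok, ?_, ?_⟩
        · intro c hc
          obtain ⟨u, hu, rfl⟩ := List.mem_map.1 hc
          exact (hLc u (List.mem_filter.1 hu).1).1
        · refine k2_mono ?_ h1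
          intro p hp
          obtain ⟨c, hc, rfl⟩ := List.mem_map.1 hp
          obtain ⟨u, hu, rfl⟩ := List.mem_map.1 hc
          obtain ⟨hu1, hu2⟩ := List.mem_filter.1 hu
          refine List.mem_map.2 ⟨u, List.mem_filter.2 ⟨hu1, decide_eq_true ?_⟩, rfl⟩
          have h2 := hM u hu1
          rw [if_pos hu2] at h2
          rw [h2]
          exact ENat.coe_ne_top _
    · left
      obtain ⟨h1, h2⟩ := hfin hf
      refine ⟨cs.map fun M' => (G M', ((ncDec S t.1).pr.rk M').toNat), ?_, ?_, ?_⟩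
      · rw [List.map_map]; rfl
      · intro z hz
        obtain ⟨M', hM', rfl⟩ := List.mem_map.1 hz
        refine ((hG M' (hcs M' hM')).2 t.1 hok hcan _).1 ?_
        rw [ENat.coe_toNat (h1 M' hM')]
      · rw [List.map_map]
        rw [← h2] at hMt
        exact_mod_cast hMt

end

/-- **Final theorem** (all computable fields), from the main theorem of stage 2. -/
theorem decidable_all_of (D : Dat) (hD : D.IsString) (k : Type) [Field k] [Primcodable k]
    (hadd : Computable₂ (fun a b : k => a + b)) (hmul : Computable₂ (fun a b : k => a * b))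
    (hmain : ∀ (S : Sides D) (Can : Set (Str S)), CanOK Can → Main2 S k Can) :
    ∃ f : List (Sym D k) → Bool, Computable f ∧
      ∀ φ : Fm D k, φ.IsSentence →
        (f φ.code = true ↔
          ∀ (M : Type) [AddCommGroup M] [Module (Alg D k)ᵐᵒᵖ M], φ.Sat M (fun _ => 0)) := by
  obtain ⟨S⟩ := exists_sides hD
  let K := kData D S k hadd hmul
  have hC := canS_ok S
  refine decidable_of_real D k hadd hmul
    (fun p => ∃ c : NC D k, ncOk S c ∧ (ncDec S c).InCan (CanS S) ∧ p = ncPr S c) ?_ (k2P S)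
    (k2P_re hadd hmul) (k2P_sound) ?_
  · intro p
    obtain ⟨c, h1, h2, h3⟩ := KData.good hD K (CanS S) hC (fun nf h => exists_nf_code nf h) p.1 p.2
    exact ⟨ncPr S c, ⟨c, h1, h2, rfl⟩, fun N _ _ Q => h3 N Q⟩
  · intro L hL hr
    exact k2P_compl (CanS S) hC (hmain S (CanS S) hC) L (fun t ht => (hL t ht).1) hr

end StrAlg
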