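import Pool.Agent.Lib.MP_b9fd58_lc.UAb

/-!
# Stream K2: primary parts (pure algebra)
-/

set_option autoImplicit false

namespace StrAlg

open Module Polynomial

variable {k : Type} [Field k] {E : Type} [AddCommGroup E] [Module k E] [FiniteDimensional k E] {A : E →ₗ[k] E}

theorem K2PrimB_aeval {U : Submodule k E} (hU : ∀ u ∈ U, A u ∈ U) (g : k[X]) : ∀ u ∈ U, aeval A g u ∈ U := by
  induction g using Polynomial.induction_on' with
  | add p q hp hq =>
    intro u hu
    rw [map_add, LinearMap.add_apply]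
    exact U.add_mem (hp u hu) (hq u hu)
  | monomial n a =>
    intro u hu
    have h1 : ∀ n : ℕ, (A ^ n) u ∈ U := by
      intro n
      induction n with
      | zero => simpa using hu
      | succ n ih =>
        rw [pow_succ', Module.End.mul_apply]
        exact hU _ ih
    rw [aeval_monomial, Module.End.mul_apply]
    exact U.smul_mem a (h1 n)

theorem K2PrimB_mul (x y : k[X]) (u : E) : aeval A (x * y) u = aeval A x (aeval A y u) := by
  rw [map_mul, Module.End.mul_apply]

theorem prim_unit {π : k[X]} (hπ : IsUnit π) (U : Submodule k E) : prim π A U = ⊥ := by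
  rw [eq_bot_iff]
  intro u hu
  obtain ⟨_, n, hn⟩ := mem_prim.1 hu
  obtain ⟨ρ, hρ⟩ := (hπ.pow n).exists_left_inv
  have h1 : aeval A (ρ * π ^ n) u = 0 := by
    rw [K2PrimB_mul, hn, map_zero]
  rw [hρ, map_one, Module.End.one_apply] at h1
  exact (Submodule.mem_bot k).2 h1

theorem prim_pow (π : k[X]) (U : Submodule k E) {i : ℕ} (hi : i ≠ 0) : prim (π ^ i) A U = prim π A U := by
  ext u
  rw [mem_prim, mem_prim]
  refine and_congr_right fun _ => ⟨?_, ?_⟩
  · rintro ⟨n, hn⟩
    exact ⟨i * n, by rw [pow_mul]; exact hn⟩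
  · rintro ⟨n, hn⟩
    refine ⟨n, ?_⟩
    have h1 : (π ^ i) ^ n = π ^ (i * n - n) * π ^ n := by
      rw [← pow_mul, ← pow_add]
      congr 1
      have h2 : n ≤ i * n := Nat.le_mul_of_pos_left n (Nat.pos_of_ne_zero hi)
      omega
    rw [h1, K2PrimB_mul, hn, map_zero]

/-- `prim (x y) = prim x ⊕ prim y` for coprime `x`, `y` and an invariant subspace -/
theorem finrank_prim_mul {x y : k[X]} (hxy : IsCoprime x y) (U : Submodule k E) (hU : ∀ u ∈ U, A u ∈ U) :
    finrank k (prim (x * y) A U) = finrank k (prim x A U) + finrank k (prim y A U) := by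
  have hinf : prim x A U ⊓ prim y A U = ⊥ := by
    rw [eq_bot_iff]
    intro u hu
    obtain ⟨h1, h2⟩ := Submodule.mem_inf.1 hu
    obtain ⟨_, n, hn⟩ := mem_prim.1 h1
    obtain ⟨_, m, hm⟩ := mem_prim.1 h2
    obtain ⟨α, β, hab⟩ := hxy.pow (m := n) (n := m)
    have h3 : aeval A (α * x ^ n + β * y ^ m) u = 0 := by
      rw [map_add, LinearMap.add_apply, K2PrimB_mul, K2PrimB_mul, hn, hm, map_zero, map_zero, add_zero]
    rw [hab, map_one, Module.End.one_apply] at h3
    exact (Submodule.mem_bot k).2 h3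
  have hsup : prim x A U ⊔ prim y A U = prim (x * y) A U := by
    refine le_antisymm (sup_le ?_ ?_) ?_
    · intro u hu
      obtain ⟨h1, n, hn⟩ := mem_prim.1 hu
      refine mem_prim.2 ⟨h1, n, ?_⟩
      rw [mul_comm, mul_pow, K2PrimB_mul, hn, map_zero]
    · intro u hu
      obtain ⟨h1, n, hn⟩ := mem_prim.1 hu
      refine mem_prim.2 ⟨h1, n, ?_⟩
      rw [mul_pow, K2PrimB_mul, hn, map_zero]
    · intro u hu
      obtain ⟨h1, n, hn⟩ := mem_prim.1 hu
      obtain ⟨α, β, hab⟩ := hxy.pow (m := n) (n := n)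
      have h3 : u = aeval A (β * y ^ n) u + aeval A (α * x ^ n) u := by
        rw [← LinearMap.add_apply, ← map_add, add_comm, hab, map_one, Module.End.one_apply]
      rw [h3]
      refine Submodule.add_mem_sup (mem_prim.2 ⟨K2PrimB_aeval hU _ u h1, n, ?_⟩)
        (mem_prim.2 ⟨K2PrimB_aeval hU _ u h1, n, ?_⟩)
      · rw [← K2PrimB_mul]
        have h4 : x ^ n * (β * y ^ n) = β * (x * y) ^ n := by rw [mul_pow]; ring
        rw [h4, K2PrimB_mul, hn, map_zero]
      · rw [← K2PrimB_mul]
        have h4 : y ^ n * (α * x ^ n) = α * (x * y) ^ n := by rw [mul_pow]; ring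
        rw [h4, K2PrimB_mul, hn, map_zero]
  have h := Submodule.finrank_sup_add_finrank_inf_eq (prim x A U) (prim y A U)
  rw [hinf, hsup, finrank_bot, add_zero] at h
  exact h

/-- an invertible `A`: a subspace closed under `A` is closed under the inverse -/
theorem inv_mem_of_invariant (T : E ≃ₗ[k] E) (U : Submodule k E) (hU : ∀ u ∈ U, T u ∈ U) : ∀ u ∈ U, T.symm u ∈ U := by
  intro u hu
  have hinj : Function.Injective (T.toLinearMap.restrict hU) := by
    intro a b hab
    have h1 := congrArg Subtype.val hab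
    exact Subtype.ext (T.injective h1)
  obtain ⟨v, hv⟩ := (LinearMap.injective_iff_surjective.1 hinj) ⟨u, hu⟩
  have h2 : T (v : E) = u := congrArg Subtype.val hv
  rw [← h2, T.symm_apply_apply]
  exact v.2

end StrAlg
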