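import Pool.Agent.Lib.MP_b9fd58_lc.K2PrimA
import Pool.Agent.Lib.MP_b9fd58_lc.K2PrimB
import Pool.Agent.Lib.MP_b9fd58_lc.K2Lb
import Pool.Agent.Lib.MP_b9fd58_lc.KAD
import Pool.Agent.Lib.MP_b9fd58_lc.KSame
import Pool.Agent.Lib.MP_b9fd58_lc.UG

/-!
# Stream K2: the rows of the type A
-/

set_option autoImplicit false

namespace StrAlg

open Module Polynomial

variable {D : Dat} {k : Type} [Field k] {S : Sides D}

theorem K2LD_piL_form (n : ℕ) (T π : List k) (N : ℕ) (f : ℕ → k) :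
    ∃ g : ℕ → k, piL n T π N ((List.range n).map f) = (List.range n).map g := by
  unfold piL
  rw [Function.iterate_succ_apply']
  exact ⟨_, rfl⟩

theorem K2LD_vecOf_piL (n : ℕ) (T π : List k) (N : ℕ) (v : List k) :
    vecOf n (piL n T π N v) = Matrix.vecMul (vecOf n v) ((aeval (matOf n T) (polOf π)) ^ (N + 1)) := by
  unfold piL
  induction N with
  | zero => rw [Function.iterate_succ_apply', Function.iterate_zero_apply, vecOf_polL, zero_add, pow_one]
  | succ N ih => rw [Function.iterate_succ_apply', vecOf_polL, ih, Matrix.vecMul_vecMul, ← pow_succ]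

theorem vecOf_eL (n : ℕ) (T π h : List k) (N : ℕ) (v : List k) :
    vecOf n (eL n T π h N v) =
      Matrix.vecMul (vecOf n v) (aeval (matOf n T) (1 - polOf π ^ (N + 1) * polOf h)) := by
  have h1 : vecOf n (eL n T π h N v) = vecOf n v - vecOf n (piL n T π N (polL n T h v)) := by
    unfold eL
    rw [vecOf_map_range]
    rfl
  rw [h1, K2LD_vecOf_piL, vecOf_polL, Matrix.vecMul_vecMul, map_sub, map_one, ← map_pow, ← map_mul,
    Matrix.vecMul_sub, Matrix.vecMul_one, mul_comm (polOf h)]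

theorem piL_eq_zero_iff (n : ℕ) (T π h : List k) (N : ℕ) (v : List k) :
    piL n T π N (eL n T π h N v) = zeroV n ↔
      Matrix.vecMul (vecOf n v) (aeval (matOf n T) (polOf π ^ (N + 1) * (1 - polOf π ^ (N + 1) * polOf h))) = 0 := by
  obtain ⟨g, hg⟩ := K2LD_piL_form n T π N (fun i => ent v i - ent (piL n T π N (polL n T h v)) i)
  have h2 : piL n T π N (eL n T π h N v) = (List.range n).map g := hg
  have h3 := K2LD_vecOf_piL n T π N (eL n T π h N v)
  rw [vecOf_eL, Matrix.vecMul_vecMul, ← map_pow, ← map_mul, h2] at h3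
  have h4 := vecOf_zeroV (k := k) n
  unfold zeroV at h4
  rw [h2]
  unfold zeroV
  rw [map_range_eq_iff_vecOf, h3, h4, mul_comm (1 - polOf π ^ (N + 1) * polOf h) (polOf π ^ (N + 1))]

/-- the decoded normal form -/
noncomputable def K2LD_nf (S : Sides D) (p : NC D k) (h : ncOk S p) : NF S k where
  m := p.1.length
  X := fun i => bcBlk S (p.1.get i).1 (h.1 _ (List.get_mem p.1 i))
  a := fun i => ecElt S (p.1.get i) (h.1 _ (List.get_mem p.1 i))
  m' := p.2.length
  Y := fun i => bcBlk S (p.2.get i).1 (h.2 _ (List.get_mem p.2 i))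
  b := fun i => ecFnl S (p.2.get i) (h.2 _ (List.get_mem p.2 i))

theorem K2LD_dec {p : NC D k} (h : ncOk S p) : ncDec S p = K2LD_nf S p h := by
  unfold ncDec
  rw [dif_pos h]
  rfl

theorem K2LD_minPer {c : BC D k} (hc : bcOk S c) (band : c.1 = true) :
    (bcBlk S c hc).x.MinPer (bcBlk S c hc).l := by
  have hX : 0 < (bcBlk S c hc).l := by
    show 0 < bcL c
    unfold bcL
    rw [if_pos band]
    exact bcP_pos hc.1
  exact ⟨hX, ⟨(bcBlk S c hc).ok.per, (bcBlk S c hc).ok.big hX⟩, fun d hd h => ((bcBlk S c hc).min d hd h).2⟩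

theorem K2LD_mem_gA {B : ℕ} {p : NC D k} {c : BC D k} {g : GX D k} : g ∈ gA B p c ↔
    ∃ X ∈ p.1, ∃ a < bcP X.1, ∃ b < bcP c, ∃ o : Bool,
      ordC (20 * B) (bcS X.1) (bcS c) o (a : ℤ) (b : ℤ) ∧ ∃ j < bcN X.1, g = (X, a, b, o, j) := by
  unfold gA
  simp only [List.mem_flatMap, List.mem_range, List.mem_cons, List.not_mem_nil, or_false]
  constructor
  · rintro ⟨X, hX, a, ha, b, hb, o, -, h⟩
    split_ifs at h with hord
    · rw [List.mem_map] at h
      obtain ⟨j, hj, rfl⟩ := h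
      exact ⟨X, hX, a, ha, b, hb, o, hord, j, List.mem_range.1 hj, rfl⟩
    · exact absurd h List.not_mem_nil
  · rintro ⟨X, hX, a, ha, b, hb, o, hord, j, hj, rfl⟩
    refine ⟨X, hX, a, ha, b, hb, o, ?_, ?_⟩
    · cases o
      · right; rfl
      · left; rfl
    · rw [if_pos hord, List.mem_map]
      exact ⟨j, List.mem_range.2 hj, rfl⟩

open Classical in
/-- the functional of a generator -/
noncomputable def K2LD_x (S : Sides D) (p : NC D k) (hp : ncOk S p) (c : BC D k) (B : ℕ) (g : GX D k) :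
    Dual k ((i : Fin (K2LD_nf S p hp).m') → (Fin ((K2LD_nf S p hp).Y i).n → k)) :=
  ∑ i : Fin (K2LD_nf S p hp).m', (show Dual k (Fin ((K2LD_nf S p hp).Y i).n → k) from
    if sameC B (p.2.get i).1 c then dualOf (bcN (p.2.get i).1) (vA B (p.2.get i) g) else 0) ∘ₗ LinearMap.proj i

theorem K2LD_dual_apply (n : ℕ) (φ : List k) (y : Fin n → k) : dualOf n φ y = dotProduct (vecOf n φ) y := by
  unfold dualOf
  rw [LinearMap.sum_apply]
  rfl

/-- the functional of a generator is one of the functionals `OmD` -/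
theorem K2LD_key {p : NC D k} (hp : ncOk S p) {c : BC D k} (hc : bcOk S c) (band : c.1 = true) {B : ℕ}
    (bp : ncBig p B) (bc : scBig (bcS c) B) (i : Fin (K2LD_nf S p hp).m) {a b : ℕ} (ha : a < bcP (p.1.get i).1)
    (hb : b < bcP c) {o : Bool} (hord : ordC (20 * B) (bcS (p.1.get i).1) (bcS c) o (a : ℤ) (b : ℤ))
    (j : Fin (bcN (p.1.get i).1)) :
    (K2LD_nf S p hp).OmD (bcBlk S c hc).x i o (a : ℤ) (b : ℤ)
      (show Dual k (Fin ((K2LD_nf S p hp).X i).n → k) from LinearMap.proj j) =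
      K2LD_x S p hp c B (p.1.get i, a, b, o, (j : ℕ)) := by
  classical
  refine LinearMap.ext fun y => ?_
  unfold K2LD_x
  rw [LinearMap.sum_apply]
  show ∑ jj, (K2LD_nf S p hp).OmLs (bcBlk S c hc).x i o (a : ℤ) (b : ℤ)
    (show Dual k (Fin ((K2LD_nf S p hp).X i).n → k) from LinearMap.proj j) jj (y jj) = _
  refine Finset.sum_congr rfl fun jj _ => ?_
  have hX : bcOk S (p.1.get i).1 := hp.1 _ (List.get_mem p.1 i)
  have hY : bcOk S (p.2.get jj).1 := hp.2 _ (List.get_mem p.2 jj)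
  have bX : scBig (bcS (p.1.get i).1) B := bp.2.1 _ (List.get_mem p.1 i)
  have bY : scBig (bcS (p.2.get jj).1) B := bp.2.2 _ (List.get_mem p.2 jj)
  have hs := sameC_iff hY hc bY bc band
  by_cases h : sameC B (p.2.get jj).1 c
  · have h' : ((K2LD_nf S p hp).Y jj).x = (bcBlk S c hc).x := hs.2 h
    have e1 : (K2LD_nf S p hp).OmLs (bcBlk S c hc).x i o (a : ℤ) (b : ℤ)
        (show Dual k (Fin ((K2LD_nf S p hp).X i).n → k) from LinearMap.proj j) jj (y jj) =
        OmL (bcBlk S (p.1.get i).1 hX) (bcBlk S (p.2.get jj).1 hY) (ecElt S (p.1.get i) hX)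
          (ecFnl S (p.2.get jj) hY) o (a : ℤ) (b : ℤ)
          (show Dual k (Fin (bcBlk S (p.1.get i).1 hX).n → k) from LinearMap.proj j) (y jj) := by
      unfold NF.OmLs
      rw [if_pos h']
      rfl
    have hO : Ord (bcBlk S (p.1.get i).1 hX).x (bcBlk S (p.2.get jj).1 hY).x o (a : ℤ) (b : ℤ) := by
      have h2 := (KPR_ord hX hc bX bc ha hb o).2 hord
      rw [← hs.2 h] at h2
      exact h2
    have h1 := bcP_le bX
    have h2 := bcP_le bc
    have hord' : ordC (20 * B) (bcS (p.1.get i).1) (bcS (p.2.get jj).1) o (a : ℤ) (b : ℤ) :=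
      (ordS_iff_ordC hX.1 hY.1 bX bY o (by omega) (by omega)).1 ((ordS_iff hX.1 hY.1 o _ _).1 hO)
    refine e1.trans ((OmL_row hX hY hord' j (y jj)).trans ?_)
    show _ = (if sameC B (p.2.get jj).1 c then dualOf (bcN (p.2.get jj).1)
      (vA B (p.2.get jj) (p.1.get i, a, b, o, (j : ℕ))) else 0 : Dual k (Fin (bcN (p.2.get jj).1) → k)) (y jj)
    rw [if_pos h]
    exact (K2LD_dual_apply _ _ _).symm
  · have h' : ¬ ((K2LD_nf S p hp).Y jj).x = (bcBlk S c hc).x := fun h2 => h (hs.1 h2)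
    unfold NF.OmLs
    rw [if_neg h', LinearMap.comp_apply, LinearMap.proj_apply]
    show _ = (if sameC B (p.2.get jj).1 c then dualOf (bcN (p.2.get jj).1)
      (vA B (p.2.get jj) (p.1.get i, a, b, o, (j : ℕ))) else 0 : Dual k (Fin (bcN (p.2.get jj).1) → k)) (y jj)
    rw [if_neg h]
    rfl

/-- linearity in the functional -/
theorem K2LD_OmL_lin (X Y : Blk S k) (a : X.M.C) (b : Dual k Y.M.C) (o : Bool) (p r : ℤ) {ι : Type} (s : Finset ι)
    (t : ι → k) (φ : ι → Dual k (Fin X.n → k)) (y : Fin Y.n → k) :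
    OmL X Y a b o p r (∑ i ∈ s, t i • φ i) y = ∑ i ∈ s, t i * OmL X Y a b o p r (φ i) y := by
  unfold OmL Om
  simp only [Finset.mul_sum]
  rw [Finset.sum_comm]
  refine Finset.sum_congr rfl fun i _ => ?_
  rw [LinearMap.smulRight_apply, LinearMap.sum_apply, Finset.sum_smul, map_sum]
  refine Finset.sum_congr rfl fun j _ => ?_
  rw [LinearMap.smulRight_apply, LinearMap.smul_apply, smul_assoc, map_smul, smul_eq_mul]

theorem K2LD_OmD_lin (P : NF S k) (c : Str S) (i : Fin P.m) (o : Bool) (q r : ℤ) {ι : Type} (s : Finset ι)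
    (t : ι → k) (φ : ι → Dual k (Fin (P.X i).n → k)) :
    P.OmD c i o q r (∑ j ∈ s, t j • φ j) = ∑ j ∈ s, t j • P.OmD c i o q r (φ j) := by
  classical
  refine LinearMap.ext fun y => ?_
  rw [LinearMap.sum_apply]
  show ∑ jj, P.OmLs c i o q r (∑ j ∈ s, t j • φ j) jj (y jj) = ∑ j ∈ s, t j * ∑ jj, P.OmLs c i o q r (φ j) jj (y jj)
  simp only [Finset.mul_sum]
  rw [Finset.sum_comm]
  refine Finset.sum_congr rfl fun jj _ => ?_
  unfold NF.OmLs
  split_ifs with h
  · exact K2LD_OmL_lin _ _ _ _ _ _ _ _ _ _ _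
  · simp

theorem K2LD_OmD_fst (P : NF S k) (c : Str S) (i : Fin P.m) (o : Bool) (q r m : ℤ)
    (φ : Dual k (Fin (P.X i).n → k)) :
    P.OmD c i o (q + m * (P.X i).l) r φ =
      P.OmD c i o q r (φ ∘ₗ (((P.X i).T ^ (-m) : (Fin (P.X i).n → k) ≃ₗ[k] (Fin (P.X i).n → k)) :
        (Fin (P.X i).n → k) →ₗ[k] (Fin (P.X i).n → k))) := by
  classical
  refine LinearMap.ext fun y => ?_
  show ∑ jj, P.OmLs c i o (q + m * (P.X i).l) r φ jj (y jj) = ∑ jj, P.OmLs c i o q r (φ ∘ₗ (((P.X i).T ^ (-m) : (Fin (P.X i).n → k) ≃ₗ[k] (Fin (P.X i).n → k)) :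
        (Fin (P.X i).n → k) →ₗ[k] (Fin (P.X i).n → k))) jj (y jj)
  refine Finset.sum_congr rfl fun jj _ => ?_
  unfold NF.OmLs
  split_ifs with h
  · exact OmL_mul_fst _ _ _ _ _ _ _ _ _ _
  · rfl

/-- one period further for `c` -/
theorem K2LD_OmD_step (P : NF S k) {c : Str S} {l : ℕ} (hl : c.MinPer l) (i : Fin P.m) (o : Bool) (q r : ℤ)
    (φ : Dual k (Fin (P.X i).n → k)) :
    P.endY.dualMap (P.OmD c i o q r φ) = P.OmD c i o q (r + l) φ := by
  classical
  refine LinearMap.ext fun y => ?_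
  show ∑ jj, P.OmLs c i o q r φ jj ((P.Y jj).T (y jj)) = ∑ jj, P.OmLs c i o q (r + l) φ jj (y jj)
  refine Finset.sum_congr rfl fun jj _ => ?_
  unfold NF.OmLs
  split_ifs with h
  · have h1 := blk_l hl (P.Y jj) h
    have h2 := OmL_mul_snd (P.X i) (P.Y jj) (P.a i) (P.b jj) o q r 1 φ (y jj)
    rw [one_mul, zpow_one, h1] at h2
    exact h2.symm
  · rfl

/-- the span of the functionals of the generators -/
noncomputable def K2LD_W (S : Sides D) (p : NC D k) (hp : ncOk S p) (c : BC D k) (B : ℕ) :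
    Submodule k (Dual k ((i : Fin (K2LD_nf S p hp).m') → (Fin ((K2LD_nf S p hp).Y i).n → k))) :=
  Submodule.span k {u | ∃ (h : k[X]) (g : {g // g ∈ gA B p c}),
    u = aeval (K2LD_nf S p hp).endY.dualMap h (K2LD_x S p hp c B g)}

theorem K2LD_W_inv {p : NC D k} (hp : ncOk S p) (c : BC D k) (B : ℕ) (f : k[X]) :
    ∀ u ∈ K2LD_W S p hp c B, aeval (K2LD_nf S p hp).endY.dualMap f u ∈ K2LD_W S p hp c B := by
  intro u hu
  unfold K2LD_W at hu
  induction hu using Submodule.span_induction with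
  | mem u hu =>
    obtain ⟨h, g, rfl⟩ := hu
    refine Submodule.subset_span ⟨f * h, g, ?_⟩
    rw [map_mul, Module.End.mul_apply]
  | zero =>
    rw [map_zero]
    exact Submodule.zero_mem _
  | add u v _ _ hu hv =>
    rw [map_add]
    exact Submodule.add_mem _ hu hv
  | smul t u _ hu =>
    rw [map_smul]
    exact Submodule.smul_mem _ t hu

theorem K2LD_W_inv1 {p : NC D k} (hp : ncOk S p) (c : BC D k) (B : ℕ) :
    ∀ u ∈ K2LD_W S p hp c B, (K2LD_nf S p hp).endY.dualMap u ∈ K2LD_W S p hp c B := by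
  intro u hu
  have h := K2LD_W_inv hp c B Polynomial.X u hu
  rw [aeval_X] at h
  exact h

/-- the automorphism `endY` as an equivalence -/
noncomputable def K2LD_E (P : NF S k) :
    ((j : Fin P.m') → (Fin (P.Y j).n → k)) ≃ₗ[k] ((j : Fin P.m') → (Fin (P.Y j).n → k)) :=
  LinearEquiv.piCongrRight fun j => (P.Y j).T

theorem K2LD_step_iff {p : NC D k} (hp : ncOk S p) {c : BC D k} (hc : bcOk S c) (band : c.1 = true) (B : ℕ)
    (i : Fin (K2LD_nf S p hp).m) (o : Bool) (q r : ℤ) (φ : Dual k (Fin ((K2LD_nf S p hp).X i).n → k)) :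
    (K2LD_nf S p hp).OmD (bcBlk S c hc).x i o q r φ ∈ K2LD_W S p hp c B ↔
      (K2LD_nf S p hp).OmD (bcBlk S c hc).x i o q (r + (bcBlk S c hc).l) φ ∈ K2LD_W S p hp c B := by
  have hst := K2LD_OmD_step (K2LD_nf S p hp) (K2LD_minPer hc band) i o q r φ
  constructor
  · intro h
    rw [← hst]
    exact K2LD_W_inv1 hp c B _ h
  · intro h
    have h1 := inv_mem_of_invariant (K2LD_E (K2LD_nf S p hp)).dualMap (K2LD_W S p hp c B)
      (fun u hu => K2LD_W_inv1 hp c B u hu) _ h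
    have h2 : (K2LD_E (K2LD_nf S p hp)).dualMap ((K2LD_nf S p hp).OmD (bcBlk S c hc).x i o q r φ) =
        (K2LD_nf S p hp).OmD (bcBlk S c hc).x i o q (r + (bcBlk S c hc).l) φ := hst
    rw [← h2, LinearEquiv.symm_apply_apply] at h1
    exact h1

theorem K2LD_steps {p : NC D k} (hp : ncOk S p) {c : BC D k} (hc : bcOk S c) (band : c.1 = true) (B : ℕ)
    (i : Fin (K2LD_nf S p hp).m) (o : Bool) (q r : ℤ) (φ : Dual k (Fin ((K2LD_nf S p hp).X i).n → k))
    (h : (K2LD_nf S p hp).OmD (bcBlk S c hc).x i o q r φ ∈ K2LD_W S p hp c B) (m : ℤ) :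
    (K2LD_nf S p hp).OmD (bcBlk S c hc).x i o q (r + m * (bcBlk S c hc).l) φ ∈ K2LD_W S p hp c B := by
  induction m using Int.induction_on with
  | zero =>
    rw [zero_mul, add_zero]
    exact h
  | succ n ih =>
    have h1 := (K2LD_step_iff hp hc band B i o q _ φ).1 ih
    have e : r + (n : ℤ) * ((bcBlk S c hc).l : ℤ) + ((bcBlk S c hc).l : ℤ) =
      r + ((n : ℤ) + 1) * ((bcBlk S c hc).l : ℤ) := by ring
    rw [e] at h1
    exact h1
  | pred n ih =>
    refine (K2LD_step_iff hp hc band B i o q _ φ).2 ?_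
    have e : r + (-(n : ℤ) - 1) * ((bcBlk S c hc).l : ℤ) + ((bcBlk S c hc).l : ℤ) =
      r + -(n : ℤ) * ((bcBlk S c hc).l : ℤ) := by ring
    rw [e]
    exact ih

/-- a functional is the combination of the coordinates -/
theorem K2LD_phi (n : ℕ) (φ : Dual k (Fin n → k)) :
    φ = ∑ j : Fin n, φ (Pi.single j 1) • (LinearMap.proj j : (Fin n → k) →ₗ[k] k) := by
  refine LinearMap.pi_ext' fun j => ?_
  ext
  simp only [LinearMap.comp_apply, LinearMap.single_apply, LinearMap.sum_apply, LinearMap.smul_apply,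
    LinearMap.proj_apply, smul_eq_mul]
  rw [Finset.sum_eq_single j]
  · simp
  · intro b _ hb
    simp [Pi.single_eq_of_ne hb]
  · intro h
    exact absurd (Finset.mem_univ _) h

theorem K2LD_span {p : NC D k} (hp : ncOk S p) {c : BC D k} (hc : bcOk S c) (band : c.1 = true) {B : ℕ}
    (bp : ncBig p B) (bc : scBig (bcS c) B) :
    (K2LD_nf S p hp).LD (bcBlk S c hc).x = K2LD_W S p hp c B := by
  refine le_antisymm ?_ ?_
  · unfold NF.LD
    refine Submodule.span_le.2 ?_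
    rintro u ⟨h, i, o, q, r, φ, hord, rfl⟩
    refine K2LD_W_inv hp c B h _ ?_
    have hX : bcOk S (p.1.get i).1 := hp.1 _ (List.get_mem p.1 i)
    have bX : scBig (bcS (p.1.get i).1) B := bp.2.1 _ (List.get_mem p.1 i)
    obtain ⟨a, ha, b, hb, m, m', hq, hr, hord'⟩ := KPR_dom hX hc hord
    have hordC := (KPR_ord hX hc bX bc ha hb o).1 hord'
    rw [hr]
    refine K2LD_steps hp hc band B i o q b φ ?_ m'
    have hq' : q = (a : ℤ) + m * (((K2LD_nf S p hp).X i).l : ℤ) := hq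
    rw [hq', K2LD_OmD_fst]
    rw [show (φ ∘ₗ ((((K2LD_nf S p hp).X i).T ^ (-m) :
      (Fin ((K2LD_nf S p hp).X i).n → k) ≃ₗ[k] (Fin ((K2LD_nf S p hp).X i).n → k)) :
        (Fin ((K2LD_nf S p hp).X i).n → k) →ₗ[k] (Fin ((K2LD_nf S p hp).X i).n → k))) = _ from K2LD_phi _ _,
      K2LD_OmD_lin]
    refine Submodule.sum_mem _ fun j _ => Submodule.smul_mem _ _ ?_
    have hk := K2LD_key hp hc band bp bc i ha hb hordC j
    refine Submodule.subset_span ⟨1, ⟨(p.1.get i, a, b, o, (j : ℕ)), ?_⟩, ?_⟩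
    · exact K2LD_mem_gA.2 ⟨p.1.get i, List.get_mem p.1 i, a, ha, b, hb, o, hordC, j, j.2, rfl⟩
    · rw [map_one, Module.End.one_apply]
      exact hk
  · unfold K2LD_W NF.LD
    refine Submodule.span_le.2 ?_
    rintro u ⟨h, ⟨g, hg⟩, rfl⟩
    obtain ⟨X, hX, a, ha, b, hb, o, hord, j, hj, rfl⟩ := K2LD_mem_gA.1 hg
    obtain ⟨i, rfl⟩ := List.get_of_mem hX
    have hX' : bcOk S (p.1.get i).1 := hp.1 _ (List.get_mem p.1 i)
    have bX : scBig (bcS (p.1.get i).1) B := bp.2.1 _ (List.get_mem p.1 i)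
    have hk := K2LD_key hp hc band bp bc i ha hb hord ⟨j, hj⟩
    refine Submodule.subset_span ⟨h, i, o, (a : ℤ), (b : ℤ),
      (show Dual k (Fin ((K2LD_nf S p hp).X i).n → k) from
        LinearMap.proj (⟨j, hj⟩ : Fin (bcN (p.1.get i).1))), (KPR_ord hX' hc bX bc ha hb o).2 hord, ?_⟩
    rw [hk]

/-- The span `(ncDec S p).LD c` (UFa.lean: span over the polynomials of the functionals `OmD`) is generated by the functionals of `gA`; compare
`USpan_eq` in K2RowP.lean (reduce `r` modulo the period of `c`, `q` modulo the period of `X`; `OmL_mul_fst`, `OmL_mul_snd`, `KOm_OmL`, `OmL_row`). -/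
theorem LD_eq {p : NC D k} (hp : ncOk S p) {c : BC D k} (hc : bcOk S c) (band : c.1 = true) {B : ℕ}
    (bp : ncBig p B) (bc : scBig (bcS c) B) :
    ∃ x : {g // g ∈ gA B p c} → Dual k ((i : Fin (ncDec S p).m') → (Fin ((ncDec S p).Y i).n → k)),
      (ncDec S p).LD (bcBlk S c hc).x = Submodule.span k {u | ∃ (h : k[X]) (g : {g // g ∈ gA B p c}),
        u = aeval (ncDec S p).endY.dualMap h (x g)} ∧
      ∀ (g : {g // g ∈ gA B p c}) (i : Fin (ncDec S p).m') (Y : EC D k) (hY : p.2[(i : ℕ)]? = some Y)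
        (j : ℕ) (hj : j < ((ncDec S p).Y i).n), j < bcN Y.1 ∧
        ((¬ sameC B Y.1 c → x g (Pi.single i (Pi.single ⟨j, hj⟩ 1)) = 0) ∧
          (sameC B Y.1 c → x g (Pi.single i (Pi.single ⟨j, hj⟩ 1)) = ent (vA B Y g.1) j)) := by
  classical
  rw [K2LD_dec hp]
  refine ⟨fun g => K2LD_x S p hp c B g.1, K2LD_span hp hc band bp bc, ?_⟩
  intro g i Y hY j hj
  have hi : (i : ℕ) < p.2.length := i.2
  have hY' : p.2.get i = Y := by
    rw [List.getElem?_eq_getElem hi] at hY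
    exact Option.some.inj hY
  subst hY'
  have hj' : j < bcN (p.2.get i).1 := hj
  refine ⟨hj', ?_⟩
  have e : K2LD_x S p hp c B g.1 (Pi.single i (Pi.single ⟨j, hj⟩ 1)) =
      (if sameC B (p.2.get i).1 c then dualOf (bcN (p.2.get i).1) (vA B (p.2.get i) g.1) else 0 :
        Dual k (Fin (bcN (p.2.get i).1) → k)) (Pi.single ⟨j, hj'⟩ 1) := by
    unfold K2LD_x
    rw [LinearMap.sum_apply, Finset.sum_eq_single i]
    · rw [LinearMap.comp_apply, LinearMap.proj_apply, Pi.single_eq_same]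
      rfl
    · intro i' _ hi'
      rw [LinearMap.comp_apply, LinearMap.proj_apply, Pi.single_eq_of_ne hi', map_zero]
    · intro h
      exact absurd (Finset.mem_univ _) h
  constructor
  · intro h
    rw [e, if_neg h]
    rfl
  · intro h
    rw [e, if_pos h]
    exact KOm_dualOf (bcN (p.2.get i).1) (vA B (p.2.get i) g.1) ⟨j, hj'⟩

end StrAlg
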