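import Pool.Agent.Lib.MP_b9fd58_lc.If2Defs
import Pool.Agent.Lib.MP_b9fd58_lc.R.Hk1

/-!
# Stream K2: existence of `R[1/π]/R`
-/

set_option autoImplicit false

namespace StrAlg

open Module Polynomial

variable {k : Type} [Field k]

/-- a module with the properties of `R[1/π]/R` -/
theorem K2PR_aux {E : Type} [AddCommGroup E] [Module k E] [Module k[X] E] [IsScalarTower k k[X] E]
    {π : k[X]} (hπ : Irreducible π) (h0 : π.coeff 0 ≠ 0) {z : E} (hz0 : z ≠ 0) (hz : π • z = 0)
    (h1 : ∀ v : E, ∃ n : ℕ, π ^ n • v = 0) (h2 : ∀ v : E, ∃ u : E, π • u = v)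
    (h3 : ∀ v : E, π • v = 0 → ∃ r : k[X], v = r • z) :
    ∃ T₀ : E ≃ₗ[k] E, IsPR π T₀.toLinearMap := by
  have hbij := smul_bijective_of_coprime (V := E) (coprime_X h0) h1
  obtain ⟨T₀, e, he⟩ := exists_EM (k := k) E hbij
  have hval : ∀ (r : k[X]) (v : E), aeval T₀.toLinearMap r v = r • v := by
    intro r v
    have g1 : e (r • v) = r • e v := map_smul e _ _
    rw [he, he, SAlg.EM.smul_of] at g1
    exact ((SAlg.EM.of T₀.toLinearMap).injective g1).symm
  refine ⟨T₀, ?_, ?_, ?_⟩
  · intro v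
    obtain ⟨n, hn⟩ := h1 v
    exact ⟨n, by rw [hval]; exact hn⟩
  · intro v
    obtain ⟨u, hu⟩ := h2 v
    exact ⟨u, by rw [hval]; exact hu⟩
  · let ψ : (k[X] ⧸ Ideal.span {π}) →ₗ[k[X]] E :=
      Submodule.liftQ (Ideal.span {π}) (LinearMap.toSpanSingleton k[X] E z) (by
        intro r hr
        obtain ⟨s, rfl⟩ := Ideal.mem_span_singleton'.1 hr
        rw [LinearMap.mem_ker, LinearMap.toSpanSingleton_apply, mul_smul, hz, smul_zero])
    have hψ : ∀ r : k[X], ψ (Submodule.Quotient.mk r) = r • z := fun r => rfl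
    have hinj : Function.Injective (ψ.restrictScalars k) := by
      rw [injective_iff_map_eq_zero]
      intro x hx
      obtain ⟨r, rfl⟩ := Submodule.Quotient.mk_surjective _ x
      have g1 : r • z = 0 := hx
      rw [Submodule.Quotient.mk_eq_zero]
      refine Ideal.mem_span_singleton.2 ?_
      by_contra hcon
      obtain ⟨a, b, hab⟩ := (hπ.coprime_iff_not_dvd.2 hcon)
      apply hz0
      calc z = (a * π + b * r) • z := by rw [hab, one_smul]
        _ = 0 := by rw [add_smul, mul_smul, mul_smul, g1, hz, smul_zero, smul_zero, add_zero]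
    have hrange : LinearMap.range (ψ.restrictScalars k) = LinearMap.ker (aeval T₀.toLinearMap π) := by
      ext v
      rw [LinearMap.mem_range, LinearMap.mem_ker, hval]
      constructor
      · rintro ⟨x, rfl⟩
        obtain ⟨r, rfl⟩ := Submodule.Quotient.mk_surjective _ x
        show π • (r • z) = 0
        rw [smul_comm, hz, smul_zero]
      · intro hv
        obtain ⟨r, hr⟩ := h3 v hv
        exact ⟨Submodule.Quotient.mk r, hr.symm⟩
    rw [← hrange, LinearMap.finrank_range_of_inj hinj]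
    exact finrank_quotient_span_eq_natDegree

/-- the same without a given `k`-structure -/
theorem K2PR_aux' (E : Type) [AddCommGroup E] [Module k[X] E]
    {π : k[X]} (hπ : Irreducible π) (h0 : π.coeff 0 ≠ 0) {z : E} (hz0 : z ≠ 0) (hz : π • z = 0)
    (h1 : ∀ v : E, ∃ n : ℕ, π ^ n • v = 0) (h2 : ∀ v : E, ∃ u : E, π • u = v)
    (h3 : ∀ v : E, π • v = 0 → ∃ r : k[X], v = r • z) :
    ∃ (V : Type) (_ : AddCommGroup V) (_ : Module k V) (T : V ≃ₗ[k] V), IsPR π T.toLinearMap := by
  let _ : Module k E := Module.compHom E (algebraMap k k[X])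
  have : IsScalarTower k k[X] E := ⟨fun c r v => by
    have h1 : c • (r • v) = (algebraMap k k[X] c) • (r • v) := rfl
    rw [h1, smul_smul, Algebra.smul_def]⟩
  obtain ⟨T, hT⟩ := K2PR_aux (k := k) (E := E) hπ h0 hz0 hz h1 h2 h3
  exact ⟨E, inferInstance, inferInstance, T, hT⟩

/-- `R[1/π]/R`, `R = k[X]`: `SAlg.PR π` of R/AlgC.lean (`PR_tors`, `PR_div_pi`, `X_bij_PR` of R/Hk1.lean, `exists_EM'` of R/Hk1.lean gives
the vector space with the endomorphism). The kernel of `π` is `{a/π}`, isomorphic to `k[X]/(π)` by `a ↦ a/π`, of dimension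
`π.natDegree`. -/
theorem exists_isPR (π : k[X]) (hπ : Irreducible π) (h0 : π.coeff 0 ≠ 0) :
    ∃ (V : Type) (_ : AddCommGroup V) (_ : Module k V) (T : V ≃ₗ[k] V), IsPR π T.toLinearMap := by
  let z : SAlg.PR π := Submodule.Quotient.mk (IsLocalization.Away.invSelf π)
  have hπz : π • z = 0 := by
    show π • (Submodule.Quotient.mk (IsLocalization.Away.invSelf π) : SAlg.PR π) = 0
    rw [← Submodule.Quotient.mk_smul, Submodule.Quotient.mk_eq_zero]
    refine ⟨1, ?_⟩
    rw [Algebra.smul_def, IsLocalization.Away.mul_invSelf]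
    exact map_one (algebraMap k[X] (Localization.Away π))
  have hker : ∀ v : SAlg.PR π, π • v = 0 → ∃ r : k[X], v = r • z := by
    intro v hv
    obtain ⟨y, rfl⟩ := Submodule.Quotient.mk_surjective _ v
    rw [← Submodule.Quotient.mk_smul, Submodule.Quotient.mk_eq_zero] at hv
    obtain ⟨a, ha⟩ := hv
    refine ⟨a, ?_⟩
    show Submodule.Quotient.mk y = a • (Submodule.Quotient.mk (IsLocalization.Away.invSelf π) : SAlg.PR π)
    rw [← Submodule.Quotient.mk_smul]
    congr 1
    have ha' : algebraMap k[X] (Localization.Away π) a = π • y := ha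
    rw [Algebra.smul_def, ha', Algebra.smul_def, mul_right_comm, IsLocalization.Away.mul_invSelf, one_mul]
  have hz0 : z ≠ 0 := by
    intro h
    obtain ⟨x, hx, hx2⟩ := SAlg.PR_socle hπ.prime
    obtain ⟨r, hr⟩ := hker x hx2
    rw [h, smul_zero] at hr
    exact hx hr
  exact K2PR_aux' (SAlg.PR π) hπ h0 hz0 hπz (SAlg.PR_tors π) (SAlg.PR_div_pi π) hker

/-- conversely: an invertible endomorphism forces `π(0) ≠ 0` -/
theorem IsPR.coeff_ne {π : k[X]} (hπ : Irreducible π) {V : Type} [AddCommGroup V] [Module k V] (T : V ≃ₗ[k] V)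
    (h : IsPR π T.toLinearMap) : π.coeff 0 ≠ 0 := by
  intro h0
  obtain ⟨q, hq⟩ := X_dvd_iff.2 h0
  have hu : IsUnit q := by
    rcases hπ.isUnit_or_isUnit hq with h1 | h1
    · exact absurd h1 not_isUnit_X
    · exact h1
  have hker : LinearMap.ker (aeval T.toLinearMap π) = ⊥ := by
    rw [LinearMap.ker_eq_bot]
    have h1 : IsUnit (aeval T.toLinearMap q) := hu.map (aeval T.toLinearMap)
    rw [hq, map_mul, aeval_X]
    have h2 : Function.Injective (aeval T.toLinearMap q) := by
      obtain ⟨w, hw⟩ := h1.exists_left_inv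
      intro x y hxy
      have h3 : (w * aeval T.toLinearMap q) x = (w * aeval T.toLinearMap q) y := by
        rw [Module.End.mul_apply, Module.End.mul_apply, hxy]
      rw [hw] at h3
      exact h3
    exact T.injective.comp h2
  have h3 := h.soc
  rw [hker, finrank_bot] at h3
  have h4 := hπ.natDegree_pos
  omega

end StrAlg
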