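import Pool.Agent.Lib.MP_b9fd58_lc.UAb

/-!
# Stream K2: primary parts (pure algebra)
-/

set_option autoImplicit false

namespace StrAlg

open Module Polynomial

variable {k : Type} [Field k] {E : Type} [AddCommGroup E] [Module k E] [FiniteDimensional k E] {A : E →ₗ[k] E}

/-- the spaces `π ^ n k[A]` stabilise -/
theorem K2PrimA_stab (A : E →ₗ[k] E) (π : k[X]) :
    ∃ N : ℕ, 0 < N ∧ ∃ h : k[X], aeval A (π ^ N) = aeval A (π ^ N * (π ^ N * h)) := by
  let f : ℕ →o (Submodule k (E →ₗ[k] E))ᵒᵈ :=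
    { toFun := fun n => OrderDual.toDual (LinearMap.range ((aeval A).toLinearMap ∘ₗ LinearMap.mulLeft k (π ^ n)))
      monotone' := by
        intro a b hab
        refine OrderDual.toDual_le_toDual.2 ?_
        rintro _ ⟨g, rfl⟩
        refine ⟨π ^ (b - a) * g, ?_⟩
        simp only [LinearMap.comp_apply, LinearMap.mulLeft_apply]
        rw [← mul_assoc, ← pow_add, Nat.add_sub_cancel' hab] }
  obtain ⟨n, hn⟩ := IsArtinian.monotone_stabilizes f
  refine ⟨n + 1, Nat.succ_pos n, ?_⟩
  have h1 : f (n + 1) = f (n + 1 + (n + 1)) := by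
    rw [← hn (n + 1) (by omega), ← hn (n + 1 + (n + 1)) (by omega)]
  have h2 : LinearMap.range ((aeval A).toLinearMap ∘ₗ LinearMap.mulLeft k (π ^ (n + 1))) =
      LinearMap.range ((aeval A).toLinearMap ∘ₗ LinearMap.mulLeft k (π ^ (n + 1 + (n + 1)))) :=
    OrderDual.toDual_inj.1 h1
  have h3 : aeval A (π ^ (n + 1)) ∈
      LinearMap.range ((aeval A).toLinearMap ∘ₗ LinearMap.mulLeft k (π ^ (n + 1))) := by
    refine ⟨1, ?_⟩
    simp
  rw [h2] at h3
  obtain ⟨h, hh⟩ := h3
  refine ⟨h, ?_⟩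
  rw [← hh]
  simp only [LinearMap.comp_apply, LinearMap.mulLeft_apply, AlgHom.toLinearMap_apply]
  rw [pow_add, mul_assoc]

theorem K2PrimA_split (A : E →ₗ[k] E) (π : k[X]) :
    ∃ (h : k[X]) (N : ℕ), 0 < N ∧ aeval A (π ^ N * (1 - π ^ N * h)) = 0 := by
  obtain ⟨N, hN, h, hh⟩ := K2PrimA_stab A π
  refine ⟨h, N, hN, ?_⟩
  rw [mul_sub, mul_one, map_sub, ← hh, sub_self]

/-- the characteristic polynomial is `π ^ a * s` up to a power of `π`, `s` prime to `π`: there are `N`, `h` with
`χ ∣ π ^ (N + 1) * (1 - π ^ (N + 1) * h)`. -/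
theorem prim_split (A : E →ₗ[k] E) (π : k[X]) (hπ : π ≠ 0) :
    ∃ (h : k[X]) (N : ℕ), aeval A (π ^ (N + 1) * (1 - π ^ (N + 1) * h)) = 0 := by
  obtain ⟨h, N, hN, hh⟩ := K2PrimA_split A π
  obtain ⟨M, rfl⟩ : ∃ M, N = M + 1 := ⟨N - 1, by omega⟩
  exact ⟨h, M, hh⟩

theorem K2PrimA_aeval_mul (f g : k[X]) (u : E) : aeval A (f * g) u = aeval A f (aeval A g u) := by
  rw [map_mul]; rfl

theorem K2PrimA_comm (f g : k[X]) (u : E) : aeval A f (aeval A g u) = aeval A g (aeval A f u) := by
  rw [← K2PrimA_aeval_mul, ← K2PrimA_aeval_mul, mul_comm]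

theorem K2PrimA_pow (m : ℕ) (u : E) : (A ^ m) u = aeval A (X ^ m : k[X]) u := by
  rw [map_pow, aeval_X]

/-- Cayley–Hamilton: `g(A) x` is a combination of `A ^ m x`, `m < d` -/
theorem K2PrimA_ch (d : ℕ) (hd : finrank k E ≤ d) (g : k[X]) (x : E) :
    aeval A g x ∈ Submodule.span k {u | ∃ m < d, u = (A ^ m) x} := by
  have hmon : A.charpoly.Monic := A.charpoly_monic
  have h1 : aeval A g = aeval A (g %ₘ A.charpoly) := by
    conv_lhs => rw [← modByMonic_add_div g A.charpoly]
    rw [map_add, map_mul, LinearMap.aeval_self_charpoly, zero_mul, add_zero]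
  rw [h1]
  by_cases hE : finrank k E = 0
  · have : Subsingleton E := finrank_zero_iff.1 hE
    have e : aeval A (g %ₘ A.charpoly) x = 0 := Subsingleton.elim _ _
    rw [e]; exact Submodule.zero_mem _
  have h2 : (g %ₘ A.charpoly).natDegree < d := by
    have : (g %ₘ A.charpoly).natDegree < A.charpoly.natDegree := by
      refine natDegree_modByMonic_lt g hmon ?_
      intro h
      have := congrArg natDegree h
      rw [LinearMap.charpoly_natDegree, natDegree_one] at this
      exact hE this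
    rw [LinearMap.charpoly_natDegree] at this
    exact this.trans_le hd
  rw [aeval_eq_sum_range' h2, LinearMap.sum_apply]
  refine Submodule.sum_mem _ fun m hm => ?_
  rw [LinearMap.smul_apply]
  exact Submodule.smul_mem _ _ (Submodule.subset_span ⟨m, Finset.mem_range.1 hm, rfl⟩)

theorem K2PrimA_span {ι : Type} (x : ι → E) (π h : k[X]) (N d : ℕ) (hN : 0 < N) (hd : finrank k E ≤ d)
    (U : Submodule k E)
    (hU : U = Submodule.span k {u | ∃ (g : k[X]) (i : ι), u = aeval A g (x i)})
    (hx : ∀ i, aeval A (π ^ N * (1 - π ^ N * h)) (x i) = 0) :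
    prim π A U = Submodule.span k {u | ∃ m < d, ∃ i, u = aeval A (1 - π ^ N * h) ((A ^ m) (x i))} := by
  apply le_antisymm
  · intro u hu
    obtain ⟨huU, M, hM⟩ := mem_prim.1 hu
    -- `π ^ N e u = 0`
    have h1 : aeval A (π ^ N * (1 - π ^ N * h)) u = 0 := by
      rw [hU] at huU
      refine Submodule.span_induction (p := fun u _ => aeval A (π ^ N * (1 - π ^ N * h)) u = 0) ?_ ?_ ?_ ?_ huU
      · rintro _ ⟨g, i, rfl⟩
        rw [K2PrimA_comm, hx i, map_zero]
      · exact map_zero _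
      · intro a b _ _ ha hb
        rw [map_add, ha, hb, add_zero]
      · intro c a _ ha
        rw [map_smul, ha, smul_zero]
    -- `z = π ^ N u`
    have h2 : aeval A (π ^ N) u = aeval A (π ^ N * h) (aeval A (π ^ N) u) := by
      have : π ^ N * (1 - π ^ N * h) = π ^ N - (π ^ N * h) * π ^ N := by ring
      rw [this, map_sub, LinearMap.sub_apply, sub_eq_zero] at h1
      rw [← K2PrimA_aeval_mul]
      exact h1
    have h3 : ∀ j : ℕ, aeval A (π ^ N) u = aeval A ((π ^ N * h) ^ j) (aeval A (π ^ N) u) := by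
      intro j
      induction j with
      | zero => simp
      | succ j ih =>
        rw [pow_succ, K2PrimA_aeval_mul, ← h2]
        exact ih
    have h4 : aeval A (π ^ N) u = 0 := by
      rw [h3 M, ← K2PrimA_aeval_mul]
      have e : (π ^ N * h) ^ M * π ^ N = (h ^ M * π ^ N * π ^ (N * M - M)) * π ^ M := by
        have : N * M = (N * M - M) + M := by
          have : M ≤ N * M := Nat.le_mul_of_pos_left M hN
          omega
        rw [mul_pow, ← pow_mul]
        conv_lhs => rw [this, pow_add]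
        ring
      rw [e, K2PrimA_aeval_mul, hM, map_zero]
    -- `u = e u`
    have h5 : aeval A (1 - π ^ N * h) u = u := by
      have e : aeval A (π ^ N * h) u = 0 := by
        rw [mul_comm, K2PrimA_aeval_mul, h4, map_zero]
      rw [map_sub, LinearMap.sub_apply, e, sub_zero, map_one]
      rfl
    rw [← h5]
    rw [hU] at huU
    refine Submodule.span_induction
      (p := fun u _ => aeval A (1 - π ^ N * h) u ∈
        Submodule.span k {u | ∃ m < d, ∃ i, u = aeval A (1 - π ^ N * h) ((A ^ m) (x i))}) ?_ ?_ ?_ ?_ huU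
    · rintro _ ⟨g, i, rfl⟩
      have h6 := K2PrimA_ch (A := A) d hd g (x i)
      have h7 := Submodule.mem_map_of_mem (f := aeval A (1 - π ^ N * h)) h6
      rw [Submodule.map_span] at h7
      refine Submodule.span_mono ?_ h7
      rintro _ ⟨_, ⟨m, hm, rfl⟩, rfl⟩
      exact ⟨m, hm, i, rfl⟩
    · rw [map_zero]; exact Submodule.zero_mem _
    · intro a b _ _ ha hb
      rw [map_add]; exact Submodule.add_mem _ ha hb
    · intro c a _ ha
      rw [map_smul]; exact Submodule.smul_mem _ _ ha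
  · refine Submodule.span_le.2 ?_
    rintro _ ⟨m, -, i, rfl⟩
    refine mem_prim.2 ⟨?_, N, ?_⟩
    · rw [hU]
      refine Submodule.subset_span ⟨(1 - π ^ N * h) * X ^ m, i, ?_⟩
      rw [K2PrimA_aeval_mul, ← K2PrimA_pow]
    · rw [K2PrimA_pow, ← K2PrimA_aeval_mul, K2PrimA_comm, hx i, map_zero]

/-- The primary part of the submodule generated by the `x i` is spanned by the vectors `e A ^ m x i`, `m < d`, where
`e = 1 - π ^ (N + 1) * h` and `π ^ (N + 1) e` kills the generators. -/
theorem prim_span {ι : Type} (x : ι → E) (π h : k[X]) (N d : ℕ) (hd : finrank k E ≤ d) (U : Submodule k E)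
    (hU : U = Submodule.span k {u | ∃ (g : k[X]) (i : ι), u = aeval A g (x i)})
    (hx : ∀ i, aeval A (π ^ (N + 1) * (1 - π ^ (N + 1) * h)) (x i) = 0) :
    prim π A U = Submodule.span k {u | ∃ m < d, ∃ i, u = aeval A (1 - π ^ (N + 1) * h) ((A ^ m) (x i))} :=
  K2PrimA_span x π h (N + 1) d (Nat.succ_pos N) hd U hU hx

end StrAlg
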