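import Pool.Agent.Lib.MP_b9fd58_lc.IfDefs

/-!
# Stream K: invariance under the period of a block; transitivity of `Ord`
-/

set_option autoImplicit false

namespace StrAlg

open Module

variable {D : Dat} {k : Type} [Field k] {S : Sides D}

theorem Blk.fn_mul (X : Blk S k) (a : X.M.C) (p m : ℤ) :
    X.fn a (p + m * X.l) = (X.T ^ (-m) : (Fin X.n → k) ≃ₗ[k] (Fin X.n → k)) (X.fn a p) := by
  have h := X.B.S_zpow (show X.B.S from a).2 p m
  have h1 : (X.T ^ m : (Fin X.n → k) ≃ₗ[k] (Fin X.n → k)) (X.fn a (p + m * X.l)) = X.fn a p := h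
  rw [← h1, zpow_neg, ← LinearEquiv.mul_apply, inv_mul_cancel]
  rfl

theorem KInv_spr {nx : Fin D.nV → Bool → Fin 3 → Fin D.nV × Bool} {A : Ends (Fin D.nV) (Fin D.nE)} {V : Type}
    [AddCommGroup V] [Module k V] (B : LB D k nx A V) (a m : ℤ) (v : V) :
    B.spr (a + m * B.l) v = B.spr a ((B.T ^ m) v) := by
  have h1 : ∀ n : ℕ, ∀ (a : ℤ) (v : V), B.spr (a + (n : ℤ) * B.l) v = B.spr a ((B.T ^ n) v) := by
    intro n
    induction n with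
    | zero => intro a v; simp
    | succ n ih =>
      intro a v
      have e1 : a + ((n + 1 : ℕ) : ℤ) * B.l = (a + n * B.l) + B.l := by push_cast; ring
      rw [e1, B.spr_add_l, ih, pow_succ]
      rfl
  obtain ⟨n, rfl | rfl⟩ := m.eq_nat_or_neg
  · rw [zpow_natCast]
    exact h1 n a v
  · have h2 := h1 n (a + -(n : ℤ) * B.l) ((B.T ^ (-(n : ℤ))) v)
    have e1 : a + -(n : ℤ) * B.l + n * B.l = a := by ring
    rw [e1] at h2
    rw [h2]
    congr 1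
    rw [zpow_neg, zpow_natCast]
    show v = (B.T ^ n) ((B.T ^ n)⁻¹ v)
    rw [← LinearEquiv.mul_apply, mul_inv_cancel]
    rfl

theorem KInv_iota_pos (Y : Blk S k) {p : ℤ} (hp : p ∈ Y.B.Z) :
    Y.iota p = (show (Fin Y.n → k) →ₗ[k] Y.M.C from (Y.B.spr p).codRestrict Y.B.S (fun v => Y.B.spr_mem hp v)) :=
  dif_pos hp

theorem KInv_iota_neg (Y : Blk S k) {p : ℤ} (hp : p ∉ Y.B.Z) : Y.iota p = 0 :=
  dif_neg hp

theorem KInv_iota (Y : Blk S k) (p m : ℤ) (v : Fin Y.n → k) :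
    Y.iota (p + m * Y.l) v = Y.iota p ((Y.T ^ m : (Fin Y.n → k) ≃ₗ[k] (Fin Y.n → k)) v) := by
  by_cases hp : p ∈ Y.B.Z
  · have hp' : p + m * Y.l ∈ Y.B.Z := (Y.B.Z_mul p m).2 hp
    rw [KInv_iota_pos Y hp, KInv_iota_pos Y hp']
    apply Subtype.ext
    exact KInv_spr Y.B p m v
  · have hp' : p + m * Y.l ∉ Y.B.Z := fun h => hp ((Y.B.Z_mul p m).1 h)
    rw [KInv_iota_neg Y hp, KInv_iota_neg Y hp']
    rfl

theorem Blk.cf_mul (Y : Blk S k) (b : Dual k Y.M.C) (p m : ℤ) (v : Fin Y.n → k) :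
    Y.cf b (p + m * Y.l) v = Y.cf b p ((Y.T ^ m : (Fin Y.n → k) ≃ₗ[k] (Fin Y.n → k)) v) := by
  unfold Blk.cf
  rw [LinearMap.comp_apply, LinearMap.comp_apply, KInv_iota]

theorem KInv_stn (e : Bool) (n p t : ℤ) : stn e n (p + t) = stn e n p + t := by
  cases e <;> simp <;> ring

theorem KInv_wdd {ι : Type*} {nx : ι → Bool → Fin 3 → ι × Bool} {L : Ln ι nx} {l : ℕ} (h : L.IsPer l) (e : Bool)
    (p m : ℤ) : L.wdd e (p + m * l) = L.wdd e p := by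
  funext n
  rw [Ln.wdd_apply, Ln.wdd_apply, KInv_stn, (h.lt e).mul]

theorem Ord_mul_fst (X : Blk S k) (w : Str S) (o : Bool) (p q m : ℤ) :
    Ord X.x w o (p + m * X.l) q ↔ Ord X.x w o p q := by
  have hz : p + m * X.l ∈ X.x.Z ↔ p ∈ X.x.Z := X.B.Z_mul p m
  have hv : X.x.L.v (p + m * X.l) = X.x.L.v p := X.ok.per.v.mul p m
  have hr : X.x.L.r (p + m * X.l) = X.x.L.r p := X.ok.per.r.mul p m
  have hw : ∀ e, X.x.L.wdd e (p + m * X.l) = X.x.L.wdd e p := fun e => KInv_wdd X.ok.per e p m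
  unfold Ord Mt LeD FinCl AgD
  rw [hv, hr, hz]
  simp only [hw]

theorem Ord_mul_snd (w : Str S) (Y : Blk S k) (o : Bool) (q r m : ℤ) :
    Ord w Y.x o q (r + m * Y.l) ↔ Ord w Y.x o q r := by
  have hz : r + m * Y.l ∈ Y.x.Z ↔ r ∈ Y.x.Z := Y.B.Z_mul r m
  have hv : Y.x.L.v (r + m * Y.l) = Y.x.L.v r := Y.ok.per.v.mul r m
  have hr : Y.x.L.r (r + m * Y.l) = Y.x.L.r r := Y.ok.per.r.mul r m
  have hw : ∀ e, Y.x.L.wdd e (r + m * Y.l) = Y.x.L.wdd e r := fun e => KInv_wdd Y.ok.per e r m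
  unfold Ord Mt LeD FinCl AgD
  rw [hv, hr, hz]
  simp only [hw]

theorem KInv_lenD {ι : Type*} {nx : ι → Bool → Fin 3 → ι × Bool} {X Y : Ln ι nx} {o e : Bool} {a b a' b' : ℤ}
    (h : X.wdd e a = X.wdd e a') (h' : Y.wdd (e == o) b = Y.wdd (e == o) b') :
    lenD X Y o e a b = lenD X Y o e a' b' := by
  have h1 : ∀ n, AgD X Y o e a b n ↔ AgD X Y o e a' b' n := by
    intro n
    unfold AgD
    rw [h, h']
  by_cases hf : ∃ n, ¬ AgD X Y o e a b n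
  · obtain ⟨h2, h3⟩ := lenD_spec hf
    symm
    exact lenD_eq ((h1 _).1 h2) (fun h4 => h3 ((h1 _).2 h4))
  · have hf1 : ¬ ∃ n, ¬ AgD X Y o e a b (n + 1) := fun ⟨n, hn⟩ => hf ⟨n + 1, hn⟩
    have hf2 : ¬ ∃ n, ¬ AgD X Y o e a' b' (n + 1) := fun ⟨n, hn⟩ => hf ⟨n + 1, fun h4 => hn ((h1 _).1 h4)⟩
    unfold lenD
    rw [dif_neg hf1, dif_neg hf2]

theorem Om_mul_fst (X Y : Blk S k) (a : X.M.C) (b : Dual k Y.M.C) (κ : (Fin X.n → k) →ₗ[k] (Fin Y.n → k)) (o : Bool)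
    (p r m : ℤ) : Om X.x.L Y.x.L (X.fn a) (Y.cf b) κ o (p + m * X.l) r =
      Om X.x.L Y.x.L (X.fn a) (Y.cf b)
        (κ ∘ₗ ((X.T ^ (-m) : (Fin X.n → k) ≃ₗ[k] (Fin X.n → k)) : (Fin X.n → k) →ₗ[k] (Fin X.n → k))) o p r := by
  have hl : ∀ e, lenD X.x.L Y.x.L o e (p + m * X.l) r = lenD X.x.L Y.x.L o e p r := fun e =>
    KInv_lenD (KInv_wdd X.ok.per e p m) rfl
  unfold Om
  rw [hl, hl]
  refine Finset.sum_congr rfl (fun i _ => ?_)
  have e1 : p + m * X.l + i = p + i + m * X.l := by ring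
  rw [e1, X.fn_mul a (p + i) m]
  rfl

theorem Om_mul_snd (X Y : Blk S k) (a : X.M.C) (b : Dual k Y.M.C) (κ : (Fin X.n → k) →ₗ[k] (Fin Y.n → k)) (o : Bool)
    (p r m : ℤ) : Om X.x.L Y.x.L (X.fn a) (Y.cf b) κ o p (r + m * Y.l) =
      Om X.x.L Y.x.L (X.fn a) (Y.cf b)
        (((Y.T ^ m : (Fin Y.n → k) ≃ₗ[k] (Fin Y.n → k)) : (Fin Y.n → k) →ₗ[k] (Fin Y.n → k)) ∘ₗ κ) o p r := by
  have hl : ∀ e, lenD X.x.L Y.x.L o e p (r + m * Y.l) = lenD X.x.L Y.x.L o e p r := fun e =>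
    KInv_lenD rfl (KInv_wdd Y.ok.per (e == o) r m)
  unfold Om
  rw [hl, hl]
  refine Finset.sum_congr rfl (fun i _ => ?_)
  rw [KInv_stn, Y.cf_mul b (stn o i r) m]
  rfl

/-- composition of matches -/
theorem Ord.trans {x w y : Str S} {o o' : Bool} {p q r : ℤ} (h : Ord x w o p q) (h' : Ord w y o' q r) :
    Ord x y (o == o') p r := by
  obtain ⟨a1, a2, a3, a4, a5⟩ := h
  obtain ⟨b1, b2, b3, b4, b5⟩ := h'
  have ho : ∀ e : Bool, (e == (o == o')) = ((e == o) == o') := by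
    intro e
    cases e <;> cases o <;> cases o' <;> rfl
  refine ⟨a1, b2, ⟨a3.1.trans b3.1, ?_⟩, ?_, ?_⟩
  · have h1 := a3.2
    have h2 := b3.2
    subst h1
    subst h2
    cases x.L.r p <;> cases w.L.r q <;> cases y.L.r r <;> rfl
  · intro e
    rw [ho]
    exact (b4 (e == o)).trans (a4 e)
  · intro e
    obtain ⟨n, hn⟩ := a5 e
    refine ⟨n, fun h1 => hn ?_⟩
    unfold AgD at h1 ⊢
    rw [ho] at h1
    exact (Agr.sandwich (b4 (e == o)) (a4 e) h1.symm).2.symm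

/-- `Om` is additive and homogeneous in `κ` -/
theorem Om_add_k {X Y : Blk S k} {c : ℤ → Fin X.n → k} {c' : ℤ → (Fin Y.n → k) →ₗ[k] k}
    (κ κ' : (Fin X.n → k) →ₗ[k] (Fin Y.n → k)) (o : Bool) (p r : ℤ) :
    Om X.x.L Y.x.L c c' (κ + κ') o p r = Om X.x.L Y.x.L c c' κ o p r + Om X.x.L Y.x.L c c' κ' o p r := by
  unfold Om
  rw [← Finset.sum_add_distrib]
  refine Finset.sum_congr rfl (fun i _ => ?_)
  rw [LinearMap.add_apply, map_add]

theorem Om_smul_k {X Y : Blk S k} {c : ℤ → Fin X.n → k} {c' : ℤ → (Fin Y.n → k) →ₗ[k] k} (t : k)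
    (κ : (Fin X.n → k) →ₗ[k] (Fin Y.n → k)) (o : Bool) (p r : ℤ) :
    Om X.x.L Y.x.L c c' (t • κ) o p r = t * Om X.x.L Y.x.L c c' κ o p r := by
  unfold Om
  rw [Finset.mul_sum]
  refine Finset.sum_congr rfl (fun i _ => ?_)
  rw [LinearMap.smul_apply, map_smul, smul_eq_mul]

/-- the vector `OmV` at translated positions -/
theorem KInv_OmV (X Y : Blk S k) (a : X.M.C) (b : Dual k Y.M.C) (o : Bool) (p r : ℤ) (y : Fin Y.n → k) :
    OmV X Y a b o p r y = ∑ i ∈ Finset.Icc (-(lenD X.x.L Y.x.L o false p r : ℤ)) (lenD X.x.L Y.x.L o true p r : ℤ),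
      (Y.cf b (stn o i r) y) • X.fn a (p + i) := by
  funext j
  unfold OmV Om
  rw [Finset.sum_apply]
  refine Finset.sum_congr rfl (fun i _ => ?_)
  rw [LinearMap.smulRight_apply, map_smul, LinearMap.proj_apply, Pi.smul_apply, smul_eq_mul, smul_eq_mul, mul_comm]

theorem KInv_OmL (X Y : Blk S k) (a : X.M.C) (b : Dual k Y.M.C) (o : Bool) (p r : ℤ) (φ : Dual k (Fin X.n → k))
    (y : Fin Y.n → k) :
    OmL X Y a b o p r φ y = ∑ i ∈ Finset.Icc (-(lenD X.x.L Y.x.L o false p r : ℤ)) (lenD X.x.L Y.x.L o true p r : ℤ),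
      φ (X.fn a (p + i)) * Y.cf b (stn o i r) y := by
  unfold OmL Om
  refine Finset.sum_congr rfl (fun i _ => ?_)
  rw [LinearMap.smulRight_apply, map_smul, smul_eq_mul]

theorem OmV_mul_fst (X Y : Blk S k) (a : X.M.C) (b : Dual k Y.M.C) (o : Bool) (p r m : ℤ) (y : Fin Y.n → k) :
    OmV X Y a b o (p + m * X.l) r y =
      (X.T ^ (-m) : (Fin X.n → k) ≃ₗ[k] (Fin X.n → k)) (OmV X Y a b o p r y) := by
  have hl : ∀ e, lenD X.x.L Y.x.L o e (p + m * X.l) r = lenD X.x.L Y.x.L o e p r := fun e =>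
    KInv_lenD (KInv_wdd X.ok.per e p m) rfl
  rw [KInv_OmV, KInv_OmV, hl, hl, map_sum]
  refine Finset.sum_congr rfl (fun i _ => ?_)
  have e1 : p + m * X.l + i = p + i + m * X.l := by ring
  rw [e1, X.fn_mul a (p + i) m, map_smul]

theorem OmV_mul_snd (X Y : Blk S k) (a : X.M.C) (b : Dual k Y.M.C) (o : Bool) (p r m : ℤ) (y : Fin Y.n → k) :
    OmV X Y a b o p (r + m * Y.l) y =
      OmV X Y a b o p r ((Y.T ^ m : (Fin Y.n → k) ≃ₗ[k] (Fin Y.n → k)) y) := by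
  have hl : ∀ e, lenD X.x.L Y.x.L o e p (r + m * Y.l) = lenD X.x.L Y.x.L o e p r := fun e =>
    KInv_lenD rfl (KInv_wdd Y.ok.per (e == o) r m)
  rw [KInv_OmV, KInv_OmV, hl, hl]
  refine Finset.sum_congr rfl (fun i _ => ?_)
  rw [KInv_stn, Y.cf_mul b (stn o i r) m]

theorem OmL_mul_fst (X Y : Blk S k) (a : X.M.C) (b : Dual k Y.M.C) (o : Bool) (p r m : ℤ)
    (φ : Dual k (Fin X.n → k)) (y : Fin Y.n → k) :
    OmL X Y a b o (p + m * X.l) r φ y =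
      OmL X Y a b o p r (φ ∘ₗ ((X.T ^ (-m) : (Fin X.n → k) ≃ₗ[k] (Fin X.n → k)) :
        (Fin X.n → k) →ₗ[k] (Fin X.n → k))) y := by
  have hl : ∀ e, lenD X.x.L Y.x.L o e (p + m * X.l) r = lenD X.x.L Y.x.L o e p r := fun e =>
    KInv_lenD (KInv_wdd X.ok.per e p m) rfl
  rw [KInv_OmL, KInv_OmL, hl, hl]
  refine Finset.sum_congr rfl (fun i _ => ?_)
  have e1 : p + m * X.l + i = p + i + m * X.l := by ring
  rw [e1, X.fn_mul a (p + i) m]
  rfl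

theorem OmL_mul_snd (X Y : Blk S k) (a : X.M.C) (b : Dual k Y.M.C) (o : Bool) (p r m : ℤ)
    (φ : Dual k (Fin X.n → k)) (y : Fin Y.n → k) :
    OmL X Y a b o p (r + m * Y.l) φ y =
      OmL X Y a b o p r φ ((Y.T ^ m : (Fin Y.n → k) ≃ₗ[k] (Fin Y.n → k)) y) := by
  have hl : ∀ e, lenD X.x.L Y.x.L o e p (r + m * Y.l) = lenD X.x.L Y.x.L o e p r := fun e =>
    KInv_lenD rfl (KInv_wdd Y.ok.per (e == o) r m)
  rw [KInv_OmL, KInv_OmL, hl, hl]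
  refine Finset.sum_congr rfl (fun i _ => ?_)
  rw [KInv_stn, Y.cf_mul b (stn o i r) m]

end StrAlg
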