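import Pool.Agent.Lib.MP_b9fd58_lc.KBas
import Pool.Agent.Lib.MP_b9fd58_lc.KInv

/-!
# Stream K: values of a coded element and coefficients of a coded functional at all positions
-/

set_option autoImplicit false

namespace StrAlg

open Module

variable {D : Dat} {k : Type} [Field k] {S : Sides D}

theorem KAv_pow {b : BC D k} (h : bcOk S b) (hb : b.1 = true) (m : ℕ) (v : Fin (bcN b) → k) :
    (bcT b ^ m) v = ((matOf (bcN b) (bcM b)) ^ m).mulVec v := by
  induction m generalizing v with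
  | zero => simp
  | succ m ih =>
    rw [pow_succ, LinearEquiv.mul_apply, ih, bcT_apply h hb, Matrix.mulVec_mulVec, ← pow_succ]

theorem KAv_pow_symm {b : BC D k} (h : bcOk S b) (hb : b.1 = true) (m : ℕ) (v : Fin (bcN b) → k) :
    ((bcT b)⁻¹ ^ m) v = ((matOf (bcN b) (bcM' b)) ^ m).mulVec v := by
  induction m generalizing v with
  | zero => simp
  | succ m ih =>
    rw [pow_succ, LinearEquiv.mul_apply, ih]
    have h1 : (bcT b)⁻¹ v = (bcT b).symm v := rfl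
    rw [h1, bcT_symm_apply h hb, Matrix.mulVec_mulVec, ← pow_succ]

theorem KAv_dot {b : BC D k} (v w : Fin (bcN b) → k) (A : Matrix (Fin (bcN b)) (Fin (bcN b)) k) :
    ∑ j, v j * (A.mulVec w) j = ∑ j, (Matrix.vecMul v A) j * w j :=
  Matrix.dotProduct_mulVec v A w

theorem KAv_blk_l {b : BC D k} (h : bcOk S b) (hb : b.1 = true) : (bcBlk S b h).l = bcP b := by
  show bcL b = bcP b
  unfold bcL
  rw [if_pos hb]

theorem fn_ecElt_dom {t : EC D k} (h : bcOk S t.1) {p : ℕ} (hp : p < bcP t.1) :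
    (bcBlk S t.1 h).fn (ecElt S t h) (p : ℤ) = (show Fin (bcBlk S t.1 h).n → k from fun j => ent t.2 (p * bcN t.1 + j)) := by
  rw [← blkEv_apply]
  unfold ecElt
  rw [map_sum, Finset.sum_eq_single p]
  · rw [blkEv_apply, fn_iota_dom h hp hp, if_pos rfl]
  · intro q hq hqp
    rw [blkEv_apply, fn_iota_dom h (Finset.mem_range.1 hq) hp, if_neg (Ne.symm hqp)]
  · intro hq
    exact absurd (Finset.mem_range.2 hp) hq

theorem KAv_emod {P : ℕ} (hP : 0 < P) (p : ℤ) :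
    p = (((p % (P : ℤ)).toNat : ℕ) : ℤ) + (p / (P : ℤ)) * (P : ℤ) ∧ (p % (P : ℤ)).toNat < P := by
  have hP' : (0 : ℤ) < P := by exact_mod_cast hP
  have h1 : 0 ≤ p % (P : ℤ) := Int.emod_nonneg _ hP'.ne'
  have h2 : p % (P : ℤ) < P := Int.emod_lt_of_pos _ hP'
  have h3 := Int.emod_add_mul_ediv p (P : ℤ)
  refine ⟨?_, ?_⟩
  · rw [Int.toNat_of_nonneg h1]
    linarith [mul_comm (P : ℤ) (p / (P : ℤ))]
  · omega

theorem fn_ecElt {t : EC D k} (h : bcOk S t.1) {p : ℤ} (hp : scIn (bcS t.1) p) :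
    (bcBlk S t.1 h).fn (ecElt S t h) p = vecOf (bcN t.1) (av t p) := by
  rcases hb : t.1.1 with _ | _
  · -- finite
    have h1 := (scIn_fin hb p).1 hp
    obtain ⟨q, rfl⟩ := Int.eq_ofNat_of_zero_le h1.1
    have hq : q < bcP t.1 := by exact_mod_cast h1.2
    rw [fn_ecElt_dom h hq]
    unfold av
    rw [if_neg (by rw [hb]; decide), if_pos h1, vecOf_row]
    rfl
  · -- band
    have hP := bcP_pos h.1
    obtain ⟨h2, h3⟩ := KAv_emod hP p
    have h4 : (bcBlk S t.1 h).fn (ecElt S t h) p =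
        ((bcBlk S t.1 h).T ^ (-(p / (bcP t.1 : ℤ))) : (Fin (bcBlk S t.1 h).n → k) ≃ₗ[k] (Fin (bcBlk S t.1 h).n → k))
          ((bcBlk S t.1 h).fn (ecElt S t h) (((p % (bcP t.1 : ℤ)).toNat : ℕ) : ℤ)) := by
      rw [← Blk.fn_mul, KAv_blk_l h hb, ← h2]
    rw [h4, fn_ecElt_dom h h3]
    unfold av
    rw [if_pos hb]
    by_cases h0 : 0 ≤ p
    · rw [if_pos h0, vecOf_mv_iter, vecOf_row, ← KAv_pow_symm h hb]
      have h5 : 0 ≤ p / (bcP t.1 : ℤ) := Int.ediv_nonneg h0 (by positivity)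
      have h6 : -(p / (bcP t.1 : ℤ)) = -(((p / (bcP t.1 : ℤ)).toNat : ℕ) : ℤ) := by
        rw [Int.toNat_of_nonneg h5]
      rw [h6, zpow_neg, zpow_natCast, ← inv_pow]
      rfl
    · rw [if_neg h0, vecOf_mv_iter, vecOf_row, ← KAv_pow h hb]
      have h5 : 0 ≤ -(p / (bcP t.1 : ℤ)) := by
        have : p / (bcP t.1 : ℤ) < 0 := Int.ediv_neg_of_neg_of_pos (by omega) (by exact_mod_cast hP)
        omega
      have h6 : -(p / (bcP t.1 : ℤ)) = (((-(p / (bcP t.1 : ℤ))).toNat : ℕ) : ℤ) := by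
        rw [Int.toNat_of_nonneg h5]
      conv_lhs => rw [h6, zpow_natCast]
      rfl

theorem cf_ecFnl_dom {t : EC D k} (h : bcOk S t.1) {p : ℕ} (hp : p < bcP t.1) (v : Fin (bcBlk S t.1 h).n → k) :
    (bcBlk S t.1 h).cf (ecFnl S t h) (p : ℤ) v = ∑ j : Fin (bcBlk S t.1 h).n, ent t.2 (p * bcN t.1 + (j : ℕ)) * v j := by
  show (ecFnl S t h) ((bcBlk S t.1 h).iota (p : ℤ) v) = _
  unfold ecFnl
  rw [LinearMap.sum_apply, Finset.sum_eq_single p]
  · rw [LinearMap.sum_apply]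
    refine Finset.sum_congr rfl (fun j _ => ?_)
    rw [LinearMap.smul_apply, LinearMap.comp_apply, blkEv_apply, fn_iota_dom h hp hp, if_pos rfl]
    rfl
  · intro q hq hqp
    rw [LinearMap.sum_apply]
    refine Finset.sum_eq_zero (fun j _ => ?_)
    rw [LinearMap.smul_apply, LinearMap.comp_apply, blkEv_apply, fn_iota_dom h hp (Finset.mem_range.1 hq),
      if_neg hqp, map_zero, smul_zero]
  · intro hq
    exact absurd (Finset.mem_range.2 hp) hq

theorem cf_ecFnl {t : EC D k} (h : bcOk S t.1) {p : ℤ} (hp : scIn (bcS t.1) p) (v : Fin (bcBlk S t.1 h).n → k) :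
    (bcBlk S t.1 h).cf (ecFnl S t h) p v = ∑ j : Fin (bcBlk S t.1 h).n, ent (bv t p) (j : ℕ) * v j := by
  rcases hb : t.1.1 with _ | _
  · -- finite
    have h1 := (scIn_fin hb p).1 hp
    obtain ⟨q, rfl⟩ := Int.eq_ofNat_of_zero_le h1.1
    have hq : q < bcP t.1 := by exact_mod_cast h1.2
    rw [cf_ecFnl_dom h hq]
    unfold bv
    rw [if_neg (by rw [hb]; decide), if_pos h1]
    refine Finset.sum_congr rfl (fun j _ => ?_)
    have h5 := congrFun (vecOf_row (bcN t.1) t.2 q) j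
    have h6 : ent (row (bcN t.1) t.2 ((q : ℤ)).toNat) (j : ℕ) = ent t.2 (q * bcN t.1 + (j : ℕ)) := h5
    rw [h6]
  · -- band
    have hP := bcP_pos h.1
    obtain ⟨h2, h3⟩ := KAv_emod hP p
    have h4 : (bcBlk S t.1 h).cf (ecFnl S t h) p v =
        (bcBlk S t.1 h).cf (ecFnl S t h) (((p % (bcP t.1 : ℤ)).toNat : ℕ) : ℤ)
        (((bcBlk S t.1 h).T ^ (p / (bcP t.1 : ℤ)) : (Fin (bcBlk S t.1 h).n → k) ≃ₗ[k] (Fin (bcBlk S t.1 h).n → k)) v) := by
      rw [← Blk.cf_mul, KAv_blk_l h hb, ← h2]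
    rw [h4, cf_ecFnl_dom h h3]
    unfold bv
    rw [if_pos hb]
    have hrow : ∀ j : Fin (bcN t.1), ent t.2 ((p % (bcP t.1 : ℤ)).toNat * bcN t.1 + (j : ℕ)) =
        vecOf (bcN t.1) (row (bcN t.1) t.2 (p % (bcP t.1 : ℤ)).toNat) j :=
      fun j => (congrFun (vecOf_row (bcN t.1) t.2 _) j).symm
    by_cases h0 : 0 ≤ p
    · rw [if_pos h0]
      have h5 : 0 ≤ p / (bcP t.1 : ℤ) := Int.ediv_nonneg h0 (by positivity)
      have h6 : (p / (bcP t.1 : ℤ)) = (((p / (bcP t.1 : ℤ)).toNat : ℕ) : ℤ) := by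
        rw [Int.toNat_of_nonneg h5]
      have h7 : ((bcBlk S t.1 h).T ^ (p / (bcP t.1 : ℤ)) : (Fin (bcBlk S t.1 h).n → k) ≃ₗ[k] (Fin (bcBlk S t.1 h).n → k)) v
          = (matOf (bcN t.1) (bcM t.1) ^ (p / (bcP t.1 : ℤ)).toNat).mulVec v := by
        rw [← KAv_pow h hb]
        conv_lhs => rw [h6, zpow_natCast]
        rfl
      rw [h7]
      have h8 := KAv_dot (b := t.1) (vecOf (bcN t.1) (row (bcN t.1) t.2 (p % (bcP t.1 : ℤ)).toNat)) v
        (matOf (bcN t.1) (bcM t.1) ^ (p / (bcP t.1 : ℤ)).toNat)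
      rw [← vecOf_vm_iter] at h8
      refine Eq.trans ?_ h8
      refine Finset.sum_congr rfl (fun j _ => ?_)
      exact congrArg (fun z => z * _) (hrow j)
    · rw [if_neg h0]
      have h5 : 0 ≤ -(p / (bcP t.1 : ℤ)) := by
        have : p / (bcP t.1 : ℤ) < 0 := Int.ediv_neg_of_neg_of_pos (by omega) (by exact_mod_cast hP)
        omega
      have h6 : (p / (bcP t.1 : ℤ)) = -(((-(p / (bcP t.1 : ℤ))).toNat : ℕ) : ℤ) := by
        rw [Int.toNat_of_nonneg h5]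
        ring
      have h7 : ((bcBlk S t.1 h).T ^ (p / (bcP t.1 : ℤ)) : (Fin (bcBlk S t.1 h).n → k) ≃ₗ[k] (Fin (bcBlk S t.1 h).n → k)) v
          = (matOf (bcN t.1) (bcM' t.1) ^ (-(p / (bcP t.1 : ℤ))).toNat).mulVec v := by
        rw [← KAv_pow_symm h hb]
        conv_lhs => rw [h6, zpow_neg, zpow_natCast, ← inv_pow]
        rfl
      rw [h7]
      have h8 := KAv_dot (b := t.1) (vecOf (bcN t.1) (row (bcN t.1) t.2 (p % (bcP t.1 : ℤ)).toNat)) v
        (matOf (bcN t.1) (bcM' t.1) ^ (-(p / (bcP t.1 : ℤ))).toNat)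
      rw [← vecOf_vm_iter] at h8
      refine Eq.trans ?_ h8
      refine Finset.sum_congr rfl (fun j _ => ?_)
      exact congrArg (fun z => z * _) (hrow j)

end StrAlg
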