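import Pool.Agent.Lib.MP_b9fd58_lc.KDefs

/-!
# Stream K: comparison of ultimately periodic words
-/

set_option autoImplicit false

namespace StrAlg

theorem WPer.mono {u : Wd} {N N' B : ℕ} (h : WPer u N B) (hN : N ≤ N') : WPer u N' B :=
  fun n hn => h n (hN.trans hn)

/-- after END only ENDs -/
theorem WNorm.one {u : Wd} (h : WNorm u) {n m : ℕ} (hn : u n = 1) (hm : n ≤ m) : u m = 1 := by
  induction m, hm using Nat.le_induction with
  | base => exact hn
  | succ m _ ih => exact h m ih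

/-- two words that agree up to `N + B` and have period `B` from `N` on are equal -/
theorem eq_of_agree {u v : Wd} {N B : ℕ} (hB : 0 < B) (hu : WPer u N B) (hv : WPer v N B)
    (h : ∀ n < N + B, u n = v n) : u = v := by
  funext n
  induction n using Nat.strong_induction_on with
  | _ n ih =>
    by_cases hn : n < N + B
    · exact h n hn
    · have h1 := hu (n - B) (by omega)
      have h2 := hv (n - B) (by omega)
      have h3 : n - B + B = n := by omega
      rw [h3] at h1 h2
      rw [h1, h2]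
      exact ih (n - B) (by omega)

theorem eq_iff_agree {u v : Wd} {N B K : ℕ} (hB : 0 < B) (hu : WPer u N B) (hv : WPer v N B) (hK : N + B ≤ K) :
    u = v ↔ ∀ n < K, u n = v n :=
  ⟨fun h n _ => by rw [h], fun h => eq_of_agree hB hu hv (fun n hn => h n (by omega))⟩

/-- `Fle` by the first index where the words differ or end -/
theorem Fle_iff {u v : Wd} (hu : WNorm u) (hv : WNorm v) :
    Fle u v ↔ ∃ n, (∀ m < n, u m = v m ∧ u m ≠ 1) ∧ (u n < v n ∨ (u n = 1 ∧ v n = 1)) := by
  constructor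
  · rintro ⟨h1, n, hn⟩
    classical
    have hex : ∃ n, ¬ Agr v u (n + 1) := ⟨n, fun h => hn (fun i hi => h i (by omega))⟩
    set m := Nat.find hex with hm
    have h2 : ¬ Agr v u (m + 1) := Nat.find_spec hex
    have h3 : ∀ i < m, v i = u i ∧ v i ≠ 1 := by
      intro i hi
      have := Nat.find_min hex hi
      rw [not_not] at this
      exact this i (by omega)
    refine ⟨m, fun i hi => ⟨(h3 i hi).1.symm, (h3 i hi).1 ▸ (h3 i hi).2⟩, ?_⟩
    have h4 : ¬ (v m = u m ∧ v m ≠ 1) := by
      intro h4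
      apply h2
      intro i hi
      rcases Nat.lt_succ_iff_lt_or_eq.1 hi with h | h
      · exact h3 i h
      · rw [h]; exact h4
    have h5 : u m ≤ v m := h1 m (fun i hi => (h3 i hi).1.symm)
    rcases lt_or_eq_of_le h5 with h6 | h6
    · exact Or.inl h6
    · right
      have : v m = 1 := by
        by_contra h7
        exact h4 ⟨h6.symm, h7⟩
      exact ⟨h6.trans this, this⟩
  · rintro ⟨n, h1, h2⟩
    rcases h2 with h2 | ⟨h2, h3⟩
    · refine ⟨WLe_of_lt (fun i hi => (h1 i hi).1) h2, n + 1, fun h => ?_⟩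
      exact h2.ne (h n (by omega)).1.symm
    · refine ⟨WLe.of_eq ?_, n + 1, fun h => (h n (by omega)).2 h3⟩
      funext i
      by_cases hi : i < n
      · exact (h1 i hi).1
      · rw [hu.one h2 (by omega), hv.one h3 (by omega)]

/-- `Fle` is decided by the first `K` letters -/
theorem Fle_iff_fleB {u v : Wd} (hu : WNorm u) (hv : WNorm v) {N B K : ℕ} (hB : 0 < B) (pu : WPer u N B)
    (pv : WPer v N B) (hK : N + B ≤ K) : Fle u v ↔ fleB K u v := by
  rw [Fle_iff hu hv]
  constructor
  · rintro ⟨n, h1, h2⟩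
    by_cases hn : n < K
    · exact ⟨n, hn, h1, h2⟩
    · exfalso
      have e1 : ∀ i < N + B, u i = v i := fun i hi => (h1 i (by omega)).1
      have e2 := eq_of_agree hB pu pv e1
      rcases h2 with h2 | ⟨h2, h3⟩
      · rw [e2] at h2; exact lt_irrefl _ h2
      · have h4 := pu (n - B) (by omega)
        have h5 : n - B + B = n := by omega
        rw [h5, h2] at h4
        exact (h1 (n - B) (by omega)).2 h4.symm
  · rintro ⟨n, _, h1, h2⟩
    exact ⟨n, h1, h2⟩

theorem Fle_shift_aux {u u' l : Wd} {N B : ℕ} (h1 : ∀ n, u' (n + B) = u n)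
    (h2 : ∀ n < N + B, u' n = u n) (hl : WPer l N B) :
    (∃ i < N + B, u i ≠ l i ∧ u' i = u i ∧ ∀ m < i, u m = l m ∧ u' m = u m) ∨
    ((∀ i < N + B, u i = l i) ∧ ∀ n, l (n + B) = l n) := by
  classical
  by_cases h : ∃ i, i < N + B ∧ u i ≠ l i
  · left
    set i := Nat.find h with hi
    obtain ⟨h3, h4⟩ := Nat.find_spec h
    refine ⟨i, h3, h4, h2 i h3, fun m hm => ?_⟩
    have h5 := Nat.find_min h hm
    push Not at h5
    exact ⟨h5 (by omega), h2 m (by omega)⟩
  · right
    push Not at h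
    refine ⟨h, fun n => ?_⟩
    by_cases hn : N ≤ n
    · exact hl n hn
    · have e1 := h (n + B) (by omega)
      have e2 := h n (by omega)
      rw [← e1, ← e2, ← h1 n]
      exact (h2 (n + B) (by omega)).symm

theorem WLe_shift_iff {u u' l : Wd} {N B : ℕ} (h1 : ∀ n, u' (n + B) = u n)
    (h2 : ∀ n < N + B, u' n = u n) (e1 : ∀ i < N + B, u i = l i) (e2 : ∀ n, l (n + B) = l n) :
    (WLe u' l ↔ WLe u l) ∧ (WLe l u' ↔ WLe l u) ∧ (∀ n, Agr l u' (n + B) → Agr l u n) ∧
      (∀ n, Agr u' l (n + B) → Agr u l n) ∧ ((∀ n, Agr l u n) → ∀ n, Agr l u' n) ∧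
      ((∀ n, Agr u l n) → ∀ n, Agr u' l n) := by
  have e3 : ∀ i < B, u' i = l i := fun i hi => (h2 i (by omega)).trans (e1 i (by omega))
  have key : ∀ (P : Fin 3 → Fin 3 → Prop) n, (∀ i < n + B, P (u' i) (l i)) → ∀ i < n, P (u i) (l i) := by
    intro P n h i hi
    have := h (i + B) (by omega)
    rwa [h1, e2] at this
  refine ⟨⟨fun h n hn => ?_, fun h n hn => ?_⟩, ⟨fun h n hn => ?_, fun h n hn => ?_⟩, ?_, ?_, ?_, ?_⟩
  · have := h (n + B) (fun i hi => ?_)
    · rwa [h1, e2] at this
    · by_cases hiB : i < B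
      · exact e3 i hiB
      · obtain ⟨j, rfl⟩ : ∃ j, i = j + B := ⟨i - B, by omega⟩
        rw [h1, e2]
        exact hn j (by omega)
  · by_cases hnB : n < B
    · rw [e3 n hnB]
    · obtain ⟨j, rfl⟩ : ∃ j, n = j + B := ⟨n - B, by omega⟩
      rw [h1, e2]
      apply h
      intro i hi
      have := hn (i + B) (by omega)
      rwa [h1, e2] at this
  · have := h (n + B) (fun i hi => ?_)
    · rwa [h1, e2] at this
    · by_cases hiB : i < B
      · exact (e3 i hiB).symm
      · obtain ⟨j, rfl⟩ : ∃ j, i = j + B := ⟨i - B, by omega⟩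
        rw [h1, e2]
        exact hn j (by omega)
  · by_cases hnB : n < B
    · rw [e3 n hnB]
    · obtain ⟨j, rfl⟩ : ∃ j, n = j + B := ⟨n - B, by omega⟩
      rw [h1, e2]
      apply h
      intro i hi
      have := hn (i + B) (by omega)
      rwa [h1, e2] at this
  · intro n h i hi
    have := h (i + B) (by omega)
    rwa [h1, e2] at this
  · intro n h i hi
    have := h (i + B) (by omega)
    rwa [h1, e2] at this
  · intro h n i hi
    induction i using Nat.strong_induction_on with
    | _ i ih =>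
      by_cases hiB : i < B
      · rw [e3 i hiB]
        exact ⟨rfl, (h (i + 1) i (by omega)).2⟩
      · obtain ⟨j, rfl⟩ : ∃ j, i = j + B := ⟨i - B, by omega⟩
        rw [h1, e2]
        exact h (j + 1) j (by omega)
  · intro h n i hi
    by_cases hiB : i < B
    · have h4 := h (i + 1) i (by omega)
      rw [e3 i hiB]
      exact ⟨rfl, h4.1 ▸ h4.2⟩
    · obtain ⟨j, rfl⟩ : ∃ j, i = j + B := ⟨i - B, by omega⟩
      rw [h1, e2]
      exact h (j + 1) j (by omega)

theorem WLe_iff_of_diff {u v : Wd} {i : ℕ} (h : ∀ m < i, u m = v m) (hi : u i ≠ v i) : WLe u v ↔ u i < v i := by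
  constructor
  · intro h1
    exact lt_of_le_of_ne (h1 i h) hi
  · intro h1
    exact WLe_of_lt h h1

theorem Fle_iff_of_diff {u v : Wd} {i : ℕ} (h : ∀ m < i, u m = v m) (hi : u i ≠ v i) : Fle u v ↔ u i < v i := by
  unfold Fle
  rw [WLe_iff_of_diff h hi]
  exact ⟨fun h => h.1, fun h1 => ⟨h1, i + 1, fun h2 => hi (h2 i (by omega)).1.symm⟩⟩

/-- comparison of `l` (period `B` from `N` on) with `u'`, where `u'` is obtained from `u` by inserting one more period:
Case 1: `u`, `l` differ before `N + B`: same first difference. Case 2: they agree up to `N + B`: then `l (n + B) = l n`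
for ALL `n`, so the first difference is shifted by `B`. -/
theorem Fle_shift_left {u u' l : Wd} {N B : ℕ} (hB : 0 < B) (h1 : ∀ n, u' (n + B) = u n)
    (h2 : ∀ n < N + B, u' n = u n) (hl : WPer l N B) : Fle u' l ↔ Fle u l := by
  rcases Fle_shift_aux h1 h2 hl with ⟨i, _, h4, h5, h6⟩ | ⟨e1, e2⟩
  · rw [Fle_iff_of_diff (fun m hm => (h6 m hm).1) h4,
      Fle_iff_of_diff (fun m hm => (h6 m hm).2.trans (h6 m hm).1) (h5 ▸ h4), h5]
  · obtain ⟨k1, _, k3, _, k5, _⟩ := WLe_shift_iff h1 h2 e1 e2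
    unfold Fle
    rw [k1]
    refine and_congr_right fun _ => ?_
    constructor
    · rintro ⟨n, hn⟩
      by_contra h
      push Not at h
      exact hn (k5 h n)
    · rintro ⟨n, hn⟩
      exact ⟨n + B, fun h => hn (k3 n h)⟩

theorem Fle_shift_right {u u' l : Wd} {N B : ℕ} (hB : 0 < B) (h1 : ∀ n, u' (n + B) = u n)
    (h2 : ∀ n < N + B, u' n = u n) (hl : WPer l N B) : Fle l u' ↔ Fle l u := by
  rcases Fle_shift_aux h1 h2 hl with ⟨i, _, h4, h5, h6⟩ | ⟨e1, e2⟩
  · rw [Fle_iff_of_diff (fun m hm => (h6 m hm).1.symm) h4.symm,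
      Fle_iff_of_diff (fun m hm => ((h6 m hm).2.trans (h6 m hm).1).symm) (h5 ▸ h4.symm), h5]
  · obtain ⟨_, k2, _, k4, _, k6⟩ := WLe_shift_iff h1 h2 e1 e2
    unfold Fle
    rw [k2]
    refine and_congr_right fun _ => ?_
    constructor
    · rintro ⟨n, hn⟩
      by_contra h
      push Not at h
      exact hn (k6 h n)
    · rintro ⟨n, hn⟩
      exact ⟨n + B, fun h => hn (k4 n h)⟩

end StrAlg
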