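import Pool.Agent.Lib.MP_b9fd58_lc.KStr
import Pool.Agent.Lib.MP_b9fd58_lc.KWd

/-!
# Stream K: `Ord` and `Al` are decided by bounded comparison; shift of positions by a large number
-/

set_option autoImplicit false

namespace StrAlg

variable {D : Dat} {k : Type} [Field k] {S : Sides D}

/-- bounded comparison suffices (positions at most `10 B`) -/
theorem ordS_iff_ordC {x y : SC D} (hx : scOk S x) (hy : scOk S y) {B : ℕ} (bx : scBig x B) (by' : scBig y B)
    (o : Bool) {p q : ℤ} (hp : p.natAbs ≤ 10 * B) (hq : q.natAbs ≤ 10 * B) :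
    ordS x y o p q ↔ ordC (20 * B) x y o p q := by
  have hB : 0 < B := bx.1
  unfold ordS ordC
  refine and_congr_right fun h1 => and_congr_right fun h2 => and_congr_right fun _ =>
    and_congr_right fun _ => forall_congr' fun e => ?_
  exact Fle_iff_fleB (N := 11 * B + 2) (scWdd_norm hy _ h2) (scWdd_norm hx _ h1) hB
    (scWdd_per by' _ (by omega)) (scWdd_per bx _ (by omega)) (by omega)

theorem alS_iff_alC {x y : SC D} (hx : scOk S x) (hy : scOk S y) {B : ℕ} (bx : scBig x B) (by' : scBig y B)
    {p q : ℤ} (hp : p.natAbs ≤ 10 * B) (hq : q.natAbs ≤ 10 * B) : alS x y p q ↔ alC (20 * B) x y p q := by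
  have hB : 0 < B := bx.1
  have _ := hx
  have _ := hy
  unfold alS alC
  refine and_congr_right fun _ => and_congr_right fun _ => and_congr_right fun _ =>
    forall_congr' fun s => ?_
  exact eq_iff_agree (N := 11 * B + 2) hB (scWdd_per bx _ (by omega)) (scWdd_per by' _ (by omega)) (by omega)

/-- the positions `a`, `b` of `w` look alike up to the distance `5 B`; the word at `a` is the word at `b` or it is obtained
by inserting one period -/
def KOrdB_sim (w : SC D) (B : ℕ) (a b : ℤ) : Prop :=
  scF w a = scF w b ∧ ∀ e, (scWdd w e a = scWdd w e b) ∨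
    ((∀ n, scWdd w e a (n + B) = scWdd w e b n) ∧ ∀ n < 4 * B + B, scWdd w e a n = scWdd w e b n)

theorem KOrdB_snd {x w : SC D} {B : ℕ} (bx : scBig x B) (o : Bool) {p a b : ℤ} (h : KOrdB_sim w B a b)
    (hp : p.natAbs ≤ B) : ordS x w o p a ↔ ordS x w o p b := by
  have hB : 0 < B := bx.1
  have h1 : scIn w a ↔ scIn w b := by unfold scIn; rw [h.1]
  have h2 : scV w a = scV w b := by unfold scV; rw [h.1]
  have h3 : scR w a = scR w b := by unfold scR; rw [h.1]
  unfold ordS
  rw [h1, h2, h3]
  refine and_congr_right fun _ => and_congr_right fun _ => and_congr_right fun _ =>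
    and_congr_right fun _ => forall_congr' fun e => ?_
  rcases h.2 (e == o) with h4 | ⟨h4, h5⟩
  · rw [h4]
  · exact Fle_shift_left hB h4 h5 (scWdd_per bx _ (by omega))

theorem KOrdB_fst {w y : SC D} {B : ℕ} (by' : scBig y B) (o : Bool) {a b r : ℤ} (h : KOrdB_sim w B a b)
    (hr : r.natAbs ≤ B) : ordS w y o a r ↔ ordS w y o b r := by
  have hB : 0 < B := by'.1
  have h1 : scIn w a ↔ scIn w b := by unfold scIn; rw [h.1]
  have h2 : scV w a = scV w b := by unfold scV; rw [h.1]
  have h3 : scR w a = scR w b := by unfold scR; rw [h.1]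
  unfold ordS
  rw [h1, h2, h3]
  refine and_congr_right fun _ => and_congr_right fun _ => and_congr_right fun _ =>
    and_congr_right fun _ => forall_congr' fun e => ?_
  rcases h.2 e with h4 | ⟨h4, h5⟩
  · rw [h4]
  · exact Fle_shift_right hB h4 h5 (scWdd_per by' _ (by omega))

theorem KOrdB_t (c : SC D) (p : ℤ) (n : ℕ) : scWdd c true p n = scLam c (p + n) := by
  simp [scWdd, scLt, stn]

theorem KOrdB_f (c : SC D) (p : ℤ) (n : ℕ) : scWdd c false p n = Fin.rev (scLam c (p - n - 1)) := by
  simp [scWdd, scLt, stn]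

theorem KOrdB_right {w : SC D} {B : ℕ} (bw : scBig w B) {q : ℤ} (hq : 8 * (B : ℤ) ≤ q) :
    KOrdB_sim w B (q + B) q := by
  have hB : 0 < B := bw.1
  refine ⟨scF_per_right bw (by omega), fun e => ?_⟩
  cases e
  · right
    refine ⟨fun n => ?_, fun n hn => ?_⟩
    · rw [KOrdB_f, KOrdB_f]
      congr 2
      push_cast
      ring
    · rw [KOrdB_f, KOrdB_f]
      have h1 := scLam_per_right bw (p := q - n - 1) (by omega)
      rw [← h1]
      congr 2
      ring
  · left
    funext n
    rw [KOrdB_t, KOrdB_t]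
    have h1 := scLam_per_right bw (p := q + n) (by omega)
    rw [← h1]
    congr 1
    ring

theorem KOrdB_left {w : SC D} {B : ℕ} (bw : scBig w B) {q : ℤ} (hq : q ≤ -(8 * (B : ℤ))) :
    KOrdB_sim w B (q - B) q := by
  have hB : 0 < B := bw.1
  refine ⟨scF_per_left bw (by omega), fun e => ?_⟩
  cases e
  · left
    funext n
    rw [KOrdB_f, KOrdB_f]
    have h1 := scLam_per_left bw (p := q - n - 1) (by omega)
    rw [← h1]
    congr 2
    ring
  · right
    refine ⟨fun n => ?_, fun n hn => ?_⟩
    · rw [KOrdB_t, KOrdB_t]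
      congr 1
      push_cast
      ring
    · rw [KOrdB_t, KOrdB_t]
      have h1 := scLam_per_left bw (p := q + n) (by omega)
      rw [← h1]
      congr 1
      ring

/-- in the second argument (words of `w` below words of `x`): shift by `B` far to the right or left -/
theorem ordS_shift_snd {x w : SC D} {B : ℕ} (bx : scBig x B) (bw : scBig w B) (o : Bool) {p q : ℤ}
    (hp : p.natAbs ≤ B) (hq : 8 * (B : ℤ) ≤ q) : ordS x w o p (q + B) ↔ ordS x w o p q :=
  KOrdB_snd bx o (KOrdB_right bw hq) hp

theorem ordS_shift_snd' {x w : SC D} {B : ℕ} (bx : scBig x B) (bw : scBig w B) (o : Bool) {p q : ℤ}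
    (hp : p.natAbs ≤ B) (hq : q ≤ -(8 * (B : ℤ))) : ordS x w o p (q - B) ↔ ordS x w o p q :=
  KOrdB_snd bx o (KOrdB_left bw hq) hp

/-- in the first argument -/
theorem ordS_shift_fst {w y : SC D} {B : ℕ} (bw : scBig w B) (by' : scBig y B) (o : Bool) {q r : ℤ}
    (hr : r.natAbs ≤ B) (hq : 8 * (B : ℤ) ≤ q) : ordS w y o (q + B) r ↔ ordS w y o q r :=
  KOrdB_fst by' o (KOrdB_right bw hq) hr

theorem ordS_shift_fst' {w y : SC D} {B : ℕ} (bw : scBig w B) (by' : scBig y B) (o : Bool) {q r : ℤ}
    (hr : r.natAbs ≤ B) (hq : q ≤ -(8 * (B : ℤ))) : ordS w y o (q - B) r ↔ ordS w y o q r :=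
  KOrdB_fst by' o (KOrdB_left bw hq) hr

/-- every position of `w` can be moved into `[-10B, 10B]` without changing any relation with positions `|p| ≤ B` -/
theorem exists_small_pos {w : SC D} {B : ℕ} (bw : scBig w B) (q : ℤ) :
    ∃ q' : ℤ, q'.natAbs ≤ 10 * B ∧
      (∀ (x : SC D) (o : Bool) (p : ℤ), scBig x B → p.natAbs ≤ B → (ordS x w o p q' ↔ ordS x w o p q)) ∧
      (∀ (y : SC D) (o : Bool) (r : ℤ), scBig y B → r.natAbs ≤ B → (ordS w y o q' r ↔ ordS w y o q r)) := by
  have hB : 0 < B := bw.1
  induction hm : q.natAbs using Nat.strong_induction_on generalizing q with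
  | _ m ih =>
    rcases le_or_gt q.natAbs (10 * B) with h1 | h1
    · exact ⟨q, h1, fun _ _ _ _ _ => Iff.rfl, fun _ _ _ _ _ => Iff.rfl⟩
    · rcases le_or_gt 0 q with h2 | h2
      · obtain ⟨q', h3, h4, h5⟩ := ih (q - B).natAbs (by omega) (q - B) rfl
        have e : q - B + B = q := by ring
        refine ⟨q', h3, fun x o p bx hp => ?_, fun y o r bY hr => ?_⟩
        · rw [h4 x o p bx hp]
          have h6 := ordS_shift_snd bx bw o (p := p) (q := q - B) hp (by omega)
          rw [e] at h6
          exact h6.symm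
        · rw [h5 y o r bY hr]
          have h6 := ordS_shift_fst bw bY o (q := q - B) (r := r) hr (by omega)
          rw [e] at h6
          exact h6.symm
      · obtain ⟨q', h3, h4, h5⟩ := ih (q + B).natAbs (by omega) (q + B) rfl
        have e : q + B - B = q := by ring
        refine ⟨q', h3, fun x o p bx hp => ?_, fun y o r bY hr => ?_⟩
        · rw [h4 x o p bx hp]
          have h6 := ordS_shift_snd' bx bw o (p := p) (q := q + B) hp (by omega)
          rw [e] at h6
          exact h6.symm
        · rw [h5 y o r bY hr]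
          have h6 := ordS_shift_fst' bw bY o (q := q + B) (r := r) hr (by omega)
          rw [e] at h6
          exact h6.symm

end StrAlg
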