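import Pool.Agent.Lib.MP_b9fd58_lc.KAv
import Pool.Agent.Lib.MP_b9fd58_lc.KOrdB

/-!
# Stream K: `Om` for coded blocks is given by the matrix `omC`
-/

set_option autoImplicit false

namespace StrAlg

open Module

variable {D : Dat} {k : Type} [Field k] {S : Sides D}

/-- a bounded strict comparison gives the length of the match -/
theorem KOm_len {x y : SC D} (hx : scOk S x) (hy : scOk S y) {K : ℕ} {o e : Bool} {p r : ℤ}
    (h : fleB K (scWdd y (e == o) r) (scWdd x e p)) :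
    lenD (scLn S x hx) (scLn S y hy) o e p r < K ∧
      ∀ i : ℕ, (∀ m < i, agC x y o e p r m) ↔ i ≤ lenD (scLn S x hx) (scLn S y hy) o e p r := by
  obtain ⟨n, hn, h1, h2⟩ := h
  have hA : AgD (scLn S x hx) (scLn S y hy) o e p r n := by
    intro m hm
    have := h1 m hm
    refine ⟨this.1.symm, ?_⟩
    show scWdd x e p m ≠ 1
    rw [← this.1]; exact this.2
  have hB : ¬ AgD (scLn S x hx) (scLn S y hy) o e p r (n + 1) := by
    intro h
    have h3 := h n (by omega)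
    have h4 : scWdd x e p n = scWdd y (e == o) r n := h3.1
    have h5 : scWdd x e p n ≠ 1 := h3.2
    rcases h2 with h2 | h2
    · rw [h4] at h2; exact lt_irrefl _ h2
    · exact h5 h2.2
  have hl : lenD (scLn S x hx) (scLn S y hy) o e p r = n := lenD_eq hA hB
  rw [hl]
  refine ⟨hn, fun i => ?_⟩
  have hiff : (∀ m < i, agC x y o e p r m) ↔ AgD (scLn S x hx) (scLn S y hy) o e p r i := Iff.rfl
  rw [hiff]
  constructor
  · intro h
    by_contra h6
    exact hB (h.mono (by omega))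
  · intro h
    exact hA.mono h

/-- the positions reached by a match -/
theorem KOm_pos {x y : SC D} (hx : scOk S x) (hy : scOk S y) {o e : Bool} {p r : ℤ} (hp : scIn x p)
    (hr : scIn y r) {i : ℕ} (h : ∀ m < i, agC x y o e p r m) :
    scIn x (stn e (i : ℤ) p) ∧ scIn y (stn (e == o) (i : ℤ) r) := by
  cases i with
  | zero => simpa using ⟨hp, hr⟩
  | succ i =>
    have h1 := h i (by omega)
    have h2 : scLt x e (stn e (i : ℤ) p) ≠ 1 := h1.2
    have h3 : scLt y (e == o) (stn (e == o) (i : ℤ) r) ≠ 1 := by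
      have : scWdd x e p i = scWdd y (e == o) r i := h1.1
      have h4 : scWdd x e p i ≠ 1 := h1.2
      rw [this] at h4
      exact h4
    have e1 : ∀ (e : Bool) (p : ℤ), stn e ((i + 1 : ℕ) : ℤ) p = st e (stn e (i : ℤ) p) := by
      intro e p
      rw [← stn_one, stn_stn]; push_cast; ring_nf
    rw [e1, e1]
    exact ⟨((scLt_ne_one hx e _).1 h2).2, ((scLt_ne_one hy (e == o) _).1 h3).2⟩

/-- splitting a sum over an interval around `0` -/
theorem KOm_split (A B K : ℕ) (hA : A < K) (hB : B < K) (F : ℤ → k) (P Q : ℕ → Prop) [DecidablePred P]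
    [DecidablePred Q] (hP : ∀ i, P i ↔ i ≤ B) (hQ : ∀ i, Q (i + 1) ↔ i + 1 ≤ A) :
    ∑ i ∈ Finset.Icc (-(A : ℤ)) (B : ℤ), F i =
      (∑ i ∈ Finset.range K, if P i then F (i : ℤ) else 0) +
        ∑ i ∈ Finset.range K, if Q (i + 1) then F (-((i : ℤ) + 1)) else 0 := by
  classical
  rw [← Finset.sum_filter, ← Finset.sum_filter]
  have e1 : (Finset.range K).filter P = Finset.range (B + 1) := by
    ext i
    rw [Finset.mem_filter, Finset.mem_range, Finset.mem_range, hP]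
    omega
  have e2 : (Finset.range K).filter (fun i => Q (i + 1)) = Finset.range A := by
    ext i
    rw [Finset.mem_filter, Finset.mem_range, Finset.mem_range, hQ]
    omega
  rw [e1, e2]
  have e3 : Finset.Icc (-(A : ℤ)) (B : ℤ) =
      (Finset.range (B + 1)).image (fun i : ℕ => (i : ℤ)) ∪
        (Finset.range A).image (fun i : ℕ => -((i : ℤ) + 1)) := by
    ext z
    simp only [Finset.mem_Icc, Finset.mem_union, Finset.mem_image, Finset.mem_range]
    constructor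
    · rintro ⟨h1, h2⟩
      rcases le_or_gt 0 z with h3 | h3
      · left; exact ⟨z.toNat, by omega, by omega⟩
      · right; exact ⟨(-z - 1).toNat, by omega, by omega⟩
    · rintro (⟨i, h1, rfl⟩ | ⟨i, h1, rfl⟩)
      · constructor <;> omega
      · constructor <;> omega
  rw [e3, Finset.sum_union, Finset.sum_image, Finset.sum_image]
  · intro a _ b _ h
    simp only at h
    omega
  · intro a _ b _ h
    simp only at h
    omega
  · rw [Finset.disjoint_left]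
    intro z h1 h2
    simp only [Finset.mem_image, Finset.mem_range] at h1 h2
    obtain ⟨i, h1, rfl⟩ := h1
    obtain ⟨j, h2, h3⟩ := h2
    omega

theorem KOm_dec {n : ℕ} (v : Fin n → k) : v = ∑ j : Fin n, v j • (Pi.single j 1 : Fin n → k) := by
  funext i
  rw [Finset.sum_apply, Finset.sum_eq_single i]
  · simp
  · intro j _ hj
    simp [Pi.single_eq_of_ne hj.symm]
  · intro h; exact absurd (Finset.mem_univ _) h

theorem KOm_col {n : ℕ} (F : ℕ → k) (j' : Fin n) :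
    ∑ b : Fin n, (Pi.single j' 1 : Fin n → k) b * F (b : ℕ) = F (j' : ℕ) := by
  rw [Finset.sum_eq_single j']
  · simp
  · intro j _ hj
    simp [Pi.single_eq_of_ne hj]
  · intro h; exact absurd (Finset.mem_univ _) h

theorem KOm_proj {n : ℕ} (F : ℕ → k) (j : Fin n) :
    ∑ b : Fin n, (LinearMap.proj j : (Fin n → k) →ₗ[k] k) (Pi.single b 1) * F (b : ℕ) = F (j : ℕ) := by
  rw [Finset.sum_eq_single j]
  · simp
  · intro b _ hb
    simp [Pi.single_eq_of_ne hb.symm]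
  · intro h; exact absurd (Finset.mem_univ _) h

/-- one term of `Om` -/
theorem KOm_term {X Y : EC D k} (hX : bcOk S X.1) (hY : bcOk S Y.1) {p r : ℤ}
    (hp : scIn (bcS X.1) p) (hr : scIn (bcS Y.1) r)
    (κ : (Fin (bcBlk S X.1 hX).n → k) →ₗ[k] (Fin (bcBlk S Y.1 hY).n → k)) :
    (bcBlk S Y.1 hY).cf (ecFnl S Y hY) r (κ ((bcBlk S X.1 hX).fn (ecElt S X hX) p)) =
      ∑ j : Fin (bcBlk S X.1 hX).n, ∑ j' : Fin (bcBlk S Y.1 hY).n,
        κ (Pi.single j 1) j' * (ent (bv Y r) (j' : ℕ) * ent (av X p) (j : ℕ)) := by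
  rw [cf_ecFnl hY hr]
  have e1 : ∀ j, (bcBlk S X.1 hX).fn (ecElt S X hX) p j = ent (av X p) (j : ℕ) :=
    fun j => congrFun (fn_ecElt hX hp) j
  rw [KOm_dec ((bcBlk S X.1 hX).fn (ecElt S X hX) p), map_sum, Finset.sum_comm]
  refine Finset.sum_congr rfl (fun j' _ => ?_)
  rw [Finset.sum_apply, Finset.mul_sum]
  refine Finset.sum_congr rfl (fun j _ => ?_)
  rw [map_smul, Pi.smul_apply, smul_eq_mul, e1]
  ring

/-- `Om` in terms of the entries `omC` -/
theorem Om_eq_omC {X Y : EC D k} (hX : bcOk S X.1) (hY : bcOk S Y.1) {K : ℕ} {o : Bool} {p r : ℤ}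
    (hord : ordC K (bcS X.1) (bcS Y.1) o p r)
    (κ : (Fin (bcBlk S X.1 hX).n → k) →ₗ[k] (Fin (bcBlk S Y.1 hY).n → k)) :
    Om (bcBlk S X.1 hX).x.L (bcBlk S Y.1 hY).x.L ((bcBlk S X.1 hX).fn (ecElt S X hX))
        ((bcBlk S Y.1 hY).cf (ecFnl S Y hY)) κ o p r =
      ∑ j : Fin (bcBlk S X.1 hX).n, ∑ j' : Fin (bcBlk S Y.1 hY).n,
        κ (Pi.single j 1) j' * omC K X Y o p r (j : ℕ) (j' : ℕ) := by
  obtain ⟨hp, hr, -, -, hfle⟩ := hord
  obtain ⟨t1, t2⟩ := KOm_len hX.1 hY.1 (hfle true)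
  obtain ⟨f1, f2⟩ := KOm_len hX.1 hY.1 (hfle false)
  have hO : Om (bcBlk S X.1 hX).x.L (bcBlk S Y.1 hY).x.L ((bcBlk S X.1 hX).fn (ecElt S X hX))
        ((bcBlk S Y.1 hY).cf (ecFnl S Y hY)) κ o p r =
      ∑ i ∈ Finset.Icc (-(lenD (scLn S (bcS X.1) hX.1) (scLn S (bcS Y.1) hY.1) o false p r : ℤ))
        (lenD (scLn S (bcS X.1) hX.1) (scLn S (bcS Y.1) hY.1) o true p r : ℤ),
        (bcBlk S Y.1 hY).cf (ecFnl S Y hY) (stn o i r) (κ ((bcBlk S X.1 hX).fn (ecElt S X hX) (p + i))) := rfl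
  rw [hO, KOm_split _ _ K f1 t1 (fun i => (bcBlk S Y.1 hY).cf (ecFnl S Y hY) (stn o i r)
    (κ ((bcBlk S X.1 hX).fn (ecElt S X hX) (p + i))))
    (fun i => ∀ m < i, agC (bcS X.1) (bcS Y.1) o true p r m)
    (fun i => ∀ m < i, agC (bcS X.1) (bcS Y.1) o false p r m) t2 (fun i => f2 (i + 1))]
  have hT : ∀ i : ℕ, (∀ m < i, agC (bcS X.1) (bcS Y.1) o true p r m) →
      (bcBlk S Y.1 hY).cf (ecFnl S Y hY) (stn o (i : ℤ) r) (κ ((bcBlk S X.1 hX).fn (ecElt S X hX) (p + (i : ℤ)))) =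
      ∑ j : Fin (bcBlk S X.1 hX).n, ∑ j' : Fin (bcBlk S Y.1 hY).n,
        κ (Pi.single j 1) j' * (ent (bv Y (stn o (i : ℤ) r)) (j' : ℕ) * ent (av X (p + (i : ℤ))) (j : ℕ)) := by
    intro i hi
    obtain ⟨h1, h2⟩ := KOm_pos hX.1 hY.1 hp hr hi
    have h3 : stn (true == o) (i : ℤ) r = stn o (i : ℤ) r := by cases o <;> rfl
    rw [h3] at h2
    exact KOm_term hX hY h1 h2 κ
  have hF : ∀ i : ℕ, (∀ m < i + 1, agC (bcS X.1) (bcS Y.1) o false p r m) →
      (bcBlk S Y.1 hY).cf (ecFnl S Y hY) (stn o (-((i : ℤ) + 1)) r)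
        (κ ((bcBlk S X.1 hX).fn (ecElt S X hX) (p + -((i : ℤ) + 1)))) =
      ∑ j : Fin (bcBlk S X.1 hX).n, ∑ j' : Fin (bcBlk S Y.1 hY).n,
        κ (Pi.single j 1) j' * (ent (bv Y (stn o (-((i : ℤ) + 1)) r)) (j' : ℕ) *
          ent (av X (p + -((i : ℤ) + 1))) (j : ℕ)) := by
    intro i hi
    obtain ⟨h1, h2⟩ := KOm_pos hX.1 hY.1 hp hr hi
    have h3 : stn (false == o) ((i + 1 : ℕ) : ℤ) r = stn o (-((i : ℤ) + 1)) r := by
      cases o <;> simp [stn] <;> ring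
    have h4 : stn false ((i + 1 : ℕ) : ℤ) p = p + -((i : ℤ) + 1) := by
      simp [stn]; ring
    rw [h3] at h2
    rw [h4] at h1
    exact KOm_term hX hY h1 h2 κ
  have e1 : (∑ i ∈ Finset.range K, if (∀ m < i, agC (bcS X.1) (bcS Y.1) o true p r m) then
      (fun i : ℤ => (bcBlk S Y.1 hY).cf (ecFnl S Y hY) (stn o i r)
        (κ ((bcBlk S X.1 hX).fn (ecElt S X hX) (p + i)))) (i : ℤ) else 0) =
      ∑ j : Fin (bcBlk S X.1 hX).n, ∑ j' : Fin (bcBlk S Y.1 hY).n, κ (Pi.single j 1) j' *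
        ∑ i ∈ Finset.range K, if (∀ m < i, agC (bcS X.1) (bcS Y.1) o true p r m) then
          ent (bv Y (stn o (i : ℤ) r)) (j' : ℕ) * ent (av X (p + (i : ℤ))) (j : ℕ) else 0 := by
    simp_rw [Finset.mul_sum]
    rw [Finset.sum_congr rfl (fun j _ => Finset.sum_comm), Finset.sum_comm]
    refine Finset.sum_congr rfl (fun i _ => ?_)
    by_cases hi : ∀ m < i, agC (bcS X.1) (bcS Y.1) o true p r m
    · rw [if_pos hi]
      simp only [if_pos hi]
      exact hT i hi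
    · rw [if_neg hi]
      simp only [if_neg hi, mul_zero, Finset.sum_const_zero]
  have e2 : (∑ i ∈ Finset.range K, if (∀ m < i + 1, agC (bcS X.1) (bcS Y.1) o false p r m) then
      (fun i : ℤ => (bcBlk S Y.1 hY).cf (ecFnl S Y hY) (stn o i r)
        (κ ((bcBlk S X.1 hX).fn (ecElt S X hX) (p + i)))) (-((i : ℤ) + 1)) else 0) =
      ∑ j : Fin (bcBlk S X.1 hX).n, ∑ j' : Fin (bcBlk S Y.1 hY).n, κ (Pi.single j 1) j' *
        ∑ i ∈ Finset.range K, if (∀ m < i + 1, agC (bcS X.1) (bcS Y.1) o false p r m) then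
          ent (bv Y (stn o (-((i : ℤ) + 1)) r)) (j' : ℕ) * ent (av X (p + -((i : ℤ) + 1))) (j : ℕ) else 0 := by
    simp_rw [Finset.mul_sum]
    rw [Finset.sum_congr rfl (fun j _ => Finset.sum_comm), Finset.sum_comm]
    refine Finset.sum_congr rfl (fun i _ => ?_)
    by_cases hi : ∀ m < i + 1, agC (bcS X.1) (bcS Y.1) o false p r m
    · rw [if_pos hi]
      simp only [if_pos hi]
      exact hF i hi
    · rw [if_neg hi]
      simp only [if_neg hi, mul_zero, Finset.sum_const_zero]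
  rw [e1, e2, ← Finset.sum_add_distrib]
  refine Finset.sum_congr rfl (fun j _ => ?_)
  rw [← Finset.sum_add_distrib]
  refine Finset.sum_congr rfl (fun j' _ => ?_)
  rw [← mul_add]
  rfl

/-- all `κ` give zero iff all entries vanish -/
theorem Om_all_iff {X Y : EC D k} (hX : bcOk S X.1) (hY : bcOk S Y.1) {K : ℕ} {o : Bool} {p r : ℤ}
    (hord : ordC K (bcS X.1) (bcS Y.1) o p r) :
    (∀ κ : (Fin (bcBlk S X.1 hX).n → k) →ₗ[k] (Fin (bcBlk S Y.1 hY).n → k),
      Om (bcBlk S X.1 hX).x.L (bcBlk S Y.1 hY).x.L ((bcBlk S X.1 hX).fn (ecElt S X hX))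
        ((bcBlk S Y.1 hY).cf (ecFnl S Y hY)) κ o p r = 0) ↔
      ∀ j < bcN X.1, ∀ j' < bcN Y.1, omC K X Y o p r j j' = 0 := by
  constructor
  · intro h j hj j' hj'
    have h1 := h ((LinearMap.proj (⟨j, hj⟩ : Fin (bcBlk S X.1 hX).n) :
      (Fin (bcBlk S X.1 hX).n → k) →ₗ[k] k).smulRight
        (Pi.single (⟨j', hj'⟩ : Fin (bcBlk S Y.1 hY).n) 1))
    rw [Om_eq_omC hX hY hord, Finset.sum_eq_single (⟨j, hj⟩ : Fin (bcBlk S X.1 hX).n),
      Finset.sum_eq_single (⟨j', hj'⟩ : Fin (bcBlk S Y.1 hY).n)] at h1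
    · simpa using h1
    · intro b _ hb
      simp [Pi.single_eq_of_ne hb]
    · intro h; exact absurd (Finset.mem_univ _) h
    · intro b _ hb
      refine Finset.sum_eq_zero (fun c _ => ?_)
      simp [Pi.single_eq_of_ne hb.symm]
    · intro h; exact absurd (Finset.mem_univ _) h
  · intro h κ
    rw [Om_eq_omC hX hY hord]
    refine Finset.sum_eq_zero (fun j _ => Finset.sum_eq_zero (fun j' _ => ?_))
    rw [h j j.2 j' j'.2, mul_zero]

/-- `OmV` in terms of the entries -/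
theorem KOm_OmV {X Y : EC D k} (hX : bcOk S X.1) (hY : bcOk S Y.1) {K : ℕ} {o : Bool} {p r : ℤ}
    (hord : ordC K (bcS X.1) (bcS Y.1) o p r) (y : Fin (bcBlk S Y.1 hY).n → k) (i : Fin (bcBlk S X.1 hX).n) :
    OmV (bcBlk S X.1 hX) (bcBlk S Y.1 hY) (ecElt S X hX) (ecFnl S Y hY) o p r y i =
      ∑ j' : Fin (bcBlk S Y.1 hY).n, y j' * omC K X Y o p r (i : ℕ) (j' : ℕ) := by
  unfold OmV
  rw [Om_eq_omC hX hY hord, Finset.sum_eq_single i]
  · refine Finset.sum_congr rfl (fun j' _ => ?_)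
    simp
  · intro b _ hb
    refine Finset.sum_eq_zero (fun c _ => ?_)
    simp [Pi.single_eq_of_ne hb.symm]
  · intro h; exact absurd (Finset.mem_univ _) h

theorem OmV_eq {X Y : EC D k} (hX : bcOk S X.1) (hY : bcOk S Y.1) {K : ℕ} {o : Bool} {p r : ℤ}
    (hord : ordC K (bcS X.1) (bcS Y.1) o p r) (y : List k) :
    OmV (bcBlk S X.1 hX) (bcBlk S Y.1 hY) (ecElt S X hX) (ecFnl S Y hY) o p r (vecOf (bcN Y.1) y) =
      vecOf (bcN X.1) (omV K X Y o p r y) := by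
  funext i
  rw [KOm_OmV hX hY hord]
  unfold omV
  rw [vecOf_map_range]
  exact (Finset.sum_range (fun j' => ent y j' * omC K X Y o p r (i : ℕ) j')).symm

theorem OmV_col {X Y : EC D k} (hX : bcOk S X.1) (hY : bcOk S Y.1) {K : ℕ} {o : Bool} {p r : ℤ}
    (hord : ordC K (bcS X.1) (bcS Y.1) o p r) (j' : Fin (bcN Y.1)) :
    OmV (bcBlk S X.1 hX) (bcBlk S Y.1 hY) (ecElt S X hX) (ecFnl S Y hY) o p r
      (show Fin (bcBlk S Y.1 hY).n → k from Pi.single j' 1) = vecOf (bcN X.1) (omCol K X Y o p r (j' : ℕ)) := by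
  funext i
  rw [KOm_OmV hX hY hord]
  unfold omCol
  rw [vecOf_map_range]
  exact KOm_col (n := bcN Y.1) (fun b => omC K X Y o p r (i : ℕ) b) j'

/-- the functional with the coefficients `φ` -/
noncomputable def dualOf (n : ℕ) (φ : List k) : Dual k (Fin n → k) :=
  ∑ j : Fin n, ent φ (j : ℕ) • (LinearMap.proj j : (Fin n → k) →ₗ[k] k)

theorem KOm_dualOf (n : ℕ) (φ : List k) (j : Fin n) : dualOf n φ (Pi.single j 1) = ent φ (j : ℕ) := by
  unfold dualOf
  rw [LinearMap.sum_apply, Finset.sum_eq_single j]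
  · simp
  · intro b _ hb
    simp [Pi.single_eq_of_ne hb]
  · intro h; exact absurd (Finset.mem_univ _) h

theorem KOm_dualSum (n : ℕ) (φ : List k) (F : ℕ → k) :
    ∑ j : Fin n, dualOf n φ (Pi.single j 1) * F (j : ℕ) = ∑ j ∈ Finset.range n, ent φ j * F j := by
  rw [Finset.sum_range (fun j => ent φ j * F j)]
  exact Finset.sum_congr rfl (fun j _ => by rw [KOm_dualOf])

theorem exists_dualOf (n : ℕ) (f : Dual k (Fin n → k)) : ∃ φ : List k, dualOf n φ = f := by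
  obtain ⟨L, hL⟩ := exists_vecOf n (fun j => f (Pi.single j 1))
  refine ⟨L, ?_⟩
  refine LinearMap.pi_ext' (fun j => ?_)
  ext
  simp only [LinearMap.comp_apply, LinearMap.single_apply]
  rw [KOm_dualOf]
  exact congrFun hL j

/-- `OmL` in terms of the entries -/
theorem KOm_OmL {X Y : EC D k} (hX : bcOk S X.1) (hY : bcOk S Y.1) {K : ℕ} {o : Bool} {p r : ℤ}
    (hord : ordC K (bcS X.1) (bcS Y.1) o p r) (φ : Dual k (Fin (bcBlk S X.1 hX).n → k))
    (y : Fin (bcBlk S Y.1 hY).n → k) :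
    OmL (bcBlk S X.1 hX) (bcBlk S Y.1 hY) (ecElt S X hX) (ecFnl S Y hY) o p r φ y =
      ∑ j' : Fin (bcBlk S Y.1 hY).n, (∑ j : Fin (bcBlk S X.1 hX).n,
        φ (Pi.single j 1) * omC K X Y o p r (j : ℕ) (j' : ℕ)) * y j' := by
  unfold OmL
  rw [Om_eq_omC hX hY hord, Finset.sum_comm]
  refine Finset.sum_congr rfl (fun j' _ => ?_)
  rw [Finset.sum_mul]
  refine Finset.sum_congr rfl (fun j _ => ?_)
  rw [LinearMap.smulRight_apply, Pi.smul_apply, smul_eq_mul]
  ring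

theorem OmL_eq {X Y : EC D k} (hX : bcOk S X.1) (hY : bcOk S Y.1) {K : ℕ} {o : Bool} {p r : ℤ}
    (hord : ordC K (bcS X.1) (bcS Y.1) o p r) (φ : List k) (y : Fin (bcBlk S Y.1 hY).n → k) :
    OmL (bcBlk S X.1 hX) (bcBlk S Y.1 hY) (ecElt S X hX) (ecFnl S Y hY) o p r (dualOf (bcN X.1) φ) y =
      dotProduct (vecOf (bcN Y.1) (omL K X Y o p r φ)) y := by
  rw [KOm_OmL hX hY hord]
  unfold omL
  rw [vecOf_map_range]
  refine Finset.sum_congr rfl (fun j' _ => ?_)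
  congr 1
  exact KOm_dualSum (bcN X.1) φ (fun j => omC K X Y o p r j (j' : ℕ))

theorem OmL_row {X Y : EC D k} (hX : bcOk S X.1) (hY : bcOk S Y.1) {K : ℕ} {o : Bool} {p r : ℤ}
    (hord : ordC K (bcS X.1) (bcS Y.1) o p r) (j : Fin (bcN X.1)) (y : Fin (bcBlk S Y.1 hY).n → k) :
    OmL (bcBlk S X.1 hX) (bcBlk S Y.1 hY) (ecElt S X hX) (ecFnl S Y hY) o p r
      (show Dual k (Fin (bcBlk S X.1 hX).n → k) from LinearMap.proj j) y =
      dotProduct (vecOf (bcN Y.1) (omRow K X Y o p r (j : ℕ))) y := by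
  rw [KOm_OmL hX hY hord]
  unfold omRow
  rw [vecOf_map_range]
  refine Finset.sum_congr rfl (fun j' _ => ?_)
  congr 1
  exact KOm_proj (n := bcN X.1) (fun b => omC K X Y o p r b (j' : ℕ)) j

end StrAlg
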