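import Pool.Agent.Lib.MP_b9fd58_lc.K2Defs
import Pool.Agent.Lib.MP_b9fd58_lc.KOm
import Pool.Agent.Lib.MP_b9fd58_lc.KInv
import Pool.Agent.Lib.MP_b9fd58_lc.KAv
import Pool.Agent.Lib.MP_b9fd58_lc.KOrdB

/-!
# Stream K2: values of graph maps on codes
-/

set_option autoImplicit false

namespace StrAlg

open Module

variable {D : Dat} {k : Type} [Field k] {S : Sides D}

theorem K2Push_natAbs (e : Bool) (n : ℕ) (q : ℤ) : (stn e (n : ℤ) q - q).natAbs = n := by
  cases e <;> simp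

theorem K2Push_dir (e : Bool) {n : ℕ} (hn : n ≠ 0) (q : ℤ) : decide (q ≤ stn e (n : ℤ) q) = e := by
  have h0 : (0 : ℤ) < (n : ℤ) := by exact_mod_cast Nat.pos_of_ne_zero hn
  cases e
  · rw [decide_eq_false_iff_not]
    simp only [stn_false]
    omega
  · rw [decide_eq_true_iff]
    simp only [stn_true]
    omega

theorem K2Push_stn (q z : ℤ) : stn (decide (q ≤ z)) (((z - q).natAbs : ℕ) : ℤ) q = z := by
  by_cases h : q ≤ z
  · rw [decide_eq_true h]
    simp only [stn_true]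
    omega
  · rw [decide_eq_false h]
    simp only [stn_false]
    omega

/-- `Cn X w o c q c' z` for codes: `z` determines the direction and the number of steps, so it determines `c'`; the agreement is `agC`
(compare `KOm_len`, `KOm_pos`). -/
theorem cn_iff {x w : SC D} (hx : scOk S x) (hw : scOk S w) (o : Bool) (c q c' z : ℤ) :
    Cn (scLn S x hx) (scLn S w hw) o c q c' z ↔
      (∀ m < (z - q).natAbs, agC x w o (decide (q ≤ z) == o) c q m) ∧
        c' = stn (decide (q ≤ z) == o) (((z - q).natAbs : ℕ) : ℤ) c := by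
  constructor
  · rintro ⟨e, n, h1, rfl, rfl⟩
    rw [K2Push_natAbs]
    rcases Nat.eq_zero_or_pos n with rfl | hn
    · refine ⟨fun m hm => absurd hm (Nat.not_lt_zero m), ?_⟩
      rw [Nat.cast_zero, stn_zero, stn_zero]
    · rw [K2Push_dir (e == o) hn.ne', beq_beq_self]
      exact ⟨h1, rfl⟩
  · rintro ⟨h1, h2⟩
    exact ⟨decide (q ≤ z) == o, (z - q).natAbs, h1, h2, by rw [beq_beq_self, K2Push_stn]⟩

theorem cn_iff' {w y : SC D} (hw : scOk S w) (hy : scOk S y) (o : Bool) (q r z r' : ℤ) :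
    Cn (scLn S w hw) (scLn S y hy) o q r z r' ↔
      (∀ m < (z - q).natAbs, agC w y o (decide (q ≤ z)) q r m) ∧
        r' = stn (decide (q ≤ z) == o) (((z - q).natAbs : ℕ) : ℤ) r := by
  constructor
  · rintro ⟨e, n, h1, rfl, rfl⟩
    rw [K2Push_natAbs]
    rcases Nat.eq_zero_or_pos n with rfl | hn
    · refine ⟨fun m hm => absurd hm (Nat.not_lt_zero m), ?_⟩
      rw [Nat.cast_zero, stn_zero, stn_zero]
    · rw [K2Push_dir e hn.ne']
      exact ⟨h1, rfl⟩
  · rintro ⟨h1, h2⟩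
    exact ⟨decide (q ≤ z), (z - q).natAbs, h1, (K2Push_stn q z).symm, h2⟩

/-- use `push_eq`, `push_zero`, `cn_iff`, `fn_ecElt` (the position is reached by an agreement, so `scIn`, `KOm_pos`) -/
theorem pushv_eq {X : EC D k} (hX : bcOk S X.1) {w : SC D} (hw : scOk S w) (o : Bool) {c q : ℤ} (hc : scIn (bcS X.1) c)
    (hq : scIn w q) (j : Fin (bcN X.1)) (z : ℤ) :
    push (bcBlk S X.1 hX).x.L (scStr S w hw).L o c q
      (fun c' => (show Fin (bcN X.1) → k from (bcBlk S X.1 hX).fn (ecElt S X hX) c') j) z = pushv X w o c q j z := by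
  have hiff := cn_iff (S := S) hX.1 hw o c q
  unfold pushv
  by_cases h : ∀ m < (z - q).natAbs, agC (bcS X.1) w o (decide (q ≤ z) == o) c q m
  · rw [if_pos h]
    have h1 : Cn (bcBlk S X.1 hX).x.L (scStr S w hw).L o c q
        (stn (decide (q ≤ z) == o) (((z - q).natAbs : ℕ) : ℤ) c) z := (hiff _ z).2 ⟨h, rfl⟩
    rw [push_eq h1]
    have h2 := (KOm_pos hX.1 hw hc hq h).1
    exact congrFun (fn_ecElt hX h2) j
  · rw [if_neg h]
    apply push_zero
    rintro ⟨c', h1⟩
    exact h ((hiff c' z).1 h1).1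

theorem pullv_eq {Y : EC D k} (hY : bcOk S Y.1) {w : SC D} (hw : scOk S w) (o : Bool) {q r : ℤ} (hq : scIn w q)
    (hr : scIn (bcS Y.1) r) (j : Fin (bcN Y.1)) (z : ℤ) :
    pull (scStr S w hw).L (bcBlk S Y.1 hY).x.L o q r
      (fun r' => (bcBlk S Y.1 hY).cf (ecFnl S Y hY) r' (show Fin (bcBlk S Y.1 hY).n → k from Pi.single j 1)) z =
      pullv w Y o q r j z := by
  have hiff := cn_iff' (S := S) hw hY.1 o q r
  unfold pullv
  by_cases h : ∀ m < (z - q).natAbs, agC w (bcS Y.1) o (decide (q ≤ z)) q r m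
  · rw [if_pos h]
    have h1 : Cn (scStr S w hw).L (bcBlk S Y.1 hY).x.L o q r z
        (stn (decide (q ≤ z) == o) (((z - q).natAbs : ℕ) : ℤ) r) := (hiff z _).2 ⟨h, rfl⟩
    rw [pull_eq h1]
    have h2 := (KOm_pos hw hY.1 hq hr h).2
    rw [cf_ecFnl hY h2]
    refine (Finset.sum_congr rfl fun b _ => mul_comm _ _).trans ?_
    exact KOm_col (n := bcN Y.1)
      (fun b => ent (bv Y (stn (decide (q ≤ z) == o) (((z - q).natAbs : ℕ) : ℤ) r)) b) j
  · rw [if_neg h]
    apply pull_zero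
    rintro ⟨r', h1⟩
    exact h ((hiff z r').1 h1).1

theorem K2Push_supp {x y : SC D} {K : ℕ} {o : Bool} {a b : ℤ} (h : ordC K x y o a b) {e : Bool} {n : ℕ}
    (hag : ∀ m < n, agC x y o e a b m) : n < K := by
  obtain ⟨-, -, -, -, hf⟩ := h
  obtain ⟨l, hl, h1, h2⟩ := hf e
  by_contra hcon
  have h3 := hag l (by omega)
  have h4 : scWdd x e a l = scWdd y (e == o) b l := h3.1
  have h5 : scWdd x e a l ≠ 1 := h3.2
  rcases h2 with h2 | h2
  · rw [h4] at h2
    exact lt_irrefl _ h2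
  · exact h5 h2.2

/-- the agreements of an `Ord`-match with bound `K` have length less than `K` -/
theorem pushv_supp {X : EC D k} {w : SC D} {K : ℕ} {o : Bool} {c q : ℤ} (h : ordC K (bcS X.1) w o c q) (j : ℕ) {z : ℤ}
    (hz : pushv X w o c q j z ≠ 0) : (z - q).natAbs < K := by
  unfold pushv at hz
  by_cases h1 : ∀ m < (z - q).natAbs, agC (bcS X.1) w o (decide (q ≤ z) == o) c q m
  · exact K2Push_supp h h1
  · rw [if_neg h1] at hz
    exact absurd rfl hz

theorem pullv_supp {Y : EC D k} {w : SC D} {K : ℕ} {o : Bool} {q r : ℤ} (h : ordC K w (bcS Y.1) o q r) (j : ℕ) {z : ℤ}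
    (hz : pullv w Y o q r j z ≠ 0) : (z - q).natAbs < K := by
  unfold pullv at hz
  by_cases h1 : ∀ m < (z - q).natAbs, agC w (bcS Y.1) o (decide (q ≤ z)) q r m
  · exact K2Push_supp h h1
  · rw [if_neg h1] at hz
    exact absurd rfl hz

end StrAlg
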