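import Pool.Agent.Lib.MP_b9fd58_lc.KStr

/-!
# Stream K: the block and the normal form of a valid code
-/

set_option autoImplicit false

namespace StrAlg

open Module

variable {D : Dat} {k : Type} [Field k] {S : Sides D}

private theorem KBlk_up1 {α : Type} (L : List α) (n : ℕ) : up1 (([] : List α), L) n = L[n % L.length]? := by
  simp [up1]

/-- records of a band -/
theorem KBlk_scF_band {b : BC D k} (hb : b.1 = true) (p : ℤ) :
    scF (bcS b) p = b.2.1[(p % (bcP b : ℤ)).toNat]? := by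
  have hS : bcS b = (([], b.2.1), ([], b.2.1.reverse)) := by simp [bcS, hb]
  rw [hS]
  unfold scF
  by_cases hp : 0 ≤ p
  · rw [if_pos hp, KBlk_up1]
    obtain ⟨n, rfl⟩ := Int.eq_ofNat_of_zero_le hp
    have : ((n : ℤ) % (bcP b : ℤ)).toNat = n % b.2.1.length := by
      rw [← Int.natCast_mod]; rfl
    rw [this]; rfl
  · rw [if_neg hp, KBlk_up1, List.length_reverse]
    rcases Nat.eq_zero_or_pos b.2.1.length with h0 | h0
    · have : b.2.1 = [] := List.eq_nil_of_length_eq_zero h0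
      simp [this]
    · have h1 : ((-p).toNat - 1) % b.2.1.length < b.2.1.length := Nat.mod_lt _ h0
      rw [List.getElem?_reverse h1]
      congr 1
      have h2 : p % (bcP b : ℤ) =
          ((b.2.1.length - 1 - ((-p).toNat - 1) % b.2.1.length : ℕ) : ℤ) := by
        have h3 : b.2.1.length * (((-p).toNat - 1) / b.2.1.length) + ((-p).toNat - 1) % b.2.1.length
            = (-p).toNat - 1 := Nat.div_add_mod _ _
        have h4 : p = ((b.2.1.length - 1 - ((-p).toNat - 1) % b.2.1.length : ℕ) : ℤ)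
            + (bcP b : ℤ) * (-((((-p).toNat - 1) / b.2.1.length : ℕ) : ℤ) - 1) := by
          have h5 : ((b.2.1.length - 1 - ((-p).toNat - 1) % b.2.1.length : ℕ) : ℤ)
              = (b.2.1.length : ℤ) - 1 - ((((-p).toNat - 1) % b.2.1.length : ℕ) : ℤ) := by omega
          have h6 : ((b.2.1.length : ℤ) * ((((-p).toNat - 1) / b.2.1.length : ℕ) : ℤ))
              + ((((-p).toNat - 1) % b.2.1.length : ℕ) : ℤ) = -p - 1 := by
            have h7 : ((((-p).toNat - 1 : ℕ)) : ℤ) = -p - 1 := by omega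
            rw [← h7]
            exact_mod_cast h3
          rw [h5]
          show p = _ + (b.2.1.length : ℤ) * _
          linarith
        conv_lhs => rw [h4]
        rw [Int.add_mul_emod_self_left]
        apply Int.emod_eq_of_lt
        · exact Int.natCast_nonneg _
        · show _ < (b.2.1.length : ℤ)
          omega
      rw [h2, Int.toNat_natCast]

/-- records of a finite string -/
theorem KBlk_scF_fin {b : BC D k} (hb : b.1 = false) (p : ℤ) :
    scF (bcS b) p = if 0 ≤ p then b.2.1[p.toNat]? else none := by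
  have hS : bcS b = ((b.2.1, []), ([], [])) := by simp [bcS, hb]
  rw [hS]
  unfold scF
  by_cases hp : 0 ≤ p
  · rw [if_pos hp, if_pos hp]
    unfold up1
    split_ifs with h1
    · rfl
    · have h2 : b.2.1.length ≤ p.toNat := not_lt.1 h1
      rw [List.getElem?_eq_none h2]
      simp
  · rw [if_neg hp, if_neg hp]
    simp [up1]

theorem bcP_pos {b : BC D k} (h : scOk S (bcS b)) : 0 < bcP b := by
  have h0 : scIn (bcS b) 0 := h.1
  by_contra hcon
  have h1 : b.2.1 = [] := List.eq_nil_of_length_eq_zero (Nat.eq_zero_of_not_pos hcon)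
  unfold scIn at h0
  cases hb : b.1 with
  | true => rw [KBlk_scF_band hb, h1] at h0; simp at h0
  | false => rw [KBlk_scF_fin hb, h1] at h0; simp at h0

/-- records in the fundamental domain -/
theorem scF_bcS {b : BC D k} {p : ℕ} (hp : p < bcP b) : scF (bcS b) (p : ℤ) = b.2.1[p]? := by
  cases hb : b.1 with
  | true =>
    rw [KBlk_scF_band hb]
    have : ((p : ℤ) % (bcP b : ℤ)).toNat = p := by
      rw [← Int.natCast_mod, Int.toNat_natCast, Nat.mod_eq_of_lt hp]
    rw [this]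
  | false =>
    rw [KBlk_scF_fin hb, if_pos (Int.natCast_nonneg p), Int.toNat_natCast]

/-- a band has all positions -/
theorem scIn_band {b : BC D k} (hb : b.1 = true) (h : scOk S (bcS b)) (p : ℤ) : scIn (bcS b) p := by
  have h0 := bcP_pos h
  unfold scIn
  rw [KBlk_scF_band hb, isSome_getElem?]
  have h1 : 0 ≤ p % (bcP b : ℤ) := Int.emod_nonneg _ (by omega)
  have h2 : p % (bcP b : ℤ) < (bcP b : ℤ) := Int.emod_lt_of_pos _ (by omega)
  show (p % (bcP b : ℤ)).toNat < bcP b
  omega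

/-- a band is periodic -/
theorem scF_band {b : BC D k} (hb : b.1 = true) (p : ℤ) : scF (bcS b) (p + (bcP b : ℤ)) = scF (bcS b) p := by
  rw [KBlk_scF_band hb, KBlk_scF_band hb, Int.add_emod_right]

theorem scF_band_mod {b : BC D k} (hb : b.1 = true) (p : ℤ) :
    scF (bcS b) p = scF (bcS b) (p % (bcP b : ℤ)) := by
  rw [KBlk_scF_band hb, KBlk_scF_band hb, Int.emod_emod_of_dvd _ (dvd_refl _)]

theorem scIn_fin {b : BC D k} (hb : b.1 = false) (p : ℤ) : scIn (bcS b) p ↔ 0 ≤ p ∧ p < (bcP b : ℤ) := by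
  unfold scIn
  rw [KBlk_scF_fin hb]
  split_ifs with h0
  · rw [isSome_getElem?]
    show p.toNat < bcP b ↔ _
    omega
  · simp [h0]

/-- every position is congruent to one in the fundamental domain -/
theorem exists_dom {b : BC D k} (h : scOk S (bcS b)) {p : ℤ} (hp : scIn (bcS b) p) :
    ∃ p₀ < bcP b, ∃ m : ℤ, p = (p₀ : ℤ) + m * (bcL b : ℤ) := by
  have h0 := bcP_pos h
  cases hb : b.1 with
  | true =>
    have h1 : 0 ≤ p % (bcP b : ℤ) := Int.emod_nonneg _ (by omega)
    have h2 : p % (bcP b : ℤ) < (bcP b : ℤ) := Int.emod_lt_of_pos _ (by omega)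
    refine ⟨(p % (bcP b : ℤ)).toNat, by omega, p / (bcP b : ℤ), ?_⟩
    have h3 : bcL b = bcP b := by simp [bcL, hb]
    rw [h3, Int.toNat_of_nonneg h1]
    have := Int.emod_add_mul_ediv p (bcP b : ℤ)
    linarith
  | false =>
    have h1 := (scIn_fin hb p).1 hp
    exact ⟨p.toNat, by omega, 0, by rw [Int.toNat_of_nonneg h1.1]; ring⟩

theorem scIn_dom {b : BC D k} {p : ℕ} (hp : p < bcP b) : scIn (bcS b) (p : ℤ) := by
  unfold scIn
  rw [scF_bcS hp, isSome_getElem?]
  exact hp

/-- the automorphism of the coefficient space -/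
noncomputable def bcT (b : BC D k) : (Fin (bcN b) → k) ≃ₗ[k] (Fin (bcN b) → k) :=
  open Classical in
  if h : b.1 = true ∧ matOf (bcN b) (bcM b) * matOf (bcN b) (bcM' b) = 1 ∧
      matOf (bcN b) (bcM' b) * matOf (bcN b) (bcM b) = 1 then
    LinearEquiv.ofLinear (Matrix.toLin' (matOf (bcN b) (bcM b))) (Matrix.toLin' (matOf (bcN b) (bcM' b)))
      (by rw [← Matrix.toLin'_mul, h.2.1, Matrix.toLin'_one])
      (by rw [← Matrix.toLin'_mul, h.2.2, Matrix.toLin'_one])
  else LinearEquiv.refl k _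

theorem bcT_apply {b : BC D k} (h : bcOk S b) (hb : b.1 = true) (v : Fin (bcN b) → k) :
    bcT b v = (matOf (bcN b) (bcM b)).mulVec v := by
  have h2 := (h.2 hb).2
  unfold bcT
  rw [dif_pos ⟨hb, h2⟩]
  simp

theorem bcT_symm_apply {b : BC D k} (h : bcOk S b) (hb : b.1 = true) (v : Fin (bcN b) → k) :
    (bcT b).symm v = (matOf (bcN b) (bcM' b)).mulVec v := by
  have h2 := (h.2 hb).2
  unfold bcT
  rw [dif_pos ⟨hb, h2⟩]
  simp

theorem bcT_fin {b : BC D k} (hb : b.1 = false) : bcT b = LinearEquiv.refl k _ := by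
  unfold bcT
  rw [dif_neg]
  rintro ⟨h, -⟩
  rw [hb] at h
  exact Bool.false_ne_true h

theorem bcPerOK {b : BC D k} (h : bcOk S b) : (scStr S (bcS b) h.1).PerOK (bcL b) (bcT b) := by
  rcases (Bool.eq_false_or_eq_true b.1 : b.1 = true ∨ b.1 = false) with hb | hb
  ·
    have hL : bcL b = bcP b := by simp [bcL, hb]
    refine ⟨?_, ?_, ?_⟩
    · rw [hL]
      refine ⟨fun p => ?_, fun p => ?_, fun p => ?_⟩
      · show scLam (bcS b) (p + (bcP b : ℤ)) = scLam (bcS b) p
        unfold scLam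
        have h1 : p + (bcP b : ℤ) + 1 = (p + 1) + (bcP b : ℤ) := by ring
        rw [h1, scF_band hb, scF_band hb]
      · show scDv (bcS b) h.1.1 (p + (bcP b : ℤ)) = scDv (bcS b) h.1.1 p
        unfold scDv
        rw [scF_band hb]
      · show scR (bcS b) (p + (bcP b : ℤ)) = scR (bcS b) p
        unfold scR
        rw [scF_band hb]
    · intro _ p
      exact (scLam_ne_one h.1 p).2 ⟨scIn_band hb h.1 p, scIn_band hb h.1 (p + 1)⟩
    · intro h0
      have := bcP_pos h.1
      omega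
  ·
    have hL : bcL b = 0 := by simp [bcL, hb]
    refine ⟨?_, ?_, ?_⟩
    · rw [hL]; exact Str.per_zero _
    · intro h0; omega
    · intro _; exact bcT_fin hb

theorem bcMin {b : BC D k} (h : bcOk S b) (d : ℕ) (hd : 0 < d) (hp : (scStr S (bcS b) h.1).Per d) :
    0 < bcL b ∧ bcL b ≤ d := by
  have h0 := bcP_pos h.1
  have hall : ∀ p, scIn (bcS b) p := fun p => ((scLam_ne_one h.1 p).1 (hp.2 p)).1
  cases hb : b.1 with
  | false =>
    exfalso
    have := (scIn_fin hb (-1)).1 (hall (-1))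
    omega
  | true =>
    have hL : bcL b = bcP b := by simp [bcL, hb]
    rw [hL]
    refine ⟨h0, ?_⟩
    by_contra hcon
    obtain ⟨p, -, hne⟩ := (h.2 hb).1 d (not_le.1 hcon) hd
    apply hne
    have key : ∀ q : ℤ, scF (bcS b) q =
        some (scLam (bcS b) q, scDv (bcS b) h.1.1 q, scR (bcS b) q) := by
      intro q
      obtain ⟨x, hx⟩ := Option.isSome_iff_exists.1 (hall q)
      obtain ⟨y, hy⟩ := Option.isSome_iff_exists.1 (hall (q + 1))
      simp [scLam, scDv, scR, hx, hy]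
    have e1 : scLam (bcS b) ((p : ℤ) + d) = scLam (bcS b) p := hp.1.lam p
    have e2 : scDv (bcS b) h.1.1 ((p : ℤ) + d) = scDv (bcS b) h.1.1 p := hp.1.v p
    have e3 : scR (bcS b) ((p : ℤ) + d) = scR (bcS b) p := hp.1.r p
    rw [key, key, e1, e2, e3]

theorem bcFin {b : BC D k} (h : bcOk S b) (hl : bcL b = 0) : (scStr S (bcS b) h.1).Fin := by
  have h0 := bcP_pos h.1
  rcases (Bool.eq_false_or_eq_true b.1 : b.1 = true ∨ b.1 = false) with hb | hb
  ·
    have hL : bcL b = bcP b := by simp [bcL, hb]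
    omega
  ·
    refine Set.Finite.subset (Set.finite_Ico (0 : ℤ) (bcP b : ℤ)) ?_
    intro p hp
    have := (scIn_fin hb p).1 ((scStr_Z h.1 p).1 hp)
    exact ⟨this.1, this.2⟩

/-- the block of a valid code -/
noncomputable def bcBlk (S : Sides D) (b : BC D k) (h : bcOk S b) : Blk S k where
  x := scStr S (bcS b) h.1
  n := bcN b
  l := bcL b
  T := bcT b
  ok := bcPerOK h
  min := bcMin h
  fin := bcFin h

/-- value at a position -/
noncomputable def blkEv (X : Blk S k) (p : ℤ) : X.M.C →ₗ[k] (Fin X.n → k) :=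
  (LinearMap.proj p : (ℤ → Fin X.n → k) →ₗ[k] (Fin X.n → k)) ∘ₗ X.B.S.subtype

theorem blkEv_apply (X : Blk S k) (p : ℤ) (a : X.M.C) : blkEv X p a = X.fn a p := rfl

/-- the element with the given coefficients -/
noncomputable def ecElt (S : Sides D) (t : EC D k) (h : bcOk S t.1) : (bcBlk S t.1 h).M.C :=
  ∑ p ∈ Finset.range (bcP t.1), (bcBlk S t.1 h).iota (p : ℤ)
    (show Fin (bcBlk S t.1 h).n → k from fun j => ent t.2 (p * bcN t.1 + (j : ℕ)))

/-- the functional with the given coefficients -/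
noncomputable def ecFnl (S : Sides D) (t : EC D k) (h : bcOk S t.1) : Dual k (bcBlk S t.1 h).M.C :=
  ∑ p ∈ Finset.range (bcP t.1), ∑ j : Fin (bcBlk S t.1 h).n,
    ent t.2 (p * bcN t.1 + (j : ℕ)) • ((LinearMap.proj j : (Fin (bcBlk S t.1 h).n → k) →ₗ[k] k) ∘ₗ
      blkEv (bcBlk S t.1 h) (p : ℤ))

/-- the normal form of a code -/
noncomputable def ncDec (S : Sides D) (c : NC D k) : NF S k :=
  open Classical in
  if h : ncOk S c then
    { m := c.1.length
      X := fun i => bcBlk S (c.1.get i).1 (h.1 _ (List.get_mem c.1 i))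
      a := fun i => ecElt S (c.1.get i) (h.1 _ (List.get_mem c.1 i))
      m' := c.2.length
      Y := fun i => bcBlk S (c.2.get i).1 (h.2 _ (List.get_mem c.2 i))
      b := fun i => ecFnl S (c.2.get i) (h.2 _ (List.get_mem c.2 i)) }
  else { m := 0, X := fun i => i.elim0, a := fun i => i.elim0, m' := 0, Y := fun i => i.elim0, b := fun i => i.elim0 }

/-- quantifiers over the blocks of a decoded normal form -/
theorem ncDec_forall_X {c : NC D k} (h : ncOk S c) (Φ : (X : Blk S k) → X.M.C → Prop) :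
    (∀ i, Φ ((ncDec S c).X i) ((ncDec S c).a i)) ↔
      ∀ t, ∀ ht : t ∈ c.1, Φ (bcBlk S t.1 (h.1 t ht)) (ecElt S t (h.1 t ht)) := by
  unfold ncDec
  rw [dif_pos h]
  constructor
  · intro H t ht
    obtain ⟨i, rfl⟩ := List.get_of_mem ht
    exact H i
  · intro H i
    exact H _ (List.get_mem c.1 i)

theorem ncDec_forall_Y {c : NC D k} (h : ncOk S c) (Φ : (Y : Blk S k) → Dual k Y.M.C → Prop) :
    (∀ j, Φ ((ncDec S c).Y j) ((ncDec S c).b j)) ↔
      ∀ t, ∀ ht : t ∈ c.2, Φ (bcBlk S t.1 (h.2 t ht)) (ecFnl S t (h.2 t ht)) := by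
  unfold ncDec
  rw [dif_pos h]
  constructor
  · intro H t ht
    obtain ⟨i, rfl⟩ := List.get_of_mem ht
    exact H i
  · intro H i
    exact H _ (List.get_mem c.2 i)

theorem ncDec_exists_X {c : NC D k} (h : ncOk S c) (Φ : (X : Blk S k) → X.M.C → Prop) :
    (∃ i, Φ ((ncDec S c).X i) ((ncDec S c).a i)) ↔
      ∃ t, ∃ ht : t ∈ c.1, Φ (bcBlk S t.1 (h.1 t ht)) (ecElt S t (h.1 t ht)) := by
  unfold ncDec
  rw [dif_pos h]
  constructor
  · rintro ⟨i, H⟩
    exact ⟨_, List.get_mem c.1 i, H⟩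
  · rintro ⟨t, ht, H⟩
    obtain ⟨i, rfl⟩ := List.get_of_mem ht
    exact ⟨i, H⟩

theorem ncDec_exists_Y {c : NC D k} (h : ncOk S c) (Φ : (Y : Blk S k) → Dual k Y.M.C → Prop) :
    (∃ j, Φ ((ncDec S c).Y j) ((ncDec S c).b j)) ↔
      ∃ t, ∃ ht : t ∈ c.2, Φ (bcBlk S t.1 (h.2 t ht)) (ecFnl S t (h.2 t ht)) := by
  unfold ncDec
  rw [dif_pos h]
  constructor
  · rintro ⟨i, H⟩
    exact ⟨_, List.get_mem c.2 i, H⟩
  · rintro ⟨t, ht, H⟩
    obtain ⟨i, rfl⟩ := List.get_of_mem ht
    exact ⟨i, H⟩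

/-- every finite string starting at `0` / every periodic string is matched by a code of a block -/
theorem bcS_band_of {b : BC D k} (hb : b.1 = true) {f : ℤ → Rc D} (hl : 0 < bcP b)
    (hf : ∀ p, f (p + (bcP b : ℤ)) = f p) (hP : ∀ p < bcP b, b.2.1[p]? = some (f p)) (p : ℤ) :
    scF (bcS b) p = some (f p) := by
  have h1 : 0 ≤ p % (bcP b : ℤ) := Int.emod_nonneg _ (by omega)
  have h2 : p % (bcP b : ℤ) < (bcP b : ℤ) := Int.emod_lt_of_pos _ (by omega)
  rw [KBlk_scF_band hb, hP _ (by omega), Int.toNat_of_nonneg h1]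
  have h3 : p = p % (bcP b : ℤ) + (p / (bcP b : ℤ)) * (bcP b : ℤ) := by
    have := Int.emod_add_mul_ediv p (bcP b : ℤ)
    linarith
  have hper : Per (bcP b) f := hf
  conv_rhs => rw [h3, hper.mul]

end StrAlg
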