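import Pool.Agent.Lib.MP_b9fd58_lc.K2VecD
import Pool.Agent.Lib.MP_b9fd58_lc.KBlk
import Pool.Agent.Lib.MP_b9fd58_lc.KCrit
import Pool.Agent.Lib.MP_b9fd58_lc.If2Defs

/-!
# Stream K2: the list `outVecs`
-/

set_option autoImplicit false

namespace StrAlg

open Module

variable {D : Dat} {k : Type} [Field k] {S : Sides D}

theorem K2VecO_cn {ι : Type*} {nx : ι → Bool → Fin 3 → ι × Bool} {X Y : Ln ι nx} {l : ℕ} (h : Y.IsPer l) {o : Bool}
    {a b a' b' : ℤ} (m : ℤ) (hc : Cn X Y o a b a' b') : Cn X Y o a (b + m * l) a' (b' + m * l) := by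
  obtain ⟨e, n, h1, rfl, rfl⟩ := hc
  refine ⟨e, n, ?_, rfl, ?_⟩
  · unfold AgD at h1 ⊢
    rw [KInv_wdd h]
    exact h1
  · rw [KInv_stn]

/-- the pull-back for a block, the position of the block shifted by periods -/
theorem K2VecO_pull_mul (w : Str S) (Y : Blk S k) (b : Dual k Y.M.C) (o : Bool) (q r m : ℤ) (y : Fin Y.n → k) (z : ℤ) :
    pull w.L Y.x.L o q (r + m * Y.l) (fun r' => Y.cf b r' y) z =
      pull w.L Y.x.L o q r
        (fun r' => Y.cf b r' ((Y.T ^ m : (Fin Y.n → k) ≃ₗ[k] (Fin Y.n → k)) y)) z := by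
  by_cases h : ∃ r', Cn w.L Y.x.L o q r z r'
  · obtain ⟨r', hr'⟩ := h
    rw [pull_eq hr', pull_eq (K2VecO_cn Y.ok.per m hr'), Blk.cf_mul]
  · rw [pull_zero h, pull_zero]
    rintro ⟨r', hr'⟩
    apply h
    refine ⟨r' + (-m) * Y.l, ?_⟩
    have h1 := K2VecO_cn Y.ok.per (-m) hr'
    have h2 : r + m * (Y.l : ℤ) + -m * (Y.l : ℤ) = r := by ring
    rw [h2] at h1
    exact h1

/-- expansion in coordinates -/
theorem K2VecO_pull_sum (w : Str S) (Y : Blk S k) (b : Dual k Y.M.C) (o : Bool) (q r : ℤ) (y : Fin Y.n → k) (z : ℤ) :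
    pull w.L Y.x.L o q r (fun r' => Y.cf b r' y) z =
      ∑ j : Fin Y.n, y j * pull w.L Y.x.L o q r (fun r' => Y.cf b r' (Pi.single j 1)) z := by
  classical
  by_cases h : ∃ r', Cn w.L Y.x.L o q r z r'
  · obtain ⟨r', hr'⟩ := h
    simp only [pull_eq hr']
    have h1 : y = ∑ j : Fin Y.n, y j • (Pi.single j (1 : k) : Fin Y.n → k) := by
      funext i
      rw [Finset.sum_apply, Finset.sum_eq_single i]
      · simp
      · intro j _ hj
        simp [Pi.single_eq_of_ne (Ne.symm hj)]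
      · intro hi
        exact absurd (Finset.mem_univ i) hi
    conv_lhs => rw [h1]
    rw [map_sum]
    refine Finset.sum_congr rfl fun j _ => ?_
    rw [map_smul, smul_eq_mul]
  · simp only [pull_zero h]
    simp

theorem K2VecO_ent (B : ℕ) (f : ℤ → k) :
    ent ((List.range (60 * B + 1)).map fun (z : ℕ) => f (wp B z)) = winF B f := by
  funext i
  rw [ent_map_range]
  rfl

theorem outVecs_mem {p : NC D k} (hp : ncOk S p) {w : SC D} (hw : scOk S w) {B : ℕ} (bp : ncBig p B) (bw : scBig w B)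
    {t : List k} (ht : t ∈ outVecs B p w) : ∃ f : ℤ → k, (ncDec S p).GOutZ (scStr S w hw) (10 * B) f ∧
      (∀ z, f z ≠ 0 → z.natAbs ≤ 30 * B) ∧ ent t = winF B f := by
  classical
  unfold outVecs at ht
  rw [List.mem_flatMap] at ht
  obtain ⟨Y, hYp, ht⟩ := ht
  rw [List.mem_flatMap] at ht
  obtain ⟨r, hr, ht⟩ := ht
  rw [List.mem_flatMap] at ht
  obtain ⟨o, -, ht⟩ := ht
  rw [List.mem_flatMap] at ht
  obtain ⟨q, hq, ht⟩ := ht
  rw [List.mem_range] at hr hq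
  by_cases hord : ordC (20 * B) w (bcS Y.1) o (zp B q) (r : ℤ)
  · rw [if_pos hord, List.mem_map] at ht
    obtain ⟨j, hj, rfl⟩ := ht
    rw [List.mem_range] at hj
    have hY : bcOk S Y.1 := hp.2 Y hYp
    have bY : scBig (bcS Y.1) B := bp.2.2 Y hYp
    have hPY := bcP_le bY
    have hqB : (zp B q).natAbs ≤ 10 * B := by unfold zp; omega
    have hOrd : Ord (scStr S w hw) (bcBlk S Y.1 hY).x o (zp B q) (r : ℤ) :=
      (ordS_iff hw hY.1 _ _ _).2 ((ordS_iff_ordC hw hY.1 bw bY _ hqB (by omega)).2 hord)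
    refine ⟨fun z => pullv w Y o (zp B q) (r : ℤ) j z, ?_, ?_, K2VecO_ent B _⟩
    · unfold NF.GOutZ
      rw [ncDec_exists_Y hp (fun (Y' : Blk S k) b => ∃ (o : Bool) (q r : ℤ) (y : Fin Y'.n → k), q.natAbs ≤ 10 * B ∧
        Ord (scStr S w hw) Y'.x o q r ∧
        (fun z => pullv w Y _ (zp B _) _ j z) = pull (scStr S w hw).L Y'.x.L o q r (fun r' => Y'.cf b r' y))]
      refine ⟨Y, hYp, o, zp B q, (r : ℤ), (show Fin (bcBlk S Y.1 hY).n → k from Pi.single (⟨j, hj⟩ : Fin (bcN Y.1)) 1),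
        hqB, hOrd, ?_⟩
      funext z
      exact (pullv_eq hY hw o hord.1 hord.2.1 ⟨j, hj⟩ z).symm
    · intro z hz
      have h1 := pullv_supp hord j hz
      omega
  · rw [if_neg hord] at ht
    exact absurd ht (List.not_mem_nil)

theorem GOutZ_span {p : NC D k} (hp : ncOk S p) {w : SC D} (hw : scOk S w) {B : ℕ} (bp : ncBig p B) (bw : scBig w B)
    {f : ℤ → k} (hf : (ncDec S p).GOutZ (scStr S w hw) (10 * B) f) :
    (∀ z, f z ≠ 0 → z.natAbs ≤ 30 * B) ∧ winF B f ∈ Submodule.span k {v | ∃ t ∈ outVecs B p w, v = ent t} := by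
  classical
  unfold NF.GOutZ at hf
  rw [ncDec_exists_Y hp (fun (Y' : Blk S k) b => ∃ (o : Bool) (q r : ℤ) (y : Fin Y'.n → k), q.natAbs ≤ 10 * B ∧
        Ord (scStr S w hw) Y'.x o q r ∧
        f = pull (scStr S w hw).L Y'.x.L o q r (fun r' => Y'.cf b r' y))] at hf
  obtain ⟨Y, hYp, o, q, r, y, hqB, hOrd, hfe⟩ := hf
  have hY : bcOk S Y.1 := hp.2 Y hYp
  have bY : scBig (bcS Y.1) B := bp.2.2 Y hYp
  have hPY := bcP_le bY
  obtain ⟨r₀, hr₀, m, hm⟩ := exists_dom hY.1 ((scStr_Z hY.1 r).1 hOrd.2.1)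
  have em : r = (r₀ : ℤ) + m * ((bcBlk S Y.1 hY).l : ℤ) := hm
  subst em
  have hOrd' : Ord (scStr S w hw) (bcBlk S Y.1 hY).x o q (r₀ : ℤ) := (Ord_mul_snd _ _ _ _ _ _).1 hOrd
  have hord : ordC (20 * B) w (bcS Y.1) o q (r₀ : ℤ) :=
    (ordS_iff_ordC hw hY.1 bw bY _ hqB (by omega)).1 ((ordS_iff hw hY.1 _ _ _).1 hOrd')
  set y' : Fin (bcN Y.1) → k :=
    (((bcBlk S Y.1 hY).T ^ m : (Fin (bcBlk S Y.1 hY).n → k) ≃ₗ[k] (Fin (bcBlk S Y.1 hY).n → k)) y) with hy'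
  have hfz : ∀ z, f z = ∑ j : Fin (bcN Y.1), y' j * pullv w Y o q (r₀ : ℤ) (j : ℕ) z := by
    intro z
    rw [hfe, K2VecO_pull_mul, K2VecO_pull_sum]
    refine Finset.sum_congr rfl fun j _ => ?_
    congr 1
    exact pullv_eq hY hw o hord.1 hord.2.1 j z
  refine ⟨fun z hz => ?_, ?_⟩
  · rw [hfz] at hz
    obtain ⟨j, -, hj⟩ := Finset.exists_ne_zero_of_sum_ne_zero hz
    have h1 := pullv_supp hord (j : ℕ) (right_ne_zero_of_mul hj)
    omega
  · have h2 : winF B f = ∑ j : Fin (bcN Y.1), y' j • winF B (fun z => pullv w Y o q (r₀ : ℤ) (j : ℕ) z) := by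
      funext i
      rw [Finset.sum_apply]
      unfold winF
      by_cases hi : i < 60 * B + 1
      · simp only [if_pos hi, Pi.smul_apply, smul_eq_mul]
        exact hfz _
      · simp only [if_neg hi, Pi.smul_apply, smul_eq_mul, mul_zero, Finset.sum_const_zero]
    rw [h2]
    refine Submodule.sum_mem _ fun j _ => Submodule.smul_mem _ _ (Submodule.subset_span ?_)
    have hq0 : zp B (q + ((10 * B : ℕ) : ℤ)).toNat = q := by
      unfold zp
      omega
    refine ⟨(List.range (60 * B + 1)).map fun (z : ℕ) => pullv w Y o q (r₀ : ℤ) (j : ℕ) (wp B z), ?_,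
      (K2VecO_ent B (fun z => pullv w Y o q (r₀ : ℤ) (j : ℕ) z)).symm⟩
    unfold outVecs
    rw [List.mem_flatMap]
    refine ⟨Y, hYp, ?_⟩
    rw [List.mem_flatMap]
    refine ⟨r₀, List.mem_range.2 hr₀, ?_⟩
    rw [List.mem_flatMap]
    refine ⟨o, by cases o <;> simp, ?_⟩
    rw [List.mem_flatMap]
    refine ⟨(q + ((10 * B : ℕ) : ℤ)).toNat, List.mem_range.2 (by omega), ?_⟩
    rw [hq0, if_pos hord, List.mem_map]
    exact ⟨(j : ℕ), List.mem_range.2 j.2, rfl⟩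

end StrAlg
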