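import Pool.Agent.Lib.MP_b9fd58_lc.K2VecI
import Pool.Agent.Lib.MP_b9fd58_lc.K2VecO
import Pool.Agent.Lib.MP_b9fd58_lc.K2Lb
import Pool.Agent.Lib.MP_b9fd58_lc.KCertS
import Pool.Agent.Lib.MP_b9fd58_lc.H2B

/-!
# Stream K2: ranks on strings
-/

set_option autoImplicit false

namespace StrAlg

open Module

variable {D : Dat} {k : Type} [Field k] {S : Sides D}

/-- the finite sum over the window is the `finsum` -/
theorem K2SA_sum (B : ℕ) {t s : ℤ → k} (hs : ∀ z, s z ≠ 0 → z.natAbs ≤ 30 * B) :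
    ∑ᶠ q, t q * s q = ∑ z ∈ Finset.range (60 * B + 1), winF B t z * winF B s z := by
  have h1 : Function.support (fun q => t q * s q) ⊆ (((Finset.range (60 * B + 1)).image (wp B) : Finset ℤ) : Set ℤ) := by
    intro q hq
    have h2 : s q ≠ 0 := right_ne_zero_of_mul (Function.mem_support.1 hq)
    have h3 := hs q h2
    rw [Finset.mem_coe, Finset.mem_image]
    refine ⟨(q + ((30 * B : ℕ) : ℤ)).toNat, ?_, ?_⟩
    · rw [Finset.mem_range]
      omega
    · unfold wp
      omega
  rw [finsum_eq_sum_of_support_subset _ h1, Finset.sum_image]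
  · refine Finset.sum_congr rfl fun z hz => ?_
    rw [Finset.mem_range] at hz
    unfold winF
    rw [if_pos hz, if_pos hz]
  · intro a _ b _ hab
    unfold wp at hab
    omega

/-- the bilinear form on the window -/
def K2SA_form (k : Type) [Field k] (L : ℕ) : (ℕ → k) →ₗ[k] (ℕ → k) →ₗ[k] k :=
  LinearMap.mk₂ k (fun x y => ∑ z ∈ Finset.range L, y z * x z)
    (fun x x' y => by
      rw [← Finset.sum_add_distrib]
      exact Finset.sum_congr rfl fun z _ => by rw [Pi.add_apply, mul_add])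
    (fun a x y => by
      rw [Finset.smul_sum]
      exact Finset.sum_congr rfl fun z _ => by rw [Pi.smul_apply, smul_eq_mul, smul_eq_mul]; ring)
    (fun x y y' => by
      rw [← Finset.sum_add_distrib]
      exact Finset.sum_congr rfl fun z _ => by rw [Pi.add_apply, add_mul])
    (fun a x y => by
      rw [Finset.smul_sum]
      exact Finset.sum_congr rfl fun z _ => by rw [Pi.smul_apply, smul_eq_mul, smul_eq_mul]; ring)

theorem K2SA_form_apply (L : ℕ) (x y : ℕ → k) : K2SA_form k L x y = ∑ z ∈ Finset.range L, y z * x z := rfl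

/-- `rkGe_pairM`, `det_span` (for the bilinear form `(s, t) ↦ ∑ z ∈ range (60 B + 1), t z * s z` on `ℕ → k`), `inVecs_mem`, `GInZ_span`, …; the finite
sum over the window is the `finsum` (supports in `[-30 B, 30 B]`). -/
theorem matS_iff {p : NC D k} (hp : ncOk S p) {w : SC D} (hw : scOk S w) {B : ℕ} (bp : ncBig p B) (bw : scBig w B) (n : ℕ) :
    rkGe (matS B p w) n ↔ ∃ s t : Fin n → ℤ → k, (∀ j, (ncDec S p).GInZ (scStr S w hw) (10 * B) (s j)) ∧
      (∀ i, (ncDec S p).GOutZ (scStr S w hw) (10 * B) (t i)) ∧ (Matrix.of fun i j => ∑ᶠ q, t i q * s j q).det ≠ 0 := by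
  unfold matS
  rw [rkGe_pairM]
  constructor
  · rintro ⟨t, s, ht, hs, hd⟩
    choose f hf1 hf2 hf3 using fun j => inVecs_mem hp hw bp bw (hs j)
    choose g hg1 hg2 hg3 using fun i => outVecs_mem hp hw bp bw (ht i)
    refine ⟨f, g, hf1, hg1, ?_⟩
    have h1 : (Matrix.of fun i j => ∑ᶠ q, g i q * f j q) =
        (Matrix.of fun i j => ∑ z ∈ Finset.range (60 * B + 1), ent (t i) z * ent (s j) z) := by
      ext i j
      rw [Matrix.of_apply, Matrix.of_apply, K2SA_sum B (hf2 j), ← hf3 j, ← hg3 i]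
    rw [h1]
    exact hd
  · rintro ⟨s, t, hs, ht, hd⟩
    have h1 : (Matrix.of fun i j => ∑ᶠ q, t i q * s j q) =
        (Matrix.of fun i j => K2SA_form k (60 * B + 1) (winF B (s j)) (winF B (t i))) := by
      ext i j
      rw [Matrix.of_apply, Matrix.of_apply, K2SA_sum B (GInZ_span hp hw bp bw (hs j)).1, K2SA_form_apply]
    rw [h1] at hd
    obtain ⟨x, y, hx, hy, hd'⟩ := det_span (K2SA_form k (60 * B + 1)) _ _ (fun j => winF B (s j)) (fun i => winF B (t i))
      (fun j => (GInZ_span hp hw bp bw (hs j)).2) (fun i => (GOutZ_span hp hw bp bw (ht i)).2) hd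
    choose s' hs1 hs2 using hx
    choose t' ht1 ht2 using hy
    refine ⟨t', s', ht1, hs1, ?_⟩
    have h2 : (Matrix.of fun i j => ∑ z ∈ Finset.range (60 * B + 1), ent (t' i) z * ent (s' j) z) =
        (Matrix.of fun i j => K2SA_form k (60 * B + 1) (x j) (y i)) := by
      ext i j
      rw [Matrix.of_apply, Matrix.of_apply, K2SA_form_apply, hs2 j, ht2 i]
    rw [h2]
    exact hd'

end StrAlg
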