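import Pool.Agent.Lib.MP_b9fd58_lc.S2Def

/-!
# Stage 2, job S2C: ranks are additive for direct sums
-/

set_option autoImplicit false

namespace StrAlg

open Module

variable {D : Dat} {k : Type} [Field k]

theorem s2c_up_map (p : Pr D k) {M N : Md D k} {F : M.C →ₗ[k] N.C} (hF : M.Hom N F) {x : M.C}
    (hx : x ∈ p.upS M) : F x ∈ p.upS N := by
  obtain ⟨f, hf, rfl⟩ := hx
  exact ⟨F ∘ₗ f, hf.comp' hF, rfl⟩

theorem s2c_dn_map (p : Pr D k) {M N : Md D k} {F : M.C →ₗ[k] N.C} (hF : M.Hom N F) {x : M.C}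
    (hx : x ∈ p.dnS M) : F x ∈ p.dnS N := by
  intro G hG
  exact hx (G ∘ₗ F) (hF.comp' hG)

/-- Ranks are additive for direct sums.

Proof: let `e : N ≃ N₁ × N₂` be the isomorphism of the decomposition; `x ∈ up N ↔ r₁ x ∈ up N₁ ∧ r₂ x ∈ up N₂` (if
`f₁ a = r₁ x`, `f₂ a = r₂ x` then `(i₁ f₁ + i₂ f₂) a = x`), the same for `dn`. So `up N / (up N ∩ dn N)` is the product of the
two quotients; `toENat` is additive. -/
theorem Pr.rk_dec (p : Pr D k) {N N₁ N₂ : Md D k} (h : N.Dec N₁ N₂) : p.rk N = p.rk N₁ + p.rk N₂ := by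
  obtain ⟨i₁, r₁, i₂, r₂, hi₁, hr₁, hi₂, hr₂, e11, e22, e12, e21, es⟩ := h
  have g11 : ∀ x, r₁ (i₁ x) = x := fun x => LinearMap.congr_fun e11 x
  have g22 : ∀ x, r₂ (i₂ x) = x := fun x => LinearMap.congr_fun e22 x
  have g12 : ∀ x, r₁ (i₂ x) = 0 := fun x => LinearMap.congr_fun e12 x
  have g21 : ∀ x, r₂ (i₁ x) = 0 := fun x => LinearMap.congr_fun e21 x
  have gs : ∀ x, i₁ (r₁ x) + i₂ (r₂ x) = x := fun x => LinearMap.congr_fun es x
  let Φ₁ : p.upS N →ₗ[k] (p.upS N₁ ⧸ ((p.dnS N₁).comap (p.upS N₁).subtype)) :=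
    (Submodule.mkQ _) ∘ₗ (r₁.restrict (fun x hx => s2c_up_map p hr₁ hx))
  let Φ₂ : p.upS N →ₗ[k] (p.upS N₂ ⧸ ((p.dnS N₂).comap (p.upS N₂).subtype)) :=
    (Submodule.mkQ _) ∘ₗ (r₂.restrict (fun x hx => s2c_up_map p hr₂ hx))
  have k1 : ∀ x : p.upS N, Φ₁ x = 0 ↔ r₁ x ∈ p.dnS N₁ := by
    intro x
    show Submodule.Quotient.mk _ = 0 ↔ _
    rw [Submodule.Quotient.mk_eq_zero, Submodule.mem_comap]
    rfl
  have k2 : ∀ x : p.upS N, Φ₂ x = 0 ↔ r₂ x ∈ p.dnS N₂ := by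
    intro x
    show Submodule.Quotient.mk _ = 0 ↔ _
    rw [Submodule.Quotient.mk_eq_zero, Submodule.mem_comap]
    rfl
  have hker : (p.dnS N).comap (p.upS N).subtype = LinearMap.ker (Φ₁.prod Φ₂) := by
    ext x
    have hx0 : (Φ₁.prod Φ₂) x = 0 ↔ Φ₁ x = 0 ∧ Φ₂ x = 0 := Prod.mk_eq_zero
    rw [Submodule.mem_comap, LinearMap.mem_ker, hx0, k1, k2]
    constructor
    · intro hx
      exact ⟨s2c_dn_map p hr₁ hx, s2c_dn_map p hr₂ hx⟩
    · rintro ⟨h1, h2⟩
      have h3 := add_mem (s2c_dn_map p hi₁ h1) (s2c_dn_map p hi₂ h2)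
      rw [gs] at h3
      exact h3
  have hsurj : Function.Surjective (Φ₁.prod Φ₂) := by
    rintro ⟨y1, y2⟩
    obtain ⟨y1, rfl⟩ := Submodule.mkQ_surjective _ y1
    obtain ⟨y2, rfl⟩ := Submodule.mkQ_surjective _ y2
    refine ⟨⟨i₁ y1 + i₂ y2, add_mem (s2c_up_map p hi₁ y1.2) (s2c_up_map p hi₂ y2.2)⟩, ?_⟩
    have a1 : (r₁.restrict (fun x hx => s2c_up_map p hr₁ hx))
        (⟨i₁ y1 + i₂ y2, add_mem (s2c_up_map p hi₁ y1.2) (s2c_up_map p hi₂ y2.2)⟩ : p.upS N) = y1 := by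
      apply Subtype.ext
      rw [LinearMap.restrict_apply]
      show r₁ (i₁ y1 + i₂ y2) = y1
      rw [map_add, g11, g12, add_zero]
    have a2 : (r₂.restrict (fun x hx => s2c_up_map p hr₂ hx))
        (⟨i₁ y1 + i₂ y2, add_mem (s2c_up_map p hi₁ y1.2) (s2c_up_map p hi₂ y2.2)⟩ : p.upS N) = y2 := by
      apply Subtype.ext
      rw [LinearMap.restrict_apply]
      show r₂ (i₁ y1 + i₂ y2) = y2
      rw [map_add, g21, g22, zero_add]
    refine Prod.ext ?_ ?_
    · show Submodule.mkQ _ ((r₁.restrict (fun x hx => s2c_up_map p hr₁ hx)) _) = _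
      rw [a1]
    · show Submodule.mkQ _ ((r₂.restrict (fun x hx => s2c_up_map p hr₂ hx)) _) = _
      rw [a2]
  have hr := ((Submodule.quotEquivOfEq _ _ hker).trans
    ((Φ₁.prod Φ₂).quotKerEquivOfSurjective hsurj)).rank_eq
  unfold Pr.rk
  rw [hr, rank_prod', map_add]

theorem Pr.rk_prod (p : Pr D k) (N₁ N₂ : Md D k) : p.rk (N₁.prod N₂) = p.rk N₁ + p.rk N₂ := by
  refine p.rk_dec ⟨LinearMap.inl k N₁.C N₂.C, LinearMap.fst k N₁.C N₂.C, LinearMap.inr k N₁.C N₂.C,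
    LinearMap.snd k N₁.C N₂.C, ?_, ?_, ?_, ?_, ?_, ?_, ?_, ?_, ?_⟩
  · intro g m
    show (N₁.Q.op g m, (0 : N₂.C)) = (N₁.Q.op g m, N₂.Q.op g 0)
    rw [map_zero]
  · intro g m
    rfl
  · intro g m
    show ((0 : N₁.C), N₂.Q.op g m) = (N₁.Q.op g 0, N₂.Q.op g m)
    rw [map_zero]
  · intro g m
    rfl
  · rfl
  · rfl
  · rfl
  · rfl
  · refine LinearMap.ext fun x => ?_
    show (x.1, (0 : N₂.C)) + ((0 : N₁.C), x.2) = x
    rw [Prod.mk_add_mk, add_zero, zero_add]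
    rfl

/-- a retract is a direct summand: the complement is the kernel of the retraction -/
theorem Md.Ret.dec {M N : Md D k} (h : M.Ret N) : ∃ M' : Md D k, N.Dec M M' := by
  obtain ⟨i, r, hi, hr, e⟩ := h
  have g : ∀ x, r (i x) = x := fun x => LinearMap.congr_fun e x
  have hk : ∀ g, ∀ n ∈ LinearMap.ker r, N.Q.op g n ∈ LinearMap.ker r := by
    intro g n hn
    rw [LinearMap.mem_ker] at hn ⊢
    rw [hr g n, hn, map_zero]
  let s : N.C →ₗ[k] LinearMap.ker r :=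
    LinearMap.codRestrict (LinearMap.ker r) (LinearMap.id - i ∘ₗ r) (by
      intro x
      rw [LinearMap.mem_ker]
      show r (x - i (r x)) = 0
      rw [map_sub, g, sub_self])
  have hs : ∀ x, ((s x : LinearMap.ker r) : N.C) = x - i (r x) := fun x => rfl
  refine ⟨⟨LinearMap.ker r, N.Q.restr (LinearMap.ker r) hk⟩, i, r, (LinearMap.ker r).subtype, s,
    hi, hr, ?_, ?_, e, ?_, ?_, ?_, ?_⟩
  · intro g m
    rfl
  · intro g m
    apply Subtype.ext
    show N.Q.op g m - i (r (N.Q.op g m)) = N.Q.op g (m - i (r m))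
    rw [map_sub, hr g m, hi g (r m)]
  · refine LinearMap.ext fun x => Subtype.ext ?_
    show (x : N.C) - i (r x) = x
    have hx : r (x : N.C) = 0 := x.2
    rw [hx, map_zero, sub_zero]
  · refine LinearMap.ext fun x => ?_
    exact x.2
  · refine LinearMap.ext fun x => Subtype.ext ?_
    show i x - i (r (i x)) = 0
    rw [g, sub_self]
  · refine LinearMap.ext fun x => ?_
    show i (r x) + (x - i (r x)) = x
    abel

/-- the zero module -/
def s2cZero (D : Dat) (k : Type) [Field k] : Md D k where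
  C := PUnit
  Q :=
    { op := fun _ => 0
      idem := fun _ _ => rfl
      orth := fun _ _ _ _ => rfl
      one := fun _ => rfl
      src := fun _ _ => rfl
      tgt := fun _ _ => rfl
      rel := fun _ _ _ => rfl }

theorem s2c_rk_zero (p : Pr D k) : p.rk (s2cZero D k) = 0 := by
  have hsub : Subsingleton (s2cZero D k).C := inferInstanceAs (Subsingleton PUnit)
  have : Subsingleton (p.upS (s2cZero D k) ⧸
      ((p.dnS (s2cZero D k)).comap (p.upS (s2cZero D k)).subtype)) := by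
    refine ⟨fun a b => ?_⟩
    obtain ⟨a, rfl⟩ := Submodule.mkQ_surjective _ a
    obtain ⟨b, rfl⟩ := Submodule.mkQ_surjective _ b
    have : a = b := Subtype.ext (Subsingleton.elim _ _)
    rw [this]
  unfold Pr.rk
  rw [rank_subsingleton']
  exact map_zero _

/-- direct sums of finite lists of modules -/
theorem Pr.rk_list (cs : List (Md D k)) : ∃ N : Md D k, ∀ p : Pr D k, p.rk N = (cs.map p.rk).sum := by
  induction cs with
  | nil => exact ⟨s2cZero D k, fun p => by rw [s2c_rk_zero]; rfl⟩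
  | cons c cs ih =>
    obtain ⟨N, hN⟩ := ih
    exact ⟨c.prod N, fun p => by rw [p.rk_prod, hN, List.map_cons, List.sum_cons]⟩

end StrAlg
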