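import Pool.Agent.Lib.MP_b9fd58_lc.K2PrimB
import Pool.Agent.Lib.MP_b9fd58_lc.K2PR
import Pool.Agent.Lib.MP_b9fd58_lc.UG
import Pool.Agent.Lib.MP_b9fd58_lc.S2C

/-!
# Stream K2: modules for arbitrary polynomials `π`
-/

set_option autoImplicit false

namespace StrAlg

open Module Polynomial

variable {D : Dat} {k : Type} [Field k] {S : Sides D}

theorem perOK_of_minPer {c : Str S} {l : ℕ} (hl : c.MinPer l) {V : Type} [AddCommGroup V] [Module k V] (T : V ≃ₗ[k] V) :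
    c.PerOK l T :=
  ⟨hl.2.1.1, fun _ => hl.2.1.2, fun h => absurd h hl.1.ne'⟩

theorem K2Snd_LPrim (p : NF S k) (c : Str S) (π : k[X]) :
    finrank k (p.LPrim c π) = finrank k (prim π p.endY.dualMap (p.LD c)) :=
  p.finrank_LPrim c π

/-- the common induction -/
theorem K2Snd_ind (c : Str S) (d : NF S k → k[X] → ℕ)
    (d1 : ∀ p π, IsUnit π → d p π = 0)
    (dpow : ∀ p π i, i ≠ 0 → d p (π ^ i) = d p π)
    (dmul : ∀ p x y, IsCoprime x y → d p (x * y) = d p x + d p y)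
    (hM : ∀ π : k[X], Irreducible π → π.coeff 0 ≠ 0 → ∃ M : Md D k, ∀ p : NF S k,
      (p.Sep c → p.Crit c → p.pr.rk M = d p π) ∧ (¬ p.Crit c → p.pr.rk M = ⊤)) (π : k[X]) :
    π.coeff 0 ≠ 0 → ∃ M : Md D k, ∀ p : NF S k, (p.Sep c → p.Crit c → p.pr.rk M = d p π) ∧
      (¬ IsUnit π → ¬ p.Crit c → p.pr.rk M = ⊤) := by
  have hunit : ∀ x : k[X], IsUnit x → ∃ M : Md D k, ∀ p : NF S k, (p.Sep c → p.Crit c → p.pr.rk M = d p x) ∧
      (¬ IsUnit x → ¬ p.Crit c → p.pr.rk M = ⊤) := by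
    intro x hx
    refine ⟨s2cZero D k, fun p => ⟨fun _ _ => ?_, fun h => absurd hx h⟩⟩
    rw [s2c_rk_zero, d1 p x hx, Nat.cast_zero]
  refine UniqueFactorizationMonoid.induction_on_coprime
    (P := fun π : k[X] => π.coeff 0 ≠ 0 → ∃ M : Md D k, ∀ p : NF S k,
      (p.Sep c → p.Crit c → p.pr.rk M = d p π) ∧ (¬ IsUnit π → ¬ p.Crit c → p.pr.rk M = ⊤)) π ?_ ?_ ?_ ?_
  · intro h
    exact absurd (Polynomial.coeff_zero 0) h
  · intro x hx _
    exact hunit x hx
  · intro π i hπ h0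
    rcases Nat.eq_zero_or_pos i with rfl | hi
    · rw [pow_zero]
      exact hunit 1 isUnit_one
    · have h1 : π.coeff 0 ≠ 0 := by
        intro h
        apply h0
        rw [Polynomial.coeff_zero_eq_eval_zero, Polynomial.eval_pow, ← Polynomial.coeff_zero_eq_eval_zero, h,
          zero_pow hi.ne']
      obtain ⟨M, hM⟩ := hM π hπ.irreducible h1
      refine ⟨M, fun p => ⟨fun hs hc => ?_, fun _ hc => (hM p).2 hc⟩⟩
      rw [dpow p π i hi.ne', (hM p).1 hs hc]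
  · intro x y hxy ihx ihy h0
    rw [Polynomial.mul_coeff_zero] at h0
    obtain ⟨Mx, hx⟩ := ihx (left_ne_zero_of_mul h0)
    obtain ⟨My, hy⟩ := ihy (right_ne_zero_of_mul h0)
    refine ⟨Mx.prod My, fun p => ⟨fun hs hc => ?_, fun hu hc => ?_⟩⟩
    · rw [p.pr.rk_prod, (hx p).1 hs hc, (hy p).1 hs hc, dmul p x y hxy.isCoprime, Nat.cast_add]
    · rw [p.pr.rk_prod]
      by_cases h1 : IsUnit x
      · have h2 : ¬ IsUnit y := fun h2 => hu (h1.mul h2)
        rw [(hy p).2 h2 hc, add_top]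
      · rw [(hx p).2 h1 hc, top_add]

/-- Induction over coprime factorisations (`UniqueFactorizationMonoid.induction_on_coprime` on `k[X]`, or `induction_on_prime` …): for a unit
take the zero module (`s2cZero`, `s2c_rk_zero`, `prim_unit`), for `π ^ i` with `π` prime the module of `exists_isPR` (`rkP`, `rkP_top`,
`prim_pow`), for coprime factors the direct sum (`Pr.rk_prod`, `finrank_prim_mul`; `NF.UPrim_eq`). -/
theorem exists_P (c : Str S) {l : ℕ} (hl : c.MinPer l) (π : k[X]) (h0 : π.coeff 0 ≠ 0) :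
    ∃ M : Md D k, ∀ p : NF S k, (p.Sep c → p.Crit c → p.pr.rk M = finrank k (p.UPrim c π)) ∧
      (¬ IsUnit π → ¬ p.Crit c → p.pr.rk M = ⊤) := by
  refine K2Snd_ind c (fun p π => finrank k (p.UPrim c π)) ?_ ?_ ?_ ?_ π h0
  · intro p π hπ
    show finrank k (p.UPrim c π) = 0
    rw [NF.UPrim_eq, prim_unit hπ, finrank_bot]
  · intro p π i hi
    show finrank k (p.UPrim c (π ^ i)) = finrank k (p.UPrim c π)
    rw [NF.UPrim_eq, NF.UPrim_eq, prim_pow π _ hi]
  · intro p x y hxy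
    show finrank k (p.UPrim c (x * y)) = finrank k (p.UPrim c x) + finrank k (p.UPrim c y)
    rw [NF.UPrim_eq, NF.UPrim_eq, NF.UPrim_eq]
    exact finrank_prim_mul hxy _ (p.USpan_actX c)
  · intro π hπ h1
    obtain ⟨V, _, _, T, hT⟩ := exists_isPR π hπ h1
    refine ⟨c.ME l T (perOK_of_minPer hl T), fun p => ⟨fun hs hc => ?_, fun hc => ?_⟩⟩
    · exact rkP hl hπ hT _ p hs hc
    · exact rkP_top hl hπ hT _ p hc

/-- the same for the dual type (`rkA`, `rkA_top`, `NF.finrank_LPrim`) -/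
theorem exists_A (c : Str S) {l : ℕ} (hl : c.MinPer l) (π : k[X]) (h0 : π.coeff 0 ≠ 0) :
    ∃ M : Md D k, ∀ p : NF S k, (p.Sep c → p.Crit c → p.pr.rk M = finrank k (p.LPrim c π)) ∧
      (¬ IsUnit π → ¬ p.Crit c → p.pr.rk M = ⊤) := by
  refine K2Snd_ind c (fun p π => finrank k (p.LPrim c π)) ?_ ?_ ?_ ?_ π h0
  · intro p π hπ
    show finrank k (p.LPrim c π) = 0
    rw [K2Snd_LPrim, prim_unit hπ, finrank_bot]
  · intro p π i hi
    show finrank k (p.LPrim c (π ^ i)) = finrank k (p.LPrim c π)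
    rw [K2Snd_LPrim, K2Snd_LPrim, prim_pow π _ hi]
  · intro p x y hxy
    show finrank k (p.LPrim c (x * y)) = finrank k (p.LPrim c x) + finrank k (p.LPrim c y)
    rw [K2Snd_LPrim, K2Snd_LPrim, K2Snd_LPrim]
    exact finrank_prim_mul hxy _ (p.LD_inv c)
  · intro π hπ h1
    obtain ⟨V, _, _, T, hT⟩ := exists_isPR π hπ h1
    refine ⟨c.ME l T.dualMap (perOK_of_minPer hl T.dualMap), fun p => ⟨fun hs hc => ?_, fun hc => ?_⟩⟩
    · exact rkA hl hπ hT _ p hs hc
    · exact rkA_top hl hπ hT _ p hc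

end StrAlg
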