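import Pool.Agent.Lib.MP_b9fd58_lc.K2PrimA
import Pool.Agent.Lib.MP_b9fd58_lc.K2PrimB
import Pool.Agent.Lib.MP_b9fd58_lc.K2Lb
import Pool.Agent.Lib.MP_b9fd58_lc.KPR
import Pool.Agent.Lib.MP_b9fd58_lc.KSame
import Pool.Agent.Lib.MP_b9fd58_lc.UG

/-!
# Stream K2: the rows of the type P
-/

set_option autoImplicit false

namespace StrAlg

open Module Polynomial

variable {D : Dat} {k : Type} [Field k] {S : Sides D}

theorem K2USp_piV (n : ℕ) (T π : List k) (N : ℕ) (v : List k) :
    vecOf n (piV n T π N v) = aeval (Matrix.toLin' (matOf n T)) (polOf π ^ (N + 1)) (vecOf n v) := by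
  unfold piV
  induction N with
  | zero =>
    rw [Function.iterate_succ_apply', Function.iterate_zero_apply, vecOf_polV, zero_add, pow_one]
  | succ N ih =>
    rw [Function.iterate_succ_apply', vecOf_polV, ih, ← Module.End.mul_apply, ← map_mul, ← pow_succ']

theorem vecOf_eV (n : ℕ) (T π h : List k) (N : ℕ) (v : List k) :
    vecOf n (eV n T π h N v) =
      aeval (Matrix.toLin' (matOf n T)) (1 - polOf π ^ (N + 1) * polOf h) (vecOf n v) := by
  have h1 : vecOf n (eV n T π h N v) = vecOf n v - vecOf n (piV n T π N (polV n T h v)) := by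
    unfold eV
    rw [vecOf_map_range]
    rfl
  rw [h1, K2USp_piV, vecOf_polV, map_sub, map_one, map_mul]
  rfl

theorem piV_eq_zero_iff (n : ℕ) (T π h : List k) (N : ℕ) (v : List k) :
    piV n T π N (eV n T π h N v) = zeroV n ↔
      aeval (Matrix.toLin' (matOf n T)) (polOf π ^ (N + 1) * (1 - polOf π ^ (N + 1) * polOf h))
        (vecOf n v) = 0 := by
  have hform : ∃ F : ℕ → k, piV n T π N (eV n T π h N v) = (List.range n).map F := by
    unfold piV
    rw [Function.iterate_succ_apply']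
    exact ⟨_, rfl⟩
  obtain ⟨F, hF⟩ := hform
  have h2 : vecOf n (piV n T π N (eV n T π h N v)) =
      aeval (Matrix.toLin' (matOf n T)) (polOf π ^ (N + 1) * (1 - polOf π ^ (N + 1) * polOf h))
        (vecOf n v) := by
    rw [K2USp_piV, vecOf_eV, map_mul, Module.End.mul_apply]
  have h3 := vecOf_zeroV (k := k) n
  rw [← h2, hF]
  unfold zeroV at h3 ⊢
  rw [map_range_eq_iff_vecOf, h3]

/-- the decoded normal form, explicitly -/
noncomputable def K2USp_E (S : Sides D) (p : NC D k) (h : ncOk S p) : NF S k :=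
    { m := p.1.length
      X := fun i => bcBlk S (p.1.get i).1 (h.1 _ (List.get_mem p.1 i))
      a := fun i => ecElt S (p.1.get i) (h.1 _ (List.get_mem p.1 i))
      m' := p.2.length
      Y := fun i => bcBlk S (p.2.get i).1 (h.2 _ (List.get_mem p.2 i))
      b := fun i => ecFnl S (p.2.get i) (h.2 _ (List.get_mem p.2 i)) }

theorem K2USp_dec (p : NC D k) (h : ncOk S p) : ncDec S p = K2USp_E S p h := by
  unfold ncDec
  rw [dif_pos h]
  rfl

omit [Field k] in
theorem K2USp_mem {B : ℕ} {p : NC D k} {c : BC D k} {g : GX D k} : g ∈ gP B p c ↔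
    g.1 ∈ p.2 ∧ g.2.1 < bcP c ∧ g.2.2.1 < bcP g.1.1 ∧
      ordC (20 * B) (bcS c) (bcS g.1.1) g.2.2.2.1 (g.2.1 : ℤ) (g.2.2.1 : ℤ) ∧ g.2.2.2.2 < bcN g.1.1 := by
  classical
  obtain ⟨Y, a, b, o, j⟩ := g
  unfold gP
  simp only [List.mem_flatMap, List.mem_range]
  constructor
  · rintro ⟨Y', hY', a', ha', b', hb', o', -, h⟩
    split_ifs at h with hord
    · obtain ⟨j', hj', he⟩ := List.mem_map.1 h
      rw [List.mem_range] at hj'
      simp only [Prod.mk.injEq] at he
      obtain ⟨rfl, rfl, rfl, rfl, rfl⟩ := he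
      exact ⟨hY', ha', hb', hord, hj'⟩
    · exact absurd h (List.not_mem_nil)
  · rintro ⟨hY, ha, hb, hord, hj⟩
    refine ⟨Y, hY, a, ha, b, hb, o, by cases o <;> simp, ?_⟩
    rw [if_pos hord]
    exact List.mem_map.2 ⟨j, List.mem_range.2 hj, rfl⟩

open Classical in
/-- the joint vectors -/
noncomputable def K2USp_x (S : Sides D) (p : NC D k) (h : ncOk S p) (B : ℕ) (c : BC D k) (hc : bcOk S c)
    (g : GX D k) : (i : Fin (K2USp_E S p h).m) → (Fin ((K2USp_E S p h).X i).n → k) :=
  fun i => if ((K2USp_E S p h).X i).x = (bcBlk S c hc).x then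
    vecOf (bcN (p.1.get i).1) (vP B (p.1.get i) g) else 0

theorem K2USp_x_pos {p : NC D k} (hp : ncOk S p) {B : ℕ} {c : BC D k} (hc : bcOk S c) (g : GX D k)
    (i : Fin p.1.length) (hx : (bcBlk S (p.1.get i).1 (hp.1 _ (List.get_mem p.1 i))).x = (bcBlk S c hc).x) :
    K2USp_x S p hp B c hc g i = vecOf (bcN (p.1.get i).1) (vP B (p.1.get i) g) := if_pos hx

theorem K2USp_x_neg {p : NC D k} (hp : ncOk S p) {B : ℕ} {c : BC D k} (hc : bcOk S c) (g : GX D k)
    (i : Fin p.1.length) (hx : ¬ (bcBlk S (p.1.get i).1 (hp.1 _ (List.get_mem p.1 i))).x = (bcBlk S c hc).x) :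
    K2USp_x S p hp B c hc g i = 0 := if_neg hx

theorem K2USp_OmVs_pos (p : NF S k) (c : Str S) (j : Fin p.m') (o : Bool) (q r : ℤ) (y : Fin (p.Y j).n → k)
    (i : Fin p.m) (hx : (p.X i).x = c) :
    p.OmVs c j o q r y i = OmV (p.X i) (p.Y j) (p.a i) (p.b j) o q r y := if_pos hx

theorem K2USp_OmVs_neg (p : NF S k) (c : Str S) (j : Fin p.m') (o : Bool) (q r : ℤ) (y : Fin (p.Y j).n → k)
    (i : Fin p.m) (hx : ¬ (p.X i).x = c) : p.OmVs c j o q r y i = 0 := if_neg hx

theorem K2USp_OmVs {p : NC D k} (hp : ncOk S p) {c : BC D k} (hc : bcOk S c) {B : ℕ}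
    (bp : ncBig p B) (bc : scBig (bcS c) B) (j : Fin p.2.length) (o : Bool) (a b : ℕ) (ha : a < bcP c)
    (hb : b < bcP (p.2.get j).1)
    (hord : ordC (20 * B) (bcS c) (bcS (p.2.get j).1) o (a : ℤ) (b : ℤ)) (L : List k) :
    (K2USp_E S p hp).OmVs (bcBlk S c hc).x j o (a : ℤ) (b : ℤ) (vecOf (bcN (p.2.get j).1) L) =
      ∑ j' : Fin (bcN (p.2.get j).1), ent L j' •
        K2USp_x S p hp B c hc (p.2.get j, a, b, o, (j' : ℕ)) := by
  have hY := hp.2 _ (List.get_mem p.2 j)
  have bY := bp.2.2 _ (List.get_mem p.2 j)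
  funext i
  rw [Finset.sum_apply]
  simp only [Pi.smul_apply]
  have hX := hp.1 _ (List.get_mem p.1 i)
  have bX := bp.2.1 _ (List.get_mem p.1 i)
  by_cases hx : (bcBlk S (p.1.get i).1 hX).x = (bcBlk S c hc).x
  · have h1 := (KPR_ord hc hY bc bY ha hb o).2 hord
    rw [← hx] at h1
    have h2 := (ordS_iff hX.1 hY.1 o _ _).1 h1
    have h3 := bcP_le bc
    have h4 := bcP_le bY
    have h5 : ordC (20 * B) (bcS (p.1.get i).1) (bcS (p.2.get j).1) o (a : ℤ) (b : ℤ) :=
      (ordS_iff_ordC hX.1 hY.1 bX bY o (by omega) (by omega)).1 h2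
    have h6 := OmV_eq hX hY h5 L
    rw [KPR_omV] at h6
    refine (K2USp_OmVs_pos (K2USp_E S p hp) _ j o _ _ _ i hx).trans (h6.trans ?_)
    refine Finset.sum_congr rfl fun j' _ => ?_
    exact congrArg (fun v : Fin (bcN (p.1.get i).1) → k => ent L (j' : ℕ) • v)
      (K2USp_x_pos hp hc (p.2.get j, a, b, o, (j' : ℕ)) i hx).symm
  · refine (K2USp_OmVs_neg (K2USp_E S p hp) _ j o _ _ _ i hx).trans ?_
    symm
    refine Finset.sum_eq_zero fun j' _ => ?_
    refine (congrArg (fun v : Fin (bcN (p.1.get i).1) → k => ent L (j' : ℕ) • v)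
      (K2USp_x_neg hp hc (p.2.get j, a, b, o, (j' : ℕ)) i hx)).trans ?_
    funext z
    exact mul_zero _

theorem K2USp_l (X : Blk S k) {c : BC D k} (hc : bcOk S c) (band : c.1 = true)
    (hx : X.x = (bcBlk S c hc).x) : X.l = (bcBlk S c hc).l := by
  have h0 : 0 < (bcBlk S c hc).l := (KPR_l hc).2 band
  have h1 : (bcBlk S c hc).x.Per (bcBlk S c hc).l := ⟨(bcBlk S c hc).ok.per, (bcBlk S c hc).ok.big h0⟩
  have h2 : 0 < X.l ∧ X.l ≤ (bcBlk S c hc).l := X.min _ h0 (by rw [hx]; exact h1)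
  have h3 : X.x.Per X.l := ⟨X.ok.per, X.ok.big h2.1⟩
  rw [hx] at h3
  exact le_antisymm h2.2 ((bcBlk S c hc).min _ h2.1 h3).2

theorem K2USp_shift (p : NF S k) {c : BC D k} (hc : bcOk S c) (band : c.1 = true) (j : Fin p.m') (o : Bool)
    (a b m m' : ℤ) (y : Fin (p.Y j).n → k) :
    p.OmVs (bcBlk S c hc).x j o (a + m * ((bcBlk S c hc).l : ℤ)) (b + m' * ((p.Y j).l : ℤ)) y =
      fun i => ((p.X i).T ^ (-m) : (Fin (p.X i).n → k) ≃ₗ[k] (Fin (p.X i).n → k))
        (p.OmVs (bcBlk S c hc).x j o a b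
          (((p.Y j).T ^ m' : (Fin (p.Y j).n → k) ≃ₗ[k] (Fin (p.Y j).n → k)) y) i) := by
  funext i
  unfold NF.OmVs
  by_cases hx : (p.X i).x = (bcBlk S c hc).x
  · simp only [if_pos hx]
    rw [← K2USp_l (p.X i) hc band hx, OmV_mul_fst, OmV_mul_snd]
  · simp only [if_neg hx, map_zero]

theorem K2USp_inv (p : NF S k) (W : Submodule k ((i : Fin p.m) → (Fin (p.X i).n → k)))
    (hW : ∀ u ∈ W, p.actX Polynomial.X u ∈ W) (m : ℤ) :
    ∀ u ∈ W, (fun i => ((p.X i).T ^ m : (Fin (p.X i).n → k) ≃ₗ[k] (Fin (p.X i).n → k)) (u i)) ∈ W := by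
  have hA : ∀ u, p.actX Polynomial.X u = (LinearEquiv.piCongrRight fun i => (p.X i).T) u := by
    intro u
    funext i
    unfold NF.actX
    rw [LinearMap.pi_apply, aeval_X]
    rfl
  have hW' : ∀ u ∈ W, (LinearEquiv.piCongrRight fun i => (p.X i).T) u ∈ W := fun u hu => by
    rw [← hA]; exact hW u hu
  have hWi := inv_mem_of_invariant (LinearEquiv.piCongrRight fun i => (p.X i).T) W hW'
  induction m using Int.induction_on with
  | zero => intro u hu; simpa using hu
  | succ n ih =>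
    intro u hu
    have h1 := hW' _ (ih u hu)
    have e : (LinearEquiv.piCongrRight fun i => (p.X i).T)
        (fun i => ((p.X i).T ^ (n : ℤ) : (Fin (p.X i).n → k) ≃ₗ[k] (Fin (p.X i).n → k)) (u i)) =
        fun i => ((p.X i).T ^ ((n : ℤ) + 1) : (Fin (p.X i).n → k) ≃ₗ[k] (Fin (p.X i).n → k)) (u i) := by
      funext i
      rw [add_comm (n : ℤ) 1, zpow_add, zpow_one]
      rfl
    rwa [e] at h1
  | pred n ih =>
    intro u hu
    have h1 := hWi _ (ih u hu)
    have e : (LinearEquiv.piCongrRight fun i => (p.X i).T).symm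
        (fun i => ((p.X i).T ^ (-(n : ℤ)) : (Fin (p.X i).n → k) ≃ₗ[k] (Fin (p.X i).n → k)) (u i)) =
        fun i => ((p.X i).T ^ (-(n : ℤ) - 1) : (Fin (p.X i).n → k) ≃ₗ[k] (Fin (p.X i).n → k)) (u i) := by
      funext i
      rw [sub_eq_add_neg, add_comm (-(n : ℤ)) (-1), zpow_add, zpow_neg_one]
      rfl
    rwa [e] at h1

/-- The span `U` is generated (over the polynomials) by the vectors of `gP`: reduce `q` modulo the period of `c` (this multiplies the vector by a power
of `T`, `OmV_mul_fst`, and `T⁻¹` preserves an invariant subspace, `inv_mem_of_invariant`), `r` modulo the period of `Y` (this changes `y`,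
`OmV_mul_snd`), expand `y` in unit vectors (`OmV` is linear in `y`: `KOm_OmV`), `OmV_col`. The blocks `X i` with `(X i).x = c` are those with `sameC`
(`sameC_iff`), and then `Ord` for `c` and for `X i` are the same. -/
theorem USpan_eq {p : NC D k} (hp : ncOk S p) {c : BC D k} (hc : bcOk S c) (band : c.1 = true) {B : ℕ}
    (bp : ncBig p B) (bc : scBig (bcS c) B) :
    ∃ x : {g // g ∈ gP B p c} → ((i : Fin (ncDec S p).m) → (Fin ((ncDec S p).X i).n → k)),
      (ncDec S p).USpan (bcBlk S c hc).x = Submodule.span k {u | ∃ (h : k[X]) (g : {g // g ∈ gP B p c}),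
        u = aeval ((ncDec S p).actX Polynomial.X) h (x g)} ∧
      ∀ (g : {g // g ∈ gP B p c}) (i : Fin (ncDec S p).m) (X : EC D k) (hX : p.1[(i : ℕ)]? = some X)
        (j : ℕ) (hj : j < ((ncDec S p).X i).n), j < bcN X.1 ∧
        ((¬ sameC B X.1 c → x g i ⟨j, hj⟩ = 0) ∧ (sameC B X.1 c → x g i ⟨j, hj⟩ = ent (vP B X g.1) j)) := by
  rw [K2USp_dec p hp]
  refine ⟨fun g => K2USp_x S p hp B c hc g.1, ?_, ?_⟩
  · apply le_antisymm
    · set W : Submodule k ((i : Fin (K2USp_E S p hp).m) → (Fin ((K2USp_E S p hp).X i).n → k)) :=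
        Submodule.span k {u | ∃ (h : k[X]) (g : {g // g ∈ gP B p c}),
          u = aeval ((K2USp_E S p hp).actX Polynomial.X) h (K2USp_x S p hp B c hc g.1)} with hW
      have hWg : ∀ (g : k[X]), ∀ u ∈ W, aeval ((K2USp_E S p hp).actX Polynomial.X) g u ∈ W := by
        intro g u hu
        rw [hW] at hu
        induction hu using Submodule.span_induction with
        | mem u hu =>
          obtain ⟨h, g', rfl⟩ := hu
          refine Submodule.subset_span ⟨g * h, g', ?_⟩
          rw [map_mul, Module.End.mul_apply]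
        | zero => rw [map_zero]; exact zero_mem _
        | add u v _ _ h1 h2 => rw [map_add]; exact add_mem h1 h2
        | smul t u _ h1 => rw [map_smul]; exact Submodule.smul_mem _ _ h1
      have hWX : ∀ u ∈ W, (K2USp_E S p hp).actX Polynomial.X u ∈ W := by
        intro u hu
        have := hWg Polynomial.X u hu
        rwa [aeval_X] at this
      unfold NF.USpan
      rw [Submodule.span_le]
      rintro u ⟨g, j, o, q, r, y, hord, rfl⟩
      rw [← NF.actX_aeval]
      refine hWg g _ ?_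
      have hY := hp.2 _ (List.get_mem p.2 j)
      have bY := bp.2.2 _ (List.get_mem p.2 j)
      have hord' : Ord (bcBlk S c hc).x (bcBlk S (p.2.get j).1 hY).x o q r := hord
      obtain ⟨a, ha, b, hb, m, m', rfl, rfl, hord2⟩ := KPR_dom hc hY hord'
      have hordC := (KPR_ord hc hY bc bY ha hb o).1 hord2
      have hs := K2USp_shift (K2USp_E S p hp) hc band j o (a : ℤ) (b : ℤ) m m' y
      have hs' : (K2USp_E S p hp).OmVs (bcBlk S c hc).x j o ((a : ℤ) + m * ((bcBlk S c hc).l : ℤ))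
          ((b : ℤ) + m' * ((bcBlk S (p.2.get j).1 hY).l : ℤ)) y = _ := hs
      rw [hs']
      refine K2USp_inv _ W hWX (-m) _ ?_
      obtain ⟨L, hL⟩ := exists_vecOf (bcN (p.2.get j).1)
        ((((K2USp_E S p hp).Y j).T ^ m' : (Fin ((K2USp_E S p hp).Y j).n → k) ≃ₗ[k]
          (Fin ((K2USp_E S p hp).Y j).n → k)) y)
      rw [← hL]
      have h3 := K2USp_OmVs hp hc bp bc j o a b ha hb hordC L
      rw [h3]
      refine Submodule.sum_mem _ fun j' _ => Submodule.smul_mem _ _ ?_
      have hg : ((p.2.get j, a, b, o, (j' : ℕ)) : GX D k) ∈ gP B p c :=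
        K2USp_mem.2 ⟨List.get_mem p.2 j, ha, hb, hordC, j'.2⟩
      refine Submodule.subset_span ⟨1, ⟨_, hg⟩, ?_⟩
      rw [map_one]
      rfl
    · rw [Submodule.span_le]
      rintro u ⟨h, ⟨g, hg⟩, rfl⟩
      obtain ⟨hY', ha, hb, hordC, hj⟩ := K2USp_mem.1 hg
      obtain ⟨Y, a, b, o, j'⟩ := g
      simp only at hY' ha hb hordC hj
      obtain ⟨j, rfl⟩ := List.get_of_mem hY'
      have hY := hp.2 _ (List.get_mem p.2 j)
      have bY := bp.2.2 _ (List.get_mem p.2 j)
      have hord := (KPR_ord hc hY bc bY ha hb o).2 hordC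
      have h3 := K2USp_OmVs hp hc bp bc j o a b ha hb hordC (unitV (bcN (p.2.get j).1) j')
      have h4 : ∑ i : Fin (bcN (p.2.get j).1), ent (unitV (bcN (p.2.get j).1) j' : List k) i •
          K2USp_x S p hp B c hc (p.2.get j, a, b, o, (i : ℕ)) =
          K2USp_x S p hp B c hc (p.2.get j, a, b, o, j') := by
        rw [Finset.sum_eq_single (⟨j', hj⟩ : Fin (bcN (p.2.get j).1))]
        · have : ent (unitV (bcN (p.2.get j).1) j' : List k) j' = 1 := by
            unfold unitV
            rw [ent_map_range, if_pos hj, if_pos rfl]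
          simp only [this, one_smul]
        · intro i _ hi
          have : ent (unitV (bcN (p.2.get j).1) j' : List k) i = 0 := by
            unfold unitV
            rw [ent_map_range, if_pos i.2, if_neg]
            intro h
            exact hi (Fin.ext h)
          rw [this, zero_smul]
        · intro h
          exact absurd (Finset.mem_univ _) h
      rw [h4] at h3
      refine Submodule.subset_span ⟨h, j, o, (a : ℤ), (b : ℤ),
        (show Fin (bcN (p.2.get j).1) → k from vecOf (bcN (p.2.get j).1) (unitV (bcN (p.2.get j).1) j')),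
        hord, ?_⟩
      rw [← NF.actX_aeval (K2USp_E S p hp) h]
      exact congrArg (fun v => aeval ((K2USp_E S p hp).actX Polynomial.X) h v) h3.symm
  · rintro ⟨g, hg⟩ i X hX j hj
    have hi : p.1.get i = X := by
      have h1 := List.getElem?_eq_some_iff.1 hX
      obtain ⟨h2, h3⟩ := h1
      rw [← h3]
      rfl
    have hj' : j < bcN (p.1.get i).1 := hj
    have hX' := hp.1 _ (List.get_mem p.1 i)
    have bX := bp.2.1 _ (List.get_mem p.1 i)
    have hsame := sameC_iff hX' hc bX bc band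
    refine ⟨by rw [← hi]; exact hj', ?_, ?_⟩
    · intro hns
      have hne : ¬ ((K2USp_E S p hp).X i).x = (bcBlk S c hc).x := by
        intro h
        apply hns
        rw [← hi]
        exact hsame.1 h
      exact congrFun (K2USp_x_neg hp hc g i hne) ⟨j, hj⟩
    · intro hs
      have he : ((K2USp_E S p hp).X i).x = (bcBlk S c hc).x := by
        apply hsame.2
        rw [hi]
        exact hs
      have h1 := congrFun (K2USp_x_pos (B := B) hp hc g i he) ⟨j, hj⟩
      refine h1.trans ?_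
      show ent (vP B (p.1.get i) g) j = ent (vP B X g) j
      rw [hi]

end StrAlg
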