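import Pool.Agent.Lib.MP_b9fd58_lc.K2Push
import Pool.Agent.Lib.MP_b9fd58_lc.KBlk
import Pool.Agent.Lib.MP_b9fd58_lc.KCrit
import Pool.Agent.Lib.MP_b9fd58_lc.If2Defs

/-!
# Stream K2: the lists `inVecs`, `outVecs`
-/

set_option autoImplicit false

namespace StrAlg

open Module

variable {D : Dat} {k : Type} [Field k] {S : Sides D}

/-- graph maps into `w` based in `[-R, R]` -/
def NF.GInZ (p : NF S k) (w : Str S) (R : ℕ) (s : ℤ → k) : Prop :=
  ∃ (i : Fin p.m) (o : Bool) (c q : ℤ) (φ : Dual k (Fin (p.X i).n → k)), q.natAbs ≤ R ∧ Ord (p.X i).x w o c q ∧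
    s = push (p.X i).x.L w.L o c q (fun c' => φ ((p.X i).fn (p.a i) c'))

/-- functionals of graph maps from `w` based in `[-R, R]` -/
def NF.GOutZ (p : NF S k) (w : Str S) (R : ℕ) (t : ℤ → k) : Prop :=
  ∃ (j : Fin p.m') (o : Bool) (q r : ℤ) (y : Fin (p.Y j).n → k), q.natAbs ≤ R ∧ Ord w (p.Y j).x o q r ∧
    t = pull w.L (p.Y j).x.L o q r (fun r' => (p.Y j).cf (p.b j) r' y)

/-- the function on the window as a function of the index -/
def winF (B : ℕ) (f : ℤ → k) : ℕ → k := fun z => if z < 60 * B + 1 then f (wp B z) else 0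

theorem winF_inj (B : ℕ) {f g : ℤ → k} (hf : ∀ z, f z ≠ 0 → z.natAbs ≤ 30 * B) (hg : ∀ z, g z ≠ 0 → z.natAbs ≤ 30 * B)
    (h : winF B f = winF B g) : f = g := by
  funext z
  by_cases hz : z.natAbs ≤ 30 * B
  · have h1 := congrFun h (z + ((30 * B : ℕ) : ℤ)).toNat
    have h2 : (z + ((30 * B : ℕ) : ℤ)).toNat < 60 * B + 1 := by omega
    have h3 : wp B (z + ((30 * B : ℕ) : ℤ)).toNat = z := by
      unfold wp
      omega
    unfold winF at h1
    simp only [if_pos h2, h3] at h1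
    exact h1
  · have h1 : f z = 0 := by
      by_contra hne
      exact hz (hf z hne)
    have h2 : g z = 0 := by
      by_contra hne
      exact hz (hg z hne)
    rw [h1, h2]

end StrAlg
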