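import Pool.Agent.Lib.MP_b9fd58_lc.K2VecD
import Pool.Agent.Lib.MP_b9fd58_lc.KBlk
import Pool.Agent.Lib.MP_b9fd58_lc.KCrit
import Pool.Agent.Lib.MP_b9fd58_lc.If2Defs

/-!
# Stream K2: the list `inVecs`
-/

set_option autoImplicit false

namespace StrAlg

open Module

variable {D : Dat} {k : Type} [Field k] {S : Sides D}

theorem K2VecI_agd {ι : Type*} {nx : ι → Bool → Fin 3 → ι × Bool} {X Y : Ln ι nx} {l : ℕ} (h : X.IsPer l)
    {o e : Bool} {a b : ℤ} {n : ℕ} (m : ℤ) : AgD X Y o e (a + m * l) b n ↔ AgD X Y o e a b n := by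
  unfold AgD
  rw [KInv_wdd h]

theorem K2VecI_cn {ι : Type*} {nx : ι → Bool → Fin 3 → ι × Bool} {X Y : Ln ι nx} {l : ℕ} (h : X.IsPer l)
    {o : Bool} {a b a' b' : ℤ} (m : ℤ) (hc : Cn X Y o a b a' b') : Cn X Y o (a + m * l) b (a' + m * l) b' := by
  obtain ⟨e, n, h1, rfl, rfl⟩ := hc
  refine ⟨e, n, (K2VecI_agd h m).2 h1, ?_, rfl⟩
  cases e <;> simp <;> ring

/-- shifting the position of a periodic source -/
theorem K2VecI_push (X : Blk S k) (w : Str S) (o : Bool) (c q m : ℤ) (ξ : ℤ → k) (z : ℤ) :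
    push X.x.L w.L o (c + m * X.l) q ξ z = push X.x.L w.L o c q (fun c' => ξ (c' + m * X.l)) z := by
  by_cases h : ∃ c', Cn X.x.L w.L o c q c' z
  · obtain ⟨c', hc'⟩ := h
    rw [push_eq hc', push_eq (K2VecI_cn X.ok.per m hc')]
  · rw [push_zero h]
    apply push_zero
    rintro ⟨c', hc'⟩
    apply h
    have h1 := K2VecI_cn X.ok.per (-m) hc'
    have e1 : c + m * (X.l : ℤ) + -m * (X.l : ℤ) = c := by ring
    rw [e1] at h1
    exact ⟨_, h1⟩

/-- expansion of a functional in coordinate functions -/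
theorem K2VecI_expand {X : Ln (Fin D.nV) S.nx} {w : Ln (Fin D.nV) S.nx} {n : ℕ} (o : Bool) (c q : ℤ)
    (g : ℤ → Fin n → k) (φ : Dual k (Fin n → k)) (z : ℤ) :
    push X w o c q (fun c' => φ (g c')) z =
      ∑ j : Fin n, φ (Pi.single j 1) * push X w o c q (fun c' => g c' j) z := by
  by_cases h : ∃ c', Cn X w o c q c' z
  · obtain ⟨c', hc'⟩ := h
    rw [push_eq hc']
    simp only [push_eq hc']
    have h1 : g c' = ∑ j : Fin n, g c' j • (Pi.single j (1 : k) : Fin n → k) := by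
      funext i
      simp [Finset.sum_apply, Pi.single_apply]
    conv_lhs => rw [h1]
    rw [map_sum]
    refine Finset.sum_congr rfl (fun j _ => ?_)
    rw [map_smul, smul_eq_mul, mul_comm]
  · rw [push_zero h]
    simp only [push_zero h, mul_zero, Finset.sum_const_zero]

theorem K2VecI_winF_sum {n : ℕ} (B : ℕ) (a : Fin n → k) (g : Fin n → ℤ → k) :
    winF B (fun z => ∑ j : Fin n, a j * g j z) = ∑ j : Fin n, a j • winF B (g j) := by
  funext z
  rw [Finset.sum_apply]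
  simp only [Pi.smul_apply, smul_eq_mul, winF]
  split_ifs with h
  · rfl
  · simp

/-- the vectors of the list are graph maps (`φ` a coordinate function) -/
theorem inVecs_mem {p : NC D k} (hp : ncOk S p) {w : SC D} (hw : scOk S w) {B : ℕ} (bp : ncBig p B) (bw : scBig w B)
    {s : List k} (hs : s ∈ inVecs B p w) : ∃ f : ℤ → k, (ncDec S p).GInZ (scStr S w hw) (10 * B) f ∧
      (∀ z, f z ≠ 0 → z.natAbs ≤ 30 * B) ∧ ent s = winF B f := by
  unfold inVecs at hs
  simp only [List.mem_flatMap] at hs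
  obtain ⟨X, hX, c, hc, o, -, q, hq, hs⟩ := hs
  rw [List.mem_range] at hc hq
  by_cases hord : ordC (20 * B) (bcS X.1) w o (c : ℤ) (zp B q)
  · rw [if_pos hord, List.mem_map] at hs
    obtain ⟨j, hj, rfl⟩ := hs
    rw [List.mem_range] at hj
    have bX := bp.2.1 X hX
    have hP := bcP_le bX
    have hcB : ((c : ℤ)).natAbs ≤ 10 * B := by
      rw [Int.natAbs_natCast]
      omega
    have hqB : (zp B q).natAbs ≤ 10 * B := by
      unfold zp
      omega
    have hXok := hp.1 X hX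
    refine ⟨fun z => pushv X w o (c : ℤ) (zp B q) j z, ?_, ?_, ?_⟩
    · have h1 : Ord (bcBlk S X.1 hXok).x (scStr S w hw) o (c : ℤ) (zp B q) :=
        (ordS_iff hXok.1 hw _ _ _).2 ((ordS_iff_ordC hXok.1 hw bX bw _ hcB hqB).2 hord)
      refine (ncDec_exists_X hp (fun Y a => ∃ (o' : Bool) (c' q' : ℤ) (φ : Dual k (Fin Y.n → k)),
        q'.natAbs ≤ 10 * B ∧ Ord Y.x (scStr S w hw) o' c' q' ∧ (fun z => pushv X w o (c : ℤ) (zp B q) j z) =
          push Y.x.L (scStr S w hw).L o' c' q' (fun c'' => φ (Y.fn a c'')))).2 ⟨X, hX, o, (c : ℤ), zp B q,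
          (LinearMap.proj (⟨j, hj⟩ : Fin (bcN X.1)) : (Fin (bcN X.1) → k) →ₗ[k] k), hqB, h1, ?_⟩
      funext z
      exact (pushv_eq hXok hw o hord.1 hord.2.1 ⟨j, hj⟩ z).symm
    · intro z hz
      have h1 := pushv_supp hord j hz
      omega
    · funext z
      rw [ent_map_range]
      rfl
  · rw [if_neg hord] at hs
    simp at hs

/-- Every graph map based in the zone is a combination of the vectors of the list: reduce `c` modulo the period of the block
(`exists_dom`, `Ord_mul_fst`, `Blk.fn_mul`: this changes `φ`; for the class: `s2h_cn_left` of S2H or directly), `ordS_iff_ordC`, expand `φ` in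
coordinate functions, `pushv_eq`, `pushv_supp`. -/
theorem GInZ_span {p : NC D k} (hp : ncOk S p) {w : SC D} (hw : scOk S w) {B : ℕ} (bp : ncBig p B) (bw : scBig w B)
    {f : ℤ → k} (hf : (ncDec S p).GInZ (scStr S w hw) (10 * B) f) :
    (∀ z, f z ≠ 0 → z.natAbs ≤ 30 * B) ∧ winF B f ∈ Submodule.span k {v | ∃ s ∈ inVecs B p w, v = ent s} := by
  obtain ⟨X, hX, o, c, q, φ, hqB, hord, hf⟩ := (ncDec_exists_X hp
    (fun Y a => ∃ (o' : Bool) (c' q' : ℤ) (φ : Dual k (Fin Y.n → k)),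
        q'.natAbs ≤ 10 * B ∧ Ord Y.x (scStr S w hw) o' c' q' ∧ f =
          push Y.x.L (scStr S w hw).L o' c' q' (fun c'' => φ (Y.fn a c'')))).1 hf
  have hXok := hp.1 X hX
  have bX := bp.2.1 X hX
  have hP := bcP_le bX
  obtain ⟨c₀, hc₀, m, hm⟩ := exists_dom hXok.1 ((scStr_Z hXok.1 c).1 hord.1)
  have em : c = (c₀ : ℤ) + m * ((bcBlk S X.1 hXok).l : ℤ) := hm
  have hcB : ((c₀ : ℤ)).natAbs ≤ 10 * B := by
    rw [Int.natAbs_natCast]
    omega
  rw [em] at hord hf
  have hord' : Ord (bcBlk S X.1 hXok).x (scStr S w hw) o (c₀ : ℤ) q := (Ord_mul_fst _ _ _ _ _ _).1 hord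
  have hordC : ordC (20 * B) (bcS X.1) w o (c₀ : ℤ) q :=
    (ordS_iff_ordC hXok.1 hw bX bw _ hcB hqB).1 ((ordS_iff hXok.1 hw _ _ _).1 hord')
  -- the functional after the shift
  let ψ : Dual k (Fin (bcN X.1) → k) := φ ∘ₗ
    (((bcBlk S X.1 hXok).T ^ (-m) : (Fin (bcBlk S X.1 hXok).n → k) ≃ₗ[k] (Fin (bcBlk S X.1 hXok).n → k)) :
      (Fin (bcBlk S X.1 hXok).n → k) →ₗ[k] (Fin (bcBlk S X.1 hXok).n → k))
  have hf1 : f = fun z => ∑ j : Fin (bcN X.1), ψ (Pi.single j 1) * pushv X w o (c₀ : ℤ) q j z := by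
    funext z
    rw [hf, K2VecI_push]
    have e1 : (fun c' => φ ((bcBlk S X.1 hXok).fn (ecElt S X hXok) (c' + m * ((bcBlk S X.1 hXok).l : ℤ)))) =
        fun c' => ψ ((bcBlk S X.1 hXok).fn (ecElt S X hXok) c') := by
      funext c'
      rw [Blk.fn_mul]
      rfl
    rw [e1]
    refine (K2VecI_expand (n := bcN X.1) o (c₀ : ℤ) q (fun c' => (bcBlk S X.1 hXok).fn (ecElt S X hXok) c') ψ z).trans ?_
    refine Finset.sum_congr rfl (fun j _ => ?_)
    rw [← pushv_eq hXok hw o hordC.1 hordC.2.1 j z]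
  have hq' : q = zp B (q + ((10 * B : ℕ) : ℤ)).toNat := by
    unfold zp
    omega
  have hq'' : (q + ((10 * B : ℕ) : ℤ)).toNat < 20 * B + 1 := by omega
  constructor
  · intro z hz
    rw [hf1] at hz
    obtain ⟨j, -, hj⟩ := Finset.exists_ne_zero_of_sum_ne_zero hz
    have h1 := pushv_supp hordC (j : ℕ) (right_ne_zero_of_mul hj)
    omega
  · rw [hf1, K2VecI_winF_sum]
    refine Submodule.sum_mem _ (fun j _ => Submodule.smul_mem _ _ (Submodule.subset_span ?_))
    refine ⟨(List.range (60 * B + 1)).map fun (z : ℕ) => pushv X w o (c₀ : ℤ) (zp B (q + ((10 * B : ℕ) : ℤ)).toNat) j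
      (wp B z), ?_, ?_⟩
    · unfold inVecs
      simp only [List.mem_flatMap]
      refine ⟨X, hX, c₀, List.mem_range.2 hc₀, o, by cases o <;> simp, (q + ((10 * B : ℕ) : ℤ)).toNat,
        List.mem_range.2 hq'', ?_⟩
      rw [← hq', if_pos hordC, List.mem_map]
      exact ⟨j, List.mem_range.2 j.2, rfl⟩
    · funext z
      rw [ent_map_range, ← hq']
      rfl

end StrAlg
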