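import Pool.Agent.Lib.MP_b9fd58_lc.KBlk
import Pool.Agent.Lib.MP_b9fd58_lc.KVec

/-!
# Stream K: the basis of a block module, coefficients of elements and functionals
-/

set_option autoImplicit false

namespace StrAlg

open Module

variable {D : Dat} {k : Type} [Field k] {S : Sides D}

/-- the basis vector with the number `m = p n + j`: the vector `e_j` at the position `p` -/
noncomputable def bcE (S : Sides D) (b : BC D k) (h : bcOk S b) (m : ℕ) : (bcBlk S b h).M.C :=
  (bcBlk S b h).iota ((m / bcN b : ℕ) : ℤ)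
    (show Fin (bcBlk S b h).n → k from fun j => if (j : ℕ) = m % bcN b then 1 else 0)

/-- the values of an element, as a sequence -/
theorem KBas_fn_eq {b : BC D k} (h : bcOk S b) (x : (bcBlk S b h).M.C) (p m : ℤ) :
    ((bcBlk S b h).T ^ m) ((bcBlk S b h).fn x (p + m * (bcL b : ℤ))) = (bcBlk S b h).fn x p :=
  (bcBlk S b h).B.S_zpow (show (bcBlk S b h).fn x ∈ (bcBlk S b h).B.S from x.2) p m

theorem KBas_fn_out {b : BC D k} (h : bcOk S b) (x : (bcBlk S b h).M.C) (p : ℤ)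
    (hp : ¬ scIn (bcS b) p) : (bcBlk S b h).fn x p = 0 := by
  have h1 : (bcBlk S b h).fn x ∈ (bcBlk S b h).B.S := x.2
  refine h1.1 p ?_
  intro h2
  exact hp ((scStr_Z h.1 p).1 h2)

/-- an element of the block module is determined by its values in the fundamental domain -/
theorem blk_ext {b : BC D k} (h : bcOk S b) {x y : (bcBlk S b h).M.C}
    (hxy : ∀ p < bcP b, (bcBlk S b h).fn x (p : ℤ) = (bcBlk S b h).fn y (p : ℤ)) : x = y := by
  refine Subtype.ext (funext fun p => ?_)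
  show (bcBlk S b h).fn x p = (bcBlk S b h).fn y p
  by_cases hp : scIn (bcS b) p
  · obtain ⟨p₀, hp₀, m, rfl⟩ := exists_dom h.1 hp
    have h1 := KBas_fn_eq h x (p₀ : ℤ) m
    have h2 := KBas_fn_eq h y (p₀ : ℤ) m
    rw [hxy p₀ hp₀, ← h2] at h1
    exact ((bcBlk S b h).T ^ m).injective h1
  · rw [KBas_fn_out h x p hp, KBas_fn_out h y p hp]

theorem KBas_dvd {b : BC D k} {p q : ℕ} (hp : p < bcP b) (hq : q < bcP b) :
    (bcL b : ℤ) ∣ ((p : ℤ) - q) ↔ q = p := by
  constructor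
  · intro hd
    unfold bcL at hd
    split_ifs at hd with h1
    · have h2 : ((p : ℤ) - q) = 0 := by
        refine Int.eq_zero_of_abs_lt_dvd hd ?_
        rw [abs_lt]
        constructor <;> omega
      omega
    · rw [Nat.cast_zero, zero_dvd_iff] at hd
      omega
  · rintro rfl
    rw [sub_self]
    exact dvd_zero _

/-- value of `iota` in the fundamental domain -/
theorem fn_iota_dom {b : BC D k} (h : bcOk S b) {p q : ℕ} (hp : p < bcP b) (hq : q < bcP b)
    (v : Fin (bcBlk S b h).n → k) :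
    (bcBlk S b h).fn ((bcBlk S b h).iota (p : ℤ) v) (q : ℤ) = if q = p then v else 0 := by
  have hZ : ((p : ℕ) : ℤ) ∈ (bcBlk S b h).B.Z := (scStr_Z h.1 _).2 (scIn_dom hp)
  have h1 : (bcBlk S b h).fn ((bcBlk S b h).iota (p : ℤ) v) (q : ℤ) =
      (bcBlk S b h).B.spr (p : ℤ) v (q : ℤ) := by
    unfold Blk.iota
    rw [dif_pos hZ]
    rfl
  rw [h1]
  by_cases hpq : q = p
  · subst hpq
    rw [if_pos rfl, LB.spr_self]
  · rw [if_neg hpq, LB.spr_apply, if_neg]
    intro hd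
    exact hpq ((KBas_dvd hp hq).1 hd)

theorem KBas_mod_lt {b : BC D k} {m : ℕ} (hm : m < bcD b) : m % bcN b < bcN b := by
  refine Nat.mod_lt _ ?_
  rcases Nat.eq_zero_or_pos (bcN b) with h0 | h0
  · unfold bcD at hm
    rw [h0, Nat.mul_zero] at hm
    omega
  · exact h0

theorem KBas_div_lt {b : BC D k} {m : ℕ} (hm : m < bcD b) : m / bcN b < bcP b := by
  unfold bcD at hm
  exact Nat.div_lt_of_lt_mul (by rwa [Nat.mul_comm] at hm)

theorem KBas_idx {n q j m : ℕ} (hj : j < n) : (q = m / n ∧ j = m % n) ↔ m = q * n + j := by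
  constructor
  · rintro ⟨rfl, rfl⟩
    rw [Nat.mul_comm]
    exact (Nat.div_add_mod m n).symm
  · rintro rfl
    have hn : 0 < n := by omega
    constructor
    · rw [Nat.mul_comm, Nat.mul_add_div hn, Nat.div_eq_of_lt hj, Nat.add_zero]
    · rw [Nat.mul_comm, Nat.mul_add_mod, Nat.mod_eq_of_lt hj]

theorem KBas_lt {b : BC D k} {q j : ℕ} (hq : q < bcP b) (hj : j < bcN b) :
    q * bcN b + j < bcD b := by
  unfold bcD
  calc q * bcN b + j < q * bcN b + bcN b := by omega
    _ = (q + 1) * bcN b := by ring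
    _ ≤ bcP b * bcN b := Nat.mul_le_mul_right _ hq

/-- the values of the basis vectors -/
theorem KBas_fn_bcE {b : BC D k} (h : bcOk S b) {m q : ℕ} (hm : m < bcD b) (hq : q < bcP b)
    (j : Fin (bcBlk S b h).n) :
    (bcBlk S b h).fn (bcE S b h m) (q : ℤ) j = if m = q * bcN b + (j : ℕ) then 1 else 0 := by
  unfold bcE
  rw [fn_iota_dom h (KBas_div_lt hm) hq]
  have hj : (j : ℕ) < bcN b := j.2
  have h1 := KBas_idx (n := bcN b) (q := q) (j := (j : ℕ)) (m := m) hj
  by_cases hq1 : q = m / bcN b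
  · rw [if_pos hq1]
    show (if (j : ℕ) = m % bcN b then (1 : k) else 0) = _
    by_cases hj1 : (j : ℕ) = m % bcN b
    · rw [if_pos hj1, if_pos (h1.1 ⟨hq1, hj1⟩)]
    · rw [if_neg hj1, if_neg (fun h2 => hj1 (h1.2 h2).2)]
  · rw [if_neg hq1, if_neg (fun h2 => hq1 (h1.2 h2).1)]
    rfl

/-- the coordinates of an element -/
noncomputable def KBas_co (S : Sides D) (b : BC D k) (h : bcOk S b) :
    (bcBlk S b h).M.C →ₗ[k] (Fin (bcD b) → k) :=
  LinearMap.pi fun m => (LinearMap.proj (⟨(m : ℕ) % bcN b, KBas_mod_lt m.2⟩ : Fin (bcBlk S b h).n) :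
    (Fin (bcBlk S b h).n → k) →ₗ[k] k) ∘ₗ blkEv (bcBlk S b h) (((m : ℕ) / bcN b : ℕ) : ℤ)

theorem KBas_co_apply {b : BC D k} (h : bcOk S b) (x : (bcBlk S b h).M.C) (m : Fin (bcD b)) :
    KBas_co S b h x m =
      (bcBlk S b h).fn x (((m : ℕ) / bcN b : ℕ) : ℤ) ⟨(m : ℕ) % bcN b, KBas_mod_lt m.2⟩ := rfl

theorem KBas_co_bcE {b : BC D k} (h : bcOk S b) (m : Fin (bcD b)) :
    KBas_co S b h (bcE S b h m) = Pi.single m 1 := by
  funext m'
  rw [KBas_co_apply, KBas_fn_bcE h m.2 (KBas_div_lt m'.2)]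
  have h1 : (m' : ℕ) / bcN b * bcN b + (m' : ℕ) % bcN b = m' := by
    rw [Nat.mul_comm]; exact Nat.div_add_mod _ _
  by_cases hm : m = m'
  · subst hm
    rw [Pi.single_eq_same, if_pos]
    exact h1.symm
  · rw [Pi.single_eq_of_ne (Ne.symm hm), if_neg]
    intro h2
    apply hm
    apply Fin.ext
    rw [h2]
    exact h1

theorem KBas_co_inj {b : BC D k} (h : bcOk S b) : Function.Injective (KBas_co S b h) := by
  intro x y hxy
  refine blk_ext h fun q hq => ?_
  funext j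
  have hj : (j : ℕ) < bcN b := j.2
  have h1 := congrFun hxy ⟨q * bcN b + (j : ℕ), KBas_lt hq hj⟩
  rw [KBas_co_apply, KBas_co_apply] at h1
  have h2 := (KBas_idx (n := bcN b) (q := q) (j := (j : ℕ)) (m := q * bcN b + (j : ℕ)) hj).2 rfl
  have h3 : (⟨(q * bcN b + (j : ℕ)) % bcN b, KBas_mod_lt (KBas_lt hq hj)⟩ :
      Fin (bcBlk S b h).n) = j := Fin.ext h2.2.symm
  have h4 : ((((q * bcN b + (j : ℕ)) / bcN b : ℕ) : ℤ)) = (q : ℤ) := by rw [← h2.1]
  simp only at h1
  rw [h4, h3] at h1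
  exact h1

theorem KBas_co_surj {b : BC D k} (h : bcOk S b) : Function.Surjective (KBas_co S b h) := by
  intro v
  refine ⟨∑ m, v m • bcE S b h m, ?_⟩
  rw [map_sum]
  simp only [map_smul, KBas_co_bcE]
  funext m'
  rw [Finset.sum_apply, Finset.sum_eq_single m']
  · simp
  · intro m _ hm
    rw [Pi.smul_apply, Pi.single_eq_of_ne (Ne.symm hm), smul_zero]
  · intro hm
    exact absurd (Finset.mem_univ _) hm

/-- the vectors `bcE` form a basis -/
theorem exists_bcBasis {b : BC D k} (h : bcOk S b) :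
    ∃ e : Basis (Fin (bcD b)) k (bcBlk S b h).M.C, ∀ m : Fin (bcD b), e m = bcE S b h m := by
  refine ⟨Basis.ofEquivFun (LinearEquiv.ofBijective (KBas_co S b h)
    ⟨KBas_co_inj h, KBas_co_surj h⟩), fun m => ?_⟩
  apply KBas_co_inj h
  rw [KBas_co_bcE, Basis.coe_ofEquivFun]
  have h1 := LinearEquiv.apply_symm_apply (LinearEquiv.ofBijective (KBas_co S b h)
    ⟨KBas_co_inj h, KBas_co_surj h⟩) (Pi.single m 1)
  rw [LinearEquiv.ofBijective_apply] at h1
  exact h1

theorem ecElt_eq {t : EC D k} (h : bcOk S t.1) :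
    ecElt S t h = ∑ m ∈ Finset.range (bcD t.1), ent t.2 m • bcE S t.1 h m := by
  refine blk_ext h fun q hq => ?_
  rw [← blkEv_apply, ← blkEv_apply]
  unfold ecElt
  rw [map_sum, map_sum]
  funext j
  have hj : (j : ℕ) < bcN t.1 := j.2
  rw [Finset.sum_apply, Finset.sum_apply, Finset.sum_eq_single q,
    Finset.sum_eq_single (q * bcN t.1 + (j : ℕ))]
  · rw [blkEv_apply, map_smul, Pi.smul_apply, blkEv_apply, fn_iota_dom h hq hq, if_pos rfl,
      KBas_fn_bcE h (KBas_lt hq hj) hq, if_pos rfl, smul_eq_mul, mul_one]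
  · intro m hm hne
    rw [map_smul, Pi.smul_apply, blkEv_apply, KBas_fn_bcE h (Finset.mem_range.1 hm) hq,
      if_neg hne, smul_zero]
  · intro hm
    exact absurd (Finset.mem_range.2 (KBas_lt hq hj)) hm
  · intro p hp hne
    rw [blkEv_apply, fn_iota_dom h (Finset.mem_range.1 hp) hq, if_neg (Ne.symm hne)]
    rfl
  · intro hm
    exact absurd (Finset.mem_range.2 hq) hm

theorem ecFnl_bcE {t : EC D k} (h : bcOk S t.1) {m : ℕ} (hm : m < bcD t.1) : ecFnl S t h (bcE S t.1 h m) = ent t.2 m := by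
  have h0 : ecFnl S t h (bcE S t.1 h m) = ∑ p ∈ Finset.range (bcP t.1),
      ∑ j : Fin (bcBlk S t.1 h).n, ent t.2 (p * bcN t.1 + (j : ℕ)) *
        (bcBlk S t.1 h).fn (bcE S t.1 h m) (p : ℤ) j := by
    unfold ecFnl
    rw [LinearMap.sum_apply]
    refine Finset.sum_congr rfl fun p _ => ?_
    rw [LinearMap.sum_apply]
    rfl
  rw [h0, Finset.sum_eq_single (m / bcN t.1),
    Finset.sum_eq_single (⟨m % bcN t.1, KBas_mod_lt hm⟩ : Fin (bcBlk S t.1 h).n)]
  · rw [KBas_fn_bcE h hm (KBas_div_lt hm)]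
    have h1 : m / bcN t.1 * bcN t.1 + m % bcN t.1 = m := by
      rw [Nat.mul_comm]; exact Nat.div_add_mod _ _
    show ent t.2 (m / bcN t.1 * bcN t.1 + m % bcN t.1) *
      (if m = m / bcN t.1 * bcN t.1 + m % bcN t.1 then 1 else 0) = _
    rw [if_pos h1.symm, h1, mul_one]
  · intro j _ hne
    rw [KBas_fn_bcE h hm (KBas_div_lt hm), if_neg, mul_zero]
    intro h2
    apply hne
    apply Fin.ext
    exact ((KBas_idx (n := bcN t.1) (m := m) (show (j : ℕ) < bcN t.1 from j.2)).2 h2).2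
  · intro h2
    exact absurd (Finset.mem_univ _) h2
  · intro p hp hne
    refine Finset.sum_eq_zero fun j _ => ?_
    rw [KBas_fn_bcE h hm (Finset.mem_range.1 hp), if_neg, mul_zero]
    intro h2
    exact hne ((KBas_idx (n := bcN t.1) (m := m) (show (j : ℕ) < bcN t.1 from j.2)).2 h2).1
  · intro h2
    exact absurd (Finset.mem_range.2 (KBas_div_lt hm)) h2

/-- every element is coded -/
theorem exists_ecElt {b : BC D k} (h : bcOk S b) (a : (bcBlk S b h).M.C) : ∃ L : List k, ecElt S (b, L) h = a := by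
  obtain ⟨e, he⟩ := exists_bcBasis h
  obtain ⟨L, hL⟩ := exists_ent (bcD b) (fun i => if hi : i < bcD b then e.repr a ⟨i, hi⟩ else 0)
  refine ⟨L, ?_⟩
  rw [ecElt_eq (t := (b, L)) h, Finset.sum_range]
  conv_rhs => rw [← e.sum_repr a]
  refine Finset.sum_congr rfl fun m _ => ?_
  show ent L (m : ℕ) • bcE S b h m = _
  rw [hL, if_pos m.2, dif_pos m.2, he]

/-- every functional is coded -/
theorem exists_ecFnl {b : BC D k} (h : bcOk S b) (f : Dual k (bcBlk S b h).M.C) :
    ∃ L : List k, ecFnl S (b, L) h = f := by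
  obtain ⟨e, he⟩ := exists_bcBasis h
  obtain ⟨L, hL⟩ := exists_ent (bcD b) (fun i => f (bcE S b h i))
  refine ⟨L, e.ext fun m => ?_⟩
  rw [he, ecFnl_bcE (t := (b, L)) h m.2]
  show ent L (m : ℕ) = _
  rw [hL, if_pos m.2]

theorem bcBlk_finite {b : BC D k} (h : bcOk S b) : FiniteDimensional k (bcBlk S b h).M.C := by
  obtain ⟨e, _⟩ := exists_bcBasis h
  exact Module.Finite.of_basis e

end StrAlg
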