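import Pool.Agent.Lib.MP_b9fd58_lc.KDp

/-!
# Stream K: computability of natural numbers, integers, finite sums in a computable field
-/

set_option autoImplicit false

namespace ReCalc

variable {α β σ : Type*} [Primcodable α] [Primcodable β] [Primcodable σ]

/-! ### Natural numbers -/

theorem addN {f g : α → ℕ} (hf : Computable f) (hg : Computable g) : Computable fun a => f a + g a :=
  (Primrec.nat_add.to_comp).comp hf hg

theorem subN {f g : α → ℕ} (hf : Computable f) (hg : Computable g) : Computable fun a => f a - g a :=
  (Primrec.nat_sub.to_comp).comp hf hg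

theorem mulN {f g : α → ℕ} (hf : Computable f) (hg : Computable g) : Computable fun a => f a * g a :=
  (Primrec.nat_mul.to_comp).comp hf hg

theorem divN {f g : α → ℕ} (hf : Computable f) (hg : Computable g) : Computable fun a => f a / g a :=
  (Primrec.nat_div.to_comp).comp hf hg

theorem modN {f g : α → ℕ} (hf : Computable f) (hg : Computable g) : Computable fun a => f a % g a :=
  (Primrec.nat_mod.to_comp).comp hf hg

theorem pairN {f g : α → ℕ} (hf : Computable f) (hg : Computable g) : Computable fun a => Nat.pair (f a) (g a) :=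
  (Primrec₂.natPair.to_comp).comp hf hg

/-! ### Integers (coded by `Denumerable ℤ`) -/

theorem KDpZ_enc1 (n : ℕ) : Encodable.encode (n : ℤ) = 2 * n := rfl

theorem KDpZ_enc2 (n : ℕ) : Encodable.encode (Int.negSucc n) = 2 * n + 1 := rfl

theorem KDpZ_cases (p : ℤ) : (Encodable.encode p % 2 = 0 ∧ p = ((Encodable.encode p / 2 : ℕ) : ℤ)) ∨
    (Encodable.encode p % 2 = 1 ∧ p = Int.negSucc (Encodable.encode p / 2)) := by
  cases p with
  | ofNat n =>
    left
    have h : Encodable.encode (Int.ofNat n) = 2 * n := rfl
    rw [h]
    refine ⟨by omega, ?_⟩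
    rw [Nat.mul_div_cancel_left n (by omega)]
    rfl
  | negSucc n =>
    right
    rw [KDpZ_enc2]
    refine ⟨by omega, ?_⟩
    congr 1
    omega

theorem castZ {f : α → ℕ} (hf : Computable f) : Computable fun a => (f a : ℤ) := by
  refine computable_of_re_graph ?_
  have h : REPred fun p : α × ℤ => 2 * f p.1 = Encodable.encode p.2 :=
    re_eq (mulN (Computable.const 2) (hf.comp Computable.fst)) (Computable.encode.comp Computable.snd)
  refine h.of_eq ?_
  rintro ⟨a, r⟩
  constructor
  · intro h
    apply Encodable.encode_injective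
    rw [KDpZ_enc1]
    exact h
  · intro h
    show 2 * f a = Encodable.encode r
    have h' : (f a : ℤ) = r := h
    rw [← h', KDpZ_enc1]

theorem toNatZ {f : α → ℤ} (hf : Computable f) : Computable fun a => (f a).toNat := by
  have h : Computable fun a => if Encodable.encode (f a) % 2 = 0 then Encodable.encode (f a) / 2 else 0 :=
    iteC (eqC (modN (Computable.encode.comp hf) (Computable.const 2)) (Computable.const 0))
      (divN (Computable.encode.comp hf) (Computable.const 2)) (Computable.const 0)
  refine h.of_eq ?_
  intro a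
  rcases KDpZ_cases (f a) with ⟨h1, h2⟩ | ⟨h1, h2⟩
  · rw [if_pos h1]
    omega
  · rw [if_neg (by omega)]
    omega

theorem KDpZ_negPart {f : α → ℤ} (hf : Computable f) : Computable fun a => (-(f a)).toNat := by
  have h : Computable fun a => if Encodable.encode (f a) % 2 = 0 then 0 else Encodable.encode (f a) / 2 + 1 :=
    iteC (eqC (modN (Computable.encode.comp hf) (Computable.const 2)) (Computable.const 0))
      (Computable.const 0) (addN (divN (Computable.encode.comp hf) (Computable.const 2)) (Computable.const 1))
  refine h.of_eq ?_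
  intro a
  rcases KDpZ_cases (f a) with ⟨h1, h2⟩ | ⟨h1, h2⟩
  · rw [if_pos h1]
    omega
  · rw [if_neg (by omega)]
    omega

theorem negZ {f : α → ℤ} (hf : Computable f) : Computable fun a => -(f a) := by
  refine computable_of_re_graph ?_
  have h : REPred fun p : α × ℤ => (f p.1).toNat + p.2.toNat = (-(f p.1)).toNat + (-p.2).toNat :=
    re_eq (addN (toNatZ (hf.comp Computable.fst)) (toNatZ Computable.snd))
      (addN (KDpZ_negPart (hf.comp Computable.fst)) (KDpZ_negPart Computable.snd))
  refine h.of_eq ?_
  rintro ⟨a, r⟩
  show (f a).toNat + r.toNat = (-(f a)).toNat + (-r).toNat ↔ -(f a) = r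
  omega

theorem addZ {f g : α → ℤ} (hf : Computable f) (hg : Computable g) : Computable fun a => f a + g a := by
  refine computable_of_re_graph ?_
  have h : REPred fun p : α × ℤ => (f p.1).toNat + (g p.1).toNat + (-p.2).toNat
      = (-(f p.1)).toNat + (-(g p.1)).toNat + p.2.toNat :=
    re_eq (addN (addN (toNatZ (hf.comp Computable.fst)) (toNatZ (hg.comp Computable.fst)))
        (KDpZ_negPart Computable.snd))
      (addN (addN (KDpZ_negPart (hf.comp Computable.fst)) (KDpZ_negPart (hg.comp Computable.fst)))
        (toNatZ Computable.snd))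
  refine h.of_eq ?_
  rintro ⟨a, r⟩
  show (f a).toNat + (g a).toNat + (-r).toNat = (-(f a)).toNat + (-(g a)).toNat + r.toNat ↔ f a + g a = r
  omega

theorem subZ {f g : α → ℤ} (hf : Computable f) (hg : Computable g) : Computable fun a => f a - g a := by
  refine (addZ hf (negZ hg)).of_eq ?_
  intro a
  ring

theorem KDpZ_div (n : ℕ) {g : ℕ} (hg : 0 < g) : Int.negSucc n / (g : ℤ) = -(((n / g : ℕ) : ℤ) + 1) := by
  rw [Int.ediv_eq_iff_of_pos (by exact_mod_cast hg)]
  have h1 := Nat.div_add_mod n g
  have h2 := Nat.mod_lt n hg
  have h3 : ((n : ℤ)) = (g : ℤ) * ((n / g : ℕ) : ℤ) + ((n % g : ℕ) : ℤ) := by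
    exact_mod_cast h1.symm
  have h4 : ((n % g : ℕ) : ℤ) < g := by exact_mod_cast h2
  have h5 : (0 : ℤ) ≤ ((n % g : ℕ) : ℤ) := by positivity
  rw [Int.negSucc_eq]
  constructor
  · nlinarith
  · nlinarith

theorem divZ {f : α → ℤ} {g : α → ℕ} (hf : Computable f) (hg : Computable g) : Computable fun a => f a / (g a : ℤ) := by
  have h : Computable fun a => if Encodable.encode (f a) % 2 = 0
      then ((Encodable.encode (f a) / 2 / g a : ℕ) : ℤ)
      else if g a = 0 then 0 else -(((Encodable.encode (f a) / 2 / g a : ℕ) : ℤ) + 1) := by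
    have h1 : Computable fun a => Encodable.encode (f a) / 2 / g a :=
      divN (divN (Computable.encode.comp hf) (Computable.const 2)) hg
    exact iteC (eqC (modN (Computable.encode.comp hf) (Computable.const 2)) (Computable.const 0))
      (castZ h1) (iteC (eqC hg (Computable.const 0)) (Computable.const 0)
        (negZ (addZ (castZ h1) (Computable.const 1))))
  refine h.of_eq ?_
  intro a
  rcases KDpZ_cases (f a) with ⟨h1, h2⟩ | ⟨h1, h2⟩
  · rw [if_pos h1]
    conv_rhs => rw [h2]
    push_cast
    rfl
  · rw [if_neg (by omega)]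
    conv_rhs => rw [h2]
    by_cases h3 : g a = 0
    · rw [if_pos h3, h3]
      simp
    · rw [if_neg h3]
      exact (KDpZ_div _ (Nat.pos_of_ne_zero h3)).symm

theorem modZ {f : α → ℤ} {g : α → ℕ} (hf : Computable f) (hg : Computable g) : Computable fun a => f a % (g a : ℤ) := by
  have h : Computable fun a => if Encodable.encode (f a) % 2 = 0
      then ((Encodable.encode (f a) / 2 % g a : ℕ) : ℤ)
      else if g a = 0 then f a else ((g a - 1 - Encodable.encode (f a) / 2 % g a : ℕ) : ℤ) := by
    have h1 : Computable fun a => Encodable.encode (f a) / 2 % g a :=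
      modN (divN (Computable.encode.comp hf) (Computable.const 2)) hg
    exact iteC (eqC (modN (Computable.encode.comp hf) (Computable.const 2)) (Computable.const 0))
      (castZ h1) (iteC (eqC hg (Computable.const 0)) hf
        (castZ (subN (subN hg (Computable.const 1)) h1)))
  refine h.of_eq ?_
  intro a
  rcases KDpZ_cases (f a) with ⟨h1, h2⟩ | ⟨h1, h2⟩
  · rw [if_pos h1]
    conv_rhs => rw [h2]
    push_cast
    rfl
  · rw [if_neg (by omega)]
    by_cases h3 : g a = 0
    · rw [if_pos h3, h3]
      simp
    · rw [if_neg h3]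
      conv_rhs => rw [h2]
      have h4 := Nat.pos_of_ne_zero h3
      have h5 := KDpZ_div (Encodable.encode (f a) / 2) h4
      have h6 := Nat.mod_lt (Encodable.encode (f a) / 2) h4
      have h7 := Nat.div_add_mod (Encodable.encode (f a) / 2) (g a)
      have h8 : (((Encodable.encode (f a) / 2 : ℕ)) : ℤ) = (g a : ℤ) * ((Encodable.encode (f a) / 2 / g a : ℕ) : ℤ)
          + ((Encodable.encode (f a) / 2 % g a : ℕ) : ℤ) := by
        exact_mod_cast h7.symm
      rw [Int.emod_def, h5, Nat.cast_sub (by omega), Nat.cast_sub (by omega), Int.negSucc_eq, h8]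
      push_cast
      ring

theorem DP.leZ {f g : α → ℤ} (hf : Computable f) (hg : Computable g) : DP fun a => f a ≤ g a := by
  refine (DP.le (f := fun a => (f a).toNat + (-(g a)).toNat) (g := fun a => (g a).toNat + (-(f a)).toNat)
    (addN (toNatZ hf) (KDpZ_negPart hg)) (addN (toNatZ hg) (KDpZ_negPart hf))).congr ?_
  intro a
  omega

theorem DP.ltZ {f g : α → ℤ} (hf : Computable f) (hg : Computable g) : DP fun a => f a < g a := by
  refine (DP.lt (f := fun a => (f a).toNat + (-(g a)).toNat) (g := fun a => (g a).toNat + (-(f a)).toNat)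
    (addN (toNatZ hf) (KDpZ_negPart hg)) (addN (toNatZ hg) (KDpZ_negPart hf))).congr ?_
  intro a
  omega

/-! ### Finite sums in a computable field -/

section sums
variable {k : Type} [Field k] [Primcodable k]

theorem sumRangeC (hadd : Computable₂ (fun a b : k => a + b)) {f : α → ℕ} {g : α → ℕ → k} (hf : Computable f)
    (hg : Computable fun p : α × ℕ => g p.1 p.2) : Computable fun a => ∑ i ∈ Finset.range (f a), g a i := by
  have h1 : Computable fun a => ((List.range (f a)).map (g a)).sum :=
    sumC hadd (mapC (h := g) (rangeC hf) hg)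
  refine h1.of_eq ?_
  intro a
  generalize f a = n
  induction n with
  | zero => simp
  | succ n ih =>
    rw [List.range_succ, List.map_append, List.sum_append, ih, Finset.sum_range_succ]
    simp

theorem sumListC (hadd : Computable₂ (fun a b : k => a + b)) {f : α → List β} {g : α → β → k} (hf : Computable f)
    (hg : Computable fun p : α × β => g p.1 p.2) : Computable fun a => ((f a).map (g a)).sum :=
  sumC hadd (mapC (h := g) hf hg)

theorem negK (hadd : Computable₂ (fun a b : k => a + b)) {f : α → k} (hf : Computable f) :
    Computable fun a => -(f a) := by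
  refine computable_of_re_graph ?_
  have h : REPred fun p : α × k => f p.1 + p.2 = 0 :=
    re_eq (hadd.comp (hf.comp Computable.fst) Computable.snd) (Computable.const 0)
  refine h.of_eq ?_
  rintro ⟨a, r⟩
  show f a + r = 0 ↔ -(f a) = r
  constructor
  · intro h
    exact neg_eq_of_add_eq_zero_right h
  · intro h
    rw [← h, add_neg_cancel]

theorem addK (hadd : Computable₂ (fun a b : k => a + b)) {f g : α → k} (hf : Computable f) (hg : Computable g) :
    Computable fun a => f a + g a :=
  hadd.comp hf hg

theorem subK (hadd : Computable₂ (fun a b : k => a + b)) {f g : α → k} (hf : Computable f) (hg : Computable g) :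
    Computable fun a => f a - g a := by
  refine (addK hadd hf (negK hadd hg)).of_eq ?_
  intro a
  ring

theorem mulK (hmul : Computable₂ (fun a b : k => a * b)) {f g : α → k} (hf : Computable f) (hg : Computable g) :
    Computable fun a => f a * g a :=
  hmul.comp hf hg

end sums

end ReCalc
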