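import Pool.Agent.Lib.MP_b9fd58_lc.KDefs
import Pool.Agent.Lib.MP_b9fd58_lc.KDpZ

/-!
# Stream K: computability of the functions of a coded string
-/

set_option autoImplicit false

namespace StrAlg

open ReCalc

variable {D : Dat} {k : Type} [Field k] {S : Sides D}
variable {α : Type*} [Primcodable α]

theorem up1C {β : Type} [Primcodable β] {c : α → List β × List β} {n : α → ℕ} (hc : Computable c) (hn : Computable n) :
    Computable fun a => up1 (c a) (n a) := by
  have h1 : Computable fun a => (c a).1.length := Computable.list_length.comp (Computable.fst.comp hc)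
  have h2 : Computable fun a => (c a).2.length := Computable.list_length.comp (Computable.snd.comp hc)
  exact DP.ite (DP.lt hn h1) (getElemC (Computable.fst.comp hc) hn)
    (getElemC (Computable.snd.comp hc) (modN (subN hn h1) h2))

theorem scFC {c : α → SC D} {p : α → ℤ} (hc : Computable c) (hp : Computable p) : Computable fun a => scF (c a) (p a) := by
  exact DP.ite (DP.leZ (Computable.const 0) hp) (up1C (Computable.fst.comp hc) (toNatZ hp))
    (up1C (Computable.snd.comp hc) (subN (toNatZ (negZ hp)) (Computable.const 1)))

theorem scInD {c : α → SC D} {p : α → ℤ} (hc : Computable c) (hp : Computable p) : DP fun a => scIn (c a) (p a) := by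
  exact DP.of_bool (Primrec.option_isSome.to_comp.comp (scFC hc hp))

theorem scLamC {c : α → SC D} {p : α → ℤ} (hc : Computable c) (hp : Computable p) :
    Computable fun a => scLam (c a) (p a) := by
  have h0 : Computable fun a => scF (c a) (p a) := scFC hc hp
  have h1 : Computable fun a => scF (c a) (p a + 1) := scFC hc (addZ hp (Computable.const 1))
  have h2 : Computable fun a => (Option.casesOn (scF (c a) (p a)) (1 : Fin 3)
      (fun x => Option.casesOn (scF (c a) (p a + 1)) (1 : Fin 3) (fun _ => x.1)) : Fin 3) := by
    refine Computable.option_casesOn (o := fun a => scF (c a) (p a)) (f := fun _ => (1 : Fin 3))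
      (g := fun a x => Option.casesOn (scF (c a) (p a + 1)) (1 : Fin 3) (fun _ => x.1)) h0
      (Computable.const _) ?_
    refine Computable.option_casesOn (o := fun t : α × Rc D => scF (c t.1) (p t.1 + 1))
      (f := fun _ => (1 : Fin 3)) (g := fun t _ => t.2.1) (h1.comp Computable.fst)
      (Computable.const _) ?_
    exact Computable.fst.comp (Computable.snd.comp Computable.fst)
  refine h2.of_eq ?_
  intro a
  unfold scLam
  cases scF (c a) (p a) with
  | none => rfl
  | some x => cases scF (c a) (p a + 1) with
    | none => rfl
    | some y => rfl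

theorem stC {e : α → Bool} {p : α → ℤ} (he : Computable e) (hp : Computable p) : Computable fun a => st (e a) (p a) := by
  exact DP.ite (DP.of_bool he) (addZ hp (Computable.const 1)) (subZ hp (Computable.const 1))

theorem stnC {e : α → Bool} {n p : α → ℤ} (he : Computable e) (hn : Computable n) (hp : Computable p) :
    Computable fun a => stn (e a) (n a) (p a) := by
  exact DP.ite (DP.of_bool he) (addZ hp hn) (subZ hp hn)

theorem scLtC {c : α → SC D} {e : α → Bool} {p : α → ℤ} (hc : Computable c) (he : Computable e) (hp : Computable p) :
    Computable fun a => scLt (c a) (e a) (p a) := by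
  exact DP.ite (DP.of_bool he) (scLamC hc hp)
    ((computable_fin (Fin.rev : Fin 3 → Fin 3)).comp (scLamC hc (subZ hp (Computable.const 1))))

theorem scVC {c : α → SC D} {p : α → ℤ} (hc : Computable c) (hp : Computable p) :
    Computable fun a => scV (c a) (p a) := by
  exact optMapC (h := fun _ x => x.2.1) (scFC hc hp)
    (Computable.fst.comp (Computable.snd.comp Computable.snd))

theorem scRC {c : α → SC D} {p : α → ℤ} (hc : Computable c) (hp : Computable p) :
    Computable fun a => scR (c a) (p a) := by
  have h0 : Computable fun a => scF (c a) (p a) := scFC hc hp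
  have h2 : Computable fun a => (Option.casesOn (scF (c a) (p a)) false (fun x => x.2.2) : Bool) := by
    refine Computable.option_casesOn (o := fun a => scF (c a) (p a)) (f := fun _ => false)
      (g := fun _ x => x.2.2) h0 (Computable.const _) ?_
    exact Computable.snd.comp (Computable.snd.comp Computable.snd)
  refine h2.of_eq ?_
  intro a
  unfold scR
  cases scF (c a) (p a) with
  | none => rfl
  | some x => rfl

theorem scSdC {c : α → SC D} {e : α → Bool} {p : α → ℤ} (hc : Computable c) (he : Computable e) (hp : Computable p) :
    Computable fun a => scSd (c a) (e a) (p a) := by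
  exact DP.ite (DP.of_bool he) (scRC hc hp) (notC (scRC hc hp))

theorem scWddC {c : α → SC D} {e : α → Bool} {p : α → ℤ} {n : α → ℕ} (hc : Computable c) (he : Computable e)
    (hp : Computable p) (hn : Computable n) : Computable fun a => scWdd (c a) (e a) (p a) (n a) := by
  exact scLtC hc he (stnC he (castZ hn) hp)

theorem beqC {f g : α → Bool} (hf : Computable f) (hg : Computable g) : Computable fun a => (f a == g a) := by
  exact (computable_fin (fun x : Bool × Bool => (x.1 == x.2))).comp (Computable.pair hf hg)

theorem fleBD {K : α → ℕ} {u v : α → Wd} (hK : Computable K) (hu : Computable fun t : α × ℕ => u t.1 t.2)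
    (hv : Computable fun t : α × ℕ => v t.1 t.2) : DP fun a => fleB (K a) (u a) (v a) := by
  have hu2 : Computable fun t : (α × ℕ) × ℕ => u t.1.1 t.2 :=
    hu.comp (Computable.pair (Computable.fst.comp Computable.fst) Computable.snd)
  have hv2 : Computable fun t : (α × ℕ) × ℕ => v t.1.1 t.2 :=
    hv.comp (Computable.pair (Computable.fst.comp Computable.fst) Computable.snd)
  have h1 : DP fun t : α × ℕ => ∀ m < t.2, u t.1 m = v t.1 m ∧ u t.1 m ≠ 1 :=
    DP.forall_lt (q := fun (t : α × ℕ) m => u t.1 m = v t.1 m ∧ u t.1 m ≠ 1) Computable.snd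
      (DP.and (DP.eq hu2 hv2) (DP.ne hu2 (Computable.const 1)))
  have h2 : DP fun t : α × ℕ => u t.1 t.2 < v t.1 t.2 :=
    (DP.fin (fun x : Fin 3 × Fin 3 => x.1 < x.2)).comp (Computable.pair hu hv)
  have h3 : DP fun t : α × ℕ => u t.1 t.2 = 1 ∧ v t.1 t.2 = 1 :=
    DP.and (DP.eq hu (Computable.const 1)) (DP.eq hv (Computable.const 1))
  exact DP.exists_lt (q := fun a n => (∀ m < n, u a m = v a m ∧ u a m ≠ 1) ∧
    (u a n < v a n ∨ (u a n = 1 ∧ v a n = 1))) hK (DP.and h1 (DP.or h2 h3))

theorem ordCD {K : α → ℕ} {x y : α → SC D} {o : α → Bool} {p q : α → ℤ} (hK : Computable K) (hx : Computable x)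
    (hy : Computable y) (ho : Computable o) (hp : Computable p) (hq : Computable q) :
    DP fun a => ordC (K a) (x a) (y a) (o a) (p a) (q a) := by
  refine DP.and (scInD hx hp) (DP.and (scInD hy hq) (DP.and (DP.eq (scVC hx hp) (scVC hy hq))
    (DP.and (DP.eq (beqC (scRC hx hp) (scRC hy hq)) ho) ?_)))
  refine DP.forall_fin fun e => fleBD hK ?_ ?_
  · exact scWddC (hy.comp Computable.fst) (beqC (Computable.const e) (ho.comp Computable.fst))
      (hq.comp Computable.fst) Computable.snd
  · exact scWddC (hx.comp Computable.fst) (Computable.const e) (hp.comp Computable.fst) Computable.snd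

theorem alCD {K : α → ℕ} {x y : α → SC D} {p q : α → ℤ} (hK : Computable K) (hx : Computable x)
    (hy : Computable y) (hp : Computable p) (hq : Computable q) :
    DP fun a => alC (K a) (x a) (y a) (p a) (q a) := by
  refine DP.and (scInD hx hp) (DP.and (scInD hy hq) (DP.and (DP.eq (scVC hx hp) (scVC hy hq)) ?_))
  refine DP.forall_fin fun s => DP.forall_lt hK (DP.eq ?_ ?_)
  · exact scWddC (hx.comp Computable.fst) (beqC (Computable.const s) ((scRC hx hp).comp Computable.fst))
      (hp.comp Computable.fst) Computable.snd
  · exact scWddC (hy.comp Computable.fst) (beqC (Computable.const s) ((scRC hy hq).comp Computable.fst))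
      (hq.comp Computable.fst) Computable.snd

theorem agCD {x y : α → SC D} {o e : α → Bool} {p q : α → ℤ} {m : α → ℕ} (hx : Computable x)
    (hy : Computable y) (ho : Computable o) (he : Computable e) (hp : Computable p) (hq : Computable q)
    (hm : Computable m) : DP fun a => agC (x a) (y a) (o a) (e a) (p a) (q a) (m a) := by
  exact DP.and (DP.eq (scWddC hx he hp hm) (scWddC hy (beqC he ho) hq hm))
    (DP.ne (scWddC hx he hp hm) (Computable.const 1))

theorem u1BigD {c : α → U1 D} {B : α → ℕ} (hc : Computable c) (hB : Computable B) :
    DP fun a => u1Big (c a) (B a) := by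
  exact DP.and (DP.le (Computable.list_length.comp (Computable.fst.comp hc)) hB)
    (DP.or (DP.eq (Computable.snd.comp hc) (Computable.const []))
      (DP.dvd (Computable.list_length.comp (Computable.snd.comp hc)) hB))

theorem scBigD {c : α → SC D} {B : α → ℕ} (hc : Computable c) (hB : Computable B) :
    DP fun a => scBig (c a) (B a) := by
  exact DP.and (DP.lt (Computable.const 0) hB) (DP.and (u1BigD (Computable.fst.comp hc) hB)
    (u1BigD (Computable.snd.comp hc) hB))

theorem scEdgeD {a b : α → Rc D} (ha : Computable a) (hb : Computable b) : DP fun t => scEdge S (a t) (b t) := by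
  exact (DP.fin (fun x : Rc D × Rc D => scEdge S x.1 x.2)).comp (Computable.pair ha hb)

/-- for a fixed list of arrows -/
theorem scBkD {c : α → SC D} {p : α → ℤ} (e : Bool) (l : List (Fin D.nE)) (hc : Computable c) (hp : Computable p) :
    DP fun a => scBk S (c a) e l (p a) := by
  induction l generalizing p with
  | nil => exact DP.const True
  | cons b l ih =>
    refine DP.and (DP.eq (scLtC hc (Computable.const e) hp) (Computable.const 0)) (DP.and ?_ ?_)
    · refine DP.exists_fin fun v => DP.and (DP.eq (scVC hc hp) (Computable.const (some v))) ?_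
      exact (DP.fin (fun s : Bool => S.inA v s = some b)).comp (scSdC hc (Computable.const e) hp)
    · exact ih (stC (Computable.const e) hp)

theorem KCmpA_forall_list {γ : Type*} (l : List γ) (q : γ → α → Prop) (h : ∀ r, DP (q r)) :
    DP fun a => ∀ r ∈ l, q r a := by
  induction l with
  | nil => exact (DP.const True).congr (fun a => by simp)
  | cons b l ih => exact (DP.and (h b) ih).congr (fun a => by simp)

theorem scLocD {c : α → SC D} {p : α → ℤ} (hc : Computable c) (hp : Computable p) :
    DP fun a => scLoc S (c a) (p a) := by
  refine DP.and ?_ ?_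
  · refine DP.forall_fin fun x => DP.forall_fin fun y => DP.imp
      (DP.eq (scFC hc hp) (Computable.const (some x))) (DP.imp
      (DP.eq (scFC hc (addZ hp (Computable.const 1))) (Computable.const (some y)))
      (DP.const (scEdge S x y)))
  · exact KCmpA_forall_list D.rel (fun r a => ∀ e, ¬ scBk S (c a) e r.reverse (p a))
      (fun r => DP.forall_fin fun e => DP.not (scBkD e r.reverse hc hp))

end StrAlg
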