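import Pool.Agent.Lib.MP_b9fd58_lc.KCmpA

/-!
# Stream K: computability of vectors, matrices, block codes
-/

set_option autoImplicit false

namespace StrAlg

open ReCalc

variable {D : Dat} {k : Type} [Field k] [Primcodable k] {S : Sides D}
variable {α : Type*} [Primcodable α]

theorem entC {L : α → List k} {i : α → ℕ} (hL : Computable L) (hi : Computable i) : Computable fun a => ent (L a) (i a) :=
  getDC hL hi (Computable.const 0)

/-- lists given by their entries -/
theorem listC {n : α → ℕ} {f : α → ℕ → k} (hn : Computable n) (hf : Computable fun t : α × ℕ => f t.1 t.2) :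
    Computable fun a => (List.range (n a)).map (f a) :=
  mapC (rangeC hn) hf

theorem unitVC {n m : α → ℕ} (hn : Computable n) (hm : Computable m) : Computable fun a => (unitV (n a) (m a) : List k) := by
  unfold unitV
  exact listC (f := fun a i => if i = m a then (1 : k) else 0) hn
    (DP.ite (DP.eq Computable.snd (hm.comp Computable.fst)) (Computable.const 1) (Computable.const 0))

theorem zeroVC {n : α → ℕ} (hn : Computable n) : Computable fun a => (zeroV (n a) : List k) := by
  unfold zeroV
  exact listC (f := fun _ _ => (0 : k)) hn (Computable.const 0)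

theorem rowC {n : α → ℕ} {L : α → List k} {p : α → ℕ} (hn : Computable n) (hL : Computable L) (hp : Computable p) :
    Computable fun a => row (n a) (L a) (p a) := by
  unfold row
  exact listC (f := fun a j => ent (L a) (p a * n a + j)) hn
    (entC (hL.comp Computable.fst)
      (addN (mulN (hp.comp Computable.fst) (hn.comp Computable.fst)) Computable.snd))

theorem mvC (hadd : Computable₂ (fun a b : k => a + b)) (hmul : Computable₂ (fun a b : k => a * b))
    {n : α → ℕ} {T v : α → List k} (hn : Computable n) (hT : Computable T) (hv : Computable v) :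
    Computable fun a => mv (n a) (T a) (v a) := by
  unfold mv
  refine listC (f := fun a i => ∑ j ∈ Finset.range (n a), ent (T a) (i * n a + j) * ent (v a) j) hn ?_
  refine sumRangeC hadd (g := fun (t : α × ℕ) j => ent (T t.1) (t.2 * n t.1 + j) * ent (v t.1) j)
    (hn.comp Computable.fst) ?_
  have h1 : Computable fun p : (α × ℕ) × ℕ => p.1.1 := Computable.fst.comp Computable.fst
  have h2 : Computable fun p : (α × ℕ) × ℕ => p.1.2 := Computable.snd.comp Computable.fst
  exact mulK hmul (entC (hT.comp h1) (addN (mulN h2 (hn.comp h1)) Computable.snd)) (entC (hv.comp h1) Computable.snd)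

theorem vmC (hadd : Computable₂ (fun a b : k => a + b)) (hmul : Computable₂ (fun a b : k => a * b))
    {n : α → ℕ} {T v : α → List k} (hn : Computable n) (hT : Computable T) (hv : Computable v) :
    Computable fun a => vm (n a) (T a) (v a) := by
  unfold vm
  refine listC (f := fun a j => ∑ i ∈ Finset.range (n a), ent (v a) i * ent (T a) (i * n a + j)) hn ?_
  refine sumRangeC hadd (g := fun (t : α × ℕ) i => ent (v t.1) i * ent (T t.1) (i * n t.1 + t.2))
    (hn.comp Computable.fst) ?_
  have h1 : Computable fun p : (α × ℕ) × ℕ => p.1.1 := Computable.fst.comp Computable.fst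
  have h2 : Computable fun p : (α × ℕ) × ℕ => p.1.2 := Computable.snd.comp Computable.fst
  exact mulK hmul (entC (hv.comp h1) Computable.snd) (entC (hT.comp h1) (addN (mulN Computable.snd (hn.comp h1)) h2))

theorem polVC (hadd : Computable₂ (fun a b : k => a + b)) (hmul : Computable₂ (fun a b : k => a * b))
    {n : α → ℕ} {T h v : α → List k} (hn : Computable n) (hT : Computable T) (hh : Computable h) (hv : Computable v) :
    Computable fun a => polV (n a) (T a) (h a) (v a) := by
  unfold polV
  refine listC (f := fun a i => ∑ m ∈ Finset.range (h a).length, ent (h a) m * ent ((mv (n a) (T a))^[m] (v a)) i) hn ?_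
  refine sumRangeC hadd (f := fun t : α × ℕ => (h t.1).length)
    (g := fun (t : α × ℕ) m => ent (h t.1) m * ent ((mv (n t.1) (T t.1))^[m] (v t.1)) t.2)
    (Computable.list_length.comp (hh.comp Computable.fst)) ?_
  have h1 : Computable fun p : (α × ℕ) × ℕ => p.1.1 := Computable.fst.comp Computable.fst
  have h2 : Computable fun p : (α × ℕ) × ℕ => p.1.2 := Computable.snd.comp Computable.fst
  refine mulK hmul (entC (hh.comp h1) Computable.snd) (entC ?_ h2)
  refine iterC (f := fun p : (α × ℕ) × ℕ => p.2) (g := fun p : (α × ℕ) × ℕ => v p.1.1)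
    (h := fun (p : (α × ℕ) × ℕ) s => mv (n p.1.1) (T p.1.1) s) Computable.snd (hv.comp h1) ?_
  have h3 : Computable fun q : ((α × ℕ) × ℕ) × List k => q.1.1.1 := h1.comp Computable.fst
  exact mvC hadd hmul (hn.comp h3) (hT.comp h3) Computable.snd

theorem polLC (hadd : Computable₂ (fun a b : k => a + b)) (hmul : Computable₂ (fun a b : k => a * b))
    {n : α → ℕ} {T h v : α → List k} (hn : Computable n) (hT : Computable T) (hh : Computable h) (hv : Computable v) :
    Computable fun a => polL (n a) (T a) (h a) (v a) := by
  unfold polL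
  refine listC (f := fun a i => ∑ m ∈ Finset.range (h a).length, ent (h a) m * ent ((vm (n a) (T a))^[m] (v a)) i) hn ?_
  refine sumRangeC hadd (f := fun t : α × ℕ => (h t.1).length)
    (g := fun (t : α × ℕ) m => ent (h t.1) m * ent ((vm (n t.1) (T t.1))^[m] (v t.1)) t.2)
    (Computable.list_length.comp (hh.comp Computable.fst)) ?_
  have h1 : Computable fun p : (α × ℕ) × ℕ => p.1.1 := Computable.fst.comp Computable.fst
  have h2 : Computable fun p : (α × ℕ) × ℕ => p.1.2 := Computable.snd.comp Computable.fst
  refine mulK hmul (entC (hh.comp h1) Computable.snd) (entC ?_ h2)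
  refine iterC (f := fun p : (α × ℕ) × ℕ => p.2) (g := fun p : (α × ℕ) × ℕ => v p.1.1)
    (h := fun (p : (α × ℕ) × ℕ) s => vm (n p.1.1) (T p.1.1) s) Computable.snd (hv.comp h1) ?_
  have h3 : Computable fun q : ((α × ℕ) × ℕ) × List k => q.1.1.1 := h1.comp Computable.fst
  exact vmC hadd hmul (hn.comp h3) (hT.comp h3) Computable.snd

theorem polOkCD {π : α → List k} (hπ : Computable π) : DP fun a => polOkC (π a) := by
  unfold polOkC
  refine DP.and (DP.exists_lt (f := fun a => (π a).length) (q := fun a i => 0 < i ∧ ent (π a) i ≠ 0)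
    (Computable.list_length.comp hπ) ?_) (DP.ne (entC hπ (Computable.const 0)) (Computable.const 0))
  exact DP.and (DP.lt (Computable.const 0) Computable.snd)
    (DP.ne (entC (hπ.comp Computable.fst) Computable.snd) (Computable.const 0))

theorem bcPC {b : α → BC D k} (hb : Computable b) : Computable fun a => bcP (b a) :=
  Computable.list_length.comp (Computable.fst.comp (Computable.snd.comp hb))

theorem bcNC {b : α → BC D k} (hb : Computable b) : Computable fun a => bcN (b a) :=
  Computable.fst.comp (Computable.snd.comp (Computable.snd.comp hb))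

theorem bcMC {b : α → BC D k} (hb : Computable b) : Computable fun a => bcM (b a) :=
  Computable.fst.comp (Computable.snd.comp (Computable.snd.comp (Computable.snd.comp hb)))

theorem bcM'C {b : α → BC D k} (hb : Computable b) : Computable fun a => bcM' (b a) :=
  Computable.snd.comp (Computable.snd.comp (Computable.snd.comp (Computable.snd.comp hb)))

theorem bcSC {b : α → BC D k} (hb : Computable b) : Computable fun a => bcS (b a) := by
  unfold bcS
  have h1 : Computable fun a => (b a).2.1 := Computable.fst.comp (Computable.snd.comp hb)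
  have h2 : Computable fun a => (b a).1 := Computable.fst.comp hb
  exact DP.ite (p := fun a => (b a).1 = true) (DP.of_bool h2)
    (Computable.pair (Computable.pair (Computable.const []) h1)
      (Computable.pair (Computable.const []) (Computable.list_reverse.comp h1)))
    (Computable.pair (Computable.pair h1 (Computable.const [])) (Computable.const ([], [])))

theorem ncBigD {c : α → NC D k} {B : α → ℕ} (hc : Computable c) (hB : Computable B) : DP fun a => ncBig (c a) (B a) := by
  unfold ncBig
  refine DP.and (DP.lt (Computable.const 0) hB) (DP.and ?_ ?_)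
  · refine DP.forall_mem (f := fun a => (c a).1) (q := fun a (t : EC D k) => scBig (bcS t.1) (B a))
      (Computable.fst.comp hc) ?_
    exact scBigD (bcSC (Computable.fst.comp Computable.snd)) (hB.comp Computable.fst)
  · refine DP.forall_mem (f := fun a => (c a).2) (q := fun a (t : EC D k) => scBig (bcS t.1) (B a))
      (Computable.snd.comp hc) ?_
    exact scBigD (bcSC (Computable.fst.comp Computable.snd)) (hB.comp Computable.fst)

theorem avC (hadd : Computable₂ (fun a b : k => a + b)) (hmul : Computable₂ (fun a b : k => a * b))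
    {t : α → EC D k} {p : α → ℤ} (ht : Computable t) (hp : Computable p) : Computable fun a => av (t a) (p a) := by
  unfold av
  have hb : Computable fun a => (t a).1 := Computable.fst.comp ht
  have hL : Computable fun a => (t a).2 := Computable.snd.comp ht
  have hP : Computable fun a => bcP (t a).1 := bcPC hb
  have hN : Computable fun a => bcN (t a).1 := bcNC hb
  have hr : Computable fun a => row (bcN (t a).1) (t a).2 (p a % (bcP (t a).1 : ℤ)).toNat :=
    rowC hN hL (toNatZ (modZ hp hP))
  refine DP.ite (p := fun a => (t a).1.1 = true) (DP.of_bool (Computable.fst.comp hb)) ?_ ?_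
  · refine DP.ite (p := fun a => 0 ≤ p a) (DP.leZ (Computable.const 0) hp) ?_ ?_
    · refine iterC (f := fun a => (p a / (bcP (t a).1 : ℤ)).toNat)
        (h := fun a s => mv (bcN (t a).1) (bcM' (t a).1) s) (toNatZ (divZ hp hP)) hr ?_
      exact mvC hadd hmul (hN.comp Computable.fst) ((bcM'C hb).comp Computable.fst) Computable.snd
    · refine iterC (f := fun a => (-(p a / (bcP (t a).1 : ℤ))).toNat)
        (h := fun a s => mv (bcN (t a).1) (bcM (t a).1) s) (toNatZ (negZ (divZ hp hP))) hr ?_
      exact mvC hadd hmul (hN.comp Computable.fst) ((bcMC hb).comp Computable.fst) Computable.snd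
  · refine DP.ite (p := fun a => 0 ≤ p a ∧ p a < (bcP (t a).1 : ℤ))
      (DP.and (DP.leZ (Computable.const 0) hp) (DP.ltZ hp (castZ hP))) ?_ (zeroVC hN)
    exact rowC hN hL (toNatZ hp)

theorem bvC (hadd : Computable₂ (fun a b : k => a + b)) (hmul : Computable₂ (fun a b : k => a * b))
    {t : α → EC D k} {p : α → ℤ} (ht : Computable t) (hp : Computable p) : Computable fun a => bv (t a) (p a) := by
  unfold bv
  have hb : Computable fun a => (t a).1 := Computable.fst.comp ht
  have hL : Computable fun a => (t a).2 := Computable.snd.comp ht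
  have hP : Computable fun a => bcP (t a).1 := bcPC hb
  have hN : Computable fun a => bcN (t a).1 := bcNC hb
  have hr : Computable fun a => row (bcN (t a).1) (t a).2 (p a % (bcP (t a).1 : ℤ)).toNat :=
    rowC hN hL (toNatZ (modZ hp hP))
  refine DP.ite (p := fun a => (t a).1.1 = true) (DP.of_bool (Computable.fst.comp hb)) ?_ ?_
  · refine DP.ite (p := fun a => 0 ≤ p a) (DP.leZ (Computable.const 0) hp) ?_ ?_
    · refine iterC (f := fun a => (p a / (bcP (t a).1 : ℤ)).toNat)
        (h := fun a s => vm (bcN (t a).1) (bcM (t a).1) s) (toNatZ (divZ hp hP)) hr ?_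
      exact vmC hadd hmul (hN.comp Computable.fst) ((bcMC hb).comp Computable.fst) Computable.snd
    · refine iterC (f := fun a => (-(p a / (bcP (t a).1 : ℤ))).toNat)
        (h := fun a s => vm (bcN (t a).1) (bcM' (t a).1) s) (toNatZ (negZ (divZ hp hP))) hr ?_
      exact vmC hadd hmul (hN.comp Computable.fst) ((bcM'C hb).comp Computable.fst) Computable.snd
  · refine DP.ite (p := fun a => 0 ≤ p a ∧ p a < (bcP (t a).1 : ℤ))
      (DP.and (DP.leZ (Computable.const 0) hp) (DP.ltZ hp (castZ hP))) ?_ (zeroVC hN)
    exact rowC hN hL (toNatZ hp)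

theorem omCC (hadd : Computable₂ (fun a b : k => a + b)) (hmul : Computable₂ (fun a b : k => a * b))
    {K : α → ℕ} {X Y : α → EC D k} {o : α → Bool} {a b : α → ℤ} {j j' : α → ℕ} (hK : Computable K) (hX : Computable X)
    (hY : Computable Y) (ho : Computable o) (ha : Computable a) (hb : Computable b) (hj : Computable j)
    (hj' : Computable j') : Computable fun t => omC (K t) (X t) (Y t) (o t) (a t) (b t) (j t) (j' t) := by
  unfold omC
  have f1 : Computable (Prod.fst : α × ℕ → α) := Computable.fst
  have f2 : Computable (Prod.snd : α × ℕ → ℕ) := Computable.snd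
  have g1 : Computable fun q : (α × ℕ) × ℕ => q.1.1 := Computable.fst.comp Computable.fst
  have hXb : Computable fun t => (X t).1 := Computable.fst.comp hX
  have hYb : Computable fun t => (Y t).1 := Computable.fst.comp hY
  refine addK hadd ?_ ?_
  · refine sumRangeC hadd (g := fun t i => if (∀ m < i, agC (bcS (X t).1) (bcS (Y t).1) (o t) true (a t) (b t) m) then
      ent (bv (Y t) (stn (o t) (i : ℤ) (b t))) (j' t) * ent (av (X t) (a t + (i : ℤ))) (j t) else 0) hK ?_
    refine DP.ite (p := fun q : α × ℕ => ∀ m < q.2, agC (bcS (X q.1).1) (bcS (Y q.1).1) (o q.1) true (a q.1) (b q.1) m)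
      ?_ ?_ (Computable.const 0)
    · refine DP.forall_lt (f := fun q : α × ℕ => q.2)
        (q := fun q m => agC (bcS (X q.1).1) (bcS (Y q.1).1) (o q.1) true (a q.1) (b q.1) m) f2 ?_
      exact agCD ((bcSC hXb).comp g1) ((bcSC hYb).comp g1) (ho.comp g1) (Computable.const true) (ha.comp g1) (hb.comp g1)
        Computable.snd
    · exact mulK hmul (entC (bvC hadd hmul (hY.comp f1) (stnC (ho.comp f1) (castZ f2) (hb.comp f1))) (hj'.comp f1))
        (entC (avC hadd hmul (hX.comp f1) (addZ (ha.comp f1) (castZ f2))) (hj.comp f1))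
  · refine sumRangeC hadd (g := fun t i => if (∀ m < i + 1, agC (bcS (X t).1) (bcS (Y t).1) (o t) false (a t) (b t) m) then
      ent (bv (Y t) (stn (o t) (-((i : ℤ) + 1)) (b t))) (j' t) * ent (av (X t) (a t + -((i : ℤ) + 1))) (j t) else 0) hK ?_
    have hi : Computable fun q : α × ℕ => -((q.2 : ℤ) + 1) := negZ (addZ (castZ f2) (Computable.const 1))
    refine DP.ite (p := fun q : α × ℕ => ∀ m < q.2 + 1, agC (bcS (X q.1).1) (bcS (Y q.1).1) (o q.1) false (a q.1) (b q.1) m)
      ?_ ?_ (Computable.const 0)
    · refine DP.forall_lt (f := fun q : α × ℕ => q.2 + 1)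
        (q := fun q m => agC (bcS (X q.1).1) (bcS (Y q.1).1) (o q.1) false (a q.1) (b q.1) m) (Computable.succ.comp f2) ?_
      exact agCD ((bcSC hXb).comp g1) ((bcSC hYb).comp g1) (ho.comp g1) (Computable.const false) (ha.comp g1) (hb.comp g1)
        Computable.snd
    · exact mulK hmul (entC (bvC hadd hmul (hY.comp f1) (stnC (ho.comp f1) hi (hb.comp f1))) (hj'.comp f1))
        (entC (avC hadd hmul (hX.comp f1) (addZ (ha.comp f1) hi)) (hj.comp f1))

theorem omColC (hadd : Computable₂ (fun a b : k => a + b)) (hmul : Computable₂ (fun a b : k => a * b))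
    {K : α → ℕ} {X Y : α → EC D k} {o : α → Bool} {a b : α → ℤ} {j : α → ℕ} (hK : Computable K) (hX : Computable X)
    (hY : Computable Y) (ho : Computable o) (ha : Computable a) (hb : Computable b) (hj : Computable j) :
    Computable fun t => omCol (K t) (X t) (Y t) (o t) (a t) (b t) (j t) := by
  unfold omCol
  have f1 : Computable (Prod.fst : α × ℕ → α) := Computable.fst
  refine listC (f := fun t i => omC (K t) (X t) (Y t) (o t) (a t) (b t) i (j t))
    (bcNC (Computable.fst.comp hX)) ?_
  exact omCC hadd hmul (hK.comp f1) (hX.comp f1) (hY.comp f1) (ho.comp f1) (ha.comp f1) (hb.comp f1) Computable.snd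
    (hj.comp f1)

theorem omRowC (hadd : Computable₂ (fun a b : k => a + b)) (hmul : Computable₂ (fun a b : k => a * b))
    {K : α → ℕ} {X Y : α → EC D k} {o : α → Bool} {a b : α → ℤ} {j : α → ℕ} (hK : Computable K) (hX : Computable X)
    (hY : Computable Y) (ho : Computable o) (ha : Computable a) (hb : Computable b) (hj : Computable j) :
    Computable fun t => omRow (K t) (X t) (Y t) (o t) (a t) (b t) (j t) := by
  unfold omRow
  have f1 : Computable (Prod.fst : α × ℕ → α) := Computable.fst
  refine listC (f := fun t i => omC (K t) (X t) (Y t) (o t) (a t) (b t) (j t) i)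
    (bcNC (Computable.fst.comp hY)) ?_
  exact omCC hadd hmul (hK.comp f1) (hX.comp f1) (hY.comp f1) (ho.comp f1) (ha.comp f1) (hb.comp f1) (hj.comp f1)
    Computable.snd

theorem omVC (hadd : Computable₂ (fun a b : k => a + b)) (hmul : Computable₂ (fun a b : k => a * b))
    {K : α → ℕ} {X Y : α → EC D k} {o : α → Bool} {a b : α → ℤ} {y : α → List k} (hK : Computable K) (hX : Computable X)
    (hY : Computable Y) (ho : Computable o) (ha : Computable a) (hb : Computable b) (hy : Computable y) :
    Computable fun t => omV (K t) (X t) (Y t) (o t) (a t) (b t) (y t) := by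
  unfold omV
  have f1 : Computable (Prod.fst : α × ℕ → α) := Computable.fst
  refine listC (f := fun t j => ∑ j' ∈ Finset.range (bcN (Y t).1), ent (y t) j' * omC (K t) (X t) (Y t) (o t) (a t) (b t) j j')
    (bcNC (Computable.fst.comp hX)) ?_
  refine sumRangeC hadd (g := fun (q : α × ℕ) j' => ent (y q.1) j' *
    omC (K q.1) (X q.1) (Y q.1) (o q.1) (a q.1) (b q.1) q.2 j') ((bcNC (Computable.fst.comp hY)).comp f1) ?_
  have g1 : Computable fun q : (α × ℕ) × ℕ => q.1.1 := Computable.fst.comp Computable.fst
  have g2 : Computable fun q : (α × ℕ) × ℕ => q.1.2 := Computable.snd.comp Computable.fst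
  exact mulK hmul (entC (hy.comp g1) Computable.snd) (omCC hadd hmul (hK.comp g1) (hX.comp g1) (hY.comp g1) (ho.comp g1)
    (ha.comp g1) (hb.comp g1) g2 Computable.snd)

theorem omLC (hadd : Computable₂ (fun a b : k => a + b)) (hmul : Computable₂ (fun a b : k => a * b))
    {K : α → ℕ} {X Y : α → EC D k} {o : α → Bool} {a b : α → ℤ} {y : α → List k} (hK : Computable K) (hX : Computable X)
    (hY : Computable Y) (ho : Computable o) (ha : Computable a) (hb : Computable b) (hy : Computable y) :
    Computable fun t => omL (K t) (X t) (Y t) (o t) (a t) (b t) (y t) := by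
  unfold omL
  have f1 : Computable (Prod.fst : α × ℕ → α) := Computable.fst
  refine listC (f := fun t j' => ∑ j ∈ Finset.range (bcN (X t).1), ent (y t) j * omC (K t) (X t) (Y t) (o t) (a t) (b t) j j')
    (bcNC (Computable.fst.comp hY)) ?_
  refine sumRangeC hadd (g := fun (q : α × ℕ) j => ent (y q.1) j *
    omC (K q.1) (X q.1) (Y q.1) (o q.1) (a q.1) (b q.1) j q.2) ((bcNC (Computable.fst.comp hX)).comp f1) ?_
  have g1 : Computable fun q : (α × ℕ) × ℕ => q.1.1 := Computable.fst.comp Computable.fst
  have g2 : Computable fun q : (α × ℕ) × ℕ => q.1.2 := Computable.snd.comp Computable.fst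
  exact mulK hmul (entC (hy.comp g1) Computable.snd) (omCC hadd hmul (hK.comp g1) (hX.comp g1) (hY.comp g1) (ho.comp g1)
    (ha.comp g1) (hb.comp g1) Computable.snd g2)

end StrAlg
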