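import Pool.Agent.Lib.MP_b9fd58_lc.Re

/-!
# Stream K: decidable predicates (r.e. together with the negation)
-/

set_option autoImplicit false

namespace ReCalc

variable {α β σ : Type*} [Primcodable α] [Primcodable β] [Primcodable σ]

/-- decidable predicates: r.e. together with the negation -/
def DP (p : α → Prop) : Prop := REPred p ∧ REPred fun a => ¬ p a

theorem DP.re {p : α → Prop} (h : DP p) : REPred p := h.1

theorem DP.congr {p q : α → Prop} (h : DP p) (hq : ∀ a, p a ↔ q a) : DP q := by
  exact ⟨h.1.of_eq hq, h.2.of_eq fun a => not_congr (hq a)⟩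

theorem DP.const (q : Prop) : DP fun _ : α => q := by
  exact ⟨re_const q, re_const (¬ q)⟩

theorem DP.not {p : α → Prop} (h : DP p) : DP fun a => ¬ p a := by
  exact ⟨h.2, h.1.of_eq fun a => not_not.symm⟩

theorem DP.and {p q : α → Prop} (hp : DP p) (hq : DP q) : DP fun a => p a ∧ q a := by
  exact ⟨re_and hp.1 hq.1, (re_or hp.2 hq.2).of_eq fun a => not_and_or.symm⟩

theorem DP.or {p q : α → Prop} (hp : DP p) (hq : DP q) : DP fun a => p a ∨ q a := by
  exact ⟨re_or hp.1 hq.1, (re_and hp.2 hq.2).of_eq fun a => not_or.symm⟩

theorem DP.imp {p q : α → Prop} (hp : DP p) (hq : DP q) : DP fun a => p a → q a := by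
  exact (hp.not.or hq).congr fun a => imp_iff_not_or.symm

theorem DP.iff {p q : α → Prop} (hp : DP p) (hq : DP q) : DP fun a => (p a ↔ q a) := by
  exact ((hp.imp hq).and (hq.imp hp)).congr fun a => iff_def.symm

theorem DP.comp {p : β → Prop} (hp : DP p) {f : α → β} (hf : Computable f) : DP fun a => p (f a) := by
  exact ⟨re_comp hp.1 hf, re_comp hp.2 hf⟩

theorem DP.eq {f g : α → σ} (hf : Computable f) (hg : Computable g) : DP fun a => f a = g a := by
  exact ⟨re_eq hf hg, re_ne hf hg⟩

theorem DP.ne {f g : α → σ} (hf : Computable f) (hg : Computable g) : DP fun a => f a ≠ g a := by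
  exact (DP.eq hf hg).not

theorem DP.lt {f g : α → ℕ} (hf : Computable f) (hg : Computable g) : DP fun a => f a < g a := by
  exact ⟨re_lt hf hg, (re_le hg hf).of_eq fun a => not_lt.symm⟩

theorem DP.le {f g : α → ℕ} (hf : Computable f) (hg : Computable g) : DP fun a => f a ≤ g a := by
  exact ⟨re_le hf hg, (re_lt hg hf).of_eq fun a => not_le.symm⟩

theorem DP.dvd {f g : α → ℕ} (hf : Computable f) (hg : Computable g) : DP fun a => f a ∣ g a := by
  have h : DP fun a => g a % f a = 0 :=
    DP.eq (Primrec.nat_mod.to_comp.comp hg hf) (Computable.const 0)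
  exact h.congr fun a => (Nat.dvd_iff_mod_eq_zero).symm

theorem DP.mem {f : α → σ} {g : α → List σ} (hf : Computable f) (hg : Computable g) : DP fun a => f a ∈ g a := by
  refine ⟨re_mem hf hg, ?_⟩
  have h : REPred fun a => ∀ b ∈ g a, f a ≠ b :=
    re_forall_mem hg (re_ne (hf.comp Computable.fst) Computable.snd)
  refine h.of_eq fun a => ?_
  constructor
  · intro h1 h2
    exact h1 _ h2 rfl
  · intro h1 b hb e
    have h1' : f a ∉ g a := h1
    rw [e] at h1'
    exact h1' hb

theorem DP.forall_mem {f : α → List β} (hf : Computable f) {q : α → β → Prop}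
    (hq : DP fun p : α × β => q p.1 p.2) : DP fun a => ∀ b ∈ f a, q a b := by
  refine ⟨re_forall_mem hf hq.1, ?_⟩
  refine (re_exists_mem hf (q := fun a b => ¬ q a b) hq.2).of_eq fun a => ?_
  push Not
  rfl

theorem DP.exists_mem {f : α → List β} (hf : Computable f) {q : α → β → Prop}
    (hq : DP fun p : α × β => q p.1 p.2) : DP fun a => ∃ b ∈ f a, q a b := by
  refine ⟨re_exists_mem hf hq.1, ?_⟩
  refine (re_forall_mem hf (q := fun a b => ¬ q a b) hq.2).of_eq fun a => ?_
  push Not
  rfl

theorem DP.forall_lt {f : α → ℕ} (hf : Computable f) {q : α → ℕ → Prop}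
    (hq : DP fun p : α × ℕ => q p.1 p.2) : DP fun a => ∀ n < f a, q a n := by
  exact (DP.forall_mem (rangeC hf) hq).congr fun a => by simp only [List.mem_range]

theorem DP.exists_lt {f : α → ℕ} (hf : Computable f) {q : α → ℕ → Prop}
    (hq : DP fun p : α × ℕ => q p.1 p.2) : DP fun a => ∃ n < f a, q a n := by
  exact (DP.exists_mem (rangeC hf) hq).congr fun a => by simp only [List.mem_range]

theorem KDp_list (β : Type*) [Finite β] : ∃ l : List β, ∀ b, b ∈ l := by
  classical
  have := Fintype.ofFinite β
  exact ⟨(Finset.univ : Finset β).toList, fun b => by simp⟩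

theorem KDp_re_exists_fin [Finite β] {q : α → β → Prop} (hq : ∀ b, REPred fun a => q a b) :
    REPred fun a => ∃ b, q a b := by
  obtain ⟨l, hl⟩ := KDp_list β
  have h : ∀ l : List β, REPred fun a => ∃ b ∈ l, q a b := by
    intro l
    induction l with
    | nil => exact re_false.of_eq fun a => by simp
    | cons b l ih => exact (re_or (hq b) ih).of_eq fun a => by simp
  exact (h l).of_eq fun a => ⟨fun ⟨b, _, h1⟩ => ⟨b, h1⟩, fun ⟨b, h1⟩ => ⟨b, hl b, h1⟩⟩

/-- quantifiers over a finite type -/
theorem DP.forall_fin [Finite β] {q : α → β → Prop} (hq : ∀ b, DP fun a => q a b) : DP fun a => ∀ b, q a b := by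
  obtain ⟨l, hl⟩ := KDp_list β
  have h : ∀ l : List β, DP fun a => ∀ b ∈ l, q a b := by
    intro l
    induction l with
    | nil => exact (DP.const True).congr fun a => by simp
    | cons b l ih => exact ((hq b).and ih).congr fun a => by simp
  exact (h l).congr fun a => ⟨fun h1 b => h1 b (hl b), fun h1 b _ => h1 b⟩

theorem DP.exists_fin [Finite β] {q : α → β → Prop} (hq : ∀ b, DP fun a => q a b) : DP fun a => ∃ b, q a b := by
  obtain ⟨l, hl⟩ := KDp_list β
  have h : ∀ l : List β, DP fun a => ∃ b ∈ l, q a b := by
    intro l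
    induction l with
    | nil => exact (DP.const False).congr fun a => by simp
    | cons b l ih => exact ((hq b).or ih).congr fun a => by simp
  exact (h l).congr fun a => ⟨fun ⟨b, _, h1⟩ => ⟨b, h1⟩, fun ⟨b, h1⟩ => ⟨b, hl b, h1⟩⟩

/-- every function on a finite type is computable -/
theorem computable_fin [Finite α] (f : α → β) : Computable f := by
  exact (Primrec.dom_finite f).to_comp

/-- every predicate on a finite type is decidable -/
theorem DP.fin [Finite α] (p : α → Prop) : DP p := by
  classical
  exact ⟨re_of_computable (fun a => decide (p a)) (computable_fin _) (fun a => by simp),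
    re_of_computable (fun a => decide (¬ p a)) (computable_fin _) (fun a => by simp)⟩

/-- a function on `α × finite` is computable if all its sections are -/
theorem computable_prod_fin [Finite β] (f : α × β → σ) (h : ∀ b, Computable fun a => f (a, b)) : Computable f := by
  apply computable_of_re_graph
  have h1 : REPred fun p : (α × β) × σ => ∃ b : β, p.1.2 = b ∧ f (p.1.1, b) = p.2 := by
    refine KDp_re_exists_fin fun b => ?_
    exact re_and (re_eq (Computable.snd.comp Computable.fst) (Computable.const b))
      (re_eq ((h b).comp (Computable.fst.comp Computable.fst)) Computable.snd)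
  refine h1.of_eq ?_
  rintro ⟨⟨a, b⟩, s⟩
  constructor
  · rintro ⟨c, hc, h2⟩
    have hc' : b = c := hc
    subst hc'
    exact h2
  · intro h2
    exact ⟨b, rfl, h2⟩

/-- a predicate on `α × finite` is decidable if all its sections are -/
theorem DP.prod_fin [Finite β] (f : α × β → Prop) (h : ∀ b, DP fun a => f (a, b)) : DP f := by
  have h1 : DP fun p : α × β => ∃ b : β, p.2 = b ∧ f (p.1, b) := by
    refine DP.exists_fin fun b => ?_
    exact (DP.eq Computable.snd (Computable.const b)).and ((h b).comp Computable.fst)
  refine h1.congr ?_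
  rintro ⟨a, b⟩
  constructor
  · rintro ⟨c, hc, h2⟩
    have hc' : b = c := hc
    subst hc'
    exact h2
  · intro h2
    exact ⟨b, rfl, h2⟩

theorem re_forall_lt {f : α → ℕ} (hf : Computable f) {q : α → ℕ → Prop}
    (hq : REPred fun p : α × ℕ => q p.1 p.2) : REPred fun a => ∀ n < f a, q a n := by
  exact (re_forall_mem (rangeC hf) hq).of_eq fun a => by simp only [List.mem_range]

theorem re_exists_lt {f : α → ℕ} (hf : Computable f) {q : α → ℕ → Prop}
    (hq : REPred fun p : α × ℕ => q p.1 p.2) : REPred fun a => ∃ n < f a, q a n := by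
  exact (re_exists_mem (rangeC hf) hq).of_eq fun a => by simp only [List.mem_range]

theorem re_imp {p q : α → Prop} (hp : DP p) (hq : REPred q) : REPred fun a => p a → q a := by
  exact (re_or hp.2 hq).of_eq fun a => imp_iff_not_or.symm

theorem re_forall_fin [Finite β] {q : α → β → Prop} (hq : ∀ b, REPred fun a => q a b) : REPred fun a => ∀ b, q a b := by
  obtain ⟨l, hl⟩ := KDp_list β
  have h : ∀ l : List β, REPred fun a => ∀ b ∈ l, q a b := by
    intro l
    induction l with
    | nil => exact re_true.of_eq fun a => by simp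
    | cons b l ih => exact (re_and (hq b) ih).of_eq fun a => by simp
  exact (h l).of_eq fun a => ⟨fun h1 b => h1 b (hl b), fun h1 b _ => h1 b⟩

theorem re_exists_fin [Finite β] {q : α → β → Prop} (hq : ∀ b, REPred fun a => q a b) : REPred fun a => ∃ b, q a b := by
  exact KDp_re_exists_fin hq

/-- definition by cases (any decidability instance) -/
theorem DP.ite {p : α → Prop} [DecidablePred p] (hp : DP p) {f g : α → σ} (hf : Computable f) (hg : Computable g) :
    Computable fun a => if p a then f a else g a := by
  obtain ⟨d, hd, h⟩ := decide_of_re hp.1 hp.2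
  refine iteC (hd.of_eq fun a => ?_) hf hg
  rw [Bool.eq_iff_iff, h a, decide_eq_true_iff]

theorem DP.decide {p : α → Prop} [DecidablePred p] (hp : DP p) : Computable fun a => decide (p a) := by
  obtain ⟨d, hd, h⟩ := decide_of_re hp.1 hp.2
  refine hd.of_eq fun a => ?_
  rw [Bool.eq_iff_iff, h a, decide_eq_true_iff]

theorem DP.of_bool {f : α → Bool} (hf : Computable f) : DP fun a => f a = true := by
  exact DP.eq hf (Computable.const true)

/-! ### Lists and iteration -/

theorem getElemC {f : α → List σ} {g : α → ℕ} (hf : Computable f) (hg : Computable g) :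
    Computable fun a => (f a)[g a]? := by
  exact Computable.list_getElem?.comp hf hg

theorem getDC {f : α → List σ} {g : α → ℕ} {d : α → σ} (hf : Computable f) (hg : Computable g) (hd : Computable d) :
    Computable fun a => (f a).getD (g a) (d a) := by
  have h1 : Computable fun a => ((f a)[g a]?).getD (d a) :=
    Computable.option_getD (getElemC hf hg) hd
  exact h1.of_eq fun a => (List.getD_eq_getElem?_getD).symm

theorem iterC {f : α → ℕ} {g : α → σ} {h : α → σ → σ} (hf : Computable f) (hg : Computable g)
    (hh : Computable fun p : α × σ => h p.1 p.2) : Computable fun a => (h a)^[f a] (g a) := by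
  have h1 : Computable fun a => (Nat.rec (g a) (fun _ s => h a s) (f a) : σ) :=
    Computable.nat_rec (f := f) (g := g) (h := fun a (p : ℕ × σ) => h a p.2) hf hg
      (hh.comp (Computable.pair Computable.fst (Computable.snd.comp Computable.snd))).to₂
  refine h1.of_eq fun a => ?_
  induction f a with
  | zero => rfl
  | succ n ih =>
    rw [Function.iterate_succ_apply', ← ih]

theorem optMapC {f : α → Option β} {h : α → β → σ} (hf : Computable f) (hh : Computable fun p : α × β => h p.1 p.2) :
    Computable fun a => (f a).map (h a) := by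
  exact Computable.option_map hf hh.to₂

end ReCalc
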