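import Pool.Agent.Lib.MP_b9fd58_lc.IfDefs
import Pool.Agent.Lib.MP_b9fd58_lc.KDp

/-!
# Stream K: codes and their bounded predicates (definitions)
-/

set_option autoImplicit false

namespace StrAlg

open Module Polynomial

/-! ### Code types -/

section types
variable (D : Dat) (k : Type)

/-- record at a position: letter of the edge to the right, vertex, side of the right direction -/
abbrev Rc : Type := Fin 3 × Fin D.nV × Bool
/-- one-sided ultimately periodic (finite, if the second list is empty) sequence of records -/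
abbrev U1 : Type := List (Rc D) × List (Rc D)
/-- code of a string: the records at `0, 1, 2, …` and at `-1, -2, …` -/
abbrev SC : Type := U1 D × U1 D
/-- code of a block: `true` for a band; records of one period (of the finite string); `n`; matrix; inverse matrix -/
abbrev BC : Type := Bool × List (Rc D) × ℕ × List k × List k
/-- code of a block with coefficients of an element or of a functional -/
abbrev EC : Type := BC D k × List k
/-- code of a pair in normal form -/
abbrev NC : Type := List (EC D k) × List (EC D k)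

end types

variable {D : Dat} {k : Type} [Field k]

/-! ### Ultimately periodic sequences and strings -/

/-- the `n`-th element -/
def up1 {α : Type} (c : List α × List α) (n : ℕ) : Option α :=
  if n < c.1.length then c.1[n]? else c.2[(n - c.1.length) % c.2.length]?

/-- the record at the position `p` (`none`: not a position) -/
def scF (c : SC D) (p : ℤ) : Option (Rc D) := if 0 ≤ p then up1 c.1 p.toNat else up1 c.2 ((-p).toNat - 1)

/-- `p` is a position -/
def scIn (c : SC D) (p : ℤ) : Prop := (scF c p).isSome = true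

/-- letter of the edge `{p, p+1}` -/
def scLam (c : SC D) (p : ℤ) : Fin 3 :=
  match scF c p, scF c (p + 1) with
  | some a, some _ => a.1
  | _, _ => 1

/-- letter read in direction `e` -/
def scLt (c : SC D) (e : Bool) (p : ℤ) : Fin 3 := if e then scLam c p else Fin.rev (scLam c (p - 1))

/-- vertex -/
def scV (c : SC D) (p : ℤ) : Option (Fin D.nV) := (scF c p).map (fun a => a.2.1)

/-- side of the right direction -/
def scR (c : SC D) (p : ℤ) : Bool :=
  match scF c p with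
  | some a => a.2.2
  | none => false

/-- side of the direction `e` -/
def scSd (c : SC D) (e : Bool) (p : ℤ) : Bool := if e then scR c p else !scR c p

/-- word read in direction `e` -/
def scWdd (c : SC D) (e : Bool) (p : ℤ) : Wd := fun n => scLt c e (stn e n p)

/-- the edge between two consecutive records is given by an arrow -/
def scEdge (S : Sides D) (a b : Rc D) : Prop :=
  (a.1 = 2 ∧ ∃ α, S.outA a.2.1 a.2.2 = some α ∧ S.inA b.2.1 (!b.2.2) = some α) ∨
  (a.1 = 0 ∧ ∃ α, S.outA b.2.1 (!b.2.2) = some α ∧ S.inA a.2.1 a.2.2 = some α)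

/-- reading a list of arrows backwards from `p` in direction `e` -/
def scBk (S : Sides D) (c : SC D) (e : Bool) : List (Fin D.nE) → ℤ → Prop
  | [], _ => True
  | a :: l, p => scLt c e p = 0 ∧ (∃ v, scV c p = some v ∧ S.inA v (scSd c e p) = some a) ∧ scBk S c e l (st e p)

/-- the local conditions at `p` -/
def scLoc (S : Sides D) (c : SC D) (p : ℤ) : Prop :=
  (∀ a b, scF c p = some a → scF c (p + 1) = some b → scEdge S a b) ∧
  ∀ r ∈ D.rel, ∀ e, ¬ scBk S c e r.reverse p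

/-- valid codes of strings -/
def scOk (S : Sides D) (c : SC D) : Prop := scIn c 0 ∧ ∀ p, scLoc S c p

/-- `B` is a common period and at least the preperiods -/
def u1Big (c : U1 D) (B : ℕ) : Prop := c.1.length ≤ B ∧ (c.2 = [] ∨ c.2.length ∣ B)
def scBig (c : SC D) (B : ℕ) : Prop := 0 < B ∧ u1Big c.1 B ∧ u1Big c.2 B

/-! ### Comparison of words -/

/-- the words are normalised: after END only ENDs -/
def WNorm (u : Wd) : Prop := ∀ n, u n = 1 → u (n + 1) = 1
/-- period `B` from `N` on -/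
def WPer (u : Wd) (N B : ℕ) : Prop := ∀ n, N ≤ n → u (n + B) = u n
/-- `u ≤ v` and they do not agree forever -/
def Fle (u v : Wd) : Prop := WLe u v ∧ ∃ n, ¬ Agr v u n
/-- the bounded version -/
def fleB (K : ℕ) (u v : Wd) : Prop := ∃ n < K, (∀ m < n, u m = v m ∧ u m ≠ 1) ∧ (u n < v n ∨ (u n = 1 ∧ v n = 1))

/-- bounded version of `Ord` -/
def ordC (K : ℕ) (x y : SC D) (o : Bool) (p q : ℤ) : Prop :=
  scIn x p ∧ scIn y q ∧ scV x p = scV y q ∧ (scR x p == scR y q) = o ∧
    ∀ e, fleB K (scWdd y (e == o) q) (scWdd x e p)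

/-- bounded version of `Al` -/
def alC (K : ℕ) (x y : SC D) (p q : ℤ) : Prop :=
  scIn x p ∧ scIn y q ∧ scV x p = scV y q ∧
    ∀ s, ∀ n < K, scWdd x (s == scR x p) p n = scWdd y (s == scR y q) q n

/-- `Ord` for codes -/
def ordS (x y : SC D) (o : Bool) (p q : ℤ) : Prop :=
  scIn x p ∧ scIn y q ∧ scV x p = scV y q ∧ (scR x p == scR y q) = o ∧
    ∀ e, Fle (scWdd y (e == o) q) (scWdd x e p)

/-- `Al` for codes -/
def alS (x y : SC D) (p q : ℤ) : Prop :=
  scIn x p ∧ scIn y q ∧ scV x p = scV y q ∧ ∀ s, scWdd x (s == scR x p) p = scWdd y (s == scR y q) q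

/-! ### Vectors and matrices as lists -/

/-- entry, `0` outside -/
def ent (L : List k) (i : ℕ) : k := L.getD i 0
/-- the matrix of a list -/
def matOf (n : ℕ) (T : List k) : Matrix (Fin n) (Fin n) k := fun i j => ent T (i * n + j)
/-- the vector of a list -/
def vecOf (n : ℕ) (v : List k) : Fin n → k := fun i => ent v i
/-- matrix times vector -/
def mv (n : ℕ) (T v : List k) : List k := (List.range n).map fun i => ∑ j ∈ Finset.range n, ent T (i * n + j) * ent v j
/-- row times matrix -/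
def vm (n : ℕ) (T v : List k) : List k := (List.range n).map fun j => ∑ i ∈ Finset.range n, ent v i * ent T (i * n + j)
/-- the `p`-th row of length `n` -/
def row (n : ℕ) (L : List k) (p : ℕ) : List k := (List.range n).map fun j => ent L (p * n + j)
/-- the unit vector -/
def unitV (n m : ℕ) : List k := (List.range n).map fun i => if i = m then 1 else 0
/-- the zero vector -/
def zeroV (n : ℕ) : List k := (List.range n).map fun _ => 0
/-- `h(T) v`, `h` the polynomial with coefficients `h` -/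
def polV (n : ℕ) (T h v : List k) : List k :=
  (List.range n).map fun i => ∑ m ∈ Finset.range h.length, ent h m * ent ((mv n T)^[m] v) i
/-- `v h(T)` for a row `v` -/
def polL (n : ℕ) (T h v : List k) : List k :=
  (List.range n).map fun i => ∑ m ∈ Finset.range h.length, ent h m * ent ((vm n T)^[m] v) i
/-- the polynomial of a list -/
noncomputable def polOf (h : List k) : k[X] := ∑ i ∈ Finset.range h.length, monomial i (ent h i)

/-! ### Blocks -/

/-- number of positions in a period -/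
def bcP (b : BC D k) : ℕ := b.2.1.length
/-- `n` -/
def bcN (b : BC D k) : ℕ := b.2.2.1
/-- matrix -/
def bcM (b : BC D k) : List k := b.2.2.2.1
/-- inverse matrix -/
def bcM' (b : BC D k) : List k := b.2.2.2.2
/-- period (`0` for finite strings) -/
def bcL (b : BC D k) : ℕ := if b.1 then bcP b else 0
/-- code of the string -/
def bcS (b : BC D k) : SC D := if b.1 then (([], b.2.1), ([], b.2.1.reverse)) else ((b.2.1, []), ([], []))

/-- valid codes of blocks -/
def bcOk (S : Sides D) (b : BC D k) : Prop :=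
  scOk S (bcS b) ∧ (b.1 = true →
    (∀ d < bcP b, 0 < d → ∃ p < bcP b, scF (bcS b) ((p : ℤ) + (d : ℤ)) ≠ scF (bcS b) p) ∧
    matOf (bcN b) (bcM b) * matOf (bcN b) (bcM' b) = 1 ∧ matOf (bcN b) (bcM' b) * matOf (bcN b) (bcM b) = 1)

/-- valid codes of normal forms -/
def ncOk (S : Sides D) (c : NC D k) : Prop := (∀ t ∈ c.1, bcOk S t.1) ∧ ∀ t ∈ c.2, bcOk S t.1

/-- `B` is large for all blocks -/
def ncBig (c : NC D k) (B : ℕ) : Prop := 0 < B ∧ (∀ t ∈ c.1, scBig (bcS t.1) B) ∧ ∀ t ∈ c.2, scBig (bcS t.1) B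

/-- the values of the element at the position `p` -/
def av (t : EC D k) (p : ℤ) : List k :=
  if t.1.1 = true then
    (if 0 ≤ p then (mv (bcN t.1) (bcM' t.1))^[(p / (bcP t.1 : ℤ)).toNat] (row (bcN t.1) t.2 (p % (bcP t.1 : ℤ)).toNat)
      else (mv (bcN t.1) (bcM t.1))^[(-(p / (bcP t.1 : ℤ))).toNat] (row (bcN t.1) t.2 (p % (bcP t.1 : ℤ)).toNat))
  else if 0 ≤ p ∧ p < (bcP t.1 : ℤ) then row (bcN t.1) t.2 p.toNat else zeroV (bcN t.1)

/-- the coefficients of the functional at the position `p` -/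
def bv (t : EC D k) (p : ℤ) : List k :=
  if t.1.1 = true then
    (if 0 ≤ p then (vm (bcN t.1) (bcM t.1))^[(p / (bcP t.1 : ℤ)).toNat] (row (bcN t.1) t.2 (p % (bcP t.1 : ℤ)).toNat)
      else (vm (bcN t.1) (bcM' t.1))^[(-(p / (bcP t.1 : ℤ))).toNat] (row (bcN t.1) t.2 (p % (bcP t.1 : ℤ)).toNat))
  else if 0 ≤ p ∧ p < (bcP t.1 : ℤ) then row (bcN t.1) t.2 p.toNat else zeroV (bcN t.1)

/-- agreement of the words in direction `e` at the index `m` -/
def agC (x y : SC D) (o e : Bool) (a b : ℤ) (m : ℕ) : Prop :=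
  scWdd x e a m = scWdd y (e == o) b m ∧ scWdd x e a m ≠ 1

instance (x y : SC D) (o e : Bool) (a b : ℤ) (m : ℕ) : Decidable (agC x y o e a b m) := by
  unfold agC; infer_instance

/-- the matrix entry of `Om` -/
def omC (K : ℕ) (X Y : EC D k) (o : Bool) (a b : ℤ) (j j' : ℕ) : k :=
  (∑ i ∈ Finset.range K, if (∀ m < i, agC (bcS X.1) (bcS Y.1) o true a b m) then
      ent (bv Y (stn o (i : ℤ) b)) j' * ent (av X (a + (i : ℤ))) j else 0) +
  ∑ i ∈ Finset.range K, if (∀ m < i + 1, agC (bcS X.1) (bcS Y.1) o false a b m) then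
      ent (bv Y (stn o (-((i : ℤ) + 1)) b)) j' * ent (av X (a + -((i : ℤ) + 1))) j else 0

/-- column of the matrix: `Om` as a vector in `V_X` -/
def omCol (K : ℕ) (X Y : EC D k) (o : Bool) (a b : ℤ) (j' : ℕ) : List k :=
  (List.range (bcN X.1)).map fun j => omC K X Y o a b j j'
/-- row of the matrix: `Om` as a functional on `V_Y` -/
def omRow (K : ℕ) (X Y : EC D k) (o : Bool) (a b : ℤ) (j : ℕ) : List k :=
  (List.range (bcN Y.1)).map fun j' => omC K X Y o a b j j'
/-- `Σ_j' y_j' (column j')` -/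
def omV (K : ℕ) (X Y : EC D k) (o : Bool) (a b : ℤ) (y : List k) : List k :=
  (List.range (bcN X.1)).map fun j => ∑ j' ∈ Finset.range (bcN Y.1), ent y j' * omC K X Y o a b j j'
/-- `Σ_j φ_j (row j)` -/
def omL (K : ℕ) (X Y : EC D k) (o : Bool) (a b : ℤ) (φ : List k) : List k :=
  (List.range (bcN Y.1)).map fun j' => ∑ j ∈ Finset.range (bcN X.1), ent φ j * omC K X Y o a b j j'

/-- the criterion for a block pair, bounded -/
def critC (B : ℕ) (X Y : EC D k) (w : SC D) : Prop :=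
  ∀ q < 20 * B + 1, ∀ p < bcP X.1, ∀ r < bcP Y.1, ∀ o o' : Bool,
    ordC (20 * B) (bcS X.1) w o (p : ℤ) ((q : ℤ) - ((10 * B : ℕ) : ℤ)) →
    ordC (20 * B) w (bcS Y.1) o' ((q : ℤ) - ((10 * B : ℕ) : ℤ)) (r : ℤ) →
    ∀ j < bcN X.1, ∀ j' < bcN Y.1, omC (20 * B) X Y (o == o') (p : ℤ) (r : ℤ) j j' = 0

/-- the criterion for a normal form, bounded -/
def ncCritC (B : ℕ) (c : NC D k) (w : SC D) : Prop := ∀ X ∈ c.1, ∀ Y ∈ c.2, critC B X Y w

/-- both codes are bands, and they give the same string -/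
def sameC (B : ℕ) (b b' : BC D k) : Prop :=
  b.1 = true ∧ b'.1 = true ∧ ∀ p < B, scF (bcS b) (p : ℤ) = scF (bcS b') (p : ℤ)

/-- bounded version of `Sep` -/
def sepC (B : ℕ) (p : NC D k) (c : BC D k) : Prop :=
  (∀ X ∈ p.1, (∃ r < bcP X.1, ∃ r' < bcP c, alC (20 * B) (bcS X.1) (bcS c) (r : ℤ) (r' : ℤ)) → sameC B X.1 c) ∧
  (∀ Y ∈ p.2, (∃ r < bcP Y.1, ∃ r' < bcP c, alC (20 * B) (bcS Y.1) (bcS c) (r : ℤ) (r' : ℤ)) → sameC B Y.1 c)

def prGoodC (B : ℕ) (p : NC D k) (c : BC D k) (π : List k) : Prop :=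
  ncCritC B p (bcS c) ∧ ∀ X ∈ p.1, sameC B X.1 c → ∀ Y ∈ p.2, ∀ a < bcP X.1, ∀ b < bcP Y.1, ∀ o : Bool,
    ordC (20 * B) (bcS X.1) (bcS Y.1) o (a : ℤ) (b : ℤ) → ∀ j' < bcN Y.1, ∃ h : List k,
      polV (bcN X.1) (bcM X.1) h (polV (bcN X.1) (bcM X.1) π (omCol (20 * B) X Y o (a : ℤ) (b : ℤ) j')) =
        omCol (20 * B) X Y o (a : ℤ) (b : ℤ) j'

def prBadC (B : ℕ) (q : NC D k) (X : EC D k) (π : List k) : Prop :=
  X.1.1 = true ∧ ∃ Y ∈ q.2, ∃ a < bcP X.1, ∃ b < bcP Y.1, ∃ o : Bool,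
    ordC (20 * B) (bcS X.1) (bcS Y.1) o (a : ℤ) (b : ℤ) ∧ ∃ y h : List k,
      polV (bcN X.1) (bcM X.1) h (omV (20 * B) X Y o (a : ℤ) (b : ℤ) y) ≠ zeroV (bcN X.1) ∧
      polV (bcN X.1) (bcM X.1) π (polV (bcN X.1) (bcM X.1) h (omV (20 * B) X Y o (a : ℤ) (b : ℤ) y)) =
        zeroV (bcN X.1)

def adGoodC (B : ℕ) (p : NC D k) (c : BC D k) (π : List k) : Prop :=
  ncCritC B p (bcS c) ∧ ∀ X ∈ p.1, ∀ Y ∈ p.2, sameC B Y.1 c → ∀ a < bcP X.1, ∀ b < bcP Y.1, ∀ o : Bool,
    ordC (20 * B) (bcS X.1) (bcS Y.1) o (a : ℤ) (b : ℤ) → ∀ j < bcN X.1, ∃ h : List k,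
      polL (bcN Y.1) (bcM Y.1) h (polL (bcN Y.1) (bcM Y.1) π (omRow (20 * B) X Y o (a : ℤ) (b : ℤ) j)) =
        omRow (20 * B) X Y o (a : ℤ) (b : ℤ) j

def adBadC (B : ℕ) (q : NC D k) (Y : EC D k) (π : List k) : Prop :=
  Y.1.1 = true ∧ ∃ X ∈ q.1, ∃ a < bcP X.1, ∃ b < bcP Y.1, ∃ o : Bool,
    ordC (20 * B) (bcS X.1) (bcS Y.1) o (a : ℤ) (b : ℤ) ∧ ∃ φ h : List k,
      polL (bcN Y.1) (bcM Y.1) h (omL (20 * B) X Y o (a : ℤ) (b : ℤ) φ) ≠ zeroV (bcN Y.1) ∧
      polL (bcN Y.1) (bcM Y.1) π (polL (bcN Y.1) (bcM Y.1) h (omL (20 * B) X Y o (a : ℤ) (b : ℤ) φ)) =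
        zeroV (bcN Y.1)

/-- a polynomial with positive degree and nonzero constant coefficient -/
def polOkC (π : List k) : Prop := (∃ i < π.length, 0 < i ∧ ent π i ≠ 0) ∧ ent π 0 ≠ 0

/-! ### pp-formulas -/

/-- renaming of variables -/
def ppRen (f : ℕ → ℕ) (φ : PP D k) : PP D k := φ.map fun e => e.map fun t => (t.1, f t.2)
/-- conjunction -/
def ppCap (φ ψ : PP D k) : PP D k :=
  ppRen (fun v => 2 * v) φ ++ ppRen (fun v => if v = 0 then 0 else 2 * v + 1) ψ
/-- sum -/
def ppAdd (φ ψ : PP D k) : PP D k :=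
  [([((1 : k), ([] : List D.Gen))], 0), ([((-1 : k), ([] : List D.Gen))], 1), ([((-1 : k), ([] : List D.Gen))], 2)] ::
    (ppRen (fun v => 2 * v + 1) φ ++ ppRen (fun v => 2 * v + 2) ψ)
/-- the formula `x = 0` -/
def ppZero : PP D k := [[([((1 : k), ([] : List D.Gen))], 0)]]

/-- all generators -/
def gens (D : Dat) : List D.Gen := (List.finRange D.nV).map Sum.inl ++ (List.finRange D.nE).map Sum.inr

/-- `x = Σ a_m z_m`, `z_m g = Σ_m' C g m m' z_m'` -/
def upPP (d : ℕ) (C : D.Gen → ℕ → ℕ → k) (a : ℕ → k) : PP D k :=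
  (([((1 : k), ([] : List D.Gen))], 0) :: (List.range d).map fun m => ([(-(a m), ([] : List D.Gen))], m + 1)) ::
  (gens D).flatMap fun g => (List.range d).map fun m =>
    (([((1 : k), [g])], m + 1) :: (List.range d).map fun m' => ([(-(C g m m'), ([] : List D.Gen))], m' + 1))

/-- the variable `y_{g,m}` -/
def yv (g : D.Gen) (m : ℕ) : ℕ := Nat.pair (Encodable.encode g) m + 1

/-- `b_m x = Σ_g (y_{g,m} g - Σ_m' C g m m' y_{g,m'})` for all `m` -/
def dnPP (d : ℕ) (C : D.Gen → ℕ → ℕ → k) (b : ℕ → k) : PP D k :=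
  (List.range d).map fun m => ([(-(b m), ([] : List D.Gen))], 0) :: (gens D).flatMap fun g =>
    (([((1 : k), [g])], yv g m) :: (List.range d).map fun m' => ([(-(C g m m'), ([] : List D.Gen))], yv g m'))

/-- dimension of the block module -/
def bcD (b : BC D k) : ℕ := bcP b * bcN b

/-- coefficient of the basis vector `m'` in `iota_s(e_j)`, `-1 ≤ s ≤ bcP b` -/
def bcCof (b : BC D k) (s : ℤ) (j m' : ℕ) : k :=
  if s = -1 then (if m' / bcN b + 1 = bcP b then ent (bcM' b) ((m' % bcN b) * bcN b + j) else 0)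
  else if s = (bcP b : ℤ) then (if m' / bcN b = 0 then ent (bcM b) ((m' % bcN b) * bcN b + j) else 0)
  else if m' = s.toNat * bcN b + j then 1 else 0

/-- structure constants of the block module for the basis `iota_p(e_j)`, `m = p n + j` -/
def bcC (S : Sides D) (b : BC D k) (g : D.Gen) (m m' : ℕ) : k :=
  match g with
  | Sum.inl i => if m = m' ∧ scV (bcS b) ((m / bcN b : ℕ) : ℤ) = some i then 1 else 0
  | Sum.inr α => ∑ e : Bool, if scLt (bcS b) e ((m / bcN b : ℕ) : ℤ) = 2 ∧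
      (scV (bcS b) ((m / bcN b : ℕ) : ℤ)).bind (fun v => S.outA v (scSd (bcS b) e ((m / bcN b : ℕ) : ℤ))) = some α then
      bcCof b (st e ((m / bcN b : ℕ) : ℤ)) (m % bcN b) m' else 0

/-- the pp-pair of a code -/
def ncPr (S : Sides D) (c : NC D k) : PP D k × PP D k :=
  (c.1.foldr (fun t acc => ppAdd (upPP (bcD t.1) (bcC S t.1) (ent t.2)) acc) ppZero,
   c.2.foldr (fun t acc => ppCap (dnPP (bcD t.1) (bcC S t.1) (ent t.2)) acc) [])

/-! ### Finite-dimensional modules -/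

/-- structure constants of a coded module: `e_m g = Σ_m' C g m m' e_m'` -/
def fmC (N : ℕ × List k) (g : D.Gen) (m m' : ℕ) : k := ent N.2 ((Encodable.encode g * N.1 + m) * N.1 + m')

/-- the operators on `k^d` -/
noncomputable def fmOp (N : ℕ × List k) (g : D.Gen) : (Fin N.1 → k) →ₗ[k] (Fin N.1 → k) :=
  Matrix.vecMulLinear (fun m m' : Fin N.1 => fmC N g m m')

/-- action of a generator on lists -/
def fmG (N : ℕ × List k) (g : D.Gen) (v : List k) : List k :=
  (List.range N.1).map fun m' => ∑ m ∈ Finset.range N.1, ent v m * fmC N g m m'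
/-- action of a word on lists -/
def fmW (N : ℕ × List k) (w : List D.Gen) (v : List k) : List k := w.foldl (fun v g => fmG N g v) v
/-- action of a coded element on lists -/
def fmA (N : ℕ × List k) (c : ElCode D k) (v : List k) : List k :=
  (List.range N.1).map fun i => (c.map fun t => t.1 * ent (fmW N t.2 v) i).sum

/-- the module axioms, on unit vectors -/
def fmOk (D : Dat) (N : ℕ × List k) : Prop := ∀ m < N.1,
  (∀ i : Fin D.nV, fmW (D := D) N [Sum.inl i, Sum.inl i] (unitV N.1 m) = fmW (D := D) N [Sum.inl i] (unitV N.1 m)) ∧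
  (∀ i j : Fin D.nV, i ≠ j → fmW (D := D) N [Sum.inl i, Sum.inl j] (unitV N.1 m) = zeroV N.1) ∧
  (∀ m' < N.1, (∑ i : Fin D.nV, fmC (D := D) N (Sum.inl i) m m') = if m = m' then 1 else 0) ∧
  (∀ a : Fin D.nE, fmW (D := D) N [Sum.inl (D.src a), Sum.inr a] (unitV N.1 m) = fmW (D := D) N [Sum.inr a] (unitV N.1 m)) ∧
  (∀ a : Fin D.nE, fmW (D := D) N [Sum.inr a, Sum.inl (D.tgt a)] (unitV N.1 m) = fmW (D := D) N [Sum.inr a] (unitV N.1 m)) ∧
  (∀ r ∈ D.rel, fmW (D := D) N (r.map Sum.inr) (unitV N.1 m) = zeroV N.1)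

/-- the list `x` is in `φ(N)` -/
def memC (N : ℕ × List k) (φ : PP D k) (x : List k) : Prop :=
  ∃ val : List k, (∀ m < N.1, ent val m = ent x m) ∧
    ∀ e ∈ φ, ∀ m < N.1, (e.map fun t => ent (fmA N t.1 (row N.1 val t.2)) m).sum = 0

/-- a bound for the variables of a system -/
def ppB (φ : PP D k) : ℕ := (φ.flatMap fun e => e.map fun t => t.2 + 1).foldr max 1

/-- the functional `lam` kills `φ(N)` -/
def annC (N : ℕ × List k) (φ : PP D k) (lam : List k) : Prop :=
  ∃ mu : List k, ∀ j < ppB φ, ∀ m < N.1,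
    (∑ i ∈ Finset.range φ.length, ((φ.getD i []).map fun t => if t.2 = j then
      ∑ m' ∈ Finset.range N.1, ent mu (i * N.1 + m') * ent (fmA N t.1 (unitV N.1 m)) m' else 0).sum) =
    if j = 0 then ent lam m else 0

/-- `φ(N) ⊆ ψ(N)` -/
def closedC (N : ℕ × List k) (φ ψ : PP D k) : Prop :=
  ∃ P : List k, (∀ m < N.1, memC N ψ (row N.1 P m)) ∧
    ∀ i < N.1, annC N φ ((List.range N.1).map fun m => (if m = i then 1 else 0) - ent P (m * N.1 + i))

/-- `φ(N) ⊄ ψ(N)` -/
def openC (N : ℕ × List k) (φ ψ : PP D k) : Prop :=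
  ∃ x lam : List k, memC N φ x ∧ annC N ψ lam ∧ (∑ m ∈ Finset.range N.1, ent lam m * ent x m) ≠ 0

/-! ### The certificates -/

def certFC (S : Sides D) (q : NC D k) (P : List (NC D k)) : Prop :=
  ∃ N : ℕ × List k, fmOk D N ∧ openC N (ncPr S q).1 (ncPr S q).2 ∧ ∀ p ∈ P, closedC N (ncPr S p).1 (ncPr S p).2

def certSC (S : Sides D) (q : NC D k) (P : List (NC D k)) : Prop :=
  ∃ (w : SC D) (B : ℕ), scOk S w ∧ scBig w B ∧ ncBig q B ∧ (∀ p ∈ P, ncBig p B) ∧ ¬ ncCritC B q w ∧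
    ∀ p ∈ P, ncCritC B p w

def certPC (q : NC D k) (P : List (NC D k)) : Prop :=
  ∃ (B : ℕ) (π : List k), ∃ X ∈ q.1, ncBig q B ∧ (∀ p ∈ P, ncBig p B) ∧ polOkC π ∧ prBadC B q X π ∧
    ∀ p ∈ P, prGoodC B p X.1 π ∧ sepC B p X.1

def certAC (q : NC D k) (P : List (NC D k)) : Prop :=
  ∃ (B : ℕ) (π : List k), ∃ Y ∈ q.2, ncBig q B ∧ (∀ p ∈ P, ncBig p B) ∧ polOkC π ∧ adBadC B q Y π ∧
    ∀ p ∈ P, adGoodC B p Y.1 π ∧ sepC B p Y.1

end StrAlg
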