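import Pool.Agent.Lib.MP_b9fd58_lc.KMain
import Pool.Agent.Lib.MP_b9fd58_lc.KGood
import Pool.Agent.Lib.MP_b9fd58_lc.KRank
import Pool.Agent.Lib.MP_b9fd58_lc.IfL

/-!
# The final theorem for infinite fields
-/

set_option autoImplicit false

namespace StrAlg

open ReCalc Module

section
variable {D : Dat} {S : Sides D} {k : Type} [Field k] [Primcodable k] (K : KData D S k)

/-- the condition of a marked code: `true` = closed, `false` = open -/
def kCond (t : K.NC × Bool) : Cond D k := (K.pr t.1, if t.2 then (0, true) else (1, false))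

/-- the closed codes -/
def kClosed (L : List (K.NC × Bool)) : List K.NC := (L.filter fun t => t.2).map Prod.fst

/-- the certified predicate on a list of conditions -/
def kP (L : List (Cond D k)) : Prop :=
  ∃ Lc : List (K.NC × Bool), L = Lc.map (kCond K) ∧ ∀ t ∈ Lc.filter (fun t => !t.2),
    (K.Val t.1 ∧ (∀ c ∈ kClosed K Lc, K.Val c) ∧
      (CertF (K.dec t.1) ((kClosed K Lc).map K.dec) ∨ CertS (K.dec t.1) ((kClosed K Lc).map K.dec) ∨
        CertP (K.dec t.1) ((kClosed K Lc).map K.dec) ∨ CertA (K.dec t.1) ((kClosed K Lc).map K.dec)))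

theorem kCond_comp : Computable (kCond K) := by
  unfold kCond
  refine Computable.pair (K.pr_comp.comp Computable.fst) ?_
  have h : Computable fun t : K.NC × Bool => (bif t.2 then ((0 : ℕ), true) else ((1 : ℕ), false)) :=
    Computable.cond Computable.snd (Computable.const _) (Computable.const _)
  refine h.of_eq ?_
  rintro ⟨c, b⟩
  cases b <;> rfl

theorem kClosed_comp : Computable (kClosed K) := by
  unfold kClosed
  exact mapC (filterC Computable.id (Computable.snd.comp Computable.snd)) (Computable.fst.comp Computable.snd)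

theorem kP_re : REPred (kP K) := by
  unfold kP
  refine re_ex ?_
  refine re_and ?_ ?_
  · exact re_eq Computable.fst (mapC Computable.snd ((kCond_comp K).comp Computable.snd))
  · refine re_forall_mem (filterC Computable.snd (notC (Computable.snd.comp Computable.snd))) ?_
    have hf : Computable fun u : (List (Cond D k) × List (K.NC × Bool)) × (K.NC × Bool) =>
        (u.2.1, kClosed K u.1.2) :=
      Computable.pair (Computable.fst.comp Computable.snd)
        ((kClosed_comp K).comp (Computable.snd.comp Computable.fst))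
    exact re_comp K.re hf

theorem kP_sound (L : List (Cond D k)) (h : kP K L) : Realizable D k L := by
  obtain ⟨Lc, rfl, hc⟩ := h
  obtain ⟨N, hN1, hN2⟩ := exists_sum (D := D) (k := k) ((Lc.filter fun t => !t.2).map fun t => K.pr t.1)
    ((kClosed K Lc).map K.pr) (by
      intro q hq
      obtain ⟨t, ht, rfl⟩ := List.mem_map.1 hq
      obtain ⟨v1, v2, hcert⟩ := hc t ht
      obtain ⟨N, hN1, hN2⟩ := main_sound (K.dec t.1) ((kClosed K Lc).map K.dec) hcert
      refine ⟨N, ?_, ?_⟩
      · rw [Ne, rank_zero_iff_opn _ _ _ N (K.pr_spec t.1 v1 N).1 (K.pr_spec t.1 v1 N).2, not_not]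
        exact hN1
      · intro p hp
        obtain ⟨c, hcc, rfl⟩ := List.mem_map.1 hp
        rw [rank_zero_iff_opn _ _ _ N (K.pr_spec c (v2 c hcc) N).1 (K.pr_spec c (v2 c hcc) N).2]
        exact hN2 _ (List.mem_map_of_mem hcc))
  refine ⟨N.C, N.g, N.m, N.Q, ?_⟩
  intro t ht
  obtain ⟨⟨c, b⟩, hcb, rfl⟩ := List.mem_map.1 ht
  cases b with
  | true =>
    have h0 := hN2 (K.pr c) (List.mem_map_of_mem (List.mem_map.2 ⟨(c, true), by simpa using hcb, rfl⟩))
    unfold Cond.Holds kCond
    simpa using h0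
  | false =>
    have h0 := hN1 (K.pr c) (List.mem_map.2 ⟨(c, false), by simpa using hcb, rfl⟩)
    unfold Cond.Holds kCond
    simpa [ENat.one_le_iff_ne_zero] using h0

theorem kP_compl (hD : D.IsString) (Can : Set (Str S)) (hC : CanOK Can) (L : List (Cond D k))
    (hL : ∀ t ∈ L, (∃ c, K.Val c ∧ (K.dec c).InCan Can ∧ t.1 = K.pr c) ∧ (t.2 = (0, true) ∨ t.2 = (1, false)))
    (hr : Realizable D k L) : kP K L := by
  obtain ⟨Lc, rfl, hLc⟩ : ∃ Lc : List (K.NC × Bool), L = Lc.map (kCond K) ∧
      ∀ t ∈ Lc, K.Val t.1 ∧ (K.dec t.1).InCan Can := by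
    clear hr
    induction L with
    | nil => exact ⟨[], rfl, by simp⟩
    | cons t L ih =>
      obtain ⟨Lc, h1, h2⟩ := ih (fun t ht => hL t (List.mem_cons_of_mem _ ht))
      obtain ⟨⟨c, hv, hcan, hp⟩, ht⟩ := hL t List.mem_cons_self
      obtain ⟨t1, t2⟩ := t
      simp only at hp ht
      subst hp
      rcases ht with rfl | rfl
      · refine ⟨(c, true) :: Lc, ?_, ?_⟩
        · rw [List.map_cons, h1]; rfl
        · intro t ht
          rcases List.mem_cons.1 ht with rfl | ht
          · exact ⟨hv, hcan⟩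
          · exact h2 t ht
      · refine ⟨(c, false) :: Lc, ?_, ?_⟩
        · rw [List.map_cons, h1]; rfl
        · intro t ht
          rcases List.mem_cons.1 ht with rfl | ht
          · exact ⟨hv, hcan⟩
          · exact h2 t ht
  refine ⟨Lc, rfl, ?_⟩
  intro t ht
  obtain ⟨ht1, ht2⟩ := List.mem_filter.1 ht
  have hcl : ∀ c ∈ kClosed K Lc, (c, true) ∈ Lc := by
    intro c hc
    obtain ⟨⟨c', b⟩, hu, rfl⟩ := List.mem_map.1 hc
    obtain ⟨hu1, hu2⟩ := List.mem_filter.1 hu
    simp only at hu2 ⊢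
    rwa [hu2] at hu1
  have hval : ∀ c ∈ kClosed K Lc, K.Val c := fun c hc => (hLc _ (hcl c hc)).1
  refine ⟨(hLc t ht1).1, hval, ?_⟩
  refine main_cert hD Can hC (K.dec t.1) (hLc t ht1).2 ((kClosed K Lc).map K.dec) ?_ ?_
  · intro p hp
    obtain ⟨c, hc, rfl⟩ := List.mem_map.1 hp
    exact (hLc _ (hcl c hc)).2
  · obtain ⟨N, i1, i2, Q, hQ⟩ := hr
    refine ⟨⟨N, Q⟩, ?_, ?_⟩
    · have h := hQ (kCond K t) (List.mem_map_of_mem ht1)
      have h' : t = (t.1, false) := by
        obtain ⟨c, b⟩ := t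
        simp only [Bool.not_eq_true'] at ht2
        rw [ht2]
      rw [h'] at h
      unfold Cond.Holds kCond at h
      simp only [Bool.false_eq_true, if_false] at h
      have hs := K.pr_spec t.1 (hLc t ht1).1 ⟨N, Q⟩
      have h2 := (rank_zero_iff_opn _ _ _ (⟨N, Q⟩ : Md D k) hs.1 hs.2).not.1 (by
        intro h0
        rw [h0] at h
        simp at h)
      exact not_not.1 h2
    · intro p hp
      obtain ⟨c, hc, rfl⟩ := List.mem_map.1 hp
      have h := hQ (kCond K (c, true)) (List.mem_map_of_mem (hcl c hc))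
      unfold Cond.Holds kCond at h
      simp only [if_true] at h
      have hs := K.pr_spec c (hval c hc) ⟨N, Q⟩
      exact (rank_zero_iff_opn _ _ _ (⟨N, Q⟩ : Md D k) hs.1 hs.2).1 (by simpa using h)

end

/-- **Final theorem for infinite fields.** -/
theorem decidable_infinite (D : Dat) (hD : D.IsString) (k : Type) [Field k] [Infinite k] [Primcodable k]
    (hadd : Computable₂ (fun a b : k => a + b)) (hmul : Computable₂ (fun a b : k => a * b)) :
    ∃ f : List (Sym D k) → Bool, Computable f ∧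
      ∀ φ : Fm D k, φ.IsSentence →
        (f φ.code = true ↔
          ∀ (M : Type) [AddCommGroup M] [Module (Alg D k)ᵐᵒᵖ M], φ.Sat M (fun _ => 0)) := by
  obtain ⟨S⟩ := exists_sides hD
  let K := kData D S k hadd hmul
  obtain ⟨Can, hC, hCan⟩ := K.can
  refine decidable_of_real D k hadd hmul (fun p => ∃ c, K.Val c ∧ (K.dec c).InCan Can ∧ p = K.pr c) ?_ (kP K)
    (kP_re K) (kP_sound K) ?_
  · intro p
    obtain ⟨c, h1, h2, h3⟩ := KData.good hD K Can hC hCan p.1 p.2
    exact ⟨K.pr c, ⟨c, h1, h2, rfl⟩, fun N _ _ Q => h3 N Q⟩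
  · intro L hL hr
    refine kP_compl K hD Can hC L ?_ hr
    intro t ht
    obtain ⟨h1, h2⟩ := hL t ht
    refine ⟨h1, ?_⟩
    rcases h2 with h2 | h2
    · exact absurd h2 (not_finite_iff_infinite.2 inferInstance)
    · exact h2

end StrAlg
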