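import Pool.Agent.Lib.MP_b9fd58_lc.KVec

/-!
# Stream K: coded finite-dimensional modules
-/

set_option autoImplicit false

namespace StrAlg

open Module

variable {D : Dat} {k : Type} [Field k]

theorem vecOf_fmG (N : ℕ × List k) (g : D.Gen) (v : List k) : vecOf N.1 (fmG N g v) = fmOp N g (vecOf N.1 v) := by
  unfold fmG fmOp
  rw [vecOf_map_range, Matrix.vecMulLinear_apply]
  funext i
  rw [Finset.sum_range]
  rfl

/-- action of a word, as a linear map -/
noncomputable def KFm_lin (N : ℕ × List k) : List D.Gen → ((Fin N.1 → k) →ₗ[k] (Fin N.1 → k))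
  | [] => LinearMap.id
  | g :: w => KFm_lin N w ∘ₗ fmOp N g

theorem KFm_lin_eq (N : ℕ × List k) (w : List D.Gen) (n : Fin N.1 → k) :
    w.foldl (fun m g => fmOp N g m) n = KFm_lin N w n := by
  induction w generalizing n with
  | nil => rfl
  | cons g w ih => exact ih _

theorem vecOf_fmW (N : ℕ × List k) (w : List D.Gen) (v : List k) :
    vecOf N.1 (fmW N w v) = w.foldl (fun m g => fmOp N g m) (vecOf N.1 v) := by
  induction w generalizing v with
  | nil => rfl
  | cons g w ih =>
    have h := ih (fmG N g v)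
    rw [vecOf_fmG] at h
    exact h

theorem KFm_vecOf (N : ℕ × List k) (w : List D.Gen) (v : List k) :
    vecOf N.1 (fmW N w v) = KFm_lin N w (vecOf N.1 v) := by
  rw [vecOf_fmW, KFm_lin_eq]

theorem KFm_ext {N : ℕ} {A B : (Fin N → k) →ₗ[k] (Fin N → k)}
    (h : ∀ m : Fin N, A (Pi.single m 1) = B (Pi.single m 1)) : A = B := by
  refine (Pi.basisFun k (Fin N)).ext fun m => ?_
  rw [Pi.basisFun_apply]
  exact h m

theorem KFm_op_single (N : ℕ × List k) (g : D.Gen) (m m' : Fin N.1) :
    fmOp N g (Pi.single m 1) m' = fmC N g m m' := by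
  unfold fmOp
  rw [Matrix.vecMulLinear_apply, Matrix.single_one_vecMul]
  rfl

/-- equality of the actions of two words on all unit vectors -/
theorem KFm_words (N : ℕ × List k) (w w' : List D.Gen)
    (h : ∀ m < N.1, fmW N w (unitV N.1 m) = fmW N w' (unitV N.1 m)) (n : Fin N.1 → k) :
    KFm_lin N w n = KFm_lin N w' n := by
  have h2 : KFm_lin N w = KFm_lin N w' := by
    refine KFm_ext fun m => ?_
    rw [← vecOf_unitV, ← KFm_vecOf, ← KFm_vecOf, h m m.2]
  rw [h2]

theorem KFm_words_zero (N : ℕ × List k) (w : List D.Gen)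
    (h : ∀ m < N.1, fmW N w (unitV N.1 m) = zeroV N.1) (n : Fin N.1 → k) :
    KFm_lin N w n = 0 := by
  have h2 : KFm_lin N w = 0 := by
    refine KFm_ext fun m => ?_
    rw [← vecOf_unitV, ← KFm_vecOf, h m m.2, vecOf_zeroV, LinearMap.zero_apply]
  rw [h2, LinearMap.zero_apply]

/-- the module of a valid code -/
noncomputable def fmQ (N : ℕ × List k) (h : fmOk D N) : QMod D k (Fin N.1 → k) where
  op := fmOp N
  idem := by
    intro i n
    exact KFm_words N [Sum.inl i, Sum.inl i] [Sum.inl i] (fun m hm => (h m hm).1 i) n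
  orth := by
    intro i j n hij
    exact KFm_words_zero N [Sum.inl i, Sum.inl j] (fun m hm => (h m hm).2.1 i j hij) n
  one := by
    intro n
    have h2 : (∑ i : Fin D.nV, fmOp (D := D) N (Sum.inl i)) = LinearMap.id := by
      refine KFm_ext fun m => ?_
      funext m'
      rw [LinearMap.sum_apply, Finset.sum_apply]
      have h3 := (h m m.2).2.2.1 m' m'.2
      simp only [KFm_op_single]
      rw [h3, LinearMap.id_apply, Pi.single_apply]
      by_cases hm : m = m'
      · rw [if_pos (congrArg Fin.val hm), if_pos hm.symm]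
      · rw [if_neg (fun h4 => hm (Fin.ext h4)), if_neg (fun h4 => hm h4.symm)]
    have h4 := congrArg (fun A : (Fin N.1 → k) →ₗ[k] (Fin N.1 → k) => A n) h2
    simpa [LinearMap.sum_apply] using h4
  src := by
    intro a n
    exact KFm_words N [Sum.inl (D.src a), Sum.inr a] [Sum.inr a] (fun m hm => (h m hm).2.2.2.1 a) n
  tgt := by
    intro a n
    exact KFm_words N [Sum.inr a, Sum.inl (D.tgt a)] [Sum.inr a] (fun m hm => (h m hm).2.2.2.2.1 a) n
  rel := by
    intro r hr n
    have h2 := KFm_words_zero N (r.map Sum.inr) (fun m hm => (h m hm).2.2.2.2.2 r hr) n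
    rw [← KFm_lin_eq, List.foldl_map] at h2
    exact h2

/-- lists given by a function on `range n` -/
def KFm_form (n : ℕ) (L : List k) : Prop := ∃ f : ℕ → k, L = (List.range n).map f

theorem KFm_form_eq {n : ℕ} {L L' : List k} (h : KFm_form n L) (h' : KFm_form n L')
    (he : vecOf n L = vecOf n L') : L = L' := by
  obtain ⟨f, rfl⟩ := h
  obtain ⟨f', rfl⟩ := h'
  exact map_range_eq_iff_vecOf.2 he

theorem KFm_form_fmG (N : ℕ × List k) (g : D.Gen) (v : List k) : KFm_form N.1 (fmG N g v) := ⟨_, rfl⟩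

theorem KFm_form_fmW (N : ℕ × List k) (w : List D.Gen) (v : List k) (hv : KFm_form N.1 v) :
    KFm_form N.1 (fmW N w v) := by
  induction w generalizing v with
  | nil => exact hv
  | cons g w ih => exact ih _ (KFm_form_fmG N g v)

theorem KFm_form_unitV (n m : ℕ) : KFm_form n (unitV n m : List k) := ⟨_, rfl⟩

theorem KFm_form_zeroV (n : ℕ) : KFm_form n (zeroV n : List k) := ⟨_, rfl⟩

theorem fmOk_of (N : ℕ × List k) (Q : QMod D k (Fin N.1 → k)) (hQ : ∀ g, Q.op g = fmOp N g) : fmOk D N := by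
  intro m hm
  have key : ∀ w : List D.Gen, vecOf N.1 (fmW N w (unitV N.1 m)) =
      w.foldl (fun m g => Q.op g m) (vecOf N.1 (unitV N.1 m)) := by
    intro w
    rw [vecOf_fmW]
    congr 1
    funext n g
    rw [hQ]
  refine ⟨fun i => ?_, fun i j hij => ?_, fun m' hm' => ?_, fun a => ?_, fun a => ?_, fun r hr => ?_⟩
  · refine KFm_form_eq (KFm_form_fmW _ _ _ (KFm_form_unitV _ _)) (KFm_form_fmW _ _ _ (KFm_form_unitV _ _)) ?_
    rw [key, key]
    exact Q.idem i _
  · refine KFm_form_eq (KFm_form_fmW _ _ _ (KFm_form_unitV _ _)) (KFm_form_zeroV _) ?_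
    rw [key, vecOf_zeroV]
    exact Q.orth i j _ hij
  · have h1 := congrFun (Q.one (Pi.single (⟨m, hm⟩ : Fin N.1) 1)) ⟨m', hm'⟩
    rw [Finset.sum_apply] at h1
    simp only [hQ, KFm_op_single] at h1
    rw [h1, Pi.single_apply]
    by_cases h2 : m = m'
    · subst h2
      simp
    · rw [if_neg h2, if_neg]
      intro h3
      exact h2 (congrArg Fin.val h3).symm
  · refine KFm_form_eq (KFm_form_fmW _ _ _ (KFm_form_unitV _ _)) (KFm_form_fmW _ _ _ (KFm_form_unitV _ _)) ?_
    rw [key, key]
    exact Q.src a _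
  · refine KFm_form_eq (KFm_form_fmW _ _ _ (KFm_form_unitV _ _)) (KFm_form_fmW _ _ _ (KFm_form_unitV _ _)) ?_
    rw [key, key]
    exact Q.tgt a _
  · refine KFm_form_eq (KFm_form_fmW _ _ _ (KFm_form_unitV _ _)) (KFm_form_zeroV _) ?_
    rw [key, vecOf_zeroV, List.foldl_map]
    exact Q.rel r hr _

theorem vecOf_fmA (N : ℕ × List k) (h : fmOk D N) (c : ElCode D k) (v : List k) :
    vecOf N.1 (fmA N c v) = (fmQ N h).act c (vecOf N.1 v) := by
  unfold fmA
  rw [vecOf_map_range]
  induction c with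
  | nil =>
    funext i
    rfl
  | cons t c ih =>
    have h1 : (fmQ N h).act (t :: c) (vecOf N.1 v) =
        t.1 • (fmQ N h).word t.2 (vecOf N.1 v) + (fmQ N h).act c (vecOf N.1 v) := rfl
    rw [h1, ← ih]
    funext i
    rw [Pi.add_apply, Pi.smul_apply, List.map_cons, List.sum_cons, smul_eq_mul]
    have h2 : (fmQ N h).word t.2 (vecOf N.1 v) = vecOf N.1 (fmW N t.2 v) := by
      rw [vecOf_fmW]
      rfl
    rw [h2]
    rfl

/-- transport of a module along a linear equivalence -/
noncomputable def KFm_tr {M N : Type} [AddCommGroup M] [Module k M] [AddCommGroup N] [Module k N]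
    (Q : QMod D k M) (e : M ≃ₗ[k] N) : QMod D k N where
  op g := e.toLinearMap ∘ₗ Q.op g ∘ₗ e.symm.toLinearMap
  idem i n := by simp [Q.idem]
  orth i j n hij := by simp [Q.orth _ _ _ hij]
  one n := by
    have h := congrArg e (Q.one (e.symm n))
    rw [map_sum] at h
    simpa using h
  src a n := by simp [Q.src]
  tgt a n := by simp [Q.tgt]
  rel r hr n := by
    have key : ∀ (r : List (Fin D.nE)) (n : N),
        r.foldl (fun m a => (e.toLinearMap ∘ₗ Q.op (Sum.inr a) ∘ₗ e.symm.toLinearMap) m) n =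
          e (r.foldl (fun m a => Q.op (Sum.inr a) m) (e.symm n)) := by
      intro r
      induction r with
      | nil => intro n; simp
      | cons a r ih =>
        intro n
        rw [List.foldl_cons, ih]
        simp
    rw [key, Q.rel r hr, map_zero]

/-- every family of matrices indexed by the generators is given by a list -/
theorem KFm_exists_list (d : ℕ) (A : D.Gen → Fin d → Fin d → k) :
    ∃ L : List k, ∀ g (m m' : Fin d), fmC (D := D) (d, L) g m m' = A g m m' := by
  rcases Nat.eq_zero_or_pos d with hd | hd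
  · subst hd
    exact ⟨[], fun g m => m.elim0⟩
  obtain ⟨G, hG⟩ : ∃ G : ℕ, ∀ g : D.Gen, Encodable.encode g < G := by
    refine ⟨(Finset.univ.sup (fun g : D.Gen => Encodable.encode g)) + 1, fun g => ?_⟩
    exact Nat.lt_succ_of_le (Finset.le_sup (f := fun g : D.Gen => Encodable.encode g) (Finset.mem_univ g))
  obtain ⟨L, hL⟩ := exists_rows G (d * d) (fun c t =>
    match (Encodable.decode c : Option D.Gen) with
    | some g => A g ⟨(t : ℕ) / d, Nat.div_lt_of_lt_mul t.2⟩ ⟨(t : ℕ) % d, Nat.mod_lt _ hd⟩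
    | none => 0)
  refine ⟨L, fun g m m' => ?_⟩
  have hm : (m : ℕ) * d + m' < d * d := by
    have h1 := Nat.mul_le_mul_right d (Nat.succ_le_of_lt m.2)
    have h2 := m'.2
    rw [Nat.succ_mul] at h1
    omega
  have h1 := hL (Encodable.encode g) (hG g) ⟨(m : ℕ) * d + m', hm⟩
  simp only [Encodable.encodek] at h1
  unfold fmC
  change ent L ((Encodable.encode g * d + m) * d + m') = _
  have h2 : (Encodable.encode g * d + (m : ℕ)) * d + m' = Encodable.encode g * (d * d) + (m * d + m') := by ring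
  rw [h2, h1]
  congr 1
  · apply Fin.ext
    change ((m : ℕ) * d + m') / d = m
    rw [Nat.mul_comm, Nat.mul_add_div hd, Nat.div_eq_of_lt m'.2, Nat.add_zero]
  · apply Fin.ext
    change ((m : ℕ) * d + m') % d = m'
    rw [Nat.mul_comm, Nat.mul_add_mod, Nat.mod_eq_of_lt m'.2]

/-- every finite-dimensional module is isomorphic to a coded one -/
theorem exists_fm (M : Md D k) (hM : FiniteDimensional k M.C) :
    ∃ (N : ℕ × List k) (h : fmOk D N), (⟨Fin N.1 → k, fmQ N h⟩ : Md D k).Iso M := by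
  obtain ⟨d, e⟩ : ∃ d : ℕ, Nonempty (M.C ≃ₗ[k] (Fin d → k)) :=
    ⟨Module.finrank k M.C, ⟨(Module.finBasis k M.C).equivFun⟩⟩
  obtain ⟨e⟩ := e
  obtain ⟨L, hL⟩ := KFm_exists_list (D := D) d (fun g m m' => e (M.Q.op g (e.symm (Pi.single m 1))) m')
  have hQ : ∀ g, (KFm_tr M.Q e).op g = fmOp (d, L) g := by
    intro g
    refine KFm_ext fun m => ?_
    funext m'
    rw [KFm_op_single (d, L) g m m', hL]
    rfl
  refine ⟨(d, L), fmOk_of (d, L) (KFm_tr M.Q e) hQ, e.symm, ?_⟩
  intro g m
  change e.symm (fmOp (d, L) g m) = M.Q.op g (e.symm m)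
  rw [← hQ g]
  change e.symm (e (M.Q.op g (e.symm m))) = M.Q.op g (e.symm m)
  rw [e.symm_apply_apply]

end StrAlg
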