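import Pool.Agent.Lib.MP_b9fd58_lc.KDefs

/-!
# Stream K: semantics of the operations on pp-systems
-/

set_option autoImplicit false

namespace StrAlg

variable {D : Dat} {k : Type} [Field k] {N : Type} [AddCommGroup N] [Module k N]

theorem KPPa_act1 (Q : QMod D k N) (c : k) (n : N) : Q.act ([(c, ([] : List D.Gen))] : ElCode D k) n = c • n := by
  simp [QMod.act, QMod.word]

theorem KPPa_actg (Q : QMod D k N) (g : D.Gen) (n : N) :
    Q.act ([((1 : k), [g])] : ElCode D k) n = Q.op g n := by
  simp [QMod.act, QMod.word]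

theorem KPPa_sum_range (f : ℕ → N) (d : ℕ) : ((List.range d).map f).sum = ∑ m ∈ Finset.range d, f m := by
  induction d with
  | zero => simp
  | succ d ih => rw [List.range_succ, List.map_append, List.sum_append, ih, Finset.sum_range_succ]; simp

theorem KPPa_sum_flatMap {α β : Type} (l : List α) (F : α → List β) (h : β → N) :
    ((l.flatMap F).map h).sum = (l.map fun a => ((F a).map h).sum).sum := by
  induction l with
  | nil => simp
  | cons a l ih => rw [List.flatMap_cons, List.map_append, List.sum_append, ih, List.map_cons, List.sum_cons]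

theorem sys_ren (Q : QMod D k N) (f : ℕ → ℕ) (φ : PP D k) (v : ℕ → N) :
    Q.Sys (ppRen f φ) v ↔ Q.Sys φ (v ∘ f) := by
  unfold QMod.Sys ppRen
  constructor
  · intro h e he
    have h1 := h _ (List.mem_map_of_mem he)
    rw [List.map_map] at h1
    exact h1
  · intro h e he
    obtain ⟨e', he', rfl⟩ := List.mem_map.1 he
    rw [List.map_map]
    exact h e' he'

theorem KPPa_sys_append (Q : QMod D k N) (φ ψ : PP D k) (v : ℕ → N) :
    Q.Sys (φ ++ ψ) v ↔ Q.Sys φ v ∧ Q.Sys ψ v := by
  unfold QMod.Sys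
  exact List.forall_mem_append

theorem KPPa_sys_cons (Q : QMod D k N) (e : List (ElCode D k × ℕ)) (φ : PP D k) (v : ℕ → N) :
    Q.Sys (e :: φ) v ↔ (e.map (fun t => Q.act t.1 (v t.2))).sum = 0 ∧ Q.Sys φ v := by
  unfold QMod.Sys
  exact List.forall_mem_cons

theorem pp_nil (Q : QMod D k N) : Q.pp ([] : PP D k) = Set.univ := by
  ext x
  simp only [QMod.pp, QMod.Sys, Set.mem_ofPred_eq, Set.mem_univ, iff_true]
  exact ⟨fun _ => x, rfl, fun e he => absurd he List.not_mem_nil⟩

theorem pp_zero (Q : QMod D k N) : Q.pp (ppZero : PP D k) = {0} := by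
  ext x
  simp only [QMod.pp, ppZero, KPPa_sys_cons, Set.mem_ofPred_eq, Set.mem_singleton_iff, List.map_cons,
    List.map_nil, List.sum_cons, List.sum_nil, KPPa_act1, one_smul, add_zero]
  constructor
  · rintro ⟨v, h1, h2, -⟩
    rw [← h1, h2]
  · rintro rfl
    exact ⟨fun _ => 0, rfl, rfl, fun e he => absurd he List.not_mem_nil⟩

theorem pp_cap (Q : QMod D k N) (φ ψ : PP D k) : Q.pp (ppCap φ ψ) = Q.pp φ ∩ Q.pp ψ := by
  ext x
  simp only [QMod.pp, ppCap, KPPa_sys_append, sys_ren, Set.mem_ofPred_eq, Set.mem_inter_iff]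
  constructor
  · rintro ⟨v, h1, h2, h3⟩
    exact ⟨⟨v ∘ fun v => 2 * v, h1, h2⟩, ⟨v ∘ fun v => if v = 0 then 0 else 2 * v + 1, h1, h3⟩⟩
  · rintro ⟨⟨v, h1, h2⟩, ⟨w, h3, h4⟩⟩
    refine ⟨fun n => if n = 0 then x else if n % 2 = 0 then v (n / 2) else w (n / 2), by simp, ?_, ?_⟩
    · convert h2 using 1
      funext n
      simp only [Function.comp]
      rcases Nat.eq_zero_or_pos n with h | h
      · subst h; simp [h1]
      · rw [if_neg (by omega), if_pos (by omega)]
        congr 1; omega
    · convert h4 using 1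
      funext n
      simp only [Function.comp]
      rcases Nat.eq_zero_or_pos n with h | h
      · subst h; simp [h3]
      · rw [if_neg (show ¬ n = 0 by omega), if_neg (by omega), if_neg (by omega)]
        congr 1; omega

theorem pp_add (Q : QMod D k N) (φ ψ : PP D k) :
    Q.pp (ppAdd φ ψ) = {x | ∃ y ∈ Q.pp φ, ∃ z ∈ Q.pp ψ, x = y + z} := by
  ext x
  simp only [QMod.pp, ppAdd, KPPa_sys_append, KPPa_sys_cons, sys_ren, Set.mem_ofPred_eq, List.map_cons,
    List.map_nil, List.sum_cons, List.sum_nil, KPPa_act1, one_smul, neg_smul, add_zero]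
  constructor
  · rintro ⟨v, h1, h2, h3, h4⟩
    refine ⟨v 1, ⟨v ∘ fun v => 2 * v + 1, rfl, h3⟩, v 2, ⟨v ∘ fun v => 2 * v + 2, rfl, h4⟩, ?_⟩
    rw [h1] at h2
    rw [← sub_eq_zero, ← h2]
    abel
  · rintro ⟨y, ⟨v, h1, h2⟩, z, ⟨w, h3, h4⟩, h5⟩
    refine ⟨fun n => if n = 0 then x else if n % 2 = 1 then v ((n - 1) / 2) else w ((n - 2) / 2), by simp,
      ?_, ?_, ?_⟩
    · have e1 : (if (1 : ℕ) = 0 then x else if 1 % 2 = 1 then v ((1 - 1) / 2) else w ((1 - 2) / 2)) = y := by
        simp [h1]
      have e2 : (if (2 : ℕ) = 0 then x else if 2 % 2 = 1 then v ((2 - 1) / 2) else w ((2 - 2) / 2)) = z := by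
        simp [h3]
      show (if (0 : ℕ) = 0 then x else _) + (-(if (1 : ℕ) = 0 then x else if 1 % 2 = 1 then v ((1 - 1) / 2)
        else w ((1 - 2) / 2)) + -(if (2 : ℕ) = 0 then x else if 2 % 2 = 1 then v ((2 - 1) / 2)
        else w ((2 - 2) / 2))) = 0
      rw [e1, e2, if_pos rfl, h5]
      abel
    · convert h2 using 1
      funext n
      simp only [Function.comp]
      rw [if_neg (by omega), if_pos (by omega)]
      congr 1; omega
    · convert h4 using 1
      funext n
      simp only [Function.comp]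
      rw [if_neg (by omega), if_neg (by omega)]
      congr 1; omega

theorem KPPa_mem_gens (g : D.Gen) : g ∈ gens D := by
  unfold gens
  rcases g with i | a
  · exact List.mem_append_left _ (List.mem_map_of_mem (List.mem_finRange i))
  · exact List.mem_append_right _ (List.mem_map_of_mem (List.mem_finRange a))

theorem KPPa_sum_gens (f : D.Gen → N) : ((gens D).map f).sum = ∑ g : D.Gen, f g := by
  unfold gens
  rw [List.map_append, List.sum_append, List.map_map, List.map_map]
  have h1 : ∑ g : D.Gen, f g = ∑ i : Fin D.nV, f (Sum.inl i) + ∑ a : Fin D.nE, f (Sum.inr a) :=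
    Fintype.sum_sum_type f
  rw [h1, ← List.sum_ofFn, ← List.sum_ofFn, List.ofFn_eq_map, List.ofFn_eq_map]
  rfl

theorem pp_up (Q : QMod D k N) (d : ℕ) (C : D.Gen → ℕ → ℕ → k) (a : ℕ → k) :
    Q.pp (upPP d C a) = {x | ∃ z : ℕ → N, (∀ g, ∀ m < d, Q.op g (z m) = ∑ m' ∈ Finset.range d, C g m m' • z m') ∧
      x = ∑ m ∈ Finset.range d, a m • z m} := by
  have key : ∀ v : ℕ → N, Q.Sys (upPP d C a) v ↔ (v 0 = ∑ m ∈ Finset.range d, a m • v (m + 1)) ∧
      ∀ g, ∀ m < d, Q.op g (v (m + 1)) = ∑ m' ∈ Finset.range d, C g m m' • v (m' + 1) := by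
    intro v
    unfold upPP
    rw [KPPa_sys_cons]
    refine and_congr ?_ ?_
    · rw [List.map_cons, List.sum_cons, List.map_map, KPPa_act1, one_smul]
      have h1 : ((List.range d).map ((fun t : ElCode D k × ℕ => Q.act t.1 (v t.2)) ∘
          fun m => ([(-(a m), ([] : List D.Gen))], m + 1))).sum = - ∑ m ∈ Finset.range d, a m • v (m + 1) := by
        rw [KPPa_sum_range, ← Finset.sum_neg_distrib]
        refine Finset.sum_congr rfl (fun m _ => ?_)
        simp only [Function.comp, KPPa_act1, neg_smul]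
      rw [h1, ← sub_eq_add_neg, sub_eq_zero]
    · unfold QMod.Sys
      have h2 : ∀ g m, ((([((1 : k), [g])], m + 1) :: (List.range d).map fun m' =>
          ([(-(C g m m'), ([] : List D.Gen))], m' + 1)).map (fun t : ElCode D k × ℕ => Q.act t.1 (v t.2))).sum = 0 ↔
          Q.op g (v (m + 1)) = ∑ m' ∈ Finset.range d, C g m m' • v (m' + 1) := by
        intro g m
        rw [List.map_cons, List.sum_cons, List.map_map, KPPa_actg]
        have h1 : ((List.range d).map ((fun t : ElCode D k × ℕ => Q.act t.1 (v t.2)) ∘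
            fun m' => ([(-(C g m m'), ([] : List D.Gen))], m' + 1))).sum =
            - ∑ m' ∈ Finset.range d, C g m m' • v (m' + 1) := by
          rw [KPPa_sum_range, ← Finset.sum_neg_distrib]
          refine Finset.sum_congr rfl (fun m _ => ?_)
          simp only [Function.comp, KPPa_act1, neg_smul]
        rw [h1, ← sub_eq_add_neg, sub_eq_zero]
      constructor
      · intro h g m hm
        exact (h2 g m).1 (h _ (List.mem_flatMap.2 ⟨g, KPPa_mem_gens g,
          List.mem_map.2 ⟨m, List.mem_range.2 hm, rfl⟩⟩))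
      · intro h e he
        obtain ⟨g, -, he⟩ := List.mem_flatMap.1 he
        obtain ⟨m, hm, rfl⟩ := List.mem_map.1 he
        exact (h2 g m).2 (h g m (List.mem_range.1 hm))
  ext x
  simp only [QMod.pp, Set.mem_ofPred_eq, key]
  constructor
  · rintro ⟨v, h1, h2, h3⟩
    exact ⟨fun m => v (m + 1), h3, h1.symm.trans h2⟩
  · rintro ⟨z, h1, h2⟩
    exact ⟨fun n => Nat.casesOn n x z, rfl, h2, h1⟩

theorem pp_dn (Q : QMod D k N) (d : ℕ) (C : D.Gen → ℕ → ℕ → k) (b : ℕ → k) :
    Q.pp (dnPP d C b) = {x | ∃ y : D.Gen → ℕ → N, ∀ m < d,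
      ∑ g : D.Gen, (Q.op g (y g m) - ∑ m' ∈ Finset.range d, C g m m' • y g m') = b m • x} := by
  have key : ∀ v : ℕ → N, Q.Sys (dnPP d C b) v ↔ ∀ m < d,
      ∑ g : D.Gen, (Q.op g (v (yv g m)) - ∑ m' ∈ Finset.range d, C g m m' • v (yv g m')) = b m • v 0 := by
    intro v
    have h2 : ∀ m, ((([(-(b m), ([] : List D.Gen))], 0) :: (gens D).flatMap fun g =>
        (([((1 : k), [g])], yv g m) :: (List.range d).map fun m' =>
          ([(-(C g m m'), ([] : List D.Gen))], yv g m'))).map
            (fun t : ElCode D k × ℕ => Q.act t.1 (v t.2))).sum =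
        -(b m • v 0) + ∑ g : D.Gen, (Q.op g (v (yv g m)) - ∑ m' ∈ Finset.range d, C g m m' • v (yv g m')) := by
      intro m
      rw [List.map_cons, List.sum_cons, KPPa_act1, neg_smul, KPPa_sum_flatMap,
        ← KPPa_sum_gens]
      congr 3
      funext g
      rw [List.map_cons, List.sum_cons, List.map_map, KPPa_actg]
      have h1 : ((List.range d).map ((fun t : ElCode D k × ℕ => Q.act t.1 (v t.2)) ∘
          fun m' => ([(-(C g m m'), ([] : List D.Gen))], yv g m'))).sum =
          - ∑ m' ∈ Finset.range d, C g m m' • v (yv g m') := by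
        rw [KPPa_sum_range, ← Finset.sum_neg_distrib]
        refine Finset.sum_congr rfl (fun m _ => ?_)
        simp only [Function.comp, KPPa_act1, neg_smul]
      rw [h1, ← sub_eq_add_neg]
    have h3 : ∀ m, (((([(-(b m), ([] : List D.Gen))], 0) :: (gens D).flatMap fun g =>
        (([((1 : k), [g])], yv g m) :: (List.range d).map fun m' =>
          ([(-(C g m m'), ([] : List D.Gen))], yv g m'))).map
            (fun t : ElCode D k × ℕ => Q.act t.1 (v t.2))).sum = 0 ↔
        ∑ g : D.Gen, (Q.op g (v (yv g m)) - ∑ m' ∈ Finset.range d, C g m m' • v (yv g m')) = b m • v 0) := by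
      intro m
      rw [h2, neg_add_eq_zero, eq_comm]
    unfold QMod.Sys dnPP
    constructor
    · intro h m hm
      exact (h3 m).1 (h _ (List.mem_map.2 ⟨m, List.mem_range.2 hm, rfl⟩))
    · intro h e he
      obtain ⟨m, hm, rfl⟩ := List.mem_map.1 he
      exact (h3 m).2 (h m (List.mem_range.1 hm))
  ext x
  simp only [QMod.pp, Set.mem_ofPred_eq, key]
  constructor
  · rintro ⟨v, h1, h2⟩
    refine ⟨fun g m => v (yv g m), fun m hm => ?_⟩
    rw [h2 m hm, h1]
  · rintro ⟨y, h⟩
    refine ⟨fun n => Nat.casesOn n x (fun n => match (Encodable.decode (α := D.Gen) n.unpair.1) with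
      | some g => y g n.unpair.2
      | none => 0), rfl, fun m hm => ?_⟩
    have hv : ∀ (g : D.Gen) (m : ℕ), (Nat.casesOn (motive := fun _ => N) (yv g m) x
        (fun n => match (Encodable.decode (α := D.Gen) n.unpair.1) with
          | some g => y g n.unpair.2
          | none => 0)) = y g m := by
      intro g m
      unfold yv
      simp
    simp only [hv]
    exact h m hm

end StrAlg
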