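import Pool.Agent.Lib.MP_b9fd58_lc.Mods

/-!
# Finitely generated modules are finite-dimensional
-/

set_option autoImplicit false

namespace StrAlg

open Module

variable {D : Dat} {k : Type} [Field k]

/-- the ideal contains all long paths -/
def Dat.Adm (D : Dat) : Prop :=
  ∃ m : ℕ, ∀ l : List (Fin D.nE), D.IsPath l → m ≤ l.length → ∃ r ∈ D.rel, r <:+: l

theorem Dat.IsString.toAdm (h : D.IsString) : D.Adm := h.adm

private theorem KReA_op_aux (m : ℕ)
    (hm : ∀ l : List (Fin D.nE), D.IsPath l → m ≤ l.length → ∃ r ∈ D.rel, r <:+: l)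
    (l : List (Fin D.nE)) (hl : List.IsChain (fun a b => D.src a = D.tgt b) l) (hlen : m ≤ l.length) :
    ∃ r ∈ D.rel.map List.reverse, r <:+: l := by
  have h1 : D.IsPath l.reverse := by
    unfold Dat.IsPath
    rw [List.isChain_reverse]
    exact hl.imp fun a b h => h.symm
  obtain ⟨r, hr, hrl⟩ := hm l.reverse h1 (by rw [List.length_reverse]; exact hlen)
  refine ⟨r.reverse, List.mem_map.2 ⟨r, hr, rfl⟩, ?_⟩
  have h3 : r.reverse <:+: l.reverse.reverse := List.reverse_infix.2 hrl
  rwa [List.reverse_reverse] at h3

theorem Dat.Adm.op (h : D.Adm) : D.op.Adm := by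
  obtain ⟨m, hm⟩ := h
  exact ⟨m, fun l hl hlen => KReA_op_aux m hm l hl hlen⟩

section word
variable {N : Type} [AddCommGroup N] [Module k N]

theorem KReA_word_append (Q : QMod D k N) (u v : List D.Gen) (n : N) :
    Q.word (u ++ v) n = Q.word v (Q.word u n) := List.foldl_append

theorem KReA_word_zero (Q : QMod D k N) (u : List D.Gen) : Q.word u (0 : N) = 0 := by
  induction u with
  | nil => rfl
  | cons g u ih =>
    show Q.word u (Q.op g 0) = 0
    rw [map_zero, ih]

/-- a word that is not a path acts as zero -/
theorem KReA_not_path (Q : QMod D k N) (l : List (Fin D.nE)) (hl : ¬ D.IsPath l) (n : N) :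
    Q.word (l.map Sum.inr) n = 0 := by
  induction l generalizing n with
  | nil => exact absurd List.IsChain.nil hl
  | cons a l ih =>
    cases l with
    | nil => exact absurd (List.IsChain.singleton a) hl
    | cons b l =>
      by_cases h : D.tgt a = D.src b
      · have h2 : ¬ D.IsPath (b :: l) := fun h3 => hl (List.IsChain.cons_cons h h3)
        exact ih h2 _
      · show Q.word (l.map Sum.inr) (Q.op (Sum.inr b) (Q.op (Sum.inr a) n)) = 0
        have h3 : Q.op (Sum.inr b) (Q.op (Sum.inr a) n) = 0 := by
          rw [← Q.src b, ← Q.tgt a, Q.orth _ _ _ h, map_zero]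
        rw [h3, KReA_word_zero]

end word

/-- a word of arrows of length at least `m` acts as zero -/
theorem long_word_zero {m : ℕ} (hm : ∀ l : List (Fin D.nE), D.IsPath l → m ≤ l.length → ∃ r ∈ D.rel, r <:+: l)
    {N : Type} [AddCommGroup N] [Module k N] (Q : QMod D k N) (l : List (Fin D.nE)) (hl : m ≤ l.length) (n : N) :
    Q.word (l.map Sum.inr) n = 0 := by
  by_cases hp : D.IsPath l
  · obtain ⟨r, hr, s, t, hst⟩ := hm l hp hl
    rw [← hst, List.map_append, List.map_append, KReA_word_append, KReA_word_append]
    have h1 : Q.word (r.map Sum.inr) (Q.word (s.map Sum.inr) n) = 0 := by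
      have h2 := Q.rel r hr (Q.word (s.map Sum.inr) n)
      rw [← h2]
      unfold QMod.word
      rw [List.foldl_map]
    rw [h1, KReA_word_zero]
  · exact KReA_not_path Q l hp n

/-- the span of all words applied to one element is spanned by finitely many words: it is the span of `e_i n` and
`(e_i n) a_1 … a_r`, `r < m` -/
theorem fd_word_span (hD : D.Adm) {N : Type} [AddCommGroup N] [Module k N] (Q : QMod D k N) (n : N) :
    FiniteDimensional k (Submodule.span k {y : N | ∃ w : List D.Gen, y = Q.word w n}) := by
  obtain ⟨m, hm⟩ := hD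
  set F : Set N := (fun p : Fin D.nV × List (Fin D.nE) => Q.word (p.2.map Sum.inr) (Q.op (Sum.inl p.1) n)) ''
    (Set.univ ×ˢ {l : List (Fin D.nE) | l.length < m}) with hF
  have hfin : F.Finite := (Set.finite_univ.prod (List.finite_length_lt _ m)).image _
  have hmem : ∀ (i : Fin D.nV) (l : List (Fin D.nE)),
      Q.word (l.map Sum.inr) (Q.op (Sum.inl i) n) ∈ Submodule.span k F := by
    intro i l
    by_cases hl : l.length < m
    · exact Submodule.subset_span ⟨(i, l), ⟨Set.mem_univ _, hl⟩, rfl⟩
    · rw [long_word_zero hm Q l (not_lt.1 hl)]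
      exact Submodule.zero_mem _
  have hop : ∀ (g : D.Gen) (y : N), y ∈ Submodule.span k F → Q.op g y ∈ Submodule.span k F := by
    intro g y hy
    induction hy using Submodule.span_induction with
    | mem y hy =>
      obtain ⟨⟨i, l⟩, -, rfl⟩ := hy
      cases g with
      | inl j =>
        rcases List.eq_nil_or_concat l with rfl | ⟨l', a, rfl⟩
        · show Q.op (Sum.inl j) (Q.op (Sum.inl i) n) ∈ Submodule.span k F
          by_cases hij : i = j
          · subst hij
            rw [Q.idem]
            exact hmem i []
          · rw [Q.orth _ _ _ hij]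
            exact Submodule.zero_mem _
        · rw [List.concat_eq_append]
          show Q.op (Sum.inl j) (Q.word ((l' ++ [a]).map Sum.inr) (Q.op (Sum.inl i) n)) ∈
            Submodule.span k F
          have h1 : Q.word ((l' ++ [a]).map Sum.inr) (Q.op (Sum.inl i) n) =
              Q.op (Sum.inr a) (Q.word (l'.map Sum.inr) (Q.op (Sum.inl i) n)) := by
            rw [List.map_append, KReA_word_append]
            rfl
          by_cases hj : D.tgt a = j
          · have h2 := hmem i (l' ++ [a])
            rw [h1] at h2 ⊢
            rw [← hj, Q.tgt]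
            exact h2
          · rw [h1, ← Q.tgt a, Q.orth _ _ _ hj]
            exact Submodule.zero_mem _
      | inr a =>
        have h2 := hmem i (l ++ [a])
        rw [List.map_append, KReA_word_append] at h2
        exact h2
    | zero => rw [map_zero]; exact Submodule.zero_mem _
    | add x y _ _ hx hy => rw [map_add]; exact Submodule.add_mem _ hx hy
    | smul c x _ hx => rw [map_smul]; exact Submodule.smul_mem _ _ hx
  have hn : n ∈ Submodule.span k F := by
    rw [← Q.one n]
    exact Submodule.sum_mem _ fun i _ => hmem i []
  have hle : Submodule.span k {y : N | ∃ w : List D.Gen, y = Q.word w n} ≤ Submodule.span k F := by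
    rw [Submodule.span_le]
    rintro y ⟨w, rfl⟩
    have key : ∀ (w : List D.Gen) (y : N), y ∈ Submodule.span k F → Q.word w y ∈ Submodule.span k F := by
      intro w
      induction w with
      | nil => intro y hy; exact hy
      | cons g w ih => intro y hy; exact ih _ (hop g y hy)
    exact key w n hn
  have : FiniteDimensional k (Submodule.span k F) := FiniteDimensional.span_of_finite k hfin
  exact Submodule.finiteDimensional_of_le hle

/-- a module generated by finitely many elements is finite-dimensional -/
theorem fd_of_gen (hD : D.Adm) {N : Type} [AddCommGroup N] [Module k N] (Q : QMod D k N) (X : Finset N)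
    (h : Submodule.span k {y : N | ∃ x ∈ X, ∃ w : List D.Gen, y = Q.word w x} = ⊤) : FiniteDimensional k N := by
  have : ∀ x : N, FiniteDimensional k (Submodule.span k {y : N | ∃ w : List D.Gen, y = Q.word w x}) :=
    fun x => fd_word_span hD Q x
  have hle : (⊤ : Submodule k N) ≤
      X.sup fun x => Submodule.span k {y : N | ∃ w : List D.Gen, y = Q.word w x} := by
    rw [← h, Submodule.span_le]
    rintro y ⟨x, hx, w, rfl⟩
    exact (Finset.le_sup (f := fun x => Submodule.span k {y : N | ∃ w : List D.Gen, y = Q.word w x}) hx)
      (Submodule.subset_span ⟨w, rfl⟩)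
  have : FiniteDimensional k (⊤ : Submodule k N) := Submodule.finiteDimensional_of_le hle
  exact Module.Finite.equiv (Submodule.topEquiv (R := k) (M := N))

end StrAlg
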