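import Pool.Agent.Lib.MP_b9fd58_lc.KReA
import Pool.Agent.Lib.MP_b9fd58_lc.LModel

/-!
# Free realisations of pp-formulas
-/

set_option autoImplicit false

namespace StrAlg

open Module

variable {D : Dat} {k : Type} [Field k]

omit [Field k] in
theorem KReB_bound1 (e : List (ElCode D k × ℕ)) : ∃ M, ∀ t ∈ e, t.2 < M := by
  induction e with
  | nil => exact ⟨0, by simp⟩
  | cons t e ih =>
    obtain ⟨M, hM⟩ := ih
    refine ⟨max M (t.2 + 1), ?_⟩
    intro s hs
    rcases List.mem_cons.1 hs with rfl | hs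
    · exact lt_max_of_lt_right (Nat.lt_succ_self _)
    · exact (hM s hs).trans_le (le_max_left _ _)

theorem KReB_bound (φ : PP D k) : ∃ M, 0 < M ∧ ∀ e ∈ φ, ∀ t ∈ e, t.2 < M := by
  induction φ with
  | nil => exact ⟨1, Nat.one_pos, by simp⟩
  | cons e φ ih =>
    obtain ⟨M, hM0, hM⟩ := ih
    obtain ⟨M', hM'⟩ := KReB_bound1 e
    refine ⟨max M M', lt_max_of_lt_left hM0, ?_⟩
    intro s hs t ht
    rcases List.mem_cons.1 hs with rfl | hs
    · exact (hM' t ht).trans_le (le_max_right _ _)
    · exact (hM s hs t ht).trans_le (le_max_left _ _)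

/-- the term of one equation -/
def KReB_tm : List (ElCode D k × ℕ) → Tm D k
  | [] => .zero
  | t :: e => .add (.act t.1 (.var t.2)) (KReB_tm e)

theorem KReB_tm_valQ {N : Type} [AddCommGroup N] [Module k N] (Q : QMod D k N) (v : ℕ → N)
    (e : List (ElCode D k × ℕ)) :
    (KReB_tm e).valQ Q v = (e.map (fun t => Q.act t.1 (v t.2))).sum := by
  induction e with
  | nil => rfl
  | cons t e ih =>
    rw [List.map_cons, List.sum_cons, ← ih]
    rfl

/-- the equations: the system and the vanishing of the parameters `j ≥ M` -/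
def KReB_H (φ : PP D k) (M : ℕ) (i : Item D k) : Prop :=
  (∃ e ∈ φ, i = (true, .eq (KReB_tm e) .zero, List.range M)) ∨
  (∃ j, M ≤ j ∧ i = (true, .eq (.var 0) .zero, [j]))

theorem KReB_envp {M n : ℕ} (h : n < M) : envp (List.range M) n = n := by
  unfold envp
  rw [List.getD_eq_getElem _ _ (by simpa using h)]
  simp

theorem KReB_word {M N : Type} [AddCommGroup M] [Module k M] [AddCommGroup N] [Module k N]
    {P : QMod D k M} {Q : QMod D k N} {f : M →ₗ[k] N} (hf : IsHom P Q f) (w : List D.Gen) :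
    ∀ m : M, f (P.word w m) = Q.word w (f m) := by
  unfold QMod.word
  induction w with
  | nil => intro m; rfl
  | cons g w ih =>
    intro m
    rw [List.foldl_cons, List.foldl_cons, ih, hf g m]

theorem KReB_act {M N : Type} [AddCommGroup M] [Module k M] [AddCommGroup N] [Module k N]
    {P : QMod D k M} {Q : QMod D k N} {f : M →ₗ[k] N} (hf : IsHom P Q f) (c : ElCode D k) (m : M) :
    f (P.act c m) = Q.act c (f m) := by
  unfold QMod.act
  induction c with
  | nil => simp
  | cons t c ih =>
    rw [List.map_cons, List.map_cons, List.sum_cons, List.sum_cons, map_add, ih, map_smul,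
      KReB_word hf]

theorem KReB_sys {M N : Type} [AddCommGroup M] [Module k M] [AddCommGroup N] [Module k N]
    {P : QMod D k M} {Q : QMod D k N} {f : M →ₗ[k] N} (hf : IsHom P Q f)
    (e : List (ElCode D k × ℕ)) (v : ℕ → M) :
    f ((e.map (fun t => P.act t.1 (v t.2))).sum) = (e.map (fun t => Q.act t.1 (f (v t.2)))).sum := by
  induction e with
  | nil => simp
  | cons t e ih =>
    rw [List.map_cons, List.map_cons, List.sum_cons, List.sum_cons, map_add, ih, KReB_act hf]

theorem KReB_mk (H : Item D k → Prop) (w : List D.Gen) (p : ℕ) :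
    (consSpace H).mkQ (Finsupp.single (w, p) 1) = (HN.Q H).word w (HN.par H p) := by
  have h1 : (HN.Q H).word w (HN.par H p) =
      (consSpace H).mkQ (Finsupp.single ([] ++ w, p) 1) := by
    unfold QMod.word HN.par
    exact LModel_foldl_mk H w ([], p) 1
  rw [h1, List.nil_append]

/-- the parameters `j ≥ M` vanish -/
theorem KReB_par_zero (φ : PP D k) {M j : ℕ} (h : M ≤ j) : HN.par (KReB_H φ M) j = 0 := by
  have h1 := HN.true_eq (KReB_H φ M) [j] (.var 0) .zero (Or.inr ⟨j, h, rfl⟩)
  exact h1

theorem KReB_fd (hD : D.Adm) (φ : PP D k) (M : ℕ) : FiniteDimensional k (HN (KReB_H φ M)) := by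
  classical
  refine fd_of_gen hD (HN.Q (KReB_H φ M)) ((Finset.range M).image (HN.par (KReB_H φ M))) ?_
  rw [eq_top_iff]
  rintro x -
  obtain ⟨f, rfl⟩ := (consSpace (KReB_H φ M)).mkQ_surjective x
  induction f using Finsupp.induction_linear with
  | zero => simp
  | add f g hf hg =>
    rw [map_add]
    exact Submodule.add_mem _ hf hg
  | single y b =>
    obtain ⟨w, p⟩ := y
    have h1 : (Finsupp.single (w, p) b : PX D →₀ k) = b • Finsupp.single (w, p) 1 := by
      rw [Finsupp.smul_single, smul_eq_mul, mul_one]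
    rw [h1, map_smul, KReB_mk]
    apply Submodule.smul_mem
    by_cases hp : p < M
    · apply Submodule.subset_span
      exact ⟨HN.par (KReB_H φ M) p, Finset.mem_image_of_mem _ (Finset.mem_range.2 hp), w, rfl⟩
    · rw [KReB_par_zero φ (not_lt.1 hp), LModelA_word_zero]
      exact Submodule.zero_mem _

/-- the homomorphism given by a solution -/
theorem KReB_hom (φ : PP D k) {M : ℕ} (hM : ∀ e ∈ φ, ∀ t ∈ e, t.2 < M) {N : Type}
    [AddCommGroup N] [Module k N] (Q : QMod D k N) (v : ℕ → N) (hv : Q.Sys φ v)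
    (hv0 : ∀ j, M ≤ j → v j = 0) :
    ∃ f : HN (KReB_H φ M) →ₗ[k] N, IsHom (HN.Q (KReB_H φ M)) Q f ∧
      ∀ j, f (HN.par (KReB_H φ M) j) = v j := by
  have hle : consSpace (KReB_H φ M) ≤ LinearMap.ker (evL Q v) := by
    intro x hx
    obtain ⟨L, rfl⟩ := LModel_exists_val x
    rw [LinearMap.mem_ker, evL_val]
    refine cons_sound Q v (KReB_H φ M) ?_ L hx
    intro s t ρ h
    rcases h with ⟨e, he, h⟩ | ⟨j, hj, h⟩
    · simp only [Prod.mk.injEq, Fm.eq.injEq, true_and] at h
      obtain ⟨⟨rfl, rfl⟩, rfl⟩ := h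
      show (KReB_tm e).valQ Q _ = 0
      rw [KReB_tm_valQ]
      rw [← hv e he]
      congr 1
      apply List.map_congr_left
      intro t ht
      rw [KReB_envp (hM e he t ht)]
    · simp only [Prod.mk.injEq, Fm.eq.injEq, true_and] at h
      obtain ⟨⟨rfl, rfl⟩, rfl⟩ := h
      exact hv0 j hj
  refine ⟨(consSpace (KReB_H φ M)).liftQ (evL Q v) hle, ?_, ?_⟩
  · intro g m
    obtain ⟨f, rfl⟩ := (consSpace (KReB_H φ M)).mkQ_surjective m
    induction f using Finsupp.induction_linear with
    | zero => simp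
    | add f f' hf hf' => simp only [map_add, hf, hf']
    | single y b =>
      have h1 : (HN.Q (KReB_H φ M)).op g ((consSpace (KReB_H φ M)).mkQ (Finsupp.single y b)) =
        (consSpace (KReB_H φ M)).mkQ (Finsupp.single (y.1 ++ [g], y.2) b) :=
        LModel_op_mk (KReB_H φ M) g y b
      rw [h1, Submodule.mkQ_apply, Submodule.mkQ_apply, Submodule.liftQ_apply,
        Submodule.liftQ_apply]
      unfold evL
      rw [Finsupp.linearCombination_single, Finsupp.linearCombination_single, map_smul,
        QMod.word_append]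
      rfl
  · intro j
    unfold HN.par
    rw [Submodule.mkQ_apply, Submodule.liftQ_apply]
    unfold evL
    rw [Finsupp.linearCombination_single, one_smul]
    rfl

/-- every pp-formula has a finite-dimensional free realisation -/
theorem exists_free (hD : D.Adm) (φ : PP D k) : ∃ (A : Md D k) (a : A.C), FiniteDimensional k A.C ∧
    ∀ N : Md D k, N.Q.pp φ = {x | ∃ f : A.C →ₗ[k] N.C, A.Hom N f ∧ f a = x} := by
  obtain ⟨M, hM0, hM⟩ := KReB_bound φ
  refine ⟨⟨HN (KReB_H φ M), HN.Q (KReB_H φ M)⟩, HN.par (KReB_H φ M) 0, KReB_fd hD φ M, ?_⟩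
  intro N
  ext x
  constructor
  · rintro ⟨v, rfl, hv⟩
    obtain ⟨f, hf, hfv⟩ := KReB_hom φ hM N.Q (fun j => if j < M then v j else 0) (by
      intro e he
      rw [← hv e he]
      congr 1
      apply List.map_congr_left
      intro t ht
      simp only [hM e he t ht, if_true]) (by
      intro j hj
      simp only [not_lt.2 hj, if_false])
    refine ⟨f, hf, ?_⟩
    rw [hfv]
    simp only [hM0, if_true]
  · rintro ⟨f, hf, rfl⟩
    refine ⟨fun j => f (HN.par (KReB_H φ M) j), rfl, ?_⟩
    intro e he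
    have h1 := HN.true_eq (KReB_H φ M) (List.range M) (KReB_tm e) .zero (Or.inl ⟨e, he, rfl⟩)
    have h2 : (KReB_tm e).valQ (HN.Q (KReB_H φ M))
        (fun n => HN.par (KReB_H φ M) (envp (List.range M) n)) = 0 := h1
    rw [KReB_tm_valQ] at h2
    have h3 : (e.map (fun t => (HN.Q (KReB_H φ M)).act t.1
        (HN.par (KReB_H φ M) (envp (List.range M) t.2)))) =
        e.map (fun t => (HN.Q (KReB_H φ M)).act t.1 (HN.par (KReB_H φ M) t.2)) := by
      apply List.map_congr_left
      intro t ht
      rw [KReB_envp (hM e he t ht)]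
    rw [h3] at h2
    have h4 := KReB_sys hf e (HN.par (KReB_H φ M))
    rw [h2, map_zero] at h4
    exact h4.symm

end StrAlg
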