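import Pool.Agent.Lib.MP_b9fd58_lc.KCan
import Pool.Agent.Lib.MP_b9fd58_lc.KPr

/-!
# Stream K: every normal form over canonical strings is coded up to equivalence
-/

set_option autoImplicit false

namespace StrAlg

open Module

variable {D : Dat} {k : Type} [Field k] {S : Sides D}

theorem exists_elt_code (X : Blk S k) (hX : X.x ∈ CanS S) (a : X.M.C) : ∃ (t : EC D k) (h : bcOk S t.1)
    (e : bcBlk S t.1 h = X), e ▸ ecElt S t h = a := by
  obtain ⟨b, h, e⟩ := exists_blk_code X hX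
  subst e
  obtain ⟨L, hL⟩ := exists_ecElt h a
  exact ⟨(b, L), h, rfl, hL⟩

theorem exists_fnl_code (X : Blk S k) (hX : X.x ∈ CanS S) (f : Dual k X.M.C) : ∃ (t : EC D k) (h : bcOk S t.1)
    (e : bcBlk S t.1 h = X), e ▸ ecFnl S t h = f := by
  obtain ⟨b, h, e⟩ := exists_blk_code X hX
  subst e
  obtain ⟨L, hL⟩ := exists_ecFnl h f
  exact ⟨(b, L), h, rfl, hL⟩

/-- the values of the homs from one block at the given element -/
def KRep_up (N : Md D k) (X : Blk S k) (a : X.M.C) : Set N.C :=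
  {y | ∃ f : X.M.C →ₗ[k] N.C, X.M.Hom N f ∧ f a = y}

/-- the elements killed by all homs to one block followed by the given functional -/
def KRep_dn (N : Md D k) (Y : Blk S k) (b : Dual k Y.M.C) : Set N.C :=
  {x | ∀ G : N.C →ₗ[k] Y.M.C, N.Hom Y.M G → b (G x) = 0}

theorem KRep_up_congr (N : Md D k) {X X' : Blk S k} (e : X = X') {a : X.M.C} {a' : X'.M.C}
    (ha : e ▸ a = a') : KRep_up N X a = KRep_up N X' a' := by
  subst e
  subst ha
  rfl

theorem KRep_dn_congr (N : Md D k) {Y Y' : Blk S k} (e : Y = Y') {b : Dual k Y.M.C}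
    {b' : Dual k Y'.M.C} (hb : e ▸ b = b') : KRep_dn N Y b = KRep_dn N Y' b' := by
  subst e
  subst hb
  rfl

theorem KRep_up_code (N : Md D k) {t t' : EC D k} (e : t = t') (h : bcOk S t.1) (h' : bcOk S t'.1) :
    KRep_up N (bcBlk S t.1 h) (ecElt S t h) = KRep_up N (bcBlk S t'.1 h') (ecElt S t' h') := by
  subst e
  rfl

theorem KRep_sum {M : Type} [AddCommMonoid M] {m m' : ℕ} (σ : Fin m ≃ Fin m') {U : Fin m → Set M}
    {U' : Fin m' → Set M} (hU : ∀ i, U' (σ i) = U i) (x : M) :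
    (∃ y : Fin m → M, (∀ i, y i ∈ U i) ∧ x = ∑ i, y i) ↔
      ∃ y : Fin m' → M, (∀ j, y j ∈ U' j) ∧ x = ∑ j, y j := by
  constructor
  · rintro ⟨y, hy, hx⟩
    refine ⟨y ∘ σ.symm, fun j => ?_, ?_⟩
    · have h := hy (σ.symm j)
      rw [← hU, Equiv.apply_symm_apply] at h
      exact h
    · rw [hx]
      exact (Equiv.sum_comp σ.symm y).symm
  · rintro ⟨y, hy, hx⟩
    refine ⟨y ∘ σ, fun i => ?_, ?_⟩
    · rw [← hU]
      exact hy (σ i)
    · rw [hx]
      exact (Equiv.sum_comp σ y).symm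

theorem KRep_ncDec {c : NC D k} (h : ncOk S c) : ncDec S c =
    { m := c.1.length
      X := fun i => bcBlk S (c.1.get i).1 (h.1 _ (List.get_mem c.1 i))
      a := fun i => ecElt S (c.1.get i) (h.1 _ (List.get_mem c.1 i))
      m' := c.2.length
      Y := fun i => bcBlk S (c.2.get i).1 (h.2 _ (List.get_mem c.2 i))
      b := fun i => ecFnl S (c.2.get i) (h.2 _ (List.get_mem c.2 i)) } := by
  unfold ncDec
  rw [dif_pos h]

theorem exists_nf_code (nf : NF S k) (h : nf.InCan (CanS S)) :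
    ∃ c : NC D k, ncOk S c ∧ (ncDec S c).InCan (CanS S) ∧ nf.pr.Eqv (ncDec S c).pr := by
  choose tX hX eX haX using fun i => exists_elt_code (nf.X i) (h.1 i) (nf.a i)
  choose tY hY eY hbY using fun j => exists_fnl_code (nf.Y j) (h.2 j) (nf.b j)
  have hok : ncOk S (List.ofFn tX, List.ofFn tY) := by
    refine ⟨fun t ht => ?_, fun t ht => ?_⟩
    · obtain ⟨i, rfl⟩ := (List.mem_ofFn' tX t).1 ht
      exact hX i
    · obtain ⟨j, rfl⟩ := (List.mem_ofFn' tY t).1 ht
      exact hY j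
  refine ⟨(List.ofFn tX, List.ofFn tY), hok, ⟨?_, ?_⟩, fun N => ⟨?_, ?_⟩⟩
  · refine (ncDec_forall_X hok (fun X _ => X.x ∈ CanS S)).2 fun t ht => ?_
    obtain ⟨i, rfl⟩ := (List.mem_ofFn' tX t).1 ht
    rw [eX i]
    exact h.1 i
  · refine (ncDec_forall_Y hok (fun Y _ => Y.x ∈ CanS S)).2 fun t ht => ?_
    obtain ⟨j, rfl⟩ := (List.mem_ofFn' tY t).1 ht
    rw [eY j]
    exact h.2 j
  · rw [up_nf, up_nf, KRep_ncDec hok]
    ext x
    refine KRep_sum (U := fun i => KRep_up N (nf.X i) (nf.a i))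
      (U' := fun i => KRep_up N (bcBlk S ((List.ofFn tX).get i).1
        (hok.1 _ (List.get_mem (List.ofFn tX) i)))
        (ecElt S ((List.ofFn tX).get i) (hok.1 _ (List.get_mem (List.ofFn tX) i))))
      (finCongr (List.length_ofFn (f := tX)).symm) (fun i => ?_) x
    have e1 : (List.ofFn tX).get (finCongr (List.length_ofFn (f := tX)).symm i) = tX i := by
      simp
    exact (KRep_up_code N e1 _ (hX i)).trans (KRep_up_congr N (eX i) (haX i))
  · rw [dn_nf, dn_nf]
    ext x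
    have h1 := ncDec_forall_Y hok (fun Y b => x ∈ KRep_dn N Y b)
    refine Iff.trans ?_ h1.symm
    constructor
    · intro hx t ht
      obtain ⟨j, rfl⟩ := (List.mem_ofFn' tY t).1 ht
      have h2 := KRep_dn_congr N (eY j) (hbY j)
      have h3 : x ∈ KRep_dn N (nf.Y j) (nf.b j) := hx j
      rw [← h2] at h3
      exact h3
    · intro hx j
      have h2 := KRep_dn_congr N (eY j) (hbY j)
      have h3 := hx (tY j) ((List.mem_ofFn' tY _).2 ⟨j, rfl⟩)
      have h4 : x ∈ KRep_dn N (bcBlk S (tY j).1 (hY j)) (ecFnl S (tY j) (hY j)) := h3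
      rw [h2] at h4
      exact h4

end StrAlg
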