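import Pool.Agent.Lib.MP_b9fd58_lc.KPer

/-!
# Stream K: the string of a valid code
-/

set_option autoImplicit false

namespace StrAlg

variable {D : Dat} {k : Type} [Field k] {S : Sides D}

/-- vertex at `p`, a default value outside -/
def scDv (c : SC D) (h : scIn c 0) (p : ℤ) : Fin D.nV := ((scF c p).getD ((scF c 0).get h)).2.1

theorem KStr_in {c : SC D} {p : ℤ} (h : scIn c p) : ∃ a, scF c p = some a := Option.isSome_iff_exists.1 h

theorem KStr_lam {c : SC D} {p : ℤ} {a b : Rc D} (ha : scF c p = some a) (hb : scF c (p + 1) = some b) :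
    scLam c p = a.1 := by
  unfold scLam
  rw [ha, hb]

theorem KStr_r {c : SC D} {p : ℤ} {a : Rc D} (ha : scF c p = some a) : scR c p = a.2.2 := by
  unfold scR
  rw [ha]

theorem KStr_dv {c : SC D} (h : scIn c 0) {p : ℤ} {a : Rc D} (ha : scF c p = some a) : scDv c h p = a.2.1 := by
  unfold scDv
  rw [ha]
  rfl

/-- the letter is determined by the edge -/
theorem KStr_edge_ne {a b : Rc D} (h : scEdge S a b) : a.1 ≠ 1 := by
  rcases h with ⟨h, -⟩ | ⟨h, -⟩ <;> rw [h] <;> decide

/-- there are letters exactly between two positions -/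
theorem scLam_ne_one {c : SC D} (h : scOk S c) (p : ℤ) : scLam c p ≠ 1 ↔ scIn c p ∧ scIn c (p + 1) := by
  constructor
  · intro hne
    cases ha : scF c p with
    | none =>
      exfalso
      apply hne
      unfold scLam
      rw [ha]
    | some a =>
      cases hb : scF c (p + 1) with
      | none =>
        exfalso
        apply hne
        unfold scLam
        rw [ha, hb]
      | some b =>
        refine ⟨?_, ?_⟩
        · show (scF c p).isSome = true
          rw [ha]
          rfl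
        · show (scF c (p + 1)).isSome = true
          rw [hb]
          rfl
  · rintro ⟨h1, h2⟩
    obtain ⟨a, ha⟩ := KStr_in h1
    obtain ⟨b, hb⟩ := KStr_in h2
    rw [KStr_lam ha hb]
    exact KStr_edge_ne ((h.2 p).1 a b ha hb)

theorem scLt_ne_one {c : SC D} (h : scOk S c) (e : Bool) (p : ℤ) : scLt c e p ≠ 1 ↔ scIn c p ∧ scIn c (st e p) := by
  cases e with
  | true => exact scLam_ne_one h p
  | false =>
    show Fin.rev (scLam c (p - 1)) ≠ 1 ↔ scIn c p ∧ scIn c (p - 1)
    rw [Ln.rev_ne_one, scLam_ne_one h, sub_add_cancel, and_comm]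

/-- the data at an edge -/
theorem KStr_data {c : SC D} (h : scOk S c) (p : ℤ) (hp : scLam c p ≠ 1) :
    ∃ a b, scF c p = some a ∧ scF c (p + 1) = some b ∧ scEdge S a b := by
  obtain ⟨h1, h2⟩ := (scLam_ne_one h p).1 hp
  obtain ⟨a, ha⟩ := KStr_in h1
  obtain ⟨b, hb⟩ := KStr_in h2
  exact ⟨a, b, ha, hb, (h.2 p).1 a b ha hb⟩

theorem KStr_nx0 {i : Fin D.nV} {s : Bool} {α : Fin D.nE} (h : S.inA i s = some α) :
    S.nx i s 0 = (D.src α, S.sS α) := by
  unfold Sides.nx
  rw [if_pos rfl, h]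

theorem KStr_nx2 {i : Fin D.nV} {s : Bool} {α : Fin D.nE} (h : S.outA i s = some α) :
    S.nx i s 2 = (D.tgt α, S.sT α) := by
  unfold Sides.nx
  rw [if_neg (by decide), if_pos rfl, h]

theorem scLn_fwd {c : SC D} (h : scOk S c) (p : ℤ) (hp : scLam c p ≠ 1) :
    S.nx (scDv c h.1 p) (scR c p) (scLam c p) = (scDv c h.1 (p + 1), !scR c (p + 1)) := by
  obtain ⟨a, b, ha, hb, hab⟩ := KStr_data h p hp
  rw [KStr_dv h.1 ha, KStr_dv h.1 hb, KStr_r ha, KStr_r hb, KStr_lam ha hb]
  rcases hab with ⟨h2, α, h3, h4⟩ | ⟨h2, α, h3, h4⟩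
  · rw [h2, KStr_nx2 h3]
    obtain ⟨h5, h6⟩ := Sides.inA_some.1 h4
    rw [h5, h6]
  · rw [h2, KStr_nx0 h4]
    obtain ⟨h5, h6⟩ := Sides.outA_some.1 h3
    rw [h5, h6]

theorem scLn_bwd {c : SC D} (h : scOk S c) (p : ℤ) (hp : scLam c p ≠ 1) :
    S.nx (scDv c h.1 (p + 1)) (!scR c (p + 1)) (Fin.rev (scLam c p)) = (scDv c h.1 p, scR c p) := by
  obtain ⟨a, b, ha, hb, hab⟩ := KStr_data h p hp
  rw [KStr_dv h.1 ha, KStr_dv h.1 hb, KStr_r ha, KStr_r hb, KStr_lam ha hb]
  rcases hab with ⟨h2, α, h3, h4⟩ | ⟨h2, α, h3, h4⟩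
  · have e : Fin.rev a.1 = 0 := by rw [h2]; rfl
    rw [e, KStr_nx0 h4]
    obtain ⟨h5, h6⟩ := Sides.outA_some.1 h3
    rw [h5, h6]
  · have e : Fin.rev a.1 = 2 := by rw [h2]; rfl
    rw [e, KStr_nx2 h3]
    obtain ⟨h5, h6⟩ := Sides.inA_some.1 h4
    rw [h5, h6]

/-- the line of a valid code -/
def scLn (S : Sides D) (c : SC D) (h : scOk S c) : Ln (Fin D.nV) S.nx where
  lam := scLam c
  v := scDv c h.1
  r := scR c
  fwd := scLn_fwd h
  bwd := scLn_bwd h

@[simp] theorem scLn_lt {c : SC D} (h : scOk S c) (e : Bool) (p : ℤ) : (scLn S c h).lt e p = scLt c e p := rfl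
@[simp] theorem scLn_sd {c : SC D} (h : scOk S c) (e : Bool) (p : ℤ) : (scLn S c h).sd e p = scSd c e p := rfl
@[simp] theorem scLn_wdd {c : SC D} (h : scOk S c) (e : Bool) (p : ℤ) : (scLn S c h).wdd e p = scWdd c e p := rfl
@[simp] theorem scLn_r {c : SC D} (h : scOk S c) (p : ℤ) : (scLn S c h).r p = scR c p := rfl
@[simp] theorem scLn_lam {c : SC D} (h : scOk S c) (p : ℤ) : (scLn S c h).lam p = scLam c p := rfl

theorem scLn_v {c : SC D} (h : scOk S c) {p : ℤ} (hp : scIn c p) : scV c p = some ((scLn S c h).v p) := by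
  obtain ⟨a, ha⟩ := KStr_in hp
  show (scF c p).map (fun a => a.2.1) = some (scDv c h.1 p)
  rw [KStr_dv h.1 ha, ha]
  rfl

theorem KStr_rev_eq_two {x : Fin 3} : Fin.rev x = 2 ↔ x = 0 := by
  revert x
  decide

theorem scLn_ok {c : SC D} (h : scOk S c) : (scLn S c h).Ok S.ends := by
  intro e p hlt
  cases e with
  | true =>
    have h1 : scLam c p = 2 := hlt
    obtain ⟨a, b, ha, hb, hab⟩ := KStr_data h p (by rw [h1]; decide)
    rw [KStr_lam ha hb] at h1
    rcases hab with ⟨h2, α, h3, h4⟩ | ⟨h2, α, h3, h4⟩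
    · refine ⟨α, ?_, ?_⟩
      · show S.outA (scDv c h.1 p) (scR c p) = some α
        rw [KStr_dv h.1 ha, KStr_r ha]
        exact h3
      · show S.inA (scDv c h.1 (p + 1)) (!scR c (p + 1)) = some α
        rw [KStr_dv h.1 hb, KStr_r hb]
        exact h4
    · rw [h1] at h2
      exact absurd h2 (by decide)
  | false =>
    have h0 : Fin.rev (scLam c (p - 1)) = 2 := hlt
    have h1 : scLam c (p - 1) = 0 := KStr_rev_eq_two.1 h0
    obtain ⟨a, b, ha, hb, hab⟩ := KStr_data h (p - 1) (by rw [h1]; decide)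
    rw [KStr_lam ha hb] at h1
    rw [sub_add_cancel] at hb
    rcases hab with ⟨h2, α, h3, h4⟩ | ⟨h2, α, h3, h4⟩
    · rw [h1] at h2
      exact absurd h2 (by decide)
    · refine ⟨α, ?_, ?_⟩
      · show S.outA (scDv c h.1 p) (!scR c p) = some α
        rw [KStr_dv h.1 hb, KStr_r hb]
        exact h3
      · show S.inA (scDv c h.1 (p - 1)) (scR c (p - 1)) = some α
        rw [KStr_dv h.1 ha, KStr_r ha]
        exact h4

theorem KStr_bk {c : SC D} (h : scOk S c) (e : Bool) (l : List (Fin D.nE)) :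
    ∀ p, bk S.ends (scLn S c h) e l p → scBk S c e l p := by
  induction l with
  | nil => intro p _; trivial
  | cons a l ih =>
    rintro p ⟨h1, h2, h3⟩
    refine ⟨h1, ?_, ih _ h3⟩
    have h4 : scLt c e p ≠ 1 := by
      have h1' : scLt c e p = 0 := h1
      rw [h1']
      decide
    exact ⟨_, scLn_v h ((scLt_ne_one h e p).1 h4).1, h2⟩

theorem scLn_norel {c : SC D} (h : scOk S c) : (scLn S c h).NoRel S.ends := by
  intro r hr e p hbk
  exact (h.2 p).2 r hr e (KStr_bk h e _ p hbk)

theorem KStr_st_stn (e : Bool) (n : ℕ) (p : ℤ) : st e (stn e n p) = stn e ((n + 1 : ℕ) : ℤ) p := by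
  cases e <;> simp <;> ring

theorem KStr_between {c : SC D} (h0 : scIn c 0) (e : Bool) {p : ℤ} (hp : scIn c p) {m n : ℕ} (hmn : m ≤ n)
    (hn : scIn c (stn e n p)) : scIn c (stn e m p) := by
  have hmn' : (m : ℤ) ≤ n := by exact_mod_cast hmn
  cases e with
  | true =>
    rw [stn_true] at hn ⊢
    exact scIn_of_between h0 hp hn (by omega) (by omega)
  | false =>
    rw [stn_false] at hn ⊢
    exact scIn_of_between h0 hn hp (by omega) (by omega)

/-- END is absorbing from every position -/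
theorem scLn_abs {c : SC D} (h : scOk S c) {p : ℤ} (hp : scIn c p) : (scLn S c h).Abs p := by
  intro e n m hnm h1
  by_contra hne
  have h2 := (scLt_ne_one h e (stn e m p)).1 hne
  rw [KStr_st_stn] at h2
  have h3 := (scLt_ne_one h e (stn e n p)).2 (by
    rw [KStr_st_stn]
    exact ⟨KStr_between h.1 e hp (by omega) h2.2, KStr_between h.1 e hp (by omega) h2.2⟩)
  exact h3 h1

theorem KStr_stn_natAbs (p : ℤ) : ∃ e : Bool, p = stn e (p.natAbs : ℤ) 0 := by
  rcases le_total 0 p with h | h
  · refine ⟨true, ?_⟩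
    rw [stn_true]
    omega
  · refine ⟨false, ?_⟩
    rw [stn_false]
    omega

theorem scLn_reach {c : SC D} (h : scOk S c) (p : ℤ) : (scLn S c h).Reach 0 p ↔ scIn c p := by
  constructor
  · rintro ⟨e, n, h1, h2, -⟩
    cases n with
    | zero =>
      have h3 : p = 0 := by
        rw [h2]
        simp
      rw [h3]
      exact h.1
    | succ n =>
      have h3 : scLt c e (stn e n 0) ≠ 1 := (h1.lk n (by omega)).2
      have h4 := ((scLt_ne_one h e _).1 h3).2
      rw [KStr_st_stn] at h4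
      rw [h2]
      exact h4
  · intro hp
    obtain ⟨e, he⟩ := KStr_stn_natAbs p
    rw [he]
    apply Ln.Reach.of_lt
    intro j hj
    rw [scLn_lt, scLt_ne_one h, KStr_st_stn]
    rw [he] at hp
    exact ⟨KStr_between h.1 e h.1 (by omega) hp, KStr_between h.1 e h.1 (by omega) hp⟩

/-- the string of a valid code -/
def scStr (S : Sides D) (c : SC D) (h : scOk S c) : Str S where
  L := scLn S c h
  ok := scLn_ok h
  norel := scLn_norel h
  abs := scLn_abs h h.1
  clean p hp := by
    have := (scLam_ne_one h p).1 hp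
    exact ⟨(scLn_reach h p).2 this.1, (scLn_reach h (p + 1)).2 this.2⟩

@[simp] theorem scStr_L {c : SC D} (h : scOk S c) : (scStr S c h).L = scLn S c h := rfl

theorem scStr_Z {c : SC D} (h : scOk S c) (p : ℤ) : p ∈ (scStr S c h).Z ↔ scIn c p := scLn_reach h p

/-- words at positions are normalised -/
theorem scWdd_norm {c : SC D} (h : scOk S c) (e : Bool) {p : ℤ} (hp : scIn c p) : WNorm (scWdd c e p) := by
  intro n hn
  exact scLn_abs h hp e n (n + 1) (by omega) hn

/-- `Ord` and `Al` in terms of the codes -/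
theorem ordS_iff {x y : SC D} (hx : scOk S x) (hy : scOk S y) (o : Bool) (p q : ℤ) :
    Ord (scStr S x hx) (scStr S y hy) o p q ↔ ordS x y o p q := by
  unfold Ord ordS
  rw [scStr_Z, scStr_Z]
  constructor
  · rintro ⟨h1, h2, h3, h4, h5⟩
    refine ⟨h1, h2, ?_, h3.2, fun e => ⟨h4 e, h5 e⟩⟩
    rw [scLn_v hx h1, scLn_v hy h2]
    exact congrArg some h3.1
  · rintro ⟨h1, h2, h3, h4, h5⟩
    refine ⟨h1, h2, ⟨?_, h4⟩, fun e => (h5 e).1, fun e => (h5 e).2⟩
    rw [scLn_v hx h1, scLn_v hy h2] at h3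
    exact Option.some.inj h3

theorem alS_iff {x y : SC D} (hx : scOk S x) (hy : scOk S y) (p q : ℤ) :
    (p ∈ (scStr S x hx).Z ∧ q ∈ (scStr S y hy).Z ∧ Al (scStr S x hx) (scStr S y hy) p q) ↔ alS x y p q := by
  unfold Al alS
  rw [scStr_Z, scStr_Z]
  constructor
  · rintro ⟨h1, h2, h3, h4⟩
    refine ⟨h1, h2, ?_, h4⟩
    rw [scLn_v hx h1, scLn_v hy h2]
    exact congrArg some h3
  · rintro ⟨h1, h2, h3, h4⟩
    refine ⟨h1, h2, ?_, h4⟩
    rw [scLn_v hx h1, scLn_v hy h2] at h3
    exact Option.some.inj h3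

/-- a string whose data on its positions are those of the code -/
structure Matches (w : Str S) (c : SC D) : Prop where
  z : ∀ p, p ∈ w.Z ↔ scIn c p
  f : ∀ p a, scF c p = some a → w.L.v p = a.2.1 ∧ w.L.r p = a.2.2
  l : ∀ p, w.L.lam p = scLam c p

/-- between two positions there is a letter -/
theorem KStr_lam_ne (w : Str S) {p : ℤ} (h1 : p ∈ w.Z) (h2 : p + 1 ∈ w.Z) : w.L.lam p ≠ 1 := by
  rcases le_or_gt 0 p with hp | hp
  · obtain ⟨e, n, g1, g2, -⟩ := h2
    cases n with
    | zero =>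
      exfalso
      simp at g2
      omega
    | succ n =>
      cases e with
      | true =>
        have g3 : w.L.lt true (stn true n 0) ≠ 1 := (g1.lk n (by omega)).2
        rw [stn_true] at g2 g3
        have g4 : (0 : ℤ) + n = p := by push_cast at g2; omega
        rw [g4] at g3
        exact g3
      | false =>
        exfalso
        rw [stn_false] at g2
        push_cast at g2
        omega
  · obtain ⟨e, n, g1, g2, -⟩ := h1
    cases n with
    | zero =>
      exfalso
      simp at g2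
      omega
    | succ n =>
      cases e with
      | true =>
        exfalso
        rw [stn_true] at g2
        push_cast at g2
        omega
      | false =>
        have g3 : w.L.lt false (stn false n 0) ≠ 1 := (g1.lk n (by omega)).2
        have g3' : Fin.rev (w.L.lam (stn false n 0 - 1)) ≠ 1 := g3
        rw [stn_false] at g2 g3'
        have g4 : (0 : ℤ) - n - 1 = p := by push_cast at g2; omega
        rw [g4] at g3'
        exact Ln.rev_ne_one.1 g3'

theorem KStr_mem {c : SC D} {p : ℤ} {a : Rc D} (ha : scF c p = some a) : scIn c p := by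
  show (scF c p).isSome = true
  rw [ha]
  rfl

theorem Matches.KStr_lt {w : Str S} {c : SC D} (h : Matches w c) (e : Bool) (p : ℤ) : w.L.lt e p = scLt c e p := by
  unfold Ln.lt scLt
  rw [h.l, h.l]

theorem Matches.KStr_bk {w : Str S} {c : SC D} (h : Matches w c) (e : Bool) (l : List (Fin D.nE)) :
    ∀ p, scBk S c e l p → bk S.ends w.L e l p := by
  induction l with
  | nil => intro p _; trivial
  | cons a l ih =>
    rintro p ⟨h1, ⟨v, h2, h3⟩, h4⟩
    refine ⟨by rw [h.KStr_lt]; exact h1, ?_, ih _ h4⟩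
    cases hb : scF c p with
    | none =>
      exfalso
      unfold scV at h2
      rw [hb] at h2
      exact absurd h2 (by simp)
    | some b =>
      obtain ⟨g1, g2⟩ := h.f p b hb
      have g3 : v = b.2.1 := by
        unfold scV at h2
        rw [hb] at h2
        exact (Option.some.inj h2).symm
      have g4 : w.L.sd e p = scSd c e p := by
        unfold Ln.sd scSd
        rw [g2, KStr_r hb]
      rw [g1, g4, ← g3]
      exact h3

/-- a code that matches a string is valid -/
theorem Matches.scOk {w : Str S} {c : SC D} (h : Matches w c) : StrAlg.scOk S c := by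
  refine ⟨(h.z 0).1 Ln.Reach.refl, fun p => ⟨fun a b ha hb => ?_, fun r hr e hbk => ?_⟩⟩
  · have hp : p ∈ w.Z := (h.z p).2 (KStr_mem ha)
    have hp1 : p + 1 ∈ w.Z := (h.z (p + 1)).2 (KStr_mem hb)
    have hne := KStr_lam_ne w hp hp1
    obtain ⟨a1, a2⟩ := h.f p a ha
    obtain ⟨b1, b2⟩ := h.f (p + 1) b hb
    have hl : w.L.lam p = a.1 := by rw [h.l, KStr_lam ha hb]
    rw [hl] at hne
    have hcases : a.1 = 2 ∨ a.1 = 0 := by
      revert hne
      generalize a.1 = x
      revert x
      decide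
    rcases hcases with h2 | h2
    · left
      refine ⟨h2, ?_⟩
      obtain ⟨α, g1, g2⟩ := w.ok true p (by
        show w.L.lam p = 2
        rw [hl, h2])
      refine ⟨α, ?_, ?_⟩
      · have g3 : S.outA (w.L.v p) (w.L.r p) = some α := g1
        rw [a1, a2] at g3
        exact g3
      · have g3 : S.inA (w.L.v (p + 1)) (!w.L.r (p + 1)) = some α := g2
        rw [b1, b2] at g3
        exact g3
    · right
      refine ⟨h2, ?_⟩
      obtain ⟨α, g1, g2⟩ := w.ok false (p + 1) (by
        show Fin.rev (w.L.lam (p + 1 - 1)) = 2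
        rw [add_sub_cancel_right, hl, h2]
        rfl)
      refine ⟨α, ?_, ?_⟩
      · have g3 : S.outA (w.L.v (p + 1)) (!w.L.r (p + 1)) = some α := g1
        rw [b1, b2] at g3
        exact g3
      · have g3 : S.inA (w.L.v (p + 1 - 1)) (w.L.r (p + 1 - 1)) = some α := g2
        rw [add_sub_cancel_right, a1, a2] at g3
        exact g3
  · exact w.norel r hr e p (h.KStr_bk e _ p hbk)

theorem Matches.self {c : SC D} (h : StrAlg.scOk S c) : Matches (scStr S c h) c where
  z := scStr_Z h
  f := fun _ _ ha => ⟨KStr_dv h.1 ha, KStr_r ha⟩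
  l := fun _ => rfl

/-- two bi-infinite strings matched by codes with the same records are equal -/
theorem Matches.eq {w w' : Str S} {c c' : SC D} (h : Matches w c) (h' : Matches w' c')
    (hF : ∀ p, scF c p = scF c' p) (hZ : ∀ p, scIn c p) : w = w' := by
  have hlam : w.L.lam = w'.L.lam := by
    funext p
    rw [h.l, h'.l]
    unfold scLam
    rw [hF, hF]
  have hv : w.L.v = w'.L.v := by
    funext p
    obtain ⟨a, ha⟩ := KStr_in (hZ p)
    rw [(h.f p a ha).1, (h'.f p a (by rw [← hF]; exact ha)).1]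
  have hr : w.L.r = w'.L.r := by
    funext p
    obtain ⟨a, ha⟩ := KStr_in (hZ p)
    rw [(h.f p a ha).2, (h'.f p a (by rw [← hF]; exact ha)).2]
  obtain ⟨⟨lam, v, r, _, _⟩, _, _, _, _⟩ := w
  obtain ⟨⟨lam', v', r', _, _⟩, _, _, _, _⟩ := w'
  simp only at hlam hv hr
  subst hlam hv hr
  rfl

end StrAlg
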