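import Pool.Agent.Lib.MP_b9fd58_lc.LDefs
set_option autoImplicit false

/-!
# Modules over the algebra and `QMod`s
-/

namespace StrAlg

variable {D : Dat} {k : Type} [Field k]

section toMod
variable {N : Type} [AddCommGroup N] [Module k N]

/-- the representation of the free algebra given by a `QMod` -/
noncomputable def QMod.rep (Q : QMod D k N) : FreeAlgebra k D.Gen →ₐ[k] (Module.End k N)ᵐᵒᵖ :=
  FreeAlgebra.lift k (fun g => MulOpposite.op (Q.op g))

theorem LBridgeA_rep_gen (Q : QMod D k N) (g : D.Gen) (n : N) :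
    (Q.rep (FreeAlgebra.ι k g)).unop n = Q.op g n := by
  unfold QMod.rep
  rw [FreeAlgebra.lift_ι_apply, MulOpposite.unop_op]

theorem LBridgeA_rep_mul (Q : QMod D k N) (x y : FreeAlgebra k D.Gen) (n : N) :
    (Q.rep (x * y)).unop n = (Q.rep y).unop ((Q.rep x).unop n) := by
  rw [map_mul, MulOpposite.unop_mul, Module.End.mul_apply]

theorem QMod.rep_word (Q : QMod D k N) (w : List D.Gen) (n : N) :
    (Q.rep ((w.map (FreeAlgebra.ι k)).prod)).unop n = Q.word w n := by
  induction w generalizing n with
  | nil =>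
    rw [List.map_nil, List.prod_nil, map_one, MulOpposite.unop_one, Module.End.one_apply]
    rfl
  | cons g w ih =>
    rw [List.map_cons, List.prod_cons, LBridgeA_rep_mul, ih, LBridgeA_rep_gen]
    rfl

theorem QMod.rep_freeEval (Q : QMod D k N) (c : ElCode D k) (n : N) :
    (Q.rep (ElCode.freeEval D k c)).unop n = Q.act c n := by
  unfold ElCode.freeEval QMod.act
  induction c with
  | nil =>
    rw [List.map_nil, List.map_nil, List.sum_nil, List.sum_nil, map_zero, MulOpposite.unop_zero,
      LinearMap.zero_apply]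
  | cons t c ih =>
    rw [List.map_cons, List.map_cons, List.sum_cons, List.sum_cons, map_add, map_smul,
      MulOpposite.unop_add, MulOpposite.unop_smul, LinearMap.add_apply, LinearMap.smul_apply,
      QMod.rep_word, ih]

theorem QMod.rep_rel (Q : QMod D k N) {x y : FreeAlgebra k D.Gen} (h : D.Rel k x y) :
    Q.rep x = Q.rep y := by
  apply MulOpposite.unop_injective
  apply LinearMap.ext
  intro n
  cases h with
  | idem i =>
    unfold Dat.fe
    rw [LBridgeA_rep_mul, LBridgeA_rep_gen, LBridgeA_rep_gen]
    exact Q.idem i n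
  | orth i j h =>
    unfold Dat.fe
    rw [LBridgeA_rep_mul, LBridgeA_rep_gen, LBridgeA_rep_gen, map_zero, MulOpposite.unop_zero,
      LinearMap.zero_apply]
    exact Q.orth i j n h
  | one =>
    unfold Dat.fe
    rw [map_sum, map_one, MulOpposite.unop_one, Module.End.one_apply, Finset.unop_sum,
      LinearMap.sum_apply]
    refine Eq.trans (Finset.sum_congr rfl fun i _ => ?_) (Q.one n)
    exact LBridgeA_rep_gen Q _ n
  | src a =>
    unfold Dat.fe Dat.fx
    rw [LBridgeA_rep_mul]
    simp only [LBridgeA_rep_gen]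
    exact Q.src a n
  | tgt a =>
    unfold Dat.fe Dat.fx
    rw [LBridgeA_rep_mul]
    simp only [LBridgeA_rep_gen]
    exact Q.tgt a n
  | rel r h =>
    have h1 : (r.map (D.fx k)).prod = ((r.map Sum.inr).map (FreeAlgebra.ι k)).prod := by
      rw [List.map_map]
      rfl
    rw [h1, QMod.rep_word, map_zero, MulOpposite.unop_zero, LinearMap.zero_apply]
    unfold QMod.word
    rw [List.foldl_map]
    exact Q.rel r h n

/-- the representation of the algebra given by a `QMod` -/
noncomputable def QMod.repA (Q : QMod D k N) : Alg D k →ₐ[k] (Module.End k N)ᵐᵒᵖ :=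
  RingQuot.liftAlgHom k ⟨Q.rep, fun _ _ h => Q.rep_rel h⟩

theorem QMod.repA_eval (Q : QMod D k N) (c : ElCode D k) (n : N) :
    (Q.repA (ElCode.eval D k c)).unop n = Q.act c n := by
  unfold QMod.repA ElCode.eval
  rw [RingQuot.liftAlgHom_mkAlgHom_apply]
  exact QMod.rep_freeEval Q c n

/-- the module over the algebra given by a `QMod` -/
noncomputable def QMod.toModule (Q : QMod D k N) : Module (Alg D k)ᵐᵒᵖ N where
  smul a n := (Q.repA a.unop).unop n
  one_smul := by
    intro n
    change (Q.repA (1 : (Alg D k)ᵐᵒᵖ).unop).unop n = n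
    rw [MulOpposite.unop_one, map_one, MulOpposite.unop_one, Module.End.one_apply]
  mul_smul := by
    intro a b n
    change (Q.repA (a * b).unop).unop n = (Q.repA a.unop).unop ((Q.repA b.unop).unop n)
    rw [MulOpposite.unop_mul, map_mul, MulOpposite.unop_mul, Module.End.mul_apply]
  smul_zero := by
    intro a
    change (Q.repA a.unop).unop 0 = 0
    rw [map_zero]
  smul_add := by
    intro a m n
    change (Q.repA a.unop).unop (m + n) = (Q.repA a.unop).unop m + (Q.repA a.unop).unop n
    rw [map_add]
  add_smul := by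
    intro a b n
    change (Q.repA (a + b).unop).unop n = (Q.repA a.unop).unop n + (Q.repA b.unop).unop n
    rw [MulOpposite.unop_add, map_add, MulOpposite.unop_add, LinearMap.add_apply]
  zero_smul := by
    intro n
    change (Q.repA (0 : (Alg D k)ᵐᵒᵖ).unop).unop n = 0
    rw [MulOpposite.unop_zero, map_zero, MulOpposite.unop_zero, LinearMap.zero_apply]

theorem QMod.val_toModule (Q : QMod D k N) (v : ℕ → N) (t : Tm D k) :
    (letI := Q.toModule; t.val N v) = t.valQ Q v := by
  letI := Q.toModule
  change t.val N v = t.valQ Q v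
  induction t with
  | var n => rfl
  | zero => rfl
  | add s t ihs iht =>
    change s.val N v + t.val N v = s.valQ Q v + t.valQ Q v
    rw [ihs, iht]
  | act c t ih =>
    change (Q.repA (MulOpposite.op (ElCode.eval D k c)).unop).unop (t.val N v) =
      Q.act c (t.valQ Q v)
    rw [ih, MulOpposite.unop_op, QMod.repA_eval]

theorem QMod.sat_toModule (Q : QMod D k N) (φ : Fm D k) : ∀ v : ℕ → N,
    (letI := Q.toModule; φ.Sat N v) ↔ φ.SatQ Q v := by
  letI := Q.toModule
  change ∀ v : ℕ → N, φ.Sat N v ↔ φ.SatQ Q v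
  induction φ with
  | eq s t =>
    intro v
    have h1 : s.val N v = s.valQ Q v := QMod.val_toModule Q v s
    have h2 : t.val N v = t.valQ Q v := QMod.val_toModule Q v t
    change s.val N v = t.val N v ↔ s.valQ Q v = t.valQ Q v
    rw [h1, h2]
  | fls => exact fun _ => Iff.rfl
  | imp φ ψ ih1 ih2 =>
    intro v
    change (φ.Sat N v → ψ.Sat N v) ↔ (φ.SatQ Q v → ψ.SatQ Q v)
    rw [ih1 v, ih2 v]
  | all φ ih =>
    intro v
    change (∀ x : N, φ.Sat N (fun n => Nat.casesOn n x v)) ↔ ∀ x : N, φ.SatQ Q (consV x v)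
    exact forall_congr' fun x => ih _

end toMod

end StrAlg
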