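import Pool.Agent.Lib.MP_b9fd58_lc.LCodeA
set_option autoImplicit false

/-!
# Computable recursion on terms and formulas; bounds of variables; from r.e. predicates to a decision function
-/

namespace StrAlg

open ReCalc

variable {D : Dat} {k : Type} [Field k] [Primcodable k]

/-- the rules generating the graph of a structural recursion on terms -/
def LCode_Rule {α σ : Type*} (fv : α → ℕ → σ) (fz : α → σ) (fa : α → σ → σ → σ)
    (fc : α → ElCode D k → σ → σ) (a : α) (ps : List (Tm D k × σ)) (x : Tm D k × σ) : Prop :=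
  (∃ n : ℕ, ps = [] ∧ x = (Tm.var n, fv a n)) ∨
  (ps = [] ∧ x = (Tm.zero, fz a)) ∨
  (∃ q : (Tm D k × Tm D k) × σ × σ, ps = [(q.1.1, q.2.1), (q.1.2, q.2.2)] ∧
    x = (Tm.add q.1.1 q.1.2, fa a q.2.1 q.2.2)) ∨
  (∃ q : (ElCode D k × Tm D k) × σ, ps = [(q.1.2, q.2)] ∧
    x = (Tm.act q.1.1 q.1.2, fc a q.1.1 q.2))

/-- Structural recursion on terms with computable steps is computable. -/
theorem tmRecC {α σ : Type*} [Primcodable α] [Primcodable σ]
    (fv : α → ℕ → σ) (fz : α → σ) (fa : α → σ → σ → σ) (fc : α → ElCode D k → σ → σ)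
    (hv : Computable fun p : α × ℕ => fv p.1 p.2) (hz : Computable fz)
    (ha : Computable fun p : α × σ × σ => fa p.1 p.2.1 p.2.2)
    (hc : Computable fun p : α × ElCode D k × σ => fc p.1 p.2.1 p.2.2)
    (F : α → Tm D k → σ) (Fv : ∀ a n, F a (.var n) = fv a n) (Fz : ∀ a, F a .zero = fz a)
    (Fa : ∀ a s t, F a (.add s t) = fa a (F a s) (F a t))
    (Fc : ∀ a c t, F a (.act c t) = fc a c (F a t)) :
    Computable fun p : α × Tm D k => F p.1 p.2 := by
  have hR : REPred fun p : α × List (Tm D k × σ) × (Tm D k × σ) =>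
      LCode_Rule fv fz fa fc p.1 p.2.1 p.2.2 := by
    refine re_or ?_ (re_or ?_ (re_or ?_ ?_))
    · refine re_ex (q := fun (p : α × List (Tm D k × σ) × (Tm D k × σ)) (n : ℕ) =>
        p.2.1 = [] ∧ p.2.2 = (Tm.var n, fv p.1 n)) ?_
      refine re_and (re_eq (Computable.fst.comp (Computable.snd.comp Computable.fst))
        (Computable.const _)) ?_
      refine re_eq (Computable.snd.comp (Computable.snd.comp Computable.fst)) ?_
      exact Computable.pair (primrec_var.to_comp.comp Computable.snd)
        (hv.comp (Computable.pair (Computable.fst.comp Computable.fst) Computable.snd))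
    · refine re_and (re_eq (Computable.fst.comp Computable.snd) (Computable.const _)) ?_
      refine re_eq (Computable.snd.comp Computable.snd) ?_
      exact Computable.pair (Computable.const _) (hz.comp Computable.fst)
    · refine re_ex (q := fun (p : α × List (Tm D k × σ) × (Tm D k × σ))
        (q : (Tm D k × Tm D k) × σ × σ) =>
        p.2.1 = [(q.1.1, q.2.1), (q.1.2, q.2.2)] ∧
          p.2.2 = (Tm.add q.1.1 q.1.2, fa p.1 q.2.1 q.2.2)) ?_
      have q11 : Computable fun p : (α × List (Tm D k × σ) × (Tm D k × σ)) ×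
          ((Tm D k × Tm D k) × σ × σ) => p.2.1.1 :=
        Computable.fst.comp (Computable.fst.comp Computable.snd)
      have q12 : Computable fun p : (α × List (Tm D k × σ) × (Tm D k × σ)) ×
          ((Tm D k × Tm D k) × σ × σ) => p.2.1.2 :=
        Computable.snd.comp (Computable.fst.comp Computable.snd)
      have q21 : Computable fun p : (α × List (Tm D k × σ) × (Tm D k × σ)) ×
          ((Tm D k × Tm D k) × σ × σ) => p.2.2.1 :=
        Computable.fst.comp (Computable.snd.comp Computable.snd)
      have q22 : Computable fun p : (α × List (Tm D k × σ) × (Tm D k × σ)) ×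
          ((Tm D k × Tm D k) × σ × σ) => p.2.2.2 :=
        Computable.snd.comp (Computable.snd.comp Computable.snd)
      refine re_and (re_eq (Computable.fst.comp (Computable.snd.comp Computable.fst)) ?_) ?_
      · exact Computable.list_cons.comp (Computable.pair q11 q21)
          (Computable.list_cons.comp (Computable.pair q12 q22) (Computable.const _))
      · refine re_eq (Computable.snd.comp (Computable.snd.comp Computable.fst)) ?_
        exact Computable.pair (primrec_add.to_comp.comp q11 q12)
          (ha.comp (Computable.pair (Computable.fst.comp Computable.fst)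
            (Computable.pair q21 q22)))
    · refine re_ex (q := fun (p : α × List (Tm D k × σ) × (Tm D k × σ))
        (q : (ElCode D k × Tm D k) × σ) =>
        p.2.1 = [(q.1.2, q.2)] ∧ p.2.2 = (Tm.act q.1.1 q.1.2, fc p.1 q.1.1 q.2)) ?_
      have q11 : Computable fun p : (α × List (Tm D k × σ) × (Tm D k × σ)) ×
          ((ElCode D k × Tm D k) × σ) => p.2.1.1 :=
        Computable.fst.comp (Computable.fst.comp Computable.snd)
      have q12 : Computable fun p : (α × List (Tm D k × σ) × (Tm D k × σ)) ×
          ((ElCode D k × Tm D k) × σ) => p.2.1.2 :=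
        Computable.snd.comp (Computable.fst.comp Computable.snd)
      have q2 : Computable fun p : (α × List (Tm D k × σ) × (Tm D k × σ)) ×
          ((ElCode D k × Tm D k) × σ) => p.2.2 :=
        Computable.snd.comp Computable.snd
      refine re_and (re_eq (Computable.fst.comp (Computable.snd.comp Computable.fst)) ?_) ?_
      · exact Computable.list_cons.comp (Computable.pair q12 q2) (Computable.const _)
      · refine re_eq (Computable.snd.comp (Computable.snd.comp Computable.fst)) ?_
        exact Computable.pair (primrec_act.to_comp.comp q11 q12)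
          (hc.comp (Computable.pair (Computable.fst.comp Computable.fst)
            (Computable.pair q11 q2)))
  have hD := re_der (LCode_Rule fv fz fa fc) hR
  apply computable_of_re_graph
  refine (re_comp (p := fun p : α × (Tm D k × σ) => Der (LCode_Rule fv fz fa fc p.1) p.2) hD
    (f := fun p : (α × Tm D k) × σ => (p.1.1, (p.1.2, p.2)))
    (Computable.pair (Computable.fst.comp Computable.fst)
      (Computable.pair (Computable.snd.comp Computable.fst) Computable.snd))).of_eq ?_
  rintro ⟨⟨a, t⟩, u⟩
  show Der (LCode_Rule fv fz fa fc a) (t, u) ↔ F a t = u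
  constructor
  · intro h
    have key : ∀ x : Tm D k × σ, Der (LCode_Rule fv fz fa fc a) x → F a x.1 = x.2 := by
      intro x hx
      induction hx with
      | mk ps x h hp ih =>
        rcases h with ⟨n, _, rfl⟩ | ⟨_, rfl⟩ | ⟨q, rfl, rfl⟩ | ⟨q, rfl, rfl⟩
        · exact Fv a n
        · exact Fz a
        · have h1 : F a q.1.1 = q.2.1 := ih (q.1.1, q.2.1) (by simp)
          have h2 : F a q.1.2 = q.2.2 := ih (q.1.2, q.2.2) (by simp)
          show F a (Tm.add q.1.1 q.1.2) = fa a q.2.1 q.2.2
          rw [Fa, h1, h2]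
        · have h1 : F a q.1.2 = q.2 := ih (q.1.2, q.2) (by simp)
          show F a (Tm.act q.1.1 q.1.2) = fc a q.1.1 q.2
          rw [Fc, h1]
    exact key _ h
  · rintro rfl
    induction t with
    | var n =>
      rw [Fv]
      exact Der.mk [] _ (Or.inl ⟨n, rfl, rfl⟩) (by simp)
    | zero =>
      rw [Fz]
      exact Der.mk [] _ (Or.inr (Or.inl ⟨rfl, rfl⟩)) (by simp)
    | add s t ihs iht =>
      rw [Fa]
      refine Der.mk [(s, F a s), (t, F a t)] _
        (Or.inr (Or.inr (Or.inl ⟨((s, t), (F a s, F a t)), rfl, rfl⟩))) ?_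
      intro p hp
      rcases List.mem_cons.1 hp with rfl | hp
      · exact ihs
      · rcases List.mem_cons.1 hp with rfl | hp
        · exact iht
        · simp at hp
    | act c t iht =>
      rw [Fc]
      refine Der.mk [(t, F a t)] _
        (Or.inr (Or.inr (Or.inr ⟨((c, t), F a t), rfl, rfl⟩))) ?_
      intro p hp
      rcases List.mem_cons.1 hp with rfl | hp
      · exact iht
      · simp at hp

/-- upper bound of the variables of a term -/
def Tm.ub : Tm D k → ℕ
  | .var n => n + 1
  | .zero => 0
  | .add s t => max s.ub t.ub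
  | .act _ t => t.ub

/-- upper bound of the free variables of a formula -/
def Fm.ub : Fm D k → ℕ
  | .eq s t => max s.ub t.ub
  | .fls => 0
  | .imp φ ψ => max φ.ub ψ.ub
  | .all φ => φ.ub - 1

omit [Primcodable k] in
theorem Tm.below_iff (t : Tm D k) (n : ℕ) : t.Below n ↔ t.ub ≤ n := by
  induction t with
  | var m => exact Iff.rfl
  | zero => exact ⟨fun _ => Nat.zero_le _, fun _ => trivial⟩
  | add s t ihs iht =>
    show s.Below n ∧ t.Below n ↔ max s.ub t.ub ≤ n
    rw [ihs, iht, max_le_iff]
  | act c t iht => exact iht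

omit [Primcodable k] in
theorem Fm.below_iff (φ : Fm D k) (n : ℕ) : φ.Below n ↔ φ.ub ≤ n := by
  induction φ generalizing n with
  | eq s t =>
    show s.Below n ∧ t.Below n ↔ max s.ub t.ub ≤ n
    rw [Tm.below_iff, Tm.below_iff, max_le_iff]
  | fls => exact ⟨fun _ => Nat.zero_le _, fun _ => trivial⟩
  | imp φ ψ ih1 ih2 =>
    show φ.Below n ∧ ψ.Below n ↔ max φ.ub ψ.ub ≤ n
    rw [ih1, ih2, max_le_iff]
  | all φ ih =>
    show φ.Below (n + 1) ↔ φ.ub - 1 ≤ n
    rw [ih]
    omega

theorem computable_tmUb : Computable (Tm.ub : Tm D k → ℕ) := by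
  have h := tmRecC (D := D) (k := k) (α := Unit) (σ := ℕ) (fun _ n => n + 1) (fun _ => 0)
    (fun _ u v => max u v) (fun _ _ u => u)
    (Computable.succ.comp Computable.snd) (Computable.const _)
    (Primrec.nat_max.to_comp.comp (Computable.fst.comp Computable.snd)
      (Computable.snd.comp Computable.snd))
    (Computable.snd.comp Computable.snd)
    (fun _ t => t.ub) (fun _ _ => rfl) (fun _ => rfl) (fun _ _ _ => rfl) (fun _ _ _ => rfl)
  exact h.comp (Computable.pair (Computable.const ()) Computable.id)

/-- the rules generating the graph of `Fm.ub` -/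
def LCode_FRule (ps : List (Fm D k × ℕ)) (x : Fm D k × ℕ) : Prop :=
  (∃ q : Tm D k × Tm D k, ps = [] ∧ x = (Fm.eq q.1 q.2, max q.1.ub q.2.ub)) ∨
  (ps = [] ∧ x = (Fm.fls, 0)) ∨
  (∃ q : (Fm D k × Fm D k) × ℕ × ℕ, ps = [(q.1.1, q.2.1), (q.1.2, q.2.2)] ∧
    x = (Fm.imp q.1.1 q.1.2, max q.2.1 q.2.2)) ∨
  (∃ q : Fm D k × ℕ, ps = [(q.1, q.2)] ∧ x = (Fm.all q.1, q.2 - 1))

theorem computable_fmUb : Computable (Fm.ub : Fm D k → ℕ) := by
  have hR : REPred fun p : List (Fm D k × ℕ) × (Fm D k × ℕ) => LCode_FRule p.1 p.2 := by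
    refine re_or ?_ (re_or ?_ (re_or ?_ ?_))
    · refine re_ex (q := fun (p : List (Fm D k × ℕ) × (Fm D k × ℕ)) (q : Tm D k × Tm D k) =>
        p.1 = [] ∧ p.2 = (Fm.eq q.1 q.2, max q.1.ub q.2.ub)) ?_
      refine re_and (re_eq (Computable.fst.comp Computable.fst) (Computable.const _)) ?_
      refine re_eq (Computable.snd.comp Computable.fst) ?_
      exact Computable.pair (primrec_eqF.to_comp.comp (Computable.fst.comp Computable.snd)
        (Computable.snd.comp Computable.snd))
        (Primrec.nat_max.to_comp.comp (computable_tmUb.comp (Computable.fst.comp Computable.snd))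
          (computable_tmUb.comp (Computable.snd.comp Computable.snd)))
    · exact re_and (re_eq Computable.fst (Computable.const _))
        (re_eq Computable.snd (Computable.const _))
    · refine re_ex (q := fun (p : List (Fm D k × ℕ) × (Fm D k × ℕ))
        (q : (Fm D k × Fm D k) × ℕ × ℕ) =>
        p.1 = [(q.1.1, q.2.1), (q.1.2, q.2.2)] ∧
          p.2 = (Fm.imp q.1.1 q.1.2, max q.2.1 q.2.2)) ?_
      have q11 : Computable fun p : (List (Fm D k × ℕ) × (Fm D k × ℕ)) ×
          ((Fm D k × Fm D k) × ℕ × ℕ) => p.2.1.1 :=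
        Computable.fst.comp (Computable.fst.comp Computable.snd)
      have q12 : Computable fun p : (List (Fm D k × ℕ) × (Fm D k × ℕ)) ×
          ((Fm D k × Fm D k) × ℕ × ℕ) => p.2.1.2 :=
        Computable.snd.comp (Computable.fst.comp Computable.snd)
      have q21 : Computable fun p : (List (Fm D k × ℕ) × (Fm D k × ℕ)) ×
          ((Fm D k × Fm D k) × ℕ × ℕ) => p.2.2.1 :=
        Computable.fst.comp (Computable.snd.comp Computable.snd)
      have q22 : Computable fun p : (List (Fm D k × ℕ) × (Fm D k × ℕ)) ×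
          ((Fm D k × Fm D k) × ℕ × ℕ) => p.2.2.2 :=
        Computable.snd.comp (Computable.snd.comp Computable.snd)
      refine re_and (re_eq (Computable.fst.comp Computable.fst) ?_) ?_
      · exact Computable.list_cons.comp (Computable.pair q11 q21)
          (Computable.list_cons.comp (Computable.pair q12 q22) (Computable.const _))
      · refine re_eq (Computable.snd.comp Computable.fst) ?_
        exact Computable.pair (primrec_imp.to_comp.comp q11 q12)
          (Primrec.nat_max.to_comp.comp q21 q22)
    · refine re_ex (q := fun (p : List (Fm D k × ℕ) × (Fm D k × ℕ)) (q : Fm D k × ℕ) =>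
        p.1 = [(q.1, q.2)] ∧ p.2 = (Fm.all q.1, q.2 - 1)) ?_
      have q1 : Computable fun p : (List (Fm D k × ℕ) × (Fm D k × ℕ)) × (Fm D k × ℕ) => p.2.1 :=
        Computable.fst.comp Computable.snd
      have q2 : Computable fun p : (List (Fm D k × ℕ) × (Fm D k × ℕ)) × (Fm D k × ℕ) => p.2.2 :=
        Computable.snd.comp Computable.snd
      refine re_and (re_eq (Computable.fst.comp Computable.fst) ?_) ?_
      · exact Computable.list_cons.comp (Computable.pair q1 q2) (Computable.const _)
      · refine re_eq (Computable.snd.comp Computable.fst) ?_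
        exact Computable.pair (primrec_all.to_comp.comp q1)
          (Primrec.nat_sub.to_comp.comp q2 (Computable.const 1))
  have hD := re_der' (LCode_FRule (D := D) (k := k)) hR
  apply computable_of_re_graph
  refine hD.of_eq ?_
  rintro ⟨φ, u⟩
  show Der LCode_FRule (φ, u) ↔ φ.ub = u
  constructor
  · intro h
    have key : ∀ x : Fm D k × ℕ, Der LCode_FRule x → x.1.ub = x.2 := by
      intro x hx
      induction hx with
      | mk ps x h hp ih =>
        rcases h with ⟨q, _, rfl⟩ | ⟨_, rfl⟩ | ⟨q, rfl, rfl⟩ | ⟨q, rfl, rfl⟩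
        · rfl
        · rfl
        · have h1 : q.1.1.ub = q.2.1 := ih (q.1.1, q.2.1) (by simp)
          have h2 : q.1.2.ub = q.2.2 := ih (q.1.2, q.2.2) (by simp)
          show max q.1.1.ub q.1.2.ub = max q.2.1 q.2.2
          rw [h1, h2]
        · have h1 : q.1.ub = q.2 := ih (q.1, q.2) (by simp)
          show q.1.ub - 1 = q.2 - 1
          rw [h1]
    exact key _ h
  · rintro rfl
    induction φ with
    | eq s t => exact Der.mk [] _ (Or.inl ⟨(s, t), rfl, rfl⟩) (by simp)
    | fls => exact Der.mk [] _ (Or.inr (Or.inl ⟨rfl, rfl⟩)) (by simp)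
    | imp φ ψ ih1 ih2 =>
      refine Der.mk [(φ, φ.ub), (ψ, ψ.ub)] _
        (Or.inr (Or.inr (Or.inl ⟨((φ, ψ), (φ.ub, ψ.ub)), rfl, rfl⟩))) ?_
      intro p hp
      rcases List.mem_cons.1 hp with rfl | hp
      · exact ih1
      · rcases List.mem_cons.1 hp with rfl | hp
        · exact ih2
        · simp at hp
    | all φ ih =>
      refine Der.mk [(φ, φ.ub)] _ (Or.inr (Or.inr (Or.inr ⟨(φ, φ.ub), rfl, rfl⟩))) ?_
      intro p hp
      rcases List.mem_cons.1 hp with rfl | hp
      · exact ih
      · simp at hp

theorem re_tmBelow : REPred fun p : Tm D k × ℕ => p.1.Below p.2 := by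
  refine (re_le (computable_tmUb.comp Computable.fst) Computable.snd).of_eq ?_
  rintro ⟨t, n⟩
  exact (Tm.below_iff t n).symm

theorem re_isSentence : REPred fun φ : Fm D k => φ.IsSentence := by
  refine (re_le computable_fmUb (Computable.const 0)).of_eq ?_
  intro φ
  exact (Fm.below_iff φ 0).symm

theorem re_not_isSentence : REPred fun φ : Fm D k => ¬ φ.IsSentence := by
  refine (re_lt (Computable.const 0) computable_fmUb).of_eq ?_
  intro φ
  rw [Fm.IsSentence, Fm.below_iff φ 0]
  omega

/-- from r.e. predicates on formulas to a computable function on codes -/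
theorem exists_decider (V : Fm D k → Prop) (h1 : REPred fun φ : Fm D k => φ.IsSentence ∧ V φ)
    (h2 : REPred fun φ : Fm D k => φ.IsSentence ∧ ¬ V φ) :
    ∃ f : List (Sym D k) → Bool, Computable f ∧
      ∀ φ : Fm D k, φ.IsSentence → (f φ.code = true ↔ V φ) := by
  have hp1 : REPred fun c : List (Sym D k) => ∃ φ : Fm D k, φ.code = c ∧ φ.IsSentence ∧ V φ := by
    refine re_ex (q := fun c (φ : Fm D k) => φ.code = c ∧ φ.IsSentence ∧ V φ) ?_
    exact re_and (re_eq (primrec_fmCode.to_comp.comp Computable.snd) Computable.fst)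
      (re_comp (p := fun φ : Fm D k => φ.IsSentence ∧ V φ) h1 Computable.snd)
  have hp2 : REPred fun c : List (Sym D k) =>
      ¬ ∃ φ : Fm D k, φ.code = c ∧ φ.IsSentence ∧ V φ := by
    have h3 : REPred fun c : List (Sym D k) => parse c ≠ some [false] ∨
        ∃ φ : Fm D k, φ.code = c ∧ (¬ φ.IsSentence ∨ (φ.IsSentence ∧ ¬ V φ)) := by
      refine re_or (re_ne primrec_parse.to_comp (Computable.const _)) ?_
      refine re_ex (q := fun c (φ : Fm D k) =>
        φ.code = c ∧ (¬ φ.IsSentence ∨ (φ.IsSentence ∧ ¬ V φ))) ?_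
      refine re_and (re_eq (primrec_fmCode.to_comp.comp Computable.snd) Computable.fst) ?_
      exact re_or (re_comp (p := fun φ : Fm D k => ¬ φ.IsSentence) re_not_isSentence
        Computable.snd) (re_comp (p := fun φ : Fm D k => φ.IsSentence ∧ ¬ V φ) h2 Computable.snd)
    refine h3.of_eq ?_
    intro c
    constructor
    · rintro (h | ⟨φ, rfl, h⟩) ⟨ψ, e, hs, hV⟩
      · exact h ((parse_fm_iff c).2 ⟨ψ, e⟩)
      · have : ψ = φ := fm_code_inj e
        subst this
        tauto
    · intro h
      by_cases hc : parse c = some [false]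
      · right
        obtain ⟨φ, rfl⟩ := (parse_fm_iff c).1 hc
        refine ⟨φ, rfl, ?_⟩
        by_cases hs : φ.IsSentence
        · right
          refine ⟨hs, fun hV => h ⟨φ, rfl, hs, hV⟩⟩
        · left
          exact hs
      · left
        exact hc
  obtain ⟨f, hf, h⟩ := decide_of_re hp1 hp2
  refine ⟨f, hf, ?_⟩
  intro φ hφ
  rw [h]
  constructor
  · rintro ⟨ψ, e, _, hV⟩
    rw [← fm_code_inj e]
    exact hV
  · intro hV
    exact ⟨φ, rfl, hφ, hV⟩

end StrAlg
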