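import Pool.Agent.Lib.MP_b9fd58_lc.LCodeDefs
set_option autoImplicit false

/-!
# Terms and formulas are Primcodable, constructors are primitive recursive
-/

namespace StrAlg

open ReCalc

variable {D : Dat} {k : Type} [Field k] [Primcodable k]

theorem LCodeA_pred {α : Type*} [Primcodable α] {f : α → List Bool} (hf : Primrec f) (n : ℕ)
    (l : List Bool) : PrimrecPred fun a => (f a).take n = l :=
  Primrec.eq.comp (Primrec.list_take.comp (Primrec.const n) hf) (Primrec.const l)

theorem LCodeA_num {α : Type*} [Primcodable α] {f : α → ℕ} (hf : Primrec f) (n : ℕ) :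
    PrimrecPred fun a => f a = n :=
  Primrec.eq.comp hf (Primrec.const n)

theorem LCodeA_some {α : Type*} [Primcodable α] {f : α → List Bool} (hf : Primrec f) (b : Bool)
    (n : ℕ) : Primrec fun a => some (b :: (f a).drop n) :=
  Primrec.option_some.comp (Primrec.list_cons.comp (Primrec.const b)
    (Primrec.list_drop.comp (Primrec.const n) hf))

theorem LCodeA_some0 {α : Type*} [Primcodable α] {f : α → List Bool} (hf : Primrec f) (b : Bool) :
    Primrec fun a => some (b :: (f a)) :=
  Primrec.option_some.comp (Primrec.list_cons.comp (Primrec.const b) hf)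

theorem primrec_pstep : Primrec₂ (pstep : Sym D k → Option (List Bool) → Option (List Bool)) := by
  have h1 : Primrec₂ (fun (q : (Sym D k × Option (List Bool)) × List Bool) (n : ℕ) =>
      (if n = 0 then some (true :: q.2)
        else if n = 1 then (if q.2.take 2 = [true, true] then some (true :: q.2.drop 2) else none)
        else if n = 2 then (if q.2.take 2 = [true, true] then some (false :: q.2.drop 2) else none)
        else if n = 3 then some (false :: q.2)
        else if n = 4 then (if q.2.take 2 = [false, false] then some (false :: q.2.drop 2) else none)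
        else if n = 5 then (if q.2.take 1 = [false] then some q.2 else none)
        else some (true :: q.2) : Option (List Bool))) := by
    have hs : Primrec fun p : ((Sym D k × Option (List Bool)) × List Bool) × ℕ => p.1.2 :=
      Primrec.snd.comp Primrec.fst
    have hn : Primrec fun p : ((Sym D k × Option (List Bool)) × List Bool) × ℕ => p.2 :=
      Primrec.snd
    have hno : Primrec fun _ : ((Sym D k × Option (List Bool)) × List Bool) × ℕ =>
        (none : Option (List Bool)) := Primrec.const _
    refine Primrec.ite (LCodeA_num hn 0) (LCodeA_some0 hs _) ?_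
    refine Primrec.ite (LCodeA_num hn 1)
      (Primrec.ite (LCodeA_pred hs 2 _) (LCodeA_some hs _ _) hno) ?_
    refine Primrec.ite (LCodeA_num hn 2)
      (Primrec.ite (LCodeA_pred hs 2 _) (LCodeA_some hs _ _) hno) ?_
    refine Primrec.ite (LCodeA_num hn 3) (LCodeA_some0 hs _) ?_
    refine Primrec.ite (LCodeA_num hn 4)
      (Primrec.ite (LCodeA_pred hs 2 _) (LCodeA_some hs _ _) hno) ?_
    refine Primrec.ite (LCodeA_num hn 5)
      (Primrec.ite (LCodeA_pred hs 1 _) (Primrec.option_some.comp hs) hno) ?_
    exact LCodeA_some0 hs _
  have h2 : Primrec₂ (fun (q : (Sym D k × Option (List Bool)) × List Bool)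
      (_ : List (k × List D.Gen)) =>
      (if q.2.take 1 = [true] then some q.2 else none : Option (List Bool))) := by
    have hs : Primrec fun p : ((Sym D k × Option (List Bool)) × List Bool) ×
        List (k × List D.Gen) => p.1.2 := Primrec.snd.comp Primrec.fst
    exact Primrec.ite (LCodeA_pred hs 1 _) (Primrec.option_some.comp hs) (Primrec.const _)
  have h3 : Primrec (fun q : (Sym D k × Option (List Bool)) × List Bool => _) :=
    Primrec.sumCasesOn (f := fun q : (Sym D k × Option (List Bool)) × List Bool => q.1.1)
      (Primrec.fst.comp Primrec.fst) h1 h2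
  have h4 : Primrec (fun q : Sym D k × Option (List Bool) => _) :=
    Primrec.option_bind (f := fun q : Sym D k × Option (List Bool) => q.2) Primrec.snd h3.to₂
  refine Primrec.of_eq h4 ?_
  rintro ⟨x, s⟩
  rcases x with n | e <;> rfl

theorem primrec_parse : Primrec (parse : List (Sym D k) → Option (List Bool)) := by
  have h := Primrec.list_foldr (f := fun c : List (Sym D k) => c)
    (g := fun _ : List (Sym D k) => (some [] : Option (List Bool)))
    (h := fun (_ : List (Sym D k)) (q : Sym D k × Option (List Bool)) => pstep q.1 q.2)
    Primrec.id (Primrec.const _)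
    (primrec_pstep.comp (Primrec.fst.comp Primrec.snd) (Primrec.snd.comp Primrec.snd))
  exact h

theorem primrecPred_tm : PrimrecPred fun c : List (Sym D k) => parse c = some [true] :=
  Primrec.eq.comp primrec_parse (Primrec.const _)

theorem primrecPred_fm : PrimrecPred fun c : List (Sym D k) => parse c = some [false] :=
  Primrec.eq.comp primrec_parse (Primrec.const _)

/-- terms as parsable lists -/
noncomputable def tmEquiv : Tm D k ≃ {c : List (Sym D k) // parse c = some [true]} :=
  Equiv.ofBijective (fun t => ⟨t.code, (parse_tm_iff _).2 ⟨t, rfl⟩⟩)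
    ⟨fun s t h => tm_code_inj (congrArg Subtype.val h), fun ⟨c, hc⟩ => by
      obtain ⟨t, ht⟩ := (parse_tm_iff c).1 hc
      exact ⟨t, Subtype.ext ht⟩⟩

/-- formulas as parsable lists -/
noncomputable def fmEquiv : Fm D k ≃ {c : List (Sym D k) // parse c = some [false]} :=
  Equiv.ofBijective (fun t => ⟨t.code, (parse_fm_iff _).2 ⟨t, rfl⟩⟩)
    ⟨fun s t h => fm_code_inj (congrArg Subtype.val h), fun ⟨c, hc⟩ => by
      obtain ⟨t, ht⟩ := (parse_fm_iff c).1 hc
      exact ⟨t, Subtype.ext ht⟩⟩

noncomputable instance tmPrim : Primcodable (Tm D k) :=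
  letI : Primcodable {c : List (Sym D k) // parse c = some [true]} :=
    Primcodable.subtype primrecPred_tm
  Primcodable.ofEquiv {c : List (Sym D k) // parse c = some [true]} tmEquiv

noncomputable instance fmPrim : Primcodable (Fm D k) :=
  letI : Primcodable {c : List (Sym D k) // parse c = some [false]} :=
    Primcodable.subtype primrecPred_fm
  Primcodable.ofEquiv {c : List (Sym D k) // parse c = some [false]} fmEquiv

theorem primrec_tmCode : Primrec (Tm.code : Tm D k → List (Sym D k)) := by
  letI : Primcodable {c : List (Sym D k) // parse c = some [true]} :=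
    Primcodable.subtype primrecPred_tm
  have h1 : Primrec (tmEquiv (D := D) (k := k)) := Primrec.of_equiv
  exact Primrec.subtype_val.comp h1

theorem primrec_fmCode : Primrec (Fm.code : Fm D k → List (Sym D k)) := by
  letI : Primcodable {c : List (Sym D k) // parse c = some [false]} :=
    Primcodable.subtype primrecPred_fm
  have h1 : Primrec (fmEquiv (D := D) (k := k)) := Primrec.of_equiv
  exact Primrec.subtype_val.comp h1

theorem primrec_tm_iff {α : Type*} [Primcodable α] {f : α → Tm D k} :
    Primrec f ↔ Primrec fun a => (f a).code := by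
  letI : Primcodable {c : List (Sym D k) // parse c = some [true]} :=
    Primcodable.subtype primrecPred_tm
  have h1 : (Primrec fun a => tmEquiv (f a)) ↔ Primrec f := Primrec.of_equiv_iff tmEquiv
  rw [← h1]
  exact (Primrec.subtype_val_iff (hp := primrecPred_tm) (f := fun a => tmEquiv (f a))).symm

theorem primrec_fm_iff {α : Type*} [Primcodable α] {f : α → Fm D k} :
    Primrec f ↔ Primrec fun a => (f a).code := by
  letI : Primcodable {c : List (Sym D k) // parse c = some [false]} :=
    Primcodable.subtype primrecPred_fm
  have h1 : (Primrec fun a => fmEquiv (f a)) ↔ Primrec f := Primrec.of_equiv_iff fmEquiv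
  rw [← h1]
  exact (Primrec.subtype_val_iff (hp := primrecPred_fm) (f := fun a => fmEquiv (f a))).symm

theorem primrec_var : Primrec (Tm.var : ℕ → Tm D k) := by
  rw [primrec_tm_iff]
  exact Primrec.list_cons.comp (Primrec.sumInl.comp (Primrec.nat_add.comp Primrec.id
    (Primrec.const 6))) (Primrec.const [])

theorem primrec_add : Primrec₂ (Tm.add : Tm D k → Tm D k → Tm D k) := by
  refine primrec_tm_iff.2 ?_
  exact Primrec.list_cons.comp (Primrec.const (Sum.inl 1))
    (Primrec.list_append.comp (primrec_tmCode.comp Primrec.fst) (primrec_tmCode.comp Primrec.snd))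

theorem primrec_act : Primrec₂ (Tm.act : ElCode D k → Tm D k → Tm D k) := by
  refine primrec_tm_iff.2 ?_
  exact Primrec.list_cons.comp (Primrec.sumInr.comp Primrec.fst)
    (primrec_tmCode.comp Primrec.snd)

theorem primrec_eqF : Primrec₂ (Fm.eq : Tm D k → Tm D k → Fm D k) := by
  refine primrec_fm_iff.2 ?_
  exact Primrec.list_cons.comp (Primrec.const (Sum.inl 2))
    (Primrec.list_append.comp (primrec_tmCode.comp Primrec.fst) (primrec_tmCode.comp Primrec.snd))

theorem primrec_imp : Primrec₂ (Fm.imp : Fm D k → Fm D k → Fm D k) := by
  refine primrec_fm_iff.2 ?_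
  exact Primrec.list_cons.comp (Primrec.const (Sum.inl 4))
    (Primrec.list_append.comp (primrec_fmCode.comp Primrec.fst) (primrec_fmCode.comp Primrec.snd))

theorem primrec_all : Primrec (Fm.all : Fm D k → Fm D k) := by
  refine primrec_fm_iff.2 ?_
  exact Primrec.list_cons.comp (Primrec.const (Sum.inl 5)) primrec_fmCode

end StrAlg
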