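import Pool.Agent.Lib.MP_b9fd58_lc.LDefs
set_option autoImplicit false

/-!
# Parsing codes
-/

namespace StrAlg

variable {D : Dat} {k : Type} [Field k]

/-- One step of the parser of Polish notation, reading from right to left; the stack contains the
types of the objects read (`true` for a term, `false` for a formula). -/
def pstep (x : Sym D k) (s : Option (List Bool)) : Option (List Bool) :=
  s.bind fun s =>
    Sum.elim
      (fun n : ℕ =>
        if n = 0 then some (true :: s)
        else if n = 1 then (if s.take 2 = [true, true] then some (true :: s.drop 2) else none)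
        else if n = 2 then (if s.take 2 = [true, true] then some (false :: s.drop 2) else none)
        else if n = 3 then some (false :: s)
        else if n = 4 then (if s.take 2 = [false, false] then some (false :: s.drop 2) else none)
        else if n = 5 then (if s.take 1 = [false] then some s else none)
        else some (true :: s))
      (fun _ : List (k × List D.Gen) => if s.take 1 = [true] then some s else none) x

/-- the parser -/
def parse (c : List (Sym D k)) : Option (List Bool) := c.foldr pstep (some [])

theorem parse_nil : parse ([] : List (Sym D k)) = some [] := rfl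

theorem parse_cons (x : Sym D k) (c : List (Sym D k)) : parse (x :: c) = pstep x (parse c) := rfl

/-- reading a term pushes `true` -/
theorem parse_tm (t : Tm D k) : ∀ (c : List (Sym D k)) (s : List Bool), parse c = some s →
    parse (t.code ++ c) = some (true :: s) := by
  induction t with
  | var n =>
    intro c s h
    simp [Tm.code, parse_cons, h, pstep]
  | zero =>
    intro c s h
    simp [Tm.code, parse_cons, h, pstep]
  | add a b iha ihb =>
    intro c s h
    have h1 := ihb c s h
    have h2 := iha _ _ h1
    simp only [Tm.code, List.cons_append, List.append_assoc, parse_cons, h2]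
    simp [pstep]
  | act e a iha =>
    intro c s h
    have h2 := iha _ _ h
    simp only [Tm.code, List.cons_append, parse_cons, h2]
    simp [pstep]

/-- reading a formula pushes `false` -/
theorem parse_fm (φ : Fm D k) : ∀ (c : List (Sym D k)) (s : List Bool), parse c = some s →
    parse (φ.code ++ c) = some (false :: s) := by
  induction φ with
  | eq a b =>
    intro c s h
    have h1 := parse_tm b c s h
    have h2 := parse_tm a _ _ h1
    simp only [Fm.code, List.cons_append, List.append_assoc, parse_cons, h2]
    simp [pstep]
  | fls =>
    intro c s h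
    simp [Fm.code, parse_cons, h, pstep]
  | imp a b iha ihb =>
    intro c s h
    have h1 := ihb c s h
    have h2 := iha _ _ h1
    simp only [Fm.code, List.cons_append, List.append_assoc, parse_cons, h2]
    simp [pstep]
  | all a iha =>
    intro c s h
    have h2 := iha _ _ h
    simp only [Fm.code, List.cons_append, parse_cons, h2]
    simp [pstep]

/-- code of a term or formula -/
def obCode : Tm D k ⊕ Fm D k → List (Sym D k) := Sum.elim Tm.code Fm.code
/-- type of a term or formula -/
def obTy : Tm D k ⊕ Fm D k → Bool := Sum.elim (fun _ => true) (fun _ => false)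

theorem LCodeDefs_tt (l : List (Tm D k ⊕ Fm D k)) (h : (l.map obTy).take 2 = [true, true]) :
    ∃ a b l', l = Sum.inl a :: Sum.inl b :: l' := by
  rcases l with _ | ⟨a | a, _ | ⟨b | b, l⟩⟩
  · simp at h
  · simp [obTy] at h
  · exact ⟨a, b, l, rfl⟩
  · simp [obTy] at h
  · simp [obTy] at h
  · simp [obTy] at h
  · simp [obTy] at h

theorem LCodeDefs_ff (l : List (Tm D k ⊕ Fm D k)) (h : (l.map obTy).take 2 = [false, false]) :
    ∃ a b l', l = Sum.inr a :: Sum.inr b :: l' := by
  rcases l with _ | ⟨a | a, _ | ⟨b | b, l⟩⟩
  · simp at h
  · simp [obTy] at h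
  · simp [obTy] at h
  · simp [obTy] at h
  · simp [obTy] at h
  · simp [obTy] at h
  · exact ⟨a, b, l, rfl⟩

theorem LCodeDefs_t (l : List (Tm D k ⊕ Fm D k)) (h : (l.map obTy).take 1 = [true]) :
    ∃ a l', l = Sum.inl a :: l' := by
  rcases l with _ | ⟨a | a, l⟩
  · simp at h
  · exact ⟨a, l, rfl⟩
  · simp [obTy] at h

theorem LCodeDefs_f (l : List (Tm D k ⊕ Fm D k)) (h : (l.map obTy).take 1 = [false]) :
    ∃ a l', l = Sum.inr a :: l' := by
  rcases l with _ | ⟨a | a, l⟩
  · simp at h
  · simp [obTy] at h
  · exact ⟨a, l, rfl⟩

/-- every parsable list is a concatenation of codes -/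
theorem parse_inv : ∀ (c : List (Sym D k)) (s : List Bool), parse c = some s →
    ∃ l : List (Tm D k ⊕ Fm D k), c = (l.map obCode).flatten ∧ s = l.map obTy := by
  intro c
  induction c with
  | nil =>
    intro s h
    rw [parse_nil] at h
    exact ⟨[], rfl, (Option.some.inj h).symm⟩
  | cons x c ih =>
    intro s h
    rw [parse_cons] at h
    rcases hc : parse c with _ | s'
    · rw [hc] at h
      simp [pstep] at h
    rw [hc] at h
    obtain ⟨l, hl1, hl2⟩ := ih s' hc
    subst hl1
    subst hl2
    rcases x with n | e
    · have h' : (if n = 0 then some (true :: l.map obTy)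
        else if n = 1 then (if (l.map obTy).take 2 = [true, true]
          then some (true :: (l.map obTy).drop 2) else none)
        else if n = 2 then (if (l.map obTy).take 2 = [true, true]
          then some (false :: (l.map obTy).drop 2) else none)
        else if n = 3 then some (false :: l.map obTy)
        else if n = 4 then (if (l.map obTy).take 2 = [false, false]
          then some (false :: (l.map obTy).drop 2) else none)
        else if n = 5 then (if (l.map obTy).take 1 = [false] then some (l.map obTy) else none)
        else some (true :: l.map obTy)) = some s := h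
      by_cases h0 : n = 0
      · subst h0
        rw [if_pos rfl] at h'
        exact ⟨Sum.inl .zero :: l, rfl, (Option.some.inj h').symm⟩
      rw [if_neg h0] at h'
      by_cases h1 : n = 1
      · subst h1
        rw [if_pos rfl] at h'
        split_ifs at h' with ht
        obtain ⟨a, b, l', rfl⟩ := LCodeDefs_tt l ht
        refine ⟨Sum.inl (.add a b) :: l', ?_, (Option.some.inj h').symm⟩
        simp [obCode, Tm.code]
      rw [if_neg h1] at h'
      by_cases h2 : n = 2
      · subst h2
        rw [if_pos rfl] at h'
        split_ifs at h' with ht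
        obtain ⟨a, b, l', rfl⟩ := LCodeDefs_tt l ht
        refine ⟨Sum.inr (.eq a b) :: l', ?_, (Option.some.inj h').symm⟩
        simp [obCode, Fm.code]
      rw [if_neg h2] at h'
      by_cases h3 : n = 3
      · subst h3
        rw [if_pos rfl] at h'
        exact ⟨Sum.inr .fls :: l, rfl, (Option.some.inj h').symm⟩
      rw [if_neg h3] at h'
      by_cases h4 : n = 4
      · subst h4
        rw [if_pos rfl] at h'
        split_ifs at h' with ht
        obtain ⟨a, b, l', rfl⟩ := LCodeDefs_ff l ht
        refine ⟨Sum.inr (.imp a b) :: l', ?_, (Option.some.inj h').symm⟩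
        simp [obCode, Fm.code]
      rw [if_neg h4] at h'
      by_cases h5 : n = 5
      · subst h5
        rw [if_pos rfl] at h'
        split_ifs at h' with ht
        obtain ⟨a, l', rfl⟩ := LCodeDefs_f l ht
        refine ⟨Sum.inr (.all a) :: l', ?_, (Option.some.inj h').symm⟩
        simp [obCode, Fm.code]
      rw [if_neg h5] at h'
      refine ⟨Sum.inl (.var (n - 6)) :: l, ?_, (Option.some.inj h').symm⟩
      have h6 : n - 6 + 6 = n := by omega
      simp [obCode, Tm.code, h6]
    · have h' : (if (l.map obTy).take 1 = [true] then some (l.map obTy) else none) = some s := h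
      split_ifs at h' with ht
      obtain ⟨a, l', rfl⟩ := LCodeDefs_t l ht
      refine ⟨Sum.inl (.act e a) :: l', ?_, (Option.some.inj h').symm⟩
      simp [obCode, Tm.code]

theorem parse_tm_iff (c : List (Sym D k)) : parse c = some [true] ↔ ∃ t : Tm D k, t.code = c := by
  constructor
  · intro h
    obtain ⟨l, hl1, hl2⟩ := parse_inv c _ h
    rcases l with _ | ⟨t | t, _ | ⟨u, l⟩⟩
    · simp at hl2
    · exact ⟨t, by rw [hl1]; simp [obCode]⟩
    · simp at hl2
    · simp [obTy] at hl2
    · simp at hl2
  · rintro ⟨t, rfl⟩
    have h := parse_tm t [] [] rfl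
    rwa [List.append_nil] at h

theorem parse_fm_iff (c : List (Sym D k)) : parse c = some [false] ↔ ∃ φ : Fm D k, φ.code = c := by
  constructor
  · intro h
    obtain ⟨l, hl1, hl2⟩ := parse_inv c _ h
    rcases l with _ | ⟨t | t, _ | ⟨u, l⟩⟩
    · simp at hl2
    · simp [obTy] at hl2
    · simp at hl2
    · exact ⟨t, by rw [hl1]; simp [obCode]⟩
    · simp at hl2
  · rintro ⟨t, rfl⟩
    have h := parse_fm t [] [] rfl
    rwa [List.append_nil] at h

theorem tm_code_inj' : ∀ (s t : Tm D k) (c d : List (Sym D k)), s.code ++ c = t.code ++ d →
    s = t ∧ c = d := by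
  intro s
  induction s with
  | var n =>
    intro t c d h
    cases t <;> simp_all [Tm.code]
  | zero =>
    intro t c d h
    cases t <;> simp_all [Tm.code]
  | add a b iha ihb =>
    intro t c d h
    cases t with
    | var m => simp [Tm.code] at h
    | zero => simp [Tm.code] at h
    | act e a' => simp [Tm.code] at h
    | add a' b' =>
      simp only [Tm.code, List.cons_append, List.append_assoc, List.cons.injEq, true_and] at h
      obtain ⟨rfl, h2⟩ := iha _ _ _ h
      obtain ⟨rfl, h3⟩ := ihb _ _ _ h2
      exact ⟨rfl, h3⟩
  | act e a iha =>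
    intro t c d h
    cases t with
    | var m => simp [Tm.code] at h
    | zero => simp [Tm.code] at h
    | add a' b' => simp [Tm.code] at h
    | act e' a' =>
      simp only [Tm.code, List.cons_append, List.cons.injEq, Sum.inr.injEq] at h
      obtain ⟨rfl, h2⟩ := h
      obtain ⟨rfl, h3⟩ := iha _ _ _ h2
      exact ⟨rfl, h3⟩

theorem fm_code_inj' : ∀ (φ ψ : Fm D k) (c d : List (Sym D k)), φ.code ++ c = ψ.code ++ d →
    φ = ψ ∧ c = d := by
  intro φ
  induction φ with
  | eq a b =>
    intro ψ c d h
    cases ψ with
    | fls => simp [Fm.code] at h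
    | imp a' b' => simp [Fm.code] at h
    | all a' => simp [Fm.code] at h
    | eq a' b' =>
      simp only [Fm.code, List.cons_append, List.append_assoc, List.cons.injEq, true_and] at h
      obtain ⟨rfl, h2⟩ := tm_code_inj' _ _ _ _ h
      obtain ⟨rfl, h3⟩ := tm_code_inj' _ _ _ _ h2
      exact ⟨rfl, h3⟩
  | fls =>
    intro ψ c d h
    cases ψ <;> simp_all [Fm.code]
  | imp a b iha ihb =>
    intro ψ c d h
    cases ψ with
    | fls => simp [Fm.code] at h
    | eq a' b' => simp [Fm.code] at h
    | all a' => simp [Fm.code] at h
    | imp a' b' =>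
      simp only [Fm.code, List.cons_append, List.append_assoc, List.cons.injEq, true_and] at h
      obtain ⟨rfl, h2⟩ := iha _ _ _ h
      obtain ⟨rfl, h3⟩ := ihb _ _ _ h2
      exact ⟨rfl, h3⟩
  | all a iha =>
    intro ψ c d h
    cases ψ with
    | fls => simp [Fm.code] at h
    | eq a' b' => simp [Fm.code] at h
    | imp a' b' => simp [Fm.code] at h
    | all a' =>
      simp only [Fm.code, List.cons_append, List.cons.injEq, true_and] at h
      obtain ⟨rfl, h3⟩ := iha _ _ _ h
      exact ⟨rfl, h3⟩

theorem tm_code_inj : Function.Injective (Tm.code : Tm D k → List (Sym D k)) := by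
  intro s t h
  exact (tm_code_inj' s t [] [] (by rw [h])).1

theorem fm_code_inj : Function.Injective (Fm.code : Fm D k → List (Sym D k)) := by
  intro s t h
  exact (fm_code_inj' s t [] [] (by rw [h])).1

end StrAlg
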