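import Pool.Agent.Lib.MP_b9fd58_lc.LCondB
import Pool.Agent.Lib.MP_b9fd58_lc.LCode
set_option autoImplicit false

/-!
# The formulas of conditions are computable
-/

namespace StrAlg

open ReCalc

section comp
variable {D : Dat} {k : Type} [Field k] [Primcodable k] [DecidableEq k]

theorem computable_neg : Computable (Fm.neg : Fm D k → Fm D k) := by
  have h : Computable fun φ : Fm D k => Fm.imp φ Fm.fls :=
    (primrec_imp.to_comp).comp Computable.id (Computable.const _)
  exact h

theorem computable_conj : Computable₂ (Fm.conj : Fm D k → Fm D k → Fm D k) := by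
  have h : Computable fun p : Fm D k × Fm D k => Fm.neg (Fm.imp p.1 (Fm.neg p.2)) :=
    computable_neg.comp ((primrec_imp.to_comp).comp Computable.fst
      (computable_neg.comp Computable.snd))
  exact h

theorem computable_ex : Computable (Fm.ex : Fm D k → Fm D k) := by
  have h : Computable fun φ : Fm D k => Fm.neg (Fm.all (Fm.neg φ)) :=
    computable_neg.comp ((primrec_all.to_comp).comp (computable_neg.comp Computable.id))
  exact h

theorem computable_conjL : Computable (Fm.conjL : List (Fm D k) → Fm D k) := by
  have h : Computable fun l : List (Fm D k) => l.foldr (fun b s => Fm.conj b s) Fm.tru :=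
    foldrC (f := fun l : List (Fm D k) => l) (g := fun _ => Fm.tru)
      (h := fun _ b s => Fm.conj b s) Computable.id (Computable.const _)
      (computable_conj.comp (Computable.fst.comp Computable.snd)
        (Computable.snd.comp Computable.snd))
  exact h

theorem computable_exN : Computable₂ (Fm.exN : ℕ → Fm D k → Fm D k) := by
  have h : Computable fun p : ℕ × Fm D k =>
      (Nat.rec p.2 (fun _ ψ => Fm.ex ψ) p.1 : Fm D k) :=
    Computable.nat_rec (f := fun p : ℕ × Fm D k => p.1) (g := fun p => p.2)
      (h := fun (_ : ℕ × Fm D k) (q : ℕ × Fm D k) => Fm.ex q.2)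
      Computable.fst Computable.snd
      (computable_ex.comp (Computable.snd.comp Computable.snd))
  exact h

theorem computable_ppBd : Computable (ppBd : PP D k → ℕ) := by
  have h1 : Computable fun S : PP D k => S.flatMap fun e => e.map fun t => t.2 + 1 :=
    flatMapC (f := fun S : PP D k => S) (h := fun _ e => e.map fun t => t.2 + 1) Computable.id
      (mapC (f := fun p : PP D k × List (ElCode D k × ℕ) => p.2) (h := fun _ t => t.2 + 1)
        Computable.snd (Computable.succ.comp (Computable.snd.comp Computable.snd)))
  have h : Computable fun S : PP D k =>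
      (S.flatMap fun e => e.map fun t => t.2 + 1).foldr (fun b s => max b s) 1 :=
    foldrC (h := fun _ b s => max b s) h1 (Computable.const _)
      ((Primrec.nat_max.to_comp).comp (Computable.fst.comp Computable.snd)
        (Computable.snd.comp Computable.snd))
  exact h

private theorem LCond_ixv : Computable fun p : ℕ × ℕ => ixv p.1 p.2 := by
  unfold ixv
  exact iteC (p := fun p : ℕ × ℕ => p.2 = 0) (eqC Computable.snd (Computable.const _))
    Computable.fst (Computable.pred.comp Computable.snd)

private theorem LCond_eqTm :
    Computable fun p : ℕ × List (ElCode D k × ℕ) => (eqTm p.1 p.2 : Tm D k) := by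
  unfold eqTm
  refine foldrC (f := fun p : ℕ × List (ElCode D k × ℕ) => p.2) (g := fun _ => Tm.zero)
    (h := fun p t s => .add (.act t.1 (.var (ixv p.1 t.2))) s) Computable.snd
    (Computable.const _) ?_
  have hi : Computable fun q : (ℕ × List (ElCode D k × ℕ)) × (ElCode D k × ℕ) × Tm D k =>
      ixv q.1.1 q.2.1.2 :=
    LCond_ixv.comp (Computable.pair (Computable.fst.comp Computable.fst)
      (Computable.snd.comp (Computable.fst.comp Computable.snd)))
  exact (primrec_add.to_comp).comp
    ((primrec_act.to_comp).comp (Computable.fst.comp (Computable.fst.comp Computable.snd))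
      ((primrec_var.to_comp).comp hi)) (Computable.snd.comp Computable.snd)

theorem computable_ppF : Computable (ppF : PP D k → Fm D k) := by
  have h1 : Computable fun S : PP D k =>
      S.map fun e => (Fm.eq (eqTm (ppBd S) e) Tm.zero : Fm D k) :=
    mapC (f := fun S : PP D k => S) (h := fun S e => Fm.eq (eqTm (ppBd S) e) Tm.zero)
      Computable.id ((primrec_eqF.to_comp).comp
        (LCond_eqTm.comp (Computable.pair (computable_ppBd.comp Computable.fst) Computable.snd))
        (Computable.const _))
  have h : Computable fun S : PP D k =>
      (Fm.exN (ppBd S) (Fm.conjL (S.map fun e => Fm.eq (eqTm (ppBd S) e) Tm.zero)) : Fm D k) :=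
    computable_exN.comp computable_ppBd (computable_conjL.comp h1)
  exact h

theorem computable_atT : Computable₂ (atT : Tm D k → Fm D k → Fm D k) := by
  have h : Computable fun p : Tm D k × Fm D k =>
      Fm.ex (Fm.conj (Fm.eq (Tm.var 0) p.1) p.2) :=
    computable_ex.comp (computable_conj.comp
      ((primrec_eqF.to_comp).comp (Computable.const _) Computable.fst) Computable.snd)
  exact h

private theorem LCond_zipIdx (l : List k) :
    l.foldl (fun s b => s ++ [(b, s.length)]) ([] : List (k × ℕ)) = l.zipIdx := by
  induction l using List.reverseRecOn with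
  | nil => rfl
  | append_singleton l a ih =>
    rw [List.foldl_append, ih]
    simp [List.zipIdx_append]

private theorem LCond_zipC : Computable fun l : List k => l.zipIdx := by
  have h : Computable fun l : List k =>
      l.foldl (fun s b => s ++ [(b, s.length)]) ([] : List (k × ℕ)) :=
    foldlC (f := fun l : List k => l) (g := fun _ => ([] : List (k × ℕ)))
      (h := fun _ s b => s ++ [(b, s.length)]) Computable.id (Computable.const _)
      (Computable.list_append.comp (Computable.fst.comp Computable.snd)
        (Computable.list_cons.comp (Computable.pair (Computable.snd.comp Computable.snd)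
          (Computable.list_length.comp (Computable.fst.comp Computable.snd)))
          (Computable.const _)))
  exact h.of_eq LCond_zipIdx

theorem computable_lcTm : Computable (lcTm : List k → Tm D k) := by
  have h : Computable fun a : List k => (a.zipIdx).foldr
      (fun t s => (Tm.add (Tm.act [(t.1, [])] (Tm.var (t.2 + 1))) s : Tm D k)) Tm.zero :=
    foldrC (h := fun _ t s => Tm.add (Tm.act [(t.1, [])] (Tm.var (t.2 + 1))) s) LCond_zipC
      (Computable.const _)
      ((primrec_add.to_comp).comp
        ((primrec_act.to_comp).comp
          (Computable.list_cons.comp (Computable.pair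
            (Computable.fst.comp (Computable.fst.comp Computable.snd)) (Computable.const _))
            (Computable.const _))
          ((primrec_var.to_comp).comp
            (Computable.succ.comp (Computable.snd.comp (Computable.fst.comp Computable.snd)))))
        (Computable.snd.comp Computable.snd))
  exact h

theorem computable_vecs (ks : List k) : Computable (vecs ks) := by
  have h : Computable fun n : ℕ =>
      (Nat.rec [[]] (fun _ l => l.flatMap fun v => ks.map fun a => a :: v) n : List (List k)) :=
    Computable.nat_rec (f := fun n : ℕ => n) (g := fun _ => [[]])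
      (h := fun (_ : ℕ) (q : ℕ × List (List k)) => q.2.flatMap fun v => ks.map fun a => a :: v)
      Computable.id (Computable.const _)
      (flatMapC (f := fun p : ℕ × (ℕ × List (List k)) => p.2.2)
        (h := fun _ v => ks.map fun a => a :: v) (Computable.snd.comp Computable.snd)
        (mapC (f := fun _ : (ℕ × (ℕ × List (List k))) × List k => ks)
          (h := fun q a => a :: q.2) (Computable.const _)
          (Computable.list_cons.comp Computable.snd (Computable.snd.comp Computable.fst))))
  exact h

private theorem LCond_nz : Computable fun a : List k => decide (∃ x ∈ a, x ≠ 0) := by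
  have h : Computable fun a : List k => a.any fun x => !(decide (x = 0)) :=
    anyC (f := fun a : List k => a) (h := fun _ x => !(decide (x = 0))) Computable.id
      (notC (eqC Computable.snd (Computable.const _)))
  refine h.of_eq fun a => ?_
  rw [Bool.eq_iff_iff]
  simp

private theorem LCond_negC {α : Type*} [Primcodable α] {f : α → Fm D k} (hf : Computable f) :
    Computable fun q : α => (Fm.neg (f q) : Fm D k) :=
  computable_neg.comp hf

private theorem LCond_conjC {α : Type*} [Primcodable α] {f g : α → Fm D k} (hf : Computable f)
    (hg : Computable g) : Computable fun q : α => (Fm.conj (f q) (g q) : Fm D k) :=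
  computable_conj.comp hf hg

private theorem LCond_conjLC {α : Type*} [Primcodable α] {f : α → List (Fm D k)}
    (hf : Computable f) : Computable fun q : α => (Fm.conjL (f q) : Fm D k) :=
  computable_conjL.comp hf

private theorem LCond_exNC {α : Type*} [Primcodable α] {f : α → ℕ} {g : α → Fm D k}
    (hf : Computable f) (hg : Computable g) :
    Computable fun q : α => (Fm.exN (f q) (g q) : Fm D k) :=
  computable_exN.comp hf hg

private theorem LCond_negAt {α : Type*} [Primcodable α] {f : α → List k} {g : α → PP D k}
    (hf : Computable f) (hg : Computable g) :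
    Computable fun q : α => (Fm.neg (atT (lcTm (f q)) (ppF (g q))) : Fm D k) :=
  computable_neg.comp (computable_atT.comp (computable_lcTm.comp hf) (computable_ppF.comp hg))

private theorem LCond_geA :
    Computable fun p : (PP D k × PP D k) × ℕ =>
      ((List.range p.2).map fun i => (atT (Tm.var (i + 1)) (ppF p.1.1) : Fm D k)) :=
  mapC (f := fun p : (PP D k × PP D k) × ℕ => List.range p.2)
    (h := fun p i => atT (Tm.var (i + 1)) (ppF p.1.1)) (rangeC Computable.snd)
    (computable_atT.comp ((primrec_var.to_comp).comp (Computable.succ.comp Computable.snd))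
      (computable_ppF.comp (Computable.fst.comp (Computable.fst.comp Computable.fst))))

private theorem LCond_geV (ks : List k) : Computable fun p : (PP D k × PP D k) × ℕ =>
    ((vecs ks p.2).filter fun a => decide (∃ x ∈ a, x ≠ 0)) :=
  filterC (h := fun _ a => decide (∃ x ∈ a, x ≠ 0)) ((computable_vecs ks).comp Computable.snd)
    (LCond_nz.comp Computable.snd)

private theorem LCond_geB1 : Computable fun q : ((PP D k × PP D k) × ℕ) × List k =>
    (Fm.neg (atT (lcTm q.2) (ppF q.1.1.2)) : Fm D k) :=
  LCond_negAt Computable.snd (Computable.snd.comp (Computable.fst.comp Computable.fst))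

private theorem LCond_geB (ks : List k) : Computable fun p : (PP D k × PP D k) × ℕ =>
    (((vecs ks p.2).filter fun a => decide (∃ x ∈ a, x ≠ 0)).map fun a =>
      (Fm.neg (atT (lcTm a) (ppF p.1.2)) : Fm D k)) :=
  mapC (f := fun p : (PP D k × PP D k) × ℕ =>
      (vecs ks p.2).filter fun a => decide (∃ x ∈ a, x ≠ 0))
    (h := fun (p : (PP D k × PP D k) × ℕ) (a : List k) =>
      (Fm.neg (atT (lcTm a) (ppF p.1.2)) : Fm D k)) (LCond_geV ks) LCond_geB1

theorem computable_geF (ks : List k) :
    Computable fun p : (PP D k × PP D k) × ℕ => geF ks p.1.1 p.1.2 p.2 :=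
  LCond_exNC (f := fun p : (PP D k × PP D k) × ℕ => p.2)
    (g := fun p : (PP D k × PP D k) × ℕ => Fm.conj
      (Fm.conjL ((List.range p.2).map fun i => atT (Tm.var (i + 1)) (ppF p.1.1)))
      (Fm.conjL (((vecs ks p.2).filter fun a => decide (∃ x ∈ a, x ≠ 0)).map fun a =>
        Fm.neg (atT (lcTm a) (ppF p.1.2))))) Computable.snd
    (LCond_conjC (LCond_conjLC LCond_geA) (LCond_conjLC (LCond_geB ks)))

private theorem LCond_cI : Computable fun t : Cond D k =>
    (Fm.all (Fm.imp (ppF t.1.1) (ppF t.1.2)) : Fm D k) :=
  (primrec_all.to_comp).comp ((primrec_imp.to_comp).comp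
    (computable_ppF.comp (Computable.fst.comp Computable.fst))
    (computable_ppF.comp (Computable.snd.comp Computable.fst)))

private theorem LCond_cG (ks : List k) :
    Computable fun t : Cond D k => (geF ks t.1.1 t.1.2 t.2.1 : Fm D k) :=
  (computable_geF ks).comp (g := fun t : Cond D k => (t.1, t.2.1))
    (Computable.pair Computable.fst (Computable.fst.comp Computable.snd))

private theorem LCond_cG' (ks : List k) :
    Computable fun t : Cond D k => (geF ks t.1.1 t.1.2 (t.2.1 + 1) : Fm D k) :=
  (computable_geF ks).comp (g := fun t : Cond D k => (t.1, t.2.1 + 1))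
    (Computable.pair Computable.fst (Computable.succ.comp (Computable.fst.comp Computable.snd)))

private theorem LCond_ite {α : Type*} [Primcodable α] {p : α → Prop} [DecidablePred p]
    {f g : α → Fm D k} (hp : Computable fun a => decide (p a)) (hf : Computable f)
    (hg : Computable g) : Computable fun a => (if p a then f a else g a : Fm D k) :=
  iteC (p := p) hp hf hg

private theorem LCond_c1 (ks : List k) : Computable fun t : Cond D k =>
    (if t.2.2 = true then Fm.conj (geF ks t.1.1 t.1.2 t.2.1)
      (Fm.neg (geF ks t.1.1 t.1.2 (t.2.1 + 1))) else geF ks t.1.1 t.1.2 t.2.1 : Fm D k) :=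
  LCond_ite (p := fun t : Cond D k => t.2.2 = true)
    (eqC (Computable.snd.comp Computable.snd) (Computable.const _))
    (LCond_conjC (LCond_cG ks) (LCond_negC (LCond_cG' ks))) (LCond_cG ks)

theorem computable_condF (ks : List k) : Computable (condF ks : Cond D k → Fm D k) := by
  have h3 : Computable fun t : Cond D k =>
      (if t.2 = (0, true) then Fm.all (Fm.imp (ppF t.1.1) (ppF t.1.2))
        else if t.2 = (1, false) then Fm.neg (Fm.all (Fm.imp (ppF t.1.1) (ppF t.1.2)))
        else if t.2.2 = true then Fm.conj (geF ks t.1.1 t.1.2 t.2.1)
          (Fm.neg (geF ks t.1.1 t.1.2 (t.2.1 + 1))) else geF ks t.1.1 t.1.2 t.2.1 : Fm D k) :=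
    LCond_ite (p := fun t : Cond D k => t.2 = (0, true))
      (eqC Computable.snd (Computable.const _)) LCond_cI
      (LCond_ite (p := fun t : Cond D k => t.2 = (1, false))
        (eqC Computable.snd (Computable.const _)) (LCond_negC LCond_cI) (LCond_c1 ks))
  refine h3.of_eq fun t => ?_
  unfold condF
  rfl

theorem computable_condImp (ks : List k) :
    Computable₂ (condImp ks : List (Cond D k) → Fm D k → Fm D k) := by
  have h : Computable fun p : List (Cond D k) × Fm D k =>
      p.1.foldr (fun t ψ => (Fm.imp (condF ks t) ψ : Fm D k)) p.2 :=
    foldrC (f := fun p : List (Cond D k) × Fm D k => p.1) (g := fun p => p.2)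
      (h := fun _ t ψ => Fm.imp (condF ks t) ψ) Computable.fst Computable.snd
      ((primrec_imp.to_comp).comp
        ((computable_condF ks).comp (Computable.fst.comp Computable.snd))
        (Computable.snd.comp Computable.snd))
  exact h

end comp

end StrAlg
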