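import Pool.Agent.Lib.MP_b9fd58_lc.LNFA
import Pool.Agent.Lib.MP_b9fd58_lc.IfLDefs
set_option autoImplicit false

/-!
# Formulas expressing the rank conditions
-/

namespace StrAlg

open ReCalc

section form
variable {D : Dat} {k : Type} [Field k]

/-- negation -/
def Fm.neg (φ : Fm D k) : Fm D k := .imp φ .fls
/-- conjunction -/
def Fm.conj (φ ψ : Fm D k) : Fm D k := .neg (.imp φ (.neg ψ))
/-- existential quantifier -/
def Fm.ex (φ : Fm D k) : Fm D k := .neg (.all (.neg φ))
/-- true -/
def Fm.tru : Fm D k := .imp .fls .fls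
/-- conjunction of a list -/
def Fm.conjL (l : List (Fm D k)) : Fm D k := l.foldr Fm.conj .tru
/-- `m` existential quantifiers -/
def Fm.exN (m : ℕ) (φ : Fm D k) : Fm D k := Nat.rec φ (fun _ ψ => .ex ψ) m

/-- the variable for the unknown `v i` of a pp-system under `m` quantifiers -/
def ixv (m i : ℕ) : ℕ := if i = 0 then m else i - 1

/-- the term for an equation of a pp-system -/
def eqTm (m : ℕ) (e : List (ElCode D k × ℕ)) : Tm D k :=
  e.foldr (fun t s => .add (.act t.1 (.var (ixv m t.2))) s) .zero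

/-- strict upper bound for the unknowns of a system -/
def ppBd (S : PP D k) : ℕ := (S.flatMap fun e => e.map fun t => t.2 + 1).foldr max 1

/-- the formula (in the variable `0`) of a pp-system -/
def ppF (S : PP D k) : Fm D k :=
  .exN (ppBd S) (.conjL (S.map fun e => .eq (eqTm (ppBd S) e) .zero))

/-- the pp-formula at the value of a term (whose variables are already shifted by one) -/
def atT (t : Tm D k) (φ : Fm D k) : Fm D k := .ex (.conj (.eq (.var 0) t) φ)

/-- linear combination `∑ a_j x_j` of the variables `1, 2, …` -/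
def lcTm (a : List k) : Tm D k :=
  (a.zipIdx).foldr (fun t s => .add (.act [(t.1, [])] (.var (t.2 + 1))) s) .zero

/-- all lists of length `n` with entries in `ks` -/
def vecs (ks : List k) (n : ℕ) : List (List k) :=
  Nat.rec [[]] (fun _ l => l.flatMap fun v => ks.map fun a => a :: v) n

/-- `rank ≥ n`, for a finite field with list of elements `ks` -/
def geF [DecidableEq k] (ks : List k) (φ ψ : PP D k) (n : ℕ) : Fm D k :=
  .exN n (.conj
    (.conjL ((List.range n).map fun i => atT (.var (i + 1)) (ppF φ)))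
    (.conjL (((vecs ks n).filter fun a => decide (∃ x ∈ a, x ≠ 0)).map fun a =>
      .neg (atT (lcTm a) (ppF ψ)))))

/-- the formula of a condition -/
def condF [DecidableEq k] (ks : List k) (t : Cond D k) : Fm D k :=
  if t.2 = (0, true) then .all (.imp (ppF t.1.1) (ppF t.1.2))
  else if t.2 = (1, false) then .neg (.all (.imp (ppF t.1.1) (ppF t.1.2)))
  else if t.2.2 then .conj (geF ks t.1.1 t.1.2 t.2.1) (.neg (geF ks t.1.1 t.1.2 (t.2.1 + 1)))
  else geF ks t.1.1 t.1.2 t.2.1

/-- `t₁ → t₂ → … → φ` -/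
def condImp [DecidableEq k] (ks : List k) (L : List (Cond D k)) (φ : Fm D k) : Fm D k :=
  L.foldr (fun t ψ => .imp (condF ks t) ψ) φ

end form

section sem
variable {D : Dat} {k : Type} [Field k] {N : Type} [AddCommGroup N] [Module k N]

theorem satQ_neg (Q : QMod D k N) (v : ℕ → N) (φ : Fm D k) : (Fm.neg φ).SatQ Q v ↔ ¬ φ.SatQ Q v :=
  Iff.rfl

theorem satQ_conj (Q : QMod D k N) (v : ℕ → N) (φ ψ : Fm D k) :
    (Fm.conj φ ψ).SatQ Q v ↔ φ.SatQ Q v ∧ ψ.SatQ Q v := by
  show ((φ.SatQ Q v → ψ.SatQ Q v → False) → False) ↔ _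
  tauto

theorem satQ_ex (Q : QMod D k N) (v : ℕ → N) (φ : Fm D k) :
    (Fm.ex φ).SatQ Q v ↔ ∃ x, φ.SatQ Q (consV x v) := by
  show ((∀ x, φ.SatQ Q (consV x v) → False) → False) ↔ _
  constructor
  · intro h
    by_contra hn
    exact h (fun x hx => hn ⟨x, hx⟩)
  · rintro ⟨x, hx⟩ h
    exact h x hx

theorem satQ_conjL (Q : QMod D k N) (v : ℕ → N) (l : List (Fm D k)) :
    (Fm.conjL l).SatQ Q v ↔ ∀ φ ∈ l, φ.SatQ Q v := by
  induction l with
  | nil =>
    simp only [List.not_mem_nil, false_imp_iff, implies_true, iff_true]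
    exact fun h => h
  | cons a l ih =>
    have h1 : (Fm.conjL (a :: l)).SatQ Q v ↔ (Fm.conj a (Fm.conjL l)).SatQ Q v := Iff.rfl
    rw [h1, satQ_conj, ih]
    simp only [List.mem_cons, forall_eq_or_imp]

/-- `m` new values in front of a valuation: `w 0, …, w (m-1), v 0, v 1, …` -/
def preV (m : ℕ) (w v : ℕ → N) : ℕ → N := fun i => if i < m then w i else v (i - m)

theorem satQ_exN (Q : QMod D k N) (v : ℕ → N) (m : ℕ) (φ : Fm D k) :
    (Fm.exN m φ).SatQ Q v ↔ ∃ w : ℕ → N, φ.SatQ Q (preV m w v) := by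
  induction m generalizing v with
  | zero =>
    have h : ∀ w : ℕ → N, preV 0 w v = v := by
      intro w
      funext i
      simp [preV]
    simp only [h]
    exact ⟨fun h => ⟨v, h⟩, fun ⟨_, h⟩ => h⟩
  | succ m ih =>
    have h1 : (Fm.exN (m + 1) φ).SatQ Q v ↔ (Fm.ex (Fm.exN m φ)).SatQ Q v := Iff.rfl
    rw [h1, satQ_ex]
    have key : ∀ (x : N) (w : ℕ → N), preV m w (consV x v) =
        preV (m + 1) (fun i => if i < m then w i else x) v := by
      intro x w
      funext i
      unfold preV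
      by_cases h : i < m
      · rw [if_pos h, if_pos (Nat.lt_succ_of_lt h)]
        exact (if_pos h).symm
      · by_cases h2 : i = m
        · subst h2
          rw [if_neg h, if_pos (Nat.lt_succ_self _), Nat.sub_self]
          exact (if_neg h).symm
        · rw [if_neg h, if_neg (by omega)]
          have h3 : i - m = (i - (m + 1)) + 1 := by omega
          rw [h3]
          rfl
    constructor
    · rintro ⟨x, hx⟩
      obtain ⟨w, hw⟩ := (ih _).1 hx
      rw [key] at hw
      exact ⟨_, hw⟩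
    · rintro ⟨w, hw⟩
      refine ⟨w m, (ih _).2 ⟨w, ?_⟩⟩
      rw [key]
      have h2 : preV (m + 1) (fun i => if i < m then w i else w m) v = preV (m + 1) w v := by
        funext i
        unfold preV
        by_cases h : i < m + 1
        · rw [if_pos h, if_pos h]
          by_cases h3 : i < m
          · exact if_pos h3
          · have h4 : i = m := by omega
            subst h4
            exact if_neg h3
        · rw [if_neg h, if_neg h]
      rw [h2]
      exact hw

theorem valQ_eqTm (Q : QMod D k N) (m : ℕ) (e : List (ElCode D k × ℕ)) (v : ℕ → N) :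
    (eqTm m e).valQ Q v = (e.map fun t => Q.act t.1 (v (ixv m t.2))).sum := by
  induction e with
  | nil => rfl
  | cons a e ih =>
    have h1 : (eqTm m (a :: e)).valQ Q v = Q.act a.1 (v (ixv m a.2)) + (eqTm m e).valQ Q v := rfl
    rw [h1, ih, List.map_cons, List.sum_cons]

private theorem LCondA_le_foldr (l : List ℕ) (a : ℕ) (h : a ∈ l) : a ≤ l.foldr max 1 := by
  induction l with
  | nil => simp at h
  | cons b l ih =>
    rw [List.foldr_cons]
    rcases List.mem_cons.1 h with h | h
    · rw [h]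
      exact le_max_left _ _
    · exact (ih h).trans (le_max_right _ _)

omit [Field k] in
private theorem LCondA_ppBd (S : PP D k) (e : List (ElCode D k × ℕ)) (he : e ∈ S)
    (t : ElCode D k × ℕ) (ht : t ∈ e) : t.2 + 1 ≤ ppBd S := by
  refine LCondA_le_foldr _ _ ?_
  rw [List.mem_flatMap]
  exact ⟨e, he, List.mem_map.2 ⟨t, ht, rfl⟩⟩

/-- the formula of a pp-system -/
theorem satQ_ppF (Q : QMod D k N) (S : PP D k) (v : ℕ → N) :
    (ppF S).SatQ Q v ↔ v 0 ∈ Q.ppS S := by
  unfold ppF
  rw [satQ_exN, mem_ppS]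
  have h0 : ∀ w : ℕ → N, (Fm.conjL (S.map fun e => .eq (eqTm (ppBd S) e) .zero)).SatQ Q
      (preV (ppBd S) w v) ↔ ∀ e ∈ S, (e.map fun t => Q.act t.1
        (preV (ppBd S) w v (ixv (ppBd S) t.2))).sum = 0 := by
    intro w
    rw [satQ_conjL]
    simp only [List.mem_map, forall_exists_index, and_imp, forall_apply_eq_imp_iff₂]
    refine forall₂_congr (fun e he => ?_)
    have h1 : (Fm.eq (eqTm (ppBd S) e) .zero).SatQ Q (preV (ppBd S) w v) ↔
      (eqTm (ppBd S) e).valQ Q (preV (ppBd S) w v) = 0 := Iff.rfl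
    rw [h1, valQ_eqTm]
  simp only [h0]
  constructor
  · rintro ⟨w, hw⟩
    refine ⟨fun i => preV (ppBd S) w v (ixv (ppBd S) i), ?_, hw⟩
    intro i hi
    have hi0 : i = 0 := by omega
    subst hi0
    simp [ixv, preV]
  · rintro ⟨u, hu0, hu⟩
    refine ⟨fun i => u (i + 1), ?_⟩
    intro e he
    rw [← hu e he]
    congr 1
    refine List.map_congr_left (fun t ht => ?_)
    congr 1
    have hb := LCondA_ppBd S e he t ht
    unfold ixv preV
    by_cases h : t.2 = 0
    · rw [if_pos h, if_neg (lt_irrefl _), Nat.sub_self, h]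
      exact (hu0 0 Nat.zero_lt_one).symm
    · rw [if_neg h, if_pos (by omega)]
      show u (t.2 - 1 + 1) = u t.2
      rw [Nat.sub_add_cancel (by omega)]

theorem satQ_atT (Q : QMod D k N) (t : Tm D k) (S : PP D k) (v : ℕ → N) (y : N)
    (ht : ∀ x, t.valQ Q (consV x v) = y) : (atT t (ppF S)).SatQ Q v ↔ y ∈ Q.ppS S := by
  unfold atT
  rw [satQ_ex]
  have h0 : ∀ x, (Fm.conj (.eq (.var 0) t) (ppF S)).SatQ Q (consV x v) ↔
      x = y ∧ x ∈ Q.ppS S := by
    intro x
    rw [satQ_conj, satQ_ppF]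
    have h1 : (Fm.eq (.var 0) t).SatQ Q (consV x v) ↔ x = t.valQ Q (consV x v) := Iff.rfl
    rw [h1, ht]
    rfl
  simp only [h0]
  constructor
  · rintro ⟨x, rfl, hx⟩
    exact hx
  · intro h
    exact ⟨y, rfl, h⟩

theorem valQ_lcTm (Q : QMod D k N) (a : List k) (v : ℕ → N) (x : N) :
    (lcTm a).valQ Q (consV x v) = (a.zipIdx.map fun t => t.1 • v t.2).sum := by
  unfold lcTm
  generalize a.zipIdx = L
  induction L with
  | nil => rfl
  | cons b L ih =>
    have h1 : (List.foldr (fun t s => Tm.add (.act [(t.1, [])] (.var (t.2 + 1))) s) .zero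
        (b :: L) : Tm D k).valQ Q (consV x v) = (b.1 • v b.2 + 0) +
        (List.foldr (fun t s => Tm.add (.act [(t.1, [])] (.var (t.2 + 1))) s) .zero L :
          Tm D k).valQ Q (consV x v) := rfl
    rw [h1, ih, add_zero, List.map_cons, List.sum_cons]

end sem

end StrAlg
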