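import Pool.Agent.Lib.MP_b9fd58_lc.LCondA
set_option autoImplicit false

/-!
# The formulas of conditions express the conditions
-/

namespace StrAlg

section sem
variable {D : Dat} {k : Type} [Field k] {N : Type} [AddCommGroup N] [Module k N]

omit [Field k] in
theorem LCondB_mem_vecs (ks : List k) (hks : ∀ a : k, a ∈ ks) (n : ℕ) :
    ∀ a : List k, a ∈ vecs ks n ↔ a.length = n := by
  induction n with
  | zero =>
    intro a
    show a ∈ [([] : List k)] ↔ a.length = 0
    simp
  | succ n ih =>
    intro a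
    have h1 : vecs ks (n + 1) = (vecs ks n).flatMap fun v => ks.map fun b => b :: v := rfl
    rw [h1]
    simp only [List.mem_flatMap, List.mem_map]
    constructor
    · rintro ⟨v, hv, b, -, rfl⟩
      rw [List.length_cons, (ih v).1 hv]
    · intro h
      cases a with
      | nil => simp at h
      | cons b v =>
        rw [List.length_cons] at h
        exact ⟨v, (ih v).2 (by omega), b, hks b, rfl⟩

theorem LCondB_zipIdx (w : ℕ → N) (a : List k) : ∀ j : ℕ,
    ((a.zipIdx j).map fun t => t.1 • w t.2).sum =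
      ∑ i ∈ Finset.range a.length, a.getD i 0 • w (j + i) := by
  induction a with
  | nil => intro j; simp
  | cons b a ih =>
    intro j
    rw [List.zipIdx_cons, List.map_cons, List.sum_cons, ih, List.length_cons, Finset.sum_range_succ']
    rw [add_comm]
    congr 1
    refine Finset.sum_congr rfl fun i _ => ?_
    rw [List.getD_cons_succ]
    congr 2
    ring

theorem LCondB_rank_iff [DecidableEq k] (Q : QMod D k N) (φ ψ : PP D k) (n : ℕ) :
    (∃ w : ℕ → N, (∀ i < n, w i ∈ Q.ppS φ) ∧ ∀ a : List k, a.length = n → (∃ x ∈ a, x ≠ 0) →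
      ∑ i ∈ Finset.range n, a.getD i 0 • w i ∉ Q.ppS ψ) ↔ (n : ℕ∞) ≤ Q.rank φ ψ := by
  unfold QMod.rank
  rw [Cardinal.natCast_le_toENat]
  set P := Q.ppS φ with hP
  set K := (Q.ppS ψ).comap P.subtype with hK
  constructor
  · rintro ⟨w, hw, hind⟩
    let f : Fin n → (P ⧸ K) := fun i => K.mkQ ⟨w i, hw i i.isLt⟩
    have hf : LinearIndependent k f := by
      rw [Fintype.linearIndependent_iff]
      intro g hg
      by_contra hne
      push Not at hne
      obtain ⟨i0, hi0⟩ := hne
      have h1 : ∃ x ∈ List.ofFn g, x ≠ 0 := ⟨g i0, by simp, hi0⟩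
      apply hind (List.ofFn g) (by simp) h1
      have h2 : K.mkQ (∑ i, g i • (⟨w i, hw i i.isLt⟩ : P)) = 0 := by
        rw [map_sum]
        simp only [map_smul]
        exact hg
      rw [Submodule.mkQ_apply, Submodule.Quotient.mk_eq_zero, hK, Submodule.mem_comap, map_sum] at h2
      rw [Finset.sum_range]
      have h3 : ∑ i : Fin n, (List.ofFn g).getD i 0 • w i =
          ∑ i : Fin n, P.subtype (g i • (⟨w i, hw i i.isLt⟩ : P)) := by
        refine Finset.sum_congr rfl fun i _ => ?_
        rw [map_smul]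
        have : (List.ofFn g).getD i 0 = g i := by
          rw [List.getD_eq_getElem _ _ (by simp)]
          simp
        rw [this]
        rfl
      rw [h3]
      exact h2
    have := hf.cardinal_le_rank
    rwa [Cardinal.mk_fin] at this
  · intro h
    rw [le_rank_iff_exists_linearIndependent_finset] at h
    obtain ⟨s, hs, hind⟩ := h
    have e : Fin n ≃ s := (Fintype.equivFinOfCardEq (by rw [Fintype.card_coe]; exact hs)).symm
    have hf : LinearIndependent k (fun i : Fin n => (e i : P ⧸ K)) := hind.comp e e.injective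
    choose u hu using fun i : Fin n => K.mkQ_surjective (e i : P ⧸ K)
    refine ⟨fun i => if h : i < n then (u ⟨i, h⟩ : N) else 0, ?_, ?_⟩
    · intro i hi
      simp only [hi, dif_pos]
      exact (u ⟨i, hi⟩).2
    · intro a ha hne hmem
      rw [Fintype.linearIndependent_iff] at hf
      have h1 : ∑ i : Fin n, a.getD i 0 • (e i : P ⧸ K) = 0 := by
        have h2 : ∑ i : Fin n, a.getD i 0 • (e i : P ⧸ K) = K.mkQ (∑ i : Fin n, a.getD i 0 • u i) := by
          rw [map_sum]
          refine Finset.sum_congr rfl fun i _ => ?_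
          rw [map_smul, hu i]
        rw [h2, Submodule.mkQ_apply, Submodule.Quotient.mk_eq_zero, hK, Submodule.mem_comap, map_sum]
        rw [Finset.sum_range] at hmem
        have h3 : ∑ i : Fin n, P.subtype (a.getD i 0 • u i) =
            ∑ i : Fin n, a.getD i 0 • (if h : (i : ℕ) < n then (u ⟨i, h⟩ : N) else 0) := by
          refine Finset.sum_congr rfl fun i _ => ?_
          rw [map_smul]
          simp
        rw [h3]
        exact hmem
      have h4 := hf _ h1
      obtain ⟨x, hx, hx0⟩ := hne
      obtain ⟨i, hi, rfl⟩ := List.getElem_of_mem hx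
      apply hx0
      have h5 := h4 ⟨i, by omega⟩
      have h6 : a.getD i 0 = a[i] := List.getD_eq_getElem _ _ hi
      have h7 : a.getD i 0 = 0 := h5
      rw [← h6, h7]

/-- dimension at least `n` in the quotient: for a finite field, by nontrivial combinations -/
theorem satQ_geF [DecidableEq k] (ks : List k) (hks : ∀ a : k, a ∈ ks) (Q : QMod D k N)
    (φ ψ : PP D k) (n : ℕ) (v : ℕ → N) :
    (geF ks φ ψ n).SatQ Q v ↔ (n : ℕ∞) ≤ Q.rank φ ψ := by
  rw [← LCondB_rank_iff]
  unfold geF
  rw [satQ_exN]
  refine exists_congr fun w => ?_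
  rw [satQ_conj, satQ_conjL, satQ_conjL]
  have hw : ∀ i < n, preV n w v i = w i := by
    intro i hi
    unfold preV
    rw [if_pos hi]
  refine and_congr ?_ ?_
  · constructor
    · intro h i hi
      have h1 := h (atT (.var (i + 1)) (ppF φ)) (by
        rw [List.mem_map]
        exact ⟨i, List.mem_range.2 hi, rfl⟩)
      exact (satQ_atT Q (.var (i + 1)) φ (preV n w v) (w i) (fun x => hw i hi)).1 h1
    · intro h χ hχ
      rw [List.mem_map] at hχ
      obtain ⟨i, hi, rfl⟩ := hχ
      rw [List.mem_range] at hi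
      exact (satQ_atT Q (.var (i + 1)) φ (preV n w v) (w i) (fun x => hw i hi)).2 (h i hi)
  · have hval : ∀ a : List k, a.length = n → ∀ x, (lcTm a).valQ Q (consV x (preV n w v)) =
        ∑ i ∈ Finset.range n, a.getD i 0 • w i := by
      intro a ha x
      rw [valQ_lcTm, LCondB_zipIdx, ha]
      refine Finset.sum_congr rfl fun i hi => ?_
      rw [zero_add, hw i (Finset.mem_range.1 hi)]
    constructor
    · intro h a ha hne
      have h1 := h (.neg (atT (lcTm a) (ppF ψ))) (by
        rw [List.mem_map]
        refine ⟨a, ?_, rfl⟩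
        rw [List.mem_filter]
        refine ⟨(LCondB_mem_vecs ks hks n a).2 ha, ?_⟩
        exact decide_eq_true hne)
      rw [satQ_neg, satQ_atT Q (lcTm a) ψ (preV n w v) _ (hval a ha)] at h1
      exact h1
    · intro h χ hχ
      rw [List.mem_map] at hχ
      obtain ⟨a, ha, rfl⟩ := hχ
      rw [List.mem_filter] at ha
      have ha1 := (LCondB_mem_vecs ks hks n a).1 ha.1
      rw [satQ_neg, satQ_atT Q (lcTm a) ψ (preV n w v) _ (hval a ha1)]
      exact h a ha1 (of_decide_eq_true ha.2)

theorem rank_eq_zero_iff (Q : QMod D k N) (φ ψ : PP D k) :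
    Q.rank φ ψ = 0 ↔ Q.ppS φ ≤ Q.ppS ψ := by
  unfold QMod.rank
  rw [Cardinal.toENat_eq_zero, rank_zero_iff, Submodule.Quotient.subsingleton_iff,
    Submodule.comap_subtype_eq_top]

theorem LCondB_all_imp (Q : QMod D k N) (φ ψ : PP D k) (v : ℕ → N) :
    (Fm.all (.imp (ppF φ) (ppF ψ))).SatQ Q v ↔ Q.rank φ ψ = 0 := by
  rw [rank_eq_zero_iff]
  show (∀ x : N, (ppF φ).SatQ Q (consV x v) → (ppF ψ).SatQ Q (consV x v)) ↔ _
  constructor
  · intro h x hx
    have h1 := h x
    rw [satQ_ppF, satQ_ppF] at h1
    exact h1 hx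
  · intro h x
    rw [satQ_ppF, satQ_ppF]
    exact fun hx => h hx

/-- the formula of a condition expresses the condition -/
theorem satQ_condF [DecidableEq k] (ks : List k) (t : Cond D k)
    (ht : (∀ a : k, a ∈ ks) ∨ t.2 = (0, true) ∨ t.2 = (1, false)) (Q : QMod D k N) (v : ℕ → N) :
    (condF ks t).SatQ Q v ↔ t.Holds Q := by
  unfold condF Cond.Holds
  by_cases h1 : t.2 = (0, true)
  · rw [if_pos h1, LCondB_all_imp, h1]
    simp
  · rw [if_neg h1]
    by_cases h2 : t.2 = (1, false)
    · rw [if_pos h2, satQ_neg, LCondB_all_imp, h2]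
      simp [Order.one_le_iff_ne_zero]
    · rw [if_neg h2]
      have hks : ∀ a : k, a ∈ ks := by
        rcases ht with h | h | h
        · exact h
        · exact absurd h h1
        · exact absurd h h2
      by_cases h3 : t.2.2 = true
      · rw [if_pos h3, if_pos h3, satQ_conj, satQ_neg, satQ_geF ks hks, satQ_geF ks hks]
        rw [Nat.cast_add, Nat.cast_one, not_le]
        constructor
        · rintro ⟨h4, h5⟩
          exact le_antisymm (Order.le_of_lt_add_one h5) h4
        · intro h4
          rw [h4]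
          refine ⟨le_rfl, ?_⟩
          exact_mod_cast Nat.lt_succ_self t.2.1
      · rw [if_neg h3, if_neg h3, satQ_geF ks hks]

theorem satQ_condImp [DecidableEq k] (ks : List k) (L : List (Cond D k))
    (hL : ∀ t ∈ L, (∀ a : k, a ∈ ks) ∨ t.2 = (0, true) ∨ t.2 = (1, false)) (φ : Fm D k)
    (Q : QMod D k N) (v : ℕ → N) :
    (condImp ks L φ).SatQ Q v ↔ ((∀ t ∈ L, t.Holds Q) → φ.SatQ Q v) := by
  unfold condImp
  induction L with
  | nil => simp
  | cons t L ih =>
    rw [List.foldr_cons]
    show ((condF ks t).SatQ Q v → _) ↔ _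
    rw [satQ_condF ks t (hL t (by simp)) Q v, ih (fun t' ht' => hL t' (by simp [ht']))]
    constructor
    · intro h h'
      exact h (h' t (by simp)) (fun t' ht' => h' t' (by simp [ht']))
    · intro h h1 h2
      apply h
      intro t' ht'
      rcases List.mem_cons.1 ht' with rfl | h3
      · exact h1
      · exact h2 t' h3

omit [Field k] in
theorem LCondB_tm_mono (t : Tm D k) {n m : ℕ} (h : n ≤ m) (ht : t.Below n) : t.Below m := by
  induction t with
  | var i => exact lt_of_lt_of_le ht h
  | zero => exact trivial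
  | add s t ihs iht => exact ⟨ihs ht.1, iht ht.2⟩
  | act c t ih => exact ih ht

omit [Field k] in
theorem LCondB_fm_mono (φ : Fm D k) : ∀ {n m : ℕ}, n ≤ m → φ.Below n → φ.Below m := by
  induction φ with
  | eq s t => intro n m h ht; exact ⟨LCondB_tm_mono s h ht.1, LCondB_tm_mono t h ht.2⟩
  | fls => intro n m _ _; exact trivial
  | imp φ ψ ih1 ih2 => intro n m h ht; exact ⟨ih1 h ht.1, ih2 h ht.2⟩
  | all φ ih => intro n m h ht; exact ih (Nat.add_le_add_right h 1) ht

theorem LCondB_neg_below {φ : Fm D k} {n : ℕ} (h : φ.Below n) : (Fm.neg φ).Below n := ⟨h, trivial⟩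

theorem LCondB_conj_below {φ ψ : Fm D k} {n : ℕ} (h : φ.Below n) (h' : ψ.Below n) :
    (Fm.conj φ ψ).Below n := ⟨⟨h, h', trivial⟩, trivial⟩

theorem LCondB_ex_below {φ : Fm D k} {n : ℕ} (h : φ.Below (n + 1)) : (Fm.ex φ).Below n :=
  ⟨⟨h, trivial⟩, trivial⟩

theorem LCondB_conjL_below {l : List (Fm D k)} {n : ℕ} (h : ∀ φ ∈ l, φ.Below n) :
    (Fm.conjL l).Below n := by
  unfold Fm.conjL
  induction l with
  | nil => exact ⟨trivial, trivial⟩
  | cons φ l ih =>
    rw [List.foldr_cons]
    exact LCondB_conj_below (h φ (by simp)) (ih fun ψ hψ => h ψ (by simp [hψ]))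

theorem LCondB_exN_below (φ : Fm D k) (m : ℕ) : ∀ n, φ.Below (n + m) → (Fm.exN m φ).Below n := by
  induction m with
  | zero => intro n h; exact h
  | succ m ih =>
    intro n h
    apply LCondB_ex_below
    apply ih
    rw [show n + 1 + m = n + (m + 1) by ring]
    exact h

theorem LCondB_eqTm_below (m : ℕ) (e : List (ElCode D k × ℕ)) (h : ∀ t ∈ e, t.2 ≤ m) :
    (eqTm m e).Below (1 + m) := by
  unfold eqTm
  induction e with
  | nil => exact trivial
  | cons t e ih =>
    rw [List.foldr_cons]
    refine ⟨?_, ih fun t' ht' => h t' (by simp [ht'])⟩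
    show ixv m t.2 < 1 + m
    have := h t (by simp)
    unfold ixv
    split_ifs <;> omega

theorem LCondB_foldr_max (l : List ℕ) (x : ℕ) (hx : x ∈ l) : x ≤ l.foldr max 1 := by
  induction l with
  | nil => simp at hx
  | cons y l ih =>
    rw [List.foldr_cons]
    rcases List.mem_cons.1 hx with rfl | h
    · exact le_max_left _ _
    · exact le_trans (ih h) (le_max_right _ _)

theorem LCondB_ppF_below (S : PP D k) : (ppF S).Below 1 := by
  unfold ppF
  apply LCondB_exN_below
  apply LCondB_conjL_below
  intro φ hφ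
  rw [List.mem_map] at hφ
  obtain ⟨e, he, rfl⟩ := hφ
  refine ⟨LCondB_eqTm_below _ e fun t ht => ?_, trivial⟩
  have h1 : t.2 + 1 ≤ ppBd S := by
    unfold ppBd
    apply LCondB_foldr_max
    rw [List.mem_flatMap]
    exact ⟨e, he, List.mem_map.2 ⟨t, ht, rfl⟩⟩
  omega

theorem LCondB_atT_below {t : Tm D k} {S : PP D k} {n : ℕ} (h : t.Below (n + 1)) :
    (atT t (ppF S)).Below n := by
  unfold atT
  apply LCondB_ex_below
  exact LCondB_conj_below ⟨Nat.succ_pos n, h⟩ (LCondB_fm_mono _ (by omega) (LCondB_ppF_below S))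

theorem LCondB_lcTm_below (a : List k) : ∀ (j n : ℕ), j + a.length ≤ n →
    (((a.zipIdx j).foldr (fun t s => Tm.add (.act [(t.1, [])] (.var (t.2 + 1))) s) .zero : Tm D k)).Below (n + 1) := by
  induction a with
  | nil => intro j n _; exact trivial
  | cons b a ih =>
    intro j n h
    rw [List.length_cons] at h
    rw [List.zipIdx_cons, List.foldr_cons]
    refine ⟨?_, ih (j + 1) n (by omega)⟩
    show j + 1 < n + 1
    omega

omit [Field k] in
theorem LCondB_vecs_length (ks : List k) (n : ℕ) : ∀ a ∈ vecs ks n, a.length = n := by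
  induction n with
  | zero =>
    intro a ha
    have ha' : a ∈ [([] : List k)] := ha
    rw [List.mem_singleton] at ha'
    rw [ha']
    rfl
  | succ n ih =>
    intro a ha
    have h1 : vecs ks (n + 1) = (vecs ks n).flatMap fun v => ks.map fun b => b :: v := rfl
    rw [h1] at ha
    simp only [List.mem_flatMap, List.mem_map] at ha
    obtain ⟨v, hv, b, -, rfl⟩ := ha
    rw [List.length_cons, ih v hv]

theorem LCondB_geF_below [DecidableEq k] (ks : List k) (φ ψ : PP D k) (n : ℕ) :
    (geF ks φ ψ n).Below 0 := by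
  unfold geF
  apply LCondB_exN_below
  rw [zero_add]
  apply LCondB_conj_below
  · apply LCondB_conjL_below
    intro χ hχ
    rw [List.mem_map] at hχ
    obtain ⟨i, hi, rfl⟩ := hχ
    rw [List.mem_range] at hi
    apply LCondB_atT_below
    show i + 1 < n + 1
    omega
  · apply LCondB_conjL_below
    intro χ hχ
    rw [List.mem_map] at hχ
    obtain ⟨a, ha, rfl⟩ := hχ
    rw [List.mem_filter] at ha
    apply LCondB_neg_below
    apply LCondB_atT_below
    have h1 := LCondB_vecs_length ks n a ha.1
    exact LCondB_lcTm_below a 0 n (by omega)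

/-- the formulas of conditions are sentences -/
theorem condF_sentence [DecidableEq k] (ks : List k) (t : Cond D k) : (condF ks t).IsSentence := by
  have h1 : (Fm.all (.imp (ppF t.1.1) (ppF t.1.2))).Below 0 :=
    ⟨LCondB_ppF_below _, LCondB_ppF_below _⟩
  unfold condF Fm.IsSentence
  split_ifs
  · exact h1
  · exact LCondB_neg_below h1
  · exact LCondB_conj_below (LCondB_geF_below ks _ _ _) (LCondB_neg_below (LCondB_geF_below ks _ _ _))
  · exact LCondB_geF_below ks _ _ _

theorem condImp_sentence [DecidableEq k] (ks : List k) (L : List (Cond D k)) (φ : Fm D k)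
    (hφ : φ.IsSentence) : (condImp ks L φ).IsSentence := by
  unfold condImp
  induction L with
  | nil => exact hφ
  | cons t L ih =>
    rw [List.foldr_cons]
    exact ⟨condF_sentence ks t, ih⟩

end sem

end StrAlg
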