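import Pool.Agent.Lib.MP_b9fd58_lc.LCoverA
set_option autoImplicit false

/-!
# Coverings over a finite field; the main theorem on coverings
-/

namespace StrAlg.Cover

variable {k : Type} [Field k]

/-- the number of elements of a set as a sum of indicators -/
theorem LCover_count {V : Type} [Fintype V] (S : Set V) :
    ∑ v, S.indicator (fun _ => (1 : ℚ)) v = (S.ncard : ℚ) := by
  classical
  have h1 : ∑ v, S.indicator (fun _ => (1 : ℚ)) v = ∑ v, if v ∈ S then (1 : ℚ) else 0 := by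
    apply Finset.sum_congr rfl
    intro v _
    rw [Set.indicator_apply]
  rw [h1, Finset.sum_boole, Set.ncard_eq_toFinset_card' S]
  congr 2
  ext v
  simp

/-- inclusion-exclusion for sets in a finite type -/
theorem LCover_ie {ι V : Type} [Fintype V] (I : Finset ι) (U : ι → Set V) :
    ((⋃ i ∈ I, U i).ncard : ℚ) = ∑ J ∈ I.powerset.filter (fun J => J.Nonempty),
      (-1 : ℚ) ^ (J.card + 1) * ((⋂ i ∈ J, U i).ncard : ℚ) := by
  rw [← LCover_count]
  have h1 : ∀ v : V, (⋃ i ∈ I, U i).indicator (fun _ => (1 : ℚ)) v =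
      ∑ J ∈ I.powerset.filter (fun J => J.Nonempty), (-1 : ℤ) ^ (J.card + 1) •
        (⋂ i ∈ J, U i).indicator (fun _ => (1 : ℚ)) v := fun v =>
    Finset.indicator_biUnion_eq_sum_powerset I U (fun _ => (1 : ℚ)) v
  simp_rw [h1]
  rw [Finset.sum_comm]
  apply Finset.sum_congr rfl
  intro J _
  rw [← LCover_count, Finset.mul_sum]
  apply Finset.sum_congr rfl
  intro v _
  rw [zsmul_eq_mul]
  push_cast
  rfl

section
variable {r : ℕ} {W : Type} [AddCommGroup W] [Module k W]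

theorem LCover_mem (p : Pat k r W) {i : Fin r} {x y : W} (hx : x ∈ p.E i) :
    y ∈ p.E i ↔ y - x ∈ p.T i := by
  rcases p.hE i with h | ⟨z, h⟩
  · rw [h] at hx
    exact absurd hx (Set.notMem_empty _)
  · rw [h] at hx ⊢
    have hx' : x - z ∈ p.T i := hx
    show y - z ∈ p.T i ↔ y - x ∈ p.T i
    constructor
    · intro h1
      have h2 := (p.T i).sub_mem h1 hx'
      have e : y - z - (x - z) = y - x := by abel
      rwa [e] at h2
    · intro h1
      have h2 := (p.T i).add_mem h1 hx'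
      have e : y - x + (x - z) = y - z := by abel
      rwa [e] at h2

/-- the number of elements of the image of an intersection in the finite quotient -/
theorem LCover_card [Finite k] (p : Pat k r W) (I J : Finset (Fin r)) (hJI : J ⊆ I)
    (hJ : J.Nonempty) [Finite (W ⧸ (⨅ i ∈ I, p.T i))] :
    ((⋂ i ∈ J, ((⨅ i ∈ I, p.T i).mkQ '' p.E i : Set (W ⧸ (⨅ i ∈ I, p.T i)))).ncard : ℚ) =
      (Nat.card (W ⧸ (⨅ i ∈ I, p.T i)) : ℚ) *
        (open Classical in if (p.inter J).Nonempty then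
          ((Nat.card k : ℚ) ^ (p.cd J).toNat)⁻¹ else 0) := by
  classical
  obtain ⟨D, hD⟩ : ∃ D : Submodule k W, D = ⨅ i ∈ I, p.T i := ⟨_, rfl⟩
  have hDT : ∀ i ∈ I, D ≤ p.T i := by
    intro i hi
    rw [hD]
    exact iInf₂_le i hi
  rename_i hfin
  rw [← hD] at hfin ⊢
  obtain ⟨T, hT⟩ : ∃ T : Submodule k W, T = ⨅ i ∈ J, p.T i := ⟨_, rfl⟩
  have hDTJ : D ≤ T := by
    rw [hT]
    exact le_iInf₂ fun i hi => hDT i (hJI hi)
  -- the intersection of the images
  have hmem : ∀ i ∈ J, ∀ x : W, D.mkQ x ∈ D.mkQ '' p.E i ↔ x ∈ p.E i := by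
    intro i hi x
    constructor
    · rintro ⟨y, hy, hxy⟩
      rw [LCover_mem p hy]
      apply hDT i (hJI hi)
      rw [Submodule.mkQ_apply, Submodule.mkQ_apply, Submodule.Quotient.eq] at hxy
      have h2 := D.neg_mem hxy
      rwa [neg_sub] at h2
    · intro hx
      exact ⟨x, hx, rfl⟩
  by_cases hne : (p.inter J).Nonempty
  · rw [if_pos hne]
    obtain ⟨x0, hx0⟩ := hne
    have hx0' : ∀ i ∈ J, x0 ∈ p.E i := by
      unfold Pat.inter at hx0
      simpa using hx0
    have hset : (⋂ i ∈ J, (D.mkQ '' p.E i : Set (W ⧸ D))) =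
        (fun v => v + D.mkQ x0) '' ((T.map D.mkQ : Submodule k (W ⧸ D)) : Set (W ⧸ D)) := by
      ext v
      obtain ⟨x, rfl⟩ := Submodule.Quotient.mk_surjective _ v
      rw [← Submodule.mkQ_apply]
      simp only [Set.mem_iInter]
      constructor
      · intro h
        have h1 : x - x0 ∈ T := by
          rw [hT]
          simp only [Submodule.mem_iInf]
          intro i hi
          rw [← LCover_mem p (hx0' i hi)]
          exact (hmem i hi x).1 (h i hi)
        refine ⟨D.mkQ (x - x0), ⟨x - x0, h1, rfl⟩, ?_⟩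
        show D.mkQ (x - x0) + D.mkQ x0 = D.mkQ x
        rw [map_sub, sub_add_cancel]
      · rintro ⟨w, ⟨t, ht, rfl⟩, hw⟩ i hi
        have hw' : D.mkQ t + D.mkQ x0 = D.mkQ x := hw
        rw [← hw', ← map_add, hmem i hi, LCover_mem p (hx0' i hi), add_sub_cancel_right]
        have ht' : t ∈ T := ht
        rw [hT] at ht'
        simp only [Submodule.mem_iInf] at ht'
        exact ht' i hi
    rw [hset, Set.ncard_image_of_injective _ (add_left_injective _)]
    -- cardinalities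
    have hTfin : Finite (W ⧸ T) := by
      apply Finite.of_surjective (Submodule.mapQ D T LinearMap.id (by simpa using hDTJ))
      intro z
      obtain ⟨x, rfl⟩ := Submodule.Quotient.mk_surjective _ z
      exact ⟨Submodule.Quotient.mk x, rfl⟩
    have hc1 : Nat.card (W ⧸ T) = Nat.card k ^ (p.cd J).toNat := by
      have h1 : Module.Finite k (W ⧸ T) := Module.Finite.of_finite
      have h2 := Module.natCard_eq_pow_finrank (K := k) (V := W ⧸ T)
      rw [h2]
      congr 1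
      have h3 : p.cd J = Cardinal.toENat (Module.rank k (W ⧸ T)) := by
        rw [hT]
        rfl
      rw [h3, ← Module.finrank_eq_rank, map_natCast, ENat.toNat_coe]
    have hc2 : Nat.card (W ⧸ D) =
        Nat.card ((W ⧸ D) ⧸ T.map D.mkQ) * Nat.card (T.map D.mkQ : Submodule k (W ⧸ D)) := by
      have h1 := Submodule.card_eq_card_quotient_mul_card (T.map D.mkQ : Submodule k (W ⧸ D))
      rw [h1, mul_comm]
    have hc3 : Nat.card ((W ⧸ D) ⧸ T.map D.mkQ) = Nat.card (W ⧸ T) :=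
      Nat.card_congr (Submodule.quotientQuotientEquivQuotient D T hDTJ).toEquiv
    have hc4 : (((T.map D.mkQ : Submodule k (W ⧸ D)) : Set (W ⧸ D)).ncard) =
        Nat.card (T.map D.mkQ : Submodule k (W ⧸ D)) := rfl
    rw [hc4, hc2, hc3, hc1]
    have hq : (0 : ℚ) < (Nat.card k : ℚ) ^ (p.cd J).toNat := by
      have : 0 < Nat.card k := Nat.card_pos
      positivity
    push_cast
    field_simp
  · rw [if_neg hne, mul_zero]
    have hset : (⋂ i ∈ J, (D.mkQ '' p.E i : Set (W ⧸ D))) = ∅ := by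
      rw [Set.eq_empty_iff_forall_notMem]
      intro v hv
      obtain ⟨x, rfl⟩ := Submodule.Quotient.mk_surjective _ v
      rw [← Submodule.mkQ_apply] at hv
      simp only [Set.mem_iInter] at hv
      apply hne
      refine ⟨x, ?_⟩
      unfold Pat.inter
      simp only [Set.mem_iInter]
      exact fun i hi => (hmem i hi x).1 (hv i hi)
    rw [hset, Set.ncard_empty, Nat.cast_zero]

end

/-- inclusion-exclusion: if `⨅_{i ∈ I} T i` has finite codimension then the covering by the `E i`, `i ∈ I`, is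
equivalent to a numerical identity -/
theorem covers_iff_sum [Finite k] {r : ℕ} {W : Type} [AddCommGroup W] [Module k W]
    (p : Pat k r W) (I : Finset (Fin r)) (hI : p.cd I ≠ ⊤) :
    (∀ x, ∃ i ∈ I, x ∈ p.E i) ↔
      ∑ J ∈ I.powerset.filter (fun J => J.Nonempty), (-1 : ℚ) ^ (J.card + 1) *
        (open Classical in if (p.inter J).Nonempty then ((Nat.card k : ℚ) ^ (p.cd J).toNat)⁻¹ else 0) = 1 := by
  classical
  have hmod : Module.Finite k (W ⧸ (⨅ i ∈ I, p.T i)) := by
    rw [← Module.rank_lt_aleph0_iff]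
    unfold Pat.cd at hI
    rw [Ne, Cardinal.toENat_eq_top, not_le] at hI
    exact hI
  have hfin : Finite (W ⧸ (⨅ i ∈ I, p.T i)) := Module.finite_of_finite k
  have hft : Fintype (W ⧸ (⨅ i ∈ I, p.T i)) := Fintype.ofFinite _
  have hie := LCover_ie I (fun i => ((⨅ i ∈ I, p.T i).mkQ '' p.E i : Set (W ⧸ (⨅ i ∈ I, p.T i))))
  have hsum : ∑ J ∈ I.powerset.filter (fun J => J.Nonempty), (-1 : ℚ) ^ (J.card + 1) *
      ((⋂ i ∈ J, ((⨅ i ∈ I, p.T i).mkQ '' p.E i : Set (W ⧸ (⨅ i ∈ I, p.T i)))).ncard : ℚ) =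
      (Nat.card (W ⧸ (⨅ i ∈ I, p.T i)) : ℚ) *
      ∑ J ∈ I.powerset.filter (fun J => J.Nonempty), (-1 : ℚ) ^ (J.card + 1) *
        (if (p.inter J).Nonempty then ((Nat.card k : ℚ) ^ (p.cd J).toNat)⁻¹ else 0) := by
    rw [Finset.mul_sum]
    apply Finset.sum_congr rfl
    intro J hJ
    rw [Finset.mem_filter, Finset.mem_powerset] at hJ
    rw [LCover_card p I J hJ.1 hJ.2]
    ring
  rw [hsum] at hie
  have hpos : (0 : ℚ) < (Nat.card (W ⧸ (⨅ i ∈ I, p.T i)) : ℚ) := by
    have : 0 < Nat.card (W ⧸ (⨅ i ∈ I, p.T i)) := Nat.card_pos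
    exact_mod_cast this
  have hcov : (∀ x, ∃ i ∈ I, x ∈ p.E i) ↔
      (⋃ i ∈ I, ((⨅ i ∈ I, p.T i).mkQ '' p.E i : Set (W ⧸ (⨅ i ∈ I, p.T i)))).ncard =
        Nat.card (W ⧸ (⨅ i ∈ I, p.T i)) := by
    constructor
    · intro h
      have h1 : (⋃ i ∈ I, ((⨅ i ∈ I, p.T i).mkQ '' p.E i : Set (W ⧸ (⨅ i ∈ I, p.T i)))) =
          Set.univ := by
        rw [Set.eq_univ_iff_forall]
        intro v
        obtain ⟨x, rfl⟩ := Submodule.Quotient.mk_surjective _ v
        obtain ⟨i, hi, hx⟩ := h x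
        simp only [Set.mem_iUnion]
        exact ⟨i, hi, x, hx, rfl⟩
      rw [h1, Set.ncard_univ]
    · intro h x
      have h1 : (⋃ i ∈ I, ((⨅ i ∈ I, p.T i).mkQ '' p.E i : Set (W ⧸ (⨅ i ∈ I, p.T i)))) =
          Set.univ := by
        apply Set.eq_of_subset_of_ncard_le (Set.subset_univ _)
        rw [Set.ncard_univ, h]
      have h2 : (⨅ i ∈ I, p.T i).mkQ x ∈
          (⋃ i ∈ I, ((⨅ i ∈ I, p.T i).mkQ '' p.E i : Set (W ⧸ (⨅ i ∈ I, p.T i)))) := by
        rw [h1]
        trivial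
      simp only [Set.mem_iUnion] at h2
      obtain ⟨i, hi, y, hy, hxy⟩ := h2
      refine ⟨i, hi, ?_⟩
      rw [LCover_mem p hy]
      have h3 : (⨅ i ∈ I, p.T i) ≤ p.T i := iInf₂_le i hi
      apply h3
      rw [Submodule.mkQ_apply, Submodule.mkQ_apply, Submodule.Quotient.eq] at hxy
      have h4 := (⨅ i ∈ I, p.T i).neg_mem hxy
      rwa [neg_sub] at h4
  rw [hcov]
  constructor
  · intro h
    rw [h] at hie
    have h1 : (Nat.card (W ⧸ (⨅ i ∈ I, p.T i)) : ℚ) * 1 =
        (Nat.card (W ⧸ (⨅ i ∈ I, p.T i)) : ℚ) *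
      ∑ J ∈ I.powerset.filter (fun J => J.Nonempty), (-1 : ℚ) ^ (J.card + 1) *
        (if (p.inter J).Nonempty then ((Nat.card k : ℚ) ^ (p.cd J).toNat)⁻¹ else 0) := by
      rw [mul_one]
      exact hie
    exact (mul_left_cancel₀ hpos.ne' h1).symm
  · intro h
    rw [h, mul_one] at hie
    exact_mod_cast hie

theorem cover_fin [Finite k] (r : ℕ) : ∃ m : ℕ, ∀ {W W' : Type} [AddCommGroup W] [Module k W]
    [AddCommGroup W'] [Module k W'] (p : Pat k r W) (p' : Pat k r W'), Same m p p' →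
    (p.Covers ↔ p'.Covers) := by
  classical
  refine ⟨r * thr r r + thr r r + 1, ?_⟩
  intro W W' _ _ _ _ p p' hs
  have hmin : ∀ a b : ℕ∞, ∀ m t : ℕ, t < m → min (m : ℕ∞) a = min (m : ℕ∞) b →
      a ≤ (t : ℕ∞) → a = b := by
    intro a b m t htm h1 h2
    have h3 : a < (m : ℕ∞) := lt_of_le_of_lt h2 (by exact_mod_cast htm)
    rw [min_eq_right h3.le] at h1
    rcases min_choice (m : ℕ∞) b with h4 | h4
    · rw [h4] at h1
      exact absurd h1 h3.ne
    · rw [h4] at h1
      exact h1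
  -- small sets
  have hsmall : ∀ i, p.cd {i} ≤ (thr r r : ℕ∞) ↔ p'.cd {i} ≤ (thr r r : ℕ∞) := by
    intro i
    constructor
    · intro h
      rw [← hmin _ _ _ (thr r r) (by omega) (hs.2 {i}) h]
      exact h
    · intro h
      rw [← hmin _ _ _ (thr r r) (by omega) (hs.2 {i}).symm h]
      exact h
  set I : Finset (Fin r) := Finset.univ.filter fun i => p.cd {i} ≤ (thr r r : ℕ∞) with hI
  have hcov : p.Covers ↔ ∀ x, ∃ i ∈ I, x ∈ p.E i := by
    constructor
    · intro h x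
      obtain ⟨i, h1, h2⟩ := small_cover p h x
      exact ⟨i, Finset.mem_filter.2 ⟨Finset.mem_univ i, h2⟩, h1⟩
    · intro h x
      obtain ⟨i, _, h2⟩ := h x
      exact ⟨i, h2⟩
  have hcov' : p'.Covers ↔ ∀ x, ∃ i ∈ I, x ∈ p'.E i := by
    constructor
    · intro h x
      obtain ⟨i, h1, h2⟩ := small_cover p' h x
      exact ⟨i, Finset.mem_filter.2 ⟨Finset.mem_univ i, (hsmall i).2 h2⟩, h1⟩
    · intro h x
      obtain ⟨i, _, h2⟩ := h x
      exact ⟨i, h2⟩
  have hcdle : ∀ J ⊆ I, p.cd J ≤ ((r * thr r r : ℕ) : ℕ∞) := by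
    intro J hJ
    refine (cd_le_sum p J).trans ?_
    calc ∑ i ∈ J, p.cd {i} ≤ ∑ _i ∈ J, ((thr r r : ℕ) : ℕ∞) :=
          Finset.sum_le_sum fun i hi => (Finset.mem_filter.1 (hJ hi)).2
      _ = ((J.card * thr r r : ℕ) : ℕ∞) := by
          rw [Finset.sum_const, nsmul_eq_mul]
          push_cast
          rfl
      _ ≤ ((r * thr r r : ℕ) : ℕ∞) := by
          have h2 : J.card ≤ r := (Finset.card_le_univ _).trans (by simp)
          exact_mod_cast Nat.mul_le_mul_right _ h2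
  have hcdeq : ∀ J ⊆ I, p.cd J = p'.cd J := fun J hJ =>
    hmin _ _ _ (r * thr r r) (by omega) (hs.2 J) (hcdle J hJ)
  have hItop : p.cd I ≠ ⊤ := by
    have h1 := hcdle I (Finset.Subset.refl _)
    intro h2
    rw [h2, top_le_iff] at h1
    exact absurd h1 (ENat.coe_ne_top _)
  have hItop' : p'.cd I ≠ ⊤ := by
    rw [← hcdeq I (Finset.Subset.refl _)]
    exact hItop
  rw [hcov, hcov', covers_iff_sum p I hItop, covers_iff_sum p' I hItop']
  have hsum : ∑ J ∈ I.powerset.filter (fun J => J.Nonempty), (-1 : ℚ) ^ (J.card + 1) *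
        (if (p.inter J).Nonempty then ((Nat.card k : ℚ) ^ (p.cd J).toNat)⁻¹ else 0) =
      ∑ J ∈ I.powerset.filter (fun J => J.Nonempty), (-1 : ℚ) ^ (J.card + 1) *
        (if (p'.inter J).Nonempty then ((Nat.card k : ℚ) ^ (p'.cd J).toNat)⁻¹ else 0) := by
    apply Finset.sum_congr rfl
    intro J hJ
    rw [Finset.mem_filter, Finset.mem_powerset] at hJ
    rw [hcdeq J hJ.1]
    by_cases h1 : (p.inter J).Nonempty
    · rw [if_pos h1, if_pos ((hs.1 J).1 h1)]
    · rw [if_neg h1, if_neg (fun h2 => h1 ((hs.1 J).2 h2))]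
  rw [hsum]

/-- **Main theorem.** -/
theorem cover_main (k : Type) [Field k] (r : ℕ) : ∃ m : ℕ, (Finite k ∨ m = 1) ∧
    ∀ {W W' : Type} [AddCommGroup W] [Module k W] [AddCommGroup W'] [Module k W']
      (p : Pat k r W) (p' : Pat k r W'), Same m p p' → (p.Covers ↔ p'.Covers) := by
  rcases finite_or_infinite k with h | h
  · obtain ⟨m, hm⟩ := cover_fin (k := k) r
    exact ⟨m, Or.inl h, hm⟩
  · exact ⟨1, Or.inr rfl, fun p p' hs => cover_inf r p p' hs⟩

end StrAlg.Cover
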