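import Mathlib
set_option autoImplicit false

/-!
# Coverings of a vector space by finitely many affine subspaces

A pattern: a vector space `W`, subspaces `T i` and sets `E i` (`i : Fin r`), each `E i` empty or a coset of `T i`.
Whether the sets `E i` cover `W` depends only on: which intersections of the `E i` are nonempty, and
the numbers `min m (dim W / ⨅_{i ∈ J} T i)` for some `m` depending only on `k` and `r` (`m = 1` if `k` is infinite).
-/

namespace StrAlg.Cover

variable {k : Type} [Field k]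

/-- a pattern of `r` affine subspaces (or empty sets) -/
structure Pat (k : Type) [Field k] (r : ℕ) (W : Type) [AddCommGroup W] [Module k W] where
  T : Fin r → Submodule k W
  E : Fin r → Set W
  hE : ∀ i, E i = ∅ ∨ ∃ y, E i = {x | x - y ∈ T i}

/-- the codimension of the intersection of some of the subspaces -/
noncomputable def Pat.cd {r : ℕ} {W : Type} [AddCommGroup W] [Module k W] (p : Pat k r W)
    (J : Finset (Fin r)) : ℕ∞ :=
  Cardinal.toENat (Module.rank k (W ⧸ (⨅ i ∈ J, p.T i)))

/-- the intersection of some of the sets -/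
def Pat.inter {r : ℕ} {W : Type} [AddCommGroup W] [Module k W] (p : Pat k r W)
    (J : Finset (Fin r)) : Set W := ⋂ i ∈ J, p.E i

/-- two patterns have the same data up to the truncation `m` -/
def Same {r : ℕ} (m : ℕ) {W W' : Type} [AddCommGroup W] [Module k W] [AddCommGroup W']
    [Module k W'] (p : Pat k r W) (p' : Pat k r W') : Prop :=
  (∀ J : Finset (Fin r), (p.inter J).Nonempty ↔ (p'.inter J).Nonempty) ∧
  (∀ J : Finset (Fin r), min (m : ℕ∞) (p.cd J) = min (m : ℕ∞) (p'.cd J))

/-- the sets cover the space -/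
def Pat.Covers {r : ℕ} {W : Type} [AddCommGroup W] [Module k W] (p : Pat k r W) : Prop :=
  ∀ x, ∃ i, x ∈ p.E i

/-- the codimension of an intersection of two subspaces -/
theorem LCoverA_rank_inf {W : Type} [AddCommGroup W] [Module k W] (A B : Submodule k W) :
    Module.rank k (W ⧸ (A ⊓ B)) ≤ Module.rank k (W ⧸ A) + Module.rank k (W ⧸ B) := by
  rw [← rank_prod']
  have hk : LinearMap.ker (A.mkQ.prod B.mkQ) = A ⊓ B := by
    rw [LinearMap.ker_prod, Submodule.ker_mkQ, Submodule.ker_mkQ]
  refine LinearMap.rank_le_of_injective ((A ⊓ B).liftQ (A.mkQ.prod B.mkQ) hk.ge) ?_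
  rw [← LinearMap.ker_eq_bot]
  exact Submodule.ker_liftQ_eq_bot' _ _ hk.symm

/-- codimensions and a subspace: `dim W/T ≤ dim W/S + dim S/(S ⊓ T)` -/
theorem LCoverA_rank_sub {W : Type} [AddCommGroup W] [Module k W] (S T : Submodule k W) :
    Module.rank k (W ⧸ T) ≤ Module.rank k (W ⧸ S) + Module.rank k (S ⧸ T.comap S.subtype) := by
  obtain ⟨N, hN⟩ : ∃ N : Submodule k (W ⧸ T), N = S.map T.mkQ := ⟨_, rfl⟩
  rw [← Submodule.rank_quotient_add_rank N]
  apply add_le_add
  · have hle : S ≤ N.comap T.mkQ := by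
      rw [hN]
      exact Submodule.le_comap_map _ _
    refine LinearMap.rank_le_of_surjective (Submodule.mapQ S N T.mkQ hle) ?_
    intro z
    obtain ⟨y, rfl⟩ := Submodule.Quotient.mk_surjective _ z
    obtain ⟨x, rfl⟩ := Submodule.Quotient.mk_surjective _ y
    exact ⟨Submodule.Quotient.mk x, rfl⟩
  · have hmem : ∀ s : S, T.mkQ (S.subtype s) ∈ N := by
      intro s
      rw [hN]
      exact ⟨s, s.2, rfl⟩
    let f : S →ₗ[k] N := LinearMap.codRestrict N (T.mkQ.comp S.subtype) hmem
    have hker : T.comap S.subtype ≤ LinearMap.ker f := by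
      intro s hs
      rw [LinearMap.mem_ker]
      apply Subtype.ext
      show T.mkQ (S.subtype s) = 0
      rw [Submodule.mkQ_apply, Submodule.Quotient.mk_eq_zero]
      exact hs
    refine LinearMap.rank_le_of_surjective ((T.comap S.subtype).liftQ f hker) ?_
    rintro ⟨z, hz⟩
    rw [hN] at hz
    obtain ⟨s, hs, rfl⟩ := hz
    exact ⟨Submodule.Quotient.mk ⟨s, hs⟩, rfl⟩

open scoped Pointwise in
/-- Neumann's lemma for patterns -/
theorem LCoverA_neumann {r : ℕ} {W : Type} [AddCommGroup W] [Module k W]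
    (p : Pat k r W) (h : p.Covers) :
    ∃ i, (p.E i).Nonempty ∧ (p.T i).toAddSubgroup.FiniteIndex ∧
      (p.T i).toAddSubgroup.index ≤ r := by
  classical
  have hy : ∀ i, ∃ y, (p.E i).Nonempty → p.E i = {x | x - y ∈ p.T i} := by
    intro i
    rcases p.hE i with h1 | ⟨y, h1⟩
    · exact ⟨0, fun h2 => absurd h1 h2.ne_empty⟩
    · exact ⟨y, fun _ => h1⟩
  choose y hy using hy
  have hc : ⋃ i ∈ Finset.univ.filter (fun i => (p.E i).Nonempty),
      y i +ᵥ ((p.T i).toAddSubgroup : Set W) = Set.univ := by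
    rw [Set.eq_univ_iff_forall]
    intro x
    obtain ⟨i, hi⟩ := h x
    have hne : (p.E i).Nonempty := ⟨x, hi⟩
    simp only [Set.mem_iUnion]
    refine ⟨i, by simp [hne], ?_⟩
    rw [Set.mem_vadd_set]
    rw [hy i hne] at hi
    refine ⟨x - y i, hi, ?_⟩
    rw [vadd_eq_add]
    abel
  obtain ⟨i, hi, h1, h2⟩ := AddSubgroup.exists_index_le_card_of_leftCoset_cover hc
  refine ⟨i, (Finset.mem_filter.1 hi).2, h1, h2.trans ?_⟩
  exact (Finset.card_filter_le _ _).trans (by simp)

/-- infinite field: covering means that one of the sets is everything -/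
theorem covers_iff_inf [Infinite k] {r : ℕ} {W : Type} [AddCommGroup W] [Module k W]
    (p : Pat k r W) : p.Covers ↔ ∃ i, (p.E i).Nonempty ∧ p.T i = ⊤ := by
  constructor
  · intro h
    obtain ⟨i, h1, h2, _⟩ := LCoverA_neumann p h
    refine ⟨i, h1, ?_⟩
    by_contra hne
    have : Finite (W ⧸ p.T i) := AddSubgroup.finite_quotient_of_finiteIndex
    have : Nontrivial (W ⧸ p.T i) := Submodule.Quotient.nontrivial_iff.mpr hne
    have : Infinite (W ⧸ p.T i) := Module.Free.infinite k (W ⧸ p.T i)
    exact not_finite (W ⧸ p.T i)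
  · rintro ⟨i, h1, h2⟩ x
    refine ⟨i, ?_⟩
    rcases p.hE i with h3 | ⟨y, h3⟩
    · exact absurd h3 h1.ne_empty
    · rw [h3, Set.mem_setOf_eq, h2]
      trivial

theorem cd_eq_zero_iff {r : ℕ} {W : Type} [AddCommGroup W] [Module k W] (p : Pat k r W)
    (i : Fin r) : p.cd {i} = 0 ↔ p.T i = ⊤ := by
  unfold Pat.cd
  rw [Cardinal.toENat_eq_zero, rank_zero_iff, ← not_nontrivial_iff_subsingleton,
    Submodule.Quotient.nontrivial_iff, not_not]
  simp

theorem cover_inf [Infinite k] (r : ℕ) {W W' : Type} [AddCommGroup W] [Module k W]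
    [AddCommGroup W'] [Module k W'] (p : Pat k r W) (p' : Pat k r W') (h : Same 1 p p') :
    p.Covers ↔ p'.Covers := by
  rw [covers_iff_inf, covers_iff_inf]
  apply exists_congr
  intro i
  have h1 := h.1 {i}
  have e1 : ∀ {W : Type} [AddCommGroup W] [Module k W] (p : Pat k r W), p.inter {i} = p.E i := by
    intro W _ _ p
    unfold Pat.inter
    simp
  rw [e1 p, e1 p'] at h1
  have h2 := h.2 {i}
  have h3 : p.cd {i} = 0 ↔ p'.cd {i} = 0 := by
    have key : ∀ a : ℕ∞, a = 0 ↔ min ((1 : ℕ) : ℕ∞) a = 0 := by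
      intro a
      constructor
      · rintro rfl
        simp
      · intro h4
        rcases min_choice ((1 : ℕ) : ℕ∞) a with h5 | h5
        · rw [h5] at h4
          simp at h4
        · rw [← h5]
          exact h4
    rw [key, h2, ← key]
  rw [cd_eq_zero_iff, cd_eq_zero_iff] at h3
  rw [h1, h3]

/-- the thresholds: `T_0 = 0`, `T_{j+1} = r T_j + r` -/
def thr (r : ℕ) : ℕ → ℕ
  | 0 => 0
  | (j + 1) => r * thr r j + r

theorem LCoverA_thr_le (r j : ℕ) : thr r j ≤ thr r (j + 1) := by
  rcases Nat.eq_zero_or_pos r with rfl | hr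
  · have h0 : ∀ j, thr 0 j = 0 := by
      intro j
      cases j with
      | zero => rfl
      | succ j => simp [thr]
    rw [h0, h0]
  · show thr r j ≤ r * thr r j + r
    nlinarith [Nat.zero_le (thr r j)]

theorem LCoverA_thr_mono (r : ℕ) {i j : ℕ} (h : i ≤ j) : thr r i ≤ thr r j :=
  monotone_nat_of_le_succ (LCoverA_thr_le r) h

theorem LCoverA_pigeon {r : ℕ} (c : Fin r → ℕ∞) :
    ∃ j ≤ r, ∀ i, c i ≤ (thr r j : ℕ∞) ∨ (thr r (j + 1) : ℕ∞) < c i := by
  by_contra hcon
  push Not at hcon
  have h1 : ∀ j : Fin (r + 1), ∃ i, (thr r j : ℕ∞) < c i ∧ c i ≤ (thr r (j + 1) : ℕ∞) :=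
    fun j => hcon j (Nat.lt_succ_iff.1 j.2)
  choose f hf using h1
  have h2 : ∀ a b : Fin (r + 1), a < b → f a ≠ f b := by
    intro a b hab he
    have h3 := (hf a).2
    have h4 := (hf b).1
    rw [← he] at h4
    have h5 : thr r (a + 1) ≤ thr r b := LCoverA_thr_mono r (Nat.succ_le_of_lt hab)
    have h6 : ((thr r (a + 1) : ℕ) : ℕ∞) ≤ (thr r b : ℕ) := by exact_mod_cast h5
    exact absurd (h3.trans h6) (not_le.2 h4)
  have hinj : Function.Injective f := by
    intro a b he
    rcases lt_trichotomy a b with h3 | h3 | h3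
    · exact absurd he (h2 a b h3)
    · exact h3
    · exact absurd he.symm (h2 b a h3)
  have h3 := Fintype.card_le_of_injective f hinj
  simp at h3

/-- the pattern induced on a coset of a subspace -/
noncomputable def LCoverA_sub {r : ℕ} {W : Type} [AddCommGroup W] [Module k W] (p : Pat k r W)
    (S : Submodule k W) (x : W) : Pat k r S where
  T i := (p.T i).comap S.subtype
  E i := {w | x + (w : W) ∈ p.E i}
  hE i := by
    rcases Set.eq_empty_or_nonempty {w : S | x + (w : W) ∈ p.E i} with h | ⟨w0, hw0⟩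
    · exact Or.inl h
    · right
      refine ⟨w0, ?_⟩
      have hw0' : x + (w0 : W) ∈ p.E i := hw0
      rcases p.hE i with h1 | ⟨y, h1⟩
      · rw [h1] at hw0'
        exact absurd hw0' (Set.notMem_empty _)
      · ext w
        rw [h1] at hw0' ⊢
        have hw1 : x + (w0 : W) - y ∈ p.T i := hw0'
        show x + (w : W) - y ∈ p.T i ↔ ((w - w0 : S) : W) ∈ p.T i
        rw [Submodule.coe_sub]
        have e : (w : W) - w0 = (x + (w : W) - y) - (x + (w0 : W) - y) := by abel
        rw [e]
        refine ⟨fun h => (p.T i).sub_mem h hw1, fun h => ?_⟩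
        have h2 := (p.T i).add_mem h hw1
        rwa [sub_add_cancel] at h2

/-- a space over a finite field with at most `r` elements has dimension at most `r` -/
theorem LCoverA_rank_le [Finite k] {V : Type} [AddCommGroup V] [Module k V] [Finite V] {r : ℕ}
    (h : Nat.card V ≤ r) : Cardinal.toENat (Module.rank k V) ≤ r := by
  have h1 : Module.Finite k V := Module.Finite.of_finite
  rw [← Module.finrank_eq_rank, map_natCast]
  have h2 := Module.natCard_eq_pow_finrank (K := k) (V := V)
  have h3 : 2 ≤ Nat.card k := Finite.one_lt_card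
  have h4 : 2 ^ Module.finrank k V ≤ r := by
    calc 2 ^ Module.finrank k V ≤ Nat.card k ^ Module.finrank k V := Nat.pow_le_pow_left h3 _
      _ = Nat.card V := h2.symm
      _ ≤ r := h
  have h5 : Module.finrank k V < 2 ^ Module.finrank k V := Nat.lt_two_pow_self
  exact_mod_cast (h5.le.trans h4)

/-- the codimension of an intersection is at most the sum of the codimensions -/
theorem cd_le_sum {r : ℕ} {W : Type} [AddCommGroup W] [Module k W] (p : Pat k r W)
    (J : Finset (Fin r)) : p.cd J ≤ ∑ i ∈ J, p.cd {i} := by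
  classical
  induction J using Finset.induction_on with
  | empty =>
    unfold Pat.cd
    have h1 : Module.rank k (W ⧸ (⨅ i ∈ (∅ : Finset (Fin r)), p.T i)) = 0 := by
      rw [rank_zero_iff, ← not_nontrivial_iff_subsingleton, Submodule.Quotient.nontrivial_iff,
        not_not]
      simp
    rw [h1]
    simp
  | insert a s ha ih =>
    rw [Finset.sum_insert ha]
    have key : p.cd (insert a s) ≤ p.cd {a} + p.cd s := by
      unfold Pat.cd
      rw [← map_add]
      have e1 : (⨅ i ∈ ({a} : Finset (Fin r)), p.T i) = p.T a := by simp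
      have e2 : (⨅ i ∈ insert a s, p.T i) = p.T a ⊓ ⨅ i ∈ s, p.T i := Finset.iInf_insert _ _ _
      rw [e1, e2]
      apply (Cardinal.toENat : Cardinal →+*o ℕ∞).monotone'
      exact LCoverA_rank_inf (p.T a) (⨅ i ∈ s, p.T i)
    exact key.trans (add_le_add le_rfl ih)

/-- finite field: the sets of codimension `≤ thr r r` cover if all the sets cover -/
theorem small_cover [Finite k] {r : ℕ} {W : Type} [AddCommGroup W] [Module k W]
    (p : Pat k r W) (h : p.Covers) :
    ∀ x, ∃ i, x ∈ p.E i ∧ p.cd {i} ≤ (thr r r : ℕ∞) := by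
  classical
  intro x
  by_contra hcon
  push Not at hcon
  obtain ⟨j, hj, hJ⟩ := LCoverA_pigeon fun i => p.cd {i}
  have hjr : ((thr r j : ℕ) : ℕ∞) ≤ (thr r r : ℕ) := by exact_mod_cast LCoverA_thr_mono r hj
  set I : Finset (Fin r) := Finset.univ.filter fun i => p.cd {i} ≤ (thr r j : ℕ∞) with hI
  obtain ⟨S, hS⟩ : ∃ S : Submodule k W, S = ⨅ i ∈ I, p.T i := ⟨_, rfl⟩
  have hSI : ∀ i ∈ I, S ≤ p.T i := by
    intro i hi
    rw [hS]
    exact iInf₂_le i hi
  have hcdI : Cardinal.toENat (Module.rank k (W ⧸ S)) ≤ ((r * thr r j : ℕ) : ℕ∞) := by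
    have h1 : Cardinal.toENat (Module.rank k (W ⧸ S)) = p.cd I := by
      rw [hS]
      rfl
    rw [h1]
    refine (cd_le_sum p I).trans ?_
    calc ∑ i ∈ I, p.cd {i} ≤ ∑ _i ∈ I, ((thr r j : ℕ) : ℕ∞) :=
          Finset.sum_le_sum fun i hi => (Finset.mem_filter.1 hi).2
      _ = ((I.card * thr r j : ℕ) : ℕ∞) := by
          rw [Finset.sum_const, nsmul_eq_mul]
          push_cast
          rfl
      _ ≤ ((r * thr r j : ℕ) : ℕ∞) := by
          have h2 : I.card ≤ r := (Finset.card_filter_le _ _).trans (by simp)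
          exact_mod_cast Nat.mul_le_mul_right _ h2
  have hcov : (LCoverA_sub p S x).Covers := by
    intro w
    exact h (x + (w : W))
  obtain ⟨i, ⟨w, hw⟩, hfi, hidx⟩ := LCoverA_neumann (LCoverA_sub p S x) hcov
  have hw' : x + (w : W) ∈ p.E i := hw
  have hiI : i ∉ I := by
    intro hi
    have h1 : (w : W) ∈ p.T i := hSI i hi w.2
    have h2 : x ∈ p.E i := by
      rcases p.hE i with h3 | ⟨y, h3⟩
      · rw [h3] at hw'
        exact absurd hw' (Set.notMem_empty _)
      · rw [h3] at hw' ⊢
        have h4 : x + (w : W) - y ∈ p.T i := hw'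
        show x - y ∈ p.T i
        have h5 := (p.T i).sub_mem h4 h1
        have e : x + (w : W) - y - w = x - y := by abel
        rwa [e] at h5
    exact absurd ((Finset.mem_filter.1 hi).2.trans hjr) (not_le.2 (hcon i h2))
  have hbig : ((thr r (j + 1) : ℕ) : ℕ∞) < p.cd {i} := by
    rcases hJ i with h1 | h1
    · exact absurd (Finset.mem_filter.2 ⟨Finset.mem_univ i, h1⟩) hiI
    · exact h1
  have hT : (LCoverA_sub p S x).T i = (p.T i).comap S.subtype := rfl
  rw [hT] at hfi hidx
  have hfin : Finite (S ⧸ (p.T i).comap S.subtype) := AddSubgroup.finite_quotient_of_finiteIndex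
  have hd : Cardinal.toENat (Module.rank k (S ⧸ (p.T i).comap S.subtype)) ≤ r :=
    LCoverA_rank_le hidx
  have hle : p.cd {i} ≤ ((r * thr r j : ℕ) : ℕ∞) + (r : ℕ∞) := by
    have h1 : p.cd {i} = Cardinal.toENat (Module.rank k (W ⧸ p.T i)) := by
      unfold Pat.cd
      have e1 : (⨅ i' ∈ ({i} : Finset (Fin r)), p.T i') = p.T i := by simp
      rw [e1]
    rw [h1]
    have h2 := (Cardinal.toENat : Cardinal →+*o ℕ∞).monotone' (LCoverA_rank_sub S (p.T i))
    refine le_trans h2 ?_
    show Cardinal.toENat (_ + _) ≤ _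
    rw [map_add]
    exact add_le_add hcdI hd
  have e : ((r * thr r j : ℕ) : ℕ∞) + (r : ℕ∞) = ((thr r (j + 1) : ℕ) : ℕ∞) := by
    show _ = ((r * thr r j + r : ℕ) : ℕ∞)
    push_cast
    rfl
  rw [e] at hle
  exact absurd hle (not_le.2 hbig)

end StrAlg.Cover
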