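import Mathlib
set_option autoImplicit false

/-!
# Computable functions on lists and a calculus of r.e. predicates

* `foldlC`, `foldrC`, `mapC`, `flatMapC`, `filterC`, `allC`, `anyC`, ... : list functions with a computable
  (not necessarily primitive recursive) argument are computable;
* `re_iff`, `re_and`, `re_or`, `re_exists`, `re_forall_mem`, `re_exists_mem`, `re_comp`, `re_eq`, ...: closure
  properties of r.e. predicates;
* `computable_of_re_graph`: a total function whose graph is r.e. is computable;
* `Der`, `re_der`: a predicate generated inductively by an r.e. set of finitary rules is r.e.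
-/

namespace ReCalc

open Encodable

section lists
variable {α β σ τ : Type*} [Primcodable α] [Primcodable β] [Primcodable σ] [Primcodable τ]

theorem foldlC {f : α → List β} {g : α → σ} {h : α → σ → β → σ} (hf : Computable f)
    (hg : Computable g) (hh : Computable fun p : α × σ × β => h p.1 p.2.1 p.2.2) :
    Computable fun a => (f a).foldl (h a) (g a) := by
  have h1 : Computable fun a => (Nat.rec (g a)
      (fun i s => Option.casesOn ((f a)[i]?) s (fun b => h a s b)) (f a).length : σ) := by
    refine Computable.nat_rec (f := fun a => (f a).length) (g := g)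
      (h := fun a p => Option.casesOn ((f a)[p.1]?) p.2 (fun b => h a p.2 b))
      (Computable.list_length.comp hf) hg ?_
    refine Computable.option_casesOn (o := fun q : α × ℕ × σ => (f q.1)[q.2.1]?)
      (f := fun q => q.2.2) (g := fun q b => h q.1 q.2.2 b) ?_ ?_ ?_
    · exact Computable.list_getElem?.comp (hf.comp Computable.fst)
        (Computable.fst.comp Computable.snd)
    · exact Computable.snd.comp Computable.snd
    · exact hh.comp (Computable.pair (Computable.fst.comp Computable.fst)
        (Computable.pair (Computable.snd.comp (Computable.snd.comp Computable.fst))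
          Computable.snd))
  refine h1.of_eq ?_
  intro a
  have h2 : ∀ n, (Nat.rec (g a)
      (fun i s => Option.casesOn ((f a)[i]?) s (fun b => h a s b)) n : σ) =
      ((f a).take n).foldl (h a) (g a) := by
    intro n
    induction n with
    | zero => simp
    | succ n ih =>
      rw [List.take_succ, List.foldl_append, ← ih]
      show (Option.casesOn ((f a)[n]?) _ (fun b => h a _ b) : σ) = _
      cases (f a)[n]? with
      | none => rfl
      | some b => rfl
  rw [h2, List.take_length]

theorem foldrC {f : α → List β} {g : α → σ} {h : α → β → σ → σ} (hf : Computable f)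
    (hg : Computable g) (hh : Computable fun p : α × β × σ => h p.1 p.2.1 p.2.2) :
    Computable fun a => (f a).foldr (h a) (g a) := by
  have h1 : Computable fun a => ((f a).reverse).foldl (fun s b => h a b s) (g a) :=
    foldlC (h := fun a s b => h a b s) (Computable.list_reverse.comp hf) hg
      (hh.comp (Computable.pair Computable.fst
        (Computable.pair (Computable.snd.comp Computable.snd)
          (Computable.fst.comp Computable.snd))))
  refine h1.of_eq ?_
  intro a
  rw [List.foldl_reverse]

theorem mapC {f : α → List β} {h : α → β → σ} (hf : Computable f)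
    (hh : Computable fun p : α × β => h p.1 p.2) :
    Computable fun a => (f a).map (h a) := by
  have h1 : Computable fun a => (f a).foldr (fun b s => h a b :: s) [] :=
    foldrC (h := fun a b s => h a b :: s) hf (Computable.const _)
      (Computable.list_cons.comp
        (hh.comp (Computable.pair Computable.fst (Computable.fst.comp Computable.snd)))
        (Computable.snd.comp Computable.snd))
  refine h1.of_eq ?_
  intro a
  induction f a with
  | nil => rfl
  | cons b l ih => simp [ih]

theorem flatMapC {f : α → List β} {h : α → β → List σ} (hf : Computable f)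
    (hh : Computable fun p : α × β => h p.1 p.2) :
    Computable fun a => (f a).flatMap (h a) := by
  have h1 : Computable fun a => (f a).foldr (fun b s => h a b ++ s) [] :=
    foldrC (h := fun a b s => h a b ++ s) hf (Computable.const _)
      (Computable.list_append.comp
        (hh.comp (Computable.pair Computable.fst (Computable.fst.comp Computable.snd)))
        (Computable.snd.comp Computable.snd))
  refine h1.of_eq ?_
  intro a
  induction f a with
  | nil => rfl
  | cons b l ih => simp [ih]

theorem filterC {f : α → List β} {h : α → β → Bool} (hf : Computable f)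
    (hh : Computable fun p : α × β => h p.1 p.2) :
    Computable fun a => (f a).filter (h a) := by
  have h1 : Computable fun a => (f a).foldr (fun b s => bif h a b then b :: s else s) [] :=
    foldrC (h := fun a b s => bif h a b then b :: s else s) hf (Computable.const _)
      (Computable.cond
        (hh.comp (Computable.pair Computable.fst (Computable.fst.comp Computable.snd)))
        (Computable.list_cons.comp (Computable.fst.comp Computable.snd)
          (Computable.snd.comp Computable.snd))
        (Computable.snd.comp Computable.snd))
  refine h1.of_eq ?_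
  intro a
  induction f a with
  | nil => rfl
  | cons b l ih =>
    rw [List.foldr_cons, ih, List.filter_cons]
    cases h a b <;> rfl

theorem andC {f g : α → Bool} (hf : Computable f) (hg : Computable g) :
    Computable fun a => f a && g a :=
  (Primrec.and.to_comp).comp hf hg

theorem orC {f g : α → Bool} (hf : Computable f) (hg : Computable g) :
    Computable fun a => f a || g a :=
  (Primrec.or.to_comp).comp hf hg

theorem notC {f : α → Bool} (hf : Computable f) : Computable fun a => !(f a) :=
  (Primrec.not.to_comp).comp hf

theorem allC {f : α → List β} {h : α → β → Bool} (hf : Computable f)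
    (hh : Computable fun p : α × β => h p.1 p.2) :
    Computable fun a => (f a).all (h a) := by
  have h1 : Computable fun a => (f a).foldr (fun b s => h a b && s) true :=
    foldrC (h := fun a b s => h a b && s) hf (Computable.const _)
      (andC (hh.comp (Computable.pair Computable.fst (Computable.fst.comp Computable.snd)))
        (Computable.snd.comp Computable.snd))
  refine h1.of_eq ?_
  intro a
  induction f a with
  | nil => rfl
  | cons b l ih => simp [ih]

theorem anyC {f : α → List β} {h : α → β → Bool} (hf : Computable f)
    (hh : Computable fun p : α × β => h p.1 p.2) :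
    Computable fun a => (f a).any (h a) := by
  have h1 : Computable fun a => (f a).foldr (fun b s => h a b || s) false :=
    foldrC (h := fun a b s => h a b || s) hf (Computable.const _)
      (orC (hh.comp (Computable.pair Computable.fst (Computable.fst.comp Computable.snd)))
        (Computable.snd.comp Computable.snd))
  refine h1.of_eq ?_
  intro a
  induction f a with
  | nil => rfl
  | cons b l ih => simp [ih]

theorem rangeC {f : α → ℕ} (hf : Computable f) : Computable fun a => List.range (f a) :=
  (Primrec.list_range.to_comp).comp hf

theorem iteC {p : α → Prop} [DecidablePred p] {f g : α → σ}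
    (hp : Computable fun a => decide (p a)) (hf : Computable f) (hg : Computable g) :
    Computable fun a => if p a then f a else g a := by
  refine (Computable.cond hp hf hg).of_eq ?_
  intro a
  by_cases h : p a <;> simp [h]

theorem eqC [DecidableEq σ] {f g : α → σ} (hf : Computable f) (hg : Computable g) :
    Computable fun a => decide (f a = g a) := by
  have h : Primrec₂ fun a b : σ => decide (a = b) := Primrec.eq.decide
  exact h.to_comp.comp hf hg

theorem leC {f g : α → ℕ} (hf : Computable f) (hg : Computable g) :
    Computable fun a => decide (f a ≤ g a) := by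
  have h : Primrec₂ fun a b : ℕ => decide (a ≤ b) := Primrec.nat_le.decide
  exact h.to_comp.comp hf hg

theorem ltC {f g : α → ℕ} (hf : Computable f) (hg : Computable g) :
    Computable fun a => decide (f a < g a) := by
  have h : Primrec₂ fun a b : ℕ => decide (a < b) := Primrec.nat_lt.decide
  exact h.to_comp.comp hf hg

/-- sums of lists, for a computable addition -/
theorem sumC [AddMonoid σ] (hadd : Computable₂ (fun a b : σ => a + b)) {f : α → List σ}
    (hf : Computable f) : Computable fun a => (f a).sum := by
  have h1 : Computable fun a => (f a).foldr (fun b s => b + s) 0 :=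
    foldrC (h := fun _ b s => b + s) hf (Computable.const _)
      (hadd.comp (Computable.fst.comp Computable.snd) (Computable.snd.comp Computable.snd))
  refine h1.of_eq ?_
  intro a
  induction f a with
  | nil => rfl
  | cons b l ih => simp [ih]

end lists

section re
variable {α β γ σ : Type*} [Primcodable α] [Primcodable β] [Primcodable γ] [Primcodable σ]

theorem re_iff {p : α → Prop} :
    REPred p ↔ ∃ R : α × ℕ → Bool, Computable R ∧ ∀ a, p a ↔ ∃ n, R (a, n) = true := by
  constructor
  · intro h
    obtain ⟨c, hc⟩ := Nat.Partrec.Code.exists_code.1 h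
    refine ⟨fun q => (Nat.Partrec.Code.evaln q.2 c (encode q.1)).isSome, ?_, ?_⟩
    · exact (Primrec.option_isSome.comp (Nat.Partrec.Code.primrec_evaln.comp
        (Primrec.pair (Primrec.pair Primrec.snd (Primrec.const c))
          (Primrec.encode.comp Primrec.fst)))).to_comp
    · intro a
      have h1 : p a ↔ (Nat.Partrec.Code.eval c (encode a)).Dom := by
        rw [hc]
        simp only [encodek, Part.coe_some, Part.bind_some, Part.map_Dom]
        exact ⟨fun h => ⟨h, trivial⟩, fun h => h.1⟩
      rw [h1, Part.dom_iff_mem]
      constructor
      · rintro ⟨x, hx⟩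
        obtain ⟨n, hn⟩ := Nat.Partrec.Code.evaln_complete.1 hx
        exact ⟨n, Option.isSome_iff_exists.2 ⟨x, hn⟩⟩
      · rintro ⟨n, hn⟩
        obtain ⟨x, hx⟩ := Option.isSome_iff_exists.1 hn
        exact ⟨x, Nat.Partrec.Code.evaln_complete.2 ⟨n, hx⟩⟩
  · rintro ⟨R, hR, h⟩
    have h1 : Partrec fun a => Nat.rfind fun n => Part.some (R (a, n)) :=
      Partrec.rfind (Computable.partrec (f := fun q : α × ℕ => R q) hR).to₂
    refine (h1.dom_re).of_eq ?_
    intro a
    rw [h]
    constructor
    · intro h2
      rw [Nat.rfind_dom] at h2
      obtain ⟨n, hn, _⟩ := h2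
      exact ⟨n, by simpa using hn⟩
    · rintro ⟨n, hn⟩
      rw [Nat.rfind_dom]
      exact ⟨n, by simpa using hn, fun _ => trivial⟩

theorem re_of_computable {p : α → Prop} (R : α → Bool) (hR : Computable R)
    (h : ∀ a, p a ↔ R a = true) : REPred p :=
  re_iff.2 ⟨fun q => R q.1, hR.comp Computable.fst, fun a => by simp [h]⟩

theorem re_true : REPred fun _ : α => True :=
  re_of_computable (fun _ => true) (Computable.const _) (fun _ => by simp)

theorem re_false : REPred fun _ : α => False :=
  re_of_computable (fun _ => false) (Computable.const _) (fun _ => by simp)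

theorem re_const (q : Prop) : REPred fun _ : α => q := by
  by_cases h : q
  · exact re_true.of_eq (fun _ => by simp [h])
  · exact re_false.of_eq (fun _ => by simp [h])

theorem re_comp {p : β → Prop} (hp : REPred p) {f : α → β} (hf : Computable f) :
    REPred fun a => p (f a) := by
  obtain ⟨R, hR, h⟩ := re_iff.1 hp
  exact re_iff.2 ⟨fun q => R (f q.1, q.2),
    hR.comp (Computable.pair (hf.comp Computable.fst) Computable.snd), fun a => h (f a)⟩

theorem re_and {p q : α → Prop} (hp : REPred p) (hq : REPred q) : REPred fun a => p a ∧ q a := by
  obtain ⟨R, hR, h⟩ := re_iff.1 hp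
  obtain ⟨S, hS, h'⟩ := re_iff.1 hq
  refine re_iff.2 ⟨fun t => R (t.1, t.2.unpair.1) && S (t.1, t.2.unpair.2), ?_, ?_⟩
  · have hu : Computable fun t : α × ℕ => t.2.unpair := Computable.unpair.comp Computable.snd
    exact andC (hR.comp (Computable.pair Computable.fst (Computable.fst.comp hu)))
      (hS.comp (Computable.pair Computable.fst (Computable.snd.comp hu)))
  · intro a
    rw [h, h']
    constructor
    · rintro ⟨⟨m, hm⟩, ⟨n, hn⟩⟩
      exact ⟨Nat.pair m n, by simp [hm, hn]⟩
    · rintro ⟨n, hn⟩
      simp only [Bool.and_eq_true] at hn
      exact ⟨⟨_, hn.1⟩, ⟨_, hn.2⟩⟩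

theorem re_or {p q : α → Prop} (hp : REPred p) (hq : REPred q) : REPred fun a => p a ∨ q a := by
  obtain ⟨R, hR, h⟩ := re_iff.1 hp
  obtain ⟨S, hS, h'⟩ := re_iff.1 hq
  refine re_iff.2 ⟨fun t => R t || S t, orC hR hS, ?_⟩
  intro a
  rw [h, h']
  constructor
  · rintro (⟨n, hn⟩ | ⟨n, hn⟩)
    · exact ⟨n, by simp [hn]⟩
    · exact ⟨n, by simp [hn]⟩
  · rintro ⟨n, hn⟩
    simp only [Bool.or_eq_true] at hn
    rcases hn with hn | hn
    · exact Or.inl ⟨n, hn⟩
    · exact Or.inr ⟨n, hn⟩

theorem re_exists {q : α × β → Prop} (hq : REPred q) : REPred fun a => ∃ b, q (a, b) := by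
  obtain ⟨R, hR, h⟩ := re_iff.1 hq
  refine re_iff.2 ⟨fun t => Option.casesOn (decode (α := β) t.2.unpair.1) false
    (fun b => R ((t.1, b), t.2.unpair.2)), ?_, ?_⟩
  · have hu : Computable fun t : α × ℕ => t.2.unpair := Computable.unpair.comp Computable.snd
    refine Computable.option_casesOn (o := fun t : α × ℕ => decode (α := β) t.2.unpair.1)
      (f := fun _ => false) (g := fun t b => R ((t.1, b), t.2.unpair.2))
      (Computable.decode.comp (Computable.fst.comp hu)) (Computable.const _) ?_
    exact hR.comp (Computable.pair (Computable.pair (Computable.fst.comp Computable.fst)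
      Computable.snd) (Computable.snd.comp (hu.comp Computable.fst)))
  · intro a
    constructor
    · rintro ⟨b, hb⟩
      obtain ⟨n, hn⟩ := (h (a, b)).1 hb
      exact ⟨Nat.pair (encode b) n, by simp [hn]⟩
    · rintro ⟨n, hn⟩
      simp only at hn
      cases hb : decode (α := β) n.unpair.1 with
      | none => rw [hb] at hn; exact absurd hn (by simp)
      | some b =>
        rw [hb] at hn
        exact ⟨b, (h (a, b)).2 ⟨_, hn⟩⟩

/-- existential quantification, curried form -/
theorem re_ex {q : α → β → Prop} (hq : REPred fun p : α × β => q p.1 p.2) :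
    REPred fun a => ∃ b, q a b := re_exists hq

theorem re_forall_mem {f : α → List β} (hf : Computable f) {q : α → β → Prop}
    (hq : REPred fun p : α × β => q p.1 p.2) : REPred fun a => ∀ b ∈ f a, q a b := by
  obtain ⟨R, hR, h⟩ := re_iff.1 hq
  refine re_iff.2 ⟨fun t => (f t.1).all fun b => (List.range (t.2 + 1)).any fun n =>
    R ((t.1, b), n), ?_, ?_⟩
  · refine allC (hf.comp Computable.fst) ?_
    refine anyC (h := fun (p : (α × ℕ) × β) n => R ((p.1.1, p.2), n))
      (rangeC (Computable.succ.comp (Computable.snd.comp Computable.fst))) ?_
    exact hR.comp (Computable.pair (Computable.pair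
      (Computable.fst.comp (Computable.fst.comp Computable.fst))
      (Computable.snd.comp Computable.fst)) Computable.snd)
  · intro a
    constructor
    · intro h1
      have h2 : ∀ b ∈ f a, ∃ n, R ((a, b), n) = true := fun b hb => (h (a, b)).1 (h1 b hb)
      have h3 : ∀ l : List β, (∀ b ∈ l, ∃ n, R ((a, b), n) = true) →
          ∃ N, ∀ b ∈ l, ∃ n, n < N + 1 ∧ R ((a, b), n) = true := by
        intro l
        induction l with
        | nil => intro _; exact ⟨0, by simp⟩
        | cons b l ih =>
          intro hl
          obtain ⟨N, hN⟩ := ih (fun c hc => hl c (List.mem_cons_of_mem _ hc))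
          obtain ⟨n, hn⟩ := hl b List.mem_cons_self
          refine ⟨max N n, ?_⟩
          intro c hc
          rcases List.mem_cons.1 hc with rfl | hc
          · exact ⟨n, by omega, hn⟩
          · obtain ⟨m, hm1, hm2⟩ := hN c hc
            exact ⟨m, by omega, hm2⟩
      obtain ⟨N, hN⟩ := h3 _ h2
      refine ⟨N, ?_⟩
      simp only [List.all_eq_true, List.any_eq_true, List.mem_range]
      exact hN
    · rintro ⟨N, hN⟩ b hb
      simp only [List.all_eq_true, List.any_eq_true, List.mem_range] at hN
      obtain ⟨n, _, hn⟩ := hN b hb
      exact (h (a, b)).2 ⟨n, hn⟩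

theorem re_exists_mem {f : α → List β} (hf : Computable f) {q : α → β → Prop}
    (hq : REPred fun p : α × β => q p.1 p.2) : REPred fun a => ∃ b ∈ f a, q a b := by
  obtain ⟨R, hR, h⟩ := re_iff.1 hq
  refine re_iff.2 ⟨fun t => (f t.1).any fun b => R ((t.1, b), t.2), ?_, ?_⟩
  · refine anyC (hf.comp Computable.fst) ?_
    exact hR.comp (Computable.pair (Computable.pair
      (Computable.fst.comp Computable.fst) Computable.snd)
      (Computable.snd.comp Computable.fst))
  · intro a
    constructor
    · rintro ⟨b, hb, h1⟩
      obtain ⟨n, hn⟩ := (h (a, b)).1 h1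
      exact ⟨n, by simp only [List.any_eq_true]; exact ⟨b, hb, hn⟩⟩
    · rintro ⟨n, hn⟩
      simp only [List.any_eq_true] at hn
      obtain ⟨b, hb, hn⟩ := hn
      exact ⟨b, hb, (h (a, b)).2 ⟨n, hn⟩⟩

theorem re_eq {f g : α → σ} (hf : Computable f) (hg : Computable g) :
    REPred fun a => f a = g a := by
  classical
  have h : Computable fun a => decide (encode (f a) = encode (g a)) :=
    eqC (Computable.encode.comp hf) (Computable.encode.comp hg)
  exact re_of_computable _ h (fun a => by simp [encode_inj])

theorem re_ne {f g : α → σ} (hf : Computable f) (hg : Computable g) :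
    REPred fun a => f a ≠ g a := by
  classical
  have h : Computable fun a => !(decide (encode (f a) = encode (g a))) :=
    notC (eqC (Computable.encode.comp hf) (Computable.encode.comp hg))
  exact re_of_computable _ h (fun a => by simp [encode_inj])

theorem re_mem {f : α → σ} {g : α → List σ} (hf : Computable f) (hg : Computable g) :
    REPred fun a => f a ∈ g a := by
  have h : REPred fun a => ∃ b ∈ g a, f a = b :=
    re_exists_mem hg (re_eq (hf.comp Computable.fst) Computable.snd)
  refine h.of_eq ?_
  intro a
  constructor
  · rintro ⟨b, hb, h⟩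
    rw [h]
    exact hb
  · intro h
    exact ⟨_, h, rfl⟩

theorem re_lt {f g : α → ℕ} (hf : Computable f) (hg : Computable g) :
    REPred fun a => f a < g a :=
  re_of_computable _ (ltC hf hg) (fun a => by simp)

theorem re_le {f g : α → ℕ} (hf : Computable f) (hg : Computable g) :
    REPred fun a => f a ≤ g a :=
  re_of_computable _ (leC hf hg) (fun a => by simp)

/-- A total function whose graph is r.e. is computable. -/
theorem computable_of_re_graph {f : α → σ} (h : REPred fun p : α × σ => f p.1 = p.2) :
    Computable f := by
  obtain ⟨R, hR, h⟩ := re_iff.1 h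
  have h1 : Computable fun t : α × ℕ => (Option.casesOn (decode (α := σ) t.2.unpair.1) none
      (fun b => bif R ((t.1, b), t.2.unpair.2) then some b else none) : Option σ) := by
    have hu : Computable fun t : α × ℕ => t.2.unpair := Computable.unpair.comp Computable.snd
    refine Computable.option_casesOn (o := fun t : α × ℕ => decode (α := σ) t.2.unpair.1)
      (f := fun _ => none)
      (g := fun t b => bif R ((t.1, b), t.2.unpair.2) then some b else none)
      (Computable.decode.comp (Computable.fst.comp hu)) (Computable.const _) ?_
    refine Computable.cond (hR.comp ?_) (Computable.option_some.comp Computable.snd)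
      (Computable.const _)
    exact Computable.pair (Computable.pair (Computable.fst.comp Computable.fst)
      Computable.snd) (Computable.snd.comp (hu.comp Computable.fst))
  have h2 : Partrec fun a => Nat.rfindOpt fun n : ℕ =>
      (Option.casesOn (decode (α := σ) n.unpair.1) none
      (fun b => bif R ((a, b), n.unpair.2) then some b else none) : Option σ) :=
    Partrec.rfindOpt h1.to₂
  refine h2.of_eq_tot ?_
  intro a
  have hspec : ∀ (n : ℕ) (b : σ), b ∈ (Option.casesOn (decode (α := σ) n.unpair.1) none
      (fun b => bif R ((a, b), n.unpair.2) then some b else none) : Option σ) → b = f a := by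
    intro n b hb
    cases hd : decode (α := σ) n.unpair.1 with
    | none => rw [hd] at hb; exact absurd hb (by simp)
    | some c =>
      rw [hd] at hb
      simp only at hb
      cases hr : R ((a, c), n.unpair.2) with
      | false => rw [hr] at hb; exact absurd hb (by simp)
      | true =>
        rw [hr] at hb
        simp only [cond_true, Option.mem_some_iff] at hb
        rw [← hb]
        exact ((h (a, c)).2 ⟨_, hr⟩).symm
  have hdom : (Nat.rfindOpt fun n : ℕ =>
      (Option.casesOn (decode (α := σ) n.unpair.1) none
      (fun b => bif R ((a, b), n.unpair.2) then some b else none) : Option σ)).Dom := by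
    rw [Nat.rfindOpt_dom]
    obtain ⟨n, hn⟩ := (h (a, f a)).1 rfl
    exact ⟨Nat.pair (encode (f a)) n, f a, by simp [hn]⟩
  obtain ⟨b, hb⟩ := Part.dom_iff_mem.1 hdom
  obtain ⟨n, hn⟩ := Nat.rfindOpt_spec hb
  rw [← hspec n b hn]
  exact hb

/-- the graph of a computable function is r.e. -/
theorem re_graph {f : α → σ} (hf : Computable f) : REPred fun p : α × σ => f p.1 = p.2 :=
  re_eq (hf.comp Computable.fst) Computable.snd

/-- A predicate which is r.e. together with its negation is decided by a computable function. -/
theorem decide_of_re {p : α → Prop} (h1 : REPred p) (h2 : REPred fun a => ¬ p a) :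
    ∃ f : α → Bool, Computable f ∧ ∀ a, f a = true ↔ p a := by
  classical
  refine ⟨fun a => decide (p a), ?_, fun a => by simp⟩
  apply computable_of_re_graph
  have h : REPred fun t : α × Bool => (t.2 = true ∧ p t.1) ∨ (t.2 = false ∧ ¬ p t.1) :=
    re_or (re_and (re_eq Computable.snd (Computable.const _)) (re_comp h1 Computable.fst))
      (re_and (re_eq Computable.snd (Computable.const _)) (re_comp h2 Computable.fst))
  refine h.of_eq ?_
  rintro ⟨a, b⟩
  cases b <;> by_cases h : p a <;> simp [h]

end re

section der
variable {α X : Type*} [Primcodable α] [Primcodable X]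

/-- The predicate generated by a set of finitary rules (list of premises, conclusion). -/
inductive Der (Rule : List X → X → Prop) : X → Prop
  | mk (ps : List X) (x : X) (h : Rule ps x) (hp : ∀ p ∈ ps, Der Rule p) : Der Rule x

/-- derivations as lists -/
inductive VL (Rule : List X → X → Prop) : List (List X × X) → Prop
  | nil : VL Rule []
  | cons (ps : List X) (x : X) (L : List (List X × X)) (h : Rule ps x)
      (hp : ∀ p ∈ ps, ∃ q ∈ L, q.2 = p) (hL : VL Rule L) : VL Rule ((ps, x) :: L)

theorem VL.der {Rule : List X → X → Prop} {L : List (List X × X)} (h : VL Rule L) :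
    ∀ q ∈ L, Der Rule q.2 := by
  induction h with
  | nil => simp
  | cons ps x L h hp hL ih =>
    intro q hq
    rcases List.mem_cons.1 hq with rfl | hq
    · refine Der.mk ps x h ?_
      intro p hp'
      obtain ⟨r, hr, rfl⟩ := hp p hp'
      exact ih r hr
    · exact ih q hq

theorem VL.append {Rule : List X → X → Prop} {L L' : List (List X × X)} (h : VL Rule L)
    (h' : VL Rule L') : VL Rule (L ++ L') := by
  induction h with
  | nil => exact h'
  | cons ps x L h hp hL ih =>
    refine VL.cons ps x _ h ?_ ih
    intro p hp'
    obtain ⟨q, hq, hqp⟩ := hp p hp'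
    exact ⟨q, List.mem_append_left _ hq, hqp⟩

theorem Der.vl {Rule : List X → X → Prop} {x : X} (h : Der Rule x) :
    ∃ L, VL Rule L ∧ ∃ q ∈ L, q.2 = x := by
  induction h with
  | mk ps x h hp ih =>
    have h1 : ∀ qs : List X, (∀ p ∈ qs, ∃ L, VL Rule L ∧ ∃ q ∈ L, q.2 = p) →
        ∃ L, VL Rule L ∧ ∀ p ∈ qs, ∃ q ∈ L, q.2 = p := by
      intro qs
      induction qs with
      | nil => intro _; exact ⟨[], VL.nil, by simp⟩
      | cons p qs ih2 =>
        intro hq
        obtain ⟨L1, hL1, q1, hq1, e1⟩ := hq p List.mem_cons_self
        obtain ⟨L2, hL2, h2⟩ := ih2 (fun r hr => hq r (List.mem_cons_of_mem _ hr))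
        refine ⟨L1 ++ L2, hL1.append hL2, ?_⟩
        intro r hr
        rcases List.mem_cons.1 hr with rfl | hr
        · exact ⟨q1, List.mem_append_left _ hq1, e1⟩
        · obtain ⟨q, hq, e⟩ := h2 r hr
          exact ⟨q, List.mem_append_right _ hq, e⟩
    obtain ⟨L, hL, h2⟩ := h1 ps ih
    exact ⟨(ps, x) :: L, VL.cons ps x L h h2 hL, (ps, x), List.mem_cons_self, rfl⟩

/-- local validity of a derivation at an index -/
def VI (Rule : List X → X → Prop) (L : List (List X × X)) (i : ℕ) : Prop :=
  ∃ r : List X × X, L[i]? = some r ∧ Rule r.1 r.2 ∧
    ∀ p ∈ r.1, ∃ q ∈ L.drop (i + 1), q.2 = p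

theorem vl_iff {Rule : List X → X → Prop} (L : List (List X × X)) :
    VL Rule L ↔ ∀ i ∈ List.range L.length, VI Rule L i := by
  induction L with
  | nil => simp [VL.nil]
  | cons r L ih =>
    constructor
    · intro h
      cases h with
      | cons ps x L h hp hL =>
        intro i hi
        rw [List.mem_range] at hi
        cases i with
        | zero => exact ⟨(ps, x), rfl, h, by simpa using hp⟩
        | succ i =>
          obtain ⟨r, h1, h2, h3⟩ := (ih.1 hL) i (List.mem_range.2 (by simpa using hi))
          exact ⟨r, by simpa using h1, h2, by simpa using h3⟩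
    · intro h
      obtain ⟨r', h1, h2, h3⟩ := h 0 (List.mem_range.2 (by simp))
      have e : r = r' := by simpa using h1
      subst e
      obtain ⟨ps, x⟩ := r
      refine VL.cons ps x L h2 (by simpa using h3) (ih.2 ?_)
      intro i hi
      rw [List.mem_range] at hi
      obtain ⟨r, h1, h2, h3⟩ := h (i + 1) (List.mem_range.2 (by simpa using hi))
      exact ⟨r, by simpa using h1, h2, by simpa using h3⟩

theorem dropC : Computable₂ fun (l : List X) (n : ℕ) => l.drop n := by
  have h1 : Computable fun p : List X × ℕ =>
      (Nat.rec p.1 (fun _ s => s.tail) p.2 : List X) :=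
    Computable.nat_rec (f := Prod.snd) (g := Prod.fst)
      (h := fun (_ : List X × ℕ) (q : ℕ × List X) => q.2.tail)
      Computable.snd Computable.fst
      (Computable.to₂ (Primrec.list_tail.to_comp.comp (Computable.snd.comp Computable.snd)))
  refine Computable.of_eq h1 ?_
  rintro ⟨l, n⟩
  show (Nat.rec l (fun _ s => s.tail) n : List X) = l.drop n
  induction n with
  | zero => rfl
  | succ n ih =>
    rw [← List.tail_drop, ← ih]

/-- A predicate generated by an r.e. set of finitary rules (depending on a parameter) is r.e. -/
theorem re_der (Rule : α → List X → X → Prop)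
    (hR : REPred fun p : α × List X × X => Rule p.1 p.2.1 p.2.2) :
    REPred fun p : α × X => Der (Rule p.1) p.2 := by
  have h1 : REPred fun p : (α × X) × List (List X × X) =>
      (∀ i ∈ List.range p.2.length, VI (Rule p.1.1) p.2 i) ∧ ∃ q ∈ p.2, q.2 = p.1.2 := by
    refine re_and ?_ ?_
    · refine re_forall_mem (rangeC (Computable.list_length.comp Computable.snd)) ?_
      refine re_ex (q := fun (t : ((α × X) × List (List X × X)) × ℕ) (r : List X × X) =>
        t.1.2[t.2]? = some r ∧ Rule t.1.1.1 r.1 r.2 ∧
          ∀ p ∈ r.1, ∃ q ∈ t.1.2.drop (t.2 + 1), q.2 = p) ?_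
      refine re_and ?_ (re_and ?_ ?_)
      · exact re_eq (Computable.list_getElem?.comp
          (Computable.snd.comp (Computable.fst.comp Computable.fst))
          (Computable.snd.comp Computable.fst)) (Computable.option_some.comp Computable.snd)
      · exact re_comp (p := fun p : α × List X × X => Rule p.1 p.2.1 p.2.2) hR
          (f := fun t : (((α × X) × List (List X × X)) × ℕ) × (List X × X) =>
            (t.1.1.1.1, t.2.1, t.2.2))
          (Computable.pair (Computable.fst.comp (Computable.fst.comp (Computable.fst.comp
            Computable.fst))) (Computable.pair (Computable.fst.comp Computable.snd)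
            (Computable.snd.comp Computable.snd)))
      · refine re_forall_mem (Computable.fst.comp Computable.snd) ?_
        refine re_exists_mem (f := fun t : ((((α × X) × List (List X × X)) × ℕ) × (List X × X)) × X =>
          t.1.1.1.2.drop (t.1.1.2 + 1)) ?_ ?_
        · exact dropC.comp
            (Computable.snd.comp (Computable.fst.comp (Computable.fst.comp Computable.fst)))
            (Computable.succ.comp (Computable.snd.comp (Computable.fst.comp Computable.fst)))
        · exact re_eq (Computable.snd.comp Computable.snd) (Computable.snd.comp Computable.fst)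
    · exact re_exists_mem Computable.snd
        (re_eq (Computable.snd.comp Computable.snd)
          (Computable.snd.comp (Computable.fst.comp Computable.fst)))
  refine (re_exists h1).of_eq ?_
  rintro ⟨a, x⟩
  constructor
  · rintro ⟨L, h2, q, hq, e⟩
    have h3 := ((vl_iff (Rule := Rule a) L).2 h2).der q hq
    rw [e] at h3
    exact h3
  · intro h
    obtain ⟨L, hL, q, hq, e⟩ := h.vl
    exact ⟨L, (vl_iff L).1 hL, q, hq, e⟩

/-- version without parameter -/
theorem re_der' (Rule : List X → X → Prop)
    (hR : REPred fun p : List X × X => Rule p.1 p.2) : REPred fun x => Der Rule x := by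
  have h := re_der (α := Unit) (fun _ => Rule)
    (re_comp (p := fun p : List X × X => Rule p.1 p.2) hR
      (f := fun t : Unit × List X × X => t.2) Computable.snd)
  exact re_comp h (Computable.pair (Computable.const ()) Computable.id)

end der

end ReCalc
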