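import Pool.Agent.Lib.MP_b9fd58_lc.Defs
import Pool.Agent.Lib.MP_b9fd58_lc.Re
set_option autoImplicit false

/-!
# Stream L: common definitions

* `Tm.valQ`, `Fm.SatQ`: values and satisfaction in a `QMod`; `ValidQ`;
* `FS`: formal sums `∑ a • (word acting on a parameter)`; `zsum`: the sum is zero;
* `tsum`, `eqFS`: formal sums of terms and equations in an environment (list of parameters);
* `IsGen`, `Cons`: linear consequences; `Node`, `TabRule`: the tableau rules.
-/

namespace StrAlg

section sat
variable {D : Dat} {k : Type} [Field k] {N : Type} [AddCommGroup N] [Module k N]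

/-- value of a term in a `QMod` -/
def Tm.valQ (Q : QMod D k N) (v : ℕ → N) : Tm D k → N
  | .var n => v n
  | .zero => 0
  | .add s t => s.valQ Q v + t.valQ Q v
  | .act c t => Q.act c (t.valQ Q v)

/-- the valuation `x, v 0, v 1, …` -/
def consV (x : N) (v : ℕ → N) : ℕ → N := fun n => Nat.casesOn n x v

/-- satisfaction in a `QMod` -/
def Fm.SatQ (Q : QMod D k N) : (ℕ → N) → Fm D k → Prop
  | v, .eq s t => s.valQ Q v = t.valQ Q v
  | _, .fls => False
  | v, .imp φ ψ => φ.SatQ Q v → ψ.SatQ Q v
  | v, .all φ => ∀ x : N, φ.SatQ Q (consV x v)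

end sat

section defs
variable (D : Dat) (k : Type) [Field k]

/-- the formula holds in all `QMod`s under all valuations -/
def ValidQ (φ : Fm D k) : Prop :=
  ∀ (N : Type) [AddCommGroup N] [Module k N] (Q : QMod D k N) (v : ℕ → N), φ.SatQ Q v

/-- words acting on parameters -/
abbrev PX : Type := List D.Gen × ℕ

/-- formal sums -/
abbrev FS : Type := List (k × PX D)

variable {D k}

/-- the finitely supported function denoted by a formal sum -/
noncomputable def FS.val (L : FS D k) : PX D →₀ k :=
  (L.map fun t => Finsupp.single t.2 t.1).sum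

/-- value of a formal sum in a `QMod`, given the values of the parameters -/
def FS.evQ {N : Type} [AddCommGroup N] [Module k N] (Q : QMod D k N) (π : ℕ → N) (L : FS D k) : N :=
  (L.map fun t => t.1 • Q.word t.2.1 (π t.2.2)).sum

/-- multiply by a scalar -/
def FS.scale (a : k) (L : FS D k) : FS D k := L.map fun t => (a * t.1, t.2)

/-- act by a word -/
def FS.shift (w : List D.Gen) (L : FS D k) : FS D k := L.map fun t => (t.1, (t.2.1 ++ w, t.2.2))

/-- act by a coded element -/
def FS.actc (c : ElCode D k) (L : FS D k) : FS D k :=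
  c.flatMap fun b => FS.scale b.1 (FS.shift b.2 L)

/-- the parameter of an environment at a variable (`0` if out of range) -/
def envp (ρ : List ℕ) (n : ℕ) : ℕ := ρ.getD n 0

/-- formal sum of a term in an environment -/
def tsum (ρ : List ℕ) : Tm D k → FS D k
  | .var n => [(1, ([], envp ρ n))]
  | .zero => []
  | .add s t => tsum ρ s ++ tsum ρ t
  | .act c t => FS.actc c (tsum ρ t)

/-- formal sum of an equation `s = t` in an environment -/
def eqFS (ρ : List ℕ) (s t : Tm D k) : FS D k := tsum ρ s ++ FS.scale (-1) (tsum ρ t)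

/-- the defining relations of the algebra as formal elements of the free algebra -/
def relL (D : Dat) (k : Type) [Field k] : List (ElCode D k) :=
  ((List.finRange D.nV).map fun i => [(1, [Sum.inl i, Sum.inl i]), (-1, [Sum.inl i])]) ++
  ((List.finRange D.nV).flatMap fun i => ((List.finRange D.nV).filter fun j => i ≠ j).map fun j =>
    [(1, [Sum.inl i, Sum.inl j])]) ++
  [((List.finRange D.nV).map fun i => ((1 : k), [Sum.inl i])) ++ [(-1, [])]] ++
  ((List.finRange D.nE).map fun a => [(1, [Sum.inl (D.src a), Sum.inr a]), (-1, [Sum.inr a])]) ++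
  ((List.finRange D.nE).map fun a => [(1, [Sum.inr a, Sum.inl (D.tgt a)]), (-1, [Sum.inr a])]) ++
  (D.rel.map fun r => [(1, r.map Sum.inr)])

/-- an instance `p · w · r · w'` of a relation -/
def relInst (r : ElCode D k) (w w' : List D.Gen) (p : ℕ) : FS D k :=
  r.map fun t => (t.1, (w ++ t.2 ++ w', p))

/-- A signed formula in an environment. -/
abbrev Item (D : Dat) (k : Type) : Type := Bool × Fm D k × List ℕ

/-- Nodes of the tableau. -/
abbrev Node (D : Dat) (k : Type) : Type := List (Item D k)

/-- generators of the space of consequences of the true equations in the set `H` -/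
def IsGen (H : Item D k → Prop) (g : FS D k) : Prop :=
  (∃ s t ρ w, H (true, .eq s t, ρ) ∧ g = FS.shift w (eqFS ρ s t)) ∨
  (∃ r ∈ relL D k, ∃ w w' p, g = relInst r w w' p)

/-- the space of consequences -/
noncomputable def consSpace (H : Item D k → Prop) : Submodule k (PX D →₀ k) :=
  Submodule.span k {x | ∃ g, IsGen H g ∧ x = FS.val g}

/-- `e` is a consequence of the true equations in `H` -/
def Cons (H : Item D k → Prop) (e : FS D k) : Prop := FS.val e ∈ consSpace H

/-- `p` does not occur in the node (and is not the default parameter `0`) -/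
def Fresh (p : ℕ) (Γ : Node D k) : Prop := p ≠ 0 ∧ ∀ i ∈ Γ, p ∉ i.2.2

/-- The tableau rules: premises and conclusion. -/
inductive TabRule : List (Node D k) → Node D k → Prop
  | fls (Γ : Node D k) (ρ : List ℕ) (h : (true, Fm.fls, ρ) ∈ Γ) : TabRule [] Γ
  | eq (Γ : Node D k) (ρ : List ℕ) (s t : Tm D k) (h : (false, Fm.eq s t, ρ) ∈ Γ)
      (hc : Cons (· ∈ Γ) (eqFS ρ s t)) : TabRule [] Γ
  | impT (Γ : Node D k) (ρ : List ℕ) (φ ψ : Fm D k) (h : (true, Fm.imp φ ψ, ρ) ∈ Γ) :
      TabRule [(false, φ, ρ) :: Γ, (true, ψ, ρ) :: Γ] Γ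
  | impF (Γ : Node D k) (ρ : List ℕ) (φ ψ : Fm D k) (h : (false, Fm.imp φ ψ, ρ) ∈ Γ) :
      TabRule [(true, φ, ρ) :: (false, ψ, ρ) :: Γ] Γ
  | allT (Γ : Node D k) (ρ : List ℕ) (φ : Fm D k) (p : ℕ) (h : (true, Fm.all φ, ρ) ∈ Γ) :
      TabRule [(true, φ, p :: ρ) :: Γ] Γ
  | allF (Γ : Node D k) (ρ : List ℕ) (φ : Fm D k) (p : ℕ) (h : (false, Fm.all φ, ρ) ∈ Γ)
      (hp : Fresh p Γ) : TabRule [(false, φ, p :: ρ) :: Γ] Γ
  | name (Γ : Node D k) (ρ : List ℕ) (t : Tm D k) (p : ℕ) (ht : t.Below ρ.length)
      (hp : Fresh p Γ) (hp' : p ∉ ρ) : TabRule [(true, .eq (.var ρ.length) t, ρ ++ [p]) :: Γ] Γ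

/-- the node is closed -/
abbrev Closed (Γ : Node D k) : Prop := ReCalc.Der (TabRule (D := D) (k := k)) Γ

end defs

end StrAlg
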