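import Pool.Agent.Lib.MP_b9fd58_lc.LDefs
set_option autoImplicit false

/-!
# Evaluation of formal sums in modules, and the module presented by a set of equations
-/

namespace StrAlg

section eval
variable {D : Dat} {k : Type} [Field k] {N : Type} [AddCommGroup N] [Module k N]

/-- the action of a word as a linear map -/
def QMod.wordL (Q : QMod D k N) (w : List D.Gen) : N →ₗ[k] N :=
  w.foldl (fun f g => (Q.op g).comp f) LinearMap.id

theorem LModelA_foldl (Q : QMod D k N) (w : List D.Gen) (n : N) : ∀ f : N →ₗ[k] N,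
    (w.foldl (fun f g => (Q.op g).comp f) f) n = w.foldl (fun m g => Q.op g m) (f n) := by
  induction w with
  | nil => intro f; rfl
  | cons g w ih =>
    intro f
    rw [List.foldl_cons, List.foldl_cons, ih]
    rfl

theorem QMod.wordL_apply (Q : QMod D k N) (w : List D.Gen) (n : N) : Q.wordL w n = Q.word w n := by
  unfold QMod.wordL QMod.word
  rw [LModelA_foldl]
  rfl

theorem LModelA_word_zero (Q : QMod D k N) (w : List D.Gen) : Q.word w (0 : N) = 0 := by
  rw [← QMod.wordL_apply, map_zero]

theorem QMod.word_append (Q : QMod D k N) (u w : List D.Gen) (n : N) :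
    Q.word (u ++ w) n = Q.word w (Q.word u n) := by
  unfold QMod.word
  rw [List.foldl_append]

theorem FS.evQ_append (Q : QMod D k N) (π : ℕ → N) (L L' : FS D k) :
    FS.evQ Q π (L ++ L') = FS.evQ Q π L + FS.evQ Q π L' := by
  unfold FS.evQ
  rw [List.map_append, List.sum_append]

theorem FS.evQ_scale (Q : QMod D k N) (π : ℕ → N) (a : k) (L : FS D k) :
    FS.evQ Q π (FS.scale a L) = a • FS.evQ Q π L := by
  unfold FS.evQ FS.scale
  induction L with
  | nil => simp
  | cons t L ih =>
    simp only [List.map_cons, List.sum_cons, smul_add, mul_smul] at ih ⊢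
    rw [ih]

theorem FS.evQ_shift (Q : QMod D k N) (π : ℕ → N) (w : List D.Gen) (L : FS D k) :
    FS.evQ Q π (FS.shift w L) = Q.word w (FS.evQ Q π L) := by
  unfold FS.evQ FS.shift
  rw [← QMod.wordL_apply]
  induction L with
  | nil => simp
  | cons t L ih =>
    simp only [List.map_cons, List.sum_cons, map_add, map_smul] at ih ⊢
    rw [ih]
    simp only [QMod.wordL_apply, QMod.word_append]

theorem FS.evQ_actc (Q : QMod D k N) (π : ℕ → N) (c : ElCode D k) (L : FS D k) :
    FS.evQ Q π (FS.actc c L) = Q.act c (FS.evQ Q π L) := by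
  unfold FS.actc QMod.act
  induction c with
  | nil => simp [FS.evQ]
  | cons b c ih =>
    rw [List.flatMap_cons, FS.evQ_append, ih, List.map_cons, List.sum_cons, FS.evQ_scale, FS.evQ_shift]

/-- the formal sum of a term has the value of the term -/
theorem evQ_tsum (Q : QMod D k N) (π : ℕ → N) (ρ : List ℕ) (t : Tm D k) :
    FS.evQ Q π (tsum ρ t) = t.valQ Q (fun n => π (envp ρ n)) := by
  induction t with
  | var n => simp [tsum, FS.evQ, Tm.valQ, QMod.word]
  | zero => simp [tsum, FS.evQ, Tm.valQ]
  | add s t ihs iht =>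
    simp only [tsum, Tm.valQ]
    rw [FS.evQ_append, ihs, iht]
  | act c t ih =>
    simp only [tsum, Tm.valQ]
    rw [FS.evQ_actc, ih]

theorem satQ_eq_iff (Q : QMod D k N) (π : ℕ → N) (ρ : List ℕ) (s t : Tm D k) :
    (Fm.eq s t).SatQ Q (fun n => π (envp ρ n)) ↔ FS.evQ Q π (eqFS ρ s t) = 0 := by
  unfold eqFS
  rw [FS.evQ_append, FS.evQ_scale, evQ_tsum, evQ_tsum, neg_one_smul, ← sub_eq_add_neg, sub_eq_zero]
  rfl

/-- evaluation as a linear map -/
noncomputable def evL (Q : QMod D k N) (π : ℕ → N) : (PX D →₀ k) →ₗ[k] N :=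
  Finsupp.linearCombination k (fun x : PX D => Q.word x.1 (π x.2))

theorem evL_val (Q : QMod D k N) (π : ℕ → N) (L : FS D k) : evL Q π (FS.val L) = FS.evQ Q π L := by
  unfold FS.val FS.evQ evL
  induction L with
  | nil => simp
  | cons t L ih =>
    simp only [List.map_cons, List.sum_cons, map_add, Finsupp.linearCombination_single] at ih ⊢
    rw [ih]

theorem LModelA_relInst (Q : QMod D k N) (π : ℕ → N) (r : ElCode D k) (w w' : List D.Gen) (p : ℕ) :
    FS.evQ Q π (relInst r w w' p) = Q.word w' (Q.act r (Q.word w (π p))) := by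
  unfold FS.evQ relInst QMod.act
  rw [← QMod.wordL_apply Q w']
  induction r with
  | nil => simp
  | cons t r ih =>
    simp only [List.map_cons, List.sum_cons, map_add, map_smul] at ih ⊢
    rw [ih]
    simp only [QMod.wordL_apply, QMod.word_append]

theorem LModelA_rel_act (Q : QMod D k N) (r : ElCode D k) (hr : r ∈ relL D k) (m : N) :
    Q.act r m = 0 := by
  unfold relL at hr
  simp only [List.mem_append, List.mem_map, List.mem_flatMap, List.mem_filter, List.mem_singleton] at hr
  rcases hr with ((((⟨i, -, rfl⟩ | ⟨i, -, j, ⟨-, hij⟩, rfl⟩) | rfl) | ⟨a, -, rfl⟩) | ⟨a, -, rfl⟩) | ⟨r', hr', rfl⟩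
  · simp [QMod.act, QMod.word, Q.idem]
  · have hij' : i ≠ j := by simpa using hij
    simp [QMod.act, QMod.word, Q.orth i j m hij']
  · have h1 := Q.one m
    rw [Fin.sum_univ_def] at h1
    simp only [QMod.act, List.map_append, List.map_map, List.sum_append, List.map_cons, List.map_nil,
      List.sum_cons, List.sum_nil, add_zero]
    have h2 : ((fun t : k × List D.Gen => t.1 • Q.word t.2 m) ∘ fun i : Fin D.nV => ((1 : k), [(Sum.inl i : D.Gen)])) =
        fun i => Q.op (Sum.inl i) m := by
      funext i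
      simp [QMod.word]
    rw [h2, h1]
    simp [QMod.word]
  · simp [QMod.act, QMod.word, Q.src]
  · simp [QMod.act, QMod.word, Q.tgt]
  · have h1 := Q.rel r' hr' m
    simp only [QMod.act, QMod.word, List.map_cons, List.map_nil, List.sum_cons, List.sum_nil, add_zero,
      List.foldl_map, h1, smul_zero]

/-- the relations hold in every module -/
theorem relInst_zero (Q : QMod D k N) (π : ℕ → N) (r : ElCode D k) (hr : r ∈ relL D k)
    (w w' : List D.Gen) (p : ℕ) : FS.evQ Q π (relInst r w w' p) = 0 := by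
  rw [LModelA_relInst, LModelA_rel_act Q r hr, LModelA_word_zero]

/-- soundness of the consequence relation -/
theorem cons_sound (Q : QMod D k N) (π : ℕ → N) (H : Item D k → Prop)
    (hH : ∀ s t ρ, H (true, .eq s t, ρ) → (Fm.eq s t).SatQ Q (fun n => π (envp ρ n)))
    (e : FS D k) (he : Cons H e) : FS.evQ Q π e = 0 := by
  have h1 : consSpace H ≤ LinearMap.ker (evL Q π) := by
    unfold consSpace
    rw [Submodule.span_le]
    rintro x ⟨g, hg, rfl⟩
    show evL Q π (FS.val g) = 0
    rw [evL_val]
    rcases hg with ⟨s, t, ρ, w, h, rfl⟩ | ⟨r, hr, w, w', p, rfl⟩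
    · rw [FS.evQ_shift, (satQ_eq_iff Q π ρ s t).1 (hH s t ρ h), LModelA_word_zero]
    · exact relInst_zero Q π r hr w w' p
  have h2 : evL Q π (FS.val e) = 0 := h1 he
  rwa [evL_val] at h2

end eval

end StrAlg
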