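import Pool.Agent.Lib.MP_b9fd58_lc.LNFA
import Pool.Agent.Lib.MP_b9fd58_lc.LCover
set_option autoImplicit false

/-!
# The quantifier step of the normal form theorem
-/

namespace StrAlg

section nf
variable {D : Dat} {k : Type} [Field k]

/-- the same truncated ranks -/
def SameRk (Λ : List ((PP D k × PP D k) × ℕ)) {N N' : Type} [AddCommGroup N] [Module k N]
    [AddCommGroup N'] [Module k N'] (Q : QMod D k N) (Q' : QMod D k N') : Prop :=
  ∀ t ∈ Λ, min (t.2 : ℕ∞) (Q.rank t.1.1 t.1.2) = min (t.2 : ℕ∞) (Q'.rank t.1.1 t.1.2)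

/-- the same truth values of pp-formulas -/
def SamePP (n : ℕ) (Φ : List (PP D k)) {N N' : Type} [AddCommGroup N] [Module k N]
    [AddCommGroup N'] [Module k N'] (Q : QMod D k N) (Q' : QMod D k N') (x : ℕ → N)
    (x' : ℕ → N') : Prop :=
  ∀ S ∈ Φ, (ppSat Q n S x ↔ ppSat Q' n S x')

theorem LNFB_consV_add {N : Type} [AddCommGroup N] (a b : N) (x y : ℕ → N) :
    consV a x + consV b y = consV (a + b) (x + y) := by
  funext n
  cases n <;> rfl

theorem LNFB_sat_add {N : Type} [AddCommGroup N] [Module k N] (Q : QMod D k N) (n : ℕ)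
    (S : PP D k) {a b : N} {x : ℕ → N} (ha : ppSat Q n S (consV a x))
    (hb : ppSat Q n S (consV b 0)) : ppSat Q n S (consV (a + b) x) := by
  have h := ppSat_add Q n S ha hb
  rwa [LNFB_consV_add, add_zero] at h

theorem LNFB_sat_sub {N : Type} [AddCommGroup N] [Module k N] (Q : QMod D k N) (n : ℕ)
    (S : PP D k) {a b : N} {x : ℕ → N} (ha : ppSat Q n S (consV a x))
    (hb : ppSat Q n S (consV b x)) : ppSat Q n S (consV (a - b) 0) := by
  have h := ppSat_add Q n S ha (ppSat_smul Q n S (-1) hb)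
  have e : consV a x + (-1 : k) • consV b x = consV (a - b) 0 := by
    funext m
    cases m with
    | zero =>
      show a + (-1 : k) • b = a - b
      rw [neg_one_smul]
      abel
    | succ m =>
      show x m + (-1 : k) • x m = 0
      rw [neg_one_smul]
      abel
  rwa [e] at h

/-- the members of a list with index in `J` -/
noncomputable def LNFB_sel (R : List (PP D k)) (J : Finset (Fin R.length)) : List (PP D k) :=
  J.toList.map fun i => R.get i

theorem LNFB_mem_sel (R : List (PP D k)) (J : Finset (Fin R.length)) (S : PP D k) :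
    S ∈ LNFB_sel R J ↔ ∃ i ∈ J, R.get i = S := by
  unfold LNFB_sel
  simp

section pat
variable {N : Type} [AddCommGroup N] [Module k N]

/-- the pattern of the sets defined by the members of `R` in a coset `y0 + W` -/
noncomputable def LNFB_pat (Q : QMod D k N) (n : ℕ) (R : List (PP D k)) (W : Submodule k N)
    (y0 : N) (x : ℕ → N) : Cover.Pat k R.length W where
  T i :=
    { carrier := {w | ppSat Q (n + 1) (R.get i) (consV (w : N) 0)}
      add_mem' := by
        intro a b ha hb
        show ppSat Q (n + 1) (R.get i) (consV ((a + b : W) : N) 0)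
        rw [Submodule.coe_add]
        exact LNFB_sat_add Q (n + 1) (R.get i) ha hb
      zero_mem' := by
        show ppSat Q (n + 1) (R.get i) (consV ((0 : W) : N) 0)
        have e : consV ((0 : W) : N) (0 : ℕ → N) = 0 := by
          funext m
          cases m <;> rfl
        rw [e]
        exact ppSat_zero Q (n + 1) (R.get i)
      smul_mem' := by
        intro c a ha
        show ppSat Q (n + 1) (R.get i) (consV ((c • a : W) : N) 0)
        have e : consV ((c • a : W) : N) (0 : ℕ → N) = c • consV (a : N) 0 := by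
          funext m
          cases m with
          | zero => rfl
          | succ m =>
            show (0 : N) = c • (0 : N)
            rw [smul_zero]
        rw [e]
        exact ppSat_smul Q (n + 1) (R.get i) c ha }
  E i := {w | ppSat Q (n + 1) (R.get i) (consV (y0 + (w : N)) x)}
  hE i := by
    rcases Set.eq_empty_or_nonempty
      {w : W | ppSat Q (n + 1) (R.get i) (consV (y0 + (w : N)) x)} with h | ⟨w0, hw0⟩
    · exact Or.inl h
    · right
      refine ⟨w0, ?_⟩
      ext w
      show ppSat Q (n + 1) (R.get i) (consV (y0 + (w : N)) x) ↔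
        ppSat Q (n + 1) (R.get i) (consV ((w - w0 : W) : N) 0)
      rw [Submodule.coe_sub]
      constructor
      · intro h1
        have h2 := LNFB_sat_sub Q (n + 1) (R.get i) h1 hw0
        have e : y0 + (w : N) - (y0 + (w0 : N)) = (w : N) - w0 := by abel
        rwa [e] at h2
      · intro h1
        have h2 := LNFB_sat_add Q (n + 1) (R.get i) hw0 h1
        have e : y0 + (w0 : N) + ((w : N) - w0) = y0 + (w : N) := by abel
        rwa [e] at h2

/-- the codimensions of the pattern are ranks of pp-pairs -/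
theorem LNFB_cd (Q : QMod D k N) (n : ℕ) (P R : List (PP D k)) (zP zJ : PP D k) (y0 : N)
    (x : ℕ → N) (J : Finset (Fin R.length))
    (h1 : ∀ y, y ∈ Q.ppS zP ↔ ∀ S ∈ P, ppSat Q (n + 1) S (consV y 0))
    (h2 : ∀ y, y ∈ Q.ppS zJ ↔ ∀ S ∈ P ++ LNFB_sel R J, ppSat Q (n + 1) S (consV y 0)) :
    (LNFB_pat Q n R (Q.ppS zP) y0 x).cd J = Q.rank zP zJ := by
  unfold Cover.Pat.cd QMod.rank
  have e : (⨅ i ∈ J, (LNFB_pat Q n R (Q.ppS zP) y0 x).T i) =
      (Q.ppS zJ).comap (Q.ppS zP).subtype := by
    ext w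
    simp only [Submodule.mem_iInf, Submodule.mem_comap]
    show (∀ i ∈ J, ppSat Q (n + 1) (R.get i) (consV (w : N) 0)) ↔ (w : N) ∈ Q.ppS zJ
    rw [h2]
    constructor
    · intro h S hS
      rw [List.mem_append] at hS
      rcases hS with hS | hS
      · exact (h1 _).1 w.2 S hS
      · rw [LNFB_mem_sel] at hS
        obtain ⟨i, hi, rfl⟩ := hS
        exact h i hi
    · intro h i hi
      apply h
      rw [List.mem_append, LNFB_mem_sel]
      exact Or.inr ⟨i, hi, rfl⟩
  rw [e]

/-- the intersections of the pattern -/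
theorem LNFB_inter (Q : QMod D k N) (n : ℕ) (P R : List (PP D k)) (zP : PP D k) (y0 : N)
    (x : ℕ → N) (J : Finset (Fin R.length))
    (h1 : ∀ y, y ∈ Q.ppS zP ↔ ∀ S ∈ P, ppSat Q (n + 1) S (consV y 0))
    (hy0 : ∀ S ∈ P, ppSat Q (n + 1) S (consV y0 x)) :
    ((LNFB_pat Q n R (Q.ppS zP) y0 x).inter J).Nonempty ↔
      ∃ z, ∀ S ∈ P ++ LNFB_sel R J, ppSat Q (n + 1) S (consV z x) := by
  unfold Cover.Pat.inter
  constructor
  · rintro ⟨w, hw⟩
    simp only [Set.mem_iInter] at hw
    refine ⟨y0 + (w : N), fun S hS => ?_⟩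
    rw [List.mem_append] at hS
    rcases hS with hS | hS
    · exact LNFB_sat_add Q (n + 1) S (hy0 S hS) ((h1 _).1 w.2 S hS)
    · rw [LNFB_mem_sel] at hS
      obtain ⟨i, hi, rfl⟩ := hS
      exact hw i hi
  · rintro ⟨z, hz⟩
    have hw : z - y0 ∈ Q.ppS zP := by
      rw [h1]
      intro S hS
      exact LNFB_sat_sub Q (n + 1) S (hz S (List.mem_append.2 (Or.inl hS))) (hy0 S hS)
    refine ⟨⟨z - y0, hw⟩, ?_⟩
    simp only [Set.mem_iInter]
    intro i hi
    show ppSat Q (n + 1) (R.get i) (consV (y0 + (z - y0)) x)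
    rw [add_sub_cancel]
    apply hz
    rw [List.mem_append, LNFB_mem_sel]
    exact Or.inr ⟨i, hi, rfl⟩

end pat

/-- Quantifier step: for a list `Φ` of pp-formulas in the variables `0, …, n` the set of the patterns
realised by the elements `y` over `x` depends only on finitely many pp-formulas at `x` and truncated ranks. -/
theorem pattern_step (n : ℕ) (Φ : List (PP D k)) :
    ∃ (Ψ : List (PP D k)) (Λ : List ((PP D k × PP D k) × ℕ)), (∀ t ∈ Λ, Finite k ∨ t.2 = 1) ∧
      ∀ (N N' : Type) [AddCommGroup N] [Module k N] [AddCommGroup N'] [Module k N']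
        (Q : QMod D k N) (Q' : QMod D k N') (x : ℕ → N) (x' : ℕ → N'),
        SamePP n Ψ Q Q' x x' → SameRk Λ Q Q' →
          ∀ y : N, ∃ y' : N', SamePP (n + 1) Φ Q Q' (consV y x) (consV y' x') := by
  classical
  choose conj hconj using fun l : List (PP D k) => exists_pp_conj (n + 1) l
  choose exS hexS using fun S : PP D k => exists_pp_ex n S
  choose zS hzS using fun S : PP D k => exists_pp_zero n S
  choose m hm1 hm2 using fun r : ℕ => Cover.cover_main k r
  refine ⟨Φ.sublists.flatMap fun P => Φ.sublists.flatMap fun R =>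
      (Finset.univ : Finset (Finset (Fin R.length))).toList.map fun J =>
        exS (conj (P ++ LNFB_sel R J)),
    Φ.sublists.flatMap fun P => Φ.sublists.flatMap fun R =>
      (Finset.univ : Finset (Finset (Fin R.length))).toList.map fun J =>
        ((zS (conj P), zS (conj (P ++ LNFB_sel R J))), m R.length), ?_, ?_⟩
  · intro t ht
    simp only [List.mem_flatMap, List.mem_map] at ht
    obtain ⟨P, _, R, _, J, _, rfl⟩ := ht
    exact hm1 R.length
  intro N N' _ _ _ _ Q Q' x x' hΨ hΛ y
  set P : List (PP D k) := Φ.filter fun S => ppSat Q (n + 1) S (consV y x) with hP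
  set R : List (PP D k) := Φ.filter fun S => ¬ ppSat Q (n + 1) S (consV y x) with hR
  have hPs : P ∈ Φ.sublists := List.mem_sublists.2 List.filter_sublist
  have hRs : R ∈ Φ.sublists := List.mem_sublists.2 List.filter_sublist
  have hPm : ∀ S ∈ P, ppSat Q (n + 1) S (consV y x) := by
    intro S hS
    rw [hP, List.mem_filter] at hS
    simpa using hS.2
  have hRm : ∀ S ∈ R, ¬ ppSat Q (n + 1) S (consV y x) := by
    intro S hS
    rw [hR, List.mem_filter] at hS
    simpa using hS.2
  -- the data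
  have d1 : ∀ J : Finset (Fin R.length),
      ((∃ z, ∀ S ∈ P ++ LNFB_sel R J, ppSat Q (n + 1) S (consV z x)) ↔
        ∃ z, ∀ S ∈ P ++ LNFB_sel R J, ppSat Q' (n + 1) S (consV z x')) := by
    intro J
    have h1 : ppSat Q n (exS (conj (P ++ LNFB_sel R J))) x ↔
        ppSat Q' n (exS (conj (P ++ LNFB_sel R J))) x' := by
      apply hΨ
      simp only [List.mem_flatMap, List.mem_map]
      exact ⟨P, hPs, R, hRs, J, by simp, rfl⟩
    rw [hexS, hexS] at h1
    constructor
    · rintro ⟨z, hz⟩
      obtain ⟨z', hz'⟩ := h1.1 ⟨z, (hconj _ N Q _).2 hz⟩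
      exact ⟨z', (hconj _ N' Q' _).1 hz'⟩
    · rintro ⟨z, hz⟩
      obtain ⟨z', hz'⟩ := h1.2 ⟨z, (hconj _ N' Q' _).2 hz⟩
      exact ⟨z', (hconj _ N Q _).1 hz'⟩
  have d2 : ∀ J : Finset (Fin R.length), min ((m R.length : ℕ) : ℕ∞)
      (Q.rank (zS (conj P)) (zS (conj (P ++ LNFB_sel R J)))) =
      min ((m R.length : ℕ) : ℕ∞) (Q'.rank (zS (conj P)) (zS (conj (P ++ LNFB_sel R J)))) := by
    intro J
    apply hΛ ((zS (conj P), zS (conj (P ++ LNFB_sel R J))), m R.length)
    simp only [List.mem_flatMap, List.mem_map]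
    exact ⟨P, hPs, R, hRs, J, by simp, rfl⟩
  have hsel : LNFB_sel R ∅ = [] := by
    unfold LNFB_sel
    simp
  obtain ⟨y0', hy0'⟩ : ∃ z, ∀ S ∈ P, ppSat Q' (n + 1) S (consV z x') := by
    have h1 := (d1 ∅).1 ⟨y, by
      rw [hsel, List.append_nil]
      exact hPm⟩
    rw [hsel, List.append_nil] at h1
    exact h1
  have z1 : ∀ l : List (PP D k), ∀ y, y ∈ Q.ppS (zS (conj l)) ↔
      ∀ S ∈ l, ppSat Q (n + 1) S (consV y 0) := by
    intro l y
    rw [hzS, hconj]
  have z1' : ∀ l : List (PP D k), ∀ y, y ∈ Q'.ppS (zS (conj l)) ↔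
      ∀ S ∈ l, ppSat Q' (n + 1) S (consV y 0) := by
    intro l y
    rw [hzS, hconj]
  have hsame : Cover.Same (m R.length) (LNFB_pat Q n R (Q.ppS (zS (conj P))) y x)
      (LNFB_pat Q' n R (Q'.ppS (zS (conj P))) y0' x') := by
    constructor
    · intro J
      rw [LNFB_inter Q n P R (zS (conj P)) y x J (z1 P) hPm,
        LNFB_inter Q' n P R (zS (conj P)) y0' x' J (z1' P) hy0']
      exact d1 J
    · intro J
      rw [LNFB_cd Q n P R (zS (conj P)) (zS (conj (P ++ LNFB_sel R J))) y x J (z1 P)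
          (z1 (P ++ LNFB_sel R J)),
        LNFB_cd Q' n P R (zS (conj P)) (zS (conj (P ++ LNFB_sel R J))) y0' x' J (z1' P)
          (z1' (P ++ LNFB_sel R J))]
      exact d2 J
  have hnc : ¬ (LNFB_pat Q n R (Q.ppS (zS (conj P))) y x).Covers := by
    intro hc
    obtain ⟨i, hi⟩ := hc 0
    have hi' : ppSat Q (n + 1) (R.get i) (consV (y + ((0 : Q.ppS (zS (conj P))) : N)) x) := hi
    rw [Submodule.coe_zero, add_zero] at hi'
    exact hRm _ (List.get_mem R i) hi'
  rw [hm2 R.length _ _ hsame] at hnc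
  unfold Cover.Pat.Covers at hnc
  push Not at hnc
  obtain ⟨w, hw⟩ := hnc
  refine ⟨y0' + (w : N'), ?_⟩
  intro S hS
  by_cases hs : ppSat Q (n + 1) S (consV y x)
  · have hSP : S ∈ P := by
      rw [hP, List.mem_filter]
      exact ⟨hS, by simpa using hs⟩
    refine ⟨fun _ => ?_, fun _ => hs⟩
    exact LNFB_sat_add Q' (n + 1) S (hy0' S hSP) ((z1' P _).1 w.2 S hSP)
  · have hSR : S ∈ R := by
      rw [hR, List.mem_filter]
      exact ⟨hS, by simpa using hs⟩
    refine ⟨fun h => absurd h hs, fun h => ?_⟩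
    obtain ⟨i, rfl⟩ := List.mem_iff_get.1 hSR
    exact absurd h (hw i)

end nf

end StrAlg
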