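import Pool.Agent.Lib.MP_b9fd58_lc.LCode
set_option autoImplicit false

/-!
# Computability of formal sums; the consequence relation and the tableau rules are r.e.
-/

namespace StrAlg

open ReCalc

variable {D : Dat} {k : Type} [Field k] [Primcodable k]

/-- the coefficients of a key -/
def FS.coeffs (L : FS D k) (x : PX D) : List k := (L.filter fun t => decide (t.2 = x)).map Prod.fst

omit [Primcodable k] in
theorem LSumA_val_apply (L : FS D k) (x : PX D) : FS.val L x = (FS.coeffs L x).sum := by
  induction L with
  | nil => rfl
  | cons t L ih =>
    have h1 : FS.val (t :: L) x = (Finsupp.single t.2 t.1 : PX D →₀ k) x + FS.val L x := by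
      unfold FS.val
      rw [List.map_cons, List.sum_cons, Finsupp.add_apply]
    rw [h1, ih]
    unfold FS.coeffs
    by_cases h : t.2 = x
    · rw [List.filter_cons_of_pos (by simp [h]), List.map_cons, List.sum_cons, h,
        Finsupp.single_eq_same]
    · rw [List.filter_cons_of_neg (by simp [h]), Finsupp.single_eq_of_ne (Ne.symm h), zero_add]

/-- `FS.val L = 0`, as a condition that can be checked -/
theorem FS.val_eq_zero_iff (L : FS D k) :
    FS.val L = 0 ↔ ∀ t ∈ L, (FS.coeffs L t.2).sum = 0 := by
  constructor
  · intro h t _
    rw [← LSumA_val_apply, h, Finsupp.zero_apply]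
  · intro h
    ext x
    rw [LSumA_val_apply, Finsupp.zero_apply]
    by_cases hx : ∃ t ∈ L, t.2 = x
    · obtain ⟨t, ht, rfl⟩ := hx
      exact h t ht
    · have h2 : (L.filter fun t => decide (t.2 = x)) = [] := by
        rw [List.filter_eq_nil_iff]
        intro t ht htx
        exact hx ⟨t, ht, by simpa using htx⟩
      unfold FS.coeffs
      rw [h2]
      rfl

theorem re_val_zero (hadd : Computable₂ (fun a b : k => a + b)) :
    REPred fun L : FS D k => FS.val L = 0 := by
  refine REPred.of_eq (p := fun L : FS D k => ∀ t ∈ L, (FS.coeffs L t.2).sum = 0) ?_
    (fun L => (FS.val_eq_zero_iff L).symm)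
  refine re_forall_mem (f := fun L : FS D k => L)
    (q := fun (L : FS D k) (t : k × PX D) => (FS.coeffs L t.2).sum = 0) Computable.id ?_
  refine re_eq (sumC hadd ?_) (Computable.const 0)
  refine mapC (h := fun _ (u : k × PX D) => u.1) ?_ (Computable.fst.comp Computable.snd)
  refine filterC (f := fun p : FS D k × (k × PX D) => p.1)
    (h := fun p (u : k × PX D) => decide (u.2 = p.2.2)) Computable.fst ?_
  exact eqC (Computable.snd.comp Computable.snd)
    (Computable.snd.comp (Computable.snd.comp Computable.fst))

theorem computable_scale (hmul : Computable₂ (fun a b : k => a * b)) :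
    Computable fun p : k × FS D k => FS.scale p.1 p.2 := by
  refine mapC (f := fun p : k × FS D k => p.2)
    (h := fun p (t : k × PX D) => (p.1 * t.1, t.2)) Computable.snd ?_
  exact Computable.pair (hmul.comp (Computable.fst.comp Computable.fst)
    (Computable.fst.comp Computable.snd)) (Computable.snd.comp Computable.snd)

theorem computable_shift : Computable fun p : List D.Gen × FS D k => FS.shift p.1 p.2 := by
  refine mapC (f := fun p : List D.Gen × FS D k => p.2)
    (h := fun p (t : k × PX D) => (t.1, (t.2.1 ++ p.1, t.2.2))) Computable.snd ?_
  exact Computable.pair (Computable.fst.comp Computable.snd)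
    (Computable.pair (Computable.list_append.comp
      (Computable.fst.comp (Computable.snd.comp Computable.snd))
      (Computable.fst.comp Computable.fst))
      (Computable.snd.comp (Computable.snd.comp Computable.snd)))

theorem computable_actc (hmul : Computable₂ (fun a b : k => a * b)) :
    Computable fun p : ElCode D k × FS D k => FS.actc p.1 p.2 := by
  refine flatMapC (f := fun p : ElCode D k × FS D k => p.1)
    (h := fun p (b : k × List D.Gen) => FS.scale b.1 (FS.shift b.2 p.2)) Computable.fst ?_
  exact (computable_scale hmul).comp (Computable.pair (Computable.fst.comp Computable.snd)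
    (computable_shift.comp (Computable.pair (Computable.snd.comp Computable.snd)
      (Computable.snd.comp Computable.fst))))

theorem computable_tsum (hmul : Computable₂ (fun a b : k => a * b)) :
    Computable fun p : List ℕ × Tm D k => tsum p.1 p.2 := by
  refine tmRecC (D := D) (k := k) (α := List ℕ) (σ := FS D k)
    (fun ρ n => [(1, ([], envp ρ n))]) (fun _ => []) (fun _ u v => u ++ v)
    (fun _ c u => FS.actc c u) ?_ (Computable.const _) ?_ ?_ (fun ρ t => tsum ρ t)
    (fun _ _ => rfl) (fun _ => rfl) (fun _ _ _ => rfl) (fun _ _ _ => rfl)
  · exact Computable.list_cons.comp (Computable.pair (Computable.const 1)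
      (Computable.pair (Computable.const [])
        ((Primrec.list_getD 0).to_comp.comp Computable.fst Computable.snd))) (Computable.const _)
  · exact Computable.list_append.comp (Computable.fst.comp Computable.snd)
      (Computable.snd.comp Computable.snd)
  · exact (computable_actc hmul).comp Computable.snd

theorem computable_eqFS (hmul : Computable₂ (fun a b : k => a * b)) :
    Computable fun p : List ℕ × Tm D k × Tm D k => eqFS p.1 p.2.1 p.2.2 := by
  refine Computable.list_append.comp ?_ ?_
  · exact (computable_tsum hmul).comp (Computable.pair Computable.fst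
      (Computable.fst.comp Computable.snd))
  · exact (computable_scale hmul).comp (Computable.pair (Computable.const (-1))
      ((computable_tsum hmul).comp (Computable.pair Computable.fst
        (Computable.snd.comp Computable.snd))))

end StrAlg
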