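import Pool.Agent.Lib.MP_b9fd58_lc.LModelA
set_option autoImplicit false

/-!
# Soundness and completeness of the tableaux
-/

namespace StrAlg

section basic
variable {D : Dat} {k : Type} [Field k] {N : Type} [AddCommGroup N] [Module k N]

/-- the item holds in the module, for the given values of the parameters -/
def ItemHolds (Q : QMod D k N) (π : ℕ → N) (i : Item D k) : Prop :=
  if i.1 then i.2.1.SatQ Q (fun n => π (envp i.2.2 n)) else ¬ i.2.1.SatQ Q (fun n => π (envp i.2.2 n))

theorem envp_cons (p : ℕ) (ρ : List ℕ) (π : ℕ → N) :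
    (fun n => π (envp (p :: ρ) n)) = consV (π p) (fun n => π (envp ρ n)) := by
  funext n
  cases n with
  | zero => rfl
  | succ n => rfl

/-- the value of a term depends only on the variables below the bound -/
theorem Tm.valQ_congr (Q : QMod D k N) (t : Tm D k) (n : ℕ) (ht : t.Below n) (v v' : ℕ → N)
    (h : ∀ i < n, v i = v' i) : t.valQ Q v = t.valQ Q v' := by
  induction t with
  | var m => exact h m ht
  | zero => rfl
  | add s t ihs iht =>
    show s.valQ Q v + t.valQ Q v = s.valQ Q v' + t.valQ Q v'
    rw [ihs ht.1, iht ht.2]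
  | act c t ih =>
    show Q.act c (t.valQ Q v) = Q.act c (t.valQ Q v')
    rw [ih ht]

/-- the truth of a formula depends only on the variables below the bound -/
theorem Fm.satQ_congr (Q : QMod D k N) (φ : Fm D k) (n : ℕ) (hφ : φ.Below n) (v v' : ℕ → N)
    (h : ∀ i < n, v i = v' i) : φ.SatQ Q v ↔ φ.SatQ Q v' := by
  induction φ generalizing n v v' with
  | eq s t =>
    show s.valQ Q v = t.valQ Q v ↔ s.valQ Q v' = t.valQ Q v'
    rw [s.valQ_congr Q n hφ.1 v v' h, t.valQ_congr Q n hφ.2 v v' h]
  | fls => exact Iff.rfl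
  | imp φ ψ ihφ ihψ => exact imp_congr (ihφ n hφ.1 v v' h) (ihψ n hφ.2 v v' h)
  | all φ ih =>
    refine forall_congr' fun x => ih (n + 1) hφ _ _ fun i hi => ?_
    cases i with
    | zero => rfl
    | succ i => exact h i (by omega)

theorem LTabA_envp_ne (p : ℕ) (hp : p ≠ 0) {ρ : List ℕ} (hρ : p ∉ ρ) (n : ℕ) : envp ρ n ≠ p := by
  unfold envp
  rcases Nat.lt_or_ge n ρ.length with h | h
  · rw [List.getD_eq_getElem ρ 0 h]
    intro h'
    exact hρ (h' ▸ List.getElem_mem h)
  · rw [List.getD_eq_default ρ 0 h]
    exact hp.symm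

theorem LTabA_update (π : ℕ → N) (p : ℕ) (hp : p ≠ 0) {ρ : List ℕ} (hρ : p ∉ ρ) (x : N) :
    (fun n => Function.update π p x (envp ρ n)) = fun n => π (envp ρ n) := by
  funext n
  exact Function.update_of_ne (LTabA_envp_ne p hp hρ n) _ _

/-- changing the value of a fresh parameter does not affect the items of the node -/
theorem itemHolds_update (Q : QMod D k N) (π : ℕ → N) (Γ : Node D k) (p : ℕ) (hp : Fresh p Γ)
    (x : N) (i : Item D k) (hi : i ∈ Γ) :
    ItemHolds Q (Function.update π p x) i ↔ ItemHolds Q π i := by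
  have h1 := LTabA_update π p hp.1 (hp.2 i hi) x
  unfold ItemHolds
  rw [h1]

/-- **Soundness.** -/
theorem closed_sound (Γ : Node D k) (h : Closed Γ) :
    ∀ (N : Type) [AddCommGroup N] [Module k N] (Q : QMod D k N) (π : ℕ → N),
      ¬ ∀ i ∈ Γ, ItemHolds Q π i := by
  induction h with
  | mk ps Γ hR hp ih =>
    intro N _ _ Q π hall
    cases hR with
    | fls _ ρ h =>
      have h1 := hall _ h
      exact h1
    | eq _ ρ s t h hc =>
      have h1 : ¬ (Fm.eq s t).SatQ Q (fun n => π (envp ρ n)) := hall _ h
      apply h1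
      rw [satQ_eq_iff]
      exact cons_sound Q π (· ∈ Γ) (fun s t ρ hm => hall _ hm) _ hc
    | impT _ ρ φ ψ h =>
      have h1 : φ.SatQ Q (fun n => π (envp ρ n)) → ψ.SatQ Q (fun n => π (envp ρ n)) := hall _ h
      by_cases hφ : φ.SatQ Q (fun n => π (envp ρ n))
      · refine ih ((true, ψ, ρ) :: Γ) (by simp) N Q π fun i hi => ?_
        rcases List.mem_cons.1 hi with rfl | hi
        · exact h1 hφ
        · exact hall i hi
      · refine ih ((false, φ, ρ) :: Γ) (by simp) N Q π fun i hi => ?_
        rcases List.mem_cons.1 hi with rfl | hi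
        · exact hφ
        · exact hall i hi
    | impF _ ρ φ ψ h =>
      have h1 : ¬ (φ.SatQ Q (fun n => π (envp ρ n)) → ψ.SatQ Q (fun n => π (envp ρ n))) :=
        hall _ h
      rw [Classical.not_imp] at h1
      refine ih ((true, φ, ρ) :: (false, ψ, ρ) :: Γ) (by simp) N Q π fun i hi => ?_
      rcases List.mem_cons.1 hi with rfl | hi
      · exact h1.1
      · rcases List.mem_cons.1 hi with rfl | hi
        · exact h1.2
        · exact hall i hi
    | allT _ ρ φ p h =>
      have h1 : ∀ x : N, φ.SatQ Q (consV x (fun n => π (envp ρ n))) := hall _ h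
      refine ih ((true, φ, p :: ρ) :: Γ) (by simp) N Q π fun i hi => ?_
      rcases List.mem_cons.1 hi with rfl | hi
      · show φ.SatQ Q (fun n => π (envp (p :: ρ) n))
        rw [envp_cons]
        exact h1 _
      · exact hall i hi
    | allF _ ρ φ p h hf =>
      have h1 : ¬ ∀ x : N, φ.SatQ Q (consV x (fun n => π (envp ρ n))) := hall _ h
      rw [not_forall] at h1
      obtain ⟨x, hx⟩ := h1
      refine ih ((false, φ, p :: ρ) :: Γ) (by simp) N Q (Function.update π p x) fun i hi => ?_
      rcases List.mem_cons.1 hi with rfl | hi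
      · show ¬ φ.SatQ Q (fun n => Function.update π p x (envp (p :: ρ) n))
        rw [envp_cons, Function.update_self, LTabA_update π p hf.1 (hf.2 _ h) x]
        exact hx
      · rw [itemHolds_update Q π Γ p hf x i hi]
        exact hall i hi
    | name _ ρ t p ht hf hp' =>
      refine ih ((true, .eq (.var ρ.length) t, ρ ++ [p]) :: Γ) (by simp) N Q
        (Function.update π p (t.valQ Q (fun n => π (envp ρ n)))) fun i hi => ?_
      rcases List.mem_cons.1 hi with rfl | hi
      · show Function.update π p (t.valQ Q (fun n => π (envp ρ n))) (envp (ρ ++ [p]) ρ.length) =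
          t.valQ Q (fun n => Function.update π p (t.valQ Q (fun n => π (envp ρ n)))
            (envp (ρ ++ [p]) n))
        have e1 : envp (ρ ++ [p]) ρ.length = p := by
          unfold envp
          rw [List.getD_eq_getElem _ 0 (by simp)]
          simp
        rw [e1, Function.update_self]
        refine Tm.valQ_congr Q t ρ.length ht _ _ fun i hi => ?_
        have e2 : envp (ρ ++ [p]) i = envp ρ i := by
          unfold envp
          exact List.getD_append ρ [p] 0 i hi
        rw [e2, Function.update_of_ne (LTabA_envp_ne p hf.1 hp' i)]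
      · rw [itemHolds_update Q π Γ p hf _ i hi]
        exact hall i hi

end basic

end StrAlg
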