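import Pool.Agent.Lib.MP_b9fd58_lc.LTabA
set_option autoImplicit false

/-!
# One step of the construction of a Hintikka set
-/

namespace StrAlg

section complete
variable {D : Dat} {k : Type} [Field k]

/-- the tasks of the construction of a Hintikka set: an item with a parameter, or a term to be named -/
abbrev Task (D : Dat) (k : Type) : Type := (Item D k × ℕ) ⊕ (Tm D k × List ℕ)

/-- the task has been done in the node -/
inductive Done : Task D k → Node D k → Prop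
  | impT (φ ψ : Fm D k) (ρ : List ℕ) (q : ℕ) (Γ : Node D k)
      (h : (true, Fm.imp φ ψ, ρ) ∈ Γ → (false, φ, ρ) ∈ Γ ∨ (true, ψ, ρ) ∈ Γ) :
      Done (Sum.inl ((true, Fm.imp φ ψ, ρ), q)) Γ
  | impF (φ ψ : Fm D k) (ρ : List ℕ) (q : ℕ) (Γ : Node D k)
      (h : (false, Fm.imp φ ψ, ρ) ∈ Γ → (true, φ, ρ) ∈ Γ ∧ (false, ψ, ρ) ∈ Γ) :
      Done (Sum.inl ((false, Fm.imp φ ψ, ρ), q)) Γ
  | allT (φ : Fm D k) (ρ : List ℕ) (q : ℕ) (Γ : Node D k)
      (h : (true, Fm.all φ, ρ) ∈ Γ → (true, φ, q :: ρ) ∈ Γ) :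
      Done (Sum.inl ((true, Fm.all φ, ρ), q)) Γ
  | allF (φ : Fm D k) (ρ : List ℕ) (q : ℕ) (Γ : Node D k)
      (h : (false, Fm.all φ, ρ) ∈ Γ → ∃ p, (false, φ, p :: ρ) ∈ Γ) :
      Done (Sum.inl ((false, Fm.all φ, ρ), q)) Γ
  | triv (b : Bool) (φ : Fm D k) (ρ : List ℕ) (q : ℕ) (Γ : Node D k)
      (h : (∃ s t, φ = Fm.eq s t) ∨ φ = Fm.fls) : Done (Sum.inl ((b, φ, ρ), q)) Γ
  | name (t : Tm D k) (ρ : List ℕ) (Γ : Node D k)
      (h : t.Below ρ.length → ∃ p, (true, Fm.eq (.var ρ.length) t, ρ ++ [p]) ∈ Γ) :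
      Done (Sum.inr (t, ρ)) Γ

/-- there are fresh parameters -/
theorem exists_fresh (Γ : Node D k) (ρ : List ℕ) : ∃ p, Fresh p Γ ∧ p ∉ ρ := by
  obtain ⟨p, hp⟩ := Infinite.exists_notMem_finset
    (((Γ.flatMap (fun i : Item D k => i.2.2)) ++ ρ ++ [0]).toFinset)
  rw [List.mem_toFinset] at hp
  simp only [List.mem_append, List.mem_flatMap, List.mem_singleton, not_or, not_exists] at hp
  obtain ⟨⟨h1, h2⟩, h3⟩ := hp
  refine ⟨p, ⟨h3, ?_⟩, h2⟩
  intro i hi hmem
  exact h1 i ⟨hi, hmem⟩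

/-- contrapositive use of a rule -/
theorem LTabB_rule {ps : List (Node D k)} {Γ : Node D k} (hr : TabRule ps Γ) (h : ¬ Closed Γ) :
    ∃ p ∈ ps, ¬ Closed p := by
  by_contra hcon
  apply h
  refine ReCalc.Der.mk ps Γ hr ?_
  intro p hp
  by_contra hnp
  exact hcon ⟨p, hp, hnp⟩

/-- one step of the construction -/
theorem exists_step (T : Task D k) (Γ : Node D k) (h : ¬ Closed Γ) :
    ∃ Γ' : Node D k, (∀ i ∈ Γ, i ∈ Γ') ∧ ¬ Closed Γ' ∧ Done T Γ' := by
  rcases T with ⟨⟨b, φ, ρ⟩, q⟩ | ⟨t, ρ⟩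
  · cases φ with
    | eq s t => exact ⟨Γ, fun _ hi => hi, h, Done.triv b _ ρ q Γ (Or.inl ⟨s, t, rfl⟩)⟩
    | fls => exact ⟨Γ, fun _ hi => hi, h, Done.triv b _ ρ q Γ (Or.inr rfl)⟩
    | imp φ ψ =>
      cases b with
      | true =>
        by_cases hm : ((true, Fm.imp φ ψ, ρ) : Item D k) ∈ Γ
        · obtain ⟨Γ', hΓ', hnc⟩ := LTabB_rule (TabRule.impT Γ ρ φ ψ hm) h
          rw [List.mem_cons, List.mem_singleton] at hΓ'
          rcases hΓ' with rfl | rfl
          · refine ⟨_, fun i hi => List.mem_cons_of_mem _ hi, hnc, Done.impT φ ψ ρ q _ ?_⟩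
            intro _
            exact Or.inl List.mem_cons_self
          · refine ⟨_, fun i hi => List.mem_cons_of_mem _ hi, hnc, Done.impT φ ψ ρ q _ ?_⟩
            intro _
            exact Or.inr List.mem_cons_self
        · exact ⟨Γ, fun _ hi => hi, h, Done.impT φ ψ ρ q Γ (fun hh => absurd hh hm)⟩
      | false =>
        by_cases hm : ((false, Fm.imp φ ψ, ρ) : Item D k) ∈ Γ
        · obtain ⟨Γ', hΓ', hnc⟩ := LTabB_rule (TabRule.impF Γ ρ φ ψ hm) h
          rw [List.mem_singleton] at hΓ'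
          subst hΓ'
          refine ⟨_, fun i hi => List.mem_cons_of_mem _ (List.mem_cons_of_mem _ hi), hnc,
            Done.impF φ ψ ρ q _ ?_⟩
          intro _
          exact ⟨List.mem_cons_self, List.mem_cons_of_mem _ List.mem_cons_self⟩
        · exact ⟨Γ, fun _ hi => hi, h, Done.impF φ ψ ρ q Γ (fun hh => absurd hh hm)⟩
    | all φ =>
      cases b with
      | true =>
        by_cases hm : ((true, Fm.all φ, ρ) : Item D k) ∈ Γ
        · obtain ⟨Γ', hΓ', hnc⟩ := LTabB_rule (TabRule.allT Γ ρ φ q hm) h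
          rw [List.mem_singleton] at hΓ'
          subst hΓ'
          refine ⟨_, fun i hi => List.mem_cons_of_mem _ hi, hnc, Done.allT φ ρ q _ ?_⟩
          intro _
          exact List.mem_cons_self
        · exact ⟨Γ, fun _ hi => hi, h, Done.allT φ ρ q Γ (fun hh => absurd hh hm)⟩
      | false =>
        by_cases hm : ((false, Fm.all φ, ρ) : Item D k) ∈ Γ
        · obtain ⟨p, hp, _⟩ := exists_fresh Γ ρ
          obtain ⟨Γ', hΓ', hnc⟩ := LTabB_rule (TabRule.allF Γ ρ φ p hm hp) h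
          rw [List.mem_singleton] at hΓ'
          subst hΓ'
          refine ⟨_, fun i hi => List.mem_cons_of_mem _ hi, hnc, Done.allF φ ρ q _ ?_⟩
          intro _
          exact ⟨p, List.mem_cons_self⟩
        · exact ⟨Γ, fun _ hi => hi, h, Done.allF φ ρ q Γ (fun hh => absurd hh hm)⟩
  · by_cases hb : t.Below ρ.length
    · obtain ⟨p, hp, hp'⟩ := exists_fresh Γ ρ
      obtain ⟨Γ', hΓ', hnc⟩ := LTabB_rule (TabRule.name Γ ρ t p hb hp hp') h
      rw [List.mem_singleton] at hΓ'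
      subst hΓ'
      refine ⟨_, fun i hi => List.mem_cons_of_mem _ hi, hnc, Done.name t ρ _ ?_⟩
      intro _
      exact ⟨p, List.mem_cons_self⟩
    · exact ⟨Γ, fun _ hi => hi, h, Done.name t ρ Γ (fun hh => absurd hh hb)⟩

end complete

end StrAlg
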