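import Pool.Agent.Lib.MP_b9fd58_lc.Wd

/-!
# Lines (strings and periodic strings) over an automaton of half edges, matched positions

`nx (i, s, x)` is the vertex and the side of arrival when one leaves the vertex `i` on the side `s` by the letter `x`.
A direction is a `Bool` (`true` = to the right).
-/

set_option autoImplicit false

namespace StrAlg

/-- a line: letters on the edges (`lam p` = letter read when walking over the edge `{p, p+1}` to the right), vertices,
sides of the right direction -/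
structure Ln (ι : Type*) (nx : ι → Bool → Fin 3 → ι × Bool) where
  lam : ℤ → Fin 3
  v : ℤ → ι
  r : ℤ → Bool
  fwd : ∀ p, lam p ≠ 1 → nx (v p) (r p) (lam p) = (v (p + 1), !r (p + 1))
  bwd : ∀ p, lam p ≠ 1 → nx (v (p + 1)) (!r (p + 1)) (Fin.rev (lam p)) = (v p, r p)

/-- one step in direction `e` -/
def st (e : Bool) (p : ℤ) : ℤ := if e then p + 1 else p - 1

/-- `n` steps in direction `e` -/
def stn (e : Bool) (n : ℤ) (p : ℤ) : ℤ := if e then p + n else p - n

@[simp] theorem st_true (p : ℤ) : st true p = p + 1 := rfl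
@[simp] theorem st_false (p : ℤ) : st false p = p - 1 := rfl
@[simp] theorem stn_true (n p : ℤ) : stn true n p = p + n := rfl
@[simp] theorem stn_false (n p : ℤ) : stn false n p = p - n := rfl
@[simp] theorem stn_zero (e : Bool) (p : ℤ) : stn e 0 p = p := by cases e <;> simp
theorem stn_one (e : Bool) (p : ℤ) : stn e 1 p = st e p := by cases e <;> simp
theorem stn_stn (e : Bool) (m n p : ℤ) : stn e m (stn e n p) = stn e (n + m) p := by
  cases e <;> simp <;> ring
theorem st_not_st (e : Bool) (p : ℤ) : st (!e) (st e p) = p := by cases e <;> simp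
theorem stn_eq_iter (e : Bool) (n : ℕ) (p : ℤ) : stn e n p = (st e)^[n] p := by
  induction n with
  | zero => simp
  | succ n ih =>
    rw [Function.iterate_succ_apply', ← ih]
    cases e <;> simp <;> ring

namespace Ln
variable {ι : Type*} {nx : ι → Bool → Fin 3 → ι × Bool}

/-- the letter read in direction `e` from `p` -/
def lt (L : Ln ι nx) (e : Bool) (p : ℤ) : Fin 3 := if e then L.lam p else Fin.rev (L.lam (p - 1))

/-- the side on which one leaves `p` in direction `e` -/
def sd (L : Ln ι nx) (e : Bool) (p : ℤ) : Bool := if e then L.r p else !L.r p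

/-- the word read in direction `e` -/
def wdd (L : Ln ι nx) (e : Bool) (p : ℤ) : Wd := fun n => L.lt e (stn e n p)

/-- the word read on the side `s` -/
def wd (L : Ln ι nx) (p : ℤ) (s : Bool) : Wd := L.wdd (s == L.r p) p

theorem wdd_zero (L : Ln ι nx) (e : Bool) (p : ℤ) : L.wdd e p 0 = L.lt e p := by
  simp [wdd]

theorem wdd_sh (L : Ln ι nx) (e : Bool) (p : ℤ) : (L.wdd e p).sh = L.wdd e (st e p) := by
  funext n
  simp only [Wd.sh_apply, wdd]
  cases e <;> simp <;> congr 1 <;> ring

theorem wdd_succ (L : Ln ι nx) (e : Bool) (p : ℤ) (n : ℕ) : L.wdd e p (n + 1) = L.wdd e (st e p) n := by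
  rw [← wdd_sh]; rfl

theorem wdd_apply (L : Ln ι nx) (e : Bool) (p : ℤ) (n : ℕ) : L.wdd e p n = L.lt e (stn e n p) := rfl

theorem wdd_stn (L : Ln ι nx) (e : Bool) (p : ℤ) (m n : ℕ) :
    L.wdd e (stn e m p) n = L.wdd e p (m + n) := by
  rw [wdd_apply, wdd_apply, stn_stn]; norm_num

theorem lt_back (L : Ln ι nx) (e : Bool) (p : ℤ) : L.lt (!e) (st e p) = Fin.rev (L.lt e p) := by
  cases e <;> simp [lt]

theorem lt_back' (L : Ln ι nx) (e : Bool) (p : ℤ) : L.lt e (st (!e) p) = Fin.rev (L.lt (!e) p) := by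
  have := L.lt_back (!e) p
  simpa using this

/-- the word read backwards after one step -/
theorem wdd_back (L : Ln ι nx) (e : Bool) (p : ℤ) :
    L.wdd (!e) (st e p) = Wd.cons (Fin.rev (L.lt e p)) (L.wdd (!e) p) := by
  funext n
  cases n with
  | zero => rw [wdd_zero, lt_back]; rfl
  | succ n =>
    rw [wdd_succ]
    have : st (!e) (st e p) = p := st_not_st e p
    rw [this]; rfl

theorem rev_ne_one {x : Fin 3} : Fin.rev x ≠ 1 ↔ x ≠ 1 := by
  revert x; decide

theorem rev_inj' {x y : Fin 3} : Fin.rev x = Fin.rev y ↔ x = y := Fin.rev_inj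

/-- walking: the next vertex and side of arrival -/
theorem walk (L : Ln ι nx) (e : Bool) (p : ℤ) (h : L.lt e p ≠ 1) :
    nx (L.v p) (L.sd e p) (L.lt e p) = (L.v (st e p), !L.sd e (st e p)) := by
  cases e with
  | true => simpa [lt, sd] using L.fwd p (by simpa [lt] using h)
  | false =>
    have h' : L.lam (p - 1) ≠ 1 := by
      simp only [lt, Bool.false_eq_true, if_false] at h
      exact rev_ne_one.1 h
    have := L.bwd (p - 1) h'
    simpa [lt, sd] using this

end Ln

section two
variable {ι : Type*} {nx : ι → Bool → Fin 3 → ι × Bool} (X Y : Ln ι nx)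

/-- the positions `a` of `X` and `q` of `Y` have the same vertex and relative orientation `o` -/
def Mt (o : Bool) (a q : ℤ) : Prop := X.v a = Y.v q ∧ (X.r a == Y.r q) = o

/-- one step in direction `e` of `X` through the same letter -/
def Lk (o e : Bool) (a q : ℤ) : Prop := X.lt e a = Y.lt (e == o) q ∧ X.lt e a ≠ 1

/-- `n` steps in direction `e` of `X` through the same letters -/
def AgD (o e : Bool) (a q : ℤ) (n : ℕ) : Prop := Agr (X.wdd e a) (Y.wdd (e == o) q) n

/-- the words of `Y` at `q` are smaller than or equal to the words of `X` at `a` -/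
def LeD (o : Bool) (a q : ℤ) : Prop := ∀ e, WLe (Y.wdd (e == o) q) (X.wdd e a)

variable {X Y}

theorem Mt.sd_eq {o : Bool} {a q : ℤ} (h : Mt X Y o a q) (e : Bool) :
    X.sd e a = Y.sd (e == o) q := by
  obtain ⟨-, h⟩ := h
  subst h
  unfold Ln.sd
  cases e <;> cases X.r a <;> cases Y.r q <;> rfl

theorem Mt_of_sd {o e : Bool} {a q : ℤ} (h : X.v a = Y.v q) (h' : X.sd e a = Y.sd (e == o) q) :
    Mt X Y o a q := by
  refine ⟨h, ?_⟩
  revert h'
  unfold Ln.sd
  cases e <;> cases o <;> cases X.r a <;> cases Y.r q <;> simp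

theorem beq_not (e o : Bool) : ((!e) == o) = !(e == o) := by cases e <;> cases o <;> rfl

theorem Mt.step {o e : Bool} {a q : ℤ} (h : Mt X Y o a q) (hl : Lk X Y o e a q) :
    Mt X Y o (st e a) (st (e == o) q) := by
  have h1 := X.walk e a hl.2
  have h2 := Y.walk (e == o) q (hl.1 ▸ hl.2)
  rw [← h.1, ← h.sd_eq e, ← hl.1, h1] at h2
  have h3 := congrArg Prod.fst h2
  have h4 := congrArg Prod.snd h2
  simp only at h3 h4
  refine Mt_of_sd (e := e) h3 ?_
  simpa using h4

theorem Lk.back {o e : Bool} {a q : ℤ} (hl : Lk X Y o e a q) :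
    Lk X Y o (!e) (st e a) (st (e == o) q) := by
  refine ⟨?_, ?_⟩
  · rw [beq_not, Ln.lt_back, Ln.lt_back, hl.1]
  · rw [Ln.lt_back]; exact Ln.rev_ne_one.2 hl.2

theorem Mt.step_iff {o e : Bool} {a q : ℤ} (hl : Lk X Y o e a q) :
    Mt X Y o (st e a) (st (e == o) q) ↔ Mt X Y o a q := by
  refine ⟨fun h => ?_, fun h => h.step hl⟩
  have := h.step hl.back
  rwa [beq_not, st_not_st, st_not_st] at this

theorem LeD.step_iff {o e : Bool} {a q : ℤ} (hl : Lk X Y o e a q) :
    LeD X Y o (st e a) (st (e == o) q) ↔ LeD X Y o a q := by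
  have key1 : WLe (Y.wdd (e == o) (st (e == o) q)) (X.wdd e (st e a)) ↔
      WLe (Y.wdd (e == o) q) (X.wdd e a) := by
    rw [← Ln.wdd_sh, ← Ln.wdd_sh]
    apply WLe_sh
    rw [Ln.wdd_zero, Ln.wdd_zero, hl.1]
  have key2 : WLe (Y.wdd ((!e) == o) (st (e == o) q)) (X.wdd (!e) (st e a)) ↔
      WLe (Y.wdd ((!e) == o) q) (X.wdd (!e) a) := by
    rw [beq_not, Ln.wdd_back, Ln.wdd_back, hl.1, WLe_cons]
  constructor
  · intro h e'
    by_cases he : e' = e
    · subst he; exact key1.1 (h e')
    · have : e' = !e := by cases e <;> cases e' <;> simp_all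
      subst this; exact key2.1 (h _)
  · intro h e'
    by_cases he : e' = e
    · subst he; exact key1.2 (h e')
    · have : e' = !e := by cases e <;> cases e' <;> simp_all
      subst this; exact key2.2 (h _)

theorem AgD_succ {o e : Bool} {a q : ℤ} {n : ℕ} :
    AgD X Y o e a q (n + 1) ↔ Lk X Y o e a q ∧ AgD X Y o e (st e a) (st (e == o) q) n := by
  unfold AgD Lk
  rw [Agr_succ, Ln.wdd_zero, Ln.wdd_zero, Ln.wdd_sh, Ln.wdd_sh]

theorem AgD_succ' {o e : Bool} {a q : ℤ} {n : ℕ} :
    AgD X Y o e a q (n + 1) ↔ AgD X Y o e a q n ∧ Lk X Y o e (stn e n a) (stn (e == o) n q) := by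
  unfold AgD Lk
  rw [Agr_succ']
  rfl

theorem AgD.back {o e : Bool} {a q : ℤ} {n : ℕ} (hl : Lk X Y o e a q)
    (h : AgD X Y o (!e) a q n) : AgD X Y o (!e) (st e a) (st (e == o) q) (n + 1) := by
  rw [AgD_succ]
  refine ⟨hl.back, ?_⟩
  rw [beq_not, st_not_st, st_not_st]
  exact h

theorem AgD.zero {o e : Bool} {a q : ℤ} : AgD X Y o e a q 0 := Agr.zero _ _

theorem AgD.mono {o e : Bool} {a q : ℤ} {m n : ℕ} (h : AgD X Y o e a q n) (hm : m ≤ n) :
    AgD X Y o e a q m := Agr.mono h hm

/-- walking `n` steps -/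
theorem AgD.walk {o e : Bool} {n : ℕ} : ∀ {a q : ℤ}, AgD X Y o e a q n →
    (Mt X Y o (stn e n a) (stn (e == o) n q) ↔ Mt X Y o a q) ∧
    (LeD X Y o (stn e n a) (stn (e == o) n q) ↔ LeD X Y o a q) := by
  induction n with
  | zero => intro a q _; simp
  | succ n ih =>
    intro a q h
    rw [AgD_succ] at h
    obtain ⟨i1, i2⟩ := ih h.2
    have e1 : stn e (n + 1 : ℕ) a = stn e n (st e a) := by
      rw [← stn_one, stn_stn]; push_cast; ring_nf
    have e2 : stn (e == o) (n + 1 : ℕ) q = stn (e == o) n (st (e == o) q) := by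
      rw [← stn_one, stn_stn]; push_cast; ring_nf
    rw [e1, e2]
    exact ⟨i1.trans (Mt.step_iff h.1), i2.trans (LeD.step_iff h.1)⟩

end two

end StrAlg
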