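import Pool.Agent.Lib.MP_b9fd58_lc.Ln

/-!
# Shifts of tails on the space of functions `ℤ → k`, localisation
-/

set_option autoImplicit false

namespace StrAlg

/-- `p` is at or beyond `q` in direction `e` -/
def Bey (e : Bool) (q p : ℤ) : Prop := if e then q ≤ p else p ≤ q

instance (e : Bool) (q p : ℤ) : Decidable (Bey e q p) := by unfold Bey; infer_instance

@[simp] theorem Bey_true (q p : ℤ) : Bey true q p ↔ q ≤ p := Iff.rfl
@[simp] theorem Bey_false (q p : ℤ) : Bey false q p ↔ p ≤ q := by simp [Bey]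

theorem Bey.trans {e : Bool} {q p r : ℤ} (h : Bey e q p) (h' : Bey e p r) : Bey e q r := by
  cases e <;> simp at * <;> omega

theorem Bey.total (e : Bool) (q p : ℤ) : Bey e q p ∨ Bey e p q := by
  cases e <;> simp <;> omega

section
variable {k V : Type*} [Field k] [AddCommGroup V] [Module k V]

/-- shift by `l` in direction `e` of the part beyond `p₁` -/
def shf (k : Type*) {V : Type*} [Field k] [AddCommGroup V] [Module k V] (e : Bool) (p₁ : ℤ) (l : ℕ) :
    (ℤ → V) →ₗ[k] (ℤ → V) where
  toFun m := fun p => if Bey e (stn e l p₁) p then m (stn (!e) l p) else 0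
  map_add' m m' := by funext p; simp only [Pi.add_apply]; split_ifs <;> simp
  map_smul' c m := by funext p; simp only [Pi.smul_apply, RingHom.id_apply]; split_ifs <;> simp

theorem shf_apply (e : Bool) (p₁ : ℤ) (l : ℕ) (m : ℤ → V) (p : ℤ) :
    shf k e p₁ l m p = if Bey e (stn e l p₁) p then m (stn (!e) l p) else 0 := rfl

theorem shf_pow_apply (e : Bool) (p₁ : ℤ) (l : ℕ) (m : ℤ → V) (n : ℕ) (p : ℤ) :
    ((shf k e p₁ l) ^ (n + 1)) m p = if Bey e (stn e ((n + 1 : ℕ) * l) p₁) p then m (stn (!e) ((n + 1 : ℕ) * l) p) else 0 := by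
  induction n generalizing p with
  | zero => simp [shf_apply]
  | succ n ih =>
    rw [pow_succ', Module.End.mul_apply, shf_apply]
    have e3 : (((n + 1 + 1 : ℕ) : ℤ) * l) = ((n + 1 : ℕ) : ℤ) * l + l := by push_cast; ring
    have hpos : (0 : ℤ) ≤ ((n + 1 : ℕ) : ℤ) * l := by positivity
    by_cases h : Bey e (stn e l p₁) p
    · rw [if_pos h, ih]
      have e2 : stn (!e) ((n + 1 : ℕ) * l) (stn (!e) l p) = stn (!e) (((n + 1 + 1 : ℕ) : ℤ) * l) p := by
        rw [stn_stn, e3]; congr 1; ring
      rw [e2]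
      congr 1
      rw [e3]
      cases e <;> simp <;> constructor <;> intro h' <;> linarith
    · rw [if_neg h, if_neg]
      intro h'
      apply h
      rw [e3] at h'
      clear ih
      generalize (((n + 1 : ℕ) : ℤ) * l) = P at h' hpos
      cases e
      · rw [Bey_false, stn_false] at h' ⊢; linarith
      · rw [Bey_true, stn_true] at h' ⊢; linarith

/-- eventually zero in direction `e` -/
def Fz (e : Bool) (m : ℤ → V) : Prop := ∃ B, ∀ p, Bey e B p → m p = 0

theorem Fz.zero (e : Bool) : Fz e (0 : ℤ → V) := ⟨0, fun _ _ => rfl⟩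

theorem Fz.add {e : Bool} {m m' : ℤ → V} (h : Fz e m) (h' : Fz e m') : Fz e (m + m') := by
  obtain ⟨B, hB⟩ := h
  obtain ⟨B', hB'⟩ := h'
  rcases Bey.total e B B' with h | h
  · exact ⟨B', fun p hp => by rw [Pi.add_apply, hB p (h.trans hp), hB' p hp, add_zero]⟩
  · exact ⟨B, fun p hp => by rw [Pi.add_apply, hB p hp, hB' p (h.trans hp), add_zero]⟩

theorem Fz.smul {e : Bool} {m : ℤ → V} (h : Fz e m) (c : k) : Fz e (c • m) := by
  obtain ⟨B, hB⟩ := h
  exact ⟨B, fun p hp => by rw [Pi.smul_apply, hB p hp, smul_zero]⟩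

theorem Fz.neg {e : Bool} {m : ℤ → V} (h : Fz e m) : Fz e (-m) := by
  obtain ⟨B, hB⟩ := h
  exact ⟨B, fun p hp => by rw [Pi.neg_apply, hB p hp, neg_zero]⟩

theorem Fz.sub {e : Bool} {m m' : ℤ → V} (h : Fz e m) (h' : Fz e m') : Fz e (m - m') := by
  rw [sub_eq_add_neg]; exact h.add h'.neg

theorem Fz.sum {e : Bool} {α : Type*} (s : Finset α) (f : α → ℤ → V) (h : ∀ i ∈ s, Fz e (f i)) :
    Fz e (∑ i ∈ s, f i) := by
  classical
  induction s using Finset.induction_on with
  | empty => simpa using Fz.zero e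
  | insert a s ha ih =>
    rw [Finset.sum_insert ha]
    exact (h a (Finset.mem_insert_self _ _)).add (ih (fun i hi => h i (Finset.mem_insert_of_mem hi)))

/-- the tail data: `none` = the shift is zero -/
def sg (k : Type*) {V : Type*} [Field k] [AddCommGroup V] [Module k V] (e : Bool) (d : Option (ℤ × ℕ)) :
    (ℤ → V) →ₗ[k] (ℤ → V) :=
  match d with
  | none => 0
  | some x => shf k e x.1 x.2

theorem sg_Fz_same {e : Bool} {d : Option (ℤ × ℕ)} {m : ℤ → V} (h : Fz e m) : Fz e (sg k e d m) := by
  cases d with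
  | none => exact Fz.zero e
  | some x =>
    obtain ⟨B, hB⟩ := h
    refine ⟨stn e x.2 B, fun p hp => ?_⟩
    show shf k e x.1 x.2 m p = 0
    rw [shf_apply]
    split_ifs
    · apply hB
      cases e <;> simp at * <;> omega
    · rfl

theorem sg_Fz_other {e : Bool} {d : Option (ℤ × ℕ)} {m : ℤ → V} : Fz (!e) (sg k e d m) := by
  cases d with
  | none => exact Fz.zero _
  | some x =>
    refine ⟨stn (!e) 1 (stn e x.2 x.1), fun p hp => ?_⟩
    show shf k e x.1 x.2 m p = 0
    rw [shf_apply, if_neg]
    intro h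
    cases e <;> simp at * <;> omega

/-- the operator `χ(σ)` -/
noncomputable def pv (k : Type*) {V : Type*} [Field k] [AddCommGroup V] [Module k V] (e : Bool) (d : Option (ℤ × ℕ))
    (χ : Polynomial k) : (ℤ → V) →ₗ[k] (ℤ → V) :=
  Polynomial.aeval (R := k) (A := Module.End k (ℤ → V)) (sg k e d) χ

theorem pv_mul {e : Bool} {d : Option (ℤ × ℕ)} (χ ψ : Polynomial k) (m : ℤ → V) :
    pv k e d (χ * ψ) m = pv k e d χ (pv k e d ψ m) := by
  unfold pv
  rw [map_mul]; rfl

theorem pv_mul' {e : Bool} {d : Option (ℤ × ℕ)} (χ ψ : Polynomial k) (m : ℤ → V) :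
    pv k e d (χ * ψ) m = pv k e d ψ (pv k e d χ m) := by
  rw [mul_comm, pv_mul]

theorem pv_eq_sum {e : Bool} {d : Option (ℤ × ℕ)} (χ : Polynomial k) (m : ℤ → V) :
    pv k e d χ m = ∑ i ∈ Finset.range (χ.natDegree + 1), χ.coeff i • ((sg k e d) ^ i) m := by
  unfold pv
  rw [Polynomial.aeval_eq_sum_range, LinearMap.sum_apply]
  rfl

theorem sg_pow_Fz_same {e : Bool} {d : Option (ℤ × ℕ)} {m : ℤ → V} (h : Fz e m) (i : ℕ) :
    Fz e (((sg k e d) ^ i) m) := by
  induction i with
  | zero => simpa using h
  | succ i ih => rw [pow_succ', Module.End.mul_apply]; exact sg_Fz_same ih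

theorem pv_Fz_same {e : Bool} {d : Option (ℤ × ℕ)} {m : ℤ → V} (h : Fz e m) (χ : Polynomial k) :
    Fz e (pv k e d χ m) := by
  rw [pv_eq_sum]
  exact Fz.sum _ _ (fun i _ => (sg_pow_Fz_same h i).smul _)

theorem pv_sub_Fz_other {e : Bool} {d : Option (ℤ × ℕ)} {m : ℤ → V} (χ : Polynomial k) (hχ : χ.coeff 0 = 1) :
    Fz (!e) (pv k e d χ m - m) := by
  rw [pv_eq_sum, Finset.sum_range_succ', hχ]
  simp only [pow_zero, Module.End.one_apply, one_smul, add_sub_cancel_right]
  refine Fz.sum _ _ (fun i _ => Fz.smul ?_ _)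
  rw [pow_succ', Module.End.mul_apply]
  exact sg_Fz_other

/-- rational in direction `e` -/
def Rz (k : Type*) {V : Type*} [Field k] [AddCommGroup V] [Module k V] (e : Bool) (d : Option (ℤ × ℕ))
    (m : ℤ → V) : Prop :=
  ∃ χ : Polynomial k, χ.coeff 0 = 1 ∧ Fz e (pv k e d χ m)

theorem coeff_mul_zero' {χ ψ : Polynomial k} (h : χ.coeff 0 = 1) (h' : ψ.coeff 0 = 1) : (χ * ψ).coeff 0 = 1 := by
  rw [Polynomial.mul_coeff_zero, h, h', one_mul]

theorem Rz.of_Fz {e : Bool} {d : Option (ℤ × ℕ)} {m : ℤ → V} (h : Fz e m) : Rz k e d m :=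
  ⟨1, by simp, pv_Fz_same h _⟩

theorem Rz.add {e : Bool} {d : Option (ℤ × ℕ)} {m m' : ℤ → V} (h : Rz k e d m) (h' : Rz k e d m') :
    Rz k e d (m + m') := by
  obtain ⟨χ, h1, h2⟩ := h
  obtain ⟨ψ, h3, h4⟩ := h'
  refine ⟨χ * ψ, coeff_mul_zero' h1 h3, ?_⟩
  rw [map_add]
  refine Fz.add ?_ ?_
  · rw [pv_mul']; exact pv_Fz_same h2 _
  · rw [pv_mul]; exact pv_Fz_same h4 _

theorem Rz.smul {e : Bool} {d : Option (ℤ × ℕ)} {m : ℤ → V} (h : Rz k e d m) (c : k) : Rz k e d (c • m) := by
  obtain ⟨χ, h1, h2⟩ := h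
  exact ⟨χ, h1, by rw [map_smul]; exact h2.smul c⟩

theorem Rz.pv_same {e : Bool} {d : Option (ℤ × ℕ)} {m : ℤ → V} (ψ : Polynomial k) (h : Rz k e d m) :
    Rz k e d (pv k e d ψ m) := by
  obtain ⟨χ, h1, h2⟩ := h
  refine ⟨χ, h1, ?_⟩
  rw [← pv_mul, pv_mul']
  exact pv_Fz_same h2 _

theorem Rz.of_pv_same {e : Bool} {d : Option (ℤ × ℕ)} {m : ℤ → V} (ψ : Polynomial k) (hψ : ψ.coeff 0 = 1)
    (h : Rz k e d (pv k e d ψ m)) : Rz k e d m := by
  obtain ⟨χ, h1, h2⟩ := h
  exact ⟨χ * ψ, coeff_mul_zero' h1 hψ, by rw [pv_mul]; exact h2⟩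

theorem Rz.congr {e : Bool} {d : Option (ℤ × ℕ)} {m m' : ℤ → V} (h : Fz e (m' - m)) (h' : Rz k e d m) :
    Rz k e d m' := by
  have : m' = m + (m' - m) := by abel
  rw [this]
  exact h'.add (Rz.of_Fz h)

/-- the operators of the other side do not change rationality -/
theorem Rz.pv_other {e : Bool} {d d' : Option (ℤ × ℕ)} {m : ℤ → V} (ψ : Polynomial k) (hψ : ψ.coeff 0 = 1) :
    Rz k (!e) d' (pv k e d ψ m) ↔ Rz k (!e) d' m := by
  have h := pv_sub_Fz_other (k := k) (e := e) (d := d) (m := m) ψ hψ
  constructor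
  · intro h'
    refine h'.congr ?_
    have : m - pv k e d ψ m = -(pv k e d ψ m - m) := by abel
    rw [this]; exact h.neg
  · intro h'
    exact h'.congr h

/-! ### invertibility of `χ(σ)` -/

theorem shf_pow_zero {e : Bool} {p₁ : ℤ} {l : ℕ} (m : ℤ → V) {p : ℤ} {n : ℕ} (hn : 0 < n)
    (h : ¬ Bey e (stn e (n * l) p₁) p) : ((shf k e p₁ l) ^ n) m p = 0 := by
  obtain ⟨n, rfl⟩ := Nat.exists_eq_succ_of_ne_zero hn.ne'
  rw [shf_pow_apply, if_neg h]

/-- the inverse of `χ(σ)` through the power series inverse -/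
theorem pv_bijective {e : Bool} {d : Option (ℤ × ℕ)} (hd : ∀ x ∈ d, 0 < x.2) (χ : Polynomial k) (hχ : χ.coeff 0 = 1) :
    Function.Bijective (pv k e d χ : (ℤ → V) →ₗ[k] (ℤ → V)) := by
  classical
  cases d with
  | none =>
    have : (pv k e none χ : (ℤ → V) →ₗ[k] (ℤ → V)) = LinearMap.id := by
      ext1 m
      rw [pv_eq_sum, Finset.sum_range_succ', hχ]
      simp [sg]
    rw [this]
    exact Function.bijective_id
  | some x =>
    have hl : 0 < x.2 := hd x rfl
    -- number of steps
    set K : ℤ → ℕ := fun p => if e then (p - x.1).toNat + 1 else (x.1 - p).toNat + 1 with hK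
    have hKn : ∀ p n, K p ≤ n → ∀ m : ℤ → V, ((shf k e x.1 x.2) ^ n) m p = 0 := by
      intro p n hn m
      apply shf_pow_zero
      · have : 0 < K p := by simp only [hK]; split_ifs <;> omega
        omega
      · intro h
        have h1 : (n : ℤ) ≤ n * x.2 := by
          have : (1 : ℤ) ≤ x.2 := by exact_mod_cast hl
          nlinarith
        simp only [hK] at hn
        cases e <;> simp at h hn <;> omega
    -- injectivity
    have hlow : ∀ (m : ℤ → V) p, pv k e (some x) χ m p = m p +
        ∑ i ∈ Finset.range χ.natDegree, χ.coeff (i + 1) • ((shf k e x.1 x.2) ^ (i + 1)) m p := by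
      intro m p
      rw [pv_eq_sum, Finset.sum_range_succ', hχ]
      simp only [sg, pow_zero, Module.End.one_apply, one_smul, Pi.add_apply, Finset.sum_apply, Pi.smul_apply]
      rw [add_comm]
    have hK1 : ∀ p i, Bey e (stn e ((i + 1 : ℕ) * x.2) x.1) p → K (stn (!e) ((i + 1 : ℕ) * x.2) p) < K p := by
      intro p i h
      have h1 : (1 : ℤ) ≤ ((i + 1 : ℕ) : ℤ) * x.2 := by
        have : (1 : ℤ) ≤ x.2 := by exact_mod_cast hl
        have : (1 : ℤ) ≤ ((i + 1 : ℕ) : ℤ) := by push_cast; omega
        nlinarith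
      simp only [hK]
      generalize (((i + 1 : ℕ) : ℤ) * x.2) = P at h h1 ⊢
      cases e
      · rw [Bey_false, stn_false] at h
        simp; omega
      · rw [Bey_true, stn_true] at h
        simp; omega
    constructor
    · rw [injective_iff_map_eq_zero]
      intro m hm
      have key : ∀ N p, K p ≤ N → m p = 0 := by
        intro N
        induction N with
        | zero => intro p hp; simp only [hK] at hp; split_ifs at hp <;> omega
        | succ N ih =>
          intro p hp
          have h1 := congrFun hm p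
          rw [hlow, Pi.zero_apply] at h1
          rw [Finset.sum_eq_zero, add_zero] at h1
          · exact h1
          · intro i _
            rw [shf_pow_apply]
            split_ifs with h
            · rw [ih _ (by have := hK1 p i h; omega), smul_zero]
            · rw [smul_zero]
      funext p
      exact key _ p le_rfl
    · intro y
      -- solve the recursion
      have hex : ∀ N, ∃ m : ℤ → V, ∀ p, K p ≤ N → pv k e (some x) χ m p = y p := by
        intro N
        induction N with
        | zero => exact ⟨0, fun p hp => by simp only [hK] at hp; split_ifs at hp <;> omega⟩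
        | succ N ih =>
          obtain ⟨m, hm⟩ := ih
          set m' : ℤ → V := fun p => if K p = N + 1 then y p - (pv k e (some x) χ m p - m p) else m p with hm'
          have hagree : ∀ p, K p ≤ N + 1 → ∀ i, ((shf k e x.1 x.2) ^ (i + 1)) m' p = ((shf k e x.1 x.2) ^ (i + 1)) m p := by
            intro p hp i
            rw [shf_pow_apply, shf_pow_apply]
            split_ifs with h
            · simp only [hm']
              rw [if_neg]
              have := hK1 p i h
              omega
            · rfl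
          refine ⟨m', fun p hp => ?_⟩
          rw [hlow]
          simp only [hagree p hp]
          have h3 := hlow m p
          rcases lt_or_eq_of_le hp with h | h
          · have h4 : m' p = m p := by simp only [hm']; rw [if_neg (by omega)]
            rw [h4, ← h3]
            exact hm p (by omega)
          · have h4 : m' p = y p - (pv k e (some x) χ m p - m p) := by simp only [hm']; rw [if_pos h]
            rw [h4, h3]
            abel
      choose g hg using hex
      -- the solutions agree
      have hun : ∀ N N' p, K p ≤ N → K p ≤ N' → g N p = g N' p := by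
        intro N N' p
        have key : ∀ M p, K p ≤ M → K p ≤ N → K p ≤ N' → g N p = g N' p := by
          intro M
          induction M with
          | zero => intro p hp; simp only [hK] at hp; split_ifs at hp <;> omega
          | succ M ih =>
            intro p h0 h1 h2
            have a1 := hg N p h1
            have a2 := hg N' p h2
            rw [hlow] at a1 a2
            have : ∑ i ∈ Finset.range χ.natDegree, χ.coeff (i + 1) • ((shf k e x.1 x.2) ^ (i + 1)) (g N) p =
                ∑ i ∈ Finset.range χ.natDegree, χ.coeff (i + 1) • ((shf k e x.1 x.2) ^ (i + 1)) (g N') p := by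
              refine Finset.sum_congr rfl ?_
              intro i _
              rw [shf_pow_apply, shf_pow_apply]
              split_ifs with h
              · have := hK1 p i h
                rw [ih _ (by omega) (by omega) (by omega)]
              · rfl
            rw [this] at a1
            exact add_right_cancel (a1.trans a2.symm)
        exact key (K p) p le_rfl
      refine ⟨fun p => g (K p) p, ?_⟩
      funext p
      rw [hlow]
      have h1 := hg (K p) p le_rfl
      rw [hlow] at h1
      rw [← h1]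
      congr 1
      refine Finset.sum_congr rfl ?_
      intro i _
      rw [shf_pow_apply, shf_pow_apply]
      split_ifs with h
      · have := hK1 p i h
        rw [hun _ (K p) _ le_rfl (by omega)]
      · rfl

end

end StrAlg
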