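import Pool.Agent.Lib.MP_b9fd58_lc.Defs

/-!
# Modules: duals, submodules, direct sums, bundled modules, pairs, retracts
-/

namespace StrAlg

open Module

variable {D : Dat} {k : Type} [Field k]

/-! ### Opposite data, dual modules -/

/-- the opposite quiver with the reversed relations -/
def Dat.op (D : Dat) : Dat where
  nV := D.nV
  nE := D.nE
  src := D.tgt
  tgt := D.src
  rel := D.rel.map List.reverse

theorem foldl_dual {α N : Type} [AddCommGroup N] [Module k N] (φ : α → N →ₗ[k] N) (r : List α) (f : Dual k N)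
    (n : N) :
    (r.reverse.foldl (fun m a => (φ a).dualMap m) f) n = f (r.foldl (fun m a => φ a m) n) := by
  induction r generalizing n with
  | nil => rfl
  | cons a r ih =>
    rw [List.reverse_cons, List.foldl_append]
    exact ih _

theorem foldl_dual' {α N : Type} [AddCommGroup N] [Module k N] (φ : α → N →ₗ[k] N) (r : List α) (f : Dual k N)
    (n : N) :
    (r.foldl (fun m a => (φ a).dualMap m) f) n = f (r.reverse.foldl (fun m a => φ a m) n) := by
  have h := foldl_dual φ r.reverse f n
  rwa [List.reverse_reverse] at h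

/-- the dual module, a module over the opposite data -/
def QMod.dual {N : Type} [AddCommGroup N] [Module k N] (Q : QMod D k N) : QMod D.op k (Dual k N) where
  op g := (Q.op g).dualMap
  idem i n := LinearMap.ext fun m => congrArg n (Q.idem i m)
  orth i j n h := LinearMap.ext fun m => (congrArg n (Q.orth j i m h.symm)).trans (map_zero n)
  one n := by
    refine LinearMap.ext fun m => ?_
    have h := congrArg n (Q.one m)
    rw [map_sum] at h
    rw [← h, LinearMap.sum_apply]
    rfl
  src a n := LinearMap.ext fun m => congrArg n (Q.tgt a m)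
  tgt a n := LinearMap.ext fun m => congrArg n (Q.src a m)
  rel r hr n := by
    obtain ⟨r', hr', rfl⟩ := List.mem_map.1 hr
    refine LinearMap.ext fun m => ?_
    refine (foldl_dual (fun a : Fin D.nE => Q.op (Sum.inr a)) r' n m).trans ?_
    rw [Q.rel r' hr' m, map_zero]
    rfl

/-- the dual of a module over the opposite data -/
def QMod.codual {N : Type} [AddCommGroup N] [Module k N] (Q : QMod D.op k N) : QMod D k (Dual k N) where
  op g := (Q.op g).dualMap
  idem i n := LinearMap.ext fun m => congrArg n (Q.idem i m)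
  orth i j n h := LinearMap.ext fun m => (congrArg n (Q.orth j i m h.symm)).trans (map_zero n)
  one n := by
    refine LinearMap.ext fun m => ?_
    have h := congrArg n (Q.one m)
    rw [map_sum] at h
    rw [← h, LinearMap.sum_apply]
    rfl
  src a n := LinearMap.ext fun m => congrArg n (Q.tgt a m)
  tgt a n := LinearMap.ext fun m => congrArg n (Q.src a m)
  rel r hr n := by
    refine LinearMap.ext fun m => ?_
    have h2 : r.reverse ∈ D.op.rel := List.mem_map.2 ⟨r, hr, rfl⟩
    refine (foldl_dual' (fun a : Fin D.nE => Q.op (Sum.inr a)) r n m).trans ?_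
    exact (congrArg n (Q.rel _ h2 m)).trans (map_zero n)

/-- restriction of the operators to an invariant subspace -/
def QMod.restr {N : Type} [AddCommGroup N] [Module k N] (Q : QMod D k N) (P : Submodule k N)
    (h : ∀ g, ∀ n ∈ P, Q.op g n ∈ P) : QMod D k P where
  op g := (Q.op g).restrict (h g)
  idem i n := by ext; simp [Q.idem]
  orth i j n hij := by ext; simp [Q.orth _ _ _ hij]
  one n := by ext; simp [Q.one]
  src a n := by ext; simp [Q.src]
  tgt a n := by ext; simp [Q.tgt]
  rel r hr n := by
    have key : ∀ (r : List (Fin D.nE)) (n : P),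
        ((r.foldl (fun m a => ((Q.op (Sum.inr a)).restrict (h (Sum.inr a))) m) n : P) : N) =
          r.foldl (fun m a => Q.op (Sum.inr a) m) (n : N) := by
      intro r
      induction r with
      | nil => intro n; rfl
      | cons a r ih => intro n; simp [ih]
    ext
    rw [key, Q.rel r hr]
    rfl

/-- direct sum of two modules -/
def QMod.prod {M N : Type} [AddCommGroup M] [Module k M] [AddCommGroup N] [Module k N]
    (P : QMod D k M) (Q : QMod D k N) : QMod D k (M × N) where
  op g := (P.op g).prodMap (Q.op g)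
  idem i n := by simp [P.idem, Q.idem]
  orth i j n h := by simp [P.orth _ _ _ h, Q.orth _ _ _ h]
  one n := by
    have h : ∀ s : Finset (Fin D.nV), ∑ i ∈ s, ((P.op (Sum.inl i)).prodMap (Q.op (Sum.inl i))) n =
        (∑ i ∈ s, P.op (Sum.inl i) n.1, ∑ i ∈ s, Q.op (Sum.inl i) n.2) := by
      intro s
      classical
      induction s using Finset.induction_on with
      | empty => rfl
      | insert a s ha ih =>
        rw [Finset.sum_insert ha, Finset.sum_insert ha, Finset.sum_insert ha, ih]
        rfl
    rw [h, P.one, Q.one]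
  src a n := by simp [P.src, Q.src]
  tgt a n := by simp [P.tgt, Q.tgt]
  rel r hr n := by
    have key : ∀ (r : List (Fin D.nE)) (n : M × N),
        (r.foldl (fun m a => ((P.op (Sum.inr a)).prodMap (Q.op (Sum.inr a))) m) n) =
          (r.foldl (fun m a => P.op (Sum.inr a) m) n.1, r.foldl (fun m a => Q.op (Sum.inr a) m) n.2) := by
      intro r
      induction r with
      | nil => intro n; rfl
      | cons a r ih => intro n; exact ih _
    rw [key, P.rel r hr, Q.rel r hr]
    rfl

/-! ### Bundled modules, pairs -/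

/-- a bundled module -/
structure Md (D : Dat) (k : Type) [Field k] : Type 1 where
  C : Type
  [g : AddCommGroup C]
  [m : Module k C]
  Q : QMod D k C

attribute [instance] Md.g Md.m

/-- homomorphisms -/
abbrev Md.Hom (M N : Md D k) (f : M.C →ₗ[k] N.C) : Prop := IsHom M.Q N.Q f

/-- the dual module -/
def Md.dual (N : Md D k) : Md D.op k := ⟨Dual k N.C, N.Q.dual⟩

/-- the dual of a module over the opposite data -/
def Md.codual (N : Md D.op k) : Md D k := ⟨Dual k N.C, N.Q.codual⟩

/-- direct sum of two modules -/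
def Md.prod (M N : Md D k) : Md D k := ⟨M.C × N.C, M.Q.prod N.Q⟩

/-- direct sum of finitely many modules -/
def Md.pi {ι : Type} [Fintype ι] (M : ι → Md D k) : Md D k where
  C := ∀ i, (M i).C
  Q :=
    { op := fun g => LinearMap.pi (fun i => (M i).Q.op g ∘ₗ LinearMap.proj i)
      idem := by intro i n; ext j; simp [(M j).Q.idem]
      orth := by intro i i' n h; ext j; simp [(M j).Q.orth _ _ _ h]
      one := by intro n; ext j; simp [(M j).Q.one]
      src := by intro a n; ext j; simp [(M j).Q.src]
      tgt := by intro a n; ext j; simp [(M j).Q.tgt]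
      rel := by
        intro r hr n
        have key : ∀ (r : List (Fin D.nE)) (n : ∀ i, (M i).C) (j : ι),
            (r.foldl (fun m a => (LinearMap.pi (fun i => (M i).Q.op (Sum.inr a) ∘ₗ LinearMap.proj i) :
              (∀ i, (M i).C) →ₗ[k] (∀ i, (M i).C)) m) n) j =
              r.foldl (fun m a => (M j).Q.op (Sum.inr a) m) (n j) := by
          intro r
          induction r with
          | nil => intro n j; rfl
          | cons a r ih => intro n j; exact ih _ j
        ext j
        rw [key, (M j).Q.rel r hr]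
        rfl }

/-- `M` is a retract (= direct summand) of `N` -/
def Md.Ret (M N : Md D k) : Prop :=
  ∃ (i : M.C →ₗ[k] N.C) (r : N.C →ₗ[k] M.C), M.Hom N i ∧ N.Hom M r ∧ r ∘ₗ i = LinearMap.id

/-- `N = M₁ ⊕ M₂` -/
def Md.Dec (N M₁ M₂ : Md D k) : Prop :=
  ∃ (i₁ : M₁.C →ₗ[k] N.C) (r₁ : N.C →ₗ[k] M₁.C) (i₂ : M₂.C →ₗ[k] N.C) (r₂ : N.C →ₗ[k] M₂.C),
    M₁.Hom N i₁ ∧ N.Hom M₁ r₁ ∧ M₂.Hom N i₂ ∧ N.Hom M₂ r₂ ∧
    r₁ ∘ₗ i₁ = LinearMap.id ∧ r₂ ∘ₗ i₂ = LinearMap.id ∧ r₁ ∘ₗ i₂ = 0 ∧ r₂ ∘ₗ i₁ = 0 ∧
    i₁ ∘ₗ r₁ + i₂ ∘ₗ r₂ = LinearMap.id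

/-- isomorphic modules -/
def Md.Iso (M N : Md D k) : Prop := ∃ e : M.C ≃ₗ[k] N.C, M.Hom N e.toLinearMap

/-- A pair: modules `A`, `B` (finite-dimensional in the applications), `a ∈ A` and a functional `b` on `B`. -/
structure Pr (D : Dat) (k : Type) [Field k] : Type 1 where
  A : Md D k
  a : A.C
  B : Md D k
  b : Dual k B.C

/-- The pair is open on `N`. -/
def Pr.Opn (p : Pr D k) (N : Md D k) : Prop :=
  ∃ (f : p.A.C →ₗ[k] N.C) (G : N.C →ₗ[k] p.B.C), p.A.Hom N f ∧ N.Hom p.B G ∧ p.b (G (f p.a)) ≠ 0

/-- the dual pair -/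
def Pr.dual (p : Pr D k) : Pr D.op k := ⟨p.B.dual, p.b, p.A.dual, Dual.eval k _ p.a⟩

end StrAlg
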