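import Pool.Agent.Lib.MP_b9fd58_lc.WFb
import Pool.Agent.Lib.MP_b9fd58_lc.WSb

/-!
# Theorem O: outcomes, bad points (job OAa)
-/

set_option autoImplicit false

namespace StrAlg

open Module

variable {D : Dat} {k : Type} [Field k] {S : Sides D}

/-- `M` lies below `N`: it is a direct summand -/
def SubM (M N : Md D k) : Prop := M.Ret N

/-- first outcome: a string -/
def OutA (X Y : Blk S k) (a : X.M.C) (b : Dual k Y.M.C) (N : Md D k) : Prop :=
  ∃ w : Str S, w.Aper ∧ ¬ CritB X Y a b w ∧ ∃ M : Md D k, SubM M N ∧ w.Open M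

/-- second outcome: a band module -/
def OutB (Can : Set (Str S)) (X Y : Blk S k) (a : X.M.C) (b : Dual k Y.M.C) (N : Md D k) : Prop :=
  ∃ c ∈ Can, ∃ (l : ℕ) (_ : c.MinPer l) (V : Type) (_ : AddCommGroup V) (_ : Module k V) (T : V ≃ₗ[k] V)
    (h : c.PerOK l T), (bpr X Y a b).Opn (c.ME l T h) ∧ SubM (c.ME l T h) N

/-- The point `(i; u)` lies in the box of a pair of positions of `X`, `Y` with `Ω ≠ 0`. -/
def BadPt (X Y : Blk S k) (a : X.M.C) (b : Dual k Y.M.C) (i : Fin D.nV) (u : Bool → Wd) : Prop :=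
  ∃ p ∈ X.x.Z, ∃ r ∈ Y.x.Z, X.x.L.v p = i ∧ Y.x.L.v r = i ∧
    (∀ s, WLe (Y.x.L.wd r s) (u s) ∧ WLe (u s) (X.x.L.wd p s)) ∧
    ∃ κ, Om X.x.L Y.x.L (X.fn a) (Y.cf b) κ (X.x.L.r p == Y.x.L.r r) p r ≠ 0

theorem SubM.refl (M : Md D k) : SubM M M := wRet_refl M

theorem SubM.trans {M N P : Md D k} (h : SubM M N) (h' : SubM N P) : SubM M P := wRet_trans h h'

/-- `p.Opn` passes from retracts to the module -/
theorem opn_ret {M N : Md D k} (h : M.Ret N) (p : Pr D k) (hp : p.Opn M) : p.Opn N := by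
  obtain ⟨i, r, hi, hr, hri⟩ := h
  obtain ⟨f, G, hf, hG, hne⟩ := hp
  refine ⟨i ∘ₗ f, G ∘ₗ r, ?_, ?_, ?_⟩
  · intro g m
    show i (f (p.A.Q.op g m)) = N.Q.op g (i (f m))
    rw [hf, hi]
  · intro g m
    show G (r (N.Q.op g m)) = p.B.Q.op g (G (r m))
    rw [hr, hG]
  · show p.b (G (r (i (f p.a)))) ≠ 0
    have h1 : r (i (f p.a)) = f p.a := LinearMap.congr_fun hri (f p.a)
    rw [h1]
    exact hne

theorem SubM_ret {M N : Md D k} (h : M.Ret N) : SubM M N := h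

/-- a pair is open on a direct sum iff it is open on a summand -/
theorem opn_dec {N M₁ M₂ : Md D k} (h : N.Dec M₁ M₂) (p : Pr D k) (hp : p.Opn N) : p.Opn M₁ ∨ p.Opn M₂ := by
  obtain ⟨i₁, r₁, i₂, r₂, hi₁, hr₁, hi₂, hr₂, -, -, -, -, hsum⟩ := h
  obtain ⟨f, G, hf, hG, hne⟩ := hp
  have h1 : i₁ (r₁ (f p.a)) + i₂ (r₂ (f p.a)) = f p.a := LinearMap.congr_fun hsum (f p.a)
  have h2 : p.b (G (i₁ (r₁ (f p.a)))) ≠ 0 ∨ p.b (G (i₂ (r₂ (f p.a)))) ≠ 0 := by
    by_contra hcon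
    push Not at hcon
    apply hne
    rw [← h1, map_add, map_add, hcon.1, hcon.2, add_zero]
  rcases h2 with h2 | h2
  · left
    refine ⟨r₁ ∘ₗ f, G ∘ₗ i₁, ?_, ?_, h2⟩
    · intro g m
      show r₁ (f (p.A.Q.op g m)) = M₁.Q.op g (r₁ (f m))
      rw [hf, hr₁]
    · intro g m
      show G (i₁ (M₁.Q.op g m)) = p.B.Q.op g (G (i₁ m))
      rw [hi₁, hG]
  · right
    refine ⟨r₂ ∘ₗ f, G ∘ₗ i₂, ?_, ?_, h2⟩
    · intro g m
      show r₂ (f (p.A.Q.op g m)) = M₂.Q.op g (r₂ (f m))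
      rw [hf, hr₂]
    · intro g m
      show G (i₂ (M₂.Q.op g m)) = p.B.Q.op g (G (i₂ m))
      rw [hi₂, hG]

theorem Str.Open_ret {M N : Md D k} (h : M.Ret N) (w : Str S) (hw : w.Open M) : w.Open N := by
  obtain ⟨i, r, hi, hr, hri⟩ := h
  intro R
  obtain ⟨g, ξ, hgξ⟩ := hw R
  refine ⟨fun q => i (g q), fun q => ξ q ∘ₗ r, ?_⟩
  intro q hq hR
  obtain ⟨⟨c1, c2⟩, ⟨d1, d2⟩, e1⟩ := hgξ q hq hR
  refine ⟨⟨?_, ?_⟩, ⟨?_, ?_⟩, ?_⟩
  · intro j
    show N.Q.op (Sum.inl j) (i (g q)) = _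
    rw [← hi, c1 j]
    split_ifs
    · rfl
    · exact map_zero i
  · intro α
    show N.Q.op (Sum.inr α) (i (g q)) = _
    rw [← hi, c2 α, map_sum]
    refine Finset.sum_congr rfl (fun e _ => ?_)
    split_ifs
    · rfl
    · exact map_zero i
  · intro j n
    show ξ q (r (N.Q.op (Sum.inl j) n)) = _
    rw [hr, d1 j]
    rfl
  · intro α n
    show ξ q (r (N.Q.op (Sum.inr α) n)) = _
    rw [hr, d2 α]
    rfl
  · show ξ q (r (i (g q))) = 1
    have h1 : r (i (g q)) = g q := LinearMap.congr_fun hri (g q)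
    rw [h1]
    exact e1

/-- the order of the words on the sides and in the directions -/
theorem LeD_iff_wd {X Y : Ln (Fin D.nV) S.nx} {p q : ℤ} :
    LeD X Y (X.r p == Y.r q) p q ↔ ∀ s, WLe (Y.wd q s) (X.wd p s) := by
  constructor
  · intro h s
    have h1 := h (s == X.r p)
    have e1 : ((s == X.r p) == (X.r p == Y.r q)) = (s == Y.r q) := by
      cases s <;> cases X.r p <;> cases Y.r q <;> rfl
    rw [e1] at h1
    exact h1
  · intro h e
    have h1 := h (e == X.r p)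
    unfold Ln.wd at h1
    have e1 : ((e == X.r p) == X.r p) = e := by
      cases e <;> cases X.r p <;> rfl
    have e2 : ((e == X.r p) == Y.r q) = (e == (X.r p == Y.r q)) := by
      cases e <;> cases X.r p <;> cases Y.r q <;> rfl
    rw [e1, e2] at h1
    exact h1

/-- A string through a bad point violates the criterion (`X`, `Y` finite).

Proof: positions `p, q, r` with orientations `X.x.L.r p == w.L.r q`, `w.L.r q == Y.x.L.r r` (`LeD_iff_wd`); `FinCl` from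
`Ln.Fn.fin_left`, `Ln.Fn.fin_right` (`Str.Fin.fn`, `Blk.fin`). -/
theorem not_critB_of_badPt (X Y : Blk S k) (hX : X.l = 0) (hY : Y.l = 0) (a : X.M.C) (b : Dual k Y.M.C) (w : Str S)
    (q : ℤ) (hq : q ∈ w.Z) (h : BadPt X Y a b (w.L.v q) (w.L.wd q)) : ¬ CritB X Y a b w := by
  obtain ⟨p, hp, r, hr, hv1, hv2, hle, κ, hκ⟩ := h
  intro hc
  apply hκ
  have hXf : X.x.L.Fn := (X.fin hX).fn
  have hYf : Y.x.L.Fn := (Y.fin hY).fn
  have h1 := hc (X.x.L.r p == w.L.r q) (w.L.r q == Y.x.L.r r) p q r hp hq hr ⟨hv1, rfl⟩ ⟨hv2.symm, rfl⟩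
    (LeD_iff_wd.2 (fun s => (hle s).2)) (LeD_iff_wd.2 (fun s => (hle s).1))
    (hXf.fin_left _ _ _) (hYf.fin_right _ _ _) κ
  have e1 : ((X.x.L.r p == w.L.r q) == (w.L.r q == Y.x.L.r r)) = (X.x.L.r p == Y.x.L.r r) := by
    cases X.x.L.r p <;> cases w.L.r q <;> cases Y.x.L.r r <;> rfl
  rw [e1] at h1
  exact h1

end StrAlg
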