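import Pool.Agent.Lib.MP_b9fd58_lc.OAa
import Pool.Agent.Lib.MP_b9fd58_lc.WK

/-!
# Bad points: interior, closed (job OAb)
-/

set_option autoImplicit false

namespace StrAlg

open Module

variable {D : Dat} {k : Type} [Field k] {S : Sides D}

/-- the words of a finite string end -/
theorem Str.Fin.wd_one {x : Str S} (hx : x.Fin) (p : ℤ) (s : Bool) : ∃ n, x.L.wd p s n = 1 := by
  by_contra hcon
  push Not at hcon
  have h1 : ∀ n : ℕ, stn (s == x.L.r p) n p ∈ x.Z := by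
    intro n
    by_contra h
    exact hcon n (x.lt_of_notMem h _)
  have h2 : Function.Injective (fun n : ℕ => stn (s == x.L.r p) n p) := by
    intro m n hmn
    have h3 : stn (s == x.L.r p) (m : ℤ) p = stn (s == x.L.r p) (n : ℤ) p := hmn
    cases hs : (s == x.L.r p) <;> rw [hs] at h3 <;> simp at h3 <;> omega
  exact Set.infinite_of_injective_forall_mem h2 h1 hx

theorem oab_lower {v u : Wd} (h : WLe v u) (hv : ∃ n, v n = 1) (hu : ∀ n, u n ≠ 1) :
    ∃ m, ∀ u' : Wd, (∀ j < m, u' j = u j) → WLe v u' := by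
  have hne : v ≠ u := by
    rintro rfl
    obtain ⟨n, hn⟩ := hv
    exact hu n hn
  obtain ⟨n, h1, h2⟩ := exists_lt_of_WLe_ne h hne
  refine ⟨n + 1, fun u' hu' => WLe_of_lt (n := n) (fun i hi => ?_) ?_⟩
  · rw [h1 i hi, hu' i (by omega)]
  · rw [hu' n (by omega)]; exact h2

theorem oab_upper {v u : Wd} (h : WLe u v) (hv : ∃ n, v n = 1) (hu : ∀ n, u n ≠ 1) :
    ∃ m, ∀ u' : Wd, (∀ j < m, u' j = u j) → WLe u' v := by
  have hne : u ≠ v := by
    rintro rfl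
    obtain ⟨n, hn⟩ := hv
    exact hu n hn
  obtain ⟨n, h1, h2⟩ := exists_lt_of_WLe_ne h hne
  refine ⟨n + 1, fun u' hu' => WLe_of_lt (n := n) (fun i hi => ?_) ?_⟩
  · rw [← h1 i hi, hu' i (by omega)]
  · rw [hu' n (by omega)]; exact h2

/-- Bad points without END are interior: the words of `X`, `Y` end, so they differ from `u s` at a finite place. -/
theorem badPt_nhds (X Y : Blk S k) (hX : X.l = 0) (hY : Y.l = 0) (a : X.M.C) (b : Dual k Y.M.C) (i : Fin D.nV)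
    (u : Bool → Wd) (hu : ∀ s n, u s n ≠ 1) (h : BadPt X Y a b i u) :
    ∃ m, ∀ u' : Bool → Wd, (∀ s, ∀ j < m, u' s j = u s j) → BadPt X Y a b i u' := by
  obtain ⟨p, hp, r, hr, h1, h2, h3, h4⟩ := h
  have hXf := X.fin hX
  have hYf := Y.fin hY
  choose m1 hm1 using fun s => oab_lower (h3 s).1 (hYf.wd_one r s) (hu s)
  choose m2 hm2 using fun s => oab_upper (h3 s).2 (hXf.wd_one p s) (hu s)
  refine ⟨max (max (m1 true) (m1 false)) (max (m2 true) (m2 false)), fun u' hu' => ⟨p, hp, r, hr, h1, h2, ?_, h4⟩⟩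
  intro s
  refine ⟨hm1 s (u' s) (fun j hj => hu' s j ?_), hm2 s (u' s) (fun j hj => hu' s j ?_)⟩
  · cases s
    · exact lt_of_lt_of_le hj (le_trans (le_max_right _ _) (le_max_left _ _))
    · exact lt_of_lt_of_le hj (le_trans (le_max_left _ _) (le_max_left _ _))
  · cases s
    · exact lt_of_lt_of_le hj (le_trans (le_max_right _ _) (le_max_right _ _))
    · exact lt_of_lt_of_le hj (le_trans (le_max_left _ _) (le_max_right _ _))

/-- the set of bad points at `i` is closed (finitely many boxes; closedness of a box: the complement of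
`{u | WLe v (u s)}` is a union of cylinders) -/
theorem isClosed_badPt (X Y : Blk S k) (hX : X.l = 0) (hY : Y.l = 0) (a : X.M.C) (b : Dual k Y.M.C) (i : Fin D.nV) :
    IsClosed {u : Bool → Wd | BadPt X Y a b i u} := by
  have hXf : X.x.Z.Finite := X.fin hX
  have hYf : Y.x.Z.Finite := Y.fin hY
  have hfin : {t : ℤ × ℤ | (t.1 ∈ X.x.Z ∧ t.2 ∈ Y.x.Z) ∧ X.x.L.v t.1 = i ∧ Y.x.L.v t.2 = i ∧
      ∃ κ, Om X.x.L Y.x.L (X.fn a) (Y.cf b) κ (X.x.L.r t.1 == Y.x.L.r t.2) t.1 t.2 ≠ 0}.Finite :=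
    (hXf.prod hYf).subset (fun t ht => ht.1)
  have heq : {u : Bool → Wd | BadPt X Y a b i u} =
      ⋃ t ∈ {t : ℤ × ℤ | (t.1 ∈ X.x.Z ∧ t.2 ∈ Y.x.Z) ∧ X.x.L.v t.1 = i ∧ Y.x.L.v t.2 = i ∧
        ∃ κ, Om X.x.L Y.x.L (X.fn a) (Y.cf b) κ (X.x.L.r t.1 == Y.x.L.r t.2) t.1 t.2 ≠ 0},
        ({u : Bool → Wd | ∀ s, WLe (Y.x.L.wd t.2 s) (u s)} ∩ {u : Bool → Wd | ∀ s, WLe (u s) (X.x.L.wd t.1 s)}) := by
    ext u
    simp only [Set.mem_iUnion, Set.mem_setOf_eq, Set.mem_inter_iff, exists_prop]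
    constructor
    · rintro ⟨p, hp, r, hr, h1, h2, h3, h4⟩
      exact ⟨(p, r), ⟨⟨hp, hr⟩, h1, h2, h4⟩, fun s => (h3 s).1, fun s => (h3 s).2⟩
    · rintro ⟨⟨p, r⟩, ⟨⟨hp, hr⟩, h1, h2, h4⟩, h5, h6⟩
      exact ⟨p, hp, r, hr, h1, h2, fun s => ⟨h5 s, h6 s⟩, h4⟩
  rw [heq]
  exact hfin.isClosed_biUnion (fun t _ => (isClosed_ge _).inter (isClosed_le _))

/-- alignment at some positions gives alignment at every position -/
theorem Al.to {x y : Str S} {p q : ℤ} (hp : p ∈ x.Z) (hq : q ∈ y.Z) (h : Al x y p q) {p' : ℤ} (hp' : p' ∈ x.Z) :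
    ∃ q' ∈ y.Z, Al x y p' q' := by
  have hr : x.L.Reach p p' := by
    have h1 := (Ln.reach_iff x.L 0 p).1 hp
    have h2 := (Ln.reach_iff x.L 0 p').1 hp'
    rw [Ln.reach_iff]
    intro z hz
    by_cases hz0 : 0 ≤ z
    · rcases hz with hz | hz
      · exact h2 z (Or.inl ⟨hz0, hz.2⟩)
      · exact h1 z (Or.inl ⟨hz0, hz.2⟩)
    · rcases hz with hz | hz
      · exact h1 z (Or.inr ⟨hz.1, by omega⟩)
      · exact h2 z (Or.inr ⟨hz.1, by omega⟩)
  obtain ⟨e, n, h1, h2, -⟩ := hr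
  have hn : ∀ j < n, x.L.lt e (stn e j p) ≠ 1 := fun j hj => (h1 j hj).2
  subst h2
  refine ⟨stn (e == (x.L.r p == y.L.r q)) n q, ?_, h.walk hn⟩
  have h3 : y.L.Reach q (stn (e == (x.L.r p == y.L.r q)) n q) := by
    refine Ln.Reach.of_lt (fun j hj => ?_)
    have h4 := congrFun (h.mt.2 e) j
    rw [Ln.wdd_apply, Ln.wdd_apply] at h4
    rw [← h4]
    exact hn j hj
  exact Ln.Reach.trans hq h3

end StrAlg
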