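import Pool.Agent.Lib.MP_b9fd58_lc.WFb
import Pool.Agent.Lib.MP_b9fd58_lc.GHom2

/-!
# Homomorphisms of block modules give chains (job OBa)
-/

set_option autoImplicit false

namespace StrAlg

open Module

variable {D : Dat} {k : Type} [Field k] {S : Sides D}

/-- a homomorphism from a block module gives chains (`X.iota p v` has the value `v` at `p`) -/
theorem Blk.chain (X : Blk S k) {N : Md D k} {f : X.M.C →ₗ[k] N.C} (hf : X.M.Hom N f) (v : Fin X.n → k) (q : ℤ) :
    ChAt N.Q S.ends X.x.L (fun p => f (X.iota p v)) q := by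
  have h1 : ChAt X.M.Q S.ends X.x.L (fun p => X.iota p v) q := by
    have e : (fun p => X.iota p v) = fun p => ioE X.ok p v := by
      funext p
      exact LinearMap.congr_fun (Blk.iota_eq X p) v
    rw [e]
    exact ioE_ch X.ok q v
  exact h1.map hf

/-- evaluation at a position -/
noncomputable def Blk.ev (Y : Blk S k) (r : ℤ) : Y.M.C →ₗ[k] (Fin Y.n → k) where
  toFun m := Y.fn m r
  map_add' _ _ := rfl
  map_smul' _ _ := rfl

/-- a homomorphism to a block module gives dual chains -/
theorem Blk.dchain (Y : Blk S k) {N : Md D k} {G : N.C →ₗ[k] Y.M.C} (hG : N.Hom Y.M G)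
    (φ : (Fin Y.n → k) →ₗ[k] k) (q : ℤ) :
    DcAt N.Q S.ends Y.x.L (fun r => φ ∘ₗ Y.ev r ∘ₗ G) q := by
  have h1 : DcW Y.M.Q S.ends Y.x.L (xiE Y.ok) q := xiE_dc Y.ok q
  have h2 := (h1.comp hG).post φ
  exact h2

/-- decomposition of the functions on a finite string -/
theorem OBa_sum {w : Str S} {l : ℕ} {V : Type} [AddCommGroup V] [Module k V] {T : V ≃ₗ[k] V} (h : w.PerOK l T)
    (hl : l = 0) (hf : w.Z.Finite) (m : (w.ME l T h).C) :
    m = ∑ p ∈ hf.toFinset, ioE h p (cfE h m p) := by
  apply cfE_inj h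
  rw [map_sum]
  have h1 : ∀ p ∈ hf.toFinset, cfE h (ioE h p (cfE h m p)) = (fun b => if p = b then cfE h m b else 0) := by
    intro p hp
    have hp' : p ∈ w.Z := hf.mem_toFinset.1 hp
    rw [cfE_ioE h hp']
    funext b
    rw [LB.spr_apply]
    show (if ((l : ℕ) : ℤ) ∣ (p - b) then _ else _) = _
    by_cases h' : p = b
    · subst h'
      rw [if_pos (by simp), if_pos rfl]
      exact (w.LB l T h).T_zpow_zero_l hl _ _
    · rw [if_neg h', if_neg]
      intro hd
      rw [hl] at hd
      have := zero_dvd_iff.1 hd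
      exact h' (by omega)
  rw [Finset.sum_congr rfl h1]
  funext b
  rw [Finset.sum_apply]
  by_cases hb : b ∈ w.Z
  · rw [Finset.sum_ite_eq' hf.toFinset b (fun _ => cfE h m b)]
    rw [if_pos (hf.mem_toFinset.2 hb)]
  · have h2 : cfE h m b = 0 := cfE_zero h hb
    rw [h2]
    symm
    refine Finset.sum_eq_zero (fun p hp => ?_)
    rw [if_neg]
    rintro rfl
    exact hb (hf.mem_toFinset.1 hp)

/-- decomposition of the elements of a finite block module -/
theorem Blk.sum_fin (X : Blk S k) (hX : X.l = 0) (m : X.M.C) :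
    m = ∑ p ∈ (X.fin hX).toFinset, X.iota p (X.fn m p) := by
  refine (OBa_sum X.ok hX (X.fin hX) m).trans ?_
  refine Finset.sum_congr rfl (fun p _ => ?_)
  exact (LinearMap.congr_fun (Blk.iota_eq X p) (X.fn m p)).symm

end StrAlg
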