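import Pool.Agent.Lib.MP_b9fd58_lc.WEc
import Pool.Agent.Lib.MP_b9fd58_lc.WFb

/-!
# Shifting an open point along a periodic string (job OD)
-/

set_option autoImplicit false

namespace StrAlg

open Module

variable {D : Dat} {k : Type} [Field k] {N : Type} [AddCommGroup N] [Module k N] {S : Sides D}

/-- vertex, side and words of a periodic string at `stn d (t * l) p` -/
theorem od_per {w : Str S} {l : ℕ} (hw : w.Per l) (d : Bool) (p : ℤ) (t : ℕ) :
    w.L.v (stn d ((t * l : ℕ) : ℤ) p) = w.L.v p ∧ w.L.r (stn d ((t * l : ℕ) : ℤ) p) = w.L.r p ∧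
      ∀ e, w.L.wdd e (stn d ((t * l : ℕ) : ℤ) p) = w.L.wdd e p := by
  have key : ∀ {β : Type} {P : ℤ → β}, StrAlg.Per l P → ∀ a : ℤ, P (stn d ((t * l : ℕ) : ℤ) a) = P a := by
    intro β P hP a
    cases d with
    | true =>
      rw [stn_true]
      have := hP.mul a (t : ℤ)
      rw [← this]; push_cast; rfl
    | false =>
      rw [stn_false]
      have := hP.mul a (-(t : ℤ))
      rw [← this]; congr 1; push_cast; ring
  refine ⟨key hw.1.v p, key hw.1.r p, fun e => ?_⟩
  funext n
  rw [Ln.wdd_apply, Ln.wdd_apply]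
  have h1 := key (hw.1.lt e) (stn e n p)
  rw [← h1]
  congr 1
  cases e <;> cases d <;> simp <;> ring

/-- Let `w` have the period `l`, and let `u'` be an open point at the vertex of `w` at `p` whose word on the side `s`
agrees with the word of `w` for `n ≥ t l` letters. Moving `t` periods along the side `s` gives an open point at the same
vertex: its word on the side `s` is `u' s` without the first `t l` letters; its word on the other side agrees with the
word of `w` for `t l` more letters than before.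

Proof: `QMod.OpenPt.exists_str` gives a string `w'` with `w'.L.v 0 = w.L.v p`, `w'.L.r 0 = true`, `w'.L.wd 0 = u'` and
windows at `0`. Let `e` be the direction of `w'` with `w'.L.sd e 0 = s` (`e := (s == true)`), `o := (w'.L.r 0 == w.L.r p)`.
`Mt w'.L w.L o 0 p`, and `AgD w'.L w.L o e 0 p (t * l)`; so `Mt` at `stn e (t*l) 0`, `stn (e == o) (t*l) p`, where `w` has the
same vertex and sides as at `p` (period). `w'` is open at `stn e (t*l) 0` (`HasWin.reach`, `hasWin_iff`), and
`u'' := w'.L.wd (stn e (t*l) 0)`; words by `Ln.wdd_stn` and `AgD.rev`. -/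
theorem shift_point (Q : QMod D k N) (w : Str S) {l : ℕ} (hl : 0 < l) (hw : w.Per l) (p : ℤ) (u' : Bool → Wd)
    (hu : ∀ s, (u' s).Abs) (ho : Q.OpenPt S (w.L.v p) u') (s : Bool) (n t m : ℕ)
    (hn : ∀ j < n, u' s j = w.L.wd p s j) (ht : t * l ≤ n) (hm : ∀ j < m, u' (!s) j = w.L.wd p (!s) j) :
    ∃ u'' : Bool → Wd, (∀ s, (u'' s).Abs) ∧ Q.OpenPt S (w.L.v p) u'' ∧ (∀ j, u'' s j = u' s (t * l + j)) ∧
      ∀ j < t * l + m, u'' (!s) j = w.L.wd p (!s) j := by
  obtain ⟨w', hv, hr, hwd, hwin⟩ := QMod.OpenPt.exists_str hu ho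
  set o : Bool := w.L.r p with ho'
  have hmt : Mt w'.L w.L o 0 p := ⟨hv, by rw [hr, ho']; cases w.L.r p <;> rfl⟩
  have hws : ∀ s', w'.L.wd 0 s' = w'.L.wdd s' 0 := by
    intro s'
    show w'.L.wdd (s' == w'.L.r 0) 0 = _
    rw [hr]; cases s' <;> rfl
  have hus : ∀ s', u' s' = w'.L.wdd s' 0 := fun s' => by rw [← hws, hwd]
  have hwp : ∀ s', w.L.wd p s' = w.L.wdd (s' == o) p := fun s' => rfl
  have hag : AgD w'.L w.L o s 0 p (t * l) := by
    intro j hj
    have h1 := hn j (by omega)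
    rw [hus, hwp] at h1
    refine ⟨h1, ?_⟩
    rw [h1, ← hwp]
    exact hw.wd_ne p s j
  obtain ⟨pv, pr, pw⟩ := od_per hw (s == o) p t
  have hmt' : Mt w'.L w.L o (stn s ((t * l : ℕ) : ℤ) 0) (stn (s == o) ((t * l : ℕ) : ℤ) p) := hag.walk.1.2 hmt
  have hrev := hag.rev
  set a : ℤ := stn s ((t * l : ℕ) : ℤ) 0 with ha
  set q : ℤ := stn (s == o) ((t * l : ℕ) : ℤ) p with hq
  have hra : w'.L.r a = true := by
    have h1 := hmt'.2
    rw [pr, ← ho'] at h1
    revert h1
    cases w'.L.r a <;> cases o <;> simp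
  have hreach : w'.L.Reach 0 a := Ln.Reach.of_lt (fun j hj => (hag j hj).2)
  have hwa : ∀ s', w'.L.wd a s' = w'.L.wdd s' a := by
    intro s'
    show w'.L.wdd (s' == w'.L.r a) a = _
    rw [hra]; cases s' <;> rfl
  refine ⟨w'.L.wd a, fun s' => w'.wd_abs hreach s', ?_, ?_, ?_⟩
  · have h1 := (hasWin_iff w'.ok a).1 (hwin.reach hreach)
    rwa [hmt'.1, pv] at h1
  · intro j
    rw [hwa, ha, Ln.wdd_stn, hus]
  · intro j hj
    rw [hwa, hwp, beq_not]
    rcases lt_or_ge j (t * l) with h1 | h1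
    · have h2 := (hrev j h1).1
      rw [beq_not, pw] at h2
      exact h2
    · obtain ⟨i, rfl⟩ := Nat.exists_eq_add_of_le h1
      have h2 := hm i (by omega)
      rw [hus, hwp, beq_not] at h2
      have h3 : ∀ (L : Ln (Fin D.nV) S.nx) (d : Bool) (x : ℤ),
          L.wdd (!d) (stn d ((t * l : ℕ) : ℤ) x) (t * l + i) = L.wdd (!d) x i := by
        intro L d x
        rw [Ln.wdd_apply, Ln.wdd_apply]
        congr 1
        cases d <;> simp <;> ring
      rw [ha, h3, h2, ← h3 w.L (s == o) p, ← hq, pw]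

end StrAlg
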