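import Pool.Agent.Lib.MP_b9fd58_lc.OD
import Pool.Agent.Lib.MP_b9fd58_lc.WK

/-!
# Limits of shifted open points (job OE)
-/

set_option autoImplicit false

namespace StrAlg

open Module

variable {D : Dat} {k : Type} [Field k] {N : Type} [AddCommGroup N] [Module k N] {S : Sides D}

theorem oe_lam {w : Str S} {l : ℕ} (h : w.Per l) (t : ℕ) : ∀ p : ℤ, w.L.lam (p + (t * l : ℕ)) = w.L.lam p := by
  induction t with
  | zero => intro p; simp
  | succ t ih =>
    intro p
    have e1 : p + ((t + 1) * l : ℕ) = p + (t * l : ℕ) + (l : ℤ) := by push_cast; ring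
    rw [e1, h.1.1, ih]

/-- the words of a periodic line are periodic -/
theorem Str.Per.wd_per {w : Str S} {l : ℕ} (h : w.Per l) (p : ℤ) (s : Bool) (t j : ℕ) :
    w.L.wd p s (t * l + j) = w.L.wd p s j := by
  unfold Ln.wd
  rw [Ln.wdd_apply, Ln.wdd_apply]
  unfold Ln.lt
  cases (s == w.L.r p)
  · simp only [Bool.false_eq_true, if_false, stn_false]
    have h1 := oe_lam h t (p - ((t * l + j : ℕ) : ℤ) - 1)
    have e1 : p - ((t * l + j : ℕ) : ℤ) - 1 + ((t * l : ℕ) : ℤ) = p - (j : ℤ) - 1 := by push_cast; ring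
    rw [e1] at h1
    rw [h1]
  · simp only [if_true, stn_true]
    have h1 := oe_lam h t (p + (j : ℤ))
    have e1 : p + (j : ℤ) + ((t * l : ℕ) : ℤ) = p + ((t * l + j : ℕ) : ℤ) := by push_cast; ring
    rw [e1] at h1
    rw [h1]

/-- If the point of a bi-infinite periodic string `w` at `p` is not isolated among the open points then for every `m₁`
there is an open point that agrees with it for `m₁` letters on both sides, is equal on one side and different on the other.

Proof. Let `l` be a period. For every `m` there is an open point `u' ≠ w.L.wd p` agreeing for `m` letters, so (pigeonhole on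
the side, the condition is monotone in `m`) there is a side `s` such that for every `m` there is such a `u'` with
`u' s ≠ w.L.wd p s`; let `n ≥ m` be the first difference. For `m ≥ m₁` put `t := (n - m₁) / l` and apply `shift_point`:
`u''` agrees on the side `s` for `m₁` letters (`Str.Per.wd_per`), differs at `n - t l < m₁ + l`, and agrees on the other
side for `m` letters. The sets `K m` of absorbing open points `u` with: `u (!s)` agrees for `m` letters, `u s` agrees for
`m₁` letters and differs before `m₁ + l`, are closed, decreasing and nonempty: `exists_mem_all` (`isClosed_abs`,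
`isClosed_openPt`, `isClopen_of_fin`). -/
theorem shift_limit (Q : QMod D k N) (w : Str S) (hw : ¬ w.Aper) (p : ℤ)
    (h : ∀ m, ∃ u' : Bool → Wd, (∀ s, (u' s).Abs) ∧ Q.OpenPt S (w.L.v p) u' ∧
      (∀ s, ∀ j < m, u' s j = w.L.wd p s j) ∧ u' ≠ w.L.wd p) (m₁ : ℕ) :
    ∃ u' : Bool → Wd, (∀ s, (u' s).Abs) ∧ Q.OpenPt S (w.L.v p) u' ∧ (∀ s, ∀ j < m₁, u' s j = w.L.wd p s j) ∧
      ∃ s, u' (!s) = w.L.wd p (!s) ∧ u' s ≠ w.L.wd p s := by
  classical
  -- a period
  obtain ⟨l, hl, hper⟩ : ∃ l, 0 < l ∧ w.Per l := by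
    unfold Str.Aper at hw
    push Not at hw
    exact hw
  -- the side
  obtain ⟨s, hs⟩ : ∃ s, ∀ m, ∃ u' : Bool → Wd, (∀ s, (u' s).Abs) ∧ Q.OpenPt S (w.L.v p) u' ∧
      (∀ s, ∀ j < m, u' s j = w.L.wd p s j) ∧ u' s ≠ w.L.wd p s := by
    by_contra hcon
    push Not at hcon
    choose m hm using hcon
    obtain ⟨u', h1, h2, h3, h4⟩ := h (max (m true) (m false))
    apply h4
    funext s
    refine hm s u' h1 h2 (fun s' j hj => h3 s' j (lt_of_lt_of_le hj ?_))
    cases s
    · exact le_max_right _ _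
    · exact le_max_left _ _
  let K : ℕ → Set (Bool → Wd) := fun m => ({u | ∀ s, (u s).Abs} ∩ {u | Q.OpenPt S (w.L.v p) u}) ∩
    {u | (∀ j < m, u (!s) j = w.L.wd p (!s) j) ∧ (∀ j < m₁, u s j = w.L.wd p s j) ∧
      ∃ j < m₁ + l, u s j ≠ w.L.wd p s j}
  have hK : ∀ m, IsClosed (K m) := by
    intro m
    refine (isClosed_abs.inter (isClosed_openPt Q S _)).inter ?_
    refine (isClopen_of_fin (max m (m₁ + l)) _ ?_).isClosed
    rintro u v huv ⟨h1, h2, j, h3, h4⟩
    refine ⟨fun j hj => ?_, fun j hj => ?_, j, h3, ?_⟩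
    · rw [← huv (!s) j (lt_of_lt_of_le hj (le_max_left _ _))]; exact h1 j hj
    · rw [← huv s j (lt_of_lt_of_le (by omega) (le_max_right m (m₁ + l)))]; exact h2 j hj
    · rw [← huv s j (lt_of_lt_of_le h3 (le_max_right m (m₁ + l)))]; exact h4
  have hd : ∀ m, K (m + 1) ⊆ K m := by
    rintro m u ⟨h0, h1, h2⟩
    exact ⟨h0, fun j hj => h1 j (by omega), h2⟩
  have hne : ∀ m, (K m).Nonempty := by
    intro m
    obtain ⟨u', h1, h2, h3, h4⟩ := hs (max m m₁)
    have h5 : ∃ n, u' s n ≠ w.L.wd p s n := by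
      by_contra hcon
      push Not at hcon
      exact h4 (funext hcon)
    obtain ⟨n, hn1, hn2⟩ : ∃ n, u' s n ≠ w.L.wd p s n ∧ ∀ j < n, u' s j = w.L.wd p s j := by
      refine ⟨Nat.find h5, Nat.find_spec h5, fun j hj => ?_⟩
      have := Nat.find_min h5 hj
      push Not at this
      exact this
    have hnM : max m m₁ ≤ n := by
      by_contra hcon
      exact hn1 (h3 s n (by omega))
    have hm1n : m₁ ≤ n := le_trans (le_max_right _ _) hnM
    have ht1 : (n - m₁) / l * l ≤ n - m₁ := Nat.div_mul_le_self _ _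
    have ht2 : n - m₁ < (n - m₁) / l * l + l := by
      have := Nat.lt_div_mul_add hl (a := n - m₁)
      exact this
    obtain ⟨u'', g1, g2, g3, g4⟩ := shift_point Q w hl hper p u' h1 h2 s n ((n - m₁) / l) (max m m₁) hn2
      (by omega) (fun j hj => h3 (!s) j hj)
    refine ⟨u'', ⟨g1, g2⟩, fun j hj => ?_, fun j hj => ?_, n - (n - m₁) / l * l, by omega, ?_⟩
    · refine g4 j ?_
      have : m ≤ max m m₁ := le_max_left _ _
      omega
    · rw [g3 j, hn2 _ (by omega), hper.wd_per]
    · rw [g3]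
      have e1 : (n - m₁) / l * l + (n - (n - m₁) / l * l) = n := by omega
      rw [e1]
      have h6 := hper.wd_per p s ((n - m₁) / l) (n - (n - m₁) / l * l)
      rw [e1] at h6
      rw [← h6]
      exact hn1
  obtain ⟨u, hu⟩ := exists_mem_all K hK hd hne
  refine ⟨u, (hu 0).1.1, (hu 0).1.2, fun s' j hj => ?_, s, ?_, ?_⟩
  · by_cases hss : s' = s
    · subst hss; exact (hu 0).2.2.1 j hj
    · have : s' = !s := by cases s <;> cases s' <;> simp_all
      subst this
      exact (hu m₁).2.1 j hj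
  · funext j
    exact (hu (j + 1)).2.1 j (by omega)
  · obtain ⟨j, -, hj⟩ := (hu 0).2.2.2
    intro heq
    exact hj (congrFun heq j)

end StrAlg
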