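import Pool.Agent.Lib.MP_b9fd58_lc.WFb

/-!
# Periodic strings: one side determines the string (job W-G)
-/

set_option autoImplicit false

namespace StrAlg

variable {D : Dat} {S : Sides D}

/-- the letters on the other side in terms of the letters on this side -/
theorem WG_back {L : Ln (Fin D.nV) S.nx} {l : ℕ} (h : L.IsPer l) (e : Bool) (p : ℤ) (n j : ℕ)
    (hj : n + 1 ≤ j * l) : L.wdd (!e) p n = Fin.rev (L.wdd e p (j * l - (n + 1))) := by
  rw [Ln.wdd_apply, Ln.wdd_apply]
  have e1 : stn (!e) (n : ℤ) p = st e (stn (!e) ((n + 1 : ℕ) : ℤ) p) := by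
    cases e <;> simp <;> ring
  rw [e1, Ln.lt_back]
  congr 1
  have e2 : stn e (((j * l - (n + 1) : ℕ)) : ℤ) p =
      stn (!e) ((n + 1 : ℕ) : ℤ) p + (if e then (j : ℤ) else -(j : ℤ)) * (l : ℤ) := by
    rw [Nat.cast_sub hj]
    cases e <;> simp <;> ring
  rw [e2, (h.lt e).mul]

theorem WG_mul {L : Ln (Fin D.nV) S.nx} {l : ℕ} (h : L.IsPer l) (m : ℕ) : L.IsPer (l * m) := by
  have key : ∀ {β : Type} (P : ℤ → β), Per l P → Per (l * m) P := by
    intro β P hP a
    have := hP.mul a m
    rw [← this]
    congr 1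
    push_cast
    ring
  exact ⟨key _ h.lam, key _ h.v, key _ h.r⟩

/-- **one side of a band**: if the string `w'` has at `p'` the same vertex and on the side `s` the same word as a
bi-infinite periodic string `w` at `p`, but a different word on the other side, then `w'` is not bi-infinite periodic

Proof: if `w'.Per l'`, `w.Per l` then both lines are periodic with period `L = l * l'`, and they agree in one direction from
`p`, so everywhere (the letter at distance `-n` is the letter at distance `-n + j L`). -/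
theorem Str.aper_of_side {w w' : Str S} (hw : ¬ w.Aper) {p p' : ℤ} (hp : p ∈ w.Z) (hp' : p' ∈ w'.Z)
    (hv : w'.L.v p' = w.L.v p) {s : Bool} (h1 : w'.L.wd p' s = w.L.wd p s) (h2 : w'.L.wd p' (!s) ≠ w.L.wd p (!s)) :
    w'.Aper := by
  unfold Str.Aper at hw
  push Not at hw
  obtain ⟨l, hl, hper⟩ := hw
  intro l' hl' hper'
  apply h2
  have i1 : w.L.IsPer (l * l') := WG_mul hper.1 l'
  have i2 : w'.L.IsPer (l * l') := by
    rw [Nat.mul_comm]
    exact WG_mul hper'.1 l
  have hpos : 0 < l * l' := Nat.mul_pos hl hl'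
  funext n
  unfold Ln.wd at h1 ⊢
  have e1 : ∀ r : Bool, ((!s) == r) = !(s == r) := by intro r; cases s <;> cases r <;> rfl
  rw [e1, e1]
  have hj : n + 1 ≤ (n + 1) * (l * l') := Nat.le_mul_of_pos_right _ hpos
  rw [WG_back i1 _ p n (n + 1) hj, WG_back i2 _ p' n (n + 1) hj, h1]

/-- the positions of an infinite string are infinite in number -/
theorem Str.infinite_of_not_fin (w : Str S) (h : ¬ w.Fin) : w.Z.Infinite := h

end StrAlg
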