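import Pool.Agent.Lib.MP_b9fd58_lc.OAb
import Pool.Agent.Lib.MP_b9fd58_lc.OE
import Pool.Agent.Lib.MP_b9fd58_lc.WG

/-!
# Open bad points are periodic and isolated if there is no string outcome (job OF)
-/

set_option autoImplicit false

namespace StrAlg

open Module

variable {D : Dat} {k : Type} [Field k] {S : Sides D}

/-- the absorbing open bad points -/
def EPt (X Y : Blk S k) (a : X.M.C) (b : Dual k Y.M.C) (M : Md D k) : Set (Fin D.nV × (Bool → Wd)) :=
  {x | (∀ s, (x.2 s).Abs) ∧ M.Q.OpenPt S x.1 x.2 ∧ BadPt X Y a b x.1 x.2}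

/-- Without the outcome `OutA`, an open bad point of a module `M` below `N` belongs to a bi-infinite periodic string.

Proof: `QMod.OpenPt.exists_str`, `not_critB_of_badPt` at `q = 0`; if the string was `Aper` this would be `OutA`. -/
theorem exists_per_of_not_outA (X Y : Blk S k) (hX : X.l = 0) (hY : Y.l = 0) (a : X.M.C) (b : Dual k Y.M.C)
    (N M : Md D k) (hM : SubM M N) (hA : ¬ OutA X Y a b N) (i : Fin D.nV) (u : Bool → Wd) (h : (i, u) ∈ EPt X Y a b M) :
    ∃ w : Str S, ¬ w.Aper ∧ w.L.v 0 = i ∧ w.L.wd 0 = u := by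
  obtain ⟨hu, ho, hb⟩ := h
  obtain ⟨w, hv, _, hwd, hwin⟩ := QMod.OpenPt.exists_str hu ho
  by_cases hAp : w.Aper
  · exfalso
    refine hA ⟨w, hAp, not_critB_of_badPt X Y hX hY a b w 0 w.wzero_mem ?_, M, hM, hwin⟩
    rw [hv, hwd]
    exact hb
  · exact ⟨w, hAp, hv, hwd⟩

/-- Without the outcome `OutA`, an open bad point of a module below `N` is isolated among the open points.

Proof: otherwise `shift_limit` (at `p = 0`, for the `m₁` of `badPt_nhds`; the words of `w` do not end: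
`Str.Per.wd_ne`) gives an open bad point `u'` equal to `u` on one side and different on the other side; its string is
`Aper` (`Str.aper_of_side`), so `OutA`. -/
theorem isolated_of_not_outA (X Y : Blk S k) (hX : X.l = 0) (hY : Y.l = 0) (a : X.M.C) (b : Dual k Y.M.C)
    (N M : Md D k) (hM : SubM M N) (hA : ¬ OutA X Y a b N) (i : Fin D.nV) (u : Bool → Wd) (h : (i, u) ∈ EPt X Y a b M) :
    ∃ m₀, ∀ u' : Bool → Wd, (∀ s, (u' s).Abs) → M.Q.OpenPt S i u' → (∀ s, ∀ j < m₀, u' s j = u s j) → u' = u := by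
  obtain ⟨w, hw, hv, hwd⟩ := exists_per_of_not_outA X Y hX hY a b N M hM hA i u h
  obtain ⟨hu, ho, hb⟩ := h
  by_contra hcon
  push Not at hcon
  obtain ⟨l, hl, hper⟩ : ∃ l : ℕ, 0 < l ∧ w.Per l := by
    unfold Str.Aper at hw
    push Not at hw
    exact hw
  have hne : ∀ s n, u s n ≠ 1 := by
    intro s n
    rw [← hwd]
    exact hper.wd_ne 0 s n
  obtain ⟨m₁, hm₁⟩ := badPt_nhds X Y hX hY a b i u hne hb
  obtain ⟨u', hu', ho', hag, s, h1, h2⟩ := shift_limit M.Q w hw 0 (by
    intro m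
    obtain ⟨u', a1, a2, a3, a4⟩ := hcon m
    refine ⟨u', a1, ?_, ?_, ?_⟩
    · rw [hv]; exact a2
    · rw [hwd]; exact a3
    · rw [hwd]; exact a4) m₁
  have hb' : BadPt X Y a b i u' := hm₁ u' (fun s j hj => by rw [hag s j hj, hwd])
  obtain ⟨w', hv', _, hwd', hwin'⟩ := QMod.OpenPt.exists_str hu' ho'
  have hAp : w'.Aper := by
    refine Str.aper_of_side (w := w) (w' := w') hw (p := 0) (p' := 0) w.wzero_mem w'.wzero_mem hv' (s := !s) ?_ ?_
    · rw [hwd']; exact h1
    · rw [hwd', Bool.not_not]; exact h2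
  refine hA ⟨w', hAp, not_critB_of_badPt X Y hX hY a b w' 0 w'.wzero_mem ?_, M, hM, hwin'⟩
  rw [hv', hv, hwd']
  exact hb'

/-- so there are only finitely many (`finite_of_isolated`, `isClosed_badPt`, `isClosed_openPt`, `isClosed_abs`) -/
theorem EPt_finite (X Y : Blk S k) (hX : X.l = 0) (hY : Y.l = 0) (a : X.M.C) (b : Dual k Y.M.C)
    (N M : Md D k) (hM : SubM M N) (hA : ¬ OutA X Y a b N) : (EPt X Y a b M).Finite := by
  have hK : ∀ i : Fin D.nV, {u : Bool → Wd | (i, u) ∈ EPt X Y a b M}.Finite := by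
    intro i
    apply finite_of_isolated
    · have h1 : {u : Bool → Wd | (i, u) ∈ EPt X Y a b M} = {u : Bool → Wd | ∀ s, (u s).Abs} ∩
          ({u : Bool → Wd | M.Q.OpenPt S i u} ∩ {u : Bool → Wd | BadPt X Y a b i u}) := by
        ext u
        exact Iff.rfl
      rw [h1]
      exact isClosed_abs.inter ((isClosed_openPt M.Q S i).inter (isClosed_badPt X Y hX hY a b i))
    · intro u hu
      obtain ⟨m, hm⟩ := isolated_of_not_outA X Y hX hY a b N M hM hA i u hu
      exact ⟨m, fun v hv hag => hm v hv.1 hv.2.1 hag⟩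
  refine Set.Finite.subset (Set.finite_iUnion (fun i => (hK i).image (fun u => (i, u)))) ?_
  rintro ⟨i, u⟩ hx
  rw [Set.mem_iUnion]
  exact ⟨i, u, hx, rfl⟩

end StrAlg
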