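import Pool.Agent.Lib.MP_b9fd58_lc.OGa

/-!
# Theorem O for two finite blocks (job OGb)
-/

set_option autoImplicit false

namespace StrAlg

open Module

variable {D : Dat} {k : Type} [Field k] {S : Sides D}

/-- **Theorem O for two finite blocks** (induction on the number of points of `EPt`) -/
theorem out_fin (hT : ThmT S k) (Can : Set (Str S)) (hC : CanOK Can) (X Y : Blk S k) (hX : X.l = 0) (hY : Y.l = 0)
    (a : X.M.C) (b : Dual k Y.M.C) (N : Md D k) (hN : N.Nice) (h : (bpr X Y a b).Opn N) :
    OutA X Y a b N ∨ OutB Can X Y a b N := by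
  by_cases hA : OutA X Y a b N
  · exact Or.inl hA
  by_cases hB : OutB Can X Y a b N
  · exact Or.inr hB
  exfalso
  have key : ∀ (n : ℕ) (M : Md D k), SubM M N → M.Nice → (bpr X Y a b).Opn M → (EPt X Y a b M).ncard = n →
      False := by
    intro n
    induction n using Nat.strong_induction_on with
    | _ n ih =>
      intro M hM hMN ho hn
      rcases fin_step hT Can hC X Y hX hY a b N M hM hMN hA ho with h1 | ⟨M', h1, h2, h3, h4⟩
      · exact hB h1
      · have hfin : (EPt X Y a b M).Finite := EPt_finite X Y hX hY a b N M hM hA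
        have hlt : (EPt X Y a b M').ncard < n := by
          rw [← hn]
          exact Set.ncard_lt_ncard h4 hfin
        exact ih _ hlt M' h1 h2 h3 rfl
  exact key _ N (SubM.refl N) hN h rfl

end StrAlg
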