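import Pool.Agent.Lib.MP_b9fd58_lc.OBa

/-!
# Band blocks: the universal chain is equivariant, decomposition (job OHa)
-/

set_option autoImplicit false

namespace StrAlg

open Module

variable {D : Dat} {k : Type} [Field k] {S : Sides D}

theorem Blk.iota_add (X : Blk S k) (p : ℤ) (v : Fin X.n → k) : X.iota (p + X.l) v = X.iota p (X.T v) := by
  have h1 : X.iota (p + X.l) v = ioE X.ok (p + X.l) v := LinearMap.congr_fun (X.iota_eq (p + X.l)) v
  have h2 : X.iota p (X.T v) = ioE X.ok p (X.T v) := LinearMap.congr_fun (X.iota_eq p) (X.T v)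
  rw [h1, h2]
  exact ioE_add_l X.ok p v

theorem Blk.fn_per (X : Blk S k) (m : X.M.C) (p : ℤ) : X.T (X.fn m (p + X.l)) = X.fn m p :=
  cfE_per X.ok m p

theorem Blk.fn_iota_self (X : Blk S k) {p : ℤ} (hp : p ∈ X.x.Z) (v : Fin X.n → k) : X.fn (X.iota p v) p = v := by
  have h1 : X.iota p v = ioE X.ok p v := LinearMap.congr_fun (X.iota_eq p) v
  rw [h1]
  have h2 : X.fn (ioE X.ok p v) p = (X.x.LB X.l X.T X.ok).spr p v p := congrFun (cfE_ioE X.ok hp v) p
  rw [h2]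
  exact (X.x.LB X.l X.T X.ok).spr_self p v

theorem Blk.fn_ext (X : Blk S k) {m m' : X.M.C} (h : ∀ p ∈ X.x.Z, X.fn m p = X.fn m' p) : m = m' := by
  refine cfE_inj X.ok ?_
  funext p
  by_cases hp : p ∈ X.x.Z
  · exact h p hp
  · exact (cfE_zero X.ok hp).trans (cfE_zero X.ok hp).symm

theorem OHa_sum {w : Str S} {l : ℕ} {V : Type} [AddCommGroup V] [Module k V] {T : V ≃ₗ[k] V} (hl : 0 < l)
    (h : w.PerOK l T) (m : (w.ME l T h).C) :
    m = ∑ p ∈ Finset.range l, ioE h (p : ℤ) (cfE h m (p : ℤ)) := by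
  obtain ⟨n, rfl⟩ := Nat.exists_eq_succ_of_ne_zero hl.ne'
  refine (ME_decomp h m Finset.univ (fun x hx => absurd (Finset.mem_univ x) hx)).trans ?_
  rw [← Fin.sum_univ_eq_sum_range (fun p : ℕ => ioE h (p : ℤ) (cfE h m (p : ℤ))) (n + 1)]
  refine Finset.sum_congr rfl fun x _ => ?_
  have h1 : cst x = ((x.val : ℕ) : ℤ) := ZMod.cast_eq_val x
  rw [h1]
  rfl

/-- decomposition of the elements of a band block -/
theorem Blk.sum_band (X : Blk S k) (hX : 0 < X.l) (m : X.M.C) :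
    m = ∑ p ∈ Finset.range X.l, X.iota (p : ℤ) (X.fn m (p : ℤ)) := by
  refine (OHa_sum hX X.ok m).trans ?_
  refine Finset.sum_congr rfl fun p _ => ?_
  exact (LinearMap.congr_fun (X.iota_eq (p : ℤ)) (X.fn m (p : ℤ))).symm

theorem Blk.chain_mem_Q (X : Blk S k) {N : Md D k} {f : X.M.C →ₗ[k] N.C} (hf : X.M.Hom N f) (v : Fin X.n → k) :
    (fun p => f (X.iota p v)) ∈ X.x.Q N := by
  refine ⟨fun q => X.chain hf v q, fun q hq => ?_⟩
  have h1 : X.iota q v = ioE X.ok q v := LinearMap.congr_fun (X.iota_eq q) v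
  have h2 : ioE X.ok q v = 0 := by rw [ioE_zero X.ok hq]; rfl
  show f (X.iota q v) = 0
  rw [h1, h2]
  exact map_zero f

end StrAlg
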