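import Pool.Agent.Lib.MP_b9fd58_lc.OHa

/-!
# Homomorphisms from a band block with all chains in K0 (job OHb)
-/

set_option autoImplicit false

namespace StrAlg

open Module

section aux
variable {M : Type*} [AddCommGroup M]

/-- the sum over a window of length `l` of an `l`-periodic function -/
theorem ohb_window (l : ℕ) (s : ℤ → M) (h : ∀ z, s (z + l) = s z) (z : ℤ) :
    ∑ i ∈ Finset.range l, s (z + i) = ∑ i ∈ Finset.range l, s (i : ℤ) := by
  have step : ∀ z : ℤ, ∑ i ∈ Finset.range l, s (z + 1 + i) = ∑ i ∈ Finset.range l, s (z + i) := by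
    intro z
    have h1 := Finset.sum_range_succ (fun i : ℕ => s (z + i)) l
    have h2 := Finset.sum_range_succ' (fun i : ℕ => s (z + i)) l
    rw [h1] at h2
    simp only [Nat.cast_zero, add_zero, h z] at h2
    have h3 := add_right_cancel h2
    rw [h3]
    refine Finset.sum_congr rfl (fun i _ => ?_)
    congr 1
    push_cast
    ring
  have h0 : ∑ i ∈ Finset.range l, s (0 + i) = ∑ i ∈ Finset.range l, s (i : ℤ) := by
    simp
  rw [← h0]
  induction z using Int.induction_on with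
  | zero => rfl
  | succ i ih => rw [step, ih]
  | pred i ih =>
    rw [← ih, ← step (-(i : ℤ) - 1)]
    refine Finset.sum_congr rfl (fun j _ => ?_)
    congr 1
    ring

theorem ohb_tele (l n : ℕ) (h : ℕ → M) :
    ∑ i ∈ Finset.range n, (h (i + l) - h i) = ∑ i ∈ Finset.range l, (h (n + i) - h i) := by
  rw [Finset.sum_sub_distrib, Finset.sum_sub_distrib]
  have h1 := Finset.sum_range_add h n l
  have h2 := Finset.sum_range_add h l n
  rw [add_comm n l, h2] at h1
  have h3 : ∑ i ∈ Finset.range n, h (i + l) = ∑ i ∈ Finset.range n, h (l + i) :=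
    Finset.sum_congr rfl (fun i _ => by rw [add_comm])
  rw [h3, sub_eq_sub_iff_add_eq_add, add_comm _ (∑ i ∈ Finset.range l, h i), h1, add_comm]

theorem ohb_Icc (A : ℤ) (n : ℕ) (g : ℤ → M) :
    ∑ q ∈ Finset.Icc A (A + n - 1), g q = ∑ i ∈ Finset.range n, g (A + i) := by
  symm
  refine Finset.sum_bij (fun (i : ℕ) _ => A + (i : ℤ)) ?_ ?_ ?_ ?_
  · intro i hi
    rw [Finset.mem_range] at hi
    rw [Finset.mem_Icc]
    omega
  · intro i _ j _ hij
    have : A + (i : ℤ) = A + (j : ℤ) := hij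
    omega
  · intro q hq
    rw [Finset.mem_Icc] at hq
    refine ⟨(q - A).toNat, ?_, ?_⟩
    · rw [Finset.mem_range]; omega
    · omega
  · intro i _
    rfl

/-- telescoping for the difference of an `l`-periodic function and a function which vanishes for big arguments -/
theorem ohb_main (l : ℕ) (A₀ B₀ : ℤ) (a s : ℤ → M) (hs : ∀ z, s (z + l) = s z)
    (ha : ∀ q < A₀, a q = 0) (has : ∀ q > B₀, a q = s q) :
    ∑ q ∈ Finset.Icc (A₀ - l) (A₀ - l + (B₀ + 1 - (A₀ - l)).toNat - 1), (a (q + l) - a q) =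
      ∑ i ∈ Finset.range l, s (i : ℤ) := by
  set A := A₀ - l with hA
  set n := (B₀ + 1 - A).toNat with hn
  rw [ohb_Icc]
  have h1 := ohb_tele l n (fun i : ℕ => a (A + i))
  have h2 : ∑ i ∈ Finset.range n, (a (A + i + l) - a (A + i)) =
      ∑ i ∈ Finset.range n, ((fun i : ℕ => a (A + i)) (i + l) - (fun i : ℕ => a (A + i)) i) := by
    refine Finset.sum_congr rfl (fun i _ => ?_)
    simp only
    push_cast
    rw [add_assoc]
  rw [h2, h1, ← ohb_window l s hs (A + n)]
  refine Finset.sum_congr rfl (fun i hi => ?_)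
  rw [Finset.mem_range] at hi
  rw [ha (A + i) (by omega), sub_zero, has _ (by push_cast; omega)]
  congr 1
  push_cast
  ring

end aux

variable {D : Dat} {k : Type} [Field k] {S : Sides D}

/-- the shift by the period of a chain is a chain -/
theorem ohb_shift (X : Blk S k) (N : Md D k) {g : ℤ → N.C} (hg : g ∈ X.x.Q N) :
    (fun p => g (p + X.l)) ∈ X.x.Q N := by
  obtain ⟨h1, h2⟩ := hg
  have hp := X.ok.per
  refine ⟨fun q => ⟨fun i => ?_, fun α => ?_⟩, fun q hq => ?_⟩
  · have h3 := (h1 (q + X.l)).1 i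
    rw [hp.v] at h3
    exact h3
  · have h3 := (h1 (q + X.l)).2 α
    rw [h3]
    refine Finset.sum_congr rfl (fun e _ => ?_)
    rw [hp.v, hp.lt e, LB.Ln_sd_per hp e, LB.st_add]
  · exact h2 _ (fun h => hq ((X.x.Zper X.ok q).1 h))

/-- If all chains along the band are in `K0` then every homomorphism from the band block is given by finite chains.

Proof. Write `f(v) p := f (X.iota p v)`, a chain (`Blk.chain_mem_Q`), `f(v) (p + l) = f(T v) p` (`Blk.iota_add`). For the basis
vectors choose `f(e_i) = L_i + R_i` in `X.x.Q N`, `L_i p = 0` for `p < A₀`, `R_i p = 0` for `p > B₀`, and extend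
linearly: `f(v) = L v + R v`. Put `c v := fun p => L v (p + l) - L (T v) p = R (T v) p - R v (p + l)`: a chain (the shift by
the period `l` of a chain is a chain), zero for `p < A` and for `p > B` (suitable `A`, `B`, uniform in `v`). Iterating
`L v p = L (T v) (p - l) + c v (p - l)` and `R v p = R (T⁻¹ v) (p + l) + c (T⁻¹ v) p` until the remainders vanish:
`f(v) p = ∑_{j ∈ ℤ} c (T^(-j-1) v) (p + j l)` (finitely many nonzero terms). Finally
`f m = ∑_{p < l} f(m p) p` (`Blk.sum_band`) `= ∑_{p < l} ∑_j c (T^(-j-1) (m p)) (p + j l) = ∑_q c (T⁻¹ (m q)) q`, since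
`m (p + j l) = T^(-j) (m p)`. -/
theorem band_hom (X : Blk S k) (hX : 0 < X.l) (N : Md D k) (hQ : ∀ n ∈ X.x.Q N, X.x.K0 N n) (f : X.M.C →ₗ[k] N.C)
    (hf : X.M.Hom N f) :
    ∃ (A B : ℤ) (c : (Fin X.n → k) →ₗ[k] (ℤ → N.C)), (∀ v, c v ∈ X.x.Q N) ∧
      (∀ v p, p < A ∨ B < p → c v p = 0) ∧
      ∀ m : X.M.C, f m = ∑ p ∈ Finset.Icc A B, c (X.T.symm (X.fn m p)) p := by
  classical
  set F : (Fin X.n → k) →ₗ[k] (ℤ → N.C) := LinearMap.pi (fun p => f ∘ₗ X.iota p) with hF
  have hFv : ∀ v p, F v p = f (X.iota p v) := fun v p => rfl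
  have hFQ : ∀ v, F v ∈ X.x.Q N := fun v => Blk.chain_mem_Q X hf v
  have hK : ∀ i : Fin X.n, ∃ (a c : ℤ → N.C) (m m' : ℤ), a ∈ X.x.Q N ∧ c ∈ X.x.Q N ∧
      F (Pi.single i 1) = a + c ∧ (∀ p < m, a p = 0) ∧ (∀ p > m', c p = 0) := by
    intro i
    obtain ⟨a, ha, c, hc, h1, ⟨m, hm⟩, ⟨m', hm'⟩⟩ := hQ _ (hFQ (Pi.single i 1))
    exact ⟨a, c, m, m', ha, hc, h1, hm, hm'⟩
  choose a c mL mR haQ _ hac hmL hmR using hK
  obtain ⟨A₀, hA₀⟩ := Finite.exists_ge mL
  obtain ⟨B₀, hB₀⟩ := Finite.exists_le mR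
  set L : (Fin X.n → k) →ₗ[k] (ℤ → N.C) := Fintype.linearCombination k a with hL
  set R : (Fin X.n → k) →ₗ[k] (ℤ → N.C) := Fintype.linearCombination k c with hR
  have hFLR : F = L + R := by
    refine LinearMap.pi_ext' (fun i => LinearMap.ext_ring ?_)
    rw [LinearMap.comp_apply, LinearMap.comp_apply, LinearMap.add_apply]
    simp only [LinearMap.coe_single, hL, hR, Fintype.linearCombination_apply_single, one_smul]
    exact hac i
  have hLQ : ∀ v, L v ∈ X.x.Q N := by
    intro v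
    rw [hL, Fintype.linearCombination_apply]
    exact Submodule.sum_mem _ (fun i _ => Submodule.smul_mem _ _ (haQ i))
  have hL0 : ∀ v, ∀ p < A₀, L v p = 0 := by
    intro v p hp
    rw [hL, Fintype.linearCombination_apply, Finset.sum_apply]
    refine Finset.sum_eq_zero (fun i _ => ?_)
    rw [Pi.smul_apply, hmL i p (lt_of_lt_of_le hp (hA₀ i)), smul_zero]
  have hR0 : ∀ v, ∀ p > B₀, R v p = 0 := by
    intro v p hp
    rw [hR, Fintype.linearCombination_apply, Finset.sum_apply]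
    refine Finset.sum_eq_zero (fun i _ => ?_)
    rw [Pi.smul_apply, hmR i p (lt_of_le_of_lt (hB₀ i) hp), smul_zero]
  have hFv' : ∀ v p, F v p = L v p + R v p := by
    intro v p
    rw [hFLR]; rfl
  set C : (Fin X.n → k) →ₗ[k] (ℤ → N.C) :=
    (LinearMap.funLeft k N.C (fun p : ℤ => p + X.l)) ∘ₗ L - L ∘ₗ X.T.toLinearMap with hC
  have hCv : ∀ v p, C v p = L v (p + X.l) - L (X.T v) p := fun v p => rfl
  have hTF : ∀ v p, F v (p + X.l) = F (X.T v) p := by
    intro v p
    rw [hFv, hFv, Blk.iota_add]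
  have hCB : ∀ v, ∀ p > B₀, C v p = 0 := by
    intro v p hp
    have h1 := hTF v p
    rw [hFv', hFv', hR0 v _ (by omega), hR0 _ p hp, add_zero, add_zero] at h1
    rw [hCv, h1, sub_self]
  have hCA : ∀ v, ∀ p < A₀ - X.l, C v p = 0 := by
    intro v p hp
    rw [hCv, hL0 v _ (by omega), hL0 _ p (by omega), sub_zero]
  refine ⟨A₀ - X.l, A₀ - X.l + (B₀ + 1 - (A₀ - X.l)).toNat - 1, C, ?_, ?_, ?_⟩
  · intro v
    exact Submodule.sub_mem _ (ohb_shift X N (hLQ v)) (hLQ (X.T v))
  · rintro v p (hp | hp)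
    · exact hCA v p hp
    · exact hCB v p (by omega)
  · intro m
    have hs : ∀ z : ℤ, F (X.fn m (z + X.l)) (z + X.l) = F (X.fn m z) z := by
      intro z
      rw [hTF, X.fn_per]
    have h1 := ohb_main X.l A₀ B₀ (fun q => L (X.fn m q) q) (fun q => F (X.fn m q) q) hs
      (fun q hq => hL0 _ q hq) (fun q hq => by
        rw [hFv', hR0 _ q hq, add_zero])
    have h2 : f m = ∑ i ∈ Finset.range X.l, F (X.fn m (i : ℤ)) (i : ℤ) := by
      have h3 := congrArg f (X.sum_band hX m)
      rw [map_sum] at h3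
      exact h3
    rw [h2, ← h1]
    refine Finset.sum_congr rfl (fun q _ => ?_)
    have h4 : X.T.symm (X.fn m q) = X.fn m (q + X.l) := by
      rw [LinearEquiv.symm_apply_eq, X.fn_per]
    rw [hCv, LinearEquiv.apply_symm_apply, h4]

end StrAlg
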