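import Pool.Agent.Lib.MP_b9fd58_lc.OHg

/-!
# Intervals of a band (job OHc)
-/

set_option autoImplicit false

namespace StrAlg

open Module

variable {D : Dat} {k : Type} [Field k] {S : Sides D}

/-- the interval of a line with base point moved to `A`; no letters outside -/
def ohcLn (L : Ln (Fin D.nV) S.nx) (A B : ℤ) : Ln (Fin D.nV) S.nx where
  lam q := if 0 ≤ q ∧ q < B - A then L.lam (q + A) else 1
  v q := L.v (q + A)
  r q := L.r (q + A)
  fwd p h := by
    by_cases hp : 0 ≤ p ∧ p < B - A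
    · rw [if_pos hp] at h ⊢
      have := L.fwd (p + A) h
      rw [this]
      have e : p + A + 1 = p + 1 + A := by ring
      rw [e]
    · rw [if_neg hp] at h
      exact absurd rfl h
  bwd p h := by
    by_cases hp : 0 ≤ p ∧ p < B - A
    · rw [if_pos hp] at h ⊢
      have := L.bwd (p + A) h
      have e : p + A + 1 = p + 1 + A := by ring
      rw [e] at this
      exact this
    · rw [if_neg hp] at h
      exact absurd rfl h

theorem ohc_st_add (e : Bool) (p a : ℤ) : st e (p + a) = st e p + a := by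
  cases e <;> simp <;> ring

theorem ohc_lt (L : Ln (Fin D.nV) S.nx) (A B : ℤ) (e : Bool) (p : ℤ) (h : (ohcLn L A B).lt e p ≠ 1) :
    (ohcLn L A B).lt e p = L.lt e (p + A) := by
  cases e with
  | true =>
    change (if 0 ≤ p ∧ p < B - A then L.lam (p + A) else 1) ≠ 1 at h
    change (if 0 ≤ p ∧ p < B - A then L.lam (p + A) else 1) = L.lam (p + A)
    split_ifs at h ⊢
    · rfl
    · exact absurd rfl h
  | false =>
    change Fin.rev (if 0 ≤ p - 1 ∧ p - 1 < B - A then L.lam (p - 1 + A) else 1) ≠ 1 at h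
    change Fin.rev (if 0 ≤ p - 1 ∧ p - 1 < B - A then L.lam (p - 1 + A) else 1) = Fin.rev (L.lam (p + A - 1))
    have e1 : p - 1 + A = p + A - 1 := by ring
    rw [e1] at h ⊢
    split_ifs at h ⊢
    · rfl
    · exact absurd (by decide) h

theorem ohc_sd (L : Ln (Fin D.nV) S.nx) (A B : ℤ) (e : Bool) (p : ℤ) :
    (ohcLn L A B).sd e p = L.sd e (p + A) := rfl

theorem ohc_bk (L : Ln (Fin D.nV) S.nx) (A B : ℤ) (e : Bool) :
    ∀ (l : List (Fin D.nE)) (p : ℤ), bk S.ends (ohcLn L A B) e l p → bk S.ends L e l (p + A) := by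
  intro l
  induction l with
  | nil => intro _ _; trivial
  | cons a l ih =>
    intro p h
    obtain ⟨h1, h2, h3⟩ := h
    refine ⟨?_, h2, ?_⟩
    · rw [← ohc_lt L A B e p (by rw [h1]; decide)]
      exact h1
    · rw [ohc_st_add]
      exact ih _ h3

theorem ohc_reach (L : Ln (Fin D.nV) S.nx) (A B : ℤ) (hAB : A ≤ B) (h : ∀ x, A ≤ x → x < B → L.lam x ≠ 1) (q : ℤ) :
    (ohcLn L A B).Reach 0 q ↔ 0 ≤ q ∧ q ≤ B - A := by
  have hout : ∀ x, ¬ (0 ≤ x ∧ x < B - A) → (ohcLn L A B).lam x = 1 := fun x hx => if_neg hx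
  have hin : ∀ x, (0 ≤ x ∧ x < B - A) → (ohcLn L A B).lam x ≠ 1 := by
    intro x hx
    have : (ohcLn L A B).lam x = L.lam (x + A) := if_pos hx
    rw [this]
    exact h _ (by omega) (by omega)
  rw [Ln.reach_iff]
  constructor
  · intro hq
    constructor
    · by_contra hneg
      exact hq q (Or.inr ⟨le_rfl, by omega⟩) (hout q (by omega))
    · by_contra hneg
      exact hq (B - A) (Or.inl ⟨by omega, by omega⟩) (hout _ (by omega))
  · rintro ⟨h1, h2⟩ x hx
    exact hin x (by omega)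

/-- the interval `[A, B]` of a string, with base point `A` -/
theorem exists_interval (b : Str S) (A B : ℤ) (hAB : A ≤ B) (h : ∀ x, A ≤ x → x < B → b.L.lam x ≠ 1) :
    ∃ z : Str S, (∀ q, z.L.v q = b.L.v (q + A)) ∧ (∀ q, z.L.r q = b.L.r (q + A)) ∧
      (∀ q, z.L.lam q = if 0 ≤ q ∧ q < B - A then b.L.lam (q + A) else 1) ∧ ∀ q, q ∈ z.Z ↔ 0 ≤ q ∧ q ≤ B - A := by
  have hreach := ohc_reach b.L A B hAB h
  have hout : ∀ x, ¬ (0 ≤ x ∧ x < B - A) → (ohcLn b.L A B).lam x = 1 := fun x hx => if_neg hx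
  refine ⟨⟨ohcLn b.L A B, ?_, ?_, ?_, ?_⟩, fun _ => rfl, fun _ => rfl, fun _ => rfl, hreach⟩
  · intro e p h2
    have h3 := ohc_lt b.L A B e p (by rw [h2]; decide)
    rw [h2] at h3
    obtain ⟨a, ha1, ha2⟩ := b.ok e (p + A) h3.symm
    refine ⟨a, ha1, ?_⟩
    rw [ohc_st_add] at ha2
    exact ha2
  · intro r hr e p hb
    exact b.norel r hr e (p + A) (ohc_bk b.L A B e _ p hb)
  · intro e n m hnm h1
    cases e with
    | true =>
      change (ohcLn b.L A B).lam (0 + n) = 1 at h1
      change (ohcLn b.L A B).lam (0 + m) = 1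
      apply hout
      intro hm
      have hn : 0 ≤ (0 + n : ℤ) ∧ (0 + n : ℤ) < B - A := by omega
      have h2 : (ohcLn b.L A B).lam (0 + n) = b.L.lam (0 + n + A) := if_pos hn
      exact h (0 + n + A) (by omega) (by omega) (h2.symm.trans h1)
    | false =>
      change Fin.rev ((ohcLn b.L A B).lam (0 - m - 1)) = 1
      rw [hout _ (by omega)]
      rfl
  · intro p hp
    have hin : 0 ≤ p ∧ p < B - A := by
      by_contra hcon
      exact hp (hout p hcon)
    exact ⟨(hreach p).2 (by omega), (hreach (p + 1)).2 (by omega)⟩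

/-- `z` is the interval `[A, B]` of the band `b`, left by OUT letters on both sides -/
structure IvO (b z : Str S) (A B : ℤ) : Prop where
  le : A ≤ B
  v : ∀ q, z.L.v q = b.L.v (q + A)
  r : ∀ q, z.L.r q = b.L.r (q + A)
  lam : ∀ q, z.L.lam q = if 0 ≤ q ∧ q < B - A then b.L.lam (q + A) else 1
  Z : ∀ q, q ∈ z.Z ↔ 0 ≤ q ∧ q ≤ B - A
  ne : ∀ p, b.L.lam p ≠ 1
  outR : b.L.lt true B = 2
  outL : b.L.lt false A = 2

theorem IvO.fin {b z : Str S} {A B : ℤ} (h : IvO b z A B) : z.Fin := by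
  unfold Str.Fin
  refine (Set.finite_Icc (0 : ℤ) (B - A)).subset ?_
  intro q hq
  exact (h.Z q).1 hq

theorem IvO.ohc_lt {b z : Str S} {A B : ℤ} (h : IvO b z A B) {e : Bool} {q : ℤ} (h1 : 0 ≤ q ∧ q ≤ B - A)
    (h2 : 0 ≤ st e q ∧ st e q ≤ B - A) : z.L.lt e q = b.L.lt e (q + A) := by
  cases e with
  | true =>
    rw [st_true] at h2
    change z.L.lam q = b.L.lam (q + A)
    rw [h.lam, if_pos (by omega)]
  | false =>
    rw [st_false] at h2
    change Fin.rev (z.L.lam (q - 1)) = Fin.rev (b.L.lam (q + A - 1))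
    rw [h.lam, if_pos (by omega)]
    have e1 : q - 1 + A = q + A - 1 := by ring
    rw [e1]

theorem IvO.ohc_ne {b z : Str S} {A B : ℤ} (h : IvO b z A B) {e : Bool} {q : ℤ} (h1 : z.L.lt e q ≠ 1) :
    (0 ≤ q ∧ q ≤ B - A) ∧ (0 ≤ st e q ∧ st e q ≤ B - A) := by
  cases e with
  | true =>
    rw [st_true]
    change z.L.lam q ≠ 1 at h1
    rw [h.lam] at h1
    split_ifs at h1 with h2
    · omega
    · exact absurd rfl h1
  | false =>
    rw [st_false]
    change Fin.rev (z.L.lam (q - 1)) ≠ 1 at h1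
    rw [h.lam] at h1
    split_ifs at h1 with h2
    · omega
    · exact absurd (by decide) h1

theorem IvO.ohc_sd {b z : Str S} {A B : ℤ} (h : IvO b z A B) (e : Bool) (q : ℤ) :
    z.L.sd e q = b.L.sd e (q + A) := by
  unfold Ln.sd
  rw [h.r]

/-- an IN letter at a position of the interval does not leave the interval -/
theorem IvO.ohc_in {b z : Str S} {A B : ℤ} (h : IvO b z A B) {e : Bool} {q : ℤ} (h1 : 0 ≤ q ∧ q ≤ B - A) :
    z.L.lt e q = 0 ↔ b.L.lt e (q + A) = 0 := by
  constructor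
  · intro h0
    have h2 := h.ohc_ne (e := e) (q := q) (by rw [h0]; decide)
    rw [← h.ohc_lt h2.1 h2.2]
    exact h0
  · intro h0
    rw [h.ohc_lt h1]
    · exact h0
    · cases e with
      | true =>
        rw [st_true]
        refine ⟨by omega, ?_⟩
        by_contra hcon
        have e1 : q + A = B := by omega
        rw [e1, h.outR] at h0
        exact absurd h0 (by decide)
      | false =>
        rw [st_false]
        refine ⟨?_, by omega⟩
        by_contra hcon
        have e1 : q + A = A := by omega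
        rw [e1, h.outL] at h0
        exact absurd h0 (by decide)

theorem Blk.ohc_fn_op (X : Blk S k) (g : D.Gen) (m : X.M.C) :
    X.fn (X.M.Q.op g m) = fop k S.ends X.x.L g (X.fn m) := rfl

theorem Blk.ohc_fn_inj (X : Blk S k) {m m' : X.M.C} (h : X.fn m = X.fn m') : m = m' := Subtype.ext h

theorem Blk.ohc_fn_out (X : Blk S k) (m : X.M.C) {p : ℤ} (hp : p ∉ X.x.Z) : X.fn m p = 0 :=
  (show X.B.S from m).2.1 p hp

/-- the restriction as a map to functions -/
def ohcRes (X : Blk S k) (A B : ℤ) (φ : (Fin X.n → k) →ₗ[k] k) : X.M.C →ₗ[k] (ℤ → Fin 1 → k) where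
  toFun m := fun q => if 0 ≤ q ∧ q ≤ B - A then (fun _ => φ (X.fn m (q + A))) else 0
  map_add' m m' := by
    funext q
    have h1 : X.fn (m + m') (q + A) = X.fn m (q + A) + X.fn m' (q + A) := rfl
    rw [Pi.add_apply]
    split_ifs
    · funext j
      rw [Pi.add_apply, h1, map_add]
    · rw [add_zero]
  map_smul' c m := by
    funext q
    have h1 : X.fn (c • m) (q + A) = c • X.fn m (q + A) := rfl
    rw [Pi.smul_apply, RingHom.id_apply]
    split_ifs
    · funext j
      rw [Pi.smul_apply, h1, map_smul]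
    · rw [smul_zero]

/-- restriction to the interval followed by a functional is a homomorphism -/
theorem IvO.res {X : Blk S k} {z : Str S} {A B : ℤ} (h : IvO X.x z A B) (φ : (Fin X.n → k) →ₗ[k] k) :
    ∃ α : X.M.C →ₗ[k] (Blk.ofFin z h.fin 1 : Blk S k).M.C, X.M.Hom (Blk.ofFin z h.fin 1 : Blk S k).M α ∧
      ∀ m q, 0 ≤ q → q ≤ B - A → (Blk.ofFin z h.fin 1 : Blk S k).fn (α m) q = fun _ => φ (X.fn m (q + A)) := by
  set Y : Blk S k := Blk.ofFin z h.fin 1 with hY
  have hmem : ∀ m : X.M.C, ohcRes X A B φ m ∈ Y.B.S := by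
    intro m
    refine ⟨?_, ?_⟩
    · intro p hp
      have hp' : ¬ (0 ≤ p ∧ p ≤ B - A) := fun hh => hp ((h.Z p).2 hh)
      exact if_neg hp'
    · intro p
      have h1 : p + ((Y.B.l : ℕ) : ℤ) = p := by
        change p + ((0 : ℕ) : ℤ) = p
        rw [Nat.cast_zero, add_zero]
      rw [h1]
      rfl
  let α : X.M.C →ₗ[k] Y.M.C := (ohcRes X A B φ).codRestrict Y.B.S hmem
  have hα : ∀ m, Y.fn (α m) = ohcRes X A B φ m := fun _ => rfl
  have hpos : ∀ m q, (0 ≤ q ∧ q ≤ B - A) → ohcRes X A B φ m q = fun _ => φ (X.fn m (q + A)) :=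
    fun m q hq => if_pos hq
  have hneg : ∀ m q, ¬ (0 ≤ q ∧ q ≤ B - A) → ohcRes X A B φ m q = 0 := fun m q hq => if_neg hq
  refine ⟨α, ?_, ?_⟩
  · intro g m
    apply Y.ohc_fn_inj
    rw [Y.ohc_fn_op, hα, hα]
    funext q
    by_cases hq : 0 ≤ q ∧ q ≤ B - A
    · rw [hpos _ _ hq, X.ohc_fn_op]
      cases g with
      | inl i =>
        rw [fop_inl, fop_inl, hpos _ _ hq]
        have h1 : Y.x.L.v q = X.x.L.v (q + A) := h.v q
        rw [h1]
        split_ifs
        · rfl
        · rw [map_zero]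
          rfl
      | inr β =>
        rw [fop_inr, fop_inr]
        funext j
        rw [map_sum, Finset.sum_apply]
        refine Finset.sum_congr rfl (fun e _ => ?_)
        have h1 : Y.x.L.v q = X.x.L.v (q + A) := h.v q
        have h2 : Y.x.L.sd e q = X.x.L.sd e (q + A) := h.ohc_sd e q
        have h3 : Y.x.L.lt e q = 0 ↔ X.x.L.lt e (q + A) = 0 := h.ohc_in hq
        by_cases hc : Y.x.L.lt e q = 0 ∧ S.ends.inA (Y.x.L.v q) (Y.x.L.sd e q) = some β
        · have hc' : X.x.L.lt e (q + A) = 0 ∧ S.ends.inA (X.x.L.v (q + A)) (X.x.L.sd e (q + A)) = some β := by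
            rw [← h1, ← h2, ← h3]
            exact hc
          rw [if_pos hc, if_pos hc']
          have h4 := h.ohc_ne (e := e) (q := q) (by
            have h5 : z.L.lt e q = 0 := hc.1
            rw [h5]
            decide)
          rw [hpos _ _ h4.2, ohc_st_add]
        · have hc' : ¬ (X.x.L.lt e (q + A) = 0 ∧ S.ends.inA (X.x.L.v (q + A)) (X.x.L.sd e (q + A)) = some β) := by
            rw [← h1, ← h2, ← h3]
            exact hc
          rw [if_neg hc, if_neg hc', map_zero]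
          rfl
    · rw [hneg _ _ hq]
      symm
      refine LB.supp_fop (Z := {p : ℤ | 0 ≤ p ∧ p ≤ B - A}) (L := Y.x.L) ?_ g (fun p hp => hneg m p hp) q hq
      intro e p _ he
      exact (h.ohc_ne (e := e) (q := p) he).2
  · intro m q h1 h2
    rw [hα]
    exact hpos m q ⟨h1, h2⟩

/-- the combination as a linear map -/
noncomputable def ohcExt (Y : Blk S k) (hn : Y.n = 1) {N : Md D k} (g : ℤ → N.C) (A B : ℤ) : Y.M.C →ₗ[k] N.C where
  toFun m := ∑ q ∈ Finset.Icc 0 (B - A), (Y.fn m q ⟨0, by omega⟩) • g (q + A)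
  map_add' m m' := by
    rw [← Finset.sum_add_distrib]
    refine Finset.sum_congr rfl (fun q _ => ?_)
    rw [← add_smul]
    rfl
  map_smul' c m := by
    rw [RingHom.id_apply, Finset.smul_sum]
    refine Finset.sum_congr rfl (fun q _ => ?_)
    rw [smul_smul]
    rfl

theorem ohc_st_inj {e : Bool} {p q : ℤ} (h : st e p = st e q) : p = q := by
  cases e
  · rw [st_false, st_false] at h; omega
  · rw [st_true, st_true] at h; omega

/-- a chain along the band that vanishes outside the interval is a homomorphism from the string module -/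
theorem IvO.ext {b z : Str S} {A B : ℤ} (h : IvO b z A B) {N : Md D k} (g : ℤ → N.C) (hg : g ∈ b.Q N)
    (h0 : ∀ p, p < A ∨ B < p → g p = 0) :
    ∃ f : (Blk.ofFin z h.fin 1 : Blk S k).M.C →ₗ[k] N.C, (Blk.ofFin z h.fin 1 : Blk S k).M.Hom N f ∧
      ∀ m, f m = ∑ q ∈ Finset.Icc 0 (B - A),
        (show Fin 1 → k from (Blk.ofFin z h.fin 1 : Blk S k).fn m q) 0 • g (q + A) := by
  set Y : Blk S k := Blk.ofFin z h.fin 1 with hY
  let ev : Y.M.C → ℤ → k := fun m q => (show Fin 1 → k from Y.fn m q) 0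
  have hev : ∀ m q, ¬ (0 ≤ q ∧ q ≤ B - A) → ev m q = 0 := by
    intro m q hq
    have h1 : Y.fn m q = 0 := Y.ohc_fn_out m (fun hh => hq ((h.Z q).1 hh))
    change (show Fin 1 → k from Y.fn m q) 0 = 0
    rw [h1]
    rfl
  have hg0 : ∀ q, ¬ (0 ≤ q ∧ q ≤ B - A) → g (q + A) = 0 := by
    intro q hq
    apply h0
    omega
  refine ⟨ohcExt Y rfl g A B, ?_, fun m => rfl⟩
  have hval : ∀ m, ohcExt Y rfl g A B m = ∑ q ∈ Finset.Icc 0 (B - A), ev m q • g (q + A) := fun m => rfl
  intro γ m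
  rw [hval, hval, map_sum]
  cases γ with
  | inl i =>
    refine Finset.sum_congr rfl (fun q _ => ?_)
    rw [map_smul, (hg.1 (q + A)).1 i]
    have h1 : ev (Y.M.Q.op (Sum.inl i) m) q = if z.L.v q = i then ev m q else 0 := by
      change (show Fin 1 → k from (if z.L.v q = i then Y.fn m q else 0)) 0 = _
      split_ifs <;> rfl
    rw [h1, h.v q]
    split_ifs
    · rfl
    · rw [zero_smul, smul_zero]
  | inr β =>
    -- the two conditions
    have hcond : ∀ e q, (0 ≤ q ∧ q ≤ B - A) → (0 ≤ st e q ∧ st e q ≤ B - A) →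
        ((b.L.lt e (q + A) = 2 ∧ S.ends.outA (b.L.v (q + A)) (b.L.sd e (q + A)) = some β) ↔
          (z.L.lt (!e) (st e q) = 0 ∧ S.ends.inA (z.L.v (st e q)) (z.L.sd (!e) (st e q)) = some β)) := by
      intro e q hq hq'
      rw [← h.ohc_lt hq hq', ← h.v q, ← h.ohc_sd e q]
      constructor
      · rintro ⟨h1, h2⟩
        exact z.ok.other' h1 h2
      · rintro ⟨h1, h2⟩
        have h3 := z.ok.other h1 h2
        rw [st_not_st, Bool.not_not] at h3
        exact h3
    have hL : ∀ q, ev (Y.M.Q.op (Sum.inr β) m) q =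
        ∑ e : Bool, if z.L.lt e q = 0 ∧ S.ends.inA (z.L.v q) (z.L.sd e q) = some β then ev m (st e q) else 0 := by
      intro q
      change (show Fin 1 → k from (∑ e : Bool, if z.L.lt e q = 0 ∧ S.ends.inA (z.L.v q) (z.L.sd e q) = some β then
        Y.fn m (st e q) else 0)) 0 = _
      change (∑ e : Bool, (show Fin 1 → k from (if z.L.lt e q = 0 ∧ S.ends.inA (z.L.v q) (z.L.sd e q) = some β then
        Y.fn m (st e q) else 0))) 0 = _
      rw [Finset.sum_apply]
      refine Finset.sum_congr rfl (fun e _ => ?_)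
      split_ifs <;> rfl
    have e1 : ∑ q ∈ Finset.Icc 0 (B - A), ev (Y.M.Q.op (Sum.inr β) m) q • g (q + A) =
        ∑ e : Bool, ∑ q ∈ Finset.Icc 0 (B - A),
          (if z.L.lt (!e) q = 0 ∧ S.ends.inA (z.L.v q) (z.L.sd (!e) q) = some β then
            ev m (st (!e) q) • g (q + A) else 0) := by
      rw [Finset.sum_comm]
      refine Finset.sum_congr rfl (fun q _ => ?_)
      rw [hL, Finset.sum_smul]
      rw [Fintype.sum_bool, Fintype.sum_bool, add_comm]
      congr 1
      · simp only [Bool.not_true]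
        split_ifs
        · rfl
        · rw [zero_smul]
      · simp only [Bool.not_false]
        split_ifs
        · rfl
        · rw [zero_smul]
    have e2 : ∑ q ∈ Finset.Icc 0 (B - A), N.Q.op (Sum.inr β) (ev m q • g (q + A)) =
        ∑ e : Bool, ∑ q ∈ Finset.Icc 0 (B - A),
          (if b.L.lt e (q + A) = 2 ∧ S.ends.outA (b.L.v (q + A)) (b.L.sd e (q + A)) = some β then
            ev m q • g (st e q + A) else 0) := by
      rw [Finset.sum_comm]
      refine Finset.sum_congr rfl (fun q _ => ?_)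
      rw [map_smul, (hg.1 (q + A)).2 β, Finset.smul_sum]
      refine Finset.sum_congr rfl (fun e _ => ?_)
      rw [ohc_st_add]
      split_ifs
      · rfl
      · rw [smul_zero]
    rw [e1, e2]
    refine Finset.sum_congr rfl (fun e _ => ?_)
    symm
    refine Finset.sum_bij_ne_zero (fun q _ _ => st e q) ?_ ?_ ?_ ?_
    · intro q hq hne
      rw [Finset.mem_Icc]
      by_contra hcon
      rw [hg0 _ hcon, smul_zero, ite_self] at hne
      exact hne rfl
    · intro q _ _ q' _ _ hqq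
      exact ohc_st_inj hqq
    · intro q' hq' hne
      have hq1 : 0 ≤ q' ∧ q' ≤ B - A := Finset.mem_Icc.1 hq'
      have hq2 : 0 ≤ st (!e) q' ∧ st (!e) q' ≤ B - A := by
        by_contra hcon
        rw [hev _ _ hcon, zero_smul, ite_self] at hne
        exact hne rfl
      have hst : st e (st (!e) q') = q' := by
        have := st_not_st (!e) q'
        rwa [Bool.not_not] at this
      refine ⟨st (!e) q', Finset.mem_Icc.2 hq2, ?_, hst⟩
      have h3 := hcond e (st (!e) q') hq2 (by rw [hst]; exact hq1)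
      rw [hst] at h3 ⊢
      by_cases hc : z.L.lt (!e) q' = 0 ∧ S.ends.inA (z.L.v q') (z.L.sd (!e) q') = some β
      · rw [if_pos hc] at hne
        rw [if_pos (h3.2 hc)]
        exact hne
      · rw [if_neg hc] at hne
        exact absurd rfl hne
    · intro q hq hne
      have hq1 : 0 ≤ q ∧ q ≤ B - A := Finset.mem_Icc.1 hq
      have hq2 : 0 ≤ st e q ∧ st e q ≤ B - A := by
        by_contra hcon
        rw [hg0 _ hcon, smul_zero, ite_self] at hne
        exact hne rfl
      have h3 := hcond e q hq1 hq2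
      rw [st_not_st]
      by_cases hc : b.L.lt e (q + A) = 2 ∧ S.ends.outA (b.L.v (q + A)) (b.L.sd e (q + A)) = some β
      · rw [if_pos hc, if_pos (h3.1 hc)]
      · rw [if_neg hc, if_neg (fun hh => hc (h3.2 hh))]

/-- a chain is carried by IN letters -/
theorem ohc_carry (b : Str S) {N : Md D k} {g : ℤ → N.C} (hg : g ∈ b.Q N) {e : Bool} {p : ℤ}
    (h1 : b.L.lt e p = 0) (h2 : g (st e p) = 0) : g p = 0 := by
  have h3 : b.L.lt (!e) (st e p) = 2 := by rw [Ln.lt_back, h1]; rfl
  obtain ⟨α, h4, h5⟩ := b.ok _ _ h3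
  have h6 := (hg.1 (st e p)).2 α
  rw [h2, map_zero, KH.left_eq (K := fun a (_ : ℤ) => g a) (b := 0) h3 h4, st_not_st] at h6
  exact h6.symm

/-- the first and the last position of a finite chain along a band are left by OUT letters -/
theorem exists_hull (b : Str S) (hb : ∀ p, b.L.lam p ≠ 1) {N : Md D k} (g : ℤ → N.C) (hg : g ∈ b.Q N)
    {A₀ B₀ : ℤ} (h0 : ∀ p, p < A₀ ∨ B₀ < p → g p = 0) (hne : ∃ p, g p ≠ 0) :
    ∃ (A B : ℤ) (z : Str S), IvO b z A B ∧ A₀ ≤ A ∧ B ≤ B₀ ∧ ∀ p, p < A ∨ B < p → g p = 0 := by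
  classical
  have hin : ∀ p, g p ≠ 0 → A₀ ≤ p ∧ p ≤ B₀ := by
    intro p hp
    by_contra hcon
    exact hp (h0 p (by omega))
  set F : Finset ℤ := (Finset.Icc A₀ B₀).filter (fun p => g p ≠ 0) with hF
  have hFm : ∀ p, p ∈ F ↔ g p ≠ 0 := by
    intro p
    rw [hF, Finset.mem_filter, Finset.mem_Icc]
    exact ⟨fun hh => hh.2, fun hh => ⟨hin p hh, hh⟩⟩
  have hFne : F.Nonempty := by
    obtain ⟨p, hp⟩ := hne
    exact ⟨p, (hFm p).2 hp⟩
  set A := F.min' hFne with hA
  set B := F.max' hFne with hB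
  have hgA : g A ≠ 0 := (hFm A).1 (F.min'_mem hFne)
  have hgB : g B ≠ 0 := (hFm B).1 (F.max'_mem hFne)
  have hAB : A ≤ B := F.min'_le_max' hFne
  have hout : ∀ p, p < A ∨ B < p → g p = 0 := by
    intro p hp
    by_contra hcon
    have h1 := F.min'_le p ((hFm p).2 hcon)
    have h2 := F.le_max' p ((hFm p).2 hcon)
    rw [← hA] at h1
    rw [← hB] at h2
    omega
  have hcase : ∀ x : Fin 3, x ≠ 1 → x ≠ 0 → x = 2 := by decide
  have hR : b.L.lt true B = 2 := by
    refine hcase _ (hb B) ?_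
    intro h1
    exact hgB (ohc_carry b hg h1 (hout _ (Or.inr (by rw [st_true]; omega))))
  have hL : b.L.lt false A = 2 := by
    refine hcase _ (Ln.rev_ne_one.2 (hb (A - 1))) ?_
    intro h1
    exact hgA (ohc_carry b hg h1 (hout _ (Or.inl (by rw [st_false]; omega))))
  obtain ⟨z, hz1, hz2, hz3, hz4⟩ := exists_interval b A B hAB (fun x _ _ => hb x)
  exact ⟨A, B, z, ⟨hAB, hz1, hz2, hz3, hz4, hb, hR, hL⟩, (hin A hgA).1, (hin B hgB).2, hout⟩

end StrAlg
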