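import Pool.Agent.Lib.MP_b9fd58_lc.OHc

/-!
# The criterion for an interval of a band (job OHd)
-/

set_option autoImplicit false

namespace StrAlg

open Module

variable {D : Dat} {k : Type} [Field k] {S : Sides D}

/-- `z` agrees with `x` up to `n`, where it ends and `x` goes OUT; `u ≤ z` -/
theorem OHd_word {z x u : Wd} {n : ℕ} (h1 : ∀ j < n, z j = x j) (h2 : z n = 1) (h3 : x n = 2) (hu : WLe u z) :
    WLe u x ∧ (∀ m, Agr z u m ↔ Agr x u m) ∧ (∀ m, Agr x u m → m ≤ n) := by
  have hzx : WLe z x := WLe_of_lt h1 (by rw [h2, h3]; decide)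
  have key : ∀ m, Agr x u m → m ≤ n := by
    intro m hm
    by_contra hcon
    have hmn : n < m := by omega
    have h4 : ∀ i < n, u i = z i := fun i hi => ((hm i (by omega)).1.symm.trans (h1 i hi).symm)
    have h5 := hu n h4
    have h6 : u n = 2 := (hm n hmn).1.symm.trans h3
    rw [h6, h2] at h5
    exact absurd h5 (by decide)
  refine ⟨hu.trans hzx, ?_, key⟩
  intro m
  constructor
  · intro hm
    have hmn : m ≤ n := by
      by_contra hcon
      exact (hm n (by omega)).2 h2
    intro i hi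
    have h7 := hm i hi
    rw [h1 i (by omega)] at h7
    exact h7
  · intro hm
    have hmn := key m hm
    intro i hi
    rw [h1 i (by omega)]
    exact hm i hi

/-- number of letters to the boundary -/
def OHd_n (A B p : ℤ) (e : Bool) : ℕ := if e then (B - A - p).toNat else p.toNat

theorem OHd_bd {b z : Str S} {A B : ℤ} (h : IvO b z A B) {p : ℤ} (hp : p ∈ z.Z) (e : Bool) :
    (∀ j < OHd_n A B p e, z.L.wdd e p j = b.L.wdd e (p + A) j) ∧ z.L.wdd e p (OHd_n A B p e) = 1 ∧
      b.L.wdd e (p + A) (OHd_n A B p e) = 2 := by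
  obtain ⟨hp0, hp1⟩ := (h.Z p).1 hp
  cases e with
  | true =>
    have hn : ((OHd_n A B p true : ℕ) : ℤ) = B - A - p := by
      unfold OHd_n
      rw [if_pos rfl, Int.toNat_of_nonneg (by omega)]
    refine ⟨?_, ?_, ?_⟩
    · intro j hj
      have hj' : (j : ℤ) < B - A - p := by rw [← hn]; exact_mod_cast hj
      rw [Ln.wdd_apply, Ln.wdd_apply, stn_true, stn_true]
      show z.L.lam (p + j) = b.L.lam (p + A + j)
      rw [h.lam, if_pos ⟨by omega, by omega⟩]
      congr 1
      ring
    · rw [Ln.wdd_apply, stn_true, hn]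
      show z.L.lam (p + (B - A - p)) = 1
      rw [h.lam, if_neg]
      rintro ⟨-, h2⟩
      omega
    · rw [Ln.wdd_apply, stn_true, hn]
      have e1 : p + A + (B - A - p) = B := by ring
      rw [e1]
      exact h.outR
  | false =>
    have hn : ((OHd_n A B p false : ℕ) : ℤ) = p := by
      unfold OHd_n
      rw [if_neg (by decide), Int.toNat_of_nonneg (by omega)]
    refine ⟨?_, ?_, ?_⟩
    · intro j hj
      have hj' : (j : ℤ) < p := by rw [← hn]; exact_mod_cast hj
      rw [Ln.wdd_apply, Ln.wdd_apply, stn_false, stn_false]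
      show Fin.rev (z.L.lam (p - j - 1)) = Fin.rev (b.L.lam (p + A - j - 1))
      rw [h.lam, if_pos ⟨by omega, by omega⟩]
      congr 2
      ring
    · rw [Ln.wdd_apply, stn_false, hn]
      show Fin.rev (z.L.lam (p - p - 1)) = 1
      rw [h.lam, if_neg]
      · rfl
      · rintro ⟨h2, -⟩
        omega
    · rw [Ln.wdd_apply, stn_false, hn]
      have e1 : p + A - p = A := by ring
      rw [e1]
      exact h.outL

/-- `CritB X Y a b w` implies the criterion for the interval `Z` of `X` (left by OUT letters) and the restriction `a'` of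
`φ ∘ a`.

Proof. Let `p, q, r` be sandwiched positions of `Z, w, Y`; use the position `p + A` of `X`. The word of `Z` at `p` agrees
with the word of `X` at `p + A` up to the boundary, where it has END and `X` has OUT; so it is smaller (`WLe_of_lt`):
`LeD X w`. `w`, and `Y`, are `≤` the word of `Z`, so they cannot agree with `X` beyond the boundary (they would have OUT
where `Z` has END, after equal letters): `FinCl X w` and `lenD X Y = lenD Z Y` (`lenD_eq`, `AgD` of `Z` and `X` with `Y` are
equivalent). In the sum `Om` only positions of the interval occur, where `Z.fn a' (p + i) = fun _ => φ (X.fn a (p + A + i))`,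
so `Om Z Y .. κ = Om X Y .. (κ ∘ (φ as a map to Fin 1 → k)) = 0`. -/
theorem IvO.crit {X Y : Blk S k} {z : Str S} {A B : ℤ} (h : IvO X.x z A B) (φ : (Fin X.n → k) →ₗ[k] k)
    (a : X.M.C) (b : Dual k Y.M.C) (a' : (Blk.ofFin z h.fin 1 : Blk S k).M.C)
    (ha : ∀ q, 0 ≤ q → q ≤ B - A → (Blk.ofFin z h.fin 1 : Blk S k).fn a' q = fun _ => φ (X.fn a (q + A)))
    (w : Str S) (hw : CritB X Y a b w) : CritB (Blk.ofFin z h.fin 1) Y a' b w := by
  intro o o' p q r hp hq hr m1 m2 l1 l2 f1 f2 κ
  have hp' : p ∈ z.Z := hp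
  have m1' : Mt z.L w.L o p q := m1
  have l1' : LeD z.L w.L o p q := l1
  obtain ⟨hp0, hp1⟩ := (h.Z p).1 hp'
  -- the position `p + A` of `X`
  have mX : Mt X.x.L w.L o (p + A) q := by
    refine ⟨?_, ?_⟩
    · rw [← h.v]; exact m1'.1
    · rw [← h.r]; exact m1'.2
  have word1 := fun e => OHd_word (OHd_bd h hp' e).1 (OHd_bd h hp' e).2.1 (OHd_bd h hp' e).2.2 (l1' e)
  have lX : LeD X.x.L w.L o (p + A) q := fun e => (word1 e).1
  have fX : FinCl X.x.L w.L o (p + A) q := by
    intro e
    refine ⟨OHd_n A B p e + 1, fun hag => ?_⟩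
    have := (word1 e).2.2 _ hag
    omega
  have hO := hw o o' (p + A) q r (X.x.Z_univ h.ne _) hq hr mX m2 lX l2 fX f2
    (κ ∘ₗ (LinearMap.pi fun _ => φ))
  -- lengths of the matches
  have lzY : LeD z.L Y.x.L (o == o') p r := LeD.trans l1' l2
  have word2 := fun e => OHd_word (OHd_bd h hp' e).1 (OHd_bd h hp' e).2.1 (OHd_bd h hp' e).2.2 (lzY e)
  have hfz : FinCl z.L Y.x.L (o == o') p r := h.fin.fn.fin_left _ _ _
  have hlen : ∀ e, lenD X.x.L Y.x.L (o == o') e (p + A) r = lenD z.L Y.x.L (o == o') e p r := by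
    intro e
    obtain ⟨g1, g2⟩ := lenD_spec (hfz e)
    apply lenD_eq
    · exact ((word2 e).2.1 _).1 g1
    · exact fun hag => g2 (((word2 e).2.1 _).2 hag)
  have hle : ∀ e, lenD z.L Y.x.L (o == o') e p r ≤ OHd_n A B p e := by
    intro e
    obtain ⟨g1, -⟩ := lenD_spec (hfz e)
    exact (word2 e).2.2 _ (((word2 e).2.1 _).1 g1)
  have hT := hle true
  have hF := hle false
  unfold OHd_n at hT hF
  rw [if_pos rfl] at hT
  rw [if_neg (by decide)] at hF
  have hT' : (lenD z.L Y.x.L (o == o') true p r : ℤ) ≤ B - A - p := by omega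
  have hF' : (lenD z.L Y.x.L (o == o') false p r : ℤ) ≤ p := by omega
  rw [← hO]
  unfold Om
  rw [hlen true, hlen false]
  refine Finset.sum_congr rfl fun i hi => ?_
  rw [Finset.mem_Icc] at hi
  obtain ⟨hi1, hi2⟩ := hi
  have hi1' : -(lenD z.L Y.x.L (o == o') false p r : ℤ) ≤ i := hi1
  have hi2' : i ≤ (lenD z.L Y.x.L (o == o') true p r : ℤ) := hi2
  rw [ha (p + i) (by omega) (by omega)]
  have e1 : p + i + A = p + A + i := by ring
  rw [e1]
  rfl

end StrAlg
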