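import Pool.Agent.Lib.MP_b9fd58_lc.OHb
import Pool.Agent.Lib.MP_b9fd58_lc.OHd

/-!
# The C-side lemma (job OHe)
-/

set_option autoImplicit false

namespace StrAlg

open Module

variable {D : Dat} {k : Type} [Field k] {S : Sides D}

/-- **C-side lemma.** If all chains along the band of `X` are in `K0` and the pair is open on `N` then some derived pair
with a finite string is open on `N`.

Proof. `(f, G)` with `b (G (f a)) ≠ 0`; `band_hom`; `c v = ∑ i, v i • c (e_i)`, so
`f a = ∑ i, ∑ p, (T⁻¹ (a p)) i • c (e_i) p` and for some `i` the summand has `b (G _) ≠ 0`. `g := c (e_i)` is a nonzero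
finite chain: `exists_hull`, `IvO.res` with `φ v := (X.T.symm v) i`, `IvO.ext`, `IvO.crit`; `a' := α a`. -/
theorem cside (X Y : Blk S k) (hX : 0 < X.l) (a : X.M.C) (b : Dual k Y.M.C) (N : Md D k)
    (hQ : ∀ n ∈ X.x.Q N, X.x.K0 N n) (h : (bpr X Y a b).Opn N) :
    ∃ (Z : Blk S k) (a' : Z.M.C), Z.l = 0 ∧ (bpr Z Y a' b).Opn N ∧
      (∀ M : Md D k, (bpr Z Y a' b).Opn M → (bpr X Y a b).Opn M) ∧
      ∀ w : Str S, CritB X Y a b w → CritB Z Y a' b w := by
  classical
  obtain ⟨f, G, hf, hG, hne⟩ : ∃ (f : X.M.C →ₗ[k] N.C) (G : N.C →ₗ[k] Y.M.C), X.M.Hom N f ∧ N.Hom Y.M G ∧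
    b (G (f a)) ≠ 0 := h
  obtain ⟨A, B, c, hc1, hc2, hc3⟩ := band_hom X hX N hQ f hf
  -- expansion in the basis
  have hexp : ∀ (v : Fin X.n → k) (p : ℤ), c v p = ∑ i, v i • c (Pi.single i 1) p := by
    intro v p
    have h1 : v = ∑ i, v i • (Pi.single i (1 : k) : Fin X.n → k) := by
      conv_lhs => rw [pi_eq_sum_univ' v]
    conv_lhs => rw [h1]
    rw [map_sum, Finset.sum_apply]
    refine Finset.sum_congr rfl (fun i _ => ?_)
    rw [map_smul, Pi.smul_apply]
  have h2 : f a = ∑ i, ∑ p ∈ Finset.Icc A B, (X.T.symm (X.fn a p)) i • c (Pi.single i 1) p := by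
    rw [hc3, Finset.sum_comm]
    refine Finset.sum_congr rfl (fun p _ => ?_)
    rw [hexp]
  have h3 : ∃ i, b (G (∑ p ∈ Finset.Icc A B, (X.T.symm (X.fn a p)) i • c (Pi.single i 1) p)) ≠ 0 := by
    by_contra hcon
    push Not at hcon
    apply hne
    rw [h2, map_sum, map_sum]
    exact Finset.sum_eq_zero (fun i _ => hcon i)
  obtain ⟨i, hi⟩ := h3
  have hg := hc1 (Pi.single i 1)
  have hg0 := hc2 (Pi.single i 1)
  generalize c (Pi.single i 1) = g at hi hg hg0
  have hgne : ∃ p, g p ≠ 0 := by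
    by_contra hcon
    push Not at hcon
    apply hi
    have : (∑ p ∈ Finset.Icc A B, (X.T.symm (X.fn a p)) i • g p) = 0 :=
      Finset.sum_eq_zero (fun p _ => by rw [hcon p, smul_zero])
    rw [this, map_zero, map_zero]
  obtain ⟨A', B', z, hz, hA, hB, hg1⟩ := exists_hull X.x (X.ok.big hX) g hg hg0 hgne
  let φ : (Fin X.n → k) →ₗ[k] k := (LinearMap.proj i : (Fin X.n → k) →ₗ[k] k) ∘ₗ X.T.symm.toLinearMap
  obtain ⟨α, hα, hα2⟩ := hz.res φ
  obtain ⟨f', hf', hf'2⟩ := hz.ext g hg hg1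
  refine ⟨Blk.ofFin z hz.fin 1, α a, rfl, ⟨f', G, hf', hG, ?_⟩, ?_, fun w hw => ?_⟩
  · show b (G (f' (α a))) ≠ 0
    have h4 : f' (α a) = ∑ p ∈ Finset.Icc A B, (X.T.symm (X.fn a p)) i • g p := by
      rw [hf'2]
      have h5 : ∀ q ∈ Finset.Icc 0 (B' - A'),
          (show Fin 1 → k from (Blk.ofFin z hz.fin 1 : Blk S k).fn (α a) q) 0 • g (q + A') =
            (X.T.symm (X.fn a (q + A'))) i • g (q + A') := by
        intro q hq
        rw [Finset.mem_Icc] at hq
        rw [hα2 a q hq.1 hq.2]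
        rfl
      rw [Finset.sum_congr rfl h5]
      have h6 : ∑ p ∈ Finset.Icc A' B', (X.T.symm (X.fn a p)) i • g p =
          ∑ p ∈ Finset.Icc A B, (X.T.symm (X.fn a p)) i • g p := by
        refine Finset.sum_subset (Finset.Icc_subset_Icc hA hB) (fun p _ hp => ?_)
        rw [hg1 p (by
          rw [Finset.mem_Icc] at hp
          by_contra hcon
          push Not at hcon
          exact hp hcon), smul_zero]
      rw [← h6]
      refine Finset.sum_nbij' (fun q => q + A') (fun p => p - A') ?_ ?_ ?_ ?_ ?_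
      · intro q hq
        rw [Finset.mem_Icc] at hq ⊢
        exact ⟨by omega, by omega⟩
      · intro q hq
        rw [Finset.mem_Icc] at hq ⊢
        exact ⟨by omega, by omega⟩
      · intro q _; ring
      · intro q _; ring
      · intro q _; rfl
    rw [h4]
    exact hi
  · rintro M ⟨f'', G'', h5, h6, h7⟩
    refine ⟨f'' ∘ₗ α, G'', ?_, h6, h7⟩
    intro γ m
    show f'' (α (X.M.Q.op γ m)) = M.Q.op γ (f'' (α m))
    rw [hα]
    exact h5 γ (α m)
  · exact hz.crit φ a b (α a) (fun q h0 h1 => hα2 a q h0 h1) w hw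

end StrAlg
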