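import Pool.Agent.Lib.MP_b9fd58_lc.OHe
import Pool.Agent.Lib.MP_b9fd58_lc.OGb

/-!
# Theorem O when Y is finite (job OHf)
-/

set_option autoImplicit false

namespace StrAlg

open Module

variable {D : Dat} {k : Type} [Field k] {S : Sides D}

/-- Theorem O for finite `Y`.

Proof: `X.l = 0`: `out_fin`. Otherwise `hT` for the band `X.x` (`Blk.minPer`): `N.Dec (X.x.ME _ T _) N'`. Pair open on the
first summand: `OutB`. Otherwise open on `N'` (`opn_dec`), `cside`, `out_fin` for the derived pair on `N'`. -/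
theorem out_right (hT : ThmT S k) (Can : Set (Str S)) (hC : CanOK Can) (X Y : Blk S k) (hX : X.x ∈ Can)
    (hY : Y.l = 0) (a : X.M.C) (b : Dual k Y.M.C) (N : Md D k) (hN : N.Nice) (h : (bpr X Y a b).Opn N) :
    OutA X Y a b N ∨ OutB Can X Y a b N := by
  rcases Nat.eq_zero_or_pos X.l with h0 | hpos
  · exact out_fin hT Can hC X Y h0 hY a b N hN h
  · have hmp : X.x.MinPer X.l := X.minPer hpos
    obtain ⟨W, iW, mW, T, hpo, N', hdec, hK0⟩ := hT X.x X.l hmp N hN
    rcases opn_dec hdec _ h with h1 | h2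
    · exact Or.inr ⟨X.x, hX, X.l, hmp, W, iW, mW, T, hpo, h1, wDec_ret₁ hdec⟩
    · obtain ⟨Z, a', hZ, hopn, hall, hcrit⟩ := cside X Y hpos a b N' hK0 h2
      have hN' : N'.Nice := wNice_ret hN (wDec_ret₂ hdec)
      rcases out_fin hT Can hC Z Y hZ hY a' b N' hN' hopn with hA | hB
      · obtain ⟨w, hw1, hw2, M, hM1, hM2⟩ := hA
        exact Or.inl ⟨w, hw1, fun hc => hw2 (hcrit w hc), M, SubM.trans hM1 (wDec_ret₂ hdec), hM2⟩
      · obtain ⟨c, hc, l, hl, V, iV, mV, T', hT', hO, hS⟩ := hB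
        exact Or.inr ⟨c, hc, l, hl, V, iV, mV, T', hT', hall _ hO, SubM.trans hS (wDec_ret₂ hdec)⟩

end StrAlg
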