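import Pool.Agent.Lib.MP_b9fd58_lc.Base

/-!
# The opposite of a string algebra (job W-2)
-/

set_option autoImplicit false

namespace StrAlg

variable {D : Dat}

theorem op_isPath {l : List (Fin D.nE)} : D.op.IsPath l ↔ D.IsPath l.reverse := by
  have h1 : D.IsPath l.reverse ↔ l.IsChain (fun a b : Fin D.nE => D.tgt b = D.src a) :=
    List.isChain_reverse
  have h2 : (fun a b : Fin D.nE => D.tgt b = D.src a) = fun a b : Fin D.nE => D.src a = D.tgt b := by
    funext a b
    exact propext ⟨fun h => h.symm, fun h => h.symm⟩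
  rw [h1, h2]
  exact Iff.rfl

theorem mem_op_rel {l : List (Fin D.nE)} : l ∈ D.op.rel ↔ l.reverse ∈ D.rel := by
  constructor
  · intro h
    obtain ⟨r, hr, h2⟩ := List.mem_map.1 h
    rw [← h2, List.reverse_reverse]
    exact hr
  · intro h
    exact List.mem_map.2 ⟨l.reverse, h, List.reverse_reverse l⟩

private theorem wop_rel_path (hD : D.IsString) (r : List (Fin D.nE)) (hr : r ∈ D.op.rel) :
    2 ≤ r.length ∧ D.op.IsPath r := by
  have h := hD.rel_path _ (mem_op_rel.1 hr)
  rw [List.length_reverse] at h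
  exact ⟨h.1, op_isPath.2 h.2⟩

private theorem wop_adm (hD : D.IsString) : ∃ m : ℕ, ∀ l : List (Fin D.nE), D.op.IsPath l → m ≤ l.length →
    ∃ r ∈ D.op.rel, r <:+: l := by
  obtain ⟨m, hm⟩ := hD.adm
  refine ⟨m, fun l hl hml => ?_⟩
  obtain ⟨r, hr, hrl⟩ := hm _ (op_isPath.1 hl) (by rw [List.length_reverse]; exact hml)
  refine ⟨r.reverse, mem_op_rel.2 (by rw [List.reverse_reverse]; exact hr), ?_⟩
  have h2 := List.reverse_infix.2 hrl
  rwa [List.reverse_reverse] at h2

theorem op_isString (hD : D.IsString) : D.op.IsString where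
  rel_path := wop_rel_path hD
  adm := wop_adm hD
  in_le := hD.out_le
  out_le := hD.in_le
  pre_unique := by
    intro b a a' h1 h2 h3 h4
    refine hD.post_unique b a a' h1.symm h2.symm (fun h => h3 ?_) (fun h => h4 ?_)
    · exact mem_op_rel.2 h
    · exact mem_op_rel.2 h
  post_unique := by
    intro b c c' h1 h2 h3 h4
    refine hD.pre_unique b c c' h1.symm h2.symm (fun h => h3 ?_) (fun h => h4 ?_)
    · exact mem_op_rel.2 h
    · exact mem_op_rel.2 h

end StrAlg
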