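import Pool.Agent.Lib.MP_b9fd58_lc.WFb
import Pool.Agent.Lib.MP_b9fd58_lc.WOp

/-!
# Opposite lines and strings (job OIa)
-/

set_option autoImplicit false

namespace StrAlg

open Module

variable {D : Dat} {S : Sides D}

theorem oia_fin3 (x : Fin 3) : x = 0 ∨ x = 1 ∨ x = 2 := by
  revert x; decide

theorem Sides.op_nx (S : Sides D) (i : Fin D.nV) (s : Bool) (x : Fin 3) : S.op.nx i s x = S.nx i s (Fin.rev x) := by
  rcases oia_fin3 x with rfl | rfl | rfl
  · have e1 : Fin.rev (0 : Fin 3) = 2 := by decide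
    rw [e1]
    rcases ho : S.outA i s with _ | c
    · have hi : S.op.inA i s = none := ho
      simp only [Sides.nx, ho, hi]
      rfl
    · have hi : S.op.inA i s = some c := ho
      simp only [Sides.nx, ho, hi]
      rfl
  · rfl
  · have e1 : Fin.rev (2 : Fin 3) = 0 := by decide
    rw [e1]
    rcases ho : S.inA i s with _ | c
    · have hi : S.op.outA i s = none := ho
      simp only [Sides.nx, ho, hi]
      rfl
    · have hi : S.op.outA i s = some c := ho
      simp only [Sides.nx, ho, hi]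
      rfl

/-- exchange IN and OUT -/
def Ln.op (L : Ln (Fin D.nV) S.nx) : Ln (Fin D.op.nV) S.op.nx where
  lam p := Fin.rev (L.lam p)
  v := L.v
  r := L.r
  fwd p h := by
    rw [Sides.op_nx, Fin.rev_rev]
    exact L.fwd p (Ln.rev_ne_one.1 h)
  bwd p h := by
    rw [Sides.op_nx, Fin.rev_rev]
    exact L.bwd p (Ln.rev_ne_one.1 h)

/-- back to the original data -/
def Ln.unop (L : Ln (Fin D.op.nV) S.op.nx) : Ln (Fin D.nV) S.nx where
  lam p := Fin.rev (L.lam p)
  v := L.v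
  r := L.r
  fwd p h := by
    have := L.fwd p (Ln.rev_ne_one.1 h)
    rw [Sides.op_nx] at this
    exact this
  bwd p h := by
    have := L.bwd p (Ln.rev_ne_one.1 h)
    rw [Sides.op_nx] at this
    exact this

theorem Ln.op_lt (L : Ln (Fin D.nV) S.nx) (e : Bool) (p : ℤ) : L.op.lt e p = Fin.rev (L.lt e p) := by
  cases e <;> rfl

theorem oia_ext {ι : Type*} {nx : ι → Bool → Fin 3 → ι × Bool} {L L' : Ln ι nx} (h1 : L.lam = L'.lam)
    (h2 : L.v = L'.v) (h3 : L.r = L'.r) : L = L' := by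
  cases L
  cases L'
  simp only at h1 h2 h3
  subst h1 h2 h3
  rfl

theorem oia_reach {ι : Type*} {nx : ι → Bool → Fin 3 → ι × Bool} {w : Ln ι nx} {p q : ℤ} :
    w.Reach p q ↔ ∃ (e : Bool) (n : ℕ), q = stn e (n : ℤ) p ∧ ∀ j < n, w.lt e (stn e (j : ℤ) p) ≠ 1 := by
  constructor
  · rintro ⟨e, n, h1, h2, -⟩
    exact ⟨e, n, h2, fun j hj => (h1.lk j hj).2⟩
  · rintro ⟨e, n, rfl, h⟩
    exact Ln.Reach.of_lt h

theorem oia_rev_one {x : Fin 3} : Fin.rev x = 1 ↔ x = 1 := by
  revert x; decide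

theorem oia_rev_zero {x : Fin 3} : Fin.rev x = 0 ↔ x = 2 := by
  revert x; decide

theorem oia_rev_two {x : Fin 3} : Fin.rev x = 2 ↔ x = 0 := by
  revert x; decide

theorem Ln.unop_op (L : Ln (Fin D.nV) S.nx) : L.op.unop = L := by
  refine oia_ext ?_ rfl rfl
  funext p
  exact Fin.rev_rev _

theorem Ln.op_unop (L : Ln (Fin D.op.nV) S.op.nx) : L.unop.op = L := by
  refine oia_ext ?_ rfl rfl
  funext p
  exact Fin.rev_rev _

theorem Ln.op_reach (L : Ln (Fin D.nV) S.nx) (p q : ℤ) : L.op.Reach p q ↔ L.Reach p q := by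
  rw [oia_reach, oia_reach]
  constructor
  · rintro ⟨e, n, h1, h2⟩
    refine ⟨e, n, h1, fun j hj => ?_⟩
    have h3 := h2 j hj
    rw [Ln.op_lt] at h3
    exact Ln.rev_ne_one.1 h3
  · rintro ⟨e, n, h1, h2⟩
    refine ⟨e, n, h1, fun j hj => ?_⟩
    rw [Ln.op_lt]
    exact Ln.rev_ne_one.2 (h2 j hj)

theorem Ln.op_ok {L : Ln (Fin D.nV) S.nx} : L.op.Ok S.op.ends ↔ L.Ok S.ends := by
  constructor
  · intro h e p h2
    have h3 : L.op.lt (!e) (st e p) = 2 := by
      rw [Ln.op_lt, Ln.lt_back, Fin.rev_rev]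
      exact h2
    obtain ⟨a, h4, h5⟩ := h (!e) (st e p) h3
    rw [st_not_st, Bool.not_not] at h5
    exact ⟨a, h5, h4⟩
  · intro h e p h2
    have h3 : L.lt (!e) (st e p) = 2 := by
      rw [Ln.lt_back, ← Ln.op_lt]
      exact h2
    obtain ⟨a, h4, h5⟩ := h (!e) (st e p) h3
    rw [st_not_st, Bool.not_not] at h5
    exact ⟨a, h5, h4⟩

theorem Ln.op_abs {L : Ln (Fin D.nV) S.nx} (p : ℤ) : L.op.Abs p ↔ L.Abs p := by
  constructor
  · intro h e n m hnm h1
    have h2 := h e n m hnm (by rw [Ln.op_lt, oia_rev_one]; exact h1)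
    rw [Ln.op_lt, oia_rev_one] at h2
    exact h2
  · intro h e n m hnm h1
    rw [Ln.op_lt, oia_rev_one] at h1 ⊢
    exact h e n m hnm h1

theorem oia_loc {L : Ln (Fin D.nV) S.nx} (hL : L.Ok S.ends) (e : Bool) (q : ℤ) (a : Fin D.nE) :
    (L.lt e q = 2 ∧ S.ends.outA (L.v q) (L.sd e q) = some a) ↔
      (L.lt (!e) (st e q) = 0 ∧ S.ends.inA (L.v (st e q)) (L.sd (!e) (st e q)) = some a) := by
  rw [Ln.lt_back, oia_rev_zero]
  constructor
  · rintro ⟨h1, h2⟩
    obtain ⟨b, h3, h4⟩ := hL e q h1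
    rw [h2] at h3
    rw [← Option.some_inj.1 h3] at h4
    exact ⟨h1, h4⟩
  · rintro ⟨h1, h2⟩
    obtain ⟨b, h3, h4⟩ := hL e q h1
    rw [h2] at h4
    rw [← Option.some_inj.1 h4] at h3
    exact ⟨h1, h3⟩

theorem oia_stn_st (e : Bool) (n : ℕ) (p : ℤ) : stn e (n : ℤ) (st e p) = stn e ((n + 1 : ℕ) : ℤ) p := by
  rw [← stn_one, stn_stn]; push_cast; ring_nf

theorem oia_bk_append (A : Ends (Fin D.nV) (Fin D.nE)) (L : Ln (Fin D.nV) S.nx) (e : Bool) (a : Fin D.nE) :
    ∀ (l : List (Fin D.nE)) (p : ℤ), bk A L e (l ++ [a]) p ↔ bk A L e l p ∧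
      L.lt e (stn e (l.length : ℤ) p) = 0 ∧
      A.inA (L.v (stn e (l.length : ℤ) p)) (L.sd e (stn e (l.length : ℤ) p)) = some a := by
  intro l
  induction l with
  | nil =>
    intro p
    simp [bk]
  | cons b l ih =>
    intro p
    rw [List.cons_append]
    simp only [bk]
    rw [ih (st e p), oia_stn_st, List.length_cons]
    tauto

theorem oia_bk {L : Ln (Fin D.nV) S.nx} (hL : L.Ok S.ends) (e : Bool) :
    ∀ (r : List (Fin D.nE)) (p : ℤ), bk S.op.ends L.op e r p ↔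
      bk S.ends L (!e) r.reverse (stn e (r.length : ℤ) p) := by
  intro r
  induction r with
  | nil => intro p; simp [bk]
  | cons a l ih =>
    intro p
    rw [List.reverse_cons, oia_bk_append, List.length_cons, List.length_reverse]
    have e1 : stn (!e) (l.length : ℤ) (stn e ((l.length + 1 : ℕ) : ℤ) p) = st e p := by
      cases e <;> simp <;> ring
    rw [e1, ← oia_loc hL e p a, ← oia_stn_st]
    have e3 : (L.op.lt e p = 0) ↔ L.lt e p = 2 := by rw [Ln.op_lt, oia_rev_zero]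
    constructor
    · rintro ⟨h1, h2, h3⟩
      exact ⟨(ih (st e p)).1 h3, e3.1 h1, h2⟩
    · rintro ⟨h3, h1, h2⟩
      exact ⟨e3.2 h1, h2, (ih (st e p)).2 h3⟩

/-- a directed path read forwards -/
theorem Ln.op_norel {L : Ln (Fin D.nV) S.nx} (hL : L.Ok S.ends) : L.op.NoRel S.op.ends ↔ L.NoRel S.ends := by
  constructor
  · intro h r hr e p hb
    have h1 : r.reverse ∈ D.op.rel := List.mem_map.2 ⟨r, hr, rfl⟩
    have h2 := h r.reverse h1 (!e) (stn e (r.length : ℤ) p)
    have e0 : bk S.op.ends L.op (!e) (List.reverse (List.reverse r)) (stn e (r.length : ℤ) p) =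
        bk S.op.ends L.op (!e) r (stn e (r.length : ℤ) p) :=
      congrArg (fun z : List (Fin D.op.nE) => bk S.op.ends L.op (!e) z (stn e (r.length : ℤ) p))
        (List.reverse_reverse r)
    apply h2
    refine e0.mpr ((oia_bk hL (!e) r _).2 ?_)
    have e1 : stn (!e) (r.length : ℤ) (stn e (r.length : ℤ) p) = p := by
      cases e <;> simp
    rw [e1, Bool.not_not]
    exact hb
  · intro h r' hr' e p hb
    obtain ⟨r, hr, rfl⟩ := List.mem_map.1 hr'
    have e0 : bk S.op.ends L.op e (List.reverse (List.reverse r)) p =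
        bk S.op.ends L.op e r p :=
      congrArg (fun z : List (Fin D.op.nE) => bk S.op.ends L.op e z p) (List.reverse_reverse r)
    exact h r hr _ _ ((oia_bk hL e r p).1 (e0.mp hb))

/-- the opposite string -/
def Str.op (w : Str S) : Str S.op where
  L := w.L.op
  ok := Ln.op_ok.2 w.ok
  norel := (Ln.op_norel w.ok).2 w.norel
  abs := (Ln.op_abs 0).2 w.abs
  clean p h := ⟨(Ln.op_reach _ _ _).2 (w.clean p (Ln.rev_ne_one.1 h)).1,
    (Ln.op_reach _ _ _).2 (w.clean p (Ln.rev_ne_one.1 h)).2⟩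

/-- back to the original data -/
def Str.unop (w : Str S.op) : Str S where
  L := w.L.unop
  ok := Ln.op_ok.1 (by rw [Ln.op_unop]; exact w.ok)
  norel := (Ln.op_norel (Ln.op_ok.1 (by rw [Ln.op_unop]; exact w.ok))).1 (by rw [Ln.op_unop]; exact w.norel)
  abs := (Ln.op_abs 0).1 (by rw [Ln.op_unop]; exact w.abs)
  clean p h := by
    have h1 := w.clean p (Ln.rev_ne_one.1 h)
    exact ⟨(Ln.op_reach _ _ _).1 (by rw [Ln.op_unop]; exact h1.1), (Ln.op_reach _ _ _).1 (by rw [Ln.op_unop]; exact h1.2)⟩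

theorem oia_str_ext {w w' : Str S} (h : w.L = w'.L) : w = w' := by
  cases w
  cases w'
  simp only at h
  subst h
  rfl

theorem Str.unop_op (w : Str S) : w.op.unop = w :=
  oia_str_ext (Ln.unop_op w.L)

theorem Str.op_unop (w : Str S.op) : w.unop.op = w :=
  oia_str_ext (Ln.op_unop w.L)

end StrAlg
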