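import Pool.Agent.Lib.MP_b9fd58_lc.OIj

/-!
# Chains in dual modules (job OIb)
-/

set_option autoImplicit false

namespace StrAlg

open Module

variable {D : Dat} {k : Type} [Field k] {S : Sides D}

theorem OIb_rev0 {x : Fin 3} : Fin.rev x = 0 ↔ x = 2 := by
  revert x
  decide

theorem OIb_rev2 {x : Fin 3} : Fin.rev x = 2 ↔ x = 0 := by
  revert x
  decide

theorem OIb_inA (i : Fin D.nV) (s : Bool) : S.op.ends.inA i s = S.ends.outA i s := rfl

theorem OIb_outA (i : Fin D.nV) (s : Bool) : S.op.ends.outA i s = S.ends.inA i s := rfl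

theorem chAt_codual {M : Type} [AddCommGroup M] [Module k M] (Q : QMod D.op k M) (w : Ln (Fin D.nV) S.nx)
    (ξ : ℤ → M →ₗ[k] k) (q : ℤ) (h : DcAt Q S.op.ends w.op ξ q) : ChAt Q.codual S.ends w ξ q := by
  obtain ⟨h1, h2⟩ := h
  refine ⟨fun i => ?_, fun α => ?_⟩
  · refine LinearMap.ext fun n => ?_
    refine (h1 i n).trans ?_
    show (if w.v q = i then ξ q n else 0) = _
    split_ifs <;> rfl
  · refine LinearMap.ext fun n => ?_
    refine (h2 α n).trans ?_
    rw [LinearMap.sum_apply]
    refine Finset.sum_congr rfl fun e _ => ?_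
    have hc : (w.op.lt e q = 0 ∧ S.op.ends.inA (w.op.v q) (w.op.sd e q) = some α) ↔
        (w.lt e q = 2 ∧ S.ends.outA (w.v q) (w.sd e q) = some α) := by
      rw [Ln.op_lt]
      exact and_congr OIb_rev0 Iff.rfl
    by_cases hh : w.lt e q = 2 ∧ S.ends.outA (w.v q) (w.sd e q) = some α
    · rw [if_pos hh]
      exact if_pos (hc.2 hh)
    · rw [if_neg hh]
      exact if_neg (fun h3 => hh (hc.1 h3))

theorem dcAt_codual {M : Type} [AddCommGroup M] [Module k M] (Q : QMod D.op k M) (w : Ln (Fin D.nV) S.nx)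
    (g : ℤ → M) (q : ℤ) (h : ChAt Q S.op.ends w.op g q) :
    DcAt Q.codual S.ends w (fun q => Dual.eval k M (g q)) q := by
  obtain ⟨h1, h2⟩ := h
  refine ⟨fun i n => ?_, fun α n => ?_⟩
  · have h3 : (n : Dual k M) (Q.op (Sum.inl i) (g q)) = if w.v q = i then n (g q) else 0 := by
      have h4 : Q.op (Sum.inl i) (g q) = if w.v q = i then g q else 0 := h1 i
      rw [h4]
      split_ifs
      · rfl
      · exact map_zero n
    exact h3
  · have h3 : (n : Dual k M) (Q.op (Sum.inr α) (g q)) = ∑ e : Bool,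
        if w.lt e q = 0 ∧ S.ends.inA (w.v q) (w.sd e q) = some α then n (g (st e q)) else 0 := by
      rw [h2 α, map_sum]
      refine Finset.sum_congr rfl fun e _ => ?_
      have hc : (w.op.lt e q = 2 ∧ S.op.ends.outA (w.op.v q) (w.op.sd e q) = some α) ↔
          (w.lt e q = 0 ∧ S.ends.inA (w.v q) (w.sd e q) = some α) := by
        rw [Ln.op_lt]
        exact and_congr OIb_rev2 Iff.rfl
      by_cases hh : w.lt e q = 0 ∧ S.ends.inA (w.v q) (w.sd e q) = some α
      · rw [if_pos hh]
        exact congrArg n (if_pos (hc.2 hh))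
      · rw [if_neg hh]
        exact (congrArg n (if_neg (fun h3 => hh (hc.1 h3)))).trans (map_zero n)
    exact h3

/-- a string that is open on `M` (over the opposite data) is open on the dual of `M` -/
theorem Open_codual (M : Md D.op k) (w : Str S.op) (h : w.Open M) : w.unop.Open M.codual := by
  have hL : w.unop.L.op = w.L := Ln.op_unop w.L
  intro R
  obtain ⟨g, ξ, hg⟩ := h R
  refine ⟨ξ, fun q => Dual.eval k M.C (g q), fun q hq hR => ?_⟩
  have hq' : w.L.Reach 0 q := by
    rw [← hL]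
    exact (Ln.op_reach _ _ _).2 hq
  obtain ⟨h1, h2, h3⟩ := hg q hq' hR
  refine ⟨?_, ?_, h3⟩
  · refine chAt_codual M.Q w.unop.L ξ q ?_
    rw [hL]
    exact h2
  · refine dcAt_codual M.Q w.unop.L g q ?_
    rw [hL]
    exact h1

/-- a module over `D` as a module over `D.op.op` -/
def OIb_opop {N : Type} [AddCommGroup N] [Module k N] (Q : QMod D k N) : QMod D.op.op k N where
  op := Q.op
  idem := Q.idem
  orth := Q.orth
  one := Q.one
  src := Q.src
  tgt := Q.tgt
  rel := by
    intro r hr n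
    have h1 : r ∈ D.rel := by
      obtain ⟨r1, hr1, rfl⟩ := List.mem_map.1 hr
      obtain ⟨r2, hr2, rfl⟩ := List.mem_map.1 hr1
      have h5 : (r2.reverse.reverse : List (Fin D.nE)) = r2 := List.reverse_reverse r2
      exact Eq.mpr (congrArg (fun l => l ∈ D.rel) h5) hr2
    exact Q.rel r h1 n

/-- dual modules are nice: a module over `D` is also a module over `D.op.op` -/
theorem wNice_dual (N : Md D k) : N.dual.Nice :=
  ⟨⟨N.C, OIb_opop N.Q⟩, LinearMap.id, LinearMap.id, fun _ _ => rfl, fun _ _ => rfl, rfl⟩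

theorem wNice_codual (M : Md D.op k) : M.codual.Nice :=
  ⟨M, LinearMap.id, LinearMap.id, fun _ _ => rfl, fun _ _ => rfl, rfl⟩

end StrAlg
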