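import Pool.Agent.Lib.MP_b9fd58_lc.OIj

/-!
# The pairing of the line modules of a string and of the opposite string (job OIc)
-/

set_option autoImplicit false

namespace StrAlg

open Module

variable {D : Dat} {k : Type} [Field k] {S : Sides D}

/-- the function of an element of a line module -/
def Str.mfn (w : Str S) (l : ℕ) {V : Type} [AddCommGroup V] [Module k V] (T : V ≃ₗ[k] V) (h : w.PerOK l T)
    (m : (w.ME l T h).C) : ℤ → V := (show (w.LB l T h).S from m).1

/-- the element of the line module with the value `v` at `p` -/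
noncomputable def Str.mi (w : Str S) (l : ℕ) {V : Type} [AddCommGroup V] [Module k V] (T : V ≃ₗ[k] V)
    (h : w.PerOK l T) (p : ℤ) : V →ₗ[k] (w.ME l T h).C :=
  open Classical in
  if hp : p ∈ (w.LB l T h).Z then
    ((w.LB l T h).spr p).codRestrict _ (fun v => (w.LB l T h).spr_mem hp v)
  else 0

/-- a fundamental domain of the positions -/
structure Fund (w : Str S) (l : ℕ) (F : Finset ℤ) : Prop where
  band : 0 < l → F = (Finset.range l).image (fun n : ℕ => (n : ℤ))
  str : l = 0 → ∀ p, p ∈ F ↔ p ∈ w.Z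

theorem exists_fund (w : Str S) (l : ℕ) (hl : l = 0 → w.Fin) : ∃ F, Fund w l F := by
  rcases Nat.eq_zero_or_pos l with h0 | h0
  · exact ⟨(hl h0).toFinset, fun h => absurd h (by omega), fun _ p => (hl h0).mem_toFinset⟩
  · exact ⟨_, fun _ => rfl, fun h => absurd h (by omega)⟩

/-- sums of periodic functions over a period are invariant under shifts -/
theorem oic_shift_band {A : Type*} [AddCommGroup A] (l : ℕ) (f : ℤ → A) (hf : Per l f) (e : Bool) :
    ∑ n ∈ Finset.range l, f (st e (n : ℤ)) = ∑ n ∈ Finset.range l, f (n : ℤ) := by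
  have key : ∀ f : ℤ → A, Per l f → ∑ n ∈ Finset.range l, f ((n : ℤ) + 1) = ∑ n ∈ Finset.range l, f (n : ℤ) := by
    intro f hf
    have h1 : ∑ n ∈ Finset.range l, (f (((n + 1 : ℕ) : ℤ)) - f (n : ℤ)) = f (l : ℤ) - f ((0 : ℕ) : ℤ) :=
      Finset.sum_range_sub (fun n : ℕ => f (n : ℤ)) l
    have h2 : f (l : ℤ) = f ((0 : ℕ) : ℤ) := by
      have := hf 0
      simpa using this
    rw [h2, sub_self, Finset.sum_sub_distrib, sub_eq_zero] at h1
    rw [← h1]
    refine Finset.sum_congr rfl (fun n _ => ?_)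
    push_cast
    rfl
  cases e with
  | true => exact key f hf
  | false =>
    have h3 : Per l (fun p : ℤ => f (p - 1)) := by
      intro a
      show f (a + l - 1) = f (a - 1)
      rw [← hf (a - 1)]
      congr 1
      ring
    have h4 := key _ h3
    simp only [add_sub_cancel_right] at h4
    exact h4.symm

/-- shift invariance -/
theorem oic_shift {A : Type*} [AddCommGroup A] (w : Str S) (l : ℕ) {F : Finset ℤ} (hF : Fund w l F) (f : ℤ → A)
    (hf : Per l f) (e : Bool) (h1 : l = 0 → ∀ p, f p ≠ 0 → p ∈ w.Z) (h2 : l = 0 → ∀ p, f (st e p) ≠ 0 → p ∈ w.Z) :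
    ∑ p ∈ F, f (st e p) = ∑ p ∈ F, f p := by
  rcases Nat.eq_zero_or_pos l with h0 | h0
  · have hs := hF.str h0
    have hinj : Function.Injective (st e) := by
      intro a b hab
      have := congrArg (st (!e)) hab
      rwa [st_not_st, st_not_st] at this
    classical
    rw [← Finset.sum_image (s := F) (g := st e) (f := f) (fun a _ b _ hab => hinj hab)]
    have h3 : ∑ p ∈ F ∪ F.image (st e), f p = ∑ p ∈ F.image (st e), f p := by
      symm
      refine Finset.sum_subset Finset.subset_union_right ?_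
      intro p _ hp
      by_contra hne
      apply hp
      have h5 : st e (st (!e) p) = p := by
        have := st_not_st (!e) p
        rwa [Bool.not_not] at this
      refine Finset.mem_image.2 ⟨st (!e) p, (hs _).2 (h2 h0 _ ?_), h5⟩
      rw [h5]
      exact hne
    have h4 : ∑ p ∈ F ∪ F.image (st e), f p = ∑ p ∈ F, f p := by
      symm
      refine Finset.sum_subset Finset.subset_union_left ?_
      intro p _ hp
      by_contra hne
      exact hp ((hs p).2 (h1 h0 p hne))
    rw [← h3, h4]
  · rw [hF.band h0, Finset.sum_image (fun a _ b _ hab => by exact_mod_cast hab),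
      Finset.sum_image (fun a _ b _ hab => by exact_mod_cast hab)]
    exact oic_shift_band l f hf e

section pair
variable (w : Str S) (l : ℕ) {F : Finset ℤ} (hF : Fund w l F) {V V' : Type} [AddCommGroup V] [Module k V]
    [AddCommGroup V'] [Module k V'] (T : V ≃ₗ[k] V) (T' : V' ≃ₗ[k] V') (h : w.PerOK l T) (h' : w.op.PerOK l T')
    (β : V' →ₗ[k] V →ₗ[k] k) (hβ : ∀ a b, β (T' a) (T b) = β a b)

theorem oic_supp (m : (w.ME l T h).C) {p : ℤ} (hp : w.mfn l T h m p ≠ 0) : p ∈ w.Z := by
  by_contra hc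
  exact hp ((show (w.LB l T h).S from m).2.1 p hc)

theorem oic_supp' (m' : (w.op.ME l T' h').C) {p : ℤ} (hp : w.op.mfn l T' h' m' p ≠ 0) : p ∈ w.Z :=
  (w.op_Z p).1 (oic_supp w.op l T' h' m' hp)

theorem oic_per (m : (w.ME l T h).C) (p : ℤ) : T (w.mfn l T h m (p + l)) = w.mfn l T h m p :=
  (show (w.LB l T h).S from m).2.2 p

include hβ in
theorem oic_beta (m : (w.ME l T h).C) (m' : (w.op.ME l T' h').C) (p q : ℤ) :
    β (w.op.mfn l T' h' m' (p + l)) (w.mfn l T h m (q + l)) = β (w.op.mfn l T' h' m' p) (w.mfn l T h m q) := by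
  rw [← hβ, oic_per w l T h, oic_per w.op l T' h']

end pair

theorem oic_inA (S : Sides D) (i : Fin D.nV) (s : Bool) : S.op.ends.inA i s = S.ends.outA i s := rfl

/-- Adjointness of the actions on `w.op` and on `w`.

Proof: both sides are `0` or a sum over `p ∈ F` and `e : Bool`; the left side is
`∑_{p, e} [w.lt e p = 2 ∧ S.outA .. = some α] β (m' (st e p)) (m p)`, the right side is the same sum written with
`q = st e p`, `e' = !e` (`Ln.Ok`, `st_not_st`); the summands are periodic (`l > 0`: the sum over `F` of a periodic function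
is invariant under `p ↦ p ± 1`), resp. supported in `w.Z = F` (`l = 0`). -/
theorem ME_adj (w : Str S) (l : ℕ) {F : Finset ℤ} (hF : Fund w l F) {V V' : Type} [AddCommGroup V] [Module k V]
    [AddCommGroup V'] [Module k V'] (T : V ≃ₗ[k] V) (T' : V' ≃ₗ[k] V') (h : w.PerOK l T) (h' : w.op.PerOK l T')
    (β : V' →ₗ[k] V →ₗ[k] k) (hβ : ∀ a b, β (T' a) (T b) = β a b) (g : D.Gen) (m : (w.ME l T h).C)
    (m' : (w.op.ME l T' h').C) :
    ∑ p ∈ F, β (w.op.mfn l T' h' ((w.op.ME l T' h').Q.op g m') p) (w.mfn l T h m p) =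
      ∑ p ∈ F, β (w.op.mfn l T' h' m' p) (w.mfn l T h ((w.ME l T h).Q.op g m) p) := by
  have e2 : ∀ p, w.mfn l T h ((w.ME l T h).Q.op g m) p = fop k S.ends w.L g (w.mfn l T h m) p := fun _ => rfl
  cases g with
  | inl i =>
    refine Finset.sum_congr rfl (fun p _ => ?_)
    rw [e2]
    rw [fop_inl]
    have e3 : w.op.mfn l T' h' ((w.op.ME l T' h').Q.op (Sum.inl i) m') p =
      if w.L.v p = i then w.op.mfn l T' h' m' p else 0 := rfl
    refine (congrArg (fun x => β x (w.mfn l T h m p)) e3).trans ?_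
    show β (if w.L.v p = i then w.op.mfn l T' h' m' p else 0) (w.mfn l T h m p) =
      β (w.op.mfn l T' h' m' p) (if w.L.v p = i then w.mfn l T h m p else 0)
    by_cases hc : w.L.v p = i
    · rw [if_pos hc, if_pos hc]
    · rw [if_neg hc, if_neg hc, map_zero, map_zero, LinearMap.zero_apply]
  | inr α =>
    have e3 : ∀ p, w.op.mfn l T' h' ((w.op.ME l T' h').Q.op (Sum.inr α) m') p =
      ∑ e : Bool, if w.L.op.lt e p = 0 ∧ S.ends.outA (w.L.v p) (w.L.sd e p) = some α then
        w.op.mfn l T' h' m' (st e p) else 0 := fun _ => rfl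
    have hrev : ∀ x : Fin 3, Fin.rev x = 0 ↔ x = 2 := by decide
    have e4 : ∀ p, β (w.op.mfn l T' h' ((w.op.ME l T' h').Q.op (Sum.inr α) m') p) (w.mfn l T h m p) =
        ∑ e : Bool, if w.L.lt e p = 2 ∧ S.ends.outA (w.L.v p) (w.L.sd e p) = some α then
          β (w.op.mfn l T' h' m' (st e p)) (w.mfn l T h m p) else 0 := by
      intro p
      refine (congrArg (fun x => β x (w.mfn l T h m p)) (e3 p)).trans ?_
      show β (∑ e : Bool, if w.L.op.lt e p = 0 ∧ S.ends.outA (w.L.v p) (w.L.sd e p) = some α then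
        w.op.mfn l T' h' m' (st e p) else 0) (w.mfn l T h m p) = _
      rw [map_sum, LinearMap.sum_apply]
      refine Finset.sum_congr rfl (fun e _ => ?_)
      have hiff : (w.L.op.lt e p = 0 ∧ S.ends.outA (w.L.v p) (w.L.sd e p) = some α) ↔
          (w.L.lt e p = 2 ∧ S.ends.outA (w.L.v p) (w.L.sd e p) = some α) := by
        rw [Ln.op_lt, hrev]
      by_cases hc : w.L.lt e p = 2 ∧ S.ends.outA (w.L.v p) (w.L.sd e p) = some α
      · rw [if_pos hc, if_pos (hiff.2 hc)]
      · rw [if_neg hc, if_neg (fun h => hc (hiff.1 h)), map_zero, LinearMap.zero_apply]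
    have e5 : ∀ p, β (w.op.mfn l T' h' m' p) (fop k S.ends w.L (Sum.inr α) (w.mfn l T h m) p) =
        ∑ e : Bool, if w.L.lt e p = 0 ∧ S.ends.inA (w.L.v p) (w.L.sd e p) = some α then
          β (w.op.mfn l T' h' m' p) (w.mfn l T h m (st e p)) else 0 := by
      intro p
      rw [fop_inr, map_sum]
      refine Finset.sum_congr rfl (fun e _ => ?_)
      split_ifs
      · rfl
      · rw [map_zero]
    have e6 : ∀ e p, (if w.L.lt e p = 2 ∧ S.ends.outA (w.L.v p) (w.L.sd e p) = some α then
          β (w.op.mfn l T' h' m' (st e p)) (w.mfn l T h m p) else 0) =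
        if w.L.lt (!e) (st e p) = 0 ∧ S.ends.inA (w.L.v (st e p)) (w.L.sd (!e) (st e p)) = some α then
          β (w.op.mfn l T' h' m' (st e p)) (w.mfn l T h m (st (!e) (st e p))) else 0 := by
      intro e p
      rw [st_not_st]
      refine if_congr ?_ rfl rfl
      constructor
      · rintro ⟨h1, h2⟩
        exact w.ok.other' h1 h2
      · rintro ⟨h1, h2⟩
        have h3 := w.ok.other h1 h2
        rw [Bool.not_not, st_not_st] at h3
        exact h3
    calc ∑ p ∈ F, β (w.op.mfn l T' h' ((w.op.ME l T' h').Q.op (Sum.inr α) m') p) (w.mfn l T h m p)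
        = ∑ p ∈ F, ∑ e : Bool, (if w.L.lt (!e) (st e p) = 0 ∧
            S.ends.inA (w.L.v (st e p)) (w.L.sd (!e) (st e p)) = some α then
            β (w.op.mfn l T' h' m' (st e p)) (w.mfn l T h m (st (!e) (st e p))) else 0) := by
          refine Finset.sum_congr rfl (fun p _ => ?_)
          refine (e4 p).trans ?_
          exact Finset.sum_congr rfl (fun e _ => e6 e p)
      _ = ∑ e : Bool, ∑ p ∈ F, (if w.L.lt (!e) (st e p) = 0 ∧
            S.ends.inA (w.L.v (st e p)) (w.L.sd (!e) (st e p)) = some α then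
            β (w.op.mfn l T' h' m' (st e p)) (w.mfn l T h m (st (!e) (st e p))) else 0) := Finset.sum_comm
      _ = ∑ e : Bool, ∑ p ∈ F, (if w.L.lt (!e) p = 0 ∧ S.ends.inA (w.L.v p) (w.L.sd (!e) p) = some α then
            β (w.op.mfn l T' h' m' p) (w.mfn l T h m (st (!e) p)) else 0) := by
          refine Finset.sum_congr rfl (fun e _ => ?_)
          refine oic_shift w l hF (fun p => if w.L.lt (!e) p = 0 ∧
            S.ends.inA (w.L.v p) (w.L.sd (!e) p) = some α then
            β (w.op.mfn l T' h' m' p) (w.mfn l T h m (st (!e) p)) else 0) ?_ e ?_ ?_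
          · intro p
            show (if w.L.lt (!e) (p + l) = 0 ∧ S.ends.inA (w.L.v (p + l)) (w.L.sd (!e) (p + l)) = some α then
              β (w.op.mfn l T' h' m' (p + l)) (w.mfn l T h m (st (!e) (p + l))) else 0) = _
            rw [h.per.v p, h.per.lt (!e) p, LB.Ln_sd_per h.per (!e) p, LB.st_add,
              oic_beta w l T T' h h' β hβ]
          · intro _ p hp
            split_ifs at hp with hc
            · refine oic_supp' w l T' h' m' (p := p) ?_
              intro h0
              apply hp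
              rw [h0, map_zero, LinearMap.zero_apply]
            · exact absurd rfl hp
          · intro _ p hp
            split_ifs at hp with hc
            · rw [st_not_st] at hp
              refine oic_supp w l T h m (p := p) ?_
              intro h0
              apply hp
              rw [h0, map_zero]
            · exact absurd rfl hp
      _ = ∑ e : Bool, ∑ p ∈ F, (if w.L.lt e p = 0 ∧ S.ends.inA (w.L.v p) (w.L.sd e p) = some α then
            β (w.op.mfn l T' h' m' p) (w.mfn l T h m (st e p)) else 0) := by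
          rw [Fintype.sum_bool, Fintype.sum_bool, add_comm]
          rfl
      _ = ∑ p ∈ F, ∑ e : Bool, (if w.L.lt e p = 0 ∧ S.ends.inA (w.L.v p) (w.L.sd e p) = some α then
            β (w.op.mfn l T' h' m' p) (w.mfn l T h m (st e p)) else 0) := Finset.sum_comm
      _ = ∑ p ∈ F, β (w.op.mfn l T' h' m' p) (w.mfn l T h ((w.ME l T h).Q.op (Sum.inr α) m) p) := by
          refine Finset.sum_congr rfl (fun p _ => ?_)
          rw [e2, e5]

/-- a sum over a fundamental domain of a function supported in one residue class -/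
theorem oic_single (w : Str S) (l : ℕ) {F : Finset ℤ} (hF : Fund w l F) (p : ℤ) (hp : p ∈ w.Z) (f : ℤ → k) (c : k)
    (h1 : ∀ q, ¬ (l : ℤ) ∣ (p - q) → f q = 0) (h2 : ∀ q, (l : ℤ) ∣ (p - q) → f q = c) : ∑ q ∈ F, f q = c := by
  rcases Nat.eq_zero_or_pos l with h0 | h0
  · rw [Finset.sum_eq_single p]
    · exact h2 p (by simp)
    · intro q _ hq
      apply h1
      rw [h0]
      intro hd
      rw [Nat.cast_zero, zero_dvd_iff] at hd
      apply hq
      linarith
    · intro hc
      exact absurd ((hF.str h0 p).2 hp) hc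
  · rw [hF.band h0, Finset.sum_image (fun a _ b _ hab => by exact_mod_cast hab)]
    have hlpos : (0 : ℤ) < l := by exact_mod_cast h0
    have hr0 : 0 ≤ p % l := Int.emod_nonneg _ hlpos.ne'
    have hr1 : p % l < l := Int.emod_lt_of_pos _ hlpos
    obtain ⟨r, hr⟩ := Int.eq_ofNat_of_zero_le hr0
    have hrl : r < l := by
      rw [hr] at hr1
      exact_mod_cast hr1
    have hd : (l : ℤ) ∣ p - r := by
      have h4 : p - r = l * (p / l) := by
        have := Int.mul_ediv_add_emod p l
        rw [hr] at this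
        linarith
      rw [h4]
      exact Dvd.intro _ rfl
    rw [Finset.sum_eq_single r]
    · exact h2 _ hd
    · intro n hn hne
      apply h1
      intro hd2
      apply hne
      have h5 : (l : ℤ) ∣ (n : ℤ) - r := by
        have := dvd_sub hd hd2
        have h6 : p - (r : ℤ) - (p - n) = n - r := by ring
        rwa [h6] at this
      have hn' : n < l := Finset.mem_range.1 hn
      have h7 : (n : ℤ) - r = 0 := by
        apply Int.eq_zero_of_abs_lt_dvd h5
        rw [abs_lt]
        constructor <;> omega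
      omega
    · intro hc
      exact absurd (Finset.mem_range.2 hrl) hc

theorem oic_zpow {V V' : Type} [AddCommGroup V] [Module k V] [AddCommGroup V'] [Module k V'] (T : V ≃ₗ[k] V)
    (T' : V' ≃ₗ[k] V') (β : V' →ₗ[k] V →ₗ[k] k) (hβ : ∀ a b, β (T' a) (T b) = β a b) (j : ℤ) (a : V') (b : V) :
    β ((T' ^ j) a) ((T ^ j) b) = β a b := by
  have h1 : ∀ n : ℕ, ∀ a b, β ((T' ^ n) a) ((T ^ n) b) = β a b := by
    intro n
    induction n with
    | zero => intro a b; rfl
    | succ n ih =>
      intro a b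
      rw [pow_succ, pow_succ, LinearEquiv.mul_apply, LinearEquiv.mul_apply, ih, hβ]
  obtain ⟨n, rfl | rfl⟩ := j.eq_nat_or_neg
  · rw [zpow_natCast, zpow_natCast]
    exact h1 n a b
  · rw [zpow_neg, zpow_natCast, zpow_neg, zpow_natCast]
    have h2 := h1 n ((T' ^ n)⁻¹ a) ((T ^ n)⁻¹ b)
    rw [← LinearEquiv.mul_apply, ← LinearEquiv.mul_apply, mul_inv_cancel, mul_inv_cancel] at h2
    exact h2.symm

theorem oic_mi (w : Str S) (l : ℕ) {V : Type} [AddCommGroup V] [Module k V] (T : V ≃ₗ[k] V)
    (h : w.PerOK l T) {p : ℤ} (hp : p ∈ w.Z) (v : V) (q : ℤ) :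
    w.mfn l T h (w.mi l T h p v) q = if (l : ℤ) ∣ (p - q) then (T ^ ((p - q) / l)) v else 0 := by
  have h1 : w.mi l T h p = ((w.LB l T h).spr p).codRestrict _ (fun v => (w.LB l T h).spr_mem hp v) :=
    dif_pos hp
  rw [h1]
  rfl

theorem oic_mi' (w : Str S) (l : ℕ) {V : Type} [AddCommGroup V] [Module k V] (T : V ≃ₗ[k] V)
    (h : w.PerOK l T) {p : ℤ} (hp : p ∉ w.Z) (v : V) (q : ℤ) :
    w.mfn l T h (w.mi l T h p v) q = 0 := by
  have h1 : w.mi l T h p = 0 := dif_neg hp
  rw [h1]
  rfl

theorem oic_zper (w : Str S) (l : ℕ) {V : Type} [AddCommGroup V] [Module k V] (T : V ≃ₗ[k] V)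
    (h : w.PerOK l T) (m : (w.ME l T h).C) (q j : ℤ) :
    (T ^ j) (w.mfn l T h m (q + j * l)) = w.mfn l T h m q :=
  (w.LB l T h).S_zpow (show (w.LB l T h).S from m).2 q j

theorem oic_zper2 (w : Str S) (l : ℕ) {V : Type} [AddCommGroup V] [Module k V] (T : V ≃ₗ[k] V)
    (h : w.PerOK l T) (m : (w.ME l T h).C) (p q : ℤ) (hd : (l : ℤ) ∣ (p - q)) :
    (T ^ ((p - q) / l)) (w.mfn l T h m p) = w.mfn l T h m q := by
  have h1 := oic_zper w l T h m q ((p - q) / l)
  rw [Int.ediv_mul_cancel hd, add_sub_cancel] at h1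
  exact h1

/-- the pairing with a spread vector is the value at one position -/
theorem ME_pair_left (w : Str S) (l : ℕ) {F : Finset ℤ} (hF : Fund w l F) {V V' : Type} [AddCommGroup V] [Module k V]
    [AddCommGroup V'] [Module k V'] (T : V ≃ₗ[k] V) (T' : V' ≃ₗ[k] V') (h : w.PerOK l T) (h' : w.op.PerOK l T')
    (β : V' →ₗ[k] V →ₗ[k] k) (hβ : ∀ a b, β (T' a) (T b) = β a b) (m : (w.ME l T h).C) (p : ℤ) (v' : V') :
    ∑ q ∈ F, β (w.op.mfn l T' h' (w.op.mi l T' h' p v') q) (w.mfn l T h m q) = β v' (w.mfn l T h m p) := by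
  by_cases hp : p ∈ w.Z
  · have hp' : p ∈ w.op.Z := (w.op_Z p).2 hp
    refine oic_single w l hF p hp _ _ ?_ ?_
    · intro q hq
      show β (w.op.mfn l T' h' (w.op.mi l T' h' p v') q) (w.mfn l T h m q) = 0
      rw [oic_mi w.op l T' h' hp', if_neg hq, map_zero, LinearMap.zero_apply]
    · intro q hq
      show β (w.op.mfn l T' h' (w.op.mi l T' h' p v') q) (w.mfn l T h m q) = _
      rw [oic_mi w.op l T' h' hp', if_pos hq, ← oic_zper2 w l T h m p q hq, oic_zpow T T' β hβ]
  · have hp' : p ∉ w.op.Z := fun hc => hp ((w.op_Z p).1 hc)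
    have hm : w.mfn l T h m p = 0 := by
      by_contra hc
      exact hp (oic_supp w l T h m hc)
    rw [hm, map_zero]
    refine Finset.sum_eq_zero (fun q _ => ?_)
    rw [oic_mi' w.op l T' h' hp', map_zero, LinearMap.zero_apply]

theorem ME_pair_right (w : Str S) (l : ℕ) {F : Finset ℤ} (hF : Fund w l F) {V V' : Type} [AddCommGroup V] [Module k V]
    [AddCommGroup V'] [Module k V'] (T : V ≃ₗ[k] V) (T' : V' ≃ₗ[k] V') (h : w.PerOK l T) (h' : w.op.PerOK l T')
    (β : V' →ₗ[k] V →ₗ[k] k) (hβ : ∀ a b, β (T' a) (T b) = β a b) (m' : (w.op.ME l T' h').C) (p : ℤ) (v : V) :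
    ∑ q ∈ F, β (w.op.mfn l T' h' m' q) (w.mfn l T h (w.mi l T h p v) q) = β (w.op.mfn l T' h' m' p) v := by
  by_cases hp : p ∈ w.Z
  · refine oic_single w l hF p hp _ _ ?_ ?_
    · intro q hq
      show β (w.op.mfn l T' h' m' q) (w.mfn l T h (w.mi l T h p v) q) = 0
      rw [oic_mi w l T h hp, if_neg hq, map_zero]
    · intro q hq
      show β (w.op.mfn l T' h' m' q) (w.mfn l T h (w.mi l T h p v) q) = _
      rw [oic_mi w l T h hp, if_pos hq, ← oic_zper2 w.op l T' h' m' p q hq, oic_zpow T T' β hβ]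
  · have hm : w.op.mfn l T' h' m' p = 0 := by
      by_contra hc
      exact hp (oic_supp' w l T' h' m' hc)
    rw [hm, map_zero, LinearMap.zero_apply]
    refine Finset.sum_eq_zero (fun q _ => ?_)
    rw [oic_mi' w l T h hp, map_zero]

end StrAlg
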