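import Pool.Agent.Lib.MP_b9fd58_lc.OIc

/-!
# Duals of line modules (job OId)
-/

set_option autoImplicit false

namespace StrAlg

open Module

variable {D : Dat} {k : Type} [Field k] {S : Sides D}

theorem oid_ext (w : Str S) (l : ℕ) {V : Type} [AddCommGroup V] [Module k V] (T : V ≃ₗ[k] V)
    (h : w.PerOK l T) {m m' : (w.ME l T h).C} (hm : ∀ q, w.mfn l T h m q = w.mfn l T h m' q) : m = m' :=
  Subtype.ext (funext hm)

/-- a sum over a fundamental domain of a function supported in one residue class -/
theorem oid_single {A : Type*} [AddCommMonoid A] (w : Str S) (l : ℕ) {F : Finset ℤ} (hF : Fund w l F) (p : ℤ)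
    (hp : p ∈ w.Z) (f : ℤ → A) (c : A)
    (h1 : ∀ q, ¬ (l : ℤ) ∣ (p - q) → f q = 0) (h2 : ∀ q, (l : ℤ) ∣ (p - q) → f q = c) : ∑ q ∈ F, f q = c := by
  rcases Nat.eq_zero_or_pos l with h0 | h0
  · rw [Finset.sum_eq_single p]
    · exact h2 p (by simp)
    · intro q _ hq
      apply h1
      rw [h0]
      intro hd
      rw [Nat.cast_zero, zero_dvd_iff] at hd
      apply hq
      linarith
    · intro hc
      exact absurd ((hF.str h0 p).2 hp) hc
  · rw [hF.band h0, Finset.sum_image (fun a _ b _ hab => by exact_mod_cast hab)]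
    have hlpos : (0 : ℤ) < l := by exact_mod_cast h0
    have hr0 : 0 ≤ p % l := Int.emod_nonneg _ hlpos.ne'
    have hr1 : p % l < l := Int.emod_lt_of_pos _ hlpos
    obtain ⟨r, hr⟩ := Int.eq_ofNat_of_zero_le hr0
    have hrl : r < l := by
      rw [hr] at hr1
      exact_mod_cast hr1
    have hd : (l : ℤ) ∣ p - r := by
      have h4 : p - r = l * (p / l) := by
        have := Int.mul_ediv_add_emod p l
        rw [hr] at this
        linarith
      rw [h4]
      exact Dvd.intro _ rfl
    rw [Finset.sum_eq_single r]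
    · exact h2 _ hd
    · intro n hn hne
      apply h1
      intro hd2
      apply hne
      have h5 : (l : ℤ) ∣ (n : ℤ) - r := by
        have := dvd_sub hd hd2
        have h6 : p - (r : ℤ) - (p - n) = n - r := by ring
        rwa [h6] at this
      have hn' : n < l := Finset.mem_range.1 hn
      have h7 : (n : ℤ) - r = 0 := by
        apply Int.eq_zero_of_abs_lt_dvd h5
        rw [abs_lt]
        constructor <;> omega
      omega
    · intro hc
      exact absurd (Finset.mem_range.2 hrl) hc

theorem oid_mfn_sum (w : Str S) (l : ℕ) {V : Type} [AddCommGroup V] [Module k V] (T : V ≃ₗ[k] V)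
    (h : w.PerOK l T) (F : Finset ℤ) (f : ℤ → (w.ME l T h).C) (q : ℤ) :
    w.mfn l T h (∑ p ∈ F, f p) q = ∑ p ∈ F, w.mfn l T h (f p) q := by
  classical
  induction F using Finset.induction_on with
  | empty => rfl
  | insert a s ha ih =>
    rw [Finset.sum_insert ha, Finset.sum_insert ha, ← ih]
    rfl

/-- decomposition into spread vectors -/
theorem oid_decomp (w : Str S) (l : ℕ) {F : Finset ℤ} (hF : Fund w l F) {V : Type} [AddCommGroup V] [Module k V]
    (T : V ≃ₗ[k] V) (h : w.PerOK l T) (m : (w.ME l T h).C) :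
    ∑ p ∈ F, w.mi l T h p (w.mfn l T h m p) = m := by
  apply oid_ext
  intro q
  rw [oid_mfn_sum]
  have key : ∀ p, w.mfn l T h (w.mi l T h p (w.mfn l T h m p)) q =
      if (l : ℤ) ∣ (p - q) then w.mfn l T h m q else 0 := by
    intro p
    by_cases hp : p ∈ w.Z
    · rw [oic_mi w l T h hp]
      by_cases hd : (l : ℤ) ∣ (p - q)
      · rw [if_pos hd, if_pos hd, oic_zper2 w l T h m p q hd]
      · rw [if_neg hd, if_neg hd]
    · rw [oic_mi' w l T h hp]
      by_cases hd : (l : ℤ) ∣ (p - q)
      · rw [if_pos hd, ← oic_zper2 w l T h m p q hd]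
        have : w.mfn l T h m p = 0 := by
          by_contra hc
          exact hp (oic_supp w l T h m hc)
        rw [this, map_zero]
      · rw [if_neg hd]
  by_cases hq : q ∈ w.Z
  · refine oid_single w l hF q hq _ _ ?_ ?_
    · intro p hp
      rw [key, if_neg]
      rwa [dvd_sub_comm]
    · intro p hp
      rw [key, if_pos]
      rwa [dvd_sub_comm]
  · have : w.mfn l T h m q = 0 := by
      by_contra hc
      exact hq (oic_supp w l T h m hc)
    rw [this]
    refine Finset.sum_eq_zero (fun p _ => ?_)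
    rw [key, this, ite_self]

theorem oid_mi_add (w : Str S) (l : ℕ) {V : Type} [AddCommGroup V] [Module k V] (T : V ≃ₗ[k] V)
    (h : w.PerOK l T) (p : ℤ) (v : V) : w.mi l T h (p + l) v = w.mi l T h p (T v) := by
  by_cases hp : p ∈ w.Z
  · have hp' : p + l ∈ w.Z := (w.Zper h p).2 hp
    have h1 : w.mi l T h p = ((w.LB l T h).spr p).codRestrict _ (fun v => (w.LB l T h).spr_mem hp v) :=
      dif_pos hp
    have h2 : w.mi l T h (p + l) =
        ((w.LB l T h).spr (p + l)).codRestrict _ (fun v => (w.LB l T h).spr_mem hp' v) := dif_pos hp'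
    rw [h1, h2]
    exact Subtype.ext ((w.LB l T h).spr_add_l p v)
  · have hp' : p + l ∉ w.Z := fun hc => hp ((w.Zper h p).1 hc)
    have h1 : w.mi l T h p = 0 := dif_neg hp
    have h2 : w.mi l T h (p + l) = 0 := dif_neg hp'
    rw [h1, h2]
    rfl

theorem oid_fund_op {w : Str S} {l : ℕ} {F : Finset ℤ} (hF : Fund w l F) : Fund w.op l F :=
  ⟨hF.band, fun h p => (hF.str h p).trans (w.op_Z p).symm⟩

/-- the pairing as a bilinear map -/
noncomputable def oidPair (w : Str S) (l : ℕ) (F : Finset ℤ) {V V' : Type}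
    [AddCommGroup V] [Module k V] [AddCommGroup V'] [Module k V'] (T : V ≃ₗ[k] V) (T' : V' ≃ₗ[k] V')
    (h : w.PerOK l T) (h' : w.op.PerOK l T') (β : V' →ₗ[k] V →ₗ[k] k) :
    (w.op.ME l T' h').C →ₗ[k] (w.ME l T h).C →ₗ[k] k :=
  LinearMap.mk₂ k (fun m' m => ∑ p ∈ F, β (w.op.mfn l T' h' m' p) (w.mfn l T h m p))
    (fun a a' b => by
      rw [← Finset.sum_add_distrib]
      refine Finset.sum_congr rfl (fun p _ => ?_)
      have : w.op.mfn l T' h' (a + a') p = w.op.mfn l T' h' a p + w.op.mfn l T' h' a' p := rfl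
      rw [this, map_add, LinearMap.add_apply])
    (fun c a b => by
      rw [Finset.smul_sum]
      refine Finset.sum_congr rfl (fun p _ => ?_)
      have : w.op.mfn l T' h' (c • a) p = c • w.op.mfn l T' h' a p := rfl
      rw [this, map_smul, LinearMap.smul_apply])
    (fun a b b' => by
      rw [← Finset.sum_add_distrib]
      refine Finset.sum_congr rfl (fun p _ => ?_)
      have : w.mfn l T h (b + b') p = w.mfn l T h b p + w.mfn l T h b' p := rfl
      rw [this, map_add])
    (fun c a b => by
      rw [Finset.smul_sum]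
      refine Finset.sum_congr rfl (fun p _ => ?_)
      have : w.mfn l T h (c • b) p = c • w.mfn l T h b p := rfl
      rw [this, map_smul])

theorem oidPair_apply (w : Str S) (l : ℕ) (F : Finset ℤ) {V V' : Type}
    [AddCommGroup V] [Module k V] [AddCommGroup V'] [Module k V'] (T : V ≃ₗ[k] V) (T' : V' ≃ₗ[k] V')
    (h : w.PerOK l T) (h' : w.op.PerOK l T') (β : V' →ₗ[k] V →ₗ[k] k) (m' : (w.op.ME l T' h').C)
    (m : (w.ME l T h).C) :
    oidPair w l F T T' h h' β m' m = ∑ p ∈ F, β (w.op.mfn l T' h' m' p) (w.mfn l T h m p) := rfl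

/-- If `β` identifies `V'` with the dual of `V` then the module of `w.op` is the dual of the module of `w`.

Proof: the map `m' ↦ (m ↦ ∑ p ∈ F, β (m' p) (m p))` is a homomorphism (`ME_adj`); injective by `ME_pair_right` (for
`p ∈ F`; all values of `m'` are determined by those on `F`); surjective: for a functional `ψ` put `m' p := β⁻¹ (ψ ∘ mi p)`
(in the line module because `mi (p + l) = mi p ∘ T`), and use that the elements `mi p v`, `p ∈ F`, span. -/
theorem ME_dual (w : Str S) (l : ℕ) (hl : l = 0 → w.Fin) {F : Finset ℤ} (hF : Fund w l F) {V V' : Type}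
    [AddCommGroup V] [Module k V] [AddCommGroup V'] [Module k V'] (T : V ≃ₗ[k] V) (T' : V' ≃ₗ[k] V')
    (h : w.PerOK l T) (h' : w.op.PerOK l T') (β : V' →ₗ[k] V →ₗ[k] k) (hβ : ∀ a b, β (T' a) (T b) = β a b)
    (hb : Function.Bijective β) :
    ∃ e : (w.op.ME l T' h').C ≃ₗ[k] Dual k (w.ME l T h).C, (w.op.ME l T' h').Hom (w.ME l T h).dual e.toLinearMap ∧
      ∀ m' m, e m' m = ∑ p ∈ F, β (w.op.mfn l T' h' m' p) (w.mfn l T h m p) := by
  have hbij : Function.Bijective (oidPair w l F T T' h h' β) := by
    constructor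
    · rw [injective_iff_map_eq_zero]
      intro m' hm'
      apply oid_ext
      intro p
      show w.op.mfn l T' h' m' p = 0
      apply hb.1
      rw [map_zero]
      ext v
      rw [← ME_pair_right w l hF T T' h h' β hβ m' p v, ← oidPair_apply, hm']
      rfl
    · intro ψ
      let B : V' ≃ₗ[k] (V →ₗ[k] k) := LinearEquiv.ofBijective β hb
      have hB : ∀ (φ : V →ₗ[k] k) (v : V), β (B.symm φ) v = φ v := by
        intro φ v
        have h1 : B (B.symm φ) = φ := B.apply_symm_apply φ
        exact congrArg (fun f => f v) h1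
      have hmem : (fun p => B.symm (ψ ∘ₗ w.mi l T h p)) ∈ (w.op.LB l T' h').S := by
        constructor
        · intro p hp
          have hp' : p ∉ w.Z := fun hc => hp ((w.op_Z p).2 hc)
          have h1 : w.mi l T h p = 0 := dif_neg hp'
          show B.symm (ψ ∘ₗ w.mi l T h p) = 0
          rw [h1, LinearMap.comp_zero, map_zero]
        · intro p
          show T' (B.symm (ψ ∘ₗ w.mi l T h (p + l))) = B.symm (ψ ∘ₗ w.mi l T h p)
          apply hb.1
          ext v
          have h1 := hβ (B.symm (ψ ∘ₗ w.mi l T h (p + l))) (T.symm v)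
          rw [T.apply_symm_apply] at h1
          rw [h1, hB, hB, LinearMap.comp_apply, LinearMap.comp_apply, oid_mi_add, T.apply_symm_apply]
      refine ⟨(show (w.op.ME l T' h').C from (⟨_, hmem⟩ : (w.op.LB l T' h').S)), ?_⟩
      ext m
      rw [oidPair_apply]
      have h2 : ∀ p ∈ F, β (w.op.mfn l T' h' (show (w.op.ME l T' h').C from
          (⟨_, hmem⟩ : (w.op.LB l T' h').S)) p) (w.mfn l T h m p) = ψ (w.mi l T h p (w.mfn l T h m p)) := by
        intro p _
        exact hB _ _
      rw [Finset.sum_congr rfl h2, ← map_sum, oid_decomp w l hF]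
  refine ⟨LinearEquiv.ofBijective _ hbij, ?_, fun m' m => rfl⟩
  intro g m'
  exact LinearMap.ext fun m => ME_adj w l hF T T' h h' β hβ g m m'

/-- If `β` identifies `V` with the dual of `V'` then the module of `w` is the dual of the module of `w.op`. -/
theorem ME_codual (w : Str S) (l : ℕ) (hl : l = 0 → w.Fin) {F : Finset ℤ} (hF : Fund w l F) {V V' : Type}
    [AddCommGroup V] [Module k V] [AddCommGroup V'] [Module k V'] (T : V ≃ₗ[k] V) (T' : V' ≃ₗ[k] V')
    (h : w.PerOK l T) (h' : w.op.PerOK l T') (β : V' →ₗ[k] V →ₗ[k] k) (hβ : ∀ a b, β (T' a) (T b) = β a b)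
    (hb : Function.Bijective β.flip) :
    ∃ e : (w.ME l T h).C ≃ₗ[k] Dual k (w.op.ME l T' h').C, (w.ME l T h).Hom (w.op.ME l T' h').codual e.toLinearMap ∧
      ∀ m m', e m m' = ∑ p ∈ F, β (w.op.mfn l T' h' m' p) (w.mfn l T h m p) := by
  have hbij : Function.Bijective (oidPair w l F T T' h h' β).flip := by
    constructor
    · rw [injective_iff_map_eq_zero]
      intro m hm
      apply oid_ext
      intro p
      show w.mfn l T h m p = 0
      apply hb.1
      rw [map_zero]
      ext v
      rw [LinearMap.flip_apply, ← ME_pair_left w l hF T T' h h' β hβ m p v, ← oidPair_apply]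
      exact congrArg (fun f => f (w.op.mi l T' h' p v)) hm
    · intro ψ
      let B : V ≃ₗ[k] (V' →ₗ[k] k) := LinearEquiv.ofBijective β.flip hb
      have hB : ∀ (φ : V' →ₗ[k] k) (v : V'), β v (B.symm φ) = φ v := by
        intro φ v
        have h1 : B (B.symm φ) = φ := B.apply_symm_apply φ
        exact congrArg (fun f => f v) h1
      have hmem : (fun p => B.symm (ψ ∘ₗ w.op.mi l T' h' p)) ∈ (w.LB l T h).S := by
        constructor
        · intro p hp
          have hp' : p ∉ w.op.Z := fun hc => hp ((w.op_Z p).1 hc)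
          have h1 : w.op.mi l T' h' p = 0 := dif_neg hp'
          show B.symm (ψ ∘ₗ w.op.mi l T' h' p) = 0
          rw [h1, LinearMap.comp_zero, map_zero]
        · intro p
          show T (B.symm (ψ ∘ₗ w.op.mi l T' h' (p + l))) = B.symm (ψ ∘ₗ w.op.mi l T' h' p)
          apply hb.1
          ext v
          have h1 := hβ (T'.symm v) (B.symm (ψ ∘ₗ w.op.mi l T' h' (p + l)))
          rw [T'.apply_symm_apply] at h1
          rw [LinearMap.flip_apply, LinearMap.flip_apply, h1, hB, hB, LinearMap.comp_apply, LinearMap.comp_apply,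
            oid_mi_add, T'.apply_symm_apply]
      refine ⟨(show (w.ME l T h).C from (⟨_, hmem⟩ : (w.LB l T h).S)), ?_⟩
      ext m'
      rw [LinearMap.flip_apply, oidPair_apply]
      have h2 : ∀ p ∈ F, β (w.op.mfn l T' h' m' p) (w.mfn l T h (show (w.ME l T h).C from
          (⟨_, hmem⟩ : (w.LB l T h).S)) p) = ψ (w.op.mi l T' h' p (w.op.mfn l T' h' m' p)) := by
        intro p _
        exact hB _ _
      rw [Finset.sum_congr rfl h2, ← map_sum, oid_decomp w.op l (oid_fund_op hF)]
  refine ⟨LinearEquiv.ofBijective _ hbij, ?_, fun m m' => rfl⟩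
  intro g m
  exact LinearMap.ext fun m' => (ME_adj w l hF T T' h h' β hβ g m m').symm

end StrAlg
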