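import Pool.Agent.Lib.MP_b9fd58_lc.OId
import Pool.Agent.Lib.MP_b9fd58_lc.OHg

/-!
# Opposite blocks (job OIe)
-/

set_option autoImplicit false

namespace StrAlg

open Module

variable {D : Dat} {k : Type} [Field k] {S : Sides D}

/-- the standard pairing of `k^n` -/
noncomputable def ddp (k : Type) [Field k] (n : ℕ) : (Fin n → k) →ₗ[k] (Fin n → k) →ₗ[k] k :=
  LinearMap.mk₂ k (fun a b => ∑ i, a i * b i)
    (fun a a' b => by simp only [Pi.add_apply, add_mul, Finset.sum_add_distrib])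
    (fun c a b => by simp only [Pi.smul_apply, smul_eq_mul, Finset.mul_sum, mul_assoc])
    (fun a b b' => by simp only [Pi.add_apply, mul_add, Finset.sum_add_distrib])
    (fun c a b => by simp only [Pi.smul_apply, smul_eq_mul, Finset.mul_sum]; congr 1; ext i; ring)

theorem ddp_apply (n : ℕ) (a b : Fin n → k) : ddp k n a b = ∑ i, a i * b i := rfl

theorem ddp_bij (n : ℕ) : Function.Bijective (ddp k n) := by
  constructor
  · rw [injective_iff_map_eq_zero]
    intro a ha
    funext i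
    have h1 := congrArg (fun f => f (Pi.single i (1 : k))) ha
    simp only [LinearMap.zero_apply] at h1
    rw [ddp_apply] at h1
    have h2 : ∑ j, a j * (Pi.single i (1 : k) : Fin n → k) j = a i := by
      rw [Finset.sum_eq_single i]
      · rw [Pi.single_eq_same, mul_one]
      · intro j _ hj
        rw [Pi.single_eq_of_ne hj, mul_zero]
      · intro hc
        exact absurd (Finset.mem_univ i) hc
    rw [h2] at h1
    exact h1
  · intro φ
    refine ⟨fun i => φ (Pi.single i 1), ?_⟩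
    refine LinearMap.ext fun b => ?_
    rw [ddp_apply, LinearMap.pi_apply_eq_sum_univ φ b]
    refine Finset.sum_congr rfl (fun i _ => ?_)
    rw [smul_eq_mul, mul_comm]
    congr 2
    funext j
    rw [Pi.single_apply]
    exact if_congr ⟨fun h => h.symm, fun h => h.symm⟩ rfl rfl

/-- the contragredient automorphism -/
noncomputable def cgr {n : ℕ} (T : (Fin n → k) ≃ₗ[k] (Fin n → k)) : (Fin n → k) ≃ₗ[k] (Fin n → k) :=
  (LinearEquiv.ofBijective (ddp k n) (ddp_bij n)).trans
    (T.symm.dualMap.trans (LinearEquiv.ofBijective (ddp k n) (ddp_bij n)).symm)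

theorem cgr_spec {n : ℕ} (T : (Fin n → k) ≃ₗ[k] (Fin n → k)) (a b : Fin n → k) :
    ddp k n (cgr T a) (T b) = ddp k n a b := by
  have h1 : ddp k n (cgr T a) = T.symm.dualMap (ddp k n a) :=
    (LinearEquiv.ofBijective (ddp k n) (ddp_bij n)).apply_symm_apply _
  rw [h1]
  show ddp k n a (T.symm (T b)) = ddp k n a b
  rw [T.symm_apply_apply]

theorem cgr_refl (n : ℕ) : cgr (LinearEquiv.refl k (Fin n → k)) = LinearEquiv.refl k (Fin n → k) := by
  refine LinearEquiv.ext fun a => ?_
  apply (ddp_bij (k := k) n).1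
  refine LinearMap.ext fun b => ?_
  have h1 := cgr_spec (LinearEquiv.refl k (Fin n → k)) a b
  exact h1

theorem Blk.op_ok (X : Blk S k) : X.x.op.PerOK X.l (cgr X.T) := by
  refine ⟨(Ln.op_isPer X.x.L X.l).2 X.ok.per, fun hl p => Ln.rev_ne_one.2 (X.ok.big hl p), fun hl => ?_⟩
  rw [X.ok.T0 hl]
  exact cgr_refl X.n

/-- the opposite block -/
noncomputable def Blk.op (X : Blk S k) : Blk S.op k where
  x := X.x.op
  n := X.n
  l := X.l
  T := cgr X.T
  ok := X.op_ok
  min d hd h := X.min d hd ((Str.op_per X.x d).1 h)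
  fin h := (Str.op_fin X.x).2 (X.fin h)

/-- the module of the opposite block is the dual module (`ME_dual` for `β = ddp k n`; `Blk.fn` is `Str.mfn`, `Blk.iota` is
`Str.mi`) -/
theorem Blk.op_dual (X : Blk S k) : ∃ e : X.op.M.C ≃ₗ[k] Dual k X.M.C, X.op.M.Hom X.M.dual e.toLinearMap ∧
    (∀ m' p v, e m' (X.iota p v) = ddp k X.n (X.op.fn m' p) v) ∧
    ∀ m p v', e (X.op.iota p v') m = ddp k X.n v' (X.fn m p) := by
  obtain ⟨F, hF⟩ := exists_fund X.x X.l X.fin
  obtain ⟨e, he, he2⟩ := ME_dual X.x X.l X.fin hF X.T (cgr X.T) X.ok X.op_ok (ddp k X.n) (cgr_spec X.T)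
    (ddp_bij X.n)
  refine ⟨e, he, ?_, ?_⟩
  · intro m' p v
    exact (he2 m' (X.x.mi X.l X.T X.ok p v)).trans
      (ME_pair_right X.x X.l hF X.T (cgr X.T) X.ok X.op_ok (ddp k X.n) (cgr_spec X.T) m' p v)
  · intro m p v'
    exact (he2 (X.x.op.mi X.l (cgr X.T) X.op_ok p v') m).trans
      (ME_pair_left X.x X.l hF X.T (cgr X.T) X.ok X.op_ok (ddp k X.n) (cgr_spec X.T) m p v')

end StrAlg
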