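import Pool.Agent.Lib.MP_b9fd58_lc.OIe

/-!
# The dual of a block pair (job OIf)
-/

set_option autoImplicit false

namespace StrAlg

open Module

variable {D : Dat} {k : Type} [Field k] {S : Sides D}

/-- `opn_dual` as a hypothesis (stream D) -/
def OpnDual (D : Dat) (k : Type) [Field k] : Prop :=
  ∀ p : Pr D k, p.FD → ∀ N : Md D k, p.Opn N ↔ p.dual.Opn N.dual

/-- `opn_codual` as a hypothesis (stream D) -/
def OpnCodual (D : Dat) (k : Type) [Field k] : Prop :=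
  ∀ p : Pr D k, p.FD → ∀ N : Md D.op k, p.Opn N.codual ↔ p.dual.Opn N

theorem oif_symm {D : Dat} {M N : Md D k} (e : M.C ≃ₗ[k] N.C) (he : M.Hom N e.toLinearMap) :
    N.Hom M e.symm.toLinearMap := by
  intro g n
  apply e.injective
  have h1 := he g (e.symm n)
  have h2 : e (M.Q.op g (e.symm n)) = N.Q.op g (e (e.symm n)) := h1
  show e (e.symm (N.Q.op g n)) = e (M.Q.op g (e.symm n))
  rw [h2, e.apply_symm_apply, e.apply_symm_apply]

theorem oif_comp {D : Dat} {M N P : Md D k} {f : M.C →ₗ[k] N.C} {g : N.C →ₗ[k] P.C} (hf : M.Hom N f)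
    (hg : N.Hom P g) : M.Hom P (g ∘ₗ f) := by
  intro x m
  show g (f (M.Q.op x m)) = P.Q.op x (g (f m))
  rw [hf x m, hg x (f m)]

/-- isomorphic pairs are open on the same modules -/
theorem opn_of_iso {p q : Pr D k} (e : p.A.C ≃ₗ[k] q.A.C) (he : p.A.Hom q.A e.toLinearMap) (hea : e p.a = q.a)
    (e' : p.B.C ≃ₗ[k] q.B.C) (he' : p.B.Hom q.B e'.toLinearMap) (heb : ∀ y, q.b (e' y) = p.b y) (N : Md D k) :
    p.Opn N ↔ q.Opn N := by
  constructor
  · rintro ⟨f, G, hf, hG, hne⟩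
    refine ⟨f ∘ₗ e.symm.toLinearMap, e'.toLinearMap ∘ₗ G, oif_comp (oif_symm e he) hf, oif_comp hG he', ?_⟩
    show q.b (e' (G (f (e.symm q.a)))) ≠ 0
    rw [heb, ← hea, e.symm_apply_apply]
    exact hne
  · rintro ⟨f, G, hf, hG, hne⟩
    refine ⟨f ∘ₗ e.toLinearMap, e'.symm.toLinearMap ∘ₗ G, oif_comp he hf, oif_comp hG (oif_symm e' he'), ?_⟩
    show p.b (e'.symm (G (f (e p.a)))) ≠ 0
    rw [← heb, hea, e'.apply_symm_apply]
    exact hne

/-- isomorphic modules have the same open pairs -/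
theorem opn_iso {M N : Md D k} (e : M.C ≃ₗ[k] N.C) (he : M.Hom N e.toLinearMap) (p : Pr D k) :
    p.Opn M ↔ p.Opn N := by
  constructor
  · rintro ⟨f, G, hf, hG, hne⟩
    refine ⟨e.toLinearMap ∘ₗ f, G ∘ₗ e.symm.toLinearMap, oif_comp hf he, oif_comp (oif_symm e he) hG, ?_⟩
    show p.b (G (e.symm (e (f p.a)))) ≠ 0
    rw [e.symm_apply_apply]
    exact hne
  · rintro ⟨f, G, hf, hG, hne⟩
    refine ⟨e.symm.toLinearMap ∘ₗ f, G ∘ₗ e.toLinearMap, oif_comp hf (oif_symm e he), oif_comp he hG, ?_⟩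
    show p.b (G (e (e.symm (f p.a)))) ≠ 0
    rw [e.apply_symm_apply]
    exact hne

theorem Pr.dual_fd {p : Pr D k} (hp : p.FD) : p.dual.FD := by
  have h1 : FiniteDimensional k p.A.C := hp.1
  have h2 : FiniteDimensional k p.B.C := hp.2
  have h3 : FiniteDimensional k (Dual k p.A.C) := inferInstance
  have h4 : FiniteDimensional k (Dual k p.B.C) := inferInstance
  exact ⟨h4, h3⟩

theorem bpr_fd (X Y : Blk S k) (a : X.M.C) (b : Dual k Y.M.C) : (bpr X Y a b).FD := ⟨X.fd, Y.fd⟩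

/-- **the dual of a block pair** (`Blk.op_dual` for `X` and `Y`; `b' := e_Y.symm b`, `a' m' := e_X m' a`) -/
theorem exists_bpr_op (h1 : OpnDual D k) (h2 : OpnCodual D k) (X Y : Blk S k) (a : X.M.C) (b : Dual k Y.M.C) :
    ∃ (b' : Y.op.M.C) (a' : Dual k X.op.M.C), (∀ p v, ddp k Y.n (Y.op.fn b' p) v = Y.cf b p v) ∧
      (∀ p v, X.op.cf a' p v = ddp k X.n v (X.fn a p)) ∧
      (∀ M : Md D.op k, (bpr Y.op X.op b' a').Opn M ↔ (bpr X Y a b).Opn M.codual) ∧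
      (∀ N : Md D k, (bpr Y.op X.op b' a').Opn N.dual ↔ (bpr X Y a b).Opn N) := by
  obtain ⟨eX, hX, hX1, hX2⟩ := X.op_dual
  obtain ⟨eY, hY, hY1, hY2⟩ := Y.op_dual
  have hb : eY (eY.symm b) = b := eY.apply_symm_apply b
  refine ⟨eY.symm b, (Dual.eval k X.M.C a) ∘ₗ eX.toLinearMap, ?_, ?_, ?_, ?_⟩
  · intro p v
    rw [← hY1, hb]
    rfl
  · intro p v
    exact hX2 a p v
  · intro M
    refine Iff.trans ?_ (h2 (bpr X Y a b) (bpr_fd X Y a b) M).symm
    exact opn_of_iso (p := bpr Y.op X.op (eY.symm b) ((Dual.eval k X.M.C a) ∘ₗ eX.toLinearMap))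
      (q := (bpr X Y a b).dual) eY hY hb eX hX (fun y => rfl) M
  · intro N
    refine Iff.trans ?_ (h1 (bpr X Y a b) (bpr_fd X Y a b) N).symm
    exact opn_of_iso (p := bpr Y.op X.op (eY.symm b) ((Dual.eval k X.M.C a) ∘ₗ eX.toLinearMap))
      (q := (bpr X Y a b).dual) eY hY hb eX hX (fun y => rfl) N.dual

end StrAlg
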