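import Pool.Agent.Lib.MP_b9fd58_lc.OIe

/-!
# The criterion and the opposite (job OIg)
-/

set_option autoImplicit false

namespace StrAlg

open Module

variable {D : Dat} {k : Type} [Field k] {S : Sides D}

theorem oig_beq (e o : Bool) : ((e == o) == o) = e := by cases e <;> cases o <;> rfl

theorem oig_WLe {u v u' v' : Wd} (hu : ∀ n, u' n = Fin.rev (u n)) (hv : ∀ n, v' n = Fin.rev (v n)) :
    WLe u' v' ↔ WLe v u := by
  unfold WLe
  refine forall_congr' (fun n => ?_)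
  rw [hu, hv, Fin.rev_le_rev]
  constructor
  · intro h h'
    exact h (fun i hi => by rw [hu, hv, h' i hi])
  · intro h h'
    refine h (fun i hi => ?_)
    have := h' i hi
    rw [hu, hv] at this
    exact (Fin.rev_inj.1 this).symm

theorem oig_Agr {u v u' v' : Wd} (hu : ∀ n, u' n = Fin.rev (u n)) (hv : ∀ n, v' n = Fin.rev (v n)) (n : ℕ) :
    Agr u' v' n ↔ Agr v u n := by
  unfold Agr
  refine forall_congr' (fun i => forall_congr' (fun _ => ?_))
  rw [hu, hv]
  constructor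
  · rintro ⟨h1, h2⟩
    have h3 := Fin.rev_inj.1 h1
    exact ⟨h3.symm, by rw [← h3]; exact Ln.rev_ne_one.1 h2⟩
  · rintro ⟨h1, h2⟩
    rw [h1] at h2
    exact ⟨by rw [h1], Ln.rev_ne_one.2 h2⟩

theorem Mt_op {X Y : Ln (Fin D.nV) S.nx} {o : Bool} {p q : ℤ} : Mt Y.op X.op o q p ↔ Mt X Y o p q := by
  constructor
  · rintro ⟨h1, h2⟩
    refine ⟨h1.symm, ?_⟩
    rw [← h2]
    show (X.r p == Y.r q) = (Y.r q == X.r p)
    cases X.r p <;> cases Y.r q <;> rfl
  · rintro ⟨h1, h2⟩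
    refine ⟨h1.symm, ?_⟩
    rw [← h2]
    show (Y.r q == X.r p) = (X.r p == Y.r q)
    cases X.r p <;> cases Y.r q <;> rfl

theorem LeD_op {X Y : Ln (Fin D.nV) S.nx} {o : Bool} {p q : ℤ} : LeD Y.op X.op o q p ↔ LeD X Y o p q := by
  have key : ∀ e, WLe (X.op.wdd (e == o) p) (Y.op.wdd e q) ↔ WLe (Y.wdd e q) (X.wdd (e == o) p) := fun e =>
    oig_WLe (fun n => Ln.op_wdd X (e == o) p n) (fun n => Ln.op_wdd Y e q n)
  constructor
  · intro h e
    have h1 := (key (e == o)).1 (h (e == o))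
    rw [oig_beq] at h1
    exact h1
  · intro h e
    refine (key e).2 ?_
    have h1 := h (e == o)
    rw [oig_beq] at h1
    exact h1

theorem AgD_op {X Y : Ln (Fin D.nV) S.nx} {o e : Bool} {p q : ℤ} {n : ℕ} :
    AgD Y.op X.op o e q p n ↔ AgD X Y o (e == o) p q n := by
  have key : Agr (Y.op.wdd e q) (X.op.wdd (e == o) p) n ↔ Agr (X.wdd (e == o) p) (Y.wdd e q) n :=
    oig_Agr (fun n => Ln.op_wdd Y e q n) (fun n => Ln.op_wdd X (e == o) p n) n
  unfold AgD
  rw [oig_beq]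
  exact key

theorem FinCl_op {X Y : Ln (Fin D.nV) S.nx} {o : Bool} {p q : ℤ} : FinCl Y.op X.op o q p ↔ FinCl X Y o p q := by
  constructor
  · intro h e
    obtain ⟨n, hn⟩ := h (e == o)
    refine ⟨n, fun hc => hn ?_⟩
    rw [AgD_op, oig_beq]
    exact hc
  · intro h e
    obtain ⟨n, hn⟩ := h (e == o)
    exact ⟨n, fun hc => hn (AgD_op.1 hc)⟩

/-- the length of a run -/
noncomputable def oigLen (P : ℕ → Prop) : ℕ :=
  open Classical in if h : ∃ n, ¬ P (n + 1) then Nat.find h else 0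

theorem oig_lenD {X Y : Ln (Fin D.nV) S.nx} {o e : Bool} {p q : ℤ} :
    lenD Y.op X.op o e q p = lenD X Y o (e == o) p q := by
  have h1 : lenD Y.op X.op o e q p = oigLen (AgD Y.op X.op o e q p) := rfl
  have h2 : lenD X Y o (e == o) p q = oigLen (AgD X Y o (e == o) p q) := rfl
  rw [h1, h2]
  congr 1
  funext n
  exact propext AgD_op

/-- `Ω` and the opposite: reindex `i ↦ i` (`o = true`) or `i ↦ -i` (`o = false`) -/
theorem Om_op (X Y : Blk S k) (a : X.M.C) (b : Dual k Y.M.C) (b' : Y.op.M.C) (a' : Dual k X.op.M.C)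
    (h1 : ∀ p v, ddp k Y.n (Y.op.fn b' p) v = Y.cf b p v) (h2 : ∀ p v, X.op.cf a' p v = ddp k X.n v (X.fn a p))
    (κ' : (Fin Y.n → k) →ₗ[k] (Fin X.n → k)) (κ : (Fin X.n → k) →ₗ[k] (Fin Y.n → k))
    (hκ : ∀ x y, ddp k X.n (κ' y) x = ddp k Y.n y (κ x)) (o : Bool) (p r : ℤ) :
    Om Y.op.x.L X.op.x.L (Y.op.fn b') (X.op.cf a') κ' o r p = Om X.x.L Y.x.L (X.fn a) (Y.cf b) κ o p r := by
  have hterm : ∀ i : ℤ, X.op.cf a' (stn o i p) (κ' (Y.op.fn b' (r + i))) =
      Y.cf b (r + i) (κ (X.fn a (stn o i p))) := by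
    intro i
    refine (h2 _ _).trans ?_
    refine (hκ _ _).trans ?_
    exact h1 _ _
  have hl : ∀ e, lenD Y.op.x.L X.op.x.L o e r p = lenD X.x.L Y.x.L o (e == o) p r := fun e => oig_lenD
  unfold Om
  rw [hl, hl]
  cases o
  · refine Finset.sum_nbij' (fun i => -i) (fun i => -i) ?_ ?_ ?_ ?_ ?_
    · intro i hi
      rw [Finset.mem_Icc] at hi ⊢
      have e1 : (false == false) = true := rfl
      have e2 : (true == false) = false := rfl
      rw [e1, e2] at hi
      constructor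
      · linarith [hi.2]
      · linarith [hi.1]
    · intro i hi
      rw [Finset.mem_Icc] at hi ⊢
      have e1 : (false == false) = true := rfl
      have e2 : (true == false) = false := rfl
      rw [e1, e2]
      constructor
      · linarith [hi.2]
      · linarith [hi.1]
    · intro i _; ring
    · intro i _; ring
    · intro i _
      refine (hterm i).trans ?_
      have e1 : stn false (-i) r = r + i := by simp
      have e2 : p + -i = stn false i p := by simp; ring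
      rw [e1, e2]
  · refine Finset.sum_congr rfl (fun i _ => ?_)
    exact hterm i

theorem oig_transpose {m n : ℕ} (κ' : (Fin m → k) →ₗ[k] (Fin n → k)) :
    ∃ κ : (Fin n → k) →ₗ[k] (Fin m → k), ∀ x y, ddp k n (κ' y) x = ddp k m y (κ x) := by
  refine ⟨LinearMap.pi (fun j => ddp k n (κ' (Pi.single j 1))), fun x y => ?_⟩
  have e1 : y = ∑ j, y j • (Pi.single j (1 : k) : Fin m → k) := pi_eq_sum_univ' y
  have e2 : ddp k m y (LinearMap.pi (fun j => ddp k n (κ' (Pi.single j 1))) x) =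
      ∑ j, y j * ddp k n (κ' (Pi.single j 1)) x := by
    rw [ddp_apply]
    rfl
  rw [e2]
  conv_lhs => rw [e1]
  rw [map_sum, map_sum, LinearMap.sum_apply]
  refine Finset.sum_congr rfl (fun j _ => ?_)
  rw [map_smul, map_smul]
  rfl

/-- **the criterion and the opposite** -/
theorem critB_op (X Y : Blk S k) (a : X.M.C) (b : Dual k Y.M.C) (b' : Y.op.M.C) (a' : Dual k X.op.M.C)
    (h1 : ∀ p v, ddp k Y.n (Y.op.fn b' p) v = Y.cf b p v) (h2 : ∀ p v, X.op.cf a' p v = ddp k X.n v (X.fn a p))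
    (w : Str S) (h : CritB X Y a b w) : CritB Y.op X.op b' a' w.op := by
  intro o o' p q r hp hq hr hm1 hm2 hl1 hl2 hf1 hf2 κ'
  replace hp : p ∈ Y.x.Z := (Str.op_Z Y.x p).1 hp
  replace hq : q ∈ w.Z := (Str.op_Z w q).1 hq
  replace hr : r ∈ X.x.Z := (Str.op_Z X.x r).1 hr
  obtain ⟨κ, hκ⟩ := oig_transpose (m := Y.n) (n := X.n) κ'
  have h3 := Om_op X Y a b b' a' h1 h2 κ' κ hκ (o == o') r p
  refine h3.trans ?_
  have e5 : (o == o') = (o' == o) := by cases o <;> cases o' <;> rfl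
  rw [e5]
  exact h o' o r q p hr hq hp (Mt_op.1 hm2) (Mt_op.1 hm1) (LeD_op.1 hl2) (LeD_op.1 hl1) (FinCl_op.1 hf2)
    (FinCl_op.1 hf1) κ

end StrAlg
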