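import Pool.Agent.Lib.MP_b9fd58_lc.OIf
import Pool.Agent.Lib.MP_b9fd58_lc.OIg
import Pool.Agent.Lib.MP_b9fd58_lc.OIb
import Pool.Agent.Lib.MP_b9fd58_lc.OAa

/-!
# The outcomes and the opposite (job OIh)
-/

set_option autoImplicit false

namespace StrAlg

open Module

variable {D : Dat} {k : Type} [Field k] {S : Sides D}

/-- duals of direct summands are direct summands -/
theorem Ret_dual {M N : Md D k} (h : M.Ret N) : M.dual.Ret N.dual := by
  obtain ⟨i, r, hi, hr, hri⟩ := h
  refine ⟨r.dualMap, i.dualMap, ?_, ?_, ?_⟩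
  · intro g f
    refine LinearMap.ext fun n => ?_
    exact congrArg (fun x => (show M.C →ₗ[k] k from f) x) (hr g n).symm
  · intro g f
    refine LinearMap.ext fun n => ?_
    exact congrArg (fun x => (show N.C →ₗ[k] k from f) x) (hi g n).symm
  · refine LinearMap.ext fun f => LinearMap.ext fun n => ?_
    exact congrArg (fun x => (show M.C →ₗ[k] k from f) x) (LinearMap.congr_fun hri n)

theorem Ret_codual {M N : Md D.op k} (h : M.Ret N) : M.codual.Ret N.codual := by
  obtain ⟨i, r, hi, hr, hri⟩ := h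
  refine ⟨r.dualMap, i.dualMap, ?_, ?_, ?_⟩
  · intro g f
    refine LinearMap.ext fun n => ?_
    exact congrArg (fun x => (show M.C →ₗ[k] k from f) x) (hr g n).symm
  · intro g f
    refine LinearMap.ext fun n => ?_
    exact congrArg (fun x => (show N.C →ₗ[k] k from f) x) (hi g n).symm
  · refine LinearMap.ext fun f => LinearMap.ext fun n => ?_
    exact congrArg (fun x => (show M.C →ₗ[k] k from f) x) (LinearMap.congr_fun hri n)

/-- isomorphic modules are retracts of each other -/
theorem oih_iso_ret {M N : Md D k} (e : M.C ≃ₗ[k] N.C) (he : M.Hom N e.toLinearMap) : M.Ret N := by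
  refine ⟨e.toLinearMap, e.symm.toLinearMap, he, ?_, ?_⟩
  · intro g n
    apply e.injective
    have h1 := he g (e.symm n)
    have h2 : e (e.symm n) = n := e.apply_symm_apply n
    show e (e.symm (N.Q.op g n)) = e (M.Q.op g (e.symm n))
    rw [e.apply_symm_apply]
    have h3 : e (M.Q.op g (e.symm n)) = N.Q.op g (e (e.symm n)) := h1
    rw [h3, h2]
  · exact LinearMap.ext fun m => e.symm_apply_apply m

/-- pairs of finite-dimensional modules do not distinguish `N` and its double dual -/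
theorem opn_dd (h1 : OpnDual D k) (h2 : OpnCodual D k) (N : Md D k) (p : Pr D k) (hp : p.FD) :
    p.Opn N.dual.codual ↔ p.Opn N := by
  rw [h2 p hp N.dual, h1 p hp N]

/-- `OutA` over the opposite data for `N.dual` gives `OutA` for `N.dual.codual`: `w' = w.op` (`Str.op_unop`),
`Open_codual`, `Ret_codual`, `critB_op`, `Str.op_aper` -/
theorem outA_op (X Y : Blk S k) (a : X.M.C) (b : Dual k Y.M.C)
    (b' : Y.op.M.C) (a' : Dual k X.op.M.C) (h3 : ∀ p v, ddp k Y.n (Y.op.fn b' p) v = Y.cf b p v)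
    (h4 : ∀ p v, X.op.cf a' p v = ddp k X.n v (X.fn a p)) (N : Md D k) (h : OutA Y.op X.op b' a' N.dual) :
    OutA X Y a b N.dual.codual := by
  obtain ⟨w', hw, hc, M, hM, ho⟩ := h
  obtain ⟨w, rfl⟩ : ∃ w : Str S, w' = w.op := ⟨w'.unop, (Str.op_unop w').symm⟩
  refine ⟨w, (Str.op_aper w).1 hw, fun h5 => hc (critB_op X Y a b b' a' h3 h4 w h5), M.codual,
    Ret_codual hM, ?_⟩
  have h6 := Open_codual M w.op ho
  rwa [Str.unop_op] at h6

/-- Proof: `c' = w.op` (`Str.op_unop`); `ME_codual` for `w` with the coefficient space `Dual k V` and the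
automorphism `T.symm.dualMap` (`β v φ = φ v`); `opn_iso`, `Ret_codual`, `Str.op_minPer`. -/
theorem outB_op (Can : Set (Str S)) (X Y : Blk S k) (a : X.M.C)
    (b : Dual k Y.M.C) (b' : Y.op.M.C) (a' : Dual k X.op.M.C)
    (h3 : ∀ M : Md D.op k, (bpr Y.op X.op b' a').Opn M ↔ (bpr X Y a b).Opn M.codual) (N : Md D k)
    (h : OutB {x : Str S.op | x.unop ∈ Can} Y.op X.op b' a' N.dual) : OutB Can X Y a b N.dual.codual := by
  obtain ⟨c, hc, l, hl, V, iV, iV', T, h, ho, hM⟩ := h
  obtain ⟨w, rfl⟩ : ∃ w : Str S, c = w.op := ⟨c.unop, (Str.op_unop c).symm⟩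
  have hwC : w ∈ Can := by
    have h5 : w.op.unop ∈ Can := hc
    rwa [Str.unop_op] at h5
  have hlw : w.MinPer l := (Str.op_minPer w l).1 hl
  have hl0 : 0 < l := hlw.1
  have hw : w.PerOK l (T.symm.dualMap : Dual k V ≃ₗ[k] Dual k V) :=
    { per := (Ln.op_isPer w.L l).1 h.per
      big := fun _ => hlw.2.1.2
      T0 := fun h0 => absurd h0 hl0.ne' }
  obtain ⟨F, hF⟩ := exists_fund w l (fun h0 => absurd h0 hl0.ne')
  obtain ⟨e, he, -⟩ := ME_codual w l (fun h0 => absurd h0 hl0.ne') hF
    (T.symm.dualMap : Dual k V ≃ₗ[k] Dual k V) T hw h (Dual.eval k V)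
    (fun v φ => congrArg φ (T.symm_apply_apply v))
    (by
      have h5 : (Dual.eval k V).flip = LinearMap.id := LinearMap.ext fun φ => LinearMap.ext fun v => rfl
      rw [h5]
      exact Function.bijective_id)
  refine ⟨w, hwC, l, hlw, Dual k V, inferInstance, inferInstance, T.symm.dualMap, hw, ?_, ?_⟩
  · exact (opn_iso (M := w.ME l (T.symm.dualMap : Dual k V ≃ₗ[k] Dual k V) hw)
      (N := (w.op.ME l T h).codual) e he (bpr X Y a b)).2 ((h3 _).1 ho)
  · exact wRet_trans (oih_iso_ret (M := w.ME l (T.symm.dualMap : Dual k V ≃ₗ[k] Dual k V) hw)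
      (N := (w.op.ME l T h).codual) e he) (Ret_codual hM)

end StrAlg
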