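import Pool.Agent.Lib.MP_b9fd58_lc.OIa

/-!
# Opposite strings: positions, periods, alignment (job OIj)
-/

set_option autoImplicit false

namespace StrAlg

open Module

variable {D : Dat} {S : Sides D}

theorem Str.op_Z (w : Str S) (p : ℤ) : p ∈ w.op.Z ↔ p ∈ w.Z :=
  Ln.op_reach w.L 0 p

theorem Str.op_fin (w : Str S) : w.op.Fin ↔ w.Fin := by
  have h : w.op.Z = w.Z := by
    ext p
    exact w.op_Z p
  unfold Str.Fin
  rw [h]

theorem Ln.op_isPer (L : Ln (Fin D.nV) S.nx) (l : ℕ) : L.op.IsPer l ↔ L.IsPer l := by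
  constructor
  · intro h
    exact ⟨fun a => Fin.rev_inj.1 (h.lam a), h.v, h.r⟩
  · intro h
    exact ⟨fun a => congrArg Fin.rev (h.lam a), h.v, h.r⟩

theorem Str.op_per (w : Str S) (l : ℕ) : w.op.Per l ↔ w.Per l := by
  unfold Str.Per
  refine and_congr (Ln.op_isPer w.L l) (forall_congr' fun p => ?_)
  exact Ln.rev_ne_one

theorem Str.op_aper (w : Str S) : w.op.Aper ↔ w.Aper := by
  unfold Str.Aper
  simp only [Str.op_per]

theorem Str.op_minPer (w : Str S) (l : ℕ) : w.op.MinPer l ↔ w.MinPer l := by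
  unfold Str.MinPer
  simp only [Str.op_per]

theorem Ln.op_wdd (L : Ln (Fin D.nV) S.nx) (e : Bool) (p : ℤ) (n : ℕ) :
    L.op.wdd e p n = Fin.rev (L.wdd e p n) :=
  Ln.op_lt L e (stn e n p)

theorem OIj_wd (L : Ln (Fin D.nV) S.nx) (p : ℤ) (s : Bool) (n : ℕ) :
    L.op.wd p s n = Fin.rev (L.wd p s n) :=
  Ln.op_wdd L (s == L.r p) p n

theorem Str.op_al (x y : Str S) (p q : ℤ) : Al x.op y.op p q ↔ Al x y p q := by
  unfold Al
  refine and_congr Iff.rfl (forall_congr' fun s => ?_)
  constructor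
  · intro h
    funext n
    have h1 := congrFun h n
    have h2 : x.L.op.wd p s n = y.L.op.wd q s n := h1
    rw [OIj_wd, OIj_wd] at h2
    exact Fin.rev_inj.1 h2
  · intro h
    funext n
    show x.L.op.wd p s n = y.L.op.wd q s n
    rw [OIj_wd, OIj_wd, h]

/-- the opposite canonical strings -/
theorem CanOK.op {Can : Set (Str S)} (h : CanOK Can) : CanOK {x : Str S.op | x.unop ∈ Can} where
  ex w hw := by
    have e : w.unop.op = w := w.op_unop
    have hw' : w.unop.Fin ∨ ¬ w.unop.Aper := by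
      rw [← Str.op_fin, ← Str.op_aper, e]
      exact hw
    obtain ⟨b, hb, p, hp, q, hq, hal⟩ := h.ex w.unop hw'
    refine ⟨b.op, ?_, p, ?_, q, (b.op_Z q).2 hq, ?_⟩
    · show b.op.unop ∈ Can
      rw [b.unop_op]
      exact hb
    · rw [← e]
      exact (w.unop.op_Z p).2 hp
    · have h1 := (Str.op_al w.unop b p q).2 hal
      rw [e] at h1
      exact h1
  uniq x hx y hy hn p hp q hq hal := by
    have ex : x.unop.op = x := x.op_unop
    have ey : y.unop.op = y := y.op_unop
    have h1 : x.unop = y.unop := by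
      refine h.uniq x.unop hx y.unop hy ?_ p ?_ q ?_ ?_
      · rw [← Str.op_aper, ex]
        exact hn
      · rw [← Str.op_Z, ex]
        exact hp
      · rw [← Str.op_Z, ey]
        exact hq
      · rw [← Str.op_al, ex, ey]
        exact hal
    rw [← ex, ← ey, h1]

end StrAlg
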