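import Pool.Agent.Lib.MP_b9fd58_lc.OIh
import Pool.Agent.Lib.MP_b9fd58_lc.OHf

/-!
# Theorem O for block pairs (job OJa)
-/

set_option autoImplicit false

namespace StrAlg

open Module

variable {D : Dat} {k : Type} [Field k] {S : Sides D}

/-- Theorem O for finite `X`: by `out_right` over the opposite data, for `Y.op`, `X.op` and `N.dual`
(`exists_bpr_op`, `wNice_dual`, `CanOK.op`, `outA_op`, `outB_op`). -/
theorem out_left (h1 : OpnDual D k) (h2 : OpnCodual D k) (hT : ThmT S.op k) (Can : Set (Str S)) (hC : CanOK Can)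
    (X Y : Blk S k) (hX : X.l = 0) (hY : Y.x ∈ Can) (a : X.M.C) (b : Dual k Y.M.C) (N : Md D k)
    (h : (bpr X Y a b).Opn N) : OutA X Y a b N.dual.codual ∨ OutB Can X Y a b N.dual.codual := by
  obtain ⟨b', a', h3, h4, h5, h6⟩ := exists_bpr_op h1 h2 X Y a b
  have hY' : Y.op.x ∈ {x : Str S.op | x.unop ∈ Can} := by
    show Y.x.op.unop ∈ Can
    rw [Str.unop_op]
    exact hY
  rcases out_right hT {x : Str S.op | x.unop ∈ Can} hC.op Y.op X.op hY' hX b' a' N.dual (wNice_dual N)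
    ((h6 N).2 h) with hA | hB
  · exact Or.inl (outA_op X Y a b b' a' h3 h4 N hA)
  · exact Or.inr (outB_op Can X Y a b b' a' h5 N hB)

/-- Theorem O for a block pair.

Proof: if `0 < X.l` split off the band of `X` from `N.dual.codual` (`opn_dd`, `wNice_codual`). If the pair is open on the
band part: `OutB`. Otherwise `cside` gives a derived pair `(Z, Y)` that is open on the complement `N'`, so on
`N.dual.codual` (`opn_ret`), so on `N` (`opn_dd`): `out_left` for the derived pair and `N`. -/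
theorem out_all (h1 : OpnDual D k) (h2 : OpnCodual D k) (hT : ThmT S k) (hT' : ThmT S.op k) (Can : Set (Str S))
    (hC : CanOK Can) (X Y : Blk S k) (hX : X.x ∈ Can) (hY : Y.x ∈ Can) (a : X.M.C) (b : Dual k Y.M.C) (N : Md D k)
    (h : (bpr X Y a b).Opn N) : OutA X Y a b N.dual.codual ∨ OutB Can X Y a b N.dual.codual := by
  rcases Nat.eq_zero_or_pos X.l with h0 | h0
  · exact out_left h1 h2 hT' Can hC X Y h0 hY a b N h
  · have hP : (bpr X Y a b).Opn N.dual.codual := (opn_dd h1 h2 N _ (bpr_fd X Y a b)).2 h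
    obtain ⟨W, iW, jW, T, hh, N', hdec, hK⟩ := hT X.x X.l (X.minPer h0) N.dual.codual (wNice_codual N.dual)
    rcases opn_dec hdec _ hP with h3 | h3
    · exact Or.inr ⟨X.x, hX, X.l, X.minPer h0, W, iW, jW, T, hh, h3, SubM_ret (wDec_ret₁ hdec)⟩
    · obtain ⟨Z, a', hZ, h4, h5, h6⟩ := cside X Y h0 a b N' hK h3
      have h7 : (bpr Z Y a' b).Opn N := (opn_dd h1 h2 N _ (bpr_fd Z Y a' b)).1 (opn_ret (wDec_ret₂ hdec) _ h4)
      rcases out_left h1 h2 hT' Can hC Z Y hZ hY a' b N h7 with hA | hB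
      · obtain ⟨w, g1, g2, g3⟩ := hA
        exact Or.inl ⟨w, g1, fun hc => g2 (h6 w hc), g3⟩
      · obtain ⟨c, g1, l, g2, V, iV, jV, T', g3, g4, g5⟩ := hB
        exact Or.inr ⟨c, g1, l, g2, V, iV, jV, T', g3, h5 _ g4, g5⟩

end StrAlg
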