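import Pool.Agent.Lib.MP_b9fd58_lc.OJa

/-!
# Theorem O (job OJb)
-/

set_option autoImplicit false

namespace StrAlg

open Module

variable {D : Dat} {k : Type} [Field k] {S : Sides D}

theorem OJb_single_hom {ι : Type} [Fintype ι] [DecidableEq ι] (M : ι → Md D k) (i : ι) :
    (M i).Hom (Md.pi M) (LinearMap.single k (fun i => (M i).C) i) := by
  intro g m
  funext j
  show (LinearMap.single k (fun i => (M i).C) i ((M i).Q.op g m)) j =
    (M j).Q.op g ((LinearMap.single k (fun i => (M i).C) i m) j)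
  simp only [LinearMap.coe_single]
  by_cases h : j = i
  · subst h
    simp
  · simp [Pi.single_eq_of_ne h]

theorem OJb_proj_hom {ι : Type} [Fintype ι] (M : ι → Md D k) (i : ι) :
    (Md.pi M).Hom (M i) (LinearMap.proj i) := by
  intro g m
  rfl

/-- pairs in normal form are open iff one of their block pairs is -/
theorem wNF_opn_iff (q : NF S k) (N : Md D k) :
    q.pr.Opn N ↔ ∃ i j, (bpr (q.X i) (q.Y j) (q.a i) (q.b j)).Opn N := by
  classical
  constructor
  · rintro ⟨f, G, hf, hG, hne⟩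
    have key : q.pr.b (G (f q.pr.a)) =
        ∑ j, ∑ i, q.b j ((G (f (LinearMap.single k (fun i => ((q.X i).M).C) i (q.a i)))) j) := by
      have ha : (q.pr.a : ∀ i, ((q.X i).M).C) = ∑ i, LinearMap.single k (fun i => ((q.X i).M).C) i (q.a i) := by
        show q.a = _
        simp only [LinearMap.coe_single]
        exact (Finset.univ_sum_single q.a).symm
      have hfa : f q.pr.a = ∑ i, f (LinearMap.single k (fun i => ((q.X i).M).C) i (q.a i)) := by
        rw [← map_sum]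
        exact congrArg f ha
      rw [hfa, map_sum]
      show (∑ j, (q.b j) ∘ₗ (LinearMap.proj j : (∀ j, (q.Y j).M.C) →ₗ[k] (q.Y j).M.C))
        (∑ i, G (f (LinearMap.single k (fun i => ((q.X i).M).C) i (q.a i)))) = _
      rw [LinearMap.sum_apply]
      refine Finset.sum_congr rfl fun j _ => ?_
      rw [LinearMap.comp_apply, map_sum, map_sum]
      rfl
    rw [key] at hne
    obtain ⟨j, -, hj⟩ := Finset.exists_ne_zero_of_sum_ne_zero hne
    obtain ⟨i, -, hi⟩ := Finset.exists_ne_zero_of_sum_ne_zero hj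
    refine ⟨i, j, f ∘ₗ LinearMap.single k (fun i => ((q.X i).M).C) i,
      (LinearMap.proj j : (∀ j, (q.Y j).M.C) →ₗ[k] (q.Y j).M.C) ∘ₗ G, ?_, ?_, hi⟩
    · intro g m
      have h1 := OJb_single_hom (fun i => (q.X i).M) i g m
      show f (LinearMap.single k (fun i => ((q.X i).M).C) i (((q.X i).M).Q.op g m)) =
        N.Q.op g (f (LinearMap.single k (fun i => ((q.X i).M).C) i m))
      rw [← hf]
      exact congrArg f h1
    · intro g m
      show (G (N.Q.op g m)) j = ((q.Y j).M).Q.op g ((G m) j)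
      rw [hG]
      rfl
  · rintro ⟨i, j, f, G, hf, hG, hne⟩
    refine ⟨f ∘ₗ (LinearMap.proj i : (∀ i, (q.X i).M.C) →ₗ[k] (q.X i).M.C),
      LinearMap.single k (fun j => ((q.Y j).M).C) j ∘ₗ G, ?_, ?_, ?_⟩
    · intro g m
      show f (((q.X i).M).Q.op g (m i)) = N.Q.op g (f (m i))
      exact hf g (m i)
    · intro g m
      have h1 := OJb_single_hom (fun j => (q.Y j).M) j g (G m)
      show LinearMap.single k (fun j => ((q.Y j).M).C) j (G (N.Q.op g m)) = _
      have h2 : G (N.Q.op g m) = ((q.Y j).M).Q.op g (G m) := hG g m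
      rw [h2]
      exact h1
    · have h3 : q.pr.b ((LinearMap.single k (fun j => ((q.Y j).M).C) j) (G (f (q.a i)))) =
          q.b j (G (f (q.a i))) := by
        show (∑ j, (q.b j) ∘ₗ (LinearMap.proj j : (∀ j, (q.Y j).M.C) →ₗ[k] (q.Y j).M.C))
          (LinearMap.single k (fun j => ((q.Y j).M).C) j (G (f (q.a i)))) = _
        rw [LinearMap.sum_apply, Finset.sum_eq_single j]
        · simp
        · intro j' _ hj'
          simp [Pi.single_eq_of_ne hj']
        · intro h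
          exact absurd (Finset.mem_univ j) h
      show q.pr.b ((LinearMap.single k (fun j => ((q.Y j).M).C) j) (G (f (q.a i)))) ≠ 0
      rw [h3]
      exact hne

theorem wNF_fd (q : NF S k) : q.pr.FD := by
  constructor
  · have h : ∀ i, FiniteDimensional k ((q.X i).M.C) := fun i => (q.X i).fd
    show FiniteDimensional k (∀ i, (q.X i).M.C)
    infer_instance
  · have h : ∀ j, FiniteDimensional k ((q.Y j).M.C) := fun j => (q.Y j).fd
    show FiniteDimensional k (∀ j, (q.Y j).M.C)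
    infer_instance

/-- `thmA_nf` as a hypothesis (stream A) -/
def ThmA (S : Sides D) (k : Type) [Field k] : Prop :=
  ∀ (w : Str S), w.Aper → ∀ N : Md D k, w.Open N → ∀ p : NF S k, ¬ p.pr.Opn N → p.Crit w

/-- **Theorem O**, single pair (stage 2 uses this form) -/
theorem thmOcore_aux (h1 : OpnDual D k) (h2 : OpnCodual D k) (hT : ThmT S k) (hT' : ThmT S.op k)
    (Can : Set (Str S)) (hC : CanOK Can) (q : NF S k) (hq : q.InCan Can) (N : Md D k) (h : q.pr.Opn N) :
    (∃ w : Str S, w.Aper ∧ ¬ q.Crit w ∧ w.Open N.dual.codual) ∨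
    (∃ b ∈ Can, ∃ (l : ℕ) (_ : b.MinPer l) (V : Type) (_ : AddCommGroup V) (_ : Module k V) (T : V ≃ₗ[k] V)
      (h : b.PerOK l T), (b.ME l T h).Ret N.dual.codual ∧ q.pr.Opn (b.ME l T h)) := by
  obtain ⟨i, j, hij⟩ := (wNF_opn_iff q N).1 h
  rcases out_all h1 h2 hT hT' Can hC (q.X i) (q.Y j) (hq.1 i) (hq.2 j) (q.a i) (q.b j) N hij with hA | hB
  · obtain ⟨w, hw, hcr, M, hM, ho⟩ := hA
    exact Or.inl ⟨w, hw, fun hc => hcr (hc i j), w.Open_ret hM ho⟩
  · obtain ⟨b, hb, l, hl, V, _, _, T, h', ho, hs⟩ := hB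
    exact Or.inr ⟨b, hb, l, hl, V, _, _, T, h', hs, (wNF_opn_iff q _).2 ⟨i, j, ho⟩⟩

/-- **Theorem O** (closed pairs stay closed on `N.dual.codual` and its retracts: `opn_dd`, `wNF_fd`, `opn_ret`) -/
theorem thmO_aux (h1 : OpnDual D k) (h2 : OpnCodual D k) (hT : ThmT S k) (hT' : ThmT S.op k) (hA : ThmA S k)
    (Can : Set (Str S)) (hC : CanOK Can) (q : NF S k) (hq : q.InCan Can)
    (P : List (NF S k)) (h : Rlz q P) :
    (∃ w : Str S, w.Aper ∧ ¬ q.Crit w ∧ ∀ p ∈ P, p.Crit w) ∨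
    (∃ b ∈ Can, ∃ (l : ℕ) (_ : b.MinPer l) (V : Type) (_ : AddCommGroup V) (_ : Module k V) (T : V ≃ₗ[k] V)
      (h : b.PerOK l T), q.pr.Opn (b.ME l T h) ∧ ∀ p ∈ P, ¬ p.pr.Opn (b.ME l T h)) := by
  obtain ⟨N, hN, hP⟩ := h
  have hdd : ∀ p ∈ P, ¬ p.pr.Opn N.dual.codual := fun p hp hc =>
    hP p hp ((opn_dd h1 h2 N p.pr (wNF_fd p)).1 hc)
  rcases thmOcore_aux h1 h2 hT hT' Can hC q hq N hN with ⟨w, hw, hcr, ho⟩ | ⟨b, hb, l, hl, V, _, _, T, h', hr, ho⟩
  · exact Or.inl ⟨w, hw, hcr, fun p hp => hA w hw _ ho p (hdd p hp)⟩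
  · exact Or.inr ⟨b, hb, l, hl, V, _, _, T, h', ho, fun p hp hc => hdd p hp (opn_ret hr p.pr hc)⟩

end StrAlg
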