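import Pool.Agent.Lib.MP_b9fd58_lc.Reg

/-!
# Matched classes of pairs of positions and the sums `Ω`
-/

set_option autoImplicit false

namespace StrAlg

section
variable {ι : Type*} {nx : ι → Bool → Fin 3 → ι × Bool}

/-- length of the match in direction `e` (`0` if it is infinite) -/
noncomputable def lenD (X Y : Ln ι nx) (o e : Bool) (a b : ℤ) : ℕ :=
  open Classical in if h : ∃ n, ¬ AgD X Y o e a b (n + 1) then Nat.find h else 0

theorem lenD_spec {X Y : Ln ι nx} {o e : Bool} {a b : ℤ} (h : ∃ n, ¬ AgD X Y o e a b n) :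
    AgD X Y o e a b (lenD X Y o e a b) ∧ ¬ AgD X Y o e a b (lenD X Y o e a b + 1) := by
  classical
  have h' : ∃ n, ¬ AgD X Y o e a b (n + 1) := by
    obtain ⟨n, hn⟩ := h
    exact ⟨n, fun h2 => hn (h2.mono (Nat.le_succ n))⟩
  unfold lenD
  rw [dif_pos h']
  refine ⟨?_, Nat.find_spec h'⟩
  rcases Nat.eq_zero_or_pos (Nat.find h') with h0 | h0
  · rw [h0]; exact AgD.zero
  · obtain ⟨m, hm⟩ := Nat.exists_eq_succ_of_ne_zero h0.ne'
    have := Nat.find_min h' (m := m) (by omega)
    rw [hm]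
    simpa using this

theorem lenD_eq {X Y : Ln ι nx} {o e : Bool} {a b : ℤ} {n : ℕ} (h : AgD X Y o e a b n)
    (h' : ¬ AgD X Y o e a b (n + 1)) : lenD X Y o e a b = n := by
  obtain ⟨h1, h2⟩ := lenD_spec (X := X) (Y := Y) (o := o) (e := e) (a := a) (b := b) ⟨_, h'⟩
  rcases lt_trichotomy (lenD X Y o e a b) n with h3 | h3 | h3
  · exact absurd (h.mono h3) h2
  · exact h3
  · exact absurd (h1.mono h3) h'

/-- both sides of the match are finite -/
def FinCl (X Y : Ln ι nx) (o : Bool) (a b : ℤ) : Prop := ∀ e, ∃ n, ¬ AgD X Y o e a b n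

theorem AgD_step_iff {X Y : Ln ι nx} {o e : Bool} {a b : ℤ} (hl : Lk X Y o e a b) {n : ℕ} :
    AgD X Y o e (st e a) (st (e == o) b) n ↔ AgD X Y o e a b (n + 1) := by
  rw [AgD_succ]; exact ⟨fun h => ⟨hl, h⟩, fun h => h.2⟩

theorem AgD_back_iff {X Y : Ln ι nx} {o e : Bool} {a b : ℤ} (hl : Lk X Y o e a b) {n : ℕ} :
    AgD X Y o (!e) (st e a) (st (e == o) b) (n + 1) ↔ AgD X Y o (!e) a b n := by
  rw [← AgD_step_iff hl.back, beq_not, st_not_st, st_not_st]

theorem FinCl.step_iff {X Y : Ln ι nx} {o e : Bool} {a b : ℤ} (hl : Lk X Y o e a b) :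
    FinCl X Y o (st e a) (st (e == o) b) ↔ FinCl X Y o a b := by
  constructor
  · intro h e'
    by_cases he : e' = e
    · subst he
      obtain ⟨n, hn⟩ := h e'
      exact ⟨n + 1, fun h' => hn ((AgD_step_iff hl).2 h')⟩
    · have : e' = !e := by cases e <;> cases e' <;> simp_all
      subst this
      obtain ⟨n, hn⟩ := h (!e)
      exact ⟨n, fun h' => hn (((AgD_back_iff hl).2 h').mono (Nat.le_succ n))⟩
  · intro h e'
    by_cases he : e' = e
    · subst he
      obtain ⟨n, hn⟩ := h e'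
      exact ⟨n, fun h' => hn (((AgD_step_iff hl).1 h').mono (Nat.le_succ n))⟩
    · have : e' = !e := by cases e <;> cases e' <;> simp_all
      subst this
      obtain ⟨n, hn⟩ := h (!e)
      exact ⟨n + 1, fun h' => hn ((AgD_back_iff hl).1 h')⟩

theorem lenD_step {X Y : Ln ι nx} {o e : Bool} {a b : ℤ} (hl : Lk X Y o e a b) (hf : FinCl X Y o a b) :
    lenD X Y o e (st e a) (st (e == o) b) + 1 = lenD X Y o e a b ∧
    lenD X Y o (!e) (st e a) (st (e == o) b) = lenD X Y o (!e) a b + 1 := by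
  constructor
  · obtain ⟨h1, h2⟩ := lenD_spec (((FinCl.step_iff hl).2 hf) e)
    symm
    apply lenD_eq
    · exact (AgD_step_iff hl).1 h1
    · exact fun h => h2 ((AgD_step_iff hl).2 h)
  · obtain ⟨h1, h2⟩ := lenD_spec (hf (!e))
    apply lenD_eq
    · exact (AgD_back_iff hl).2 h1
    · exact fun h => h2 ((AgD_back_iff hl).1 h)

end

section om
variable {ι : Type*} {nx : ι → Bool → Fin 3 → ι × Bool}
variable {k VX VY : Type*} [Field k] [AddCommGroup VX] [Module k VX] [AddCommGroup VY] [Module k VY]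

/-- the sum over the matched class of `(a, b)` -/
noncomputable def Om (X Y : Ln ι nx) (c : ℤ → VX) (c' : ℤ → VY →ₗ[k] k) (κ : VX →ₗ[k] VY) (o : Bool) (a b : ℤ) : k :=
  ∑ i ∈ Finset.Icc (-(lenD X Y o false a b : ℤ)) (lenD X Y o true a b : ℤ), c' (stn o i b) (κ (c (a + i)))

/-- `Ω` is constant on classes -/
theorem Om_step_true {X Y : Ln ι nx} {c : ℤ → VX} {c' : ℤ → VY →ₗ[k] k} {κ : VX →ₗ[k] VY} {o : Bool} {a b : ℤ}
    (hl : Lk X Y o true a b) (hf : FinCl X Y o a b) :
    Om X Y c c' κ o (st true a) (st (true == o) b) = Om X Y c c' κ o a b := by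
  obtain ⟨h1, h2⟩ := lenD_step hl hf
  rw [Bool.not_true] at h2
  unfold Om
  rw [h2, ← h1]
  refine Finset.sum_nbij' (fun i => i + 1) (fun i => i - 1) ?_ ?_ ?_ ?_ ?_
  · intro i hi
    rw [Finset.mem_Icc] at hi ⊢
    push_cast at hi ⊢
    omega
  · intro i hi
    rw [Finset.mem_Icc] at hi ⊢
    push_cast at hi ⊢
    omega
  · intro i _; simp
  · intro i _; simp
  · intro i _
    have e1 : st true a + i = a + (i + 1) := by simp; ring
    have e2 : stn o i (st (true == o) b) = stn o (i + 1) b := by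
      cases o <;> simp <;> ring
    rw [e1, e2]

theorem Om_step {X Y : Ln ι nx} {c : ℤ → VX} {c' : ℤ → VY →ₗ[k] k} {κ : VX →ₗ[k] VY} {o e : Bool} {a b : ℤ}
    (hl : Lk X Y o e a b) (hf : FinCl X Y o a b) :
    Om X Y c c' κ o (st e a) (st (e == o) b) = Om X Y c c' κ o a b := by
  cases e with
  | true => exact Om_step_true hl hf
  | false =>
    have := Om_step_true (c := c) (c' := c') (κ := κ) hl.back ((FinCl.step_iff hl).2 hf)
    rw [← this]
    congr 1
    · simp
    · cases o <;> simp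

theorem FinCl.walk {X Y : Ln ι nx} {o e : Bool} {n : ℕ} : ∀ {a b : ℤ}, AgD X Y o e a b n →
    (FinCl X Y o (stn e n a) (stn (e == o) n b) ↔ FinCl X Y o a b) := by
  induction n with
  | zero => intro a b _; simp
  | succ n ih =>
    intro a b h
    rw [AgD_succ] at h
    have e1 : stn e (n + 1 : ℕ) a = stn e n (st e a) := by
      rw [← stn_one, stn_stn]; push_cast; ring_nf
    have e2 : stn (e == o) (n + 1 : ℕ) b = stn (e == o) n (st (e == o) b) := by
      rw [← stn_one, stn_stn]; push_cast; ring_nf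
    rw [e1, e2, ih h.2, FinCl.step_iff h.1]

theorem Om_walk {X Y : Ln ι nx} {c : ℤ → VX} {c' : ℤ → VY →ₗ[k] k} {κ : VX →ₗ[k] VY} {o e : Bool} {n : ℕ} :
    ∀ {a b : ℤ}, AgD X Y o e a b n → FinCl X Y o a b →
    Om X Y c c' κ o (stn e n a) (stn (e == o) n b) = Om X Y c c' κ o a b := by
  induction n with
  | zero => intro a b _ _; simp
  | succ n ih =>
    intro a b h hf
    rw [AgD_succ] at h
    have e1 : stn e (n + 1 : ℕ) a = stn e n (st e a) := by
      rw [← stn_one, stn_stn]; push_cast; ring_nf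
    have e2 : stn (e == o) (n + 1 : ℕ) b = stn (e == o) n (st (e == o) b) := by
      rw [← stn_one, stn_stn]; push_cast; ring_nf
    rw [e1, e2, ih h.2 ((FinCl.step_iff h.1).2 hf), Om_step h.1 hf]

/-- the sum at an end of the class -/
theorem Om_end {X Y : Ln ι nx} {c : ℤ → VX} {c' : ℤ → VY →ₗ[k] k} {κ : VX →ₗ[k] VY} {o e : Bool} {a b : ℤ} {n : ℕ}
    (h0 : ¬ Lk X Y o (!e) a b) (h1 : AgD X Y o e a b n) (h2 : ¬ AgD X Y o e a b (n + 1)) :
    Om X Y c c' κ o a b = ∑ i ∈ Finset.range (n + 1), c' (stn (e == o) i b) (κ (c (stn e i a))) := by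
  have l1 : lenD X Y o e a b = n := lenD_eq h1 h2
  have l2 : lenD X Y o (!e) a b = 0 := lenD_eq AgD.zero (fun h => h0 (AgD_succ.1 h).1)
  unfold Om
  cases e with
  | true =>
    rw [Bool.not_true] at l2
    rw [l1, l2]
    symm
    refine Finset.sum_nbij' (fun i : ℕ => (i : ℤ)) (fun i : ℤ => i.toNat) ?_ ?_ ?_ ?_ ?_
    · intro i hi
      rw [Finset.mem_range] at hi
      rw [Finset.mem_Icc]; push_cast; omega
    · intro i hi
      rw [Finset.mem_Icc] at hi
      rw [Finset.mem_range]; push_cast at hi; omega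
    · intro i _; simp
    · intro i hi
      rw [Finset.mem_Icc] at hi
      push_cast at hi
      simp; omega
    · intro i _
      cases o <;> simp
  | false =>
    rw [Bool.not_false] at l2
    rw [l1, l2]
    symm
    refine Finset.sum_nbij' (fun i : ℕ => -(i : ℤ)) (fun i : ℤ => (-i).toNat) ?_ ?_ ?_ ?_ ?_
    · intro i hi
      rw [Finset.mem_range] at hi
      rw [Finset.mem_Icc]; push_cast; omega
    · intro i hi
      rw [Finset.mem_Icc] at hi
      rw [Finset.mem_range]; push_cast at hi; omega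
    · intro i _; simp
    · intro i hi
      rw [Finset.mem_Icc] at hi
      push_cast at hi
      simp; omega
    · intro i _
      cases o <;> simp [sub_eq_add_neg]

/-- composition of matches -/
theorem AgD.trans {X w Y : Ln ι nx} {o o' e : Bool} {a q b : ℤ} {n : ℕ} (h : AgD X w o e a q n)
    (h' : AgD w Y o' (e == o) q b n) : AgD X Y (o == o') e a b n := by
  unfold AgD at *
  have : (e == (o == o')) = ((e == o) == o') := by cases e <;> cases o <;> cases o' <;> rfl
  rw [this]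
  exact Agr.trans h h'

theorem LeD.trans {X w Y : Ln ι nx} {o o' : Bool} {a q b : ℤ} (h : LeD X w o a q)
    (h' : LeD w Y o' q b) : LeD X Y (o == o') a b := by
  intro e
  have : (e == (o == o')) = ((e == o) == o') := by cases e <;> cases o <;> cases o' <;> rfl
  rw [this]
  exact (h' (e == o)).trans (h e)

theorem Mt.trans {X w Y : Ln ι nx} {o o' : Bool} {a q b : ℤ} (h : Mt X w o a q)
    (h' : Mt w Y o' q b) : Mt X Y (o == o') a b := by
  refine ⟨h.1.trans h'.1, ?_⟩
  obtain ⟨-, rfl⟩ := h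
  obtain ⟨-, rfl⟩ := h'
  cases X.r a <;> cases w.r q <;> cases Y.r b <;> rfl

/-- sandwich: a match of `X` and `Y` passes through `w` -/
theorem AgD.sandwich {X w Y : Ln ι nx} {o o' e : Bool} {a q b : ℤ} {n : ℕ} (h : LeD X w o a q)
    (h' : LeD w Y o' q b) (hn : AgD X Y (o == o') e a b n) :
    AgD X w o e a q n ∧ AgD w Y o' (e == o) q b n := by
  unfold AgD at *
  have : (e == (o == o')) = ((e == o) == o') := by cases e <;> cases o <;> cases o' <;> rfl
  rw [this] at hn
  obtain ⟨h1, h2⟩ := Agr.sandwich (h' (e == o)) (h e) hn.symm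
  exact ⟨h2.symm, h1.symm⟩

/-- The criterion for a string `w` and a pair: `Ω` vanishes at all sandwiched positions. -/
def Crit (X w Y : Ln ι nx) (PX Pw PY : ℤ → Prop) (c : ℤ → VX) (c' : ℤ → VY →ₗ[k] k) : Prop :=
  ∀ (o o' : Bool) (a q b : ℤ), PX a → Pw q → PY b → Mt X w o a q → Mt w Y o' q b → LeD X w o a q → LeD w Y o' q b →
    FinCl X w o a q → FinCl w Y o' q b → ∀ κ : VX →ₗ[k] VY, Om X Y c c' κ (o == o') a b = 0

theorem Crit.critL {X w Y : Ln ι nx} {PX Pw PY : ℤ → Prop} {c : ℤ → VX} {c' : ℤ → VY →ₗ[k] k}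
    (h : Crit X w Y PX Pw PY c c') : CritL X w Y PX Pw PY c c' := by
  intro o o' a q b n p1 p2 p3 m1 m2 l1 l2 f1 f2 hleft g1 g2 hright κ
  have boo : ∀ o : Bool, (o == o) = true := by intro o; cases o <;> rfl
  have bto : ∀ o : Bool, (true == o) = o := by intro o; cases o <;> rfl
  have hc := h o o' a q b p1 p2 p3 m1 m2 l1 l2 f1 f2 κ
  have hxy : AgD X Y (o == o') o a b n := g1.trans (by rw [boo]; exact g2)
  rw [Om_end (e := o) (n := n) ?_ hxy ?_] at hc
  · rw [← hc]
    refine Finset.sum_congr rfl ?_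
    intro i _
    have : (o == (o == o')) = o' := by cases o <;> cases o' <;> rfl
    rw [this]
  · intro hlk
    apply hleft
    have hag : AgD X Y (o == o') (!o) a b 1 := AgD_succ.2 ⟨hlk, AgD.zero⟩
    obtain ⟨s1, s2⟩ := AgD.sandwich l1 l2 hag
    have bno : ((!o) == o) = false := by cases o <;> rfl
    rw [bno] at s2
    exact ⟨(AgD_succ.1 s1).1, (AgD_succ.1 s2).1⟩
  · intro hag
    apply hright
    obtain ⟨s1, s2⟩ := AgD.sandwich l1 l2 hag
    rw [boo] at s2
    have t1 := (AgD_succ'.1 s1).2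
    have t2 := (AgD_succ'.1 s2).2
    rw [boo] at t1
    rw [bto] at t2
    exact ⟨t1, t2⟩

end om

end StrAlg
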