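import Pool.Agent.Lib.MP_b9fd58_lc.WDef

/-!
# Words: cat, absorbing words (job WBa)
-/

set_option autoImplicit false

namespace StrAlg

open Module

variable {D : Dat} {k : Type} [Field k] {N : Type} [AddCommGroup N] [Module k N]

theorem Wd.cat_apply_lt (u : Wd) (m : ℕ) (v : Wd) {j : ℕ} (h : j < m) : u.cat m v j = u j := by
  induction m generalizing u j with
  | zero => omega
  | succ m ih =>
    cases j with
    | zero => rfl
    | succ j => exact ih u.sh (by omega)

theorem Wd.cat_apply_ge (u : Wd) (m : ℕ) (v : Wd) (j : ℕ) : u.cat m v (m + j) = v j := by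
  induction m generalizing u with
  | zero => rw [Nat.zero_add]; rfl
  | succ m ih =>
    have e : m + 1 + j = (m + j) + 1 := by omega
    rw [e]
    exact ih u.sh

theorem Wd.Abs.of_le {u : Wd} (hu : u.Abs) {m n : ℕ} (h : m ≤ n) (h1 : u m = 1) : u n = 1 := by
  induction n, h using Nat.le_induction with
  | base => exact h1
  | succ n _ ih => exact hu n ih

theorem Wd.bot_abs : Wd.bot.Abs := by
  intro n h
  exact absurd h (by simp [Wd.bot])

theorem Wd.fin_abs : Wd.fin.Abs := by
  intro n _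
  rfl

theorem Wd.top_abs : Wd.top.Abs := by
  intro n h
  exact absurd h (by simp [Wd.top])

theorem Wd.cat_abs {u v : Wd} {m : ℕ} (hu : ∀ j < m, u j ≠ 1) (hv : v.Abs) : (u.cat m v).Abs := by
  intro n h
  by_cases h1 : n < m
  · rw [Wd.cat_apply_lt u m v h1] at h
    exact absurd h (hu n h1)
  · obtain ⟨j, rfl⟩ := Nat.exists_eq_add_of_le (Nat.le_of_not_lt h1)
    rw [Wd.cat_apply_ge] at h
    rw [Nat.add_assoc, Wd.cat_apply_ge]
    exact hv j h

theorem Wd.cons_abs {x : Fin 3} {u : Wd} (hx : x ≠ 1) (hu : u.Abs) : (Wd.cons x u).Abs := by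
  intro n h
  cases n with
  | zero => exact absurd h hx
  | succ n => exact hu n h

theorem Wd.Abs.sh {u : Wd} (hu : u.Abs) : u.sh.Abs := by
  intro n h
  exact hu (n + 1) h

/-- an absorbing word that starts with END is `fin` -/
theorem Wd.Abs.eq_fin {u : Wd} (hu : u.Abs) (h : u 0 = 1) : u = Wd.fin := by
  funext n
  exact hu.of_le (Nat.zero_le n) h

theorem WLe_bot (u : Wd) : WLe Wd.bot u := by
  intro n _
  exact Fin.zero_le _

theorem WLe_top (u : Wd) : WLe u Wd.top := by
  intro n _
  exact Fin.le_last _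

/-- a word between `u|m v` and `u|m v'` starts with `u|m` -/
theorem Wd.between_cat {u v v' w : Wd} {m : ℕ} (h1 : WLe (u.cat m v) w) (h2 : WLe w (u.cat m v')) :
    (∀ j < m, w j = u j) ∧ v 0 ≤ w m ∧ w m ≤ v' 0 := by
  have h3 := WLe.sandwich h1 h2 (n := m)
    (fun i hi => by rw [Wd.cat_apply_lt u m v hi, Wd.cat_apply_lt u m v' hi])
  have h4 : ∀ j < m, w j = u j := fun j hj => (h3 j hj).trans (Wd.cat_apply_lt u m v hj)
  refine ⟨h4, ?_, ?_⟩
  · have h5 := h1 m (fun i hi => (h3 i hi).symm)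
    have h6 := Wd.cat_apply_ge u m v 0
    rw [Nat.add_zero] at h6
    rwa [h6] at h5
  · have h5 := h2 m (fun i hi => (h4 i hi).trans (Wd.cat_apply_lt u m v' hi).symm)
    have h6 := Wd.cat_apply_ge u m v' 0
    rw [Nat.add_zero] at h6
    rwa [h6] at h5

theorem WLe_cat {u v v' : Wd} {m : ℕ} (h : WLe v v') : WLe (u.cat m v) (u.cat m v') := by
  induction m generalizing u with
  | zero => exact h
  | succ m ih => exact WLe_cons.2 ih

end StrAlg
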