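import Pool.Agent.Lib.MP_b9fd58_lc.WFb
import Pool.Agent.Lib.MP_b9fd58_lc.WBa

/-!
# Types of words (job PA)
-/

set_option autoImplicit false

namespace StrAlg

/-- `u` and `v` compare in the same way with the words of `A` -/
def SameTy (A : Set Wd) (u v : Wd) : Prop := ∀ a ∈ A, (WLe u a ↔ WLe v a) ∧ (WLe a u ↔ WLe a v)

theorem SameTy.refl (A : Set Wd) (u : Wd) : SameTy A u u := fun _ _ => ⟨Iff.rfl, Iff.rfl⟩

theorem SameTy.symm {A : Set Wd} {u v : Wd} (h : SameTy A u v) : SameTy A v u :=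
  fun a ha => ⟨(h a ha).1.symm, (h a ha).2.symm⟩

theorem SameTy.trans {A : Set Wd} {u v w : Wd} (h : SameTy A u v) (h' : SameTy A v w) : SameTy A u w :=
  fun a ha => ⟨(h a ha).1.trans (h' a ha).1, (h a ha).2.trans (h' a ha).2⟩

theorem pa_le {u a : Wd} {m : ℕ} (h : ∀ i < m, u i = a i) (hne : u m ≠ a m) :
    WLe u a ↔ u m ≤ a m :=
  ⟨fun h1 => h1 m h, fun h1 => WLe_of_lt h (lt_of_le_of_ne h1 hne)⟩

theorem pa_ge {u a : Wd} {m : ℕ} (h : ∀ i < m, u i = a i) (hne : u m ≠ a m) :
    WLe a u ↔ a m ≤ u m :=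
  ⟨fun h1 => h1 m (fun i hi => (h i hi).symm),
    fun h1 => WLe_of_lt (fun i hi => (h i hi).symm) (lt_of_le_of_ne h1 (Ne.symm hne))⟩

/-- types are respected by letters in front (`A` closed under the shift): compare the first letter with `a 0`, then use
`WLe_sh` -/
theorem SameTy.cons {A : Set Wd} (hA : ∀ a ∈ A, a.sh ∈ A) {u v : Wd} (h : SameTy A u v) (x : Fin 3) :
    SameTy A (Wd.cons x u) (Wd.cons x v) := by
  intro a ha
  by_cases hx : x = a 0
  · have h1 := h a.sh (hA a ha)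
    have e : a = Wd.cons x a.sh := by
      rw [hx]
      exact (Wd.cons_sh a).symm
    have e1 : ∀ w : Wd, WLe (Wd.cons x w) a ↔ WLe w a.sh := by
      intro w
      conv_lhs => rw [e]
      exact WLe_cons
    have e2 : ∀ w : Wd, WLe a (Wd.cons x w) ↔ WLe a.sh w := by
      intro w
      conv_lhs => rw [e]
      exact WLe_cons
    rw [e1, e1, e2, e2]
    exact h1
  · have e1 : ∀ w : Wd, WLe (Wd.cons x w) a ↔ x ≤ a 0 := fun w =>
      pa_le (u := Wd.cons x w) (a := a) (m := 0) (fun i hi => absurd hi (Nat.not_lt_zero i)) hx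
    have e2 : ∀ w : Wd, WLe a (Wd.cons x w) ↔ a 0 ≤ x := fun w =>
      pa_ge (u := Wd.cons x w) (a := a) (m := 0) (fun i hi => absurd hi (Nat.not_lt_zero i)) hx
    rw [e1, e1, e2, e2]
    exact ⟨Iff.rfl, Iff.rfl⟩

/-- if `v` agrees with `u` until all comparisons of `u` with the words of `A` are decided then the types are equal -/
theorem SameTy.of_agree {A : Set Wd} {u v : Wd} {n : ℕ} (h : ∀ a ∈ A, ∃ j < n, u j ≠ a j)
    (h' : ∀ j < n, u j = v j) : SameTy A u v := by
  classical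
  intro a ha
  have hex : ∃ j, u j ≠ a j := by
    obtain ⟨j, _, h1⟩ := h a ha
    exact ⟨j, h1⟩
  obtain ⟨j, hj, hja⟩ := h a ha
  have hm1 : u (Nat.find hex) ≠ a (Nat.find hex) := Nat.find_spec hex
  have hm2 : ∀ i < Nat.find hex, u i = a i := fun i hi => by
    have h2 := Nat.find_min hex hi
    push Not at h2
    exact h2
  have hm3 : Nat.find hex < n := lt_of_le_of_lt (Nat.find_min' hex hja) hj
  have hv1 : v (Nat.find hex) ≠ a (Nat.find hex) := by
    rw [← h' _ hm3]
    exact hm1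
  have hv2 : ∀ i < Nat.find hex, v i = a i := fun i hi => by
    rw [← h' i (lt_trans hi hm3)]
    exact hm2 i hi
  rw [pa_le hm2 hm1, pa_le hv2 hv1, pa_ge hm2 hm1, pa_ge hv2 hv1, h' _ hm3]
  exact ⟨Iff.rfl, Iff.rfl⟩

/-- a word equal to a word of `A` has the type of this word only -/
theorem SameTy.eq {A : Set Wd} {u v a : Wd} (h : SameTy A u v) (ha : a ∈ A) (hu : u = a) : v = a := by
  obtain ⟨h1, h2⟩ := h a ha
  exact (h1.1 (WLe.of_eq hu)).antisymm (h2.1 (WLe.of_eq hu.symm))

/-- words with END are ultimately periodic -/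
theorem Wd.up_of_one {u : Wd} (hu : u.Abs) {n : ℕ} (h : u n = 1) : u.UP := by
  refine ⟨n, 1, one_pos, fun m hm => ?_⟩
  rw [hu.of_le (Nat.le_succ_of_le hm) h, hu.of_le hm h]

theorem Wd.UP.sh {u : Wd} : u.sh.UP ↔ u.UP := by
  constructor
  · rintro ⟨N, P, hP, h⟩
    refine ⟨N + 1, P, hP, fun m hm => ?_⟩
    have h1 := h (m - 1) (by omega)
    simp only [Wd.sh_apply] at h1
    have e1 : m - 1 + P + 1 = m + P := by omega
    have e2 : m - 1 + 1 = m := by omega
    rwa [e1, e2] at h1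
  · rintro ⟨N, P, hP, h⟩
    refine ⟨N, P, hP, fun m hm => ?_⟩
    have h1 := h (m + 1) (by omega)
    simp only [Wd.sh_apply]
    have e1 : m + P + 1 = m + 1 + P := by omega
    rw [e1]
    exact h1

theorem Wd.UP.shift {u : Wd} (n : ℕ) : Wd.UP (fun j => u (n + j)) ↔ u.UP := by
  constructor
  · rintro ⟨N, P, hP, h⟩
    refine ⟨n + N, P, hP, fun m hm => ?_⟩
    have h1 := h (m - n) (by omega)
    simp only at h1
    have e1 : n + (m - n + P) = m + P := by omega
    have e2 : n + (m - n) = m := by omega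
    rwa [e1, e2] at h1
  · rintro ⟨N, P, hP, h⟩
    refine ⟨N, P, hP, fun m hm => ?_⟩
    have h1 := h (n + m) (by omega)
    simp only
    have e1 : n + (m + P) = n + m + P := by omega
    rw [e1]
    exact h1

/-- there are only finitely many types: a colouring of the words by a finite set -/
theorem exists_tyColor (A : Set Wd) (hA : A.Finite) :
    ∃ (C : Type) (_ : Finite C) (c : Wd → C), ∀ u v, c u = c v → SameTy A u v := by
  have : Finite A := hA.to_subtype
  refine ⟨A → Prop × Prop, inferInstance, fun u a => (WLe u a, WLe a u), fun u v h a ha => ?_⟩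
  have h1 := congrFun h ⟨a, ha⟩
  simp only [Prod.mk.injEq, eq_iff_iff] at h1
  exact h1

end StrAlg
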