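import Pool.Agent.Lib.MP_b9fd58_lc.PA

/-!
# The pigeonhole (job PB)
-/

set_option autoImplicit false

namespace StrAlg

variable {D : Dat} {S : Sides D}

/-- the cutting positions: same vertex, side and types, the same `K` letters before them, and all comparisons of the right
word at `p₁` decided before `p₂` -/
structure Cut (w : Str S) (A : Set Wd) (K : ℕ) (p₁ p₂ : ℤ) : Prop where
  lt : p₁ + K < p₂
  zero : 0 ≤ p₁
  v : ∀ t : ℕ, t ≤ K → w.L.v (p₁ - t) = w.L.v (p₂ - t)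
  r : ∀ t : ℕ, t ≤ K → w.L.r (p₁ - t) = w.L.r (p₂ - t)
  lam : ∀ t : ℕ, t ≤ K → w.L.lam (p₁ - t - 1) = w.L.lam (p₂ - t - 1)
  ne : ∀ q, 0 ≤ q → w.L.lam q ≠ 1
  tyR : SameTy A (w.L.wdd true p₁) (w.L.wdd true p₂)
  tyL : SameTy A (w.L.wdd false p₁) (w.L.wdd false p₂)
  dec : ∀ a ∈ A, ∃ j : ℕ, (j : ℤ) < p₂ - p₁ ∧ w.L.wdd true p₁ j ≠ a j

theorem pb_ne (w : Str S) (h : ¬ (w.L.wdd true 0).UP) (q : ℤ) (hq : 0 ≤ q) : w.L.lam q ≠ 1 := by
  intro h1
  apply h
  obtain ⟨n, rfl⟩ := Int.eq_ofNat_of_zero_le hq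
  have habs : (w.L.wdd true 0).Abs := by
    intro m hm
    have := w.abs true m (m + 1) (by omega) hm
    simpa [Ln.wdd] using this
  refine Wd.up_of_one habs (n := n) ?_
  simpa [Ln.wdd, Ln.lt] using h1

theorem pb_notUP (w : Str S) (h : ¬ (w.L.wdd true 0).UP) (q : ℤ) (hq : 0 ≤ q) : ¬ (w.L.wdd true q).UP := by
  obtain ⟨n, rfl⟩ := Int.eq_ofNat_of_zero_le hq
  have h1 : w.L.wdd true ((n : ℕ) : ℤ) = fun j => w.L.wdd true 0 (n + j) := by
    funext j
    have h2 := w.L.wdd_stn true 0 n j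
    have h3 : stn true ((n : ℕ) : ℤ) 0 = ((n : ℕ) : ℤ) := by simp
    rw [h3] at h2
    exact h2
  rw [h1, Wd.UP.shift]
  exact h

/-- If the right word of `w` at `0` is not ultimately periodic there are cutting positions beyond `R`.

Proof: the right word has no END (`Wd.up_of_one`), and the right word at `q ≥ 0` is not ultimately periodic, so it is
different from all words of `A`. Colour the positions `q > R + K` by `(v, r, lam)` at `q - t`, `t ≤ K + 1`, and by the colours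
(`exists_tyColor`) of both words: finitely many colours, so there is an infinite set of positions of the same colour
(`Finite.exists_infinite_fiber`, or `Set.Infinite` version); take `p₁` in it and `p₂` in it far beyond. -/
theorem exists_cut (w : Str S) (A : Set Wd) (hA : A.Finite) (hup : ∀ a ∈ A, a.UP) (K R : ℕ)
    (h : ¬ (w.L.wdd true 0).UP) : ∃ p₁ p₂ : ℤ, (R : ℤ) + K < p₁ ∧ Cut w A K p₁ p₂ := by
  classical
  obtain ⟨C, hC, c, hc⟩ := exists_tyColor A hA
  let pos : ℕ → ℤ := fun n => (R : ℤ) + K + 1 + n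
  let F : ℕ → (Fin (K + 1) → Fin D.nV × Bool × Fin 3) × C × C := fun n =>
    (fun t => (w.L.v (pos n - (t : ℕ)), w.L.r (pos n - (t : ℕ)), w.L.lam (pos n - (t : ℕ) - 1)),
      c (w.L.wdd true (pos n)), c (w.L.wdd false (pos n)))
  obtain ⟨y, hy⟩ := Finite.exists_infinite_fiber F
  have hinf : (F ⁻¹' {y}).Infinite := Set.infinite_coe_iff.1 hy
  obtain ⟨n₁, hn₁⟩ := hinf.nonempty
  have hpos0 : ∀ n, 0 ≤ pos n := fun n => by
    show 0 ≤ (R : ℤ) + K + 1 + n
    positivity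
  have hdec : ∀ a ∈ A, ∃ j, w.L.wdd true (pos n₁) j ≠ a j := by
    intro a ha
    by_contra hcon
    push Not at hcon
    have : w.L.wdd true (pos n₁) = a := funext hcon
    exact pb_notUP w h _ (hpos0 n₁) (this ▸ hup a ha)
  choose! j hj using hdec
  obtain ⟨J, hJ⟩ := (hA.image j).bddAbove
  obtain ⟨n₂, hn₂, hlt⟩ := hinf.exists_gt (n₁ + K + J)
  have hF : F n₁ = F n₂ := by
    have h1 : F n₁ = y := hn₁
    have h2 : F n₂ = y := hn₂
    rw [h1, h2]
  have hF1 := congrArg Prod.fst hF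
  have hF2 := congrArg (fun z => z.2.1) hF
  have hF3 := congrArg (fun z => z.2.2) hF
  have hpt : ∀ t : ℕ, t ≤ K → w.L.v (pos n₁ - t) = w.L.v (pos n₂ - t) ∧ w.L.r (pos n₁ - t) = w.L.r (pos n₂ - t) ∧
      w.L.lam (pos n₁ - t - 1) = w.L.lam (pos n₂ - t - 1) := by
    intro t ht
    have := congrFun hF1 ⟨t, by omega⟩
    simp only [F, Prod.mk.injEq] at this
    exact this
  refine ⟨pos n₁, pos n₂, ?_, ?_⟩
  · show (R : ℤ) + K < (R : ℤ) + K + 1 + n₁
    omega
  · refine ⟨?_, hpos0 n₁, fun t ht => (hpt t ht).1, fun t ht => (hpt t ht).2.1, fun t ht => (hpt t ht).2.2,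
      fun q hq => pb_ne w h q hq, hc _ _ hF2, hc _ _ hF3, ?_⟩
    · show (R : ℤ) + K + 1 + n₁ + K < (R : ℤ) + K + 1 + n₂
      omega
    · intro a ha
      refine ⟨j a, ?_, hj a ha⟩
      have h1 : j a ≤ J := hJ ⟨a, ha, rfl⟩
      show (j a : ℤ) < ((R : ℤ) + K + 1 + n₂) - ((R : ℤ) + K + 1 + n₁)
      omega

end StrAlg
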