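import Pool.Agent.Lib.MP_b9fd58_lc.PB

/-!
# Repeating a segment forever (job PC)
-/

set_option autoImplicit false

namespace StrAlg

variable {D : Dat} {S : Sides D}

/-- the folding map: identity before `p₂`, periodic from `p₁` on -/
def fold (p₁ p₂ : ℤ) (q : ℤ) : ℤ := if q < p₂ then q else p₁ + (q - p₁) % (p₂ - p₁)

theorem fold_lt {p₁ p₂ q : ℤ} (h : q < p₂) : fold p₁ p₂ q = q := if_pos h

theorem pc_fold_eq {p₁ p₂ q : ℤ} (hq : p₁ ≤ q) :
    fold p₁ p₂ q = p₁ + (q - p₁) % (p₂ - p₁) := by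
  unfold fold
  split_ifs with h1
  · rw [Int.emod_eq_of_lt (by omega) (by omega)]
    ring
  · rfl

theorem fold_mem {p₁ p₂ q : ℤ} (h : p₁ < p₂) (hq : p₁ ≤ q) : p₁ ≤ fold p₁ p₂ q ∧ fold p₁ p₂ q < p₂ := by
  rw [pc_fold_eq hq]
  have h1 := Int.emod_nonneg (q - p₁) (show p₂ - p₁ ≠ 0 by omega)
  have h2 := Int.emod_lt_of_pos (q - p₁) (show 0 < p₂ - p₁ by omega)
  constructor <;> omega

theorem fold_add {p₁ p₂ q : ℤ} (h : p₁ < p₂) (hq : p₁ ≤ q) : fold p₁ p₂ (q + (p₂ - p₁)) = fold p₁ p₂ q := by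
  rw [pc_fold_eq hq, pc_fold_eq (by omega)]
  have h1 : q + (p₂ - p₁) - p₁ = (q - p₁) + (p₂ - p₁) := by ring
  rw [h1, Int.add_emod_right]

theorem fold_succ {p₁ p₂ q : ℤ} (h : p₁ < p₂) :
    (fold p₁ p₂ (q + 1) = fold p₁ p₂ q + 1 ∧ fold p₁ p₂ q + 1 < p₂) ∨
      (fold p₁ p₂ (q + 1) = p₁ ∧ fold p₁ p₂ q = p₂ - 1) := by
  by_cases h1 : q + 1 < p₂
  · left
    rw [fold_lt h1, fold_lt (by omega)]
    exact ⟨rfl, h1⟩
  · rw [pc_fold_eq (q := q) (by omega), pc_fold_eq (q := q + 1) (by omega)]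
    have h2 := Int.emod_nonneg (q - p₁) (show p₂ - p₁ ≠ 0 by omega)
    have h3 := Int.emod_lt_of_pos (q - p₁) (show 0 < p₂ - p₁ by omega)
    have h4 := Int.emod_add_mul_ediv (q - p₁) (p₂ - p₁)
    set s := (q - p₁) % (p₂ - p₁) with hs
    set k := (q - p₁) / (p₂ - p₁) with hk
    have h5 : q + 1 - p₁ = (s + 1) + (p₂ - p₁) * k := by linarith
    rcases lt_or_eq_of_le (show s + 1 ≤ p₂ - p₁ by omega) with h6 | h6
    · left
      rw [h5, Int.add_mul_emod_self_left, Int.emod_eq_of_lt (by omega) h6]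
      constructor
      · ring
      · omega
    · right
      rw [h5, Int.add_mul_emod_self_left, h6, Int.emod_self]
      constructor <;> omega

theorem pc_fold_add {p₁ p₂ x : ℤ} (h : p₁ < p₂) (hx : p₁ ≤ x) :
    ∀ j : ℕ, (j : ℤ) < p₂ - p₁ →
      (fold p₁ p₂ (x + j) = fold p₁ p₂ x + j ∧ fold p₁ p₂ x + j < p₂) ∨
        (fold p₁ p₂ (x + j) = fold p₁ p₂ x + j - (p₂ - p₁) ∧ p₂ ≤ fold p₁ p₂ x + j) := by
  intro j
  induction j with
  | zero =>
    intro _
    left
    have := (fold_mem h hx).2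
    simp only [Nat.cast_zero, add_zero]
    exact ⟨trivial, this⟩
  | succ j ih =>
    intro hj
    push_cast at hj ⊢
    have h0 := fold_mem h hx
    have h1 := fold_succ (q := x + j) h
    rw [show x + (j : ℤ) + 1 = x + ((j : ℤ) + 1) by ring] at h1
    rcases ih (by omega) with h2 | h2 <;> rcases h1 with h3 | h3
    · left; omega
    · right; omega
    · right; omega
    · exfalso; omega

/-- the line with the segment `[p₁, p₂)` repeated forever -/
def foldL (w : Ln (Fin D.nV) S.nx) (p₁ p₂ : ℤ) (h : p₁ < p₂) (hv : w.v p₁ = w.v p₂) (hr : w.r p₁ = w.r p₂) :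
    Ln (Fin D.nV) S.nx where
  lam q := w.lam (fold p₁ p₂ q)
  v q := w.v (fold p₁ p₂ q)
  r q := w.r (fold p₁ p₂ q)
  fwd q hq := by
    rw [w.fwd _ hq]
    rcases fold_succ (q := q) h with ⟨h1, -⟩ | ⟨h1, h2⟩
    · rw [h1]
    · rw [h1, h2, hv, hr]
      norm_num
  bwd q hq := by
    rcases fold_succ (q := q) h with ⟨h1, -⟩ | ⟨h1, h2⟩
    · rw [h1]
      exact w.bwd _ hq
    · have := w.bwd _ hq
      rw [h2] at this
      rw [h1, h2, hv, hr]
      norm_num at this
      exact this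

section
variable {w : Str S} {A : Set Wd} {K : ℕ} {p₁ p₂ : ℤ}

theorem Cut.pc_lt (h : Cut w A K p₁ p₂) : p₁ < p₂ := by
  have := h.lt
  omega

theorem Cut.pc_v0 (h : Cut w A K p₁ p₂) : w.L.v p₁ = w.L.v p₂ := by
  simpa using h.v 0 (Nat.zero_le _)

theorem Cut.pc_r0 (h : Cut w A K p₁ p₂) : w.L.r p₁ = w.L.r p₂ := by
  simpa using h.r 0 (Nat.zero_le _)

/-- the folded line -/
def pcF (h : Cut w A K p₁ p₂) : Ln (Fin D.nV) S.nx := foldL w.L p₁ p₂ h.pc_lt h.pc_v0 h.pc_r0

theorem pcF_lam (h : Cut w A K p₁ p₂) (q : ℤ) : (pcF h).lam q = w.L.lam (fold p₁ p₂ q) := rfl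
theorem pcF_v (h : Cut w A K p₁ p₂) (q : ℤ) : (pcF h).v q = w.L.v (fold p₁ p₂ q) := rfl
theorem pcF_r (h : Cut w A K p₁ p₂) (q : ℤ) : (pcF h).r q = w.L.r (fold p₁ p₂ q) := rfl

theorem pcF_v_succ (h : Cut w A K p₁ p₂) (q : ℤ) :
    (pcF h).v (q + 1) = w.L.v (fold p₁ p₂ q + 1) := by
  rw [pcF_v]
  rcases fold_succ (q := q) h.pc_lt with h1 | h1
  · rw [h1.1]
  · rw [h1.1, h1.2, h.pc_v0]
    norm_num

theorem pcF_r_succ (h : Cut w A K p₁ p₂) (q : ℤ) :
    (pcF h).r (q + 1) = w.L.r (fold p₁ p₂ q + 1) := by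
  rw [pcF_r]
  rcases fold_succ (q := q) h.pc_lt with h1 | h1
  · rw [h1.1]
  · rw [h1.1, h1.2, h.pc_r0]
    norm_num

theorem pcF_ok (h : Cut w A K p₁ p₂) : (pcF h).Ok S.ends := by
  intro e p hp
  cases e with
  | true =>
    have h1 : w.L.lt true (fold p₁ p₂ p) = 2 := hp
    obtain ⟨a, h2, h3⟩ := w.ok true _ h1
    refine ⟨a, h2, ?_⟩
    rw [st_true] at h3 ⊢
    have h4 : (pcF h).sd (!true) (p + 1) = w.L.sd (!true) (fold p₁ p₂ p + 1) := by
      change (!(pcF h).r (p + 1)) = !w.L.r (fold p₁ p₂ p + 1)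
      rw [pcF_r_succ]
    rw [pcF_v_succ, h4]
    exact h3
  | false =>
    have h1 : w.L.lt false (fold p₁ p₂ (p - 1) + 1) = 2 := by
      change Fin.rev (w.L.lam (fold p₁ p₂ (p - 1) + 1 - 1)) = 2
      rw [show fold p₁ p₂ (p - 1) + 1 - 1 = fold p₁ p₂ (p - 1) by ring]
      exact hp
    obtain ⟨a, h2, h3⟩ := w.ok false _ h1
    have hv : (pcF h).v p = w.L.v (fold p₁ p₂ (p - 1) + 1) := by
      have := pcF_v_succ h (p - 1)
      rwa [show p - 1 + 1 = p by ring] at this
    have hr : (pcF h).r p = w.L.r (fold p₁ p₂ (p - 1) + 1) := by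
      have := pcF_r_succ h (p - 1)
      rwa [show p - 1 + 1 = p by ring] at this
    refine ⟨a, ?_, ?_⟩
    · have h4 : (pcF h).sd false p = w.L.sd false (fold p₁ p₂ (p - 1) + 1) := by
        change (!(pcF h).r p) = !w.L.r (fold p₁ p₂ (p - 1) + 1)
        rw [hr]
      rw [hv, h4]
      exact h2
    · rw [st_false] at h3 ⊢
      rw [show fold p₁ p₂ (p - 1) + 1 - 1 = fold p₁ p₂ (p - 1) by ring] at h3
      exact h3

/-- every window of length `≤ K` of the folded line is a window of the line -/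
theorem pcF_window (h : Cut w A K p₁ p₂) (x : ℤ) (n : ℕ) (hn : n ≤ K) :
    ∃ c : ℤ, (∀ j : ℕ, j ≤ n → (pcF h).v (x + j) = w.L.v (x + j + c) ∧
        (pcF h).r (x + j) = w.L.r (x + j + c)) ∧
      ∀ j : ℕ, j < n → (pcF h).lam (x + j) = w.L.lam (x + j + c) := by
  have hlt := h.lt
  have hn' : (n : ℤ) ≤ K := by exact_mod_cast hn
  by_cases h1 : x + n < p₂
  · refine ⟨0, fun j hj => ?_, fun j hj => ?_⟩
    · have hj' : (j : ℤ) ≤ n := by exact_mod_cast hj
      rw [pcF_v, pcF_r, fold_lt (by omega), add_zero]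
      exact ⟨rfl, rfl⟩
    · have hj' : (j : ℤ) < n := by exact_mod_cast hj
      rw [pcF_lam, fold_lt (by omega), add_zero]
  · have hx : p₁ ≤ x := by omega
    have hadd := pc_fold_add h.pc_lt hx
    have hmem := fold_mem h.pc_lt hx
    set f := fold p₁ p₂ x with hf
    by_cases h2 : f + n < p₂
    · refine ⟨f - x, fun j hj => ?_, fun j hj => ?_⟩
      · have hj' : (j : ℤ) ≤ n := by exact_mod_cast hj
        have h3 : fold p₁ p₂ (x + j) = x + j + (f - x) := by
          rcases hadd j (by omega) with h4 | h4 <;> omega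
        rw [pcF_v, pcF_r, h3]
        exact ⟨rfl, rfl⟩
      · have hj' : (j : ℤ) < n := by exact_mod_cast hj
        have h3 : fold p₁ p₂ (x + j) = x + j + (f - x) := by
          rcases hadd j (by omega) with h4 | h4 <;> omega
        rw [pcF_lam, h3]
    · refine ⟨f - x - (p₂ - p₁), fun j hj => ?_, fun j hj => ?_⟩
      · have hj' : (j : ℤ) ≤ n := by exact_mod_cast hj
        rcases hadd j (by omega) with h4 | h4
        · obtain ⟨t, ht⟩ : ∃ t : ℕ, (t : ℤ) = p₂ - (f + j) := ⟨(p₂ - (f + j)).toNat, by omega⟩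
          have htK : t ≤ K := by
            have : (t : ℤ) ≤ K := by omega
            exact_mod_cast this
          have h5 := h.v t htK
          have h6 := h.r t htK
          rw [pcF_v, pcF_r, h4.1]
          rw [show f + (j : ℤ) = p₂ - t by omega,
            show x + (j : ℤ) + (f - x - (p₂ - p₁)) = p₁ - t by omega]
          exact ⟨h5.symm, h6.symm⟩
        · rw [pcF_v, pcF_r, h4.1]
          rw [show x + (j : ℤ) + (f - x - (p₂ - p₁)) = f + j - (p₂ - p₁) by ring]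
          exact ⟨rfl, rfl⟩
      · have hj' : (j : ℤ) < n := by exact_mod_cast hj
        rcases hadd j (by omega) with h4 | h4
        · obtain ⟨t, ht⟩ : ∃ t : ℕ, (t : ℤ) = p₂ - (f + j) - 1 :=
            ⟨(p₂ - (f + j) - 1).toNat, by omega⟩
          have htK : t ≤ K := by
            have : (t : ℤ) ≤ K := by omega
            exact_mod_cast this
          have h5 := h.lam t htK
          rw [pcF_lam, h4.1]
          rw [show f + (j : ℤ) = p₂ - t - 1 by omega,
            show x + (j : ℤ) + (f - x - (p₂ - p₁)) = p₁ - t - 1 by omega]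
          exact h5.symm
        · rw [pcF_lam, h4.1]
          rw [show x + (j : ℤ) + (f - x - (p₂ - p₁)) = f + j - (p₂ - p₁) by ring]

/-- `bk` only depends on the positions read -/
theorem pc_bk_congr (B : Ends (Fin D.nV) (Fin D.nE)) (L L' : Ln (Fin D.nV) S.nx) (c : ℤ) (e : Bool)
    (l : List (Fin D.nE)) : ∀ p : ℤ,
      (∀ j : ℕ, j < l.length → L.lt e (stn e j p) = L'.lt e (stn e j p + c) ∧
        L.v (stn e j p) = L'.v (stn e j p + c) ∧ L.r (stn e j p) = L'.r (stn e j p + c)) →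
      bk B L e l p → bk B L' e l (p + c) := by
  induction l with
  | nil => intro p _ _; trivial
  | cons b l ih =>
    rintro p hall ⟨h1, h2, h3⟩
    have h4 := hall 0 (by simp)
    simp only [Nat.cast_zero, stn_zero] at h4
    have hsd : L.sd e p = L'.sd e (p + c) := by
      unfold Ln.sd
      rw [h4.2.2]
    refine ⟨by rw [← h4.1]; exact h1, by rw [← h4.2.1, ← hsd]; exact h2, ?_⟩
    rw [← WFa_st_add]
    refine ih (st e p) (fun j hj => ?_) h3
    have h5 := hall (j + 1) (by simpa using hj)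
    have h6 : stn e ((j + 1 : ℕ) : ℤ) p = stn e j (st e p) := by
      cases e <;> simp <;> ring
    rw [h6] at h5
    exact h5

theorem pcF_norel (hK : ∀ r ∈ D.rel, r.length ≤ K) (h : Cut w A K p₁ p₂) :
    (pcF h).NoRel S.ends := by
  intro r hr e p hbk
  have hlen : r.reverse.length ≤ K := by simpa using hK r hr
  set l := r.reverse with hl
  cases e with
  | true =>
    obtain ⟨c, h1, h2⟩ := pcF_window h p l.length hlen
    refine w.norel r hr true (p + c) ?_
    refine pc_bk_congr S.ends (pcF h) w.L c true l p (fun j hj => ?_) hbk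
    rw [stn_true]
    exact ⟨h2 j hj, (h1 j hj.le).1, (h1 j hj.le).2⟩
  | false =>
    obtain ⟨c, h1, h2⟩ := pcF_window h (p - l.length) l.length hlen
    refine w.norel r hr false (p + c) ?_
    refine pc_bk_congr S.ends (pcF h) w.L c false l p (fun j hj => ?_) hbk
    rw [stn_false]
    obtain ⟨i, hi⟩ : ∃ i : ℕ, i + j = l.length := ⟨l.length - j, by omega⟩
    obtain ⟨i', hi'⟩ : ∃ i' : ℕ, i = i' + 1 := ⟨i - 1, by omega⟩
    have hi2 : (i : ℤ) + j = l.length := by exact_mod_cast hi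
    have h3 := h1 i (by omega)
    have h4 := h2 i' (by omega)
    have e1 : p - (l.length : ℤ) + i = p - j := by omega
    have e2 : p - (l.length : ℤ) + i' = p - j - 1 := by omega
    rw [e1] at h3
    rw [e2] at h4
    refine ⟨?_, h3.1, h3.2⟩
    change Fin.rev ((pcF h).lam (p - j - 1)) = Fin.rev (w.L.lam (p - j + c - 1))
    rw [h4, show p - (j : ℤ) - 1 + c = p - j + c - 1 by ring]

theorem pc_fold_nonneg (h : Cut w A K p₁ p₂) {q : ℤ} (hq : 0 ≤ q) : 0 ≤ fold p₁ p₂ q := by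
  have h0 := h.zero
  by_cases h1 : q < p₂
  · rw [fold_lt h1]; exact hq
  · have := (fold_mem h.pc_lt (q := q) (by have := h.pc_lt; omega)).1
    omega

theorem pcF_lam_ne (h : Cut w A K p₁ p₂) {q : ℤ} (hq : 0 ≤ q) : (pcF h).lam q ≠ 1 :=
  h.ne _ (pc_fold_nonneg h hq)

theorem pcF_reach_lt (h : Cut w A K p₁ p₂) {q : ℤ} (hq : q < p₂) :
    (pcF h).Reach 0 q ↔ w.L.Reach 0 q := by
  rw [Ln.reach_iff, Ln.reach_iff]
  have h0 := h.zero
  have h1 := h.pc_lt
  constructor
  · intro h2 x hx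
    have h3 := h2 x hx
    rwa [pcF_lam, fold_lt (by omega)] at h3
  · intro h2 x hx
    rw [pcF_lam, fold_lt (by omega)]
    exact h2 x hx

theorem pcF_reach_nonneg (h : Cut w A K p₁ p₂) {q : ℤ} (hq : 0 ≤ q) :
    (pcF h).Reach 0 q ∧ w.L.Reach 0 q := by
  rw [Ln.reach_iff, Ln.reach_iff]
  exact ⟨fun x hx => pcF_lam_ne h (by omega), fun x hx => h.ne x (by omega)⟩

theorem pcF_abs (h : Cut w A K p₁ p₂) : (pcF h).Abs 0 := by
  intro e n m hnm h1
  have h0 := h.zero
  have h2 := h.pc_lt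
  cases e with
  | true =>
    exfalso
    exact pcF_lam_ne h (q := 0 + (n : ℤ)) (by omega) h1
  | false =>
    have key : ∀ j : ℕ, (pcF h).lt false (stn false j 0) = w.L.lt false (stn false j 0) := by
      intro j
      change Fin.rev ((pcF h).lam (0 - (j : ℤ) - 1)) = Fin.rev (w.L.lam (0 - (j : ℤ) - 1))
      rw [pcF_lam, fold_lt (by omega)]
    rw [key] at h1 ⊢
    exact w.abs false n m hnm h1

theorem pcF_clean (h : Cut w A K p₁ p₂) (p : ℤ) (hp : (pcF h).lam p ≠ 1) :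
    (pcF h).Reach 0 p ∧ (pcF h).Reach 0 (p + 1) := by
  have h0 := h.zero
  have h2 := h.pc_lt
  by_cases h1 : 0 ≤ p
  · exact ⟨(pcF_reach_nonneg h h1).1, (pcF_reach_nonneg h (by omega)).1⟩
  · rw [pcF_reach_lt h (by omega), pcF_reach_lt h (by omega)]
    refine w.clean p ?_
    rwa [pcF_lam, fold_lt (by omega)] at hp

end

/-- **the string with the segment repeated forever**; `K` bounds the lengths of the relations

Proof. `Ok`: the arrows of `foldL` at the edge `{q, q+1}` are those of `w` at `{fold q, fold q + 1}` (at the seam use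
`v`, `r` at `p₁`, `p₂`). `Abs`, `clean`: no letter END from `p₁` on; before `p₂` the line is `w`. `NoRel`: a relation of
length `≤ K` read in `foldL` from `q` in direction `e` is read in `w` from the corresponding position: the window of
length `K` at `q` is the window of `w` at `fold q`, or (for `e = true` when the seam is crossed) at
`fold q - (p₂ - p₁)`, because the last `K` letters before `p₁` and before `p₂` are the same (first prove:
`bk` only depends on `lt`, `v`, `sd` at the `|l|` positions read). -/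
theorem exists_foldStr (w : Str S) (A : Set Wd) (K : ℕ) (hK : ∀ r ∈ D.rel, r.length ≤ K) (p₁ p₂ : ℤ)
    (h : Cut w A K p₁ p₂) :
    ∃ w' : Str S, (∀ q, w'.L.lam q = w.L.lam (fold p₁ p₂ q)) ∧ (∀ q, w'.L.v q = w.L.v (fold p₁ p₂ q)) ∧
      (∀ q, w'.L.r q = w.L.r (fold p₁ p₂ q)) ∧ (∀ q, q < p₂ → (q ∈ w'.Z ↔ q ∈ w.Z)) ∧
      (∀ q, 0 ≤ q → q ∈ w'.Z ∧ q ∈ w.Z) := by
  exact ⟨⟨pcF h, pcF_ok h, pcF_norel hK h, pcF_abs h, pcF_clean h⟩, fun _ => rfl, fun _ => rfl,
    fun _ => rfl, fun _ hq => pcF_reach_lt h hq, fun _ hq => pcF_reach_nonneg h hq⟩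

end StrAlg
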