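import Pool.Agent.Lib.MP_b9fd58_lc.PC

/-!
# Types along the folded line (job PD)
-/

set_option autoImplicit false

namespace StrAlg

variable {D : Dat} {S : Sides D}

theorem pd_add_mul {p₁ p₂ : ℤ} (h : p₁ < p₂) (k : ℕ) : ∀ {q : ℤ}, p₁ ≤ q →
    fold p₁ p₂ (q + k * (p₂ - p₁)) = fold p₁ p₂ q := by
  induction k with
  | zero => intro q _; simp
  | succ k ih =>
    intro q hq
    have h1 : q + ((k + 1 : ℕ) : ℤ) * (p₂ - p₁) = (q + (p₂ - p₁)) + k * (p₂ - p₁) := by
      push_cast; ring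
    rw [h1, ih (by linarith), fold_add h hq]

theorem pd_fold_fold {p₁ p₂ : ℤ} (h : p₁ < p₂) {q : ℤ} (hq : p₁ ≤ q) (j : ℕ) :
    fold p₁ p₂ (q + j) = fold p₁ p₂ (fold p₁ p₂ q + j) := by
  by_cases h2 : q < p₂
  · rw [fold_lt h2]
  · have h3 : fold p₁ p₂ q = p₁ + (q - p₁) % (p₂ - p₁) := if_neg h2
    have hd : 0 < p₂ - p₁ := by linarith
    have h4 : 0 ≤ (q - p₁) / (p₂ - p₁) := Int.ediv_nonneg (by linarith) hd.le
    obtain ⟨k, hk⟩ := Int.eq_ofNat_of_zero_le h4
    have h5 : q = fold p₁ p₂ q + k * (p₂ - p₁) := by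
      rw [h3]
      have := Int.emod_add_mul_ediv (q - p₁) (p₂ - p₁)
      rw [hk] at this
      linarith
    have h6 := (fold_mem h hq).1
    have h7 : q + (j : ℤ) = (fold p₁ p₂ q + j) + k * (p₂ - p₁) := by
      linarith
    rw [h7, pd_add_mul h k (by linarith)]

theorem pd_right (w w' : Str S) (A : Set Wd) (hA : ∀ a ∈ A, a.sh ∈ A) (K : ℕ) (p₁ p₂ : ℤ) (h : Cut w A K p₁ p₂)
    (h1 : ∀ q, w'.L.lam q = w.L.lam (fold p₁ p₂ q)) (q : ℤ) :
    SameTy A (w'.L.wdd true q) (w.L.wdd true (fold p₁ p₂ q)) := by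
  have hp : p₁ < p₂ := by have := h.lt; omega
  have e1 : SameTy A (w.L.wdd true p₁) (w'.L.wdd true p₁) := by
    refine SameTy.of_agree (n := (p₂ - p₁).toNat) ?_ ?_
    · intro a ha
      obtain ⟨j, hj, hj'⟩ := h.dec a ha
      exact ⟨j, by omega, hj'⟩
    · intro j hj
      have h2 : p₁ + (j : ℤ) < p₂ := by omega
      simp only [Ln.wdd_apply, stn_true, Ln.lt, if_true, h1, fold_lt h2]
  have e2 : w'.L.wdd true p₂ = w'.L.wdd true p₁ := by
    funext j
    have h2 : p₂ + (j : ℤ) = (p₁ + j) + (p₂ - p₁) := by ring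
    simp only [Ln.wdd_apply, stn_true, Ln.lt, if_true, h1]
    rw [h2, fold_add hp (by omega)]
  have e3 : SameTy A (w'.L.wdd true p₂) (w.L.wdd true p₂) := by
    rw [e2]
    exact e1.symm.trans h.tyR
  have e4 : ∀ n : ℕ, SameTy A (w'.L.wdd true (p₂ - n)) (w.L.wdd true (p₂ - n)) := by
    intro n
    induction n with
    | zero => simpa using e3
    | succ n ih =>
      have h2 : p₂ - ((n + 1 : ℕ) : ℤ) < p₂ := by push_cast; omega
      have h3 : st true (p₂ - ((n + 1 : ℕ) : ℤ)) = p₂ - n := by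
        rw [st_true]; push_cast; ring
      have h4 : w'.L.lt true (p₂ - ((n + 1 : ℕ) : ℤ)) = w.L.lt true (p₂ - ((n + 1 : ℕ) : ℤ)) := by
        simp only [Ln.lt, if_true, h1, fold_lt h2]
      rw [← Wd.cons_sh (w'.L.wdd true (p₂ - ((n + 1 : ℕ) : ℤ))), ← Wd.cons_sh (w.L.wdd true (p₂ - ((n + 1 : ℕ) : ℤ))),
        Ln.wdd_sh, Ln.wdd_sh, Ln.wdd_zero, Ln.wdd_zero, h3, h4]
      exact SameTy.cons hA ih _
  have e5 : ∀ q ≤ p₂, SameTy A (w'.L.wdd true q) (w.L.wdd true q) := by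
    intro q hq
    obtain ⟨n, hn⟩ := Int.eq_ofNat_of_zero_le (show 0 ≤ p₂ - q by linarith)
    have h2 : q = p₂ - n := by omega
    rw [h2]
    exact e4 n
  by_cases h2 : q < p₂
  · rw [fold_lt h2]
    exact e5 q h2.le
  · have hq : p₁ ≤ q := by omega
    have h3 : w'.L.wdd true q = w'.L.wdd true (fold p₁ p₂ q) := by
      funext j
      simp only [Ln.wdd_apply, stn_true, Ln.lt, if_true, h1]
      rw [pd_fold_fold hp hq]
    rw [h3]
    exact e5 _ (fold_mem hp hq).2.le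

theorem pd_left (w w' : Str S) (A : Set Wd) (hA : ∀ a ∈ A, a.sh ∈ A) (K : ℕ) (p₁ p₂ : ℤ) (h : Cut w A K p₁ p₂)
    (h1 : ∀ q, w'.L.lam q = w.L.lam (fold p₁ p₂ q)) (q : ℤ) :
    SameTy A (w'.L.wdd false q) (w.L.wdd false (fold p₁ p₂ q)) := by
  have hp : p₁ < p₂ := by have := h.lt; omega
  have e1 : ∀ q < p₂, SameTy A (w'.L.wdd false q) (w.L.wdd false (fold p₁ p₂ q)) := by
    intro q hq
    rw [fold_lt hq]
    have : w'.L.wdd false q = w.L.wdd false q := by
      funext j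
      have h2 : q - (j : ℤ) - 1 < p₂ := by omega
      simp only [Ln.wdd_apply, stn_false, Ln.lt, Bool.false_eq_true, if_false, h1, fold_lt h2]
    rw [this]
    exact SameTy.refl _ _
  have e2 : ∀ n : ℕ, SameTy A (w'.L.wdd false (p₂ - 1 + n)) (w.L.wdd false (fold p₁ p₂ (p₂ - 1 + n))) := by
    intro n
    induction n with
    | zero =>
      have := e1 (p₂ - 1) (by omega)
      simpa using this
    | succ n ih =>
      have h2 : p₂ - 1 + ((n + 1 : ℕ) : ℤ) = st true (p₂ - 1 + n) := by simp; ring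
      have h3 := w'.L.wdd_back true (p₂ - 1 + n)
      have h4 := w.L.wdd_back true (fold p₁ p₂ (p₂ - 1 + n))
      have h5 : w'.L.lt true (p₂ - 1 + n) = w.L.lt true (fold p₁ p₂ (p₂ - 1 + n)) := by
        simp only [Ln.lt, if_true, h1]
      have h6 : SameTy A (w'.L.wdd false (st true (p₂ - 1 + n)))
          (w.L.wdd false (st true (fold p₁ p₂ (p₂ - 1 + n)))) := by
        simp only [Bool.not_true] at h3 h4
        rw [h3, h4, h5]
        exact SameTy.cons hA ih _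
      rw [h2]
      rcases fold_succ (q := p₂ - 1 + (n : ℤ)) hp with ⟨g1, -⟩ | ⟨g1, g2⟩
      · simp only [st_true] at h6 ⊢
        rw [g1]
        exact h6
      · simp only [st_true] at h6 ⊢
        rw [g2] at h6
        rw [g1]
        have h7 : p₂ - 1 + 1 = p₂ := by ring
        rw [h7] at h6
        exact h6.trans h.tyL.symm
  by_cases h2 : q < p₂
  · exact e1 q h2
  · obtain ⟨n, hn⟩ := Int.eq_ofNat_of_zero_le (show 0 ≤ q - (p₂ - 1) by omega)
    have h3 : q = p₂ - 1 + n := by omega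
    rw [h3]
    exact e2 n

/-- Every position `q` of the folded string has the type of `fold q` in `w`.

Proof. Right words: at `p₁` the folded line agrees with `w` for `p₂ - p₁` letters, so `SameTy` by `Cut.dec`
(`SameTy.of_agree`); the right word at `p₂` of the folded line is its right word at `p₁`, so `SameTy` with the right word of
`w` at `p₂` (`Cut.tyR`); walking back from `p₂` with `SameTy.cons` (`Ln.wdd_sh`, `Wd.cons_sh`) gives all `q ≤ p₂`;
periodicity gives `q ≥ p₂`. Left words: equal for `q < p₂`; for `q ≥ p₁` by induction with `Ln.wdd_back`, `SameTy.cons` and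
`Cut.tyL` at the seam. Finally `wd` at `q` and `fold q` are the words in the same directions (`r` is the same). -/
theorem fold_ty (w w' : Str S) (A : Set Wd) (hA : ∀ a ∈ A, a.sh ∈ A) (K : ℕ) (p₁ p₂ : ℤ) (h : Cut w A K p₁ p₂)
    (h1 : ∀ q, w'.L.lam q = w.L.lam (fold p₁ p₂ q)) (h2 : ∀ q, w'.L.v q = w.L.v (fold p₁ p₂ q))
    (h3 : ∀ q, w'.L.r q = w.L.r (fold p₁ p₂ q)) (q : ℤ) (s : Bool) :
    SameTy A (w'.L.wd q s) (w.L.wd (fold p₁ p₂ q) s) := by
  unfold Ln.wd
  rw [h3]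
  cases (s == w.L.r (fold p₁ p₂ q)) with
  | true => exact pd_right w w' A hA K p₁ p₂ h h1 q
  | false => exact pd_left w w' A hA K p₁ p₂ h h1 q

/-- the right word of the folded line is ultimately periodic -/
theorem fold_up (w w' : Str S) (p₁ p₂ : ℤ) (h : p₁ < p₂) (h0 : 0 ≤ p₁)
    (h1 : ∀ q, w'.L.lam q = w.L.lam (fold p₁ p₂ q)) : (w'.L.wdd true 0).UP := by
  refine ⟨p₁.toNat, (p₂ - p₁).toNat, by omega, ?_⟩
  intro n hn
  have h2 : ((0 : ℤ) + ((n + (p₂ - p₁).toNat : ℕ) : ℤ)) = (n : ℤ) + (p₂ - p₁) := by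
    push_cast
    omega
  have h3 : ((0 : ℤ) + (n : ℤ)) = n := by ring
  simp only [Ln.wdd_apply, stn_true, Ln.lt, if_true, h1]
  rw [h2, h3, fold_add h (by omega)]

end StrAlg
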