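import Pool.Agent.Lib.MP_b9fd58_lc.PD

/-!
# Ultimately periodic strings with the same types (job PE)
-/

set_option autoImplicit false

namespace StrAlg

variable {D : Dat} {S : Sides D}

/-- the lengths of the relations are bounded -/
theorem pe_bound (D : Dat) : ∃ K : ℕ, ∀ r ∈ D.rel, r.length ≤ K :=
  ⟨(D.rel.map List.length).sum, fun _ hr =>
    List.single_le_sum (fun _ _ => Nat.zero_le _) _ (List.mem_map_of_mem hr)⟩

/-- right tail: `w'` is `w` up to `R`, its right word is ultimately periodic, and its positions have types of `w` -/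
theorem tail_step (w : Str S) (A : Set Wd) (hA : A.Finite) (hsh : ∀ a ∈ A, a.sh ∈ A) (hup : ∀ a ∈ A, a.UP) (R : ℕ) :
    ∃ w' : Str S, (w'.L.wdd true 0).UP ∧
      (∀ q : ℤ, q ≤ R → w'.L.v q = w.L.v q ∧ w'.L.r q = w.L.r q ∧ (q ∈ w'.Z ↔ q ∈ w.Z) ∧
        w'.L.lam (q - 1) = w.L.lam (q - 1)) ∧
      (∀ q ∈ w'.Z, q ≤ R → ∀ s, SameTy A (w'.L.wd q s) (w.L.wd q s)) ∧
      (∀ q ∈ w'.Z, (R : ℤ) < q → ∃ q' ∈ w.Z, (R : ℤ) < q' ∧ w'.L.v q = w.L.v q' ∧
        ∀ s, SameTy A (w'.L.wd q s) (w.L.wd q' s)) := by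
  by_cases h0 : (w.L.wdd true 0).UP
  · refine ⟨w, h0, fun q _ => ⟨rfl, rfl, Iff.rfl, rfl⟩, fun q _ _ s => SameTy.refl _ _, ?_⟩
    intro q hq hR
    exact ⟨q, hq, hR, rfl, fun s => SameTy.refl _ _⟩
  · obtain ⟨K, hK⟩ := pe_bound D
    obtain ⟨p₁, p₂, hp, hc⟩ := exists_cut w A hA hup K R h0
    obtain ⟨w', h1, h2, h3, h4, h5⟩ := exists_foldStr w A K hK p₁ p₂ hc
    have h12 : p₁ < p₂ := by have := hc.lt; omega
    have hty : ∀ q s, SameTy A (w'.L.wd q s) (w.L.wd (fold p₁ p₂ q) s) :=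
      fold_ty w w' A hsh K p₁ p₂ hc h1 h2 h3
    refine ⟨w', fold_up w w' p₁ p₂ h12 hc.zero h1, ?_, ?_, ?_⟩
    · intro q hq
      have hq2 : q < p₂ := by omega
      have hq3 : q - 1 < p₂ := by omega
      refine ⟨?_, ?_, h4 q hq2, ?_⟩
      · rw [h2, fold_lt hq2]
      · rw [h3, fold_lt hq2]
      · rw [h1, fold_lt hq3]
    · intro q _ hq s
      have hq2 : q < p₂ := by omega
      have := hty q s
      rwa [fold_lt hq2] at this
    · intro q hqZ hq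
      refine ⟨fold p₁ p₂ q, ?_, ?_, h2 q, hty q⟩
      · by_cases hq2 : q < p₂
        · rw [fold_lt hq2]
          exact (h4 q hq2).1 hqZ
        · have := fold_mem h12 (q := q) (by omega)
          refine (h5 _ ?_).2
          have := hc.zero
          omega
      · by_cases hq2 : q < p₂
        · rw [fold_lt hq2]
          exact hq
        · have := fold_mem h12 (q := q) (by omega)
          omega

/-- **strong form of the pigeonhole**: apply `tail_step`, then `tail_step` to the reversed string (`Str.exists_rv`,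
`Ln.rv_wd`, `Ln.rv_wdd`) -/
theorem pigeon_strong (w : Str S) (A : Set Wd) (hA : A.Finite) (hsh : ∀ a ∈ A, a.sh ∈ A) (hup : ∀ a ∈ A, a.UP)
    (R : ℕ) :
    ∃ w' : Str S, (∀ s, (w'.L.wd 0 s).UP) ∧
      (∀ q : ℤ, q.natAbs ≤ R → w'.L.v q = w.L.v q ∧ w'.L.r q = w.L.r q ∧ (q ∈ w'.Z ↔ q ∈ w.Z)) ∧
      (∀ q : ℤ, -(R : ℤ) ≤ q → q < R → w'.L.lam q = w.L.lam q) ∧
      (∀ q ∈ w'.Z, q.natAbs ≤ R → ∀ s, SameTy A (w'.L.wd q s) (w.L.wd q s)) ∧
      (∀ q ∈ w'.Z, R < q.natAbs → ∃ q' ∈ w.Z, R < q'.natAbs ∧ w'.L.v q = w.L.v q' ∧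
        ∀ s, SameTy A (w'.L.wd q s) (w.L.wd q' s)) := by
  obtain ⟨w₁, a1, a2, a3, a4⟩ := tail_step w A hA hsh hup R
  obtain ⟨w₂, b1, b2⟩ := w₁.exists_rv
  obtain ⟨w₃, c1, c2, c3, c4⟩ := tail_step w₂ A hA hsh hup R
  obtain ⟨w', d1, d2⟩ := w₃.exists_rv
  have b_wd : ∀ q, w₂.L.wd q = w₁.L.wd (-q) := fun q => by rw [b1, Ln.rv_wd]
  have d_wd : ∀ q, w'.L.wd q = w₃.L.wd (-q) := fun q => by rw [d1, Ln.rv_wd]
  have b_v : ∀ q, w₂.L.v q = w₁.L.v (-q) := fun q => by rw [b1]; rfl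
  have d_v : ∀ q, w'.L.v q = w₃.L.v (-q) := fun q => by rw [d1]; rfl
  have b_r : ∀ q, w₂.L.r q = !w₁.L.r (-q) := fun q => by rw [b1]; rfl
  have d_r : ∀ q, w'.L.r q = !w₃.L.r (-q) := fun q => by rw [d1]; rfl
  have b_lam : ∀ q, w₂.L.lam q = Fin.rev (w₁.L.lam (-q - 1)) := fun q => by rw [b1]; rfl
  have d_lam : ∀ q, w'.L.lam q = Fin.rev (w₃.L.lam (-q - 1)) := fun q => by rw [d1]; rfl
  refine ⟨w', ?_, ?_, ?_, ?_, ?_⟩
  · intro s
    rw [d_wd, neg_zero]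
    show (w₃.L.wdd (s == w₃.L.r 0) 0).UP
    cases hs : (s == w₃.L.r 0) with
    | true => exact c1
    | false =>
      have h1 : w₃.L.wdd false 0 = w₂.L.wdd false 0 := by
        funext n
        rw [Ln.wdd_apply, Ln.wdd_apply, stn_false]
        show Fin.rev (w₃.L.lam (0 - (n : ℤ) - 1)) = Fin.rev (w₂.L.lam (0 - (n : ℤ) - 1))
        rw [(c2 (0 - (n : ℤ)) (by omega)).2.2.2]
      have h2 : w₂.L.wdd false 0 = w₁.L.wdd true 0 := by
        rw [b1, Ln.rv_wdd, neg_zero, Bool.not_false]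
      rw [h1, h2]
      exact a1
  · intro q hq
    have hq1 : -q ≤ (R : ℤ) := by omega
    have hq2 : q ≤ (R : ℤ) := by omega
    obtain ⟨e1, e2, e3, -⟩ := c2 (-q) hq1
    obtain ⟨f1, f2, f3, -⟩ := a2 q hq2
    refine ⟨?_, ?_, ?_⟩
    · rw [d_v, e1, b_v, neg_neg, f1]
    · rw [d_r, e2, b_r, neg_neg, Bool.not_not, f2]
    · rw [d2, e3, b2, neg_neg, f3]
  · intro q hq1 hq2
    have e := (c2 (-q) (by omega)).2.2.2
    have f := (a2 (q + 1) (by omega)).2.2.2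
    rw [add_sub_cancel_right] at f
    rw [d_lam, e, b_lam, Fin.rev_rev]
    have : -(-q - 1) - 1 = q := by ring
    rw [this, f]
  · intro q hqZ hq s
    have h1 : -q ∈ w₃.Z := (d2 q).1 hqZ
    have hq1 : -q ≤ (R : ℤ) := by omega
    have hq2 : q ≤ (R : ℤ) := by omega
    have h2 : -q ∈ w₂.Z := (c2 (-q) hq1).2.2.1.1 h1
    have h3 : q ∈ w₁.Z := by
      have := (b2 (-q)).1 h2
      rwa [neg_neg] at this
    have t1 := c3 (-q) h1 hq1 s
    rw [b_wd, neg_neg] at t1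
    rw [d_wd]
    exact t1.trans (a3 q h3 hq2 s)
  · intro q hqZ hq
    have h1 : -q ∈ w₃.Z := (d2 q).1 hqZ
    by_cases hpos : (R : ℤ) < -q
    · obtain ⟨q₂, g1, g2, g3, g4⟩ := c4 (-q) h1 hpos
      have h3 : -q₂ ∈ w₁.Z := (b2 q₂).1 g1
      have hq2 : -q₂ ≤ (R : ℤ) := by omega
      obtain ⟨f1, f2, f3, -⟩ := a2 (-q₂) hq2
      refine ⟨-q₂, f3.1 h3, by omega, ?_, ?_⟩
      · rw [d_v, g3, b_v, f1]
      · intro s
        have t1 := g4 s
        rw [b_wd] at t1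
        rw [d_wd]
        exact t1.trans (a3 (-q₂) h3 hq2 s)
    · have hq1 : -q ≤ (R : ℤ) := by omega
      obtain ⟨e1, e2, e3, -⟩ := c2 (-q) hq1
      have h3 : q ∈ w₁.Z := by
        have := (b2 (-q)).1 (e3.1 h1)
        rwa [neg_neg] at this
      obtain ⟨q', g1, g2, g3, g4⟩ := a4 q h3 (by omega)
      refine ⟨q', g1, by omega, ?_, ?_⟩
      · rw [d_v, e1, b_v, neg_neg, g3]
      · intro s
        have t1 := c3 (-q) h1 hq1 s
        rw [b_wd, neg_neg] at t1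
        rw [d_wd]
        exact t1.trans (g4 s)

end StrAlg
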