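import Pool.Agent.Lib.MP_b9fd58_lc.PF

/-!
# Ultimately periodic certificates (job PG)
-/

set_option autoImplicit false

namespace StrAlg

open Module

variable {D : Dat} {k : Type} [Field k] {S : Sides D}

/-- Proof: `q` violates the criterion for some block pair at some position `q₀` of `w` (`critB_iff`); `pigeon_strong` for
`R := q₀.natAbs` and `A` = the union of the words of `q` and of all `p ∈ P`. -/
theorem pigeon_aux (q : NF S k) (P : List (NF S k)) (w : Str S) (h1 : ¬ q.Crit w)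
    (h2 : ∀ p ∈ P, p.Crit w) : CertS q P := by
  obtain ⟨A, hA⟩ : ∃ A : Set Wd, A = q.words ∪ ⋃ p ∈ {p | p ∈ P}, NF.words p := ⟨_, rfl⟩
  have hAfin : A.Finite := by
    rw [hA]
    exact q.words_finite.union (Set.Finite.biUnion (List.finite_toSet P) fun p _ => p.words_finite)
  have hAsh : ∀ a ∈ A, a.sh ∈ A := by
    rw [hA]
    rintro a (ha | ha)
    · exact Or.inl (q.words_sh a ha)
    · obtain ⟨p, hp, hap⟩ := Set.mem_iUnion₂.1 ha
      exact Or.inr (Set.mem_iUnion₂.2 ⟨p, hp, p.words_sh a hap⟩)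
  have hAup : ∀ a ∈ A, a.UP := by
    rw [hA]
    rintro a (ha | ha)
    · exact q.words_up a ha
    · obtain ⟨p, hp, hap⟩ := Set.mem_iUnion₂.1 ha
      exact p.words_up a hap
  have hq : q.words ⊆ A := by rw [hA]; exact Set.subset_union_left
  have hP : ∀ p ∈ P, NF.words p ⊆ A := by
    intro p hp a ha
    rw [hA]
    exact Or.inr (Set.mem_iUnion₂.2 ⟨p, hp, ha⟩)
  have hXw : ∀ (p : NF S k) (i : Fin p.m), (p.X i).words ⊆ p.words := fun p i a ha =>
    Or.inl (Set.mem_iUnion.2 ⟨i, ha⟩)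
  have hYw : ∀ (p : NF S k) (j : Fin p.m'), (p.Y j).words ⊆ p.words := fun p j a ha =>
    Or.inr (Set.mem_iUnion.2 ⟨j, ha⟩)
  -- the violated position
  have h3 : ∃ i j, ¬ CritB (q.X i) (q.Y j) (q.a i) (q.b j) w := by
    unfold NF.Crit at h1
    push Not at h1
    exact h1
  obtain ⟨i, j, hij⟩ := h3
  rw [critB_iff] at hij
  push Not at hij
  obtain ⟨q₀, hq₀, hbad⟩ := hij
  obtain ⟨w', hup, hR, _, hT1, hT2⟩ := pigeon_strong w A hAfin hAsh hAup q₀.natAbs
  refine ⟨w', hup, ?_, ?_⟩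
  · intro hcrit
    have h4 := (critB_iff _ _ _ _ _).1 (hcrit i j)
    obtain ⟨hv, hr, hZ⟩ := hR q₀ le_rfl
    have hq₀' : q₀ ∈ w'.Z := hZ.2 hq₀
    have h5 := h4 q₀ hq₀'
    rw [hv, critPt_ty ((hXw q i).trans hq) ((hYw q j).trans hq) (hT1 q₀ hq₀' le_rfl)] at h5
    exact hbad h5
  · intro p hp i j
    rw [critB_iff]
    intro r hr
    have h6 := (critB_iff _ _ _ _ _).1 (h2 p hp i j)
    by_cases hrR : r.natAbs ≤ q₀.natAbs
    · obtain ⟨hv, _, hZ⟩ := hR r hrR
      rw [hv, critPt_ty ((hXw p i).trans (hP p hp)) ((hYw p j).trans (hP p hp)) (hT1 r hr hrR)]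
      exact h6 r (hZ.1 hr)
    · obtain ⟨r', hr', _, hv, hty⟩ := hT2 r hr (by omega)
      rw [hv, critPt_ty ((hXw p i).trans (hP p hp)) ((hYw p j).trans (hP p hp)) hty]
      exact h6 r' hr'

end StrAlg
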