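import Pool.Agent.Lib.MP_b9fd58_lc.S2B

/-!
# Stage 2, job S2D: ranks and duality
-/

set_option autoImplicit false

namespace StrAlg

open Module

variable {D : Dat} {k : Type} [Field k]

/-! ### Linear algebra -/

/-- `N → B` from `B* → N*`, `B` finite-dimensional -/
theorem S2D_transpose {N B : Type} [AddCommGroup N] [Module k N] [AddCommGroup B] [Module k B]
    [FiniteDimensional k B] (f : (B →ₗ[k] k) →ₗ[k] (N →ₗ[k] k)) :
    ∃ G : N →ₗ[k] B, ∀ x φ, φ (G x) = f φ x := by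
  refine ⟨(evalEquiv k B).symm.toLinearMap ∘ₗ f.flip, fun x φ => ?_⟩
  have h : Dual.eval k B ((evalEquiv k B).symm (f.flip x)) = f.flip x :=
    (evalEquiv k B).apply_symm_apply (f.flip x)
  have h2 := LinearMap.congr_fun h φ
  exact h2

theorem S2D_sep {B : Type} [AddCommGroup B] [Module k B] {x y : B} (h : ∀ φ : B →ₗ[k] k, φ x = φ y) : x = y := by
  have h1 : x - y = 0 := (Module.forall_dual_apply_eq_zero_iff k (x - y)).1 (fun φ => by
    rw [map_sub, h φ, sub_self])
  exact sub_eq_zero.1 h1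

/-- the values of `l` on the images of `a` under the commuting maps decide the vanishing of `Φ l a` -/
theorem S2D_main {Γ : Type} [Fintype Γ] {A N : Type} [AddCommGroup A] [Module k A] [FiniteDimensional k A]
    [AddCommGroup N] [Module k N] (α : Γ → A →ₗ[k] A) (ν : Γ → N →ₗ[k] N) (a : A) (l : N →ₗ[k] k)
    (hl : ∀ f : A →ₗ[k] N, (∀ g x, f (α g x) = ν g (f x)) → l (f a) = 0)
    (Φ : (N →ₗ[k] k) →ₗ[k] (A →ₗ[k] k)) (hΦ : ∀ g m, Φ (m ∘ₗ ν g) = (Φ m) ∘ₗ α g) : Φ l a = 0 := by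
  classical
  set n := Module.finrank k A with hn
  let e : Basis (Fin n) k A := Module.finBasis k A
  -- the operator `δ`
  let δ : (Fin n → N) →ₗ[k] (Γ × Fin n → N) :=
    LinearMap.pi (fun gi : Γ × Fin n => (∑ j, (e.repr (α gi.1 (e gi.2)) j) • (LinearMap.proj j : (Fin n → N) →ₗ[k] N)) -
      (ν gi.1) ∘ₗ (LinearMap.proj gi.2 : (Fin n → N) →ₗ[k] N))
  have hδ : ∀ (x : Fin n → N) (gi : Γ × Fin n), δ x gi = (∑ j, (e.repr (α gi.1 (e gi.2)) j) • x j) - ν gi.1 (x gi.2) := by
    intro x gi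
    show ((∑ j, (e.repr (α gi.1 (e gi.2)) j) • (LinearMap.proj j : (Fin n → N) →ₗ[k] N)) -
      (ν gi.1) ∘ₗ (LinearMap.proj gi.2 : (Fin n → N) →ₗ[k] N)) x = _
    rw [LinearMap.sub_apply, LinearMap.sum_apply]
    rfl
  let L : (Fin n → N) →ₗ[k] k := ∑ j, (e.repr a j) • (l ∘ₗ (LinearMap.proj j : (Fin n → N) →ₗ[k] N))
  have hL : ∀ x, L x = ∑ j, e.repr a j * l (x j) := by
    intro x
    show (∑ j, (e.repr a j) • (l ∘ₗ (LinearMap.proj j : (Fin n → N) →ₗ[k] N))) x = _
    rw [LinearMap.sum_apply]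
    rfl
  have hker : L ∈ (LinearMap.ker δ).dualAnnihilator := by
    rw [Submodule.mem_dualAnnihilator]
    intro x hx
    have hx' : ∀ gi : Γ × Fin n, (∑ j, (e.repr (α gi.1 (e gi.2)) j) • x j) = ν gi.1 (x gi.2) := by
      intro gi
      have h1 : δ x gi = 0 := by
        rw [LinearMap.mem_ker.1 hx]
        rfl
      rw [hδ] at h1
      exact sub_eq_zero.1 h1
    let f : A →ₗ[k] N := e.constr k x
    have hf : ∀ y, f y = ∑ j, e.repr y j • x j := by
      intro y
      show e.constr k x y = _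
      rw [Basis.constr_apply_fintype]
      rfl
    have hfe : ∀ i, f (e i) = x i := fun i => e.constr_basis k x i
    have hcomm : ∀ g y, f (α g y) = ν g (f y) := by
      intro g y
      have h2 : f ∘ₗ α g = ν g ∘ₗ f := by
        refine e.ext (fun i => ?_)
        rw [LinearMap.comp_apply, LinearMap.comp_apply, hfe, hf]
        exact hx' (g, i)
      exact LinearMap.congr_fun h2 y
    have h3 := hl f hcomm
    rw [hf, map_sum] at h3
    rw [hL]
    refine Eq.trans ?_ h3
    refine Finset.sum_congr rfl (fun j _ => ?_)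
    rw [map_smul, smul_eq_mul]
  rw [← LinearMap.range_dualMap_eq_dualAnnihilator_ker] at hker
  obtain ⟨μ, hμ⟩ := hker
  let m : Γ × Fin n → (N →ₗ[k] k) := fun gi => μ ∘ₗ (LinearMap.single k (fun _ => N) gi)
  have hμm : ∀ z : Γ × Fin n → N, μ z = ∑ gi, m gi (z gi) := by
    intro z
    have h1 : z = ∑ gi, Pi.single gi (z gi) := (Finset.univ_sum_single z).symm
    conv_lhs => rw [h1]
    rw [map_sum]
    rfl
  have hLx : ∀ x, L x = ∑ gi, m gi (δ x gi) := by
    intro x
    rw [← hμm, ← hμ]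
    rfl
  -- comparison of coefficients
  have hcoef : ∀ j, (e.repr a j) • l = (∑ gi : Γ × Fin n, (e.repr (α gi.1 (e gi.2)) j) • m gi) -
      ∑ g, (m (g, j)) ∘ₗ ν g := by
    intro j
    ext y
    have h1 := hLx (Pi.single j y)
    have h2 : L (Pi.single j y) = e.repr a j * l y := by
      rw [hL, Finset.sum_eq_single j]
      · rw [Pi.single_eq_same]
      · intro i _ hi
        rw [Pi.single_eq_of_ne hi, map_zero, mul_zero]
      · intro hh
        exact absurd (Finset.mem_univ _) hh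
    have h3 : ∀ gi : Γ × Fin n, m gi (δ (Pi.single j y) gi) =
        (e.repr (α gi.1 (e gi.2)) j) * m gi y - (if gi.2 = j then m gi (ν gi.1 y) else 0) := by
      intro gi
      rw [hδ, map_sub, Finset.sum_eq_single j]
      · rw [Pi.single_eq_same, map_smul, smul_eq_mul]
        congr 1
        by_cases hij : gi.2 = j
        · rw [if_pos hij, hij, Pi.single_eq_same]
        · rw [if_neg hij, Pi.single_eq_of_ne hij, map_zero, map_zero]
      · intro i _ hi
        rw [Pi.single_eq_of_ne hi, smul_zero]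
      · intro hh
        exact absurd (Finset.mem_univ _) hh
    rw [h2, Finset.sum_congr rfl (fun gi _ => h3 gi), Finset.sum_sub_distrib] at h1
    have h4 : ∑ gi : Γ × Fin n, (if gi.2 = j then m gi (ν gi.1 y) else 0) = ∑ g, m (g, j) (ν g y) := by
      rw [Fintype.sum_prod_type]
      refine Finset.sum_congr rfl (fun g _ => ?_)
      rw [Finset.sum_ite_eq' Finset.univ j (fun i => m (g, i) (ν g y)), if_pos (Finset.mem_univ _)]
    rw [h4] at h1
    rw [LinearMap.smul_apply, LinearMap.sub_apply, LinearMap.sum_apply, LinearMap.sum_apply, smul_eq_mul, h1]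
    rfl
  -- evaluation
  have hfin : Φ l a = ∑ j, Φ ((e.repr a j) • l) (e j) := by
    conv_lhs => rw [← e.sum_repr a]
    rw [map_sum]
    refine Finset.sum_congr rfl (fun j _ => ?_)
    rw [map_smul, map_smul, LinearMap.smul_apply]
  rw [hfin]
  have h5 : ∀ j, Φ ((e.repr a j) • l) (e j) = (∑ gi : Γ × Fin n, Φ (m gi) ((e.repr (α gi.1 (e gi.2)) j) • e j)) -
      ∑ g, Φ (m (g, j)) (α g (e j)) := by
    intro j
    rw [hcoef j, map_sub, map_sum, map_sum, LinearMap.sub_apply, LinearMap.sum_apply, LinearMap.sum_apply]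
    congr 1
    · refine Finset.sum_congr rfl (fun gi _ => ?_)
      rw [map_smul, map_smul, LinearMap.smul_apply]
    · refine Finset.sum_congr rfl (fun g _ => ?_)
      rw [hΦ]
      rfl
  rw [Finset.sum_congr rfl (fun j _ => h5 j), Finset.sum_sub_distrib, Finset.sum_comm]
  have h6 : ∀ gi : Γ × Fin n, ∑ j, Φ (m gi) ((e.repr (α gi.1 (e gi.2)) j) • e j) =
      Φ (m gi) (α gi.1 (e gi.2)) := by
    intro gi
    rw [← map_sum, e.sum_repr]
  rw [Finset.sum_congr rfl (fun gi _ => h6 gi), Fintype.sum_prod_type, Finset.sum_comm, sub_self]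

/-- rank of a quotient by an annihilator -/
theorem S2D_lin {M N : Type} [AddCommGroup M] [Module k M] [AddCommGroup N] [Module k N]
    (β : M →ₗ[k] N →ₗ[k] k) (U V : Submodule k M) (W : Submodule k N)
    (hV : ∀ l, l ∈ V ↔ ∀ x ∈ W, β l x = 0) :
    Cardinal.toENat (Module.rank k (U ⧸ (V.comap U.subtype))) =
      Cardinal.toENat (Module.rank k (LinearMap.range (β.flip.domRestrict₁₂ W U))) := by
  rw [rank_quot_eq β U V W hV, bil_rank_flip]
  rfl

/-! ### The pair -/

/-- `up` of the dual pair on the dual module: the functionals `b ∘ G` (`B` is finite-dimensional, so every homomorphism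
`B* → N*` is the transpose of a homomorphism `N → B`). -/
theorem Pr.dual_up (p : Pr D k) (hp : p.FD) (N : Md D k) (l : N.dual.C) :
    l ∈ p.dual.up N.dual ↔ ∃ G : N.C →ₗ[k] p.B.C, N.Hom p.B G ∧ ∀ x, (show N.C →ₗ[k] k from l) x = p.b (G x) := by
  have := hp.2
  constructor
  · rintro ⟨f, hf, rfl⟩
    obtain ⟨G, hG⟩ := S2D_transpose (B := p.B.C) (N := N.C) f
    refine ⟨G, fun g x => ?_, fun x => (hG x p.b).symm⟩
    apply S2D_sep (k := k)
    intro φ
    rw [hG]
    have h1 := LinearMap.congr_fun (hf g φ) x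
    exact h1.symm.trans (hG x (φ ∘ₗ p.B.Q.op g)).symm
  · rintro ⟨G, hG, hl⟩
    refine ⟨G.dualMap, fun g φ => ?_, ?_⟩
    · refine LinearMap.ext (fun x => ?_)
      exact congrArg (fun z => (show p.B.C →ₗ[k] k from φ) z) (hG g x).symm
    · refine LinearMap.ext (fun x => ?_)
      exact (hl x).symm

/-- `dn` of the dual pair on the dual module is the annihilator of `up`.

Proof of `←`: let `l` kill `{f a : f ∈ Hom(A,N)}` and let `Φ : N* → A*` be a homomorphism. `Hom(A,N)` is the kernel of the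
linear map `δ : Hom_k(A,N) → (D.Gen → Hom_k(A,N))`, `δ f g = f ∘ op_A g - op_N g ∘ f` (`D.Gen` is finite). The functional
`f ↦ l (f a)` on `Hom_k(A,N)` kills `ker δ`, so it is `μ ∘ δ` for a functional `μ` on `D.Gen → Hom_k(A,N)`. Identify
`Hom_k(A,N)* = A ⊗ N*` (a basis of `A`): the identity `l (f a) = Σ_g μ_g (f ∘ op_A g - op_N g ∘ f)` for all `f` means
`a ⊗ l = Σ_g Σ_e (op_A g e ⊗ μ_{g,e} - e ⊗ μ_{g,e} ∘ op_N g)` (`e` a basis of `A`, `μ_{g,e} ∈ N*`). Apply
`A ⊗ N* → k`, `x ⊗ m ↦ Φ m x`: every term on the right is `Φ μ (op g e) - Φ (μ ∘ op g) e = 0` because `Φ` is a homomorphism.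
So `Φ l a = 0`. -/
theorem Pr.dual_dn (p : Pr D k) (hp : p.FD) (N : Md D k) (l : N.dual.C) :
    l ∈ p.dual.dn N.dual ↔ ∀ x ∈ p.up N, (show N.C →ₗ[k] k from l) x = 0 := by
  have := hp.1
  constructor
  · rintro h x ⟨f, hf, rfl⟩
    have h1 := h (f.dualMap) (fun g φ => by
      refine LinearMap.ext (fun y => ?_)
      exact congrArg (fun z => (show N.C →ₗ[k] k from φ) z) (hf g y).symm)
    exact h1
  · intro h Φ hΦ
    exact S2D_main (A := p.A.C) (N := N.C) p.A.Q.op N.Q.op p.a l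
      (fun f hf => h (f p.a) ⟨f, hf, rfl⟩) Φ hΦ

/-- the same for `N.codual` (`N` over the opposite data): the elements of `up` are the functionals `F a`, with
`F : A → N*`, that is `m ↦ (G' m) a` for the homomorphisms `G' : N → A*` -/
theorem Pr.codual_up (p : Pr D k) (hp : p.FD) (N : Md D.op k) (l : N.codual.C) :
    l ∈ p.up N.codual ↔ ∃ G : N.C →ₗ[k] p.dual.B.C, N.Hom p.dual.B G ∧
      ∀ x, (show N.C →ₗ[k] k from l) x = p.dual.b (G x) := by
  constructor
  · rintro ⟨F, hF, rfl⟩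
    refine ⟨LinearMap.flip (show p.A.C →ₗ[k] N.C →ₗ[k] k from F), fun g x => ?_, fun x => rfl⟩
    refine LinearMap.ext (fun y => ?_)
    exact (LinearMap.congr_fun (hF g y) x).symm
  · rintro ⟨G, hG, hl⟩
    refine ⟨LinearMap.flip (show N.C →ₗ[k] p.A.C →ₗ[k] k from G), fun g y => ?_, ?_⟩
    · refine LinearMap.ext (fun x => ?_)
      exact (LinearMap.congr_fun (hG g x) y).symm
    · refine LinearMap.ext (fun x => ?_)
      exact (hl x).symm

theorem Pr.codual_dn (p : Pr D k) (hp : p.FD) (N : Md D.op k) (l : N.codual.C) :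
    l ∈ p.dn N.codual ↔ ∀ x ∈ p.dual.up N, (show N.C →ₗ[k] k from l) x = 0 := by
  have := hp.2
  constructor
  · rintro h x ⟨f, hf, rfl⟩
    obtain ⟨G, hG⟩ := S2D_transpose (B := p.B.C) (N := N.C →ₗ[k] k)
      ((show (p.B.C →ₗ[k] k) →ₗ[k] N.C from f).dualMap.flip)
    have hG' : ∀ (m : N.C →ₗ[k] k) (φ : p.B.C →ₗ[k] k), φ (G m) = m ((show (p.B.C →ₗ[k] k) →ₗ[k] N.C from f) φ) := by
      intro m φ
      exact hG m φ
    have h1 := h G (fun g m => by
      apply S2D_sep (k := k)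
      intro φ
      have h2 : φ (G (N.codual.Q.op g m)) = (show N.C →ₗ[k] k from m) (N.Q.op g ((show (p.B.C →ₗ[k] k) →ₗ[k] N.C from f) φ)) :=
        hG' _ φ
      have h3 : φ (p.B.Q.op g (G m)) = (show N.C →ₗ[k] k from m) ((show (p.B.C →ₗ[k] k) →ₗ[k] N.C from f) (φ ∘ₗ p.B.Q.op g)) :=
        hG' m (φ ∘ₗ p.B.Q.op g)
      refine h2.trans (Eq.trans ?_ h3.symm)
      exact congrArg (fun z => (show N.C →ₗ[k] k from m) z) (hf g φ).symm)
    exact (hG' l p.b).symm.trans h1
  · intro h G hG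
    have h1 := S2D_main (Γ := D.Gen) (A := p.B.C →ₗ[k] k) (N := N.C) (fun g => (p.B.Q.op g).dualMap) N.Q.op p.b l
      (fun f hf => h (f p.b) ⟨f, hf, rfl⟩)
      ((Dual.eval k p.B.C) ∘ₗ (show (N.C →ₗ[k] k) →ₗ[k] p.B.C from G)) (fun g m => by
        refine LinearMap.ext (fun φ => ?_)
        exact congrArg (fun z => (show p.B.C →ₗ[k] k from φ) z) (hG g m))
    exact h1

/-- Both are the rank of the form on `up N × {b ∘ G}` (`bil_rank_flip`). -/
theorem Pr.rk_dual (p : Pr D k) (hp : p.FD) (N : Md D k) : p.dual.rk N.dual = p.rk N := by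
  rw [Pr.rk_eq p N]
  have hU : p.dual.upS N.dual = @id (Submodule k N.dual.C) (p.cS N) := by
    refine Submodule.ext (fun l => ?_)
    refine (Pr.dual_up p hp N l).trans ?_
    constructor
    · rintro ⟨G, hG, hl⟩
      exact ⟨G, hG, LinearMap.ext (fun x => (hl x).symm)⟩
    · rintro ⟨G, hG, hl⟩
      exact ⟨G, hG, fun x => (LinearMap.congr_fun hl x).symm⟩
  refine (S2D_lin (M := N.dual.C) (N := N.C) (@id (N.dual.C →ₗ[k] N.C →ₗ[k] k) LinearMap.id)
    (p.dual.upS N.dual) (p.dual.dnS N.dual) (p.upS N) (fun l => Pr.dual_dn p hp N l)).trans ?_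
  rw [hU]
  rfl

theorem Pr.rk_codual (p : Pr D k) (hp : p.FD) (N : Md D.op k) : p.rk N.codual = p.dual.rk N := by
  rw [Pr.rk_eq p.dual N]
  have hU : p.upS N.codual = @id (Submodule k N.codual.C) (p.dual.cS N) := by
    refine Submodule.ext (fun l => ?_)
    refine (Pr.codual_up p hp N l).trans ?_
    constructor
    · rintro ⟨G, hG, hl⟩
      exact ⟨G, hG, LinearMap.ext (fun x => (hl x).symm)⟩
    · rintro ⟨G, hG, hl⟩
      exact ⟨G, hG, fun x => (LinearMap.congr_fun hl x).symm⟩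
  refine (S2D_lin (M := N.codual.C) (N := N.C) (@id (N.codual.C →ₗ[k] N.C →ₗ[k] k) LinearMap.id)
    (p.upS N.codual) (p.dnS N.codual) (p.dual.upS N) (fun l => Pr.codual_dn p hp N l)).trans ?_
  rw [hU]
  rfl

theorem Pr.rk_hat (p : Pr D k) (hp : p.FD) (N : Md D k) : p.rk N.dual.codual = p.rk N := by
  rw [Pr.rk_codual p hp, Pr.rk_dual p hp]

end StrAlg
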