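import Mathlib

/-!
# Regrouping a finite sum along the components of a partial shift
-/

set_option autoImplicit false

namespace StrAlg

section
variable {I : Type*} {A : Type*} [AddCommMonoid A]

/-- number of steps to the left end -/
noncomputable def lenL (S : I ≃ I) (link : I → Prop) (x : I) : ℕ :=
  open Classical in if h : ∃ n, ¬ link (S.symm^[n + 1] x) then Nat.find h else 0

/-- number of steps to the right end -/
noncomputable def lenR (S : I ≃ I) (link : I → Prop) (x : I) : ℕ :=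
  open Classical in if h : ∃ n, ¬ link (S^[n] x) then Nat.find h else 0

theorem lenL_spec {S : I ≃ I} {link : I → Prop} {x : I} (h : ∃ n, ¬ link (S.symm^[n + 1] x)) :
    ¬ link (S.symm^[lenL S link x + 1] x) ∧ ∀ i < lenL S link x, link (S.symm^[i + 1] x) := by
  classical
  unfold lenL
  rw [dif_pos h]
  exact ⟨Nat.find_spec h, fun i hi => by simpa using Nat.find_min h hi⟩

theorem lenR_spec {S : I ≃ I} {link : I → Prop} {x : I} (h : ∃ n, ¬ link (S^[n] x)) :
    ¬ link (S^[lenR S link x] x) ∧ ∀ i < lenR S link x, link (S^[i] x) := by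
  classical
  unfold lenR
  rw [dif_pos h]
  exact ⟨Nat.find_spec h, fun i hi => by simpa using Nat.find_min h hi⟩

theorem lenL_eq {S : I ≃ I} {link : I → Prop} {x : I} {n : ℕ} (h : ¬ link (S.symm^[n + 1] x))
    (h' : ∀ i < n, link (S.symm^[i + 1] x)) : lenL S link x = n := by
  obtain ⟨h1, h2⟩ := lenL_spec (S := S) (link := link) ⟨n, h⟩
  rcases lt_trichotomy (lenL S link x) n with h3 | h3 | h3
  · exact absurd (h' _ h3) h1
  · exact h3
  · exact absurd (h2 _ h3) h

theorem lenR_eq {S : I ≃ I} {link : I → Prop} {x : I} {n : ℕ} (h : ¬ link (S^[n] x))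
    (h' : ∀ i < n, link (S^[i] x)) : lenR S link x = n := by
  obtain ⟨h1, h2⟩ := lenR_spec (S := S) (link := link) ⟨n, h⟩
  rcases lt_trichotomy (lenR S link x) n with h3 | h3 | h3
  · exact absurd (h' _ h3) h1
  · exact h3
  · exact absurd (h2 _ h3) h

theorem symm_iter_iter (S : I ≃ I) (i j : ℕ) (h : i ≤ j) (y : I) :
    S.symm^[i] (S^[j] y) = S^[j - i] y := by
  obtain ⟨k, rfl⟩ := Nat.exists_eq_add_of_le h
  rw [Function.iterate_add_apply, Nat.add_sub_cancel_left]
  exact Function.LeftInverse.iterate S.left_inv i _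

theorem iter_symm_iter (S : I ≃ I) (i j : ℕ) (h : i ≤ j) (y : I) :
    S^[i] (S.symm^[j] y) = S.symm^[j - i] y := symm_iter_iter S.symm i j h y

/-- The components of a finitely supported function along a partial shift. -/
theorem regroup [DecidableEq I] (S : I ≃ I) (link : I → Prop) (t : I → A) (s : Finset I)
    (hs : ∀ x, x ∉ s → t x = 0)
    (hL : ∀ x, t x ≠ 0 → ∃ n, ¬ link (S.symm^[n + 1] x))
    (hR : ∀ x, t x ≠ 0 → ∃ n, ¬ link (S^[n] x)) :
    ∃ E : Finset I,
      (∀ y, y ∈ E ↔ (¬ link (S.symm y) ∧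
        ∃ i, (∀ j < i, link (S^[j] y)) ∧ t (S^[i] y) ≠ 0)) ∧
      (∀ y ∈ E, ¬ link (S^[lenR S link y] y) ∧ (∀ i < lenR S link y, link (S^[i] y))) ∧
      ∑ x ∈ s, t x = ∑ y ∈ E, ∑ i ∈ Finset.range (lenR S link y + 1), t (S^[i] y) := by
  classical
  set rep : I → I := fun x => S.symm^[lenL S link x] x with hrep
  set s' : Finset I := s.filter (fun x => t x ≠ 0) with hs'
  have hmem : ∀ x, x ∈ s' ↔ t x ≠ 0 := by
    intro x
    rw [hs', Finset.mem_filter]
    exact ⟨fun h => h.2, fun h => ⟨by by_contra h'; exact h (hs x h'), h⟩⟩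
  -- walking from a left end
  have hback : ∀ y i, ¬ link (S.symm y) → (∀ j < i, link (S^[j] y)) → rep (S^[i] y) = y := by
    intro y i hy hi
    have : lenL S link (S^[i] y) = i := by
      apply lenL_eq
      · rw [Function.iterate_succ_apply', symm_iter_iter S i i le_rfl]
        simpa using hy
      · intro j hj
        rw [symm_iter_iter S (j + 1) i (by omega)]
        exact hi _ (by omega)
    rw [hrep]
    simp only
    rw [this, symm_iter_iter S i i le_rfl]
    simp
  have hE1 : ∀ y, y ∈ s'.image rep ↔ (¬ link (S.symm y) ∧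
        ∃ i, (∀ j < i, link (S^[j] y)) ∧ t (S^[i] y) ≠ 0) := by
    intro y
    rw [Finset.mem_image]
    constructor
    · rintro ⟨x, hx, rfl⟩
      rw [hmem] at hx
      obtain ⟨h1, h2⟩ := lenL_spec (hL x hx)
      refine ⟨?_, lenL S link x, ?_, ?_⟩
      · have h5 : S.symm^[lenL S link x + 1] x = S.symm (S.symm^[lenL S link x] x) :=
          Function.iterate_succ_apply' _ _ _
        rw [h5] at h1
        exact h1
      · intro j hj
        rw [hrep]
        simp only
        rw [iter_symm_iter S j _ (by omega)]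
        have := h2 (lenL S link x - j - 1) (by omega)
        rwa [show lenL S link x - j - 1 + 1 = lenL S link x - j by omega] at this
      · rw [hrep]
        simp only
        rw [iter_symm_iter S _ _ le_rfl]
        simpa using hx
    · rintro ⟨h1, i, h2, h3⟩
      exact ⟨S^[i] y, (hmem _).2 h3, hback y i h1 h2⟩
  have hE2 : ∀ y ∈ s'.image rep,
      ¬ link (S^[lenR S link y] y) ∧ (∀ i < lenR S link y, link (S^[i] y)) := by
    intro y hy
    rw [hE1] at hy
    obtain ⟨-, i, -, h3⟩ := hy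
    obtain ⟨n, hn⟩ := hR _ h3
    apply lenR_spec
    exact ⟨n + i, by rwa [Function.iterate_add_apply]⟩
  refine ⟨s'.image rep, hE1, hE2, ?_⟩
  have h1 : ∑ x ∈ s, t x = ∑ x ∈ s', t x := by
    rw [hs', Finset.sum_filter_ne_zero]
  rw [h1, ← Finset.sum_fiberwise_of_maps_to (g := rep) (t := s'.image rep)
    (fun x hx => Finset.mem_image_of_mem _ hx)]
  refine Finset.sum_congr rfl ?_
  intro y hy
  obtain ⟨hr1, hr2⟩ := hE2 y hy
  have hy' := (hE1 y).1 hy
  -- the nonzero part of the class
  have h2 : ∑ i ∈ Finset.range (lenR S link y + 1), t (S^[i] y) =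
      ∑ i ∈ (Finset.range (lenR S link y + 1)).filter (fun i => t (S^[i] y) ≠ 0), t (S^[i] y) := by
    rw [Finset.sum_filter_ne_zero]
  rw [h2]
  symm
  refine Finset.sum_bij (fun i _ => S^[i] y) ?_ ?_ ?_ ?_
  · intro i hi
    rw [Finset.mem_filter, Finset.mem_range] at hi
    rw [Finset.mem_filter, hmem]
    exact ⟨hi.2, hback y i hy'.1 (fun j hj => hr2 j (by omega))⟩
  · -- injectivity
    have key : ∀ i j, i < j → j ≤ lenR S link y → S^[i] y = S^[j] y → False := by
      intro i j hij hj h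
      have h3 : y = S^[j - i] y := by
        have := congrArg (S.symm^[i]) h
        rw [symm_iter_iter S i i le_rfl, symm_iter_iter S i j hij.le] at this
        simpa using this
      have h4 : S.symm y = S^[j - i - 1] y := by
        conv_lhs => rw [h3]
        have := symm_iter_iter S 1 (j - i) (by omega) y
        simpa using this
      exact hy'.1 (h4 ▸ hr2 (j - i - 1) (by omega))
    intro i hi j hj h
    rw [Finset.mem_filter, Finset.mem_range] at hi hj
    rcases lt_trichotomy i j with h3 | h3 | h3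
    · exact (key i j h3 (by omega) h).elim
    · exact h3
    · exact (key j i h3 (by omega) h.symm).elim
  · intro x hx
    rw [Finset.mem_filter, hmem] at hx
    obtain ⟨hx1, hx2⟩ := hx
    obtain ⟨h3, h4⟩ := lenL_spec (hL x hx1)
    have hxy : x = S^[lenL S link x] y := by
      rw [← hx2, hrep]
      simp only
      rw [iter_symm_iter S _ _ le_rfl]
      simp
    refine ⟨lenL S link x, ?_, hxy.symm⟩
    rw [Finset.mem_filter, Finset.mem_range, ← hxy]
    refine ⟨?_, hx1⟩
    by_contra hcon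
    apply hr1
    -- `lenR y < lenL x`, so the link at `lenR y` is present
    have h5 := h4 (lenL S link x - lenR S link y - 1) (by omega)
    have h6 : S^[lenR S link y] y = S.symm^[lenL S link x - lenR S link y] x := by
      have h7 : y = S.symm^[lenL S link x] x := hx2.symm
      have h8 := iter_symm_iter S (lenR S link y) (lenL S link x) (by omega) x
      rwa [← h7] at h8
    rw [h6]
    rwa [show lenL S link x - lenR S link y - 1 + 1 = lenL S link x - lenR S link y by omega] at h5
  · intro i _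
    rfl

/-- if all component sums vanish, then the sum vanishes -/
theorem regroup_zero [DecidableEq I] (S : I ≃ I) (link : I → Prop) (t : I → A) (s : Finset I)
    (hs : ∀ x, x ∉ s → t x = 0)
    (hL : ∀ x, t x ≠ 0 → ∃ n, ¬ link (S.symm^[n + 1] x))
    (hR : ∀ x, t x ≠ 0 → ∃ n, ¬ link (S^[n] x))
    (h0 : ∀ y n, ¬ link (S.symm y) → ¬ link (S^[n] y) → (∀ i < n, link (S^[i] y)) →
      (∃ i ≤ n, t (S^[i] y) ≠ 0) → ∑ i ∈ Finset.range (n + 1), t (S^[i] y) = 0) :
    ∑ x ∈ s, t x = 0 := by
  obtain ⟨E, hE1, hE2, h⟩ := regroup S link t s hs hL hR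
  rw [h]
  refine Finset.sum_eq_zero ?_
  intro y hy
  obtain ⟨h1, h2⟩ := hE2 y hy
  obtain ⟨h3, i, h4, h5⟩ := (hE1 y).1 hy
  refine h0 y _ h3 h1 h2 ⟨i, ?_, h5⟩
  by_contra hcon
  exact h1 (h4 _ (by omega))

/-- if all component sums except the one of `y₀` vanish, then the sum is the sum over this component -/
theorem regroup_one [DecidableEq I] (S : I ≃ I) (link : I → Prop) (t : I → A) (s : Finset I)
    (hs : ∀ x, x ∉ s → t x = 0)
    (hL : ∀ x, t x ≠ 0 → ∃ n, ¬ link (S.symm^[n + 1] x))
    (hR : ∀ x, t x ≠ 0 → ∃ n, ¬ link (S^[n] x))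
    (y₀ : I) (n₀ : ℕ) (hy1 : ¬ link (S.symm y₀)) (hy2 : ¬ link (S^[n₀] y₀))
    (hy3 : ∀ i < n₀, link (S^[i] y₀))
    (h0 : ∀ y n, y ≠ y₀ → ¬ link (S.symm y) → ¬ link (S^[n] y) → (∀ i < n, link (S^[i] y)) →
      (∃ i ≤ n, t (S^[i] y) ≠ 0) → ∑ i ∈ Finset.range (n + 1), t (S^[i] y) = 0) :
    ∑ x ∈ s, t x = ∑ i ∈ Finset.range (n₀ + 1), t (S^[i] y₀) := by
  obtain ⟨E, hE1, hE2, h⟩ := regroup S link t s hs hL hR
  have hlen : lenR S link y₀ = n₀ := lenR_eq hy2 hy3
  have h1 : ∀ y ∈ E, y ≠ y₀ → ∑ i ∈ Finset.range (lenR S link y + 1), t (S^[i] y) = 0 := by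
    intro y hy hne
    obtain ⟨h1, h2⟩ := hE2 y hy
    obtain ⟨h3, i, h4, h5⟩ := (hE1 y).1 hy
    refine h0 y _ hne h3 h1 h2 ⟨i, ?_, h5⟩
    by_contra hcon
    exact h1 (h4 _ (by omega))
  rw [h]
  by_cases hm : y₀ ∈ E
  · rw [Finset.sum_eq_single_of_mem y₀ hm h1, hlen]
  · rw [Finset.sum_eq_zero (fun y hy => h1 y hy (fun hh => hm (hh ▸ hy)))]
    symm
    refine Finset.sum_eq_zero ?_
    intro i hi
    by_contra hne
    apply hm
    rw [hE1]
    rw [Finset.mem_range] at hi
    exact ⟨hy1, i, fun j hj => hy3 j (by omega), hne⟩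

end

end StrAlg
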