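import Pool.Agent.Lib.MP_b9fd58_lc.Ln
import Pool.Agent.Lib.MP_b9fd58_lc.Regroup

/-!
# Kernels on lines, and the vanishing of `c'(G f c)` under the criterion
-/

set_option autoImplicit false

namespace StrAlg

section ker
variable {ι : Type*} {nx : ι → Bool → Fin 3 → ι × Bool}

/-- Kernels: supported on matched positions, in the right order, constant along common letters, and zero on infinite
classes. -/
structure IsKer {E : Type*} [Zero E] (X Y : Ln ι nx) (F : ℤ → ℤ → E) : Prop where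
  vx : ∀ a q, F a q ≠ 0 → X.v a = Y.v q
  le : ∀ o a q, Mt X Y o a q → F a q ≠ 0 → LeD X Y o a q
  step : ∀ o a q, Mt X Y o a q → Lk X Y o true a q → F (st true a) (st (true == o) q) = F a q
  fin : ∀ o e a q, Mt X Y o a q → F a q ≠ 0 → ∃ n, ¬ AgD X Y o e a q n

theorem IsKer.step' {E : Type*} [Zero E] {X Y : Ln ι nx} {F : ℤ → ℤ → E} (h : IsKer X Y F)
    {o e : Bool} {a q : ℤ} (hm : Mt X Y o a q) (hl : Lk X Y o e a q) :
    F (st e a) (st (e == o) q) = F a q := by
  cases e with
  | true => exact h.step o a q hm hl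
  | false =>
    have h1 := hm.step hl
    have h2 := hl.back
    have h3 := h.step o _ _ h1 h2
    rw [← h3]
    cases o <;> simp

theorem AgD_of_lk {X Y : Ln ι nx} {o e : Bool} {a q : ℤ} {n : ℕ}
    (h : ∀ i < n, Lk X Y o e (stn e i a) (stn (e == o) i q)) : AgD X Y o e a q n := by
  induction n with
  | zero => exact AgD.zero
  | succ n ih =>
    rw [AgD_succ']
    exact ⟨ih (fun i hi => h i (by omega)), h n (by omega)⟩

theorem AgD.lk {X Y : Ln ι nx} {o e : Bool} {a q : ℤ} {n : ℕ} (h : AgD X Y o e a q n) :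
    ∀ i < n, Lk X Y o e (stn e i a) (stn (e == o) i q) := by
  intro i hi
  have := h.mono (Nat.succ_le_of_lt hi)
  rw [Nat.succ_eq_add_one, AgD_succ'] at this
  exact this.2

theorem IsKer.walk {E : Type*} [Zero E] {X Y : Ln ι nx} {F : ℤ → ℤ → E} (hF : IsKer X Y F)
    {o e : Bool} {a q : ℤ} {n : ℕ} (hm : Mt X Y o a q) (h : AgD X Y o e a q n) :
    F (stn e n a) (stn (e == o) n q) = F a q := by
  induction n with
  | zero => simp
  | succ n ih =>
    have h1 := (AgD_succ'.1 h)
    have h2 := ih h1.1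
    have h3 : Mt X Y o (stn e n a) (stn (e == o) n q) := (h1.1.walk).1.2 hm
    rw [← h2, ← hF.step' h3 h1.2]
    congr 1
    · rw [← stn_one, stn_stn]; push_cast; rfl
    · rw [← stn_one, stn_stn]; push_cast; rfl

end ker

/-! ### periodicity -/

/-- representative in `ℤ` -/
def cst {l : ℕ} (x : ZMod l) : ℤ := x.cast

theorem cst_coe {l : ℕ} (x : ZMod l) : ((cst x : ℤ) : ZMod l) = x := by
  unfold cst
  simp

theorem cst_int {l : ℕ} (a : ℤ) : ∃ k : ℤ, cst (a : ZMod l) = a + k * l := by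
  have h : ((cst (a : ZMod l) : ℤ) : ZMod l) = (a : ZMod l) := cst_coe _
  rw [ZMod.intCast_eq_intCast_iff_dvd_sub] at h
  obtain ⟨k, hk⟩ := h
  refine ⟨-k, ?_⟩
  linarith

/-- invariance under translations by multiples of the period -/
def Per {β : Type*} (l : ℕ) (P : ℤ → β) : Prop := ∀ a, P (a + l) = P a

theorem Per.mul {β : Type*} {l : ℕ} {P : ℤ → β} (h : Per l P) (a k : ℤ) : P (a + k * l) = P a := by
  have h1 : ∀ n : ℕ, ∀ a, P (a + n * l) = P a := by
    intro n
    induction n with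
    | zero => intro a; simp
    | succ n ih =>
      intro a
      have : a + ((n + 1 : ℕ) : ℤ) * l = (a + n * l) + l := by push_cast; ring
      rw [this, h, ih]
  obtain ⟨n, rfl | rfl⟩ := k.eq_nat_or_neg
  · exact h1 n a
  · have := h1 n (a + -n * l)
    rw [← this]; congr 1; ring

theorem Per.cst {β : Type*} {l : ℕ} {P : ℤ → β} (h : Per l P) (a : ℤ) :
    P (cst (a : ZMod l)) = P a := by
  obtain ⟨k, hk⟩ := cst_int (l := l) a
  rw [hk, h.mul]

theorem Per.of_coe {β : Type*} {l : ℕ} {P : ℤ → β} (h : Per l P) {a b : ℤ}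
    (hab : (a : ZMod l) = (b : ZMod l)) : P a = P b := by
  rw [← h.cst a, ← h.cst b, hab]

section
variable {ι : Type*} {nx : ι → Bool → Fin 3 → ι × Bool}

/-- `l` is a period of the line -/
structure Ln.IsPer (L : Ln ι nx) (l : ℕ) : Prop where
  lam : Per l L.lam
  v : Per l L.v
  r : Per l L.r

theorem Ln.IsPer.lt {L : Ln ι nx} {l : ℕ} (h : L.IsPer l) (e : Bool) : Per l (L.lt e) := by
  intro a
  unfold Ln.lt
  cases e with
  | true => simpa using h.lam a
  | false =>
    have := h.lam (a - 1)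
    simp only [Bool.false_eq_true, if_false]
    rw [← this]; congr 2; ring

end

section reg
variable {ι : Type*} {nx : ι → Bool → Fin 3 → ι × Bool}
variable {k VX VW VY : Type*} [Field k] [AddCommGroup VX] [Module k VX] [AddCommGroup VW] [Module k VW]
  [AddCommGroup VY] [Module k VY]

/-- index set of the sum: orientations, positions of `X`, `w`, `Y` -/
abbrev Ix (lX lw lY : ℕ) : Type := (Bool × Bool) × (ZMod lX × ZMod lw × ZMod lY)

/-- one step in direction `e` in `ZMod l` -/
def stz {l : ℕ} (e : Bool) (x : ZMod l) : ZMod l := if e then x + 1 else x - 1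

theorem stz_coe {l : ℕ} (e : Bool) (a : ℤ) : stz e (a : ZMod l) = ((st e a : ℤ) : ZMod l) := by
  cases e <;> simp [stz, st]

/-- the shift on the index set -/
def Sh (lX lw lY : ℕ) : Ix lX lw lY ≃ Ix lX lw lY where
  toFun x := (x.1, (stz x.1.1 x.2.1, stz true x.2.2.1, stz x.1.2 x.2.2.2))
  invFun x := (x.1, (stz (!x.1.1) x.2.1, stz false x.2.2.1, stz (!x.1.2) x.2.2.2))
  left_inv := by
    rintro ⟨⟨o, o'⟩, x, y, z⟩
    cases o <;> cases o' <;> simp [stz]
  right_inv := by
    rintro ⟨⟨o, o'⟩, x, y, z⟩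
    cases o <;> cases o' <;> simp [stz]

/-- The criterion at the left ends of the classes (`κ` arbitrary). -/
def CritL (X w Y : Ln ι nx) (PX Pw PY : ℤ → Prop) (c : ℤ → VX) (c' : ℤ → VY →ₗ[k] k) : Prop :=
  ∀ (o o' : Bool) (a q b : ℤ) (n : ℕ), PX a → Pw q → PY b → Mt X w o a q → Mt w Y o' q b →
    LeD X w o a q → LeD w Y o' q b →
    (∀ e, ∃ m, ¬ AgD X w o e a q m) → (∀ e, ∃ m, ¬ AgD w Y o' e q b m) →
    ¬ (Lk X w o (!o) a q ∧ Lk w Y o' false q b) →
    AgD X w o o a q n → AgD w Y o' true q b n →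
    ¬ (Lk X w o o (stn o n a) (q + n) ∧ Lk w Y o' true (q + n) (stn o' n b)) →
    ∀ κ : VX →ₗ[k] VY, ∑ i ∈ Finset.range (n + 1), c' (stn o' i b) (κ (c (stn o i a))) = 0

theorem reg_zero (X w Y : Ln ι nx) (lX lw lY : ℕ) (hX : X.IsPer lX) (hw : w.IsPer lw) (hY : Y.IsPer lY)
    (c : ℤ → VX) (c' : ℤ → VY →ₗ[k] k) (F : ℤ → ℤ → VX →ₗ[k] VW) (G : ℤ → ℤ → VW →ₗ[k] VY)
    (hF : IsKer X w F) (hG : IsKer w Y G)
    (htX : ∀ q b, Per lX (fun a => c' b (G q b (F a q (c a)))))
    (htw : ∀ a b, Per lw (fun q => c' b (G q b (F a q (c a)))))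
    (htY : ∀ a q, Per lY (fun b => c' b (G q b (F a q (c a)))))
    {PX Pw PY : ℤ → Prop} (hPF : ∀ a q, F a q ≠ 0 → PX a ∧ Pw q) (hPG : ∀ q b, G q b ≠ 0 → PY b)
    (hcrit : CritL X w Y PX Pw PY c c')
    (A : Finset (ZMod lX)) (B : Finset (ZMod lw)) (C : Finset (ZMod lY))
    (hA : ∀ (x : ZMod lX), x ∉ A → ∀ (y : ZMod lw) (z : ZMod lY), c' (cst z) (G (cst y) (cst z) (F (cst x) (cst y) (c (cst x)))) = 0)
    (hB : ∀ (y : ZMod lw), y ∉ B → ∀ (x : ZMod lX) (z : ZMod lY), c' (cst z) (G (cst y) (cst z) (F (cst x) (cst y) (c (cst x)))) = 0)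
    (hC : ∀ (z : ZMod lY), z ∉ C → ∀ (x : ZMod lX) (y : ZMod lw), c' (cst z) (G (cst y) (cst z) (F (cst x) (cst y) (c (cst x)))) = 0) :
    ∑ x ∈ A, ∑ y ∈ B, ∑ z ∈ C, c' (cst z) (G (cst y) (cst z) (F (cst x) (cst y) (c (cst x)))) = 0 := by
  classical
  set tt : ℤ → ℤ → ℤ → k := fun a q b => c' b (G q b (F a q (c a))) with htt
  -- full periodicity
  have per3 : ∀ {a a' q q' b b' : ℤ}, (a : ZMod lX) = (a' : ZMod lX) → (q : ZMod lw) = (q' : ZMod lw) →
      (b : ZMod lY) = (b' : ZMod lY) → tt a q b = tt a' q' b' := by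
    intro a a' q q' b b' h1 h2 h3
    have e1 : tt a q b = tt a' q b := (htX q b).of_coe h1
    have e2 : tt a' q b = tt a' q' b := (htw a' b).of_coe h2
    have e3 : tt a' q' b = tt a' q' b' := (htY a' q').of_coe h3
    rw [e1, e2, e3]
  have perMtX : ∀ {o : Bool} {a a' q q' : ℤ}, (a : ZMod lX) = (a' : ZMod lX) → (q : ZMod lw) = (q' : ZMod lw) →
      (Mt X w o a q ↔ Mt X w o a' q') := by
    intro o a a' q q' h1 h2
    unfold Mt
    rw [hX.v.of_coe h1, hX.r.of_coe h1, hw.v.of_coe h2, hw.r.of_coe h2]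
  have perMtY : ∀ {o : Bool} {q q' b b' : ℤ}, (q : ZMod lw) = (q' : ZMod lw) → (b : ZMod lY) = (b' : ZMod lY) →
      (Mt w Y o q b ↔ Mt w Y o q' b') := by
    intro o q q' b b' h2 h3
    unfold Mt
    rw [hY.v.of_coe h3, hY.r.of_coe h3, hw.v.of_coe h2, hw.r.of_coe h2]
  have perLkX : ∀ {o e : Bool} {a a' q q' : ℤ}, (a : ZMod lX) = (a' : ZMod lX) → (q : ZMod lw) = (q' : ZMod lw) →
      (Lk X w o e a q ↔ Lk X w o e a' q') := by
    intro o e a a' q q' h1 h2
    unfold Lk
    rw [(hX.lt e).of_coe h1, (hw.lt (e == o)).of_coe h2]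
  have perLkY : ∀ {o e : Bool} {q q' b b' : ℤ}, (q : ZMod lw) = (q' : ZMod lw) → (b : ZMod lY) = (b' : ZMod lY) →
      (Lk w Y o e q b ↔ Lk w Y o e q' b') := by
    intro o e q q' b b' h2 h3
    unfold Lk
    rw [(hw.lt e).of_coe h2, (hY.lt (e == o)).of_coe h3]
  -- the function and the links on the index set
  set mt : Ix lX lw lY → Prop := fun x =>
    Mt X w x.1.1 (cst x.2.1) (cst x.2.2.1) ∧ Mt w Y x.1.2 (cst x.2.2.1) (cst x.2.2.2) with hmt
  set t : Ix lX lw lY → k := fun x => if mt x then tt (cst x.2.1) (cst x.2.2.1) (cst x.2.2.2) else 0 with ht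
  set link : Ix lX lw lY → Prop := fun x =>
    Lk X w x.1.1 x.1.1 (cst x.2.1) (cst x.2.2.1) ∧ Lk w Y x.1.2 true (cst x.2.2.1) (cst x.2.2.2) with hlink
  -- iterates of the shift
  have hS : ∀ (o o' : Bool) (a q b : ℤ) (n : ℕ),
      (Sh lX lw lY)^[n] ((o, o'), ((a : ZMod lX), (q : ZMod lw), (b : ZMod lY))) =
        ((o, o'), (((stn o n a : ℤ) : ZMod lX), ((q + n : ℤ) : ZMod lw), ((stn o' n b : ℤ) : ZMod lY))) := by
    intro o o' a q b n
    induction n with
    | zero => simp
    | succ n ih =>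
      rw [Function.iterate_succ_apply', ih]
      simp only [Sh, Equiv.coe_fn_mk, stz_coe]
      cases o <;> cases o' <;> simp [st, stn] <;> refine ⟨?_, ?_, ?_⟩ <;> ring
  have hS' : ∀ (o o' : Bool) (a q b : ℤ) (n : ℕ),
      (Sh lX lw lY).symm^[n] ((o, o'), ((a : ZMod lX), (q : ZMod lw), (b : ZMod lY))) =
        ((o, o'), (((stn (!o) n a : ℤ) : ZMod lX), ((q - n : ℤ) : ZMod lw), ((stn (!o') n b : ℤ) : ZMod lY))) := by
    intro o o' a q b n
    induction n with
    | zero => simp
    | succ n ih =>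
      rw [Function.iterate_succ_apply', ih]
      simp only [Sh, Equiv.coe_fn_symm_mk, stz_coe]
      cases o <;> cases o' <;> simp [st, stn] <;> refine ⟨?_, ?_, ?_⟩ <;> ring
  have hrep : ∀ x : Ix lX lw lY, x = ((x.1.1, x.1.2),
      (((cst x.2.1 : ℤ) : ZMod lX), ((cst x.2.2.1 : ℤ) : ZMod lw), ((cst x.2.2.2 : ℤ) : ZMod lY))) := by
    rintro ⟨⟨o, o'⟩, x, y, z⟩
    simp [cst_coe]
  have tcoe : ∀ (o o' : Bool) (a q b : ℤ), t ((o, o'), ((a : ZMod lX), (q : ZMod lw), (b : ZMod lY))) =
      if Mt X w o a q ∧ Mt w Y o' q b then tt a q b else 0 := by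
    intro o o' a q b
    simp only [ht, hmt]
    rw [perMtX (cst_coe _) (cst_coe _), perMtY (cst_coe _) (cst_coe _), per3 (cst_coe _) (cst_coe _) (cst_coe _)]
  have lcoe : ∀ (o o' : Bool) (a q b : ℤ), link ((o, o'), ((a : ZMod lX), (q : ZMod lw), (b : ZMod lY))) ↔
      (Lk X w o o a q ∧ Lk w Y o' true q b) := by
    intro o o' a q b
    simp only [hlink]
    rw [perLkX (cst_coe _) (cst_coe _), perLkY (cst_coe _) (cst_coe _)]
  -- nonzero terms
  have hne : ∀ (o o' : Bool) (a q b : ℤ), t ((o, o'), ((a : ZMod lX), (q : ZMod lw), (b : ZMod lY))) ≠ 0 →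
      Mt X w o a q ∧ Mt w Y o' q b ∧ F a q ≠ 0 ∧ G q b ≠ 0 := by
    intro o o' a q b h
    rw [tcoe] at h
    by_cases hm : Mt X w o a q ∧ Mt w Y o' q b
    · rw [if_pos hm] at h
      refine ⟨hm.1, hm.2, ?_, ?_⟩
      · intro h'; apply h; simp [htt, h']
      · intro h'; apply h; simp [htt, h']
    · rw [if_neg hm] at h; exact absurd rfl h
  have boo : ∀ o : Bool, (o == o) = true := by intro o; cases o <;> rfl
  have bto : ∀ o : Bool, (true == o) = o := by intro o; cases o <;> rfl
  have bno : ∀ o : Bool, ((!o) == o) = false := by intro o; cases o <;> rfl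
  have bfo : ∀ o : Bool, (false == o) = !o := by intro o; cases o <;> rfl
  -- the sum over the index set vanishes
  have main : ∑ x ∈ (Finset.univ : Finset (Bool × Bool)) ×ˢ (A ×ˢ (B ×ˢ C)), t x = 0 := by
    refine regroup_zero (Sh lX lw lY) link t _ ?_ ?_ ?_ ?_
    · rintro ⟨⟨o, o'⟩, x, y, z⟩ hx
      simp only [Finset.mem_product, Finset.mem_univ, true_and, not_and_or] at hx
      simp only [ht]
      split_ifs with hm
      · rcases hx with hx | hx | hx
        · exact hA x hx y z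
        · exact hB y hx x z
        · exact hC z hx x y
      · rfl
    · intro x hx
      rw [hrep x] at hx ⊢
      obtain ⟨h1, h2, h3, h4⟩ := hne _ _ _ _ _ hx
      obtain ⟨m, hm⟩ := hF.fin _ (!x.1.1) _ _ h1 h3
      by_contra hcon
      push Not at hcon
      apply hm
      apply AgD_of_lk
      intro i _
      have h5 := hcon i
      rw [hS', lcoe] at h5
      have h6 := h5.1.back
      rw [boo] at h6
      rw [bno]
      have e1 : st x.1.1 (stn (!x.1.1) ((i + 1 : ℕ) : ℤ) (cst x.2.1)) = stn (!x.1.1) i (cst x.2.1) := by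
        cases x.1.1 <;> simp <;> ring
      have e2 : st true (cst x.2.2.1 - ((i + 1 : ℕ) : ℤ)) = stn false i (cst x.2.2.1) := by
        simp; ring
      rwa [e1, e2] at h6
    · intro x hx
      rw [hrep x] at hx ⊢
      obtain ⟨h1, h2, h3, h4⟩ := hne _ _ _ _ _ hx
      obtain ⟨m, hm⟩ := hF.fin _ (x.1.1) _ _ h1 h3
      by_contra hcon
      push Not at hcon
      apply hm
      apply AgD_of_lk
      intro i _
      have h5 := hcon i
      rw [hS, lcoe] at h5
      rw [boo]
      exact h5.1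
    · intro x n hx1 hx2 hx3 hx4
      obtain ⟨i0, hi0, hne0⟩ := hx4
      rw [hrep x] at hx1 hx2 hx3 hne0 ⊢
      set a := cst x.2.1
      set q := cst x.2.2.1
      set b := cst x.2.2.2
      set o := x.1.1
      set o' := x.1.2
      have hlk : ∀ i < n, Lk X w o o (stn o i a) (q + i) ∧ Lk w Y o' true (q + i) (stn o' i b) := by
        intro i hi
        have := hx3 i hi
        rwa [hS, lcoe] at this
      have hag1 : AgD X w o o a q n := by
        apply AgD_of_lk
        intro i hi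
        rw [boo]
        exact (hlk i hi).1
      have hag2 : AgD w Y o' true q b n := by
        apply AgD_of_lk
        intro i hi
        rw [bto]
        exact (hlk i hi).2
      rw [hS] at hne0
      obtain ⟨m1, m2, m3, m4⟩ := hne _ _ _ _ _ hne0
      have w1 := (hag1.mono hi0).walk
      have w2 := (hag2.mono hi0).walk
      rw [boo] at w1
      rw [bto] at w2
      have n1 : Mt X w o a q := w1.1.1 m1
      have n2 : Mt w Y o' q b := w2.1.1 m2
      have f1 : ∀ i ≤ n, F (stn o i a) (q + i) = F a q := by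
        intro i hi
        have := hF.walk n1 (hag1.mono hi)
        rwa [boo] at this
      have f2 : ∀ i ≤ n, G (q + i) (stn o' i b) = G q b := by
        intro i hi
        have := hG.walk n2 (hag2.mono hi)
        rwa [bto] at this
      rw [f1 i0 hi0] at m3
      rw [f2 i0 hi0] at m4
      have hc := hcrit o o' a q b n (hPF _ _ m3).1 (hPF _ _ m3).2 (hPG _ _ m4) n1 n2 (hF.le _ _ _ n1 m3) (hG.le _ _ _ n2 m4)
        (fun e => hF.fin _ _ _ _ n1 m3) (fun e => hG.fin _ _ _ _ n2 m4) ?_ hag1 hag2 ?_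
        ((G q b).comp (F a q))
      · rw [← hc]
        refine Finset.sum_congr rfl ?_
        intro i hi
        rw [Finset.mem_range] at hi
        have hi' : i ≤ n := by omega
        rw [hS, tcoe, if_pos]
        · simp only [htt]
          rw [f1 i hi', f2 i hi']
          rfl
        · have v1 := (hag1.mono hi').walk
          have v2 := (hag2.mono hi').walk
          rw [boo] at v1
          rw [bto] at v2
          exact ⟨v1.1.2 n1, v2.1.2 n2⟩
      · rintro ⟨g1, g2⟩
        apply hx1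
        have hS1 := hS' o o' a q b 1
        simp only [Function.iterate_one] at hS1
        rw [hS1, lcoe]
        have g1' := g1.back
        have g2' := g2.back
        rw [bno, Bool.not_not] at g1'
        rw [bfo, Bool.not_false] at g2'
        have e1 : stn (!o) ((1 : ℕ) : ℤ) a = st (!o) a := by
          rw [← stn_one]; rfl
        have e2 : q - ((1 : ℕ) : ℤ) = st false q := by simp
        have e3 : stn (!o') ((1 : ℕ) : ℤ) b = st (!o') b := by
          rw [← stn_one]; rfl
        rw [e1, e2, e3]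
        exact ⟨g1', g2'⟩
      · intro h
        apply hx2
        rw [hS, lcoe]
        exact h
  rw [Finset.sum_product_right, Finset.sum_product] at main
  rw [← main]
  refine Finset.sum_congr rfl ?_
  intro x _
  rw [Finset.sum_product]
  refine Finset.sum_congr rfl ?_
  intro y _
  refine Finset.sum_congr rfl ?_
  intro z _
  have key : ∀ oo : Bool × Bool, t (oo, (x, (y, z))) =
      if oo = ((X.r (cst x) == w.r (cst y)), (w.r (cst y) == Y.r (cst z))) then tt (cst x) (cst y) (cst z) else 0 := by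
    rintro ⟨o, o'⟩
    simp only [ht, hmt]
    by_cases h0 : tt (cst x) (cst y) (cst z) = 0
    · simp [h0]
    · have g1 : F (cst x) (cst y) ≠ 0 := by intro h'; apply h0; simp [htt, h']
      have g2 : G (cst y) (cst z) ≠ 0 := by intro h'; apply h0; simp [htt, h']
      have v1 := hF.vx _ _ g1
      have v2 := hG.vx _ _ g2
      unfold Mt
      congr 1
      simp only [v1, v2, true_and, Prod.mk.injEq, eq_iff_iff]
      constructor
      · rintro ⟨h1, h2⟩; exact ⟨h1.symm, h2.symm⟩
      · rintro ⟨h1, h2⟩; exact ⟨h1.symm, h2.symm⟩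
  simp only [key]
  rw [Finset.sum_ite_eq' Finset.univ, if_pos (Finset.mem_univ _)]

end reg

end StrAlg
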