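import Pool.Agent.Lib.MP_b9fd58_lc.IfDefs

/-!
# Stage 2: ranks of pairs, quotients, pure embeddings (definitions)
-/

set_option autoImplicit false

namespace StrAlg

open Module

variable {D : Dat} {k : Type} [Field k]

theorem IsHom.add' {M N : Md D k} {f g : M.C →ₗ[k] N.C} (hf : M.Hom N f) (hg : M.Hom N g) : M.Hom N (f + g) := by
  intro x m
  rw [LinearMap.add_apply, hf x m, hg x m, LinearMap.add_apply, map_add]

theorem IsHom.smul' {M N : Md D k} {f : M.C →ₗ[k] N.C} (hf : M.Hom N f) (c : k) : M.Hom N (c • f) := by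
  intro x m
  rw [LinearMap.smul_apply, hf x m, LinearMap.smul_apply, map_smul]

theorem IsHom.zero' {M N : Md D k} : M.Hom N (0 : M.C →ₗ[k] N.C) := by
  intro x m
  rw [LinearMap.zero_apply, LinearMap.zero_apply, map_zero]

theorem IsHom.comp' {L M N : Md D k} {f : L.C →ₗ[k] M.C} {g : M.C →ₗ[k] N.C} (hf : L.Hom M f) (hg : M.Hom N g) :
    L.Hom N (g ∘ₗ f) := by
  intro x m
  rw [LinearMap.comp_apply, hf x m, hg x (f m), LinearMap.comp_apply]

theorem IsHom.sum' {M N : Md D k} {ι : Type*} (s : Finset ι) (f : ι → M.C →ₗ[k] N.C) (h : ∀ i ∈ s, M.Hom N (f i)) :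
    M.Hom N (∑ i ∈ s, f i) := by
  intro x m
  rw [LinearMap.sum_apply, LinearMap.sum_apply, map_sum]
  exact Finset.sum_congr rfl (fun i hi => h i hi x m)

/-- `φ(N)` as a subspace -/
def Pr.upS (p : Pr D k) (N : Md D k) : Submodule k N.C where
  carrier := p.up N
  zero_mem' := ⟨0, IsHom.zero', rfl⟩
  add_mem' := by
    rintro x y ⟨f, hf, rfl⟩ ⟨g, hg, rfl⟩
    exact ⟨f + g, hf.add' hg, rfl⟩
  smul_mem' := by
    rintro c x ⟨f, hf, rfl⟩
    exact ⟨c • f, hf.smul' c, rfl⟩

/-- `ψ(N)` as a subspace -/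
def Pr.dnS (p : Pr D k) (N : Md D k) : Submodule k N.C where
  carrier := p.dn N
  zero_mem' := by
    intro G _
    rw [map_zero, map_zero]
  add_mem' := by
    intro x y hx hy G hG
    rw [map_add, map_add, hx G hG, hy G hG, add_zero]
  smul_mem' := by
    intro c x hx G hG
    rw [map_smul, map_smul, hx G hG, smul_zero]

theorem Pr.mem_upS {p : Pr D k} {N : Md D k} {x : N.C} : x ∈ p.upS N ↔ x ∈ p.up N := Iff.rfl
theorem Pr.mem_dnS {p : Pr D k} {N : Md D k} {x : N.C} : x ∈ p.dnS N ↔ x ∈ p.dn N := Iff.rfl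

/-- the rank of the pair on the module -/
noncomputable def Pr.rk (p : Pr D k) (N : Md D k) : ℕ∞ :=
  Cardinal.toENat (Module.rank k (p.upS N ⧸ ((p.dnS N).comap (p.upS N).subtype)))

/-- the pair is given by pp-systems -/
def Pr.IsPP (p : Pr D k) : Prop := ∃ φ ψ : PP D k, ∀ N : Md D k, N.Q.pp φ = p.up N ∧ N.Q.pp ψ = p.dn N

/-- the matrix `b (G_i (f_j a))` -/
noncomputable def Pr.mat (p : Pr D k) {N : Md D k} {n : ℕ} (f : Fin n → p.A.C →ₗ[k] N.C) (G : Fin n → N.C →ₗ[k] p.B.C) :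
    Matrix (Fin n) (Fin n) k := Matrix.of fun i j => p.b (G i (f j p.a))

/-! ### Pure submodules -/

/-- quotient by an invariant subspace -/
def QMod.quo {N : Type} [AddCommGroup N] [Module k N] (Q : QMod D k N) (P : Submodule k N)
    (h : ∀ g, ∀ n ∈ P, Q.op g n ∈ P) : QMod D k (N ⧸ P) where
  op g := P.mapQ P (Q.op g) (fun n hn => h g n hn)
  idem i n := by
    obtain ⟨n, rfl⟩ := P.mkQ_surjective n
    simp only [Submodule.mkQ_apply, Submodule.mapQ_apply, Q.idem]
  orth i j n hij := by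
    obtain ⟨n, rfl⟩ := P.mkQ_surjective n
    simp only [Submodule.mkQ_apply, Submodule.mapQ_apply, Q.orth _ _ _ hij, Submodule.Quotient.mk_zero]
  one n := by
    obtain ⟨n, rfl⟩ := P.mkQ_surjective n
    have h1 := map_sum P.mkQ (fun i => Q.op (Sum.inl i) n) Finset.univ
    rw [Q.one] at h1
    exact h1.symm
  src a n := by
    obtain ⟨n, rfl⟩ := P.mkQ_surjective n
    simp only [Submodule.mkQ_apply, Submodule.mapQ_apply, Q.src]
  tgt a n := by
    obtain ⟨n, rfl⟩ := P.mkQ_surjective n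
    simp only [Submodule.mkQ_apply, Submodule.mapQ_apply, Q.tgt]
  rel r hr n := by
    obtain ⟨n, rfl⟩ := P.mkQ_surjective n
    have key : ∀ (r : List (Fin D.nE)) (n : N),
        (r.foldl (fun m a => (P.mapQ P (Q.op (Sum.inr a)) (fun n hn => h (Sum.inr a) n hn)) m) (P.mkQ n) : N ⧸ P) =
          P.mkQ (r.foldl (fun m a => Q.op (Sum.inr a) m) n) := by
      intro r
      induction r with
      | nil => intro n; rfl
      | cons a r ih => intro n; simp only [List.foldl_cons]; rw [← ih]; rfl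
    rw [key, Q.rel r hr, map_zero]

/-- A finite system of linear equations with a right-hand side: `∑ v_{n_j} · c_j = m`. -/
def QMod.SysR {N : Type} [AddCommGroup N] [Module k N] (Q : QMod D k N) (S : List (List (ElCode D k × ℕ) × N))
    (v : ℕ → N) : Prop :=
  ∀ e ∈ S, (e.1.map (fun t => Q.act t.1 (v t.2))).sum = e.2

/-- `i : M → N` is a pure embedding: finite systems with right-hand side in `M` that are solvable in `N` are
solvable in `M`. -/
def Md.PureEmb (M N : Md D k) (i : M.C →ₗ[k] N.C) : Prop :=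
  M.Hom N i ∧ Function.Injective i ∧
    ∀ S : List (List (ElCode D k × ℕ) × M.C), (∃ v, N.Q.SysR (S.map fun e => (e.1, i e.2)) v) → ∃ v, M.Q.SysR S v

/-- the quotient module -/
def Md.quoR {M N : Md D k} (i : M.C →ₗ[k] N.C) (hi : M.Hom N i) : Md D k :=
  ⟨N.C ⧸ LinearMap.range i, N.Q.quo (LinearMap.range i) (by
    rintro g _ ⟨m, rfl⟩
    exact ⟨M.Q.op g m, hi g m⟩)⟩


end StrAlg
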