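import Pool.Agent.Lib.MP_b9fd58_lc.If2Defs
import Pool.Agent.Lib.MP_b9fd58_lc.GAsym

/-!
# Stage 2: relations along a string in a module over the opposite data; tails
-/

set_option autoImplicit false

namespace StrAlg

open Module Polynomial

variable {D : Dat} {k : Type} [Field k] {S : Sides D}

/-- The generators of the relations of `M(w) ⊗ X` (`X` a module over the opposite data), as elements of `⊕_{p : ℤ} X`. -/
def Str.Lgen (w : Str S) (X : Md D.op k) : Set (ℤ →₀ X.C) :=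
  {z | ∃ (q : ℤ) (x : X.C), q ∉ w.Z ∧ z = Finsupp.single q x} ∪
  {z | ∃ (q : ℤ) (i : _root_.Fin D.nV) (x : X.C), q ∈ w.Z ∧
    z = (if w.L.v q = i then Finsupp.single q x else 0) - Finsupp.single q (X.Q.op (Sum.inl i) x)} ∪
  {z | ∃ (q : ℤ) (α : _root_.Fin D.nE) (x : X.C), q ∈ w.Z ∧
    z = (∑ e : Bool, if w.L.lt e q = 2 ∧ S.ends.outA (w.L.v q) (w.L.sd e q) = some α then Finsupp.single (st e q) x else 0) -
      Finsupp.single q (X.Q.op (Sum.inr α) x)}

/-- the relations -/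
noncomputable def Str.Lsp (w : Str S) (X : Md D.op k) : Submodule k (ℤ →₀ X.C) := Submodule.span k (w.Lgen X)

/-- the functional on `⊕ X` of a family in `X*` -/
noncomputable def evF {X : Type} [AddCommGroup X] [Module k X] (g : ℤ → X →ₗ[k] k) : (ℤ →₀ X) →ₗ[k] k :=
  Finsupp.lsum k g

/-- shift by `l` in direction `e` -/
noncomputable def ShF (k : Type) [Field k] (X : Type) [AddCommGroup X] [Module k X] (e : Bool) (l : ℕ) :
    (ℤ →₀ X) →ₗ[k] (ℤ →₀ X) :=
  Finsupp.lmapDomain X k (fun p => stn e l p)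

/-- shift by `l` in direction `e` of the part beyond `p₁` -/
noncomputable def sgF (k : Type) [Field k] (X : Type) [AddCommGroup X] [Module k X] (e : Bool) (p₁ : ℤ) (l : ℕ) :
    (ℤ →₀ X) →ₗ[k] (ℤ →₀ X) :=
  Finsupp.lsum k fun p => if Bey e p₁ p then Finsupp.lsingle (stn e l p) else 0

/-- `M(^b^) ⊗ X` modulo the relations has no torsion (polynomials in the shift) -/
def TF (b : Str S) (l : ℕ) (X : Md D.op k) : Prop :=
  ∀ (e : Bool) (f : k[X]), f.coeff 0 ≠ 0 → ∀ z, aeval (ShF k X.C e l) f z ∈ b.Lsp X → z ∈ b.Lsp X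

/-- the periodic string `b` agrees (in place) with the tail of `w` beyond `p₁` in direction `e` -/
structure TailAt (b w : Str S) (e : Bool) (p₁ : ℤ) : Prop where
  v : ∀ n : ℕ, b.L.v (stn e n p₁) = w.L.v (stn e n p₁)
  r : ∀ n : ℕ, b.L.r (stn e n p₁) = w.L.r (stn e n p₁)
  lt : ∀ n : ℕ, b.L.lt e (stn e n p₁) = w.L.lt e (stn e n p₁)

/-- the condition used for the extension of chains -/
def InjT (w : Str S) (X : Md D.op k) : Prop :=
  ∀ (e : Bool) (x : ℤ × ℕ), w.L.tailD e = some x → ∀ χ : k[X], χ.coeff 0 = 1 →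
    ∀ z, aeval (sgF k X.C e x.1 x.2) χ z ∈ w.Lsp X → z ∈ w.Lsp X

end StrAlg
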