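import Pool.Agent.Lib.MP_b9fd58_lc.S2Def

/-!
# Stage 2, job S2E: ranks are additive for pure embeddings
-/

set_option autoImplicit false

namespace StrAlg

open Module

variable {D : Dat} {k : Type} [Field k]

section lin
variable {N : Type} [AddCommGroup N] [Module k N]

theorem s2e_word_add (Q : QMod D k N) (w : List D.Gen) (x y : N) : Q.word w (x + y) = Q.word w x + Q.word w y := by
  induction w generalizing x y with
  | nil => rfl
  | cons g w ih =>
    show Q.word w (Q.op g (x + y)) = Q.word w (Q.op g x) + Q.word w (Q.op g y)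
    rw [map_add, ih]

theorem s2e_word_smul (Q : QMod D k N) (w : List D.Gen) (c : k) (x : N) : Q.word w (c • x) = c • Q.word w x := by
  induction w generalizing x with
  | nil => rfl
  | cons g w ih =>
    show Q.word w (Q.op g (c • x)) = c • Q.word w (Q.op g x)
    rw [map_smul, ih]

theorem s2e_act_add (Q : QMod D k N) (c : ElCode D k) (x y : N) : Q.act c (x + y) = Q.act c x + Q.act c y := by
  unfold QMod.act
  induction c with
  | nil => simp
  | cons t c ih =>
    rw [List.map_cons, List.map_cons, List.map_cons, List.sum_cons, List.sum_cons, List.sum_cons, ih, s2e_word_add,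
      smul_add]
    abel

theorem s2e_act_smul (Q : QMod D k N) (c : ElCode D k) (a : k) (x : N) : Q.act c (a • x) = a • Q.act c x := by
  unfold QMod.act
  induction c with
  | nil => simp
  | cons t c ih =>
    rw [List.map_cons, List.map_cons, List.sum_cons, List.sum_cons, ih, s2e_word_smul, smul_add, smul_comm]

/-- one row of a system -/
def s2e_row (Q : QMod D k N) (e : List (ElCode D k × ℕ)) : (ℕ → N) →ₗ[k] N where
  toFun v := (e.map (fun t => Q.act t.1 (v t.2))).sum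
  map_add' v w := by
    induction e with
    | nil => simp
    | cons t e ih =>
      rw [List.map_cons, List.map_cons, List.map_cons, List.sum_cons, List.sum_cons, List.sum_cons, ih, Pi.add_apply,
        s2e_act_add]
      abel
  map_smul' a v := by
    rw [RingHom.id_apply]
    induction e with
    | nil => simp
    | cons t e ih =>
      rw [List.map_cons, List.map_cons, List.sum_cons, List.sum_cons, ih, Pi.smul_apply, s2e_act_smul, smul_add]

theorem s2e_row_apply (Q : QMod D k N) (e : List (ElCode D k × ℕ)) (v : ℕ → N) :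
    s2e_row Q e v = (e.map (fun t => Q.act t.1 (v t.2))).sum := rfl

theorem s2e_sys (Q : QMod D k N) (φ : PP D k) (v : ℕ → N) : Q.Sys φ v ↔ ∀ e ∈ φ, s2e_row Q e v = 0 := Iff.rfl

/-- the pp-subspace -/
def s2e_sub (Q : QMod D k N) (φ : PP D k) : Submodule k N where
  carrier := Q.pp φ
  zero_mem' := ⟨0, rfl, (s2e_sys Q φ 0).2 fun e _ => map_zero _⟩
  add_mem' := by
    rintro x y ⟨v, hv, hv'⟩ ⟨w, hw, hw'⟩
    refine ⟨v + w, by rw [Pi.add_apply, hv, hw], (s2e_sys Q φ _).2 fun e he => ?_⟩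
    rw [map_add, (s2e_sys Q φ _).1 hv' e he, (s2e_sys Q φ _).1 hw' e he, add_zero]
  smul_mem' := by
    rintro a x ⟨v, hv, hv'⟩
    refine ⟨a • v, by rw [Pi.smul_apply, hv], (s2e_sys Q φ _).2 fun e he => ?_⟩
    rw [map_smul, (s2e_sys Q φ _).1 hv' e he, smul_zero]

theorem s2e_mem (Q : QMod D k N) (φ : PP D k) (x : N) : x ∈ Q.ppS φ ↔ x ∈ Q.pp φ := by
  have h : Q.ppS φ = s2e_sub Q φ := Submodule.span_eq (s2e_sub Q φ)
  rw [h]
  exact Iff.rfl

theorem s2e_ren (Q : QMod D k N) (f : ℕ → ℕ) (φ : PP D k) (v : ℕ → N) :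
    Q.Sys (φ.map fun e => e.map fun t => (t.1, f t.2)) v ↔ Q.Sys φ (fun n => v (f n)) := by
  unfold QMod.Sys
  constructor
  · intro h e he
    have h1 := h _ (List.mem_map_of_mem (f := fun e : List (ElCode D k × ℕ) => e.map fun t => (t.1, f t.2)) he)
    rw [List.map_map] at h1
    exact h1
  · intro h e he
    obtain ⟨e', he', rfl⟩ := List.mem_map.1 he
    rw [List.map_map]
    exact h e' he'

theorem s2e_sys_append (Q : QMod D k N) (φ ψ : PP D k) (v : ℕ → N) : Q.Sys (φ ++ ψ) v ↔ Q.Sys φ v ∧ Q.Sys ψ v := by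
  unfold QMod.Sys
  constructor
  · intro h
    exact ⟨fun e he => h e (List.mem_append.2 (Or.inl he)), fun e he => h e (List.mem_append.2 (Or.inr he))⟩
  · rintro ⟨h1, h2⟩ e he
    rcases List.mem_append.1 he with he | he
    · exact h1 e he
    · exact h2 e he

end lin

/-- solution sets of pp-systems are subspaces -/
theorem QMod.pp_sub {N : Type} [AddCommGroup N] [Module k N] (Q : QMod D k N) (φ : PP D k) :
    ∃ P : Submodule k N, (P : Set N) = Q.pp φ := ⟨s2e_sub Q φ, rfl⟩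

/-- conjunction of two pp-formulas (rename the bound variables: `v (2 n)` and `v (2 n - 1)`) -/
theorem PP.exists_inf (φ ψ : PP D k) : ∃ θ : PP D k, ∀ {N : Type} [AddCommGroup N] [Module k N] (Q : QMod D k N),
    Q.pp θ = Q.pp φ ∩ Q.pp ψ := by
  refine ⟨(φ.map fun e => e.map fun t => (t.1, 2 * t.2)) ++ (ψ.map fun e => e.map fun t => (t.1, 2 * t.2 - 1)), ?_⟩
  intro N _ _ Q
  ext x
  constructor
  · rintro ⟨v, hv, h⟩
    rw [s2e_sys_append, s2e_ren Q (fun n => 2 * n), s2e_ren Q (fun n => 2 * n - 1)] at h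
    exact ⟨⟨fun n => v (2 * n), hv, h.1⟩, ⟨fun n => v (2 * n - 1), hv, h.2⟩⟩
  · rintro ⟨⟨v, hv, hv'⟩, ⟨w, hw, hw'⟩⟩
    refine ⟨fun n => if n % 2 = 0 then v (n / 2) else w ((n + 1) / 2), by simpa using hv, ?_⟩
    rw [s2e_sys_append, s2e_ren Q (fun n => 2 * n), s2e_ren Q (fun n => 2 * n - 1)]
    refine ⟨?_, ?_⟩
    · have e1 : (fun n => (fun n => if n % 2 = 0 then v (n / 2) else w ((n + 1) / 2)) (2 * n)) = v := by
        funext n
        show (if 2 * n % 2 = 0 then v (2 * n / 2) else w ((2 * n + 1) / 2)) = v n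
        rw [if_pos (by omega), show 2 * n / 2 = n by omega]
      rw [e1]
      exact hv'
    · have e1 : (fun n => (fun n => if n % 2 = 0 then v (n / 2) else w ((n + 1) / 2)) (2 * n - 1)) = w := by
        funext n
        show (if (2 * n - 1) % 2 = 0 then v ((2 * n - 1) / 2) else w ((2 * n - 1 + 1) / 2)) = w n
        rcases Nat.eq_zero_or_pos n with rfl | hn
        · rw [if_pos (by omega)]
          show v 0 = w 0
          rw [hv, hw]
        · rw [if_neg (by omega), show (2 * n - 1 + 1) / 2 = n by omega]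
      rw [e1]
      exact hw'

theorem s2e_word_hom {M N : Md D k} (i : M.C →ₗ[k] N.C) (hi : M.Hom N i) (w : List D.Gen) (x : M.C) :
    i (M.Q.word w x) = N.Q.word w (i x) := by
  induction w generalizing x with
  | nil => rfl
  | cons g w ih =>
    show i (M.Q.word w (M.Q.op g x)) = N.Q.word w (N.Q.op g (i x))
    rw [ih, hi]

theorem s2e_act_hom {M N : Md D k} (i : M.C →ₗ[k] N.C) (hi : M.Hom N i) (c : ElCode D k) (x : M.C) :
    i (M.Q.act c x) = N.Q.act c (i x) := by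
  unfold QMod.act
  induction c with
  | nil => simp
  | cons t c ih =>
    rw [List.map_cons, List.map_cons, List.sum_cons, List.sum_cons, map_add, ih, map_smul, s2e_word_hom i hi]

theorem s2e_row_hom {M N : Md D k} (i : M.C →ₗ[k] N.C) (hi : M.Hom N i) (e : List (ElCode D k × ℕ)) (v : ℕ → M.C) :
    i (s2e_row M.Q e v) = s2e_row N.Q e (fun n => i (v n)) := by
  rw [s2e_row_apply, s2e_row_apply]
  induction e with
  | nil => simp
  | cons t e ih =>
    rw [List.map_cons, List.map_cons, List.sum_cons, List.sum_cons, map_add, ih, s2e_act_hom i hi]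

/-- homomorphisms preserve pp-formulas -/
theorem QMod.pp_hom {M N : Md D k} (i : M.C →ₗ[k] N.C) (hi : M.Hom N i) (φ : PP D k) {x : M.C} (hx : x ∈ M.Q.pp φ) :
    i x ∈ N.Q.pp φ := by
  obtain ⟨v, hv, h⟩ := hx
  refine ⟨fun n => i (v n), congrArg i hv, (s2e_sys _ _ _).2 fun e he => ?_⟩
  rw [← s2e_row_hom i hi, (s2e_sys _ _ _).1 h e he, map_zero]

/-- pure embeddings reflect pp-formulas (add the equation `v 0 = x` to the system) -/
theorem Md.PureEmb.pp_iff {M N : Md D k} {i : M.C →ₗ[k] N.C} (h : M.PureEmb N i) (φ : PP D k) (x : M.C) :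
    i x ∈ N.Q.pp φ ↔ x ∈ M.Q.pp φ := by
  refine ⟨?_, fun hx => QMod.pp_hom i h.1 φ hx⟩
  rintro ⟨v, hv, hs⟩
  obtain ⟨u, hu⟩ := h.2.2 (([([((1 : k), ([] : List D.Gen))], 0)], x) :: φ.map fun e => (e, 0)) ⟨v, by
    intro e he
    rw [List.map_cons, List.map_map] at he
    rcases List.mem_cons.1 he with rfl | he
    · simp [QMod.act, QMod.word, hv]
    · obtain ⟨e', he', rfl⟩ := List.mem_map.1 he
      simp only [Function.comp_apply, map_zero]
      exact hs e' he'⟩
  refine ⟨u, ?_, ?_⟩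
  · have h1 := hu _ List.mem_cons_self
    simpa [QMod.act, QMod.word] using h1
  · intro e he
    exact hu (e, 0) (List.mem_cons_of_mem _ (List.mem_map_of_mem (f := fun e => (e, (0 : M.C))) he))

/-- the projection onto the quotient module -/
def s2e_pr {M N : Md D k} (i : M.C →ₗ[k] N.C) (hi : M.Hom N i) : N.C →ₗ[k] (Md.quoR i hi).C := (LinearMap.range i).mkQ

/-- the projection onto the quotient is a homomorphism -/
theorem s2e_quo_hom {M N : Md D k} (i : M.C →ₗ[k] N.C) (hi : M.Hom N i) :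
    N.Hom (Md.quoR i hi) (s2e_pr i hi) := fun _ _ => rfl

theorem s2e_pr_surj {M N : Md D k} (i : M.C →ₗ[k] N.C) (hi : M.Hom N i) : Function.Surjective (s2e_pr i hi) :=
  (LinearMap.range i).mkQ_surjective

theorem s2e_pr_zero {M N : Md D k} (i : M.C →ₗ[k] N.C) (hi : M.Hom N i) (x : N.C) :
    s2e_pr i hi x = 0 ↔ x ∈ LinearMap.range i := Submodule.Quotient.mk_eq_zero _

/-- elements of `φ(N/M)` lift to `φ(N)`: if `Σ c_j v_j = i m_e` for all equations `e`, then the system `Σ c_j u_j = m_e` is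
solvable in `M`; subtract -/
theorem Md.PureEmb.pp_quo {M N : Md D k} {i : M.C →ₗ[k] N.C} (h : M.PureEmb N i) (φ : PP D k)
    (x : (Md.quoR i h.1).C) (hx : x ∈ (Md.quoR i h.1).Q.pp φ) :
    ∃ y ∈ N.Q.pp φ, (LinearMap.range i).mkQ y = x := by
  classical
  obtain ⟨v, hv, hs⟩ := hx
  choose w hw using fun n => s2e_pr_surj i h.1 (v n)
  have h1 : ∀ e ∈ φ, ∃ m, i m = s2e_row N.Q e w := by
    intro e he
    have h2 : s2e_pr i h.1 (s2e_row N.Q e w) = s2e_row (Md.quoR i h.1).Q e v := by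
      rw [s2e_row_hom _ (s2e_quo_hom i h.1) e w]
      congr 1
      funext n
      exact hw n
    rw [(s2e_sys _ _ _).1 hs e he, s2e_pr_zero] at h2
    exact LinearMap.mem_range.1 h2
  set m : List (ElCode D k × ℕ) → M.C := fun e => if he : ∃ m, i m = s2e_row N.Q e w then he.choose else 0 with hm
  have h2 : ∀ e ∈ φ, i (m e) = s2e_row N.Q e w := by
    intro e he
    have he' := h1 e he
    simp only [hm, dif_pos he']
    exact he'.choose_spec
  obtain ⟨u, hu⟩ := h.2.2 (φ.map fun e => (e, m e)) ⟨w, by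
    intro e he
    rw [List.map_map] at he
    obtain ⟨e', he', rfl⟩ := List.mem_map.1 he
    exact (h2 e' he').symm⟩
  have h3 : ∀ e ∈ φ, s2e_row M.Q e u = m e := fun e he =>
    hu (e, m e) (List.mem_map_of_mem (f := fun e => (e, m e)) he)
  refine ⟨w 0 - i (u 0), ⟨w - fun n => i (u n), rfl, (s2e_sys _ _ _).2 fun e he => ?_⟩, ?_⟩
  · rw [map_sub, ← s2e_row_hom i h.1, h3 e he, h2 e he, sub_self]
  · show s2e_pr i h.1 (w 0 - i (u 0)) = x
    rw [map_sub, hw 0, (s2e_pr_zero i h.1 _).2 (LinearMap.mem_range_self i (u 0)), sub_zero]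
    exact hv

/-- **The rank is additive for pure embeddings.**

Proof: `Φ := φ(N)`, `Θ := (φ ∧ ψ)(N)`, `Φ / Θ → φ(N/M) / (φ ∧ ψ)(N/M)` is surjective (`pp_quo` for `φ`) with kernel
`(Φ ∩ (M + Θ)) / Θ` (`pp_quo` for `φ ∧ ψ`) `= (φ(M) + Θ) / Θ = φ(M) / (φ ∧ ψ)(M)` (`pp_iff`). -/
theorem QMod.rank_pure (φ ψ : PP D k) {M N : Md D k} (i : M.C →ₗ[k] N.C) (h : M.PureEmb N i) :
    N.Q.rank φ ψ = M.Q.rank φ ψ + (Md.quoR i h.1).Q.rank φ ψ := by
  obtain ⟨θ, hθ⟩ := PP.exists_inf φ ψ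
  -- the two maps
  have hi1 : ∀ x ∈ M.Q.ppS φ, i x ∈ N.Q.ppS φ := fun x hx =>
    (s2e_mem _ _ _).2 ((h.pp_iff φ x).2 ((s2e_mem _ _ _).1 hx))
  have hq1 : ∀ x ∈ N.Q.ppS φ, s2e_pr i h.1 x ∈ (Md.quoR i h.1).Q.ppS φ := fun x hx =>
    (s2e_mem _ _ _).2 (QMod.pp_hom (N := Md.quoR i h.1) _ (s2e_quo_hom i h.1) φ ((s2e_mem _ _ _).1 hx))
  set f0 : M.Q.ppS φ →ₗ[k] N.Q.ppS φ := i.restrict hi1 with hf0
  set g0 : N.Q.ppS φ →ₗ[k] (Md.quoR i h.1).Q.ppS φ := (s2e_pr i h.1).restrict hq1 with hg0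
  set BM := (M.Q.ppS ψ).comap (M.Q.ppS φ).subtype with hBM
  set BN := (N.Q.ppS ψ).comap (N.Q.ppS φ).subtype with hBN
  set BQ := ((Md.quoR i h.1).Q.ppS ψ).comap ((Md.quoR i h.1).Q.ppS φ).subtype with hBQ
  have hf1 : BM ≤ BN.comap f0 := by
    intro x hx
    exact (s2e_mem _ _ _).2 ((h.pp_iff ψ x).2 ((s2e_mem _ _ _).1 hx))
  have hg1 : BN ≤ BQ.comap g0 := by
    intro x hx
    exact (s2e_mem _ _ _).2 (QMod.pp_hom (N := Md.quoR i h.1) _ (s2e_quo_hom i h.1) ψ ((s2e_mem _ _ _).1 hx))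
  set f := BM.mapQ BN f0 hf1 with hf
  set g := BN.mapQ BQ g0 hg1 with hg
  have hfi : Function.Injective f := by
    rw [← LinearMap.ker_eq_bot, LinearMap.ker_eq_bot']
    intro x hx
    obtain ⟨x, rfl⟩ := BM.mkQ_surjective x
    rw [hf, Submodule.mkQ_apply, Submodule.mapQ_apply, Submodule.Quotient.mk_eq_zero] at hx
    rw [Submodule.mkQ_apply, Submodule.Quotient.mk_eq_zero]
    exact (s2e_mem _ _ _).2 ((h.pp_iff ψ x).1 ((s2e_mem _ _ _).1 hx))
  have hgs : Function.Surjective g := by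
    intro x
    obtain ⟨x, rfl⟩ := BQ.mkQ_surjective x
    obtain ⟨y, hy, hyx⟩ := h.pp_quo φ x.1 ((s2e_mem _ _ _).1 x.2)
    refine ⟨BN.mkQ ⟨y, (s2e_mem _ _ _).2 hy⟩, ?_⟩
    rw [hg, Submodule.mkQ_apply, Submodule.mapQ_apply, Submodule.mkQ_apply]
    congr 1
    exact Subtype.ext hyx
  have hex : LinearMap.range f = LinearMap.ker g := by
    apply le_antisymm
    · rintro _ ⟨x, rfl⟩
      obtain ⟨x, rfl⟩ := BM.mkQ_surjective x
      rw [LinearMap.mem_ker, hf, hg, Submodule.mkQ_apply, Submodule.mapQ_apply, Submodule.mapQ_apply,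
        Submodule.Quotient.mk_eq_zero]
      have e1 : g0 (f0 x) = 0 := by
        apply Subtype.ext
        exact (s2e_pr_zero i h.1 _).2 (LinearMap.mem_range_self i x.1)
      rw [e1]
      exact Submodule.zero_mem _
    · intro y hy
      obtain ⟨y, rfl⟩ := BN.mkQ_surjective y
      rw [LinearMap.mem_ker, hg, Submodule.mkQ_apply, Submodule.mapQ_apply, Submodule.Quotient.mk_eq_zero] at hy
      have h1 : s2e_pr i h.1 y.1 ∈ (Md.quoR i h.1).Q.pp ψ := (s2e_mem _ _ _).1 hy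
      have h2 : s2e_pr i h.1 y.1 ∈ (Md.quoR i h.1).Q.pp φ := (s2e_mem _ _ _).1 (hq1 y.1 y.2)
      have h3 : s2e_pr i h.1 y.1 ∈ (Md.quoR i h.1).Q.pp θ := by
        rw [hθ]; exact ⟨h2, h1⟩
      obtain ⟨z, hz, hzy⟩ := h.pp_quo θ _ h3
      rw [hθ] at hz
      have h4 : y.1 - z ∈ LinearMap.range i := by
        rw [← s2e_pr_zero i h.1, map_sub, sub_eq_zero]
        exact hzy.symm
      obtain ⟨m, hm⟩ := h4
      have h5 : i m ∈ N.Q.pp φ := by
        rw [hm]
        exact (s2e_mem _ _ _).1 (Submodule.sub_mem _ y.2 ((s2e_mem _ _ _).2 hz.1))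
      have h6 : m ∈ M.Q.pp φ := (h.pp_iff φ m).1 h5
      refine ⟨BM.mkQ ⟨m, (s2e_mem _ _ _).2 h6⟩, ?_⟩
      rw [hf, Submodule.mkQ_apply, Submodule.mapQ_apply, Submodule.mkQ_apply, Submodule.Quotient.eq]
      show i m - y.1 ∈ N.Q.ppS ψ
      rw [hm, sub_sub_cancel_left]
      exact Submodule.neg_mem _ ((s2e_mem _ _ _).2 hz.2)
  have hr : Module.rank k ((N.Q.ppS φ) ⧸ BN) = Module.rank k ((M.Q.ppS φ) ⧸ BM) +
      Module.rank k (((Md.quoR i h.1).Q.ppS φ) ⧸ BQ) := by
    rw [LinearMap.rank_eq_of_surjective hgs, ← hex, add_comm]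
    congr 1
    exact (LinearEquiv.ofInjective f hfi).rank_eq.symm
  unfold QMod.rank
  rw [← hBN, ← hBM, ← hBQ, hr, map_add]

end StrAlg
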