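import Pool.Agent.Lib.MP_b9fd58_lc.S2Def

/-!
# Stage 2, job S2F: a criterion for pure embeddings
-/

set_option autoImplicit false

namespace StrAlg

open Module

variable {D : Dat} {k : Type} [Field k]

section lin
variable {N : Type} [AddCommGroup N] [Module k N]

theorem s2f_word_add (Q : QMod D k N) (w : List D.Gen) (x y : N) : Q.word w (x + y) = Q.word w x + Q.word w y := by
  induction w generalizing x y with
  | nil => rfl
  | cons g w ih =>
    show Q.word w (Q.op g (x + y)) = Q.word w (Q.op g x) + Q.word w (Q.op g y)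
    rw [map_add, ih]

theorem s2f_word_smul (Q : QMod D k N) (w : List D.Gen) (c : k) (x : N) : Q.word w (c • x) = c • Q.word w x := by
  induction w generalizing x with
  | nil => rfl
  | cons g w ih =>
    show Q.word w (Q.op g (c • x)) = c • Q.word w (Q.op g x)
    rw [map_smul, ih]

theorem s2f_act_add (Q : QMod D k N) (c : ElCode D k) (x y : N) : Q.act c (x + y) = Q.act c x + Q.act c y := by
  unfold QMod.act
  induction c with
  | nil => simp
  | cons t c ih =>
    rw [List.map_cons, List.map_cons, List.map_cons, List.sum_cons, List.sum_cons, List.sum_cons, ih, s2f_word_add,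
      smul_add]
    abel

theorem s2f_act_smul (Q : QMod D k N) (c : ElCode D k) (a : k) (x : N) : Q.act c (a • x) = a • Q.act c x := by
  unfold QMod.act
  induction c with
  | nil => simp
  | cons t c ih =>
    rw [List.map_cons, List.map_cons, List.sum_cons, List.sum_cons, ih, s2f_word_smul, smul_add, smul_comm]

/-- one row of a system -/
def s2f_row (Q : QMod D k N) (e : List (ElCode D k × ℕ)) : (ℕ → N) →ₗ[k] N where
  toFun v := (e.map (fun t => Q.act t.1 (v t.2))).sum
  map_add' v w := by
    induction e with
    | nil => simp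
    | cons t e ih =>
      rw [List.map_cons, List.map_cons, List.map_cons, List.sum_cons, List.sum_cons, List.sum_cons, ih, Pi.add_apply,
        s2f_act_add]
      abel
  map_smul' a v := by
    rw [RingHom.id_apply]
    induction e with
    | nil => simp
    | cons t e ih =>
      rw [List.map_cons, List.map_cons, List.sum_cons, List.sum_cons, ih, Pi.smul_apply, s2f_act_smul, smul_add]

theorem s2f_row_apply (Q : QMod D k N) (e : List (ElCode D k × ℕ)) (v : ℕ → N) :
    s2f_row Q e v = (e.map (fun t => Q.act t.1 (v t.2))).sum := rfl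

end lin

theorem s2f_word_hom {M N : Md D k} (i : M.C →ₗ[k] N.C) (hi : M.Hom N i) (w : List D.Gen) (x : M.C) :
    i (M.Q.word w x) = N.Q.word w (i x) := by
  induction w generalizing x with
  | nil => rfl
  | cons g w ih =>
    show i (M.Q.word w (M.Q.op g x)) = N.Q.word w (N.Q.op g (i x))
    rw [ih, hi]

theorem s2f_act_hom {M N : Md D k} (i : M.C →ₗ[k] N.C) (hi : M.Hom N i) (c : ElCode D k) (x : M.C) :
    i (M.Q.act c x) = N.Q.act c (i x) := by
  unfold QMod.act
  induction c with
  | nil => simp
  | cons t c ih =>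
    rw [List.map_cons, List.map_cons, List.sum_cons, List.sum_cons, map_add, ih, map_smul, s2f_word_hom i hi]

theorem s2f_row_hom {M N : Md D k} (i : M.C →ₗ[k] N.C) (hi : M.Hom N i) (e : List (ElCode D k × ℕ)) (v : ℕ → M.C) :
    i (s2f_row M.Q e v) = s2f_row N.Q e (fun n => i (v n)) := by
  rw [s2f_row_apply, s2f_row_apply]
  induction e with
  | nil => simp
  | cons t e ih =>
    rw [List.map_cons, List.map_cons, List.sum_cons, List.sum_cons, map_add, ih, s2f_act_hom i hi]

/-! ### Words of arrows -/

section fd
variable {N : Type} [AddCommGroup N] [Module k N]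

/-- action of a word of arrows -/
def s2f_aw (Q : QMod D k N) (l : List (Fin D.nE)) (n : N) : N := l.foldl (fun m a => Q.op (Sum.inr a) m) n

theorem s2f_aw_zero (Q : QMod D k N) (l : List (Fin D.nE)) : s2f_aw Q l 0 = 0 := by
  unfold s2f_aw
  induction l with
  | nil => rfl
  | cons a l ih => rw [List.foldl_cons, map_zero, ih]

theorem s2f_two (Q : QMod D k N) (a b : Fin D.nE) (n : N) (h : Q.op (Sum.inr b) (Q.op (Sum.inr a) n) ≠ 0) :
    D.tgt a = D.src b := by
  by_contra hne
  apply h
  rw [← Q.src b, ← Q.tgt a n, Q.orth _ _ _ hne, map_zero]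

theorem s2f_chain (Q : QMod D k N) (l : List (Fin D.nE)) (n : N) (h : s2f_aw Q l n ≠ 0) : D.IsPath l := by
  unfold Dat.IsPath
  induction l generalizing n with
  | nil => exact List.isChain_nil
  | cons a l ih =>
    have h1 : s2f_aw Q l (Q.op (Sum.inr a) n) ≠ 0 := h
    have h2 := ih _ h1
    cases l with
    | nil => exact List.isChain_singleton _
    | cons b l =>
      refine List.isChain_cons_cons.2 ⟨?_, h2⟩
      apply s2f_two Q a b n
      intro h3
      apply h1
      show s2f_aw Q l (Q.op (Sum.inr b) (Q.op (Sum.inr a) n)) = 0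
      rw [h3, s2f_aw_zero]

theorem s2f_append (Q : QMod D k N) (l l' : List (Fin D.nE)) (n : N) :
    s2f_aw Q (l ++ l') n = s2f_aw Q l' (s2f_aw Q l n) := by
  unfold s2f_aw
  rw [List.foldl_append]

theorem s2f_long (hD : D.IsString) : ∃ m : ℕ, ∀ (Q : QMod D k N) (l : List (Fin D.nE)) (n : N), m ≤ l.length →
    s2f_aw Q l n = 0 := by
  obtain ⟨m, hm⟩ := hD.adm
  refine ⟨m, fun Q l n hl => ?_⟩
  by_contra h
  obtain ⟨r, hr, s, t, hst⟩ := hm l (s2f_chain Q l n h) hl
  apply h
  rw [← hst, s2f_append, s2f_append]
  have h1 : s2f_aw Q r (s2f_aw Q s n) = 0 := Q.rel r hr _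
  rw [h1, s2f_aw_zero]

theorem s2f_fd (hD : D.IsString) (Q : QMod D k N) (F : Finset N) :
    ∃ P : Submodule k N, FiniteDimensional k P ∧ (∀ x ∈ F, x ∈ P) ∧ ∀ g, ∀ x ∈ P, Q.op g x ∈ P := by
  obtain ⟨m, hm⟩ := s2f_long (k := k) (N := N) hD
  have hfin : {l : List (Fin D.nE) | l.length < m + 1}.Finite := List.finite_length_lt _ _
  set W : Set N := ⋃ x ∈ F, ⋃ i : Fin D.nV, (fun l => s2f_aw Q l (Q.op (Sum.inl i) x)) ''
    {l : List (Fin D.nE) | l.length < m + 1} with hW
  have hWf : W.Finite := by
    refine Set.Finite.biUnion F.finite_toSet fun x _ => ?_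
    exact Set.finite_iUnion fun i => hfin.image _
  have hmem : ∀ x ∈ F, ∀ (i : Fin D.nV) (l : List (Fin D.nE)), l.length < m + 1 →
      s2f_aw Q l (Q.op (Sum.inl i) x) ∈ W := by
    intro x hx i l hl
    simp only [hW, Set.mem_iUnion]
    exact ⟨x, hx, i, l, hl, rfl⟩
  have hmem2 : ∀ x ∈ F, ∀ (i : Fin D.nV) (l : List (Fin D.nE)), l.length ≤ m + 1 →
      s2f_aw Q l (Q.op (Sum.inl i) x) ∈ Submodule.span k W := by
    intro x hx i l hl
    rcases Nat.lt_or_ge l.length (m + 1) with h | h
    · exact Submodule.subset_span (hmem x hx i l h)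
    · rw [hm Q l _ (by omega)]
      exact Submodule.zero_mem _
  refine ⟨Submodule.span k W, FiniteDimensional.span_of_finite k hWf, ?_, ?_⟩
  · intro x hx
    rw [← Q.one x]
    exact Submodule.sum_mem _ fun i _ => hmem2 x hx i [] (by simp)
  · intro g x hx
    induction hx using Submodule.span_induction with
    | mem x hx =>
      simp only [hW, Set.mem_iUnion] at hx
      obtain ⟨y, hy, i, l, hl, rfl⟩ := hx
      have hl' : l.length < m + 1 := hl
      cases g with
      | inr a =>
        have h1 := hmem2 y hy i (l ++ [a]) (by rw [List.length_append]; simpa using hl')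
        rw [s2f_append] at h1
        exact h1
      | inl j =>
        rcases List.eq_nil_or_concat l with rfl | ⟨l', a, rfl⟩
        · show Q.op (Sum.inl j) (Q.op (Sum.inl i) y) ∈ _
          by_cases hij : i = j
          · subst hij
            rw [Q.idem]
            exact hmem2 y hy i [] (by simp)
          · rw [Q.orth _ _ _ hij]
            exact Submodule.zero_mem _
        · show Q.op (Sum.inl j) (s2f_aw Q (l'.concat a) (Q.op (Sum.inl i) y)) ∈ _
          rw [List.concat_eq_append, s2f_append]
          show Q.op (Sum.inl j) (Q.op (Sum.inr a) (s2f_aw Q l' (Q.op (Sum.inl i) y))) ∈ _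
          by_cases hij : D.tgt a = j
          · subst hij
            rw [Q.tgt]
            have h1 := hmem2 y hy i (l' ++ [a]) (by rw [← List.concat_eq_append]; omega)
            rw [s2f_append] at h1
            exact h1
          · rw [← Q.tgt a, Q.orth _ _ _ hij]
            exact Submodule.zero_mem _
    | zero => rw [map_zero]; exact Submodule.zero_mem _
    | add x y _ _ hx hy => rw [map_add]; exact Submodule.add_mem _ hx hy
    | smul c x _ hx => rw [map_smul]; exact Submodule.smul_mem _ _ hx

end fd

/-- The algebra is finite-dimensional: there is a finite list of words in the generators such that in every module every word acts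
as one of the list or as zero... Here only the following is needed: the submodule of a module over `D.op` generated by finitely
many elements is finite-dimensional (`IsString.adm`; all words of length `≥ 2 m` act as zero or as a shorter word). -/
theorem fd_generated (hD : D.IsString) (N : Md D k) (F : Finset N.C) :
    ∃ P : Submodule k N.C, FiniteDimensional k P ∧ (∀ x ∈ F, x ∈ P) ∧ ∀ g, ∀ x ∈ P, N.Q.op g x ∈ P :=
  s2f_fd hD N.Q F

theorem s2f_dual_fd {V : Type} [AddCommGroup V] [Module k V] [FiniteDimensional k V] :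
    FiniteDimensional k (Dual k V) := by
  infer_instance

theorem s2f_flip {V W : Type} [AddCommGroup V] [Module k V] [AddCommGroup W] [Module k W] [FiniteDimensional k W]
    (B : W →ₗ[k] V →ₗ[k] k) (hB : Function.Injective B) : Function.Surjective B.flip :=
  LinearMap.flip_surjective_iff₁.2 hB

/-- the module `P*` for a finite-dimensional invariant subspace of the dual -/
def s2f_B (M : Md D k) (P : Submodule k (Dual k M.C)) (hP : ∀ g, ∀ x ∈ P, M.Q.dual.op g x ∈ P) : Md D k :=
  ⟨Dual k P, (M.Q.dual.restr P hP).codual⟩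

/-- the evaluation homomorphism -/
def s2f_G (M : Md D k) (P : Submodule k (Dual k M.C)) (hP : ∀ g, ∀ x ∈ P, M.Q.dual.op g x ∈ P) :
    M.C →ₗ[k] (s2f_B M P hP).C := P.subtype.flip

theorem s2f_G_hom (M : Md D k) (P : Submodule k (Dual k M.C)) (hP : ∀ g, ∀ x ∈ P, M.Q.dual.op g x ∈ P) :
    M.Hom (s2f_B M P hP) (s2f_G M P hP) := by
  intro g m
  refine LinearMap.ext fun p => ?_
  rfl

theorem s2f_G_surj (M : Md D k) (P : Submodule k (Dual k M.C)) (hP : ∀ g, ∀ x ∈ P, M.Q.dual.op g x ∈ P)
    [FiniteDimensional k P] : Function.Surjective (s2f_G M P hP) := by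
  have h := s2f_flip (k := k) (V := M.C) (W := P) P.subtype P.subtype_injective
  exact h

theorem s2f_B_fd (M : Md D k) (P : Submodule k (Dual k M.C)) (hP : ∀ g, ∀ x ∈ P, M.Q.dual.op g x ∈ P)
    [FiniteDimensional k P] : FiniteDimensional k (s2f_B M P hP).C :=
  s2f_dual_fd (V := P)

/-- **Criterion for purity**: all homomorphisms into finite-dimensional modules extend approximately.

Proof. Injective: if `i m = 0`, `m ≠ 0`, let `l : M → k` with `l m ≠ 0`, see below for the system with the only equation
`0 = m` (or argue directly). Systems: let `Σ_j v_{n_j} · c_j = i m_e` (`e ∈ S`) be solvable in `N` but not in `M`; only finitely many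
variables occur (`v : Fin r → M`), so `m` is not in the range of the linear map `(Fin r → M) → (S → M)`, there are functionals
`l_e : M → k` (`e ∈ S`) that kill the range with `Σ_e l_e m_e ≠ 0`. Let `P` be the finite-dimensional invariant subspace of
`M.dual` (over `D.op`) generated by the `l_e` (`fd_generated` for `D.op`; `op_isString` is in stream W, here `hD'` is a hypothesis),
`B := codual of P`, `G : M → P*`, `G x l = l x`: a homomorphism. Take `G'` for `F = {m_e}`; with `l'_e := (G' ·) l_e : N → k` one has
`Σ_e l'_e (i m_e) = Σ_e l_e m_e ≠ 0`, but the `l'_e` satisfy the same linear relations as the `l_e` (they kill the range of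
the system in `N`: `Σ_e l_e ∘ c_{e,j} = 0` in `P` for every `j`; `G'` is a homomorphism), contradiction. -/
theorem Md.pure_of_dense (hD' : D.op.IsString) {M N : Md D k} (i : M.C →ₗ[k] N.C) (hi : M.Hom N i)
    (h : ∀ B : Md D k, FiniteDimensional k B.C → ∀ G : M.C →ₗ[k] B.C, M.Hom B G → ∀ F : Finset M.C,
      ∃ G' : N.C →ₗ[k] B.C, N.Hom B G' ∧ ∀ m ∈ F, G' (i m) = G m) : M.PureEmb N i := by
  classical
  refine ⟨hi, ?_, ?_⟩
  · rw [← LinearMap.ker_eq_bot, LinearMap.ker_eq_bot']
    intro m hm
    by_contra hne
    obtain ⟨l, hl⟩ : ∃ l : Dual k M.C, l m ≠ 0 := by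
      by_contra hcon
      push Not at hcon
      exact hne ((Module.forall_dual_apply_eq_zero_iff k m).1 hcon)
    obtain ⟨P, hPf, hPl, hP⟩ := s2f_fd hD' M.Q.dual {l}
    have hlP : l ∈ P := hPl l (Finset.mem_singleton_self l)
    obtain ⟨G', hG', hG'2⟩ := h (s2f_B M P hP) (s2f_B_fd M P hP) (s2f_G M P hP) (s2f_G_hom M P hP) {m}
    have h1 := hG'2 m (Finset.mem_singleton_self m)
    rw [hm, map_zero] at h1
    apply hl
    have h2 : (Dual.eval k P ⟨l, hlP⟩ : (s2f_B M P hP).C →ₗ[k] k) (s2f_G M P hP m) = l m := rfl
    rw [← h2, ← h1]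
    rfl
  · rintro S ⟨v, hv⟩
    -- the linear map of the system
    set r := S.length with hr
    set T : (ℕ → M.C) →ₗ[k] (Fin r → M.C) := LinearMap.pi fun e => s2f_row M.Q (S.get e).1 with hT
    set b : Fin r → M.C := fun e => (S.get e).2 with hb
    by_cases hbT : b ∈ LinearMap.range T
    · obtain ⟨u, hu⟩ := hbT
      refine ⟨u, fun e he => ?_⟩
      obtain ⟨n, hn⟩ := List.mem_iff_get.1 he
      rw [← hn]
      exact congrFun hu n
    · exfalso
      obtain ⟨lam, hlam, hker⟩ := Submodule.exists_dual_map_eq_bot_of_notMem hbT inferInstance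
      have hker' : ∀ u, lam (T u) = 0 := by
        intro u
        have h1 : lam (T u) ∈ (LinearMap.range T).map lam := Submodule.mem_map_of_mem (LinearMap.mem_range_self T u)
        rw [hker] at h1
        exact (Submodule.mem_bot k).1 h1
      set l : Fin r → Dual k M.C := fun e => lam ∘ₗ LinearMap.single k (fun _ => M.C) e with hl
      have hsum : ∀ x : Fin r → M.C, lam x = ∑ e, l e (x e) := by
        intro x
        have h1 : x = ∑ e, LinearMap.single k (fun _ : Fin r => M.C) e (x e) := by
          funext j
          rw [Finset.sum_apply]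
          simp [LinearMap.single_apply, Pi.single_apply]
        conv_lhs => rw [h1]
        rw [map_sum]
        rfl
      obtain ⟨P, hPf, hPl, hP⟩ := s2f_fd hD' M.Q.dual (Finset.univ.image l)
      have hlP : ∀ e, l e ∈ P := fun e => hPl _ (Finset.mem_image_of_mem l (Finset.mem_univ e))
      obtain ⟨G', hG', hG'2⟩ := h (s2f_B M P hP) (s2f_B_fd M P hP) (s2f_G M P hP) (s2f_G_hom M P hP)
        (Finset.univ.image b)
      have hG3 : ∀ e, G' (i (b e)) = s2f_G M P hP (b e) := fun e =>
        hG'2 _ (Finset.mem_image_of_mem b (Finset.mem_univ e))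
      -- values
      set ev : Fin r → (s2f_B M P hP).C →ₗ[k] k := fun e => Dual.eval k P ⟨l e, hlP e⟩ with hev
      have hevG : ∀ e x, ev e (s2f_G M P hP x) = l e x := fun e x => rfl
      have hzero : ∀ u : ℕ → (s2f_B M P hP).C, ∑ e : Fin r, ev e (s2f_row (s2f_B M P hP).Q (S.get e).1 u) = 0 := by
        intro u
        choose x hx using fun n => s2f_G_surj M P hP (u n)
        have h1 : u = fun n => s2f_G M P hP (x n) := funext fun n => (hx n).symm
        rw [h1]
        have h2 := hker' x
        rw [hsum] at h2
        rw [← h2]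
        refine Finset.sum_congr rfl fun e _ => ?_
        rw [← s2f_row_hom _ (s2f_G_hom M P hP), hevG]
        rfl
      have hN : ∀ e : Fin r, s2f_row N.Q (S.get e).1 v = i (b e) := by
        intro e
        exact hv ((S.get e).1, i (S.get e).2) (List.mem_map_of_mem (f := fun e => (e.1, i e.2)) (List.get_mem S e))
      have h3 := hzero (fun n => G' (v n))
      apply hlam
      rw [hsum, ← h3]
      refine Finset.sum_congr rfl fun e _ => ?_
      rw [← s2f_row_hom _ hG', hN, hG3, hevG]

end StrAlg
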