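import Pool.Agent.Lib.MP_b9fd58_lc.If2Defs
import Pool.Agent.Lib.MP_b9fd58_lc.GThA

/-!
# Stage 2, job S2G: values of pairs of graph maps
-/

set_option autoImplicit false

namespace StrAlg

open Module

variable {D : Dat} {k : Type} [Field k] {S : Sides D}

/-- the position `q` of `w` is relevant for the pair: `Ω ≠ 0` at a sandwiched triple through `q` -/
def NF.Rel (p : NF S k) (w : Str S) (q : ℤ) : Prop :=
  ∃ (i : Fin p.m) (j : Fin p.m') (o o' : Bool) (c r : ℤ), Ord (p.X i).x w o c q ∧ Ord w (p.Y j).x o' q r ∧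
    ∃ κ, Om (p.X i).x.L (p.Y j).x.L ((p.X i).fn (p.a i)) ((p.Y j).cf (p.b j)) κ (o == o') c r ≠ 0

theorem NF.not_crit_iff_rel (p : NF S k) (w : Str S) : ¬ p.Crit w ↔ ∃ q, p.Rel w q := by
  constructor
  · intro h
    by_contra hcon
    apply h
    intro i j o o' c q r hc hq hr m1 m2 l1 l2 f1 f2 κ
    by_contra hne
    exact hcon ⟨q, i, j, o, o', c, r, ⟨hc, hq, m1, l1, f1⟩, ⟨hq, hr, m2, l2, f2⟩, κ, hne⟩
  · rintro ⟨q, i, j, o, o', c, r, ⟨hc, hq, m1, l1, f1⟩, ⟨_, hr, m2, l2, f2⟩, κ, hne⟩ h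
    exact hne (h i j o o' c q r hc hq hr m1 m2 l1 l2 f1 f2 κ)

theorem s2g_push_ne {M : Type*} [Zero M] {w Y : Ln (Fin D.nV) S.nx} {o' : Bool} {q₁ b₁ : ℤ} {ξ : ℤ → M} {b : ℤ}
    (h : push w Y o' q₁ b₁ ξ b ≠ 0) : ∃ q, Cn w Y o' q₁ b₁ q b := by
  by_contra hcon
  exact h (push_zero hcon)

theorem s2g_pull_ne {M : Type*} [Zero M] {X w : Ln (Fin D.nV) S.nx} {o₁ : Bool} {a₁ q₁ : ℤ} {g : ℤ → M} {a : ℤ}
    (h : pull X w o₁ a₁ q₁ g a ≠ 0) : ∃ q, Cn X w o₁ a₁ q₁ a q := by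
  by_contra hcon
  exact h (pull_zero hcon)

/-- the functions `GIn`, `GOut` have finite support inside `w.Z` (`Cn.mem_Icc_right`, `Cn.mem_Icc_left`, `Cn.reach_right`) -/
theorem NF.GIn.fin {p : NF S k} {w : Str S} {s : ℤ → k} (h : p.GIn w s) : (Function.support s).Finite ∧ ∀ q, s q ≠ 0 → q ∈ w.Z := by
  obtain ⟨i, o, c, q, φ, ⟨hc, hq, m1, l1, f1⟩, rfl⟩ := h
  constructor
  · refine Set.Finite.subset (Finset.finite_toSet (Finset.Icc
      (q - (lenD (p.X i).x.L w.L o false c q + lenD (p.X i).x.L w.L o true c q))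
      (q + (lenD (p.X i).x.L w.L o false c q + lenD (p.X i).x.L w.L o true c q)))) ?_
    intro q' hq'
    obtain ⟨c', hc'⟩ := s2g_push_ne hq'
    exact hc'.mem_Icc_right f1
  · intro q' hq'
    obtain ⟨c', hc'⟩ := s2g_push_ne hq'
    exact Ln.Reach.trans hq hc'.reach_right

theorem NF.GOut.fin {p : NF S k} {w : Str S} {t : ℤ → k} (h : p.GOut w t) : (Function.support t).Finite ∧ ∀ q, t q ≠ 0 → q ∈ w.Z := by
  obtain ⟨j, o, q, r, y, ⟨hq, hr, m1, l1, f1⟩, rfl⟩ := h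
  constructor
  · refine Set.Finite.subset (Finset.finite_toSet (Finset.Icc
      (q - lenD w.L (p.Y j).x.L o false q r) (q + lenD w.L (p.Y j).x.L o true q r))) ?_
    intro q' hq'
    obtain ⟨r', hr'⟩ := s2g_pull_ne hq'
    exact hr'.mem_Icc_left f1
  · intro q' hq'
    obtain ⟨r', hr'⟩ := s2g_pull_ne hq'
    exact Ln.Reach.trans hq hr'.reach_left

/-- the three positions with the same index -/
theorem s2g_class {X w Y : Ln (Fin D.nV) S.nx} {o o' : Bool} {c q r : ℤ} (l1 : LeD X w o c q) (l2 : LeD w Y o' q r)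
    (f2 : FinCl X Y (o == o') c r) {i : ℤ}
    (hi : i ∈ Finset.Icc (-(lenD X Y (o == o') false c r : ℤ)) (lenD X Y (o == o') true c r : ℤ)) :
    Cn X w o c q (c + i) (stn o i q) ∧ Cn w Y o' q r (stn o i q) (stn (o == o') i r) := by
  rw [Finset.mem_Icc] at hi
  rcases le_total 0 i with h0 | h0
  · obtain ⟨n, rfl⟩ := Int.eq_ofNat_of_zero_le h0
    have hn : n ≤ lenD X Y (o == o') true c r := by omega
    have h1 : AgD X Y (o == o') true c r n := (lenD_spec (f2 true)).1.mono hn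
    obtain ⟨g1, g2⟩ := AgD.sandwich l1 l2 h1
    refine ⟨⟨true, n, g1, ?_, ?_⟩, ⟨(true == o), n, g2, ?_, ?_⟩⟩
    · simp
    · cases o <;> simp
    · cases o <;> simp
    · cases o <;> cases o' <;> simp
  · obtain ⟨n, hn0⟩ := Int.eq_ofNat_of_zero_le (show 0 ≤ -i by omega)
    obtain rfl : i = -(n : ℤ) := by omega
    have hn : n ≤ lenD X Y (o == o') false c r := by omega
    have h1 : AgD X Y (o == o') false c r n := (lenD_spec (f2 false)).1.mono hn
    obtain ⟨g1, g2⟩ := AgD.sandwich l1 l2 h1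
    refine ⟨⟨false, n, g1, ?_, ?_⟩, ⟨(false == o), n, g2, ?_, ?_⟩⟩
    · simp; ring
    · cases o <;> simp <;> ring
    · cases o <;> simp <;> ring
    · cases o <;> cases o' <;> simp <;> ring

theorem s2g_comp_fin {X w Y : Ln (Fin D.nV) S.nx} {o o' : Bool} {c q r : ℤ} (l1 : LeD X w o c q)
    (l2 : LeD w Y o' q r) (f1 : FinCl X w o c q) : FinCl X Y (o == o') c r := by
  intro e
  obtain ⟨n, hn⟩ := f1 e
  exact ⟨n, fun h' => hn (AgD.sandwich l1 l2 h').1⟩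

/-- a class as the set of indices -/
theorem s2g_index {X Y : Ln (Fin D.nV) S.nx} {o : Bool} {c r c' r' : ℤ} (f : FinCl X Y o c r)
    (h : Cn X Y o c r c' r') :
    (c' - c) ∈ Finset.Icc (-(lenD X Y o false c r : ℤ)) (lenD X Y o true c r : ℤ) := by
  have := h.mem_Icc_left f
  rw [Finset.mem_Icc] at this ⊢
  omega

theorem s2g_val {X w Y : Ln (Fin D.nV) S.nx} {o o' : Bool} {c q r : ℤ} (l1 : LeD X w o c q) (l2 : LeD w Y o' q r)
    (f1 : FinCl X w o c q) (g h : ℤ → k) :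
    ∑ᶠ q', pull w Y o' q r h q' * push X w o c q g q' =
      ∑ i ∈ Finset.Icc (-(lenD X Y (o == o') false c r : ℤ)) (lenD X Y (o == o') true c r : ℤ),
        h (stn (o == o') i r) * g (c + i) := by
  classical
  have f2 := s2g_comp_fin l1 l2 f1
  have hinj : Function.Injective (fun i : ℤ => stn o i q) := by
    intro i i' hii
    cases o <;> simpa using hii
  rw [finsum_eq_sum_of_support_subset _ (s := (Finset.Icc (-(lenD X Y (o == o') false c r : ℤ))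
    (lenD X Y (o == o') true c r : ℤ)).image (fun i : ℤ => stn o i q)) ?_, Finset.sum_image (fun i _ i' _ hii => hinj hii)]
  · refine Finset.sum_congr rfl (fun i hi => ?_)
    obtain ⟨c1, c2⟩ := s2g_class l1 l2 f2 hi
    rw [push_eq c1, pull_eq c2]
  · intro q' hq'
    have h1 : pull w Y o' q r h q' ≠ 0 := fun h0 => hq' (by simp only [h0, zero_mul])
    have h2 : push X w o c q g q' ≠ 0 := fun h0 => hq' (by simp only [h0, mul_zero])
    obtain ⟨r', hr'⟩ := s2g_pull_ne h1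
    obtain ⟨c', hc'⟩ := s2g_push_ne h2
    have hi := s2g_index f2 (hc'.comp hr')
    rw [Finset.mem_coe, Finset.mem_image]
    refine ⟨c' - c, hi, ?_⟩
    have h3 := (s2g_class l1 l2 f2 hi).1
    rw [show c + (c' - c) = c' by ring] at h3
    exact h3.unique_right hc'

/-- The value of a pair of graph maps through a common position is `Ω`.

Proof: by `Cn.comp` the positions `q'` with `Cn X w o c q c' q'` and `Cn w Y o' q r q' r'` are those with
`Cn X Y (o == o') c r c' r'` (a class of `X, Y` is the intersection, because the order sandwich `LeD` gives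
agreement of `w` with both: `AgD.sandwich`); `Om` is the sum over this class. -/
theorem val_eq_om (X Y : Blk S k) (a : X.M.C) (b : Dual k Y.M.C) (w : Str S) {o o' : Bool} {c q r : ℤ}
    (h1 : Ord X.x w o c q) (h2 : Ord w Y.x o' q r) (φ : Dual k (Fin X.n → k)) (y : Fin Y.n → k) :
    ∑ᶠ q', pull w.L Y.x.L o' q r (fun r' => Y.cf b r' y) q' * push X.x.L w.L o c q (fun c' => φ (X.fn a c')) q' =
      Om X.x.L Y.x.L (X.fn a) (Y.cf b) (φ.smulRight y) (o == o') c r := by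
  obtain ⟨_, _, _, l1, f1⟩ := h1
  obtain ⟨_, _, _, l2, _⟩ := h2
  rw [s2g_val l1 l2 f1]
  unfold Om
  refine Finset.sum_congr rfl (fun i _ => ?_)
  rw [LinearMap.smulRight_apply, map_smul, smul_eq_mul, mul_comm]

theorem s2g_push_base {M : Type*} [Zero M] {w Y : Ln (Fin D.nV) S.nx} {o' : Bool} {q₁ b₁ q b : ℤ} (ξ : ℤ → M)
    (h : Cn w Y o' q₁ b₁ q b) : push w Y o' q₁ b₁ ξ = push w Y o' q b ξ := by
  funext b'
  by_cases h1 : ∃ q', Cn w Y o' q₁ b₁ q' b'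
  · obtain ⟨q', hq'⟩ := h1
    rw [push_eq hq', push_eq (h.symm.trans hq')]
  · rw [push_zero h1, push_zero]
    rintro ⟨q', hq'⟩
    exact h1 ⟨q', h.trans hq'⟩

theorem s2g_pull_base {M : Type*} [Zero M] {X w : Ln (Fin D.nV) S.nx} {o₁ : Bool} {a₁ q₁ a q : ℤ} (g : ℤ → M)
    (h : Cn X w o₁ a₁ q₁ a q) : pull X w o₁ a₁ q₁ g = pull X w o₁ a q g := by
  funext a'
  by_cases h1 : ∃ q', Cn X w o₁ a₁ q₁ a' q'
  · obtain ⟨q', hq'⟩ := h1
    rw [pull_eq hq', pull_eq (h.symm.trans hq')]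
  · rw [pull_zero h1, pull_zero]
    rintro ⟨q', hq'⟩
    exact h1 ⟨q', h.trans hq'⟩

theorem s2g_ord {x y : Str S} {o : Bool} {a b a' b' : ℤ} (h : Ord x y o a b) (hc : Cn x.L y.L o a b a' b') :
    Ord x y o a' b' := by
  obtain ⟨h1, h2, h3, h4, h5⟩ := h
  exact ⟨Ln.Reach.trans h1 hc.reach_left, Ln.Reach.trans h2 hc.reach_right, hc.mt.2 h3, hc.le.2 h4, hc.fin.2 h5⟩

/-- If the value is not zero then the classes meet in a relevant position. -/
theorem val_ne_zero {X Y : Blk S k} (a : X.M.C) (b : Dual k Y.M.C) (w : Str S) {o o' : Bool} {c q q₁ r : ℤ}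
    (h1 : Ord X.x w o c q) (h2 : Ord w Y.x o' q₁ r) (φ : Dual k (Fin X.n → k)) (y : Fin Y.n → k)
    (h : ∑ᶠ q', pull w.L Y.x.L o' q₁ r (fun r' => Y.cf b r' y) q' *
      push X.x.L w.L o c q (fun c' => φ (X.fn a c')) q' ≠ 0) :
    ∃ c' q' r', Cn X.x.L w.L o c q c' q' ∧ Cn w.L Y.x.L o' q₁ r q' r' ∧ Ord X.x w o c' q' ∧ Ord w Y.x o' q' r' ∧
      Om X.x.L Y.x.L (X.fn a) (Y.cf b) (φ.smulRight y) (o == o') c' r' ≠ 0 := by
  obtain ⟨q', hq'⟩ : ∃ q', pull w.L Y.x.L o' q₁ r (fun r' => Y.cf b r' y) q' *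
      push X.x.L w.L o c q (fun c' => φ (X.fn a c')) q' ≠ 0 := by
    by_contra hcon
    push Not at hcon
    exact h (by simp only [hcon, finsum_zero])
  have g1 : pull w.L Y.x.L o' q₁ r (fun r' => Y.cf b r' y) q' ≠ 0 := fun h0 => hq' (by rw [h0, zero_mul])
  have g2 : push X.x.L w.L o c q (fun c' => φ (X.fn a c')) q' ≠ 0 := fun h0 => hq' (by rw [h0, mul_zero])
  obtain ⟨r', hr'⟩ := s2g_pull_ne g1
  obtain ⟨c', hc'⟩ := s2g_push_ne g2
  refine ⟨c', q', r', hc', hr', s2g_ord h1 hc', s2g_ord h2 hr', ?_⟩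
  rw [s2g_push_base _ hc', s2g_pull_base _ hr', val_eq_om X Y a b w (s2g_ord h1 hc') (s2g_ord h2 hr')] at h
  exact h

/-- rank at least one -/
theorem NF.rkW_one (p : NF S k) (w : Str S) : p.RkW w 1 ↔ ∃ q, p.Rel w q := by
  constructor
  · rintro ⟨s, t, hs, ht, hd⟩
    rw [Matrix.det_fin_one] at hd
    obtain ⟨i, o, c, q, φ, o1, hs1⟩ := hs 0
    obtain ⟨j, o', q₁, r, y, o2, ht1⟩ := ht 0
    have hd' : ∑ᶠ q', t 0 q' * s 0 q' ≠ 0 := hd
    rw [hs1, ht1] at hd'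
    obtain ⟨c', q', r', -, -, g1, g2, g3⟩ := val_ne_zero (p.a i) (p.b j) w o1 o2 φ y hd'
    exact ⟨q', i, j, o, o', c', r', g1, g2, _, g3⟩
  · rintro ⟨q, i, j, o, o', c, r, o1, o2, κ, hne⟩
    obtain ⟨φ, v, hv⟩ := exists_rank_one hne
    refine ⟨fun _ => push (p.X i).x.L w.L o c q (fun c' => φ ((p.X i).fn (p.a i) c')),
      fun _ => pull w.L (p.Y j).x.L o' q r (fun r' => (p.Y j).cf (p.b j) r' v),
      fun _ => ⟨i, o, c, q, φ, o1, rfl⟩, fun _ => ⟨j, o', q, r, v, o2, rfl⟩, ?_⟩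
    rw [Matrix.det_fin_one]
    show ∑ᶠ q', pull w.L (p.Y j).x.L o' q r (fun r' => (p.Y j).cf (p.b j) r' v) q' *
      push (p.X i).x.L w.L o c q (fun c' => φ ((p.X i).fn (p.a i) c')) q' ≠ 0
    rw [val_eq_om (p.X i) (p.Y j) (p.a i) (p.b j) w o1 o2]
    exact hv

theorem s2g_succ {p : NF S k} {w : Str S} {n : ℕ} (h : p.RkW w (n + 1)) : p.RkW w n := by
  obtain ⟨s, t, hs, ht, hd⟩ := h
  rw [Matrix.det_succ_row_zero] at hd
  obtain ⟨j, -, hj⟩ := Finset.exists_ne_zero_of_sum_ne_zero hd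
  have hj' := right_ne_zero_of_mul hj
  exact ⟨fun j' => s (j.succAbove j'), fun i => t i.succ, fun j' => hs _, fun i => ht _, hj'⟩

theorem NF.RkW.mono {p : NF S k} {w : Str S} {m n : ℕ} (h : p.RkW w n) (hm : m ≤ n) : p.RkW w m := by
  obtain ⟨d, rfl⟩ := Nat.exists_eq_add_of_le hm
  induction d with
  | zero => exact h
  | succ d ih => exact ih (s2g_succ h) (Nat.le_add_right _ _)

end StrAlg
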