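import Pool.Agent.Lib.MP_b9fd58_lc.S2G

/-!
# Stage 2, job S2H: pairs of finite rank on a string have finitely many relevant positions
-/

set_option autoImplicit false

namespace StrAlg

open Module

section s2hper
variable {ι : Type*} {nx : ι → Bool → Fin 3 → ι × Bool}

theorem s2h_wdd {L : Ln ι nx} {l : ℕ} (h : L.IsPer l) (e : Bool) (a m : ℤ) : L.wdd e (a + m * l) = L.wdd e a := by
  funext n
  rw [Ln.wdd_apply, Ln.wdd_apply]
  have : stn e n (a + m * l) = stn e n a + m * l := by cases e <;> simp <;> ring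
  rw [this, (h.lt e).mul]

theorem s2h_agd_left {X Y : Ln ι nx} {l : ℕ} (h : X.IsPer l) {o e : Bool} {a b : ℤ} {n : ℕ} (m : ℤ) :
    AgD X Y o e (a + m * l) b n ↔ AgD X Y o e a b n := by
  unfold AgD
  rw [s2h_wdd h]

theorem s2h_agd_right {X Y : Ln ι nx} {l : ℕ} (h : Y.IsPer l) {o e : Bool} {a b : ℤ} {n : ℕ} (m : ℤ) :
    AgD X Y o e a (b + m * l) n ↔ AgD X Y o e a b n := by
  unfold AgD
  rw [s2h_wdd h]

theorem s2h_fin_left {X Y : Ln ι nx} {l : ℕ} (h : X.IsPer l) {o : Bool} {a b : ℤ} (m : ℤ) :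
    FinCl X Y o (a + m * l) b ↔ FinCl X Y o a b := by
  unfold FinCl
  simp only [s2h_agd_left h]

theorem s2h_fin_right {X Y : Ln ι nx} {l : ℕ} (h : Y.IsPer l) {o : Bool} {a b : ℤ} (m : ℤ) :
    FinCl X Y o a (b + m * l) ↔ FinCl X Y o a b := by
  unfold FinCl
  simp only [s2h_agd_right h]

theorem s2h_cn_left {X Y : Ln ι nx} {l : ℕ} (h : X.IsPer l) {o : Bool} {a b a' b' : ℤ} (m : ℤ)
    (hc : Cn X Y o a b a' b') : Cn X Y o (a + m * l) b (a' + m * l) b' := by
  obtain ⟨e, n, h1, rfl, rfl⟩ := hc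
  refine ⟨e, n, (s2h_agd_left h m).2 h1, ?_, rfl⟩
  cases e <;> simp <;> ring

theorem s2h_cn_right {X Y : Ln ι nx} {l : ℕ} (h : Y.IsPer l) {o : Bool} {a b a' b' : ℤ} (m : ℤ)
    (hc : Cn X Y o a b a' b') : Cn X Y o a (b + m * l) a' (b' + m * l) := by
  obtain ⟨e, n, h1, rfl, rfl⟩ := hc
  refine ⟨e, n, (s2h_agd_right h m).2 h1, rfl, ?_⟩
  cases (e == o) <;> simp <;> ring

end s2hper

variable {D : Dat} {k : Type} [Field k] {S : Sides D}

theorem s2h_rep (X : Blk S k) {a : ℤ} (ha : a ∈ X.x.Z) :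
    ((a : ℤ) : ZMod X.l) ∈ repZ X.x X.l (fun h => X.fin h) := by
  by_contra hcon
  refine repZ_spec X.x X.l (fun h => X.fin h) _ hcon ?_
  have hP : Per X.l (fun p => p ∈ X.x.Z) := fun p => propext (X.x.Zper X.ok p)
  exact (hP.cst a).mpr ha

/-- The union of the finite classes of `X` with `w` that contain the position `c` of `w` is finite: the class only depends on the
position of `X` modulo its period (and on `o`), `FinCl`. -/
theorem classes_finite_in (X : Blk S k) (w : Str S) (c : ℤ) :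
    {q | ∃ (o : Bool) (a a' : ℤ), Ord X.x w o a c ∧ Cn X.x.L w.L o a c a' q}.Finite := by
  classical
  refine Set.Finite.subset (s := ⋃ o ∈ (Finset.univ : Finset Bool), ⋃ x ∈ repZ X.x X.l (fun h => X.fin h),
    {q | FinCl X.x.L w.L o (cst x) c ∧ ∃ a', Cn X.x.L w.L o (cst x) c a' q}) ?_ ?_
  · refine Set.Finite.biUnion (Finset.finite_toSet _) (fun o _ => ?_)
    refine Set.Finite.biUnion (Finset.finite_toSet _) (fun x _ => ?_)
    by_cases hf : FinCl X.x.L w.L o (cst x) c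
    · refine Set.Finite.subset (Finset.finite_toSet (Finset.Icc
        (c - (lenD X.x.L w.L o false (cst x) c + lenD X.x.L w.L o true (cst x) c))
        (c + (lenD X.x.L w.L o false (cst x) c + lenD X.x.L w.L o true (cst x) c)))) ?_
      rintro q ⟨-, a', hq⟩
      exact Finset.mem_coe.2 (Cn.mem_Icc_right hf hq)
    · refine Set.Finite.subset Set.finite_empty ?_
      rintro q ⟨h, -⟩
      exact (hf h).elim
  · rintro q ⟨o, a, a', ho, hc⟩
    obtain ⟨m, hm⟩ := cst_int (l := X.l) a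
    simp only [Set.mem_iUnion]
    refine ⟨o, Finset.mem_univ _, ((a : ℤ) : ZMod X.l), s2h_rep X ho.1, ?_, a' + m * X.l, ?_⟩
    · rw [hm]
      exact (s2h_fin_left X.ok.per m).2 ho.2.2.2.2
    · rw [hm]
      exact s2h_cn_left X.ok.per m hc

theorem classes_finite_out (Y : Blk S k) (w : Str S) (c : ℤ) :
    {q | ∃ (o : Bool) (r r' : ℤ), Ord w Y.x o c r ∧ Cn w.L Y.x.L o c r q r'}.Finite := by
  classical
  refine Set.Finite.subset (s := ⋃ o ∈ (Finset.univ : Finset Bool), ⋃ x ∈ repZ Y.x Y.l (fun h => Y.fin h),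
    {q | FinCl w.L Y.x.L o c (cst x) ∧ ∃ r', Cn w.L Y.x.L o c (cst x) q r'}) ?_ ?_
  · refine Set.Finite.biUnion (Finset.finite_toSet _) (fun o _ => ?_)
    refine Set.Finite.biUnion (Finset.finite_toSet _) (fun x _ => ?_)
    by_cases hf : FinCl w.L Y.x.L o c (cst x)
    · refine Set.Finite.subset (Finset.finite_toSet (Finset.Icc
        (c - lenD w.L Y.x.L o false c (cst x)) (c + lenD w.L Y.x.L o true c (cst x)))) ?_
      rintro q ⟨-, a', hq⟩
      exact Finset.mem_coe.2 (Cn.mem_Icc_left hf hq)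
    · refine Set.Finite.subset Set.finite_empty ?_
      rintro q ⟨h, -⟩
      exact (hf h).elim
  · rintro q ⟨o, r, r', ho, hc⟩
    obtain ⟨m, hm⟩ := cst_int (l := Y.l) r
    simp only [Set.mem_iUnion]
    refine ⟨o, Finset.mem_univ _, ((r : ℤ) : ZMod Y.l), s2h_rep Y ho.2.1, ?_, r' + m * Y.l, ?_⟩
    · rw [hm]
      exact (s2h_fin_right Y.ok.per m).2 ho.2.2.2.2
    · rw [hm]
      exact s2h_cn_right Y.ok.per m hc

/-- the positions `q'` are in a common in-class with `q` -/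
def s2hIn (p : NF S k) (w : Str S) (q q' : ℤ) : Prop :=
  ∃ (i : Fin p.m) (o : Bool) (a a' : ℤ), Ord (p.X i).x w o a q ∧ Cn (p.X i).x.L w.L o a q a' q'

def s2hOut (p : NF S k) (w : Str S) (q q' : ℤ) : Prop :=
  ∃ (j : Fin p.m') (o : Bool) (r r' : ℤ), Ord w (p.Y j).x o q r ∧ Cn w.L (p.Y j).x.L o q r q' r'

theorem s2h_ord {x y : Str S} {o : Bool} {a b a' b' : ℤ} (h : Ord x y o a b) (hc : Cn x.L y.L o a b a' b') :
    Ord x y o a' b' :=
  ⟨Ln.Reach.trans h.1 hc.reach_left, Ln.Reach.trans h.2.1 hc.reach_right, hc.mt.2 h.2.2.1, hc.le.2 h.2.2.2.1,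
    hc.fin.2 h.2.2.2.2⟩

theorem s2hIn.symm {p : NF S k} {w : Str S} {q q' : ℤ} (h : s2hIn p w q q') : s2hIn p w q' q := by
  obtain ⟨i, o, a, a', h1, h2⟩ := h
  exact ⟨i, o, a', a, s2h_ord h1 h2, h2.symm⟩

theorem s2hOut.symm {p : NF S k} {w : Str S} {q q' : ℤ} (h : s2hOut p w q q') : s2hOut p w q' q := by
  obtain ⟨j, o, r, r', h1, h2⟩ := h
  exact ⟨j, o, r', r, s2h_ord h1 h2, h2.symm⟩

theorem s2hIn_finite (p : NF S k) (w : Str S) (q : ℤ) : {q' | s2hIn p w q q'}.Finite := by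
  refine Set.Finite.subset (s := ⋃ i : Fin p.m,
    {q' | ∃ (o : Bool) (a a' : ℤ), Ord (p.X i).x w o a q ∧ Cn (p.X i).x.L w.L o a q a' q'}) ?_ ?_
  · exact Set.finite_iUnion (fun i => classes_finite_in (p.X i) w q)
  · rintro q' ⟨i, o, a, a', h1, h2⟩
    exact Set.mem_iUnion.2 ⟨i, o, a, a', h1, h2⟩

theorem s2hOut_finite (p : NF S k) (w : Str S) (q : ℤ) : {q' | s2hOut p w q q'}.Finite := by
  refine Set.Finite.subset (s := ⋃ j : Fin p.m',
    {q' | ∃ (o : Bool) (r r' : ℤ), Ord w (p.Y j).x o q r ∧ Cn w.L (p.Y j).x.L o q r q' r'}) ?_ ?_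
  · exact Set.finite_iUnion (fun j => classes_finite_out (p.Y j) w q)
  · rintro q' ⟨j, o, r, r', h1, h2⟩
    exact Set.mem_iUnion.2 ⟨j, o, r, r', h1, h2⟩

/-- the graph maps through a relevant position -/
theorem s2h_rel {p : NF S k} {w : Str S} {q : ℤ} (h : p.Rel w q) :
    ∃ s t : ℤ → k, p.GIn w s ∧ p.GOut w t ∧ (∑ᶠ q', t q' * s q') ≠ 0 ∧
      (∀ q', s q' ≠ 0 → s2hIn p w q q') ∧ (∀ q', t q' ≠ 0 → s2hOut p w q q') := by
  obtain ⟨i, j, o, o', c, r, h1, h2, κ, hκ⟩ := h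
  obtain ⟨φ, v, h3⟩ := exists_rank_one hκ
  refine ⟨push (p.X i).x.L w.L o c q (fun c' => φ ((p.X i).fn (p.a i) c')),
    pull w.L (p.Y j).x.L o' q r (fun r' => (p.Y j).cf (p.b j) r' v), ⟨i, o, c, q, φ, h1, rfl⟩,
    ⟨j, o', q, r, v, h2, rfl⟩, ?_, ?_, ?_⟩
  · rw [val_eq_om (p.X i) (p.Y j) (p.a i) (p.b j) w h1 h2 φ v]
    exact h3
  · intro q' hq'
    by_contra hcon
    apply hq'
    apply push_zero
    rintro ⟨c', hc'⟩
    exact hcon ⟨i, o, c, c', h1, hc'⟩
  · intro q' hq'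
    by_contra hcon
    apply hq'
    apply pull_zero
    rintro ⟨r', hr'⟩
    exact hcon ⟨j, o', r, r', h2, hr'⟩

theorem s2h_ind {p : NF S k} {w : Str S} (h : ¬ {q | p.Rel w q}.Finite) (n : ℕ) :
    ∃ s t : Fin n → ℤ → k, (∀ j, p.GIn w (s j)) ∧ (∀ i, p.GOut w (t i)) ∧
      (∀ i, (∑ᶠ q, t i q * s i q) ≠ 0) ∧ ∀ i j, i ≠ j → ∀ q, t i q * s j q = 0 := by
  classical
  induction n with
  | zero =>
    exact ⟨fun i => i.elim0, fun i => i.elim0, fun i => i.elim0, fun i => i.elim0, fun i => i.elim0,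
      fun i => i.elim0⟩
  | succ n ih =>
    obtain ⟨s, t, hs, ht, hd, ho⟩ := ih
    have hB : ((⋃ i : Fin n, ⋃ q' ∈ Function.support (t i), {q | s2hIn p w q' q}) ∪
        (⋃ j : Fin n, ⋃ q' ∈ Function.support (s j), {q | s2hOut p w q' q})).Finite := by
      refine Set.Finite.union ?_ ?_
      · exact Set.finite_iUnion (fun i => Set.Finite.biUnion (ht i).fin.1 (fun q' _ => s2hIn_finite p w q'))
      · exact Set.finite_iUnion (fun i => Set.Finite.biUnion (hs i).fin.1 (fun q' _ => s2hOut_finite p w q'))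
    obtain ⟨q, hq, hqB⟩ : ∃ q, p.Rel w q ∧ q ∉ ((⋃ i : Fin n, ⋃ q' ∈ Function.support (t i), {q | s2hIn p w q' q}) ∪
        (⋃ j : Fin n, ⋃ q' ∈ Function.support (s j), {q | s2hOut p w q' q})) := by
      by_contra hcon
      push Not at hcon
      exact h (hB.subset hcon)
    obtain ⟨s₀, t₀, g1, g2, g3, g4, g5⟩ := s2h_rel hq
    have k1 : ∀ i q', t i q' * s₀ q' = 0 := by
      intro i q'
      by_contra hne
      have a1 := left_ne_zero_of_mul hne
      have a2 := right_ne_zero_of_mul hne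
      apply hqB
      left
      exact Set.mem_iUnion.2 ⟨i, Set.mem_iUnion₂.2 ⟨q', a1, (g4 q' a2).symm⟩⟩
    have k2 : ∀ j q', t₀ q' * s j q' = 0 := by
      intro j q'
      by_contra hne
      have a1 := left_ne_zero_of_mul hne
      have a2 := right_ne_zero_of_mul hne
      apply hqB
      right
      exact Set.mem_iUnion.2 ⟨j, Set.mem_iUnion₂.2 ⟨q', a2, (g5 q' a1).symm⟩⟩
    refine ⟨Fin.cons s₀ s, Fin.cons t₀ t, ?_, ?_, ?_, ?_⟩
    · intro j
      refine Fin.cases ?_ (fun j => ?_) j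
      · exact g1
      · exact hs j
    · intro j
      refine Fin.cases ?_ (fun j => ?_) j
      · exact g2
      · exact ht j
    · intro j
      refine Fin.cases ?_ (fun j => ?_) j
      · exact g3
      · exact hd j
    · intro i j
      refine Fin.cases ?_ (fun i => ?_) i
      · refine Fin.cases ?_ (fun j => ?_) j
        · intro hij; exact absurd rfl hij
        · intro _ q'; exact k2 j q'
      · refine Fin.cases ?_ (fun j => ?_) j
        · intro _ q'; exact k1 i q'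
        · intro hij q'
          exact ho i j (fun h' => hij (by rw [h'])) q'

/-- **Finitely many relevant positions.**

Proof: let there be infinitely many; by induction on `n` choose relevant positions `q_1, …, q_n` with graph-map functions
`s_j ∈ GIn`, `t_j ∈ GOut` through `q_j` (`val_eq_om`, `exists_rank_one`: the sum of `t_j s_j` is not zero), such that the class of
`s_i` does not meet the class of `t_j` for `i ≠ j`: choose `q_{n+1}` outside all the classes (in or out) through the positions of the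
classes of `s_j, t_j`, `j ≤ n`. Then the matrix is diagonal with nonzero entries. -/
theorem NF.rel_finite (p : NF S k) (w : Str S) {n : ℕ} (h : ¬ p.RkW w n) : {q | p.Rel w q}.Finite := by
  classical
  by_contra hcon
  apply h
  obtain ⟨s, t, hs, ht, hd, ho⟩ := s2h_ind hcon n
  refine ⟨s, t, hs, ht, ?_⟩
  have hM : (Matrix.of fun i j => ∑ᶠ q, t i q * s j q) = Matrix.diagonal (fun i => ∑ᶠ q, t i q * s i q) := by
    ext i j
    rw [Matrix.of_apply, Matrix.diagonal_apply]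
    split_ifs with hij
    · rw [hij]
    · rw [finsum_congr (fun q => ho i j hij q), finsum_zero]
  rw [hM, Matrix.det_diagonal]
  exact Finset.prod_ne_zero_iff.2 (fun i _ => hd i)

end StrAlg
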