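import Pool.Agent.Lib.MP_b9fd58_lc.S2DivDef

/-!
# Stage 2, job S2I: chains in dual modules as functionals; the periodic string of a tail
-/

set_option autoImplicit false

namespace StrAlg

open Module Polynomial

variable {D : Dat} {k : Type} [Field k] {S : Sides D}

theorem s2i_ev_single {X : Type} [AddCommGroup X] [Module k X] (g : ℤ → X →ₗ[k] k) (q : ℤ) (x : X) :
    evF g (Finsupp.single q x) = g q x := by
  unfold evF
  rw [Finsupp.lsum_single]

theorem s2i_Z_out (w : Str S) {q : ℤ} (hq : q ∉ w.Z) {e : Bool} (h : w.L.lt e q ≠ 1) : st e q ∉ w.Z := by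
  intro h1
  apply hq
  have h2 : w.L.lt (!e) (st e q) ≠ 1 := by
    rw [Ln.lt_back]
    exact Ln.rev_ne_one.2 h
  have h3 := w.Zcl (!e) (st e q) h1 h2
  rwa [st_not_st] at h3

theorem s2i_gen_iff (w : Str S) (X : Md D.op k) (g : ℤ → X.C →ₗ[k] k) :
    (∀ z ∈ w.Lsp X, evF g z = 0) ↔ ∀ z ∈ w.Lgen X, evF g z = 0 := by
  constructor
  · intro h z hz
    exact h z (Submodule.subset_span hz)
  · intro h z hz
    have h1 : w.Lsp X ≤ LinearMap.ker (evF g) := Submodule.span_le.2 fun z hz => h z hz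
    exact h1 hz

/-- A family of functionals is a full chain along `w` in `X*` iff the functional on `⊕ X` kills the relations
(`QMod.codual` acts by transposition; for `q ∉ w.Z` the neighbours through a letter are not positions either). -/
theorem mem_Q_iff_Lsp (w : Str S) (X : Md D.op k) (g : ℤ → X.C →ₗ[k] k) :
    (show ℤ → X.codual.C from g) ∈ w.Q X.codual ↔ ∀ z ∈ w.Lsp X, evF g z = 0 := by
  classical
  rw [s2i_gen_iff]
  have hop : ∀ (γ : D.Gen) (f : X.C →ₗ[k] k) (x : X.C),
      (show X.C →ₗ[k] k from X.codual.Q.op γ (show X.codual.C from f)) x = f (X.Q.op γ x) :=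
    fun _ _ _ => rfl
  constructor
  · rintro ⟨h1, h2⟩ z hz
    rcases hz with (⟨q, x, hq, rfl⟩ | ⟨q, i, x, hq, rfl⟩) | ⟨q, α, x, hq, rfl⟩
    · rw [s2i_ev_single]
      have h3 : g q = 0 := h2 q hq
      rw [h3, LinearMap.zero_apply]
    · have h3 := (h1 q).1 i
      have h4 : g q (X.Q.op (Sum.inl i) x) = (if w.L.v q = i then g q x else 0) := by
        refine (hop (Sum.inl i) (g q) x).symm.trans ?_
        have h5 := congrArg (fun f : X.C →ₗ[k] k => f x) h3
        refine Eq.trans h5 ?_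
        show ((if w.L.v q = i then g q else 0 : X.C →ₗ[k] k)) x = _
        split_ifs <;> rfl
      rw [map_sub, s2i_ev_single, h4]
      split_ifs
      · rw [s2i_ev_single, sub_self]
      · rw [map_zero, sub_self]
    · have h3 := (h1 q).2 α
      have h4 : g q (X.Q.op (Sum.inr α) x) = ∑ e : Bool,
          (if w.L.lt e q = 2 ∧ S.ends.outA (w.L.v q) (w.L.sd e q) = some α then g (st e q) x else 0) := by
        refine (hop (Sum.inr α) (g q) x).symm.trans ?_
        have h5 := congrArg (fun f : X.C →ₗ[k] k => f x) h3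
        refine Eq.trans h5 ?_
        show ((∑ e : Bool, if w.L.lt e q = 2 ∧ S.ends.outA (w.L.v q) (w.L.sd e q) = some α then
          g (st e q) else 0 : X.C →ₗ[k] k)) x = _
        rw [LinearMap.sum_apply]
        refine Finset.sum_congr rfl fun e _ => ?_
        split_ifs <;> rfl
      rw [map_sub, s2i_ev_single, h4, map_sum, sub_eq_zero]
      refine Finset.sum_congr rfl fun e _ => ?_
      split_ifs
      · rw [s2i_ev_single]
      · rw [map_zero]
  · intro h
    have hout : ∀ q, q ∉ w.Z → g q = 0 := by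
      intro q hq
      refine LinearMap.ext fun x => ?_
      have h1 := h (Finsupp.single q x) (Or.inl (Or.inl ⟨q, x, hq, rfl⟩))
      rw [s2i_ev_single] at h1
      rw [h1, LinearMap.zero_apply]
    refine ⟨fun q => ⟨fun i => ?_, fun α => ?_⟩, hout⟩
    · show (X.codual.Q.op (Sum.inl i) (show X.codual.C from g q)) =
        (if w.L.v q = i then g q else 0 : X.C →ₗ[k] k)
      refine LinearMap.ext fun x => ?_
      refine (hop (Sum.inl i) (g q) x).trans ?_
      by_cases hq : q ∈ w.Z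
      · have h1 := h _ (Or.inl (Or.inr ⟨q, i, x, hq, rfl⟩))
        rw [map_sub, s2i_ev_single, sub_eq_zero] at h1
        refine h1.symm.trans ?_
        split_ifs
        · rw [s2i_ev_single]
        · rw [map_zero, LinearMap.zero_apply]
      · rw [hout q hq]
        split_ifs <;> rfl
    · show (X.codual.Q.op (Sum.inr α) (show X.codual.C from g q)) =
        (∑ e : Bool, if w.L.lt e q = 2 ∧ S.ends.outA (w.L.v q) (w.L.sd e q) = some α then
          g (st e q) else 0 : X.C →ₗ[k] k)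
      refine LinearMap.ext fun x => ?_
      refine (hop (Sum.inr α) (g q) x).trans ?_
      rw [LinearMap.sum_apply]
      by_cases hq : q ∈ w.Z
      · have h1 := h _ (Or.inr ⟨q, α, x, hq, rfl⟩)
        rw [map_sub, s2i_ev_single, sub_eq_zero, map_sum] at h1
        refine h1.symm.trans ?_
        refine Finset.sum_congr rfl fun e _ => ?_
        split_ifs
        · rw [s2i_ev_single]
        · rw [map_zero, LinearMap.zero_apply]
      · rw [hout q hq, LinearMap.zero_apply]
        symm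
        refine Finset.sum_eq_zero fun e _ => ?_
        split_ifs with h2
        · rw [hout _ (s2i_Z_out w hq (e := e) (by rw [h2.1]; decide)), LinearMap.zero_apply]
        · rw [LinearMap.zero_apply]

/-! ### The periodic string of a tail -/

/-- the edge between `p` and `p + 1` is in the tail -/
def s2i_far (e : Bool) (p₁ p : ℤ) : Prop := if e then p₁ ≤ p else p + 1 ≤ p₁

/-- a position far out in the tail that represents `p` -/
def s2i_rep (e : Bool) (p₁ : ℤ) (l : ℕ) (p : ℤ) : ℤ := stn e ((((p - p₁).natAbs + 1 : ℕ) : ℤ) * l) p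

section line
variable {ι : Type*} {nx : ι → Bool → _root_.Fin 3 → ι × Bool} {L : Ln ι nx} {e : Bool} {p₁ : ℤ} {l : ℕ}

theorem s2i_lam (h : L.UpT e p₁ l) {p : ℤ} (hp : s2i_far e p₁ p) :
    L.lam (stn e l p) = L.lam p ∧ L.lam p ≠ 1 := by
  cases e with
  | true =>
    have hp' : p₁ ≤ p := hp
    obtain ⟨n, hn⟩ := Int.eq_ofNat_of_zero_le (sub_nonneg.2 hp')
    have h1 := h.lt n
    have h2 := h.ne n
    have e1 : p = p₁ + n := by omega
    simp only [Ln.lt, stn_true, if_true] at h1 h2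
    rw [e1]
    refine ⟨?_, h2⟩
    rw [← h1, stn_true]
    congr 1
    push_cast
    ring
  | false =>
    have hp' : p + 1 ≤ p₁ := hp
    obtain ⟨n, hn⟩ := Int.eq_ofNat_of_zero_le (sub_nonneg.2 hp')
    have h1 := h.lt n
    have h2 := h.ne n
    have e1 : p = p₁ - n - 1 := by omega
    simp only [Ln.lt, stn_false, Bool.false_eq_true, if_false] at h1 h2
    rw [e1]
    refine ⟨?_, Ln.rev_ne_one.1 h2⟩
    rw [← Ln.rev_inj'.1 h1, stn_false]
    congr 1
    push_cast
    ring

theorem s2i_v (h : L.UpT e p₁ l) {p : ℤ} (hp : Bey e p₁ p) :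
    L.v (stn e l p) = L.v p ∧ L.r (stn e l p) = L.r p := by
  cases e with
  | true =>
    have hp' : p₁ ≤ p := hp
    obtain ⟨n, hn⟩ := Int.eq_ofNat_of_zero_le (sub_nonneg.2 hp')
    have h1 := h.v n
    have h2 := h.r n
    have e1 : p = p₁ + n := by omega
    simp only [stn_true] at h1 h2
    have e2 : stn true l (p₁ + n) = p₁ + ((n + l : ℕ) : ℤ) := by
      rw [stn_true]; push_cast; ring
    rw [e1, e2]
    exact ⟨h1, h2⟩
  | false =>
    have hp' : p ≤ p₁ := by simpa using hp
    obtain ⟨n, hn⟩ := Int.eq_ofNat_of_zero_le (sub_nonneg.2 hp')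
    have h1 := h.v n
    have h2 := h.r n
    have e1 : p = p₁ - n := by omega
    simp only [stn_false] at h1 h2
    have e2 : stn false l (p₁ - n) = p₁ - ((n + l : ℕ) : ℤ) := by
      rw [stn_false]; push_cast; ring
    rw [e1, e2]
    exact ⟨h1, h2⟩

theorem s2i_far_bey {p : ℤ} (hp : s2i_far e p₁ p) : Bey e p₁ p := by
  cases e with
  | true => exact hp
  | false =>
    have hp' : p + 1 ≤ p₁ := hp
    rw [Bey_false]
    omega

theorem s2i_far_stn (m : ℕ) {p : ℤ} (hp : s2i_far e p₁ p) : s2i_far e p₁ (stn e m p) := by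
  cases e with
  | true =>
    have hp' : p₁ ≤ p := hp
    show p₁ ≤ p + m
    omega
  | false =>
    have hp' : p + 1 ≤ p₁ := hp
    show p - m + 1 ≤ p₁
    omega

theorem s2i_bey_stn (m : ℕ) {p : ℤ} (hp : Bey e p₁ p) : Bey e p₁ (stn e m p) := by
  cases e with
  | true =>
    have hp' : p₁ ≤ p := hp
    show p₁ ≤ p + m
    omega
  | false =>
    have hp' : p ≤ p₁ := by simpa using hp
    rw [Bey_false, stn_false]
    omega

theorem s2i_lam_mul (h : L.UpT e p₁ l) {p : ℤ} (hp : s2i_far e p₁ p) (j : ℕ) :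
    L.lam (stn e ((j : ℤ) * l) p) = L.lam p := by
  induction j with
  | zero => simp
  | succ j ih =>
    have h1 : stn e (((j + 1 : ℕ) : ℤ) * l) p = stn e l (stn e ((j : ℤ) * l) p) := by
      rw [stn_stn]
      congr 1
      push_cast
      ring
    have h2 : s2i_far e p₁ (stn e ((j : ℤ) * l) p) := by
      have h3 := s2i_far_stn (j * l) hp
      push_cast at h3
      exact h3
    rw [h1, (s2i_lam h h2).1, ih]

theorem s2i_v_mul (h : L.UpT e p₁ l) {p : ℤ} (hp : Bey e p₁ p) (j : ℕ) :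
    L.v (stn e ((j : ℤ) * l) p) = L.v p ∧ L.r (stn e ((j : ℤ) * l) p) = L.r p := by
  induction j with
  | zero => simp
  | succ j ih =>
    have h1 : stn e (((j + 1 : ℕ) : ℤ) * l) p = stn e l (stn e ((j : ℤ) * l) p) := by
      rw [stn_stn]
      congr 1
      push_cast
      ring
    have h2 : Bey e p₁ (stn e ((j : ℤ) * l) p) := by
      have h3 := s2i_bey_stn (j * l) hp
      push_cast at h3
      exact h3
    obtain ⟨h4, h5⟩ := s2i_v h h2
    rw [h1, h4, h5]
    exact ih

theorem s2i_far_mul (hl : 0 < l) {p : ℤ} {j : ℕ} (hj : (p - p₁).natAbs + 1 ≤ j) :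
    s2i_far e p₁ (stn e ((j : ℤ) * l) p) := by
  have h1 : (j : ℤ) ≤ (j : ℤ) * l := by
    have h2 : (1 : ℤ) ≤ l := by exact_mod_cast hl
    nlinarith
  cases e with
  | true =>
    show p₁ ≤ p + (j : ℤ) * l
    omega
  | false =>
    show p - (j : ℤ) * l + 1 ≤ p₁
    omega

/-- on a finite window the periodic line is a translate of the tail -/
theorem s2i_win (h : L.UpT e p₁ l) (p : ℤ) (R : ℕ) : ∃ s : ℤ, ∀ q, (q - p).natAbs ≤ R →
    s2i_far e p₁ (q + s) ∧ L.lam (s2i_rep e p₁ l q) = L.lam (q + s) ∧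
      L.v (s2i_rep e p₁ l q) = L.v (q + s) ∧ L.r (s2i_rep e p₁ l q) = L.r (q + s) := by
  have hl := h.pos
  refine ⟨stn e ((((p - p₁).natAbs + R + 1 : ℕ) : ℤ) * l) 0, fun q hq => ?_⟩
  have e1 : q + stn e ((((p - p₁).natAbs + R + 1 : ℕ) : ℤ) * l) 0 =
      stn e ((((p - p₁).natAbs + R + 1 : ℕ) : ℤ) * l) q := by
    cases e <;> simp <;> ring
  rw [e1]
  obtain ⟨j, hj⟩ : ∃ j : ℕ, (p - p₁).natAbs + R + 1 = ((q - p₁).natAbs + 1) + j :=
    ⟨(p - p₁).natAbs + R + 1 - ((q - p₁).natAbs + 1), by omega⟩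
  have hfar : s2i_far e p₁ (s2i_rep e p₁ l q) := s2i_far_mul hl le_rfl
  have e2 : stn e ((((p - p₁).natAbs + R + 1 : ℕ) : ℤ) * l) q =
      stn e ((j : ℤ) * l) (s2i_rep e p₁ l q) := by
    unfold s2i_rep
    rw [stn_stn, hj]
    congr 1
    push_cast
    ring
  refine ⟨s2i_far_mul hl (by omega), ?_, ?_, ?_⟩
  · rw [e2, s2i_lam_mul h hfar]
  · rw [e2, (s2i_v_mul h (s2i_far_bey hfar) j).1]
  · rw [e2, (s2i_v_mul h (s2i_far_bey hfar) j).2]

/-- the periodic line of a tail -/
def s2i_line (h : L.UpT e p₁ l) : Ln ι nx where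
  lam p := L.lam (s2i_rep e p₁ l p)
  v p := L.v (s2i_rep e p₁ l p)
  r p := L.r (s2i_rep e p₁ l p)
  fwd p hp := by
    obtain ⟨s, hs⟩ := s2i_win h p 1
    obtain ⟨-, h1, h2, h3⟩ := hs p (by simp)
    obtain ⟨-, -, h5, h6⟩ := hs (p + 1) (by simp)
    have e1 : p + 1 + s = (p + s) + 1 := by ring
    rw [h1] at hp
    rw [h1, h2, h3, h5, h6, e1]
    exact L.fwd (p + s) hp
  bwd p hp := by
    obtain ⟨s, hs⟩ := s2i_win h p 1
    obtain ⟨-, h1, h2, h3⟩ := hs p (by simp)
    obtain ⟨-, -, h5, h6⟩ := hs (p + 1) (by simp)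
    have e1 : p + 1 + s = (p + s) + 1 := by ring
    rw [h1] at hp
    rw [h1, h2, h3, h5, h6, e1]
    exact L.bwd (p + s) hp

/-- the lines agree at `q` up to the translation by `s` -/
def s2i_agree (b L : Ln ι nx) (s q : ℤ) : Prop :=
  b.lam q = L.lam (q + s) ∧ b.v q = L.v (q + s) ∧ b.r q = L.r (q + s)

theorem s2i_lt {b L : Ln ι nx} {s q : ℤ} (h : s2i_agree b L s q) (h' : s2i_agree b L s (q - 1)) (e : Bool) :
    b.lt e q = L.lt e (q + s) := by
  unfold Ln.lt
  cases e
  · rw [if_neg Bool.false_ne_true, if_neg Bool.false_ne_true, h'.1]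
    congr 2
    ring
  · rw [if_pos rfl, if_pos rfl, h.1]

theorem s2i_sd {b L : Ln ι nx} {s q : ℤ} (h : s2i_agree b L s q) (e : Bool) :
    b.sd e q = L.sd e (q + s) := by
  unfold Ln.sd
  rw [h.2.2]

theorem s2i_st (e : Bool) (q s : ℤ) : st e q + s = st e (q + s) := by
  cases e <;> simp <;> ring

theorem s2i_line_win (h : L.UpT e p₁ l) (p : ℤ) (R : ℕ) : ∃ s : ℤ, ∀ q, (q - p).natAbs ≤ R →
    s2i_far e p₁ (q + s) ∧ s2i_agree (s2i_line h) L s q := by
  obtain ⟨s, hs⟩ := s2i_win h p R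
  exact ⟨s, fun q hq => ⟨(hs q hq).1, (hs q hq).2⟩⟩

theorem s2i_line_lam (h : L.UpT e p₁ l) (p : ℤ) : (s2i_line h).lam p ≠ 1 := by
  obtain ⟨s, hs⟩ := s2i_line_win h p 0
  obtain ⟨h1, h2⟩ := hs p (by simp)
  rw [h2.1]
  exact (s2i_lam h h1).2

theorem s2i_line_lt (h : L.UpT e p₁ l) (e' : Bool) (p : ℤ) : (s2i_line h).lt e' p ≠ 1 := by
  unfold Ln.lt
  cases e'
  · rw [if_neg Bool.false_ne_true]
    exact Ln.rev_ne_one.2 (s2i_line_lam h _)
  · rw [if_pos rfl]
    exact s2i_line_lam h _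

theorem s2i_line_reach (h : L.UpT e p₁ l) (p : ℤ) : (s2i_line h).Reach 0 p := by
  have h1 : ∀ e' (n : ℕ), (s2i_line h).Reach 0 (stn e' n 0) := fun e' n =>
    Ln.Reach.of_lt (fun j _ => s2i_line_lt h _ _)
  rcases p.eq_nat_or_neg with ⟨n, rfl | rfl⟩
  · simpa using h1 true n
  · simpa using h1 false n

theorem s2i_line_per (h : L.UpT e p₁ l) : (s2i_line h).IsPer l := by
  have key : ∀ a : ℤ, (s2i_line h).lam (a + l) = (s2i_line h).lam a ∧
      (s2i_line h).v (a + l) = (s2i_line h).v a ∧ (s2i_line h).r (a + l) = (s2i_line h).r a := by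
    intro a
    obtain ⟨s, hs⟩ := s2i_line_win h a l
    obtain ⟨f1, h1, h2, h3⟩ := hs a (by simp)
    obtain ⟨f2, g1, g2, g3⟩ := hs (a + l) (by simp)
    rw [h1, h2, h3, g1, g2, g3]
    cases e with
    | true =>
      have e1 : a + l + s = stn true l (a + s) := by rw [stn_true]; ring
      rw [e1]
      exact ⟨(s2i_lam h f1).1, (s2i_v h (s2i_far_bey f1)).1, (s2i_v h (s2i_far_bey f1)).2⟩
    | false =>
      have e1 : a + s = stn false l (a + l + s) := by rw [stn_false]; ring
      rw [e1]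
      exact ⟨(s2i_lam h f2).1.symm, (s2i_v h (s2i_far_bey f2)).1.symm,
        (s2i_v h (s2i_far_bey f2)).2.symm⟩
  exact ⟨fun a => (key a).1, fun a => (key a).2.1, fun a => (key a).2.2⟩

end line

theorem s2i_bk {nx : _root_.Fin D.nV → Bool → _root_.Fin 3 → _root_.Fin D.nV × Bool}
    {A : Ends (_root_.Fin D.nV) (_root_.Fin D.nE)} {b L : Ln (_root_.Fin D.nV) nx} (e : Bool) (s : ℤ) :
    ∀ (r : List (_root_.Fin D.nE)) (p : ℤ), (∀ q, (q - p).natAbs ≤ r.length + 1 → s2i_agree b L s q) →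
      bk A b e r p → bk A L e r (p + s) := by
  intro r
  induction r with
  | nil => intro p _ _; trivial
  | cons a r ih =>
    intro p hp hb
    obtain ⟨h1, h2, h3⟩ := hb
    have g1 := hp p (by simp)
    have g2 := hp (p - 1) (by simp)
    refine ⟨?_, ?_, ?_⟩
    · rw [← s2i_lt g1 g2]
      exact h1
    · rw [← s2i_sd g1, ← g1.2.1]
      exact h2
    · rw [← s2i_st]
      refine ih (st e p) (fun q hq => hp q ?_) h3
      rw [List.length_cons]
      cases e
      · rw [st_false] at hq; omega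
      · rw [st_true] at hq; omega

/-- The periodic string of an UP tail (or of any periodic tail without END).

Proof: `b.L.lam p := w.L.lam (p + j l)` for `j` with `p + j l` beyond `p₁`, the same for `v`, `r` (use `Int.emod`). No relation:
a relation along `b` is a relation along `w` far out in the tail (shift by a multiple of `l`), `Ok` and `fwd`, `bwd` in the same way. -/
theorem exists_tailStr (w : Str S) {e : Bool} {p₁ : ℤ} {l : ℕ} (h : w.L.UpT e p₁ l) (hp : p₁ ∈ w.Z) :
    ∃ b : Str S, b.Per l ∧ TailAt b w e p₁ := by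
  have hok : (s2i_line h).Ok S.ends := by
    intro e' p h2
    obtain ⟨s, hs⟩ := s2i_line_win h p 2
    have g0 := (hs p (by simp)).2
    have g1 := (hs (p - 1) (by simp)).2
    have g2 := (hs (st e' p) (by cases e' <;> simp)).2
    rw [s2i_lt g0 g1] at h2
    obtain ⟨a, h3, h4⟩ := w.ok e' (p + s) h2
    refine ⟨a, ?_, ?_⟩
    · rw [g0.2.1, s2i_sd g0]
      exact h3
    · rw [g2.2.1, s2i_sd g2, s2i_st]
      exact h4
  have hnorel : (s2i_line h).NoRel S.ends := by
    intro r hr e' p hb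
    obtain ⟨s, hs⟩ := s2i_line_win h p (r.reverse.length + 1)
    exact w.norel r hr e' (p + s) (s2i_bk e' s r.reverse p (fun q hq => (hs q hq).2) hb)
  refine ⟨⟨s2i_line h, hok, hnorel, ?_, ?_⟩, ⟨s2i_line_per h, s2i_line_lam h⟩, ?_⟩
  · intro e' n m _ h1
    exact absurd h1 (s2i_line_lt h _ _)
  · intro p _
    exact ⟨s2i_line_reach h p, s2i_line_reach h (p + 1)⟩
  · have hbey : ∀ n : ℕ, Bey e p₁ (stn e n p₁) := by
      intro n
      apply s2i_bey_stn
      cases e <;> simp
    refine ⟨fun n => ?_, fun n => ?_, fun n => ?_⟩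
    · exact (s2i_v_mul h (hbey n) _).1
    · exact (s2i_v_mul h (hbey n) _).2
    · show (s2i_line h).lt e (stn e n p₁) = w.L.lt e (stn e n p₁)
      cases e with
      | true =>
        unfold Ln.lt
        rw [if_pos rfl, if_pos rfl]
        exact s2i_lam_mul h (show p₁ ≤ p₁ + (n : ℤ) by omega) _
      | false =>
        unfold Ln.lt
        rw [if_neg Bool.false_ne_true, if_neg Bool.false_ne_true]
        congr 1
        exact s2i_lam_mul h (show p₁ - (n : ℤ) - 1 + 1 ≤ p₁ by omega) _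

/-- the base point of an UP tail is a position -/
theorem UpT_mem (w : Str S) {e : Bool} {p₁ : ℤ} {l : ℕ} (h : w.L.UpT e p₁ l) : p₁ ∈ w.Z := by
  have h0 := h.ne 0
  simp only [Nat.cast_zero, stn_zero] at h0
  cases e with
  | true =>
    exact (w.clean p₁ (by simpa [Ln.lt] using h0)).1
  | false =>
    have h1 : w.L.lam (p₁ - 1) ≠ 1 := by
      simp only [Ln.lt, Bool.false_eq_true, if_false] at h0
      exact Ln.rev_ne_one.1 h0
    have h2 := (w.clean _ h1).2
    rw [sub_add_cancel] at h2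
    exact h2

end StrAlg
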