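import Pool.Agent.Lib.MP_b9fd58_lc.S2DivDef

/-!
# Stage 2, job S2J: the shift of a tail is injective modulo the relations
-/

set_option autoImplicit false

namespace StrAlg

open Module Polynomial

variable {D : Dat} {k : Type} [Field k] {S : Sides D}

/-! ### Auxiliary facts -/

theorem s2j_sum_bool {M : Type*} [AddCommMonoid M] (f : Bool → M) (e : Bool) :
    ∑ e', f e' = f e + f (!e) := by
  rw [Fintype.sum_bool]
  cases e
  · exact add_comm _ _
  · rfl

theorem s2j_sgF_single (X : Type) [AddCommGroup X] [Module k X] (e : Bool) (p₁ : ℤ) (l : ℕ) (p : ℤ) (x : X) :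
    sgF k X e p₁ l (Finsupp.single p x) = if Bey e p₁ p then Finsupp.single (stn e l p) x else 0 := by
  unfold sgF
  rw [Finsupp.lsum_single]
  split_ifs
  · rfl
  · rfl

theorem s2j_ShF_single (X : Type) [AddCommGroup X] [Module k X] (e : Bool) (l : ℕ) (p : ℤ) (x : X) :
    ShF k X e l (Finsupp.single p x) = Finsupp.single (stn e l p) x := by
  unfold ShF
  rw [Finsupp.lmapDomain_apply, Finsupp.mapDomain_single]

theorem s2j_ShF_pow_single (X : Type) [AddCommGroup X] [Module k X] (e : Bool) (l : ℕ) (n : ℕ) (p : ℤ) (x : X) :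
    ((ShF k X e l) ^ n) (Finsupp.single p x) = Finsupp.single (stn e ((n * l : ℕ) : ℤ) p) x := by
  induction n with
  | zero => simp
  | succ n ih =>
    rw [pow_succ', Module.End.mul_apply, ih, s2j_ShF_single, stn_stn]
    congr 2
    push_cast
    ring

/-- the part at direction `e'` of the generator of the third kind -/
noncomputable def s2j_T (w : Str S) (X : Md D.op k) (q : ℤ) (α : _root_.Fin D.nE) (x : X.C) (e' : Bool) : ℤ →₀ X.C :=
  open Classical in
  if w.L.lt e' q = 2 ∧ S.ends.outA (w.L.v q) (w.L.sd e' q) = some α then Finsupp.single (st e' q) x else 0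

/-- the relations at `q` are mapped to the relations at `Q` -/
theorem s2j_tr {w u : Str S} {X : Md D.op k} (Φ : (ℤ →₀ X.C) →ₗ[k] (ℤ →₀ X.C)) {q Q : ℤ} (hQ : Q ∈ u.Z)
    (h0 : ∀ y, Φ (Finsupp.single q y) = Finsupp.single Q y) (hv : u.L.v Q = w.L.v q) (hr : u.L.r Q = w.L.r q)
    (hd : ∀ e', (u.L.lt e' Q = w.L.lt e' q ∧ ∀ x, Φ (Finsupp.single (st e' q) x) = Finsupp.single (st e' Q) x) ∨
      (u.L.lt e' Q ≠ 2 ∧ ∀ x, Φ (Finsupp.single (st e' q) x) = 0)) :
    (∀ (i : _root_.Fin D.nV) (x : X.C), Φ ((if w.L.v q = i then Finsupp.single q x else 0) -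
      Finsupp.single q (X.Q.op (Sum.inl i) x)) ∈ u.Lsp X) ∧
    (∀ (α : _root_.Fin D.nE) (x : X.C), Φ ((∑ e : Bool, if w.L.lt e q = 2 ∧ S.ends.outA (w.L.v q) (w.L.sd e q) = some α
      then Finsupp.single (st e q) x else 0) - Finsupp.single q (X.Q.op (Sum.inr α) x)) ∈ u.Lsp X) := by
  constructor
  · intro i x
    refine Submodule.subset_span (Or.inl (Or.inr ⟨Q, i, x, hQ, ?_⟩))
    rw [map_sub, h0, hv]
    congr 1
    split_ifs
    · exact h0 x
    · exact map_zero _
  · intro α x
    refine Submodule.subset_span (Or.inr ⟨Q, α, x, hQ, ?_⟩)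
    rw [map_sub, h0, map_sum]
    congr 1
    refine Finset.sum_congr rfl fun e' _ => ?_
    have hsd : u.L.sd e' Q = w.L.sd e' q := by
      unfold Ln.sd
      rw [hr]
    rcases hd e' with ⟨h1, h2⟩ | ⟨h1, h2⟩
    · rw [h1, hv, hsd]
      split_ifs
      · exact h2 x
      · exact map_zero _
    · refine Eq.trans ?_ (if_neg (fun h => h1 h.1)).symm
      split_ifs
      · exact h2 x
      · exact map_zero _

/-- the relations at `q` are mapped to zero -/
theorem s2j_tr0 {w u : Str S} {X : Md D.op k} (Φ : (ℤ →₀ X.C) →ₗ[k] (ℤ →₀ X.C)) {q : ℤ}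
    (h0 : ∀ y, Φ (Finsupp.single q y) = 0)
    (hd : ∀ e', w.L.lt e' q = 2 → ∀ x, Φ (Finsupp.single (st e' q) x) = 0) :
    (∀ (i : _root_.Fin D.nV) (x : X.C), Φ ((if w.L.v q = i then Finsupp.single q x else 0) -
      Finsupp.single q (X.Q.op (Sum.inl i) x)) ∈ u.Lsp X) ∧
    (∀ (α : _root_.Fin D.nE) (x : X.C), Φ ((∑ e : Bool, if w.L.lt e q = 2 ∧ S.ends.outA (w.L.v q) (w.L.sd e q) = some α
      then Finsupp.single (st e q) x else 0) - Finsupp.single q (X.Q.op (Sum.inr α) x)) ∈ u.Lsp X) := by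
  constructor
  · intro i x
    rw [map_sub, h0, sub_zero]
    split_ifs
    · rw [h0]
      exact Submodule.zero_mem _
    · rw [map_zero]
      exact Submodule.zero_mem _
  · intro α x
    rw [map_sub, h0, sub_zero, map_sum]
    refine Submodule.sum_mem _ fun e' _ => ?_
    split_ifs with h
    · rw [hd e' h.1]
      exact Submodule.zero_mem _
    · rw [map_zero]
      exact Submodule.zero_mem _

theorem s2j_bey {e : Bool} {p₁ q : ℤ} : Bey e p₁ q ↔ ∃ n : ℕ, q = stn e n p₁ := by
  cases e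
  · simp only [Bey_false, stn_false]
    exact ⟨fun h => ⟨(p₁ - q).toNat, by omega⟩, fun ⟨n, h⟩ => by omega⟩
  · simp only [Bey_true, stn_true]
    exact ⟨fun h => ⟨(q - p₁).toNat, by omega⟩, fun ⟨n, h⟩ => by omega⟩

theorem s2j_stn_succ (e : Bool) (n : ℕ) (p : ℤ) : stn e ((n + 1 : ℕ) : ℤ) p = st e (stn e n p) := by
  rw [← stn_one, stn_stn]
  push_cast
  rfl

theorem s2j_lt_back (L : Ln (Fin D.nV) S.nx) (e : Bool) (n : ℕ) (p : ℤ) :
    L.lt (!e) (stn e ((n + 1 : ℕ) : ℤ) p) = Fin.rev (L.lt e (stn e n p)) := by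
  rw [s2j_stn_succ, Ln.lt_back]

/-- the map shifting the tail of `w` beyond `p₁` into `u` respects the relations -/
theorem s2j_shift (w u : Str S) {e : Bool} {p₁ : ℤ} (m : ℕ) (X : Md D.op k)
    (hne : w.L.lt (!e) p₁ ≠ 0)
    (c0 : ∀ n : ℕ, stn e n p₁ ∈ w.Z)
    (c1 : ∀ n : ℕ, u.L.v (stn e m (stn e n p₁)) = w.L.v (stn e n p₁))
    (c2 : ∀ n : ℕ, u.L.r (stn e m (stn e n p₁)) = w.L.r (stn e n p₁))
    (c3 : ∀ n : ℕ, u.L.lt e (stn e m (stn e n p₁)) = w.L.lt e (stn e n p₁))
    (c4 : u.L.lt (!e) (stn e m p₁) ≠ 2)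
    (c5 : ∀ n : ℕ, stn e m (stn e n p₁) ∈ u.Z) (z : ℤ →₀ X.C) (hz : z ∈ w.Lsp X) :
    sgF k X.C e p₁ m z ∈ u.Lsp X := by
  -- the facts about one position
  have key : ∀ q, (∀ (i : _root_.Fin D.nV) (x : X.C), sgF k X.C e p₁ m ((if w.L.v q = i then Finsupp.single q x else 0) -
      Finsupp.single q (X.Q.op (Sum.inl i) x)) ∈ u.Lsp X) ∧
    (∀ (α : _root_.Fin D.nE) (x : X.C), sgF k X.C e p₁ m ((∑ e : Bool, if w.L.lt e q = 2 ∧
      S.ends.outA (w.L.v q) (w.L.sd e q) = some α
      then Finsupp.single (st e q) x else 0) - Finsupp.single q (X.Q.op (Sum.inr α) x)) ∈ u.Lsp X) := by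
    intro q
    by_cases hB : Bey e p₁ q
    · obtain ⟨n, rfl⟩ := s2j_bey.1 hB
      refine s2j_tr (sgF k X.C e p₁ m) (c5 n) (fun y => ?_) (c1 n) (c2 n) ?_
      · rw [s2j_sgF_single, if_pos hB]
      intro e'
      by_cases he : e' = e
      · subst he
        left
        refine ⟨c3 n, fun x => ?_⟩
        rw [s2j_sgF_single, if_pos]
        · congr 1
          cases e' <;> simp <;> ring
        · rw [← s2j_stn_succ]
          exact s2j_bey.2 ⟨n + 1, rfl⟩
      · have he' : e' = !e := by cases e <;> cases e' <;> simp_all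
        subst he'
        cases n with
        | zero =>
          right
          simp only [Nat.cast_zero, stn_zero]
          refine ⟨c4, fun x => ?_⟩
          rw [s2j_sgF_single, if_neg]
          cases e <;> simp
        | succ n =>
          left
          constructor
          · have e1 : stn e m (stn e ((n + 1 : ℕ) : ℤ) p₁) = stn e ((n + 1 : ℕ) : ℤ) (stn e m p₁) := by
              rw [stn_stn, stn_stn, add_comm]
            have e2 : stn e m (stn e n p₁) = stn e n (stn e m p₁) := by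
              rw [stn_stn, stn_stn, add_comm]
            rw [e1, s2j_lt_back, s2j_lt_back, ← e2, c3 n]
          · intro x
            have e3 : st (!e) (stn e ((n + 1 : ℕ) : ℤ) p₁) = stn e n p₁ := by
              rw [s2j_stn_succ, st_not_st]
            rw [e3, s2j_sgF_single, if_pos (s2j_bey.2 ⟨n, rfl⟩)]
            congr 1
            cases e <;> simp <;> ring
    · refine s2j_tr0 (sgF k X.C e p₁ m) (fun y => ?_) ?_
      · rw [s2j_sgF_single, if_neg hB]
      · intro e' h2 x
        rw [s2j_sgF_single]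
        split_ifs with hB'
        · exfalso
          have h3 : e' = e ∧ st e q = p₁ := by
            cases e <;> cases e' <;> simp at hB hB' ⊢ <;> omega
          obtain ⟨rfl, h4⟩ := h3
          apply hne
          rw [← h4, Ln.lt_back, h2]
          rfl
        · rfl
  unfold Str.Lsp at hz
  induction hz using Submodule.span_induction with
  | mem z hz =>
    rcases hz with (⟨q, x, hq, rfl⟩ | ⟨q, i, x, hq, rfl⟩) | ⟨q, α, x, hq, rfl⟩
    · rw [s2j_sgF_single, if_neg]
      · exact Submodule.zero_mem _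
      · intro hB
        obtain ⟨n, rfl⟩ := s2j_bey.1 hB
        exact hq (c0 n)
    · exact (key q).1 i x
    · exact (key q).2 α x
  | zero => rw [map_zero]; exact Submodule.zero_mem _
  | add a b _ _ ha hb => rw [map_add]; exact Submodule.add_mem _ ha hb
  | smul c a _ ha => rw [map_smul]; exact Submodule.smul_mem _ _ ha

theorem s2j_per {β : Type*} {l : ℕ} {f : ℤ → β} (h : Per l f) (e : Bool) (n : ℕ) (q : ℤ) :
    f (stn e ((n * l : ℕ) : ℤ) q) = f q := by
  cases e
  · rw [stn_false]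
    have := h.mul q (-(n : ℤ))
    rw [← this]
    congr 1
    push_cast
    ring
  · rw [stn_true]
    have := h.mul q (n : ℤ)
    rw [← this]
    congr 1

/-- big shifts of the relations of the band are relations of `w` -/
theorem s2j_big (w b : Str S) {e : Bool} {p₁ : ℤ} {l : ℕ} (hl : 0 < l) (hb : b.Per l) (ht : TailAt b w e p₁)
    (c0 : ∀ n : ℕ, stn e n p₁ ∈ w.Z) (X : Md D.op k) (y : ℤ →₀ X.C) (hy : y ∈ b.Lsp X) :
    ∃ N : ℕ, ∀ n ≥ N, ((ShF k X.C e l) ^ n) y ∈ w.Lsp X := by
  have key : ∀ q : ℤ, ∃ N : ℕ, ∀ n ≥ N, (∀ (i : _root_.Fin D.nV) (x : X.C), ((ShF k X.C e l) ^ n)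
      ((if b.L.v q = i then Finsupp.single q x else 0) - Finsupp.single q (X.Q.op (Sum.inl i) x)) ∈ w.Lsp X) ∧
    (∀ (α : _root_.Fin D.nE) (x : X.C), ((ShF k X.C e l) ^ n) ((∑ e : Bool, if b.L.lt e q = 2 ∧
      S.ends.outA (b.L.v q) (b.L.sd e q) = some α
      then Finsupp.single (st e q) x else 0) - Finsupp.single q (X.Q.op (Sum.inr α) x)) ∈ w.Lsp X) := by
    intro q
    refine ⟨(q - p₁).natAbs + 1, fun n hn => ?_⟩
    have hnl : n ≤ n * l := Nat.le_mul_of_pos_right n hl
    obtain ⟨m, hm⟩ : ∃ m : ℕ, stn e ((n * l : ℕ) : ℤ) q = stn e ((m + 1 : ℕ) : ℤ) p₁ := by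
      generalize n * l = c at hnl
      cases e
      · refine ⟨(c - 1 - (q - p₁)).toNat, ?_⟩
        simp only [stn_false]
        omega
      · refine ⟨(c - 1 + (q - p₁)).toNat, ?_⟩
        simp only [stn_true]
        omega
    refine s2j_tr ((ShF k X.C e l) ^ n) (Q := stn e ((n * l : ℕ) : ℤ) q) ?_ (fun y => ?_) ?_ ?_ ?_
    · rw [hm]
      exact c0 _
    · rw [s2j_ShF_pow_single]
    · rw [hm, ← ht.v, ← hm]
      exact s2j_per hb.1.v e n q
    · rw [hm, ← ht.r, ← hm]
      exact s2j_per hb.1.r e n q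
    · intro e'
      left
      constructor
      · rw [← s2j_per (hb.1.lt e') e n q]
        by_cases he : e' = e
        · subst he
          rw [hm, ht.lt]
        · have he' : e' = !e := by cases e <;> cases e' <;> simp_all
          subst he'
          rw [hm, s2j_lt_back, s2j_lt_back, ht.lt]
      · intro x
        rw [s2j_ShF_pow_single]
        congr 1
        cases e <;> cases e' <;> simp <;> ring
  have hbZ : ∀ q, q ∈ b.Z := fun q => b.Z_univ hb.2 q
  unfold Str.Lsp at hy
  induction hy using Submodule.span_induction with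
  | mem z hz =>
    rcases hz with (⟨q, x, hq, rfl⟩ | ⟨q, i, x, hq, rfl⟩) | ⟨q, α, x, hq, rfl⟩
    · exact absurd (hbZ q) hq
    · obtain ⟨N, hN⟩ := key q
      exact ⟨N, fun n hn => (hN n hn).1 i x⟩
    · obtain ⟨N, hN⟩ := key q
      exact ⟨N, fun n hn => (hN n hn).2 α x⟩
  | zero => exact ⟨0, fun n _ => by rw [map_zero]; exact Submodule.zero_mem _⟩
  | add a b _ _ ha hb =>
    obtain ⟨N, hN⟩ := ha
    obtain ⟨N', hN'⟩ := hb
    refine ⟨max N N', fun n hn => ?_⟩
    rw [map_add]
    exact Submodule.add_mem _ (hN n (le_trans (le_max_left _ _) hn)) (hN' n (le_trans (le_max_right _ _) hn))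
  | smul c a _ ha =>
    obtain ⟨N, hN⟩ := ha
    refine ⟨N, fun n hn => ?_⟩
    rw [map_smul]
    exact Submodule.smul_mem _ _ (hN n hn)

theorem s2j_hom_ext {X Y : Type} [AddCommGroup X] [Module k X] [AddCommGroup Y] [Module k Y]
    {A B : (ℤ →₀ X) →ₗ[k] Y} (h : ∀ p x, A (Finsupp.single p x) = B (Finsupp.single p x)) : A = B :=
  Finsupp.lhom_ext h

/-- `θ ∘ sgF = ShF ∘ θ` -/
theorem s2j_theta (X : Type) [AddCommGroup X] [Module k X] (e : Bool) (p₁ : ℤ) (l : ℕ) :
    sgF k X e p₁ 0 ∘ₗ sgF k X e p₁ l = ShF k X e l ∘ₗ sgF k X e p₁ 0 := by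
  refine s2j_hom_ext fun p x => ?_
  rw [LinearMap.comp_apply, LinearMap.comp_apply, s2j_sgF_single, s2j_sgF_single]
  split_ifs with h
  · rw [s2j_sgF_single, s2j_ShF_single, if_pos]
    · simp
    · cases e <;> simp at h ⊢ <;> omega
  · rw [map_zero, map_zero]

/-- `sgF = ShF ∘ θ` -/
theorem s2j_theta' (X : Type) [AddCommGroup X] [Module k X] (e : Bool) (p₁ : ℤ) (l : ℕ) :
    sgF k X e p₁ l = ShF k X e l ∘ₗ sgF k X e p₁ 0 := by
  refine s2j_hom_ext fun p x => ?_
  rw [LinearMap.comp_apply, s2j_sgF_single, s2j_sgF_single]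
  split_ifs with h
  · rw [s2j_ShF_single]
    simp
  · rw [map_zero]

/-- intertwining maps intertwine polynomials -/
theorem s2j_aeval {V W : Type} [AddCommGroup V] [Module k V] [AddCommGroup W] [Module k W]
    {θ : V →ₗ[k] W} {A : V →ₗ[k] V} {B : W →ₗ[k] W} (h : θ ∘ₗ A = B ∘ₗ θ) (f : k[X]) (z : V) :
    θ (aeval A f z) = aeval B f (θ z) := by
  have hpow : ∀ (n : ℕ) (z : V), θ ((A ^ n) z) = (B ^ n) (θ z) := by
    intro n
    induction n with
    | zero => intro z; rfl
    | succ n ih =>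
      intro z
      rw [pow_succ', pow_succ', Module.End.mul_apply, Module.End.mul_apply, ← ih]
      exact congrArg (fun F : V →ₗ[k] W => F ((A ^ n) z)) h
  induction f using Polynomial.induction_on' with
  | add p q hp hq => rw [map_add, map_add, LinearMap.add_apply, LinearMap.add_apply, map_add, hp, hq]
  | monomial n a =>
    rw [Polynomial.aeval_monomial, Polynomial.aeval_monomial, Module.End.mul_apply, Module.End.mul_apply,
      Module.algebraMap_end_apply, Module.algebraMap_end_apply, map_smul, hpow]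

/-- a subspace stable under `A` is stable under the polynomials in `A` -/
theorem s2j_stable {V : Type} [AddCommGroup V] [Module k V] {A : V →ₗ[k] V} {U : Submodule k V}
    (h : ∀ z ∈ U, A z ∈ U) (f : k[X]) (z : V) (hz : z ∈ U) : aeval A f z ∈ U := by
  have hpow : ∀ (n : ℕ), (A ^ n) z ∈ U := by
    intro n
    induction n with
    | zero => exact hz
    | succ n ih =>
      rw [pow_succ', Module.End.mul_apply]
      exact h _ ih
  induction f using Polynomial.induction_on' with
  | add p q hp hq => rw [map_add, LinearMap.add_apply]; exact U.add_mem hp hq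
  | monomial n a =>
    rw [Polynomial.aeval_monomial, Module.End.mul_apply, Module.algebraMap_end_apply]
    exact U.smul_mem _ (hpow n)

/-- `χ(σ)` is injective on `M(w) ⊗ X` if the band of the tail has no torsion in `X`.

Proof. Let `θ : (ℤ →₀ X) → (ℤ →₀ X)` be the restriction to the `p` with `Bey e p₁ p` (`Finsupp.filter`). `θ ∘ sgF = ShF ∘ θ`.
(1) `θ (Lsp w) ⊆ Lsp b`: for the generators at `q` beyond `p₁`, `q ≠ p₁`: the same generator of `b`, because the letters at `q` are the same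
in both directions; at `q = p₁`: the arrow letters in direction `e` agree; in direction `!e` the term of `w` is removed by `θ` (it sits
before `p₁`), and `b` has no term there, because `b.lt (!e) p₁ < w.lt (!e) p₁` is not `2` (`UpT.up`; `b.lt (!e) p₁ = w.lt (!e) (stn e l p₁)` by periodicity);
for `q` before `p₁`: `θ` kills the generator, except for the term `single (st e q) x` for `st e q = p₁`: then `w.lt e q = 2`, so `w.lt (!e) p₁ = 0`
(`Ln.lt_back`), impossible since it is bigger than another letter.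
(2) `χ(σ) z ∈ Lsp w ⟹ χ(Sh) (θ z) = θ (χ(σ) z) ∈ Lsp b ⟹ θ z ∈ Lsp b` (`TF`).
(3) `y ∈ Lsp b ⟹ ShF ^ n y ∈ Lsp w` for big `n`, and `θ`-supported: a generator of `b` at `q`, shifted by `n l` beyond `p₁ + 1`, is the generator
of `w` at `stn e (n l) q` (periodicity of `b`, agreement of the tail); induction on the span, with `n` uniform for finite sums (if it holds for `n`
then for all bigger ones). Also `sgF ^ n z - ShF ^ n (θ z) = 0` for `n ≥ 1`.
So `sgF ^ n z ∈ Lsp w` for some `n`.
(4) `Lsp w` is stable under `sgF` (same case distinction as in (1)). The set `{f : aeval sgF f z ∈ Lsp w}` is an ideal of `k[X]` that contains `χ` and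
`X ^ n`, which are coprime since `χ.coeff 0 = 1`; so it contains `1`. -/
theorem inj_tail (w : Str S) {e : Bool} {p₁ : ℤ} {l : ℕ} (hU : w.L.UpT e p₁ l) (hp : p₁ ∈ w.Z) (b : Str S) (hb : b.Per l)
    (ht : TailAt b w e p₁) (X : Md D.op k) (hTF : TF b l X) (χ : k[X]) (hχ : χ.coeff 0 = 1) (z : ℤ →₀ X.C)
    (hz : aeval (sgF k X.C e p₁ l) χ z ∈ w.Lsp X) : z ∈ w.Lsp X := by
  have c0 : ∀ n : ℕ, stn e n p₁ ∈ w.Z := by
    intro n
    induction n with
    | zero => simpa using hp
    | succ n ih =>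
      rw [s2j_stn_succ]
      exact w.Zcl e _ ih (hU.ne n)
  have hne : w.L.lt (!e) p₁ ≠ 0 := by
    intro h0
    have := hU.up
    rw [h0] at this
    exact absurd this (Fin.not_lt_zero _)
  have h2 : w.L.lt (!e) (stn e l p₁) ≠ 2 := by
    have := hU.up
    revert this
    generalize w.L.lt (!e) (stn e l p₁) = a
    generalize w.L.lt (!e) p₁ = c
    revert a c
    decide
  obtain ⟨l', hl'⟩ : ∃ l', l = l' + 1 := ⟨l - 1, by have := hU.pos; omega⟩
  have h2b : b.L.lt (!e) p₁ ≠ 2 := by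
    have e1 : b.L.lt (!e) p₁ = b.L.lt (!e) (stn e l p₁) := by
      have := s2j_per (hb.1.lt (!e)) e 1 p₁
      rw [one_mul] at this
      exact this.symm
    rw [e1, hl', s2j_lt_back, ht.lt, ← s2j_lt_back, ← hl']
    exact h2
  -- (1)
  have s1 : ∀ y ∈ w.Lsp X, sgF k X.C e p₁ 0 y ∈ b.Lsp X := by
    refine s2j_shift w b 0 X hne c0 ?_ ?_ ?_ ?_ ?_
    · intro n; simpa using ht.v n
    · intro n; simpa using ht.r n
    · intro n; simpa using ht.lt n
    · simpa using h2b
    · intro n; exact b.Z_univ hb.2 _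
  -- (4)
  have s4 : ∀ y ∈ w.Lsp X, sgF k X.C e p₁ l y ∈ w.Lsp X := by
    refine s2j_shift w w l X hne c0 ?_ ?_ ?_ h2 ?_
    · intro n; rw [stn_stn]; exact_mod_cast hU.v n
    · intro n; rw [stn_stn]; exact_mod_cast hU.r n
    · intro n; rw [stn_stn]; exact_mod_cast hU.lt n
    · intro n; rw [stn_stn]; exact_mod_cast c0 (n + l)
  -- (2)
  have s2 : sgF k X.C e p₁ 0 z ∈ b.Lsp X := by
    refine hTF e χ (by rw [hχ]; exact one_ne_zero) _ ?_
    rw [← s2j_aeval (s2j_theta X.C e p₁ l)]
    exact s1 _ hz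
  -- (3)
  obtain ⟨N, hN⟩ := s2j_big w b hU.pos hb ht c0 X _ s2
  have s3 : ((sgF k X.C e p₁ l) ^ (N + 1)) z ∈ w.Lsp X := by
    have h5 := hN (N + 1) (Nat.le_succ N)
    rw [pow_succ', Module.End.mul_apply] at h5 ⊢
    have h6 : sgF k X.C e p₁ 0 (((sgF k X.C e p₁ l) ^ N) z) = ((ShF k X.C e l) ^ N) (sgF k X.C e p₁ 0 z) := by
      have := s2j_aeval (s2j_theta X.C e p₁ l) (Polynomial.X ^ N : k[X]) z
      simpa using this
    have h7 : sgF k X.C e p₁ l (((sgF k X.C e p₁ l) ^ N) z) =
        ShF k X.C e l (sgF k X.C e p₁ 0 (((sgF k X.C e p₁ l) ^ N) z)) :=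
      congrArg (fun F : (ℤ →₀ X.C) →ₗ[k] (ℤ →₀ X.C) => F (((sgF k X.C e p₁ l) ^ N) z)) (s2j_theta' X.C e p₁ l)
    rw [h7, h6]
    exact h5
  -- the ideal
  have hco : IsCoprime χ (Polynomial.X ^ (N + 1)) := by
    apply IsCoprime.pow_right
    obtain ⟨g, hg⟩ : (Polynomial.X : k[X]) ∣ χ - Polynomial.C (χ.coeff 0) := Polynomial.X_dvd_sub_C
    rw [hχ] at hg
    refine ⟨1, -g, ?_⟩
    have : χ = 1 + Polynomial.X * g := by
      rw [← hg]
      simp
    rw [this]
    ring
  obtain ⟨a, c, hac⟩ := hco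
  have h8 : z = aeval (sgF k X.C e p₁ l) a (aeval (sgF k X.C e p₁ l) χ z) +
      aeval (sgF k X.C e p₁ l) c (((sgF k X.C e p₁ l) ^ (N + 1)) z) := by
    have h9 := congrArg (fun f : k[X] => aeval (sgF k X.C e p₁ l) f z) hac
    simp only [map_add, map_mul, map_pow, Polynomial.aeval_X, map_one, LinearMap.add_apply,
      Module.End.mul_apply, Module.End.one_apply] at h9
    exact h9.symm
  rw [h8]
  exact Submodule.add_mem _ (s2j_stable s4 a _ hz) (s2j_stable s4 c _ s3)

end StrAlg
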