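import Pool.Agent.Lib.MP_b9fd58_lc.S2DivDef

/-!
# Stage 2, job S2K: a chain in a dual module extends to the localised string module
-/

set_option autoImplicit false

namespace StrAlg

open Module Polynomial

variable {D : Dat} {k : Type} [Field k] {S : Sides D}

/-- finite support = eventually zero in both directions -/
theorem s2k_Fz_of_fin {V : Type} [AddCommGroup V] [Module k V] {m : ℤ → V} (h : (Function.support m).Finite) (e : Bool) :
    Fz e m := by
  cases e with
  | true =>
    obtain ⟨B, hB⟩ := h.bddAbove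
    refine ⟨B + 1, fun p hp => ?_⟩
    by_contra hne
    have := hB (Function.mem_support.2 hne)
    rw [Bey_true] at hp
    omega
  | false =>
    obtain ⟨B, hB⟩ := h.bddBelow
    refine ⟨B - 1, fun p hp => ?_⟩
    by_contra hne
    have := hB (Function.mem_support.2 hne)
    rw [Bey_false] at hp
    omega

theorem s2k_fin_of_Fz {V : Type} [AddCommGroup V] [Module k V] {m : ℤ → V} (h1 : Fz true m) (h2 : Fz false m) :
    (Function.support m).Finite := by
  obtain ⟨B, hB⟩ := h1
  obtain ⟨B', hB'⟩ := h2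
  refine (Set.finite_Icc B' B).subset (fun p hp => ?_)
  rw [Function.mem_support] at hp
  constructor
  · by_contra hcon
    exact hp (hB' p (by rw [Bey_false]; omega))
  · by_contra hcon
    exact hp (hB p (by rw [Bey_true]; omega))

/-- a function of finite support on the positions is an element of `M^loc` -/
theorem Str.FS_le_locS (w : Str S) : w.FS k k ≤ w.locS k :=
  fun _ hm => ⟨hm.1, fun e => Rz.of_Fz (s2k_Fz_of_fin (k := k) hm.2 e)⟩

theorem Str.single_mem_FS (w : Str S) {p : ℤ} (hp : p ∈ w.Z) (c : k) : (Pi.single p c : ℤ → k) ∈ w.FS k k := by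
  refine ⟨fun q hq => ?_, ?_⟩
  · rw [Pi.single_apply, if_neg]
    rintro rfl
    exact hq hp
  · refine (Set.finite_singleton p).subset (fun q hq => ?_)
    rw [Function.mem_support, Pi.single_apply] at hq
    by_contra hne
    rw [Set.mem_singleton_iff] at hne
    exact hq (if_neg hne)

theorem s2k_zL (w : Str S) {p : ℤ} (hp : p ∈ w.Z) : cfL w (zL (k := k) w p) = Pi.single p 1 := by
  rw [cfL_zL w hp]
  funext q
  rw [Str.B0_spr, Pi.single_apply]

/-- positions beyond the base point of an UP tail -/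
theorem s2k_bey_iff {e : Bool} {p₁ p : ℤ} : Bey e p₁ p ↔ ∃ n : ℕ, p = stn e n p₁ := by
  cases e
  · rw [Bey_false]
    constructor
    · intro h; exact ⟨(p₁ - p).toNat, by rw [stn_false]; omega⟩
    · rintro ⟨n, rfl⟩; rw [stn_false]; omega
  · rw [Bey_true]
    constructor
    · intro h; exact ⟨(p - p₁).toNat, by rw [stn_true]; omega⟩
    · rintro ⟨n, rfl⟩; rw [stn_true]; omega

theorem s2k_mem_of_bey {w : Str S} {e : Bool} {p₁ p : ℤ} {l : ℕ} (h : w.L.UpT e p₁ l) (hp : Bey e p₁ p) : p ∈ w.Z := by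
  obtain ⟨n, rfl⟩ := s2k_bey_iff.1 hp
  exact (Str.mem_of_lt (h.ne n)).1

theorem s2k_bey_sub {e : Bool} {p₁ p : ℤ} {l : ℕ} : Bey e (stn e l p₁) p ↔ Bey e p₁ (stn (!e) l p) := by
  cases e
  · simp only [Bey_false, stn_false, Bool.not_false, stn_true]; omega
  · simp only [Bey_true, stn_true, Bool.not_true, stn_false]; omega

/-- letters, vertices and sides are periodic beyond the base point -/
theorem s2k_per {w : Str S} {e : Bool} {p₁ p : ℤ} {l : ℕ} (h : w.L.UpT e p₁ l) (hp : Bey e p₁ p) :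
    w.L.lt e (stn e l p) = w.L.lt e p ∧ w.L.v (stn e l p) = w.L.v p ∧ w.L.r (stn e l p) = w.L.r p := by
  obtain ⟨n, rfl⟩ := s2k_bey_iff.1 hp
  rw [stn_stn]
  have e1 : (n : ℤ) + (l : ℤ) = ((n + l : ℕ) : ℤ) := by push_cast; rfl
  rw [e1]
  exact ⟨h.lt n, h.v n, h.r n⟩

/-- the shift commutes with the generators -/
theorem s2k_shf_op {w : Str S} {e : Bool} {p₁ : ℤ} {l : ℕ} (h : w.L.UpT e p₁ l) (g : D.Gen) (m : ℤ → k) :
    shf k e p₁ l ((w.fnQ k k).op g m) = (w.fnQ k k).op g (shf k e p₁ l m) := by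
  have hl := h.pos
  funext p
  cases g with
  | inl i =>
    show shf k e p₁ l (fop k S.ends w.L (Sum.inl i) m) p = fop k S.ends w.L (Sum.inl i) (shf k e p₁ l m) p
    rw [shf_apply, fop_inl, fop_inl, shf_apply]
    by_cases hb : Bey e (stn e l p₁) p
    · rw [if_pos hb, if_pos hb]
      have h1 := (s2k_per h (s2k_bey_sub.1 hb)).2.1
      have e1 : stn e l (stn (!e) l p) = p := by cases e <;> simp
      rw [e1] at h1
      rw [h1]
    · rw [if_neg hb, if_neg hb]
      split_ifs <;> rfl
  | inr α =>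
    show shf k e p₁ l (fop k S.ends w.L (Sum.inr α) m) p = fop k S.ends w.L (Sum.inr α) (shf k e p₁ l m) p
    rw [shf_apply, fop_inr, fop_inr]
    by_cases hb : Bey e (stn e l p₁) p
    · rw [if_pos hb]
      obtain ⟨p', hp'⟩ : ∃ p', p' = stn (!e) l p := ⟨_, rfl⟩
      have hb' : Bey e p₁ p' := by rw [hp']; exact s2k_bey_sub.1 hb
      have hpp : p = stn e l p' := by rw [hp']; cases e <;> simp
      have hper := s2k_per h hb'
      rw [← hpp] at hper
      rw [← hp']
      refine Finset.sum_congr rfl (fun e' _ => ?_)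
      have hsd : ∀ e', w.L.sd e' p = w.L.sd e' p' := by
        intro e'
        unfold Ln.sd
        rw [hper.2.2]
      rw [hsd, hper.2.1]
      by_cases he : e' = e
      · subst he
        rw [hper.1]
        split_ifs with h1
        · rw [shf_apply, if_pos]
          · congr 1
            rw [hp']; cases e' <;> simp <;> ring
          · revert hb; cases e' <;> simp <;> omega
        · rfl
      · have : e' = !e := Bool.eq_not.2 he
        subst this
        by_cases h0 : p' = p₁
        · -- the base point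
          rw [if_neg]
          · split_ifs with h1
            · rw [shf_apply, if_neg]
              intro h2
              rw [s2k_bey_sub, hpp, h0] at h2
              revert h2; cases e <;> simp <;> omega
            · rfl
          · rintro ⟨h1, -⟩
            rw [h0] at h1
            have := h.up
            rw [h1] at this
            exact absurd this (by simp)
        · obtain ⟨n, hn⟩ := s2k_bey_iff.1 hb'
          have hn0 : n ≠ 0 := by
            rintro rfl
            exact h0 (by simpa using hn)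
          have hb2 : Bey e p₁ (st (!e) p') := by
            rw [hn]; cases e <;> simp <;> omega
          have hlt : w.L.lt (!e) p = w.L.lt (!e) p' := by
            have h3 := (s2k_per h hb2).1
            have h4 := w.L.lt_back' (!e) p'
            have h5 := w.L.lt_back e (st (!e) p')
            have h6 := w.L.lt_back e (st (!e) p)
            have e1 : st e (st (!e) p') = p' := by cases e <;> simp
            have e2 : st e (st (!e) p) = p := by cases e <;> simp
            have e3 : st (!e) p = stn e l (st (!e) p') := by rw [hpp]; cases e <;> simp <;> ring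
            rw [e1] at h5
            rw [e2, e3, h3] at h6
            rw [h5, h6]
          rw [hlt]
          split_ifs with h1
          · rw [shf_apply, if_pos]
            · congr 1
              rw [hpp]; cases e <;> simp <;> ring
            · rw [s2k_bey_sub]
              have e3 : stn (!e) l (st (!e) p) = st (!e) p' := by rw [hpp]; cases e <;> simp <;> ring
              rw [e3]
              exact hb2
          · rfl
    · rw [if_neg hb]
      symm
      refine Finset.sum_eq_zero (fun e' _ => ?_)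
      split_ifs with h1
      · rw [shf_apply]
        split_ifs with h2
        · exfalso
          have he : e' = e := by
            by_contra hne
            have : e' = !e := Bool.eq_not.2 hne
            subst this
            apply hb
            revert h2; cases e <;> simp <;> omega
          subst he
          have h3 : st e' p = stn e' l p₁ := by
            revert hb h2; cases e' <;> simp <;> omega
          have h4 := h.up
          rw [← h3, Ln.lt_back, h1.1] at h4
          revert h4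
          generalize w.L.lt (!e') p₁ = x
          revert x; decide
        · rfl
      · rfl

theorem s2k_sg_op (w : Str S) (e : Bool) (g : D.Gen) (m : ℤ → k) :
    sg k e (w.L.tailD e) ((w.fnQ k k).op g m) = (w.fnQ k k).op g (sg k e (w.L.tailD e) m) := by
  cases hd : w.L.tailD e with
  | none => exact (map_zero _).symm
  | some x => exact s2k_shf_op (Ln.tailD_some hd) g m

/-- operators commuting with `f` commute with the polynomials in `f` -/
theorem s2k_aeval_comm {V : Type} [AddCommGroup V] [Module k V] {W : Type} [AddCommGroup W] [Module k W]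
    (f : V →ₗ[k] V) (f' : W →ₗ[k] W) (φ : V →ₗ[k] W) (h : ∀ v, φ (f v) = f' (φ v)) (χ : k[X]) (v : V) :
    φ ((aeval f χ) v) = (aeval f' χ) (φ v) := by
  have hpow : ∀ (n : ℕ) v, φ ((f ^ n) v) = (f' ^ n) (φ v) := by
    intro n
    induction n with
    | zero => intro v; simp
    | succ n ih => intro v; rw [pow_succ, pow_succ, Module.End.mul_apply, Module.End.mul_apply, ih, h]
  rw [Polynomial.aeval_eq_sum_range, Polynomial.aeval_eq_sum_range, LinearMap.sum_apply, LinearMap.sum_apply, map_sum]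
  refine Finset.sum_congr rfl (fun i _ => ?_)
  rw [LinearMap.smul_apply, map_smul, hpow, LinearMap.smul_apply]

/-- the operators `χ(σ)` of the tails commute with the generators on the functions on the positions of `w`
(helper49 has this for `soundS`) -/
theorem Str.pv_op (w : Str S) (e : Bool) (χ : k[X]) (g : D.Gen) (m : ℤ → k) (hm : ∀ p, p ∉ w.Z → m p = 0) :
    pv k e (w.L.tailD e) χ ((w.fnQ k k).op g m) = (w.fnQ k k).op g (pv k e (w.L.tailD e) χ m) := by
  have _ := hm
  unfold pv
  exact (s2k_aeval_comm _ _ ((w.fnQ k k).op g) (fun v => (s2k_sg_op w e g v).symm) χ m).symm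

/-! ### supports -/

theorem s2k_sg_supp (w : Str S) (e : Bool) (m : ℤ → k) (p : ℤ) (hp : p ∉ w.Z) :
    sg k e (w.L.tailD e) m p = 0 := by
  cases hd : w.L.tailD e with
  | none => rfl
  | some x =>
    show shf k e x.1 x.2 m p = 0
    rw [shf_apply, if_neg]
    intro hb
    have h := Ln.tailD_some hd
    refine hp (s2k_mem_of_bey h ?_)
    revert hb; cases e <;> simp <;> omega

theorem s2k_pv_supp (w : Str S) (e : Bool) (χ : k[X]) {m : ℤ → k} (hm : ∀ p, p ∉ w.Z → m p = 0) (p : ℤ)
    (hp : p ∉ w.Z) :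
    pv k e (w.L.tailD e) χ m p = 0 := by
  have hpow : ∀ n : ℕ, ∀ p, p ∉ w.Z → ((sg k e (w.L.tailD e)) ^ n) m p = 0 := by
    intro n
    induction n with
    | zero => intro p hp; simpa using hm p hp
    | succ n ih => intro p hp; rw [pow_succ', Module.End.mul_apply]; exact s2k_sg_supp w e _ p hp
  rw [pv_eq_sum, Finset.sum_apply]
  refine Finset.sum_eq_zero (fun i _ => ?_)
  rw [Pi.smul_apply, hpow i p hp, smul_zero]

/-- the operator `s = ψ(σ_false) χ(σ_true)` -/
noncomputable def s2k_s (w : Str S) (χ ψ : k[X]) : (ℤ → k) →ₗ[k] (ℤ → k) :=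
  pv k false (w.L.tailD false) ψ ∘ₗ pv k true (w.L.tailD true) χ

theorem s2k_s_op (w : Str S) (χ ψ : k[X]) (g : D.Gen) (m : ℤ → k) (hm : ∀ p, p ∉ w.Z → m p = 0) :
    s2k_s w χ ψ ((w.fnQ k k).op g m) = (w.fnQ k k).op g (s2k_s w χ ψ m) := by
  show pv k false (w.L.tailD false) ψ (pv k true (w.L.tailD true) χ ((w.fnQ k k).op g m)) = _
  rw [w.pv_op true χ g m hm, w.pv_op false ψ g _ (s2k_pv_supp w true χ hm)]
  rfl

/-- elements of `M^loc` become finite -/
theorem s2k_fin (w : Str S) {m : ℤ → k} (hm : m ∈ w.locS k) : ∃ χ ψ : k[X], χ.coeff 0 = 1 ∧ ψ.coeff 0 = 1 ∧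
    ∀ χ' ψ' : k[X], χ'.coeff 0 = 1 → ψ'.coeff 0 = 1 → s2k_s w (χ * χ') (ψ * ψ') m ∈ w.FS k k := by
  obtain ⟨χ, h1, h2⟩ := hm.2 true
  have h3 : Rz k false (w.L.tailD false) (pv k true (w.L.tailD true) χ m) :=
    (Rz.pv_other (e := true) χ h1).2 (hm.2 false)
  obtain ⟨ψ, h4, h5⟩ := h3
  refine ⟨χ, ψ, h1, h4, fun χ' ψ' h6 h7 => ?_⟩
  refine ⟨fun p hp => s2k_pv_supp w false _ (s2k_pv_supp w true _ hm.1) p hp, ?_⟩
  set n := pv k true (w.L.tailD true) χ m with hn
  have e1 : pv k true (w.L.tailD true) (χ * χ') m = pv k true (w.L.tailD true) χ' n := by rw [hn, pv_mul']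
  show (Function.support (pv k false (w.L.tailD false) (ψ * ψ') (pv k true (w.L.tailD true) (χ * χ') m))).Finite
  rw [e1]
  set n' := pv k true (w.L.tailD true) χ' n with hn'
  have h8 : Fz true n' := pv_Fz_same h2 _
  have h9 : Fz (!true) (n' - n) := pv_sub_Fz_other χ' h6
  apply s2k_fin_of_Fz (k := k)
  · have h10 : Fz (!false) (pv k false (w.L.tailD false) (ψ * ψ') n' - n') :=
      pv_sub_Fz_other (ψ * ψ') (coeff_mul_zero' h4 h7)
    have h11 : pv k false (w.L.tailD false) (ψ * ψ') n' = (pv k false (w.L.tailD false) (ψ * ψ') n' - n') + n' := by abel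
    rw [h11]
    exact h10.add h8
  · have h10 : pv k false (w.L.tailD false) (ψ * ψ') n' =
        pv k false (w.L.tailD false) ψ' (pv k false (w.L.tailD false) ψ n) +
          pv k false (w.L.tailD false) (ψ * ψ') (n' - n) := by
      rw [← pv_mul', ← map_add, add_sub_cancel]
    rw [h10]
    exact (pv_Fz_same h5 _).add (pv_Fz_same h9 _)

/-! ### the map `ι` -/

open TensorProduct

/-- `single p x ↦ z_p ⊗ x` -/
noncomputable def s2k_io (w : Str S) (X : Md D.op k) : (ℤ →₀ X.C) →ₗ[k] ((ℤ → k) ⊗[k] X.C) :=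
  open Classical in
  Finsupp.lsum k fun p => if p ∈ w.Z then TensorProduct.mk k (ℤ → k) X.C (Pi.single p 1) else 0

theorem s2k_io_pos (w : Str S) (X : Md D.op k) {p : ℤ} (hp : p ∈ w.Z) (x : X.C) :
    s2k_io w X (Finsupp.single p x) = (Pi.single p 1 : ℤ → k) ⊗ₜ[k] x := by
  unfold s2k_io
  rw [Finsupp.lsum_single, if_pos hp]
  rfl

theorem s2k_io_neg (w : Str S) (X : Md D.op k) {p : ℤ} (hp : p ∉ w.Z) (x : X.C) :
    s2k_io w X (Finsupp.single p x) = 0 := by
  unfold s2k_io
  rw [Finsupp.lsum_single, if_neg hp]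
  rfl

/-- evaluation at the positions -/
noncomputable def s2k_ev (X : Md D.op k) : ((ℤ → k) ⊗[k] X.C) →ₗ[k] (ℤ → X.C) :=
  TensorProduct.lift (LinearMap.mk₂ k (fun (m : ℤ → k) (x : X.C) => fun p => m p • x)
    (fun m m' x => by funext p; simp [add_smul]) (fun c m x => by funext p; simp [mul_smul])
    (fun m x x' => by funext p; simp) (fun c m x => by funext p; exact smul_comm _ _ _))

theorem s2k_ev_tmul (X : Md D.op k) (m : ℤ → k) (x : X.C) : s2k_ev X (m ⊗ₜ[k] x) = fun p => m p • x := rfl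

theorem s2k_ev_io (w : Str S) (X : Md D.op k) (z : ℤ →₀ X.C) {p : ℤ} (hp : p ∈ w.Z) :
    s2k_ev X (s2k_io w X z) p = z p := by
  induction z using Finsupp.induction_linear with
  | zero => simp
  | add a b ha hb => rw [map_add, map_add, Pi.add_apply, ha, hb, Finsupp.add_apply]
  | single q x =>
    by_cases hq : q ∈ w.Z
    · rw [s2k_io_pos w X hq, s2k_ev_tmul]
      by_cases h : p = q
      · subst h; simp
      · rw [Finsupp.single_apply, if_neg (Ne.symm h)]
        show (Pi.single q (1 : k) : ℤ → k) p • x = 0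
        rw [Pi.single_apply, if_neg h, zero_smul]
    · rw [s2k_io_neg w X hq, map_zero, Pi.zero_apply, Finsupp.single_apply, if_neg]
      rintro rfl
      exact hq hp

theorem s2k_mem_of_io (w : Str S) (X : Md D.op k) (z : ℤ →₀ X.C) (h : s2k_io w X z = 0) : z ∈ w.Lsp X := by
  rw [← Finsupp.sum_single z]
  refine Submodule.sum_mem _ (fun p _ => ?_)
  by_cases hp : p ∈ w.Z
  · have : z p = 0 := by
      rw [← s2k_ev_io w X z hp, h, map_zero]; rfl
    show Finsupp.single p (z p) ∈ _
    rw [this, Finsupp.single_zero]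
    exact Submodule.zero_mem _
  · exact Submodule.subset_span (Or.inl (Or.inl ⟨p, z p, hp, rfl⟩))

/-- the shift on the finitely supported families -/
noncomputable def s2k_sF (w : Str S) (X : Md D.op k) (e : Bool) : (ℤ →₀ X.C) →ₗ[k] (ℤ →₀ X.C) :=
  match w.L.tailD e with
  | none => 0
  | some x => sgF k X.C e x.1 x.2

theorem s2k_sgF_single (X : Md D.op k) (e : Bool) (p₁ : ℤ) (l : ℕ) (p : ℤ) (x : X.C) :
    sgF k X.C e p₁ l (Finsupp.single p x) = if Bey e p₁ p then Finsupp.single (stn e l p) x else 0 := by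
  unfold sgF
  rw [Finsupp.lsum_single]
  split_ifs <;> rfl

theorem s2k_shf_single (e : Bool) (p₁ : ℤ) (l : ℕ) (p : ℤ) :
    shf k e p₁ l (Pi.single p (1 : k)) = if Bey e p₁ p then (Pi.single (stn e l p) (1 : k) : ℤ → k) else 0 := by
  funext q
  rw [shf_apply]
  by_cases hb : Bey e p₁ p
  · rw [if_pos hb, Pi.single_apply, Pi.single_apply]
    by_cases hq : q = stn e l p
    · rw [if_pos hq, if_pos, if_pos]
      · rw [hq]; cases e <;> simp
      · rw [hq]; revert hb; cases e <;> simp
    · rw [if_neg hq]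
      split_ifs with h1 h2
      · exfalso; apply hq; rw [← h2]; cases e <;> simp
      · rfl
      · rfl
  · rw [if_neg hb, Pi.zero_apply]
    split_ifs with h1
    · rw [Pi.single_apply, if_neg]
      rintro rfl
      exact hb (s2k_bey_sub.1 h1)
    · rfl

theorem s2k_io_sF (w : Str S) (X : Md D.op k) (e : Bool) (z : ℤ →₀ X.C) :
    s2k_io w X (s2k_sF w X e z) = LinearMap.rTensor X.C (sg k e (w.L.tailD e)) (s2k_io w X z) := by
  unfold s2k_sF
  cases hd : w.L.tailD e with
  | none =>
    show s2k_io w X (0 : ℤ →₀ X.C) = LinearMap.rTensor X.C (0 : (ℤ → k) →ₗ[k] (ℤ → k)) (s2k_io w X z)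
    rw [LinearMap.rTensor_zero, map_zero]; rfl
  | some x =>
    show s2k_io w X (sgF k X.C e x.1 x.2 z) = LinearMap.rTensor X.C (shf k e x.1 x.2) (s2k_io w X z)
    have hU := Ln.tailD_some hd
    induction z using Finsupp.induction_linear with
    | zero => simp
    | add a b ha hb => rw [map_add, map_add, map_add, map_add, ha, hb]
    | single p y =>
      rw [s2k_sgF_single]
      by_cases hp : p ∈ w.Z
      · rw [s2k_io_pos w X hp, LinearMap.rTensor_tmul, s2k_shf_single]
        by_cases hb : Bey e x.1 p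
        · rw [if_pos hb, if_pos hb, s2k_io_pos]
          refine s2k_mem_of_bey hU ?_
          revert hb; cases e <;> simp <;> omega
        · rw [if_neg hb, if_neg hb, map_zero, zero_tmul]
      · rw [s2k_io_neg w X hp, map_zero, if_neg, map_zero]
        exact fun hb => hp (s2k_mem_of_bey hU hb)

theorem s2k_io_aeval (w : Str S) (X : Md D.op k) (e : Bool) (χ : k[X]) (z : ℤ →₀ X.C) :
    s2k_io w X ((aeval (s2k_sF w X e) χ) z) = LinearMap.rTensor X.C (pv k e (w.L.tailD e) χ) (s2k_io w X z) := by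
  rw [s2k_aeval_comm (s2k_sF w X e) (LinearMap.rTensor X.C (sg k e (w.L.tailD e))) (s2k_io w X) (s2k_io_sF w X e)]
  generalize s2k_io w X z = t
  induction t using TensorProduct.induction_on with
  | zero => simp
  | add a b ha hb => rw [map_add, map_add, ha, hb]
  | tmul m x =>
    rw [LinearMap.rTensor_tmul]
    exact (s2k_aeval_comm (sg k e (w.L.tailD e)) (LinearMap.rTensor X.C (sg k e (w.L.tailD e)))
      ((TensorProduct.mk k (ℤ → k) X.C).flip x) (fun m' => rfl) χ m).symm

/-- the injectivity of `χ(σ)` modulo the relations -/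
theorem s2k_inj (w : Str S) (X : Md D.op k) (hinj : InjT w X) (e : Bool) (χ : k[X]) (hχ : χ.coeff 0 = 1)
    (z : ℤ →₀ X.C) (hz : (aeval (s2k_sF w X e) χ) z ∈ w.Lsp X) : z ∈ w.Lsp X := by
  unfold s2k_sF at hz
  cases hd : w.L.tailD e with
  | none =>
    rw [hd] at hz
    have h1 : (aeval (0 : (ℤ →₀ X.C) →ₗ[k] (ℤ →₀ X.C)) χ) z = z := by
      rw [Polynomial.aeval_eq_sum_range, Finset.sum_range_succ', hχ]
      simp
    change (aeval (0 : (ℤ →₀ X.C) →ₗ[k] (ℤ →₀ X.C)) χ) z ∈ _ at hz
    rwa [h1] at hz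
  | some x =>
    rw [hd] at hz
    exact hinj e x hd χ hχ z hz

/-! ### the relations of finitely supported functions -/

theorem s2k_op_single (w : Str S) (g : D.Gen) {p : ℤ} (hp : p ∈ w.Z) (X : Md D.op k) (x : X.C) :
    ∃ y ∈ w.Lsp X, ((w.fnQ k k).op g (Pi.single p 1)) ⊗ₜ[k] x - (Pi.single p 1 : ℤ → k) ⊗ₜ[k] (X.Q.op g x) =
      s2k_io w X y := by
  cases g with
  | inl i =>
    refine ⟨(if w.L.v p = i then Finsupp.single p x else 0) - Finsupp.single p (X.Q.op (Sum.inl i) x),
      Submodule.subset_span (Or.inl (Or.inr ⟨p, i, x, hp, rfl⟩)), ?_⟩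
    rw [map_sub, s2k_io_pos w X hp]
    congr 1
    have h1 : (w.fnQ k k).op (Sum.inl i) (Pi.single p 1) = if w.L.v p = i then (Pi.single p 1 : ℤ → k) else 0 := by
      funext q
      show fop k S.ends w.L (Sum.inl i) (Pi.single p 1) q = _
      rw [fop_inl]
      by_cases hq : q = p
      · subst hq
        split_ifs <;> rfl
      · have h5 : (Pi.single p (1 : k) : ℤ → k) q = 0 := by rw [Pi.single_apply, if_neg hq]
        rw [h5, ite_self]
        split_ifs
        · exact h5.symm
        · rfl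
    rw [h1]
    split_ifs
    · rw [s2k_io_pos w X hp]
    · rw [zero_tmul, map_zero]
  | inr α =>
    refine ⟨(∑ e : Bool, if w.L.lt e p = 2 ∧ S.ends.outA (w.L.v p) (w.L.sd e p) = some α then
      Finsupp.single (st e p) x else 0) - Finsupp.single p (X.Q.op (Sum.inr α) x),
      Submodule.subset_span (Or.inr ⟨p, α, x, hp, rfl⟩), ?_⟩
    rw [map_sub, s2k_io_pos w X hp]
    congr 1
    have h1 : (w.fnQ k k).op (Sum.inr α) (Pi.single p 1) =
        ∑ e : Bool, if w.L.lt e p = 2 ∧ S.ends.outA (w.L.v p) (w.L.sd e p) = some α then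
          (Pi.single (st e p) 1 : ℤ → k) else 0 := by
      funext q
      show fop k S.ends w.L (Sum.inr α) (Pi.single p 1) q = _
      rw [fop_inr, Finset.sum_apply]
      refine Fintype.sum_equiv (Equiv.boolNot) _ _ (fun e => ?_)
      rw [Equiv.boolNot_apply]
      by_cases hq : st e q = p
      · have hq' : q = st (!e) p := by rw [← hq]; exact (st_not_st e q).symm
        by_cases h2 : w.L.lt e q = 0 ∧ S.ends.inA (w.L.v q) (w.L.sd e q) = some α
        · rw [if_pos h2]
          have h3 := w.ok.other h2.1 h2.2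
          rw [hq] at h3
          rw [if_pos h3, hq, ← hq']
          simp
        · rw [if_neg h2, if_neg]
          · rfl
          · intro h3
            have h4 := w.ok.other' h3.1 h3.2
            rw [← hq', Bool.not_not] at h4
            exact h2 h4
      · have h3 : (Pi.single p (1 : k) : ℤ → k) (st e q) = 0 := by rw [Pi.single_apply, if_neg hq]
        have hq' : q ≠ st (!e) p := by
          rintro rfl
          apply hq
          have := st_not_st (!e) p
          rwa [Bool.not_not] at this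
        rw [h3]
        split_ifs
        · rw [Pi.single_apply, if_neg hq']
        · rfl
        · rw [Pi.single_apply, if_neg hq']
        · rfl
    rw [h1, sum_tmul, map_sum]
    refine Finset.sum_congr rfl (fun e _ => ?_)
    split_ifs with h2
    · rw [s2k_io_pos]
      exact w.Zcl e p hp (by rw [h2.1]; decide)
    · rw [zero_tmul, map_zero]

theorem s2k_op_FS (w : Str S) (g : D.Gen) (X : Md D.op k) (x : X.C) {m : ℤ → k} (hm : m ∈ w.FS k k) :
    ∃ y ∈ w.Lsp X, ((w.fnQ k k).op g m) ⊗ₜ[k] x - m ⊗ₜ[k] (X.Q.op g x) = s2k_io w X y := by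
  have h1 : m = ∑ p ∈ hm.2.toFinset, m p • (Pi.single p 1 : ℤ → k) := by
    funext q
    rw [Finset.sum_apply]
    simp only [Pi.smul_apply, Pi.single_apply, smul_eq_mul, mul_ite, mul_one, mul_zero]
    rw [Finset.sum_ite_eq]
    split_ifs with h2
    · rfl
    · rw [Set.Finite.mem_toFinset, Function.mem_support, not_not] at h2
      exact h2
  have key : ∀ s : Finset ℤ, (∀ p ∈ s, p ∈ w.Z) → ∃ y ∈ w.Lsp X,
      ((w.fnQ k k).op g (∑ p ∈ s, m p • (Pi.single p 1 : ℤ → k))) ⊗ₜ[k] x -
        (∑ p ∈ s, m p • (Pi.single p 1 : ℤ → k)) ⊗ₜ[k] (X.Q.op g x) = s2k_io w X y := by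
    intro s
    induction s using Finset.induction_on with
    | empty => exact fun _ => ⟨0, Submodule.zero_mem _, by simp⟩
    | insert a s ha ih =>
      intro hs
      obtain ⟨y, hy, h2⟩ := ih (fun p hp => hs p (Finset.mem_insert_of_mem hp))
      obtain ⟨y', hy', h3⟩ := s2k_op_single w g (hs a (Finset.mem_insert_self _ _)) X x
      refine ⟨m a • y' + y, Submodule.add_mem _ (Submodule.smul_mem _ _ hy') hy, ?_⟩
      rw [Finset.sum_insert ha, map_add, map_add, map_smul, map_smul, ← h2, ← h3, add_tmul, add_tmul, smul_sub,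
        TensorProduct.smul_tmul', TensorProduct.smul_tmul']
      abel
  rw [h1]
  refine key _ (fun p hp => ?_)
  by_contra hcon
  rw [Set.Finite.mem_toFinset, Function.mem_support] at hp
  exact hp (hm.1 p hcon)

/-- the relations of `M^loc ⊗ X` -/
noncomputable def s2k_Rel (w : Str S) (X : Md D.op k) : Submodule k ((ℤ → k) ⊗[k] X.C) :=
  Submodule.span k {t | ∃ (g : D.Gen) (m : ℤ → k) (x : X.C), m ∈ w.locS k ∧
    t = ((w.fnQ k k).op g m) ⊗ₜ[k] x - m ⊗ₜ[k] (X.Q.op g x)}

theorem s2k_Rel_fin (w : Str S) (X : Md D.op k) {t : (ℤ → k) ⊗[k] X.C} (ht : t ∈ s2k_Rel w X) :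
    ∃ χ ψ : k[X], χ.coeff 0 = 1 ∧ ψ.coeff 0 = 1 ∧ ∀ χ' ψ' : k[X], χ'.coeff 0 = 1 → ψ'.coeff 0 = 1 →
      ∃ y ∈ w.Lsp X, LinearMap.rTensor X.C (s2k_s w (χ * χ') (ψ * ψ')) t = s2k_io w X y := by
  unfold s2k_Rel at ht
  induction ht using Submodule.span_induction with
  | mem t h =>
    obtain ⟨g, m, x, hm, rfl⟩ := h
    obtain ⟨χ, ψ, h1, h2, h3⟩ := s2k_fin w hm
    refine ⟨χ, ψ, h1, h2, fun χ' ψ' h4 h5 => ?_⟩
    obtain ⟨y, hy, h6⟩ := s2k_op_FS w g X x (h3 χ' ψ' h4 h5)
    refine ⟨y, hy, ?_⟩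
    rw [map_sub, LinearMap.rTensor_tmul, LinearMap.rTensor_tmul, s2k_s_op w _ _ g m hm.1]
    exact h6
  | zero =>
    exact ⟨1, 1, by simp, by simp, fun _ _ _ _ => ⟨0, Submodule.zero_mem _, by rw [map_zero, map_zero]⟩⟩
  | add a b _ _ ha hb =>
    obtain ⟨χ, ψ, h1, h2, h3⟩ := ha
    obtain ⟨χ₁, ψ₁, h4, h5, h6⟩ := hb
    refine ⟨χ * χ₁, ψ * ψ₁, coeff_mul_zero' h1 h4, coeff_mul_zero' h2 h5, fun χ' ψ' h7 h8 => ?_⟩
    obtain ⟨y, hy, h9⟩ := h3 (χ₁ * χ') (ψ₁ * ψ') (coeff_mul_zero' h4 h7) (coeff_mul_zero' h5 h8)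
    obtain ⟨y', hy', h10⟩ := h6 (χ * χ') (ψ * ψ') (coeff_mul_zero' h1 h7) (coeff_mul_zero' h2 h8)
    refine ⟨y + y', Submodule.add_mem _ hy hy', ?_⟩
    have e1 : χ * χ₁ * χ' = χ * (χ₁ * χ') := by ring
    have e2 : ψ * ψ₁ * ψ' = ψ * (ψ₁ * ψ') := by ring
    have e3 : χ * (χ₁ * χ') = χ₁ * (χ * χ') := by ring
    have e4 : ψ * (ψ₁ * ψ') = ψ₁ * (ψ * ψ') := by ring
    rw [map_add, map_add, e1, e2, h9, e3, e4, h10]
  | smul c a _ ha =>
    obtain ⟨χ, ψ, h1, h2, h3⟩ := ha
    refine ⟨χ, ψ, h1, h2, fun χ' ψ' h4 h5 => ?_⟩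
    obtain ⟨y, hy, h6⟩ := h3 χ' ψ' h4 h5
    exact ⟨c • y, Submodule.smul_mem _ _ hy, by rw [map_smul, map_smul, h6]⟩

/-- the crucial step -/
theorem s2k_key (w : Str S) (X : Md D.op k) (hinj : InjT w X) (z : ℤ →₀ X.C) (hz : s2k_io w X z ∈ s2k_Rel w X) :
    z ∈ w.Lsp X := by
  obtain ⟨χ, ψ, h1, h2, h3⟩ := s2k_Rel_fin w X hz
  obtain ⟨y, hy, h4⟩ := h3 1 1 (by simp) (by simp)
  rw [mul_one, mul_one] at h4
  have h5 : s2k_io w X ((aeval (s2k_sF w X false) ψ) ((aeval (s2k_sF w X true) χ) z)) = s2k_io w X y := by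
    rw [s2k_io_aeval, s2k_io_aeval, ← h4, s2k_s, LinearMap.rTensor_comp]
    rfl
  have h6 : (aeval (s2k_sF w X false) ψ) ((aeval (s2k_sF w X true) χ) z) ∈ w.Lsp X := by
    have h7 := s2k_mem_of_io w X ((aeval (s2k_sF w X false) ψ) ((aeval (s2k_sF w X true) χ) z) - y)
      (by rw [map_sub, h5, sub_self])
    have h8 := Submodule.add_mem _ h7 hy
    rwa [sub_add_cancel] at h8
  exact s2k_inj w X hinj true χ h1 z (s2k_inj w X hinj false ψ h2 _ h6)

/-- **Extension of chains to `M^loc(w)`.**

Proof. Homomorphisms `M → X*` are the functionals on `M ⊗_k X` that kill `Rel M`, the span of the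
`(op g m) ⊗ x - m ⊗ (X.op g x)`. Let `ι : (ℤ →₀ X) → M^loc ⊗ X`, `single p x ↦ z_p ⊗ x` (`0` for `p ∉ w.Z`). Linear algebra: there is a functional on
`M^loc ⊗ X` that kills `Rel M^loc` and restricts to `evF g` along `ι` if `ι z ∈ Rel M^loc` implies `evF g z = 0`; so it is enough that it implies
`z ∈ Lsp w` (job S2I: chains kill `Lsp`; the hypothesis `hg'` here). Let `ι z = Σ_i ((op g_i m_i) ⊗ x_i - m_i ⊗ (op g_i x_i))`, a finite sum. There are
`χ`, `ψ` with constant coefficient `1` such that `s := pv false ψ ∘ pv true χ` maps all `m_i` to functions of finite support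
(`Rz`, `pv_mul`, `pv_Fz_same`, `pv_sub_Fz_other`, `Rz.pv_other`); the supports stay inside `w.Z`. `s` commutes with the generators
(`Str.pv_op`), so `(s ⊗ 1) (ι z) = Σ_i ((op g_i (s m_i)) ⊗ x_i - (s m_i) ⊗ (op g_i x_i))` with `s m_i` of finite support, which is `ι` of an element of
`Lsp w` (expand `s m_i` in the `z_p`); and `(s ⊗ 1) (ι z) = ι (aeval (sgF false) ψ (aeval (sgF true) χ z))` up to elements supported outside `w.Z`
(`shf` of `z_p` is `z_{stn e l p}` beyond `p₁`, else `0`). `ι` is injective on the finsupps supported in `w.Z`. So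
`aeval (sgF false) ψ (aeval (sgF true) χ z) ∈ Lsp w`, and `InjT` twice (for `tailD e = none` the operator is the identity). -/
theorem extend_chain (w : Str S) (X : Md D.op k) (hinj : InjT w X) (g : ℤ → X.C →ₗ[k] k)
    (hg : ∀ z ∈ w.Lsp X, evF g z = 0) :
    ∃ G : (w.Mloc k).C →ₗ[k] X.codual.C, (w.Mloc k).Hom X.codual G ∧
      ∀ p ∈ w.Z, G (zL w p) = (show X.codual.C from g p) := by
  have h1 : evF g ∈ LinearMap.range ((s2k_Rel w X).mkQ ∘ₗ s2k_io w X).dualMap := by
    rw [LinearMap.range_dualMap_eq_dualAnnihilator_ker, Submodule.mem_dualAnnihilator]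
    intro z hz
    rw [LinearMap.mem_ker, LinearMap.comp_apply, Submodule.mkQ_apply, Submodule.Quotient.mk_eq_zero] at hz
    exact hg z (s2k_key w X hinj z hz)
  obtain ⟨F, hF⟩ := h1
  set F' : ((ℤ → k) ⊗[k] X.C) →ₗ[k] k := F ∘ₗ (s2k_Rel w X).mkQ with hF'
  have hF1 : ∀ z, F' (s2k_io w X z) = evF g z := fun z => LinearMap.congr_fun hF z
  have hF2 : ∀ t ∈ s2k_Rel w X, F' t = 0 := by
    intro t ht
    rw [hF', LinearMap.comp_apply, Submodule.mkQ_apply, (Submodule.Quotient.mk_eq_zero _).2 ht, map_zero]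
  let G : (w.locS k) →ₗ[k] (X.C →ₗ[k] k) := TensorProduct.curry F' ∘ₗ (w.locS k).subtype
  refine ⟨G, ?_, ?_⟩
  · intro γ m
    refine LinearMap.ext (fun x => ?_)
    have h2 := hF2 _ (Submodule.subset_span ⟨γ, m.1, x, m.2, rfl⟩)
    rw [map_sub, sub_eq_zero] at h2
    exact h2
  · intro p hp
    refine LinearMap.ext (fun x => ?_)
    have h2 := hF1 (Finsupp.single p x)
    rw [s2k_io_pos w X hp] at h2
    have h3 : (show w.locS k from zL w p).1 = Pi.single p 1 := s2k_zL w hp
    have h4 : F' ((show w.locS k from zL w p).1 ⊗ₜ[k] x) = evF g (Finsupp.single p x) := by rw [h3]; exact h2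
    refine Eq.trans h4 ?_
    unfold evF
    rw [Finsupp.lsum_single]

end StrAlg
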