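import Pool.Agent.Lib.MP_b9fd58_lc.WUa
import Pool.Agent.Lib.MP_b9fd58_lc.T.TB

/-!
# Stage 2, job S2Lb: an element deep in all boxes
-/

set_option autoImplicit false

namespace StrAlg

open Module

variable {D : Dat} {k : Type} [Field k] {S : Sides D}

theorem s2lb_cB {N : Md D k} {A : Submodule k N.C} (i : _root_.Fin D.nV) (s : Bool) (hA : TT.IsPT N A) :
    TT.IsPT N (N.Q.cB S i s A) := by
  obtain ⟨t, rfl⟩ := hA
  unfold QMod.cB
  cases h : S.inA i s with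
  | none => exact ⟨PT.bot, rfl⟩
  | some b => exact ⟨PT.map (Sum.inr b) t, rfl⟩

theorem s2lb_cC {N : Md D k} {A : Submodule k N.C} (i : _root_.Fin D.nV) (s : Bool) (hA : TT.IsPT N A) :
    TT.IsPT N (N.Q.cC S i s A) := by
  obtain ⟨t, rfl⟩ := hA
  have hv : (PT.at i).ev N = N.Q.vs i := Submodule.map_top _
  unfold QMod.cC
  cases h : S.outA i s with
  | none => exact ⟨PT.at i, hv⟩
  | some c =>
    refine ⟨PT.inf (PT.at i) (PT.comap (Sum.inr c) t), ?_⟩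
    show (PT.at i).ev N ⊓ _ = _
    rw [hv]
    rfl

theorem s2lb_up (N : Md D k) (n : ℕ) : ∀ (u : Wd) (i : _root_.Fin D.nV) (s : Bool),
    TT.IsPT N (N.Q.up S n u i s) := by
  induction n with
  | zero => intro u i s; exact ⟨PT.at i, Submodule.map_top _⟩
  | succ n ih =>
    intro u i s
    unfold QMod.up
    split_ifs
    · exact s2lb_cB i s (ih _ _ _)
    · exact s2lb_cC i s (ih _ _ _)
    · exact s2lb_cC i s ⟨PT.bot, rfl⟩

theorem s2lb_lo (N : Md D k) (n : ℕ) : ∀ (u : Wd) (i : _root_.Fin D.nV) (s : Bool),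
    TT.IsPT N (N.Q.lo S n u i s) := by
  induction n with
  | zero => intro u i s; exact ⟨PT.bot, rfl⟩
  | succ n ih =>
    intro u i s
    unfold QMod.lo
    split_ifs
    · exact s2lb_cB i s (ih _ _ _)
    · exact s2lb_cC i s (ih _ _ _)
    · exact s2lb_cB i s ⟨PT.top, rfl⟩

theorem s2lb_U (N : Md D k) (n : ℕ) (i : _root_.Fin D.nV) (u : Bool → Wd) : TT.IsPT N (N.Q.U S n i u) := by
  obtain ⟨a, ha⟩ := s2lb_up (S := S) N n (u false) i false
  obtain ⟨b, hb⟩ := s2lb_up (S := S) N n (u true) i true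
  refine ⟨PT.inf a b, ?_⟩
  show a.ev N ⊓ b.ev N = _
  rw [ha, hb]
  rfl

theorem s2lb_B (N : Md D k) (n : ℕ) (i : _root_.Fin D.nV) (u : Bool → Wd) : TT.IsPT N (N.Q.B S n i u) := by
  obtain ⟨a, ha⟩ := s2lb_lo (S := S) N n (u false) i false
  obtain ⟨b, hb⟩ := s2lb_lo (S := S) N n (u true) i true
  refine ⟨PT.sup a b, ?_⟩
  show a.ev N ⊔ b.ev N = _
  rw [ha, hb]
  rfl

/-- **An element that is in all `U m` and not in the union of the `B m`.** (`N` nice.)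

Proof: `y ∈ U m₁`, `y ∉ B m₁`. `U m ⊓ B m ≤ B m₁` for `m ≥ m₁` (induction). The cosets `(y + B m₁) ∩ U m` are not empty: `y_m = y_{m+1} + c`,
`c ∈ U m ⊓ B m ≤ B m₁`. Saturation: `U m ⊓ (y + B m₁)` have a common element `x` (`Md.Nice.sat`: `Md.Sat` for the pp-types `PT`, or `cfam_of_sat`;
the cuts `QMod.up`, `QMod.lo` are values of `PT`s: `PT.map`, `PT.comap`, `PT.at`, `PT.inf`, `PT.sup`, by induction on the depth; formulate the
coset intersection as in `Md.Sat`). If `x ∈ B m`, `m ≥ m₁`, then `x ∈ U m ⊓ B m ≤ B m₁`, so `y ∈ B m₁`, contradiction. -/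
theorem exists_deep (w : Str S) (N : Md D k) (hN : N.Nice) (m₁ : ℕ)
    (h : ∀ m ≥ m₁, N.Q.U S m (w.L.v 0) (w.L.wd 0) ≤
        N.Q.U S (m + 1) (w.L.v 0) (w.L.wd 0) ⊔ (N.Q.U S m (w.L.v 0) (w.L.wd 0) ⊓ N.Q.B S m (w.L.v 0) (w.L.wd 0)) ∧
      N.Q.U S (m + 1) (w.L.v 0) (w.L.wd 0) ⊓ N.Q.B S (m + 1) (w.L.v 0) (w.L.wd 0) ≤
        N.Q.B S m (w.L.v 0) (w.L.wd 0))
    (ho : N.Q.OpenPt S (w.L.v 0) (w.L.wd 0)) :
    ∃ x : N.C, (∀ m, x ∈ N.Q.U S m (w.L.v 0) (w.L.wd 0)) ∧ ∀ m, x ∉ N.Q.B S m (w.L.v 0) (w.L.wd 0) := by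
  set i := w.L.v 0
  set u := w.L.wd 0
  have hUB : ∀ n, N.Q.U S (m₁ + n) i u ⊓ N.Q.B S (m₁ + n) i u ≤ N.Q.B S m₁ i u := by
    intro n
    induction n with
    | zero => exact inf_le_right
    | succ n ih =>
      have h1 := (h (m₁ + n) (Nat.le_add_right _ _)).2
      have h2 : N.Q.U S (m₁ + n + 1) i u ⊓ N.Q.B S (m₁ + n + 1) i u ≤ N.Q.U S (m₁ + n) i u :=
        le_trans inf_le_left (N.Q.U_anti S (Nat.le_succ _) i u)
      exact le_trans (le_inf h2 h1) ih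
  obtain ⟨y, hyU, hyB⟩ := SetLike.not_le_iff_exists.1 (ho m₁)
  -- the sequence
  have step : ∀ n (z : N.C), z ∈ N.Q.U S (m₁ + n) i u → ∃ z' ∈ N.Q.U S (m₁ + n + 1) i u,
      z' - z ∈ N.Q.U S (m₁ + n) i u ⊓ N.Q.B S m₁ i u := by
    intro n z hz
    obtain ⟨a, ha, c, hc, hac⟩ := Submodule.mem_sup.1 ((h (m₁ + n) (Nat.le_add_right _ _)).1 hz)
    refine ⟨a, ha, ?_⟩
    have h1 : a - z = -c := by rw [← hac]; abel
    rw [h1]
    exact Submodule.neg_mem _ ⟨hc.1, hUB n hc⟩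
  let seq : ∀ n : ℕ, {z : N.C // z ∈ N.Q.U S (m₁ + n) i u} := fun n =>
    Nat.rec ⟨y, hyU⟩ (fun n z => ⟨(step n z.1 z.2).choose, (step n z.1 z.2).choose_spec.1⟩) n
  have hseq : ∀ n, (seq (n + 1)).1 - (seq n).1 ∈ N.Q.U S (m₁ + n) i u ⊓ N.Q.B S m₁ i u := fun n =>
    (step n (seq n).1 (seq n).2).choose_spec.2
  have hseq0 : (seq 0).1 = y := rfl
  choose tU htU using fun n => s2lb_U (S := S) N (m₁ + n) i u
  obtain ⟨tB, htB⟩ := s2lb_B (S := S) N m₁ i u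
  have hev : ∀ n, (PT.inf (tU n) tB).ev N = N.Q.U S (m₁ + n) i u ⊓ N.Q.B S m₁ i u := by
    intro n
    show (tU n).ev N ⊓ tB.ev N = _
    rw [htU, htB]
  obtain ⟨x, hx⟩ := hN.sat (fun n => PT.inf (tU n) tB) (fun n => (seq n).1)
    (fun n => by
      rw [hev, hev]
      exact inf_le_inf_right _ (N.Q.U_anti S (by omega) i u))
    (fun n => by rw [hev]; exact hseq n)
  have hx' : ∀ n, x - (seq n).1 ∈ N.Q.U S (m₁ + n) i u ⊓ N.Q.B S m₁ i u := fun n => by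
    have := hx n
    rwa [hev] at this
  have hxU : ∀ n, x ∈ N.Q.U S (m₁ + n) i u := by
    intro n
    have h1 := Submodule.add_mem _ (hx' n).1 (seq n).2
    rwa [sub_add_cancel] at h1
  have hxB : x ∉ N.Q.B S m₁ i u := by
    intro hcon
    have h1 := (hx' 0).2
    rw [hseq0] at h1
    have h2 := Submodule.sub_mem _ hcon h1
    rw [sub_sub_cancel] at h2
    exact hyB h2
  refine ⟨x, fun m => ?_, fun m hm => ?_⟩
  · exact N.Q.U_anti S (Nat.le_add_left m m₁) i u (hxU m)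
  · have h1 : x ∈ N.Q.B S (m₁ + m) i u := N.Q.B_mono S (Nat.le_add_left m m₁) i u hm
    exact hxB (hUB m ⟨hxU m, h1⟩)

end StrAlg
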