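import Pool.Agent.Lib.MP_b9fd58_lc.WT

/-!
# Stage 2, job YCb: full chains near an element that is approximated by window chains (arbitrary strings)
-/

set_option autoImplicit false

namespace StrAlg

open Module

variable {D : Dat} {k : Type} [Field k] {S : Sides D}

/-- the finite system that describes the lower cut of depth `n` (the value at the first END is `β z`) -/
structure YcbLo {N : Type} [AddCommGroup N] [Module k N] (Q : QMod D k N) (w : Ln (Fin D.nV) S.nx) (e : Bool) (p : ℤ)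
    (n : ℕ) (g : ℕ → N) (z : N) : Prop where
  st : ∀ j < n, (∀ i ≤ j, w.lt e (stn e (i : ℤ) p) ≠ 1) → ESt Q w e (stn e (j : ℤ) p) (g j) (g (j + 1))
  en : ∀ j < n, (∀ i < j, w.lt e (stn e (i : ℤ) p) ≠ 1) → w.lt e (stn e (j : ℤ) p) = 1 →
    (∀ β, S.inA (w.v (stn e (j : ℤ) p)) (w.sd e (stn e (j : ℤ) p)) = some β → Q.op (Sum.inr β) z = g j) ∧
    (S.inA (w.v (stn e (j : ℤ) p)) (w.sd e (stn e (j : ℤ) p)) = none → g j = 0)
  z : (∀ i < n, w.lt e (stn e (i : ℤ) p) ≠ 1) → g n = 0

theorem ycb_zero {N : Type} [AddCommGroup N] [Module k N] {Q : QMod D k N} {w : Ln (Fin D.nV) S.nx} {e : Bool} {p : ℤ}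
    {g : ℕ → N} {z : N} : YcbLo Q w e p 0 g z ↔ g 0 = 0 :=
  ⟨fun h => h.z (fun i hi => absurd hi (by omega)),
    fun h => ⟨fun j hj => absurd hj (by omega), fun j hj => absurd hj (by omega), fun _ => h⟩⟩

/-- one step through a letter that is not END -/
theorem ycb_succ {N : Type} [AddCommGroup N] [Module k N] {Q : QMod D k N} {w : Ln (Fin D.nV) S.nx} {e : Bool} {p : ℤ}
    {n : ℕ} {g : ℕ → N} {z : N} (hp : w.lt e p ≠ 1) : YcbLo Q w e p (n + 1) g z ↔
      ESt Q w e p (g 0) (g 1) ∧ YcbLo Q w e (st e p) n (fun j => g (j + 1)) z := by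
  have key : ∀ m : ℕ, (∀ i < m, w.lt e (stn e (i : ℤ) (st e p)) ≠ 1) → ∀ i < m + 1, w.lt e (stn e (i : ℤ) p) ≠ 1 := by
    intro m hm i hi
    cases i with
    | zero => rwa [Nat.cast_zero, stn_zero]
    | succ i =>
      rw [wla_stn_succ]
      exact hm i (by omega)
  have key' : ∀ m : ℕ, (∀ i < m + 1, w.lt e (stn e (i : ℤ) p) ≠ 1) → ∀ i < m, w.lt e (stn e (i : ℤ) (st e p)) ≠ 1 := by
    intro m hm i hi
    have := hm (i + 1) (by omega)
    rwa [wla_stn_succ] at this
  constructor
  · intro h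
    refine ⟨?_, ?_, ?_, ?_⟩
    · have h1 := h.st 0 (by omega) (fun i hi => by
        have hi' : i = 0 := by omega
        subst hi'
        rwa [Nat.cast_zero, stn_zero])
      rwa [Nat.cast_zero, stn_zero] at h1
    · intro j hj hi
      have h1 := h.st (j + 1) (by omega) (fun i hi' =>
        key (j + 1) (fun i hi'' => hi i (by omega)) i (by omega))
      rwa [wla_stn_succ] at h1
    · intro j hj hi hl
      have h1 := h.en (j + 1) (by omega) (key j hi) (by rwa [wla_stn_succ])
      rwa [wla_stn_succ] at h1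
    · intro hi
      exact h.z (key n hi)
  · rintro ⟨h1, h2⟩
    refine ⟨?_, ?_, ?_⟩
    · intro j hj hi
      cases j with
      | zero =>
        rw [Nat.cast_zero, stn_zero]
        exact h1
      | succ j =>
        rw [wla_stn_succ]
        exact h2.st j (by omega) (fun i hi' => key' (j + 1) (fun i hi'' => hi i (by omega)) i (by omega))
    · intro j hj hi hl
      cases j with
      | zero =>
        rw [Nat.cast_zero, stn_zero] at hl
        exact absurd hl hp
      | succ j =>
        rw [wla_stn_succ] at hl ⊢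
        exact h2.en j (by omega) (key' j hi) hl
    · intro hi
      exact h2.z (key' n hi)

/-- END -/
theorem ycb_end {N : Type} [AddCommGroup N] [Module k N] {Q : QMod D k N} {w : Ln (Fin D.nV) S.nx} {e : Bool} {p : ℤ}
    {n : ℕ} {g : ℕ → N} {z : N} (hp : w.lt e p = 1) : YcbLo Q w e p (n + 1) g z ↔
      (∀ β, S.inA (w.v p) (w.sd e p) = some β → Q.op (Sum.inr β) z = g 0) ∧
      (S.inA (w.v p) (w.sd e p) = none → g 0 = 0) := by
  have h0 : stn e ((0 : ℕ) : ℤ) p = p := by rw [Nat.cast_zero, stn_zero]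
  constructor
  · intro h
    have h1 := h.en 0 (by omega) (fun i hi => absurd hi (by omega)) (by rw [h0]; exact hp)
    rwa [h0] at h1
  · intro h
    refine ⟨?_, ?_, ?_⟩
    · intro j hj hi
      exact absurd (by rw [h0]; exact hp) (hi 0 (by omega))
    · intro j hj hi hl
      cases j with
      | zero =>
        rw [h0]
        exact h
      | succ j => exact absurd (by rw [h0]; exact hp) (hi 0 (by omega))
    · intro hi
      exact absurd (by rw [h0]; exact hp) (hi 0 (by omega))

/-- the lower cut of depth `n` is the projection of the solution set of the finite system -/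
theorem ycb_mem_lo {N : Type} [AddCommGroup N] [Module k N] {Q : QMod D k N} {w : Ln (Fin D.nV) S.nx}
    (hw : w.Ok S.ends) (e : Bool) (p : ℤ) (n : ℕ) (m : N) :
    m ∈ Q.lo S n (w.wdd e p) (w.v p) (w.sd e p) ↔
      Q.op (Sum.inl (w.v p)) m = m ∧ ∃ (g : ℕ → N) (z : N), g 0 = m ∧ YcbLo Q w e p n g z := by
  induction n generalizing p m with
  | zero =>
    rw [QMod.lo, Submodule.mem_bot]
    constructor
    · rintro rfl
      exact ⟨map_zero _, fun _ => 0, 0, rfl, ycb_zero.2 rfl⟩
    · rintro ⟨-, g, z, rfl, h⟩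
      exact ycb_zero.1 h
  | succ n ih =>
    rcases wla_fin3 (w.lt e p) with h0 | h0 | h0
    · have hp1 : w.lt e p ≠ 1 := by rw [h0]; decide
      obtain ⟨β, hβ, -⟩ := hw.inn h0
      rw [wla_lo_zero h0, wla_mem_cB hβ]
      constructor
      · rintro ⟨y, hy, rfl⟩
        obtain ⟨hy1, g, z, hg0, hg⟩ := (ih (st e p) y).1 hy
        refine ⟨wla_vs_zero hβ y, fun j => Nat.casesOn j (Q.op (Sum.inr β) y) g, z, rfl, ?_⟩
        rw [ycb_succ hp1]
        refine ⟨?_, hg⟩
        show ESt Q w e p (Q.op (Sum.inr β) y) (g 0)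
        rw [hg0, wla_est_zero h0 hβ]
        exact ⟨hy1, rfl⟩
      · rintro ⟨-, g, z, rfl, hg⟩
        rw [ycb_succ hp1] at hg
        obtain ⟨hg1, hg2⟩ := hg
        rw [wla_est_zero h0 hβ] at hg1
        exact ⟨g 1, (ih (st e p) (g 1)).2 ⟨hg1.1, fun j => g (j + 1), z, rfl, hg2⟩, hg1.2⟩
    · rw [wla_lo_one h0]
      cases hβ : S.inA (w.v p) (w.sd e p) with
      | none =>
        have h1 : Q.cB S (w.v p) (w.sd e p) ⊤ = ⊥ := by
          unfold QMod.cB
          rw [hβ]
        rw [h1, Submodule.mem_bot]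
        constructor
        · rintro rfl
          refine ⟨map_zero _, fun _ => 0, 0, rfl, (ycb_end h0).2 ⟨fun β h2 => ?_, fun _ => rfl⟩⟩
          exact map_zero _
        · rintro ⟨-, g, z, rfl, hg⟩
          exact ((ycb_end h0).1 hg).2 hβ
      | some β =>
        rw [wla_mem_cB hβ]
        constructor
        · rintro ⟨y, -, rfl⟩
          refine ⟨wla_vs_zero hβ y, fun _ => Q.op (Sum.inr β) y, y, rfl, (ycb_end h0).2 ⟨fun β' h2 => ?_, fun h2 => ?_⟩⟩
          · rw [hβ] at h2
            rw [← Option.some_inj.1 h2]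
          · rw [hβ] at h2
            exact absurd h2 (by simp)
        · rintro ⟨-, g, z, rfl, hg⟩
          exact ⟨z, Submodule.mem_top, ((ycb_end h0).1 hg).1 β hβ⟩
    · have hp1 : w.lt e p ≠ 1 := by rw [h0]; decide
      obtain ⟨γ, hγ, hγ'⟩ := hw.out h0
      rw [wla_lo_two h0, wla_mem_cC hγ, ih (st e p)]
      constructor
      · rintro ⟨h1, h2, g, z, hg0, hg⟩
        refine ⟨h1, fun j => Nat.casesOn j m g, z, rfl, ?_⟩
        rw [ycb_succ hp1]
        refine ⟨?_, hg⟩
        show ESt Q w e p m (g 0)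
        rw [hg0, wla_est_two h0 hγ]
        exact ⟨h1, rfl⟩
      · rintro ⟨h1, g, z, rfl, hg⟩
        rw [ycb_succ hp1] at hg
        obtain ⟨hg1, hg2⟩ := hg
        rw [wla_est_two h0 hγ] at hg1
        exact ⟨h1, wla_vs_zero hγ' _, fun j => g (j + 1), z, hg1.2.symm, hg2⟩

/-- the letters of a string that are not END are between positions -/
theorem ycb_mem_of_lt {w : Str S} {e : Bool} {p : ℤ} (h : w.L.lt e p ≠ 1) : p ∈ w.Z ∧ st e p ∈ w.Z := by
  cases e with
  | true =>
    have := w.clean p (by simpa [Ln.lt] using h)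
    exact this
  | false =>
    have h' : w.L.lam (p - 1) ≠ 1 := by
      simp only [Ln.lt, Bool.false_eq_true, if_false] at h
      exact Ln.rev_ne_one.1 h
    have := w.clean (p - 1) h'
    rw [sub_add_cancel] at this
    exact ⟨this.2, this.1⟩

/-- the finite systems: a window chain of radius `R` and the systems of the two lower cuts -/
structure YcbW (b : Str S) (N : Md D k) (m₀ : ℕ) (y : N.C) (R : ℕ) (x : ℤ ⊕ (Bool × ℕ) → N.C) : Prop where
  ch : ∀ q ∈ b.Z, q.natAbs < R → ChAt N.Q S.ends b.L (fun q => x (Sum.inl q)) q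
  lo : ∀ e, YcbLo N.Q b.L e 0 m₀ (fun j => x (Sum.inr (e, j))) (x (Sum.inr (e, m₀ + 1)))
  v : ∀ e, N.Q.op (Sum.inl (b.L.v 0)) (x (Sum.inr (e, 0))) = x (Sum.inr (e, 0))
  y : x (Sum.inl 0) - x (Sum.inr (false, 0)) - x (Sum.inr (true, 0)) = y

theorem YcbW.mono {b : Str S} {N : Md D k} {m₀ : ℕ} {y : N.C} {R R' : ℕ} (hR : R ≤ R')
    {x : ℤ ⊕ (Bool × ℕ) → N.C} (h : YcbW b N m₀ y R' x) : YcbW b N m₀ y R x where
  ch q hq hq' := h.ch q hq (lt_of_lt_of_le hq' hR)
  lo := h.lo
  v := h.v
  y := h.y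

/-- the system of the lower cut does not depend on the values after `n` -/
theorem YcbLo.congr {N : Type} [AddCommGroup N] [Module k N] {Q : QMod D k N} {w : Ln (Fin D.nV) S.nx} {e : Bool} {p : ℤ}
    {n : ℕ} {g g' : ℕ → N} {z : N} (h : YcbLo Q w e p n g z) (hg : ∀ j ≤ n, g' j = g j) : YcbLo Q w e p n g' z where
  st j hj hi := by
    rw [hg j (by omega), hg (j + 1) (by omega)]
    exact h.st j hj hi
  en j hj hi hl := by
    rw [hg j (by omega)]
    exact h.en j hj hi hl
  z hi := by
    rw [hg n le_rfl]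
    exact h.z hi

/-- the finite systems are solvable -/
theorem ycb_exists (b : Str S) (N : Md D k) (m₀ : ℕ) (y : N.C)
    (h : ∀ m, ∃ y' ∈ N.Q.U S m (b.L.v 0) (b.L.wd 0), y' - y ∈ N.Q.B S m₀ (b.L.v 0) (b.L.wd 0)) (R : ℕ) :
    ∃ x, YcbW b N m₀ y R x := by
  obtain ⟨y', hU, hB⟩ := h R
  obtain ⟨g, hg, hg'⟩ := window_of_up b.ok 0 R y' ((mem_U_iff 0 R y').1 hU)
  rw [B_eq, Submodule.mem_sup] at hB
  obtain ⟨a₀, h0, a₁, h1, h01⟩ := hB
  rw [ycb_mem_lo b.ok false 0 m₀] at h0
  rw [ycb_mem_lo b.ok true 0 m₀] at h1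
  obtain ⟨v0, g0, z0, g00, g01⟩ := h0
  obtain ⟨v1, g1, z1, g10, g11⟩ := h1
  refine ⟨Sum.elim g (fun t => if t.2 = m₀ + 1 then (if t.1 then z1 else z0) else (if t.1 then g1 t.2 else g0 t.2)),
    ?_, ?_, ?_, ?_⟩
  · intro q hq hq'
    exact hg' q hq (by rwa [sub_zero])
  · intro e
    cases e
    · refine YcbLo.congr (g := g0) ?_ ?_
      · simpa using g01
      · intro j hj
        have : j ≠ m₀ + 1 := by omega
        simp [this]
    · refine YcbLo.congr (g := g1) ?_ ?_
      · simpa using g11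
      · intro j hj
        have : j ≠ m₀ + 1 := by omega
        simp [this]
  · intro e
    cases e
    · show N.Q.op (Sum.inl (b.L.v 0)) (g0 0) = g0 0
      rw [g00]; exact v0
    · show N.Q.op (Sum.inl (b.L.v 0)) (g1 0) = g1 0
      rw [g10]; exact v1
  · show g 0 - g0 0 - g1 0 = y
    rw [hg, g00, g10, sub_sub, h01]
    abel

/-- The analogue of `exists_chain_near` (WT.lean, for bi-infinite strings) for an arbitrary string.

Proof: as in WT.lean (`wsat` = saturation of nice modules for systems of linear equations in infinitely many variables). Variables: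
`x (inl q)` for the values of the chain at the positions `q ∈ w.Z` and variables for two one-sided chains `x (inr (e, j))`, `j ≤ m₀`, and one more variable
`x (inr (e, m₀ + 1))`. Finite systems: `ChAt` at the positions `q ∈ w.Z` with `q.natAbs < R` (`Str.Open`/window lemmas `window_of_up`, `mem_U_iff` produce a
solution for every `R`); for every side `e` the element `x (inr (e, 0))` is in `lo m₀ (wdd e 0)`: if no letter END occurs within `m₀` steps in direction `e`,
this is: one-sided chain with last element `0` (`mem_lo_iff`, as in WT.lean); if the first END is the letter number `n_e < m₀`, this is: one-sided chain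
up to `n_e`, whose element number `n_e` is in `cB ⊤` at `stn e n_e 0`, that is `β z` for the arrow `β` that comes in at this side (`z` the additional
variable) or `0` if there is no such arrow (`wla_lo_zero`, `wla_lo_two`, `wla_lo_one`, `wla_mem_cB` in WLa.lean: unfold `lo` step by step; a lemma
`mem_lo_iff'` by induction on the number of steps is the cleanest way); and `x (inl 0) - x (inr (false, 0)) - x (inr (true, 0)) = y`.
The resulting family is a chain at all `q ∈ w.Z`; replace it by `0` outside `w.Z`. -/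
theorem exists_chain_near' (w : Str S) (N : Md D k) (hN : N.Nice) (m₀ : ℕ)
    (y : N.C) (h : ∀ m, ∃ y' ∈ N.Q.U S m (w.L.v 0) (w.L.wd 0), y' - y ∈ N.Q.B S m₀ (w.L.v 0) (w.L.wd 0)) :
    ∃ n ∈ w.Q N, n 0 - y ∈ N.Q.B S m₀ (w.L.v 0) (w.L.wd 0) := by
  classical
  obtain ⟨x, hx⟩ := wsat hN
    (τ := {t : List (List D.Gen × k × (ℤ ⊕ (Bool × ℕ))) × N.C // ∃ R, ∀ x, YcbW w N m₀ y R x → evE N.Q t.1 x = t.2})
    (fun t => t.1.1) (fun t => t.1.2) (by
      intro F
      choose! R hR using fun t : {t : List (List D.Gen × k × (ℤ ⊕ (Bool × ℕ))) × N.C //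
        ∃ R, ∀ x, YcbW w N m₀ y R x → evE N.Q t.1 x = t.2} => t.2
      obtain ⟨x, hx⟩ := ycb_exists w N m₀ y h (F.sup R)
      exact ⟨x, fun t ht => hR t x (hx.mono (Finset.le_sup ht))⟩)
  have key : ∀ (l : List (List D.Gen × k × (ℤ ⊕ (Bool × ℕ)))) (c : N.C) (R : ℕ),
      (∀ x, YcbW w N m₀ y R x → evE N.Q l x = c) → evE N.Q l x = c := by
    intro l c R hl
    exact hx ⟨(l, c), R, hl⟩
  -- the identities
  have hy : x (Sum.inl 0) - x (Sum.inr (false, 0)) - x (Sum.inr (true, 0)) = y := by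
    have h1 := key [([], 1, Sum.inl 0), ([], -1, Sum.inr (false, 0)), ([], -1, Sum.inr (true, 0))] y 0 (by
      intro x' hx'
      rw [wt_evE_cons, wt_evE_cons, wt_evE_cons, wt_evE_nil, ← hx'.y]
      simp only [wt_word_nil, one_smul, neg_smul, add_zero]
      abel)
    rw [wt_evE_cons, wt_evE_cons, wt_evE_cons, wt_evE_nil] at h1
    simp only [wt_word_nil, one_smul, neg_smul, add_zero] at h1
    rw [← h1]
    abel
  -- general identities `x i = 0`
  have key0 : ∀ (i : ℤ ⊕ (Bool × ℕ)) (R : ℕ), (∀ x', YcbW w N m₀ y R x' → x' i = 0) → x i = 0 := by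
    intro i R hl
    have h1 := key [([], 1, i)] 0 R (by
      intro x' hx'
      rw [wt_evE_cons, wt_evE_nil]
      simp only [wt_word_nil, one_smul, add_zero]
      exact hl x' hx')
    rw [wt_evE_cons, wt_evE_nil] at h1
    simpa only [wt_word_nil, one_smul, add_zero] using h1
  -- general identities `op g (x i) = x j`
  have key2 : ∀ (g : D.Gen) (i j : ℤ ⊕ (Bool × ℕ)) (R : ℕ),
      (∀ x', YcbW w N m₀ y R x' → N.Q.op g (x' i) = x' j) → N.Q.op g (x i) = x j := by
    intro g i j R hl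
    have h1 := key [([g], 1, i), ([], -1, j)] 0 R (by
      intro x' hx'
      rw [wt_evE_cons, wt_evE_cons, wt_evE_nil]
      simp only [wt_word_nil, wt_word_one, one_smul, neg_smul, add_zero]
      rw [hl x' hx', add_neg_cancel])
    rw [wt_evE_cons, wt_evE_cons, wt_evE_nil] at h1
    simp only [wt_word_nil, wt_word_one, one_smul, neg_smul, add_zero] at h1
    exact add_neg_eq_zero.1 h1
  have hv : ∀ e, N.Q.op (Sum.inl (w.L.v 0)) (x (Sum.inr (e, 0))) = x (Sum.inr (e, 0)) :=
    fun e => key2 _ _ _ 0 (fun x' hx' => hx'.v e)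
  have hlo : ∀ e, YcbLo N.Q w.L e 0 m₀ (fun j => x (Sum.inr (e, j))) (x (Sum.inr (e, m₀ + 1))) := by
    intro e
    refine ⟨?_, ?_, ?_⟩
    · intro j hj hne
      refine ⟨?_, ?_, ?_, ?_⟩
      · exact key2 _ _ _ 0 (fun x' hx' => ((hx'.lo e).st j hj hne).vx)
      · intro h2 γ hγ
        exact key2 _ _ _ 0 (fun x' hx' => ((hx'.lo e).st j hj hne).out h2 γ hγ)
      · intro h2
        exact ⟨key2 _ _ _ 0 (fun x' hx' => (((hx'.lo e).st j hj hne).inn h2).1),
          fun β hβ => key2 _ _ _ 0 (fun x' hx' => (((hx'.lo e).st j hj hne).inn h2).2 β hβ)⟩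
      · intro h2
        exact absurd h2 (hne j le_rfl)
    · intro j hj hne hl
      refine ⟨fun β hβ => ?_, fun hβ => ?_⟩
      · exact key2 _ _ _ 0 (fun x' hx' => ((hx'.lo e).en j hj hne hl).1 β hβ)
      · exact key0 _ 0 (fun x' hx' => ((hx'.lo e).en j hj hne hl).2 hβ)
    · intro hne
      exact key0 _ 0 (fun x' hx' => (hx'.lo e).z hne)
  have hch : ∀ q ∈ w.Z, ChAt N.Q S.ends w.L (fun q => x (Sum.inl q)) q := by
    intro q hq
    refine ⟨fun i => ?_, fun α => ?_⟩
    · have h1 := key [([Sum.inl i], 1, Sum.inl q), ([], -(if w.L.v q = i then 1 else 0), Sum.inl q)] 0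
        (q.natAbs + 1) (by
          intro x' hx'
          rw [wt_evE_cons, wt_evE_cons, wt_evE_nil]
          simp only [wt_word_nil, wt_word_one, one_smul, neg_smul, add_zero]
          rw [(hx'.ch q hq (Nat.lt_succ_self _)).1 i]
          split_ifs <;> simp)
      rw [wt_evE_cons, wt_evE_cons, wt_evE_nil] at h1
      simp only [wt_word_nil, wt_word_one, one_smul, neg_smul, add_zero] at h1
      rw [add_neg_eq_zero.1 h1]
      split_ifs <;> simp
    · have h1 := key [([Sum.inr α], 1, Sum.inl q),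
        ([], -(if w.L.lt true q = 2 ∧ S.ends.outA (w.L.v q) (w.L.sd true q) = some α then 1 else 0),
          Sum.inl (st true q)),
        ([], -(if w.L.lt false q = 2 ∧ S.ends.outA (w.L.v q) (w.L.sd false q) = some α then 1 else 0),
          Sum.inl (st false q))] 0
        (q.natAbs + 1) (by
          intro x' hx'
          rw [wt_evE_cons, wt_evE_cons, wt_evE_cons, wt_evE_nil]
          simp only [wt_word_nil, wt_word_one, one_smul, neg_smul, add_zero]
          rw [(hx'.ch q hq (Nat.lt_succ_self _)).2 α, Fintype.sum_bool]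
          split_ifs <;> simp <;> abel)
      rw [wt_evE_cons, wt_evE_cons, wt_evE_cons, wt_evE_nil] at h1
      simp only [wt_word_nil, wt_word_one, one_smul, neg_smul, add_zero] at h1
      rw [← neg_add, add_neg_eq_zero] at h1
      rw [h1, Fintype.sum_bool]
      split_ifs <;> simp
  -- the chain
  have h0 : (0 : ℤ) ∈ w.Z := Ln.Reach.refl
  obtain ⟨n, hn1, hn0⟩ : ∃ n : ℤ → N.C, (∀ q ∈ w.Z, n q = x (Sum.inl q)) ∧ ∀ q, q ∉ w.Z → n q = 0 :=
    ⟨fun q => if q ∈ w.Z then x (Sum.inl q) else 0, fun q hq => if_pos hq, fun q hq => if_neg hq⟩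
  refine ⟨n, ⟨fun q => ?_, hn0⟩, ?_⟩
  · by_cases hq : q ∈ w.Z
    · obtain ⟨h1, h2⟩ := hch q hq
      refine ⟨fun i => ?_, fun α => ?_⟩
      · rw [hn1 q hq]
        exact h1 i
      · rw [hn1 q hq, h2 α]
        refine Finset.sum_congr rfl (fun e _ => ?_)
        by_cases h3 : w.L.lt e q = 2
        · rw [hn1 _ (w.Zcl e q hq (by rw [h3]; decide))]
        · rw [if_neg (fun h4 => h3 h4.1), if_neg (fun h4 => h3 h4.1)]
    · refine ⟨fun i => ?_, fun α => ?_⟩
      · rw [hn0 q hq, map_zero, ite_self]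
      · rw [hn0 q hq, map_zero]
        symm
        refine Finset.sum_eq_zero (fun e _ => ?_)
        rw [if_neg]
        rintro ⟨h3, -⟩
        exact hq (ycb_mem_of_lt (e := e) (by rw [h3]; decide)).1
  · rw [B_eq, Submodule.mem_sup]
    refine ⟨x (Sum.inr (false, 0)), ?_, x (Sum.inr (true, 0)), ?_, ?_⟩
    · rw [ycb_mem_lo w.ok false 0 m₀]
      exact ⟨hv false, _, _, rfl, hlo false⟩
    · rw [ycb_mem_lo w.ok true 0 m₀]
      exact ⟨hv true, _, _, rfl, hlo true⟩
    · rw [hn1 0 h0, ← hy]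
      abel

end StrAlg
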