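import Pool.Agent.Lib.MP_b9fd58_lc.WUa
import Pool.Agent.Lib.MP_b9fd58_lc.YCb

/-!
# Stage 2, job S2Lc: full chains in nice modules
-/

set_option autoImplicit false

namespace StrAlg

open Module

variable {D : Dat} {k : Type} [Field k] {S : Sides D}

/-- **Full chain.** An element of all `U m` of a nice module is the value at `0` of a full chain. -/
theorem exists_full_chain (w : Str S) (N : Md D k) (hN : N.Nice) (x : N.C)
    (hx : ∀ m, x ∈ N.Q.U S m (w.L.v 0) (w.L.wd 0)) : ∃ g ∈ w.Q N, g 0 = x := by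
  obtain ⟨g, hg, h⟩ := exists_chain_near' w N hN 0 x (fun m => ⟨x, hx m, by rw [sub_self]; exact Submodule.zero_mem _⟩)
  refine ⟨g, hg, ?_⟩
  have hB : N.Q.B S 0 (w.L.v 0) (w.L.wd 0) = ⊥ := by
    unfold QMod.B
    rw [QMod.lo, QMod.lo, bot_sup_eq]
  rw [hB, Submodule.mem_bot, sub_eq_zero] at h
  exact h

end StrAlg
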