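import Pool.Agent.Lib.MP_b9fd58_lc.WUa

/-!
# Stage 2, job S2Ld: full dual chains
-/

set_option autoImplicit false

namespace StrAlg

open Module

variable {D : Dat} {k : Type} [Field k] {S : Sides D}

section aux
variable {N : Type} [AddCommGroup N] [Module k N]

/-- `l` is a functional at `p` that kills all lower cuts in the direction `e` -/
def S2ldKl (Q : QMod D k N) (w : Ln (Fin D.nV) S.nx) (e : Bool) (p : ℤ) (l : N →ₗ[k] k) : Prop :=
  l ∘ₗ Q.op (Sum.inl (w.v p)) = l ∧ ∀ n, ∀ x ∈ Q.lo S n (w.wdd e p) (w.v p) (w.sd e p), l x = 0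

theorem s2ld_step {Q : QMod D k N} {w : Ln (Fin D.nV) S.nx} (hw : w.Ok S.ends) {e : Bool} {p : ℤ}
    {l : N →ₗ[k] k} (h : S2ldKl Q w e p l) :
    ∃ l' : N →ₗ[k] k, DSt Q w e p l l' ∧ (w.lt e p ≠ 1 → S2ldKl Q w e (st e p) l') := by
  obtain ⟨hl, hk⟩ := h
  rcases wla_fin3 (w.lt e p) with h0 | h0 | h0
  · obtain ⟨β, hβ, hβ'⟩ := hw.inn h0
    have hs : D.src β = w.v (st e p) := (Sides.outA_some.1 hβ').1
    refine ⟨l ∘ₗ Q.op (Sum.inr β), ?_, fun _ => ⟨?_, ?_⟩⟩
    · rw [wlb_dst_zero h0 hβ]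
      exact ⟨hl, rfl⟩
    · ext x
      show l (Q.op (Sum.inr β) (Q.op (Sum.inl (w.v (st e p))) x)) = l (Q.op (Sum.inr β) x)
      rw [← hs, Q.src]
    · intro n x hx
      refine hk (n + 1) _ ?_
      rw [wla_lo_zero h0]
      exact (wla_mem_cB hβ).2 ⟨x, hx, rfl⟩
  · refine ⟨0, ?_, fun hp => absurd h0 hp⟩
    rw [wlb_dst_one h0]
    refine ⟨hl, fun β hβ => ?_⟩
    ext x
    refine hk (0 + 1) _ ?_
    rw [wla_lo_one h0]
    exact (wla_mem_cB hβ).2 ⟨x, trivial, rfl⟩
  · obtain ⟨γ, hγ, hγ'⟩ := hw.out h0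
    have hs : D.src γ = w.v p := (Sides.outA_some.1 hγ).1
    have ht : D.tgt γ = w.v (st e p) := (Sides.inA_some.1 hγ').1
    have hdir : Directed (· ≤ ·) (fun n : ℕ => Q.lo S n (w.wdd e (st e p)) (w.v (st e p)) (w.sd e (st e p))) :=
      directed_of_isDirected_le (fun m n hmn => Q.lo_mono S hmn _ _ _)
    obtain ⟨l', a1, a2, a3⟩ := ext_through Q (γ := γ)
      (⨆ n : ℕ, Q.lo S n (w.wdd e (st e p)) (w.v (st e p)) (w.sd e (st e p))) l (by rw [hs]; exact hl) (by
        intro x hx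
        rw [hs] at hx
        obtain ⟨hx1, hx2⟩ := hx
        have hx3 : Q.op (Sum.inr γ) x ∈
            (⨆ n : ℕ, Q.lo S n (w.wdd e (st e p)) (w.v (st e p)) (w.sd e (st e p))) := hx2
        obtain ⟨n, hn⟩ := (Submodule.mem_iSup_of_directed _ hdir).1 hx3
        refine hk (n + 1) x ?_
        rw [wla_lo_two h0]
        exact (wla_mem_cC hγ).2 ⟨QMod.mem_vs.1 hx1, hn⟩)
    rw [ht] at a2 a3
    refine ⟨l', ?_, fun _ => ⟨a2, ?_⟩⟩
    · rw [wlb_dst_two h0 hγ]
      exact ⟨hl, a2, a1⟩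
    · intro n x hx
      refine a3 x ⟨?_, (Q.up_le_vs S n _ _ _) (Q.lo_le_up S n _ _ _ hx)⟩
      exact (le_iSup (fun n : ℕ => Q.lo S n (w.wdd e (st e p)) (w.v (st e p)) (w.sd e (st e p))) n) hx

open Classical in
/-- the next functional -/
noncomputable def s2ldNxt (Q : QMod D k N) (w : Ln (Fin D.nV) S.nx) (e : Bool) (p : ℤ) (l : N →ₗ[k] k) : N →ₗ[k] k :=
  if h : ∃ l' : N →ₗ[k] k, DSt Q w e p l l' ∧ (w.lt e p ≠ 1 → S2ldKl Q w e (st e p) l') then h.choose else 0

theorem s2ld_nxt {Q : QMod D k N} {w : Ln (Fin D.nV) S.nx} (hw : w.Ok S.ends) {e : Bool} {p : ℤ}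
    {l : N →ₗ[k] k} (h : S2ldKl Q w e p l) :
    DSt Q w e p l (s2ldNxt Q w e p l) ∧ (w.lt e p ≠ 1 → S2ldKl Q w e (st e p) (s2ldNxt Q w e p l)) := by
  classical
  unfold s2ldNxt
  rw [dif_pos (s2ld_step hw h)]
  exact (s2ld_step hw h).choose_spec

/-- the sequence of functionals -/
noncomputable def s2ldSeq (Q : QMod D k N) (w : Ln (Fin D.nV) S.nx) (e : Bool) (p : ℤ) (l : N →ₗ[k] k) : ℕ → N →ₗ[k] k
  | 0 => l
  | j + 1 => s2ldNxt Q w e (stn e (j : ℤ) p) (s2ldSeq Q w e p l j)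

theorem s2ld_seq {Q : QMod D k N} {w : Ln (Fin D.nV) S.nx} (hw : w.Ok S.ends) {e : Bool} {p : ℤ}
    {l : N →ₗ[k] k} (h : S2ldKl Q w e p l) (j : ℕ) (hj : ∀ i < j, w.lt e (stn e (i : ℤ) p) ≠ 1) :
    S2ldKl Q w e (stn e (j : ℤ) p) (s2ldSeq Q w e p l j) := by
  induction j with
  | zero =>
    rw [Nat.cast_zero, stn_zero]
    exact h
  | succ j ih =>
    have h1 := ih (fun i hi => hj i (by omega))
    have h2 := (s2ld_nxt hw h1).2 (hj j (by omega))
    rw [wmb_st] at h2
    exact h2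

/-- a functional that kills all lower cuts in the direction `e` extends to an infinite one-sided dual chain -/
theorem s2ld_inf {Q : QMod D k N} {w : Ln (Fin D.nV) S.nx} (hw : w.Ok S.ends) {e : Bool} {p : ℤ}
    {l : N →ₗ[k] k} (h : S2ldKl Q w e p l) :
    ∃ f : ℕ → N →ₗ[k] k, f 0 = l ∧ ∀ n, SDc Q w e p n f := by
  refine ⟨s2ldSeq Q w e p l, rfl, fun n j _ hi => ?_⟩
  exact (s2ld_nxt hw (s2ld_seq hw h j hi)).1

theorem s2ld_dst_end {Q : QMod D k N} {w : Ln (Fin D.nV) S.nx} {e : Bool} {p : ℤ} (h : w.lt e p = 1)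
    {x y y' : N →ₗ[k] k} (hd : DSt Q w e p x y) : DSt Q w e p x y' :=
  (wlb_dst_one h).2 ((wlb_dst_one h).1 hd)

end aux

theorem s2ld_Z_out (w : Str S) {q : ℤ} (hq : q ∉ w.Z) {e : Bool} (h : w.L.lt e q ≠ 1) : st e q ∉ w.Z := by
  intro h1
  have h2 : w.L.lt (!e) (st e q) ≠ 1 := by
    rw [Ln.lt_back]
    revert h
    generalize w.L.lt e q = x
    revert x
    decide
  have h3 := w.Zcl (!e) (st e q) h1 h2
  rw [st_not_st] at h3
  exact hq h3

/-- **Full dual chain.** A functional that kills all `B m` is the value at `0` of a full dual chain (no compactness: `kills_lo_iff` and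
extension step by step: if `l` kills all lower cuts in direction `e` then it kills their union, which is the image or the preimage under the next
arrow of the union at the next position; `ext_through` for the union). -/
theorem exists_full_dchain (w : Str S) (N : Md D k) (l : N.C →ₗ[k] k) (hl : l ∘ₗ N.Q.op (Sum.inl (w.L.v 0)) = l)
    (h : ∀ m, ∀ y ∈ N.Q.B S m (w.L.v 0) (w.L.wd 0), l y = 0) :
    ∃ ξ : ℤ → N.C →ₗ[k] k, (∀ q, DcAt N.Q S.ends w.L ξ q) ∧ (∀ q, q ∉ w.Z → ξ q = 0) ∧ ξ 0 = l := by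
  classical
  have hk : ∀ e, S2ldKl N.Q w.L e 0 l := by
    intro e
    refine ⟨hl, fun n x hx => h n x ?_⟩
    rw [B_eq]
    cases e
    · exact Submodule.mem_sup_left hx
    · exact Submodule.mem_sup_right hx
  have h1 := fun e => s2ld_inf w.ok (hk e)
  choose f hf0 hf using h1
  have hg : ∀ e (j : ℕ), wmbGlue f 0 (stn e (j : ℤ) 0) = f e j :=
    fun e j => wmbGlue_stn ((hf0 true).trans (hf0 false).symm) 0 e j
  have hg0 : wmbGlue f 0 0 = l := by
    have := hg true 0
    simpa [hf0] using this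
  -- the steps for the glued chain
  have key : ∀ q ∈ w.Z, ∀ e', DSt N.Q w.L e' q (wmbGlue f 0 q) (wmbGlue f 0 (st e' q)) := by
    intro q hq e'
    obtain ⟨e, j, rfl, hj⟩ := wmb_reach hq
    by_cases he : e' = e
    · subst he
      rw [wmb_st, hg, hg]
      exact hf e' (j + 1) j (by omega) hj
    · cases j with
      | zero =>
        have h2 := hf e' 1 0 (by omega) (fun i hi => absurd hi (by omega))
        have h3 := hg e' 0
        have h4 := hg e' 1
        have h5 := wmb_st e' 0 0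
        simp only [Nat.cast_zero, stn_zero] at h2 h3 h5
        simp only [Nat.cast_zero, stn_zero]
        rw [h5, h3, h4]
        exact h2
      | succ j =>
        have hne : e' = !e := by cases e <;> cases e' <;> simp_all
        subst hne
        have h2 := hf e (j + 1) j (by omega) (fun i hi => hj i (by omega))
        have h3 := h2.symm w.ok (hj j (by omega))
        rw [wmb_st] at h3
        rw [wmb_st_back, hg, hg]
        exact h3
  refine ⟨fun q => if q ∈ w.Z then wmbGlue f 0 q else 0, ?_, ?_, ?_⟩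
  · intro q
    by_cases hq : q ∈ w.Z
    · apply dcAt_of_DSt w.ok
      intro e
      simp only [if_pos hq]
      by_cases he : w.L.lt e q = 1
      · exact s2ld_dst_end he (key q hq e)
      · rw [if_pos (w.Zcl e q hq he)]
        exact key q hq e
    · constructor
      · intro i n
        simp only [if_neg hq]
        split_ifs <;> rfl
      · intro α n
        simp only [if_neg hq]
        symm
        refine Finset.sum_eq_zero fun e _ => ?_
        split_ifs with h2 h3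
        · exact absurd h3 (s2ld_Z_out w hq (by rw [h2.1]; decide))
        · rfl
        · rfl
  · intro q hq
    simp only [if_neg hq]
  · have h0 : (0 : ℤ) ∈ w.Z := Ln.Reach.refl
    simp only [if_pos h0]
    exact hg0

/-- the pairing of a full chain and a full dual chain is constant on the positions (`pair_step`) -/
theorem pair_const (w : Str S) (N : Md D k) {g : ℤ → N.C} (hg : g ∈ w.Q N) {ξ : ℤ → N.C →ₗ[k] k}
    (hξ : ∀ q, DcAt N.Q S.ends w.L ξ q) (q : ℤ) (hq : q ∈ w.Z) : ξ q (g q) = ξ 0 (g 0) := by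
  obtain ⟨e, j, rfl, hj⟩ := wmb_reach hq
  clear hq
  induction j with
  | zero =>
    simp only [Nat.cast_zero, stn_zero]
  | succ j ih =>
    have h1 := ih (fun i hi => hj i (by omega))
    have e1 := ESt_of_chAt (e := e) w.ok (hg.1 (stn e (j : ℤ) 0)) (fun _ => hg.1 _)
    have e2 := DSt_of_dcAt (e := e) w.ok (hξ (stn e (j : ℤ) 0)) (fun _ => hξ _)
    rw [wmb_st] at e1 e2
    rw [pair_step w.ok (hj j (by omega)) e1 e2]
    exact h1

end StrAlg
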