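import Pool.Agent.Lib.MP_b9fd58_lc.S2La
import Pool.Agent.Lib.MP_b9fd58_lc.S2Lb
import Pool.Agent.Lib.MP_b9fd58_lc.S2Lc
import Pool.Agent.Lib.MP_b9fd58_lc.S2Ld

/-!
# Stage 2, job S2L: full chains along an open string of finite multiplicity (assembly)
-/

set_option autoImplicit false

namespace StrAlg

open Module

variable {D : Dat} {k : Type} [Field k] {S : Sides D}

/-- assembly: a full chain and a full dual chain with constant pairing one -/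
theorem exists_full_pair (w : Str S) (N : Md D k) (hN : N.Nice) (m₀ n₀ : ℕ) (h : ∀ n, DSys w N m₀ n → n ≤ n₀)
    (ho : w.Open N) :
    ∃ g ∈ w.Q N, ∃ ξ : ℤ → N.C →ₗ[k] k, (∀ q, DcAt N.Q S.ends w.L ξ q) ∧ (∀ q, q ∉ w.Z → ξ q = 0) ∧
      ∀ q ∈ w.Z, ξ q (g q) = 1 := by
  obtain ⟨m₁, h1⟩ := stab_of_bound w N m₀ n₀ h
  obtain ⟨x, hx, hx'⟩ := exists_deep w N hN m₁ h1 ((hasWin_iff w.ok 0).1 ho)
  obtain ⟨g, hg, hgx⟩ := exists_full_chain w N hN x hx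
  obtain ⟨l, hl1, hl2, hl3⟩ : ∃ l : N.C →ₗ[k] k, l ∘ₗ N.Q.op (Sum.inl (w.L.v 0)) = l ∧
      (∀ m, ∀ y ∈ N.Q.B S m (w.L.v 0) (w.L.wd 0), l y = 0) ∧ l x = 1 := by
    have hm : Monotone (fun m => N.Q.B S m (w.L.v 0) (w.L.wd 0)) := fun a b hab => N.Q.B_mono S hab _ _
    have hx0 : x ∉ ⨆ m, N.Q.B S m (w.L.v 0) (w.L.wd 0) := by
      intro hx0
      rw [Submodule.mem_iSup_of_directed _ hm.directed_le] at hx0
      obtain ⟨m, hm'⟩ := hx0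
      exact hx' m hm'
    obtain ⟨f, hf, hle⟩ := Submodule.exists_le_ker_of_notMem hx0
    have hBv : ∀ m, N.Q.B S m (w.L.v 0) (w.L.wd 0) ≤ N.Q.vs (w.L.v 0) := fun m =>
      sup_le ((N.Q.lo_le_up S m _ _ _).trans (N.Q.up_le_vs S m _ _ _))
        ((N.Q.lo_le_up S m _ _ _).trans (N.Q.up_le_vs S m _ _ _))
    have hxv : N.Q.op (Sum.inl (w.L.v 0)) x = x :=
      QMod.mem_vs.1 (N.Q.up_le_vs S 0 _ _ _ (hx 0).1)
    refine ⟨(f x)⁻¹ • (f ∘ₗ N.Q.op (Sum.inl (w.L.v 0))), ?_, ?_, ?_⟩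
    · ext y
      simp only [LinearMap.smul_apply, LinearMap.comp_apply, N.Q.idem]
    · intro m y hy
      have h1 : f y = 0 := hle (Submodule.mem_iSup_of_mem m hy)
      rw [LinearMap.smul_apply, LinearMap.comp_apply, QMod.mem_vs.1 (hBv m hy), h1, smul_zero]
    · rw [LinearMap.smul_apply, LinearMap.comp_apply, hxv, smul_eq_mul, inv_mul_cancel₀ hf]
  obtain ⟨ξ, h3, h4, h5⟩ := exists_full_dchain w N l hl1 hl2
  refine ⟨g, hg, ξ, h3, h4, fun q hq => ?_⟩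
  rw [pair_const w N hg h3 q hq, h5, hgx, hl3]

end StrAlg
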