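import Pool.Agent.Lib.MP_b9fd58_lc.WUa

/-!
# Stage 2, job S2La: dual systems in the boxes of a string; bounded multiplicity
-/

set_option autoImplicit false

namespace StrAlg

open Module

variable {D : Dat} {k : Type} [Field k] {S : Sides D}

/-- a dual system of `n` vectors in the box of depth `m` at the base point of `w` -/
def DSys (w : Str S) (N : Md D k) (m n : ℕ) : Prop :=
  ∃ (x : Fin n → N.C) (f : Fin n → N.C →ₗ[k] k), (∀ j, x j ∈ N.Q.U S m (w.L.v 0) (w.L.wd 0)) ∧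
    (∀ i, ∀ y ∈ N.Q.B S m (w.L.v 0) (w.L.wd 0), f i y = 0) ∧ ∀ i j, f i (x j) = if i = j then 1 else 0

section lin
variable {V : Type} [AddCommGroup V] [Module k V]

/-- a dual system for linearly independent vectors modulo `B` -/
theorem s2la_dual {U B : Submodule k V} {n : ℕ} (v : Fin n → V ⧸ B) (hv : LinearIndependent k v)
    (hU : ∀ j, v j ∈ U.map B.mkQ) :
    ∃ (x : Fin n → V) (f : Fin n → V →ₗ[k] k), (∀ j, x j ∈ U) ∧ (∀ i, ∀ y ∈ B, f i y = 0) ∧
      ∀ i j, f i (x j) = if i = j then 1 else 0 := by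
  choose x hx hxv using hU
  obtain ⟨g, hg⟩ := LinearMap.exists_leftInverse_of_injective (Finsupp.linearCombination k v)
    (linearIndependent_iff_ker.1 hv)
  refine ⟨x, fun i => (Finsupp.lapply i ∘ₗ g) ∘ₗ B.mkQ, hx, ?_, ?_⟩
  · intro i y hy
    rw [LinearMap.comp_apply, Submodule.mkQ_apply, (Submodule.Quotient.mk_eq_zero B).2 hy, map_zero]
  · intro i j
    rw [LinearMap.comp_apply, hxv, LinearMap.comp_apply]
    have h1 := LinearMap.congr_fun hg (Finsupp.single j 1)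
    rw [LinearMap.comp_apply, Finsupp.linearCombination_single, one_smul, LinearMap.id_apply] at h1
    rw [h1, Finsupp.lapply_apply, Finsupp.single_apply]
    simp only [eq_comm]

theorem s2la_factor {B B' : Submodule k V} (hB : B ≤ B') : ∃ q : (V ⧸ B) →ₗ[k] (V ⧸ B'), q ∘ₗ B.mkQ = B'.mkQ :=
  ⟨B.liftQ B'.mkQ (by rw [Submodule.ker_mkQ]; exact hB), Submodule.liftQ_mkQ _ _ _⟩

theorem s2la_anti {U U' B B' : Submodule k V} (hU : U' ≤ U) (hB : B ≤ B')
    (hfin : FiniteDimensional k (U.map B.mkQ)) :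
    FiniteDimensional k (U'.map B'.mkQ) ∧ finrank k (U'.map B'.mkQ) ≤ finrank k (U.map B.mkQ) := by
  obtain ⟨q, hq⟩ := s2la_factor hB
  have h1 : U'.map B'.mkQ = (U'.map B.mkQ).map q := by rw [← hq, Submodule.map_comp]
  have h2 : U'.map B.mkQ ≤ U.map B.mkQ := Submodule.map_mono hU
  have h3 : FiniteDimensional k (U'.map B.mkQ) := Submodule.finiteDimensional_of_le h2
  rw [h1]
  exact ⟨inferInstance, (Submodule.finrank_map_le q _).trans (Submodule.finrank_mono h2)⟩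

theorem s2la_step {U U' B B' : Submodule k V} (hU : U' ≤ U) (hB : B ≤ B')
    (hfin : FiniteDimensional k (U.map B.mkQ))
    (heq : finrank k (U.map B.mkQ) ≤ finrank k (U'.map B'.mkQ)) :
    U ≤ U' ⊔ (U ⊓ B) ∧ U' ⊓ B' ≤ B := by
  obtain ⟨q, hq⟩ := s2la_factor hB
  have h1 : U'.map B'.mkQ = (U'.map B.mkQ).map q := by rw [← hq, Submodule.map_comp]
  have h2 : U'.map B.mkQ ≤ U.map B.mkQ := Submodule.map_mono hU
  have h3 : FiniteDimensional k (U'.map B.mkQ) := Submodule.finiteDimensional_of_le h2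
  rw [h1] at heq
  have h4 := Submodule.finrank_map_le q (U'.map B.mkQ)
  have h5 : finrank k (U'.map B.mkQ) ≤ finrank k (U.map B.mkQ) := Submodule.finrank_mono h2
  have h6 : U'.map B.mkQ = U.map B.mkQ := Submodule.eq_of_le_of_finrank_le h2 (heq.trans h4)
  constructor
  · intro u hu
    have h7 : B.mkQ u ∈ U'.map B.mkQ := by rw [h6]; exact Submodule.mem_map_of_mem hu
    obtain ⟨u', hu', h8⟩ := h7
    have h9 : u - u' ∈ B := by
      rw [← Submodule.ker_mkQ B, LinearMap.mem_ker, map_sub, h8, sub_self]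
    have h10 : u = u' + (u - u') := by abel
    rw [h10]
    exact Submodule.add_mem_sup hu' ⟨Submodule.sub_mem _ hu (hU hu'), h9⟩
  · rintro y ⟨hy, hy'⟩
    -- the kernel of `q` on the image of `U'` is trivial
    have h7 := LinearMap.finrank_range_add_finrank_ker (q.domRestrict (U'.map B.mkQ))
    have h8 : LinearMap.range (q.domRestrict (U'.map B.mkQ)) = (U'.map B.mkQ).map q := by
      ext z
      simp only [LinearMap.mem_range, Submodule.mem_map, LinearMap.domRestrict_apply, Subtype.exists, exists_prop]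
    rw [h8] at h7
    have h9 : finrank k (LinearMap.ker (q.domRestrict (U'.map B.mkQ))) = 0 := by omega
    have h10 : LinearMap.ker (q.domRestrict (U'.map B.mkQ)) = ⊥ := Submodule.finrank_eq_zero.1 h9
    have h11 : (⟨B.mkQ y, Submodule.mem_map_of_mem hy⟩ : U'.map B.mkQ) ∈
        LinearMap.ker (q.domRestrict (U'.map B.mkQ)) := by
      rw [LinearMap.mem_ker, LinearMap.domRestrict_apply]
      have h12 := LinearMap.congr_fun hq y
      rw [LinearMap.comp_apply] at h12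
      rw [h12]
      rw [← LinearMap.mem_ker, Submodule.ker_mkQ]
      exact hy'
    rw [h10, Submodule.mem_bot] at h11
    have h13 : B.mkQ y = 0 := congrArg Subtype.val h11
    rwa [← LinearMap.mem_ker, Submodule.ker_mkQ] at h13

theorem s2la_fin {U B : Submodule k V} {n₀ : ℕ}
    (h : ∀ (n : ℕ) (v : Fin n → V ⧸ B), LinearIndependent k v → (∀ j, v j ∈ U.map B.mkQ) → n ≤ n₀) :
    FiniteDimensional k (U.map B.mkQ) := by
  have h1 : Module.rank k (U.map B.mkQ) ≤ (n₀ : Cardinal) := by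
    refine rank_le (fun s hs => ?_)
    have h2 : LinearIndependent k (fun i : s => ((i : U.map B.mkQ) : V ⧸ B)) :=
      hs.map' (U.map B.mkQ).subtype (Submodule.ker_subtype _)
    have h3 := h s.card (fun j => (((s.equivFin.symm j : s) : U.map B.mkQ) : V ⧸ B))
      (h2.comp _ s.equivFin.symm.injective) (fun j => ((s.equivFin.symm j : s) : U.map B.mkQ).2)
    exact h3
  exact Module.rank_lt_aleph0_iff.1 (h1.trans_lt (Cardinal.natCast_lt_aleph0))

end lin

/-- **Bounded multiplicity implies stationary boxes.**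

Proof: `d m := ` the supremum of the `n` with `DSys w N m n` (`= dim U m / (U m ⊓ B m)`; `le_rank`, extend a basis) is finite and decreasing for
`m ≥ m₀` (`U (m+1) ≤ U m`, `B m ≤ B (m+1)`, job WA), so it is constant from some `m₁` on. If `d m = d (m+1)`: `Q_{m+1} = U (m+1) / (U (m+1) ⊓ B (m+1))` is a quotient
of the subspace `U (m+1) / (U (m+1) ⊓ B m)` of `Q_m`, so `U m ≤ U (m+1) ⊔ (U m ⊓ B m)` and `U (m+1) ⊓ B (m+1) ≤ B m`. -/
theorem stab_of_bound (w : Str S) (N : Md D k) (m₀ n₀ : ℕ) (h : ∀ n, DSys w N m₀ n → n ≤ n₀) :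
    ∃ m₁, ∀ m ≥ m₁, N.Q.U S m (w.L.v 0) (w.L.wd 0) ≤
        N.Q.U S (m + 1) (w.L.v 0) (w.L.wd 0) ⊔ (N.Q.U S m (w.L.v 0) (w.L.wd 0) ⊓ N.Q.B S m (w.L.v 0) (w.L.wd 0)) ∧
      N.Q.U S (m + 1) (w.L.v 0) (w.L.wd 0) ⊓ N.Q.B S (m + 1) (w.L.v 0) (w.L.wd 0) ≤
        N.Q.B S m (w.L.v 0) (w.L.wd 0) := by
  set U : ℕ → Submodule k N.C := fun m => N.Q.U S m (w.L.v 0) (w.L.wd 0) with hU
  set B : ℕ → Submodule k N.C := fun m => N.Q.B S m (w.L.v 0) (w.L.wd 0) with hB
  have hUa : ∀ m n, m ≤ n → U n ≤ U m := fun m n hmn => N.Q.U_anti S hmn _ _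
  have hBm : ∀ m n, m ≤ n → B m ≤ B n := fun m n hmn => N.Q.B_mono S hmn _ _
  have hfin0 : FiniteDimensional k ((U m₀).map (B m₀).mkQ) := by
    refine s2la_fin (n₀ := n₀) (fun n v hv hvU => ?_)
    obtain ⟨x, f, h1, h2, h3⟩ := s2la_dual v hv hvU
    exact h n ⟨x, f, h1, h2, h3⟩
  have hfin : ∀ m ≥ m₀, FiniteDimensional k ((U m).map (B m).mkQ) := fun m hm =>
    (s2la_anti (hUa m₀ m hm) (hBm m₀ m hm) hfin0).1
  set d : ℕ → ℕ := fun m => finrank k ((U m).map (B m).mkQ) with hd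
  have hanti : ∀ m n, m₀ ≤ m → m ≤ n → d n ≤ d m := fun m n hm hmn =>
    (s2la_anti (hUa m n hmn) (hBm m n hmn) (hfin m hm)).2
  obtain ⟨m₁, h1, h2⟩ : ∃ m₁, m₀ ≤ m₁ ∧ ∀ m, m₀ ≤ m → d m₁ ≤ d m := by
    have hne : (d '' Set.Ici m₀).Nonempty := ⟨d m₀, m₀, Set.mem_Ici.2 le_rfl, rfl⟩
    obtain ⟨m₁, h1, h2⟩ := Nat.sInf_mem hne
    exact ⟨m₁, h1, fun m hm => by rw [h2]; exact Nat.sInf_le ⟨m, hm, rfl⟩⟩
  refine ⟨m₁, fun m hm => ?_⟩
  exact s2la_step (hUa m (m + 1) (Nat.le_succ m)) (hBm m (m + 1) (Nat.le_succ m)) (hfin m (h1.trans hm))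
    ((hanti m₁ m h1 hm).trans (h2 (m + 1) (by omega)))

end StrAlg
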