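import Pool.Agent.Lib.MP_b9fd58_lc.WUa
import Pool.Agent.Lib.MP_b9fd58_lc.OAa
import Pool.Agent.Lib.MP_b9fd58_lc.GHom2

/-!
# Stage 2, job S2Mb: band modules are not open at aperiodic strings
-/

set_option autoImplicit false

namespace StrAlg

open Module

variable {D : Dat} {k : Type} [Field k] {S : Sides D}

theorem s2mb_ar {N : Type} [AddCommGroup N] [Module k N] {W : Type} [AddCommGroup W] [Module k W]
    {nx : Fin D.nV → Bool → Fin 3 → Fin D.nV × Bool} {Q : QMod D k N} {A : Ends (Fin D.nV) (Fin D.nE)}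
    {X Y : Ln (Fin D.nV) nx} {f : ℤ → N} {ξ : ℤ → N →ₗ[k] W} {a b : ℤ} (h : ChAt Q A X f a) (h' : DcW Q A Y ξ b) :
    ArAt A X Y (fun a b => ξ b (f a)) a b := by
  intro α
  have h1 := h'.2 α (f a)
  rw [h.2 α, map_sum] at h1
  rw [← h1]
  refine Finset.sum_congr rfl ?_
  intro e _
  split_ifs
  · rfl
  · rw [map_zero]

/-- the two words agree up to the depth `R` -/
def S2mbP (w b : Str S) (p : ℤ) (R : ℕ) : Prop :=
  w.L.v 0 = b.L.v p ∧ ∀ e, AgD w.L b.L (w.L.r 0 == b.L.r p) e 0 p R

theorem s2mb_window (w : Str S) (b : Str S) (l : ℕ) (hl : 0 < l) {V : Type} [AddCommGroup V] [Module k V]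
    (T : V ≃ₗ[k] V) (h : b.PerOK l T) (ho : w.Open (b.ME l T h)) (R : ℕ) : ∃ x : ZMod l, S2mbP w b (cst x) R := by
  have : NeZero l := ⟨by omega⟩
  obtain ⟨g, ξ, hgξ⟩ := ho R
  have h0 := hgξ 0 Ln.Reach.refl (by simp)
  -- a residue
  have hdec := ME_decomp h (g 0) Finset.univ (fun x hx => absurd (Finset.mem_univ x) hx)
  obtain ⟨x, -, hx⟩ : ∃ x ∈ (Finset.univ : Finset (ZMod l)), ξ 0 (ioE h (cst x) (cfE h (g 0) (cst x))) ≠ 0 := by
    by_contra hcon
    push Not at hcon
    have h1 : ξ 0 (g 0) = 0 := by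
      rw [hdec, map_sum]
      exact Finset.sum_eq_zero hcon
    rw [h0.2.2] at h1
    exact one_ne_zero h1
  refine ⟨x, ?_⟩
  generalize cst x = p at hx
  have hv : cfE h (g 0) p ≠ 0 := by
    intro hz
    rw [hz, map_zero, map_zero] at hx
    exact hx rfl
  set v := cfE h (g 0) p with hvdef
  -- the vertex
  have hvx : w.L.v 0 = b.L.v p := by
    have h1 := (xiE_dc h p).1 (w.L.v 0) (g 0)
    rw [h0.1.1, if_pos rfl] at h1
    by_contra hcon
    rw [if_neg (fun hh => hcon hh.symm)] at h1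
    exact hv h1
  refine ⟨hvx, ?_⟩
  set o := (w.L.r 0 == b.L.r p) with hodef
  have ho' : (b.L.r p == w.L.r 0) = o := by
    rw [hodef]
    cases b.L.r p <;> cases w.L.r 0 <;> rfl
  have hm : Mt w.L b.L o 0 p := ⟨hvx, rfl⟩
  have hm' : Mt b.L w.L o p 0 := ⟨hvx.symm, ho'⟩
  have hoo : ∀ e : Bool, ((e == o) == o) = e := fun e => WFb_beq1 e o
  have key : ∀ n ≤ R, ∀ e, AgD w.L b.L o e 0 p n := by
    intro n
    induction n with
    | zero => intro _ e; exact AgD.zero
    | succ n ih =>
      intro hn e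
      have h1 := ih (by omega)
      have hb1 : b.L.lt (e == o) (stn (e == o) n p) ≠ 1 := wua_lt_ne b (h.big hl) _ _
      -- first comparison
      have k1 : ¬ w.L.lt e (stn e n 0) < b.L.lt (e == o) (stn (e == o) n p) := by
        refine win_not_lt w.ok b.ok (K := fun a c => xiE h c (g a))
          (SX := fun q => w.L.Reach 0 q ∧ (q - 0).natAbs ≤ R) (SY := fun _ => True) ?_ hm hv (h1 e) ?_ ?_
        · intro a c ha _
          exact s2mb_ar (hgξ a ha.1 ha.2).1 (xiE_dc h c)
        · intro i hi hj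
          refine ⟨Ln.Reach.of_lt hj, ?_⟩
          cases e <;> simp <;> omega
        · intro i _ _
          trivial
      -- second comparison
      have k2 : ¬ b.L.lt (e == o) (stn (e == o) n p) < w.L.lt e (stn e n 0) := by
        have hag : AgD b.L w.L o (e == o) p 0 n := by
          intro i hi
          have h2 := h1 e i hi
          rw [hoo]
          exact ⟨h2.1.symm, by rw [← h2.1]; exact h2.2⟩
        have h3 := win_not_lt b.ok w.ok (K := fun a c => ξ c (ioE h a v))
          (SX := fun _ => True) (SY := fun q => w.L.Reach 0 q ∧ (q - 0).natAbs ≤ R) ?_ hm' hx hag ?_ ?_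
        · rw [hoo] at h3
          exact h3
        · intro a c _ hc
          exact chain_ar (ioE_ch h a v) (hgξ c hc.1 hc.2).2.1
        · intro i _ _
          trivial
        · intro i hi hj
          rw [hoo] at hj ⊢
          refine ⟨Ln.Reach.of_lt hj, ?_⟩
          cases e <;> simp <;> omega
      rw [AgD_succ']
      refine ⟨h1 e, ?_⟩
      have h4 : w.L.lt e (stn e n 0) = b.L.lt (e == o) (stn (e == o) n p) :=
        le_antisymm (not_lt.1 k2) (not_lt.1 k1)
      exact ⟨h4, by rw [h4]; exact hb1⟩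
  exact key R le_rfl

/-- A string which is open on the module `M(b, V)` of a band is bi-infinite periodic.

Proof: for every radius `R` there are a window chain `g` and a window dual chain `ξ` with `ξ_0 (g_0) = 1`; `g_0 = Σ_{x mod l} ι_x (g_0(x))` (`ME_decomp`), so for
some residue `x` both `g_0(x) ≠ 0` and `ξ_0 ∘ ι_x ≠ 0`. The families `a ↦ (q ↦ (g_q)(a))` etc. are kernels between `w` and `b`
(`ker_KH` or `loc_zero`/`win_not_lt` on the window): `g_0(x) ≠ 0` gives `LeD`-comparison `wd_b(x) ≤ wd_w(0)` up to depth `R`, `ξ_0 ι_x ≠ 0` gives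
`wd_w(0) ≤ wd_b(x)` up to depth `R`. So the words agree up to depth `R`. Finitely many residues: one works for infinitely many `R`; the words are equal, `Al.per`. -/
theorem not_open_ME (w : Str S) (hw : w.Aper) (b : Str S) (l : ℕ) (hl : 0 < l) {V : Type} [AddCommGroup V] [Module k V]
    (T : V ≃ₗ[k] V) (h : b.PerOK l T) : ¬ w.Open (b.ME l T h) := by
  intro ho
  have : NeZero l := ⟨by omega⟩
  have key : ∃ x : ZMod l, ∀ R, S2mbP w b (cst x) R := by
    by_contra hcon
    push Not at hcon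
    choose r hr using hcon
    obtain ⟨x, hx⟩ := s2mb_window w b l hl T h ho (Finset.univ.sup r)
    apply hr x
    exact ⟨hx.1, fun e => (hx.2 e).mono (Finset.le_sup (Finset.mem_univ x))⟩
  obtain ⟨x, hx⟩ := key
  have hal : Al w b 0 (cst x) := by
    refine WFb_of_mt (o := (w.L.r 0 == b.L.r (cst x))) ⟨(hx 0).1, rfl⟩ (fun e => ?_)
    funext n
    exact ((hx (n + 1)).2 e n (by omega)).1
  exact hw l hl (Al.per (b.Z_univ (h.big hl) _) Ln.Reach.refl hal.symm ⟨h.per, h.big hl⟩)

end StrAlg
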