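import Pool.Agent.Lib.MP_b9fd58_lc.S2La
import Pool.Agent.Lib.MP_b9fd58_lc.OAa
import Pool.Agent.Lib.MP_b9fd58_lc.GHom2

/-!
# Stage 2, job S2Ma: windows of dual systems; openness and direct sums
-/

set_option autoImplicit false

namespace StrAlg

open Module

variable {D : Dat} {k : Type} [Field k] {S : Sides D}

/-- the pairing is constant on a window -/
theorem s2ma_const {w : Str S} {N : Md D k} {R : ℕ} {g : ℤ → N.C} {ξ : ℤ → N.C →ₗ[k] k}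
    (hg : ∀ q ∈ w.Z, q.natAbs ≤ R → ChAt N.Q S.ends w.L g q) (hξ : ∀ q ∈ w.Z, q.natAbs ≤ R → DcAt N.Q S.ends w.L ξ q)
    (q : ℤ) (hq : q ∈ w.Z) (hn : q.natAbs ≤ R) : ξ q (g q) = ξ 0 (g 0) := by
  obtain ⟨e, j, rfl, hj⟩ := wmb_reach hq
  clear hq
  have h0 : ∀ j : ℕ, (stn e (j : ℤ) 0).natAbs = j := by
    intro j
    have := wmb_natAbs e j 0
    rwa [sub_zero] at this
  rw [h0] at hn
  induction j with
  | zero => simp only [Nat.cast_zero, stn_zero]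
  | succ j ih =>
    have h1 := ih (fun i hi => hj i (by omega)) (by omega)
    have hr : stn e (j : ℤ) 0 ∈ w.Z := Ln.Reach.of_lt (fun i hi => hj i (by omega))
    have hr' : stn e ((j + 1 : ℕ) : ℤ) 0 ∈ w.Z := Ln.Reach.of_lt hj
    have c1 := hg _ hr (by rw [h0]; omega)
    have c2 := hg _ hr' (by rw [h0]; omega)
    have d1 := hξ _ hr (by rw [h0]; omega)
    have d2 := hξ _ hr' (by rw [h0]; omega)
    have e1 := ESt_of_chAt (e := e) w.ok c1 (fun _ => by rw [wmb_st]; exact c2)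
    have e2 := DSt_of_dcAt (e := e) w.ok d1 (fun _ => by rw [wmb_st]; exact d2)
    rw [wmb_st] at e1 e2
    rw [pair_step w.ok (hj j (by omega)) e1 e2]
    exact h1

/-- A dual system at depth `R + 1` gives windows of radius `R` of chains and dual chains with pairings `δ_ij`. -/
theorem DSys.windows {w : Str S} {N : Md D k} {R n : ℕ} (h : DSys w N (R + 1) n) :
    ∃ (g : Fin n → ℤ → N.C) (ξ : Fin n → ℤ → N.C →ₗ[k] k), ∀ q ∈ w.Z, q.natAbs ≤ R →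
      (∀ j, ChAt N.Q S.ends w.L (g j) q) ∧ (∀ i, DcAt N.Q S.ends w.L (ξ i) q) ∧
      ∀ i j, ξ i q (g j q) = if i = j then 1 else 0 := by
  obtain ⟨x, f, hx, hf, hfx⟩ := h
  have hx' : ∀ j e, x j ∈ N.Q.up S (R + 1) (w.L.wdd e 0) (w.L.v 0) (w.L.sd e 0) := fun j => (mem_U_iff 0 (R + 1) (x j)).1 (hx j)
  have hxv : ∀ j, N.Q.op (Sum.inl (w.L.v 0)) (x j) = x j := fun j => ((mem_up_iff w.ok true 0 (R + 1) (x j)).1 (hx' j true)).1
  have hll : ∀ i, (f i ∘ₗ N.Q.op (Sum.inl (w.L.v 0))) ∘ₗ N.Q.op (Sum.inl (w.L.v 0)) = f i ∘ₗ N.Q.op (Sum.inl (w.L.v 0)) := by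
    intro i
    apply LinearMap.ext
    intro y
    rw [LinearMap.comp_apply, LinearMap.comp_apply, LinearMap.comp_apply, N.Q.idem]
  have hkill : ∀ i e, ∀ y ∈ N.Q.lo S (R + 1) (w.L.wdd e 0) (w.L.v 0) (w.L.sd e 0),
      (f i ∘ₗ N.Q.op (Sum.inl (w.L.v 0))) y = 0 := by
    intro i e y hy
    have h1 : y ∈ N.Q.vs (w.L.v 0) := N.Q.up_le_vs S _ _ _ _ (N.Q.lo_le_up S _ _ _ _ hy)
    have h2 : N.Q.op (Sum.inl (w.L.v 0)) y = y := QMod.mem_vs.1 h1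
    have h3 : y ∈ N.Q.B S (R + 1) (w.L.v 0) (w.L.wd 0) := by
      rw [B_eq]
      cases e
      · exact Submodule.mem_sup_left hy
      · exact Submodule.mem_sup_right hy
    rw [LinearMap.comp_apply, h2, hf i y h3]
  choose g hg0 hg using fun j => window_of_up w.ok 0 (R + 1) (x j) (hx' j)
  choose ξ hξ0 hξ using fun i => window_of_lo w.ok 0 (R + 1) _ (hll i) (hkill i)
  have hg' : ∀ j, ∀ q ∈ w.Z, q.natAbs ≤ R → ChAt N.Q S.ends w.L (g j) q := fun j q hq hn =>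
    hg j q hq (by rw [sub_zero]; omega)
  have hξ' : ∀ i, ∀ q ∈ w.Z, q.natAbs ≤ R → DcAt N.Q S.ends w.L (ξ i) q := fun i q hq hn =>
    hξ i q hq (by rw [sub_zero]; omega)
  refine ⟨g, ξ, fun q hq hn => ⟨fun j => hg' j q hq hn, fun i => hξ' i q hq hn, fun i j => ?_⟩⟩
  rw [s2ma_const (hg' j) (hξ' i) q hq hn, hg0, hξ0, LinearMap.comp_apply, hxv, hfx]

/-- A string that is open on a direct sum is open on one of the summands. -/
theorem Str.Open_dec {N M₁ M₂ : Md D k} (h : N.Dec M₁ M₂) (w : Str S) (hw : w.Open N) : w.Open M₁ ∨ w.Open M₂ := by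
  obtain ⟨i₁, r₁, i₂, r₂, hi₁, hr₁, hi₂, hr₂, -, -, -, -, hid⟩ := h
  -- a nonzero pairing through `M` gives a window on `M`
  have key : ∀ (M : Md D k) (i : M.C →ₗ[k] N.C) (r : N.C →ₗ[k] M.C), M.Hom N i → N.Hom M r →
      ∀ (R : ℕ) (g : ℤ → N.C) (ξ : ℤ → N.C →ₗ[k] k), (∀ q, w.L.Reach 0 q → (q - 0).natAbs ≤ R →
        ChAt N.Q S.ends w.L g q ∧ DcAt N.Q S.ends w.L ξ q ∧ ξ q (g q) = 1) → ξ 0 (i (r (g 0))) ≠ 0 →
      ∃ (g' : ℤ → M.C) (ξ' : ℤ → M.C →ₗ[k] k), ∀ q, w.L.Reach 0 q → (q - 0).natAbs ≤ R →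
        ChAt M.Q S.ends w.L g' q ∧ DcAt M.Q S.ends w.L ξ' q ∧ ξ' q (g' q) = 1 := by
    intro M i r hi hr R g ξ hgξ hne
    have h1 : ∀ q ∈ w.Z, q.natAbs ≤ R → ChAt M.Q S.ends w.L (fun q => ((ξ 0 (i (r (g 0))))⁻¹ • r) (g q)) q := by
      intro q hq hn
      refine ChAt.map (hgξ q hq (by rwa [sub_zero])).1 ?_
      intro x n
      rw [LinearMap.smul_apply, hr, LinearMap.smul_apply, map_smul]
    have h2 : ∀ q ∈ w.Z, q.natAbs ≤ R → DcAt M.Q S.ends w.L (fun q => ξ q ∘ₗ i) q := by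
      intro q hq hn
      exact DcW_iff.1 (DcW.comp (DcW_iff.2 (hgξ q hq (by rwa [sub_zero])).2.1) hi)
    refine ⟨_, _, fun q hq hn => ⟨h1 q hq (by rwa [sub_zero] at hn), h2 q hq (by rwa [sub_zero] at hn), ?_⟩⟩
    rw [s2ma_const h1 h2 q hq (by rwa [sub_zero] at hn)]
    rw [LinearMap.comp_apply, LinearMap.smul_apply, map_smul, map_smul, smul_eq_mul, inv_mul_cancel₀ hne]
  by_contra hcon
  rw [not_or] at hcon
  obtain ⟨h1, h2⟩ := hcon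
  unfold Str.Open HasWin at h1 h2
  push Not at h1 h2
  obtain ⟨R₁, h1⟩ := h1
  obtain ⟨R₂, h2⟩ := h2
  obtain ⟨g, ξ, hgξ⟩ := hw (max R₁ R₂)
  have h0 := (hgξ 0 Ln.Reach.refl (by simp)).2.2
  have h3 : ξ 0 (i₁ (r₁ (g 0))) + ξ 0 (i₂ (r₂ (g 0))) = 1 := by
    rw [← h0, ← map_add]
    congr 1
    exact LinearMap.congr_fun hid (g 0)
  rcases eq_or_ne (ξ 0 (i₁ (r₁ (g 0)))) 0 with h4 | h4
  · have h5 : ξ 0 (i₂ (r₂ (g 0))) ≠ 0 := by
      intro h5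
      rw [h4, h5, add_zero] at h3
      exact zero_ne_one h3
    obtain ⟨g', ξ', h6⟩ := key M₂ i₂ r₂ hi₂ hr₂ R₂ g ξ (fun q hq hn => hgξ q hq (hn.trans (le_max_right _ _))) h5
    obtain ⟨q, hq, hn, h7⟩ := h2 g' ξ'
    have h8 := h6 q hq hn
    exact h7 h8.1 h8.2.1 h8.2.2
  · obtain ⟨g', ξ', h6⟩ := key M₁ i₁ r₁ hi₁ hr₁ R₁ g ξ (fun q hq hn => hgξ q hq (hn.trans (le_max_left _ _))) h4
    obtain ⟨q, hq, hn, h7⟩ := h1 g' ξ'
    have h8 := h6 q hq hn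
    exact h7 h8.1 h8.2.1 h8.2.2

end StrAlg
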