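import Pool.Agent.Lib.MP_b9fd58_lc.If2Defs
import Pool.Agent.Lib.MP_b9fd58_lc.GThA
import Pool.Agent.Lib.MP_b9fd58_lc.S2B
import Pool.Agent.Lib.MP_b9fd58_lc.YB

/-!
# Stage 2, S2N: Theorem A with multiplicities
-/

set_option autoImplicit false

namespace StrAlg

open Module

variable {D : Dat} {k : Type} [Field k] {S : Sides D}

/-- **Theorem A with multiplicities.** -/
theorem thmA_mult (w : Str S) (hw : w.Aper) (p : NF S k) (hp : ¬ p.Crit w) :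
    ∃ R : ℕ, ∀ (N : Md D k) (n : ℕ) (g : Fin n → ℤ → N.C) (ξ : Fin n → ℤ → N.C →ₗ[k] k),
      (∀ q ∈ w.Z, q.natAbs ≤ R →
        (∀ j, ChAt N.Q S.ends w.L (g j) q) ∧ (∀ i, DcAt N.Q S.ends w.L (ξ i) q) ∧
        ∀ i j, ξ i q (g j q) = if i = j then 1 else 0) →
      (n : ℕ∞) ≤ p.pr.rk N := by
  obtain ⟨R, hR⟩ := p.rank_windows w hw hp
  exact ⟨R, fun N n g ξ h => hR N n g ξ (fun j q h1 h2 => (h q h1 h2).1 j) (fun i q h1 h2 => (h q h1 h2).2.1 i)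
    (fun i j q h1 h2 => (h q h1 h2).2.2 i j)⟩

end StrAlg
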