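import Pool.Agent.Lib.MP_b9fd58_lc.S2DivDef
import Pool.Agent.Lib.MP_b9fd58_lc.OIb
import Pool.Agent.Lib.MP_b9fd58_lc.T.TS
import Pool.Agent.Lib.MP_b9fd58_lc.T.TB

/-!
# Stage 2, job S2P: no torsion if all chains are in `K0`
-/

set_option autoImplicit false

namespace StrAlg

open Module Polynomial

variable {D : Dat} {k : Type} [Field k] {S : Sides D}

theorem s2p_iffR {b : Str S} (hlam : ∀ p, b.op.L.lam p ≠ 1) (p : ℤ) (a : _root_.Fin D.nE) :
    (b.L.lt true p = 2 ∧ S.ends.outA (b.L.v p) (b.L.sd true p) = some a) ↔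
      ((TT.bi b.op hlam).ty p = false ∧ (TT.bi b.op hlam).ar p = a) := by
  rw [← TT.bi_inR hlam p a]
  have h1 : b.op.L.lt true p = Fin.rev (b.L.lt true p) := Ln.op_lt b.L true p
  rw [h1, TT.rev_eq_zero]
  exact Iff.rfl

theorem s2p_iffL {b : Str S} (hlam : ∀ p, b.op.L.lam p ≠ 1) (p : ℤ) (a : _root_.Fin D.nE) :
    (b.L.lt false p = 2 ∧ S.ends.outA (b.L.v p) (b.L.sd false p) = some a) ↔
      ((TT.bi b.op hlam).ty (p - 1) = true ∧ (TT.bi b.op hlam).ar (p - 1) = a) := by
  rw [← TT.bi_inL hlam p a]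
  have h1 : b.op.L.lt false p = Fin.rev (b.L.lt false p) := Ln.op_lt b.L false p
  rw [h1, TT.rev_eq_zero]
  exact Iff.rfl

/-- the generator of the third kind in terms of `bi b.op` -/
theorem s2p_sum {b : Str S} (hlam : ∀ p, b.op.L.lam p ≠ 1) {X : Md D.op k} (q : ℤ) (α : _root_.Fin D.nE) (x : X.C) :
    (∑ e : Bool, if b.L.lt e q = 2 ∧ S.ends.outA (b.L.v q) (b.L.sd e q) = some α then
      (Finsupp.single (st e q) x : ℤ →₀ X.C) else 0) =
    (open Classical in if (TT.bi b.op hlam).ty (q - 1) = true ∧ (TT.bi b.op hlam).ar (q - 1) = α then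
      (Finsupp.single (q - 1) x : ℤ →₀ X.C) else 0) +
    (open Classical in if (TT.bi b.op hlam).ty q = false ∧ (TT.bi b.op hlam).ar q = α then
      (Finsupp.single (q + 1) x : ℤ →₀ X.C) else 0) := by
  classical
  rw [Fintype.sum_bool, add_comm]
  congr 1
  · exact if_congr (s2p_iffL hlam q α) rfl rfl
  · exact if_congr (s2p_iffR hlam q α) rfl rfl

/-- The relations `Lsp` of `b` in `X` (over the opposite data) are the relations `Lsub` of helper46's `brel` for `b.op`
(files R/RelC.lean, T/TA.lean, T/TS.lean).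

Proof: `≤`: the map `ξ p := Lsub.mkQ ∘ single p` satisfies the hypotheses of `TT.dual_op` (for `D.op`, `S.op`, `b.op`), whose conclusion is the relation for
the arrows; the relation for `inl i`, `i ≠ v q`, by `QMod.orth`. `≥`: a pair `(x, y) ∈ R p` is `y = α x` or `x = α y`, which is a generator of `Lsp`
(the other summand over `e` is zero because only one direction has the arrow `α`: `S.ends.outA` on both sides differ). -/
theorem Lsp_eq_Lsub (b : Str S) (l : ℕ) (hl : 0 < l) (hb : b.Per l) (X : Md D.op k) (hlam : ∀ p, b.op.L.lam p ≠ 1)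
    (hper : (TT.bi b.op hlam).Per l) : b.Lsp X = (TT.brel (TT.bi b.op hlam) hl hper X).Lsub := by
  set B := TT.brel (TT.bi b.op hlam) hl hper X with hB
  have hZ : ∀ p, p ∈ b.Z := b.Z_univ hb.2
  -- the two kinds of generators of `Lsub`
  have gR : ∀ p x y, (x, y) ∈ B.R p → Finsupp.single p x - Finsupp.single (p + 1) y ∈ B.Lsub :=
    fun p x y h => Submodule.subset_span (Or.inl ⟨p, x, y, h, rfl⟩)
  have gE : ∀ p x, Finsupp.single p x - Finsupp.single p (X.Q.op (Sum.inl ((TT.bi b.op hlam).v p)) x) ∈ B.Lsub :=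
    fun p x => Submodule.subset_span (Or.inr ⟨p, x, rfl⟩)
  let ξ : ℤ → X.C →ₗ[k] ((ℤ →₀ X.C) ⧸ B.Lsub) := fun p => B.Lsub.mkQ ∘ₗ Finsupp.lsingle p
  have hξ : ∀ p x, ξ p x = B.Lsub.mkQ (Finsupp.single p x) := fun p x => rfl
  have hv : ∀ p, ξ p ∘ₗ X.Q.op (Sum.inl ((TT.bi b.op hlam).v p)) = ξ p := by
    intro p
    refine LinearMap.ext fun x => ?_
    show ξ p (X.Q.op (Sum.inl ((TT.bi b.op hlam).v p)) x) = ξ p x
    rw [hξ, hξ, eq_comm, ← sub_eq_zero, ← map_sub, Submodule.mkQ_apply, Submodule.Quotient.mk_eq_zero]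
    exact gE p x
  have hT : ∀ p x, (TT.bi b.op hlam).ty p = true → X.Q.op (Sum.inl ((TT.bi b.op hlam).v p)) x = x →
      ξ (p + 1) (X.Q.op (Sum.inr ((TT.bi b.op hlam).ar p)) x) = ξ p x := by
    intro p x ht hx
    rw [hξ, hξ, eq_comm, ← sub_eq_zero, ← map_sub, Submodule.mkQ_apply, Submodule.Quotient.mk_eq_zero]
    refine gR p _ _ (TT.mem_brel.2 ⟨hx, ?_, fun _ => rfl, fun h => ?_⟩)
    · rw [← ((TT.bi b.op hlam).edgeT p ht).2.2.1]
      exact X.Q.tgt _ _
    · rw [ht] at h; exact absurd h (by decide)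
  have hF : ∀ p x, (TT.bi b.op hlam).ty p = false → X.Q.op (Sum.inl ((TT.bi b.op hlam).v (p + 1))) x = x →
      ξ p (X.Q.op (Sum.inr ((TT.bi b.op hlam).ar p)) x) = ξ (p + 1) x := by
    intro p x ht hx
    rw [hξ, hξ, ← sub_eq_zero, ← map_sub, Submodule.mkQ_apply, Submodule.Quotient.mk_eq_zero]
    refine gR p _ _ (TT.mem_brel.2 ⟨?_, hx, fun h => ?_, fun _ => rfl⟩)
    · rw [← ((TT.bi b.op hlam).edgeF p ht).1]
      exact X.Q.tgt _ _
    · rw [ht] at h; exact absurd h (by decide)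
  have hop := TT.dual_op (w := TT.bi b.op hlam) (N := X) hv hT hF
  apply le_antisymm
  · unfold Str.Lsp
    rw [Submodule.span_le]
    rintro z ((⟨q, x, hq, rfl⟩ | ⟨q, i, x, hq, rfl⟩) | ⟨q, α, x, hq, rfl⟩)
    · exact absurd (hZ q) hq
    · by_cases hi : b.L.v q = i
      · rw [if_pos hi, ← hi]
        exact gE q x
      · rw [if_neg hi]
        have h1 := gE q (X.Q.op (Sum.inl i) x)
        have h2 : X.Q.op (Sum.inl ((TT.bi b.op hlam).v q)) (X.Q.op (Sum.inl i) x) = 0 :=
          X.Q.orth _ _ _ (Ne.symm hi)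
        rw [h2, Finsupp.single_zero, sub_zero] at h1
        rw [zero_sub]
        exact Submodule.neg_mem _ h1
    · rw [s2p_sum hlam]
      show _ ∈ B.Lsub
      rw [← Submodule.Quotient.mk_eq_zero, ← Submodule.mkQ_apply, map_sub, map_add, sub_eq_zero]
      have h1 := hop α q x
      rw [hξ] at h1
      rw [h1]
      congr 1
      · by_cases hc : (TT.bi b.op hlam).ty (q - 1) = true ∧ (TT.bi b.op hlam).ar (q - 1) = α
        · rw [if_pos hc, if_pos hc]
          rfl
        · rw [if_neg hc, if_neg hc]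
          exact map_zero B.Lsub.mkQ
      · by_cases hc : (TT.bi b.op hlam).ty q = false ∧ (TT.bi b.op hlam).ar q = α
        · rw [if_pos hc, if_pos hc]
          rfl
        · rw [if_neg hc, if_neg hc]
          exact map_zero B.Lsub.mkQ
  · rw [SAlg.BRel.Lsub, Submodule.span_le]
    rintro z (⟨p, x, y, hxy, rfl⟩ | ⟨p, x, rfl⟩)
    · obtain ⟨h1, h2, h3, h4⟩ := TT.mem_brel.1 hxy
      cases ht : (TT.bi b.op hlam).ty p with
      | true =>
        obtain ⟨α, hα⟩ : ∃ α : _root_.Fin D.nE, (TT.bi b.op hlam).ar p = α := ⟨_, rfl⟩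
        have h3' : X.Q.op (Sum.inr α) x = y := by rw [← hα]; exact h3 ht
        have hg : (∑ e : Bool, if b.L.lt e (p + 1) = 2 ∧ S.ends.outA (b.L.v (p + 1)) (b.L.sd e (p + 1)) =
            some α then (Finsupp.single (st e (p + 1)) x : ℤ →₀ X.C) else 0) -
            Finsupp.single (p + 1) (X.Q.op (Sum.inr α) x) ∈ b.Lsp X :=
          Submodule.subset_span (Or.inr ⟨p + 1, _, x, hZ _, rfl⟩)
        have ht' : (TT.bi b.op hlam).ty (p + 1 - 1) = true ∧ (TT.bi b.op hlam).ar (p + 1 - 1) = α := by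
          rw [add_sub_cancel_right]; exact ⟨ht, hα⟩
        rw [s2p_sum hlam (p + 1) α x, h3', if_pos ht', if_neg, add_zero, add_sub_cancel_right] at hg
        · exact hg
        · rintro ⟨h5, h6⟩
          obtain ⟨-, -, -, e1⟩ := (TT.bi b.op hlam).edgeT p ht
          obtain ⟨-, e2, -, -⟩ := (TT.bi b.op hlam).edgeF (p + 1) h5
          rw [h6, ← hα, e1] at e2
          cases hh : (TT.bi b.op hlam).rs (p + 1) <;> rw [hh] at e2 <;> exact absurd e2 (by decide)
      | false =>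
        obtain ⟨α, hα⟩ : ∃ α : _root_.Fin D.nE, (TT.bi b.op hlam).ar p = α := ⟨_, rfl⟩
        have h4' : X.Q.op (Sum.inr α) y = x := by rw [← hα]; exact h4 ht
        have hg : (∑ e : Bool, if b.L.lt e p = 2 ∧ S.ends.outA (b.L.v p) (b.L.sd e p) =
            some α then (Finsupp.single (st e p) y : ℤ →₀ X.C) else 0) -
            Finsupp.single p (X.Q.op (Sum.inr α) y) ∈ b.Lsp X :=
          Submodule.subset_span (Or.inr ⟨p, _, y, hZ _, rfl⟩)
        have ht' : (TT.bi b.op hlam).ty p = false ∧ (TT.bi b.op hlam).ar p = α := ⟨ht, hα⟩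
        rw [s2p_sum hlam p α y, h4', if_pos ht', if_neg, zero_add] at hg
        · have h5 := Submodule.neg_mem _ hg
          rw [neg_sub] at h5
          exact h5
        · rintro ⟨h5, h6⟩
          obtain ⟨-, -, -, e1⟩ := (TT.bi b.op hlam).edgeT (p - 1) h5
          obtain ⟨-, e2, -, -⟩ := (TT.bi b.op hlam).edgeF p ht
          rw [sub_add_cancel, h6, ← hα, e2] at e1
          cases hh : (TT.bi b.op hlam).rs p <;> rw [hh] at e1 <;> exact absurd e1 (by decide)
    · refine Submodule.subset_span (Or.inl (Or.inr ⟨p, b.L.v p, x, hZ _, ?_⟩))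
      rw [if_pos rfl]
      rfl

/-- transport of polynomials in an endomorphism -/
theorem s2p_aeval_map {M N : Type} [AddCommGroup M] [Module k M] [AddCommGroup N] [Module k N]
    (φ : M →ₗ[k] M) (ψ : N →ₗ[k] N) (g : M →ₗ[k] N) (h : ∀ x, g (φ x) = ψ (g x)) (f : k[X]) (z : M) :
    g (aeval φ f z) = aeval ψ f (g z) := by
  have hp : ∀ (n : ℕ) (x : M), g ((φ ^ n) x) = (ψ ^ n) (g x) := by
    intro n
    induction n with
    | zero => intro x; simp
    | succ n ih => intro x; rw [pow_succ', pow_succ', Module.End.mul_apply, Module.End.mul_apply, h, ih]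
  rw [aeval_eq_sum_range, aeval_eq_sum_range, LinearMap.sum_apply, LinearMap.sum_apply, map_sum]
  refine Finset.sum_congr rfl fun i _ => ?_
  rw [LinearMap.smul_apply, LinearMap.smul_apply, map_smul, hp]

/-- reversing a polynomial -/
theorem s2p_reverse {M : Type} [AddCommGroup M] [Module k M] (φ ψ : M →ₗ[k] M) (h : ∀ x, ψ (φ x) = x)
    (f : k[X]) (h0 : f.coeff 0 ≠ 0) : ∃ g : k[X], g ≠ 0 ∧ ∀ z, (ψ ^ f.natDegree) (aeval φ f z) = aeval ψ g z := by
  refine ⟨∑ i ∈ Finset.range (f.natDegree + 1), C (f.coeff i) * X ^ (f.natDegree - i), ?_, ?_⟩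
  · intro hg
    have h1 := congrArg (fun q => q.coeff f.natDegree) hg
    simp only [finsetSum_coeff, coeff_C_mul, coeff_X_pow, coeff_zero] at h1
    rw [Finset.sum_eq_single 0] at h1
    · simp at h1
      exact h0 h1
    · intro i hi hi0
      rw [Finset.mem_range] at hi
      rw [if_neg (by omega), mul_zero]
    · intro hn
      exact absurd (Finset.mem_range.2 (Nat.succ_pos _)) hn
  · intro z
    have hp : ∀ (i : ℕ) (x : M), (ψ ^ i) ((φ ^ i) x) = x := by
      intro i
      induction i with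
      | zero => intro x; simp
      | succ i ih => intro x; rw [pow_succ, pow_succ', Module.End.mul_apply, Module.End.mul_apply, h, ih]
    rw [aeval_eq_sum_range, LinearMap.sum_apply, map_sum, map_sum, LinearMap.sum_apply]
    refine Finset.sum_congr rfl fun i hi => ?_
    rw [Finset.mem_range] at hi
    rw [LinearMap.smul_apply, map_smul, map_mul, aeval_C, map_pow, aeval_X, Module.End.mul_apply,
      Module.algebraMap_end_apply]
    congr 1
    have h2 : f.natDegree = (f.natDegree - i) + i := by omega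
    conv_lhs => rw [h2]
    rw [pow_add, Module.End.mul_apply, hp]

/-- `PX` has no torsion if all chains are in `K0` -/
theorem s2p_main (b : Str S) (l : ℕ) (hl : 0 < l) (X : Md D.op k) (hX : X.Nice) (hlam : ∀ p, b.op.L.lam p ≠ 1)
    (hper : (TT.bi b.op hlam).Per l) (hK : ∀ n ∈ b.op.Q X, b.op.K0 X n) (f : k[X]) (hf : f ≠ 0) (z : ℤ →₀ X.C)
    (hz : aeval (TT.brel (TT.bi b.op hlam) hl hper X).S0 f z ∈ (TT.brel (TT.bi b.op hlam) hl hper X).Lsub) :
    z ∈ (TT.brel (TT.bi b.op hlam) hl hper X).Lsub := by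
  set B := TT.brel (TT.bi b.op hlam) hl hper X with hB
  have hC := TT.cfam_of_sat hX.sat
  have h1 : f • SAlg.EM.of B.TP (B.Lsub.mkQ z) = B.nu 0 := by
    rw [SAlg.EM.smul_of, map_zero]
    have h2 : aeval B.TP f (B.Lsub.mkQ z) = B.Lsub.mkQ (aeval B.S0 f z) :=
      (s2p_aeval_map B.S0 B.TP B.Lsub.mkQ (fun x => rfl) f z).symm
    rw [h2]
    have h3 : B.Lsub.mkQ (aeval B.S0 f z) = 0 := by
      rw [Submodule.mkQ_apply, Submodule.Quotient.mk_eq_zero]
      exact hz
    rw [h3, map_zero]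
  obtain ⟨x', hx'⟩ := B.torsionFree
    (fun y n₀ h => B.S1_of hC (fun m => TT.UR_isPT hl hper m 0) (fun m => TT.UR_rev_isPT hl hper m 0)
      (fun m => TT.LR_isPT hl hper m 0) (fun m => TT.LR_rev_isPT hl hper m 0) y n₀ h)
    (fun u hu => B.S2_of hC (TT.UR_isPT hl hper) (TT.UR_rev_isPT hl hper)
      (by
        intro p
        rw [hB, TT.Zr_eq]
        exact TT.pre_rev_isPT hl hper _ ⟨PT.bot, rfl⟩)
      (by
        intro p
        rw [hB, TT.Zr_rev_eq]
        exact TT.pre_isPT hl hper _ ⟨PT.bot, rfl⟩) u hu) f hf _ 0 h1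
  have hch : (fun p => B.val x' p) ∈ b.op.Q X := by
    rw [TT.Q_bi hlam, TT.BCh_iff hl hper X]
    exact B.val_rel x'
  obtain ⟨a, ha, c, hc, hac, ⟨m1, e1⟩, ⟨m2, e2⟩⟩ := hK _ hch
  rw [TT.Q_bi hlam, TT.BCh_iff hl hper X] at ha hc
  have hx0 : x' ∈ B.K0 := by
    have h4 : x' = B.mkQ a ha + B.mkQ c hc := B.ext_val fun p => by
      rw [SAlg.BRel.val_add]
      have e3 : B.val (B.mkQ a ha) p = a p := SAlg.BRel.val_mkQ _ _ _ _
      have e4 : B.val (B.mkQ c hc) p = c p := SAlg.BRel.val_mkQ _ _ _ _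
      exact (congrFun hac p).trans (congrArg₂ (· + ·) e3.symm e4.symm)
    rw [h4]
    refine Submodule.add_mem_sup ⟨m1, fun p hp => ?_⟩ ⟨m2, fun p hp => ?_⟩
    · exact (SAlg.BRel.val_mkQ _ _ _ _).trans (e1 p hp)
    · exact (SAlg.BRel.val_mkQ _ _ _ _).trans (e2 p hp)
  rw [B.nu_K0 x' hx0] at hx'
  have h5 : B.Lsub.mkQ z = 0 := by
    have h6 : (SAlg.EM.of B.TP) (B.Lsub.mkQ z) = 0 := hx'.symm
    rwa [LinearEquiv.map_eq_zero_iff] at h6
  rwa [Submodule.mkQ_apply, Submodule.Quotient.mk_eq_zero] at h5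

/-- **No torsion.** (`BRel.torsionFree` as in `TT.exists_splitT`: `r • η = 0 = nu 0` gives `η = nu x'`, and `nu x' = 0` since `x' ∈ K0`; `BRel.nu_K0`.
For the shifts in the direction `e = true`: `ShF true l` and `ShF false l` are inverse to each other, replace `f` by its reversed polynomial.) -/
theorem TF_of_K0 (b : Str S) (l : ℕ) (hl : 0 < l) (hb : b.Per l) (X : Md D.op k) (hX : X.Nice)
    (hK : ∀ n ∈ b.op.Q X, b.op.K0 X n) : TF b l X := by
  have hlam : ∀ p, b.op.L.lam p ≠ 1 := fun p => Ln.rev_ne_one.2 (hb.2 p)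
  have hbop : b.op.Per l := by
    refine ⟨⟨fun p => congrArg Fin.rev (hb.1.lam p), hb.1.v, hb.1.r⟩, hlam⟩
  have hper : (TT.bi b.op hlam).Per l := TT.bi_per hlam hbop
  have hsub := Lsp_eq_Lsub b l hl hb X hlam hper
  have hS0 : ShF k X.C false l = (TT.brel (TT.bi b.op hlam) hl hper X).S0 := rfl
  intro e f hf z hz
  rw [hsub] at hz ⊢
  cases e with
  | false =>
    rw [hS0] at hz
    exact s2p_main b l hl X hX hlam hper hK f (fun h => hf (by rw [h, coeff_zero])) z hz
  | true =>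
    have hinv : ∀ x, (TT.brel (TT.bi b.op hlam) hl hper X).S0 (ShF k X.C true l x) = x := by
      intro x
      rw [← hS0]
      unfold ShF
      rw [← LinearMap.comp_apply, ← Finsupp.lmapDomain_comp]
      have h1 : ((fun p => stn false l p) ∘ (fun p => stn true l p) : ℤ → ℤ) = id := by
        funext p
        simp
      rw [h1, Finsupp.lmapDomain_id]
      rfl
    obtain ⟨g, hg, hgz⟩ := s2p_reverse (ShF k X.C true l) (TT.brel (TT.bi b.op hlam) hl hper X).S0 hinv f hf
    refine s2p_main b l hl X hX hlam hper hK g hg z ?_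
    rw [← hgz]
    have h2 : ∀ (n : ℕ) (y : ℤ →₀ X.C), y ∈ (TT.brel (TT.bi b.op hlam) hl hper X).Lsub →
        ((TT.brel (TT.bi b.op hlam) hl hper X).S0 ^ n) y ∈ (TT.brel (TT.bi b.op hlam) hl hper X).Lsub := by
      intro n
      induction n with
      | zero => intro y hy; simpa using hy
      | succ n ih =>
        intro y hy
        rw [pow_succ', Module.End.mul_apply]
        exact (TT.brel (TT.bi b.op hlam) hl hper X).Lsub_S0 (ih y hy)
    exact h2 _ _ hz

end StrAlg
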