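import Pool.Agent.Lib.MP_b9fd58_lc.S2M
import Pool.Agent.Lib.MP_b9fd58_lc.S2C
import Pool.Agent.Lib.MP_b9fd58_lc.OJb

/-!
# Stage 2, job S2Q: splitting off bands from the dual module
-/

set_option autoImplicit false

namespace StrAlg

open Module

variable {D : Dat} {k : Type} [Field k] {S : Sides D}

theorem s2q_Q_map {w : Str S} {M N : Md D k} (f : M.C →ₗ[k] N.C) (hf : M.Hom N f) {n : ℤ → M.C} (hn : n ∈ w.Q M) :
    (fun p => f (n p)) ∈ w.Q N := by
  refine ⟨fun q => ⟨fun i => ?_, fun a => ?_⟩, fun q hq => ?_⟩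
  · show N.Q.op (Sum.inl i) (f (n q)) = _
    rw [← hf, (hn.1 q).1 i]
    split_ifs
    · rfl
    · exact map_zero f
  · show N.Q.op (Sum.inr a) (f (n q)) = _
    rw [← hf, (hn.1 q).2 a, map_sum]
    refine Finset.sum_congr rfl fun e _ => ?_
    split_ifs
    · rfl
    · exact map_zero f
  · show f (n q) = 0
    rw [hn.2 q hq, map_zero]

theorem s2q_hom_codual {M N : Md D.op k} (f : M.C →ₗ[k] N.C) (hf : M.Hom N f) :
    N.codual.Hom M.codual f.dualMap := by
  intro g φ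
  refine LinearMap.ext fun n => ?_
  exact congrArg (fun x => (show N.C →ₗ[k] k from φ) x) (hf g n).symm

/-- duals of decompositions -/
theorem Md.Dec.codual {N M₁ M₂ : Md D.op k} (h : N.Dec M₁ M₂) : N.codual.Dec M₁.codual M₂.codual := by
  obtain ⟨i₁, r₁, i₂, r₂, hi₁, hr₁, hi₂, hr₂, e11, e22, e12, e21, es⟩ := h
  refine ⟨r₁.dualMap, i₁.dualMap, r₂.dualMap, i₂.dualMap, s2q_hom_codual _ hr₁, s2q_hom_codual _ hi₁,
    s2q_hom_codual _ hr₂, s2q_hom_codual _ hi₂, ?_, ?_, ?_, ?_, ?_⟩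
  · refine LinearMap.ext fun f => LinearMap.ext fun n => ?_
    exact congrArg (fun x => (show M₁.C →ₗ[k] k from f) x) (LinearMap.congr_fun e11 n)
  · refine LinearMap.ext fun f => LinearMap.ext fun n => ?_
    exact congrArg (fun x => (show M₂.C →ₗ[k] k from f) x) (LinearMap.congr_fun e22 n)
  · refine LinearMap.ext fun f => LinearMap.ext fun n => ?_
    have h1 := congrArg (fun x => (show M₂.C →ₗ[k] k from f) x) (LinearMap.congr_fun e21 n)
    exact h1.trans (map_zero (show M₂.C →ₗ[k] k from f))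
  · refine LinearMap.ext fun f => LinearMap.ext fun n => ?_
    have h1 := congrArg (fun x => (show M₁.C →ₗ[k] k from f) x) (LinearMap.congr_fun e12 n)
    exact h1.trans (map_zero (show M₁.C →ₗ[k] k from f))
  · refine LinearMap.ext fun f => LinearMap.ext fun n => ?_
    have h1 := congrArg (fun x => (show N.C →ₗ[k] k from f) x) (LinearMap.congr_fun es n)
    exact (map_add (show N.C →ₗ[k] k from f) _ _).symm.trans h1

theorem Md.Dec.assoc {N M₁ M₂ M₃ M₄ : Md D k} (h : N.Dec M₁ M₂) (h' : M₂.Dec M₃ M₄) : N.Dec (M₁.prod M₃) M₄ := by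
  obtain ⟨i₁, r₁, i₂, r₂, hi₁, hr₁, hi₂, hr₂, e11, e22, e12, e21, es⟩ := h
  obtain ⟨i₃, r₃, i₄, r₄, hi₃, hr₃, hi₄, hr₄, e33, e44, e34, e43, es'⟩ := h'
  have g11 : ∀ x, r₁ (i₁ x) = x := fun x => LinearMap.congr_fun e11 x
  have g22 : ∀ x, r₂ (i₂ x) = x := fun x => LinearMap.congr_fun e22 x
  have g12 : ∀ x, r₁ (i₂ x) = 0 := fun x => LinearMap.congr_fun e12 x
  have g21 : ∀ x, r₂ (i₁ x) = 0 := fun x => LinearMap.congr_fun e21 x
  have gs : ∀ x, i₁ (r₁ x) + i₂ (r₂ x) = x := fun x => LinearMap.congr_fun es x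
  have g33 : ∀ x, r₃ (i₃ x) = x := fun x => LinearMap.congr_fun e33 x
  have g44 : ∀ x, r₄ (i₄ x) = x := fun x => LinearMap.congr_fun e44 x
  have g34 : ∀ x, r₃ (i₄ x) = 0 := fun x => LinearMap.congr_fun e34 x
  have g43 : ∀ x, r₄ (i₃ x) = 0 := fun x => LinearMap.congr_fun e43 x
  have gs' : ∀ x, i₃ (r₃ x) + i₄ (r₄ x) = x := fun x => LinearMap.congr_fun es' x
  refine ⟨(i₁.coprod (i₂ ∘ₗ i₃) : M₁.C × M₃.C →ₗ[k] N.C), (r₁.prod (r₃ ∘ₗ r₂) : N.C →ₗ[k] M₁.C × M₃.C),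
    i₂ ∘ₗ i₄, r₄ ∘ₗ r₂, ?_, ?_, hi₄.comp' hi₂, hr₂.comp' hr₄, ?_, ?_, ?_, ?_, ?_⟩
  · rintro g ⟨x, y⟩
    show i₁ (M₁.Q.op g x) + i₂ (i₃ (M₃.Q.op g y)) = N.Q.op g (i₁ x + i₂ (i₃ y))
    rw [map_add, hi₁ g x, hi₃ g y, hi₂ g (i₃ y)]
  · intro g x
    show (r₁ (N.Q.op g x), r₃ (r₂ (N.Q.op g x))) = (M₁.Q.op g (r₁ x), M₃.Q.op g (r₃ (r₂ x)))
    rw [hr₁ g x, hr₂ g x, hr₃ g (r₂ x)]
  · refine LinearMap.ext fun x => ?_
    show (r₁ (i₁ x.1 + i₂ (i₃ x.2)), r₃ (r₂ (i₁ x.1 + i₂ (i₃ x.2)))) = (x.1, x.2)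
    rw [map_add, map_add, g11, g12, g21, g22, add_zero, zero_add, g33]
  · refine LinearMap.ext fun x => ?_
    show r₄ (r₂ (i₂ (i₄ x))) = x
    rw [g22, g44]
  · refine LinearMap.ext fun x => ?_
    show (r₁ (i₂ (i₄ x)), r₃ (r₂ (i₂ (i₄ x)))) = ((0 : M₁.C), (0 : M₃.C))
    rw [g12, g22, g34]
  · refine LinearMap.ext fun x => ?_
    show r₄ (r₂ (i₁ x.1 + i₂ (i₃ x.2))) = 0
    rw [map_add, g21, g22, zero_add, g43]
  · refine LinearMap.ext fun x => ?_
    show (i₁ (r₁ x) + i₂ (i₃ (r₃ (r₂ x)))) + i₂ (i₄ (r₄ (r₂ x))) = x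
    rw [add_assoc, ← map_add, gs' (r₂ x), gs]

/-- `K0` passes to direct summands -/
theorem K0_ret (b : Str S) {M N : Md D k} (h : M.Ret N) (hK : ∀ n ∈ b.Q N, b.K0 N n) : ∀ n ∈ b.Q M, b.K0 M n := by
  obtain ⟨i, r, hi, hr, hri⟩ := h
  intro n hn
  obtain ⟨a, ha, c, hc, hac, ⟨m1, h1⟩, ⟨m2, h2⟩⟩ := hK _ (s2q_Q_map i hi hn)
  refine ⟨_, s2q_Q_map r hr ha, _, s2q_Q_map r hr hc, ?_, ⟨m1, fun p hp => ?_⟩, ⟨m2, fun p hp => ?_⟩⟩
  · funext p
    have h3 : i (n p) = a p + c p := congrFun hac p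
    have h4 : r (i (n p)) = n p := LinearMap.congr_fun hri (n p)
    show n p = r (a p) + r (c p)
    rw [← map_add, ← h3, h4]
  · show r (a p) = 0
    rw [h1 p hp, map_zero]
  · show r (c p) = 0
    rw [h2 p hp, map_zero]

/-- the dual of a band module over the opposite data is not open at aperiodic strings (`ME_codual` for the evaluation pairing and the dual
space `Dual k W`: it is isomorphic to a module `b.ME l T' h'`; `not_open_ME`, `Str.Open_ret`, `oih_iso_ret`) -/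
theorem not_open_codual_ME (w : Str S) (hw : w.Aper) (b : Str S) (l : ℕ) (hl : 0 < l) {W : Type} [AddCommGroup W]
    [Module k W] (T : W ≃ₗ[k] W) (h : b.op.PerOK l T) : ¬ w.Open (b.op.ME l T h).codual := by
  intro ho
  have hb : b.PerOK l (T.symm.dualMap : Dual k W ≃ₗ[k] Dual k W) :=
    { per := (Ln.op_isPer b.L l).1 h.per
      big := fun h0 p => Ln.rev_ne_one.1 (h.big h0 p)
      T0 := fun h0 => absurd h0 hl.ne' }
  obtain ⟨F, hF⟩ := exists_fund b l (fun h0 => absurd h0 hl.ne')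
  obtain ⟨e, he, -⟩ := ME_codual b l (fun h0 => absurd h0 hl.ne') hF
    (T.symm.dualMap : Dual k W ≃ₗ[k] Dual k W) T hb h (Dual.eval k W)
    (fun v φ => congrArg φ (T.symm_apply_apply v))
    (by
      have h5 : (Dual.eval k W).flip = LinearMap.id := LinearMap.ext fun φ => LinearMap.ext fun v => rfl
      rw [h5]
      exact Function.bijective_id)
  have hsy : (b.op.ME l T h).codual.Hom (b.ME l (T.symm.dualMap : Dual k W ≃ₗ[k] Dual k W) hb)
      e.symm.toLinearMap := by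
    intro g n
    apply e.injective
    have h1 := he g (e.symm n)
    have h2 : e (e.symm n) = n := e.apply_symm_apply n
    show e (e.symm ((b.op.ME l T h).codual.Q.op g n)) =
      e ((b.ME l (T.symm.dualMap : Dual k W ≃ₗ[k] Dual k W) hb).Q.op g (e.symm n))
    have h3 : e ((b.ME l (T.symm.dualMap : Dual k W ≃ₗ[k] Dual k W) hb).Q.op g (e.symm n)) =
      (b.op.ME l T h).codual.Q.op g (e (e.symm n)) := h1
    refine (e.apply_symm_apply _).trans ?_
    rw [h3, h2]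
  exact not_open_ME w hw b l hl (T.symm.dualMap : Dual k W ≃ₗ[k] Dual k W) hb
    (Str.Open_ret (oih_iso_ret (M := (b.op.ME l T h).codual)
      (N := b.ME l (T.symm.dualMap : Dual k W ≃ₗ[k] Dual k W) hb) e.symm hsy) w ho)

/-- **Splitting off bands.** By induction on the list: `thmT` (hypothesis `hT`, for the opposite data) for the nice module `X'` and the string `b.op`,
`K0_ret` for the bands already split off, `Dec.codual`, `Dec.assoc`; `w` is not open on the band modules, `Str.Open_dec`. Start with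
`X' = N.dual` (`wNice_dual`) and a zero module. -/
theorem split_bands (hT : ThmT S.op k) (N : Md D k) (bs : List (Str S)) (hbs : ∀ b ∈ bs, ¬ b.Aper) :
    ∃ (X' : Md D.op k) (Y : Md D k), N.dual.codual.Dec Y X'.codual ∧ X'.Nice ∧
      (∀ b ∈ bs, ∀ n ∈ b.op.Q X', b.op.K0 X' n) ∧
      ∀ w : Str S, w.Aper → w.Open N.dual.codual → w.Open X'.codual := by
  induction bs with
  | nil =>
    refine ⟨N.dual, s2cZero D k, ?_, wNice_dual N, fun b hb => absurd hb (List.not_mem_nil), fun w _ h => h⟩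
    refine ⟨0, 0, LinearMap.id, LinearMap.id, ?_, ?_, fun _ _ => rfl, fun _ _ => rfl, ?_, rfl, ?_, ?_, ?_⟩
    · intro g m
      exact (map_zero (N.dual.codual.Q.op g)).symm
    · intro g m
      rfl
    · exact LinearMap.ext fun x => rfl
    · exact LinearMap.ext fun x => rfl
    · exact LinearMap.ext fun x => rfl
    · exact LinearMap.ext fun x => zero_add _
  | cons b bs ih =>
    obtain ⟨X', Y, hdec, hnice, hK, hop⟩ := ih (fun c hc => hbs c (List.mem_cons_of_mem _ hc))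
    obtain ⟨l, hl⟩ := b.exists_minPer (hbs b List.mem_cons_self)
    obtain ⟨W, iW, iW', T, hok, X'', hd, hK0⟩ := hT b.op l ((Str.op_minPer b l).2 hl) X' hnice
    refine ⟨X'', Y.prod (b.op.ME l T hok).codual, hdec.assoc hd.codual, wNice_ret hnice (wDec_ret₂ hd), ?_, ?_⟩
    · intro c hc
      rcases List.mem_cons.1 hc with rfl | hc
      · exact hK0
      · exact K0_ret c.op (wDec_ret₂ hd) (hK c hc)
    · intro w hw ho
      rcases Str.Open_dec hd.codual w (hop w hw ho) with h1 | h1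
      · exact absurd h1 (not_open_codual_ME w hw b l hl.1 T hok)
      · exact h1

end StrAlg
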