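import Pool.Agent.Lib.MP_b9fd58_lc.Tail

/-!
# Infinite matches are killed
-/

set_option autoImplicit false

namespace StrAlg

section
variable {ι : Type*} {nx : ι → Bool → Fin 3 → ι × Bool}

open Classical in
/-- the chosen tail data (`none` if the tail is not of type UP) -/
noncomputable def Ln.tailD (w : Ln ι nx) (e : Bool) : Option (ℤ × ℕ) :=
  if h : ∃ x : ℤ × ℕ, w.UpT e x.1 x.2 then some h.choose else none

theorem Ln.tailD_some {w : Ln ι nx} {e : Bool} {x : ℤ × ℕ} (h : w.tailD e = some x) : w.UpT e x.1 x.2 := by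
  unfold Ln.tailD at h
  split_ifs at h with h'
  rw [← Option.some_inj.1 h]
  exact h'.choose_spec

theorem Ln.tailD_none {w : Ln ι nx} {e : Bool} (h : w.tailD e = none) (p : ℤ) (l : ℕ) : ¬ w.UpT e p l := by
  unfold Ln.tailD at h
  split_ifs at h with h'
  exact fun h2 => h' ⟨(p, l), h2⟩

theorem Ln.tailD_pos (w : Ln ι nx) (e : Bool) : ∀ x ∈ w.tailD e, 0 < x.2 := by
  intro x hx
  exact (Ln.tailD_some hx).pos

theorem Per_of_half {β : Type*} {P : ℤ → β} {l l' : ℕ} (hl : 0 < l) (hP : Per l P) (e : Bool) (b : ℤ) (n₀ : ℕ)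
    (h : ∀ n : ℕ, n₀ ≤ n → P (stn e ((n + l' : ℕ) : ℤ) b) = P (stn e n b)) : Per l' P := by
  intro x
  have hl1 : (1 : ℤ) ≤ l := by exact_mod_cast hl
  cases e with
  | true =>
    set N : ℕ := (x - b).natAbs + n₀ with hN
    have h1 : (N : ℤ) ≤ N * l := by nlinarith
    have h2 := h (x + N * l - b).toNat (by omega)
    simp only [stn_true] at h2
    push_cast at h2
    rw [Int.toNat_of_nonneg (by omega)] at h2
    have e1 : b + (x + N * l - b) = x + N * l := by ring
    have e2 : b + (x + N * l - b + l') = (x + l') + N * l := by ring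
    rw [e1, e2, hP.mul, hP.mul] at h2
    exact h2
  | false =>
    set N : ℕ := (x - b).natAbs + n₀ + l' with hN
    have h1 : (N : ℤ) ≤ N * l := by nlinarith
    have h2 := h (b - (x + l' - N * l)).toNat (by omega)
    simp only [stn_false] at h2
    push_cast at h2
    rw [Int.toNat_of_nonneg (by omega)] at h2
    have e1 : b - (b - (x + l' - N * l)) = (x + l') + (-N) * l := by ring
    have e2 : b - (b - (x + l' - N * l) + l') = x + (-N) * l := by ring
    rw [e1, e2, hP.mul, hP.mul] at h2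
    exact h2.symm

theorem UpT_dvd {w Y : Ln ι nx} {e : Bool} {p₁ : ℤ} {l lY : ℕ} (hw : w.UpT e p₁ l) (hlY : 0 < lY)
    (hY : Y.IsPer lY) (hprim : ∀ l', Y.IsPer l' → lY ∣ l') {o : Bool} {q b : ℤ} (hm : Mt w Y o q b)
    (h : Inf w Y o e q b) : lY ∣ l ∧ Y.IsPer l ∧ Bey e p₁ q := by
  -- number of steps from `p₁`
  have hpos : ∀ n : ℕ, (p₁ - q).natAbs ≤ n → ∃ j : ℕ, stn e n q = stn e j p₁ := by
    intro n hn
    cases e
    · exact ⟨(p₁ - (q - n)).toNat, by simp; omega⟩
    · exact ⟨((q + n) - p₁).toNat, by simp; omega⟩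
  have key : ∀ n : ℕ, (p₁ - q).natAbs ≤ n → w.lt e (stn e ((n + l : ℕ) : ℤ) q) = w.lt e (stn e n q) ∧
      w.v (stn e ((n + l : ℕ) : ℤ) q) = w.v (stn e n q) ∧ w.r (stn e ((n + l : ℕ) : ℤ) q) = w.r (stn e n q) := by
    intro n hn
    obtain ⟨j, hj⟩ := hpos n hn
    have e1 : stn e ((n + l : ℕ) : ℤ) q = stn e ((j + l : ℕ) : ℤ) p₁ := by
      have : stn e ((n + l : ℕ) : ℤ) q = stn e l (stn e n q) := by rw [stn_stn]; push_cast; rfl
      rw [this, hj, stn_stn]; push_cast; rfl
    rw [e1, hj]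
    exact ⟨hw.lt j, hw.v j, hw.r j⟩
  have pv : Per l Y.v := by
    apply Per_of_half hlY hY.v (e == o) b (p₁ - q).natAbs
    intro n hn
    rw [← (h.mt hm n).1, ← (h.mt hm (n + l)).1]
    exact (key n hn).2.1
  have pr : Per l Y.r := by
    apply Per_of_half hlY hY.r (e == o) b (p₁ - q).natAbs
    intro n hn
    have m1 := (h.mt hm n).2
    have m2 := (h.mt hm (n + l)).2
    rw [(key n hn).2.2] at m2
    have := m2.trans m1.symm
    revert this
    generalize w.r (stn e n q) = x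
    generalize Y.r (stn (e == o) ((n + l : ℕ) : ℤ) b) = y
    generalize Y.r (stn (e == o) n b) = z
    cases x <;> cases y <;> cases z <;> simp
  have plt : Per l (Y.lt (e == o)) := by
    apply Per_of_half hlY (hY.lt _) (e == o) b (p₁ - q).natAbs
    intro n hn
    rw [← (h.lt n).1, ← (h.lt (n + l)).1]
    exact (key n hn).1
  have pl : Per l Y.lam := by
    intro x
    cases h0 : (e == o) with
    | true => rw [h0] at plt; simpa [Ln.lt] using plt x
    | false =>
      rw [h0] at plt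
      have := plt (x + 1)
      simp only [Ln.lt, Bool.false_eq_true, if_false] at this
      rw [Ln.rev_inj'] at this
      have e1 : x + 1 + (l : ℤ) - 1 = x + l := by ring
      have e2 : x + 1 - 1 = x := by ring
      rwa [e1, e2] at this
  have hper : Y.IsPer l := ⟨pl, pv, pr⟩
  refine ⟨hprim l hper, hper, ?_⟩
  by_contra hcon
  obtain ⟨j, hj⟩ : ∃ j : ℕ, p₁ = st e (stn e j q) := by
    cases e
    · exact ⟨(q - p₁ - 1).toNat, by simp at hcon ⊢; omega⟩
    · exact ⟨(p₁ - q - 1).toNat, by simp at hcon ⊢; omega⟩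
  have g1 := (h.lt j).1
  have g2 := (h.lt (j + l)).1
  have g3 := plt.stn (e == o) j b
  push_cast at g2
  rw [g3, ← g1] at g2
  have hup := hw.up
  have e1 : stn e (l : ℤ) p₁ = st e (stn e ((j : ℤ) + l) q) := by
    rw [hj]; cases e <;> simp <;> ring
  rw [e1, Ln.lt_back, g2, hj, Ln.lt_back] at hup
  exact lt_irrefl _ hup

end

section
variable {ι : Type*} {nx : ι → Bool → Fin 3 → ι × Bool}
variable {k VY : Type*} [Field k] [AddCommGroup VY] [Module k VY]

/-- kernels without the finiteness condition -/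
structure IsKer0 {E : Type*} [Zero E] (X Y : Ln ι nx) (F : ℤ → ℤ → E) : Prop where
  vx : ∀ a q, F a q ≠ 0 → X.v a = Y.v q
  le : ∀ o a q, Mt X Y o a q → F a q ≠ 0 → LeD X Y o a q
  step : ∀ o a q, Mt X Y o a q → Lk X Y o true a q → F (st true a) (st (true == o) q) = F a q

theorem IsKer0.step' {E : Type*} [Zero E] {X Y : Ln ι nx} {F : ℤ → ℤ → E} (h : IsKer0 X Y F)
    {o e : Bool} {a q : ℤ} (hm : Mt X Y o a q) (hl : Lk X Y o e a q) :
    F (st e a) (st (e == o) q) = F a q := by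
  cases e with
  | true => exact h.step o a q hm hl
  | false =>
    have h1 := hm.step hl
    have h2 := hl.back
    have h3 := h.step o _ _ h1 h2
    rw [← h3]
    cases o <;> simp

theorem IsKer0.walk {E : Type*} [Zero E] {X Y : Ln ι nx} {F : ℤ → ℤ → E} (hF : IsKer0 X Y F)
    {o e : Bool} {a q : ℤ} {n : ℕ} (hm : Mt X Y o a q) (h : AgD X Y o e a q n) :
    F (stn e n a) (stn (e == o) n q) = F a q := by
  induction n with
  | zero => simp
  | succ n ih =>
    have h1 := (AgD_succ'.1 h)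
    have h2 := ih h1.1
    have h3 : Mt X Y o (stn e n a) (stn (e == o) n q) := (h1.1.walk).1.2 hm
    rw [← h2, ← hF.step' h3 h1.2]
    congr 1
    · rw [← stn_one, stn_stn]; push_cast; rfl
    · rw [← stn_one, stn_stn]; push_cast; rfl

/-- the kernel of `Γ ∘ χ(σ)` in terms of the kernel of `Γ` -/
noncomputable def kop (e : Bool) (d : Option (ℤ × ℕ)) (χ : Polynomial k) (G : ℤ → ℤ → VY) : ℤ → ℤ → VY :=
  fun q b => χ.coeff 0 • G q b + ∑ i ∈ Finset.range χ.natDegree, χ.coeff (i + 1) •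
    (match d with
      | none => 0
      | some x => if Bey e x.1 q then G (stn e (((i + 1 : ℕ) : ℤ) * x.2) q) b else 0)

theorem kop_none {e : Bool} {χ : Polynomial k} (hχ : χ.coeff 0 = 1) (G : ℤ → ℤ → VY) (q b : ℤ) :
    kop e none χ G q b = G q b := by
  simp [kop, hχ]

theorem kop_not_bey {e : Bool} {x : ℤ × ℕ} {χ : Polynomial k} (hχ : χ.coeff 0 = 1) (G : ℤ → ℤ → VY) (q b : ℤ)
    (h : ¬ Bey e x.1 q) : kop e (some x) χ G q b = G q b := by
  simp [kop, hχ, h]

/-- the value of the kernel at a shifted position of an infinite match -/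
theorem ker_shift {w Y : Ln ι nx} {G : ℤ → ℤ → VY} (hG : IsKer0 w Y G) {lY : ℕ} (T : VY ≃ₗ[k] VY)
    (hT : ∀ q b, T (G q (b + lY)) = G q b) {o e : Bool} {q b : ℤ} (hm : Mt w Y o q b) (h : Inf w Y o e q b)
    (n : ℕ) : G (stn e ((n * lY : ℕ) : ℤ) q) b =
      ((if (e == o) then (T : VY →ₗ[k] VY) else (T.symm : VY →ₗ[k] VY)) ^ n) (G q b) := by
  have h1 := hG.walk hm (h (n * lY))
  have hTn : ∀ (m : ℕ) (q b : ℤ), ((T : VY →ₗ[k] VY) ^ m) (G q (b + (m * lY : ℕ))) = G q b := by
    intro m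
    induction m with
    | zero => intro q b; simp
    | succ m ih =>
      intro q b
      rw [pow_succ', Module.End.mul_apply]
      have : b + (((m + 1) * lY : ℕ) : ℤ) = (b + lY) + ((m * lY : ℕ) : ℤ) := by push_cast; ring
      rw [this, ih]
      exact hT q b
  cases h0 : (e == o) with
  | true =>
    rw [h0] at h1
    rw [if_pos rfl, ← h1, ← hTn n]
    rfl
  | false =>
    rw [h0] at h1
    rw [if_neg (by simp)]
    have h2 := hTn n (stn e ((n * lY : ℕ) : ℤ) q) (stn false ((n * lY : ℕ) : ℤ) b)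
    have e1 : stn false ((n * lY : ℕ) : ℤ) b + ((n * lY : ℕ) : ℤ) = b := by simp
    rw [e1, h1] at h2
    rw [← h2]
    have : ∀ m : ℕ, ∀ x : VY, ((T.symm : VY →ₗ[k] VY) ^ m) (((T : VY →ₗ[k] VY) ^ m) x) = x := by
      intro m
      induction m with
      | zero => intro x; simp
      | succ m ih =>
        intro x
        rw [pow_succ, pow_succ', Module.End.mul_apply, Module.End.mul_apply]
        have : (T.symm : VY →ₗ[k] VY) ((T : VY →ₗ[k] VY) (((T : VY →ₗ[k] VY) ^ m) x)) = ((T : VY →ₗ[k] VY) ^ m) x := by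
          simp
        rw [this, ih]
    exact (this n _).symm

/-- `χ` kills all powers that occur -/
def Kills (T : VY ≃ₗ[k] VY) (n : ℕ) (χ : Polynomial k) : Prop :=
  Polynomial.aeval (R := k) (A := Module.End k VY) ((T : VY →ₗ[k] VY) ^ n) χ = 0 ∧
  Polynomial.aeval (R := k) (A := Module.End k VY) ((T.symm : VY →ₗ[k] VY) ^ n) χ = 0

theorem kop_inf {w Y : Ln ι nx} {G : ℤ → ℤ → VY} (hG : IsKer0 w Y G) {lY : ℕ} (hlY : 0 < lY) (hY : Y.IsPer lY)
    (hprim : ∀ l', Y.IsPer l' → lY ∣ l') (T : VY ≃ₗ[k] VY)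
    (hT : ∀ q b, T (G q (b + lY)) = G q b) {P : ℤ → Prop} (hsym : w.Asym P) (hcl : w.Cl P)
    (hGP : ∀ q b, G q b ≠ 0 → P q) {e : Bool} {χ : Polynomial k} (hχ : χ.coeff 0 = 1)
    (hk : ∀ x ∈ w.tailD e, ∀ n, x.2 = lY * n → Kills T n χ)
    {o : Bool} {q b : ℤ} (hm : Mt w Y o q b) (h : Inf w Y o e q b) : kop e (w.tailD e) χ G q b = 0 := by
  cases hd : w.tailD e with
  | none =>
    rw [kop_none hχ]
    by_contra hne
    obtain ⟨p₁, h1, -⟩ := exists_UpT hsym hcl hlY hY (hGP _ _ hne) hm (hG.le _ _ _ hm hne) h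
    exact Ln.tailD_none hd _ _ h1
  | some x =>
    have hup := Ln.tailD_some hd
    obtain ⟨h1, h2, h3⟩ := UpT_dvd hup hlY hY hprim hm h
    obtain ⟨n, hn⟩ := h1
    have hk' := hk x hd n hn
    set S : VY →ₗ[k] VY := (if (e == o) then (T : VY →ₗ[k] VY) else (T.symm : VY →ₗ[k] VY)) with hS
    have key : ∀ i : ℕ, G (stn e ((i : ℤ) * x.2) q) b = ((S ^ n) ^ i) (G q b) := by
      intro i
      have := ker_shift hG T hT hm h (n * i)
      rw [← hS] at this
      rw [← pow_mul, ← this]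
      congr 2
      rw [hn]; push_cast; ring
    have hS0 : Polynomial.aeval (R := k) (A := Module.End k VY) (S ^ n) χ = 0 := by
      rw [hS]
      split_ifs
      · exact hk'.1
      · exact hk'.2
    have h4 : (Polynomial.aeval (R := k) (A := Module.End k VY) (S ^ n) χ) (G q b) = 0 := by rw [hS0]; rfl
    rw [Polynomial.aeval_eq_sum_range, LinearMap.sum_apply, Finset.sum_range_succ'] at h4
    rw [← h4]
    unfold kop
    rw [add_comm]
    congr 1
    refine Finset.sum_congr rfl ?_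
    intro i _
    simp only [if_pos h3]
    rw [key (i + 1)]
    rfl

/-- a normalised polynomial killing finitely many powers of an automorphism -/
theorem exists_kills [Module.Finite k VY] (T : VY ≃ₗ[k] VY) (n : ℕ) : ∃ χ : Polynomial k, χ.coeff 0 = 1 ∧ Kills T n χ := by
  have key : ∀ S : VY ≃ₗ[k] VY, ∃ χ : Polynomial k, χ.coeff 0 = 1 ∧
      Polynomial.aeval (R := k) (A := Module.End k VY) ((S : VY →ₗ[k] VY) ^ n) χ = 0 := by
    intro S
    set E : Module.End k VY := (S : VY →ₗ[k] VY) ^ n with hE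
    have hinj : Function.Injective E := by
      rw [hE]
      have : ∀ m : ℕ, Function.Injective (((S : VY →ₗ[k] VY) ^ m : Module.End k VY)) := by
        intro m
        induction m with
        | zero => exact fun x y h => by simpa using h
        | succ m ih =>
          rw [pow_succ']
          exact S.injective.comp ih
      exact this n
    have h0 : (minpoly k E).coeff 0 ≠ 0 := LinearMap.minpoly_coeff_zero_of_injective hinj
    refine ⟨Polynomial.C ((minpoly k E).coeff 0)⁻¹ * minpoly k E, ?_, ?_⟩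
    · rw [Polynomial.coeff_C_mul, inv_mul_cancel₀ h0]
    · rw [map_mul, minpoly.aeval, mul_zero]
  obtain ⟨χ, h1, h2⟩ := key T
  obtain ⟨ψ, h3, h4⟩ := key T.symm
  refine ⟨χ * ψ, coeff_mul_zero' h1 h3, ?_, ?_⟩
  · rw [map_mul, h2, zero_mul]
  · rw [map_mul, h4, mul_zero]

theorem IsKer0.isKer {E : Type*} [Zero E] {X Y : Ln ι nx} {F : ℤ → ℤ → E} (h : IsKer0 X Y F)
    (h' : ∀ o e a q, Mt X Y o a q → Inf X Y o e a q → F a q = 0) : IsKer X Y F where
  vx := h.vx
  le := h.le
  step := h.step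
  fin := by
    intro o e a q hm hne
    by_contra hcon
    push Not at hcon
    exact hne (h' o e a q hm hcon)

/-- the kernel of `Γ ∘ χ₁(σ_true) ∘ χ₂(σ_false)` vanishes on infinite matches -/
theorem isKer_kop {w Y : Ln ι nx} {G : ℤ → ℤ → VY} (hG : IsKer0 w Y G) {lY : ℕ} (hlY : 0 < lY) (hY : Y.IsPer lY)
    (hprim : ∀ l', Y.IsPer l' → lY ∣ l') (T : VY ≃ₗ[k] VY) {P : ℤ → Prop} (hsym : w.Asym P)
    (hcl : w.Cl P) (hGP : ∀ q b, G q b ≠ 0 → P q)
    (hT : ∀ q b, T (G q (b + lY)) = G q b) {χ₁ χ₂ : Polynomial k} (hχ₁ : χ₁.coeff 0 = 1) (hχ₂ : χ₂.coeff 0 = 1)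
    (hk₁ : ∀ x ∈ w.tailD true, ∀ n, x.2 = lY * n → Kills T n χ₁)
    (hk₂ : ∀ x ∈ w.tailD false, ∀ n, x.2 = lY * n → Kills T n χ₂)
    (hG1 : IsKer0 w Y (kop true (w.tailD true) χ₁ G))
    (hGP1 : ∀ q b, kop true (w.tailD true) χ₁ G q b ≠ 0 → P q)
    (hT1 : ∀ q b, T (kop true (w.tailD true) χ₁ G q (b + lY)) = kop true (w.tailD true) χ₁ G q b)
    (hG2 : IsKer0 w Y (kop false (w.tailD false) χ₂ (kop true (w.tailD true) χ₁ G))) :
    IsKer w Y (kop false (w.tailD false) χ₂ (kop true (w.tailD true) χ₁ G)) := by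
  refine hG2.isKer ?_
  intro o e q b hm hinf
  cases e with
  | false => exact kop_inf hG1 hlY hY hprim T hT1 hsym hcl hGP1 hχ₂ hk₂ hm hinf
  | true =>
    -- far to the right the second operator does nothing
    have hfar : ∃ n : ℕ, ∀ b', kop false (w.tailD false) χ₂ (kop true (w.tailD true) χ₁ G) (stn true n q) b' =
        kop true (w.tailD true) χ₁ G (stn true n q) b' := by
      cases hd : w.tailD false with
      | none => exact ⟨0, fun b' => kop_none hχ₂ _ _ _⟩
      | some x =>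
        refine ⟨(x.1 - q).toNat + 1, fun b' => kop_not_bey hχ₂ _ _ _ ?_⟩
        simp; omega
    obtain ⟨n, hn⟩ := hfar
    have h1 := hG2.walk hm (hinf n)
    rw [← h1, hn]
    exact kop_inf hG hlY hY hprim T hT hsym hcl hGP hχ₁ hk₁ (hinf.mt hm n) (hinf.walk n)

/-- kernels into finite lines have no infinite matches -/
theorem IsKer0.isKer_of_fn {E : Type*} [Zero E] {X Y : Ln ι nx} {F : ℤ → ℤ → E} (h : IsKer0 X Y F) (hY : Y.Fn) :
    IsKer X Y F := h.isKer (fun o e a q _ hinf => by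
      obtain ⟨n, hn⟩ := hY.fin_right (X := X) o a q e
      exact absurd (hinf n) hn)

theorem IsKer0.isKer_of_fn' {E : Type*} [Zero E] {X Y : Ln ι nx} {F : ℤ → ℤ → E} (h : IsKer0 X Y F) (hX : X.Fn) :
    IsKer X Y F := h.isKer (fun o e a q _ hinf => by
      obtain ⟨n, hn⟩ := hX.fin_left (Y := Y) o a q e
      exact absurd (hinf n) hn)

end

end StrAlg
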