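import Pool.Agent.Lib.MP_b9fd58_lc.Chain

/-!
# Windows, Theorem A
-/

set_option autoImplicit false

namespace StrAlg

section loc
variable {ι E : Type*} [DecidableEq E] {nx : ι → Bool → Fin 3 → ι × Bool} {M : Type*} [AddCommMonoid M]

/-- the arrow identity at one pair of positions -/
def ArAt (A : Ends ι E) (X Y : Ln ι nx) (K : ℤ → ℤ → M) (a b : ℤ) : Prop :=
  ∀ α, (∑ e : Bool, if X.lt e a = 2 ∧ A.outA (X.v a) (X.sd e a) = some α then K (st e a) b else 0) =
    (∑ e : Bool, if Y.lt e b = 0 ∧ A.inA (Y.v b) (Y.sd e b) = some α then K a (st e b) else 0)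

theorem loc_step_out {A : Ends ι E} {X Y : Ln ι nx} {K : ℤ → ℤ → M} (hX : X.Ok A)
    (hY : Y.Ok A) {o e : Bool} {a b : ℤ} (h : ArAt A X Y K a (st (e == o) b)) (hm : Mt X Y o a b)
    (hl : Lk X Y o e a b) (h2 : X.lt e a = 2) : K (st e a) (st (e == o) b) = K a b := by
  obtain ⟨α, h3, h4⟩ := hX e a h2
  have h2' : Y.lt (e == o) b = 2 := hl.1 ▸ h2
  obtain ⟨β, h5, h6⟩ := hY (e == o) b h2'
  have hαβ : α = β := by
    rw [hm.1, hm.sd_eq e, h5] at h3
    exact (Option.some_inj.1 h3).symm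
  subst hαβ
  have h7 := h α
  rw [KH.left_eq h2 h3, KH.right_eq (e := !(e == o)) ?_ h6] at h7
  · rw [h7, st_not_st]
  · rw [Ln.lt_back, h2']; rfl

theorem loc_step {A : Ends ι E} {X Y : Ln ι nx} {K : ℤ → ℤ → M} (hX : X.Ok A)
    (hY : Y.Ok A) {o e : Bool} {a b : ℤ} (h : X.lt e a = 2 → ArAt A X Y K a (st (e == o) b))
    (h' : X.lt e a = 0 → ArAt A X Y K (st e a) b) (hm : Mt X Y o a b) (hl : Lk X Y o e a b) :
    K (st e a) (st (e == o) b) = K a b := by
  rcases fin3_cases hl.2 with h0 | h2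
  · have h3 := loc_step_out hX hY (K := K) (e := !e) (o := o) (a := st e a) (b := st (e == o) b)
      (by rw [beq_not, st_not_st]; exact h' h0) (hm.step hl) hl.back (by rw [Ln.lt_back, h0]; rfl)
    rw [beq_not, st_not_st, st_not_st] at h3
    exact h3.symm
  · exact loc_step_out hX hY (h h2) hm hl h2

theorem loc_zero {A : Ends ι E} {X Y : Ln ι nx} {K : ℤ → ℤ → M} (hX : X.Ok A)
    (hY : Y.Ok A) {o e : Bool} {a b : ℤ} (h : Y.lt (e == o) b = 2 → ArAt A X Y K a (st (e == o) b))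
    (h' : X.lt e a = 0 → ArAt A X Y K (st e a) b) (hm : Mt X Y o a b)
    (hlt : X.lt e a < Y.lt (e == o) b) : K a b = 0 := by
  have hc : Y.lt (e == o) b = 2 ∨ X.lt e a = 0 := by
    revert hlt
    generalize X.lt e a = x
    generalize Y.lt (e == o) b = y
    revert x y
    decide
  rcases hc with hc | hc
  · obtain ⟨α, h5, h6⟩ := hY (e == o) b hc
    have h7 := h hc α
    rw [KH.right_eq (e := !(e == o)) (by rw [Ln.lt_back, hc]; rfl) h6, st_not_st] at h7
    rw [← h7]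
    refine Finset.sum_eq_zero ?_
    intro e1 _
    rw [if_neg]
    rintro ⟨g1, g2⟩
    have g3 := (A.outU _ _ _ _ _ g2 h5).2
    rw [← hm.sd_eq e] at g3
    have g4 := Ln.sd_inj g3
    subst g4
    rw [g1, hc] at hlt
    exact lt_irrefl _ hlt
  · have hc' : X.lt (!e) (st e a) = 2 := by rw [Ln.lt_back, hc]; rfl
    obtain ⟨α, h5, h6⟩ := hX (!e) (st e a) hc'
    rw [st_not_st, Bool.not_not] at h6
    have h7 := h' hc α
    rw [KH.left_eq (e := !e) hc' h5, st_not_st] at h7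
    rw [h7]
    refine Finset.sum_eq_zero ?_
    intro e2 _
    rw [if_neg]
    rintro ⟨g1, g2⟩
    have g3 := (A.inU _ _ _ _ _ g2 h6).2
    rw [hm.sd_eq e] at g3
    have g4 := Ln.sd_inj g3
    subst g4
    rw [g1, hc] at hlt
    exact lt_irrefl _ hlt

/-- the position `q` is reached from `q₀` by letters different from `END` -/
def Ln.Reach (w : Ln ι nx) (q₀ q : ℤ) : Prop := Cn w w true q₀ q₀ q q

theorem beq_true' (e : Bool) : (e == true) = e := by cases e <;> rfl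

theorem Ln.Reach.refl {w : Ln ι nx} {q : ℤ} : w.Reach q q := Cn.refl

theorem Ln.Reach.trans {w : Ln ι nx} {q q' q'' : ℤ} (h : w.Reach q q') (h' : w.Reach q' q'') : w.Reach q q'' :=
  Cn.trans h h'

theorem Ln.Reach.abs {w : Ln ι nx} {q q' : ℤ} (h : w.Reach q q') (h' : w.Abs q) : w.Abs q' :=
  Cn.abs_left h h'

theorem Ln.Reach.of_lt {w : Ln ι nx} {q : ℤ} {e : Bool} {n : ℕ} (h : ∀ j < n, w.lt e (stn e j q) ≠ 1) :
    w.Reach q (stn e n q) := by
  refine ⟨e, n, ?_, rfl, by rw [beq_true']⟩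
  apply AgD_of_lk
  intro i hi
  refine ⟨?_, h i hi⟩
  rw [beq_true']

theorem Cn.reach_left {X w : Ln ι nx} {o : Bool} {a b a' b' : ℤ} (h : Cn X w o a b a' b') : X.Reach a a' := by
  obtain ⟨e, n, h1, rfl, -⟩ := h
  exact Ln.Reach.of_lt (fun j hj => (h1.lk j hj).2)

theorem Cn.reach_right {X w : Ln ι nx} {o : Bool} {a b a' b' : ℤ} (h : Cn X w o a b a' b') : w.Reach b b' := by
  obtain ⟨e, n, h1, -, rfl⟩ := h
  exact Ln.Reach.of_lt (fun j hj => by rw [← (h1.lk j hj).1]; exact (h1.lk j hj).2)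

/-- a nonzero kernel value in a window forces the order of the letters read inside the window -/
theorem win_not_lt {A : Ends ι E} {X Y : Ln ι nx} {K : ℤ → ℤ → M} (hX : X.Ok A) (hY : Y.Ok A)
    {SX SY : ℤ → Prop} (hS : ∀ a b, SX a → SY b → ArAt A X Y K a b) {o e : Bool} {a b : ℤ} {n : ℕ}
    (hm : Mt X Y o a b) (hne : K a b ≠ 0) (hag : AgD X Y o e a b n)
    (hpX : ∀ i ≤ n + 1, (∀ j < i, X.lt e (stn e j a) ≠ 1) → SX (stn e i a))
    (hpY : ∀ i ≤ n + 1, (∀ j < i, Y.lt (e == o) (stn (e == o) j b) ≠ 1) → SY (stn (e == o) i b)) :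
    ¬ X.lt e (stn e n a) < Y.lt (e == o) (stn (e == o) n b) := by
  intro hlt
  have e1 : ∀ i : ℕ, st e (stn e i a) = stn e ((i + 1 : ℕ) : ℤ) a := by
    intro i; rw [← stn_one, stn_stn]; push_cast; rfl
  have e2 : ∀ i : ℕ, st (e == o) (stn (e == o) i b) = stn (e == o) ((i + 1 : ℕ) : ℤ) b := by
    intro i; rw [← stn_one, stn_stn]; push_cast; rfl
  have hlX : ∀ j < n, X.lt e (stn e j a) ≠ 1 := fun j hj => (hag.lk j hj).2
  have hlY : ∀ j < n, Y.lt (e == o) (stn (e == o) j b) ≠ 1 := fun j hj => by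
    rw [← (hag.lk j hj).1]; exact (hag.lk j hj).2
  have key : ∀ i ≤ n, K (stn e i a) (stn (e == o) i b) = K a b := by
    intro i
    induction i with
    | zero => intro _; simp
    | succ i ih =>
      intro hi
      have h1 := ih (by omega)
      have hmi : Mt X Y o (stn e i a) (stn (e == o) i b) := (hag.mono (by omega : i ≤ n)).walk.1.2 hm
      have hl := hag.lk i (by omega)
      rw [← h1, ← e1, ← e2]
      refine loc_step hX hY ?_ ?_ hmi hl
      · intro _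
        rw [e2]
        exact hS _ _ (hpX i (by omega) (fun j hj => hlX j (by omega))) (hpY (i + 1) (by omega) (fun j hj => hlY j (by omega)))
      · intro _
        rw [e1]
        exact hS _ _ (hpX (i + 1) (by omega) (fun j hj => hlX j (by omega))) (hpY i (by omega) (fun j hj => hlY j (by omega)))
  have h1 := key n le_rfl
  have hmn : Mt X Y o (stn e n a) (stn (e == o) n b) := hag.walk.1.2 hm
  have h2 := loc_zero hX hY (K := K) ?_ ?_ hmn hlt
  · rw [h1] at h2; exact hne h2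
  · intro hc
    rw [e2]
    refine hS _ _ (hpX n (by omega) hlX) (hpY (n + 1) le_rfl ?_)
    intro j hj
    rcases Nat.lt_succ_iff_lt_or_eq.1 hj with h | h
    · exact hlY j h
    · subst h; rw [hc]; decide
  · intro hc
    rw [e1]
    refine hS _ _ (hpX (n + 1) le_rfl ?_) (hpY n (by omega) hlY)
    intro j hj
    rcases Nat.lt_succ_iff_lt_or_eq.1 hj with h | h
    · exact hlX j h
    · subst h; rw [hc]; decide

end loc

section
variable {D : Dat} {k : Type} [Field k] {N : Type} [AddCommGroup N] [Module k N]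
variable {nx : Fin D.nV → Bool → Fin 3 → Fin D.nV × Bool}

theorem chain_ar {Q : QMod D k N} {A : Ends (Fin D.nV) (Fin D.nE)} {X Y : Ln (Fin D.nV) nx} {f : ℤ → N}
    {ξ : ℤ → N →ₗ[k] k} {a b : ℤ} (h : ChAt Q A X f a) (h' : DcAt Q A Y ξ b) :
    ArAt A X Y (fun a b => ξ b (f a)) a b := by
  intro α
  have h1 := h'.2 α (f a)
  rw [h.2 α, map_sum] at h1
  rw [← h1]
  refine Finset.sum_congr rfl ?_
  intro e _
  split_ifs
  · rfl
  · rw [map_zero]

theorem chain_vx {Q : QMod D k N} {A : Ends (Fin D.nV) (Fin D.nE)} {X Y : Ln (Fin D.nV) nx} {f : ℤ → N}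
    {ξ : ℤ → N →ₗ[k] k} {a b : ℤ} (h : ChAt Q A X f a) (h' : DcAt Q A Y ξ b) (hne : ξ b (f a) ≠ 0) :
    X.v a = Y.v b := by
  have h1 := h'.1 (X.v a) (f a)
  rw [h.1, if_pos rfl] at h1
  by_contra hcon
  rw [if_neg (fun hh => hcon hh.symm)] at h1
  exact hne h1

theorem chain_KH {Q : QMod D k N} {A : Ends (Fin D.nV) (Fin D.nE)} {X Y : Ln (Fin D.nV) nx} {f : ℤ → N}
    {ξ : ℤ → N →ₗ[k] k} (h : ∀ a, ChAt Q A X f a) (h' : ∀ b, DcAt Q A Y ξ b) (hX : ∀ a, f a ≠ 0 → X.Abs a)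
    (hY : ∀ b, ξ b ≠ 0 → Y.Abs b) : KH A X Y (fun a b => ξ b (f a)) where
  vx a b hne := chain_vx (h a) (h' b) hne
  absX a b hne := hX a (fun h0 => hne (by simp only [h0, map_zero]))
  absY a b hne := hY b (fun h0 => hne (by simp only [h0, LinearMap.zero_apply]))
  ar α a b := chain_ar (h a) (h' b) α

/-- windows of chains and dual chains with `ξ_q (g_q) = 1`: the string `w` is open on the module -/
def HasWin (Q : QMod D k N) (A : Ends (Fin D.nV) (Fin D.nE)) (w : Ln (Fin D.nV) nx) (q₀ : ℤ) : Prop :=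
  ∀ R : ℕ, ∃ (g : ℤ → N) (ξ : ℤ → N →ₗ[k] k), ∀ q, w.Reach q₀ q → (q - q₀).natAbs ≤ R →
    ChAt Q A w g q ∧ DcAt Q A w ξ q ∧ ξ q (g q) = 1

open Classical in
/-- number of letters needed to see that `Y` at `b` is not `≤ X` at `a` -/
noncomputable def dfn (w : Ln (Fin D.nV) nx) (o : Bool) (q q' : ℤ) : ℕ :=
  if h : ∃ x : Bool × ℕ, (∀ i < x.2, w.wdd (x.1 == o) q' i = w.wdd x.1 q i) ∧ w.wdd x.1 q x.2 < w.wdd (x.1 == o) q' x.2
    then h.choose.2 else 0

/-- **Theorem A** (for arbitrary lines `X`, `Y` and scalar coefficients): if `w` is open on `N` and `Ω ≠ 0` at a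
sandwiched pair of positions then there are finitely supported chains and dual chains with nonzero value. -/
theorem thmA {Q : QMod D k N} {A : Ends (Fin D.nV) (Fin D.nE)} {w X Y : Ln (Fin D.nV) nx} (hX : X.Ok A)
    (hw : w.Ok A) (hY : Y.Ok A) {P : ℤ → Prop} (hsym : w.Asym P) (hcl : w.Cl P) {o₀ o' : Bool} {a₀ q₀ b₀ : ℤ}
    (hP : P q₀) (hwin : HasWin Q A w q₀)
    (aX : X.Abs a₀) (aw : w.Abs q₀) (aY : Y.Abs b₀)
    (m1 : Mt X w o₀ a₀ q₀) (l1 : LeD X w o₀ a₀ q₀) (f1 : FinCl X w o₀ a₀ q₀)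
    (m2 : Mt w Y o' q₀ b₀) (l2 : LeD w Y o' q₀ b₀) (f2 : FinCl w Y o' q₀ b₀)
    (c γ : ℤ → k) (hom : OmS X Y c γ (o₀ == o') a₀ b₀ ≠ 0) :
    ∃ (f : ℤ → N) (η : ℤ → N →ₗ[k] k) (S T : Finset ℤ), (∀ a, ChAt Q A X f a) ∧ (∀ b, DcAt Q A Y η b) ∧
      (∀ a, a ∉ S → f a = 0) ∧ (∀ b, b ∉ T → η b = 0) ∧
      ∑ a ∈ S, ∑ b ∈ T, γ b * c a * η b (f a) ≠ 0 := by
  classical
  obtain ⟨o₁, a₁, q₁, b₁, ⟨q₂, cX⟩, m1', l1', f1', c0, hom', hmin⟩ := sel hsym hcl hP m1 l1 f1 f2 hom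
  have m2' : Mt w Y o' q₁ b₁ := c0.mt.2 m2
  have l2' : LeD w Y o' q₁ b₁ := c0.le.2 l2
  have f2' : FinCl w Y o' q₁ b₁ := c0.fin.2 f2
  have aX' : X.Abs a₁ := cX.abs_left aX
  have aw' : w.Abs q₁ := c0.abs_left aw
  have aY' : Y.Abs b₁ := c0.abs_right aY
  have rq₁ : w.Reach q₀ q₁ := c0.reach_left
  -- finite sets of positions
  set IX := Finset.Icc (a₁ - lenD X w o₁ false a₁ q₁) (a₁ + lenD X w o₁ true a₁ q₁) with hIX
  set Iw := Finset.Icc (q₁ - (lenD X w o₁ false a₁ q₁ + lenD X w o₁ true a₁ q₁))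
      (q₁ + (lenD X w o₁ false a₁ q₁ + lenD X w o₁ true a₁ q₁)) with hIw
  set Jw := Finset.Icc (q₁ - lenD w Y o' false q₁ b₁) (q₁ + lenD w Y o' true q₁ b₁) with hJw
  set JY := Finset.Icc (b₁ - (lenD w Y o' false q₁ b₁ + lenD w Y o' true q₁ b₁))
      (b₁ + (lenD w Y o' false q₁ b₁ + lenD w Y o' true q₁ b₁)) with hJY
  -- the radius
  set R : ℕ := ∑ q ∈ Iw, ∑ q' ∈ Jw, ((q - q₀).natAbs + (q' - q₀).natAbs + dfn w true q q' + dfn w false q q' + 1) with hR
  have hRle : ∀ q ∈ Iw, ∀ q' ∈ Jw, (q - q₀).natAbs + (q' - q₀).natAbs + dfn w true q q' + dfn w false q q' + 1 ≤ R := by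
    intro q hq q' hq'
    have h1 := Finset.single_le_sum (f := fun q => ∑ q' ∈ Jw, ((q - q₀).natAbs + (q' - q₀).natAbs + dfn w true q q' + dfn w false q q' + 1))
      (fun _ _ => Nat.zero_le _) hq
    have h2 := Finset.single_le_sum (f := fun q' => ((q - q₀).natAbs + (q' - q₀).natAbs + dfn w true q q' + dfn w false q q' + 1))
      (fun _ _ => Nat.zero_le _) hq'
    exact h2.trans h1
  obtain ⟨g, ξ, hgξ⟩ := hwin R
  set f : ℤ → N := pull X w o₁ a₁ q₁ g with hf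
  set η : ℤ → N →ₗ[k] k := push w Y o' q₁ b₁ ξ with hη
  -- membership of the classes
  have memI : ∀ a q, Cn X w o₁ a₁ q₁ a q → a ∈ IX ∧ q ∈ Iw := fun a q h => ⟨h.mem_Icc_left f1', h.mem_Icc_right f1'⟩
  have memJ : ∀ q b, Cn w Y o' q₁ b₁ q b → q ∈ Jw ∧ b ∈ JY := fun q b h => ⟨h.mem_Icc_left f2', h.mem_Icc_right f2'⟩
  have q₁I : q₁ ∈ Iw := (memI _ _ Cn.refl).2
  have q₁J : q₁ ∈ Jw := (memJ _ _ Cn.refl).1
  have hwq : ∀ a q, Cn X w o₁ a₁ q₁ a q → w.Reach q₀ q ∧ (q - q₀).natAbs ≤ R := by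
    intro a q h
    refine ⟨rq₁.trans h.reach_right, ?_⟩
    have := hRle q (memI a q h).2 q₁ q₁J
    omega
  have hwq' : ∀ q b, Cn w Y o' q₁ b₁ q b → w.Reach q₀ q ∧ (q - q₀).natAbs ≤ R := by
    intro q b h
    refine ⟨rq₁.trans h.reach_left, ?_⟩
    have := hRle q₁ q₁I q (memJ q b h).1
    omega
  have hfc : ∀ a, ChAt Q A X f a := pull_chain m1' l1' (fun a q h => (hgξ q (hwq a q h).1 (hwq a q h).2).1)
  have hηc : ∀ b, DcAt Q A Y η b := push_chain m2' l2' (fun q b h => (hgξ q (hwq' q b h).1 (hwq' q b h).2).2.1)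
  have hf0 : ∀ a, f a ≠ 0 → ∃ q, Cn X w o₁ a₁ q₁ a q := by
    intro a ha
    by_contra hcon
    exact ha (pull_zero hcon)
  have hη0 : ∀ b, η b ≠ 0 → ∃ q, Cn w Y o' q₁ b₁ q b := by
    intro b hb
    by_contra hcon
    exact hb (push_zero hcon)
  have hKH : KH A X Y (fun a b => η b (f a)) := by
    refine chain_KH hfc hηc ?_ ?_
    · intro a ha
      obtain ⟨q, hq⟩ := hf0 a ha
      exact hq.abs_left aX'
    · intro b hb
      obtain ⟨q, hq⟩ := hη0 b hb
      exact hq.abs_right aY'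
  have hK0 := hKH.isKer0 hX hY
  have hne1 : ∀ a b, η b (f a) ≠ 0 → f a ≠ 0 ∧ η b ≠ 0 := by
    intro a b h
    exact ⟨fun h0 => h (by rw [h0, map_zero]), fun h0 => h (by rw [h0, LinearMap.zero_apply])⟩
  have hK : IsKer X Y (fun a b => η b (f a)) := by
    refine hK0.isKer ?_
    intro o e a b hm hinf
    by_contra hne
    -- the class is infinite, but the support is finite
    have h1 : ∀ n : ℕ, stn e n a ∈ IX := by
      intro n
      have h2 := hK0.walk hm (hinf n)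
      rw [← h2] at hne
      obtain ⟨q, hq⟩ := hf0 _ (hne1 _ _ hne).1
      exact (memI _ _ hq).1
    obtain ⟨M, hM1, hM2⟩ : ∃ M : ℕ, a₁ + lenD X w o₁ true a₁ q₁ < a + M ∧ a - M < a₁ - lenD X w o₁ false a₁ q₁ :=
      ⟨(a - (a₁ - lenD X w o₁ false a₁ q₁)).natAbs + ((a₁ + lenD X w o₁ true a₁ q₁) - a).natAbs + 1,
        by omega, by omega⟩
    have h3 := h1 M
    rw [hIX, Finset.mem_Icc] at h3
    cases e
    · rw [stn_false] at h3; omega
    · rw [stn_true] at h3; omega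
  refine ⟨f, η, IX, JY, hfc, hηc, ?_, ?_, ?_⟩
  · intro a ha
    by_contra hne
    obtain ⟨q, hq⟩ := hf0 a hne
    exact ha (memI _ _ hq).1
  · intro b hb
    by_contra hne
    obtain ⟨q, hq⟩ := hη0 b hne
    exact hb (memJ _ _ hq).2
  · rw [thmA_sum (K := fun a b => η b (f a)) IX JY m1' l1' m2 l2 f2 c0 hmin hK ?_ ?_ ?_ ?_]
    · exact hom'
    · intro a ha b
      by_contra hne
      obtain ⟨q, hq⟩ := hf0 a (hne1 _ _ hne).1
      exact ha (memI _ _ hq).1
    · intro b hb a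
      by_contra hne
      obtain ⟨q, hq⟩ := hη0 b (hne1 _ _ hne).2
      exact hb (memJ _ _ hq).2
    · intro a b hne
      obtain ⟨q, hq⟩ := hf0 a (hne1 _ _ hne).1
      obtain ⟨q', hq'⟩ := hη0 b (hne1 _ _ hne).2
      refine ⟨q, q', hq, hq', fun _ => ?_⟩
      have hval : η b (f a) = ξ q' (g q) := by
        rw [hη, hf, pull_eq hq, push_eq hq']
      rw [hval] at hne
      have hSq := hgξ q (hwq a q hq).1 (hwq a q hq).2
      have hSq' := hgξ q' (hwq' q' b hq').1 (hwq' q' b hq').2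
      have hv : w.v q = w.v q' := chain_vx hSq.1 hSq'.2.1 hne
      have hm : Mt w w (w.r q == w.r q') q q' := ⟨hv, rfl⟩
      refine ⟨_, hm, ?_⟩
      set o'' := (w.r q == w.r q')
      by_contra hcon
      have hx : ∃ x : Bool × ℕ, (∀ i < x.2, w.wdd (x.1 == o'') q' i = w.wdd x.1 q i) ∧
          w.wdd x.1 q x.2 < w.wdd (x.1 == o'') q' x.2 := by
        unfold LeD at hcon
        push Not at hcon
        obtain ⟨e, he⟩ := hcon
        obtain ⟨n, h1, h2⟩ := not_WLe_iff.1 he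
        exact ⟨(e, n), h1, h2⟩
      have hdf : dfn w o'' q q' = hx.choose.2 := by
        unfold dfn
        rw [dif_pos hx]
      obtain ⟨g1, g2⟩ := hx.choose_spec
      set e := hx.choose.1
      set n := hx.choose.2
      have hRn := hRle q (memI _ _ hq).2 q' (memJ _ _ hq').1
      have hn : n + 1 + (q - q₀).natAbs ≤ R ∧ n + 1 + (q' - q₀).natAbs ≤ R := by
        rw [← hdf]
        cases o'' <;> omega
      have absq : w.Abs q := (hwq a q hq).1.abs aw
      have absq' : w.Abs q' := (hwq' q' b hq').1.abs aw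
      have hne2 : ∀ i < n, w.lt e (stn e i q) ≠ 1 := by
        intro i hi hi1
        have h3 := absq e i n hi.le hi1
        have h4 : w.lt (e == o'') (stn (e == o'') i q') = 1 := by
          have := g1 i hi
          rw [Ln.wdd_apply, Ln.wdd_apply] at this
          rw [this, hi1]
        have h5 := absq' (e == o'') i n hi.le h4
        rw [Ln.wdd_apply, Ln.wdd_apply, h3, h5] at g2
        exact lt_irrefl _ g2
      have hag : AgD w w o'' e q q' n := by
        intro i hi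
        exact ⟨(g1 i hi).symm, by rw [Ln.wdd_apply]; exact hne2 i hi⟩
      rw [Ln.wdd_apply, Ln.wdd_apply] at g2
      refine win_not_lt hw hw (K := fun a b => ξ b (g a)) (SX := fun q => w.Reach q₀ q ∧ (q - q₀).natAbs ≤ R)
        (SY := fun q => w.Reach q₀ q ∧ (q - q₀).natAbs ≤ R) ?_ hm hne hag ?_ ?_ g2
      · intro a b ha hb
        exact chain_ar (hgξ a ha.1 ha.2).1 (hgξ b hb.1 hb.2).2.1
      · intro i hi hj
        refine ⟨(hwq a q hq).1.trans (Ln.Reach.of_lt hj), ?_⟩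
        have := hn.1
        cases e <;> simp <;> omega
      · intro i hi hj
        refine ⟨(hwq' q' b hq').1.trans (Ln.Reach.of_lt hj), ?_⟩
        have := hn.2
        cases (e == o'') <;> simp <;> omega
    · rw [hη, hf, pull_eq Cn.refl, push_eq Cn.refl]
      exact (hgξ q₁ (hwq a₁ q₁ Cn.refl).1 (hwq a₁ q₁ Cn.refl).2).2.2

end

end StrAlg
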