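import Pool.Agent.Lib.MP_b9fd58_lc.YDa
import Pool.Agent.Lib.MP_b9fd58_lc.Win
import Pool.Agent.Lib.MP_b9fd58_lc.Tail2

/-!
# Stage 2, job YDb: a family of kernels closed under subtraction of graph maps contains one that vanishes on a finite set
-/

set_option autoImplicit false

namespace StrAlg

open Module

variable {D : Dat} {k : Type} [Field k] {nx : Fin D.nV → Bool → Fin 3 → Fin D.nV × Bool}

/-- the zero set of a periodic kernel is periodic -/
theorem ydb_per {V : Type} [AddCommGroup V] [Module k V] (T : V ≃ₗ[k] V) {K : ℤ → ℤ → V} {lY : ℕ}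
    (hT : ∀ q r, T (K q (r + lY)) = K q r) (q : ℤ) : Per lY (fun r => (K q r = 0)) := by
  intro r
  refine propext ⟨fun h => ?_, fun h => ?_⟩
  · have h' : K q (r + lY) = 0 := h
    change K q r = 0
    rw [← hT, h', map_zero]
  · have h' : K q r = 0 := h
    have := hT q r
    rw [h'] at this
    exact (LinearEquiv.map_eq_zero_iff T).1 this

theorem ydb_per' {V : Type} [AddCommGroup V] [Module k V] (T : V ≃ₗ[k] V) {K : ℤ → ℤ → V} {lY : ℕ}
    (hT : ∀ q r, T (K q (r + lY)) = K q r) {q a b : ℤ} (hab : (a : ZMod lY) = (b : ZMod lY)) (h : K q a = 0) : K q b = 0 := by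
  have := (ydb_per T hT q).of_coe hab
  exact this ▸ h

theorem ydb_coe {lY : ℕ} {b : ℤ} {z : ZMod lY} (h : (lY : ℤ) ∣ b - cst z) : (b : ZMod lY) = z := by
  have h2 := (ZMod.intCast_eq_intCast_iff_dvd_sub (cst z) b lY).2 h
  rw [cst_coe] at h2
  exact h2.symm

/-- a minimal element of a nonempty finite set -/
theorem ydb_min {w Y : Ln (Fin D.nV) nx} {lY : ℕ} (hY : Y.IsPer lY) {P : ℤ → Prop} (hsym : w.Asym P) (hcl : w.Cl P)
    (U : Finset (ℤ × ZMod lY)) (hU : U.Nonempty) (hP : ∀ x ∈ U, P x.1) :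
    ∃ x ∈ U, ∀ y ∈ U, ¬ RB w Y lY y x := by
  let r : {x // x ∈ U} → {x // x ∈ U} → Prop := fun x y => RB w Y lY x.1 y.1
  have : IsTrans {x // x ∈ U} r :=
    ⟨fun x y z h1 h2 => RB.trans hY hsym hcl (hP _ x.2) (hP _ y.2) (hP _ z.2) h1 h2⟩
  have : Std.Irrefl r := ⟨fun x => RB.irrefl hY x.1⟩
  have wf : WellFounded r := Finite.wellFounded_of_trans_of_irrefl r
  obtain ⟨x0, hx0⟩ := hU
  obtain ⟨x, -, hmin⟩ := wf.has_min Set.univ ⟨⟨x0, hx0⟩, trivial⟩
  exact ⟨x.1, x.2, fun y hy h => hmin ⟨y, hy⟩ trivial h⟩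

/-- Abstract form of the density theorem. `KK` is a family of kernels from `w` to the periodic line `Y`; `Φ` is a kernel from `w` to `w` with `1` on the diagonal; `hR`: from `K ∈ KK` one may
subtract the kernel of the graph map through `(q₀, r₀)` with value `K q₀ r₀`, composed with `Φ`.

Proof. `Ω := E ×ˢ C` (finite set of pairs `(q, z)`). Claim: for every `U ⊆ Ω` that is closed upwards for `RB` within `Ω` and every `K ∈ KK` with `K q (cst z) = 0` for `(q, z) ∈ Ω \ U` there is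
`K' ∈ KK` that vanishes on `Ω`. Induction on the number of elements of `U`. `U = ∅`: `K' = K`. Otherwise let `x = (q₀, z₀)` be a minimal element of `U` for `RB` (`RB.irrefl`, `RB.trans` on the finite set `U`,
`Finite.wellFounded_of_trans_of_irrefl` as in `sel` of ThA2.lean), `r₀ := cst z₀`. `U' := U \ {x}` is closed upwards. If `K q₀ r₀ = 0` use the induction hypothesis for `U'`, `K`. Otherwise `Mt w Y o q₀ r₀` for
`o := (w.r q₀ == Y.r r₀)` (`IsKer.vx`), `LeD` (`IsKer.le`), `FinCl` (`IsKer.fin` for both directions); `hR` gives `K'`, `B`. (a) `K' q₀ r₀ = 0`: the sum over `b ∈ B` has only the term `b = r₀`, with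
value `Φ q₀ q₀ • K q₀ r₀`: for `b ≠ r₀` with `lY ∣ b - r₀` and `(q', b)` in the class of `(q₀, r₀)` the value `Φ q₀ q'` is `0`, otherwise `Mt w w o'' q₀ q'`, `LeD w w o'' q₀ q'` (`IsKer0.vx`, `IsKer0.le`), `q₀ ≠ q'`
(`Cn.unique_right`), i.e. `RB x x`, contradiction to `RB.irrefl`. (b) for `y = (q, z) ∈ Ω \ U'`, `y ≠ x`: `y ∉ U`, `K q (cst z) = 0`. If `K' q (cst z) ≠ 0` then some term of the sum at `r = cst z` is nonzero: `b ∈ B`,
`lY ∣ b - cst z` i.e. `(b : ZMod lY) = z`, `(q', b)` in the class of `(q₀, r₀)`, `Φ q q' ≠ 0`. If `q = q'` then `K q b = K q₀ r₀ ≠ 0` (`Cn.ker`), and `K q b = 0` follows from `K q (cst z) = 0` by periodicity (`hT`), contradiction.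
If `q ≠ q'` then `RB x y`, so `y ∈ U` since `U` is closed upwards, contradiction. So the induction hypothesis applies to `U'`, `K'`.
Start with `U = Ω`. Finally `K' q (cst z) = 0` for `z ∉ C` by `hC`, and `K' q r = 0` for all `r` by periodicity. -/
theorem ker_reduce {w Y : Ln (Fin D.nV) nx} {lY : ℕ} (hY : Y.IsPer lY) {P : ℤ → Prop} (hsym : w.Asym P) (hcl : w.Cl P)
    {V : Type} [AddCommGroup V] [Module k V] (T : V ≃ₗ[k] V) (KK : Set (ℤ → ℤ → V))
    (hK : ∀ K ∈ KK, IsKer w Y K) (hP : ∀ K ∈ KK, ∀ q r, K q r ≠ 0 → P q) (hT : ∀ K ∈ KK, ∀ q r, T (K q (r + lY)) = K q r)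
    (C : Finset (ZMod lY)) (hC : ∀ K ∈ KK, ∀ z, z ∉ C → ∀ q, K q (cst z) = 0)
    {Φ : ℤ → ℤ → k} (hΦ : IsKer0 w w Φ) (hΦ1 : ∀ q, P q → Φ q q = 1)
    (hR : ∀ K ∈ KK, ∀ o q₀ r₀, K q₀ r₀ ≠ 0 → Mt w Y o q₀ r₀ → LeD w Y o q₀ r₀ → FinCl w Y o q₀ r₀ →
      ∃ K' ∈ KK, ∃ B : Finset ℤ, (∀ q b, Cn w Y o q₀ r₀ q b → b ∈ B) ∧
        ∀ q r, K q r - K' q r = ∑ b ∈ B, push w Y o q₀ r₀ (fun q' => Φ q q') b •
          (if (lY : ℤ) ∣ b - r then (T ^ ((b - r) / (lY : ℤ))) (K q₀ r₀) else 0))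
    (E : Finset ℤ) (hE : ∀ q ∈ E, P q) (K₀ : ℤ → ℤ → V) (h₀ : K₀ ∈ KK) :
    ∃ K ∈ KK, ∀ q ∈ E, ∀ r, K q r = 0 := by
  classical
  have key : ∀ n : ℕ, ∀ U : Finset (ℤ × ZMod lY), U.card = n → U ⊆ E ×ˢ C →
      (∀ x ∈ U, ∀ y ∈ E ×ˢ C, RB w Y lY x y → y ∈ U) → ∀ K ∈ KK,
      (∀ y ∈ E ×ˢ C, y ∉ U → K y.1 (cst y.2) = 0) → ∃ K' ∈ KK, ∀ y ∈ E ×ˢ C, K' y.1 (cst y.2) = 0 := by
    intro n
    induction n with
    | zero =>
      intro U hUc hUs hUu K hKK hK0
      rw [Finset.card_eq_zero] at hUc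
      subst hUc
      exact ⟨K, hKK, fun y hy => hK0 y hy (by simp)⟩
    | succ n ih =>
      intro U hUc hUs hUu K hKK hK0
      have hUne : U.Nonempty := by
        rw [← Finset.card_pos]; omega
      have hUP : ∀ x ∈ U, P x.1 := fun x hx => hE _ (Finset.mem_product.1 (hUs hx)).1
      obtain ⟨⟨q₀, z₀⟩, hxU, hxmin⟩ := ydb_min hY hsym hcl U hUne hUP
      have hc' : (U.erase (q₀, z₀)).card = n := by
        rw [Finset.card_erase_of_mem hxU, hUc]; rfl
      have hs' : U.erase (q₀, z₀) ⊆ E ×ˢ C := (Finset.erase_subset _ _).trans hUs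
      have hu' : ∀ x ∈ U.erase (q₀, z₀), ∀ y ∈ E ×ˢ C, RB w Y lY x y → y ∈ U.erase (q₀, z₀) := by
        intro x hx y hy hxy
        have hx' := Finset.mem_of_mem_erase hx
        refine Finset.mem_erase.2 ⟨?_, hUu x hx' y hy hxy⟩
        rintro rfl
        exact hxmin x hx' hxy
      by_cases hz : K q₀ (cst z₀) = 0
      · refine ih _ hc' hs' hu' K hKK ?_
        intro y hy hyU
        by_cases hyx : y = (q₀, z₀)
        · subst hyx
          exact hz
        · exact hK0 y hy (fun h => hyU (Finset.mem_erase.2 ⟨hyx, h⟩))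
      · have hker := hK K hKK
        have hm : Mt w Y (w.r q₀ == Y.r (cst z₀)) q₀ (cst z₀) := ⟨hker.vx _ _ hz, rfl⟩
        have hle := hker.le _ _ _ hm hz
        have hfin : FinCl w Y (w.r q₀ == Y.r (cst z₀)) q₀ (cst z₀) := fun e => hker.fin _ e _ _ hm hz
        obtain ⟨K', hK'K, B, hB, hsum⟩ := hR K hKK _ q₀ (cst z₀) hz hm hle hfin
        generalize (w.r q₀ == Y.r (cst z₀)) = o at hm hle hfin hB hsum
        -- a nonzero value of `push` gives a position
        have hpush : ∀ q b, push w Y o q₀ (cst z₀) (fun q' => Φ q q') b ≠ 0 →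
            ∃ q', Cn w Y o q₀ (cst z₀) q' b ∧ Φ q q' ≠ 0 := by
          intro q b hne
          by_cases h : ∃ q', Cn w Y o q₀ (cst z₀) q' b
          · obtain ⟨q', hq'⟩ := h
            rw [push_eq hq'] at hne
            exact ⟨q', hq', hne⟩
          · exact absurd (push_zero h) hne
        have hRB : ∀ q q' b (z : ZMod lY), Cn w Y o q₀ (cst z₀) q' b → Φ q q' ≠ 0 → (b : ZMod lY) = z → q ≠ q' →
            RB w Y lY (q₀, z₀) (q, z) := by
          intro q q' b z hc hne hbz hqq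
          have hm2 : Mt w w (w.r q == w.r q') q q' := ⟨hΦ.vx _ _ hne, rfl⟩
          exact ⟨o, _, q', b, hm, hle, hfin, hc, hbz, hm2, hΦ.le _ _ _ hm2 hne, hqq⟩
        have ha : K' q₀ (cst z₀) = 0 := by
          have h1 := hsum q₀ (cst z₀)
          rw [Finset.sum_eq_single (cst z₀)] at h1
          · rw [push_eq (Cn.refl), hΦ1 q₀ (hP K hKK _ _ hz), sub_self, if_pos (dvd_zero _), Int.zero_ediv, zpow_zero,
              one_smul] at h1
            change K q₀ (cst z₀) - K' q₀ (cst z₀) = K q₀ (cst z₀) at h1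
            exact sub_eq_self.1 h1
          · intro b _ hb
            by_cases hd : (lY : ℤ) ∣ b - cst z₀
            · by_cases hp : push w Y o q₀ (cst z₀) (fun q' => Φ q₀ q') b = 0
              · rw [hp, zero_smul]
              · obtain ⟨q', hc, hne⟩ := hpush _ _ hp
                exfalso
                refine RB.irrefl hY (q₀, z₀) (hRB q₀ q' b z₀ hc hne (ydb_coe hd) ?_)
                rintro rfl
                exact hb (hc.unique_right Cn.refl)
            · rw [if_neg hd, smul_zero]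
          · intro h
            exact absurd (hB _ _ Cn.refl) h
        refine ih _ hc' hs' hu' K' hK'K ?_
        rintro ⟨q, z⟩ hy hyU
        by_cases hyx : ((q, z) : ℤ × ZMod lY) = (q₀, z₀)
        · simp only [Prod.mk.injEq] at hyx
          obtain ⟨rfl, rfl⟩ := hyx
          exact ha
        · have hyU' : ((q, z) : ℤ × ZMod lY) ∉ U := fun h => hyU (Finset.mem_erase.2 ⟨hyx, h⟩)
          have h0 : K q (cst z) = 0 := hK0 _ hy hyU'
          have h1 := hsum q (cst z)
          rw [Finset.sum_eq_zero, h0, zero_sub, neg_eq_zero] at h1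
          · exact h1
          · intro b _
            by_cases hd : (lY : ℤ) ∣ b - cst z
            · by_cases hp : push w Y o q₀ (cst z₀) (fun q' => Φ q q') b = 0
              · rw [hp, zero_smul]
              · obtain ⟨q', hc, hne⟩ := hpush _ _ hp
                exfalso
                by_cases hqq : q = q'
                · subst hqq
                  have h2 : K q b = K q₀ (cst z₀) := Cn.ker hker hc hm
                  have h3 : K q b = 0 := by
                    refine ydb_per' T (hT K hKK) ?_ h0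
                    rw [cst_coe, ydb_coe hd]
                  exact hz (h2.symm.trans h3)
                · exact hyU' (hUu _ hxU _ hy (hRB q q' b z hc hne (ydb_coe hd) hqq))
            · rw [if_neg hd, smul_zero]
  obtain ⟨K, hKK, h⟩ := key _ (E ×ˢ C) rfl (Finset.Subset.refl _) (fun _ _ y hy _ => hy) K₀ h₀ (fun y hy h => absurd hy h)
  refine ⟨K, hKK, fun q hq r => ?_⟩
  have h1 : K q (cst (r : ZMod lY)) = 0 := by
    by_cases hz : (r : ZMod lY) ∈ C
    · exact h (q, (r : ZMod lY)) (Finset.mem_product.2 ⟨hq, hz⟩)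
    · exact hC K hKK _ hz q
  exact ydb_per' T (hT K hKK) (cst_coe _) h1

end StrAlg
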