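import Pool.Agent.Lib.MP_b9fd58_lc.YS
import Pool.Agent.Lib.MP_b9fd58_lc.YDb
import Pool.Agent.Lib.MP_b9fd58_lc.S2Def

/-!
# Stage 2, job YDd: density
-/

set_option autoImplicit false

namespace StrAlg

open Module

variable {D : Dat} {k : Type} [Field k] {S : Sides D}

theorem ydd_vanish (w : Str S) {Y : Blk S k} (B : Finset ℤ) {m : (w.Mloc k).C}
    {σ τ : (w.Mloc k).C →ₗ[k] (w.Mloc k).C} (hτσ : ∀ m, τ (σ m) = m) (hB : ∀ q, q ∉ B → cfL w (σ m) q = 0)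
    (Δ : (w.Mloc k).C →ₗ[k] Y.M.C) (h : ∀ q ∈ B, Δ (τ (zL w q)) = 0) : Δ m = 0 := by
  have h1 := ML_decomp w (σ m) B hB
  have h2 : m = τ (∑ y ∈ B, cfL w (σ m) y • zL w y) := by rw [← h1, hτσ]
  rw [h2, map_sum, map_sum]
  refine Finset.sum_eq_zero (fun q hq => ?_)
  rw [map_smul, map_smul, h q hq, smul_zero]

/-- **Density for blocks.** Every homomorphism from the localised module to a block agrees on a finite set with one that factors through `G`.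

Proof. `exists_s` (YS.lean) for the family `F` (`ι := (w.Mloc k).C`, `s := F`, `m := id`) and the block `Y` (`J := Unit`): `σ, τ, B`. `E := B.filter (· ∈ w.Z)`. `Φ q q' := ξ q' (G (τ (zL w q)))`: `IsKer0 w.L w.L Φ` by `(ker_KHv ..).isKer0 w.ok w.ok` (GSnd.lean; `zL_ch`, `ChAt.map`
for the hom `G ∘ τ`, `Str.Zabs`, `zL_zero`, `hξ0`), `Φ q q = 1` for `q ∈ w.Z` (last clause of `exists_s` with `Θ := G ∘ τ`, `τ (σ m) = m`).
`KK := {K | ∃ H' : N.C →ₗ[k] Y.M.C, N.Hom Y.M H' ∧ K = fun q r => xiE Y.ok r ((H - H' ∘ₗ G) (τ (zL w q)))}`. `IsKer`: clause for `Γ := (H - H' ∘ₗ G) ∘ₗ τ ∘ₗ τ`. `K q r ≠ 0 → q ∈ w.Z` (`zL_zero`). `hT`: `cfE_per`. `C := repZ Y.x Y.l Y.fin` (`repZ_spec`, `cfE_zero`/`xiE_ne`). `T := Y.T`, `lY := Y.l`, `hsym := hw.asym`, `hcl := w.cl`,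
`P := (· ∈ w.Z)`. `hR`: for `K` given by `H'`, `v := K q₀ r₀ ≠ 0`, so `r₀ ∈ Y.x.Z` (`xiE_ne`) and all `b` of the class are in `Y.x.Z` (closed under steps): `η := push w.L Y.x.L o q₀ r₀ ξ` (`push_chain`, `push_zero`), `B'` a finite set containing the class
(`Cn.mem_Icc_right`), `R := dcHom Y.ok η B' v`, `H'' := H' + R`. `K q r - K'' q r = xiE r (R (G (τ (zL w q)))) = ∑ b ∈ B', η b (G (τ (zL w q))) • cfE (ioE b v) r` (`dcHom_apply`), `η b (G (τ (zL w q))) = push w.L Y.x.L o q₀ r₀ (fun q' => Φ q q') b`,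
`cfE_ioE` and `LB.spr_apply` for `b` in the class (for the other `b ∈ B'` the coefficient is `0`).
`ker_reduce` (YDb.lean), `K₀` for `H' = 0`, gives `H'` with `xiE r ((H - H' ∘ G) (τ (zL w q))) = 0` for all `q ∈ E`, all `r`; also for `q ∈ B \ E` (`zL_zero`). So `(H - H' ∘ G) (τ (zL w q)) = 0` for `q ∈ B` (`cfE_inj`), and for `m ∈ F`:
`m = τ (σ m) = ∑ q ∈ B, cfL w (σ m) q • τ (zL w q)` (`ML_decomp`), so `H m = H' (G m)`. -/
theorem density_block (w : Str S) (hw : w.Aper) {N : Md D k} {ξ : ℤ → N.C →ₗ[k] k}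
    (hξ : ∀ q, DcAt N.Q S.ends w.L ξ q) (hξ0 : ∀ q, q ∉ w.Z → ξ q = 0) (G : (w.Mloc k).C →ₗ[k] N.C)
    (hG : (w.Mloc k).Hom N G) (h1 : ∀ q ∈ w.Z, ξ q (G (zL w q)) = 1) (Y : Blk S k) (H : (w.Mloc k).C →ₗ[k] Y.M.C)
    (hH : (w.Mloc k).Hom Y.M H) (F : Finset (w.Mloc k).C) :
    ∃ H' : N.C →ₗ[k] Y.M.C, N.Hom Y.M H' ∧ ∀ m ∈ F, H' (G m) = H m := by
  classical
  obtain ⟨σ, τ, B, hσ, hτ, hστ, hτσ, hB, hker, hdiag⟩ := exists_s w hw F (fun m => m) (fun _ : Unit => Y)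
  -- the kernel `Φ`
  have hΦ : IsKer0 w.L w.L (fun q q' => ξ q' (G (τ (zL w q)))) := by
    refine (ker_KHv (Q := N.Q) (A := S.ends) (X := w.L) (Y := w.L) (z := fun q => G (τ (zL w q))) (ξ := ξ)
      (fun a => ((zL_ch w a).map hτ).map hG) (fun b => DcW_iff.2 (hξ b)) (fun a ha => ?_)
      (fun b hb => ?_)).isKer0 w.ok w.ok
    · by_cases hz : a ∈ w.Z
      · exact w.Zabs a hz
      · exact absurd (by rw [zL_zero w hz, map_zero, map_zero]) ha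
    · by_cases hz : b ∈ w.Z
      · exact w.Zabs b hz
      · exact absurd (hξ0 b hz) hb
  have hΦ1 : ∀ q, q ∈ w.Z → ξ q (G (τ (zL w q))) = 1 := by
    intro q hq
    have h2 := hdiag N ξ hξ hξ0 (G ∘ₗ τ) (IsHom.comp' hτ hG) q hq
    rw [LinearMap.comp_apply, LinearMap.comp_apply, hτσ, h1 q hq] at h2
    exact h2.symm
  -- the family of kernels
  let Kf : (N.C →ₗ[k] Y.M.C) → ℤ → ℤ → (Fin Y.n → k) :=
    fun H' q r => xiE Y.ok r ((H - H' ∘ₗ G) (τ (zL w q)))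
  let KK : Set (ℤ → ℤ → (Fin Y.n → k)) := {K | ∃ H' : N.C →ₗ[k] Y.M.C, N.Hom Y.M H' ∧ K = Kf H'}
  have hK : ∀ K ∈ KK, IsKer w.L Y.x.L K := by
    rintro K ⟨H', hH', rfl⟩
    have hsub : (w.Mloc k).Hom Y.M (H - H' ∘ₗ G) := by
      intro g m
      rw [LinearMap.sub_apply, LinearMap.sub_apply, map_sub, hH g m, IsHom.comp' hG hH' g m]
    have h2 := hker () ((H - H' ∘ₗ G) ∘ₗ τ ∘ₗ τ) (IsHom.comp' (IsHom.comp' hτ hτ) hsub)
    have e : (fun q r => xiE Y.ok r (((H - H' ∘ₗ G) ∘ₗ τ ∘ₗ τ) (σ (zL w q)))) = Kf H' := by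
      funext q r
      show xiE Y.ok r ((H - H' ∘ₗ G) (τ (τ (σ (zL w q))))) = xiE Y.ok r ((H - H' ∘ₗ G) (τ (zL w q)))
      rw [hτσ]
    rw [← e]
    exact h2
  have hP : ∀ K ∈ KK, ∀ q r, K q r ≠ 0 → q ∈ w.Z := by
    rintro K ⟨H', hH', rfl⟩ q r hne
    by_contra hq
    apply hne
    have h0 : (H - H' ∘ₗ G) (τ (zL w q)) = 0 := by rw [zL_zero w hq, map_zero, map_zero]
    exact (congrArg (xiE Y.ok r) h0).trans (map_zero (xiE Y.ok r))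
  have hT : ∀ K ∈ KK, ∀ q r, Y.T (K q (r + Y.l)) = K q r := by
    rintro K ⟨H', hH', rfl⟩ q r
    exact cfE_per Y.ok ((H - H' ∘ₗ G) (τ (zL w q))) r
  have hC : ∀ K ∈ KK, ∀ z : ZMod Y.l, z ∉ repZ Y.x Y.l Y.fin → ∀ q, K q (cst z) = 0 := by
    rintro K ⟨H', hH', rfl⟩ z hz q
    exact cfE_zero Y.ok (m := (H - H' ∘ₗ G) (τ (zL w q))) (repZ_spec Y.x Y.l Y.fin z hz)
  have hR : ∀ K ∈ KK, ∀ o q₀ r₀, K q₀ r₀ ≠ 0 → Mt w.L Y.x.L o q₀ r₀ → LeD w.L Y.x.L o q₀ r₀ →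
      FinCl w.L Y.x.L o q₀ r₀ →
      ∃ K' ∈ KK, ∃ B : Finset ℤ, (∀ q b, Cn w.L Y.x.L o q₀ r₀ q b → b ∈ B) ∧
        ∀ q r, K q r - K' q r = ∑ b ∈ B, push w.L Y.x.L o q₀ r₀ (fun q' => ξ q' (G (τ (zL w q)))) b •
          (if (Y.l : ℤ) ∣ b - r then (Y.T ^ ((b - r) / (Y.l : ℤ))) (K q₀ r₀) else 0) := by
    rintro K ⟨H', hH', rfl⟩ o q₀ r₀ hne hm hle hf
    have hr₀ : r₀ ∈ Y.x.Z := by
      by_contra hcon
      exact hne (cfE_zero Y.ok (m := (H - H' ∘ₗ G) (τ (zL w q₀))) hcon)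
    let v : Fin Y.n → k := Kf H' q₀ r₀
    let η : ℤ → N.C →ₗ[k] k := push w.L Y.x.L o q₀ r₀ ξ
    let B' : Finset ℤ := Finset.Icc (r₀ - (lenD w.L Y.x.L o false q₀ r₀ + lenD w.L Y.x.L o true q₀ r₀))
      (r₀ + (lenD w.L Y.x.L o false q₀ r₀ + lenD w.L Y.x.L o true q₀ r₀))
    have hBm : ∀ q b, Cn w.L Y.x.L o q₀ r₀ q b → b ∈ B' := fun q b h => h.mem_Icc_right hf
    have hη : ∀ b, DcAt N.Q S.ends Y.x.L η b := fun b => push_chain hm hle (fun q b _ => hξ q) b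
    have hηB : ∀ b, b ∉ B' → η b = 0 := fun b hb => push_zero (fun ⟨q, hq⟩ => hb (hBm q b hq))
    let R : N.C →ₗ[k] Y.M.C := dcHom (N := N) Y.ok η B' v
    have hRh : N.Hom Y.M R := dcHom_hom Y.ok hη hηB v
    refine ⟨Kf (H' + R), ⟨H' + R, IsHom.add' hH' hRh, rfl⟩, B', hBm, fun q r => ?_⟩
    have e1 : Kf H' q r - Kf (H' + R) q r = xiE Y.ok r (R (G (τ (zL w q)))) := by
      show xiE Y.ok r ((H - H' ∘ₗ G) (τ (zL w q))) - xiE Y.ok r ((H - (H' + R) ∘ₗ G) (τ (zL w q))) = _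
      rw [← map_sub]
      congr 1
      simp only [LinearMap.sub_apply, LinearMap.comp_apply, LinearMap.add_apply]
      abel
    rw [e1]
    have e2 : R (G (τ (zL w q))) = ∑ b ∈ B', η b (G (τ (zL w q))) • ioE Y.ok b v := dcHom_apply Y.ok η B' v _
    rw [e2, map_sum]
    refine Finset.sum_congr rfl (fun b _ => ?_)
    rw [map_smul]
    by_cases hb : ∃ q', Cn w.L Y.x.L o q₀ r₀ q' b
    · obtain ⟨q', hq'⟩ := hb
      have e3 : η b = ξ q' := push_eq hq'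
      have e4 : push w.L Y.x.L o q₀ r₀ (fun q' => ξ q' (G (τ (zL w q)))) b = ξ q' (G (τ (zL w q))) := push_eq hq'
      have hbZ : b ∈ Y.x.Z := Ln.Reach.trans hr₀ hq'.reach_right
      rw [e3, e4, xiE_apply, cfE_ioE Y.ok hbZ, LB.spr_apply]
      rfl
    · have e3 : η b = 0 := push_zero hb
      have e4 : push w.L Y.x.L o q₀ r₀ (fun q' => ξ q' (G (τ (zL w q)))) b = 0 := push_zero hb
      rw [e3, e4, LinearMap.zero_apply, zero_smul, zero_smul]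
  obtain ⟨K, ⟨H', hH', hKeq⟩, hKE⟩ := ker_reduce Y.ok.per hw.asym w.cl Y.T KK hK hP hT (repZ Y.x Y.l Y.fin) hC
    (Φ := fun q q' => ξ q' (G (τ (zL w q)))) hΦ hΦ1 hR (B.filter (fun q => q ∈ w.Z))
    (fun q hq => (Finset.mem_filter.1 hq).2) (Kf 0) ⟨0, IsHom.zero', rfl⟩
  refine ⟨H', hH', fun m hm => ?_⟩
  have hvan : (H - H' ∘ₗ G) m = 0 := by
    refine ydd_vanish w B (σ := σ) (τ := τ) hτσ (hB m hm) (H - H' ∘ₗ G) (fun q hq => ?_)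
    by_cases hz : q ∈ w.Z
    · apply cfE_inj Y.ok
      funext r
      have h3 := hKE q (Finset.mem_filter.2 ⟨hq, hz⟩) r
      rw [hKeq] at h3
      exact h3.trans (congrFun (map_zero (cfE Y.ok)) r).symm
    · rw [zL_zero w hz, map_zero, map_zero]
  rw [LinearMap.sub_apply, LinearMap.comp_apply, sub_eq_zero] at hvan
  exact hvan.symm

end StrAlg
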