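import Pool.Agent.Lib.MP_b9fd58_lc.If2Defs
import Pool.Agent.Lib.MP_b9fd58_lc.GThA
import Pool.Agent.Lib.MP_b9fd58_lc.YDd

/-!
# Stage 2, S2R: density (the embedding of `M^loc(w)` is pure)
-/

set_option autoImplicit false

namespace StrAlg

open Module

variable {D : Dat} {k : Type} [Field k] {S : Sides D}

/-- **Density.** -/
theorem density (w : Str S) (hw : w.Aper) (N : Md D k) (G₀ : (w.Mloc k).C →ₗ[k] N.C) (hG₀ : (w.Mloc k).Hom N G₀)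
    (ξ : ℤ → N.C →ₗ[k] k) (hξ : ∀ q, DcAt N.Q S.ends w.L ξ q) (hξ0 : ∀ q, q ∉ w.Z → ξ q = 0)
    (h1 : ∀ q ∈ w.Z, ξ q (G₀ (zL w q)) = 1) (Y : Blk S k) (G : (w.Mloc k).C →ₗ[k] Y.M.C)
    (hG : (w.Mloc k).Hom Y.M G) (F : Finset (w.Mloc k).C) :
    ∃ G' : N.C →ₗ[k] Y.M.C, N.Hom Y.M G' ∧ ∀ m ∈ F, G' (G₀ m) = G m :=
  density_block w hw hξ hξ0 G₀ hG₀ h1 Y G hG F

end StrAlg
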