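import Pool.Agent.Lib.MP_b9fd58_lc.S2L
import Pool.Agent.Lib.MP_b9fd58_lc.S2M
import Pool.Agent.Lib.MP_b9fd58_lc.S2P
import Pool.Agent.Lib.MP_b9fd58_lc.S2Q
import Pool.Agent.Lib.MP_b9fd58_lc.S2N
import Pool.Agent.Lib.MP_b9fd58_lc.S2R
import Pool.Agent.Lib.MP_b9fd58_lc.S2S
import Pool.Agent.Lib.MP_b9fd58_lc.S2D
import Pool.Agent.Lib.MP_b9fd58_lc.S2E
import Pool.Agent.Lib.MP_b9fd58_lc.S2F
import Pool.Agent.Lib.MP_b9fd58_lc.S2I
import Pool.Agent.Lib.MP_b9fd58_lc.S2J
import Pool.Agent.Lib.MP_b9fd58_lc.S2K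

/-!
# Stage 2, S2T: the string step (assembly)
-/

set_option autoImplicit false

namespace StrAlg

open Module

variable {D : Dat} {k : Type} [Field k] {S : Sides D}

theorem rk_pure' {p : Pr D k} (hp : p.IsPP) {M N : Md D k} (i : M.C →ₗ[k] N.C) (h : M.PureEmb N i) :
    p.rk N = p.rk M + p.rk (Md.quoR i h.1) := by
  obtain ⟨φ, ψ, h'⟩ := hp
  rw [← Pr.rk_pp (h' N).1 (h' N).2, ← Pr.rk_pp (h' M).1 (h' M).2,
    ← Pr.rk_pp (h' (Md.quoR i h.1)).1 (h' (Md.quoR i h.1)).2]
  exact QMod.rank_pure φ ψ i h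

/-- **The string step.** -/
theorem string_step (hT : ThmT S.op k) (hD' : D.op.IsString)
    (hcl : ∀ B : Md D k, FiniteDimensional k B.C → ∃ (m : ℕ) (X : Fin m → Blk S k), (Md.pi (fun i => (X i).M)).Iso B)
    (w : Str S) (hw : w.Aper) (N : Md D k) (ho : w.Open N.dual.codual) (p₀ : NF S k) (hp₀ : ¬ p₀.Crit w)
    (hfd : p₀.pr.FD) (hfin : p₀.pr.rk N < ⊤) :
    ∃ N'' : Md D k, ∀ p : Pr D k, p.FD → p.IsPP → p.rk N = p.rk (w.Mloc k) + p.rk N'' := by
  classical
  -- the strings of the tails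
  have htail : ∀ e : Bool, ∃ bs : List (Str S), (∀ b ∈ bs, ¬ b.Aper) ∧
      ∀ x, w.L.tailD e = some x → ∃ b ∈ bs, b.Per x.2 ∧ TailAt b w e x.1 := by
    intro e
    cases hx : w.L.tailD e with
    | none => exact ⟨[], by simp, fun x h => by simp at h⟩
    | some x =>
      have hU := Ln.tailD_some hx
      obtain ⟨b, hb, ht⟩ := exists_tailStr w hU (UpT_mem w hU)
      refine ⟨[b], ?_, ?_⟩
      · intro b' hb'
        rw [List.mem_singleton] at hb'
        subst hb'
        intro hA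
        exact hA x.2 hU.pos hb
      · intro y hy
        rw [Option.some_inj] at hy
        subst hy
        exact ⟨b, List.mem_singleton.2 rfl, hb, ht⟩
  choose bs hbs1 hbs2 using htail
  obtain ⟨X', Y, hdec, hnice, hK, hopen⟩ := split_bands hT N (bs true ++ bs false) (by
    intro b hb
    rcases List.mem_append.1 hb with h | h
    · exact hbs1 _ b h
    · exact hbs1 _ b h)
  have hwo : w.Open X'.codual := hopen w hw ho
  -- ranks on X'.codual
  have hrk : ∀ p : Pr D k, p.FD → p.rk N = p.rk Y + p.rk X'.codual := by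
    intro p hp
    rw [← Pr.rk_hat p hp N, Pr.rk_dec p hdec]
  have hfin' : p₀.pr.rk X'.codual < ⊤ := by
    have h1 := hrk p₀.pr hfd
    have h2 : p₀.pr.rk X'.codual ≤ p₀.pr.rk N := by rw [h1]; exact le_add_self
    exact h2.trans_lt hfin
  obtain ⟨n₀, hn₀⟩ := ENat.ne_top_iff_exists.1 hfin'.ne
  -- multiplicity
  obtain ⟨R, hR⟩ := thmA_mult w hw p₀ hp₀
  have hb : ∀ n, DSys w X'.codual (R + 1) n → n ≤ n₀ := by
    intro n hn
    obtain ⟨g, ξ, hg⟩ := hn.windows
    have h1 := hR X'.codual n g ξ hg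
    rw [← hn₀] at h1
    exact_mod_cast h1
  obtain ⟨g, hg, ξ, hξ1, hξ2, hξ3⟩ := exists_full_pair w X'.codual (wNice_codual X') (R + 1) n₀ hb hwo
  -- extension to M^loc
  have hinj : InjT w X' := by
    intro e x hx χ hχ z hz
    have hU := Ln.tailD_some hx
    obtain ⟨b, hb, hbp, hbt⟩ := hbs2 e x hx
    have hmem : b ∈ bs true ++ bs false := by
      cases e
      · exact List.mem_append_right _ hb
      · exact List.mem_append_left _ hb
    exact inj_tail w hU (UpT_mem w hU) b hbp hbt X' (TF_of_K0 b x.2 hU.pos hbp X' hnice (hK b hmem)) χ hχ z hz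
  obtain ⟨G₀, hG₀, hG₀z⟩ := extend_chain w X' hinj g ((mem_Q_iff_Lsp w X' g).1 hg)
  -- purity
  have hpure : (w.Mloc k).PureEmb X'.codual G₀ := by
    apply Md.pure_of_dense hD' G₀ hG₀
    intro B hB G hG F
    obtain ⟨m, X, e, he⟩ := hcl B hB
    have h1 : ∀ i, ∃ G' : X'.codual.C →ₗ[k] (X i).M.C, X'.codual.Hom (X i).M G' ∧
        ∀ x ∈ F, G' (G₀ x) = (e.symm (G x)) i := by
      intro i
      have hGi : (w.Mloc k).Hom (X i).M ((LinearMap.proj i : (∀ i, (X i).M.C) →ₗ[k] (X i).M.C) ∘ₗ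
          e.symm.toLinearMap ∘ₗ G) := by
        intro a x
        have h2 : e (e.symm (B.Q.op a (G x))) = e ((Md.pi (fun i => (X i).M)).Q.op a (e.symm (G x))) := by
          rw [e.apply_symm_apply]
          have h3 := he a (e.symm (G x))
          have h4 : e (e.symm (G x)) = G x := e.apply_symm_apply _
          calc B.Q.op a (G x) = B.Q.op a (e (e.symm (G x))) := by rw [h4]
            _ = _ := h3.symm
        have h5 := e.injective h2
        show (e.symm (G ((w.Mloc k).Q.op a x))) i = (X i).M.Q.op a ((e.symm (G x)) i)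
        rw [hG a x, h5]
        rfl
      obtain ⟨G', h6, h7⟩ := density w hw X'.codual G₀ hG₀ ξ hξ1 hξ2
        (fun q hq => by rw [hG₀z q hq]; exact hξ3 q hq) (X i) _ hGi F
      exact ⟨G', h6, fun x hx => h7 x hx⟩
    choose G' hG'1 hG'2 using h1
    refine ⟨e.toLinearMap ∘ₗ LinearMap.pi G', ?_, ?_⟩
    · intro a x
      show e (fun i => G' i (X'.codual.Q.op a x)) = B.Q.op a (e (fun i => G' i x))
      have h8 := he a (fun i => G' i x)
      have h9 : B.Q.op a (e (fun i => G' i x)) = e ((Md.pi (fun i => (X i).M)).Q.op a (fun i => G' i x)) := h8.symm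
      rw [h9]
      congr 1
      funext i
      exact hG'1 i a x
    · intro x hx
      show e (fun i => G' i (G₀ x)) = G x
      have h10 : (fun i => G' i (G₀ x)) = e.symm (G x) := by
        funext i
        exact hG'2 i x hx
      rw [h10]
      exact e.apply_symm_apply _
  refine ⟨Y.prod (Md.quoR G₀ hpure.1), fun p hp hpp => ?_⟩
  rw [hrk p hp, rk_pure' hpp G₀ hpure, Pr.rk_prod]
  ring

end StrAlg
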