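import Pool.Agent.Lib.MP_b9fd58_lc.UG

/-!
# Stage 2, S2U: ranks on the band modules with coefficients `R[1/π]/R` and its dual
-/

set_option autoImplicit false

namespace StrAlg

open Module Polynomial

variable {D : Dat} {k : Type} [Field k] {S : Sides D}

/-- **Rank formula, type P.** -/
theorem rk_P (p : NF S k) (c : Str S) (l : ℕ) (hl : c.MinPer l) (hs : p.Sep c) (π : k[X]) (hπ : Irreducible π)
    {V : Type} [AddCommGroup V] [Module k V] (T : V ≃ₗ[k] V) (h : c.PerOK l T) (hT : IsPR π T.toLinearMap) :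
    (¬ p.Crit c → p.pr.rk (c.ME l T h) = ⊤) ∧
    (p.Crit c → p.pr.rk (c.ME l T h) = (finrank k (p.UPrim c π) : ℕ)) :=
  ⟨fun hc => rkP_top hl hπ hT h p hc, fun hc => rkP hl hπ hT h p hs hc⟩

/-- **Rank formula, type A.** -/
theorem rk_A (p : NF S k) (c : Str S) (l : ℕ) (hl : c.MinPer l) (hs : p.Sep c) (π : k[X]) (hπ : Irreducible π)
    {V : Type} [AddCommGroup V] [Module k V] (T : V ≃ₗ[k] V) (hT : IsPR π T.toLinearMap) (h : c.PerOK l T.dualMap) :
    (¬ p.Crit c → p.pr.rk (c.ME l T.dualMap h) = ⊤) ∧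
    (p.Crit c → p.pr.rk (c.ME l T.dualMap h) = (finrank k (p.LPrim c π) : ℕ)) :=
  ⟨fun hc => rkA_top hl hπ hT h p hc, fun hc => rkA hl hπ hT h p hs hc⟩

/-- a normal form over `Can` separates the bands of `Can` -/
theorem NF.InCan.sep {Can : Set (Str S)} (hC : CanOK Can) {p : NF S k} (hp : p.InCan Can) {c : Str S} (hc : c ∈ Can)
    (hA : ¬ c.Aper) : p.Sep c := by
  refine ⟨?_, ?_⟩
  · rintro i ⟨r, hr, r', hr', h⟩
    exact (hC.uniq c hc _ (hp.1 i) hA r' hr' r hr ⟨h.1.symm, fun s => (h.2 s).symm⟩).symm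
  · rintro j ⟨r, hr, r', hr', h⟩
    exact (hC.uniq c hc _ (hp.2 j) hA r' hr' r hr ⟨h.1.symm, fun s => (h.2 s).symm⟩).symm

end StrAlg
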