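import Pool.Agent.Lib.MP_b9fd58_lc.S2T
import Pool.Agent.Lib.MP_b9fd58_lc.R2.Rg
import Pool.Agent.Lib.MP_b9fd58_lc.H2B
import Pool.Agent.Lib.MP_b9fd58_lc.FinO
import Pool.Agent.Lib.MP_b9fd58_lc.FinP
import Pool.Agent.Lib.MP_b9fd58_lc.FinC
import Pool.Agent.Lib.MP_b9fd58_lc.S2C

/-!
# Stage 2, S2X: the main theorem on ranks (assembly)
-/

set_option autoImplicit false

namespace StrAlg

open Module Polynomial

variable {D : Dat} {k : Type} [Field k] {S : Sides D}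

/-- a component before the pigeonhole step -/
def CompW (Can : Set (Str S)) (P0 : List (NF S k)) (M : Md D k) : Prop :=
  CompOK Can M ∨ ∃ w : Str S, w.Aper ∧ (∃ p ∈ P0, ¬ p.Crit w) ∧ M = w.Mloc k

/-- **The step.** -/
theorem rk_step (hD : D.IsString) (Can : Set (Str S)) (hC : CanOK Can) (p₀ : NF S k) (hp : p₀.InCan Can) (N : Md D k)
    (h1 : p₀.pr.rk N ≠ 0) (h2 : p₀.pr.rk N ≠ ⊤) :
    ∃ M N' : Md D k, (CompOK Can M ∨ ∃ w : Str S, w.Aper ∧ ¬ p₀.Crit w ∧ M = w.Mloc k) ∧ p₀.pr.rk M ≠ 0 ∧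
      ∀ q : Pr D k, q.FD → q.IsPP → q.rk N = q.rk M + q.rk N' := by
  rcases thmOcore hD Can hC p₀ hp N ((Pr.rk_pos _ _).1 h1) with ⟨w, hw, hcr, hwo⟩ |
    ⟨b, hb, l, hl, V, i1, i2, T, h, hret, hop⟩
  · obtain ⟨N'', hN''⟩ := string_step (thmT_all (op_isString hD)) (op_isString hD) (fun B hB => by
      obtain ⟨m, X, _, hX⟩ := classify hD Can hC B hB
      exact ⟨m, X, hX⟩) w hw N hwo p₀ hcr (wNF_fd p₀) (lt_top_iff_ne_top.2 h2)
    refine ⟨w.Mloc k, N'', Or.inr ⟨w, hw, hcr, rfl⟩, ?_, hN''⟩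
    have h3 := (rk_Mloc w hw p₀ 1).2 ((p₀.rkW_one w).2 ((p₀.not_crit_iff_rel w).1 hcr))
    intro h4
    rw [h4] at h3
    exact absurd h3 (by simp)
  · obtain ⟨N1, hdec⟩ := hret.dec
    have h3 : ∀ q : Pr D k, q.FD → q.rk N = q.rk (b.ME l T h) + q.rk N1 := by
      intro q hq
      rw [← Pr.rk_hat q hq N, Pr.rk_dec q hdec]
    obtain ⟨M, N', hM, hM0, hr⟩ := thmR2 Can hC p₀ hp b hb l hl V T h ((Pr.rk_pos _ _).2 hop) (by
      intro h4
      apply h2
      rw [h3 _ (wNF_fd p₀), h4, top_add])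
    refine ⟨M, N'.prod N1, Or.inl hM, hM0, fun q hq _ => ?_⟩
    rw [h3 q hq, hr q hq, Pr.rk_prod]
    ring

theorem rk_zero_md : ∃ Z : Md D k, ∀ q : Pr D k, q.rk Z = 0 := ⟨s2cZero D k, fun q => s2c_rk_zero q⟩

/-- **Splitting off all the finite ranks.** -/
theorem rk_split (hD : D.IsString) (Can : Set (Str S)) (hC : CanOK Can) (P0 : List (NF S k))
    (h0 : ∀ p ∈ P0, p.InCan Can) (hpp : ∀ p ∈ P0, p.pr.IsPP) (n : ℕ) :
    ∀ N : Md D k, (∀ p ∈ P0, p.pr.rk N ≠ ⊤) → (P0.map fun p => p.pr.rk N).sum ≤ n →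
    ∃ (cs : List (Md D k)) (N' : Md D k), (∀ M ∈ cs, CompW Can P0 M) ∧ (∀ p ∈ P0, p.pr.rk N' = 0) ∧
      ∀ q : Pr D k, q.FD → q.IsPP → q.rk N = (cs.map q.rk).sum + q.rk N' := by
  induction n with
  | zero =>
    intro N hN hs
    refine ⟨[], N, by simp, ?_, fun q _ _ => by simp⟩
    intro p hp
    have h1 : p.pr.rk N ≤ (P0.map fun p => p.pr.rk N).sum :=
      List.single_le_sum (fun _ _ => zero_le) _ (List.mem_map.2 ⟨p, hp, rfl⟩)
    exact le_antisymm (h1.trans (by simpa using hs)) zero_le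
  | succ n ih =>
    intro N hN hs
    by_cases hz : ∀ p ∈ P0, p.pr.rk N = 0
    · exact ⟨[], N, by simp, hz, fun q _ _ => by simp⟩
    · push Not at hz
      obtain ⟨p₀, hp₀, hne⟩ := hz
      obtain ⟨M, N', hM, hM0, hr⟩ := rk_step hD Can hC p₀ (h0 p₀ hp₀) N hne (hN p₀ hp₀)
      have hle : ∀ p ∈ P0, p.pr.rk N' ≤ p.pr.rk N := by
        intro p hp
        rw [hr p.pr (wNF_fd p) (hpp p hp)]
        exact le_add_self
      have hlt : p₀.pr.rk N' + 1 ≤ p₀.pr.rk N := by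
        rw [hr p₀.pr (wNF_fd p₀) (hpp p₀ hp₀), add_comm]
        exact add_le_add (Order.one_le_iff_pos.2 (pos_iff_ne_zero.2 hM0)) le_rfl
      have hsum : (P0.map fun p => p.pr.rk N').sum + 1 ≤ (P0.map fun p => p.pr.rk N).sum := by
        clear hs hN ih hpp h0
        induction P0 with
        | nil => simp at hp₀
        | cons a P0 ih =>
          rw [List.map_cons, List.map_cons, List.sum_cons, List.sum_cons]
          rcases List.mem_cons.1 hp₀ with rfl | h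
          · have h5 : ∀ Q : List (NF S k), (∀ p ∈ Q, p.pr.rk N' ≤ p.pr.rk N) →
                (Q.map fun p => p.pr.rk N').sum ≤ (Q.map fun p => p.pr.rk N).sum := by
              intro Q hQ
              exact List.sum_le_sum hQ
            have h6 := h5 P0 (fun p hp => hle p (List.mem_cons_of_mem _ hp))
            calc p₀.pr.rk N' + (P0.map fun p => p.pr.rk N').sum + 1
                = (p₀.pr.rk N' + 1) + (P0.map fun p => p.pr.rk N').sum := by ring
              _ ≤ _ := add_le_add hlt h6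
          · have h6 := ih h (fun p hp => hle p (List.mem_cons_of_mem _ hp))
            rw [add_assoc]
            exact add_le_add (hle a (List.mem_cons_self ..)) h6
      have hs' : (P0.map fun p => p.pr.rk N').sum ≤ n := by
        have h7 : (P0.map fun p => p.pr.rk N').sum + 1 ≤ (n : ℕ∞) + 1 := by
          refine hsum.trans (hs.trans ?_)
          push_cast
          exact le_rfl
        exact (ENat.add_le_add_iff_right ENat.one_ne_top).1 h7
      obtain ⟨cs, N₂, h8, h9, h10⟩ := ih N' (fun p hp h => hN p hp (top_le_iff.1 (h ▸ hle p hp))) hs'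
      refine ⟨M :: cs, N₂, ?_, h9, fun q hq hqp => ?_⟩
      · intro M' hM'
        rcases List.mem_cons.1 hM' with rfl | h
        · rcases hM with h | ⟨w, hw, hc, he⟩
          · exact Or.inl h
          · exact Or.inr ⟨w, hw, ⟨p₀, hp₀, hc⟩, he⟩
        · exact h8 M' h
      · rw [hr q hq hqp, h10 q hq hqp, List.map_cons, List.sum_cons, add_assoc]

/-- the pigeonhole step for one component -/
theorem comp_fix (Can : Set (Str S)) (P0 P1 : List (NF S k)) (M : Md D k) (hM : CompW Can P0 M)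
    (hf : ∀ p ∈ P0, p.pr.rk M ≠ ⊤) (n : ℕ) :
    ∃ M' : Md D k, CompOK Can M' ∧ (∀ p ∈ P0, p.pr.rk M' = p.pr.rk M) ∧
      ∀ q ∈ P1, q.pr.rk M = ⊤ → (n : ℕ∞) ≤ q.pr.rk M' := by
  rcases hM with hM | ⟨w, hw, ⟨p₀, hp₀, hcr⟩, rfl⟩
  · exact ⟨M, hM, fun _ _ => rfl, fun q _ h => by rw [h]; exact le_top⟩
  · obtain ⟨w', hw', hup, h0, h1⟩ := pigeon_rk w P0 P1 (by
      intro p hp
      obtain ⟨m, hm⟩ := ENat.ne_top_iff_exists.1 (hf p hp)
      refine ⟨m + 1, fun h => ?_⟩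
      have h2 := (rk_Mloc w hw p (m + 1)).2 h
      rw [← hm] at h2
      have h3 : m + 1 ≤ m := by exact_mod_cast h2
      omega) ⟨p₀, hp₀, (p₀.rkW_one w).2 ((p₀.not_crit_iff_rel w).1 hcr)⟩ n
    refine ⟨w'.Mloc k, CompOK.S w' hw' hup, fun p hp => ?_, fun q hq h => ?_⟩
    · refine ENat.eq_of_forall_natCast_le_iff fun m => ?_
      rw [rk_Mloc w' hw' p m, rk_Mloc w hw p m, h0 p hp m]
    · refine (rk_Mloc w' hw' q n).2 (h1 q hq ((rk_Mloc w hw q n).1 ?_))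
      rw [h]
      exact le_top

theorem comps_fix (Can : Set (Str S)) (P0 P1 : List (NF S k)) (n : ℕ) :
    ∀ cs : List (Md D k), (∀ M ∈ cs, CompW Can P0 M) → (∀ M ∈ cs, ∀ p ∈ P0, p.pr.rk M ≠ ⊤) →
    ∃ cs' : List (Md D k), (∀ M ∈ cs', CompOK Can M) ∧
      (∀ p ∈ P0, (cs'.map p.pr.rk).sum = (cs.map p.pr.rk).sum) ∧
      ∀ q ∈ P1, (∃ M ∈ cs, q.pr.rk M = ⊤) → (n : ℕ∞) ≤ (cs'.map q.pr.rk).sum := by
  intro cs
  induction cs with
  | nil => exact fun _ _ => ⟨[], by simp, by simp, by simp⟩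
  | cons M cs ih =>
    intro h1 h2
    obtain ⟨cs', g1, g2, g3⟩ := ih (fun M' h => h1 M' (List.mem_cons_of_mem _ h))
      (fun M' h => h2 M' (List.mem_cons_of_mem _ h))
    obtain ⟨M', g4, g5, g6⟩ := comp_fix Can P0 P1 M (h1 M (List.mem_cons_self ..)) (h2 M (List.mem_cons_self ..)) n
    refine ⟨M' :: cs', ?_, ?_, ?_⟩
    · intro M'' h
      rcases List.mem_cons.1 h with rfl | h
      · exact g4
      · exact g1 _ h
    · intro p hp
      rw [List.map_cons, List.map_cons, List.sum_cons, List.sum_cons, g2 p hp, g5 p hp]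
    · rintro q hq ⟨M'', h, hM''⟩
      rw [List.map_cons, List.sum_cons]
      rcases List.mem_cons.1 h with rfl | h
      · exact (g6 q hq hM'').trans le_self_add
      · exact (g3 q hq ⟨M'', h, hM''⟩).trans le_add_self

/-- **Main theorem on ranks.** -/
theorem main2 (hD : D.IsString) (Can : Set (Str S)) (hC : CanOK Can)
    (hmain : ∀ (q : NF S k) (P : List (NF S k)), q.InCan Can → (∀ p ∈ P, p.InCan Can) → Rlz q P →
      CertF q P ∨ CertS q P ∨ CertP q P ∨ CertA q P)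
    (P0 P1 : List (NF S k)) (h0 : ∀ p ∈ P0, p.InCan Can) (h1 : ∀ q ∈ P1, q.InCan Can) (hpp0 : ∀ p ∈ P0, p.pr.IsPP)
    (hpp1 : ∀ p ∈ P1, p.pr.IsPP) (N : Md D k) (hf : ∀ p ∈ P0, p.pr.rk N ≠ ⊤) (hi : ∀ q ∈ P1, q.pr.rk N = ⊤) (n : ℕ) :
    ∃ cs : List (Md D k), (∀ M ∈ cs, CompOK Can M) ∧ (∀ p ∈ P0, (cs.map p.pr.rk).sum = p.pr.rk N) ∧
      ∀ q ∈ P1, (n : ℕ∞) ≤ (cs.map q.pr.rk).sum ∨ CertF q P0 ∨ CertS q P0 ∨ CertP q P0 ∨ CertA q P0 := by
  classical
  obtain ⟨m, hm⟩ : ∃ m : ℕ, (P0.map fun p => p.pr.rk N).sum ≤ m := by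
    clear h0 hpp0
    induction P0 with
    | nil => exact ⟨0, by simp⟩
    | cons a P0 ih =>
      obtain ⟨m, hm⟩ := ih (fun p hp => hf p (List.mem_cons_of_mem _ hp))
      obtain ⟨m', hm'⟩ := ENat.ne_top_iff_exists.1 (hf a (List.mem_cons_self ..))
      refine ⟨m' + m, ?_⟩
      rw [List.map_cons, List.sum_cons, ← hm']
      push_cast
      exact add_le_add le_rfl hm
  obtain ⟨cs, N', g1, g2, g3⟩ := rk_split hD Can hC P0 h0 hpp0 m N hf hm
  have hfin : ∀ M ∈ cs, ∀ p ∈ P0, p.pr.rk M ≠ ⊤ := by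
    intro M hM p hp h
    apply hf p hp
    rw [g3 p.pr (wNF_fd p) (hpp0 p hp)]
    have h2 : p.pr.rk M ≤ (cs.map p.pr.rk).sum :=
      List.single_le_sum (fun _ _ => zero_le) _ (List.mem_map.2 ⟨M, hM, rfl⟩)
    rw [h, top_le_iff] at h2
    rw [h2, top_add]
  obtain ⟨cs', g4, g5, g6⟩ := comps_fix Can P0 P1 n cs g1 hfin
  refine ⟨cs', g4, fun p hp => ?_, fun q hq => ?_⟩
  · rw [g5 p hp, g3 p.pr (wNF_fd p) (hpp0 p hp), g2 p hp, add_zero]
  · by_cases hN' : q.pr.rk N' = 0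
    · left
      refine g6 q hq ?_
      by_contra hcon
      push Not at hcon
      have h2 := hi q hq
      rw [g3 q.pr (wNF_fd q) (hpp1 q hq), hN', add_zero] at h2
      have h3 : ∀ l : List (Md D k), (∀ M ∈ l, q.pr.rk M ≠ ⊤) → (l.map q.pr.rk).sum ≠ ⊤ := by
        intro l
        induction l with
        | nil => intro _; simp
        | cons a l ih =>
          intro hl
          rw [List.map_cons, List.sum_cons]
          exact WithTop.add_ne_top.2 ⟨hl a (List.mem_cons_self ..), ih (fun M h => hl M (List.mem_cons_of_mem _ h))⟩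
      exact h3 cs hcon h2
    · right
      refine hmain q P0 (h1 q hq) h0 ⟨N', (Pr.rk_pos _ _).1 hN', fun p hp h => ?_⟩
      exact (Pr.rk_pos _ _).2 h (g2 p hp)

end StrAlg
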