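import Pool.Agent.Lib.MP_b9fd58_lc.ThA2
import Pool.Agent.Lib.MP_b9fd58_lc.Loc

/-!
# Periodic tails of type UP, infinite matches
-/

set_option autoImplicit false

namespace StrAlg

section
variable {ι : Type*} {nx : ι → Bool → Fin 3 → ι × Bool}

/-- the tail of `w` in direction `e` is periodic with period `l` from `p₁` on, and the backward letter at `p₁` is bigger
than the periodic one -/
structure Ln.UpT (w : Ln ι nx) (e : Bool) (p₁ : ℤ) (l : ℕ) : Prop where
  pos : 0 < l
  lt : ∀ n : ℕ, w.lt e (stn e ((n + l : ℕ) : ℤ) p₁) = w.lt e (stn e n p₁)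
  ne : ∀ n : ℕ, w.lt e (stn e n p₁) ≠ 1
  v : ∀ n : ℕ, w.v (stn e ((n + l : ℕ) : ℤ) p₁) = w.v (stn e n p₁)
  r : ∀ n : ℕ, w.r (stn e ((n + l : ℕ) : ℤ) p₁) = w.r (stn e n p₁)
  up : w.lt (!e) (stn e l p₁) < w.lt (!e) p₁

theorem beq_cancel {x y z : Bool} (h : (x == y) = (z == y)) : x = z := by
  revert h; cases x <;> cases y <;> cases z <;> simp

/-- infinite match in direction `e` -/
def Inf (X Y : Ln ι nx) (o e : Bool) (a b : ℤ) : Prop := ∀ n, AgD X Y o e a b n

theorem Inf.step_back {X Y : Ln ι nx} {o e : Bool} {a b : ℤ} {j : ℕ} (h : Inf X Y o e a b)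
    (h' : AgD X Y o (!e) a b j) : Inf X Y o e (stn (!e) j a) (stn ((!e) == o) j b) := by
  intro n
  have h1 := h'.rev
  rw [Bool.not_not] at h1
  apply AgD_of_lk
  intro i hi
  rcases lt_or_ge i j with h2 | h2
  · exact h1.lk i h2
  · have h3 := (h (i - j + 1)).lk (i - j) (by omega)
    have e1 : stn e i (stn (!e) j a) = stn e ((i - j : ℕ) : ℤ) a := by cases e <;> simp <;> omega
    have e2 : stn (e == o) i (stn ((!e) == o) j b) = stn (e == o) ((i - j : ℕ) : ℤ) b := by
      rw [beq_not]; cases (e == o) <;> simp <;> omega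
    rwa [e1, e2]

theorem Inf.walk {X Y : Ln ι nx} {o e : Bool} {a b : ℤ} (h : Inf X Y o e a b) (j : ℕ) :
    Inf X Y o e (stn e j a) (stn (e == o) j b) := by
  intro n
  apply AgD_of_lk
  intro i hi
  have h3 := (h (j + i + 1)).lk (j + i) (by omega)
  rw [stn_stn, stn_stn]
  exact_mod_cast h3

theorem Inf.lt {X Y : Ln ι nx} {o e : Bool} {a b : ℤ} (h : Inf X Y o e a b) (n : ℕ) :
    X.lt e (stn e n a) = Y.lt (e == o) (stn (e == o) n b) ∧ X.lt e (stn e n a) ≠ 1 :=
  (h (n + 1)).lk n (by omega)

theorem Inf.mt {X Y : Ln ι nx} {o e : Bool} {a b : ℤ} (h : Inf X Y o e a b) (hm : Mt X Y o a b) (n : ℕ) :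
    Mt X Y o (stn e n a) (stn (e == o) n b) := (h n).walk.1.2 hm

theorem Per.stn {β : Type*} {l : ℕ} {P : ℤ → β} (h : Per l P) (e : Bool) (n : ℤ) (b : ℤ) :
    P (stn e (n + l) b) = P (stn e n b) := by
  cases e
  · have := h (b - (n + l))
    rw [stn_false, stn_false, ← this]; congr 1; ring
  · have := h (b + n)
    rw [stn_true, stn_true, ← this]; congr 1; ring

/-- all letters of a periodic line with an infinite match are different from `END` -/
theorem Inf.ne_one {X Y : Ln ι nx} {o e : Bool} {a b : ℤ} (h : Inf X Y o e a b) {l : ℕ} (hl : 0 < l)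
    (hY : Y.IsPer l) (e' : Bool) (x : ℤ) : Y.lt e' x ≠ 1 := by
  -- first for the direction `e == o`
  have key : ∀ x, Y.lt (e == o) x ≠ 1 := by
    intro x
    set N : ℕ := (x - b).natAbs with hN
    -- a translate of `x` on the half line
    have hx : ∃ n : ℕ, ∃ j : ℤ, x + j * l = stn (e == o) n b := by
      cases (e == o)
      · refine ⟨(b - (x - N * l)).toNat, -N, ?_⟩
        have h1 : (N : ℤ) ≤ N * l := by
          have : (1 : ℤ) ≤ l := by exact_mod_cast hl
          nlinarith
        simp only [stn_false]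
        rw [Int.toNat_of_nonneg (by omega)]
        ring
      · refine ⟨((x + N * l) - b).toNat, N, ?_⟩
        have h1 : (N : ℤ) ≤ N * l := by
          have : (1 : ℤ) ≤ l := by exact_mod_cast hl
          nlinarith
        simp only [stn_true]
        rw [Int.toNat_of_nonneg (by omega)]
        ring
    obtain ⟨n, j, hn⟩ := hx
    have h1 := (hY.lt (e == o)).mul x j
    rw [← h1, hn, ← (h.lt n).1]
    exact (h.lt n).2
  by_cases he : e' = (e == o)
  · rw [he]; exact key x
  · have : e' = !(e == o) := Bool.eq_not.2 he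
    subst this
    have h2 := Y.lt_back' (!(e == o)) x
    rw [Bool.not_not] at h2
    have h3 := key (st (!(e == o)) x)
    intro h4
    have h5 := Y.lt_back' (e == o) x
    rw [h4] at h5
    exact h3 (by rw [h5]; rfl)

/-- an infinite match in the right order with a periodic line gives a tail of type UP -/
theorem exists_UpT {w Y : Ln ι nx} {P : ℤ → Prop} (hsym : w.Asym P) (hcl : w.Cl P) {l : ℕ} (hl : 0 < l)
    (hY : Y.IsPer l) {o e : Bool} {q b : ℤ} (hP : P q) (hm : Mt w Y o q b) (hle : LeD w Y o q b) (h : Inf w Y o e q b) : ∃ p₁, w.UpT e p₁ l ∧ Bey e p₁ q := by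
  classical
  -- the match backwards is finite
  have hfin : ∃ j, ¬ AgD w Y o (!e) q b j := by
    by_contra hcon
    push Not at hcon
    have hcon' : Inf w Y o (!e) q b := hcon
    have h1 : q = stn e l q := by
      refine hsym true q (stn e l q) hP (hcl.walk' hP (h l)) ?_ ?_
      · have m1 := h.mt hm l
        refine ⟨?_, ?_⟩
        · rw [hm.1, m1.1]
          have := hY.v.stn (e == o) 0 b
          simp only [zero_add, stn_zero] at this
          exact this.symm
        · have m2 := m1.2
          have m3 := hm.2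
          have := hY.r.stn (e == o) 0 b
          simp only [zero_add, stn_zero] at this
          rw [this, ← m3] at m2
          rw [beq_cancel m2]
          simp
      · intro e'
        have e0 : (e' == true) = e' := by cases e' <;> rfl
        rw [e0]
        funext n
        rw [Ln.wdd_apply, Ln.wdd_apply]
        by_cases he : e' = e
        · subst he
          rw [stn_stn, (h.lt n).1]
          have := (h.lt (l + n)).1
          push_cast at this
          rw [this]
          have := (hY.lt (e' == o)).stn (e' == o) n b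
          rw [← this]; congr 2; ring
        · have : e' = !e := by cases e <;> cases e' <;> simp_all
          subst this
          rcases lt_or_ge n l with hn | hn
          · -- the letter is read between `q` and `q + l`
            have g1 := (h.lt (l - n - 1)).1
            have f1 : stn (!e) n (stn e l q) = st e (stn e ((l - n - 1 : ℕ) : ℤ) q) := by
              cases e <;> simp <;> omega
            rw [f1, Ln.lt_back, g1, (hcon'.lt n).1]
            have f2 : stn ((!e) == o) n b = st (e == o) (stn (e == o) (((l - n - 1 : ℕ) : ℤ) - l) b) := by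
              rw [beq_not]; cases (e == o) <;> simp <;> omega
            rw [f2, beq_not, Ln.lt_back]
            have := (hY.lt (e == o)).stn (e == o) (((l - n - 1 : ℕ) : ℤ) - l) b
            rw [← this]; congr 3; ring
          · have f1 : stn (!e) n (stn e l q) = stn (!e) ((n - l : ℕ) : ℤ) q := by
              cases e <;> simp <;> omega
            rw [f1, (hcon'.lt n).1, (hcon'.lt (n - l)).1]
            have := (hY.lt ((!e) == o)).stn ((!e) == o) ((n - l : ℕ) : ℤ) b
            rw [← this]; congr 2; push_cast; omega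
    have : (l : ℤ) = 0 := by cases e <;> simp at h1 <;> omega
    omega
  obtain ⟨j1, j2⟩ := lenD_spec hfin
  set j := lenD w Y o (!e) q b with hj
  set p₁ := stn (!e) (j : ℤ) q with hp₁
  set b₁ := stn ((!e) == o) (j : ℤ) b with hb₁
  have hinf : Inf w Y o e p₁ b₁ := h.step_back j1
  have hm₁ : Mt w Y o p₁ b₁ := j1.walk.1.2 hm
  have hle₁ : LeD w Y o p₁ b₁ := j1.walk.2.2 hle
  have hnl : ¬ Lk w Y o (!e) p₁ b₁ := fun h' => j2 (AgD_succ'.2 ⟨j1, h'⟩)
  have hY1 : Y.lt ((!e) == o) b₁ ≠ 1 := h.ne_one hl hY _ _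
  have hlt : Y.lt ((!e) == o) b₁ < w.lt (!e) p₁ := by
    have h1 := (hle₁ (!e)).head_le
    rw [Ln.wdd_zero, Ln.wdd_zero] at h1
    refine lt_of_le_of_ne h1 ?_
    intro h2
    exact hnl ⟨h2.symm, h2 ▸ hY1⟩
  refine ⟨p₁, ⟨hl, ?_, ?_, ?_, ?_, ?_⟩, ?_⟩
  · intro n
    rw [(hinf.lt n).1, (hinf.lt (n + l)).1]
    push_cast
    exact (hY.lt (e == o)).stn _ _ _
  · intro n
    exact (hinf.lt n).2
  · intro n
    rw [(hinf.mt hm₁ n).1, (hinf.mt hm₁ (n + l)).1]
    push_cast
    exact hY.v.stn _ _ _
  · intro n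
    have m1 := (hinf.mt hm₁ n).2
    have m2 := (hinf.mt hm₁ (n + l)).2
    push_cast at m2
    rw [hY.r.stn] at m2
    push_cast
    exact beq_cancel (m2.trans m1.symm)
  · have g1 := (hinf.lt (l - 1)).1
    have f1 : stn e (l : ℤ) p₁ = st e (stn e ((l - 1 : ℕ) : ℤ) p₁) := by
      cases e <;> simp <;> omega
    rw [f1, Ln.lt_back, g1, ← Ln.lt_back, ← beq_not]
    have f2 : st (e == o) (stn (e == o) ((l - 1 : ℕ) : ℤ) b₁) = stn (e == o) (0 + (l : ℤ)) b₁ := by
      cases (e == o) <;> simp <;> omega
    rw [f2, (hY.lt _).stn, stn_zero]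
    exact hlt
  · rw [hp₁]; cases e <;> simp

end

end StrAlg
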