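import Pool.Agent.Lib.MP_b9fd58_lc.Om

/-!
# Theorem A, combinatorial part
-/

set_option autoImplicit false

namespace StrAlg

section walk
variable {ι : Type*} {nx : ι → Bool → Fin 3 → ι × Bool}

/-- the line ends on both sides -/
def Ln.Fn (X : Ln ι nx) : Prop := ∃ m M : ℤ, (∀ p, M ≤ p → X.lam p = 1) ∧ (∀ p, p < m → X.lam p = 1)

theorem Ln.Fn.lt_one {X : Ln ι nx} (h : X.Fn) (e : Bool) (a : ℤ) : ∃ n : ℕ, X.lt e (stn e n a) = 1 := by
  obtain ⟨m, M, h1, h2⟩ := h
  cases e with
  | true =>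
    refine ⟨(M - a).toNat, ?_⟩
    simp only [Ln.lt, if_true]
    apply h1
    simp only [stn_true]
    omega
  | false =>
    refine ⟨(a - m).toNat + 1, ?_⟩
    simp only [Ln.lt, Bool.false_eq_true, if_false]
    rw [h2]
    · rfl
    · simp only [stn_false]; omega

theorem Ln.Fn.fin_left {X Y : Ln ι nx} (h : X.Fn) (o : Bool) (a b : ℤ) : FinCl X Y o a b := by
  intro e
  obtain ⟨n, hn⟩ := h.lt_one e a
  exact ⟨n + 1, fun h' => ((AgD_succ'.1 h').2).2 hn⟩

theorem Ln.Fn.fin_right {X Y : Ln ι nx} (h : Y.Fn) (o : Bool) (a b : ℤ) : FinCl X Y o a b := by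
  intro e
  obtain ⟨n, hn⟩ := h.lt_one (e == o) b
  refine ⟨n + 1, fun h' => ?_⟩
  have := (AgD_succ'.1 h').2
  exact this.2 (this.1.trans hn)

/-- composition of walks -/
theorem walk_comp {X Y : Ln ι nx} {o e e' : Bool} {a b : ℤ} {n n' : ℕ} (h : AgD X Y o e a b n)
    (h' : AgD X Y o e' (stn e n a) (stn (e == o) n b) n') :
    ∃ e'' n'', AgD X Y o e'' a b n'' ∧ stn e'' n'' a = stn e' n' (stn e n a) ∧
      stn (e'' == o) n'' b = stn (e' == o) n' (stn (e == o) n b) := by
  by_cases he : e' = e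
  · subst he
    refine ⟨e', n + n', ?_, ?_, ?_⟩
    · apply AgD_of_lk
      intro i hi
      rcases lt_or_ge i n with h1 | h1
      · exact h.lk i h1
      · have := h'.lk (i - n) (by omega)
        rw [stn_stn, stn_stn] at this
        rwa [show (n : ℤ) + ((i - n : ℕ) : ℤ) = (i : ℤ) by omega] at this
    · rw [stn_stn]; push_cast; rfl
    · rw [stn_stn]; push_cast; rfl
  · have : e' = !e := by cases e <;> cases e' <;> simp_all
    subst this
    rcases le_or_gt n' n with h1 | h1
    · refine ⟨e, n - n', h.mono (by omega), ?_, ?_⟩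
      · cases e <;> simp <;> omega
      · rw [beq_not]
        cases (e == o) <;> simp <;> omega
    · refine ⟨!e, n' - n, ?_, ?_, ?_⟩
      · apply AgD_of_lk
        intro i hi
        have := h'.lk (n + i) (by omega)
        rw [beq_not] at this ⊢
        have e1 : stn (!e) ((n + i : ℕ) : ℤ) (stn e n a) = stn (!e) i a := by
          cases e <;> simp <;> ring
        have e2 : stn (!(e == o)) ((n + i : ℕ) : ℤ) (stn (e == o) n b) = stn (!(e == o)) i b := by
          cases (e == o) <;> simp <;> ring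
        rwa [e1, e2] at this
      · cases e <;> simp <;> omega
      · rw [beq_not]
        cases (e == o) <;> simp <;> omega

/-- two pairs of positions are in the same class -/
def Cn (X Y : Ln ι nx) (o : Bool) (a b a' b' : ℤ) : Prop :=
  ∃ e n, AgD X Y o e a b n ∧ a' = stn e (n : ℕ) a ∧ b' = stn (e == o) (n : ℕ) b

theorem Cn.refl {X Y : Ln ι nx} {o : Bool} {a b : ℤ} : Cn X Y o a b a b :=
  ⟨true, 0, AgD.zero, by simp, by simp⟩

theorem Cn.trans {X Y : Ln ι nx} {o : Bool} {a b a' b' a'' b'' : ℤ} (h : Cn X Y o a b a' b')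
    (h' : Cn X Y o a' b' a'' b'') : Cn X Y o a b a'' b'' := by
  obtain ⟨e, n, h1, rfl, rfl⟩ := h
  obtain ⟨e', n', h2, rfl, rfl⟩ := h'
  obtain ⟨e'', n'', h3, h4, h5⟩ := walk_comp h1 h2
  exact ⟨e'', n'', h3, h4.symm, h5.symm⟩

theorem AgD.rev {X Y : Ln ι nx} {o e : Bool} {a b : ℤ} {n : ℕ} (h : AgD X Y o e a b n) :
    AgD X Y o (!e) (stn e n a) (stn (e == o) n b) n := by
  apply AgD_of_lk
  intro i hi
  have h1 := (h.lk (n - i - 1) (by omega)).back
  rw [beq_not]
  have e1 : st e (stn e ((n - i - 1 : ℕ) : ℤ) a) = stn (!e) i (stn e n a) := by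
    cases e <;> simp <;> omega
  have e2 : st (e == o) (stn (e == o) ((n - i - 1 : ℕ) : ℤ) b) = stn (!(e == o)) i (stn (e == o) n b) := by
    cases (e == o) <;> simp <;> omega
  rwa [e1, e2] at h1

theorem Cn.symm {X Y : Ln ι nx} {o : Bool} {a b a' b' : ℤ} (h : Cn X Y o a b a' b') :
    Cn X Y o a' b' a b := by
  obtain ⟨e, n, h1, rfl, rfl⟩ := h
  refine ⟨!e, n, h1.rev, ?_, ?_⟩
  · cases e <;> simp
  · rw [beq_not]; cases (e == o) <;> simp

theorem Cn.mt {X Y : Ln ι nx} {o : Bool} {a b a' b' : ℤ} (h : Cn X Y o a b a' b') :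
    Mt X Y o a' b' ↔ Mt X Y o a b := by
  obtain ⟨e, n, h1, rfl, rfl⟩ := h
  exact h1.walk.1

theorem Cn.le {X Y : Ln ι nx} {o : Bool} {a b a' b' : ℤ} (h : Cn X Y o a b a' b') :
    LeD X Y o a' b' ↔ LeD X Y o a b := by
  obtain ⟨e, n, h1, rfl, rfl⟩ := h
  exact h1.walk.2

theorem Cn.fin {X Y : Ln ι nx} {o : Bool} {a b a' b' : ℤ} (h : Cn X Y o a b a' b') :
    FinCl X Y o a' b' ↔ FinCl X Y o a b := by
  obtain ⟨e, n, h1, rfl, rfl⟩ := h
  exact FinCl.walk h1

end walk

section pair
variable {ι : Type*} {nx : ι → Bool → Fin 3 → ι × Bool} {k : Type*} [Field k]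

theorem Cn.om {VX VY : Type*} [AddCommGroup VX] [Module k VX] [AddCommGroup VY] [Module k VY]
    {X Y : Ln ι nx} {c : ℤ → VX} {c' : ℤ → VY →ₗ[k] k} {κ : VX →ₗ[k] VY} {o : Bool} {a b a' b' : ℤ}
    (h : Cn X Y o a b a' b') (hf : FinCl X Y o a b) :
    Om X Y c c' κ o a' b' = Om X Y c c' κ o a b := by
  obtain ⟨e, n, h1, rfl, rfl⟩ := h
  exact Om_walk h1 hf

theorem Cn.ker {E : Type*} [Zero E] {X Y : Ln ι nx} {K : ℤ → ℤ → E} (hK : IsKer X Y K)
    {o : Bool} {a b a' b' : ℤ} (h : Cn X Y o a b a' b') (hm : Mt X Y o a b) : K a' b' = K a b := by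
  obtain ⟨e, n, h1, rfl, rfl⟩ := h
  exact hK.walk hm h1

/-- scalar version of `Ω` -/
noncomputable def OmS (X Y : Ln ι nx) (c γ : ℤ → k) (o : Bool) (a b : ℤ) : k :=
  Om (k := k) X Y c (fun b => γ b • (LinearMap.id : k →ₗ[k] k)) (LinearMap.id : k →ₗ[k] k) o a b

/-- the shift on `(o, a, b)` -/
def Sh2 : Bool × (ℤ × ℤ) ≃ Bool × (ℤ × ℤ) where
  toFun x := (x.1, (x.2.1 + 1, st x.1 x.2.2))
  invFun x := (x.1, (x.2.1 - 1, st (!x.1) x.2.2))
  left_inv := by rintro ⟨o, a, b⟩; cases o <;> simp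
  right_inv := by rintro ⟨o, a, b⟩; cases o <;> simp

theorem Sh2_iter (o : Bool) (a b : ℤ) (n : ℕ) : Sh2^[n] (o, (a, b)) = (o, (stn true n a, stn o n b)) := by
  induction n with
  | zero => simp
  | succ n ih =>
    rw [Function.iterate_succ_apply', ih]
    simp only [Sh2, Equiv.coe_fn_mk]
    cases o <;> simp <;> (try constructor) <;> ring

theorem Sh2_symm_iter (o : Bool) (a b : ℤ) (n : ℕ) :
    Sh2.symm^[n] (o, (a, b)) = (o, (stn false n a, stn (!o) n b)) := by
  induction n with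
  | zero => simp
  | succ n ih =>
    rw [Function.iterate_succ_apply', ih]
    simp only [Sh2, Equiv.coe_fn_symm_mk]
    cases o <;> simp <;> (try constructor) <;> ring

/-- If `Ω` vanishes at all classes with nonzero kernel value except the one of `(a₀, b₀)`, then the sum is the
contribution of this class. -/
theorem pair_one {X Y : Ln ι nx} {K : ℤ → ℤ → k} (hK : IsKer X Y K) {c γ : ℤ → k} (A B : Finset ℤ)
    (hA : ∀ a, a ∉ A → ∀ b, K a b = 0) (hB : ∀ b, b ∉ B → ∀ a, K a b = 0)
    {o₀ : Bool} {a₀ b₀ : ℤ} (m₀ : Mt X Y o₀ a₀ b₀) (f₀ : FinCl X Y o₀ a₀ b₀)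
    (h : ∀ o a b, Mt X Y o a b → K a b ≠ 0 → ¬ (o = o₀ ∧ Cn X Y o₀ a₀ b₀ a b) → OmS X Y c γ o a b = 0) :
    ∑ a ∈ A, ∑ b ∈ B, γ b * (c a) * K a b = K a₀ b₀ * OmS X Y c γ o₀ a₀ b₀ := by
  classical
  set t : Bool × (ℤ × ℤ) → k := fun x => if Mt X Y x.1 x.2.1 x.2.2 then γ x.2.2 * (c x.2.1) * K x.2.1 x.2.2 else 0
    with ht
  set link : Bool × (ℤ × ℤ) → Prop := fun x => Lk X Y x.1 true x.2.1 x.2.2 with hlink
  have bto : ∀ o : Bool, (true == o) = o := by intro o; cases o <;> rfl
  have bfo : ∀ o : Bool, (false == o) = !o := by intro o; cases o <;> rfl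
  have hne : ∀ o a b, t (o, (a, b)) ≠ 0 → Mt X Y o a b ∧ K a b ≠ 0 := by
    intro o a b h
    simp only [ht] at h
    split_ifs at h with hm
    · exact ⟨hm, fun h' => h (by rw [h', mul_zero])⟩
    · exact absurd rfl h
  -- left end of the class of `(a₀, b₀)`
  obtain ⟨l1, l2⟩ := lenD_spec (f₀ false)
  obtain ⟨r1, r2⟩ := lenD_spec (f₀ true)
  set m := lenD X Y o₀ false a₀ b₀
  set n := lenD X Y o₀ true a₀ b₀
  set a₁ := stn false (m : ℤ) a₀ with ha₁
  set b₁ := stn (!o₀) (m : ℤ) b₀ with hb₁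
  have hc1 : Cn X Y o₀ a₀ b₀ a₁ b₁ := ⟨false, m, l1, rfl, by rw [bfo]⟩
  have hleft : ¬ Lk X Y o₀ false a₁ b₁ := by
    intro h'
    apply l2
    rw [AgD_succ']
    refine ⟨l1, ?_⟩
    rw [bfo]
    exact h'
  have hright : AgD X Y o₀ true a₁ b₁ (m + n) ∧ ¬ AgD X Y o₀ true a₁ b₁ (m + n + 1) := by
    have g1 := l1.rev
    rw [Bool.not_false, bfo, ← ha₁, ← hb₁] at g1
    have hb : ∀ i : ℕ, (stn o₀ ((m + i : ℕ) : ℤ) b₁) = stn o₀ i b₀ := by
      intro i
      rw [hb₁]
      cases o₀ <;> simp <;> ring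
    have ha : ∀ i : ℕ, (stn true ((m + i : ℕ) : ℤ) a₁) = stn true i a₀ := by
      intro i
      rw [ha₁]
      simp; ring
    constructor
    · apply AgD_of_lk
      intro i hi
      rcases lt_or_ge i m with h1 | h1
      · exact g1.lk i h1
      · have h2 := r1.lk (i - m) (by omega)
        rw [bto] at h2 ⊢
        rw [← ha, ← hb] at h2
        rwa [show m + (i - m) = i by omega] at h2
    · intro h'
      apply r2
      apply AgD_of_lk
      intro i hi
      have h2 := h'.lk (m + i) (by omega)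
      rw [bto] at h2 ⊢
      rwa [ha, hb] at h2
  have m₁ : Mt X Y o₀ a₁ b₁ := hc1.mt.2 m₀
  -- the sum over a class starting at a left end
  have hclass : ∀ o a b (N : ℕ), Mt X Y o a b → ¬ Lk X Y o false a b → AgD X Y o true a b N →
      ¬ AgD X Y o true a b (N + 1) →
      ∑ i ∈ Finset.range (N + 1), t (Sh2^[i] (o, (a, b))) = K a b * OmS X Y c γ o a b := by
    intro o a b N hm h1 h2 h3
    unfold OmS
    rw [Om_end (e := true) (by simpa using h1) h2 h3, Finset.mul_sum]
    refine Finset.sum_congr rfl ?_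
    intro i hi
    rw [Finset.mem_range] at hi
    rw [Sh2_iter]
    have h4 := (h2.mono (by omega : i ≤ N)).walk.1.2 hm
    have h5 := hK.walk hm (h2.mono (by omega : i ≤ N))
    rw [bto] at h4 h5
    simp only [ht]
    rw [if_pos h4, h5, bto]
    simp only [LinearMap.smul_apply, LinearMap.id_apply, smul_eq_mul]
    ring
  have main : ∑ x ∈ (Finset.univ : Finset Bool) ×ˢ (A ×ˢ B), t x = K a₀ b₀ * OmS X Y c γ o₀ a₀ b₀ := by
    have hKc : K a₁ b₁ = K a₀ b₀ := hc1.ker hK m₀
    have hOc : OmS X Y c γ o₀ a₁ b₁ = OmS X Y c γ o₀ a₀ b₀ := hc1.om f₀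
    rw [← hKc, ← hOc, ← hclass o₀ a₁ b₁ (m + n) m₁ hleft hright.1 hright.2]
    refine regroup_one Sh2 link t _ ?_ ?_ ?_ (o₀, (a₁, b₁)) (m + n) ?_ ?_ ?_ ?_
    · rintro ⟨o, a, b⟩ hx
      simp only [Finset.mem_product, Finset.mem_univ, true_and, not_and_or] at hx
      simp only [ht]
      split_ifs
      · rcases hx with hx | hx
        · rw [hA a hx, mul_zero]
        · rw [hB b hx, mul_zero]
      · rfl
    · rintro ⟨o, a, b⟩ hx
      obtain ⟨h1, h2⟩ := hne _ _ _ hx
      obtain ⟨N, hN⟩ := hK.fin _ false _ _ h1 h2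
      by_contra hcon
      push Not at hcon
      apply hN
      apply AgD_of_lk
      intro i _
      have h5 := hcon i
      rw [Sh2_symm_iter] at h5
      have h6 := Lk.back (e := true) h5
      rw [Bool.not_true, bto] at h6
      rw [bfo]
      have e1 : st true (stn false ((i + 1 : ℕ) : ℤ) a) = stn false i a := by
        simp; ring
      have e2 : st o (stn (!o) ((i + 1 : ℕ) : ℤ) b) = stn (!o) i b := by
        cases o <;> simp <;> ring
      simp only at h6
      rwa [e1, e2] at h6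
    · rintro ⟨o, a, b⟩ hx
      obtain ⟨h1, h2⟩ := hne _ _ _ hx
      obtain ⟨N, hN⟩ := hK.fin _ true _ _ h1 h2
      by_contra hcon
      push Not at hcon
      apply hN
      apply AgD_of_lk
      intro i _
      have h5 := hcon i
      rw [Sh2_iter] at h5
      rw [bto]
      exact h5
    · have := Sh2_symm_iter o₀ a₁ b₁ 1
      simp only [Function.iterate_one] at this
      rw [this]
      intro h'
      apply hleft
      have h6 := Lk.back (e := true) h'
      rw [Bool.not_true, bto] at h6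
      have e1 : st true (stn false ((1 : ℕ) : ℤ) a₁) = a₁ := by simp
      have e2 : st o₀ (stn (!o₀) ((1 : ℕ) : ℤ) b₁) = b₁ := by cases o₀ <;> simp
      simp only at h6
      rwa [e1, e2] at h6
    · rw [Sh2_iter]
      intro h'
      apply hright.2
      rw [AgD_succ', bto]
      exact ⟨hright.1, h'⟩
    · intro i hi
      rw [Sh2_iter]
      have := hright.1.lk i hi
      rwa [bto] at this
    · rintro ⟨o, a, b⟩ N hne' h1 h2 h3 ⟨i, hi, hti⟩
      rw [Sh2_iter] at h2 hti
      have hag : AgD X Y o true a b N := by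
        apply AgD_of_lk
        intro i hi
        have := h3 i hi
        rw [Sh2_iter] at this
        rwa [bto]
      have hnag : ¬ AgD X Y o true a b (N + 1) := by
        intro h'
        apply h2
        have := (AgD_succ'.1 h').2
        rwa [bto] at this
      have hl : ¬ Lk X Y o false a b := by
        intro h'
        apply h1
        have := Sh2_symm_iter o a b 1
        simp only [Function.iterate_one] at this
        rw [this]
        have h6 := h'.back
        rw [Bool.not_false, bfo] at h6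
        have e1 : st false a = stn false ((1 : ℕ) : ℤ) a := by simp
        have e2 : st (!o) b = stn (!o) ((1 : ℕ) : ℤ) b := by cases o <;> simp
        rw [e1, e2] at h6
        exact h6
      obtain ⟨g1, g2⟩ := hne _ _ _ hti
      have w1 := (hag.mono hi).walk.1
      rw [bto] at w1
      have hm : Mt X Y o a b := w1.1 g1
      have w3 := hK.walk hm (hag.mono hi)
      rw [bto] at w3
      rw [w3] at g2
      rw [hclass o a b N hm hl hag hnag]
      rw [h o a b hm g2, mul_zero]
      rintro ⟨rfl, hcn⟩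
      apply hne'
      -- `(a, b)` and `(a₁, b₁)` are left ends of the same class
      have hcn' : Cn X Y o a₁ b₁ a b := hc1.symm.trans hcn
      obtain ⟨e, j, q1, q2, q3⟩ := hcn'
      cases e with
      | false =>
        rcases Nat.eq_zero_or_pos j with hj | hj
        · subst hj; simp at q2 q3; rw [q2, q3]
        · exact absurd (AgD_succ.1 (q1.mono (show 0 + 1 ≤ j by omega))).1 hleft
      | true =>
        rcases Nat.eq_zero_or_pos j with hj | hj
        · subst hj; simp at q2 q3; rw [q2, q3]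
        · exfalso
          apply hl
          have := q1.rev
          rw [← q2, ← q3] at this
          exact (AgD_succ.1 (this.mono (show 0 + 1 ≤ j by omega))).1
  rw [Finset.sum_product] at main
  rw [← main, Finset.sum_comm' (t' := (A ×ˢ B)) (s' := fun _ => Finset.univ) (by simp)]
  rw [Finset.sum_product]
  refine Finset.sum_congr rfl ?_
  intro a _
  refine Finset.sum_congr rfl ?_
  intro b _
  have key : ∀ o : Bool, t (o, (a, b)) = if o = (X.r a == Y.r b) then γ b * (c a) * K a b else 0 := by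
    intro o
    simp only [ht]
    by_cases h0 : K a b = 0
    · simp [h0]
    · have v1 := hK.vx _ _ h0
      unfold Mt
      congr 1
      simp only [v1, true_and, eq_iff_iff]
      exact ⟨fun h => h.symm, fun h => h.symm⟩
  simp only [key]
  rw [Finset.sum_ite_eq' Finset.univ, if_pos (Finset.mem_univ _)]

end pair

end StrAlg
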