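import Pool.Agent.Lib.MP_b9fd58_lc.ThA

/-!
# Theorem A: choice of a minimal graph map
-/

set_option autoImplicit false

namespace StrAlg

section sel
variable {ι : Type*} {nx : ι → Bool → Fin 3 → ι × Bool} {k : Type*} [Field k]

/-- different positions in `P` have different word pairs: the line is not bi-periodic -/
def Ln.Asym (w : Ln ι nx) (P : ℤ → Prop) : Prop :=
  ∀ o q q', P q → P q' → Mt w w o q q' → (∀ e, w.wdd e q = w.wdd (e == o) q') → q = q'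

/-- the set of positions is closed under steps through letters different from `END` -/
def Ln.Cl (w : Ln ι nx) (P : ℤ → Prop) : Prop := ∀ e p, P p → w.lt e p ≠ 1 → P (st e p)

theorem Ln.Cl.walk {X w : Ln ι nx} {P : ℤ → Prop} (h : w.Cl P) {o e : Bool} {a q : ℤ} {n : ℕ}
    (hq : P q) (hag : AgD X w o e a q n) : P (stn (e == o) n q) := by
  induction n with
  | zero => simpa using hq
  | succ n ih =>
    have h1 := AgD_succ'.1 hag
    have h2 := h (e == o) _ (ih h1.1) (by rw [← h1.2.1]; exact h1.2.2)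
    rw [← stn_one, stn_stn] at h2
    exact_mod_cast h2

theorem Ln.Cl.walk' {X w : Ln ι nx} {P : ℤ → Prop} (h : X.Cl P) {o e : Bool} {a q : ℤ} {n : ℕ}
    (hq : P a) (hag : AgD X w o e a q n) : P (stn e n a) := by
  induction n with
  | zero => simpa using hq
  | succ n ih =>
    have h1 := AgD_succ'.1 hag
    have h2 := h e _ (ih h1.1) h1.2.2
    rw [← stn_one, stn_stn] at h2
    exact_mod_cast h2

theorem Ln.Cl.cn {X w : Ln ι nx} {P : ℤ → Prop} (h : w.Cl P) {o : Bool} {a q a' q' : ℤ}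
    (hq : P q) (hc : Cn X w o a q a' q') : P q' := by
  obtain ⟨e, n, h1, -, rfl⟩ := hc
  exact h.walk hq h1

theorem Ln.Cl.cn' {X w : Ln ι nx} {P : ℤ → Prop} (h : X.Cl P) {o : Bool} {a q a' q' : ℤ}
    (hq : P a) (hc : Cn X w o a q a' q') : P a' := by
  obtain ⟨e, n, h1, rfl, -⟩ := hc
  exact h.walk' hq h1

theorem Mt.unique {X Y : Ln ι nx} {o o' : Bool} {a q : ℤ} (h : Mt X Y o a q) (h' : Mt X Y o' a q) : o = o' :=
  h.2.symm.trans h'.2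

theorem Mt.symm {X Y : Ln ι nx} {o : Bool} {a q : ℤ} (h : Mt X Y o a q) : Mt Y X o q a :=
  ⟨h.1.symm, by rw [← h.2]; cases X.r a <;> cases Y.r q <;> rfl⟩

theorem LeD.antisymm {w : Ln ι nx} {o : Bool} {q q' : ℤ}
    (h1 : LeD w w o q q') (h2 : LeD w w o q' q) : ∀ e, w.wdd e q = w.wdd (e == o) q' := by
  intro e
  have h3 := h1 e
  have h4 := h2 (e == o)
  have : ((e == o) == o) = e := by cases e <;> cases o <;> rfl
  rw [this] at h4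
  exact WLe.antisymm h4 h3

/-- the order used for the choice of a minimal graph map -/
def RA (X w : Ln ι nx) (x y : ℤ × ℤ) : Prop :=
  ∃ o o'' q₂, Mt X w o y.1 y.2 ∧ LeD X w o y.1 y.2 ∧ Cn X w o y.1 y.2 x.1 q₂ ∧ Mt w w o'' q₂ x.2 ∧
    LeD w w o'' q₂ x.2 ∧ x.2 ≠ q₂

theorem RA.irrefl {X w : Ln ι nx} (x : ℤ × ℤ) : ¬ RA X w x x := by
  rintro ⟨o, o'', q₂, -, -, ⟨e, n, -, h1, h2⟩, -, -, h3⟩
  apply h3
  have : n = 0 := by
    cases e <;> simp at h1 <;> omega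
  subst this
  simp at h2
  exact h2.symm

theorem RA.trans {X w : Ln ι nx} {P : ℤ → Prop} (hsym : w.Asym P) (hcl : w.Cl P) {x y z : ℤ × ℤ} (hPx : P x.2)
    (hPy : P y.2) (h1 : RA X w x y) (h2 : RA X w y z) :
    RA X w x z := by
  obtain ⟨a'', q''⟩ := x
  obtain ⟨a', q'⟩ := y
  obtain ⟨a, q⟩ := z
  obtain ⟨o₁, o₁'', q₃, m1, l1, ⟨e, n, c1, rfl, rfl⟩, m1', l1', n1⟩ := h1
  obtain ⟨o, o'', q₂, m2, l2, c2, m2', l2', n2⟩ := h2
  simp only at *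
  have m3 : Mt X w o a' q₂ := c2.mt.2 m2
  have l3 : LeD X w o a' q₂ := c2.le.2 l2
  have ho : o₁ = (o == o'') := m1.unique (m3.trans m2')
  subst ho
  have hPq₃ : P (stn (e == (o == o'')) n q') := hcl.walk hPy c1
  obtain ⟨s1, s2⟩ := AgD.sandwich l3 l2' c1
  have cw : Cn w w o'' q₂ q' (stn (e == o) n q₂) (stn (e == (o == o'')) n q') := by
    refine ⟨e == o, n, s2, rfl, ?_⟩
    have : (e == (o == o'')) = ((e == o) == o'') := by cases e <;> cases o <;> cases o'' <;> rfl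
    rw [this]
  have m4 := cw.mt.2 m2'
  have l4 := cw.le.2 l2'
  refine ⟨o, (o'' == o₁''), stn (e == o) n q₂, m2, l2, c2.trans ⟨e, n, s1, rfl, rfl⟩, m4.trans m1', l4.trans l1', ?_⟩
  intro heq
  change q'' = stn (e == o) n q₂ at heq
  apply n1
  rw [heq] at m1' l1'
  have ho : o₁'' = o'' := m1'.symm.unique m4
  subst ho
  rw [heq]
  rw [heq] at hPx
  exact hsym _ _ _ hPx hPq₃ m4 (LeD.antisymm l4 l1')

theorem RA.mt {X w : Ln ι nx} {x y : ℤ × ℤ} (h : RA X w x y) : ∃ o, Mt X w o x.1 x.2 ∧ LeD X w o x.1 x.2 := by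
  obtain ⟨o, o'', q₂, h1, h2, h3, h4, h5, -⟩ := h
  exact ⟨(o == o''), (h3.mt.2 h1).trans h4, (h3.le.2 h2).trans h5⟩

theorem RA.fin {X w : Ln ι nx} {x y : ℤ × ℤ} (h : RA X w x y) {o o₁ : Bool} (hm : Mt X w o₁ x.1 x.2)
    (hmy : Mt X w o y.1 y.2) (hf : FinCl X w o y.1 y.2) : FinCl X w o₁ x.1 x.2 := by
  obtain ⟨o2, o'', q₂, h1, h2, h3, h4, h5, -⟩ := h
  have ho : o2 = o := h1.unique hmy
  subst ho
  have h6 : FinCl X w o2 x.1 q₂ := h3.fin.2 hf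
  have h7 : o₁ = (o2 == o'') := hm.unique ((h3.mt.2 h1).trans h4)
  subst h7
  intro e
  obtain ⟨n, hn⟩ := h6 e
  exact ⟨n, fun h' => hn (AgD.sandwich (h3.le.2 h2) h5 h').1⟩

/-- choice of a minimal graph map -/
theorem sel {X w Y : Ln ι nx} {P : ℤ → Prop} (hsym : w.Asym P) (hcl : w.Cl P) {c γ : ℤ → k} {o₀ o' : Bool}
    {a₀ q₀ b₀ : ℤ} (hP : P q₀)
    (m1 : Mt X w o₀ a₀ q₀) (l1 : LeD X w o₀ a₀ q₀) (f1 : FinCl X w o₀ a₀ q₀)
    (f2 : FinCl w Y o' q₀ b₀)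
    (hom : OmS X Y c γ (o₀ == o') a₀ b₀ ≠ 0) :
    ∃ o₁ a₁ q₁ b₁, (∃ q₂, Cn X w o₀ a₀ q₀ a₁ q₂) ∧ Mt X w o₁ a₁ q₁ ∧ LeD X w o₁ a₁ q₁ ∧ FinCl X w o₁ a₁ q₁ ∧
      Cn w Y o' q₀ b₀ q₁ b₁ ∧ OmS X Y c γ (o₁ == o') a₁ b₁ ≠ 0 ∧
      ∀ a q q' b o'', Cn X w o₁ a₁ q₁ a q → Cn w Y o' q₀ b₀ q' b → Mt w w o'' q q' →
        LeD w w o'' q q' → q' ≠ q → OmS X Y c γ ((o₁ == o'') == o') a b = 0 := by
  classical
  set S : Set (ℤ × ℤ) := {x | (x = (a₀, q₀) ∨ RA X w x (a₀, q₀)) ∧ ∃ o b, Mt X w o x.1 x.2 ∧ LeD X w o x.1 x.2 ∧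
    Cn w Y o' q₀ b₀ x.2 b ∧ OmS X Y c γ (o == o') x.1 b ≠ 0} with hS
  have hfin : S.Finite := by
    refine Set.Finite.subset ((Set.finite_Icc (a₀ - lenD X w o₀ false a₀ q₀) (a₀ + lenD X w o₀ true a₀ q₀)).prod
      (Set.finite_Icc (q₀ - lenD w Y o' false q₀ b₀) (q₀ + lenD w Y o' true q₀ b₀))) ?_
    rintro ⟨a, q⟩ ⟨h1, o, b, -, -, ⟨e, n, h2, h3, -⟩, -⟩
    refine ⟨?_, ?_⟩
    · rcases h1 with h1 | ⟨o2, -, -, g1, -, ⟨e', n', g2, g3, -⟩, -⟩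
      · simp only [Prod.mk.injEq] at h1
        obtain ⟨rfl, -⟩ := h1
        simp
      · simp only at g1 g2 g3
        have ho : o2 = o₀ := g1.unique m1
        subst ho
        obtain ⟨-, g5⟩ := lenD_spec (f1 e')
        have hn : n' ≤ lenD X w o2 e' a₀ q₀ := by
          by_contra hcon
          exact g5 (g2.mono (by omega))
        simp only
        rw [Set.mem_Icc, g3]
        cases e' <;> simp <;> omega
    · simp only at h3
      obtain ⟨g1, g2⟩ := lenD_spec (f2 e)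
      have hn : n ≤ lenD w Y o' e q₀ b₀ := by
        by_contra hcon
        exact g2 (h2.mono (by omega))
      simp only
      rw [Set.mem_Icc, h3]
      cases e <;> simp <;> omega
  have : Finite S := hfin.to_subtype
  let r : S → S → Prop := fun x y => RA X w x.1 y.1
  have hPS : ∀ x : S, P x.1.2 := by
    rintro ⟨x, -, o, b, -, -, h, -⟩
    exact hcl.cn' hP h
  have : IsTrans S r := ⟨fun x y z h1 h2 => RA.trans hsym hcl (hPS x) (hPS y) h1 h2⟩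
  have : Std.Irrefl r := ⟨fun x => RA.irrefl x.1⟩
  have wf : WellFounded r := Finite.wellFounded_of_trans_of_irrefl r
  obtain ⟨⟨⟨a₁, q₁⟩, hx⟩, -, hmin⟩ := wf.has_min Set.univ
    ⟨⟨(a₀, q₀), ⟨Or.inl rfl, o₀, b₀, m1, l1, Cn.refl, hom⟩⟩, trivial⟩
  obtain ⟨h1, o₁, b₁, h2, h3, h4, h5⟩ := hx
  simp only at h1 h2 h3 h4 h5
  have hf : FinCl X w o₁ a₁ q₁ := by
    rcases h1 with h1 | h1
    · simp only [Prod.mk.injEq] at h1
      obtain ⟨rfl, rfl⟩ := h1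
      rw [h2.unique m1]; exact f1
    · exact h1.fin h2 m1 f1
  have hcn : ∃ q₂, Cn X w o₀ a₀ q₀ a₁ q₂ := by
    rcases h1 with h1 | ⟨o2, -, q₂, g1, -, g3, -⟩
    · simp only [Prod.mk.injEq] at h1
      obtain ⟨rfl, rfl⟩ := h1
      exact ⟨_, Cn.refl⟩
    · simp only at g1 g3
      rw [g1.unique m1] at g3
      exact ⟨q₂, g3⟩
  refine ⟨o₁, a₁, q₁, b₁, hcn, h2, h3, hf, h4, h5, ?_⟩
  intro a q q' b o'' hc hc' hm hl hne
  by_contra hcon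
  have hra : RA X w (a, q') (a₁, q₁) := ⟨o₁, o'', q, h2, h3, hc, hm, hl, hne⟩
  have hmem : ((a, q') : ℤ × ℤ) ∈ S := by
    refine ⟨?_, (o₁ == o''), b, (hc.mt.2 h2).trans hm, (hc.le.2 h3).trans hl, hc', hcon⟩
    right
    rcases h1 with h1 | h1
    · rw [← h1]; exact hra
    · exact RA.trans hsym hcl (hcl.cn' hP hc') (hcl.cn' hP h4) hra h1
  exact hmin ⟨(a, q'), hmem⟩ trivial hra

theorem stn_inj {e e' : Bool} {n n' : ℕ} {q : ℤ} (h : stn e n q = stn e' n' q) :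
    n = n' ∧ (n = 0 ∨ e = e') := by
  cases e <;> cases e' <;> simp at h ⊢ <;> omega

/-- composition of classes with the same middle position -/
theorem Cn.comp {X w Y : Ln ι nx} {o₁ o' : Bool} {a₁ q₁ b₁ a q b : ℤ} (h1 : Cn X w o₁ a₁ q₁ a q)
    (h2 : Cn w Y o' q₁ b₁ q b) : Cn X Y (o₁ == o') a₁ b₁ a b := by
  obtain ⟨e, n, g1, g2, g3⟩ := h1
  obtain ⟨e', n', g1', g2', g3'⟩ := h2
  obtain ⟨hn, he⟩ := stn_inj (g3.symm.trans g2')
  subst hn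
  refine ⟨e, n, ?_, g2, ?_⟩
  · rcases he with he | he
    · subst he; exact AgD.zero
    · rw [← he] at g1'
      exact g1.trans g1'
  · rcases he with he | he
    · subst he; simp at g3' ⊢; exact g3'
    · rw [g3', ← he]
      congr 1
      cases e <;> cases o₁ <;> cases o' <;> rfl

/-- **Theorem A**, combinatorial part: the value of `c'(G f c)`. -/
theorem thmA_sum {X w Y : Ln ι nx} {c γ : ℤ → k} (A B : Finset ℤ)
    {o₁ o' : Bool} {a₁ q₁ b₁ q₀ b₀ : ℤ} (m1 : Mt X w o₁ a₁ q₁) (l1 : LeD X w o₁ a₁ q₁) (m0 : Mt w Y o' q₀ b₀)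
    (l0 : LeD w Y o' q₀ b₀) (f0 : FinCl w Y o' q₀ b₀)
    (c0 : Cn w Y o' q₀ b₀ q₁ b₁)
    (hmin : ∀ a q q' b o'', Cn X w o₁ a₁ q₁ a q → Cn w Y o' q₀ b₀ q' b → Mt w w o'' q q' →
        LeD w w o'' q q' → q' ≠ q → OmS X Y c γ ((o₁ == o'') == o') a b = 0)
    {K : ℤ → ℤ → k} (hK : IsKer X Y K)
    (hA : ∀ a, a ∉ A → ∀ b, K a b = 0) (hB : ∀ b, b ∉ B → ∀ a, K a b = 0)
    (hK1 : ∀ a b, K a b ≠ 0 → ∃ q q', Cn X w o₁ a₁ q₁ a q ∧ Cn w Y o' q₁ b₁ q' b ∧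
      (q' ≠ q → ∃ o'', Mt w w o'' q q' ∧ LeD w w o'' q q'))
    (hK2 : K a₁ b₁ = 1) :
    ∑ a ∈ A, ∑ b ∈ B, γ b * (c a) * K a b = OmS X Y c γ (o₁ == o') a₁ b₁ := by
  have m2 : Mt w Y o' q₁ b₁ := c0.mt.2 m0
  have l2 : LeD w Y o' q₁ b₁ := c0.le.2 l0
  have f2 : FinCl w Y o' q₁ b₁ := c0.fin.2 f0
  have f3 : FinCl X Y (o₁ == o') a₁ b₁ := by
    intro e
    obtain ⟨n, hn⟩ := f2 (e == o₁)
    exact ⟨n, fun h' => hn (AgD.sandwich l1 l2 h').2⟩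
  rw [pair_one hK A B hA hB (o₀ := (o₁ == o')) (m1.trans m2) f3 ?_, hK2, one_mul]
  intro o a b hm hne hnc
  obtain ⟨q, q', h1, h2, h3⟩ := hK1 a b hne
  by_cases hq : q' = q
  · exfalso
    subst hq
    apply hnc
    have h4 : Mt X Y (o₁ == o') a b := (h1.mt.2 m1).trans (h2.mt.2 m2)
    exact ⟨hm.unique h4, h1.comp h2⟩
  · obtain ⟨o'', g1, g2⟩ := h3 hq
    have := hmin a q q' b o'' h1 (c0.trans h2) g1 g2 hq
    have h4 : Mt X Y ((o₁ == o'') == o') a b := ((h1.mt.2 m1).trans g1).trans (h2.mt.2 m2)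
    rw [hm.unique h4]
    exact this

end sel

end StrAlg
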