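import Pool.Agent.Lib.MP_b9fd58_lc.If2Defs
import Pool.Agent.Lib.MP_b9fd58_lc.R.EM
import Pool.Agent.Lib.MP_b9fd58_lc.R.AlgD

/-!
# Rank formulas, algebra (I): the module `R[1/π]/R` (job UAa)

`V` with the endomorphism `T` is regarded as the `k[X]`-module `SAlg.EM T` (`SAlg.EM.smul_of : r • of T m = of T (aeval T r m)`).
-/

set_option autoImplicit false

namespace StrAlg

open Module Polynomial SAlg

variable {k : Type} [Field k]

section
variable {π : k[X]} {V : Type} [AddCommGroup V] [Module k V] {T : V →ₗ[k] V}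

theorem IsPR.tors' (hT : IsPR π T) (v : EM T) : ∃ n : ℕ, π ^ n • v = 0 := by
  obtain ⟨v, rfl⟩ := (EM.of T).surjective v
  obtain ⟨n, hn⟩ := hT.tors v
  exact ⟨n, by rw [EM.smul_of, hn, map_zero]⟩

theorem uaa_div_pow (hT : IsPR π T) (n : ℕ) (v : EM T) : ∃ u : EM T, π ^ n • u = v := by
  induction n generalizing v with
  | zero => exact ⟨v, by rw [pow_zero, one_smul]⟩
  | succ n ih =>
    obtain ⟨u, hu⟩ := ih v
    obtain ⟨u', rfl⟩ := (EM.of T).surjective u
    obtain ⟨w, hw⟩ := hT.div u'
    refine ⟨EM.of T w, ?_⟩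
    rw [pow_succ, mul_smul, EM.smul_of T π w, hw, hu]

/-- `V` is divisible (`r = π ^ i * u` with `u` prime to `π`, `exists_pow_mul'`; `u` acts bijectively: if `π ^ n • v = 0` and
`α * u + β * π ^ n = 1` then `v = u • α • v`) -/
theorem IsPR.div' (hT : IsPR π T) (hπ : Irreducible π) (r : k[X]) (hr : r ≠ 0) (v : EM T) : ∃ u : EM T, r • u = v := by
  obtain ⟨i, u, rfl, hu⟩ := exists_pow_mul' hπ.prime hr
  obtain ⟨w, hw⟩ := uaa_div_pow hT i v
  obtain ⟨n, hn⟩ := hT.tors' w
  obtain ⟨α, β, hαβ⟩ := hu.pow_right (n := n)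
  refine ⟨α • w, ?_⟩
  have h1 : u • α • w = w := by
    calc u • α • w = (α * u + β * π ^ n) • w := by
          rw [add_smul, mul_smul β, hn, smul_zero, add_zero, smul_smul, mul_comm]
      _ = w := by rw [hαβ, one_smul]
  rw [mul_smul, h1, hw]

/-- no homomorphism to a module killed by `g ≠ 0` -/
theorem IsPR.hom_zero (hT : IsPR π T) (hπ : Irreducible π) {W : Type} [AddCommGroup W] [Module k[X] W] (g : k[X])
    (hg0 : g ≠ 0) (hg : ∀ w : W, g • w = 0) (G : EM T →ₗ[k[X]] W) : G = 0 := by
  refine LinearMap.ext fun v => ?_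
  obtain ⟨u, rfl⟩ := hT.div' hπ g hg0 v
  rw [map_smul, hg, LinearMap.zero_apply]

/-- the module is not finite-dimensional (it is divisible and not zero) -/
theorem IsPR.infinite (hT : IsPR π T) (hπ : Irreducible π) : ¬ FiniteDimensional k V := by
  intro hfin
  have hsurj : Function.Surjective (aeval T π) := fun v => hT.div v
  have hinj : Function.Injective (aeval T π) := LinearMap.injective_iff_surjective.2 hsurj
  have h1 := hT.soc
  rw [LinearMap.ker_eq_bot.2 hinj, finrank_bot] at h1
  exact absurd h1.symm hπ.natDegree_pos.ne'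

/-- every nonzero element of the socle generates it -/
theorem uaa_gen (hT : IsPR π T) (hπ : Irreducible π) {z z₀ : V} (hz : aeval T π z = 0) (hz0 : z ≠ 0)
    (hz₀ : aeval T π z₀ = 0) : ∃ r : k[X], aeval T r z = z₀ := by
  have hfr : finrank k (LinearMap.ker (aeval T π)) = π.natDegree := hT.soc
  have hfin : FiniteDimensional k (LinearMap.ker (aeval T π)) :=
    Module.finite_of_finrank_pos (by rw [hfr]; exact hπ.natDegree_pos)
  have hmem : ∀ r : k[X], aeval T r z ∈ LinearMap.ker (aeval T π) := by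
    intro r
    rw [LinearMap.mem_ker, ← Module.End.mul_apply, ← map_mul, mul_comm, map_mul, Module.End.mul_apply, hz,
      map_zero]
  let φ : degreeLT k π.natDegree →ₗ[k] LinearMap.ker (aeval T π) :=
    { toFun := fun r => ⟨aeval T (r : k[X]) z, hmem r⟩
      map_add' := fun r s => Subtype.ext (by
        change aeval T ((r : k[X]) + (s : k[X])) z = aeval T (r : k[X]) z + aeval T (s : k[X]) z
        rw [map_add, LinearMap.add_apply])
      map_smul' := fun c r => Subtype.ext (by
        change aeval T (c • (r : k[X])) z = c • aeval T (r : k[X]) z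
        rw [map_smul, LinearMap.smul_apply]) }
  have hinj : Function.Injective φ := by
    rw [injective_iff_map_eq_zero]
    intro r hr
    have h1 : aeval T (r : k[X]) z = 0 := congrArg Subtype.val hr
    by_contra hne
    have hr0 : (r : k[X]) ≠ 0 := fun h => hne (Subtype.ext h)
    have hdeg : (r : k[X]).natDegree < π.natDegree := by
      have h2 := mem_degreeLT.1 r.2
      exact (natDegree_lt_iff_degree_lt hr0).2 h2
    have hcop : IsCoprime π (r : k[X]) := by
      refine (hπ.coprime_iff_not_dvd).2 fun hdvd => ?_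
      exact absurd (natDegree_le_of_dvd hdvd hr0) (not_le.2 hdeg)
    obtain ⟨α, β, hαβ⟩ := hcop
    apply hz0
    have h2 : aeval T (α * π + β * (r : k[X])) z = z := by
      rw [hαβ, map_one, Module.End.one_apply]
    rw [← h2, map_add, map_mul, map_mul, LinearMap.add_apply, Module.End.mul_apply,
      Module.End.mul_apply, hz, h1, map_zero, map_zero, add_zero]
  have hfr2 : finrank k (degreeLT k π.natDegree) = finrank k (LinearMap.ker (aeval T π)) := by
    rw [hfr, (degreeLTEquiv k π.natDegree).finrank_eq, finrank_fin_fun]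
  have hfin2 : FiniteDimensional k (degreeLT k π.natDegree) :=
    Module.Finite.equiv (degreeLTEquiv k π.natDegree).symm
  have hsurj : Function.Surjective φ :=
    (LinearMap.injective_iff_surjective_of_finrank_eq_finrank hfr2).1 hinj
  obtain ⟨r, hr⟩ := hsurj ⟨z₀, hz₀⟩
  exact ⟨r, congrArg Subtype.val hr⟩

/-- **The residue functional**: no nonzero submodule is in its kernel.

Proof: `K = ker π` has dimension `natDegree π > 0`; every nonzero `z ∈ K` generates `K` (the map `k[X]/(π) → K`, `r ↦ r • z`, is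
injective because the annihilator of `z` is a proper ideal containing the irreducible `π`; the dimensions are equal). Choose `0 ≠ z₀ ∈ K`
and `τ` with `τ z₀ ≠ 0`. If `v ≠ 0`, take the last `π ^ n • v ≠ 0`; it is in `K`, so `z₀ = r • π ^ n • v`. -/
theorem IsPR.exists_tau (hT : IsPR π T) (hπ : Irreducible π) :
    ∃ τ : V →ₗ[k] k, ∀ v : V, v ≠ 0 → ∃ g : k[X], τ (aeval T g v) ≠ 0 := by
  classical
  have hpos : 0 < finrank k (LinearMap.ker (aeval T π)) := by
    rw [hT.soc]
    exact hπ.natDegree_pos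
  have hfin : FiniteDimensional k (LinearMap.ker (aeval T π)) := Module.finite_of_finrank_pos hpos
  obtain ⟨z₀, hz₀⟩ := Module.finrank_pos_iff_exists_ne_zero.1 hpos
  have hz₁ : (z₀ : V) ≠ 0 := fun h => hz₀ (Subtype.ext h)
  obtain ⟨τ, hτ⟩ : ∃ τ : V →ₗ[k] k, τ z₀ ≠ 0 := by
    by_contra h
    push Not at h
    exact hz₁ ((Module.forall_dual_apply_eq_zero_iff k (z₀ : V)).1 h)
  refine ⟨τ, fun v hv => ?_⟩
  have hex := hT.tors v
  have hspec := Nat.find_spec hex
  have hmin := fun m (hm : m < Nat.find hex) => Nat.find_min hex hm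
  have hN0 : Nat.find hex ≠ 0 := by
    intro h0
    rw [h0, pow_zero, map_one, Module.End.one_apply] at hspec
    exact hv hspec
  obtain ⟨i, hi⟩ := Nat.exists_eq_succ_of_ne_zero hN0
  have h1 : aeval T (π ^ i) v ≠ 0 := hmin i (by omega)
  have h2 : aeval T π (aeval T (π ^ i) v) = 0 := by
    rw [← Module.End.mul_apply, ← map_mul, ← pow_succ', ← Nat.succ_eq_add_one, ← hi]
    exact hspec
  obtain ⟨r, hr⟩ := uaa_gen hT hπ h2 h1 z₀.2
  refine ⟨r * π ^ i, ?_⟩
  rw [map_mul, Module.End.mul_apply, hr]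
  exact hτ

end

end StrAlg
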