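import Pool.Agent.Lib.MP_b9fd58_lc.UAa

/-!
# Rank formulas, algebra (I): homomorphisms to `R[1/π]/R` (job UAb)
-/

set_option autoImplicit false

namespace StrAlg

open Module Polynomial SAlg

variable {k : Type} [Field k]

section
variable {π : k[X]} {V : Type} [AddCommGroup V] [Module k V] {T : V →ₗ[k] V}
  {E : Type} [AddCommGroup E] [Module k E] [FiniteDimensional k E] {A : E →ₗ[k] E}

/-- the `π`-primary part of an invariant subspace -/
noncomputable def prim (π : k[X]) (A : E →ₗ[k] E) (U : Submodule k E) : Submodule k E :=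
  U ⊓ ⨆ n : ℕ, LinearMap.ker (aeval A (π ^ n))

theorem mem_prim {U : Submodule k E} {u : E} : u ∈ prim π A U ↔ u ∈ U ∧ ∃ n : ℕ, aeval A (π ^ n) u = 0 := by
  have hdir : Directed (· ≤ ·) fun n : ℕ => LinearMap.ker (aeval A (π ^ n)) := by
    refine Monotone.directed_le ?_
    refine monotone_nat_of_le_succ fun n x hx => ?_
    rw [LinearMap.mem_ker] at hx ⊢
    rw [pow_succ', map_mul, Module.End.mul_apply, hx, map_zero]
  unfold prim
  rw [Submodule.mem_inf, Submodule.mem_iSup_of_directed _ hdir]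
  rfl

theorem uab_pow {Φ : E →ₗ[k] V} (h : ∀ e, Φ (A e) = T (Φ e)) (n : ℕ) (e : E) :
    Φ ((A ^ n) e) = (T ^ n) (Φ e) := by
  induction n generalizing e with
  | zero => simp
  | succ n ih => rw [pow_succ, pow_succ, Module.End.mul_apply, Module.End.mul_apply, ih, h]

theorem uab_comm {Φ : E →ₗ[k] V} (h : ∀ e, Φ (A e) = T (Φ e)) (g : k[X]) (e : E) :
    Φ (aeval A g e) = aeval T g (Φ e) := by
  induction g using Polynomial.induction_on' with
  | add p q hp hq => rw [map_add, map_add, LinearMap.add_apply, LinearMap.add_apply, map_add, hp, hq]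
  | monomial n a =>
    rw [aeval_monomial, aeval_monomial, Module.End.mul_apply, Module.End.mul_apply,
      Module.algebraMap_end_apply, Module.algebraMap_end_apply, map_smul, uab_pow h]

theorem uab_inv {U : Submodule k E} (hU : ∀ u ∈ U, A u ∈ U) (g : k[X]) : ∀ u ∈ U, aeval A g u ∈ U := by
  have hp : ∀ n : ℕ, ∀ u ∈ U, (A ^ n) u ∈ U := by
    intro n
    induction n with
    | zero => intro u hu; simpa using hu
    | succ n ih => intro u hu; rw [pow_succ, Module.End.mul_apply]; exact ih _ (hU u hu)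
  induction g using Polynomial.induction_on' with
  | add p q hp hq =>
    intro u hu
    rw [map_add, LinearMap.add_apply]
    exact U.add_mem (hp u hu) (hq u hu)
  | monomial n a =>
    intro u hu
    rw [aeval_monomial, Module.End.mul_apply, Module.algebraMap_end_apply]
    exact U.smul_mem _ (hp n u hu)

theorem uab_swap (p q : k[X]) (u : E) : aeval A p (aeval A q u) = aeval A q (aeval A p u) := by
  rw [← Module.End.mul_apply, ← Module.End.mul_apply, ← map_mul, ← map_mul, mul_comm]

theorem uab_prim_inv {U : Submodule k E} (hU : ∀ u ∈ U, A u ∈ U) (g : k[X]) :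
    ∀ u ∈ prim π A U, aeval A g u ∈ prim π A U := by
  intro u hu
  obtain ⟨h1, n, hn⟩ := mem_prim.1 hu
  refine mem_prim.2 ⟨uab_inv hU g u h1, n, ?_⟩
  rw [uab_swap, hn, map_zero]

/-- a nonzero polynomial that kills the module -/
theorem uab_kill (A : E →ₗ[k] E) : ∃ g : k[X], g ≠ 0 ∧ aeval A g = 0 :=
  ⟨A.charpoly, A.charpoly_monic.ne_zero, A.aeval_self_charpoly⟩

/-- Independent homomorphisms on an invariant subspace `U` (commuting with the endomorphisms): at most `dim prim U`.

Proof: with `τ` from `exists_tau` the map `Φ ↦ τ ∘ Φ | prim U` to the dual space of `prim U` is injective on the span of the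
restrictions to `U`: if `τ (Φ u) = 0` for all `u ∈ prim U` then `Φ u = 0` for `u ∈ prim U` (`aeval T g (Φ u) = Φ (aeval A g u)`);
write the characteristic polynomial of `A` as `π ^ a * s` with `s` prime to `π`; for `u ∈ U` the element `aeval A s u` is in `prim U`, so
`aeval T s (Φ u) = 0`, and `Φ u` is killed by a power of `π`, so `Φ u = 0`. -/
theorem prim_le (hT : IsPR π T) (hπ : Irreducible π) (U : Submodule k E) (hU : ∀ u ∈ U, A u ∈ U) {n : ℕ}
    (Φ : Fin n → E →ₗ[k] V) (hΦ : ∀ i e, Φ i (A e) = T (Φ i e))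
    (hi : ∀ c : Fin n → k, (∀ u ∈ U, ∑ i, c i • Φ i u = 0) → c = 0) : n ≤ finrank k (prim π A U) := by
  obtain ⟨τ, hτ⟩ := hT.exists_tau hπ
  obtain ⟨g, hg0, hg⟩ := uab_kill A
  obtain ⟨a, s, hgs, hs⟩ := exists_pow_mul' hπ.prime hg0
  let Ψ : (Fin n → k) →ₗ[k] (E →ₗ[k] V) := Fintype.linearCombination k Φ
  have hΨ : ∀ c e, Ψ c e = ∑ i, c i • Φ i e := by
    intro c e
    show (Fintype.linearCombination k Φ c) e = _
    rw [Fintype.linearCombination_apply, LinearMap.sum_apply]
    rfl
  have hΨc : ∀ c e, Ψ c (A e) = T (Ψ c e) := by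
    intro c e
    rw [hΨ, hΨ, map_sum]
    refine Finset.sum_congr rfl fun i _ => ?_
    rw [hΦ, map_smul]
  let Λ : (Fin n → k) →ₗ[k] Dual k (prim π A U) :=
    { toFun := fun c => τ ∘ₗ Ψ c ∘ₗ (prim π A U).subtype
      map_add' := fun c d => by
        rw [map_add]
        refine LinearMap.ext fun u => ?_
        show τ ((Ψ c + Ψ d) u) = τ (Ψ c u) + τ (Ψ d u)
        rw [LinearMap.add_apply, map_add]
      map_smul' := fun r c => by
        rw [map_smul]
        refine LinearMap.ext fun u => ?_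
        show τ ((r • Ψ c) u) = r • τ (Ψ c u)
        rw [LinearMap.smul_apply, map_smul] }
  have hΛ : Function.Injective Λ := by
    rw [← LinearMap.ker_eq_bot, LinearMap.ker_eq_bot']
    intro c hc
    have h1 : ∀ u ∈ prim π A U, Ψ c u = 0 := by
      intro u hu
      by_contra hne
      obtain ⟨g', hg'⟩ := hτ _ hne
      apply hg'
      rw [← uab_comm (hΨc c)]
      exact LinearMap.congr_fun hc ⟨_, uab_prim_inv hU g' u hu⟩
    refine hi c fun u hu => ?_
    rw [← hΨ]
    obtain ⟨N, hN⟩ := hT.tors (Ψ c u)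
    obtain ⟨α, β, hab⟩ : IsCoprime s (π ^ N) := hs.pow_right
    have h2 : aeval T s (Ψ c u) = 0 := by
      rw [← uab_comm (hΨc c)]
      refine h1 _ (mem_prim.2 ⟨uab_inv hU s u hu, a, ?_⟩)
      rw [← Module.End.mul_apply, ← map_mul, ← hgs, hg, LinearMap.zero_apply]
    have h3 : aeval T (α * s + β * π ^ N) (Ψ c u) = Ψ c u := by
      rw [hab, map_one, Module.End.one_apply]
    rw [← h3, map_add, LinearMap.add_apply, map_mul, map_mul, Module.End.mul_apply, Module.End.mul_apply, h2, hN,
      map_zero, map_zero, add_zero]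
  have h4 := LinearMap.finrank_le_finrank_of_injective hΛ
  rwa [Module.finrank_fin_fun, Subspace.dual_finrank_eq] at h4

/-- There are `dim prim U` homomorphisms, independent on `U`.

Proof: for `0 ≠ u ∈ prim U` there is a homomorphism `Φ` with `Φ u ≠ 0` (`transfer_P` for a nonzero `z` with `π • z = 0`, it is of
infinite height by `div'`; `V₁ = EM A` is killed by the characteristic polynomial), and then one with `τ (Φ u) ≠ 0` (replace `Φ` by
`g • Φ`). So the space of all homomorphisms separates the points of `prim U` by `Φ ↦ τ ∘ Φ`, and it maps onto the dual space. -/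
theorem prim_ge (hT : IsPR π T) (hπ : Irreducible π) (U : Submodule k E) (hU : ∀ u ∈ U, A u ∈ U) :
    ∃ Φ : Fin (finrank k (prim π A U)) → E →ₗ[k] V, (∀ i e, Φ i (A e) = T (Φ i e)) ∧
      ∀ c : Fin (finrank k (prim π A U)) → k, (∀ u ∈ U, ∑ i, c i • Φ i u = 0) → c = 0 := by
  obtain ⟨τ, hτ⟩ := hT.exists_tau hπ
  obtain ⟨g, hg0, hg⟩ := uab_kill A
  -- an element of the socle
  obtain ⟨z, hz0, hz⟩ : ∃ z : V, z ≠ 0 ∧ aeval T π z = 0 := by
    have h1 : 0 < finrank k (LinearMap.ker (aeval T π)) := by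
      rw [hT.soc]; exact hπ.natDegree_pos
    have := Module.nontrivial_of_finrank_pos h1
    obtain ⟨z, hz⟩ := exists_ne (0 : LinearMap.ker (aeval T π))
    exact ⟨z.1, fun h => hz (Subtype.ext h), z.2⟩
  -- the space of the homomorphisms
  let H : Submodule k (E →ₗ[k] V) :=
    { carrier := {Φ | ∀ e, Φ (A e) = T (Φ e)}
      add_mem' := fun {a b} ha hb e => by
        rw [LinearMap.add_apply, LinearMap.add_apply, ha e, hb e, map_add]
      zero_mem' := fun e => by
        rw [LinearMap.zero_apply, LinearMap.zero_apply, map_zero]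
      smul_mem' := fun c a ha e => by
        rw [LinearMap.smul_apply, LinearMap.smul_apply, ha e, map_smul] }
  let Λ : H →ₗ[k] Dual k (prim π A U) :=
    { toFun := fun Φ => τ ∘ₗ Φ.1 ∘ₗ (prim π A U).subtype
      map_add' := fun c d => by
        refine LinearMap.ext fun u => ?_
        show τ ((c.1 + d.1) u) = τ (c.1 u) + τ (d.1 u)
        rw [LinearMap.add_apply, map_add]
      map_smul' := fun r c => by
        refine LinearMap.ext fun u => ?_
        show τ ((r • c.1) u) = r • τ (c.1 u)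
        rw [LinearMap.smul_apply, map_smul] }
  have hΛ : ∀ (Φ : H) (u : prim π A U), Λ Φ u = τ (Φ.1 u) := fun Φ u => rfl
  have hsep : ∀ u : prim π A U, u ≠ 0 → ∃ Φ : H, Λ Φ u ≠ 0 := by
    intro u hu
    obtain ⟨hu1, n, hn⟩ := mem_prim.1 u.2
    have hu0 : u.1 ≠ 0 := fun h => hu (Subtype.ext h)
    obtain ⟨f, hf⟩ : ∃ f : EM A →ₗ[k[X]] EM T, f (EM.of A u.1) ≠ 0 := by
      by_contra hcon
      push Not at hcon
      have hkill : ∀ v : EM A, g • v = 0 := fun v => by
        show aeval A g v = (0 : E)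
        rw [hg]
        rfl
      have hz1 : EM.of T z ≠ 0 := hz0
      have hz2 : π • EM.of T z = 0 := hz
      have hdiv : ∀ m : ℕ, ∃ w : EM T, EM.of T z = π ^ m • w := fun m => by
        obtain ⟨w, hw⟩ := hT.div' hπ (π ^ m) (pow_ne_zero _ hπ.ne_zero) (EM.of T z)
        exact ⟨w, hw.symm⟩
      obtain ⟨s, hs, hsu⟩ := transfer_P hπ.prime (EM.of T z) hz1 hdiv hz2 g hg0 hkill (EM.of A u.1) hcon
      have hsu' : aeval A s u.1 = 0 := hsu
      obtain ⟨α, β, hab⟩ : IsCoprime s (π ^ n) := hs.pow_right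
      apply hu0
      have h3 : aeval A (α * s + β * π ^ n) u.1 = u.1 := by
        rw [hab, map_one, Module.End.one_apply]
      rw [← h3, map_add, LinearMap.add_apply, map_mul, map_mul, Module.End.mul_apply, Module.End.mul_apply, hsu', hn,
        map_zero, map_zero, add_zero]
    obtain ⟨g', hg'⟩ := hτ ((EM.of T).symm (f (EM.of A u.1))) (fun h => hf h)
    let Φ₀ : E →ₗ[k] V := (EM.of T).symm.toLinearMap ∘ₗ (f.restrictScalars k) ∘ₗ (EM.of A).toLinearMap
    have hΦ₀ : ∀ e, Φ₀ e = (EM.of T).symm (f (EM.of A e)) := fun e => rfl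
    have hΦc : ∀ e, Φ₀ (A e) = T (Φ₀ e) := by
      intro e
      rw [hΦ₀, hΦ₀, ← EM.X_smul_of, map_smul, EM.of_symm_X_smul]
    refine ⟨⟨aeval T g' ∘ₗ Φ₀, fun e => ?_⟩, ?_⟩
    · show aeval T g' (Φ₀ (A e)) = T (aeval T g' (Φ₀ e))
      rw [hΦc]
      have h4 : aeval T (g' * X) (Φ₀ e) = aeval T (X * g') (Φ₀ e) := by rw [mul_comm]
      rw [map_mul, map_mul, Module.End.mul_apply, Module.End.mul_apply, aeval_X] at h4
      exact h4
    · rw [hΛ]
      exact hg'
  have hsurj : Function.Surjective Λ := by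
    rw [← LinearMap.range_eq_top]
    by_contra hne
    obtain ⟨f, hf0, hf⟩ := Submodule.exists_le_ker_of_lt_top _ (lt_top_iff_ne_top.2 hne)
    obtain ⟨u, hu⟩ := (Module.evalEquiv k (prim π A U)).surjective f
    have hu0 : u ≠ 0 := by
      rintro rfl
      rw [map_zero] at hu
      exact hf0 hu.symm
    obtain ⟨Φ, hΦ⟩ := hsep u hu0
    apply hΦ
    have h5 : f (Λ Φ) = 0 := hf (LinearMap.mem_range_self Λ Φ)
    rw [← hu] at h5
    exact h5
  let b := Module.finBasis k (Dual k (prim π A U))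
  have hfr : finrank k (Dual k (prim π A U)) = finrank k (prim π A U) := Subspace.dual_finrank_eq
  choose Φ hΦ using fun i : Fin (finrank k (prim π A U)) => hsurj (b (Fin.cast hfr.symm i))
  refine ⟨fun i => (Φ i).1, fun i e => (Φ i).2 e, fun c hc => ?_⟩
  have h6 : ∑ i, c i • b (Fin.cast hfr.symm i) = 0 := by
    refine LinearMap.ext fun u => ?_
    rw [LinearMap.sum_apply, LinearMap.zero_apply]
    have h7 := congrArg τ (hc u.1 (mem_prim.1 u.2).1)
    rw [map_sum, map_zero] at h7
    rw [← h7]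
    refine Finset.sum_congr rfl fun i _ => ?_
    rw [LinearMap.smul_apply, ← hΦ, hΛ, map_smul]
  have h8 : ∑ j : Fin (finrank k (Dual k (prim π A U))), c (Fin.cast hfr j) • b j = 0 := by
    rw [← h6]
    refine (Fintype.sum_equiv (finCongr hfr.symm) _ _ fun i => ?_).symm
    rfl
  have h9 := Fintype.linearIndependent_iff.1 b.linearIndependent _ h8
  funext i
  exact h9 (Fin.cast hfr.symm i)

end

end StrAlg
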