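import Pool.Agent.Lib.MP_b9fd58_lc.UAa

/-!
# Rank formulas, algebra (II): the dual of `R[1/π]/R` (job UBa)

`Dual k V` with the endomorphism `T.dualMap`.
-/

set_option autoImplicit false

namespace StrAlg

open Module Polynomial SAlg

variable {k : Type} [Field k]

theorem uba_mul_X {M : Type} [AddCommGroup M] [Module k M] (A : M →ₗ[k] M) (p : k[X]) (m : M) :
    aeval A (p * X) m = aeval A p (A m) := by
  rw [map_mul, aeval_X]
  rfl

theorem uba_X_mul {M : Type} [AddCommGroup M] [Module k M] (A : M →ₗ[k] M) (p : k[X]) (m : M) :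
    aeval A (p * X) m = A (aeval A p m) := by
  rw [mul_comm, map_mul, aeval_X]
  rfl

/-- a linear map that commutes with the endomorphisms commutes with all polynomials in them -/
theorem uba_intertwine {M N : Type} [AddCommGroup M] [Module k M] [AddCommGroup N] [Module k N] (f : M →ₗ[k] N)
    (A : M →ₗ[k] M) (B : N →ₗ[k] N) (h : ∀ m, f (A m) = B (f m)) (g : k[X]) (m : M) :
    f (aeval A g m) = aeval B g (f m) := by
  induction g using Polynomial.induction_on generalizing m with
  | C a => simp [aeval_C, Module.algebraMap_end_apply]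
  | add p q hp hq => rw [map_add, map_add, LinearMap.add_apply, LinearMap.add_apply, map_add, hp, hq]
  | monomial n a ih =>
    rw [pow_succ, ← mul_assoc, uba_mul_X, uba_mul_X, ih, h]

section
variable {π : k[X]} {V : Type} [AddCommGroup V] [Module k V] {T : V →ₗ[k] V}

theorem uba_aeval_dualMap (T : V →ₗ[k] V) (g : k[X]) (ξ : V →ₗ[k] k) (v : V) :
    (aeval T.dualMap g ξ : V →ₗ[k] k) v = ξ (aeval T g v) := by
  induction g using Polynomial.induction_on generalizing ξ v with
  | C a =>
    rw [aeval_C, aeval_C, Module.algebraMap_end_apply, Module.algebraMap_end_apply, map_smul]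
    rfl
  | add p q hp hq =>
    have h1 : aeval T (p + q) v = aeval T p v + aeval T q v := by rw [map_add, LinearMap.add_apply]
    have h2 : (aeval T.dualMap (p + q) ξ : V →ₗ[k] k) v =
        (aeval T.dualMap p ξ : V →ₗ[k] k) v + (aeval T.dualMap q ξ : V →ₗ[k] k) v := by
      rw [map_add]
      rfl
    rw [h2, h1, hp, hq]
    exact (map_add ξ _ _).symm
  | monomial n a ih =>
    rw [pow_succ, ← mul_assoc, uba_mul_X, uba_X_mul, ih]
    rfl

/-- no homomorphism from a module killed by `g ≠ 0` to the dual (`V` is divisible, so `aeval T.dualMap g ξ = 0` implies `ξ = 0`) -/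
theorem IsPR.to_dual_zero (hT : IsPR π T) (hπ : Irreducible π) {W : Type} [AddCommGroup W] [Module k W] {B : W →ₗ[k] W}
    (g : k[X]) (hg0 : g ≠ 0) (hg : ∀ w, aeval B g w = 0) (G : W →ₗ[k] (V →ₗ[k] k)) (hG : ∀ w, G (B w) = T.dualMap (G w)) :
    G = 0 := by
  refine LinearMap.ext (fun w => LinearMap.ext (fun v => ?_))
  obtain ⟨u, hu⟩ := hT.div' hπ g hg0 v
  have h1 : aeval T g u = v := hu
  have h2 : G (aeval B g w) = aeval T.dualMap g (G w) := uba_intertwine G B T.dualMap hG g w
  rw [hg w, map_zero] at h2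
  have h3 := uba_aeval_dualMap T g (G w) u
  rw [← h2, h1] at h3
  exact h3.symm

theorem uba_ker_pow (hT : IsPR π T) (hπ : Irreducible π) (a : ℕ) :
    FiniteDimensional k (LinearMap.ker (aeval T (π ^ a))) := by
  have hfin : FiniteDimensional k (LinearMap.ker (aeval T π)) := by
    refine Module.finite_of_finrank_pos ?_
    rw [hT.soc]
    exact hπ.natDegree_pos
  induction a with
  | zero =>
    have h0 : LinearMap.ker (aeval T (π ^ 0)) = ⊥ := by
      rw [pow_zero, map_one]
      exact LinearMap.ker_id
    rw [h0]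
    infer_instance
  | succ a ih =>
    have h1 : ((LinearMap.ker (aeval T (π ^ (a + 1)))).map (aeval T π)).FG := by
      have h2 : (LinearMap.ker (aeval T (π ^ (a + 1)))).map (aeval T π) ≤ LinearMap.ker (aeval T (π ^ a)) := by
        rintro _ ⟨x, hx, rfl⟩
        rw [LinearMap.mem_ker]
        have hx' : aeval T (π ^ (a + 1)) x = 0 := hx
        rw [pow_succ, map_mul] at hx'
        exact hx'
      have := ih
      have : FiniteDimensional k ((LinearMap.ker (aeval T (π ^ (a + 1)))).map (aeval T π)) :=
        Submodule.finiteDimensional_of_le h2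
      exact Module.Finite.iff_fg.1 this
    have h3 : (LinearMap.ker (aeval T (π ^ (a + 1))) ⊓ LinearMap.ker (aeval T π)).FG := by
      have := hfin
      have : FiniteDimensional k ((LinearMap.ker (aeval T (π ^ (a + 1))) ⊓ LinearMap.ker (aeval T π) :
          Submodule k V)) := Submodule.finiteDimensional_of_le inf_le_right
      exact Module.Finite.iff_fg.1 this
    exact Module.Finite.iff_fg.2 (Submodule.fg_of_fg_map_of_fg_inf_ker _ h1 h3)

theorem uba_ker (hT : IsPR π T) (hπ : Irreducible π) (h : k[X]) (hh : h ≠ 0) :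
    FiniteDimensional k (LinearMap.ker (aeval T h)) := by
  obtain ⟨a, u, h1, h2⟩ := exists_pow_mul' hπ.prime hh
  have h3 : LinearMap.ker (aeval T h) ≤ LinearMap.ker (aeval T (π ^ a)) := by
    intro v hv
    rw [LinearMap.mem_ker] at hv ⊢
    obtain ⟨n, hn⟩ := hT.tors (aeval T (π ^ a) v)
    obtain ⟨b, c, hbc⟩ := h2.pow_right (n := n)
    have e1 : aeval T u (aeval T (π ^ a) v) = 0 := by
      rw [← hv, h1, mul_comm, map_mul]
      rfl
    have e2 : aeval T (b * u + c * π ^ n) (aeval T (π ^ a) v) = 0 := by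
      rw [map_add, LinearMap.add_apply, map_mul, map_mul]
      show aeval T b (aeval T u (aeval T (π ^ a) v)) + aeval T c (aeval T (π ^ n) (aeval T (π ^ a) v)) = 0
      rw [e1, hn, map_zero, map_zero, add_zero]
    rw [hbc, map_one] at e2
    exact e2
  have := uba_ker_pow hT hπ a
  exact Submodule.finiteDimensional_of_le h3

/-- The functional `τ` generates the dual modulo `h`: for `h ≠ 0` every `ξ` is `g • τ + h • ξ'`.

Proof: `V[h] = ker (aeval T h)` is finite-dimensional (`h = π ^ a * u`, `ker (aeval T u) = 0`, `dim ker π ^ a` is finite by induction: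
`π` maps `ker π ^ (a + 1)` to `ker π ^ a` with the finite-dimensional kernel `ker π`). The restrictions of the functionals
`aeval T.dualMap g τ` to `V[h]` separate its points (property of `τ`), so they are all functionals of `V[h]`. A functional that is
zero on `V[h]` is `ξ' ∘ aeval T h` because `aeval T h` is surjective. -/
theorem IsPR.dual_gen (hT : IsPR π T) (hπ : Irreducible π) (τ : V →ₗ[k] k)
    (hτ : ∀ v : V, v ≠ 0 → ∃ g : k[X], τ (aeval T g v) ≠ 0) (h : k[X]) (hh : h ≠ 0) (ξ : V →ₗ[k] k) :
    ∃ (g : k[X]) (ξ' : V →ₗ[k] k), ξ = aeval T.dualMap g τ + aeval T.dualMap h ξ' := by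
  have hfin := uba_ker hT hπ h hh
  let K := LinearMap.ker (aeval T h)
  have : FiniteDimensional k K := hfin
  -- the restrictions to `K` of the functionals `g • τ`
  let F : k[X] →ₗ[k] Dual k K :=
    { toFun := fun g => (aeval T.dualMap g τ : V →ₗ[k] k) ∘ₗ K.subtype
      map_add' := fun g g' => by
        rw [map_add, LinearMap.add_apply]
        rfl
      map_smul' := fun c g => by
        rw [map_smul, LinearMap.smul_apply]
        rfl }
  have hF : LinearMap.range F = ⊤ := by
    have h1 : (LinearMap.range F).dualCoannihilator = ⊥ := by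
      rw [eq_bot_iff]
      intro v hv
      rw [Submodule.mem_dualCoannihilator] at hv
      rw [Submodule.mem_bot]
      by_contra hne
      obtain ⟨g, hg⟩ := hτ (v : V) (fun h0 => hne (Subtype.ext h0))
      apply hg
      have h2 := hv (F g) ⟨g, rfl⟩
      rw [← uba_aeval_dualMap]
      exact h2
    have h2 := Subspace.dualCoannihilator_dualAnnihilator_eq (W := LinearMap.range F)
    rw [← h2, h1, Submodule.dualAnnihilator_bot]
  obtain ⟨g, hg⟩ : ξ ∘ₗ K.subtype ∈ LinearMap.range F := by rw [hF]; trivial
  have h3 : ξ - (aeval T.dualMap g τ : V →ₗ[k] k) ∈ (LinearMap.ker (aeval T h)).dualAnnihilator := by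
    rw [Submodule.mem_dualAnnihilator]
    intro v hv
    have h4 := LinearMap.congr_fun hg ⟨v, hv⟩
    have h5 : (aeval T.dualMap g τ : V →ₗ[k] k) v = ξ v := h4
    rw [LinearMap.sub_apply, h5, sub_self]
  rw [← LinearMap.range_dualMap_eq_dualAnnihilator_ker] at h3
  obtain ⟨ξ', hξ'⟩ := h3
  refine ⟨g, ξ', ?_⟩
  have h6 : (aeval T.dualMap h ξ' : V →ₗ[k] k) = ξ - (aeval T.dualMap g τ : V →ₗ[k] k) := by
    rw [← hξ']
    refine LinearMap.ext (fun v => ?_)
    rw [uba_aeval_dualMap]
    rfl
  rw [h6]
  exact (add_sub_cancel _ _).symm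

end

end StrAlg
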