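import Pool.Agent.Lib.MP_b9fd58_lc.UBa
import Pool.Agent.Lib.MP_b9fd58_lc.UAb

/-!
# Rank formulas, algebra (II): homomorphisms from the dual of `R[1/π]/R` (job UBb)
-/

set_option autoImplicit false

namespace StrAlg

open Module Polynomial SAlg

variable {k : Type} [Field k]

section
variable {π : k[X]} {V : Type} [AddCommGroup V] [Module k V] {T : V →ₗ[k] V}
  {E : Type} [AddCommGroup E] [Module k E] [FiniteDimensional k E] {A : E →ₗ[k] E}

/-- Homomorphisms `Γ : V* → E`, independent with respect to an invariant subspace `L` of the dual space of `E`: at most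
`dim prim L`.

Proof: the map `Γ ↦ (ℓ ↦ ℓ (Γ τ))` to the dual space of `prim L` is injective: if `ℓ (Γ τ) = 0` for all `ℓ ∈ prim L` then
`ℓ (Γ (g • τ)) = (g • ℓ) (Γ τ) = 0` for all `g`; with `h` the characteristic polynomial of `A` and `dual_gen` (for `h`) we get
`ℓ (Γ ξ) = 0` for all `ξ` and `ℓ ∈ prim L`; for `ℓ ∈ L` write `h = π ^ a * s`, `s` prime to `π`: `s • ℓ ∈ prim L`, and every `ξ`
is `s • ξ'` (`aeval T s` is bijective on `V`), so `ℓ (Γ ξ) = (s • ℓ) (Γ ξ') = 0`. -/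
theorem primL_le (hT : IsPR π T) (hπ : Irreducible π) (L : Submodule k (Dual k E)) (hL : ∀ u ∈ L, A.dualMap u ∈ L) {n : ℕ}
    (Γ : Fin n → (V →ₗ[k] k) →ₗ[k] E) (hΓ : ∀ i ξ, Γ i (T.dualMap ξ) = A (Γ i ξ))
    (hi : ∀ c : Fin n → k, (∀ ℓ ∈ L, ∀ ξ, ∑ i, c i * ℓ (Γ i ξ) = 0) → c = 0) : n ≤ finrank k (prim π A.dualMap L) := by
  obtain ⟨τ, hτ⟩ := hT.exists_tau hπ
  have hch0 : A.charpoly ≠ 0 := A.charpoly_monic.ne_zero
  have hch : aeval A A.charpoly = 0 := A.aeval_self_charpoly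
  -- the map to the dual space
  let Θ : (Fin n → k) →ₗ[k] Dual k (prim π A.dualMap L) :=
    { toFun := fun c =>
        { toFun := fun ℓ => ∑ i, c i * (ℓ : Dual k E) (Γ i τ)
          map_add' := fun ℓ ℓ' => by
            rw [← Finset.sum_add_distrib]
            refine Finset.sum_congr rfl (fun i _ => ?_)
            rw [← mul_add]
            rfl
          map_smul' := fun r ℓ => by
            rw [RingHom.id_apply, smul_eq_mul, Finset.mul_sum]
            refine Finset.sum_congr rfl (fun i _ => ?_)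
            show c i * (r * (ℓ : Dual k E) (Γ i τ)) = r * (c i * (ℓ : Dual k E) (Γ i τ))
            ring }
      map_add' := fun c c' => by
        refine LinearMap.ext (fun ℓ => ?_)
        show ∑ i, (c i + c' i) * (ℓ : Dual k E) (Γ i τ) =
          ∑ i, c i * (ℓ : Dual k E) (Γ i τ) + ∑ i, c' i * (ℓ : Dual k E) (Γ i τ)
        rw [← Finset.sum_add_distrib]
        exact Finset.sum_congr rfl (fun i _ => by ring)
      map_smul' := fun r c => by
        refine LinearMap.ext (fun ℓ => ?_)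
        show ∑ i, (r * c i) * (ℓ : Dual k E) (Γ i τ) = r * ∑ i, c i * (ℓ : Dual k E) (Γ i τ)
        rw [Finset.mul_sum]
        exact Finset.sum_congr rfl (fun i _ => by ring) }
  have hinj : Function.Injective Θ := by
    rw [← LinearMap.ker_eq_bot, LinearMap.ker_eq_bot']
    intro c hc
    have hc' : ∀ ℓ ∈ prim π A.dualMap L, ∑ i, c i * ℓ (Γ i τ) = 0 := fun ℓ hℓ => LinearMap.congr_fun hc ⟨ℓ, hℓ⟩
    -- the combination
    have hact : ∀ (g : k[X]) (i : Fin n) (ℓ : Dual k E) (ξ : V →ₗ[k] k),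
        ℓ (Γ i (aeval T.dualMap g ξ)) = (aeval A.dualMap g ℓ : E →ₗ[k] k) (Γ i ξ) := by
      intro g i ℓ ξ
      rw [uba_intertwine (Γ i) T.dualMap A (hΓ i), uba_aeval_dualMap]
    have hinv : ∀ (g : k[X]) (ℓ : Dual k E), ℓ ∈ L → aeval A.dualMap g ℓ ∈ L := by
      intro g
      induction g using Polynomial.induction_on with
      | C a =>
        intro ℓ hℓ
        rw [aeval_C, Module.algebraMap_end_apply]
        exact L.smul_mem a hℓ
      | add p q hp hq =>
        intro ℓ hℓ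
        rw [map_add, LinearMap.add_apply]
        exact L.add_mem (hp ℓ hℓ) (hq ℓ hℓ)
      | monomial m a ih =>
        intro ℓ hℓ
        rw [pow_succ, ← mul_assoc, uba_mul_X]
        exact ih _ (hL ℓ hℓ)
    have hprim : ∀ (g : k[X]) (ℓ : Dual k E), ℓ ∈ prim π A.dualMap L → aeval A.dualMap g ℓ ∈ prim π A.dualMap L := by
      intro g ℓ hℓ
      rw [mem_prim] at hℓ ⊢
      obtain ⟨h1, m, h2⟩ := hℓ
      refine ⟨hinv g ℓ h1, m, ?_⟩
      have h3 : aeval A.dualMap (π ^ m) (aeval A.dualMap g ℓ) = aeval A.dualMap g (aeval A.dualMap (π ^ m) ℓ) := by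
        show (aeval A.dualMap (π ^ m) * aeval A.dualMap g) ℓ = (aeval A.dualMap g * aeval A.dualMap (π ^ m)) ℓ
        rw [← map_mul, ← map_mul, mul_comm]
      rw [h3, h2, map_zero]
    -- zero on the primary part
    have hz1 : ∀ ℓ ∈ prim π A.dualMap L, ∀ ξ : V →ₗ[k] k, ∑ i, c i * ℓ (Γ i ξ) = 0 := by
      intro ℓ hℓ ξ
      obtain ⟨g, ξ', hξ⟩ := hT.dual_gen hπ τ hτ A.charpoly hch0 ξ
      have h1 : ∀ i, ℓ (Γ i ξ) = (aeval A.dualMap g ℓ : E →ₗ[k] k) (Γ i τ) := by
        intro i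
        have h2 : ℓ (Γ i ξ) = ℓ (Γ i (aeval T.dualMap g τ)) + ℓ (Γ i (aeval T.dualMap A.charpoly ξ')) := by
          rw [hξ, map_add, map_add]
        have h3 : Γ i (aeval T.dualMap A.charpoly ξ') = 0 := by
          rw [uba_intertwine (Γ i) T.dualMap A (hΓ i), hch]
          rfl
        rw [h2, h3, map_zero, add_zero, hact]
      have h4 := hc' _ (hprim g ℓ hℓ)
      rw [← h4]
      exact Finset.sum_congr rfl (fun i _ => by rw [h1])
    obtain ⟨a, s, hs1, hs2⟩ := exists_pow_mul' hπ.prime hch0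
    have hsinj : Function.Injective (aeval T s) := by
      rw [← LinearMap.ker_eq_bot, LinearMap.ker_eq_bot']
      intro v hv
      obtain ⟨m, hm⟩ := hT.tors v
      obtain ⟨b, d, hbd⟩ := hs2.pow_right (n := m)
      have e2 : aeval T (b * s + d * π ^ m) v = 0 := by
        rw [map_add, LinearMap.add_apply, map_mul, map_mul]
        show aeval T b (aeval T s v) + aeval T d (aeval T (π ^ m) v) = 0
        rw [hv, hm, map_zero, map_zero, add_zero]
      rw [hbd, map_one] at e2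
      exact e2
    apply hi c
    intro ℓ hℓ ξ
    obtain ⟨ξ', hξ'⟩ := LinearMap.dualMap_surjective_of_injective hsinj ξ
    have e1 : ξ = aeval T.dualMap s ξ' := by
      rw [← hξ']
      refine LinearMap.ext (fun v => ?_)
      rw [uba_aeval_dualMap]
      rfl
    have e2 : aeval A.dualMap s ℓ ∈ prim π A.dualMap L := by
      rw [mem_prim]
      refine ⟨hinv s ℓ hℓ, a, ?_⟩
      have e3 : aeval A.dualMap (π ^ a) (aeval A.dualMap s ℓ) = aeval A.dualMap (π ^ a * s) ℓ := by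
        rw [map_mul]
        rfl
      rw [e3, ← hs1]
      refine LinearMap.ext (fun e => ?_)
      rw [uba_aeval_dualMap, hch]
      exact map_zero ℓ
    have e4 := hz1 _ e2 ξ'
    rw [← e4, e1]
    exact Finset.sum_congr rfl (fun i _ => by rw [hact])
  have h1 := LinearMap.finrank_le_finrank_of_injective hinj
  rw [Module.finrank_fin_fun] at h1
  have h2 := @Subspace.dual_finrank_eq k (prim π A.dualMap L) _ _ _
  exact h1.trans (le_of_eq h2)

/-- There are `dim prim L` homomorphisms `V* → E` independent with respect to `L`: the transposes of the homomorphisms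
`Φ : E* → V` of `prim_ge` (`Γ ξ` is the element of `E` with `ℓ (Γ ξ) = ξ (Φ ℓ)` for all `ℓ`; `Module.evalEquiv`). -/
theorem primL_ge (hT : IsPR π T) (hπ : Irreducible π) (L : Submodule k (Dual k E)) (hL : ∀ u ∈ L, A.dualMap u ∈ L) :
    ∃ Γ : Fin (finrank k (prim π A.dualMap L)) → (V →ₗ[k] k) →ₗ[k] E, (∀ i ξ, Γ i (T.dualMap ξ) = A (Γ i ξ)) ∧
      ∀ c : Fin (finrank k (prim π A.dualMap L)) → k, (∀ ℓ ∈ L, ∀ ξ, ∑ i, c i * ℓ (Γ i ξ) = 0) → c = 0 := by
  obtain ⟨Φ, hΦ, hi⟩ := prim_ge (A := A.dualMap) hT hπ L hL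
  -- the transposes
  let Γ : Fin (finrank k (prim π A.dualMap L)) → (V →ₗ[k] k) →ₗ[k] E := fun i =>
    (Module.evalEquiv k E).symm.toLinearMap ∘ₗ (Φ i).dualMap
  have hΓ : ∀ i (ξ : V →ₗ[k] k) (ℓ : Dual k E), ℓ (Γ i ξ) = ξ (Φ i ℓ) := by
    intro i ξ ℓ
    exact Module.apply_evalEquiv_symm_apply k E ℓ (ξ ∘ₗ Φ i)
  refine ⟨Γ, ?_, ?_⟩
  · intro i ξ
    refine (Module.forall_dual_apply_eq_zero_iff k _).1 (fun ℓ => ?_) |> sub_eq_zero.1
    rw [map_sub, hΓ]
    have h1 : ℓ (A (Γ i ξ)) = ξ (Φ i (A.dualMap ℓ)) := by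
      rw [← hΓ]
      rfl
    rw [h1, hΦ]
    exact sub_self _
  · intro c hc
    apply hi c
    intro ℓ hℓ
    refine (Module.forall_dual_apply_eq_zero_iff k _).1 (fun ξ => ?_)
    rw [map_sum]
    rw [← hc ℓ hℓ ξ]
    refine Finset.sum_congr rfl (fun i _ => ?_)
    rw [map_smul, hΓ]
    rfl

end

end StrAlg
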