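import Pool.Agent.Lib.MP_b9fd58_lc.R.Hl2
import Pool.Agent.Lib.MP_b9fd58_lc.R.Hh2

/-!
# Rank formulas: the band parts of homomorphisms between a block and `M(c, V)` (job UCa)

Everything here is close to the proofs in `R/Hl1.lean`, `R/Hl2.lean` (helper46), only with the hypothesis `CritB` (the polynomials `Om` are
zero, `om_zero_iff`) instead of `RDat.Closed`.
-/

set_option autoImplicit false

namespace StrAlg

open Module Polynomial

variable {D : Dat} {k : Type} [Field k] {S : Sides D}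

theorem uca_kr_smul {w₁ w₂ : Str S} {l₁ l₂ : ℕ} {V₁ V₂ : Type} [AddCommGroup V₁] [Module k V₁]
    [AddCommGroup V₂] [Module k V₂] {T₁ : V₁ ≃ₗ[k] V₁} {T₂ : V₂ ≃ₗ[k] V₂} {h₁ : w₁.PerOK l₁ T₁}
    {h₂ : w₂.PerOK l₂ T₂} (r : k) (f : (w₁.ME l₁ T₁ h₁).C →ₗ[k] (w₂.ME l₂ T₂ h₂).C) (p q : ℤ) :
    kr h₁ h₂ (r • f) p q = r • kr h₁ h₂ f p q := by
  unfold kr
  rw [LinearMap.smul_comp, LinearMap.comp_smul]

theorem uca_kr_sum {w₁ w₂ : Str S} {l₁ l₂ : ℕ} {V₁ V₂ : Type} [AddCommGroup V₁] [Module k V₁]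
    [AddCommGroup V₂] [Module k V₂] {T₁ : V₁ ≃ₗ[k] V₁} {T₂ : V₂ ≃ₗ[k] V₂} {h₁ : w₁.PerOK l₁ T₁}
    {h₂ : w₂.PerOK l₂ T₂} {ι : Type} (s : Finset ι) (r : ι → k)
    (f : ι → (w₁.ME l₁ T₁ h₁).C →ₗ[k] (w₂.ME l₂ T₂ h₂).C) (p q : ℤ) :
    kr h₁ h₂ (∑ i ∈ s, r i • f i) p q = ∑ i ∈ s, r i • kr h₁ h₂ (f i) p q := by
  rw [kr_sum]
  exact Finset.sum_congr rfl fun i _ => uca_kr_smul (r i) (f i) p q

/-- a homomorphism between band modules of the same band is finite if its kernel at `(0, 0)` vanishes -/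
theorem uca_finK {c : Str S} {l : ℕ} {V₁ V₂ : Type} [AddCommGroup V₁] [Module k V₁]
    [AddCommGroup V₂] [Module k V₂] {T₁ : V₁ ≃ₗ[k] V₁} {T₂ : V₂ ≃ₗ[k] V₂} {h₁ : c.PerOK l T₁}
    {h₂ : c.PerOK l T₂} (hl : c.MinPer l) {f : (c.ME l T₁ h₁).C →ₗ[k] (c.ME l T₂ h₂).C}
    (hf : (c.ME l T₁ h₁).Hom (c.ME l T₂ h₂) f) (h0 : kr h₁ h₂ f 0 0 = 0) : FinK h₁ h₂ f := by
  obtain ⟨φ, hφ, hF⟩ := inf_split (h₁ := h₁) (h₂ := h₂) hl hf
  have h1 : kr h₁ h₂ (f - mpE h₁ h₂ φ hφ) 0 0 = 0 := by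
    by_contra hne
    obtain ⟨n, hn⟩ := hF true 0 0 (hd2_mt 0) hne true
    exact hn (hd2_agd hl 0 true n)
  rw [kr_sub, kr_mpE_zero _ _ hl.1, h0, zero_sub, neg_eq_zero] at h1
  have h2 : mpE h₁ h₂ φ hφ = 0 := by
    refine LinearMap.ext fun m => ?_
    apply cfE_inj h₂
    funext p
    rw [cfE_mpE, h1, LinearMap.zero_apply, LinearMap.zero_apply, map_zero]
    rfl
  rw [h2, sub_zero] at hF
  exact hF

section
variable {c : Str S} {l : ℕ} {V : Type} [AddCommGroup V] [Module k V] {T : V ≃ₗ[k] V}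

/-- the band part of a homomorphism `X.M → M(c, V)` -/
noncomputable def psX (h : c.PerOK l T) (X : Blk S k) (f : X.M.C →ₗ[k] (c.ME l T h).C) : (Fin X.n → k) →ₗ[k] V :=
  open Classical in if X.x = c then kr X.ok h f 0 0 else 0

/-- the band part of a homomorphism `M(c, V) → Y.M` -/
noncomputable def psY (h : c.PerOK l T) (Y : Blk S k) (G : (c.ME l T h).C →ₗ[k] Y.M.C) : V →ₗ[k] (Fin Y.n → k) :=
  open Classical in if Y.x = c then kr h Y.ok G 0 0 else 0

theorem psX_sum (h : c.PerOK l T) (X : Blk S k) {ι : Type} (s : Finset ι) (r : ι → k)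
    (f : ι → X.M.C →ₗ[k] (c.ME l T h).C) : psX h X (∑ i ∈ s, r i • f i) = ∑ i ∈ s, r i • psX h X (f i) := by
  classical
  unfold psX
  by_cases hX : X.x = c
  · simp only [if_pos hX]
    exact uca_kr_sum s r f 0 0
  · simp only [if_neg hX, smul_zero, Finset.sum_const_zero]

theorem psY_sum (h : c.PerOK l T) (Y : Blk S k) {ι : Type} (s : Finset ι) (r : ι → k)
    (G : ι → (c.ME l T h).C →ₗ[k] Y.M.C) : psY h Y (∑ i ∈ s, r i • G i) = ∑ i ∈ s, r i • psY h Y (G i) := by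
  classical
  unfold psY
  by_cases hY : Y.x = c
  · simp only [if_pos hY]
    exact uca_kr_sum s r G 0 0
  · simp only [if_neg hY, smul_zero, Finset.sum_const_zero]

/-- `kr_zero_comm` after substituting `X.x = c`, `X.l = l` (see `split_left`) -/
theorem psX_comm (hl : c.MinPer l) (h : c.PerOK l T) (X : Blk S k) {f : X.M.C →ₗ[k] (c.ME l T h).C}
    (hf : X.M.Hom (c.ME l T h) f) (v : Fin X.n → k) : psX h X f (X.T v) = T (psX h X f v) := by
  classical
  unfold psX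
  by_cases hX : X.x = c
  · rw [if_pos hX]
    have hXl : X.l = l := blk_l hl X hX
    obtain ⟨x, n, l', T', ok, mn, fin⟩ := X
    change x = c at hX
    change l' = l at hXl
    subst hX
    subst hXl
    exact kr_zero_comm (h₁ := ok) (h₂ := h) hl hf v
  · rw [if_neg hX, LinearMap.zero_apply, LinearMap.zero_apply, map_zero]

theorem psY_comm (hl : c.MinPer l) (h : c.PerOK l T) (Y : Blk S k) {G : (c.ME l T h).C →ₗ[k] Y.M.C}
    (hG : (c.ME l T h).Hom Y.M G) (v : V) : psY h Y G (T v) = Y.T (psY h Y G v) := by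
  classical
  unfold psY
  by_cases hY : Y.x = c
  · rw [if_pos hY]
    have hYl : Y.l = l := blk_l hl Y hY
    obtain ⟨y, n, l', T', ok, mn, fin⟩ := Y
    change y = c at hY
    change l' = l at hYl
    subst hY
    subst hYl
    exact kr_zero_comm (h₁ := h) (h₂ := ok) hl hG v
  · rw [if_neg hY, LinearMap.zero_apply, LinearMap.zero_apply, map_zero]

/-- every homomorphism of the coefficient spaces is a band part (`mpE`, `kr_mpE_zero`) -/
theorem exists_psX (hl : c.MinPer l) (h : c.PerOK l T) (X : Blk S k) (hX : X.x = c) (φ : (Fin X.n → k) →ₗ[k] V)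
    (hφ : ∀ v, φ (X.T v) = T (φ v)) : ∃ f : X.M.C →ₗ[k] (c.ME l T h).C, X.M.Hom (c.ME l T h) f ∧ psX h X f = φ := by
  classical
  have hXl : X.l = l := blk_l hl X hX
  obtain ⟨x, n, l', T', ok, mn, fin⟩ := X
  change x = c at hX
  change l' = l at hXl
  subst hX
  subst hXl
  refine ⟨mpE ok h φ hφ, mpE_hom φ hφ, ?_⟩
  unfold psX
  rw [if_pos rfl]
  exact kr_mpE_zero φ hφ hl.1

theorem exists_psY (hl : c.MinPer l) (h : c.PerOK l T) (Y : Blk S k) (hY : Y.x = c) (φ : V →ₗ[k] (Fin Y.n → k))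
    (hφ : ∀ v, φ (T v) = Y.T (φ v)) : ∃ G : (c.ME l T h).C →ₗ[k] Y.M.C, (c.ME l T h).Hom Y.M G ∧ psY h Y G = φ := by
  classical
  have hYl : Y.l = l := blk_l hl Y hY
  obtain ⟨y, n, l', T', ok, mn, fin⟩ := Y
  change y = c at hY
  change l' = l at hYl
  subst hY
  subst hYl
  refine ⟨mpE h ok φ hφ, mpE_hom φ hφ, ?_⟩
  unfold psY
  rw [if_pos rfl]
  exact kr_mpE_zero φ hφ hl.1

/-- the band part decides whether all classes are finite -/
theorem finK_of_psX (hl : c.MinPer l) (h : c.PerOK l T) (X : Blk S k)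
    (sX : (∃ r ∈ X.x.Z, ∃ r' ∈ c.Z, Al X.x c r r') → X.x = c) {f : X.M.C →ₗ[k] (c.ME l T h).C}
    (hf : X.M.Hom (c.ME l T h) f) (h0 : psX h X f = 0) : FinK X.ok h f := by
  classical
  by_cases hX : X.x = c
  · unfold psX at h0
    rw [if_pos hX] at h0
    have hXl : X.l = l := blk_l hl X hX
    obtain ⟨x, n, l', T', ok, mn, fin⟩ := X
    change x = c at hX
    change l' = l at hXl
    subst hX
    subst hXl
    exact uca_finK (h₁ := ok) (h₂ := h) hl hf h0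
  · exact finK_of_not_al (fun h1 => X.fin h1) (fun h1 => absurd h1 hl.1.ne')
      (fun p hp q hq hal => hX (sX ⟨p, hp, q, hq, hal⟩)) f

theorem finK_of_psY (hl : c.MinPer l) (h : c.PerOK l T) (Y : Blk S k)
    (sY : (∃ r ∈ Y.x.Z, ∃ r' ∈ c.Z, Al Y.x c r r') → Y.x = c) {G : (c.ME l T h).C →ₗ[k] Y.M.C}
    (hG : (c.ME l T h).Hom Y.M G) (h0 : psY h Y G = 0) : FinK h Y.ok G := by
  classical
  by_cases hY : Y.x = c
  · unfold psY at h0
    rw [if_pos hY] at h0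
    have hYl : Y.l = l := blk_l hl Y hY
    obtain ⟨y, n, l', T', ok, mn, fin⟩ := Y
    change y = c at hY
    change l' = l at hYl
    subst hY
    subst hYl
    exact uca_finK (h₁ := h) (h₂ := ok) hl hG h0
  · exact finK_of_not_al (fun h1 => absurd h1 hl.1.ne') (fun h1 => Y.fin h1)
      (fun p hp q hq hal => hY (sY ⟨q, hq, p, hp, al_sym hal⟩)) G

end

end StrAlg
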