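import Pool.Agent.Lib.MP_b9fd58_lc.UCa

/-!
# Rank formulas: values of pairs of homomorphisms (job UCb)

Everything here is close to the proofs in `R/Hl2.lean` (helper46), only with the hypothesis `CritB` (the polynomials `Om` are
zero, `om_zero_iff`) instead of `RDat.Closed`.
-/

set_option autoImplicit false

namespace StrAlg

open Module Polynomial

variable {D : Dat} {k : Type} [Field k] {S : Sides D}

section
variable {c : Str S} {l : ℕ} {V : Type} [AddCommGroup V] [Module k V] {T : V ≃ₗ[k] V}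

variable {X Y : Blk S k} {a : X.M.C} {b : Dual k Y.M.C}

/-- the value on two graph maps -/
theorem ucb_gg (hl : c.MinPer l) (h : c.PerOK l T) (hc : CritB X Y a b c) {o : Bool} {p q : ℤ}
    (φ : (Fin X.n → k) →ₗ[k] k) (v : V) (ho : Ord X.x c o p q) {o' : Bool} {q' r : ℤ} (lam : V →ₗ[k] k)
    (y : Fin Y.n → k) (ho' : Ord c Y.x o' q' r) :
    b (gm h Y.ok o' q' r lam y (gm X.ok h o p q φ v a)) = 0 := by
  rw [val_gm_gm X Y a b h (c.Z_univ hl.2.1.2)]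
  have hfin := cof_finite X Y a b c hl.1 o p q o' q' r φ y
  rw [cof_sum X Y a b c hl.1 h o p q o' q' r φ y v hfin.toFinset
    (fun t ht => hfin.mem_toFinset.mpr ht)]
  obtain ⟨s, N, hs⟩ := exists_enc _ hfin
  have hs0 : s = 0 := (om_zero_iff hl X Y a b).2 hc s ⟨o, p, q, o', q', r, φ, y, N, ho, ho', hs⟩
  have h2 : Polynomial.aeval T.toLinearMap s v = 0 := by rw [hs0, map_zero, LinearMap.zero_apply]
  rw [hs.aeval T v hfin.toFinset (fun t ht => hfin.mem_toFinset.mpr ht)] at h2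
  have h3 := (map_eq_zero_iff (T ^ N) (T ^ N).injective).mp h2
  rw [h3, map_zero]

/-- (finite, graph map) -/
theorem ucb_fg (hl : c.MinPer l) (h : c.PerOK l T) (hc : CritB X Y a b c) {f : X.M.C →ₗ[k] (c.ME l T h).C}
    (hf : X.M.Hom (c.ME l T h) f) (hF : FinK X.ok h f) {o' : Bool} {q' r : ℤ} (lam : V →ₗ[k] k)
    (y : Fin Y.n → k) (ho' : Ord c Y.x o' q' r) :
    b (gm h Y.ok o' q' r lam y (f a)) = 0 := by
  have hl0 : l = 0 → c.Z.Finite := fun h0 => absurd hl.1 (by omega)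
  exact zero_of_gm (h₁ := X.ok) (h₂ := h) X.fin hl0 (Or.inl inferInstance) hf hF
    ((b ∘ₗ gm h Y.ok o' q' r lam y) ∘ₗ (LinearMap.applyₗ a))
    (fun o p q φ v ho => ucb_gg hl h hc φ v ho lam y ho')

/-- (graph map, finite) -/
theorem ucb_gf (hl : c.MinPer l) (h : c.PerOK l T) (hc : CritB X Y a b c) {o : Bool} {p q : ℤ}
    (φ : (Fin X.n → k) →ₗ[k] k) (v : V) (ho : Ord X.x c o p q) {G : (c.ME l T h).C →ₗ[k] Y.M.C}
    (hG : (c.ME l T h).Hom Y.M G) (hFG : FinK h Y.ok G) : b (G (gm X.ok h o p q φ v a)) = 0 := by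
  have hl0 : l = 0 → c.Z.Finite := fun h0 => absurd hl.1 (by omega)
  exact zero_of_gm (h₁ := h) (h₂ := Y.ok) hl0 Y.fin (Or.inr inferInstance) hG hFG
    (b ∘ₗ (LinearMap.applyₗ (gm X.ok h o p q φ v a)))
    (fun o' q' r lam y ho' => ucb_gg hl h hc φ v ho lam y ho')

theorem ucb_psX_fin (hl : c.MinPer l) (h : c.PerOK l T) (X : Blk S k) {f : X.M.C →ₗ[k] (c.ME l T h).C}
    (hF : FinK X.ok h f) : psX h X f = 0 := by
  unfold psX
  split_ifs with hX
  · by_contra hne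
    have hm : Mt X.x.L c.L true 0 0 := by
      rw [hX]
      exact hd2_mt 0
    obtain ⟨n, hn⟩ := hF true 0 0 hm hne true
    apply hn
    rw [hX]
    exact hd2_agd hl 0 true n
  · rfl

theorem ucb_psY_fin (hl : c.MinPer l) (h : c.PerOK l T) (Y : Blk S k) {G : (c.ME l T h).C →ₗ[k] Y.M.C}
    (hF : FinK h Y.ok G) : psY h Y G = 0 := by
  unfold psY
  split_ifs with hY
  · by_contra hne
    have hm : Mt c.L Y.x.L true 0 0 := by
      rw [hY]
      exact hd2_mt 0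
    obtain ⟨n, hn⟩ := hF true 0 0 hm hne true
    apply hn
    rw [hY]
    exact hd2_agd hl 0 true n
  · rfl

theorem ucb_psX_mpE (h : c.PerOK l T) (X : Blk S k) (hX : X.x = c) (h₁ : c.PerOK l X.T)
    (φ : (Fin X.n → k) →ₗ[k] V) (hφ : ∀ v, φ (X.T v) = T (φ v)) (e : X.M.C ≃ₗ[k] (c.ME l X.T h₁).C)
    (he : ∀ m, cfE h₁ (e m) = cfE X.ok m) : psX h X (mpE h₁ h φ hφ ∘ₗ e.toLinearMap) = φ := by
  unfold psX
  rw [if_pos hX]
  refine LinearMap.ext fun v => ?_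
  have h1 : kr X.ok h (mpE h₁ h φ hφ ∘ₗ e.toLinearMap) 0 0 v =
      cfE h (mpE h₁ h φ hφ (e (ioE X.ok 0 v))) 0 := rfl
  refine h1.trans ?_
  have h3 : cfE X.ok (ioE X.ok 0 v) 0 = v := by
    rw [cfE_ioE X.ok X.x.zero_mem]
    exact (X.x.LB X.l X.T X.ok).spr_self 0 v
  have h2 : cfE h₁ (e (ioE X.ok 0 v)) 0 = v := (congrFun (he (ioE X.ok 0 v)) 0).trans h3
  rw [cfE_mpE]
  exact congrArg φ h2

theorem ucb_psY_mpE (h : c.PerOK l T) (Y : Blk S k) (hY : Y.x = c) (h₂ : c.PerOK l Y.T)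
    (ψ : V →ₗ[k] (Fin Y.n → k)) (hψ : ∀ v, ψ (T v) = Y.T (ψ v)) (e : (c.ME l Y.T h₂).C ≃ₗ[k] Y.M.C)
    (he : ∀ m, cfE Y.ok (e m) = cfE h₂ m) : psY h Y (e.toLinearMap ∘ₗ mpE h h₂ ψ hψ) = ψ := by
  unfold psY
  rw [if_pos hY]
  refine LinearMap.ext fun v => ?_
  have h1 : kr h Y.ok (e.toLinearMap ∘ₗ mpE h h₂ ψ hψ) 0 0 v =
      cfE Y.ok (e (mpE h h₂ ψ hψ (ioE h 0 v))) 0 := rfl
  refine h1.trans ?_
  rw [he, cfE_mpE, cfE_ioE h c.zero_mem]
  exact congrArg ψ ((c.LB l T h).spr_self 0 v)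

theorem ucb_psX_sub (h : c.PerOK l T) (X : Blk S k) (f g : X.M.C →ₗ[k] (c.ME l T h).C) :
    psX h X (f - g) = psX h X f - psX h X g := by
  unfold psX
  split_ifs with hX
  · exact kr_sub f g 0 0
  · rw [sub_zero]

theorem ucb_psY_sub (h : c.PerOK l T) (Y : Blk S k) (f g : (c.ME l T h).C →ₗ[k] Y.M.C) :
    psY h Y (f - g) = psY h Y f - psY h Y g := by
  unfold psY
  split_ifs with hY
  · exact kr_sub f g 0 0
  · rw [sub_zero]

/-- (finite, finite): the proof of `val_ff` -/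
theorem val_ff' (hl : c.MinPer l) (h : c.PerOK l T) (hc : CritB X Y a b c) {f : X.M.C →ₗ[k] (c.ME l T h).C}
    (hf : X.M.Hom (c.ME l T h) f) (hF : FinK X.ok h f) {G : (c.ME l T h).C →ₗ[k] Y.M.C}
    (hG : (c.ME l T h).Hom Y.M G) (hFG : FinK h Y.ok G) : b (G (f a)) = 0 := by
  have hl0 : l = 0 → c.Z.Finite := fun h0 => absurd hl.1 (by omega)
  exact zero_of_gm (h₁ := X.ok) (h₂ := h) X.fin hl0 (Or.inl inferInstance) hf hF
    ((b ∘ₗ G) ∘ₗ (LinearMap.applyₗ a)) (fun o p q φ v ho => ucb_gf hl h hc φ v ho hG hFG)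

/-- the value of a graph map `M(c, V) → Y` after a homomorphism: subtract from `f` the homomorphism of `exists_psX` for its band part
(`val_ff'`, `finK_of_psX`); for this one use `gm_comp_mpE`, `val_gm`, `OmV_val` as in `val_if` -/
theorem val_gm_left (hl : c.MinPer l) (h : c.PerOK l T) (hc : CritB X Y a b c)
    (sX : (∃ r ∈ X.x.Z, ∃ r' ∈ c.Z, Al X.x c r r') → X.x = c) {f : X.M.C →ₗ[k] (c.ME l T h).C}
    (hf : X.M.Hom (c.ME l T h) f) {o : Bool} {q r : ℤ} (ho : Ord c Y.x o q r) (lam : V →ₗ[k] k) (y : Fin Y.n → k) :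
    b (gm h Y.ok o q r lam y (f a)) = lam (psX h X f (OmV X Y a b o q r y)) := by
  rcases split_left hl h sX hf with hF | ⟨hX, h₁, φ, hφ, e, he, hF, hfm⟩
  · rw [ucb_fg hl h hc hf hF lam y ho, ucb_psX_fin hl h X hF, LinearMap.zero_apply, map_zero]
  · have hsum : f a = (f - mpE h₁ h φ hφ ∘ₗ e.toLinearMap) a + mpE h₁ h φ hφ (e a) := by
      rw [LinearMap.sub_apply]
      exact (sub_add_cancel _ _).symm
    have h0 : (gm h Y.ok o q r lam y) (mpE h₁ h φ hφ (e a)) =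
        gm h₁ Y.ok o q r (lam ∘ₗ φ) y (e a) := by
      rw [← gm_comp_mpE (h₁ := h₁) (h₂ := h) (h₃ := Y.ok) φ hφ o q r lam y]
      rfl
    have h1 : b ((gm h Y.ok o q r lam y) (mpE h₁ h φ hφ (e a))) = lam (φ (OmV X Y a b o q r y)) := by
      rw [h0, hl2_gmX hX h₁ e he, val_gm, OmV_val]
      rfl
    have h2 : psX h X f = φ := by
      have h3 := ucb_psX_sub h X f (mpE h₁ h φ hφ ∘ₗ e.toLinearMap)
      rw [ucb_psX_fin hl h X hF, ucb_psX_mpE h X hX h₁ φ hφ e he] at h3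
      exact (sub_eq_zero.1 h3.symm)
    rw [hsum, map_add, h2]
    refine (map_add b _ _).trans ?_
    refine (congrArg₂ (· + ·) (ucb_fg hl h hc (hl2_sub hf hfm) hF lam y ho) h1).trans ?_
    exact zero_add _

/-- the value of a homomorphism `M(c, V) → Y` after a graph map -/
theorem val_gm_right (hl : c.MinPer l) (h : c.PerOK l T) (hc : CritB X Y a b c)
    (sY : (∃ r ∈ Y.x.Z, ∃ r' ∈ c.Z, Al Y.x c r r') → Y.x = c) {G : (c.ME l T h).C →ₗ[k] Y.M.C}
    (hG : (c.ME l T h).Hom Y.M G) {o : Bool} {p q : ℤ} (ho : Ord X.x c o p q) (φ : (Fin X.n → k) →ₗ[k] k) (v : V) :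
    b (G (gm X.ok h o p q φ v a)) = OmL X Y a b o p q φ (psY h Y G v) := by
  rcases split_right hl h sY hG with hFG | ⟨hY, h₂, ψ, hψ, e, he, hFG, hGm⟩
  · rw [ucb_gf hl h hc φ v ho hG hFG, ucb_psY_fin hl h Y hFG, LinearMap.zero_apply, hl2_OmL_zero]
  · have hYl := blk_l hl Y hY
    have h0 : mpE h h₂ ψ hψ (gm X.ok h o p q φ v a) = gm X.ok h₂ o p q φ (ψ v) a := by
      rw [← mpE_comp_gm (h₁ := X.ok) (h₂ := h) (h₃ := h₂) ψ hψ o p q φ v]
      rfl
    have h1 : b (e (mpE h h₂ ψ hψ (gm X.ok h o p q φ v a))) = OmL X Y a b o p q φ (ψ v) := by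
      rw [h0, hl2_gmY hY hYl h₂ e he, val_gm, OmL_val]
    have h2 : psY h Y G = ψ := by
      have h3 := ucb_psY_sub h Y G (e.toLinearMap ∘ₗ mpE h h₂ ψ hψ)
      rw [ucb_psY_fin hl h Y hFG, ucb_psY_mpE h Y hY h₂ ψ hψ e he] at h3
      exact (sub_eq_zero.1 h3.symm)
    have h4 := ucb_gf hl h hc φ v ho (hl2_sub hG hGm) hFG
    rw [LinearMap.sub_apply, map_sub, sub_eq_zero] at h4
    rw [h4, h2]
    exact h1

end

end StrAlg
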