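import Pool.Agent.Lib.MP_b9fd58_lc.UCb
import Pool.Agent.Lib.MP_b9fd58_lc.If2Defs

/-!
# Rank formulas: the source side (job UDa)

`M = M(c, V)` such that no homomorphism of `k[X]`-modules `V → V_j` is nonzero: the rank of the pair is the maximal number of
homomorphisms `⊕ V_i → V` which are independent on the span of the vectors `OmVs`.
-/

set_option autoImplicit false

namespace StrAlg

open Module Polynomial

variable {D : Dat} {k : Type} [Field k] {S : Sides D}

theorem NF.actX_aeval (p : NF S k) (g : k[X]) : aeval (p.actX Polynomial.X) g = p.actX g := by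
  refine LinearMap.ext fun v => funext fun i => ?_
  show aeval (p.actX Polynomial.X) g v i = aeval (p.X i).T.toLinearMap g (v i)
  induction g using Polynomial.induction_on' generalizing v with
  | add f g hf hg => rw [map_add, map_add, LinearMap.add_apply, LinearMap.add_apply, Pi.add_apply, hf, hg]
  | monomial n a =>
    rw [aeval_monomial, aeval_monomial, Module.End.mul_apply, Module.End.mul_apply,
      Module.algebraMap_end_apply, Module.algebraMap_end_apply, Pi.smul_apply]
    congr 1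
    induction n generalizing v with
    | zero => simp
    | succ n ih =>
      rw [pow_succ, pow_succ, Module.End.mul_apply, Module.End.mul_apply, ih]
      congr 1
      show aeval (p.X i).T.toLinearMap Polynomial.X (v i) = _
      rw [aeval_X]

theorem NF.USpan_actX (p : NF S k) (c : Str S) : ∀ u ∈ p.USpan c, p.actX Polynomial.X u ∈ p.USpan c := by
  intro u hu
  unfold NF.USpan at hu ⊢
  induction hu using Submodule.span_induction with
  | mem x hx =>
    obtain ⟨g, j, o, q, r, y, ho, rfl⟩ := hx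
    refine Submodule.subset_span ⟨Polynomial.X * g, j, o, q, r, y, ho, ?_⟩
    rw [← NF.actX_aeval p (Polynomial.X * g), ← NF.actX_aeval p g, map_mul, aeval_X, Module.End.mul_apply]
  | zero => rw [map_zero]; exact Submodule.zero_mem _
  | add x y _ _ hx hy => rw [map_add]; exact Submodule.add_mem _ hx hy
  | smul a x _ hx => rw [map_smul]; exact Submodule.smul_mem _ _ hx

section
variable {c : Str S} {l : ℕ} {V : Type} [AddCommGroup V] [Module k V] {T : V ≃ₗ[k] V} (h : c.PerOK l T) (p : NF S k)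

/-- the components of a homomorphism from the source of the pair -/
noncomputable def NF.fX (f : p.pr.A.C →ₗ[k] (c.ME l T h).C) (i : Fin p.m) : (p.X i).M.C →ₗ[k] (c.ME l T h).C :=
  f ∘ₗ LinearMap.single k (fun i => (p.X i).M.C) i

theorem NF.fX_hom {f : p.pr.A.C →ₗ[k] (c.ME l T h).C} (hf : p.pr.A.Hom (c.ME l T h) f) (i : Fin p.m) :
    (p.X i).M.Hom (c.ME l T h) (p.fX h f i) := by
  intro g m
  have h5 := Md.pi_op_single (fun i => (p.X i).M) g i m
  exact (congrArg f h5.symm).trans (hf g (Pi.single i m : ∀ i, (p.X i).M.C))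

theorem NF.fX_val (f : p.pr.A.C →ₗ[k] (c.ME l T h).C) : f p.pr.a = ∑ i, p.fX h f i (p.a i) := by
  classical
  have h1 : (p.a : ∀ i, (p.X i).M.C) = ∑ i, (Pi.single i (p.a i) : ∀ i, (p.X i).M.C) := by
    rw [Finset.univ_sum_single]
  change (show (∀ i, (p.X i).M.C) →ₗ[k] (c.ME l T h).C from f) (p.a : ∀ i, (p.X i).M.C) = _
  have h6 := congrArg (show (∀ i, (p.X i).M.C) →ₗ[k] (c.ME l T h).C from f) h1
  rw [map_sum] at h6
  exact h6

/-- the joint band part -/
noncomputable def NF.PsX (f : p.pr.A.C →ₗ[k] (c.ME l T h).C) : ((i : Fin p.m) → (Fin (p.X i).n → k)) →ₗ[k] V :=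
  ∑ i, psX h (p.X i) (p.fX h f i) ∘ₗ LinearMap.proj i

theorem NF.PsX_sum {ι : Type} (s : Finset ι) (r : ι → k) (f : ι → p.pr.A.C →ₗ[k] (c.ME l T h).C) :
    p.PsX h (∑ i ∈ s, r i • f i) = ∑ i ∈ s, r i • p.PsX h (f i) := by
  classical
  have h1 : ∀ i, p.fX h (∑ i ∈ s, r i • f i) i = ∑ i' ∈ s, r i' • p.fX h (f i') i := by
    intro i
    induction s using Finset.induction_on with
    | empty => rfl
    | insert a s ha ih =>
      rw [Finset.sum_insert ha, Finset.sum_insert ha, ← ih]
      rfl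
  unfold NF.PsX
  refine LinearMap.ext fun v => ?_
  rw [LinearMap.sum_apply, LinearMap.sum_apply]
  simp only [h1, psX_sum, LinearMap.comp_apply, LinearMap.sum_apply, LinearMap.smul_apply, Finset.smul_sum]
  rw [Finset.sum_comm]

theorem NF.PsX_comm (hl : c.MinPer l) {f : p.pr.A.C →ₗ[k] (c.ME l T h).C} (hf : p.pr.A.Hom (c.ME l T h) f)
    (v : (i : Fin p.m) → (Fin (p.X i).n → k)) : p.PsX h f (p.actX Polynomial.X v) = T (p.PsX h f v) := by
  unfold NF.PsX
  rw [LinearMap.sum_apply, LinearMap.sum_apply, map_sum]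
  refine Finset.sum_congr rfl fun i _ => ?_
  have h1 := psX_comm hl h (p.X i) (p.fX_hom h hf i) (v i)
  have h2 : p.actX Polynomial.X v i = (p.X i).T (v i) := by
    show aeval (p.X i).T.toLinearMap Polynomial.X (v i) = _
    rw [aeval_X]
    rfl
  show psX h (p.X i) (p.fX h f i) (p.actX Polynomial.X v i) = T (psX h (p.X i) (p.fX h f i) (v i))
  rw [h2]
  exact h1

/-- the values on graph maps `M(c, V) → Y_j` (`val_gm_left`, `fX_val`; the components `i` with `(p.X i).x ≠ c` are zero) -/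
theorem NF.val_left (hl : c.MinPer l) (hs : p.Sep c) (hc : p.Crit c) {f : p.pr.A.C →ₗ[k] (c.ME l T h).C}
    (hf : p.pr.A.Hom (c.ME l T h) f) (j : Fin p.m') {o : Bool} {q r : ℤ} (ho : Ord c (p.Y j).x o q r) (lam : V →ₗ[k] k)
    (y : Fin (p.Y j).n → k) :
    p.b j (gm h (p.Y j).ok o q r lam y (f p.pr.a)) = lam (p.PsX h f (p.OmVs c j o q r y)) := by
  rw [p.fX_val h f, map_sum]
  refine (map_sum (p.b j) _ _).trans ?_
  have h1 : p.PsX h f (p.OmVs c j o q r y) = ∑ i, psX h (p.X i) (p.fX h f i) (p.OmVs c j o q r y i) := by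
    unfold NF.PsX
    rw [LinearMap.sum_apply]
    rfl
  rw [h1, map_sum]
  refine Finset.sum_congr rfl fun i _ => ?_
  refine (val_gm_left hl h (hc i j) (hs.1 i) (p.fX_hom h hf i) ho lam y).trans ?_
  unfold NF.OmVs
  split_ifs with hi
  · rfl
  · have h3 : psX h (p.X i) (p.fX h f i) = 0 := by
      unfold psX
      rw [if_neg hi]
    rw [h3, LinearMap.zero_apply, LinearMap.zero_apply]

/-- if the band part vanishes on the span of the vectors then all values vanish: the components of `G` have zero band part by `h0`, so they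
are sums of graph maps (`finK_of_psY`, `zero_of_gm`), `val_left` -/
theorem NF.val_zero_left (hl : c.MinPer l) (hs : p.Sep c) (hc : p.Crit c)
    (h0 : ∀ (j : Fin p.m') (g : V →ₗ[k] (Fin (p.Y j).n → k)), (∀ v, g (T v) = (p.Y j).T (g v)) → g = 0)
    {f : p.pr.A.C →ₗ[k] (c.ME l T h).C} (hf : p.pr.A.Hom (c.ME l T h) f) (hU : ∀ u ∈ p.USpan c, p.PsX h f u = 0)
    {G : (c.ME l T h).C →ₗ[k] p.pr.B.C} (hG : (c.ME l T h).Hom p.pr.B G) : p.pr.b (G (f p.pr.a)) = 0 := by
  have h1 : p.pr.b (G (f p.pr.a)) = ∑ j, p.b j ((G (f p.pr.a) : ∀ j, (p.Y j).M.C) j) := by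
    change (∑ j, (p.b j) ∘ₗ (LinearMap.proj j : (∀ j, (p.Y j).M.C) →ₗ[k] (p.Y j).M.C)) (G (f p.pr.a)) = _
    rw [LinearMap.sum_apply]
    rfl
  rw [h1]
  refine Finset.sum_eq_zero fun j _ => ?_
  let F : (c.ME l T h).C →ₗ[k] (p.Y j).M.C := (LinearMap.proj j : (∀ j, (p.Y j).M.C) →ₗ[k] (p.Y j).M.C) ∘ₗ G
  have hF : (c.ME l T h).Hom (p.Y j).M F := by
    intro g n
    exact congrFun (hG g n) j
  have hps : psY h (p.Y j) F = 0 := h0 j _ fun v => psY_comm hl h (p.Y j) hF v
  have hfin : FinK h (p.Y j).ok F := finK_of_psY hl h (p.Y j) (hs.2 j) hF hps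
  let E : ((c.ME l T h).C →ₗ[k] (p.Y j).M.C) →ₗ[k] k :=
    { toFun := fun F' => p.b j (F' (f p.pr.a))
      map_add' := fun f' f'' => by rw [LinearMap.add_apply]; exact map_add (p.b j) _ _
      map_smul' := fun s f' => by rw [LinearMap.smul_apply]; exact map_smul (p.b j) _ _ }
  refine zero_of_gm (h₁ := h) (h₂ := (p.Y j).ok) (fun h0 => absurd hl.1 (by omega)) (p.Y j).fin
    (Or.inr inferInstance) hF hfin E ?_
  intro o q r lam y ho
  change p.b j (gm h (p.Y j).ok o q r lam y (f p.pr.a)) = 0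
  rw [NF.val_left h p hl hs hc hf j ho lam y]
  have h2 : p.OmVs c j o q r y ∈ p.USpan c := by
    refine Submodule.subset_span ⟨1, j, o, q, r, y, ho, ?_⟩
    rw [← NF.actX_aeval, map_one, Module.End.one_apply]
  rw [hU _ h2, map_zero]

end

end StrAlg
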