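import Pool.Agent.Lib.MP_b9fd58_lc.If2Defs

/-!
# Rank formulas: the target side (job UFa)

`M = M(c, V)` such that no homomorphism of `k[X]`-modules `V_i → V` is nonzero: the rank of the pair is the maximal number of
homomorphisms `V → ⊕ V_j` which are independent with respect to the span of the functionals `OmLs`.
-/

set_option autoImplicit false

namespace StrAlg

open Module Polynomial

variable {D : Dat} {k : Type} [Field k] {S : Sides D}

/-- the automorphism of `⊕ V_j` -/
noncomputable def NF.endY (p : NF S k) :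
    ((j : Fin p.m') → (Fin (p.Y j).n → k)) →ₗ[k] ((j : Fin p.m') → (Fin (p.Y j).n → k)) :=
  LinearMap.pi fun j => (p.Y j).T.toLinearMap ∘ₗ LinearMap.proj j

theorem ufa_OmLs_add (p : NF S k) (c : Str S) (i : Fin p.m) (o : Bool) (q r : ℤ)
    (φ : Dual k (Fin (p.X i).n → k)) (j : Fin p.m') (y y' : Fin (p.Y j).n → k) :
    p.OmLs c i o q r φ j (y + y') = p.OmLs c i o q r φ j y + p.OmLs c i o q r φ j y' := by
  unfold NF.OmLs
  split_ifs with h
  · simp only [OmL, Om, LinearMap.smulRight_apply, smul_add, map_add, Finset.sum_add_distrib]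
  · simp

theorem ufa_OmLs_smul (p : NF S k) (c : Str S) (i : Fin p.m) (o : Bool) (q r : ℤ)
    (φ : Dual k (Fin (p.X i).n → k)) (j : Fin p.m') (s : k) (y : Fin (p.Y j).n → k) :
    p.OmLs c i o q r φ j (s • y) = s • p.OmLs c i o q r φ j y := by
  unfold NF.OmLs
  split_ifs with h
  · simp only [OmL, Om, LinearMap.smulRight_apply, smul_comm _ s, map_smul, Finset.smul_sum]
  · simp

theorem ufa_OmLs_zero (p : NF S k) (c : Str S) (i : Fin p.m) (o : Bool) (q r : ℤ)
    (φ : Dual k (Fin (p.X i).n → k)) (j : Fin p.m') :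
    p.OmLs c i o q r φ j 0 = 0 := by
  have h := ufa_OmLs_smul p c i o q r φ j 0 0
  rwa [zero_smul, zero_smul] at h

/-- the joint functionals `OmLs` as functionals on `⊕ V_j` -/
noncomputable def NF.OmD (p : NF S k) (c : Str S) (i : Fin p.m) (o : Bool) (q r : ℤ)
    (φ : Dual k (Fin (p.X i).n → k)) : Dual k ((j : Fin p.m') → (Fin (p.Y j).n → k)) where
  toFun y := ∑ j, p.OmLs c i o q r φ j (y j)
  map_add' y y' := by
    simp only [Pi.add_apply, ufa_OmLs_add, Finset.sum_add_distrib]
  map_smul' s y := by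
    simp only [Pi.smul_apply, ufa_OmLs_smul, Finset.smul_sum, RingHom.id_apply]

/-- the span over the polynomials of the functionals -/
noncomputable def NF.LD (p : NF S k) (c : Str S) : Submodule k (Dual k ((j : Fin p.m') → (Fin (p.Y j).n → k))) :=
  Submodule.span k {u | ∃ (g : k[X]) (i : Fin p.m) (o : Bool) (q r : ℤ) (φ : Dual k (Fin (p.X i).n → k)),
    Ord (p.X i).x c o q r ∧ u = aeval p.endY.dualMap g (p.OmD c i o q r φ)}

theorem NF.LD_inv (p : NF S k) (c : Str S) : ∀ u ∈ p.LD c, p.endY.dualMap u ∈ p.LD c := by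
  intro u hu
  unfold NF.LD at hu ⊢
  induction hu using Submodule.span_induction with
  | mem x hx =>
    obtain ⟨g, i, o, q, r, φ, ho, rfl⟩ := hx
    refine Submodule.subset_span ⟨Polynomial.X * g, i, o, q, r, φ, ho, ?_⟩
    rw [map_mul, aeval_X, Module.End.mul_apply]
  | zero => rw [map_zero]; exact Submodule.zero_mem _
  | add x y _ _ hx hy => rw [map_add]; exact Submodule.add_mem _ hx hy
  | smul a x _ hx => rw [map_smul]; exact Submodule.smul_mem _ _ hx

/-- `⊕ V_j` and polynomials -/
theorem ufa_endY_aeval (p : NF S k) (g : k[X]) (y : (j : Fin p.m') → (Fin (p.Y j).n → k)) (j : Fin p.m') :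
    aeval p.endY g y j = aeval (p.Y j).T.toLinearMap g (y j) := by
  induction g using Polynomial.induction_on' generalizing y with
  | add f g hf hg => rw [map_add, map_add, LinearMap.add_apply, LinearMap.add_apply, Pi.add_apply, hf, hg]
  | monomial n a =>
    rw [aeval_monomial, aeval_monomial, Module.End.mul_apply, Module.End.mul_apply,
      Module.algebraMap_end_apply, Module.algebraMap_end_apply, Pi.smul_apply]
    congr 1
    induction n generalizing y with
    | zero => simp
    | succ n ih =>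
      rw [pow_succ, pow_succ, Module.End.mul_apply, Module.End.mul_apply, ih]
      rfl

theorem ufa_dual_aeval (p : NF S k) (g : k[X]) (u : Dual k ((j : Fin p.m') → (Fin (p.Y j).n → k)))
    (y : (j : Fin p.m') → (Fin (p.Y j).n → k)) :
    aeval p.endY.dualMap g u y = u (aeval p.endY g y) := by
  induction g using Polynomial.induction_on' generalizing u y with
  | add f g hf hg => rw [map_add, map_add, LinearMap.add_apply, LinearMap.add_apply, LinearMap.add_apply, map_add, hf, hg]
  | monomial n a =>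
    rw [aeval_monomial, aeval_monomial, Module.End.mul_apply, Module.End.mul_apply,
      Module.algebraMap_end_apply, Module.algebraMap_end_apply, map_smul, LinearMap.smul_apply]
    congr 1
    induction n generalizing u y with
    | zero => simp
    | succ n ih =>
      rw [pow_succ', pow_succ, Module.End.mul_apply, Module.End.mul_apply, LinearMap.dualMap_apply, ih]

/-- functionals as families of functions -/
noncomputable def ufa_io (p : NF S k) : Dual k ((j : Fin p.m') → (Fin (p.Y j).n → k)) →ₗ[k]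
    ((j : Fin p.m') → (Fin (p.Y j).n → k) → k) where
  toFun u := fun j y => u (Pi.single j y)
  map_add' _ _ := rfl
  map_smul' _ _ := rfl

theorem ufa_io_inj (p : NF S k) : Function.Injective (ufa_io p) := by
  intro u v h
  refine LinearMap.pi_ext fun j y => ?_
  have h1 := congrFun (congrFun h j) y
  exact h1

theorem ufa_single_aeval (p : NF S k) (g : k[X]) (j : Fin p.m') (y : Fin (p.Y j).n → k) :
    aeval p.endY g (Pi.single j y) = Pi.single j (aeval (p.Y j).T.toLinearMap g y) := by
  funext j'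
  rw [ufa_endY_aeval]
  by_cases h : j' = j
  · subst h
    rw [Pi.single_eq_same, Pi.single_eq_same]
  · rw [Pi.single_eq_of_ne h, Pi.single_eq_of_ne h, map_zero]

theorem ufa_io_aeval (p : NF S k) (g : k[X]) (u : Dual k ((j : Fin p.m') → (Fin (p.Y j).n → k))) :
    ufa_io p (aeval p.endY.dualMap g u) = p.actY g (ufa_io p u) := by
  funext j y
  change aeval p.endY.dualMap g u (Pi.single j y) = u (Pi.single j (aeval (p.Y j).T.toLinearMap g y))
  rw [ufa_dual_aeval, ufa_single_aeval]

theorem ufa_io_OmD (p : NF S k) (c : Str S) (i : Fin p.m) (o : Bool) (q r : ℤ)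
    (φ : Dual k (Fin (p.X i).n → k)) : ufa_io p (p.OmD c i o q r φ) = p.OmLs c i o q r φ := by
  funext j y
  change (∑ j', p.OmLs c i o q r φ j' ((Pi.single j y : (j : Fin p.m') → (Fin (p.Y j).n → k)) j')) =
    p.OmLs c i o q r φ j y
  rw [Finset.sum_eq_single j]
  · rw [Pi.single_eq_same]
  · intro j' _ hj'
    rw [Pi.single_eq_of_ne hj', ufa_OmLs_zero]
  · intro h
    exact absurd (Finset.mem_univ j) h

theorem ufa_map_LD (p : NF S k) (c : Str S) : (p.LD c).map (ufa_io p) = p.LSpan c := by
  unfold NF.LD NF.LSpan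
  rw [Submodule.map_span]
  congr 1
  ext u
  constructor
  · rintro ⟨v, ⟨g, i, o, q, r, φ, ho, rfl⟩, rfl⟩
    exact ⟨g, i, o, q, r, φ, ho, by rw [ufa_io_aeval, ufa_io_OmD]⟩
  · rintro ⟨g, i, o, q, r, φ, ho, rfl⟩
    exact ⟨aeval p.endY.dualMap g (p.OmD c i o q r φ), ⟨g, i, o, q, r, φ, ho, rfl⟩,
      by rw [ufa_io_aeval, ufa_io_OmD]⟩

theorem ufa_actY_mul (p : NF S k) (g h : k[X]) (f : (j : Fin p.m') → (Fin (p.Y j).n → k) → k) :
    p.actY (g * h) f = p.actY h (p.actY g f) := by
  funext j y
  change f j (aeval (p.Y j).T.toLinearMap (g * h) y) =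
    f j (aeval (p.Y j).T.toLinearMap g (aeval (p.Y j).T.toLinearMap h y))
  rw [map_mul, Module.End.mul_apply]

theorem ufa_ker_mono (p : NF S k) (π : k[X]) : Monotone fun n : ℕ => LinearMap.ker (p.actY (π ^ n)) := by
  intro n m hnm f hf
  rw [LinearMap.mem_ker] at hf ⊢
  rw [← Nat.add_sub_cancel' hnm, pow_add, ufa_actY_mul, hf, map_zero]

theorem ufa_map_prim (p : NF S k) (c : Str S) (π : k[X]) :
    (p.LD c ⊓ ⨆ n : ℕ, LinearMap.ker (aeval p.endY.dualMap (π ^ n))).map (ufa_io p) = p.LPrim c π := by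
  ext f
  unfold NF.LPrim
  rw [Submodule.mem_map, Submodule.mem_inf,
    Submodule.mem_iSup_of_directed _ (ufa_ker_mono p π).directed_le]
  constructor
  · rintro ⟨u, hu, rfl⟩
    obtain ⟨h1, h2⟩ := Submodule.mem_inf.1 hu
    refine ⟨?_, ?_⟩
    · rw [← ufa_map_LD]
      exact Submodule.mem_map_of_mem h1
    · have hd : Monotone fun n : ℕ => LinearMap.ker (aeval p.endY.dualMap (π ^ n)) := by
        intro n m hnm v hv
        rw [LinearMap.mem_ker] at hv ⊢
        rw [← Nat.add_sub_cancel' hnm, pow_add, mul_comm, map_mul, Module.End.mul_apply, hv, map_zero]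
      rw [Submodule.mem_iSup_of_directed _ hd.directed_le] at h2
      obtain ⟨n, hn⟩ := h2
      refine ⟨n, ?_⟩
      rw [LinearMap.mem_ker] at hn ⊢
      rw [← ufa_io_aeval, hn, map_zero]
  · rintro ⟨h1, n, hn⟩
    rw [← ufa_map_LD] at h1
    obtain ⟨u, hu, rfl⟩ := h1
    refine ⟨u, Submodule.mem_inf.2 ⟨hu, ?_⟩, rfl⟩
    refine Submodule.mem_iSup_of_mem n ?_
    rw [LinearMap.mem_ker] at hn ⊢
    rw [← ufa_io_aeval] at hn
    exact ufa_io_inj p (hn.trans (map_zero _).symm)

/-- the dimension of `LPrim`: the injective map `u ↦ (j, y) ↦ u (Pi.single j y)` from the dual space to functions maps `LD` onto `LSpan`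
and the kernels of `aeval p.endY.dualMap (π ^ n)` to those of `p.actY (π ^ n)` -/
theorem NF.finrank_LPrim (p : NF S k) (c : Str S) (π : k[X]) :
    finrank k (p.LPrim c π) =
      finrank k (p.LD c ⊓ ⨆ n : ℕ, LinearMap.ker (aeval p.endY.dualMap (π ^ n)) : Submodule k _) := by
  rw [← ufa_map_prim]
  exact (Submodule.equivMapOfInjective (ufa_io p) (ufa_io_inj p) _).finrank_eq.symm

end StrAlg
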