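import Pool.Agent.Lib.MP_b9fd58_lc.UFa
import Pool.Agent.Lib.MP_b9fd58_lc.UCb

/-!
# Rank formulas: the target side, values (job UFb)
-/

set_option autoImplicit false

namespace StrAlg

open Module Polynomial

variable {D : Dat} {k : Type} [Field k] {S : Sides D}

section
variable {c : Str S} {l : ℕ} {V : Type} [AddCommGroup V] [Module k V] {T : V ≃ₗ[k] V} (h : c.PerOK l T) (p : NF S k)

/-- the joint band part -/
noncomputable def NF.PsY (G : (c.ME l T h).C →ₗ[k] p.pr.B.C) : V →ₗ[k] ((j : Fin p.m') → (Fin (p.Y j).n → k)) :=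
  LinearMap.pi fun j => psY h (p.Y j) ((LinearMap.proj j : (∀ j, (p.Y j).M.C) →ₗ[k] (p.Y j).M.C) ∘ₗ G)

/-- the components of a homomorphism into the target of the pair -/
noncomputable def ufb_Y (G : (c.ME l T h).C →ₗ[k] p.pr.B.C) (j : Fin p.m') : (c.ME l T h).C →ₗ[k] (p.Y j).M.C :=
  (LinearMap.proj j : (∀ j, (p.Y j).M.C) →ₗ[k] (p.Y j).M.C) ∘ₗ G

theorem ufb_Y_sum {ι : Type} (s : Finset ι) (r : ι → k) (G : ι → (c.ME l T h).C →ₗ[k] p.pr.B.C) (j : Fin p.m') :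
    ufb_Y h p (∑ i ∈ s, r i • G i) j = ∑ i ∈ s, r i • ufb_Y h p (G i) j := by
  classical
  induction s using Finset.induction_on with
  | empty => rfl
  | insert a s ha ih =>
    rw [Finset.sum_insert ha, Finset.sum_insert ha, ← ih]
    rfl

theorem NF.PsY_sum {ι : Type} (s : Finset ι) (r : ι → k) (G : ι → (c.ME l T h).C →ₗ[k] p.pr.B.C) :
    p.PsY h (∑ i ∈ s, r i • G i) = ∑ i ∈ s, r i • p.PsY h (G i) := by
  refine LinearMap.ext fun v => funext fun j => ?_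
  have h1 : p.PsY h (∑ i ∈ s, r i • G i) v j = psY h (p.Y j) (ufb_Y h p (∑ i ∈ s, r i • G i) j) v := rfl
  rw [h1, ufb_Y_sum, psY_sum, LinearMap.sum_apply, LinearMap.sum_apply, Finset.sum_apply]
  refine Finset.sum_congr rfl fun i _ => ?_
  rfl

theorem ufb_Y_hom {G : (c.ME l T h).C →ₗ[k] p.pr.B.C} (hG : (c.ME l T h).Hom p.pr.B G) (j : Fin p.m') :
    (c.ME l T h).Hom (p.Y j).M (ufb_Y h p G j) := by
  intro g n
  exact congrFun (hG g n) j

theorem NF.PsY_comm (hl : c.MinPer l) {G : (c.ME l T h).C →ₗ[k] p.pr.B.C} (hG : (c.ME l T h).Hom p.pr.B G) (v : V) :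
    p.PsY h G (T v) = p.endY (p.PsY h G v) := by
  funext j
  exact psY_comm hl h (p.Y j) (ufb_Y_hom h p hG j) v

theorem ufb_b_apply (y : ∀ j, (p.Y j).M.C) : p.pr.b y = ∑ j, p.b j (y j) := by
  change (∑ j, (p.b j) ∘ₗ (LinearMap.proj j : (∀ j, (p.Y j).M.C) →ₗ[k] (p.Y j).M.C)) y = _
  rw [LinearMap.sum_apply]
  rfl

/-- the values on graph maps `X_i → M(c, V)` (`val_gm_right`) -/
theorem NF.val_right (hl : c.MinPer l) (hs : p.Sep c) (hc : p.Crit c) {G : (c.ME l T h).C →ₗ[k] p.pr.B.C}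
    (hG : (c.ME l T h).Hom p.pr.B G) (i : Fin p.m) {o : Bool} {q r : ℤ} (ho : Ord (p.X i).x c o q r)
    (φ : (Fin (p.X i).n → k) →ₗ[k] k) (v : V) :
    p.pr.b (G (gm (p.X i).ok h o q r φ v (p.a i))) = p.OmD c i o q r φ (p.PsY h G v) := by
  have h1 : p.pr.b (G (gm (p.X i).ok h o q r φ v (p.a i))) =
      ∑ j, p.b j (ufb_Y h p G j (gm (p.X i).ok h o q r φ v (p.a i))) := by
    exact ufb_b_apply p (G (gm (p.X i).ok h o q r φ v (p.a i)))
  have h2 : p.OmD c i o q r φ (p.PsY h G v) = ∑ j, p.OmLs c i o q r φ j (psY h (p.Y j) (ufb_Y h p G j) v) := rfl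
  rw [h1, h2]
  refine Finset.sum_congr rfl fun j _ => ?_
  rw [val_gm_right hl h (hc i j) (hs.2 j) (ufb_Y_hom h p hG j) ho φ v]
  unfold NF.OmLs
  split_ifs with hj
  · rfl
  · have h3 : psY h (p.Y j) (ufb_Y h p G j) = 0 := by
      unfold psY
      rw [if_neg hj]
    rw [h3, LinearMap.zero_apply]
    exact hl2_OmL_zero _ _ _ _ _ _ _ _

theorem NF.val_zero_right (hl : c.MinPer l) (hs : p.Sep c) (hc : p.Crit c)
    (h0 : ∀ (i : Fin p.m) (g : (Fin (p.X i).n → k) →ₗ[k] V), (∀ v, g ((p.X i).T v) = T (g v)) → g = 0)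
    {f : p.pr.A.C →ₗ[k] (c.ME l T h).C} (hf : p.pr.A.Hom (c.ME l T h) f)
    {G : (c.ME l T h).C →ₗ[k] p.pr.B.C} (hG : (c.ME l T h).Hom p.pr.B G)
    (hU : ∀ u ∈ p.LD c, ∀ v, u (p.PsY h G v) = 0) : p.pr.b (G (f p.pr.a)) = 0 := by
  classical
  have h1 : (p.a : ∀ i, (p.X i).M.C) = ∑ i, (Pi.single i (p.a i) : ∀ i, (p.X i).M.C) := by
    rw [Finset.univ_sum_single]
  let F : (i : Fin p.m) → (p.X i).M.C →ₗ[k] (c.ME l T h).C := fun i =>
    LinearMap.comp (show (∀ i, (p.X i).M.C) →ₗ[k] (c.ME l T h).C from f) (LinearMap.single k (fun i => (p.X i).M.C) i)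
  have hF : ∀ i, (p.X i).M.Hom (c.ME l T h) (F i) := by
    intro i g m
    have h5 := Md.pi_op_single (fun i => (p.X i).M) g i m
    exact (congrArg f h5.symm).trans (hf g (Pi.single i m : ∀ i, (p.X i).M.C))
  have h2 : f p.pr.a = ∑ i, F i (p.a i) := by
    change (show (∀ i, (p.X i).M.C) →ₗ[k] (c.ME l T h).C from f) (p.a : ∀ i, (p.X i).M.C) = _
    have h6 := congrArg (show (∀ i, (p.X i).M.C) →ₗ[k] (c.ME l T h).C from f) h1
    rw [map_sum] at h6
    exact h6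
  rw [h2]
  have h3 : p.pr.b (G (∑ i, F i (p.a i))) = ∑ i, p.pr.b (G (F i (p.a i))) := by
    rw [map_sum]
    exact map_sum p.pr.b _ _
  rw [h3]
  refine Finset.sum_eq_zero fun i _ => ?_
  have hps : psX h (p.X i) (F i) = 0 := h0 i _ fun v => psX_comm hl h (p.X i) (hF i) v
  have hfin : FinK (p.X i).ok h (F i) := finK_of_psX hl h (p.X i) (hs.1 i) (hF i) hps
  let E : ((p.X i).M.C →ₗ[k] (c.ME l T h).C) →ₗ[k] k :=
    { toFun := fun f' => p.pr.b (G (f' (p.a i)))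
      map_add' := fun f' f'' => by rw [LinearMap.add_apply, map_add]; exact map_add p.pr.b _ _
      map_smul' := fun s f' => by rw [LinearMap.smul_apply, map_smul]; exact map_smul p.pr.b _ _ }
  refine zero_of_gm (h₁ := (p.X i).ok) (h₂ := h) (p.X i).fin (fun h0 => absurd hl.1 (by omega))
    (Or.inl inferInstance) (hF i) hfin E ?_
  intro o q r φ v ho
  change p.pr.b (G (gm (p.X i).ok h o q r φ v (p.a i))) = 0
  rw [NF.val_right h p hl hs hc hG i ho φ v]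
  refine hU _ (Submodule.subset_span ⟨1, i, o, q, r, φ, ho, ?_⟩) v
  rw [map_one, Module.End.one_apply]

end

end StrAlg
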