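import Pool.Agent.Lib.MP_b9fd58_lc.WSides
import Pool.Agent.Lib.MP_b9fd58_lc.WOp
import Pool.Agent.Lib.MP_b9fd58_lc.WEc
import Pool.Agent.Lib.MP_b9fd58_lc.WG
import Pool.Agent.Lib.MP_b9fd58_lc.WSb
import Pool.Agent.Lib.MP_b9fd58_lc.WUa
import Pool.Agent.Lib.MP_b9fd58_lc.WUb
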