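import Pool.Agent.Lib.MP_b9fd58_lc.WA
import Pool.Agent.Lib.MP_b9fd58_lc.WBa

/-!
# The cuts of extended words (job WBb)
-/

set_option autoImplicit false

namespace StrAlg

open Module

variable {D : Dat} {k : Type} [Field k] {N : Type} [AddCommGroup N] [Module k N]

theorem wbb_fin3 {x : Fin 3} (h : x ≠ 1) : x = 0 ∨ x = 2 := by
  revert x; decide

theorem wbb_up0 (Q : QMod D k N) (S : Sides D) (n : ℕ) {u : Wd} (h : u 0 = 0) (i : Fin D.nV) (s : Bool) :
    Q.up S (n + 1) u i s = Q.cB S i s (Q.up S n u.sh (S.nh i s 0).1 (S.nh i s 0).2) := by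
  show (if u 0 = 0 then _ else _) = _
  rw [if_pos h]

theorem wbb_up2 (Q : QMod D k N) (S : Sides D) (n : ℕ) {u : Wd} (h : u 0 = 2) (i : Fin D.nV) (s : Bool) :
    Q.up S (n + 1) u i s = Q.cC S i s (Q.up S n u.sh (S.nh i s 2).1 (S.nh i s 2).2) := by
  show (if u 0 = 0 then _ else if u 0 = 2 then _ else _) = _
  rw [if_neg (by rw [h]; decide), if_pos h]

theorem wbb_up1 (Q : QMod D k N) (S : Sides D) (n : ℕ) {u : Wd} (h : u 0 = 1) (i : Fin D.nV) (s : Bool) :
    Q.up S (n + 1) u i s = Q.cC S i s ⊥ := by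
  show (if u 0 = 0 then _ else if u 0 = 2 then _ else _) = _
  rw [if_neg (by rw [h]; decide), if_neg (by rw [h]; decide)]

theorem wbb_lo0 (Q : QMod D k N) (S : Sides D) (n : ℕ) {u : Wd} (h : u 0 = 0) (i : Fin D.nV) (s : Bool) :
    Q.lo S (n + 1) u i s = Q.cB S i s (Q.lo S n u.sh (S.nh i s 0).1 (S.nh i s 0).2) := by
  show (if u 0 = 0 then _ else _) = _
  rw [if_pos h]

theorem wbb_lo2 (Q : QMod D k N) (S : Sides D) (n : ℕ) {u : Wd} (h : u 0 = 2) (i : Fin D.nV) (s : Bool) :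
    Q.lo S (n + 1) u i s = Q.cC S i s (Q.lo S n u.sh (S.nh i s 2).1 (S.nh i s 2).2) := by
  show (if u 0 = 0 then _ else if u 0 = 2 then _ else _) = _
  rw [if_neg (by rw [h]; decide), if_pos h]

theorem wbb_lo1 (Q : QMod D k N) (S : Sides D) (n : ℕ) {u : Wd} (h : u 0 = 1) (i : Fin D.nV) (s : Bool) :
    Q.lo S (n + 1) u i s = Q.cB S i s ⊤ := by
  show (if u 0 = 0 then _ else if u 0 = 2 then _ else _) = _
  rw [if_neg (by rw [h]; decide), if_neg (by rw [h]; decide)]

/-- common step: both sides are read through the same first letter (not END) -/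
theorem wbb_uu (Q : QMod D k N) (S : Sides D) {m n : ℕ} {u v : Wd} (h : u 0 ≠ 1) (h0 : v 0 = u 0)
    (ih : ∀ i s, Q.up S m u.sh i s = Q.up S n v.sh i s) (i : Fin D.nV) (s : Bool) :
    Q.up S (m + 1) u i s = Q.up S (n + 1) v i s := by
  rcases wbb_fin3 h with h1 | h1
  · rw [wbb_up0 Q S m h1, wbb_up0 Q S n (h0.trans h1), ih]
  · rw [wbb_up2 Q S m h1, wbb_up2 Q S n (h0.trans h1), ih]

theorem wbb_ll (Q : QMod D k N) (S : Sides D) {m n : ℕ} {u v : Wd} (h : u 0 ≠ 1) (h0 : v 0 = u 0)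
    (ih : ∀ i s, Q.lo S m u.sh i s = Q.lo S n v.sh i s) (i : Fin D.nV) (s : Bool) :
    Q.lo S (m + 1) u i s = Q.lo S (n + 1) v i s := by
  rcases wbb_fin3 h with h1 | h1
  · rw [wbb_lo0 Q S m h1, wbb_lo0 Q S n (h0.trans h1), ih]
  · rw [wbb_lo2 Q S m h1, wbb_lo2 Q S n (h0.trans h1), ih]

theorem wbb_ul (Q : QMod D k N) (S : Sides D) {m n : ℕ} {u v : Wd} (h : u 0 ≠ 1) (h0 : v 0 = u 0)
    (ih : ∀ i s, Q.up S m u.sh i s = Q.lo S n v.sh i s) (i : Fin D.nV) (s : Bool) :
    Q.up S (m + 1) u i s = Q.lo S (n + 1) v i s := by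
  rcases wbb_fin3 h with h1 | h1
  · rw [wbb_up0 Q S m h1, wbb_lo0 Q S n (h0.trans h1), ih]
  · rw [wbb_up2 Q S m h1, wbb_lo2 Q S n (h0.trans h1), ih]

theorem QMod.up_eq_cat_top (Q : QMod D k N) (S : Sides D) (m n : ℕ) (u : Wd) (i : Fin D.nV) (s : Bool) :
    Q.up S (m + n) (u.cat m Wd.top) i s = Q.up S m u i s := by
  induction m generalizing u i s with
  | zero => rw [Nat.zero_add]; exact Q.up_top S n i s
  | succ m ih =>
    have e : m + 1 + n = (m + n) + 1 := by omega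
    rw [e]
    by_cases h : u 0 = 1
    · rw [wbb_up1 Q S (m + n) (u := u.cat (m + 1) Wd.top) h, wbb_up1 Q S m h]
    · exact wbb_uu Q S (u := u.cat (m + 1) Wd.top) (v := u) h rfl (fun i s => ih u.sh i s) i s

theorem QMod.lo_eq_cat_bot (Q : QMod D k N) (S : Sides D) (m n : ℕ) (u : Wd) (i : Fin D.nV) (s : Bool) :
    Q.lo S (m + n) (u.cat m Wd.bot) i s = Q.lo S m u i s := by
  induction m generalizing u i s with
  | zero => rw [Nat.zero_add]; exact Q.lo_bot S n i s
  | succ m ih =>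
    have e : m + 1 + n = (m + n) + 1 := by omega
    rw [e]
    by_cases h : u 0 = 1
    · rw [wbb_lo1 Q S (m + n) (u := u.cat (m + 1) Wd.bot) h, wbb_lo1 Q S m h]
    · exact wbb_ll Q S (u := u.cat (m + 1) Wd.bot) (v := u) h rfl (fun i s => ih u.sh i s) i s

/-- nothing changes after END -/
theorem QMod.up_succ_of_fin (Q : QMod D k N) (S : Sides D) {m j : ℕ} {u : Wd} (hj : j < m) (h : u j = 1)
    (i : Fin D.nV) (s : Bool) : Q.up S (m + 1) u i s = Q.up S m u i s := by
  induction m generalizing u j i s with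
  | zero => omega
  | succ m ih =>
    by_cases h0 : u 0 = 1
    · rw [wbb_up1 Q S (m + 1) h0, wbb_up1 Q S m h0]
    · cases j with
      | zero => exact absurd h h0
      | succ j => exact wbb_uu Q S h0 rfl (fun i s => ih (j := j) (u := u.sh) (by omega) h i s) i s

theorem QMod.lo_succ_of_fin (Q : QMod D k N) (S : Sides D) {m j : ℕ} {u : Wd} (hj : j < m) (h : u j = 1)
    (i : Fin D.nV) (s : Bool) : Q.lo S (m + 1) u i s = Q.lo S m u i s := by
  induction m generalizing u j i s with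
  | zero => omega
  | succ m ih =>
    by_cases h0 : u 0 = 1
    · rw [wbb_lo1 Q S (m + 1) h0, wbb_lo1 Q S m h0]
    · cases j with
      | zero => exact absurd h h0
      | succ j => exact wbb_ll Q S h0 rfl (fun i s => ih (j := j) (u := u.sh) (by omega) h i s) i s

/-! neighbouring cuts: `m` letters (none of them END), then the letter `u m` -/

theorem QMod.up_succ_zero (Q : QMod D k N) (S : Sides D) (m n : ℕ) {u : Wd} (hu : ∀ j < m, u j ≠ 1) (h : u m = 0)
    (i : Fin D.nV) (s : Bool) : Q.up S (m + 1) u i s = Q.lo S (m + 1 + n) (u.cat m Wd.fin) i s := by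
  induction m generalizing u i s with
  | zero =>
    have e : 0 + 1 + n = n + 1 := by omega
    rw [e, wbb_up0 Q S 0 h, wbb_lo1 Q S n (u := u.cat 0 Wd.fin) rfl]
    exact Q.cB_vs S i s
  | succ m ih =>
    have e : m + 1 + 1 + n = (m + 1 + n) + 1 := by omega
    rw [e]
    exact wbb_ul Q S (u := u) (v := u.cat (m + 1) Wd.fin) (hu 0 (by omega)) rfl
      (fun i s => ih (u := u.sh) (fun j hj => hu (j + 1) (by omega)) h i s) i s

theorem QMod.up_succ_one (Q : QMod D k N) (S : Sides D) (m n : ℕ) {u : Wd} (hu : ∀ j < m, u j ≠ 1) (h : u m = 1)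
    (i : Fin D.nV) (s : Bool) :
    Q.up S (m + 1) u i s = Q.lo S (m + 1 + n) (u.cat m (Wd.cons 2 Wd.bot)) i s := by
  induction m generalizing u i s with
  | zero =>
    have e : 0 + 1 + n = n + 1 := by omega
    rw [e, wbb_up1 Q S 0 h, wbb_lo2 Q S n (u := u.cat 0 (Wd.cons 2 Wd.bot)) rfl]
    exact congrArg _ (Q.lo_bot S n _ _).symm
  | succ m ih =>
    have e : m + 1 + 1 + n = (m + 1 + n) + 1 := by omega
    rw [e]
    exact wbb_ul Q S (u := u) (v := u.cat (m + 1) (Wd.cons 2 Wd.bot)) (hu 0 (by omega)) rfl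
      (fun i s => ih (u := u.sh) (fun j hj => hu (j + 1) (by omega)) h i s) i s

theorem QMod.up_succ_two (Q : QMod D k N) (S : Sides D) (m : ℕ) {u : Wd} (hu : ∀ j < m, u j ≠ 1) (h : u m = 2)
    (i : Fin D.nV) (s : Bool) : Q.up S (m + 1) u i s = Q.up S m u i s := by
  induction m generalizing u i s with
  | zero =>
    rw [wbb_up2 Q S 0 h]
    exact Q.cC_vs S i s
  | succ m ih =>
    exact wbb_uu Q S (hu 0 (by omega)) rfl
      (fun i s => ih (u := u.sh) (fun j hj => hu (j + 1) (by omega)) h i s) i s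

theorem QMod.lo_succ_zero (Q : QMod D k N) (S : Sides D) (m : ℕ) {u : Wd} (hu : ∀ j < m, u j ≠ 1) (h : u m = 0)
    (i : Fin D.nV) (s : Bool) : Q.lo S (m + 1) u i s = Q.lo S m u i s := by
  induction m generalizing u i s with
  | zero =>
    rw [wbb_lo0 Q S 0 h]
    exact Q.cB_bot S i s
  | succ m ih =>
    exact wbb_ll Q S (hu 0 (by omega)) rfl
      (fun i s => ih (u := u.sh) (fun j hj => hu (j + 1) (by omega)) h i s) i s

theorem QMod.lo_succ_one (Q : QMod D k N) (S : Sides D) (m n : ℕ) {u : Wd} (hu : ∀ j < m, u j ≠ 1) (h : u m = 1)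
    (i : Fin D.nV) (s : Bool) :
    Q.lo S (m + 1) u i s = Q.up S (m + 1 + n) (u.cat m (Wd.cons 0 Wd.top)) i s := by
  induction m generalizing u i s with
  | zero =>
    have e : 0 + 1 + n = n + 1 := by omega
    rw [e, wbb_lo1 Q S 0 h, wbb_up0 Q S n (u := u.cat 0 (Wd.cons 0 Wd.top)) rfl]
    refine (Q.cB_vs S i s).symm.trans (congrArg _ ?_)
    exact (Q.up_top S n _ _).symm
  | succ m ih =>
    have e : m + 1 + 1 + n = (m + 1 + n) + 1 := by omega
    rw [e]
    exact (wbb_ul Q S (u := u.cat (m + 1) (Wd.cons 0 Wd.top)) (v := u) (hu 0 (by omega)) rfl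
      (fun i s => (ih (u := u.sh) (fun j hj => hu (j + 1) (by omega)) h i s).symm) i s).symm

theorem QMod.lo_succ_two (Q : QMod D k N) (S : Sides D) (m n : ℕ) {u : Wd} (hu : ∀ j < m, u j ≠ 1) (h : u m = 2)
    (i : Fin D.nV) (s : Bool) : Q.lo S (m + 1) u i s = Q.up S (m + 1 + n) (u.cat m Wd.fin) i s := by
  induction m generalizing u i s with
  | zero =>
    have e : 0 + 1 + n = n + 1 := by omega
    rw [e, wbb_lo2 Q S 0 h, wbb_up1 Q S n (u := u.cat 0 Wd.fin) rfl]
    rfl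
  | succ m ih =>
    have e : m + 1 + 1 + n = (m + 1 + n) + 1 := by omega
    rw [e]
    exact (wbb_ul Q S (u := u.cat (m + 1) Wd.fin) (v := u) (hu 0 (by omega)) rfl
      (fun i s => (ih (u := u.sh) (fun j hj => hu (j + 1) (by omega)) h i s).symm) i s).symm

end StrAlg
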