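import Pool.Agent.Lib.MP_b9fd58_lc.WBb

/-!
# Splitting intervals of cuts (job WCa)
-/

set_option autoImplicit false

namespace StrAlg

open Module

variable {D : Dat} {k : Type} [Field k] {N : Type} [AddCommGroup N] [Module k N]

theorem wca_lo0 (Q : QMod D k N) (S : Sides D) (n : ℕ) {u : Wd} (h : u 0 = 0) (i : Fin D.nV) (s : Bool) :
    Q.lo S (n + 1) u i s = Q.cB S i s (Q.lo S n u.sh (S.nh i s 0).1 (S.nh i s 0).2) := by
  simp only [QMod.lo, h, if_true]

theorem wca_up0 (Q : QMod D k N) (S : Sides D) (n : ℕ) {u : Wd} (h : u 0 = 0) (i : Fin D.nV) (s : Bool) :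
    Q.up S (n + 1) u i s = Q.cB S i s (Q.up S n u.sh (S.nh i s 0).1 (S.nh i s 0).2) := by
  simp only [QMod.up, h, if_true]

theorem wca_lo2 (Q : QMod D k N) (S : Sides D) (n : ℕ) {u : Wd} (h : u 0 = 2) (i : Fin D.nV) (s : Bool) :
    Q.lo S (n + 1) u i s = Q.cC S i s (Q.lo S n u.sh (S.nh i s 2).1 (S.nh i s 2).2) := by
  have h20 : ¬ ((2 : Fin 3) = 0) := by decide
  simp only [QMod.lo, h, h20, if_false, if_true]

theorem wca_up2 (Q : QMod D k N) (S : Sides D) (n : ℕ) {u : Wd} (h : u 0 = 2) (i : Fin D.nV) (s : Bool) :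
    Q.up S (n + 1) u i s = Q.cC S i s (Q.up S n u.sh (S.nh i s 2).1 (S.nh i s 2).2) := by
  have h20 : ¬ ((2 : Fin 3) = 0) := by decide
  simp only [QMod.up, h, h20, if_false, if_true]

theorem wca_lo1 (Q : QMod D k N) (S : Sides D) (n : ℕ) {u : Wd} (h : u 0 = 1) (i : Fin D.nV) (s : Bool) :
    Q.lo S (n + 1) u i s = Q.cB S i s ⊤ := by
  have h10 : ¬ ((1 : Fin 3) = 0) := by decide
  have h12 : ¬ ((1 : Fin 3) = 2) := by decide
  simp only [QMod.lo, h, h10, h12, if_false]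

theorem wca_up1 (Q : QMod D k N) (S : Sides D) (n : ℕ) {u : Wd} (h : u 0 = 1) (i : Fin D.nV) (s : Bool) :
    Q.up S (n + 1) u i s = Q.cC S i s ⊥ := by
  have h10 : ¬ ((1 : Fin 3) = 0) := by decide
  have h12 : ¬ ((1 : Fin 3) = 2) := by decide
  simp only [QMod.up, h, h10, h12, if_false]

theorem wca_splB (Q : QMod D k N) (S : Sides D) (i : Fin D.nV) (s : Bool)
    {P : Submodule k N → Submodule k N → Prop} (hP : Spl P) :
    Spl fun A B => P (Q.cB S i s A) (Q.cB S i s B) :=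
  fun _ _ _ h1 h2 h => hP _ _ _ (Q.cB_mono S i s h1) (Q.cB_mono S i s h2) h

theorem wca_splC (Q : QMod D k N) (S : Sides D) (i : Fin D.nV) (s : Bool)
    {P : Submodule k N → Submodule k N → Prop} (hP : Spl P) :
    Spl fun A B => P (Q.cC S i s A) (Q.cC S i s B) :=
  fun _ _ _ h1 h2 h => hP _ _ _ (Q.cC_mono S i s h1) (Q.cC_mono S i s h2) h

/-- the interval `[lo n u, up n v]` of a splittable predicate contains a word interval

Proof: induction on `n`, generalizing `P, u, v, i, s`. `n = 0`: `w := u`. Step: compare `u 0`, `v 0`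
(`u 0 ≤ v 0` by `WLe.head_le`):
* `(0,0)`: IH for `fun A B => P (Q.cB S i s A) (Q.cB S i s B)`, `u.sh`, `v.sh` (`WLe_sh`), `w := Wd.cons 0 w'`
  (write `u = Wd.cons (u 0) u.sh` by `Wd.cons_sh`, use `WLe_cons`).
* `(2,2)`: the same with `cC`.   * `(1,1)`: `w := u`, the two intervals are both `[cB ⊤, cC ⊥]`.
* `(0,1)`: split `[cB (lo n u'), cC ⊥]` at `cB (vs _) = cB ⊤` (`cB_vs`): first part: IH for `cB`, `u.sh ≤ Wd.top`
  (`up_top`), `w := Wd.cons 0 w'` (`w 0 = 0 < 1 = v 0`: `WLe_of_lt`); second part: `w := v`.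
* `(0,2)`: split at `cB ⊤` and at `cC ⊥`: first part as before; second part: `w := Wd.fin`;
  third part: IH for `cC`, `Wd.bot ≤ v.sh` (`lo_bot`), `w := Wd.cons 2 w'`.
* `(1,2)`: split at `cC ⊥`: first part `w := u`; second part: IH for `cC`, `Wd.bot ≤ v.sh`. -/
theorem QMod.between (Q : QMod D k N) (S : Sides D) (n : ℕ) :
    ∀ (P : Submodule k N → Submodule k N → Prop), Spl P → ∀ (i : Fin D.nV) (s : Bool) (u v : Wd), WLe u v →
      u.Abs → v.Abs → P (Q.lo S n u i s) (Q.up S n v i s) →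
      ∃ w : Wd, WLe u w ∧ WLe w v ∧ w.Abs ∧ P (Q.lo S n w i s) (Q.up S n w i s) := by
  induction n with
  | zero =>
    intro P _ i s u v huv hu _ h
    exact ⟨u, WLe.refl u, huv, hu, h⟩
  | succ n ih =>
    intro P hP i s u v huv hu hv h
    have hcu : Wd.cons (u 0) u.sh = u := Wd.cons_sh u
    have hcv : Wd.cons (v 0) v.sh = v := Wd.cons_sh v
    -- lower part
    have partB : u 0 = 0 → ∀ v' : Wd, WLe u.sh v' → v'.Abs →
        P (Q.cB S i s (Q.lo S n u.sh (S.nh i s 0).1 (S.nh i s 0).2))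
          (Q.cB S i s (Q.up S n v' (S.nh i s 0).1 (S.nh i s 0).2)) →
        ∃ w' : Wd, WLe u (Wd.cons 0 w') ∧ WLe w' v' ∧ (Wd.cons 0 w').Abs ∧
          P (Q.lo S (n + 1) (Wd.cons 0 w') i s) (Q.up S (n + 1) (Wd.cons 0 w') i s) := by
      intro h0 v' h1 h2 h3
      obtain ⟨w', a1, a2, a3, a4⟩ := ih (fun A B => P (Q.cB S i s A) (Q.cB S i s B))
        (wca_splB Q S i s hP) (S.nh i s 0).1 (S.nh i s 0).2 u.sh v' h1 hu.sh h2 h3
      refine ⟨w', ?_, a2, Wd.cons_abs (by decide) a3, ?_⟩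
      · rw [← hcu, h0, WLe_cons]
        exact a1
      · rw [wca_lo0 Q S n (Wd.cons_zero 0 w'), wca_up0 Q S n (Wd.cons_zero 0 w'), Wd.sh_cons]
        exact a4
    have partC : v 0 = 2 → ∀ u' : Wd, WLe u' v.sh → u'.Abs →
        P (Q.cC S i s (Q.lo S n u' (S.nh i s 2).1 (S.nh i s 2).2))
          (Q.cC S i s (Q.up S n v.sh (S.nh i s 2).1 (S.nh i s 2).2)) →
        ∃ w' : Wd, WLe u' w' ∧ WLe (Wd.cons 2 w') v ∧ (Wd.cons 2 w').Abs ∧
          P (Q.lo S (n + 1) (Wd.cons 2 w') i s) (Q.up S (n + 1) (Wd.cons 2 w') i s) := by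
      intro h0 u' h1 h2 h3
      obtain ⟨w', a1, a2, a3, a4⟩ := ih (fun A B => P (Q.cC S i s A) (Q.cC S i s B))
        (wca_splC Q S i s hP) (S.nh i s 2).1 (S.nh i s 2).2 u' v.sh h1 h2 hv.sh h3
      refine ⟨w', a1, ?_, Wd.cons_abs (by decide) a3, ?_⟩
      · rw [← hcv, h0, WLe_cons]
        exact a2
      · rw [wca_lo2 Q S n (Wd.cons_zero 2 w'), wca_up2 Q S n (Wd.cons_zero 2 w'), Wd.sh_cons]
        exact a4
    have hhead : u 0 ≤ v 0 := huv.head_le
    have hB1 : Q.cB S i s (Q.lo S n u.sh (S.nh i s 0).1 (S.nh i s 0).2) ≤ Q.cB S i s ⊤ :=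
      Q.cB_mono S i s le_top
    have hC1 : Q.cC S i s ⊥ ≤ Q.cC S i s (Q.up S n v.sh (S.nh i s 2).1 (S.nh i s 2).2) :=
      Q.cC_mono S i s bot_le
    have hBC : Q.cB S i s ⊤ ≤ Q.cC S i s ⊥ := Q.cB_le_cC S i s
    have hup : Q.cB S i s ⊤ = Q.cB S i s (Q.up S n Wd.top (S.nh i s 0).1 (S.nh i s 0).2) := by
      rw [Q.up_top, Q.cB_vs]
    have hlo : Q.cC S i s ⊥ = Q.cC S i s (Q.lo S n Wd.bot (S.nh i s 2).1 (S.nh i s 2).2) := by
      rw [Q.lo_bot]
    have c3 : ∀ x : Fin 3, x = 0 ∨ x = 1 ∨ x = 2 := by decide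
    rcases c3 (u 0) with hu0 | hu0 | hu0
    · rcases c3 (v 0) with hv0 | hv0 | hv0
      · -- (0,0)
        rw [wca_lo0 Q S n hu0, wca_up0 Q S n hv0] at h
        obtain ⟨w', a1, a2, a3, a4⟩ := partB hu0 v.sh ((WLe_sh (hu0.trans hv0.symm)).2 huv) hv.sh h
        refine ⟨_, a1, ?_, a3, a4⟩
        rw [← hcv, hv0, WLe_cons]
        exact a2
      · -- (0,1)
        rw [wca_lo0 Q S n hu0, wca_up1 Q S n hv0] at h
        rcases hP _ _ _ hB1 hBC h with h | h
        · rw [hup] at h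
          obtain ⟨w', a1, a2, a3, a4⟩ := partB hu0 Wd.top (WLe_top _) Wd.top_abs h
          refine ⟨_, a1, ?_, a3, a4⟩
          refine WLe_of_lt (n := 0) (fun i hi => absurd hi (Nat.not_lt_zero i)) ?_
          rw [hv0, Wd.cons_zero]
          decide
        · refine ⟨v, huv, WLe.refl v, hv, ?_⟩
          rw [wca_lo1 Q S n hv0, wca_up1 Q S n hv0]
          exact h
      · -- (0,2)
        rw [wca_lo0 Q S n hu0, wca_up2 Q S n hv0] at h
        rcases hP _ _ _ hB1 (hBC.trans hC1) h with h | h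
        · rw [hup] at h
          obtain ⟨w', a1, a2, a3, a4⟩ := partB hu0 Wd.top (WLe_top _) Wd.top_abs h
          refine ⟨_, a1, ?_, a3, a4⟩
          refine WLe_of_lt (n := 0) (fun i hi => absurd hi (Nat.not_lt_zero i)) ?_
          rw [hv0, Wd.cons_zero]
          decide
        · rcases hP _ _ _ hBC hC1 h with h | h
          · refine ⟨Wd.fin, ?_, ?_, Wd.fin_abs, ?_⟩
            · refine WLe_of_lt (n := 0) (fun i hi => absurd hi (Nat.not_lt_zero i)) ?_
              rw [hu0]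
              show (0 : Fin 3) < 1
              decide
            · refine WLe_of_lt (n := 0) (fun i hi => absurd hi (Nat.not_lt_zero i)) ?_
              rw [hv0]
              show (1 : Fin 3) < 2
              decide
            · rw [wca_lo1 Q S n (show Wd.fin 0 = 1 from rfl), wca_up1 Q S n (show Wd.fin 0 = 1 from rfl)]
              exact h
          · rw [hlo] at h
            obtain ⟨w', a1, a2, a3, a4⟩ := partC hv0 Wd.bot (WLe_bot _) Wd.bot_abs h
            refine ⟨_, ?_, a2, a3, a4⟩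
            refine WLe_of_lt (n := 0) (fun i hi => absurd hi (Nat.not_lt_zero i)) ?_
            rw [hu0, Wd.cons_zero]
            decide
    · rcases c3 (v 0) with hv0 | hv0 | hv0
      · rw [hu0, hv0] at hhead
        exact absurd hhead (by decide)
      · -- (1,1)
        rw [wca_lo1 Q S n hu0, wca_up1 Q S n hv0] at h
        refine ⟨u, WLe.refl u, huv, hu, ?_⟩
        rw [wca_lo1 Q S n hu0, wca_up1 Q S n hu0]
        exact h
      · -- (1,2)
        rw [wca_lo1 Q S n hu0, wca_up2 Q S n hv0] at h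
        rcases hP _ _ _ hBC hC1 h with h | h
        · refine ⟨u, WLe.refl u, huv, hu, ?_⟩
          rw [wca_lo1 Q S n hu0, wca_up1 Q S n hu0]
          exact h
        · rw [hlo] at h
          obtain ⟨w', a1, a2, a3, a4⟩ := partC hv0 Wd.bot (WLe_bot _) Wd.bot_abs h
          refine ⟨_, ?_, a2, a3, a4⟩
          refine WLe_of_lt (n := 0) (fun i hi => absurd hi (Nat.not_lt_zero i)) ?_
          rw [hu0, Wd.cons_zero]
          decide
    · rcases c3 (v 0) with hv0 | hv0 | hv0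
      · rw [hu0, hv0] at hhead
        exact absurd hhead (by decide)
      · rw [hu0, hv0] at hhead
        exact absurd hhead (by decide)
      · -- (2,2)
        rw [wca_lo2 Q S n hu0, wca_up2 Q S n hv0] at h
        obtain ⟨w', a1, a2, a3, a4⟩ := partC hv0 u.sh ((WLe_sh (hu0.trans hv0.symm)).2 huv) hu.sh h
        refine ⟨_, ?_, a2, a3, a4⟩
        rw [← hcu, hu0, WLe_cons]
        exact a1

/-- predicates that only become weaker on bigger intervals -/
def Mon (P : Submodule k N → Submodule k N → Prop) : Prop := ∀ A A' B B', A' ≤ A → B ≤ B' → P A B → P A' B'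

/-- the predicate: the box `[A, B] × [R, R']` is open -/
def PBox (R R' : Submodule k N) (A B : Submodule k N) : Prop := ¬ B ⊓ R' ≤ A ⊔ R

/-- modular law: if `A ≤ B ≤ C`, `B ⊓ R' ≤ A ⊔ R`, `C ⊓ R' ≤ B ⊔ R` then `C ⊓ R' ≤ A ⊔ R` (`R ≤ R'`) -/
theorem PBox.spl {R R' : Submodule k N} (h : R ≤ R') : Spl (PBox R R') := by
  intro A B C hAB hBC hP
  by_contra hcon
  rw [not_or] at hcon
  obtain ⟨h1, h2⟩ := hcon
  have h1' : B ⊓ R' ≤ A ⊔ R := not_not.1 h1
  have h2' : C ⊓ R' ≤ B ⊔ R := not_not.1 h2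
  apply hP
  intro x hx
  obtain ⟨b, hb, r, hr, hbr⟩ := Submodule.mem_sup.1 (h2' hx)
  have hbR : b ∈ R' := by
    have : b = x - r := by rw [← hbr]; simp
    rw [this]
    exact R'.sub_mem hx.2 (h hr)
  have := h1' ⟨hb, hbR⟩
  rw [← hbr]
  exact Submodule.add_mem _ this (Submodule.mem_sup_right hr)

theorem PBox.mon (R R' : Submodule k N) : Mon (PBox R R') := by
  intro A A' B B' hA hB hP hcon
  exact hP ((inf_le_inf_right R' hB).trans (hcon.trans (sup_le_sup_right hA R)))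

theorem PBox.irr (R R' : Submodule k N) : ∀ A B, B ≤ A → ¬ PBox R R' A B := by
  intro A B hBA hP
  exact hP (inf_le_left.trans (hBA.trans le_sup_left))

theorem PBox.symm {R R' A B : Submodule k N} (h : PBox R R' A B) : PBox A B R R' := by
  intro hcon
  apply h
  rw [inf_comm, sup_comm]
  exact hcon

end StrAlg
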