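import Pool.Agent.Lib.MP_b9fd58_lc.WCa

/-!
# Strips (job WCb)
-/

set_option autoImplicit false

namespace StrAlg

open Module

variable {D : Dat} {k : Type} [Field k] {N : Type} [AddCommGroup N] [Module k N]

/-- upper strip: `[up (m+1) u, up m u]` contains a word interval above `u`, of any depth

Proof: `P A B → ¬ B ≤ A`, so `Q.up S (m+1) u i s ≠ Q.up S m u i s`, so `u j ≠ 1` for `j < m` (`up_succ_of_fin`) and
`u m ≠ 2`. If `u m = 0` (`1`): `P (lo (m+1+n) (u.cat m fin)) (up (m+1+n) (u.cat m top))` by `up_succ_zero`,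
`up_eq_cat_top` (resp. `Wd.cons 2 Wd.bot`, `up_succ_one`); apply `between` at depth `m+1+n`, then `between_cat`; go to
depth `n` with `Mon`, `lo_mono`, `up_anti`. -/
theorem QMod.strip_up (Q : QMod D k N) (S : Sides D) (P : Submodule k N → Submodule k N → Prop) (h1 : Spl P)
    (h2 : Mon P) (h3 : ∀ A B, B ≤ A → ¬ P A B) (i : Fin D.nV) (s : Bool) (u : Wd) (hu : u.Abs) (m n : ℕ)
    (h : P (Q.up S (m + 1) u i s) (Q.up S m u i s)) :
    ∃ w : Wd, w.Abs ∧ (∀ j < m, w j = u j) ∧ u m < w m ∧ P (Q.lo S n w i s) (Q.up S n w i s) := by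
  have hne : ¬ Q.up S m u i s ≤ Q.up S (m + 1) u i s := fun hle => h3 _ _ hle h
  have hu1 : ∀ j < m, u j ≠ 1 := by
    intro j hj h1'
    exact hne (Q.up_succ_of_fin S hj h1' i s).ge
  have hu2 : u m ≠ 2 := fun h2' => hne (Q.up_succ_two S m hu1 h2' i s).ge
  have e1 : Q.up S m u i s = Q.up S (m + 1 + n) (u.cat m Wd.top) i s := by
    rw [← Q.up_eq_cat_top S m (1 + n) u i s, Nat.add_assoc]
  have key : ∀ v : Wd, v.Abs → u m < v 0 → Q.up S (m + 1) u i s = Q.lo S (m + 1 + n) (u.cat m v) i s →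
      ∃ w : Wd, w.Abs ∧ (∀ j < m, w j = u j) ∧ u m < w m ∧ P (Q.lo S n w i s) (Q.up S n w i s) := by
    intro v hv hlt he
    rw [he, e1] at h
    obtain ⟨w, w1, w2, w3, w4⟩ := Q.between S (m + 1 + n) P h1 i s (u.cat m v) (u.cat m Wd.top)
      (WLe_cat (WLe_top v)) (Wd.cat_abs hu1 hv) (Wd.cat_abs hu1 Wd.top_abs) h
    obtain ⟨b1, b2, -⟩ := Wd.between_cat w1 w2
    exact ⟨w, w3, b1, lt_of_lt_of_le hlt b2,
      h2 _ _ _ _ (Q.lo_mono S (by omega) w i s) (Q.up_anti S (by omega) w i s) w4⟩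
  have hcase : u m = 0 ∨ u m = 1 := by
    revert hu2
    generalize u m = x
    revert x
    decide
  rcases hcase with h0 | h0
  · exact key Wd.fin Wd.fin_abs (by rw [h0]; decide) (Q.up_succ_zero S m n hu1 h0 i s)
  · exact key (Wd.cons 2 Wd.bot) (Wd.cons_abs (by decide) Wd.bot_abs) (by rw [h0]; decide)
      (Q.up_succ_one S m n hu1 h0 i s)

/-- lower strip -/
theorem QMod.strip_lo (Q : QMod D k N) (S : Sides D) (P : Submodule k N → Submodule k N → Prop) (h1 : Spl P)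
    (h2 : Mon P) (h3 : ∀ A B, B ≤ A → ¬ P A B) (i : Fin D.nV) (s : Bool) (u : Wd) (hu : u.Abs) (m n : ℕ)
    (h : P (Q.lo S m u i s) (Q.lo S (m + 1) u i s)) :
    ∃ w : Wd, w.Abs ∧ (∀ j < m, w j = u j) ∧ w m < u m ∧ P (Q.lo S n w i s) (Q.up S n w i s) := by
  have hne : ¬ Q.lo S (m + 1) u i s ≤ Q.lo S m u i s := fun hle => h3 _ _ hle h
  have hu1 : ∀ j < m, u j ≠ 1 := by
    intro j hj h1'
    exact hne (Q.lo_succ_of_fin S hj h1' i s).le
  have hu2 : u m ≠ 0 := fun h2' => hne (Q.lo_succ_zero S m hu1 h2' i s).le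
  have e1 : Q.lo S m u i s = Q.lo S (m + 1 + n) (u.cat m Wd.bot) i s := by
    rw [← Q.lo_eq_cat_bot S m (1 + n) u i s, Nat.add_assoc]
  have key : ∀ v : Wd, v.Abs → v 0 < u m → Q.lo S (m + 1) u i s = Q.up S (m + 1 + n) (u.cat m v) i s →
      ∃ w : Wd, w.Abs ∧ (∀ j < m, w j = u j) ∧ w m < u m ∧ P (Q.lo S n w i s) (Q.up S n w i s) := by
    intro v hv hlt he
    rw [he, e1] at h
    obtain ⟨w, w1, w2, w3, w4⟩ := Q.between S (m + 1 + n) P h1 i s (u.cat m Wd.bot) (u.cat m v)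
      (WLe_cat (WLe_bot v)) (Wd.cat_abs hu1 Wd.bot_abs) (Wd.cat_abs hu1 hv) h
    obtain ⟨b1, -, b2⟩ := Wd.between_cat w1 w2
    exact ⟨w, w3, b1, lt_of_le_of_lt b2 hlt,
      h2 _ _ _ _ (Q.lo_mono S (by omega) w i s) (Q.up_anti S (by omega) w i s) w4⟩
  have hcase : u m = 1 ∨ u m = 2 := by
    revert hu2
    generalize u m = x
    revert x
    decide
  rcases hcase with h0 | h0
  · exact key (Wd.cons 0 Wd.top) (Wd.cons_abs (by decide) Wd.top_abs) (by rw [h0]; decide)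
      (Q.lo_succ_one S m n hu1 h0 i s)
  · exact key Wd.fin Wd.fin_abs (by rw [h0]; decide) (Q.lo_succ_two S m n hu1 h0 i s)

/-- the interval `[lo m u, up m u]` contains a word interval of any depth with the same first `m` letters

Proof: if `u j = 1` for some `j < m` take `w := u` (the cuts do not change after END). Otherwise `between` at depth
`m + n` for `u.cat m Wd.bot ≤ u.cat m Wd.top`. -/
theorem QMod.strip_mid (Q : QMod D k N) (S : Sides D) (P : Submodule k N → Submodule k N → Prop) (h1 : Spl P)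
    (h2 : Mon P) (i : Fin D.nV) (s : Bool) (u : Wd) (hu : u.Abs) (m n : ℕ)
    (h : P (Q.lo S m u i s) (Q.up S m u i s)) :
    ∃ w : Wd, w.Abs ∧ (∀ j < m, w j = u j) ∧ P (Q.lo S n w i s) (Q.up S n w i s) := by
  by_cases hex : ∃ j < m, u j = 1
  · obtain ⟨j, hj, hj1⟩ := hex
    refine ⟨u, hu, fun _ _ => rfl, ?_⟩
    rcases le_total n m with hnm | hnm
    · exact h2 _ _ _ _ (Q.lo_mono S hnm u i s) (Q.up_anti S hnm u i s) h
    · have hst : ∀ d : ℕ, Q.up S (m + d) u i s = Q.up S m u i s ∧ Q.lo S (m + d) u i s = Q.lo S m u i s := by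
        intro d
        induction d with
        | zero => exact ⟨rfl, rfl⟩
        | succ d ih =>
          have hjd : j < m + d := by omega
          exact ⟨(Q.up_succ_of_fin S hjd hj1 i s).trans ih.1, (Q.lo_succ_of_fin S hjd hj1 i s).trans ih.2⟩
      obtain ⟨d, rfl⟩ := Nat.exists_eq_add_of_le hnm
      rw [(hst d).1, (hst d).2]
      exact h
  · have hu1 : ∀ j < m, u j ≠ 1 := fun j hj h1' => hex ⟨j, hj, h1'⟩
    rw [← Q.up_eq_cat_top S m n u i s, ← Q.lo_eq_cat_bot S m n u i s] at h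
    obtain ⟨w, w1, w2, w3, w4⟩ := Q.between S (m + n) P h1 i s (u.cat m Wd.bot) (u.cat m Wd.top)
      (WLe_cat (WLe_top _)) (Wd.cat_abs hu1 Wd.bot_abs) (Wd.cat_abs hu1 Wd.top_abs) h
    obtain ⟨b1, -, -⟩ := Wd.between_cat w1 w2
    exact ⟨w, w3, b1, h2 _ _ _ _ (Q.lo_mono S (by omega) w i s) (Q.up_anti S (by omega) w i s) w4⟩

/-- lower cuts are below the upper cuts of bigger words -/
theorem QMod.wcb_lo_le_up (Q : QMod D k N) (S : Sides D) (n : ℕ) (i : Fin D.nV) (s : Bool) {u v : Wd}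
    (hle : WLe u v) (hu : u.Abs) (hv : v.Abs) : Q.lo S n u i s ≤ Q.up S n v i s := by
  by_contra hcon
  obtain ⟨w, -, -, -, h4⟩ := Q.between S n (fun A B => ¬ A ≤ B) (fun A B C h1 h2 h3 => absurd (h1.trans h2) h3)
    i s u v hle hu hv hcon
  exact h4 (Q.lo_le_up S n w i s)

/-- at every depth there is an open box between the words `u ≤ v` -/
theorem QMod.between2 (Q : QMod D k N) (S : Sides D) (n : ℕ) (i : Fin D.nV) (u v : Bool → Wd)
    (hle : ∀ s, WLe (u s) (v s)) (hu : ∀ s, (u s).Abs) (hv : ∀ s, (v s).Abs) (h : ¬ Q.U S n i v ≤ Q.B S n i u) :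
    ∃ w : Bool → Wd, (∀ s, WLe (u s) (w s) ∧ WLe (w s) (v s) ∧ (w s).Abs) ∧ ¬ Q.U S n i w ≤ Q.B S n i w := by
  have h0 : PBox (Q.lo S n (u true) i true) (Q.up S n (v true) i true) (Q.lo S n (u false) i false)
      (Q.up S n (v false) i false) := h
  obtain ⟨w0, a1, a2, a3, a4⟩ := Q.between S n (PBox (Q.lo S n (u true) i true) (Q.up S n (v true) i true))
    (PBox.spl (Q.wcb_lo_le_up S n i true (hle true) (hu true) (hv true))) i false (u false) (v false) (hle false)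
    (hu false) (hv false) h0
  obtain ⟨w1, b1, b2, b3, b4⟩ := Q.between S n (PBox (Q.lo S n w0 i false) (Q.up S n w0 i false))
    (PBox.spl (Q.lo_le_up S n w0 i false)) i true (u true) (v true) (hle true) (hu true) (hv true) a4.symm
  refine ⟨fun s => Bool.rec w0 w1 s, ?_, ?_⟩
  · intro s
    cases s
    · exact ⟨a1, a2, a3⟩
    · exact ⟨b1, b2, b3⟩
  · exact b4.symm

end StrAlg
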