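import Pool.Agent.Lib.MP_b9fd58_lc.WCb

/-!
# The four strips (job WCc)
-/

set_option autoImplicit false

namespace StrAlg

open Module

variable {D : Dat} {k : Type} [Field k] {N : Type} [AddCommGroup N] [Module k N]

/-- the lattice part, upper cuts -/
private theorem wcc_lat1 {L0 L2 L3 R0 R2 R3 : Submodule k N} (h02 : L0 ≤ L2) (h03 : R0 ≤ R3)
    (ha : L3 ⊓ R3 ≤ L2 ⊔ R0) (hb : L2 ⊓ R3 ≤ L0 ⊔ R2) : L3 ⊓ R3 ≤ (L2 ⊓ R2) ⊔ (L0 ⊔ R0) := by
  intro x hx
  obtain ⟨l, hl, r, hr, rfl⟩ := Submodule.mem_sup.1 (ha hx)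
  have hl3 : l ∈ R3 := by
    have := R3.sub_mem hx.2 (h03 hr)
    rwa [add_sub_cancel_right] at this
  obtain ⟨l0, hl0, r2, hr2, h2⟩ := Submodule.mem_sup.1 (hb ⟨hl, hl3⟩)
  have hr2' : r2 ∈ L2 := by
    have := L2.sub_mem hl (h02 hl0)
    rwa [← h2, add_sub_cancel_left] at this
  refine Submodule.mem_sup.2 ⟨r2, ⟨hr2', hr2⟩, l0 + r, Submodule.mem_sup.2 ⟨l0, hl0, r, hr, rfl⟩, ?_⟩
  rw [← h2]
  abel

/-- the lattice part, lower cuts -/
private theorem wcc_lat2 {L0 L1 L3 R0 R1 R3 : Submodule k N} (hL : L1 ≤ L3) (hR : R1 ≤ R3)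
    (hc : L1 ⊓ R3 ≤ L0 ⊔ R0) (hd : L3 ⊓ R1 ≤ L0 ⊔ R0) : (L3 ⊓ R3) ⊓ (L1 ⊔ R1) ≤ L0 ⊔ R0 := by
  rintro x ⟨⟨hx3, hx3'⟩, hx⟩
  obtain ⟨l, hl, r, hr, rfl⟩ := Submodule.mem_sup.1 hx
  have hl3 : l ∈ R3 := by
    have := R3.sub_mem hx3' (hR hr)
    rwa [add_sub_cancel_right] at this
  have hr3 : r ∈ L3 := by
    have := L3.sub_mem hx3 (hL hl)
    rwa [add_sub_cancel_left] at this
  exact (L0 ⊔ R0).add_mem (hc ⟨hl, hl3⟩) (hd ⟨hr3, hr⟩)

/-- from one side to the other -/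
private theorem wcc_aux (Q : QMod D k N) (S : Sides D) (i : Fin D.nV) (u : Bool → Wd) (hu : ∀ s, (u s).Abs)
    (m n : ℕ) (s0 : Bool)
    (h : ∃ w : Wd, w.Abs ∧ (∀ j < m, w j = u s0 j) ∧ w m ≠ u s0 m ∧
      PBox (Q.lo S m (u (!s0)) i (!s0)) (Q.up S m (u (!s0)) i (!s0)) (Q.lo S n w i s0) (Q.up S n w i s0)) :
    ∃ w : Bool → Wd, (∀ s, (w s).Abs ∧ ∀ j < m, w s j = u s j) ∧ (∃ s, w s m ≠ u s m) ∧
      ¬ Q.U S n i w ≤ Q.B S n i w := by
  obtain ⟨w1, h1, h2, h3, h4⟩ := h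
  obtain ⟨w2, g1, g2, g3⟩ := Q.strip_mid S (PBox (Q.lo S n w1 i s0) (Q.up S n w1 i s0))
    (PBox.spl (Q.lo_le_up S n w1 i s0)) (PBox.mon _ _) i (!s0) (u (!s0)) (hu _) m n h4.symm
  cases s0 with
  | false =>
    refine ⟨fun s => if s then w2 else w1, ?_, ⟨false, by simpa using h3⟩, ?_⟩
    · intro s
      cases s with
      | false => exact ⟨h1, h2⟩
      | true => exact ⟨g1, g2⟩
    · intro hle
      apply g3
      have hle' : Q.up S n w1 i false ⊓ Q.up S n w2 i true ≤ Q.lo S n w1 i false ⊔ Q.lo S n w2 i true := hle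
      rw [inf_comm, sup_comm] at hle'
      exact hle'
  | true =>
    refine ⟨fun s => if s then w1 else w2, ?_, ⟨true, by simpa using h3⟩, ?_⟩
    · intro s
      cases s with
      | false => exact ⟨g1, g2⟩
      | true => exact ⟨h1, h2⟩
    · intro hle
      exact g3 hle

/-- If the two inclusions fail at depth `m` then for every depth `n` there is an open box of depth `n` of words that
agree with `u` before `m` and differ at `m` on one side.

Proof: let `L0 ≤ L1 ≤ L2 ≤ L3` be `lo m, lo (m+1), up (m+1), up m` of `u false`, `R0 ≤ R1 ≤ R2 ≤ R3` the same for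
`u true`. If the four boxes `[L2,L3]×[R0,R3]`, `[L0,L2]×[R2,R3]`, `[L0,L1]×[R0,R3]`, `[L0,L3]×[R0,R1]` are closed then
both inclusions hold. If one is open, use `strip_up`/`strip_lo` on one side and then `strip_mid` on the other
(for `[L0,L2]×[R2,R3]` enlarge to `[L0,L3]×[R2,R3]` with `PBox.mon`). -/
theorem QMod.strips (Q : QMod D k N) (S : Sides D) (i : Fin D.nV) (u : Bool → Wd) (hu : ∀ s, (u s).Abs) (m : ℕ)
    (h : ¬ (Q.U S m i u ≤ Q.U S (m + 1) i u ⊔ Q.B S m i u ∧ Q.U S m i u ⊓ Q.B S (m + 1) i u ≤ Q.B S m i u)) (n : ℕ) :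
    ∃ w : Bool → Wd, (∀ s, (w s).Abs ∧ ∀ j < m, w s j = u s j) ∧ (∃ s, w s m ≠ u s m) ∧
      ¬ Q.U S n i w ≤ Q.B S n i w := by
  have hm1 : m ≤ m + 1 := Nat.le_succ m
  by_cases ha : PBox (Q.lo S m (u true) i true) (Q.up S m (u true) i true)
      (Q.up S (m + 1) (u false) i false) (Q.up S m (u false) i false)
  · obtain ⟨w, h1, h2, h3, h4⟩ := Q.strip_up S (PBox (Q.lo S m (u true) i true) (Q.up S m (u true) i true))
      (PBox.spl (Q.lo_le_up S m _ i true)) (PBox.mon _ _) (PBox.irr _ _) i false (u false) (hu _) m n ha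
    exact wcc_aux Q S i u hu m n false ⟨w, h1, h2, h3.ne', h4⟩
  by_cases hc : PBox (Q.lo S m (u true) i true) (Q.up S m (u true) i true)
      (Q.lo S m (u false) i false) (Q.lo S (m + 1) (u false) i false)
  · obtain ⟨w, h1, h2, h3, h4⟩ := Q.strip_lo S (PBox (Q.lo S m (u true) i true) (Q.up S m (u true) i true))
      (PBox.spl (Q.lo_le_up S m _ i true)) (PBox.mon _ _) (PBox.irr _ _) i false (u false) (hu _) m n hc
    exact wcc_aux Q S i u hu m n false ⟨w, h1, h2, h3.ne, h4⟩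
  by_cases hb : PBox (Q.lo S m (u false) i false) (Q.up S m (u false) i false)
      (Q.up S (m + 1) (u true) i true) (Q.up S m (u true) i true)
  · obtain ⟨w, h1, h2, h3, h4⟩ := Q.strip_up S (PBox (Q.lo S m (u false) i false) (Q.up S m (u false) i false))
      (PBox.spl (Q.lo_le_up S m _ i false)) (PBox.mon _ _) (PBox.irr _ _) i true (u true) (hu _) m n hb
    exact wcc_aux Q S i u hu m n true ⟨w, h1, h2, h3.ne', h4⟩
  by_cases hd : PBox (Q.lo S m (u false) i false) (Q.up S m (u false) i false)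
      (Q.lo S m (u true) i true) (Q.lo S (m + 1) (u true) i true)
  · obtain ⟨w, h1, h2, h3, h4⟩ := Q.strip_lo S (PBox (Q.lo S m (u false) i false) (Q.up S m (u false) i false))
      (PBox.spl (Q.lo_le_up S m _ i false)) (PBox.mon _ _) (PBox.irr _ _) i true (u true) (hu _) m n hd
    exact wcc_aux Q S i u hu m n true ⟨w, h1, h2, h3.ne, h4⟩
  exfalso
  apply h
  unfold PBox at ha hb hc hd
  rw [not_not] at ha hb hc hd
  have hL1 : Q.lo S (m + 1) (u false) i false ≤ Q.up S m (u false) i false :=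
    (Q.lo_le_up S (m + 1) _ i false).trans (Q.up_anti S hm1 _ i false)
  have hR1 : Q.lo S (m + 1) (u true) i true ≤ Q.up S m (u true) i true :=
    (Q.lo_le_up S (m + 1) _ i true).trans (Q.up_anti S hm1 _ i true)
  have hL2 : Q.lo S m (u false) i false ≤ Q.up S (m + 1) (u false) i false :=
    (Q.lo_mono S hm1 _ i false).trans (Q.lo_le_up S (m + 1) _ i false)
  constructor
  · refine wcc_lat1 hL2 (Q.lo_le_up S m _ i true) ha ?_
    refine le_trans ?_ (hb.trans (sup_comm _ _).le)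
    exact le_inf inf_le_right (inf_le_left.trans (Q.up_anti S hm1 _ i false))
  · refine wcc_lat2 hL1 hR1 hc ?_
    exact le_trans (inf_comm _ _).le (hd.trans (sup_comm _ _).le)

end StrAlg
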