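import Pool.Agent.Lib.MP_b9fd58_lc.IfDefs

/-!
# Cuts: the filtrations of the vertex spaces given by one-sided words; open points

(definitions of stream W; helper22)
-/

set_option autoImplicit false

namespace StrAlg

open Module

variable {D : Dat} {k : Type} [Field k] {N : Type} [AddCommGroup N] [Module k N]

/-- END is absorbing -/
def Wd.Abs (u : Wd) : Prop := ∀ n, u n = 1 → u (n + 1) = 1

/-- the smallest word -/
def Wd.bot : Wd := fun _ => 0
/-- the ended word -/
def Wd.fin : Wd := fun _ => 1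
/-- the biggest word -/
def Wd.top : Wd := fun _ => 2

/-- the first `m` letters of `u`, then `v` -/
def Wd.cat (u : Wd) : ℕ → Wd → Wd
  | 0, v => v
  | m + 1, v => Wd.cons (u 0) (Wd.cat u.sh m v)

/-- the next half edge: leave `(i, s)` through the letter `x` and continue on the other side of the arrival -/
def Sides.nh (S : Sides D) (i : Fin D.nV) (s : Bool) (x : Fin 3) : Fin D.nV × Bool :=
  ((S.nx i s x).1, !(S.nx i s x).2)

/-- the space at the vertex `i` -/
def QMod.vs (Q : QMod D k N) (i : Fin D.nV) : Submodule k N := LinearMap.range (Q.op (Sum.inl i))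

/-- the image under the arrow that comes in at `(i, s)` -/
def QMod.cB (Q : QMod D k N) (S : Sides D) (i : Fin D.nV) (s : Bool) (L : Submodule k N) : Submodule k N :=
  match S.inA i s with
  | none => ⊥
  | some β => L.map (Q.op (Sum.inr β))

/-- the preimage (in the space at `i`) under the arrow that goes out at `(i, s)` -/
def QMod.cC (Q : QMod D k N) (S : Sides D) (i : Fin D.nV) (s : Bool) (L : Submodule k N) : Submodule k N :=
  match S.outA i s with
  | none => Q.vs i
  | some γ => Q.vs i ⊓ L.comap (Q.op (Sum.inr γ))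

/-- upper cut of depth `n` of the word `u` read from the half edge `(i, s)` -/
def QMod.up (Q : QMod D k N) (S : Sides D) : ℕ → Wd → Fin D.nV → Bool → Submodule k N
  | 0, _, i, _ => Q.vs i
  | n + 1, u, i, s =>
    if u 0 = 0 then Q.cB S i s (Q.up S n u.sh (S.nh i s 0).1 (S.nh i s 0).2)
    else if u 0 = 2 then Q.cC S i s (Q.up S n u.sh (S.nh i s 2).1 (S.nh i s 2).2)
    else Q.cC S i s ⊥

/-- lower cut of depth `n` -/
def QMod.lo (Q : QMod D k N) (S : Sides D) : ℕ → Wd → Fin D.nV → Bool → Submodule k N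
  | 0, _, _, _ => ⊥
  | n + 1, u, i, s =>
    if u 0 = 0 then Q.cB S i s (Q.lo S n u.sh (S.nh i s 0).1 (S.nh i s 0).2)
    else if u 0 = 2 then Q.cC S i s (Q.lo S n u.sh (S.nh i s 2).1 (S.nh i s 2).2)
    else Q.cB S i s ⊤

/-- the intersection of the upper cuts of depth `n` on both sides -/
def QMod.U (Q : QMod D k N) (S : Sides D) (n : ℕ) (i : Fin D.nV) (u : Bool → Wd) : Submodule k N :=
  Q.up S n (u false) i false ⊓ Q.up S n (u true) i true

/-- the sum of the lower cuts of depth `n` on both sides -/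
def QMod.B (Q : QMod D k N) (S : Sides D) (n : ℕ) (i : Fin D.nV) (u : Bool → Wd) : Submodule k N :=
  Q.lo S n (u false) i false ⊔ Q.lo S n (u true) i true

/-- the point `(i; u false, u true)` is open on the module -/
def QMod.OpenPt (Q : QMod D k N) (S : Sides D) (i : Fin D.nV) (u : Bool → Wd) : Prop :=
  ∀ n, ¬ Q.U S n i u ≤ Q.B S n i u

/-- predicates on intervals of subspaces that can be split -/
def Spl (P : Submodule k N → Submodule k N → Prop) : Prop :=
  ∀ A B C, A ≤ B → B ≤ C → P A C → P A B ∨ P B C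

/-! ### one-sided chains along a line -/

variable {S : Sides D}

/-- `x`, `y` are the values at `q` and at `st e q` of a chain along `w` -/
structure ESt (Q : QMod D k N) (w : Ln (Fin D.nV) S.nx) (e : Bool) (q : ℤ) (x y : N) : Prop where
  vx : Q.op (Sum.inl (w.v q)) x = x
  out : w.lt e q = 2 → ∀ γ, S.outA (w.v q) (w.sd e q) = some γ → Q.op (Sum.inr γ) x = y
  inn : w.lt e q = 0 → Q.op (Sum.inl (w.v (st e q))) y = y ∧
    ∀ β, S.inA (w.v q) (w.sd e q) = some β → Q.op (Sum.inr β) y = x
  fin : w.lt e q = 1 → ∀ γ, S.outA (w.v q) (w.sd e q) = some γ → Q.op (Sum.inr γ) x = 0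

/-- `x`, `y` are the values at `q` and at `st e q` of a dual chain along `w` -/
structure DSt (Q : QMod D k N) (w : Ln (Fin D.nV) S.nx) (e : Bool) (q : ℤ) (x y : N →ₗ[k] k) : Prop where
  vx : x ∘ₗ Q.op (Sum.inl (w.v q)) = x
  out : w.lt e q = 2 → y ∘ₗ Q.op (Sum.inl (w.v (st e q))) = y ∧
    ∀ γ, S.outA (w.v q) (w.sd e q) = some γ → y ∘ₗ Q.op (Sum.inr γ) = x
  inn : w.lt e q = 0 → ∀ β, S.inA (w.v q) (w.sd e q) = some β → x ∘ₗ Q.op (Sum.inr β) = y
  fin : w.lt e q = 1 → ∀ β, S.inA (w.v q) (w.sd e q) = some β → x ∘ₗ Q.op (Sum.inr β) = 0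

/-- one-sided chain of length `n` from `p` in direction `e` (nothing is asked after END) -/
def SCh (Q : QMod D k N) (w : Ln (Fin D.nV) S.nx) (e : Bool) (p : ℤ) (n : ℕ) (g : ℕ → N) : Prop :=
  ∀ j < n, (∀ i < j, w.lt e (stn e i p) ≠ 1) → ESt Q w e (stn e j p) (g j) (g (j + 1))

/-- one-sided dual chain of length `n` from `p` in direction `e` (nothing is asked after END) -/
def SDc (Q : QMod D k N) (w : Ln (Fin D.nV) S.nx) (e : Bool) (p : ℤ) (n : ℕ) (ξ : ℕ → N →ₗ[k] k) : Prop :=
  ∀ j < n, (∀ i < j, w.lt e (stn e i p) ≠ 1) → DSt Q w e (stn e j p) (ξ j) (ξ (j + 1))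

/-- the words of the line at `p` on the two sides -/
def Ln.pt (w : Ln (Fin D.nV) S.nx) (p : ℤ) : Bool → Wd := w.wd p

end StrAlg
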