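import Pool.Agent.Lib.MP_b9fd58_lc.WA

/-!
# Valid words (job WEa)
-/

set_option autoImplicit false

namespace StrAlg

open Module

variable {D : Dat} {k : Type} [Field k] {N : Type} [AddCommGroup N] [Module k N] {S : Sides D}

/-- the half edges met when one reads the word `u` from `(i, s)` -/
def Sides.wlk (S : Sides D) (i : Fin D.nV) (s : Bool) (u : Wd) : ℕ → Fin D.nV × Bool
  | 0 => (i, s)
  | n + 1 => S.nh (Sides.wlk S i s u n).1 (Sides.wlk S i s u n).2 (u n)

/-- all letters of the word are given by arrows -/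
def Sides.Val (S : Sides D) (i : Fin D.nV) (s : Bool) (u : Wd) : Prop :=
  ∀ n, (u n = 0 → ∃ β, S.inA (S.wlk i s u n).1 (S.wlk i s u n).2 = some β) ∧
    (u n = 2 → ∃ γ, S.outA (S.wlk i s u n).1 (S.wlk i s u n).2 = some γ)

/-- walking back through an arrow -/
theorem Sides.nx_rev {S : Sides D} {i : Fin D.nV} {s : Bool} {x : Fin 3} (hx : x ≠ 1)
    (h0 : x = 0 → ∃ β, S.inA i s = some β) (h2 : x = 2 → ∃ γ, S.outA i s = some γ) :
    S.nx (S.nx i s x).1 (S.nx i s x).2 (Fin.rev x) = (i, s) := by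
  rcases fin3_cases hx with h | h
  · obtain ⟨β, hβ⟩ := h0 h
    subst h
    have e1 : S.nx i s 0 = (D.src β, S.sS β) := by
      simp only [Sides.nx, if_true, hβ]
    have e2 : S.outA (D.src β) (S.sS β) = some β := Sides.outA_some.2 ⟨rfl, rfl⟩
    have e3 := Sides.inA_some.1 hβ
    have e4 : (Fin.rev (0 : Fin 3)) = 2 := by decide
    rw [e1, e4]
    simp only [Sides.nx, e2]
    rw [e3.1, e3.2]
    simp
  · obtain ⟨γ, hγ⟩ := h2 h
    subst h
    have e1 : S.nx i s 2 = (D.tgt γ, S.sT γ) := by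
      simp only [Sides.nx, hγ]
      simp
    have e2 : S.inA (D.tgt γ) (S.sT γ) = some γ := Sides.inA_some.2 ⟨rfl, rfl⟩
    have e3 := Sides.outA_some.1 hγ
    have e4 : (Fin.rev (2 : Fin 3)) = 0 := by decide
    rw [e1, e4]
    simp only [Sides.nx, if_true, e2]
    rw [e3.1, e3.2]

theorem wea_wlk_sh (S : Sides D) (i : Fin D.nV) (s : Bool) (u : Wd) (n : ℕ) :
    S.wlk i s u (n + 1) = S.wlk (S.nh i s (u 0)).1 (S.nh i s (u 0)).2 u.sh n := by
  induction n with
  | zero => rfl
  | succ n ih =>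
    rw [Sides.wlk, ih]
    rfl

theorem wea_abs_sh {u : Wd} (hu : u.Abs) : u.sh.Abs := fun n hn => hu (n + 1) hn

theorem wea_abs_zero {u : Wd} (hu : u.Abs) (h : u 0 = 1) (n : ℕ) : u n = 1 := by
  induction n with
  | zero => exact h
  | succ n ih => exact hu n ih

theorem wea_collapse (Q : QMod D k N) (S : Sides D) (n : ℕ) : ∀ (u : Wd) (_ : u.Abs) (i : Fin D.nV) (s : Bool),
    (u n = 0 ∧ S.inA (S.wlk i s u n).1 (S.wlk i s u n).2 = none ∨
      u n = 2 ∧ S.outA (S.wlk i s u n).1 (S.wlk i s u n).2 = none) →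
    Q.up S (n + 1) u i s ≤ Q.lo S (n + 1) u i s := by
  induction n with
  | zero =>
    intro u hu i s h
    rcases h with ⟨h, h'⟩ | ⟨h, h'⟩
    · simp only [Sides.wlk] at h'
      simp only [QMod.up, QMod.lo, h, if_true, QMod.cB, h']
      exact le_rfl
    · simp only [Sides.wlk] at h'
      have h0 : ¬ (u 0 = 0) := by rw [h]; decide
      simp only [QMod.up, QMod.lo, if_neg h0, if_pos h, QMod.cC, h']
      exact le_rfl
  | succ n ih =>
    intro u hu i s h
    have h1 : u 0 ≠ 1 := by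
      intro h1
      have := wea_abs_zero hu h1 (n + 1)
      rcases h with ⟨h, -⟩ | ⟨h, -⟩ <;> rw [h] at this <;> exact absurd this (by decide)
    rw [wea_wlk_sh] at h
    have h2 := ih u.sh (wea_abs_sh hu) _ _ h
    rw [QMod.up, QMod.lo]
    rcases fin3_cases h1 with h3 | h3
    · rw [if_pos h3, if_pos h3]
      rw [h3] at h2
      exact Q.cB_mono S i s h2
    · have h0 : ¬ (u 0 = 0) := by rw [h3]; decide
      rw [if_neg h0, if_neg h0, if_pos h3, if_pos h3]
      rw [h3] at h2
      exact Q.cC_mono S i s h2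

/-- the words of an open point are valid: if the letter `u n` has no arrow then the cuts of depth `n + 1` coincide -/
theorem QMod.OpenPt.val {Q : QMod D k N} {i : Fin D.nV} {u : Bool → Wd} (hu : ∀ s, (u s).Abs)
    (h : Q.OpenPt S i u) (s : Bool) : S.Val i s (u s) := by
  intro n
  have key : ¬ (u s n = 0 ∧ S.inA (S.wlk i s (u s) n).1 (S.wlk i s (u s) n).2 = none ∨
      u s n = 2 ∧ S.outA (S.wlk i s (u s) n).1 (S.wlk i s (u s) n).2 = none) := by
    intro hc
    have h1 := wea_collapse Q S n (u s) (hu s) i s hc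
    apply h (n + 1)
    have h2 : Q.U S (n + 1) i u ≤ Q.up S (n + 1) (u s) i s := by
      cases s
      · exact inf_le_left
      · exact inf_le_right
    have h3 : Q.lo S (n + 1) (u s) i s ≤ Q.B S (n + 1) i u := by
      cases s
      · exact le_sup_left
      · exact le_sup_right
    exact h2.trans (h1.trans h3)
  refine ⟨fun h0 => ?_, fun h2 => ?_⟩
  · rw [← Option.isSome_iff_exists, ← Option.ne_none_iff_isSome]
    exact fun hn => key (Or.inl ⟨h0, hn⟩)
  · rw [← Option.isSome_iff_exists, ← Option.ne_none_iff_isSome]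
    exact fun hn => key (Or.inr ⟨h2, hn⟩)

end StrAlg
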