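import Pool.Agent.Lib.MP_b9fd58_lc.WEa
import Pool.Agent.Lib.MP_b9fd58_lc.WMb

/-!
# The line with two given words (job WEb)
-/

set_option autoImplicit false

namespace StrAlg

open Module

variable {D : Dat} {k : Type} [Field k] {N : Type} [AddCommGroup N] [Module k N] {S : Sides D}

/-- the half edge of the line at the position `p`: read to the right for `p ≥ 0`, to the left for `p < 0` -/
def webV (S : Sides D) (i : Fin D.nV) (u : Bool → Wd) (p : ℤ) : Fin D.nV :=
  if 0 ≤ p then (S.wlk i true (u true) p.toNat).1 else (S.wlk i false (u false) (-p).toNat).1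

/-- the side of the right direction -/
def webR (S : Sides D) (i : Fin D.nV) (u : Bool → Wd) (p : ℤ) : Bool :=
  if 0 ≤ p then (S.wlk i true (u true) p.toNat).2 else !(S.wlk i false (u false) (-p).toNat).2

/-- the letters -/
def webLam (u : Bool → Wd) (p : ℤ) : Fin 3 :=
  if 0 ≤ p then u true p.toNat else Fin.rev (u false (-p - 1).toNat)

theorem webV_pos (S : Sides D) (i : Fin D.nV) (u : Bool → Wd) (n : ℕ) :
    webV S i u n = (S.wlk i true (u true) n).1 := by
  simp [webV]

theorem webV_neg (S : Sides D) (i : Fin D.nV) (u : Bool → Wd) (n : ℕ) :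
    webV S i u (-(n : ℤ)) = (S.wlk i false (u false) n).1 := by
  cases n with
  | zero => simp [webV, Sides.wlk]
  | succ n =>
    have h : ¬ (0 : ℤ) ≤ -((n + 1 : ℕ) : ℤ) := by push_cast; omega
    simp only [webV, if_neg h, neg_neg, Int.toNat_natCast]

theorem webR_pos (S : Sides D) (i : Fin D.nV) (u : Bool → Wd) (n : ℕ) :
    webR S i u n = (S.wlk i true (u true) n).2 := by
  simp [webR]

theorem webR_neg (S : Sides D) (i : Fin D.nV) (u : Bool → Wd) (n : ℕ) :
    webR S i u (-(n : ℤ)) = !(S.wlk i false (u false) n).2 := by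
  cases n with
  | zero => simp [webR, Sides.wlk]
  | succ n =>
    have h : ¬ (0 : ℤ) ≤ -((n + 1 : ℕ) : ℤ) := by push_cast; omega
    simp only [webR, if_neg h, neg_neg, Int.toNat_natCast]

theorem webLam_pos (u : Bool → Wd) (n : ℕ) : webLam u n = u true n := by
  simp [webLam]

theorem webLam_neg (u : Bool → Wd) (n : ℕ) : webLam u (-(n : ℤ) - 1) = Fin.rev (u false n) := by
  have h : ¬ (0 : ℤ) ≤ -(n : ℤ) - 1 := by omega
  have h2 : (-(-(n : ℤ) - 1) - 1).toNat = n := by omega
  simp only [webLam, if_neg h, h2]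

theorem web_int_cases (p : ℤ) : (∃ n : ℕ, p = n) ∨ ∃ n : ℕ, p = -(n : ℤ) - 1 := by
  rcases le_or_gt 0 p with h | h
  · exact Or.inl ⟨p.toNat, by omega⟩
  · exact Or.inr ⟨(-p - 1).toNat, by omega⟩

/-- the step of the walk, as an equation for `nx` -/
theorem web_nx (S : Sides D) (i : Fin D.nV) (s : Bool) (u : Wd) (n : ℕ) :
    S.nx (S.wlk i s u n).1 (S.wlk i s u n).2 (u n) =
      ((S.wlk i s u (n + 1)).1, !(S.wlk i s u (n + 1)).2) := by
  simp [Sides.wlk, Sides.nh]

/-- the step back -/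
theorem web_nx_rev (S : Sides D) (i : Fin D.nV) (s : Bool) (u : Wd) (hv : S.Val i s u) (n : ℕ) (hn : u n ≠ 1) :
    S.nx (S.wlk i s u (n + 1)).1 (!(S.wlk i s u (n + 1)).2) (Fin.rev (u n)) = S.wlk i s u n := by
  have h := Sides.nx_rev hn (hv n).1 (hv n).2
  rw [web_nx] at h
  exact h

/-- the line -/
def webLn (S : Sides D) (i : Fin D.nV) (u : Bool → Wd) (hv : ∀ s, S.Val i s (u s)) : Ln (Fin D.nV) S.nx where
  lam := webLam u
  v := webV S i u
  r := webR S i u
  fwd := by
    intro p hp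
    rcases web_int_cases p with ⟨n, rfl⟩ | ⟨n, rfl⟩
    · have e1 : ((n : ℤ) + 1) = ((n + 1 : ℕ) : ℤ) := by push_cast; rfl
      rw [e1, webV_pos, webR_pos, webLam_pos, webV_pos, webR_pos, web_nx]
    · rw [webLam_neg] at hp ⊢
      have e1 : (-(n : ℤ) - 1) = -((n + 1 : ℕ) : ℤ) := by push_cast; ring
      have e2 : (-(n : ℤ) - 1 + 1) = -(n : ℤ) := by ring
      rw [e2, e1, webV_neg, webR_neg, webV_neg, webR_neg, Bool.not_not,
        web_nx_rev S i false (u false) (hv false) n (Ln.rev_ne_one.1 hp)]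
  bwd := by
    intro p hp
    rcases web_int_cases p with ⟨n, rfl⟩ | ⟨n, rfl⟩
    · have e1 : ((n : ℤ) + 1) = ((n + 1 : ℕ) : ℤ) := by push_cast; rfl
      rw [webLam_pos] at hp
      rw [e1, webV_pos, webR_pos, webLam_pos, webV_pos, webR_pos,
        web_nx_rev S i true (u true) (hv true) n hp]
    · rw [webLam_neg]
      have e1 : (-(n : ℤ) - 1) = -((n + 1 : ℕ) : ℤ) := by push_cast; ring
      have e2 : (-(n : ℤ) - 1 + 1) = -(n : ℤ) := by ring
      rw [e2, e1, webV_neg, webR_neg, webV_neg, webR_neg, Bool.not_not, Fin.rev_rev, web_nx]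

theorem webLn_v (S : Sides D) (i : Fin D.nV) (u : Bool → Wd) (hv : ∀ s, S.Val i s (u s)) (e : Bool) (n : ℕ) :
    (webLn S i u hv).v (stn e n 0) = (S.wlk i e (u e) n).1 := by
  cases e
  · have := webV_neg S i u n
    simpa [webLn] using this
  · have := webV_pos S i u n
    simpa [webLn] using this

theorem webLn_sd (S : Sides D) (i : Fin D.nV) (u : Bool → Wd) (hv : ∀ s, S.Val i s (u s)) (e : Bool) (n : ℕ) :
    (webLn S i u hv).sd e (stn e n 0) = (S.wlk i e (u e) n).2 := by
  cases e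
  · have := webR_neg S i u n
    simp only [Ln.sd, stn_false, zero_sub, webLn, this]
    simp
  · have := webR_pos S i u n
    simpa [webLn, Ln.sd] using this

theorem webLn_lt (S : Sides D) (i : Fin D.nV) (u : Bool → Wd) (hv : ∀ s, S.Val i s (u s)) (e : Bool) (n : ℕ) :
    (webLn S i u hv).lt e (stn e n 0) = u e n := by
  cases e
  · have := webLam_neg u n
    simp only [Ln.lt, stn_false, zero_sub, webLn, this]
    simp
  · have := webLam_pos u n
    simpa [webLn, Ln.lt] using this

theorem web_abs_le {u : Wd} (hu : u.Abs) {n m : ℕ} (h : n ≤ m) (hn : u n = 1) : u m = 1 := by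
  induction m, h using Nat.le_induction with
  | base => exact hn
  | succ m _ ih => exact hu m ih

theorem web_stn_cases (e : Bool) (p : ℤ) :
    (∃ n : ℕ, p = stn e n 0) ∨ ∃ n : ℕ, p = stn (!e) ((n + 1 : ℕ) : ℤ) 0 := by
  cases e
  · rcases le_or_gt p 0 with h | h
    · exact Or.inl ⟨(-p).toNat, by simp only [stn_false]; omega⟩
    · exact Or.inr ⟨(p - 1).toNat, by simp only [Bool.not_false, stn_true]; push_cast; omega⟩
  · rcases le_or_gt 0 p with h | h
    · exact Or.inl ⟨p.toNat, by simp only [stn_true]; omega⟩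
    · exact Or.inr ⟨(-p - 1).toNat, by simp only [Bool.not_true, stn_false]; push_cast; omega⟩

theorem web_sd_not (L : Ln (Fin D.nV) S.nx) (e : Bool) (p : ℤ) : L.sd (!e) p = !(L.sd e p) := by
  cases e <;> simp [Ln.sd]

theorem web_st (e : Bool) (n : ℕ) : st e (stn e n 0) = stn e ((n + 1 : ℕ) : ℤ) 0 := by
  cases e <;> simp <;> ring

theorem web_st' (e : Bool) (n : ℕ) : st (!e) (stn e ((n + 1 : ℕ) : ℤ) 0) = stn e n 0 := by
  rw [← web_st, st_not_st]

/-- the arrow of the letter OUT -/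
theorem web_out (S : Sides D) (i : Fin D.nV) (s : Bool) (u : Wd) (hv : S.Val i s u) (n : ℕ) (hn : u n = 2) :
    ∃ a, S.outA (S.wlk i s u n).1 (S.wlk i s u n).2 = some a ∧
      S.inA (S.wlk i s u (n + 1)).1 (!(S.wlk i s u (n + 1)).2) = some a := by
  obtain ⟨a, ha⟩ := (hv n).2 hn
  refine ⟨a, ha, ?_⟩
  have h := web_nx S i s u n
  rw [hn] at h
  have h2 : S.nx (S.wlk i s u n).1 (S.wlk i s u n).2 2 = (D.tgt a, S.sT a) := by
    simp only [Sides.nx, ha]
    simp
  rw [h2] at h
  have h3 : D.tgt a = (S.wlk i s u (n + 1)).1 := congrArg Prod.fst h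
  have h4 : S.sT a = !(S.wlk i s u (n + 1)).2 := congrArg Prod.snd h
  exact Sides.inA_some.2 ⟨h3, h4⟩

/-- the arrow of the letter IN -/
theorem web_in (S : Sides D) (i : Fin D.nV) (s : Bool) (u : Wd) (hv : S.Val i s u) (n : ℕ) (hn : u n = 0) :
    ∃ a, S.outA (S.wlk i s u (n + 1)).1 (!(S.wlk i s u (n + 1)).2) = some a ∧
      S.inA (S.wlk i s u n).1 (S.wlk i s u n).2 = some a := by
  obtain ⟨a, ha⟩ := (hv n).1 hn
  refine ⟨a, ?_, ha⟩
  have h := web_nx S i s u n
  rw [hn] at h
  have h2 : S.nx (S.wlk i s u n).1 (S.wlk i s u n).2 0 = (D.src a, S.sS a) := by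
    simp only [Sides.nx, ha]
    simp
  rw [h2] at h
  have h3 : D.src a = (S.wlk i s u (n + 1)).1 := congrArg Prod.fst h
  have h4 : S.sS a = !(S.wlk i s u (n + 1)).2 := congrArg Prod.snd h
  exact Sides.outA_some.2 ⟨h3, h4⟩

/-- The line with the words `u false` (read to the left from `0`) and `u true` (read to the right from `0`).

`v p = (S.wlk i true (u true) p).1`, `r p = (S.wlk i true (u true) p).2`, `lam p = u true p` for `p ≥ 0`,
`v (-n) = (S.wlk i false (u false) n).1`, `r (-n) = !(S.wlk i false (u false) n).2`, `lam (-n-1) = Fin.rev (u false n)`. -/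
theorem exists_line (S : Sides D) (i : Fin D.nV) (u : Bool → Wd) (hu : ∀ s, (u s).Abs)
    (hv : ∀ s, S.Val i s (u s)) :
    ∃ L : Ln (Fin D.nV) S.nx, L.v 0 = i ∧ L.r 0 = true ∧ (∀ e, L.wdd e 0 = u e) ∧ L.Ok S.ends ∧ L.Abs 0 ∧
      ∀ p, L.lam p ≠ 1 → L.Reach 0 p ∧ L.Reach 0 (p + 1) := by
  have hreach : ∀ e (n : ℕ), u e n ≠ 1 → (webLn S i u hv).Reach 0 (stn e n 0) ∧
      (webLn S i u hv).Reach 0 (stn e ((n + 1 : ℕ) : ℤ) 0) := by
    intro e n hn
    have h1 : ∀ j < n + 1, (webLn S i u hv).lt e (stn e j 0) ≠ 1 := by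
      intro j hj
      rw [webLn_lt]
      exact fun h => hn (web_abs_le (hu e) (by omega) h)
    exact ⟨Ln.Reach.of_lt (fun j hj => h1 j (by omega)), Ln.Reach.of_lt h1⟩
  refine ⟨webLn S i u hv, ?_, ?_, ?_, ?_, ?_, ?_⟩
  · have := webLn_v S i u hv true 0
    simpa [Sides.wlk] using this
  · have := webLn_sd S i u hv true 0
    simpa [Sides.wlk, Ln.sd] using this
  · intro e
    funext n
    rw [Ln.wdd_apply, webLn_lt]
  · intro e p hp
    change ∃ a, S.outA ((webLn S i u hv).v p) ((webLn S i u hv).sd e p) = some a ∧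
      S.inA ((webLn S i u hv).v (st e p)) ((webLn S i u hv).sd (!e) (st e p)) = some a
    rcases web_stn_cases e p with ⟨n, rfl⟩ | ⟨n, rfl⟩
    · rw [webLn_lt] at hp
      rw [web_st, webLn_v, webLn_v, web_sd_not, webLn_sd, webLn_sd]
      exact web_out S i e (u e) (hv e) n hp
    · obtain ⟨e', rfl⟩ : ∃ e', e = !e' := ⟨!e, (Bool.not_not e).symm⟩
      rw [Bool.not_not] at hp ⊢
      rw [← web_st, Ln.lt_back, webLn_lt] at hp
      have hp' : u e' n = 0 := by
        revert hp
        generalize u e' n = x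
        revert x
        decide
      rw [web_st', webLn_v, webLn_v, web_sd_not, webLn_sd, webLn_sd]
      exact web_in S i e' (u e') (hv e') n hp'
  · intro e n m hnm h
    rw [webLn_lt] at h ⊢
    exact web_abs_le (hu e) hnm h
  · intro p hp
    rcases web_int_cases p with ⟨n, rfl⟩ | ⟨n, rfl⟩
    · have h0 : u true n ≠ 1 := by
        have := webLam_pos u n
        change webLam u (n : ℤ) ≠ 1 at hp
        rwa [this] at hp
      have h := hreach true n h0
      simpa using h
    · have h0 : u false n ≠ 1 := by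
        have := webLam_neg u n
        change webLam u (-(n : ℤ) - 1) ≠ 1 at hp
        rw [this] at hp
        exact Ln.rev_ne_one.1 hp
      have h := hreach false n h0
      have e1 : stn false ((n + 1 : ℕ) : ℤ) 0 = -(n : ℤ) - 1 := by simp; ring
      have e2 : stn false (n : ℤ) 0 = -(n : ℤ) - 1 + 1 := by simp
      rw [e1, e2] at h
      exact ⟨h.2, h.1⟩

end StrAlg
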