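import Pool.Agent.Lib.MP_b9fd58_lc.WDef

/-!
# Tools for strings: shift, reversal, positions (job WFa)
-/

set_option autoImplicit false

namespace StrAlg

variable {D : Dat} {S : Sides D}

/-- the line with base point moved to `a` -/
def Ln.shift (L : Ln (Fin D.nV) S.nx) (a : ℤ) : Ln (Fin D.nV) S.nx where
  lam p := L.lam (p + a)
  v p := L.v (p + a)
  r p := L.r (p + a)
  fwd p h := by
    have := L.fwd (p + a) h
    rw [this]
    have e : p + a + 1 = p + 1 + a := by ring
    rw [e]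
  bwd p h := by
    have := L.bwd (p + a) h
    have e : p + a + 1 = p + 1 + a := by ring
    rw [e] at this
    exact this

/-- the reversed line -/
def Ln.rv (L : Ln (Fin D.nV) S.nx) : Ln (Fin D.nV) S.nx where
  lam p := Fin.rev (L.lam (-p - 1))
  v p := L.v (-p)
  r p := !L.r (-p)
  fwd p h := by
    have := L.bwd (-p - 1) (Ln.rev_ne_one.1 h)
    have e1 : -p - 1 + 1 = -p := by ring
    have e2 : -(p + 1) = -p - 1 := by ring
    rw [e1] at this
    rw [this, e2, Bool.not_not]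
  bwd p h := by
    have := L.fwd (-p - 1) (Ln.rev_ne_one.1 h)
    have e1 : -p - 1 + 1 = -p := by ring
    have e2 : -(p + 1) = -p - 1 := by ring
    rw [e1] at this
    rw [Fin.rev_rev, e2, Bool.not_not, this]

theorem Ln.shift_lt (L : Ln (Fin D.nV) S.nx) (a : ℤ) (e : Bool) (p : ℤ) :
    (L.shift a).lt e p = L.lt e (p + a) := by
  cases e with
  | true => rfl
  | false =>
    show Fin.rev (L.lam (p - 1 + a)) = Fin.rev (L.lam (p + a - 1))
    rw [show p - 1 + a = p + a - 1 by ring]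

theorem WFa_stn_add (e : Bool) (n p a : ℤ) : stn e n p + a = stn e n (p + a) := by
  cases e <;> simp <;> ring

theorem WFa_stn_neg (e : Bool) (n p : ℤ) : -(stn e n p) = stn (!e) n (-p) := by
  cases e <;> simp <;> ring

theorem WFa_st_add (e : Bool) (p a : ℤ) : st e p + a = st e (p + a) := by
  cases e <;> simp <;> ring

theorem WFa_st_neg (e : Bool) (p : ℤ) : -(st e p) = st (!e) (-p) := by
  cases e <;> simp <;> ring

theorem Ln.shift_wd (L : Ln (Fin D.nV) S.nx) (a p : ℤ) : (L.shift a).wd p = L.wd (p + a) := by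
  funext s n
  show (L.shift a).lt (s == L.r (p + a)) (stn (s == L.r (p + a)) n p) =
    L.lt (s == L.r (p + a)) (stn (s == L.r (p + a)) n (p + a))
  rw [Ln.shift_lt, WFa_stn_add]

theorem Ln.rv_lt (L : Ln (Fin D.nV) S.nx) (e : Bool) (p : ℤ) : L.rv.lt e p = L.lt (!e) (-p) := by
  cases e with
  | true => rfl
  | false =>
    show Fin.rev (Fin.rev (L.lam (-(p - 1) - 1))) = L.lam (-p)
    rw [Fin.rev_rev, show -(p - 1) - 1 = -p by ring]

theorem WFa_rv_wdd (L : Ln (Fin D.nV) S.nx) (e : Bool) (p : ℤ) :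
    L.rv.wdd e p = L.wdd (!e) (-p) := by
  funext n
  rw [Ln.wdd_apply, Ln.wdd_apply, Ln.rv_lt, WFa_stn_neg]

theorem Ln.rv_wd (L : Ln (Fin D.nV) S.nx) (p : ℤ) : L.rv.wd p = L.wd (-p) := by
  funext s
  show L.rv.wdd (s == !L.r (-p)) p = L.wdd (s == L.r (-p)) (-p)
  rw [WFa_rv_wdd]
  congr 1
  cases s <;> cases L.r (-p) <;> rfl

theorem Ln.rv_wdd (L : Ln (Fin D.nV) S.nx) (e : Bool) (p : ℤ) : L.rv.wdd e p = L.wdd (!e) (-p) :=
  WFa_rv_wdd L e p

/-- reachable positions in terms of letters -/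
theorem Ln.reach_iff (L : Ln (Fin D.nV) S.nx) (p q : ℤ) :
    L.Reach p q ↔ ∀ x, (p ≤ x ∧ x < q) ∨ (q ≤ x ∧ x < p) → L.lam x ≠ 1 := by
  constructor
  · rintro ⟨e, n, h1, h2, -⟩ x hx
    cases e with
    | true =>
      rw [stn_true] at h2
      have h3 := (h1.lk (x - p).toNat (by omega)).2
      rw [stn_true] at h3
      have h4 : p + ((x - p).toNat : ℤ) = x := by omega
      rw [h4] at h3
      exact h3
    | false =>
      rw [stn_false] at h2
      have h3 := (h1.lk (p - 1 - x).toNat (by omega)).2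
      rw [stn_false] at h3
      have h4 : p - ((p - 1 - x).toNat : ℤ) = x + 1 := by omega
      rw [h4] at h3
      have h5 : Fin.rev (L.lam (x + 1 - 1)) ≠ 1 := h3
      rw [show x + 1 - 1 = x by ring] at h5
      exact Ln.rev_ne_one.1 h5
  · intro h
    rcases le_total p q with hpq | hpq
    · have h1 : L.Reach p (stn true ((q - p).toNat : ℤ) p) := by
        refine Ln.Reach.of_lt (fun j hj => ?_)
        show L.lam (p + j) ≠ 1
        exact h _ (Or.inl ⟨by omega, by omega⟩)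
      have h2 : stn true ((q - p).toNat : ℤ) p = q := by
        rw [stn_true]; omega
      rwa [h2] at h1
    · have h1 : L.Reach p (stn false ((p - q).toNat : ℤ) p) := by
        refine Ln.Reach.of_lt (fun j hj => ?_)
        show Fin.rev (L.lam (p - j - 1)) ≠ 1
        exact Ln.rev_ne_one.2 (h _ (Or.inr ⟨by omega, by omega⟩))
      have h2 : stn false ((p - q).toNat : ℤ) p = q := by
        rw [stn_false]; omega
      rwa [h2] at h1

theorem WFa_reach_symm {L : Ln (Fin D.nV) S.nx} {p q : ℤ} (h : L.Reach p q) : L.Reach q p := by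
  rw [Ln.reach_iff] at h ⊢
  exact fun x hx => h x hx.symm

theorem WFa_reach_shift (L : Ln (Fin D.nV) S.nx) (a p q : ℤ) :
    (L.shift a).Reach p q ↔ L.Reach (p + a) (q + a) := by
  rw [Ln.reach_iff, Ln.reach_iff]
  constructor
  · intro h x hx
    have h1 := h (x - a) (by omega)
    have h2 : L.lam (x - a + a) ≠ 1 := h1
    rwa [show x - a + a = x by ring] at h2
  · intro h x hx
    exact h (x + a) (by omega)

theorem WFa_reach_rv (L : Ln (Fin D.nV) S.nx) (p q : ℤ) :
    L.rv.Reach p q ↔ L.Reach (-p) (-q) := by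
  rw [Ln.reach_iff, Ln.reach_iff]
  constructor
  · intro h x hx
    have h1 := h (-x - 1) (by omega)
    have h2 : Fin.rev (L.lam (-(-x - 1) - 1)) ≠ 1 := h1
    rw [show -(-x - 1) - 1 = x by ring] at h2
    exact Ln.rev_ne_one.1 h2
  · intro h x hx
    exact Ln.rev_ne_one.2 (h (-x - 1) (by omega))

theorem WFa_bk_shift (A : Ends (Fin D.nV) (Fin D.nE)) (L : Ln (Fin D.nV) S.nx) (a : ℤ) (e : Bool)
    (l : List (Fin D.nE)) : ∀ p, bk A (L.shift a) e l p → bk A L e l (p + a) := by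
  induction l with
  | nil => intro p _; trivial
  | cons b l ih =>
    rintro p ⟨h1, h2, h3⟩
    rw [Ln.shift_lt] at h1
    refine ⟨h1, h2, ?_⟩
    rw [← WFa_st_add]
    exact ih _ h3

theorem WFa_rv_sd (L : Ln (Fin D.nV) S.nx) (e : Bool) (p : ℤ) : L.rv.sd e p = L.sd (!e) (-p) := by
  cases e with
  | true => rfl
  | false => exact Bool.not_not _

theorem WFa_bk_rv (A : Ends (Fin D.nV) (Fin D.nE)) (L : Ln (Fin D.nV) S.nx) (e : Bool)
    (l : List (Fin D.nE)) : ∀ p, bk A L.rv e l p → bk A L (!e) l (-p) := by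
  induction l with
  | nil => intro p _; trivial
  | cons b l ih =>
    rintro p ⟨h1, h2, h3⟩
    rw [Ln.rv_lt] at h1
    rw [WFa_rv_sd] at h2
    refine ⟨h1, h2, ?_⟩
    rw [← WFa_st_neg]
    exact ih _ h3

/-- the string with base point moved to the position `a` -/
theorem Str.exists_shift (w : Str S) (a : ℤ) (ha : a ∈ w.Z) :
    ∃ w' : Str S, w'.L = w.L.shift a ∧ ∀ p, p ∈ w'.Z ↔ p + a ∈ w.Z := by
  have key : ∀ p, (w.L.shift a).Reach 0 p ↔ w.L.Reach 0 (p + a) := by
    intro p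
    rw [WFa_reach_shift, zero_add]
    exact ⟨fun h => Ln.Reach.trans ha h, fun h => Ln.Reach.trans (WFa_reach_symm ha) h⟩
  refine ⟨⟨w.L.shift a, ?_, ?_, ?_, ?_⟩, rfl, key⟩
  · intro e p h
    rw [Ln.shift_lt] at h
    obtain ⟨b, h1, h2⟩ := w.ok e (p + a) h
    refine ⟨b, h1, ?_⟩
    rw [← WFa_st_add] at h2
    exact h2
  · intro r hr e p h
    exact w.norel r hr e (p + a) (WFa_bk_shift _ _ _ _ _ _ h)
  · intro e n m hnm h
    rw [Ln.shift_lt, WFa_stn_add, zero_add] at h ⊢
    exact w.Zabs a ha e n m hnm h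
  · intro p hp
    have h1 := w.clean (p + a) hp
    refine ⟨(key p).2 h1.1, (key (p + 1)).2 ?_⟩
    rw [show p + 1 + a = p + a + 1 by ring]
    exact h1.2

/-- the reversed string -/
theorem Str.exists_rv (w : Str S) : ∃ w' : Str S, w'.L = w.L.rv ∧ ∀ p, p ∈ w'.Z ↔ -p ∈ w.Z := by
  have key : ∀ p, w.L.rv.Reach 0 p ↔ w.L.Reach 0 (-p) := by
    intro p
    rw [WFa_reach_rv, neg_zero]
  refine ⟨⟨w.L.rv, ?_, ?_, ?_, ?_⟩, rfl, key⟩
  · intro e p h
    rw [Ln.rv_lt] at h
    obtain ⟨b, h1, h2⟩ := w.ok (!e) (-p) h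
    refine ⟨b, ?_, ?_⟩
    · rw [WFa_rv_sd]; exact h1
    · rw [WFa_rv_sd, WFa_st_neg]
      show S.ends.inA (w.L.v (-(st e p))) _ = _
      rw [WFa_st_neg]
      exact h2
  · intro r hr e p h
    exact w.norel r hr (!e) (-p) (WFa_bk_rv _ _ _ _ _ h)
  · intro e n m hnm h
    rw [Ln.rv_lt, WFa_stn_neg, neg_zero] at h ⊢
    exact w.abs (!e) n m hnm h
  · intro p hp
    have h1 := w.clean (-p - 1) (Ln.rev_ne_one.1 hp)
    refine ⟨(key p).2 ?_, (key (p + 1)).2 ?_⟩
    · have h2 := h1.2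
      rwa [show -p - 1 + 1 = -p by ring] at h2
    · rw [show -(p + 1) = -p - 1 by ring]
      exact h1.1

theorem Str.wzero_mem (w : Str S) : (0 : ℤ) ∈ w.Z := Ln.Reach.refl

/-- no letters next to a position outside -/
theorem Str.lt_of_notMem (w : Str S) {p : ℤ} (hp : p ∉ w.Z) (e : Bool) : w.L.lt e p = 1 := by
  by_contra hne
  apply hp
  cases e with
  | true => exact (w.clean p hne).1
  | false =>
    have h1 : Fin.rev (w.L.lam (p - 1)) ≠ 1 := hne
    have h2 := (w.clean (p - 1) (Ln.rev_ne_one.1 h1)).2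
    rwa [show p - 1 + 1 = p by ring] at h2

/-- a finite string ends on both sides; its words end -/
theorem Str.fin_iff (w : Str S) : w.Fin ↔ ∀ e, ∃ n : ℕ, w.L.lt e (stn e n 0) = 1 := by
  constructor
  · intro h e
    by_contra hne
    push Not at hne
    have h1 : Function.Injective (fun n : ℕ => stn e (n : ℤ) 0) := by
      intro m n hmn
      have h2 : stn e (m : ℤ) 0 = stn e (n : ℤ) 0 := hmn
      cases e <;> simp at h2 <;> exact h2
    have h3 : (Set.range (fun n : ℕ => stn e (n : ℤ) 0)).Finite := by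
      refine Set.Finite.subset h ?_
      rintro _ ⟨n, rfl⟩
      exact Ln.Reach.of_lt (fun j _ => hne j)
    exact Set.infinite_range_of_injective h1 h3
  · intro h
    obtain ⟨n₁, h1⟩ := h true
    obtain ⟨n₂, h2⟩ := h false
    refine Set.Finite.subset (Set.finite_Icc (-(n₂ : ℤ)) (n₁ : ℤ)) ?_
    intro q hq
    have h3 := (Ln.reach_iff w.L 0 q).1 hq
    have h1' : w.L.lam (n₁ : ℤ) = 1 := by
      have h4 : w.L.lam (0 + (n₁ : ℤ)) = 1 := h1
      rwa [zero_add] at h4
    have h2' : w.L.lam (-(n₂ : ℤ) - 1) = 1 := by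
      have h4 : Fin.rev (w.L.lam (0 - (n₂ : ℤ) - 1)) = 1 := h2
      rw [zero_sub] at h4
      by_contra hne
      exact Ln.rev_ne_one.2 hne h4
    constructor
    · by_contra hlt
      exact h3 (-(n₂ : ℤ) - 1) (by omega) h2'
    · by_contra hlt
      exact h3 (n₁ : ℤ) (by omega) h1'

theorem Str.Fin.fn {w : Str S} (h : w.Fin) : w.L.Fn := by
  obtain ⟨M, hM⟩ := Set.Finite.bddAbove h
  obtain ⟨m, hm⟩ := Set.Finite.bddBelow h
  refine ⟨m, M + 1, fun p hp => ?_, fun p hp => ?_⟩
  · refine w.lt_of_notMem (p := p) (fun h1 => ?_) true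
    have := hM h1
    omega
  · refine w.lt_of_notMem (p := p) (fun h1 => ?_) true
    have := hm h1
    omega

/-- the words of a string at its positions are absorbing -/
theorem Str.wd_abs (w : Str S) {p : ℤ} (hp : p ∈ w.Z) (s : Bool) : (w.L.wd p s).Abs := by
  intro n h
  exact w.Zabs p hp (s == w.L.r p) n (n + 1) (Nat.le_succ n) h

end StrAlg
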