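import Pool.Agent.Lib.MP_b9fd58_lc.WA

/-!
# Upper cuts and one-sided chains (job WLa)
-/

set_option autoImplicit false

namespace StrAlg

open Module

variable {D : Dat} {k : Type} [Field k] {N : Type} [AddCommGroup N] [Module k N] {S : Sides D}

/-- the next half edge along a line -/
theorem Ln.nh_eq (w : Ln (Fin D.nV) S.nx) (e : Bool) (p : ℤ) (h : w.lt e p ≠ 1) :
    S.nh (w.v p) (w.sd e p) (w.lt e p) = (w.v (st e p), w.sd e (st e p)) := by
  unfold Sides.nh
  rw [w.walk e p h]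
  simp

/-- the arrow of the letter IN -/
theorem Ln.Ok.inn {w : Ln (Fin D.nV) S.nx} (hw : w.Ok S.ends) {e : Bool} {p : ℤ} (h : w.lt e p = 0) :
    ∃ β, S.inA (w.v p) (w.sd e p) = some β ∧ S.outA (w.v (st e p)) (w.sd (!e) (st e p)) = some β := by
  obtain ⟨a, h1, h2⟩ := hw (!e) (st e p) (by rw [Ln.lt_back, h]; rfl)
  rw [st_not_st, Bool.not_not] at h2
  exact ⟨a, h2, h1⟩

/-- the arrow of the letter OUT -/
theorem Ln.Ok.out {w : Ln (Fin D.nV) S.nx} (hw : w.Ok S.ends) {e : Bool} {p : ℤ} (h : w.lt e p = 2) :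
    ∃ γ, S.outA (w.v p) (w.sd e p) = some γ ∧ S.inA (w.v (st e p)) (w.sd (!e) (st e p)) = some γ := by
  exact hw e p h

theorem wla_stn_succ (e : Bool) (j : ℕ) (p : ℤ) : stn e ((j + 1 : ℕ) : ℤ) p = stn e (j : ℤ) (st e p) := by
  rw [← stn_one, stn_stn]
  push_cast
  rw [add_comm]

theorem wla_sch_succ {Q : QMod D k N} {w : Ln (Fin D.nV) S.nx} {e : Bool} {p : ℤ} {n : ℕ} {g : ℕ → N} :
    SCh Q w e p (n + 1) g ↔ ESt Q w e p (g 0) (g 1) ∧
      (w.lt e p ≠ 1 → SCh Q w e (st e p) n (fun j => g (j + 1))) := by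
  constructor
  · intro h
    refine ⟨?_, fun hp j hj hi => ?_⟩
    · have := h 0 (by omega) (fun i hi => by omega)
      rwa [Nat.cast_zero, stn_zero] at this
    · have := h (j + 1) (by omega) (fun i hi' => by
        cases i with
        | zero => rwa [Nat.cast_zero, stn_zero]
        | succ i =>
          rw [wla_stn_succ]
          exact hi i (by omega))
      rwa [wla_stn_succ] at this
  · rintro ⟨h1, h2⟩ j hj hi
    cases j with
    | zero =>
      rw [Nat.cast_zero, stn_zero]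
      exact h1
    | succ j =>
      rw [wla_stn_succ]
      refine h2 ?_ j (by omega) (fun i hi' => ?_)
      · have := hi 0 (by omega)
        rwa [Nat.cast_zero, stn_zero] at this
      · have := hi (i + 1) (by omega)
        rwa [wla_stn_succ] at this

/-- membership in `cB` through the arrow -/
theorem wla_mem_cB {Q : QMod D k N} {i : Fin D.nV} {s : Bool} {β : Fin D.nE} (h : S.inA i s = some β)
    {L : Submodule k N} {m : N} : m ∈ Q.cB S i s L ↔ ∃ y ∈ L, Q.op (Sum.inr β) y = m := by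
  unfold QMod.cB
  rw [h]
  exact Submodule.mem_map

/-- membership in `cC` through the arrow -/
theorem wla_mem_cC {Q : QMod D k N} {i : Fin D.nV} {s : Bool} {γ : Fin D.nE} (h : S.outA i s = some γ)
    {L : Submodule k N} {m : N} : m ∈ Q.cC S i s L ↔ Q.op (Sum.inl i) m = m ∧ Q.op (Sum.inr γ) m ∈ L := by
  unfold QMod.cC
  rw [h, Submodule.mem_inf, QMod.mem_vs]
  rfl

theorem wla_mem_cC_bot {Q : QMod D k N} {i : Fin D.nV} {s : Bool} {m : N} :
    m ∈ Q.cC S i s ⊥ ↔ Q.op (Sum.inl i) m = m ∧ ∀ γ, S.outA i s = some γ → Q.op (Sum.inr γ) m = 0 := by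
  cases h : S.outA i s with
  | none =>
    unfold QMod.cC
    rw [h]
    simp only [QMod.mem_vs]
    simp
  | some γ =>
    rw [wla_mem_cC h, Submodule.mem_bot]
    constructor
    · rintro ⟨h1, h2⟩
      refine ⟨h1, fun γ' h' => ?_⟩
      rw [← Option.some_inj.1 h']
      exact h2
    · rintro ⟨h1, h2⟩
      exact ⟨h1, h2 γ rfl⟩

/-- the step of the upper cuts through IN -/
theorem wla_up_zero {Q : QMod D k N} {w : Ln (Fin D.nV) S.nx} {e : Bool} {p : ℤ} {n : ℕ} (h : w.lt e p = 0) :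
    Q.up S (n + 1) (w.wdd e p) (w.v p) (w.sd e p) =
      Q.cB S (w.v p) (w.sd e p) (Q.up S n (w.wdd e (st e p)) (w.v (st e p)) (w.sd e (st e p))) := by
  have e1 := w.nh_eq e p (by rw [h]; decide)
  rw [h] at e1
  have h0 : w.wdd e p 0 = 0 := by rw [Ln.wdd_zero, h]
  rw [QMod.up, if_pos h0, Ln.wdd_sh, e1]

theorem wla_up_two {Q : QMod D k N} {w : Ln (Fin D.nV) S.nx} {e : Bool} {p : ℤ} {n : ℕ} (h : w.lt e p = 2) :
    Q.up S (n + 1) (w.wdd e p) (w.v p) (w.sd e p) =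
      Q.cC S (w.v p) (w.sd e p) (Q.up S n (w.wdd e (st e p)) (w.v (st e p)) (w.sd e (st e p))) := by
  have e1 := w.nh_eq e p (by rw [h]; decide)
  rw [h] at e1
  have h0 : w.wdd e p 0 = 2 := by rw [Ln.wdd_zero, h]
  rw [QMod.up, if_neg (by rw [h0]; decide), if_pos h0, Ln.wdd_sh, e1]

theorem wla_up_one {Q : QMod D k N} {w : Ln (Fin D.nV) S.nx} {e : Bool} {p : ℤ} {n : ℕ} (h : w.lt e p = 1) :
    Q.up S (n + 1) (w.wdd e p) (w.v p) (w.sd e p) = Q.cC S (w.v p) (w.sd e p) ⊥ := by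
  have h0 : w.wdd e p 0 = 1 := by rw [Ln.wdd_zero, h]
  rw [QMod.up, if_neg (by rw [h0]; decide), if_neg (by rw [h0]; decide)]

theorem wla_lo_zero {Q : QMod D k N} {w : Ln (Fin D.nV) S.nx} {e : Bool} {p : ℤ} {n : ℕ} (h : w.lt e p = 0) :
    Q.lo S (n + 1) (w.wdd e p) (w.v p) (w.sd e p) =
      Q.cB S (w.v p) (w.sd e p) (Q.lo S n (w.wdd e (st e p)) (w.v (st e p)) (w.sd e (st e p))) := by
  have e1 := w.nh_eq e p (by rw [h]; decide)
  rw [h] at e1
  have h0 : w.wdd e p 0 = 0 := by rw [Ln.wdd_zero, h]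
  rw [QMod.lo, if_pos h0, Ln.wdd_sh, e1]

theorem wla_lo_two {Q : QMod D k N} {w : Ln (Fin D.nV) S.nx} {e : Bool} {p : ℤ} {n : ℕ} (h : w.lt e p = 2) :
    Q.lo S (n + 1) (w.wdd e p) (w.v p) (w.sd e p) =
      Q.cC S (w.v p) (w.sd e p) (Q.lo S n (w.wdd e (st e p)) (w.v (st e p)) (w.sd e (st e p))) := by
  have e1 := w.nh_eq e p (by rw [h]; decide)
  rw [h] at e1
  have h0 : w.wdd e p 0 = 2 := by rw [Ln.wdd_zero, h]
  rw [QMod.lo, if_neg (by rw [h0]; decide), if_pos h0, Ln.wdd_sh, e1]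

theorem wla_lo_one {Q : QMod D k N} {w : Ln (Fin D.nV) S.nx} {e : Bool} {p : ℤ} {n : ℕ} (h : w.lt e p = 1) :
    Q.lo S (n + 1) (w.wdd e p) (w.v p) (w.sd e p) = Q.cB S (w.v p) (w.sd e p) ⊤ := by
  have h0 : w.wdd e p 0 = 1 := by rw [Ln.wdd_zero, h]
  rw [QMod.lo, if_neg (by rw [h0]; decide), if_neg (by rw [h0]; decide)]

theorem wla_fin3 (x : Fin 3) : x = 0 ∨ x = 1 ∨ x = 2 := by
  revert x
  decide

/-- edge steps for the letter IN -/
theorem wla_est_zero {Q : QMod D k N} {w : Ln (Fin D.nV) S.nx} {e : Bool} {p : ℤ} (h : w.lt e p = 0)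
    {β : Fin D.nE} (hβ : S.inA (w.v p) (w.sd e p) = some β) {x y : N} :
    ESt Q w e p x y ↔ Q.op (Sum.inl (w.v (st e p))) y = y ∧ Q.op (Sum.inr β) y = x := by
  constructor
  · intro hE
    have := hE.inn h
    exact ⟨this.1, this.2 β hβ⟩
  · rintro ⟨h1, h2⟩
    refine ⟨?_, ?_, ?_, ?_⟩
    · rw [← h2]
      have h3 := (Sides.inA_some.1 hβ).1
      have h4 := Q.tgt β y
      rw [h3] at h4
      exact h4
    · intro h'
      rw [h] at h'
      exact absurd h' (by decide)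
    · intro _
      refine ⟨h1, fun β' hβ' => ?_⟩
      rw [hβ] at hβ'
      rw [← Option.some_inj.1 hβ']
      exact h2
    · intro h'
      rw [h] at h'
      exact absurd h' (by decide)

/-- edge steps for the letter OUT -/
theorem wla_est_two {Q : QMod D k N} {w : Ln (Fin D.nV) S.nx} {e : Bool} {p : ℤ} (h : w.lt e p = 2)
    {γ : Fin D.nE} (hγ : S.outA (w.v p) (w.sd e p) = some γ) {x y : N} :
    ESt Q w e p x y ↔ Q.op (Sum.inl (w.v p)) x = x ∧ Q.op (Sum.inr γ) x = y := by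
  constructor
  · intro hE
    exact ⟨hE.vx, hE.out h γ hγ⟩
  · rintro ⟨h1, h2⟩
    refine ⟨h1, ?_, ?_, ?_⟩
    · intro _ γ' hγ'
      rw [hγ] at hγ'
      rw [← Option.some_inj.1 hγ']
      exact h2
    · intro h'
      rw [h] at h'
      exact absurd h' (by decide)
    · intro h'
      rw [h] at h'
      exact absurd h' (by decide)

/-- edge steps for END -/
theorem wla_est_one {Q : QMod D k N} {w : Ln (Fin D.nV) S.nx} {e : Bool} {p : ℤ} (h : w.lt e p = 1) {x y : N} :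
    ESt Q w e p x y ↔ Q.op (Sum.inl (w.v p)) x = x ∧
      ∀ γ, S.outA (w.v p) (w.sd e p) = some γ → Q.op (Sum.inr γ) x = 0 := by
  constructor
  · intro hE
    exact ⟨hE.vx, hE.fin h⟩
  · rintro ⟨h1, h2⟩
    refine ⟨h1, ?_, ?_, fun _ => h2⟩
    · intro h'
      rw [h] at h'
      exact absurd h' (by decide)
    · intro h'
      rw [h] at h'
      exact absurd h' (by decide)

theorem wla_vs_zero {Q : QMod D k N} {i : Fin D.nV} {s : Bool} {β : Fin D.nE} (h : S.inA i s = some β) (y : N) :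
    Q.op (Sum.inl i) (Q.op (Sum.inr β) y) = Q.op (Sum.inr β) y := by
  have h3 := (Sides.inA_some.1 h).1
  have h4 := Q.tgt β y
  rwa [h3] at h4

/-- Upper cuts: values of one-sided chains of length `n`.

Proof: induction on `n`, generalizing `p` and `m`; `Q.up S (n+1) (w.wdd e p) ..` unfolds with `Ln.wdd_zero`, `Ln.wdd_sh`,
`Ln.nh_eq` to `cB`/`cC` of the cut of depth `n` at `st e p`; `SCh (n+1)` at `p` is `ESt` at `p` and `SCh n` at `st e p`
for the shifted sequence. -/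
theorem mem_up_iff {Q : QMod D k N} {w : Ln (Fin D.nV) S.nx} (hw : w.Ok S.ends) (e : Bool) (p : ℤ) (n : ℕ) (m : N) :
    m ∈ Q.up S n (w.wdd e p) (w.v p) (w.sd e p) ↔
      Q.op (Sum.inl (w.v p)) m = m ∧ ∃ g : ℕ → N, g 0 = m ∧ SCh Q w e p n g := by
  induction n generalizing p m with
  | zero =>
    rw [QMod.up, QMod.mem_vs]
    constructor
    · intro h
      exact ⟨h, fun _ => m, rfl, fun j hj => by omega⟩
    · rintro ⟨h, -⟩
      exact h
  | succ n ih =>
    rcases wla_fin3 (w.lt e p) with h0 | h0 | h0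
    · have hp1 : w.lt e p ≠ 1 := by rw [h0]; decide
      obtain ⟨β, hβ, -⟩ := hw.inn h0
      rw [wla_up_zero h0, wla_mem_cB hβ]
      constructor
      · rintro ⟨y, hy, rfl⟩
        obtain ⟨hy1, g, hg0, hg⟩ := (ih (st e p) y).1 hy
        refine ⟨wla_vs_zero hβ y, fun j => Nat.casesOn j (Q.op (Sum.inr β) y) g, rfl, ?_⟩
        rw [wla_sch_succ]
        refine ⟨?_, fun _ => hg⟩
        show ESt Q w e p (Q.op (Sum.inr β) y) (g 0)
        rw [hg0, wla_est_zero h0 hβ]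
        exact ⟨hy1, rfl⟩
      · rintro ⟨-, g, rfl, hg⟩
        rw [wla_sch_succ] at hg
        obtain ⟨hg1, hg2⟩ := hg
        rw [wla_est_zero h0 hβ] at hg1
        refine ⟨g 1, (ih (st e p) (g 1)).2 ⟨hg1.1, fun j => g (j + 1), rfl, hg2 hp1⟩, hg1.2⟩
    · rw [wla_up_one h0, wla_mem_cC_bot]
      constructor
      · intro h
        refine ⟨h.1, fun _ => m, rfl, ?_⟩
        rw [wla_sch_succ]
        exact ⟨(wla_est_one h0).2 h, fun hp => absurd h0 hp⟩
      · rintro ⟨-, g, rfl, hg⟩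
        rw [wla_sch_succ] at hg
        exact (wla_est_one h0).1 hg.1
    · have hp1 : w.lt e p ≠ 1 := by rw [h0]; decide
      obtain ⟨γ, hγ, hγ'⟩ := hw.out h0
      rw [wla_up_two h0, wla_mem_cC hγ, ih]
      constructor
      · rintro ⟨h1, h2, g, hg0, hg⟩
        refine ⟨h1, fun j => Nat.casesOn j m g, rfl, ?_⟩
        rw [wla_sch_succ]
        refine ⟨?_, fun _ => hg⟩
        show ESt Q w e p m (g 0)
        rw [hg0, wla_est_two h0 hγ]
        exact ⟨h1, rfl⟩
      · rintro ⟨h1, g, rfl, hg⟩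
        rw [wla_sch_succ] at hg
        obtain ⟨hg1, hg2⟩ := hg
        rw [wla_est_two h0 hγ] at hg1
        refine ⟨h1, wla_vs_zero hγ' _, fun j => g (j + 1), hg1.2.symm, hg2 hp1⟩

/-- Lower cuts on a line without END up to depth `n`: values of one-sided chains that vanish at depth `n`. -/
theorem mem_lo_iff {Q : QMod D k N} {w : Ln (Fin D.nV) S.nx} (hw : w.Ok S.ends) (e : Bool) (p : ℤ) (n : ℕ)
    (hn : ∀ j < n, w.lt e (stn e j p) ≠ 1) (m : N) :
    m ∈ Q.lo S n (w.wdd e p) (w.v p) (w.sd e p) ↔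
      Q.op (Sum.inl (w.v p)) m = m ∧ ∃ g : ℕ → N, g 0 = m ∧ g n = 0 ∧ SCh Q w e p n g := by
  induction n generalizing p m with
  | zero =>
    rw [QMod.lo, Submodule.mem_bot]
    constructor
    · rintro rfl
      exact ⟨map_zero _, fun _ => 0, rfl, rfl, fun j hj => by omega⟩
    · rintro ⟨-, g, rfl, h, -⟩
      exact h
  | succ n ih =>
    have hp1 : w.lt e p ≠ 1 := by
      have := hn 0 (by omega)
      rwa [Nat.cast_zero, stn_zero] at this
    have hn' : ∀ j < n, w.lt e (stn e j (st e p)) ≠ 1 := by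
      intro j hj
      have := hn (j + 1) (by omega)
      rwa [wla_stn_succ] at this
    rcases wla_fin3 (w.lt e p) with h0 | h0 | h0
    · obtain ⟨β, hβ, -⟩ := hw.inn h0
      rw [wla_lo_zero h0, wla_mem_cB hβ]
      constructor
      · rintro ⟨y, hy, rfl⟩
        obtain ⟨hy1, g, hg0, hgn, hg⟩ := (ih (st e p) hn' y).1 hy
        refine ⟨wla_vs_zero hβ y, fun j => Nat.casesOn j (Q.op (Sum.inr β) y) g, rfl, hgn, ?_⟩
        rw [wla_sch_succ]
        refine ⟨?_, fun _ => hg⟩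
        show ESt Q w e p (Q.op (Sum.inr β) y) (g 0)
        rw [hg0, wla_est_zero h0 hβ]
        exact ⟨hy1, rfl⟩
      · rintro ⟨-, g, rfl, hgn, hg⟩
        rw [wla_sch_succ] at hg
        obtain ⟨hg1, hg2⟩ := hg
        rw [wla_est_zero h0 hβ] at hg1
        refine ⟨g 1, (ih (st e p) hn' (g 1)).2 ⟨hg1.1, fun j => g (j + 1), rfl, hgn, hg2 hp1⟩, hg1.2⟩
    · exact absurd h0 hp1
    · obtain ⟨γ, hγ, hγ'⟩ := hw.out h0
      rw [wla_lo_two h0, wla_mem_cC hγ, ih (st e p) hn']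
      constructor
      · rintro ⟨h1, h2, g, hg0, hgn, hg⟩
        refine ⟨h1, fun j => Nat.casesOn j m g, rfl, hgn, ?_⟩
        rw [wla_sch_succ]
        refine ⟨?_, fun _ => hg⟩
        show ESt Q w e p m (g 0)
        rw [hg0, wla_est_two h0 hγ]
        exact ⟨h1, rfl⟩
      · rintro ⟨h1, g, rfl, hgn, hg⟩
        rw [wla_sch_succ] at hg
        obtain ⟨hg1, hg2⟩ := hg
        rw [wla_est_two h0 hγ] at hg1
        refine ⟨h1, wla_vs_zero hγ' _, fun j => g (j + 1), hg1.2.symm, hgn, hg2 hp1⟩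

end StrAlg
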