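import Pool.Agent.Lib.MP_b9fd58_lc.WLa

/-!
# Local identities of chains (job WMa)
-/

set_option autoImplicit false

namespace StrAlg

open Module

variable {D : Dat} {k : Type} [Field k] {N : Type} [AddCommGroup N] [Module k N] {S : Sides D}

private theorem wma_lt_back_two {w : Ln (Fin D.nV) S.nx} {e : Bool} {q : ℤ} (h : w.lt (!e) (st e q) = 2) :
    w.lt e q = 0 := by
  rw [Ln.lt_back] at h
  revert h; generalize w.lt e q = x; revert x; decide

private theorem wma_lt_back_zero {w : Ln (Fin D.nV) S.nx} {e : Bool} {q : ℤ} (h : w.lt (!e) (st e q) = 0) :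
    w.lt e q = 2 := by
  rw [Ln.lt_back] at h
  revert h; generalize w.lt e q = x; revert x; decide

private theorem wma_lt_back_one {w : Ln (Fin D.nV) S.nx} {e : Bool} {q : ℤ} (h : w.lt (!e) (st e q) = 1) :
    w.lt e q = 1 := by
  rw [Ln.lt_back] at h
  revert h; generalize w.lt e q = x; revert x; decide

private theorem wma_cases (x : Fin 3) : x = 0 ∨ x = 1 ∨ x = 2 := by revert x; decide

private theorem wma_side (w : Ln (Fin D.nV) S.nx) (q : ℤ) (s : Bool) : ∃ e, w.sd e q = s := by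
  refine ⟨s == w.r q, ?_⟩
  unfold Ln.sd
  cases s <;> cases w.r q <;> rfl

theorem ESt.symm {Q : QMod D k N} {w : Ln (Fin D.nV) S.nx} (hw : w.Ok S.ends) {e : Bool} {q : ℤ} {x y : N}
    (hne : w.lt e q ≠ 1) (h : ESt Q w e q x y) : ESt Q w (!e) (st e q) y x where
  vx := by
    rcases fin3_cases hne with h0 | h2
    · exact (h.inn h0).1
    · obtain ⟨γ, h3, h4⟩ := hw.out h2
      have h5 := h.out h2 γ h3
      have h6 := (Sides.inA_some.1 h4).1
      rw [← h5, ← h6]
      exact Q.tgt γ x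
  out := by
    intro h2 γ hγ
    have h0 := wma_lt_back_two h2
    obtain ⟨β, h3, h4⟩ := hw.inn h0
    have h5 : β = γ := Option.some_inj.1 (h4.symm.trans hγ)
    subst h5
    exact (h.inn h0).2 β h3
  inn := by
    intro h0
    have h2 := wma_lt_back_zero h0
    obtain ⟨γ, h3, h4⟩ := hw.out h2
    refine ⟨by rw [st_not_st]; exact h.vx, fun β hβ => ?_⟩
    have h5 : γ = β := Option.some_inj.1 (h4.symm.trans hβ)
    subst h5
    exact h.out h2 γ h3
  fin := fun h1 => absurd (wma_lt_back_one h1) hne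

theorem DSt.symm {Q : QMod D k N} {w : Ln (Fin D.nV) S.nx} (hw : w.Ok S.ends) {e : Bool} {q : ℤ}
    {x y : N →ₗ[k] k} (hne : w.lt e q ≠ 1) (h : DSt Q w e q x y) : DSt Q w (!e) (st e q) y x where
  vx := by
    rcases fin3_cases hne with h0 | h2
    · obtain ⟨β, h3, h4⟩ := hw.inn h0
      have h5 := h.inn h0 β h3
      have h6 := (Sides.outA_some.1 h4).1
      rw [← h5, ← h6]
      ext n
      exact congrArg x (Q.src β n)
    · exact (h.out h2).1
  out := by
    intro h2
    have h0 := wma_lt_back_two h2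
    refine ⟨by rw [st_not_st]; exact h.vx, fun γ hγ => ?_⟩
    obtain ⟨β, h3, h4⟩ := hw.inn h0
    have h5 : β = γ := Option.some_inj.1 (h4.symm.trans hγ)
    subst h5
    exact h.inn h0 β h3
  inn := by
    intro h0 β hβ
    have h2 := wma_lt_back_zero h0
    obtain ⟨γ, h3, h4⟩ := hw.out h2
    have h5 : γ = β := Option.some_inj.1 (h4.symm.trans hβ)
    subst h5
    exact (h.out h2).2 γ h3
  fin := fun h1 => absurd (wma_lt_back_one h1) hne

private theorem wma_sum_out (w : Ln (Fin D.nV) S.nx) {M : Type} [AddCommMonoid M] (f : Bool → M) {q : ℤ} {e : Bool}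
    {α : Fin D.nE} (hα : S.outA (w.v q) (w.sd e q) = some α) :
    (∑ e' : Bool, if w.lt e' q = 2 ∧ S.ends.outA (w.v q) (w.sd e' q) = some α then f e' else 0) =
      if w.lt e q = 2 then f e else 0 := by
  rw [sum_bool_single _ e]
  · by_cases h2 : w.lt e q = 2
    · rw [if_pos ⟨h2, hα⟩, if_pos h2]
    · rw [if_neg (fun h => h2 h.1), if_neg h2]
  · rw [if_neg]
    rintro ⟨-, h⟩
    have := Ln.sd_inj (S.ends.outU _ _ _ _ _ h hα).2
    cases e <;> simp at this

private theorem wma_sum_in (w : Ln (Fin D.nV) S.nx) {M : Type} [AddCommMonoid M] (f : Bool → M) {q : ℤ} {e : Bool}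
    {α : Fin D.nE} (hα : S.inA (w.v q) (w.sd e q) = some α) :
    (∑ e' : Bool, if w.lt e' q = 0 ∧ S.ends.inA (w.v q) (w.sd e' q) = some α then f e' else 0) =
      if w.lt e q = 0 then f e else 0 := by
  rw [sum_bool_single _ e]
  · by_cases h2 : w.lt e q = 0
    · rw [if_pos ⟨h2, hα⟩, if_pos h2]
    · rw [if_neg (fun h => h2 h.1), if_neg h2]
  · rw [if_neg]
    rintro ⟨-, h⟩
    have := Ln.sd_inj (S.ends.inU _ _ _ _ _ h hα).2
    cases e <;> simp at this

/-- Chain identity from the two edges at `q` (arrows with source `w.v q` sit on one of the sides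
`w.sd true q`, `w.sd false q`; on a side with letter IN use `QMod.out_in`). -/
theorem chAt_of_ESt {Q : QMod D k N} {w : Ln (Fin D.nV) S.nx} (hw : w.Ok S.ends) {g : ℤ → N} {q : ℤ}
    (h : ∀ e, ESt Q w e q (g q) (g (st e q))) : ChAt Q S.ends w g q := by
  have hv := (h true).vx
  constructor
  · intro i
    by_cases hi : w.v q = i
    · rw [if_pos hi, ← hi, hv]
    · rw [if_neg hi, ← hv]
      exact Q.orth _ _ _ hi
  · intro α
    by_cases hs : D.src α = w.v q
    · obtain ⟨e, he⟩ := wma_side w q (S.sS α)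
      have hα : S.outA (w.v q) (w.sd e q) = some α := Sides.outA_some.2 ⟨hs, he.symm⟩
      rw [wma_sum_out w (fun e => g (st e q)) hα]
      rcases wma_cases (w.lt e q) with h0 | h1 | h2
      · rw [if_neg (by rw [h0]; decide)]
        obtain ⟨β, h3, -⟩ := hw.inn h0
        rw [← ((h e).inn h0).2 β h3]
        exact Q.out_in h3 hα _
      · rw [if_neg (by rw [h1]; decide)]
        exact (h e).fin h1 α hα
      · rw [if_pos h2]
        exact (h e).out h2 α hα
    · rw [Q.inr_of_ne (QMod.mem_vs.2 hv) hs]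
      symm
      refine Finset.sum_eq_zero fun e _ => ?_
      rw [if_neg]
      rintro ⟨-, h3⟩
      exact hs (Sides.outA_some.1 h3).1

theorem ESt_of_chAt {Q : QMod D k N} {w : Ln (Fin D.nV) S.nx} (hw : w.Ok S.ends) {g : ℤ → N} {q : ℤ} {e : Bool}
    (h : ChAt Q S.ends w g q) (h' : w.lt e q ≠ 1 → ChAt Q S.ends w g (st e q)) :
    ESt Q w e q (g q) (g (st e q)) where
  vx := by rw [h.1, if_pos rfl]
  out := by
    intro h2 γ hγ
    rw [h.2 γ, wma_sum_out w (fun e => g (st e q)) hγ, if_pos h2]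
  inn := by
    intro h0
    have h3 := h' (by rw [h0]; decide)
    refine ⟨by rw [h3.1, if_pos rfl], fun β hβ => ?_⟩
    obtain ⟨β', h4, h5⟩ := hw.inn h0
    have h6 : β' = β := Option.some_inj.1 (h4.symm.trans hβ)
    subst h6
    rw [h3.2 β', wma_sum_out w (fun e' => g (st e' (st e q))) h5, if_pos (by rw [Ln.lt_back, h0]; rfl), st_not_st]
  fin := by
    intro h1 γ hγ
    rw [h.2 γ, wma_sum_out w (fun e => g (st e q)) hγ, if_neg (by rw [h1]; decide)]

theorem dcAt_of_DSt {Q : QMod D k N} {w : Ln (Fin D.nV) S.nx} (hw : w.Ok S.ends) {ξ : ℤ → N →ₗ[k] k} {q : ℤ}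
    (h : ∀ e, DSt Q w e q (ξ q) (ξ (st e q))) : DcAt Q S.ends w ξ q := by
  have hv : ∀ n, ξ q (Q.op (Sum.inl (w.v q)) n) = ξ q n := fun n => LinearMap.congr_fun (h true).vx n
  constructor
  · intro i n
    by_cases hi : w.v q = i
    · rw [if_pos hi, ← hi, hv]
    · rw [if_neg hi, ← hv, Q.orth i (w.v q) n (fun hh => hi hh.symm), map_zero]
  · intro α n
    by_cases hs : D.tgt α = w.v q
    · obtain ⟨e, he⟩ := wma_side w q (S.sT α)
      have hα : S.inA (w.v q) (w.sd e q) = some α := Sides.inA_some.2 ⟨hs, he.symm⟩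
      rw [wma_sum_in w (fun e => ξ (st e q) n) hα]
      rcases wma_cases (w.lt e q) with h0 | h1 | h2
      · rw [if_pos h0]
        exact LinearMap.congr_fun ((h e).inn h0 α hα) n
      · rw [if_neg (by rw [h1]; decide)]
        exact LinearMap.congr_fun ((h e).fin h1 α hα) n
      · rw [if_neg (by rw [h2]; decide)]
        obtain ⟨γ, h3, -⟩ := hw.out h2
        have h4 := LinearMap.congr_fun (((h e).out h2).2 γ h3) (Q.op (Sum.inr α) n)
        rw [← h4, LinearMap.comp_apply, Q.out_in hα h3, map_zero]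
    · have h1 : ξ q (Q.op (Sum.inr α) n) = 0 := by
        rw [← hv, ← Q.tgt α n, Q.orth _ _ _ hs, map_zero]
      rw [h1]
      symm
      refine Finset.sum_eq_zero fun e _ => ?_
      rw [if_neg]
      rintro ⟨-, h3⟩
      exact hs (Sides.inA_some.1 h3).1

theorem DSt_of_dcAt {Q : QMod D k N} {w : Ln (Fin D.nV) S.nx} (hw : w.Ok S.ends) {ξ : ℤ → N →ₗ[k] k} {q : ℤ}
    {e : Bool} (h : DcAt Q S.ends w ξ q) (h' : w.lt e q ≠ 1 → DcAt Q S.ends w ξ (st e q)) :
    DSt Q w e q (ξ q) (ξ (st e q)) where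
  vx := by
    ext n
    rw [LinearMap.comp_apply, h.1, if_pos rfl]
  out := by
    intro h2
    have h3 := h' (by rw [h2]; decide)
    refine ⟨?_, fun γ hγ => ?_⟩
    · ext n
      rw [LinearMap.comp_apply, h3.1, if_pos rfl]
    · obtain ⟨γ', h4, h5⟩ := hw.out h2
      have h6 : γ' = γ := Option.some_inj.1 (h4.symm.trans hγ)
      subst h6
      ext n
      rw [LinearMap.comp_apply, h3.2 γ', wma_sum_in w (fun e' => ξ (st e' (st e q)) n) h5,
        if_pos (by rw [Ln.lt_back, h2]; rfl), st_not_st]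
  inn := by
    intro h0 β hβ
    ext n
    rw [LinearMap.comp_apply, h.2 β, wma_sum_in w (fun e => ξ (st e q) n) hβ, if_pos h0]
  fin := by
    intro h1 β hβ
    ext n
    rw [LinearMap.comp_apply, h.2 β, wma_sum_in w (fun e => ξ (st e q) n) hβ, if_neg (by rw [h1]; decide)]
    rfl

/-- the pairing is constant along the line -/
theorem pair_step {Q : QMod D k N} {w : Ln (Fin D.nV) S.nx} (hw : w.Ok S.ends) {e : Bool} {q : ℤ}
    {x y : N} {a b : N →ₗ[k] k} (hne : w.lt e q ≠ 1) (h : ESt Q w e q x y) (h' : DSt Q w e q a b) : b y = a x := by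
  rcases fin3_cases hne with h0 | h2
  · obtain ⟨β, h3, -⟩ := hw.inn h0
    rw [← (h.inn h0).2 β h3, ← h'.inn h0 β h3]
    rfl
  · obtain ⟨γ, h3, -⟩ := hw.out h2
    rw [← h.out h2 γ h3, ← (h'.out h2).2 γ h3]
    rfl

end StrAlg
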