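import Pool.Agent.Lib.MP_b9fd58_lc.WDef

/-!
# Linear compactness: systems of linear equations in nice modules (job WSa)
-/

set_option autoImplicit false

namespace StrAlg

open Module

variable {D : Dat} {k : Type} [Field k]

/-- A functional with prescribed values on a family of vectors exists if it exists for all finite subfamilies.

Proof: `Finsupp.linearCombination k t : (τ →₀ k) →ₗ Y` and `Finsupp.linearCombination k c : (τ →₀ k) →ₗ k`; the kernel of
the first is contained in the kernel of the second (finite support); so the second factors through the first (over a field: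
`LinearMap.range_dualMap_eq_dualAnnihilator_ker`, or extend from the range). -/
theorem wexists_functional {Y τ : Type} [AddCommGroup Y] [Module k Y] (t : τ → Y) (c : τ → k)
    (h : ∀ F : Finset τ, ∃ f : Y →ₗ[k] k, ∀ i ∈ F, f (t i) = c i) : ∃ f : Y →ₗ[k] k, ∀ i, f (t i) = c i := by
  classical
  let T : (τ →₀ k) →ₗ[k] Y := Finsupp.linearCombination k t
  let C : (τ →₀ k) →ₗ[k] k := Finsupp.linearCombination k c
  have hC : C ∈ (LinearMap.ker T).dualAnnihilator := by
    rw [Submodule.mem_dualAnnihilator]
    intro u hu
    obtain ⟨f, hf⟩ := h u.support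
    have h1 : C u = f (T u) := by
      simp only [C, T, Finsupp.linearCombination_apply, Finsupp.sum, map_sum, map_smul]
      exact Finset.sum_congr rfl (fun i hi => by rw [hf i hi])
    rw [h1, LinearMap.mem_ker.1 hu, map_zero]
  rw [← LinearMap.range_dualMap_eq_dualAnnihilator_ker] at hC
  obtain ⟨f, hf⟩ := hC
  refine ⟨f, fun i => ?_⟩
  have h2 := LinearMap.congr_fun hf (Finsupp.single i 1)
  simpa [T, C, LinearMap.dualMap_apply, Finsupp.linearCombination_single] using h2

/-- the value of a linear expression (list of words in the generators, coefficients and unknowns) -/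
def evE {ι : Type} {N : Type} [AddCommGroup N] [Module k N] (Q : QMod D k N) (e : List (List D.Gen × k × ι))
    (x : ι → N) : N := (e.map fun a => a.2.1 • Q.word a.1 (x a.2.2)).sum

theorem wsa_word_hom {M N : Md D k} {f : M.C →ₗ[k] N.C} (hf : M.Hom N f) (w : List D.Gen) (x : M.C) :
    f (M.Q.word w x) = N.Q.word w (f x) := by
  induction w generalizing x with
  | nil => rfl
  | cons g w ih =>
    show f (M.Q.word w (M.Q.op g x)) = N.Q.word w (N.Q.op g (f x))
    rw [ih, hf g x]

theorem evE_hom {ι : Type} {M N : Md D k} {f : M.C →ₗ[k] N.C} (hf : M.Hom N f) (e : List (List D.Gen × k × ι))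
    (x : ι → M.C) : f (evE M.Q e x) = evE N.Q e (fun j => f (x j)) := by
  unfold evE
  rw [map_list_sum, List.map_map]
  congr 1
  refine List.map_congr_left (fun a _ => ?_)
  simp only [Function.comp_apply, map_smul]
  rw [wsa_word_hom hf]

theorem wsa_foldl {α β : Type} (f : β → α → β) (g : α) (w : List α) (y : β) :
    (g :: w).reverse.foldl f y = f (w.reverse.foldl f y) g := by
  rw [List.reverse_cons, List.foldl_append]
  rfl

/-- the word operator on the codual -/
theorem wsa_word_codual (X : Md D.op k) (w : List D.Gen) (f : X.codual.C) (y : X.C) :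
    (show Dual k X.C from X.codual.Q.word w f) y = (show Dual k X.C from f) (X.Q.word w.reverse y) := by
  induction w generalizing f with
  | nil => rfl
  | cons g w ih =>
    show (show Dual k X.C from X.codual.Q.word w (X.codual.Q.op g f)) y = _
    rw [ih]
    have h1 : X.Q.word (g :: w).reverse y = X.Q.op g (X.Q.word w.reverse y) :=
      wsa_foldl (fun m g => X.Q.op g m) g w y
    rw [h1]
    rfl

/-- in the dual of `X`: by `wexists_functional` for `Y = ι →₀ X` and the index set `τ × X`
(`(X.Q.codual.word w f) y = f (X.Q.word w.reverse y)`) -/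
theorem wsat_codual (X : Md D.op k) {ι τ : Type} (e : τ → List (List D.Gen × k × ι)) (c : τ → X.codual.C)
    (h : ∀ F : Finset τ, ∃ x : ι → X.codual.C, ∀ t ∈ F, evE X.codual.Q (e t) x = c t) :
    ∃ x : ι → X.codual.C, ∀ t, evE X.codual.Q (e t) x = c t := by
  classical
  let T : τ × X.C → (ι →₀ X.C) := fun s =>
    ((e s.1).map fun a => a.2.1 • Finsupp.lsingle (R := k) a.2.2 (X.Q.word a.1.reverse s.2)).sum
  let C : τ × X.C → k := fun s => (show Dual k X.C from c s.1) s.2
  have key : ∀ (x : ι → X.codual.C) (f : (ι →₀ X.C) →ₗ[k] k),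
      (∀ i y, f (Finsupp.lsingle (R := k) i y) = (show Dual k X.C from x i) y) →
      ∀ (l : List (List D.Gen × k × ι)) (y : X.C),
        f ((l.map fun a => a.2.1 • Finsupp.lsingle (R := k) a.2.2 (X.Q.word a.1.reverse y)).sum) =
          (show Dual k X.C from evE (N := X.codual.C) X.codual.Q l x) y := by
    intro x f hf l y
    induction l with
    | nil =>
      rw [List.map_nil, List.sum_nil, map_zero]
      rfl
    | cons a l ih =>
      rw [List.map_cons, List.sum_cons, map_add, ih, LinearMap.map_smul, hf]
      have h2 : evE X.codual.Q (a :: l) x = a.2.1 • X.codual.Q.word a.1 (x a.2.2) + evE X.codual.Q l x := by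
        unfold evE
        rw [List.map_cons, List.sum_cons]
      rw [h2]
      have h3 := wsa_word_codual X a.1 (x a.2.2) y
      show a.2.1 • (show Dual k X.C from x a.2.2) (X.Q.word a.1.reverse y) + _ =
        a.2.1 • (show Dual k X.C from X.codual.Q.word a.1 (x a.2.2)) y + _
      rw [h3]
  obtain ⟨f, hf⟩ := wexists_functional T C (by
    intro F
    obtain ⟨x, hx⟩ := h (F.image Prod.fst)
    refine ⟨Finsupp.lsum k (fun i => (show Dual k X.C from x i)), fun s hs => ?_⟩
    have h1 := key x (Finsupp.lsum k (fun i => (show Dual k X.C from x i))) (fun i y => by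
      simp [Finsupp.lsum_apply, Finsupp.lsingle_apply, Finsupp.sum_single_index]) (e s.1) s.2
    show (Finsupp.lsum k (fun i => (show Dual k X.C from x i))) (T s) = C s
    refine h1.trans ?_
    rw [hx s.1 (Finset.mem_image_of_mem _ hs)])
  refine ⟨fun i => f ∘ₗ Finsupp.lsingle i, fun t => ?_⟩
  refine LinearMap.ext (fun y => ?_)
  have h1 := key (fun i => f ∘ₗ Finsupp.lsingle i) f (fun i y => rfl) (e t) y
  refine h1.symm.trans ?_
  exact hf (t, y)

/-- **a system of linear equations in a nice module is solvable if all finite subsystems are** -/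
theorem wsat {N : Md D k} (hN : N.Nice) {ι τ : Type} (e : τ → List (List D.Gen × k × ι)) (c : τ → N.C)
    (h : ∀ F : Finset τ, ∃ x : ι → N.C, ∀ t ∈ F, evE N.Q (e t) x = c t) :
    ∃ x : ι → N.C, ∀ t, evE N.Q (e t) x = c t := by
  obtain ⟨X, i, r, hi, hr, hri⟩ := hN
  obtain ⟨x, hx⟩ := wsat_codual X e (fun t => i (c t)) (by
    intro F
    obtain ⟨x, hx⟩ := h F
    refine ⟨fun j => i (x j), fun t ht => ?_⟩
    rw [← evE_hom hi, hx t ht])
  refine ⟨fun j => r (x j), fun t => ?_⟩
  rw [← evE_hom hr, hx t]
  exact LinearMap.congr_fun hri (c t)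

end StrAlg
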