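import Pool.Agent.Lib.MP_b9fd58_lc.WMb
import Pool.Agent.Lib.MP_b9fd58_lc.WSa

/-!
# An infinite chain near a given element (job W-T)
-/

set_option autoImplicit false

namespace StrAlg

open Module

variable {D : Dat} {k : Type} [Field k] {S : Sides D}

theorem wt_evE_nil {ι : Type} {N : Type} [AddCommGroup N] [Module k N] (Q : QMod D k N) (x : ι → N) :
    evE Q ([] : List (List D.Gen × k × ι)) x = 0 := rfl

theorem wt_evE_cons {ι : Type} {N : Type} [AddCommGroup N] [Module k N] (Q : QMod D k N) (a : List D.Gen × k × ι)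
    (l : List (List D.Gen × k × ι)) (x : ι → N) :
    evE Q (a :: l) x = a.2.1 • Q.word a.1 (x a.2.2) + evE Q l x := by
  unfold evE
  rw [List.map_cons, List.sum_cons]

theorem wt_word_nil {N : Type} [AddCommGroup N] [Module k N] (Q : QMod D k N) (x : N) : Q.word [] x = x := rfl

theorem wt_word_one {N : Type} [AddCommGroup N] [Module k N] (Q : QMod D k N) (g : D.Gen) (x : N) :
    Q.word [g] x = Q.op g x := rfl

/-- the finite systems: a window chain of radius `R` and two one-sided chains -/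
structure WtW (b : Str S) (N : Md D k) (p : ℤ) (m₀ : ℕ) (y : N.C) (R : ℕ) (x : ℤ ⊕ (Bool × ℕ) → N.C) : Prop where
  ch : ∀ q, (q - p).natAbs < R → ChAt N.Q S.ends b.L (fun q => x (Sum.inl q)) q
  sc : ∀ e, SCh N.Q b.L e p m₀ (fun j => x (Sum.inr (e, j)))
  z : ∀ e, x (Sum.inr (e, m₀)) = 0
  v : ∀ e, N.Q.op (Sum.inl (b.L.v p)) (x (Sum.inr (e, 0))) = x (Sum.inr (e, 0))
  y : x (Sum.inl p) - x (Sum.inr (false, 0)) - x (Sum.inr (true, 0)) = y

theorem WtW.mono {b : Str S} {N : Md D k} {p : ℤ} {m₀ : ℕ} {y : N.C} {R R' : ℕ} (hR : R ≤ R')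
    {x : ℤ ⊕ (Bool × ℕ) → N.C} (h : WtW b N p m₀ y R' x) : WtW b N p m₀ y R x where
  ch q hq := h.ch q (lt_of_lt_of_le hq hR)
  sc := h.sc
  z := h.z
  v := h.v
  y := h.y

theorem wt_lt_ne {b : Str S} (hb : ∀ p, b.L.lam p ≠ 1) (e : Bool) (q : ℤ) : b.L.lt e q ≠ 1 := by
  unfold Ln.lt
  cases e
  · simp only [Bool.false_eq_true, if_false]; exact Ln.rev_ne_one.2 (hb _)
  · exact hb q

theorem wt_reach {b : Str S} (hb : ∀ p, b.L.lam p ≠ 1) (p q : ℤ) : b.L.Reach p q := by
  have h1 : ∀ e (n : ℕ), b.L.Reach p (stn e n p) := fun e n => Ln.Reach.of_lt (fun j _ => wt_lt_ne hb _ _)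
  rcases (q - p).eq_nat_or_neg with ⟨n, hn | hn⟩
  · have := h1 true n
    rw [stn_true, ← hn] at this
    simpa using this
  · have := h1 false n
    have h2 : (n : ℤ) = -(q - p) := by omega
    rw [stn_false, h2] at this
    simpa using this

/-- the finite systems are solvable -/
theorem wt_exists (b : Str S) (hb : ∀ p, b.L.lam p ≠ 1) (N : Md D k) (p : ℤ) (m₀ : ℕ)
    (y : N.C) (h : ∀ m, ∃ y' ∈ N.Q.U S m (b.L.v p) (b.L.wd p), y' - y ∈ N.Q.B S m₀ (b.L.v p) (b.L.wd p)) (R : ℕ) :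
    ∃ x, WtW b N p m₀ y R x := by
  obtain ⟨y', hU, hB⟩ := h R
  obtain ⟨g, hg, hg'⟩ := window_of_up b.ok p R y' ((mem_U_iff p R y').1 hU)
  rw [B_eq, Submodule.mem_sup] at hB
  obtain ⟨a₀, h0, a₁, h1, h01⟩ := hB
  rw [mem_lo_iff b.ok false p m₀ (fun j _ => wt_lt_ne hb _ _)] at h0
  rw [mem_lo_iff b.ok true p m₀ (fun j _ => wt_lt_ne hb _ _)] at h1
  obtain ⟨v0, g0, g00, g01, g02⟩ := h0
  obtain ⟨v1, g1, g10, g11, g12⟩ := h1
  refine ⟨Sum.elim g (fun t => if t.1 then g1 t.2 else g0 t.2), ?_, ?_, ?_, ?_, ?_⟩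
  · intro q hq
    exact hg' q (wt_reach hb p q) hq
  · intro e
    cases e
    · exact g02
    · exact g12
  · intro e
    cases e
    · exact g01
    · exact g11
  · intro e
    cases e
    · show N.Q.op (Sum.inl (b.L.v p)) (g0 0) = g0 0
      rw [g00]; exact v0
    · show N.Q.op (Sum.inl (b.L.v p)) (g1 0) = g1 0
      rw [g10]; exact v1
  · show g p - g0 0 - g1 0 = y
    rw [hg, g00, g10, sub_sub, h01]
    abel

/-- Let `b` be a line without END, `N` nice, `y ∈ N`, `m₀` such that for every `m` there is an element of `U m` in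
`y + B m₀`. Then there is a chain `n` along `b` with `n p ∈ y + B m₀`.

Proof: `wsat` for the unknowns `ℤ ⊕ (Bool × ℕ)`: the values `g q` (`q : ℤ`) and one-sided chains `a e j`
(`e : Bool`, `j ≤ m₀`). Equations: the chain identities (`ChAt`) of `g` at every `q`; the identities `ESt` between
`a e j` and `a e (j+1)` for `j < m₀` (all linear equations in the words of length `≤ 1`), `a e m₀ = 0`;
`g p - a false 0 - a true 0 = y`. A finite subsystem involves `g` only in a window of some radius `m`: take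
`y' ∈ U (m+2)` from the hypothesis, the window chain of `window_of_up`, and `a` from `mem_lo_iff`. -/
theorem exists_chain_near (b : Str S) (hb : ∀ p, b.L.lam p ≠ 1) (N : Md D k) (hN : N.Nice) (p : ℤ) (m₀ : ℕ)
    (y : N.C) (h : ∀ m, ∃ y' ∈ N.Q.U S m (b.L.v p) (b.L.wd p), y' - y ∈ N.Q.B S m₀ (b.L.v p) (b.L.wd p)) :
    ∃ n ∈ b.Q N, n p - y ∈ N.Q.B S m₀ (b.L.v p) (b.L.wd p) := by
  classical
  obtain ⟨x, hx⟩ := wsat hN
    (τ := {t : List (List D.Gen × k × (ℤ ⊕ (Bool × ℕ))) × N.C // ∃ R, ∀ x, WtW b N p m₀ y R x → evE N.Q t.1 x = t.2})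
    (fun t => t.1.1) (fun t => t.1.2) (by
      intro F
      choose! R hR using fun t : {t : List (List D.Gen × k × (ℤ ⊕ (Bool × ℕ))) × N.C //
        ∃ R, ∀ x, WtW b N p m₀ y R x → evE N.Q t.1 x = t.2} => t.2
      obtain ⟨x, hx⟩ := wt_exists b hb N p m₀ y h (F.sup R)
      exact ⟨x, fun t ht => hR t x (hx.mono (Finset.le_sup ht))⟩)
  have key : ∀ (l : List (List D.Gen × k × (ℤ ⊕ (Bool × ℕ)))) (c : N.C) (R : ℕ),
      (∀ x, WtW b N p m₀ y R x → evE N.Q l x = c) → evE N.Q l x = c := by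
    intro l c R hl
    exact hx ⟨(l, c), R, hl⟩
  -- the identities
  have hy : x (Sum.inl p) - x (Sum.inr (false, 0)) - x (Sum.inr (true, 0)) = y := by
    have h1 := key [([], 1, Sum.inl p), ([], -1, Sum.inr (false, 0)), ([], -1, Sum.inr (true, 0))] y 0 (by
      intro x' hx'
      rw [wt_evE_cons, wt_evE_cons, wt_evE_cons, wt_evE_nil, ← hx'.y]
      simp only [wt_word_nil, one_smul, neg_smul, add_zero]
      abel)
    rw [wt_evE_cons, wt_evE_cons, wt_evE_cons, wt_evE_nil] at h1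
    simp only [wt_word_nil, one_smul, neg_smul, add_zero] at h1
    rw [← h1]
    abel
  have hz : ∀ e, x (Sum.inr (e, m₀)) = 0 := by
    intro e
    have h1 := key [([], 1, Sum.inr (e, m₀))] 0 0 (by
      intro x' hx'
      rw [wt_evE_cons, wt_evE_nil]
      simp only [wt_word_nil, one_smul, add_zero]
      exact hx'.z e)
    rw [wt_evE_cons, wt_evE_nil] at h1
    simpa only [wt_word_nil, one_smul, add_zero] using h1
  -- general identities `op g (x i) = x j`
  have key2 : ∀ (g : D.Gen) (i j : ℤ ⊕ (Bool × ℕ)) (R : ℕ),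
      (∀ x', WtW b N p m₀ y R x' → N.Q.op g (x' i) = x' j) → N.Q.op g (x i) = x j := by
    intro g i j R hl
    have h1 := key [([g], 1, i), ([], -1, j)] 0 R (by
      intro x' hx'
      rw [wt_evE_cons, wt_evE_cons, wt_evE_nil]
      simp only [wt_word_nil, wt_word_one, one_smul, neg_smul, add_zero]
      rw [hl x' hx', add_neg_cancel])
    rw [wt_evE_cons, wt_evE_cons, wt_evE_nil] at h1
    simp only [wt_word_nil, wt_word_one, one_smul, neg_smul, add_zero] at h1
    exact add_neg_eq_zero.1 h1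
  have hv : ∀ e, N.Q.op (Sum.inl (b.L.v p)) (x (Sum.inr (e, 0))) = x (Sum.inr (e, 0)) :=
    fun e => key2 _ _ _ 0 (fun x' hx' => hx'.v e)
  have hsc : ∀ e, SCh N.Q b.L e p m₀ (fun j => x (Sum.inr (e, j))) := by
    intro e j hj hne
    refine ⟨?_, ?_, ?_, ?_⟩
    · exact key2 _ _ _ 0 (fun x' hx' => (hx'.sc e j hj hne).vx)
    · intro h2 γ hγ
      exact key2 _ _ _ 0 (fun x' hx' => (hx'.sc e j hj hne).out h2 γ hγ)
    · intro h2
      exact ⟨key2 _ _ _ 0 (fun x' hx' => ((hx'.sc e j hj hne).inn h2).1),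
        fun β hβ => key2 _ _ _ 0 (fun x' hx' => ((hx'.sc e j hj hne).inn h2).2 β hβ)⟩
    · intro h2
      exact absurd h2 (wt_lt_ne hb _ _)
  have hch : ∀ q, ChAt N.Q S.ends b.L (fun q => x (Sum.inl q)) q := by
    intro q
    refine ⟨fun i => ?_, fun α => ?_⟩
    · have h1 := key [([Sum.inl i], 1, Sum.inl q), ([], -(if b.L.v q = i then 1 else 0), Sum.inl q)] 0
        ((q - p).natAbs + 1) (by
          intro x' hx'
          rw [wt_evE_cons, wt_evE_cons, wt_evE_nil]
          simp only [wt_word_nil, wt_word_one, one_smul, neg_smul, add_zero]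
          rw [(hx'.ch q (Nat.lt_succ_self _)).1 i]
          split_ifs <;> simp)
      rw [wt_evE_cons, wt_evE_cons, wt_evE_nil] at h1
      simp only [wt_word_nil, wt_word_one, one_smul, neg_smul, add_zero] at h1
      rw [add_neg_eq_zero.1 h1]
      split_ifs <;> simp
    · have h1 := key [([Sum.inr α], 1, Sum.inl q),
        ([], -(if b.L.lt true q = 2 ∧ S.ends.outA (b.L.v q) (b.L.sd true q) = some α then 1 else 0),
          Sum.inl (st true q)),
        ([], -(if b.L.lt false q = 2 ∧ S.ends.outA (b.L.v q) (b.L.sd false q) = some α then 1 else 0),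
          Sum.inl (st false q))] 0
        ((q - p).natAbs + 1) (by
          intro x' hx'
          rw [wt_evE_cons, wt_evE_cons, wt_evE_cons, wt_evE_nil]
          simp only [wt_word_nil, wt_word_one, one_smul, neg_smul, add_zero]
          rw [(hx'.ch q (Nat.lt_succ_self _)).2 α, Fintype.sum_bool]
          split_ifs <;> simp <;> abel)
      rw [wt_evE_cons, wt_evE_cons, wt_evE_cons, wt_evE_nil] at h1
      simp only [wt_word_nil, wt_word_one, one_smul, neg_smul, add_zero] at h1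
      rw [← neg_add, add_neg_eq_zero] at h1
      rw [h1, Fintype.sum_bool]
      split_ifs <;> simp
  refine ⟨fun q => x (Sum.inl q), ⟨hch, fun q hq => absurd (b.Z_univ hb q) hq⟩, ?_⟩
  rw [B_eq, Submodule.mem_sup]
  refine ⟨x (Sum.inr (false, 0)), ?_, x (Sum.inr (true, 0)), ?_, ?_⟩
  · rw [mem_lo_iff b.ok false p m₀ (fun j _ => wt_lt_ne hb _ _)]
    exact ⟨hv false, _, rfl, hz false, hsc false⟩
  · rw [mem_lo_iff b.ok true p m₀ (fun j _ => wt_lt_ne hb _ _)]
    exact ⟨hv true, _, rfl, hz true, hsc true⟩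
  · show x (Sum.inr (false, 0)) + x (Sum.inr (true, 0)) = x (Sum.inl p) - y
    rw [← hy]
    abel

end StrAlg
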