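import Mathlib

/-!
# One-sided words in three letters: lexicographic order and agreement

Letters `0 = IN`, `1 = END`, `2 = OUT`.
-/

set_option autoImplicit false

namespace StrAlg

/-- one-sided words; letters `0 = IN`, `1 = END`, `2 = OUT` -/
abbrev Wd : Type := ℕ → Fin 3

/-- lexicographic order -/
def WLe (u v : Wd) : Prop := ∀ n, (∀ i < n, u i = v i) → u n ≤ v n

/-- the words agree for `j` steps, without `END` -/
def Agr (u v : Wd) (j : ℕ) : Prop := ∀ i < j, u i = v i ∧ u i ≠ 1

/-- shift -/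
def Wd.sh (u : Wd) : Wd := fun n => u (n + 1)

/-- put a letter in front -/
def Wd.cons (x : Fin 3) (u : Wd) : Wd := fun n => Nat.casesOn n x u

@[simp] theorem Wd.cons_zero (x : Fin 3) (u : Wd) : Wd.cons x u 0 = x := rfl
@[simp] theorem Wd.cons_succ (x : Fin 3) (u : Wd) (n : ℕ) : Wd.cons x u (n + 1) = u n := rfl
@[simp] theorem Wd.sh_apply (u : Wd) (n : ℕ) : u.sh n = u (n + 1) := rfl

theorem Wd.cons_sh (u : Wd) : Wd.cons (u 0) u.sh = u := by
  funext n; cases n <;> rfl

theorem Wd.sh_cons (x : Fin 3) (u : Wd) : (Wd.cons x u).sh = u := rfl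

theorem WLe.refl (u : Wd) : WLe u u := fun _ _ => le_rfl

theorem WLe.of_eq {u v : Wd} (h : u = v) : WLe u v := h ▸ WLe.refl u

theorem WLe.trans {u v w : Wd} (h1 : WLe u v) (h2 : WLe v w) : WLe u w := by
  intro n hn
  have key : ∀ m ≤ n, (∀ i < m, v i = u i) := by
    intro m
    induction m with
    | zero => intro _ i hi; omega
    | succ m ih =>
      intro hm i hi
      have ih' := ih (by omega)
      rcases Nat.lt_succ_iff_lt_or_eq.1 hi with h | h
      · exact ih' i h
      · subst h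
        have a1 : u i ≤ v i := h1 i (fun j hj => (ih' j hj).symm)
        have a2 : v i ≤ w i := h2 i (fun j hj => (ih' j hj).trans (hn j (by omega)))
        have a3 : u i = w i := hn i (by omega)
        exact le_antisymm (a3 ▸ a2) a1
  have k := key n le_rfl
  exact (h1 n (fun i hi => (k i hi).symm)).trans (h2 n (fun i hi => (k i hi).trans (hn i hi)))

/-- sandwich: if `u ≤ v ≤ w` and `u`, `w` have the same first `n` letters then so does `v` -/
theorem WLe.sandwich {u v w : Wd} (h1 : WLe u v) (h2 : WLe v w) {n : ℕ}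
    (h : ∀ i < n, u i = w i) : ∀ i < n, v i = u i := by
  induction n with
  | zero => intro i hi; omega
  | succ n ih =>
    intro i hi
    have ih' := ih (fun i hi => h i (by omega))
    rcases Nat.lt_succ_iff_lt_or_eq.1 hi with h' | h'
    · exact ih' i h'
    · subst h'
      have a1 : u i ≤ v i := h1 i (fun j hj => (ih' j hj).symm)
      have a2 : v i ≤ w i := h2 i (fun j hj => (ih' j hj).trans (h j (by omega)))
      have a3 : u i = w i := h i (by omega)
      exact le_antisymm (a3 ▸ a2) a1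

theorem WLe.antisymm {u v : Wd} (h1 : WLe u v) (h2 : WLe v u) : u = v := by
  funext n
  exact (WLe.sandwich (n := n + 1) h1 h2 (fun _ _ => rfl) n (by omega)).symm

theorem WLe.total (u v : Wd) : WLe u v ∨ WLe v u := by
  classical
  by_cases h : ∃ n, u n ≠ v n
  · set n := Nat.find h with hn
    have h1 : u n ≠ v n := Nat.find_spec h
    have h2 : ∀ i < n, u i = v i := fun i hi => by
      have := Nat.find_min h hi
      simpa using this
    rcases lt_or_gt_of_ne h1 with h3 | h3
    · left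
      intro m hm
      rcases lt_trichotomy m n with h4 | h4 | h4
      · exact (h2 m h4).le
      · subst h4; exact h3.le
      · exact absurd (hm n h4) h1
    · right
      intro m hm
      rcases lt_trichotomy m n with h4 | h4 | h4
      · exact (h2 m h4).ge
      · subst h4; exact h3.le
      · exact absurd (hm n h4).symm h1
  · left
    intro m _
    by_contra h3
    exact h ⟨m, fun h4 => h3 h4.le⟩

/-- failure of `≤`: a first difference -/
theorem not_WLe_iff {u v : Wd} : ¬ WLe u v ↔ ∃ n, (∀ i < n, u i = v i) ∧ v n < u n := by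
  unfold WLe
  push Not
  rfl

theorem WLe_of_lt {u v : Wd} {n : ℕ} (h : ∀ i < n, u i = v i) (h' : u n < v n) : WLe u v := by
  intro m hm
  rcases lt_trichotomy m n with h4 | h4 | h4
  · exact (h m h4).le
  · subst h4; exact h'.le
  · exact absurd (hm n h4) h'.ne

theorem exists_lt_of_WLe_ne {u v : Wd} (h : WLe u v) (hne : u ≠ v) :
    ∃ n, (∀ i < n, u i = v i) ∧ u n < v n := by
  have : ¬ WLe v u := fun h' => hne (h.antisymm h')
  obtain ⟨n, h1, h2⟩ := not_WLe_iff.1 this
  exact ⟨n, fun i hi => (h1 i hi).symm, h2⟩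

theorem WLe_cons {x : Fin 3} {u v : Wd} : WLe (Wd.cons x u) (Wd.cons x v) ↔ WLe u v := by
  constructor
  · intro h n hn
    refine h (n + 1) ?_
    intro i hi
    cases i with
    | zero => rfl
    | succ i => exact hn i (by omega)
  · intro h n hn
    cases n with
    | zero => exact le_rfl
    | succ n => exact h n (fun i hi => hn (i + 1) (by omega))

theorem WLe_sh {u v : Wd} (h : u 0 = v 0) : WLe u.sh v.sh ↔ WLe u v := by
  rw [← Wd.cons_sh u, ← Wd.cons_sh v, h, WLe_cons, Wd.sh_cons, Wd.sh_cons]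

theorem Wd.cons_inj {x : Fin 3} {u v : Wd} : Wd.cons x u = Wd.cons x v ↔ u = v :=
  ⟨fun h => by funext n; exact congrFun h (n + 1), fun h => by rw [h]⟩

theorem Wd.sh_inj {u v : Wd} (h : u 0 = v 0) : u.sh = v.sh ↔ u = v :=
  ⟨fun h' => by rw [← Wd.cons_sh u, ← Wd.cons_sh v, h, h'], fun h' => by rw [h']⟩

theorem WLe.head_le {u v : Wd} (h : WLe u v) : u 0 ≤ v 0 := h 0 (fun i hi => by omega)

/-! ### agreement -/

theorem Agr.zero (u v : Wd) : Agr u v 0 := fun i hi => by omega

theorem Agr.mono {u v : Wd} {j j' : ℕ} (h : Agr u v j) (hj : j' ≤ j) : Agr u v j' :=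
  fun i hi => h i (lt_of_lt_of_le hi hj)

theorem Agr.symm {u v : Wd} {j : ℕ} (h : Agr u v j) : Agr v u j :=
  fun i hi => ⟨(h i hi).1.symm, (h i hi).1 ▸ (h i hi).2⟩

theorem Agr.comm {u v : Wd} {j : ℕ} : Agr u v j ↔ Agr v u j := ⟨Agr.symm, Agr.symm⟩

theorem Agr.trans {u v w : Wd} {j : ℕ} (h : Agr u v j) (h' : Agr v w j) : Agr u w j :=
  fun i hi => ⟨(h i hi).1.trans (h' i hi).1, (h i hi).2⟩

/-- sandwich for agreement -/
theorem Agr.sandwich {u v w : Wd} (h1 : WLe u v) (h2 : WLe v w) {j : ℕ} (h : Agr u w j) :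
    Agr u v j ∧ Agr v w j := by
  have := WLe.sandwich h1 h2 (fun i hi => (h i hi).1)
  refine ⟨fun i hi => ⟨(this i hi).symm, (h i hi).2⟩, fun i hi => ?_⟩
  exact ⟨(this i hi).trans (h i hi).1, (this i hi) ▸ (h i hi).2⟩

theorem Agr.sandwich_iff {u v w : Wd} (h1 : WLe u v) (h2 : WLe v w) {j : ℕ} :
    Agr u w j ↔ Agr u v j ∧ Agr v w j :=
  ⟨Agr.sandwich h1 h2, fun h => h.1.trans h.2⟩

theorem Agr_succ {u v : Wd} {j : ℕ} : Agr u v (j + 1) ↔ (u 0 = v 0 ∧ u 0 ≠ 1) ∧ Agr u.sh v.sh j := by
  constructor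
  · intro h
    exact ⟨h 0 (by omega), fun i hi => h (i + 1) (by omega)⟩
  · rintro ⟨h1, h2⟩ i hi
    cases i with
    | zero => exact h1
    | succ i => exact h2 i (by omega)

theorem Agr_succ' {u v : Wd} {j : ℕ} : Agr u v (j + 1) ↔ Agr u v j ∧ u j = v j ∧ u j ≠ 1 := by
  constructor
  · intro h
    exact ⟨h.mono (by omega), h j (by omega)⟩
  · rintro ⟨h1, h2⟩ i hi
    rcases Nat.lt_succ_iff_lt_or_eq.1 hi with h | h
    · exact h1 i h
    · subst h; exact h2

theorem Agr_cons {x : Fin 3} {u v : Wd} {j : ℕ} (hx : x ≠ 1) :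
    Agr (Wd.cons x u) (Wd.cons x v) (j + 1) ↔ Agr u v j := by
  rw [Agr_succ]
  simp [hx, Wd.sh_cons]

/-- the agreement is unbounded iff the words are equal and never end -/
theorem forall_Agr_iff {u v : Wd} : (∀ j, Agr u v j) ↔ u = v ∧ ∀ n, u n ≠ 1 := by
  constructor
  · intro h
    exact ⟨funext fun n => (h (n + 1) n (by omega)).1, fun n => (h (n + 1) n (by omega)).2⟩
  · rintro ⟨rfl, h⟩ j i _
    exact ⟨rfl, h i⟩

/-- the length of the agreement, when it is finite -/
theorem exists_Agr_length {u v : Wd} (h : ¬ ∀ j, Agr u v j) :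
    ∃ n, Agr u v n ∧ ¬ Agr u v (n + 1) := by
  classical
  push Not at h
  have h0 : Nat.find h ≠ 0 := fun h0 => Nat.find_spec h (h0 ▸ Agr.zero u v)
  obtain ⟨n, hn⟩ := Nat.exists_eq_succ_of_ne_zero h0
  refine ⟨n, ?_, ?_⟩
  · have := Nat.find_min h (m := n) (by omega)
    simpa using this
  · have := Nat.find_spec h
    rwa [hn] at this

end StrAlg
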