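import Pool.Agent.Lib.MP_b9fd58_lc.Win

/-!
# Stage 2: Theorem A, uniform version
-/

set_option autoImplicit false

namespace StrAlg

section
variable {ι : Type*} {nx : ι → Bool → Fin 3 → ι × Bool} {k : Type*} [Field k]

/-- **Theorem A**, combinatorial part, with an arbitrary value at the distinguished pair -/
theorem thmA_sum' {X w Y : Ln ι nx} {c γ : ℤ → k} (A B : Finset ℤ)
    {o₁ o' : Bool} {a₁ q₁ b₁ q₀ b₀ : ℤ} (m1 : Mt X w o₁ a₁ q₁) (l1 : LeD X w o₁ a₁ q₁) (m0 : Mt w Y o' q₀ b₀)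
    (l0 : LeD w Y o' q₀ b₀) (f0 : FinCl w Y o' q₀ b₀)
    (c0 : Cn w Y o' q₀ b₀ q₁ b₁)
    (hmin : ∀ a q q' b o'', Cn X w o₁ a₁ q₁ a q → Cn w Y o' q₀ b₀ q' b → Mt w w o'' q q' →
        LeD w w o'' q q' → q' ≠ q → OmS X Y c γ ((o₁ == o'') == o') a b = 0)
    {K : ℤ → ℤ → k} (hK : IsKer X Y K)
    (hA : ∀ a, a ∉ A → ∀ b, K a b = 0) (hB : ∀ b, b ∉ B → ∀ a, K a b = 0)
    (hK1 : ∀ a b, K a b ≠ 0 → ∃ q q', Cn X w o₁ a₁ q₁ a q ∧ Cn w Y o' q₁ b₁ q' b ∧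
      (q' ≠ q → ∃ o'', Mt w w o'' q q' ∧ LeD w w o'' q q')) :
    ∑ a ∈ A, ∑ b ∈ B, γ b * (c a) * K a b = K a₁ b₁ * OmS X Y c γ (o₁ == o') a₁ b₁ := by
  have m2 : Mt w Y o' q₁ b₁ := c0.mt.2 m0
  have l2 : LeD w Y o' q₁ b₁ := c0.le.2 l0
  have f2 : FinCl w Y o' q₁ b₁ := c0.fin.2 f0
  have f3 : FinCl X Y (o₁ == o') a₁ b₁ := by
    intro e
    obtain ⟨n, hn⟩ := f2 (e == o₁)
    exact ⟨n, fun h' => hn (AgD.sandwich l1 l2 h').2⟩
  rw [pair_one hK A B hA hB (o₀ := (o₁ == o')) (m1.trans m2) f3 ?_]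
  intro o a b hm hne hnc
  obtain ⟨q, q', h1, h2, h3⟩ := hK1 a b hne
  by_cases hq : q' = q
  · exfalso
    subst hq
    apply hnc
    have h4 : Mt X Y (o₁ == o') a b := (h1.mt.2 m1).trans (h2.mt.2 m2)
    exact ⟨hm.unique h4, h1.comp h2⟩
  · obtain ⟨o'', g1, g2⟩ := h3 hq
    have := hmin a q q' b o'' h1 (c0.trans h2) g1 g2 hq
    have h4 : Mt X Y ((o₁ == o'') == o') a b := ((h1.mt.2 m1).trans g1).trans (h2.mt.2 m2)
    rw [hm.unique h4]
    exact this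

end

section
variable {D : Dat} {k : Type} [Field k]
variable {nx : Fin D.nV → Bool → Fin 3 → Fin D.nV × Bool}

/-- **Theorem A**, uniform version: the graph maps depend only on the lines and on the coefficients, not on the module. -/
theorem thmA_unif {A : Ends (Fin D.nV) (Fin D.nE)} {w X Y : Ln (Fin D.nV) nx} (hX : X.Ok A)
    (hw : w.Ok A) (hY : Y.Ok A) {P : ℤ → Prop} (hsym : w.Asym P) (hcl : w.Cl P) {o₀ o' : Bool} {a₀ q₀ b₀ : ℤ}
    (hP : P q₀)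
    (aX : X.Abs a₀) (aw : w.Abs q₀) (aY : Y.Abs b₀)
    (m1 : Mt X w o₀ a₀ q₀) (l1 : LeD X w o₀ a₀ q₀) (f1 : FinCl X w o₀ a₀ q₀)
    (m2 : Mt w Y o' q₀ b₀) (l2 : LeD w Y o' q₀ b₀) (f2 : FinCl w Y o' q₀ b₀)
    (c γ : ℤ → k) (hom : OmS X Y c γ (o₀ == o') a₀ b₀ ≠ 0) :
    ∃ (o₁ : Bool) (a₁ q₁ b₁ : ℤ) (S T : Finset ℤ) (R : ℕ) (C : k), C ≠ 0 ∧
      ∀ (N : Type) [AddCommGroup N] [Module k N] (Q : QMod D k N) (g : ℤ → N) (ξ : ℤ → N →ₗ[k] k) (κ : k),
        (∀ q, w.Reach q₀ q → (q - q₀).natAbs ≤ R → ChAt Q A w g q ∧ DcAt Q A w ξ q ∧ ξ q (g q) = κ) →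
        (∀ a, ChAt Q A X (pull X w o₁ a₁ q₁ g) a) ∧ (∀ b, DcAt Q A Y (push w Y o' q₁ b₁ ξ) b) ∧
        (∀ a, a ∉ S → pull X w o₁ a₁ q₁ g a = 0) ∧ (∀ b, b ∉ T → push w Y o' q₁ b₁ ξ b = 0) ∧
        ∑ a ∈ S, ∑ b ∈ T, γ b * c a * (push w Y o' q₁ b₁ ξ b) (pull X w o₁ a₁ q₁ g a) = κ * C := by
  classical
  obtain ⟨o₁, a₁, q₁, b₁, ⟨q₂, cX⟩, m1', l1', f1', c0, hom', hmin⟩ := sel hsym hcl hP m1 l1 f1 f2 hom
  have m2' : Mt w Y o' q₁ b₁ := c0.mt.2 m2
  have l2' : LeD w Y o' q₁ b₁ := c0.le.2 l2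
  have f2' : FinCl w Y o' q₁ b₁ := c0.fin.2 f2
  have aX' : X.Abs a₁ := cX.abs_left aX
  have aw' : w.Abs q₁ := c0.abs_left aw
  have aY' : Y.Abs b₁ := c0.abs_right aY
  have rq₁ : w.Reach q₀ q₁ := c0.reach_left
  -- finite sets of positions
  set IX := Finset.Icc (a₁ - lenD X w o₁ false a₁ q₁) (a₁ + lenD X w o₁ true a₁ q₁) with hIX
  set Iw := Finset.Icc (q₁ - (lenD X w o₁ false a₁ q₁ + lenD X w o₁ true a₁ q₁))
      (q₁ + (lenD X w o₁ false a₁ q₁ + lenD X w o₁ true a₁ q₁)) with hIw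
  set Jw := Finset.Icc (q₁ - lenD w Y o' false q₁ b₁) (q₁ + lenD w Y o' true q₁ b₁) with hJw
  set JY := Finset.Icc (b₁ - (lenD w Y o' false q₁ b₁ + lenD w Y o' true q₁ b₁))
      (b₁ + (lenD w Y o' false q₁ b₁ + lenD w Y o' true q₁ b₁)) with hJY
  -- the radius
  set R : ℕ := ∑ q ∈ Iw, ∑ q' ∈ Jw, ((q - q₀).natAbs + (q' - q₀).natAbs + dfn w true q q' + dfn w false q q' + 1) with hR
  have hRle : ∀ q ∈ Iw, ∀ q' ∈ Jw, (q - q₀).natAbs + (q' - q₀).natAbs + dfn w true q q' + dfn w false q q' + 1 ≤ R := by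
    intro q hq q' hq'
    have h1 := Finset.single_le_sum (f := fun q => ∑ q' ∈ Jw, ((q - q₀).natAbs + (q' - q₀).natAbs + dfn w true q q' + dfn w false q q' + 1))
      (fun _ _ => Nat.zero_le _) hq
    have h2 := Finset.single_le_sum (f := fun q' => ((q - q₀).natAbs + (q' - q₀).natAbs + dfn w true q q' + dfn w false q q' + 1))
      (fun _ _ => Nat.zero_le _) hq'
    exact h2.trans h1
  refine ⟨o₁, a₁, q₁, b₁, IX, JY, R, _, hom', ?_⟩
  intro N _ _ Q g ξ κ hgξ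
  set f : ℤ → N := pull X w o₁ a₁ q₁ g with hf
  set η : ℤ → N →ₗ[k] k := push w Y o' q₁ b₁ ξ with hη
  -- membership of the classes
  have memI : ∀ a q, Cn X w o₁ a₁ q₁ a q → a ∈ IX ∧ q ∈ Iw := fun a q h => ⟨h.mem_Icc_left f1', h.mem_Icc_right f1'⟩
  have memJ : ∀ q b, Cn w Y o' q₁ b₁ q b → q ∈ Jw ∧ b ∈ JY := fun q b h => ⟨h.mem_Icc_left f2', h.mem_Icc_right f2'⟩
  have q₁I : q₁ ∈ Iw := (memI _ _ Cn.refl).2
  have q₁J : q₁ ∈ Jw := (memJ _ _ Cn.refl).1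
  have hwq : ∀ a q, Cn X w o₁ a₁ q₁ a q → w.Reach q₀ q ∧ (q - q₀).natAbs ≤ R := by
    intro a q h
    refine ⟨rq₁.trans h.reach_right, ?_⟩
    have := hRle q (memI a q h).2 q₁ q₁J
    omega
  have hwq' : ∀ q b, Cn w Y o' q₁ b₁ q b → w.Reach q₀ q ∧ (q - q₀).natAbs ≤ R := by
    intro q b h
    refine ⟨rq₁.trans h.reach_left, ?_⟩
    have := hRle q₁ q₁I q (memJ q b h).1
    omega
  have hfc : ∀ a, ChAt Q A X f a := pull_chain m1' l1' (fun a q h => (hgξ q (hwq a q h).1 (hwq a q h).2).1)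
  have hηc : ∀ b, DcAt Q A Y η b := push_chain m2' l2' (fun q b h => (hgξ q (hwq' q b h).1 (hwq' q b h).2).2.1)
  have hf0 : ∀ a, f a ≠ 0 → ∃ q, Cn X w o₁ a₁ q₁ a q := by
    intro a ha
    by_contra hcon
    exact ha (pull_zero hcon)
  have hη0 : ∀ b, η b ≠ 0 → ∃ q, Cn w Y o' q₁ b₁ q b := by
    intro b hb
    by_contra hcon
    exact hb (push_zero hcon)
  have hKH : KH A X Y (fun a b => η b (f a)) := by
    refine chain_KH hfc hηc ?_ ?_
    · intro a ha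
      obtain ⟨q, hq⟩ := hf0 a ha
      exact hq.abs_left aX'
    · intro b hb
      obtain ⟨q, hq⟩ := hη0 b hb
      exact hq.abs_right aY'
  have hK0 := hKH.isKer0 hX hY
  have hne1 : ∀ a b, η b (f a) ≠ 0 → f a ≠ 0 ∧ η b ≠ 0 := by
    intro a b h
    exact ⟨fun h0 => h (by rw [h0, map_zero]), fun h0 => h (by rw [h0, LinearMap.zero_apply])⟩
  have hK : IsKer X Y (fun a b => η b (f a)) := by
    refine hK0.isKer ?_
    intro o e a b hm hinf
    by_contra hne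
    -- the class is infinite, but the support is finite
    have h1 : ∀ n : ℕ, stn e n a ∈ IX := by
      intro n
      have h2 := hK0.walk hm (hinf n)
      rw [← h2] at hne
      obtain ⟨q, hq⟩ := hf0 _ (hne1 _ _ hne).1
      exact (memI _ _ hq).1
    obtain ⟨M, hM1, hM2⟩ : ∃ M : ℕ, a₁ + lenD X w o₁ true a₁ q₁ < a + M ∧ a - M < a₁ - lenD X w o₁ false a₁ q₁ :=
      ⟨(a - (a₁ - lenD X w o₁ false a₁ q₁)).natAbs + ((a₁ + lenD X w o₁ true a₁ q₁) - a).natAbs + 1,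
        by omega, by omega⟩
    have h3 := h1 M
    rw [hIX, Finset.mem_Icc] at h3
    cases e
    · rw [stn_false] at h3; omega
    · rw [stn_true] at h3; omega
  refine ⟨hfc, hηc, ?_, ?_, ?_⟩
  · intro a ha
    by_contra hne
    obtain ⟨q, hq⟩ := hf0 a hne
    exact ha (memI _ _ hq).1
  · intro b hb
    by_contra hne
    obtain ⟨q, hq⟩ := hη0 b hne
    exact hb (memJ _ _ hq).2
  · refine (thmA_sum' (K := fun a b => η b (f a)) IX JY m1' l1' m2 l2 f2 c0 hmin hK ?_ ?_ ?_).trans ?_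
    · intro a ha b
      by_contra hne
      obtain ⟨q, hq⟩ := hf0 a (hne1 _ _ hne).1
      exact ha (memI _ _ hq).1
    · intro b hb a
      by_contra hne
      obtain ⟨q, hq⟩ := hη0 b (hne1 _ _ hne).2
      exact hb (memJ _ _ hq).2
    · intro a b hne
      obtain ⟨q, hq⟩ := hf0 a (hne1 _ _ hne).1
      obtain ⟨q', hq'⟩ := hη0 b (hne1 _ _ hne).2
      refine ⟨q, q', hq, hq', fun _ => ?_⟩
      have hval : η b (f a) = ξ q' (g q) := by
        rw [hη, hf, pull_eq hq, push_eq hq']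
      rw [hval] at hne
      have hSq := hgξ q (hwq a q hq).1 (hwq a q hq).2
      have hSq' := hgξ q' (hwq' q' b hq').1 (hwq' q' b hq').2
      have hv : w.v q = w.v q' := chain_vx hSq.1 hSq'.2.1 hne
      have hm : Mt w w (w.r q == w.r q') q q' := ⟨hv, rfl⟩
      refine ⟨_, hm, ?_⟩
      set o'' := (w.r q == w.r q')
      by_contra hcon
      have hx : ∃ x : Bool × ℕ, (∀ i < x.2, w.wdd (x.1 == o'') q' i = w.wdd x.1 q i) ∧
          w.wdd x.1 q x.2 < w.wdd (x.1 == o'') q' x.2 := by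
        unfold LeD at hcon
        push Not at hcon
        obtain ⟨e, he⟩ := hcon
        obtain ⟨n, h1, h2⟩ := not_WLe_iff.1 he
        exact ⟨(e, n), h1, h2⟩
      have hdf : dfn w o'' q q' = hx.choose.2 := by
        unfold dfn
        rw [dif_pos hx]
      obtain ⟨g1, g2⟩ := hx.choose_spec
      set e := hx.choose.1
      set n := hx.choose.2
      have hRn := hRle q (memI _ _ hq).2 q' (memJ _ _ hq').1
      have hn : n + 1 + (q - q₀).natAbs ≤ R ∧ n + 1 + (q' - q₀).natAbs ≤ R := by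
        rw [← hdf]
        cases o'' <;> omega
      have absq : w.Abs q := (hwq a q hq).1.abs aw
      have absq' : w.Abs q' := (hwq' q' b hq').1.abs aw
      have hne2 : ∀ i < n, w.lt e (stn e i q) ≠ 1 := by
        intro i hi hi1
        have h3 := absq e i n hi.le hi1
        have h4 : w.lt (e == o'') (stn (e == o'') i q') = 1 := by
          have := g1 i hi
          rw [Ln.wdd_apply, Ln.wdd_apply] at this
          rw [this, hi1]
        have h5 := absq' (e == o'') i n hi.le h4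
        rw [Ln.wdd_apply, Ln.wdd_apply, h3, h5] at g2
        exact lt_irrefl _ g2
      have hag : AgD w w o'' e q q' n := by
        intro i hi
        exact ⟨(g1 i hi).symm, by rw [Ln.wdd_apply]; exact hne2 i hi⟩
      rw [Ln.wdd_apply, Ln.wdd_apply] at g2
      refine win_not_lt hw hw (K := fun a b => ξ b (g a)) (SX := fun q => w.Reach q₀ q ∧ (q - q₀).natAbs ≤ R)
        (SY := fun q => w.Reach q₀ q ∧ (q - q₀).natAbs ≤ R) ?_ hm hne hag ?_ ?_ g2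
      · intro a b ha hb
        exact chain_ar (hgξ a ha.1 ha.2).1 (hgξ b hb.1 hb.2).2.1
      · intro i hi hj
        refine ⟨(hwq a q hq).1.trans (Ln.Reach.of_lt hj), ?_⟩
        have := hn.1
        cases e <;> simp <;> omega
      · intro i hi hj
        refine ⟨(hwq' q' b hq').1.trans (Ln.Reach.of_lt hj), ?_⟩
        have := hn.2
        cases (e == o'') <;> simp <;> omega
    · have h5 : η b₁ (f a₁) = κ := by
        rw [hη, hf, pull_eq Cn.refl, push_eq Cn.refl]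
        exact (hgξ q₁ (hwq a₁ q₁ Cn.refl).1 (hwq a₁ q₁ Cn.refl).2).2.2
      rw [h5]


end

end StrAlg
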