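import Pool.Agent.Lib.MP_b9fd58_lc.ThA2

/-!
# Stage 2, job YDa: the order of the graph maps from `w` to a periodic line
-/

set_option autoImplicit false

namespace StrAlg

variable {ι : Type*} {nx : ι → Bool → Fin 3 → ι × Bool}

/-- `y` gets a contribution from the graph map based at `x` (positions of `Y` modulo `lY`) -/
def RB (w Y : Ln ι nx) (lY : ℕ) (x y : ℤ × ZMod lY) : Prop :=
  ∃ (o o'' : Bool) (q' b : ℤ), Mt w Y o x.1 (cst x.2) ∧ LeD w Y o x.1 (cst x.2) ∧ FinCl w Y o x.1 (cst x.2) ∧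
    Cn w Y o x.1 (cst x.2) q' b ∧ (b : ZMod lY) = y.2 ∧ Mt w w o'' y.1 q' ∧ LeD w w o'' y.1 q' ∧ y.1 ≠ q'

theorem yda_wdd {L : Ln ι nx} {l : ℕ} (h : L.IsPer l) (e : Bool) (a m : ℤ) :
    L.wdd e (a + m * l) = L.wdd e a := by
  funext n
  rw [Ln.wdd_apply, Ln.wdd_apply]
  have : stn e n (a + m * l) = stn e n a + m * l := by cases e <;> simp <;> ring
  rw [this, (h.lt e).mul]

theorem yda_mt {X Y : Ln ι nx} {l : ℕ} (h : Y.IsPer l) {o : Bool} {a b : ℤ} (m : ℤ) :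
    Mt X Y o a (b + m * l) ↔ Mt X Y o a b := by
  unfold Mt
  rw [h.v.mul, h.r.mul]

theorem yda_led {X Y : Ln ι nx} {l : ℕ} (h : Y.IsPer l) {o : Bool} {a b : ℤ} (m : ℤ) :
    LeD X Y o a (b + m * l) ↔ LeD X Y o a b := by
  unfold LeD
  simp only [yda_wdd h]

theorem yda_agd {X Y : Ln ι nx} {l : ℕ} (h : Y.IsPer l) {o e : Bool} {a b : ℤ} {n : ℕ} (m : ℤ) :
    AgD X Y o e a (b + m * l) n ↔ AgD X Y o e a b n := by
  unfold AgD
  rw [yda_wdd h]

theorem yda_cn {X Y : Ln ι nx} {l : ℕ} (h : Y.IsPer l) {o : Bool} {a b a' b' : ℤ} (m : ℤ)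
    (hc : Cn X Y o a b a' b') : Cn X Y o a (b + m * l) a' (b' + m * l) := by
  obtain ⟨e, n, h1, rfl, rfl⟩ := hc
  refine ⟨e, n, (yda_agd h m).2 h1, rfl, ?_⟩
  cases (e == o) <;> simp <;> ring

/-- the key step of the irreflexivity, for words: `u` agrees with `y` for exactly `M ≥ n ≥ 1` steps, `y` has the period
`n`, and `y ≤ u.shift n ≤ u` is impossible -/
theorem yda_words {u u' y : Wd} {n M : ℕ} (hn : n ≠ 0) (hnM : n ≤ M) (h1 : Agr u y M) (h2 : ¬ Agr u y (M + 1))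
    (hu : ∀ i, u' i = u (n + i)) (hy : ∀ i, y (n + i) = y i) (h3 : WLe y u') (h4 : WLe u' u) : False := by
  apply h2
  rw [Agr_succ']
  refine ⟨h1, ?_⟩
  have h5 : ∀ i < M, u' i = y i := WLe.sandwich h3 h4 (fun i hi => ((h1 i hi).1).symm)
  have h6 := h5 (M - n) (by omega)
  have h7 : u' (M - n) = u M := by
    rw [hu]
    congr 1
    omega
  have h8 : y M = y (M - n) := by
    rw [← hy (M - n)]
    congr 1
    omega
  have h9 : u M = y M := by rw [← h7, h6, h8]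
  refine ⟨h9, ?_⟩
  rw [h9, h8, ← (h1 (M - n) (by omega)).1]
  exact (h1 (M - n) (by omega)).2

/-- Proof: let `x = (q, z)`, `r := cst z`. `b ≡ r` modulo `lY`, so `Y.v b = Y.v r`, `Y.r b = Y.r r` and `Y.wdd e b = Y.wdd e r` (`Ln.IsPer`). From `Mt w Y o q r` and
`Mt w Y o q' b` (`Cn.mt`): `w.r q = w.r q'`, so `o'' = true`. `Cn`: `q' = stn e n q`, `AgD w Y o e q r n`, `n ≠ 0`. Let `M` be the exact agreement length in direction `e` at `(q, r)`
(`lenD_spec` of `FinCl`), `M ≥ n`. At `(q', b)` the exact agreement length in direction `e` is `M - n`, and by `LeD w Y` at `(q', b)` (`Cn.le`) the letter of `w` number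
`M - n` from `q'` in direction `e` is bigger than the letter of `Y` number `M - n` from `b`, which equals the letter number `M - n` of `Y` from `r`, which equals (`M - n < M`) the letter
of `w` number `M - n` from `q`. And the letters before agree. So `w.wdd e q' > w.wdd e q`, contradiction to `LeD w w true q q'` (`WLe (w.wdd e q') (w.wdd e q)`). -/
theorem RB.irrefl {w Y : Ln ι nx} {lY : ℕ} (hY : Y.IsPer lY) (x : ℤ × ZMod lY) : ¬ RB w Y lY x x := by
  obtain ⟨q, z⟩ := x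
  rintro ⟨o, o'', q', b, hm, hl0, hf, hc, hb, hm', hl', hne⟩
  simp only at hm hl0 hf hc hb hm' hl' hne
  obtain ⟨j, hj⟩ := cst_int (l := lY) b
  rw [hb] at hj
  have hmb : Mt w Y o q' b := hc.mt.2 hm
  have hmq : Mt w Y o q b := by
    rw [hj] at hm
    exact (yda_mt hY j).1 hm
  have ho : o'' = true := by
    have h1 := hm'.2
    have h2 := hmb.2
    have h3 := hmq.2
    cases hw1 : w.r q <;> cases hw2 : w.r q' <;> cases hy1 : Y.r b <;> cases o <;> simp_all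
  subst ho
  obtain ⟨e, n, hag, hq', hb'⟩ := hc
  have hn : n ≠ 0 := by
    rintro rfl
    apply hne
    rw [hq']
    simp
  obtain ⟨hM1, hM2⟩ := lenD_spec (hf e)
  set M := lenD w Y o e q (cst z) with hM
  have hnM : n ≤ M := by
    by_contra hcon
    exact hM2 (hag.mono (by omega))
  have hyb : Y.wdd (e == o) b = Y.wdd (e == o) (cst z) := by
    rw [hj, yda_wdd hY]
  have hlb : LeD w Y o q' b := (Cn.le ⟨e, n, hag, hq', hb'⟩).2 hl0
  refine yda_words (u := w.wdd e q) (u' := w.wdd e q') (y := Y.wdd (e == o) (cst z)) hn hnM hM1 hM2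
    ?_ ?_ ?_ ?_
  · intro i
    rw [hq', Ln.wdd_stn]
  · intro i
    rw [← Ln.wdd_stn, ← hb', hyb]
  · have := hlb e
    rwa [hyb] at this
  · have := hl' e
    rwa [show (e == true) = e by cases e <;> rfl] at this

/-- Proof (see `RA.trans` in ThA2.lean, this is the mirrored statement): let `x = (q₁, z₁)`, `y = (q₂, z₂)`, `z = (q₃, z₃)`; `RB x y` gives `(q', b)` in the class of
`(q₁, cst z₁)` (orientation `o₁`), `b ≡ z₂`, `LeD w w o'' q₂ q'`; `RB y z` gives `(p', c)` in the class of `(q₂, cst z₂)` (orientation `o₂`), `c ≡ z₃`, `LeD w w o''' q₃ p'`.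
Shift the second class by a multiple of `lY`: `Cn w Y o₂ q₂ b p' c'` with `c' ≡ z₃` (`b = cst z₂ + j lY`). `o₂ = (o'' == o₁)` (`Mt.unique`, `Mt.trans`). The path from `(q₂, b)` to
`(p', c')`: `AgD w Y o₂ e q₂ b n`; `AgD.sandwich` with `LeD w w o'' q₂ q'` and `LeD w Y o₁ q' b` gives `AgD w w o'' e q₂ q' n` and `AgD w Y o₁ (e == o'') q' b n`. Let `p'' := stn (e == o'') n q'`.
Then `Cn w Y o₁ q₁ (cst z₁) p'' c'` (`Cn.trans`), `Mt w w o'' p' p''`, `LeD w w o'' p' p''` (`Cn.mt`, `Cn.le`), so `LeD w w (o''' == o'') q₃ p''` (`LeD.trans`). If `q₃ = p''` then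
`LeD w w o'' p' q₃` and `LeD w w o''' q₃ p'`, `o''' = o''`, so `p' = q₃` by `LeD.antisymm` and `hsym` (the positions satisfy `P`, `Ln.Cl.walk`), contradiction. -/
theorem RB.trans {w Y : Ln ι nx} {lY : ℕ} (hY : Y.IsPer lY) {P : ℤ → Prop} (hsym : w.Asym P) (hcl : w.Cl P)
    {x y z : ℤ × ZMod lY} (hPx : P x.1) (hPy : P y.1) (hPz : P z.1) (h1 : RB w Y lY x y) (h2 : RB w Y lY y z) :
    RB w Y lY x z := by
  obtain ⟨q₁, z₁⟩ := x
  obtain ⟨q₂, z₂⟩ := y
  obtain ⟨q₃, z₃⟩ := z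
  obtain ⟨o₁, o'', q', b, m1, l1, f1, c1, hb, m1', l1', n1⟩ := h1
  obtain ⟨o₂, o₃, p', c, m2, l2, f2, c2, hc, m2', l2', n2⟩ := h2
  simp only at *
  obtain ⟨j, hj⟩ := cst_int (l := lY) b
  rw [hb] at hj
  have hbj : b = cst z₂ + (-j) * lY := by rw [hj]; ring
  have m2s : Mt w Y o₂ q₂ b := by rw [hbj]; exact (yda_mt hY _).2 m2
  have c2s : Cn w Y o₂ q₂ b p' (c + (-j) * lY) := by
    have := yda_cn hY (-j) c2
    rwa [← hbj] at this
  have mb : Mt w Y o₁ q' b := c1.mt.2 m1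
  have lb : LeD w Y o₁ q' b := c1.le.2 l1
  have ho : o₂ = (o'' == o₁) := m2s.unique (m1'.trans mb)
  subst ho
  obtain ⟨e, n, hag, rfl, hc'⟩ := c2s
  obtain ⟨s1, s2⟩ := AgD.sandwich l1' lb hag
  have cw : Cn w w o'' q₂ q' (stn e n q₂) (stn (e == o'') n q') := ⟨e, n, s1, rfl, rfl⟩
  have m4 : Mt w w o'' (stn e n q₂) (stn (e == o'') n q') := cw.mt.2 m1'
  have l4 : LeD w w o'' (stn e n q₂) (stn (e == o'') n q') := cw.le.2 l1'
  have he : (e == (o'' == o₁)) = ((e == o'') == o₁) := by cases e <;> cases o'' <;> cases o₁ <;> rfl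
  have c3 : Cn w Y o₁ q' b (stn (e == o'') n q') (c + (-j) * lY) :=
    ⟨e == o'', n, s2, rfl, by rw [hc', he]⟩
  refine ⟨o₁, (o₃ == o''), stn (e == o'') n q', c + (-j) * lY, m1, l1, f1, c1.trans c3, ?_,
    m2'.trans m4, l2'.trans l4, ?_⟩
  · simp only
    push_cast
    rw [hc]
    simp
  · intro heq
    simp only at heq
    apply n2
    have m5 : Mt w w o'' (stn e n q₂) q₃ := by rw [heq]; exact m4
    have l5 : LeD w w o'' (stn e n q₂) q₃ := by rw [heq]; exact l4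
    have ho : o₃ = o'' := m2'.symm.unique m5
    subst ho
    have hPp : P (stn e n q₂) := hcl.walk' hPy s1
    exact hsym _ _ _ hPz hPp m2' (LeD.antisymm l2' l5)

end StrAlg
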