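import Pool.Agent.Lib.MP_b9fd58_lc.Win

/-!
# Stage 2, job YEb: decomposition of the values of a kernel into the values of graph maps
-/

set_option autoImplicit false

namespace StrAlg

open Module

variable {D : Dat} {k : Type} [Field k] {nx : Fin D.nV → Bool → Fin 3 → Fin D.nV × Bool}

/-- A kernel `F` from a periodic line `X` to `w` with finite classes and finitely many nonzero columns: the function `q ↦ ∑_x F(x, q)(c x)` is a finite sum of values of graph maps.

Proof by strong induction on the number of pairs `(x, q) ∈ A ×ˢ E` with `F (cst x) q ≠ 0`. If there are none, `n = 0`. Otherwise let `(x₀, q₀)` be one, `a₀ := cst x₀`,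
`o := (X.r a₀ == w.r q₀)`: `Mt X w o a₀ q₀` (`IsKer.vx`), `LeD` (`IsKer.le`), `FinCl` (`IsKer.fin` for both directions). Let `Cl p q := ∃ j : ℤ, Cn X w o a₀ q₀ (p + j * lX) q` and
`F' p q := if Cl p q then 0 else F p q`. (1) `F'` is again `IsKer` (`Cl` is stable under steps: if `Mt X w o' p q`, `Lk X w o' true p q` then `Cl p q ↔ Cl (st true p) (st (true == o') q)`: on a class the
orientation is `o` (`Cn.mt`, periodicity of `X.v`, `X.r`, `Mt.unique`), and a step through the same letter is `Cn` (`Cn.trans`, `X.lt` is periodic)), satisfies `hT`, `hA`, `hE`, and has fewer nonzero pairs.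
(2) `∑_{x ∈ A} (F - F') (cst x) q (c (cst x)) = push X w o a₀ q₀ (fun c' => F a₀ q₀ (c c')) q`: if `Cn X w o a₀ q₀ c' q` for some `c'` (unique, `Cn.unique_left`), then `F c' q = F a₀ q₀ ≠ 0` (`Cn.ker`), the class
`x := (c' : ZMod lX)` is in `A` (otherwise `F (cst x) q = 0` and by periodicity `F c' q = 0`), it is the only `x` with `Cl (cst x) q`, and `F (cst x) q (c (cst x)) = F c' q (c c')` since `p ↦ F p q (c p)` has the
period `lX` (`hT`, `hc`); if there is no such `c'` both sides are `0`. -/
theorem dec_in {X w : Ln (Fin D.nV) nx} {lX : ℕ} (hX : X.IsPer lX) {V : Type} [AddCommGroup V] [Module k V]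
    (T : V ≃ₗ[k] V) (F : ℤ → ℤ → V →ₗ[k] k) (hF : IsKer X w F) (hT : ∀ p q v, F (p + lX) q v = F p q (T v))
    (c : ℤ → V) (hc : ∀ p, T (c (p + lX)) = c p) (A : Finset (ZMod lX)) (hA : ∀ x, x ∉ A → ∀ q, F (cst x) q = 0)
    (E : Finset ℤ) (hE : ∀ q, q ∉ E → ∀ p, F p q = 0) :
    ∃ (n : ℕ) (o : Fin n → Bool) (c₀ q₀ : Fin n → ℤ) (φ : Fin n → V →ₗ[k] k),
      (∀ i, Mt X w (o i) (c₀ i) (q₀ i) ∧ LeD X w (o i) (c₀ i) (q₀ i) ∧ FinCl X w (o i) (c₀ i) (q₀ i) ∧
        F (c₀ i) (q₀ i) ≠ 0) ∧
      ∀ q, ∑ x ∈ A, F (cst x) q (c (cst x)) = ∑ i, push X w (o i) (c₀ i) (q₀ i) (fun c' => φ i (c c')) q := by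
  classical
  obtain ⟨N, hN⟩ : ∃ N, N = ((A ×ˢ E).filter (fun z => F (cst z.1) z.2 ≠ 0)).card := ⟨_, rfl⟩
  induction N using Nat.strong_induction_on generalizing F with
  | _ N ih =>
    by_cases hemp : ((A ×ˢ E).filter (fun z => F (cst z.1) z.2 ≠ 0)) = ∅
    · refine ⟨0, Fin.elim0, Fin.elim0, Fin.elim0, Fin.elim0, fun i => i.elim0, fun q => ?_⟩
      rw [Fin.sum_univ_zero]
      refine Finset.sum_eq_zero fun x hx => ?_
      have h0 : F (cst x) q = 0 := by
        by_contra hne
        have hq : q ∈ E := by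
          by_contra hq
          exact hne (hE q hq _)
        have h1 : (x, q) ∈ (A ×ˢ E).filter (fun z => F (cst z.1) z.2 ≠ 0) := by
          rw [Finset.mem_filter, Finset.mem_product]
          exact ⟨⟨hx, hq⟩, hne⟩
        rw [hemp] at h1
        exact absurd h1 (Finset.notMem_empty _)
      rw [h0, LinearMap.zero_apply]
    · obtain ⟨⟨x₀, q₀⟩, hz⟩ := Finset.nonempty_iff_ne_empty.2 hemp
      rw [Finset.mem_filter, Finset.mem_product] at hz
      obtain ⟨⟨hx₀, hq₀⟩, hne₀⟩ := hz
      obtain ⟨a₀, ha₀⟩ : ∃ a₀, a₀ = cst x₀ := ⟨_, rfl⟩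
      have hne1 : F a₀ q₀ ≠ 0 := by rw [ha₀]; exact hne₀
      obtain ⟨o, ho⟩ : ∃ o, o = (X.r a₀ == w.r q₀) := ⟨_, rfl⟩
      have hm0 : Mt X w o a₀ q₀ := ⟨hF.vx _ _ hne1, ho.symm⟩
      have hl0 : LeD X w o a₀ q₀ := hF.le _ _ _ hm0 hne1
      have hf0 : FinCl X w o a₀ q₀ := fun e => hF.fin o e _ _ hm0 hne1
      let Cl : ℤ → ℤ → Prop := fun p q => ∃ j : ℤ, Cn X w o a₀ q₀ (p + j * lX) q
      let F' : ℤ → ℤ → V →ₗ[k] k := fun p q => if Cl p q then 0 else F p q
      have hF'1 : ∀ p q, Cl p q → F' p q = 0 := fun p q h => if_pos h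
      have hF'2 : ∀ p q, ¬ Cl p q → F' p q = F p q := fun p q h => if_neg h
      have hF'ne : ∀ p q, F' p q ≠ 0 → ¬ Cl p q ∧ F p q ≠ 0 := by
        intro p q h
        by_cases hcl : Cl p q
        · exact absurd (hF'1 p q hcl) h
        · rw [hF'2 p q hcl] at h
          exact ⟨hcl, h⟩
      have hperM : ∀ (o' : Bool) (p j q : ℤ), Mt X w o' (p + j * lX) q → Mt X w o' p q := by
        intro o' p j q h
        refine ⟨?_, ?_⟩
        · rw [← hX.v.mul p j]
          exact h.1
        · rw [← hX.r.mul p j]
          exact h.2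
      have hperL : ∀ (o' e : Bool) (p j q : ℤ), Lk X w o' e p q → Lk X w o' e (p + j * lX) q := by
        intro o' e p j q h
        unfold Lk
        rw [(hX.lt e).mul p j]
        exact h
      have hstj : ∀ (e : Bool) (p j : ℤ), st e (p + j * lX) = st e p + j * lX := by
        intro e p j
        cases e
        · rw [st_false, st_false]; ring
        · rw [st_true, st_true]; ring
      have hstep1 : ∀ (o' e : Bool) (p q : ℤ), Mt X w o' p q → Lk X w o' e p q → Cl p q →
          Cl (st e p) (st (e == o') q) := by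
        rintro o' e p q hm hl ⟨j, hj⟩
        have h1 : Mt X w o p q := hperM _ _ j _ (hj.mt.2 hm0)
        have h2 : o = o' := h1.unique hm
        subst h2
        refine ⟨j, ?_⟩
        rw [← hstj]
        exact hj.of_lk (hperL _ _ _ j _ hl)
      have hstep : ∀ (o' : Bool) (p q : ℤ), Mt X w o' p q → Lk X w o' true p q →
          (Cl (st true p) (st (true == o') q) ↔ Cl p q) := by
        intro o' p q hm hl
        constructor
        · intro h
          have h1 := hstep1 o' (!true) _ _ (hm.step hl) hl.back h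
          rw [beq_not, st_not_st, st_not_st] at h1
          exact h1
        · exact hstep1 o' true p q hm hl
      have hK' : IsKer X w F' := by
        refine ⟨?_, ?_, ?_, ?_⟩
        · intro a q h
          exact hF.vx a q (hF'ne a q h).2
        · intro o' a q hm h
          exact hF.le o' a q hm (hF'ne a q h).2
        · intro o' a q hm hl
          by_cases hcl : Cl a q
          · rw [hF'1 a q hcl, hF'1 _ _ ((hstep o' a q hm hl).2 hcl)]
          · rw [hF'2 a q hcl, hF'2 _ _ (fun h => hcl ((hstep o' a q hm hl).1 h))]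
            exact hF.step o' a q hm hl
        · intro o' e a q hm h
          exact hF.fin o' e a q hm (hF'ne a q h).2
      have hClT : ∀ p q, Cl (p + lX) q ↔ Cl p q := by
        intro p q
        constructor
        · rintro ⟨j, hj⟩
          refine ⟨j + 1, ?_⟩
          have e1 : p + (j + 1) * lX = p + lX + j * lX := by ring
          rw [e1]
          exact hj
        · rintro ⟨j, hj⟩
          refine ⟨j - 1, ?_⟩
          have e1 : p + lX + (j - 1) * lX = p + j * lX := by ring
          rw [e1]
          exact hj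
      have hT' : ∀ p q v, F' (p + lX) q v = F' p q (T v) := by
        intro p q v
        by_cases hcl : Cl p q
        · rw [hF'1 p q hcl, hF'1 _ _ ((hClT p q).2 hcl), LinearMap.zero_apply, LinearMap.zero_apply]
        · rw [hF'2 p q hcl, hF'2 _ _ (fun h => hcl ((hClT p q).1 h))]
          exact hT p q v
      have hA' : ∀ x, x ∉ A → ∀ q, F' (cst x) q = 0 := by
        intro x hx q
        by_contra hne
        exact (hF'ne _ _ hne).2 (hA x hx q)
      have hE' : ∀ q, q ∉ E → ∀ p, F' p q = 0 := by
        intro q hq p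
        by_contra hne
        exact (hF'ne _ _ hne).2 (hE q hq p)
      have hlt : ((A ×ˢ E).filter (fun z => F' (cst z.1) z.2 ≠ 0)).card < N := by
        rw [hN]
        apply Finset.card_lt_card
        rw [Finset.ssubset_iff_of_subset]
        · refine ⟨(x₀, q₀), ?_, ?_⟩
          · rw [Finset.mem_filter, Finset.mem_product]
            exact ⟨⟨hx₀, hq₀⟩, hne₀⟩
          · rw [Finset.mem_filter]
            rintro ⟨-, h⟩
            apply (hF'ne _ _ h).1
            refine ⟨0, ?_⟩
            have e1 : cst x₀ + 0 * (lX : ℤ) = a₀ := by rw [ha₀]; ring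
            show Cn X w o a₀ q₀ (cst x₀ + 0 * (lX : ℤ)) q₀
            rw [e1]
            exact Cn.refl
        · intro z hz
          rw [Finset.mem_filter] at hz ⊢
          exact ⟨hz.1, (hF'ne _ _ hz.2).2⟩
      obtain ⟨n, oo, cc, qq, φ, h1, h2⟩ := ih _ hlt F' hK' hT' hA' hE' rfl
      have hper : ∀ q, Per lX (fun p => F p q (c p)) := by
        intro q p
        show F (p + lX) q (c (p + lX)) = F p q (c p)
        rw [hT, hc]
      have hsum : ∀ q, ∑ x ∈ A, F (cst x) q (c (cst x)) =
          push X w o a₀ q₀ (fun c' => F a₀ q₀ (c c')) q + ∑ x ∈ A, F' (cst x) q (c (cst x)) := by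
        intro q
        have e1 : ∑ x ∈ A, (if Cl (cst x) q then F (cst x) q (c (cst x)) else 0) =
            push X w o a₀ q₀ (fun c' => F a₀ q₀ (c c')) q := by
          by_cases hex : ∃ c', Cn X w o a₀ q₀ c' q
          · obtain ⟨c', hc'⟩ := hex
            rw [push_eq hc']
            have hval : F (cst (c' : ZMod lX)) q (c (cst (c' : ZMod lX))) = F a₀ q₀ (c c') := by
              have h3 := (hper q).cst c'
              have h4 : F (cst (c' : ZMod lX)) q (c (cst (c' : ZMod lX))) = F c' q (c c') := h3
              rw [h4, hc'.ker hF hm0]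
            have hCl : Cl (cst (c' : ZMod lX)) q := by
              obtain ⟨j, hj⟩ := cst_int (l := lX) c'
              refine ⟨-j, ?_⟩
              have e2 : cst (c' : ZMod lX) + -j * (lX : ℤ) = c' := by rw [hj]; ring
              rw [e2]
              exact hc'
            rw [Finset.sum_eq_single (c' : ZMod lX), if_pos hCl, hval]
            · intro y _ hy
              rw [if_neg]
              rintro ⟨j, hj⟩
              apply hy
              have e2 : cst y + j * (lX : ℤ) = c' := hj.unique_left hc'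
              have e3 := congrArg (fun z : ℤ => (z : ZMod lX)) e2
              rw [Int.cast_add, Int.cast_mul, cst_coe, Int.cast_natCast, ZMod.natCast_self, mul_zero,
                add_zero] at e3
              exact e3
            · intro hnot
              rw [if_pos hCl, hA _ hnot q, LinearMap.zero_apply]
          · rw [push_zero hex]
            refine Finset.sum_eq_zero fun x _ => ?_
            rw [if_neg]
            rintro ⟨j, hj⟩
            exact hex ⟨_, hj⟩
        rw [← e1, ← Finset.sum_add_distrib]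
        refine Finset.sum_congr rfl fun x _ => ?_
        by_cases hcl : Cl (cst x) q
        · rw [if_pos hcl, hF'1 _ _ hcl, LinearMap.zero_apply, add_zero]
        · rw [if_neg hcl, hF'2 _ _ hcl, zero_add]
      refine ⟨n + 1, Fin.cons o oo, Fin.cons a₀ cc, Fin.cons q₀ qq, Fin.cons (F a₀ q₀) φ, ?_, ?_⟩
      · intro i
        refine Fin.cases ?_ (fun i => ?_) i
        · exact ⟨hm0, hl0, hf0, hne1⟩
        · obtain ⟨g1, g2, g3, g4⟩ := h1 i
          exact ⟨g1, g2, g3, (hF'ne _ _ g4).2⟩
      · intro q
        rw [hsum q, h2 q, Fin.sum_univ_succ]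
        rfl

end StrAlg
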