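import Pool.Agent.Lib.MP_b9fd58_lc.GSnd2

/-!
# Stage 2: the operators on the localised string module
-/

set_option autoImplicit false

namespace StrAlg

open Module

variable {D : Dat} {k : Type} [Field k] {S : Sides D}

/-- In an UP tail the word backwards decreases. -/
theorem UpT.back_lt {w : Ln (Fin D.nV) S.nx} {e : Bool} {p₁ : ℤ} {l : ℕ} (h : w.UpT e p₁ l) {q : ℤ} (hq : Bey e p₁ q)
    (i : ℕ) : Mt w w true (stn e (((i + 1 : ℕ) : ℤ) * l) q) q ∧ ¬ LeD w w true (stn e (((i + 1 : ℕ) : ℤ) * l) q) q := by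
  obtain ⟨j, rfl⟩ : ∃ j : ℕ, q = stn e j p₁ := by
    cases e
    · refine ⟨(p₁ - q).toNat, ?_⟩
      simp at hq ⊢; omega
    · refine ⟨(q - p₁).toNat, ?_⟩
      simp at hq ⊢; omega
  -- periodicity
  have hvn : ∀ (t n : ℕ), w.v (stn e ((n + t * l : ℕ) : ℤ) p₁) = w.v (stn e n p₁) := by
    intro t
    induction t with
    | zero => intro n; simp
    | succ t ih =>
      intro n
      rw [show n + (t + 1) * l = (n + t * l) + l by ring, h.v, ih]
  have hrn : ∀ (t n : ℕ), w.r (stn e ((n + t * l : ℕ) : ℤ) p₁) = w.r (stn e n p₁) := by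
    intro t
    induction t with
    | zero => intro n; simp
    | succ t ih =>
      intro n
      rw [show n + (t + 1) * l = (n + t * l) + l by ring, h.r, ih]
  have hln : ∀ (t n : ℕ), w.lt e (stn e ((n + t * l : ℕ) : ℤ) p₁) = w.lt e (stn e n p₁) := by
    intro t
    induction t with
    | zero => intro n; simp
    | succ t ih =>
      intro n
      rw [show n + (t + 1) * l = (n + t * l) + l by ring, h.lt, ih]
  have hback : ∀ (n : ℕ), w.lt (!e) (stn e ((n + 1 : ℕ) : ℤ) p₁) = (w.lt e (stn e n p₁)).rev := by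
    intro n
    have e1 : stn e ((n + 1 : ℕ) : ℤ) p₁ = st e (stn e n p₁) := by rw [← stn_one, stn_stn]; push_cast; rfl
    rw [e1, Ln.lt_back]
  have hlb : ∀ (t n : ℕ), 0 < n → w.lt (!e) (stn e ((n + t * l : ℕ) : ℤ) p₁) = w.lt (!e) (stn e n p₁) := by
    intro t n hn
    obtain ⟨n, rfl⟩ : ∃ m, n = m + 1 := ⟨n - 1, by omega⟩
    rw [show n + 1 + t * l = (n + t * l) + 1 by ring, hback, hback, hln]
  have e0 : ∀ t : ℕ, stn e (((t : ℕ) : ℤ) * l) (stn e j p₁) = stn e ((j + t * l : ℕ) : ℤ) p₁ := by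
    intro t
    rw [stn_stn]; push_cast; rfl
  rw [e0]
  refine ⟨⟨hvn _ _, ?_⟩, ?_⟩
  · rw [hrn]; simp
  · intro hle
    have h1 := hle (!e)
    have e1 : ((!e) == true) = !e := by cases e <;> rfl
    rw [e1] at h1
    revert h1
    rw [imp_false, not_WLe_iff]
    have hst : ∀ n i : ℕ, i ≤ n → stn (!e) i (stn e n p₁) = stn e ((n - i : ℕ) : ℤ) p₁ := by
      intro n i hi
      cases e <;> simp <;> omega
    refine ⟨j, ?_, ?_⟩
    · intro i' hi'
      rw [Ln.wdd_apply, Ln.wdd_apply, hst _ _ hi'.le, hst _ _ (by omega)]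
      rw [show j + (i + 1) * l - i' = (j - i') + (i + 1) * l by omega, hlb _ _ (by omega)]
    · rw [Ln.wdd_apply, Ln.wdd_apply, hst _ _ le_rfl, hst _ _ (by omega)]
      have e2 : j + (i + 1) * l - j = l + i * l := by
        rw [Nat.add_sub_cancel_left]; ring
      rw [e2, hlb _ _ h.pos, Nat.sub_self]
      simpa using h.up

/-- the diagonal values with a dual chain do not change under `χ(σ_e)` -/
theorem diag_pvL (w : Str S) {N : Md D k} {ξ : ℤ → N.C →ₗ[k] k} (hξ : ∀ q, DcAt N.Q S.ends w.L ξ q)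
    (hξ0 : ∀ q, q ∉ w.Z → ξ q = 0) {Θ : (w.Mloc k).C →ₗ[k] N.C} (hΘ : (w.Mloc k).Hom N Θ) (e : Bool)
    {χ : Polynomial k} (hχ : χ.coeff 0 = 1) (q : ℤ) : ξ q (Θ (pvL w e hχ (zL w q))) = ξ q (Θ (zL w q)) := by
  have hK : IsKer0 w.L w.L (fun q r => ξ r (Θ (zL w q))) := by
    refine (ker_KHv (fun q => (zL_ch w q).map hΘ) (fun r => DcW_iff.2 (hξ r)) ?_ ?_).isKer0 w.ok w.ok
    · intro q hq
      refine w.Zabs q ?_
      by_contra hcon
      apply hq
      simp only [zL_zero w hcon, map_zero]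
    · intro r hr
      refine w.Zabs r ?_
      by_contra hcon
      exact hr (hξ0 r hcon)
  rw [pvL_zL, hχ, one_smul, map_add, map_add, map_sum, map_sum]
  refine (congrArg (fun x => ξ q (Θ (zL w q)) + x) (Finset.sum_eq_zero ?_)).trans (add_zero _)
  intro i _
  rw [map_smul, map_smul]
  cases hd : w.L.tailD e with
  | none => simp
  | some x =>
    simp only
    split_ifs with hB
    · obtain ⟨m1, m2⟩ := UpT.back_lt (Ln.tailD_some hd) hB i
      have h0 : ξ q (Θ (zL w (stn e (((i + 1 : ℕ) : ℤ) * x.2) q))) = 0 := by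
        by_contra hne
        exact m2 (hK.le _ _ _ m1 hne)
      rw [h0, smul_zero]
    · rw [map_zero, map_zero, smul_zero]

/-- kernels of homs composed with the operators that kill the automorphism have finite classes -/
theorem isKer_pv (w : Str S) (hw : w.Aper) {y : Str S} {lY : ℕ} {VY : Type} [AddCommGroup VY] [Module k VY]
    {TY : VY ≃ₗ[k] VY} (hy : y.PerOK lY TY) (finY : lY = 0 → y.Z.Finite) (hprim : 0 < lY → ∀ l', y.L.IsPer l' → lY ∣ l')
    {χ₁ χ₂ : Polynomial k} (c1 : χ₁.coeff 0 = 1) (c2 : χ₂.coeff 0 = 1)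
    (k1 : Kills TY ((w.L.tailD true).elim 0 (fun x => x.2 / lY)) χ₁)
    (k2 : Kills TY ((w.L.tailD false).elim 0 (fun x => x.2 / lY)) χ₂)
    {Γ : (w.Mloc k).C →ₗ[k] (y.ME lY TY hy).C} (hΓhom : (w.Mloc k).Hom (y.ME lY TY hy) Γ) :
    IsKer w.L y.L (fun q r => xiE hy r (Γ (pvL w true c1 (pvL w false c2 (zL w q))))) := by
  obtain ⟨Γ1, hΓ1d⟩ : ∃ Γ1 : (w.Mloc k).C →ₗ[k] (y.ME lY TY hy).C, Γ1 = Γ ∘ₗ pvL w true c1 := ⟨_, rfl⟩
  have hΓ1hom : (w.Mloc k).Hom (y.ME lY TY hy) Γ1 := by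
    intro g m
    rw [hΓ1d, LinearMap.comp_apply, pvL_hom, hΓhom]; rfl
  obtain ⟨G', hG'd⟩ : ∃ G' : (w.Mloc k).C →ₗ[k] (y.ME lY TY hy).C, G' = Γ1 ∘ₗ pvL w false c2 := ⟨_, rfl⟩
  have hG'hom : (w.Mloc k).Hom (y.ME lY TY hy) G' := by
    intro g m
    rw [hG'd, LinearMap.comp_apply, pvL_hom, hΓ1hom]; rfl
  have hgoal : (fun q r => xiE hy r (Γ (pvL w true c1 (pvL w false c2 (zL w q))))) =
      fun q r => xiE hy r (G' (zL w q)) := by
    rw [hG'd, hΓ1d]; rfl
  rw [hgoal]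
  rcases Nat.eq_zero_or_pos lY with h0 | h0
  · exact (kerL_isKer0 w hy hG'hom).isKer_of_fn (Str.fn_of_fin (finY h0))
  · have e1 : kop true (w.L.tailD true) χ₁ (fun q r => xiE hy r (Γ (zL w q))) =
        fun q r => xiE hy r (Γ1 (zL w q)) := by rw [hΓ1d]; exact kop_ker w true c1 Γ (xiE hy)
    have e2 : kop false (w.L.tailD false) χ₂ (fun q r => xiE hy r (Γ1 (zL w q))) =
        fun q r => xiE hy r (G' (zL w q)) := by rw [hG'd]; exact kop_ker w false c2 Γ1 (xiE hy)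
    have hkill : ∀ (e : Bool) (χ : Polynomial k),
        Kills TY ((w.L.tailD e).elim 0 (fun x => x.2 / lY)) χ →
        ∀ x ∈ w.L.tailD e, ∀ n, x.2 = lY * n → Kills TY n χ := by
      intro e χ hk x hx n hn
      have hx' : w.L.tailD e = some x := hx
      rw [hx'] at hk
      have : x.2 / lY = n := by rw [hn, Nat.mul_div_cancel_left _ h0]
      simp only [Option.elim_some, this] at hk
      exact hk
    have zG : ∀ (Δ : (w.Mloc k).C →ₗ[k] (y.ME lY TY hy).C) (q r : ℤ), xiE hy r (Δ (zL w q)) ≠ 0 → q ∈ w.Z := by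
      intro Δ q r hne
      by_contra hcon
      apply hne
      rw [zL_zero w hcon, map_zero, map_zero]
    have h3 := isKer_kop (kerL_isKer0 w hy hΓhom) h0 hy.per (hprim h0) TY hw.asym w.cl (zG Γ)
      (fun q r => cfE_per hy _ r) c1 c2 (hkill true _ k1) (hkill false _ k2)
      (by rw [e1]; exact kerL_isKer0 w hy hΓ1hom)
      (by rw [e1]; exact zG Γ1)
      (by rw [e1]; exact fun q r => cfE_per hy _ r)
      (by rw [e1, e2]; exact kerL_isKer0 w hy hG'hom)
    rw [e1, e2] at h3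
    exact h3

theorem coeff_prod_one {J : Type} (s : Finset J) (f : J → Polynomial k) (h : ∀ j, (f j).coeff 0 = 1) :
    (∏ j ∈ s, f j).coeff 0 = 1 := by
  classical
  induction s using Finset.induction_on with
  | empty => simp
  | insert a s ha ih => rw [Finset.prod_insert ha]; exact coeff_mul_zero' (h a) ih

/-- **The operator `σ = χ₁(σ_R) χ₂(σ_L)`** on the localised module and its inverse `τ`: finitely many elements become finitely supported, all
homomorphisms to finitely many blocks get finite classes, and the diagonal values with a dual chain do not change. -/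
theorem exists_s (w : Str S) (hw : w.Aper) {ι : Type} (s : Finset ι) (m : ι → (w.Mloc k).C) {J : Type} [Fintype J]
    (Y : J → Blk S k) :
    ∃ (σ τ : (w.Mloc k).C →ₗ[k] (w.Mloc k).C) (B : Finset ℤ), (w.Mloc k).Hom (w.Mloc k) σ ∧ (w.Mloc k).Hom (w.Mloc k) τ ∧
      (∀ m, σ (τ m) = m) ∧ (∀ m, τ (σ m) = m) ∧ (∀ i ∈ s, ∀ q, q ∉ B → cfL w (σ (m i)) q = 0) ∧
      (∀ j (Γ : (w.Mloc k).C →ₗ[k] (Y j).M.C), (w.Mloc k).Hom (Y j).M Γ →
        IsKer w.L (Y j).x.L (fun q r => xiE (Y j).ok r (Γ (σ (zL w q))))) ∧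
      (∀ (N : Md D k) (ξ : ℤ → N.C →ₗ[k] k), (∀ q, DcAt N.Q S.ends w.L ξ q) → (∀ q, q ∉ w.Z → ξ q = 0) →
        ∀ Θ : (w.Mloc k).C →ₗ[k] N.C, (w.Mloc k).Hom N Θ → ∀ q ∈ w.Z, ξ q (Θ (σ (zL w q))) = ξ q (Θ (zL w q))) := by
  classical
  choose κt dt kt using fun j => exists_kills (Y j).T ((w.L.tailD true).elim 0 (fun x => x.2 / (Y j).l))
  choose κf df kf using fun j => exists_kills (Y j).T ((w.L.tailD false).elim 0 (fun x => x.2 / (Y j).l))
  obtain ⟨χt, χf, c1, c2, B, hB⟩ := exists_fin w s m (∏ j, κt j) (∏ j, κf j) (coeff_prod_one _ _ dt)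
    (coeff_prod_one _ _ df)
  have hσhom : (w.Mloc k).Hom (w.Mloc k) (pvL w true c1 ∘ₗ pvL w false c2) := by
    intro g m
    rw [LinearMap.comp_apply, LinearMap.comp_apply, pvL_hom, pvL_hom]
  obtain ⟨si, hsi, hsi1, hsi2⟩ := exists_inv_hom (f := pvL w true c1 ∘ₗ pvL w false c2) hσhom
    ((pvL_bij w true c1).comp (pvL_bij w false c2))
  refine ⟨pvL w true c1 ∘ₗ pvL w false c2, si, B, hσhom, hsi, hsi1, hsi2, hB, ?_, ?_⟩
  · intro j Γ hΓhom
    have hkt : Kills (Y j).T ((w.L.tailD true).elim 0 (fun x => x.2 / (Y j).l)) (χt * ∏ j, κt j) := by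
      rw [← Finset.prod_erase_mul Finset.univ κt (Finset.mem_univ j), ← mul_assoc]
      exact (kt j).mul _
    have hkf : Kills (Y j).T ((w.L.tailD false).elim 0 (fun x => x.2 / (Y j).l)) (χf * ∏ j, κf j) := by
      rw [← Finset.prod_erase_mul Finset.univ κf (Finset.mem_univ j), ← mul_assoc]
      exact (kf j).mul _
    exact isKer_pv w hw (Y j).ok (Y j).fin (fun hl => (Y j).prim hl) c1 c2 hkt hkf hΓhom
  · intro N ξ hξ hξ0 Θ hΘ q _
    have h1 : (w.Mloc k).Hom N (Θ ∘ₗ pvL w true c1) := by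
      intro g m
      rw [LinearMap.comp_apply, pvL_hom, hΘ]; rfl
    have h2 := diag_pvL w hξ hξ0 h1 false c2 q
    have h3 := diag_pvL w hξ hξ0 hΘ true c1 q
    exact h2.trans h3

end StrAlg
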